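import Pool.Agent.P.MP_0a0487_an.SX.Apri

/-! The monopole equations for large positive and negative perturbations. -/

set_option autoImplicit false
set_option linter.unusedSectionVars false

noncomputable section

namespace SX4

open scoped ComplexOrder ContDiff
open Filter Topology

variable {P A : Type} [TopologicalSpace P] [CompactSpace P] [CommRing A] [StarRing A] [Algebra ℂ A]
  [StarModule ℂ A] {B : Base P A}

theorem ends_inj [Nonempty P] (B : Base P A) {z z' : ℂ}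
    (h : algebraMap ℂ A z = algebraMap ℂ A z') : z = z' := by
  obtain ⟨p⟩ := ‹Nonempty P›
  have := congrArg (fun s => B.ev s p) h
  simpa [Algebra.algebraMap_eq_smul_one] using this

theorem ends_star_alg (z : ℂ) : star (algebraMap ℂ A z) = algebraMap ℂ A (star z) := by
  simp [Algebra.algebraMap_eq_smul_one]

theorem ends_II : algebraMap ℂ A Complex.I * algebraMap ℂ A Complex.I = -1 := by
  rw [← map_mul, Complex.I_mul_I, map_neg, map_one]

theorem ends_star_I (s : A) : star (Complex.I • s) = -(Complex.I • star s) := by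
  rw [star_smul, Complex.star_def, Complex.conj_I, neg_smul]

namespace Pre

variable (G : Pre B)

theorem ends_e0 : G.e1.c 0 = 1 := rfl

theorem ends_e1 : G.e1.c 1 = 0 := rfl

theorem ends_sig0 (ψ s : G.Sec (wp 0)) : (G.sig ψ s).c 0 =
    (Complex.I / 4) • (star (ψ.c 0) * s.c 0 + star (s.c 0) * ψ.c 0 -
      star (ψ.c 1) * s.c 1 - star (s.c 1) * ψ.c 1) := rfl

theorem ends_sig1 (ψ s : G.Sec (wp 0)) : (G.sig ψ s).c 1 =
    (Complex.I / 2) • (star (ψ.c 0) * s.c 1 + star (s.c 0) * ψ.c 1) := rfl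

theorem ends_dir0 (w : Wt) (s : G.Sec (wp w)) :
    (G.dirac w s).c 0 = G.D 1 (s.c 0) - G.Dt 2 (s.c 1) := rfl

theorem ends_dir1 (w : Wt) (s : G.Sec (wp w)) :
    (G.dirac w s).c 1 = G.D 3 (s.c 0) + G.Dt 0 (s.c 1) := rfl

theorem ends_Zq0 (χ : G.Sec (wm 0)) : (G.Zq χ).c 0 = 0 := rfl

theorem ends_pert (c : ℝ) :
    -Complex.I • ((((c : ℂ) ^ 2 * Complex.I / 2) • (1 : A)) -
      star (((c : ℂ) ^ 2 * Complex.I / 2) • (1 : A))) = algebraMap ℂ A ((c ^ 2 : ℝ) : ℂ) := by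
  rw [star_smul, star_one, ← sub_smul, smul_smul, Algebra.algebraMap_eq_smul_one]
  congr 1
  simp only [star_div₀, star_mul', star_pow, Complex.star_def, Complex.conj_ofReal, Complex.conj_I,
    map_ofNat]
  push_cast
  linear_combination (-(c : ℂ) ^ 2) * Complex.I_mul_I

/-- The pairing of a spinor with the linearised quadratic term. -/
theorem ends_inner_sig (ψ : G.Sec (wp 0)) :
    inner ℝ ψ (Complex.I • G.sig G.e1 ψ) =
      -(G.nrm (ψ.c 0 + star (ψ.c 0)) ^ 2 / 8) - G.nrm (ψ.c 1) ^ 2 / 2 := by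
  have e0 : star (ψ.c 0) * (Complex.I • G.sig G.e1 ψ).c 0 =
      (-1 / 4 : ℂ) • (star (ψ.c 0) * (ψ.c 0 + star (ψ.c 0))) := by
    rw [Sec.c_smul, ends_sig0, ends_e0, ends_e1, smul_smul, mul_smul_comm]
    congr 1
    · linear_combination (1 / 4 : ℂ) * Complex.I_mul_I
    · simp
  have e1 : star (ψ.c 1) * (Complex.I • G.sig G.e1 ψ).c 1 =
      (-1 / 2 : ℂ) • (star (ψ.c 1) * ψ.c 1) := by
    rw [Sec.c_smul, ends_sig1, ends_e0, ends_e1, smul_smul, mul_smul_comm]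
    congr 1
    · linear_combination (1 / 2 : ℂ) * Complex.I_mul_I
    · simp
  have e2 : G.nrm (ψ.c 0 + star (ψ.c 0)) ^ 2 =
      2 * (G.I (star (ψ.c 0) * (ψ.c 0 + star (ψ.c 0)))).re := by
    have h1 : star (ψ.c 0 + star (ψ.c 0)) * (ψ.c 0 + star (ψ.c 0)) =
        star (ψ.c 0) * (ψ.c 0 + star (ψ.c 0)) +
          star (star (ψ.c 0) * (ψ.c 0 + star (ψ.c 0))) := by
      simp only [star_add, star_mul', star_star]; ring
    rw [G.nrm_sq, h1, map_add, G.I_star, Complex.add_re, Complex.conj_re]; ring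
  rw [inner_real, Fin.sum_univ_two, e0, e1, map_smul, map_smul, e2, G.nrm_sq]
  simp only [smul_eq_mul, Complex.mul_re]
  norm_num
  ring

theorem ends_inner_Zq : ∃ C : ℝ, 0 ≤ C ∧ ∀ (ψ : G.Sec (wp 0)) (χ : G.Sec (wm 0)),
    inner ℝ ψ (Complex.I • G.Zq χ) ≤ C * (G.nrm (ψ.c 1) * ‖χ‖) := by
  obtain ⟨C, hC, h⟩ := G.Zq_zo.norm_le
  refine ⟨C, hC, fun ψ χ => ?_⟩
  rw [inner_real, Fin.sum_univ_two, Sec.c_smul, ends_Zq0, smul_zero, mul_zero, map_zero,
    Complex.zero_re, zero_add]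
  calc (G.I (star (ψ.c 1) * (Complex.I • G.Zq χ).c 1)).re
      ≤ ‖G.I (star (ψ.c 1) * (Complex.I • G.Zq χ).c 1)‖ := Complex.re_le_norm _
    _ ≤ G.nrm (ψ.c 1) * G.nrm ((Complex.I • G.Zq χ).c 1) := G.norm_I_le _ _
    _ = G.nrm (ψ.c 1) * G.nrm ((G.Zq χ).c 1) := by
        rw [Sec.c_smul, G.nrm_smul, Complex.norm_I, one_mul]
    _ ≤ G.nrm (ψ.c 1) * (C * ‖χ‖) :=
        mul_le_mul_of_nonneg_left ((Sec.nrm_le_norm _ _).trans (h χ)) (G.nrm_nonneg _)
    _ = C * (G.nrm (ψ.c 1) * ‖χ‖) := by ring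

/-- The 1-form that relates the two ends. -/
def endsB : G.Sec (wm 0) :=
  G.mk' ![-(Complex.I • G.τ 1), -(Complex.I • G.τ 3)]
    (mem2 (neg_mem (Submodule.smul_mem _ _ (by simpa [wm, wt] using (G.τ_spec 1).1)))
      (neg_mem (Submodule.smul_mem _ _ (by simpa [wm, wt] using (G.τ_spec 3).1))))

theorem endsB_0 : G.endsB.form 0 = Complex.I • G.τ 0 := by
  change star (-(Complex.I • G.τ 1)) = _
  rw [star_neg, ends_star_I, neg_neg, G.τ_star]; rfl

theorem endsB_1 : G.endsB.form 1 = -(Complex.I • G.τ 1) := rfl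

theorem endsB_2 : G.endsB.form 2 = Complex.I • G.τ 2 := by
  change star (-(Complex.I • G.τ 3)) = _
  rw [star_neg, ends_star_I, neg_neg, G.τ_star]; rfl

theorem endsB_3 : G.endsB.form 3 = -(Complex.I • G.τ 3) := rfl

theorem ends_star_X {a : Fin 4 → A} (ha : B.Re1 a) (γ : Fin 4) (s : A) :
    star (G.X a γ s) = G.D (bar γ) (star s) - Complex.I • (a (bar γ) * star s) := by
  rw [Calc.X, star_add, G.D_star, ends_star_I, star_mul', (ha γ).2, sub_eq_add_neg]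

theorem ends_dirEq {a : Fin 4 → A} (ha : B.Re1 a) {α β : A} (h : G.DirEq a α β) :
    G.DirEq (G.endsB.form - a) (star β) (-star α) := by
  obtain ⟨h1, h2⟩ := h
  have k1 := congrArg star h1
  have k2 := congrArg star h2
  simp only [star_add, star_neg, star_mul', G.ends_star_X ha, G.τ_star] at k1 k2
  have b0 : bar 0 = 1 := rfl
  have b1 : bar 1 = 0 := rfl
  have b2 : bar 2 = 3 := rfl
  have b3 : bar 3 = 2 := rfl
  rw [b1, b2] at k1
  rw [b3, b0] at k2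
  have hi := ends_II (A := A)
  constructor
  · simp only [Calc.X, Pi.sub_apply, endsB_1, endsB_2, map_neg, Algebra.smul_def] at k2 ⊢
    linear_combination k2 + (-(G.τ 1 * star β) + G.τ 2 * star α) * hi
  · simp only [Calc.X, Pi.sub_apply, endsB_3, endsB_0, map_neg, Algebra.smul_def] at k1 ⊢
    linear_combination -k1 + (-(G.τ 3 * star β) - G.τ 0 * star α) * hi

theorem ends_curv_sub (w : Wt) (a b : Fin 4 → A) (α β : Fin 4) :
    G.curv w (b - a) α β = G.curv w b α β - G.curv 0 a α β := by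
  have e : b - a = b + (-1 : ℂ) • a := by rw [neg_one_smul, sub_eq_add_neg]
  simp only [curv]
  rw [e, G.d1_add, G.d1_smul, G.Fw_zero, neg_one_smul, smul_add, smul_neg]
  ring

theorem ends_I_Fw (hF : ∀ j, G.I (lam (G.F j)) = 0) (w : Wt) : G.I (lam (G.Fw w)) = 0 := by
  have e : lam (G.Fw w) = (w.1 : ℂ) • lam (G.F 0) + (w.2 : ℂ) • lam (G.F 1) := by
    simp only [lam, Calc.Fw, smul_add]; ring
  rw [e, map_add, map_smul, map_smul, hF, hF]; simp

end Pre

namespace Geo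

variable (G : Geo B)

/-- The solutions at the first end are parallel. -/
theorem end_zero [Nonempty P] (h : G.AK) : ∃ c₀ : ℝ, ∀ c ≥ c₀, ∀ ψ χ,
    G.SW (((c : ℂ) ^ 2 * Complex.I / 2) • G.e1) ψ χ →
    G.Q χ = 0 ∧ ψ.c 1 = 0 ∧ star (ψ.c 0) * ψ.c 0 = algebraMap ℂ A ((c ^ 2 : ℝ) : ℂ) ∧
      ∀ γ, G.X χ.form γ (ψ.c 0) = 0 := by
  obtain ⟨r₀, hr⟩ := G.taubes h
  refine ⟨max 1 r₀, fun c hc ψ χ hs => ?_⟩
  have hc1 : 1 ≤ c := (le_max_left _ _).trans hc
  have hc2 : r₀ ≤ c := (le_max_right _ _).trans hc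
  obtain ⟨k1, k2⟩ := Pre.AK.sw_curv h hs
  rw [Pre.Sec.c_smul, Pre.ends_e0, Pre.ends_pert] at k1
  rw [Pre.Sec.c_smul, Pre.ends_e1, smul_zero, smul_zero, zero_sub] at k2
  obtain ⟨hβ, hα, hX⟩ := hr (c ^ 2) (by nlinarith) 0 χ.form (ψ.c 0) (ψ.c 1)
    (by simp [lam, G.Fw_zero]) χ.form_re (ψ.mem 0) (ψ.mem 1) ((G.dirEq_iff 0 χ ψ).1 hs.1) k1 k2
  have hsig : G.sig ψ ψ = ((c : ℂ) ^ 2 * Complex.I / 2) • G.e1 := by
    refine Pre.Sec.ext fun i => ?_
    fin_cases i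
    · change (G.sig ψ ψ).c 0 = (((c : ℂ) ^ 2 * Complex.I / 2) • G.e1).c 0
      rw [Pre.ends_sig0, hβ, hα, Pre.Sec.c_smul, Pre.ends_e0, Algebra.algebraMap_eq_smul_one,
        mul_zero, sub_zero, sub_zero, ← add_smul, smul_smul]
      congr 1
      push_cast; ring
    · change (G.sig ψ ψ).c 1 = (((c : ℂ) ^ 2 * Complex.I / 2) • G.e1).c 1
      rw [Pre.ends_sig1, hβ, Pre.Sec.c_smul, Pre.ends_e1]
      simp
  have hQ : G.Q χ = 0 := by
    have := hs.2
    rw [hsig] at this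
    simpa using this
  exact ⟨hQ, hβ, hα, hX⟩

/-- The canonical solution is nondegenerate. -/
theorem end_lin [Nonempty P] (h : G.AK) : ∃ c₀ : ℝ, ∀ c ≥ c₀, ∀ ψ χ,
    G.dirac 0 ψ + c • G.rho 0 χ G.e1 = 0 → G.Q χ + (2 * c) • G.sig G.e1 ψ = 0 →
    χ = 0 ∧ ∃ t : ℝ, ψ = ((t : ℂ) * Complex.I) • G.e1 := by
  have _ := h
  obtain ⟨C, hC, hZ⟩ := G.ends_inner_Zq
  refine ⟨C + 1, fun c hc ψ χ h1 h2 => ?_⟩
  rw [G.rho_e1] at h1
  have hadj : inner ℝ (G.dirac 0 ψ) (Complex.I • χ) =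
      inner ℝ ψ (Complex.I • G.diracAdj 0 χ) := by
    have := G.dirac_adj 0 ψ (Complex.I • χ)
    rw [G.diracAdj_smul, Pre.inner_complex, Pre.inner_complex] at this
    rw [Pre.inner_real, Pre.inner_real, ← Complex.re_sum, ← Complex.re_sum, this]
  have hd : G.diracAdj 0 χ = -((2 * c) • G.sig G.e1 ψ) - G.Zq χ := by
    have : G.Q χ = G.diracAdj 0 χ + G.Zq χ := rfl
    rw [this] at h2
    rw [eq_sub_iff_add_eq, eq_neg_iff_add_eq_zero, h2]
  have hd' : Complex.I • G.diracAdj 0 χ =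
      -((2 * c) • Complex.I • G.sig G.e1 ψ) - Complex.I • G.Zq χ := by
    rw [hd, smul_sub, smul_neg, smul_comm]
  have hD : G.dirac 0 ψ = -(c • Complex.I • χ) := eq_neg_of_add_eq_zero_left h1
  have hn : inner ℝ (Complex.I • χ) (Complex.I • χ) = ‖χ‖ ^ 2 := by
    rw [real_inner_self_eq_norm_sq, norm_smul, Complex.norm_I, one_mul]
  rw [hd', hD, inner_neg_left, real_inner_smul_left, hn, inner_sub_right, inner_neg_right,
    real_inner_smul_right, G.ends_inner_sig] at hadj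
  have hZ' := hZ ψ χ
  set x := ‖χ‖ with hx
  set y := G.nrm (ψ.c 1) with hy
  set u := G.nrm (ψ.c 0 + star (ψ.c 0)) with hu
  have hc0 : 0 < c := by linarith
  have key : c * (x ^ 2 + u ^ 2 / 4 + y ^ 2) ≤ C * (y * x) := by linarith
  have key2 : x ^ 2 + u ^ 2 / 4 + y ^ 2 ≤ 0 := by
    have e1 : C * (y * x) ≤ C * (x ^ 2 + u ^ 2 / 4 + y ^ 2) :=
      mul_le_mul_of_nonneg_left (by nlinarith [sq_nonneg (x - y), sq_nonneg u]) hC
    have e2 : 0 ≤ x ^ 2 + u ^ 2 / 4 + y ^ 2 := by positivity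
    nlinarith
  have hx0 : x = 0 := by nlinarith [sq_nonneg x, sq_nonneg u, sq_nonneg y]
  have hy0 : y = 0 := by nlinarith [sq_nonneg x, sq_nonneg u, sq_nonneg y]
  have hu0 : u = 0 := by nlinarith [sq_nonneg x, sq_nonneg u, sq_nonneg y]
  have hχ : χ = 0 := norm_eq_zero.1 hx0
  have hβ : ψ.c 1 = 0 := G.nrm_eq_zero ⟨_, ψ.mem 1⟩ hy0
  have hα : ψ.c 0 + star (ψ.c 0) = 0 :=
    G.nrm_eq_zero ⟨0, add_mem (ψ.mem 0) (B.star_mem' (ψ.mem 0) (by simp [wp]))⟩ hu0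
  have hs : star (ψ.c 0) = -ψ.c 0 := eq_neg_of_add_eq_zero_right hα
  refine ⟨hχ, ?_⟩
  rw [hχ, smul_zero, smul_zero, neg_zero] at hD
  have d1 : G.D 1 (ψ.c 0) = 0 := by
    have := congrArg (fun s => s.c 0) hD
    simpa [Pre.ends_dir0, hβ, Pre.Dt] using this
  have d3 : G.D 3 (ψ.c 0) = 0 := by
    have := congrArg (fun s => s.c 1) hD
    simpa [Pre.ends_dir1, hβ, Pre.Dt] using this
  have dbar : ∀ γ, G.D γ (ψ.c 0) = 0 → G.D (bar γ) (ψ.c 0) = 0 := by
    intro γ hγ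
    have := G.D_star γ (ψ.c 0)
    rw [hγ, star_zero, hs, map_neg] at this
    exact neg_eq_zero.1 this.symm
  have hDall : ∀ γ, G.D γ (ψ.c 0) = 0 := by
    intro γ
    fin_cases γ
    · exact dbar 1 d1
    · exact d1
    · exact dbar 3 d3
    · exact d3
  obtain ⟨z, hz⟩ := G.const _ (ψ.mem 0) hDall
  rw [hz, ends_star_alg, ← map_neg] at hs
  have hz2 := ends_inj B hs
  have hz3 : z = (z.im : ℂ) * Complex.I := by
    have := congrArg Complex.re hz2
    simp only [Complex.star_def, Complex.conj_re, Complex.neg_re] at this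
    apply Complex.ext <;> simp
    linarith
  refine ⟨z.im, Pre.Sec.ext fun i => ?_⟩
  rw [← hz3]
  fin_cases i
  · change ψ.c 0 = (z • G.e1).c 0
    rw [hz, Pre.Sec.c_smul, Pre.ends_e0, Algebra.algebraMap_eq_smul_one]
  · change ψ.c 1 = (z • G.e1).c 1
    rw [hβ, Pre.Sec.c_smul, Pre.ends_e1, smul_zero]

/-- A solution at the other end trivialises the canonical bundle. -/
theorem end_one [Nonempty P] (h : G.AK) (hF : ∀ j, G.I (lam (G.F j)) = 0) :
    ∃ φ : G.Sec (wp 0), inner ℂ G.e1 φ = 0 ∧ ∃ c₀ : ℝ, ∀ c ≥ c₀, ∀ ψ χ,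
      G.SW (φ - ((c : ℂ) ^ 2 * Complex.I / 2) • G.e1) ψ χ →
      ∃ u ∈ B.W (1, 1), ∀ p, B.ev u p ≠ 0 := by
  obtain ⟨r₀, hr⟩ := G.taubes h
  have hb : B.Re1 G.endsB.form := G.endsB.form_re
  have hb1 : B.Form1 G.endsB.form := fun γ => (hb γ).1
  have hL := G.lam_curv_re (1, 1) hb
  have h13 : G.curv (1, 1) G.endsB.form 1 3 ∈ B.W (wp 0 1) := by
    have e : wp 0 1 = wt 1 + wt 3 := by ext <;> simp [wp, wt]
    rw [e]
    exact add_mem (G.Fw_form (1, 1) 1 3).1 (Submodule.smul_mem _ _ (G.d1_form hb1 1 3).1)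
  let φ : G.Sec (wp 0) := G.mk' ![(Complex.I / 2) • lam (G.curv (1, 1) G.endsB.form),
      Complex.I • G.curv (1, 1) G.endsB.form 1 3]
    (mem2 (Submodule.smul_mem _ _ hL.1) (Submodule.smul_mem _ _ h13))
  have φ0 : φ.c 0 = (Complex.I / 2) • lam (G.curv (1, 1) G.endsB.form) := rfl
  have φ1 : φ.c 1 = Complex.I • G.curv (1, 1) G.endsB.form 1 3 := rfl
  have hFw := G.ends_I_Fw hF (1, 1)
  refine ⟨φ, ?_, max 1 r₀, fun c hc ψ χ hs => ?_⟩
  · have e : lam (G.curv (1, 1) G.endsB.form) =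
        lam (G.Fw (1, 1)) + Complex.I • lam (G.d1 G.endsB.form) := by
      simp only [lam, Pre.curv, smul_add]; ring
    rw [Pre.inner_complex, Fin.sum_univ_two, Pre.ends_e0, Pre.ends_e1, star_one, one_mul,
      star_zero, zero_mul, map_zero, add_zero, φ0, map_smul, e, map_add, map_smul, hFw,
      Pre.AK.d1 h hb1]
    simp
  have hc1 : 1 ≤ c := (le_max_left _ _).trans hc
  have hc2 : r₀ ≤ c := (le_max_right _ _).trans hc
  obtain ⟨k1, k2⟩ := Pre.AK.sw_curv h hs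
  have hp := Pre.ends_pert (A := A) c
  have hφ : -Complex.I • (φ.c 0 - star (φ.c 0)) = lam (G.curv (1, 1) G.endsB.form) := by
    rw [φ0, star_smul, hL.2, ← sub_smul, smul_smul]
    have : -Complex.I * (Complex.I / 2 - star (Complex.I / 2)) = 1 := by
      simp only [star_div₀, Complex.star_def, Complex.conj_I, map_ofNat]
      linear_combination (-1 : ℂ) * Complex.I_mul_I
    rw [this, one_smul]
  have k1' : lam (G.curv 0 χ.form) = lam (G.curv (1, 1) G.endsB.form) -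
      algebraMap ℂ A ((c ^ 2 : ℝ) : ℂ) - star (ψ.c 0) * ψ.c 0 + star (ψ.c 1) * ψ.c 1 := by
    rw [k1, ← hp, ← hφ, Pre.Sec.c_sub, Pre.Sec.c_smul, Pre.ends_e0, star_sub, ← smul_sub]
    congr 3
    ring
  have k2' : G.curv 0 χ.form 1 3 =
      G.curv (1, 1) G.endsB.form 1 3 - star (ψ.c 0) * ψ.c 1 := by
    rw [k2, Pre.Sec.c_sub, Pre.Sec.c_smul, Pre.ends_e1, smul_zero, sub_zero, φ1, smul_smul]
    have : -Complex.I * Complex.I = 1 := by linear_combination (-1 : ℂ) * Complex.I_mul_I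
    rw [this, one_smul]
  have ha := χ.form_re
  have hab : B.Re1 (G.endsB.form - χ.form) := fun γ =>
    ⟨sub_mem (hb γ).1 (ha γ).1, by
      simp only [Pi.sub_apply, star_sub, (hb γ).2, (ha γ).2]⟩
  have hu : star (ψ.c 1) ∈ B.W (1, 1) := B.star_mem' (ψ.mem 1) (by ext <;> simp [wp])
  have hv : -star (ψ.c 0) ∈ B.W ((1, 1) - (1, 1)) :=
    neg_mem (B.star_mem' (ψ.mem 0) (by ext <;> simp [wp]))
  obtain ⟨-, hα, -⟩ := hr (c ^ 2) (by nlinarith) (1, 1) (G.endsB.form - χ.form) (star (ψ.c 1))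
    (-star (ψ.c 0)) hFw hab hu hv (G.ends_dirEq ha ((G.dirEq_iff 0 χ ψ).1 hs.1))
    (by
      have e : lam (G.curv (1, 1) (G.endsB.form - χ.form)) =
          lam (G.curv (1, 1) G.endsB.form) - lam (G.curv 0 χ.form) := by
        simp only [lam, G.ends_curv_sub]; ring
      rw [e, k1', star_neg, star_star, star_star]; ring)
    (by rw [G.ends_curv_sub, k2', star_star]; ring)
  refine ⟨star (ψ.c 1), hu, fun p hp0 => ?_⟩
  have := congrArg (fun s => B.ev s p) hα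
  simp only [map_mul, ContinuousMap.mul_apply, hp0, mul_zero, Algebra.algebraMap_eq_smul_one,
    map_smul, map_one, ContinuousMap.smul_apply, ContinuousMap.one_apply, smul_eq_mul,
    mul_one] at this
  have h0 : (c ^ 2 : ℝ) = 0 := by exact_mod_cast this.symm
  nlinarith

end Geo

end SX4
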