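import Pool.Agent.P.MP_0a0487_an.SX.Defs

/-! The algebra is the direct sum of its homogeneous parts. -/

set_option autoImplicit false

noncomputable section

namespace SX4

variable {P A : Type} [TopologicalSpace P] [CommRing A] [StarRing A] [Algebra ℂ A]

/-- The algebra is the direct sum of its homogeneous parts. -/
def Base.Gr (B : Base P A) : Prop :=
  (∀ d : (w : Wt) → B.W w →ₗ[ℂ] A, ∃ D : A →ₗ[ℂ] A, ∀ w (s : B.W w), D s = d w s) ∧
    ∀ p : A → Prop, (∀ w, ∀ s ∈ B.W w, p s) → (∀ s t, p s → p t → p (s + t)) → ∀ s, p s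

end SX4
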