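import Pool.Agent.P.MP_0a0487_an.SX.ChgDefs
import Pool.Agent.P.MP_0a0487_an.SX.Integ

/-! Existence and properties of changes of frame. -/

set_option autoImplicit false
set_option linter.unusedSectionVars false

noncomputable section

namespace SX4

open scoped ComplexOrder ContDiff
open Filter Topology

variable {P A : Type} [TopologicalSpace P] [CompactSpace P] [CommRing A] [StarRing A] [Algebra ℂ A]
  [StarModule ℂ A] {B : Base P A}

theorem wg_tr2 {R : Type} [CommRing R] (g : Matrix (Fin 4) (Fin 4) R) {b b' : Fin 4 → Fin 4 → R}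
    (hb : ∀ α β, b β α = -b α β) (hb0 : ∀ α, b α α = 0) (hb' : ∀ α β, b' β α = -b' α β)
    (hb0' : ∀ α, b' α α = 0) : wg (tr2 g b) (tr2 g b') = g.det * wg b b' := by
  have hd : g.det =
      g 0 0 * (g 1 1 * (g 2 2 * g 3 3 - g 2 3 * g 3 2) - g 1 2 * (g 2 1 * g 3 3 - g 2 3 * g 3 1) +
        g 1 3 * (g 2 1 * g 3 2 - g 2 2 * g 3 1)) -
      g 0 1 * (g 1 0 * (g 2 2 * g 3 3 - g 2 3 * g 3 2) - g 1 2 * (g 2 0 * g 3 3 - g 2 3 * g 3 0) +
        g 1 3 * (g 2 0 * g 3 2 - g 2 2 * g 3 0)) +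
      g 0 2 * (g 1 0 * (g 2 1 * g 3 3 - g 2 3 * g 3 1) - g 1 1 * (g 2 0 * g 3 3 - g 2 3 * g 3 0) +
        g 1 3 * (g 2 0 * g 3 1 - g 2 1 * g 3 0)) -
      g 0 3 * (g 1 0 * (g 2 1 * g 3 2 - g 2 2 * g 3 1) - g 1 1 * (g 2 0 * g 3 2 - g 2 2 * g 3 0) +
        g 1 2 * (g 2 0 * g 3 1 - g 2 1 * g 3 0)) := by
    rw [Matrix.det_succ_row_zero]
    simp [Fin.sum_univ_four, Matrix.det_fin_three, Fin.succAbove]
    ring
  rw [hd]
  simp only [wg, tr2, Fin.sum_univ_four, hb0, hb0', hb 0 1, hb 0 2, hb 0 3, hb 1 2, hb 1 3, hb 2 3,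
    hb' 0 1, hb' 0 2, hb' 0 3, hb' 1 2, hb' 1 3, hb' 2 3]
  ring

theorem Base.Form2.diag {b : Fin 4 → Fin 4 → A} (hb : B.Form2 b) (α : Fin 4) : b α α = 0 := by
  have h := (hb α α).2
  have h2 : (2 : ℂ) • b α α = 0 := by
    rw [two_smul]
    exact add_eq_zero_iff_eq_neg.mpr h
  have h3 : ((2 : ℂ)⁻¹ * 2) • b α α = 0 := by rw [mul_smul, h2, smul_zero]
  rwa [inv_mul_cancel₀ two_ne_zero, one_smul] at h3

theorem chg_prod_mem {ι : Type} (S : Finset ι) {u : ι → Wt} {f : ι → A}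
    (hf : ∀ i, f i ∈ B.W (u i)) : ∏ i ∈ S, f i ∈ B.W (∑ i ∈ S, u i) := by
  classical
  induction S using Finset.induction_on with
  | empty => simpa using B.one_mem
  | insert a S ha ih =>
    rw [Finset.prod_insert ha, Finset.sum_insert ha]
    exact B.mul_mem (hf a) ih

theorem chg_det_mem {M : Matrix (Fin 4) (Fin 4) A} {u v : Fin 4 → Wt}
    (hM : ∀ i j, M i j ∈ B.W (u i - v j)) : M.det ∈ B.W (∑ i, u i - ∑ i, v i) := by
  rw [Matrix.det_apply]
  refine Submodule.sum_mem _ fun σ _ => ?_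
  have h := chg_prod_mem (B := B) Finset.univ (u := fun i => u (σ i) - v i)
    (f := fun i => M (σ i) i) (fun i => hM _ _)
  rw [Finset.sum_sub_distrib, Equiv.sum_comp σ u] at h
  rw [Units.smul_def]
  exact zsmul_mem h _

/-- `bar` as a permutation. -/
def chgBar : Equiv.Perm (Fin 4) := ⟨bar, bar, bar_bar, bar_bar⟩

theorem Base.Frame.det_re {g : Matrix (Fin 4) (Fin 4) A} (hg : B.Frame g) : B.Re0 g.det := by
  refine ⟨by simpa using chg_det_mem (B := B) hg.mem, ?_⟩
  have h1 : star g.det = (g.map (starRingEnd A)).det := by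
    rw [← RingHom.mapMatrix_apply, ← RingHom.map_det]
    rfl
  have h2 : g.map (starRingEnd A) = g.submatrix chgBar chgBar := by
    ext α β
    exact hg.star_eq α β
  rw [h1, h2, Matrix.det_submatrix_equiv_self]

theorem Base.Frame.form2 {g : Matrix (Fin 4) (Fin 4) A} (hg : B.Frame g) {b : Fin 4 → Fin 4 → A}
    (hb : B.Form2 b) : B.Form2 (tr2 g b) := by
  intro α β
  constructor
  · refine Submodule.sum_mem _ fun γ _ => Submodule.sum_mem _ fun δ _ => ?_
    exact B.mul_mem' (B.mul_mem (hg.mem α γ) (hg.mem β δ)) (hb γ δ).1 (by abel)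
  · simp only [tr2]
    rw [Finset.sum_comm, ← Finset.sum_neg_distrib]
    refine Finset.sum_congr rfl fun γ _ => ?_
    rw [← Finset.sum_neg_distrib]
    refine Finset.sum_congr rfl fun δ _ => ?_
    rw [(hb γ δ).2]
    ring

theorem chg_pos_of_mul {x y : A} (hx : B.Re0 x) (hp : ∀ p, 0 < (B.ev x p).re) (h : x * y = 1)
    (p : P) : 0 < (B.ev y p).re ∧ (B.ev y p).im = 0 := by
  have h1 : B.ev x p * B.ev y p = 1 := by
    rw [← ContinuousMap.mul_apply, ← map_mul, h, map_one, ContinuousMap.one_apply]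
  have him := (B.re0_iff.mp hx).2 p
  have hre := congrArg Complex.re h1
  have him2 := congrArg Complex.im h1
  simp only [Complex.mul_re, Complex.mul_im, him, zero_mul, sub_zero, add_zero, Complex.one_re,
    Complex.one_im] at hre him2
  refine ⟨(pos_iff_pos_of_mul_pos (by rw [hre]; exact one_pos)).mp (hp p), ?_⟩
  exact (mul_eq_zero.mp him2).resolve_left (hp p).ne'

theorem Calc.exists_frame_inv (G : Calc B) {g : Matrix (Fin 4) (Fin 4) A} (hg : B.Frame g) :
    ∃ g', B.Frame g' ∧ g * g' = 1 ∧ g' * g = 1 := by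
  obtain ⟨t, ht, htt⟩ := G.exists_inv hg.det_re.1 fun p h => by
    have := hg.pos p
    rw [h] at this
    simp at this
  have h1 : g * (t • g.adjugate) = 1 := by
    rw [Matrix.mul_smul, Matrix.mul_adjugate, smul_smul, mul_comm t, htt, one_smul]
  have h2 : (t • g.adjugate) * g = 1 := by
    rw [Matrix.smul_mul, Matrix.adjugate_mul, smul_smul, mul_comm t, htt, one_smul]
  refine ⟨t • g.adjugate, ⟨fun α β => ?_, fun α β => ?_, fun p => ?_⟩, h1, h2⟩
  · rw [Matrix.smul_apply, smul_eq_mul, Matrix.adjugate_apply]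
    have h := chg_det_mem (B := B) (M := g.updateRow β (Pi.single α 1))
      (u := Function.update wt β (wt α)) (v := wt) fun i j => by
        by_cases hi : i = β
        · subst hi
          rw [Matrix.updateRow_self, Function.update_self]
          by_cases hj : j = α
          · subst hj
            simpa using B.one_mem
          · rw [Pi.single_eq_of_ne hj]
            exact zero_mem _
        · rw [Matrix.updateRow_ne hi, Function.update_of_ne hi]
          exact hg.mem i j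
    refine B.mul_mem' ht h ?_
    rw [Finset.sum_update_of_mem (Finset.mem_univ β),
      ← Finset.add_sum_erase Finset.univ wt (Finset.mem_univ β), Finset.sdiff_singleton_eq_erase]
    abel
  · set g' := t • g.adjugate with hg'
    have h3 : g * (Matrix.of fun α β => star (g' (bar α) (bar β))) = 1 := by
      ext α β
      have h4 := congrFun (congrFun h1 (bar α)) (bar β)
      have h5 := congrArg star h4
      rw [Matrix.mul_apply, star_sum, ← sum_bar] at h5
      rw [Matrix.mul_apply]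
      simp only [Matrix.of_apply]
      have h6 : star ((1 : Matrix (Fin 4) (Fin 4) A) (bar α) (bar β)) =
          (1 : Matrix (Fin 4) (Fin 4) A) α β := by
        have : bar α = bar β ↔ α = β := chgBar.injective.eq_iff
        simp only [Matrix.one_apply, this]
        split_ifs <;> simp
      rw [← h6, ← h5]
      refine Finset.sum_congr rfl fun γ _ => ?_
      rw [star_mul', hg.star_eq, bar_bar, bar_bar]
    have h7 : (Matrix.of fun α β => star (g' (bar α) (bar β))) = g' := by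
      rw [← Matrix.one_mul (Matrix.of _), ← h2, Matrix.mul_assoc, h3, Matrix.mul_one]
    have h8 := congrFun (congrFun h7 (bar α)) (bar β)
    simpa only [Matrix.of_apply, bar_bar] using h8
  · refine (chg_pos_of_mul hg.det_re hg.pos ?_ p).1
    rw [← Matrix.det_mul, h1, Matrix.det_one]

section calcs

variable {G G' : Calc B} {g : Matrix (Fin 4) (Fin 4) A}

theorem chg_D_inv (hD : ∀ α s, G'.D α s = ∑ β, g α β * G.D β s) {g' : Matrix (Fin 4) (Fin 4) A}
    (h1 : g' * g = 1) (α : Fin 4) (s : A) : G.D α s = ∑ β, g' α β * G'.D β s := by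
  simp only [hD, Finset.mul_sum]
  rw [Finset.sum_comm]
  have : ∀ γ, ∑ β, g' α β * (g β γ * G.D γ s) = (g' * g) α γ * G.D γ s := fun γ => by
    rw [Matrix.mul_apply, Finset.sum_mul]
    exact Finset.sum_congr rfl fun β _ => (mul_assoc _ _ _).symm
  simp only [this, h1, Matrix.one_apply]
  simp

theorem chg_dd (hD : ∀ α s, G'.D α s = ∑ β, g α β * G.D β s) (p q : A) :
    G'.dd p q = tr2 g (G.dd p q) := by
  funext α β
  simp only [Calc.dd, w1, Calc.d0, tr2, hD, Fin.sum_univ_four]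
  ring

end calcs

/-- The first order coefficients of the commutator of the new frame fields. -/
def chgCoef (G : Calc B) (g : Matrix (Fin 4) (Fin 4) A) (α β μ : Fin 4) : A :=
  ∑ γ, (g α γ * G.D γ (g β μ) - g β γ * G.D γ (g α μ)) + ∑ γ, ∑ δ, g α γ * g β δ * G.T γ δ μ

theorem chg_comm (G : Calc B) (g : Matrix (Fin 4) (Fin 4) A) {w : Wt} {s : A} (hs : s ∈ B.W w)
    (α β : Fin 4) :
    ∑ γ, g α γ * G.D γ (∑ δ, g β δ * G.D δ s) - ∑ γ, g β γ * G.D γ (∑ δ, g α δ * G.D δ s) =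
      ∑ μ, chgCoef G g α β μ * G.D μ s + tr2 g (G.Fw w) α β * s := by
  have hc : ∀ γ δ, G.D γ (G.D δ s) =
      G.D δ (G.D γ s) + (∑ μ, G.T γ δ μ * G.D μ s + G.Fw w γ δ * s) := fun γ δ => by
    rw [← G.comm hs γ δ]
    ring
  have e1 : ∑ γ, g α γ * G.D γ (∑ δ, g β δ * G.D δ s) =
      ∑ μ, (∑ γ, g α γ * G.D γ (g β μ)) * G.D μ s +
        ∑ γ, ∑ δ, g α γ * g β δ * G.D γ (G.D δ s) := by
    simp only [map_sum, G.D_mul, Finset.mul_sum, Finset.sum_mul, mul_add, Finset.sum_add_distrib,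
      mul_assoc]
    rw [Finset.sum_comm]
  have e2 : ∑ γ, g β γ * G.D γ (∑ δ, g α δ * G.D δ s) =
      ∑ μ, (∑ γ, g β γ * G.D γ (g α μ)) * G.D μ s +
        ∑ γ, ∑ δ, g α γ * g β δ * G.D δ (G.D γ s) := by
    simp only [map_sum, G.D_mul, Finset.mul_sum, Finset.sum_mul, mul_add, Finset.sum_add_distrib,
      mul_assoc]
    rw [Finset.sum_comm]
    congr 1
    rw [Finset.sum_comm]
    refine Finset.sum_congr rfl fun γ _ => Finset.sum_congr rfl fun δ _ => ?_
    ring
  have e3 : ∑ γ, ∑ δ, g α γ * g β δ * G.D γ (G.D δ s) =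
      ∑ γ, ∑ δ, g α γ * g β δ * G.D δ (G.D γ s) +
        (∑ μ, (∑ γ, ∑ δ, g α γ * g β δ * G.T γ δ μ) * G.D μ s + tr2 g (G.Fw w) α β * s) := by
    have e4 : ∑ μ, (∑ γ, ∑ δ, g α γ * g β δ * G.T γ δ μ) * G.D μ s =
        ∑ γ, ∑ δ, g α γ * g β δ * ∑ μ, G.T γ δ μ * G.D μ s := by
      simp only [Finset.sum_mul, Finset.mul_sum, mul_assoc]
      rw [Finset.sum_comm]
      refine Finset.sum_congr rfl fun γ _ => ?_
      rw [Finset.sum_comm]
    rw [e4, tr2, Finset.sum_mul, ← Finset.sum_add_distrib, ← Finset.sum_add_distrib]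
    refine Finset.sum_congr rfl fun γ _ => ?_
    rw [Finset.sum_mul, ← Finset.sum_add_distrib, ← Finset.sum_add_distrib]
    refine Finset.sum_congr rfl fun δ _ => ?_
    rw [hc γ δ]
    ring
  rw [e1, e2, e3]
  simp only [chgCoef, add_mul, sub_mul, Finset.sum_add_distrib, Finset.sum_sub_distrib]
  ring

theorem chg_Fw {G G' : Calc B} {g : Matrix (Fin 4) (Fin 4) A}
    (hD : ∀ α s, G'.D α s = ∑ β, g α β * G.D β s) (w : Wt) (α β : Fin 4) :
    G'.Fw w α β = tr2 g (G.Fw w) α β := by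
  have key : ∀ (w : Wt), ∀ s ∈ B.W w,
      ∑ μ, (chgCoef G g α β μ - ∑ γ, G'.T α β γ * g γ μ) * G.D μ s =
        (G'.Fw w α β - tr2 g (G.Fw w) α β) * s := fun w s hs => by
    have h1 := G'.comm hs α β
    have h2 := chg_comm G g hs α β
    simp only [hD] at h1
    rw [h1] at h2
    have h3 : ∑ γ, G'.T α β γ * ∑ δ, g γ δ * G.D δ s =
        ∑ μ, (∑ γ, G'.T α β γ * g γ μ) * G.D μ s := by
      simp only [Finset.sum_mul, Finset.mul_sum, mul_assoc]
      rw [Finset.sum_comm]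
    rw [h3] at h2
    simp only [sub_mul, Finset.sum_sub_distrib]
    linear_combination -h2
  have hc : ∀ ν, chgCoef G g α β ν - ∑ γ, G'.T α β γ * g γ ν = 0 := fun ν => by
    have h1 : ∀ k, ∑ μ, (chgCoef G g α β μ - ∑ γ, G'.T α β γ * g γ μ) * G.D μ (G.e k) = 0 :=
      fun k => by
        rw [key 0 _ (G.e_re k).1]
        simp [G'.Fw_zero, tr2, G.Fw_zero]
    have h2 : ∑ k, G.θ ν k *
        ∑ μ, (chgCoef G g α β μ - ∑ γ, G'.T α β γ * g γ μ) * G.D μ (G.e k) = 0 := by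
      simp [h1]
    simp only [Finset.mul_sum] at h2
    rw [Finset.sum_comm] at h2
    have h3 : ∀ μ, ∑ k, G.θ ν k * ((chgCoef G g α β μ - ∑ γ, G'.T α β γ * g γ μ) *
        G.D μ (G.e k)) = (chgCoef G g α β μ - ∑ γ, G'.T α β γ * g γ μ) *
          if ν = μ then 1 else 0 := fun μ => by
      rw [← G.θ_dual, Finset.mul_sum]
      exact Finset.sum_congr rfl fun k _ => by ring
    simp only [h3] at h2
    simpa using h2
  obtain ⟨n, t, ht, htt⟩ := G.exists_gens w
  have h4 : ∀ i, (G'.Fw w α β - tr2 g (G.Fw w) α β) * t i = 0 := fun i => by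
    rw [← key w _ (ht i)]
    simp [hc]
  rw [← sub_eq_zero, ← mul_one (G'.Fw w α β - _), ← htt, Finset.mul_sum]
  refine Finset.sum_eq_zero fun i _ => ?_
  rw [mul_left_comm, h4, mul_zero]

theorem chg_frame_mul {g g' : Matrix (Fin 4) (Fin 4) A} (hg : B.Frame g) (hg' : B.Frame g') :
    B.Frame (g' * g) := by
  refine ⟨fun α β => ?_, fun α β => ?_, fun p => ?_⟩
  · rw [Matrix.mul_apply]
    exact Submodule.sum_mem _ fun γ _ => B.mul_mem' (hg'.mem α γ) (hg.mem γ β) (by abel)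
  · rw [Matrix.mul_apply, Matrix.mul_apply, star_sum, ← sum_bar fun γ => g' (bar α) γ * g γ (bar β)]
    exact Finset.sum_congr rfl fun γ _ => by rw [star_mul', hg.star_eq, hg'.star_eq]
  · rw [Matrix.det_mul, map_mul, ContinuousMap.mul_apply, Complex.mul_re,
      (B.re0_iff.mp hg.det_re).2 p, mul_zero, sub_zero]
    exact mul_pos (hg'.pos p) (hg.pos p)

namespace Chg

variable {G G' : Pre B} {g : Matrix (Fin 4) (Fin 4) A}

theorem symm (h : Chg G G' g) {g' : Matrix (Fin 4) (Fin 4) A} (hg' : B.Frame g')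
    (h1 : g' * g = 1) : Chg G' G g' := by
  refine ⟨hg', chg_D_inv h.D_eq h1, fun s => ?_⟩
  rw [← h.I_eq, ← mul_assoc, mul_comm g.det, ← Matrix.det_mul, h1, Matrix.det_one, one_mul]

theorem trans {G'' : Pre B} {g' : Matrix (Fin 4) (Fin 4) A} (h : Chg G G' g)
    (h' : Chg G' G'' g') : Chg G G'' (g' * g) := by
  refine ⟨chg_frame_mul h.frame h'.frame, fun α s => ?_, fun s => ?_⟩
  · simp only [h'.D_eq, h.D_eq, Matrix.mul_apply, Finset.mul_sum, Finset.sum_mul, mul_assoc]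
    rw [Finset.sum_comm]
  · rw [Matrix.det_mul, mul_assoc, h'.I_eq, h.I_eq]

theorem dd_eq (h : Chg G G' g) (p q : A) : G'.dd p q = tr2 g (G.dd p q) := chg_dd h.D_eq p q

theorem F_eq (h : Chg G G' g) (j : Fin 2) : G'.F j = tr2 g (G.F j) := by
  funext α β
  fin_cases j
  · have := chg_Fw h.D_eq (1, 0) α β
    simpa [Calc.Fw, tr2] using this
  · have := chg_Fw h.D_eq (0, 1) α β
    simpa [Calc.Fw, tr2] using this

theorem I_wg (h : Chg G G' g) {b b' : Fin 4 → Fin 4 → A} (hb : B.Form2 b) (hb' : B.Form2 b') :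
    G'.I (wg (tr2 g b) (tr2 g b')) = G.I (wg b b') := by
  rw [wg_tr2 g (fun α β => (hb α β).2) hb.diag (fun α β => (hb' α β).2) hb'.diag, h.I_eq]

theorem closed (h : Chg G G' g) {b : Fin 4 → Fin 4 → A} (hb : B.Form2 b) (hc : G.Closed b) :
    G'.Closed (tr2 g b) := by
  intro p hp q hq
  rw [h.dd_eq, h.I_wg hb (G.dd_form hp hq)]
  exact hc p hp q hq

theorem nrm_le (h : Chg G G' g) : ∃ C : ℝ, 0 ≤ C ∧ ∀ s, G'.nrm s ≤ C * G.nrm s := by
  obtain ⟨v, hv, hvp, hvv⟩ := G.exists_sqrt h.frame.det_re h.frame.pos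
  obtain ⟨t, -, htt⟩ := G.exists_inv hv.1 fun p hp => by
    have := hvp p
    rw [hp] at this
    simp at this
  refine ⟨‖B.ev t‖, norm_nonneg _, fun s => ?_⟩
  have h1 : G'.nrm s = G.nrm (t * s) := by
    have hst : star v * star t = 1 := by rw [← star_mul', htt, star_one]
    rw [hv.2] at hst
    have : g.det * (star (t * s) * (t * s)) = star s * s := by
      rw [← hvv, star_mul']
      linear_combination (v * t * (star s * s)) * hst + (star s * s) * htt
    rw [Pre.nrm, Pre.nrm, ← h.I_eq, this]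
  rw [h1]
  exact G.nrm_mul_le t s

theorem nn_le (h : Chg G G' g) (k : ℕ) : ∃ C : ℝ, 0 ≤ C ∧ ∀ s, G'.nn k s ≤ C * G.nn k s := by
  obtain ⟨C0, hC0, h0⟩ := h.nrm_le
  induction k with
  | zero => exact ⟨C0, hC0, h0⟩
  | succ k ih =>
    obtain ⟨C, hC, hk⟩ := ih
    choose M hM hMle using fun α β => G.nn_mul_le k (g α β)
    have hS : 0 ≤ ∑ α, ∑ β, M α β :=
      Finset.sum_nonneg fun α _ => Finset.sum_nonneg fun β _ => hM α β
    refine ⟨C0 + C * ∑ α, ∑ β, M α β, by positivity, fun s => ?_⟩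
    have h1 : G'.nrm s ≤ C0 * G.nn (k + 1) s :=
      (h0 s).trans (mul_le_mul_of_nonneg_left (G.nrm_le_nn _ s) hC0)
    have h2 : ∀ α, G'.nn k (G'.D α s) ≤ C * ((∑ β, M α β) * G.nn (k + 1) s) := fun α => by
      refine (hk _).trans (mul_le_mul_of_nonneg_left ?_ hC)
      rw [h.D_eq, Finset.sum_mul]
      refine (G.nn_sum k _ _).trans (Finset.sum_le_sum fun β _ => ?_)
      exact (hMle α β _).trans (mul_le_mul_of_nonneg_left (G.nn_D k β s) (hM α β))
    have h3 : ∑ α, G'.nn k (G'.D α s) ≤ C * (∑ α, ∑ β, M α β) * G.nn (k + 1) s := by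
      refine (Finset.sum_le_sum fun α _ => h2 α).trans (le_of_eq ?_)
      rw [← Finset.mul_sum, ← Finset.sum_mul, mul_assoc]
    have h4 : G'.nn (k + 1) s = G'.nrm s + ∑ α, G'.nn k (G'.D α s) := rfl
    rw [h4, add_mul]
    exact add_le_add h1 h3

end Chg

/-- The calculus in the new frame. -/
def chgCalc (G : Calc B) {g g' : Matrix (Fin 4) (Fin 4) A} (hg : B.Frame g) (hg' : B.Frame g')
    (h1 : g * g' = 1) (h2 : g' * g = 1) : Calc B where
  D α := ∑ β, LinearMap.mulLeft ℂ (g α β) ∘ₗ G.D β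
  D_mul α s t := by
    simp only [LinearMap.coe_sum, Finset.sum_apply, LinearMap.comp_apply, LinearMap.mulLeft_apply,
      G.D_mul]
    simp only [Fin.sum_univ_four]
    ring
  D_star α s := by
    simp only [LinearMap.coe_sum, Finset.sum_apply, LinearMap.comp_apply, LinearMap.mulLeft_apply]
    rw [star_sum, ← sum_bar fun β => g (bar α) β * G.D β (star s)]
    exact Finset.sum_congr rfl fun β _ => by rw [star_mul', hg.star_eq, G.D_star]
  D_mem := fun {w s} α hs => by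
    simp only [LinearMap.coe_sum, Finset.sum_apply, LinearMap.comp_apply, LinearMap.mulLeft_apply]
    exact Submodule.sum_mem _ fun β _ => B.mul_mem' (hg.mem α β) (G.D_mem β hs) (by abel)
  comm_pt α β p := by
    refine ⟨fun γ => B.ev (∑ μ, chgCoef G g α β μ * g' μ γ) p,
      fun j => B.ev (tr2 g (G.F j) α β) p, fun w s hs => ?_⟩
    simp only [LinearMap.coe_sum, Finset.sum_apply, LinearMap.comp_apply, LinearMap.mulLeft_apply]
    have h3 : ∑ μ, chgCoef G g α β μ * G.D μ s =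
        ∑ γ, (∑ μ, chgCoef G g α β μ * g' μ γ) * ∑ δ, g γ δ * G.D δ s := by
      have h4 : ∀ μ, G.D μ s = ∑ γ, g' μ γ * ∑ δ, g γ δ * G.D δ s := fun μ => by
        simp only [Finset.mul_sum]
        rw [Finset.sum_comm]
        have : ∀ γ, ∑ β, g' μ β * (g β γ * G.D γ s) = (g' * g) μ γ * G.D γ s := fun γ => by
          rw [Matrix.mul_apply, Finset.sum_mul]
          exact Finset.sum_congr rfl fun β _ => (mul_assoc _ _ _).symm
        simp only [this, h2, Matrix.one_apply]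
        simp
      simp only [Finset.sum_mul]
      rw [Finset.sum_comm]
      refine Finset.sum_congr rfl fun μ _ => ?_
      rw [h4 μ, Finset.mul_sum]
      refine Finset.sum_congr rfl fun γ _ => ?_
      rw [mul_assoc]
    have h5 : tr2 g (G.Fw w) α β =
        (w.1 : ℂ) • tr2 g (G.F 0) α β + (w.2 : ℂ) • tr2 g (G.F 1) α β := by
      simp only [tr2, Calc.Fw, mul_add, mul_smul_comm, Finset.sum_add_distrib, Finset.smul_sum]
    rw [chg_comm G g hs, h3, h5, map_add, map_sum, map_mul, map_add, map_smul, map_smul]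
    simp only [ContinuousMap.add_apply, ContinuousMap.coe_sum, Finset.sum_apply, map_mul,
      ContinuousMap.mul_apply, ContinuousMap.smul_apply, smul_eq_mul]
  N := G.N
  e := G.e
  e_re := G.e_re
  θ α k := ∑ β, G.θ β k * g' β α
  θ_mem α k := Submodule.sum_mem _ fun β _ => B.mul_mem' (G.θ_mem β k) (hg'.mem β α) (by abel)
  θ_star α k := by
    rw [star_sum, ← sum_bar fun β => G.θ β k * g' β (bar α)]
    exact Finset.sum_congr rfl fun β _ => by rw [star_mul', hg'.star_eq, G.θ_star]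
  θ_dual α β := by
    simp only [LinearMap.coe_sum, Finset.sum_apply, LinearMap.comp_apply, LinearMap.mulLeft_apply]
    have h3 : ∀ k, (∑ γ, G.θ γ k * g' γ α) * ∑ δ, g β δ * G.D δ (G.e k) =
        ∑ γ, ∑ δ, g β δ * g' γ α * (G.θ γ k * G.D δ (G.e k)) := fun k => by
      rw [Finset.sum_mul_sum]
      exact Finset.sum_congr rfl fun γ _ => Finset.sum_congr rfl fun δ _ => by ring
    simp only [h3]
    rw [Finset.sum_comm]
    have h4 : ∀ γ, ∑ k, ∑ δ, g β δ * g' γ α * (G.θ γ k * G.D δ (G.e k)) = g β γ * g' γ α :=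
      fun γ => by
        rw [Finset.sum_comm]
        simp only [← Finset.mul_sum, G.θ_dual]
        simp
    simp only [h4]
    rw [← Matrix.mul_apply, h1, Matrix.one_apply]
    simp only [eq_comm]
  fc Φ U hU hΦ u hu hr := by
    obtain ⟨v, hv, h3, h4⟩ := G.fc Φ U hU hΦ u hu hr
    refine ⟨v, hv, h3, fun α p => ?_⟩
    simp only [LinearMap.coe_sum, Finset.sum_apply, LinearMap.comp_apply, LinearMap.mulLeft_apply,
      map_sum, map_mul, ContinuousMap.coe_sum, ContinuousMap.mul_apply, h4, Finset.mul_sum]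
    rw [Finset.sum_comm]
    exact Finset.sum_congr rfl fun i _ => Finset.sum_congr rfl fun β _ => by ring

theorem chgCalc_D (G : Calc B) {g g' : Matrix (Fin 4) (Fin 4) A} (hg : B.Frame g)
    (hg' : B.Frame g') (h1 : g * g' = 1) (h2 : g' * g = 1) (α : Fin 4) (s : A) :
    (chgCalc G hg hg' h1 h2).D α s = ∑ β, g α β * G.D β s := by
  simp only [chgCalc, LinearMap.coe_sum, Finset.sum_apply, LinearMap.comp_apply,
    LinearMap.mulLeft_apply]

theorem chg_det_nonneg {g : Matrix (Fin 4) (Fin 4) A} (hg : B.Frame g) {s : A}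
    (hs : ∀ p, 0 ≤ B.ev s p) (p : P) : 0 ≤ B.ev (g.det * s) p := by
  rw [map_mul, ContinuousMap.mul_apply]
  refine mul_nonneg ?_ (hs p)
  exact Complex.nonneg_iff.mpr ⟨(hg.pos p).le, ((B.re0_iff.mp hg.det_re).2 p).symm⟩

/-- Calculus and integration in the new frame. -/
def chgPre (G : Pre B) {g g' : Matrix (Fin 4) (Fin 4) A} (hg : B.Frame g) (hg' : B.Frame g')
    (h1 : g * g' = 1) (h2 : g' * g = 1) : Pre B where
  toCalc := chgCalc G.toCalc hg hg' h1 h2
  I := G.I ∘ₗ LinearMap.mulLeft ℂ g'.det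
  I_nonneg s hs := G.I_nonneg _ (chg_det_nonneg hg' hs)
  I_def s hs h0 hI := by
    have h3 := G.I_def _ (B.mul_mem' hg'.det_re.1 hs (add_zero _)) (chg_det_nonneg hg' h0) hI
    have h4 : g.det * g'.det = 1 := by rw [← Matrix.det_mul, h1, Matrix.det_one]
    rw [← one_mul s, ← h4, mul_assoc, h3, mul_zero]
  stokes p hp q hq r hr s hs := by
    have hD := chgCalc_D G.toCalc hg hg' h1 h2
    have h4 : g'.det * g.det = 1 := by rw [← Matrix.det_mul, h2, Matrix.det_one]
    have hb := G.dd_form hp hq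
    have hb' := G.dd_form hr hs
    rw [chg_dd hD, chg_dd hD,
      wg_tr2 g (fun α β => (hb α β).2) hb.diag (fun α β => (hb' α β).2) hb'.diag,
      LinearMap.comp_apply, LinearMap.mulLeft_apply, ← mul_assoc, h4, one_mul]
    exact G.stokes p hp q hq r hr s hs

theorem chgPre_chg (G : Pre B) {g g' : Matrix (Fin 4) (Fin 4) A} (hg : B.Frame g)
    (hg' : B.Frame g') (h1 : g * g' = 1) (h2 : g' * g = 1) :
    Chg G (chgPre G hg hg' h1 h2) g := by
  refine ⟨hg, chgCalc_D G.toCalc hg hg' h1 h2, fun s => ?_⟩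
  have h4 : g'.det * g.det = 1 := by rw [← Matrix.det_mul, h2, Matrix.det_one]
  change G.I (g'.det * (g.det * s)) = G.I s
  rw [← mul_assoc, h4, one_mul]

theorem Chg.vec_eq {G G' : Pre B} {g : Matrix (Fin 4) (Fin 4) A} (h : Chg G G' g)
    (c : Fin 4 → A) (s : A) :
    ∑ α, c α * G'.D α s = ∑ β, (∑ α, c α * g α β) * G.D β s := by
  simp only [h.D_eq, Finset.mul_sum, Finset.sum_mul, mul_assoc]
  rw [Finset.sum_comm]

theorem Chg.vec_mem {G G' : Pre B} {g : Matrix (Fin 4) (Fin 4) A} (h : Chg G G' g)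
    {c : Fin 4 → A} (hc : ∀ α, c α ∈ B.W (-wt α)) (β : Fin 4) :
    ∑ α, c α * g α β ∈ B.W (-wt β) :=
  Submodule.sum_mem _ fun α _ => B.mul_mem' (hc α) (h.frame.mem α β) (by abel)

theorem Chg.tendsto_nrm {G G' : Pre B} {g : Matrix (Fin 4) (Fin 4) A} (h : Chg G G' g)
    {v : ℕ → A} (hv : Tendsto (fun n => G.nrm (v n)) atTop (𝓝 0)) :
    Tendsto (fun n => G'.nrm (v n)) atTop (𝓝 0) := by
  obtain ⟨C, -, hC⟩ := h.nrm_le
  refine squeeze_zero (fun n => G'.nrm_nonneg _) (fun n => hC _) ?_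
  simpa using hv.const_mul C

theorem Chg.exists_moll {G G' : Pre B} {g g' : Matrix (Fin 4) (Fin 4) A} (h : Chg G G' g)
    (h' : Chg G' G g') (M : Moll G) : Nonempty (Moll G') := by
  obtain ⟨C0, hC0, h0⟩ := h.nrm_le
  obtain ⟨C1, hC1, h1⟩ := h'.nrm_le
  refine ⟨⟨M.Kc, M.mem, fun K hK => ?_, M.add, M.left, M.right, M.conj, fun K hK c hc => ?_,
    fun K hK c hc => ?_, M.J, M.J_mem, fun s hs => h.tendsto_nrm (M.J_lim s hs), fun n => ?_⟩⟩
  · obtain ⟨C, hC⟩ := M.bdd K hK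
    refine ⟨C0 * (|C| * C1), fun n s hs => (h0 _).trans ?_⟩
    rw [mul_assoc, mul_assoc]
    refine mul_le_mul_of_nonneg_left ((hC n s hs).trans ?_) hC0
    exact (mul_le_mul_of_nonneg_right (le_abs_self C) (G.nrm_nonneg s)).trans
      (mul_le_mul_of_nonneg_left (h1 s) (abs_nonneg C))
  · obtain ⟨K', hK', hE⟩ := M.ad K hK _ (h.vec_mem hc)
    exact ⟨K', hK', fun n s hs => by rw [h.vec_eq, h.vec_eq, hE n s hs]⟩
  · obtain ⟨K', hK', hE⟩ := M.der K hK _ (h.vec_mem hc)
    exact ⟨K', hK', fun n s hs => by rw [h.vec_eq, hE n s hs]⟩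
  · obtain ⟨J', hJ', hE⟩ := M.J_adj n
    refine ⟨LinearMap.mulLeft ℂ g.det ∘ₗ J' ∘ₗ LinearMap.mulLeft ℂ g'.det, fun t ht => ?_,
      fun s hs t ht => ?_⟩
    · exact B.mul_mem' h.frame.det_re.1
        (hJ' _ (B.mul_mem' h'.frame.det_re.1 ht (add_zero _))) (add_zero _)
    · simp only [LinearMap.comp_apply, LinearMap.mulLeft_apply]
      rw [← h'.I_eq, mul_left_comm, hE s hs _ (B.mul_mem' h'.frame.det_re.1 ht (add_zero _)),
        ← h.I_eq, mul_left_comm]

theorem Geo.exists_chg (G : Geo B) {g : Matrix (Fin 4) (Fin 4) A} (hg : B.Frame g) :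
    ∃ G' : Geo B, Chg G.toPre G'.toPre g := by
  obtain ⟨g', hg', h1, h2⟩ := G.exists_frame_inv hg
  have h := chgPre_chg G.toPre hg hg' h1 h2
  have h' := h.symm hg' h2
  obtain ⟨C0, hC0, h0⟩ := h.nrm_le
  refine ⟨⟨chgPre G.toPre hg hg' h1 h2, ?_, ?_, fun v hv hb => ?_, fun v hv hc => ?_,
    G.moll.elim fun M => h.exists_moll h' M, fun s hs hD => ?_, G.gen⟩, h⟩
  · obtain ⟨C, hC⟩ := G.sob
    obtain ⟨C1, hC1, hn⟩ := h'.nn_le 1
    refine ⟨C0 * (|C| * C1 ^ 2), fun v hv => (h0 _).trans ?_⟩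
    rw [mul_assoc, mul_assoc, ← mul_pow]
    refine mul_le_mul_of_nonneg_left ((hC v hv).trans ?_) hC0
    exact (mul_le_mul_of_nonneg_right (le_abs_self C) (sq_nonneg _)).trans
      (mul_le_mul_of_nonneg_left (pow_le_pow_left₀ (G.nn_nonneg 1 v) (hn v) 2) (abs_nonneg C))
  · obtain ⟨C, hC⟩ := G.sup
    obtain ⟨C1, hC1, hn⟩ := h'.nn_le 4
    refine ⟨|C| * C1, fun v hv p => (hC v hv p).trans ?_⟩
    rw [mul_assoc]
    exact (mul_le_mul_of_nonneg_right (le_abs_self C) (G.nn_nonneg 4 v)).trans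
      (mul_le_mul_of_nonneg_left (hn v) (abs_nonneg C))
  · obtain ⟨C1, hC1, hn⟩ := h'.nn_le 1
    have hpos : 0 < C1 + 1 := by positivity
    have hnorm : ‖(((C1 + 1)⁻¹ : ℝ) : ℂ)‖ = (C1 + 1)⁻¹ := by
      rw [Complex.norm_real, Real.norm_of_nonneg (by positivity)]
    obtain ⟨φ, hφ, hc⟩ := G.rel (fun n => (((C1 + 1)⁻¹ : ℝ) : ℂ) • v n)
      (fun n => Submodule.smul_mem _ _ (hv n)) fun n => by
        rw [G.nn_smul, hnorm, inv_mul_le_iff₀ hpos]
        have := mul_le_mul_of_nonneg_left (hb n) hC1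
        linarith [hn (v n)]
    refine ⟨φ, hφ, fun ε hε => ?_⟩
    obtain ⟨n₀, hn₀⟩ := hc (ε / ((C0 + 1) * (C1 + 1))) (by positivity)
    refine ⟨n₀, fun m hm n hn => (h0 _).trans ?_⟩
    have h3 := hn₀ m hm n hn
    rw [← smul_sub, G.nrm_smul, hnorm, inv_mul_le_iff₀ hpos] at h3
    have h4 : (C1 + 1) * (ε / ((C0 + 1) * (C1 + 1))) = ε / (C0 + 1) := by field_simp
    rw [h4, le_div_iff₀ (by positivity)] at h3
    nlinarith [G.nrm_nonneg (v (φ m) - v (φ n))]
  · obtain ⟨u, hu, hl⟩ := G.cpl v hv fun k ε hε => by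
      obtain ⟨C1, hC1, hn⟩ := h'.nn_le k
      obtain ⟨n₀, hn₀⟩ := hc k (ε / (C1 + 1)) (by positivity)
      refine ⟨n₀, fun m hm n hn' => (hn _).trans ?_⟩
      have h3 := hn₀ m hm n hn'
      rw [le_div_iff₀ (by positivity)] at h3
      nlinarith [(chgPre G.toPre hg hg' h1 h2).nn_nonneg k (v m - v n)]
    exact ⟨u, hu, h.tendsto_nrm hl⟩
  · refine G.const s hs fun α => ?_
    rw [h'.D_eq]
    exact Finset.sum_eq_zero fun β _ => by rw [hD β, mul_zero]

end SX4
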