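import Pool.Agent.P.MP_0a0487_an.SX.Ops
import Pool.Agent.P.MP_0a0487_an.SX.Fo

/-! Ellipticity of the Dirac operator and of the operator `Q`. -/

set_option autoImplicit false
set_option linter.unusedSectionVars false

noncomputable section

namespace SX4

open scoped ComplexOrder ContDiff
open Filter Topology

variable {P A : Type} [TopologicalSpace P] [CompactSpace P] [CommRing A] [StarRing A] [Algebra ℂ A]
  [StarModule ℂ A] {B : Base P A}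

namespace Pre

variable (G : Pre B)

theorem dirac_c0 (w : Wt) (s : G.Sec (wp w)) :
    (G.dirac w s).c 0 = G.D 1 (s.c 0) - G.Dt 2 (s.c 1) := rfl

theorem dirac_c1 (w : Wt) (s : G.Sec (wp w)) :
    (G.dirac w s).c 1 = G.D 3 (s.c 0) + G.Dt 0 (s.c 1) := rfl

theorem diracAdj_c0 (w : Wt) (s : G.Sec (wm w)) :
    (G.diracAdj w s).c 0 = -G.Dt 0 (s.c 0) - G.Dt 2 (s.c 1) := rfl

theorem diracAdj_c1 (w : Wt) (s : G.Sec (wm w)) :
    (G.diracAdj w s).c 1 = G.D 3 (s.c 0) - G.D 1 (s.c 1) := rfl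

theorem dirac_rho_c0 (w : Wt) (χ : G.Sec (wm 0)) (s : G.Sec (wp w)) :
    (G.rho w χ s).c 0 = Complex.I • (χ.c 0 * s.c 0 - star (χ.c 1) * s.c 1) := rfl

theorem dirac_rho_c1 (w : Wt) (χ : G.Sec (wm 0)) (s : G.Sec (wp w)) :
    (G.rho w χ s).c 1 = Complex.I • (χ.c 1 * s.c 0 + star (χ.c 0) * s.c 1) := rfl

theorem dirac_sig_c0 (ψ s : G.Sec (wp 0)) :
    (G.sig ψ s).c 0 = (Complex.I / 4) • (star (ψ.c 0) * s.c 0 + star (s.c 0) * ψ.c 0 -
      star (ψ.c 1) * s.c 1 - star (s.c 1) * ψ.c 1) := rfl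

theorem dirac_sig_c1 (ψ s : G.Sec (wp 0)) :
    (G.sig ψ s).c 1 = (Complex.I / 2) • (star (ψ.c 0) * s.c 1 + star (s.c 0) * ψ.c 1) := rfl

theorem dirac_e1_c0 : G.e1.c 0 = 1 := rfl

theorem dirac_e1_c1 : G.e1.c 1 = 0 := rfl

theorem dirac_Q_c0 (χ : G.Sec (wm 0)) : (G.Q χ).c 0 = -G.Dt 0 (χ.c 0) - G.Dt 2 (χ.c 1) :=
  add_zero _

theorem dirac_Q_c1 (χ : G.Sec (wm 0)) :
    (G.Q χ).c 1 = G.D 3 (χ.c 0) - G.D 1 (χ.c 1) + ∑ γ, G.T 1 3 γ * χ.form γ := rfl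

variable {G} in
theorem dirac_ext {w : Fin 2 → Wt} {s t : G.Sec w} (h0 : s.c 0 = t.c 0) (h1 : s.c 1 = t.c 1) :
    s = t := Sec.ext (Fin.forall_fin_two.2 ⟨h0, h1⟩)

theorem dirac_smul (w : Wt) (z : ℂ) (s : G.Sec (wp w)) : G.dirac w (z • s) = z • G.dirac w s :=
  dirac_ext (by simp only [dirac_c0, Sec.c_smul, map_smul, Dt_smul, smul_sub])
    (by simp only [dirac_c1, Sec.c_smul, map_smul, Dt_smul, smul_add])

theorem diracAdj_smul (w : Wt) (z : ℂ) (s : G.Sec (wm w)) :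
    G.diracAdj w (z • s) = z • G.diracAdj w s :=
  dirac_ext (by simp only [diracAdj_c0, Sec.c_smul, Dt_smul, smul_sub, smul_neg])
    (by simp only [diracAdj_c1, Sec.c_smul, map_smul, smul_sub])

theorem rho_smul (w : Wt) (χ : G.Sec (wm 0)) (z : ℂ) (s : G.Sec (wp w)) :
    G.rho w χ (z • s) = z • G.rho w χ s :=
  dirac_ext (by simp only [dirac_rho_c0, Sec.c_smul, Algebra.smul_def]; ring)
    (by simp only [dirac_rho_c1, Sec.c_smul, Algebra.smul_def]; ring)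

theorem rho_add_left (w : Wt) (χ χ' : G.Sec (wm 0)) (s : G.Sec (wp w)) :
    G.rho w (χ + χ') s = G.rho w χ s + G.rho w χ' s :=
  dirac_ext (by simp only [dirac_rho_c0, Sec.c_add, star_add, Algebra.smul_def]; ring)
    (by simp only [dirac_rho_c1, Sec.c_add, star_add, Algebra.smul_def]; ring)

theorem dirac_star_real (r : ℝ) (s : A) : star ((r : ℂ) • s) = (r : ℂ) • star s := by
  rw [star_smul, Complex.star_def, Complex.conj_ofReal]

theorem rho_smul_left (w : Wt) (r : ℝ) (χ : G.Sec (wm 0)) (s : G.Sec (wp w)) :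
    G.rho w (r • χ) s = r • G.rho w χ s :=
  dirac_ext
    (by rw [dirac_rho_c0, Sec.c_rsmul, Sec.c_rsmul, Sec.c_rsmul, dirac_rho_c0, dirac_star_real]
        simp only [Algebra.smul_def]; ring)
    (by rw [dirac_rho_c1, Sec.c_rsmul, Sec.c_rsmul, Sec.c_rsmul, dirac_rho_c1, dirac_star_real]
        simp only [Algebra.smul_def]; ring)

theorem dirac_mem {u v : Wt} {s : A} (hs : s ∈ B.W u) (h : u = v) : s ∈ B.W v := h ▸ hs

theorem rho_zo (w : Wt) (χ : G.Sec (wm 0)) : IsZO (G.rho w χ) := by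
  refine ⟨![![Complex.I • χ.c 0, -(Complex.I • star (χ.c 1))],
    ![Complex.I • χ.c 1, Complex.I • star (χ.c 0)]], 0, ?_, fun _ _ => zero_mem _, fun s => ?_⟩
  · simp only [Fin.forall_fin_two]
    exact ⟨⟨Submodule.smul_mem _ _ (dirac_mem (χ.mem 0) (by ext <;> simp [wp, wm])),
      neg_mem (Submodule.smul_mem _ _ (B.star_mem' (χ.mem 1) (by ext <;> simp [wp, wm])))⟩,
      Submodule.smul_mem _ _ (dirac_mem (χ.mem 1) (by ext <;> simp [wp, wm])),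
      Submodule.smul_mem _ _ (B.star_mem' (χ.mem 0) (by ext <;> simp [wp, wm]))⟩
  · rw [Fin.forall_fin_two, dirac_rho_c0, dirac_rho_c1]
    constructor <;> simp [Algebra.smul_def] <;> ring

theorem rho_e1 (χ : G.Sec (wm 0)) : G.rho 0 χ G.e1 = Complex.I • χ :=
  dirac_ext (by simp [dirac_rho_c0, dirac_e1_c0, dirac_e1_c1])
    (by simp [dirac_rho_c1, dirac_e1_c0, dirac_e1_c1])

theorem sig_comm (s t : G.Sec (wp 0)) : G.sig s t = G.sig t s :=
  dirac_ext (by simp only [dirac_sig_c0, Algebra.smul_def]; ring)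
    (by simp only [dirac_sig_c1, Algebra.smul_def]; ring)

theorem sig_unit (z : ℂ) (hz : ‖z‖ = 1) (s t : G.Sec (wp 0)) :
    G.sig (z • s) (z • t) = G.sig s t := by
  have h : ∀ a b : A, star (z • a) * (z • b) = star a * b := fun a b => by
    rw [star_smul, smul_mul_smul_comm, Complex.star_def, Complex.conj_mul', hz]
    simp
  exact dirac_ext (by simp only [dirac_sig_c0, Sec.c_smul, h])
    (by simp only [dirac_sig_c1, Sec.c_smul, h])

theorem sig_e1 : G.sig G.e1 G.e1 = (Complex.I / 2) • G.e1 :=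
  dirac_ext (by
      simp only [dirac_sig_c0, dirac_e1_c0, dirac_e1_c1, Sec.c_smul, star_one, mul_one, mul_zero,
        sub_zero, smul_add, ← add_smul]
      rw [show Complex.I / 4 + Complex.I / 4 = Complex.I / 2 by ring])
    (by simp [dirac_sig_c1, dirac_e1_c0, dirac_e1_c1])

theorem inner_e1_sig (s t : G.Sec (wp 0)) : inner ℝ G.e1 (G.sig s t) = 0 := by
  rw [inner_real, Fin.sum_univ_two, dirac_e1_c0, dirac_e1_c1, dirac_sig_c0, star_one, one_mul,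
    star_zero, zero_mul, map_zero, map_smul]
  have h := G.I_star (star (s.c 0) * t.c 0 + star (t.c 0) * s.c 0 -
    star (s.c 1) * t.c 1 - star (t.c 1) * s.c 1)
  rw [show star (star (s.c 0) * t.c 0 + star (t.c 0) * s.c 0 - star (s.c 1) * t.c 1 -
      star (t.c 1) * s.c 1) = star (s.c 0) * t.c 0 + star (t.c 0) * s.c 0 -
      star (s.c 1) * t.c 1 - star (t.c 1) * s.c 1 by
    simp only [star_add, star_sub, star_mul, star_star]; ring] at h
  have h2 := Complex.conj_eq_iff_im.1 h.symm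
  rw [smul_eq_mul, Complex.mul_re, h2]
  simp

theorem dirac_e1 : G.dirac 0 G.e1 = 0 :=
  dirac_ext (by simp [dirac_c0, dirac_e1_c0, dirac_e1_c1, Dt, G.D_one])
    (by simp [dirac_c1, dirac_e1_c0, dirac_e1_c1, Dt, G.D_one])

theorem Zq_zo : IsZO G.Zq := by
  refine ⟨![0, ![G.T 1 3 1, G.T 1 3 3]], ![0, ![G.T 1 3 0, G.T 1 3 2]], ?_, ?_, fun s => ?_⟩
  · simp only [Fin.forall_fin_two]
    exact ⟨⟨zero_mem _, zero_mem _⟩, dirac_mem (G.T_mem 1 3 1) (by decide),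
      dirac_mem (G.T_mem 1 3 3) (by decide)⟩
  · simp only [Fin.forall_fin_two]
    exact ⟨⟨zero_mem _, zero_mem _⟩, dirac_mem (G.T_mem 1 3 0) (by decide),
      dirac_mem (G.T_mem 1 3 2) (by decide)⟩
  · rw [Fin.forall_fin_two]
    constructor
    · change (0 : A) = _
      simp
    · change ∑ γ, G.T 1 3 γ * s.form γ = _
      simp [Sec.form, Fin.sum_univ_four]
      ring

theorem dirac_star_Dt (α : Fin 4) (s : A) : star (G.Dt α s) = G.Dt (bar α) (star s) := by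
  rw [Dt, Dt, star_add, star_mul, G.D_star, G.τ_star, mul_comm]

theorem dirac_adjD {u v : Wt} {s t : A} (α : Fin 4) (hs : s ∈ B.W u) (ht : t ∈ B.W v)
    (h : u + wt α = v) : G.I (star (G.D α s) * t) = -G.I (star s * G.Dt (bar α) t) := by
  rw [G.D_star]
  exact G.ibp _ (B.star_mem hs) ht (by rw [wt_bar, ← h]; abel)

theorem dirac_adjDt {u v : Wt} {s t : A} (α : Fin 4) (hs : s ∈ B.W u) (ht : t ∈ B.W v)
    (h : u + wt α = v) : G.I (star (G.Dt α s) * t) = -G.I (star s * G.D (bar α) t) := by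
  have := G.ibp (bar α) ht (B.star_mem hs) (by rw [wt_bar, ← h]; abel)
  rw [dirac_star_Dt, mul_comm (star s), this, neg_neg, mul_comm]
  rfl

theorem dirac_adj (w : Wt) (s : G.Sec (wp w)) (t : G.Sec (wm w)) :
    inner ℂ (G.dirac w s) t = inner ℂ s (G.diracAdj w t) := by
  have h1 := G.dirac_adjD 1 (s.mem 0) (t.mem 0) (by ext <;> simp [wp, wm, wt, sub_eq_add_neg])
  have h2 := G.dirac_adjDt 2 (s.mem 1) (t.mem 0) (by ext <;> simp [wp, wm, wt])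
  have h3 := G.dirac_adjD 3 (s.mem 0) (t.mem 1) (by ext <;> simp [wp, wm, wt, sub_eq_add_neg])
  have h4 := G.dirac_adjDt 0 (s.mem 1) (t.mem 1) (by ext <;> simp [wp, wm, wt])
  rw [inner_complex, inner_complex, Fin.sum_univ_two, Fin.sum_univ_two, dirac_c0, dirac_c1,
    diracAdj_c0, diracAdj_c1]
  simp only [star_sub, star_add, sub_mul, add_mul, mul_sub, mul_neg, map_sub, map_add, map_neg]
  rw [h1, h2, h3, h4, show bar 1 = 0 from rfl, show bar 2 = 3 from rfl, show bar 3 = 2 from rfl,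
    show bar 0 = 1 from rfl]
  ring

theorem dirac_nrm_sub (s t : A) : G.nrm (s - t) ≤ G.nrm s + G.nrm t := G.nn_sub 0 s t

theorem dirac_comm_le (w : Wt) (γ δ : Fin 4) : ∃ C : ℝ, 0 ≤ C ∧ ∀ s ∈ B.W w,
    G.nrm (G.Dt γ (G.D δ s) - G.Dt δ (G.D γ s)) ≤ C * G.nn 1 s := by
  refine ⟨∑ ε, ‖B.ev (G.T γ δ ε)‖ + ‖B.ev (G.Fw w γ δ)‖ + ‖B.ev (G.τ γ)‖ + ‖B.ev (G.τ δ)‖,
    by positivity, fun s hs => ?_⟩
  have hD : ∀ (c : A) ε, G.nrm (c * G.D ε s) ≤ ‖B.ev c‖ * G.nn 1 s := fun c ε =>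
    (G.nrm_mul_le _ _).trans (mul_le_mul_of_nonneg_left (G.nn_D 0 ε s) (norm_nonneg _))
  have e : G.Dt γ (G.D δ s) - G.Dt δ (G.D γ s) = ∑ ε, G.T γ δ ε * G.D ε s + G.Fw w γ δ * s +
      G.τ γ * G.D δ s - G.τ δ * G.D γ s := by
    rw [← G.comm hs, Dt, Dt]; ring
  rw [e, add_mul, add_mul, add_mul, Finset.sum_mul]
  refine (G.dirac_nrm_sub _ _).trans (add_le_add ((G.nrm_add _ _).trans (add_le_add
    ((G.nrm_add _ _).trans (add_le_add ?_ ?_)) (hD _ _))) (hD _ _))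
  · exact (G.nrm_sum _ _).trans (Finset.sum_le_sum fun ε _ => hD _ _)
  · exact (G.nrm_mul_le _ _).trans
      (mul_le_mul_of_nonneg_left (G.nrm_le_nn 1 s) (norm_nonneg _))

theorem dirac_re_le (s t : A) : (G.I (star s * t)).re ≤ G.nrm s * G.nrm t :=
  (Complex.re_le_norm _).trans (G.norm_I_le s t)

theorem dirac_swap (w : Wt) (γ : Fin 4) : ∃ C : ℝ, 0 ≤ C ∧ ∀ s ∈ B.W w,
    G.nrm (G.D γ s) ^ 2 ≤ G.nrm (G.D (bar γ) s) ^ 2 + C * G.nn 1 s * G.nrm s := by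
  obtain ⟨C, hC, h⟩ := G.dirac_comm_le w γ (bar γ)
  refine ⟨C, hC, fun s hs => ?_⟩
  have h1 := G.dirac_adjD γ hs (G.D_mem γ hs) rfl
  have h2 := G.dirac_adjD (bar γ) hs (G.D_mem (bar γ) hs) rfl
  rw [bar_bar] at h2
  have h3 := G.dirac_re_le s (G.Dt γ (G.D (bar γ) s) - G.Dt (bar γ) (G.D γ s))
  have h4 := mul_le_mul_of_nonneg_left (h s hs) (G.nrm_nonneg s)
  rw [mul_sub, map_sub, Complex.sub_re] at h3
  rw [G.nrm_sq, G.nrm_sq, h1, h2, Complex.neg_re, Complex.neg_re]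
  linarith

theorem dirac_sq_add (s t : A) :
    G.nrm (s + t) ^ 2 = G.nrm s ^ 2 + G.nrm t ^ 2 + 2 * (G.I (star s * t)).re := by
  have h := congrArg Complex.re (G.I_star (star s * t))
  rw [star_mul, star_star, Complex.conj_re] at h
  rw [G.nrm_sq, G.nrm_sq, G.nrm_sq, star_add, add_mul, mul_add, mul_add]
  simp only [map_add, Complex.add_re]
  linarith

theorem dirac_cross (u : Wt) (γ δ : Fin 4) : ∃ C : ℝ, 0 ≤ C ∧ ∀ a ∈ B.W u,
    ∀ b ∈ B.W (u + wt γ + wt δ), G.nrm (G.D γ a) ^ 2 + G.nrm (G.D δ a) ^ 2 +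
      G.nrm (G.D (bar γ) b) ^ 2 + G.nrm (G.D (bar δ) b) ^ 2 ≤
      G.nrm (G.D γ a - G.D (bar δ) b) ^ 2 + G.nrm (G.D δ a + G.D (bar γ) b) ^ 2 +
        C * G.nn 1 a * G.nrm b := by
  obtain ⟨C, hC, h⟩ := G.dirac_comm_le u γ δ
  refine ⟨2 * C, by positivity, fun a ha b hb => ?_⟩
  have h1 := G.dirac_adjDt δ (G.D_mem γ ha) hb rfl
  have h2 := G.dirac_adjDt γ (G.D_mem δ ha) hb (by abel)
  have h3 := G.dirac_re_le (G.Dt γ (G.D δ a) - G.Dt δ (G.D γ a)) b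
  have h4 := mul_le_mul_of_nonneg_right (h a ha) (G.nrm_nonneg b)
  rw [star_sub, sub_mul, map_sub, Complex.sub_re, h1, h2, Complex.neg_re, Complex.neg_re] at h3
  rw [sub_eq_add_neg, dirac_sq_add, dirac_sq_add, G.nrm_neg, mul_neg, map_neg, Complex.neg_re]
  linarith

theorem dirac_young (C t : ℝ) (s : A) : C * G.nn 1 s * t ≤
    (∑ α, G.nrm (G.D α s) ^ 2) / 8 + G.nrm s ^ 2 / 8 + 10 * C ^ 2 * t ^ 2 := by
  change C * (G.nrm s + ∑ α, G.nrm (G.D α s)) * t ≤ _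
  simp only [Fin.sum_univ_four]
  nlinarith [sq_nonneg (G.nrm s - 4 * C * t), sq_nonneg (G.nrm (G.D 0 s) - 4 * C * t),
    sq_nonneg (G.nrm (G.D 1 s) - 4 * C * t), sq_nonneg (G.nrm (G.D 2 s) - 4 * C * t),
    sq_nonneg (G.nrm (G.D 3 s) - 4 * C * t)]

theorem dirac_gar (u : Wt) (γ δ : Fin 4)
    (hsum : ∀ f : Fin 4 → ℝ, ∑ α, f α = f γ + f δ + f (bar γ) + f (bar δ)) (c : ℝ) :
    ∃ C : ℝ, ∀ a ∈ B.W u, ∀ b ∈ B.W (u + wt γ + wt δ), ∀ x y : ℝ,
      G.nrm (G.D γ a - G.D (bar δ) b) ≤ x + c * (G.nrm a + G.nrm b) →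
      G.nrm (G.D δ a + G.D (bar γ) b) ≤ y + c * (G.nrm a + G.nrm b) →
      ∑ α, G.nrm (G.D α a) ^ 2 + ∑ α, G.nrm (G.D α b) ^ 2 ≤
        4 * (x ^ 2 + y ^ 2) + C * (G.nrm a ^ 2 + G.nrm b ^ 2) := by
  obtain ⟨C1, -, h1⟩ := G.dirac_cross u γ δ
  obtain ⟨C2, -, h2⟩ := G.dirac_swap u (bar γ)
  obtain ⟨C3, -, h3⟩ := G.dirac_swap u (bar δ)
  obtain ⟨C4, -, h4⟩ := G.dirac_swap (u + wt γ + wt δ) γ
  obtain ⟨C5, -, h5⟩ := G.dirac_swap (u + wt γ + wt δ) δ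
  refine ⟨32 * c ^ 2 + 1 + 14 * ((2 * C1) ^ 2 + (C2 + C3) ^ 2 + (C4 + C5) ^ 2),
    fun a ha b hb x y hx hy => ?_⟩
  have e1 := h1 a ha b hb
  have e2 := h2 a ha
  have e3 := h3 a ha
  have e4 := h4 b hb
  have e5 := h5 b hb
  rw [bar_bar] at e2 e3
  have y1 := G.dirac_young (2 * C1) (G.nrm b) a
  have y2 := G.dirac_young (C2 + C3) (G.nrm a) a
  have y3 := G.dirac_young (C4 + C5) (G.nrm b) b
  have sa := hsum fun α => G.nrm (G.D α a) ^ 2
  have sb := hsum fun α => G.nrm (G.D α b) ^ 2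
  have pb : 0 ≤ ∑ α, G.nrm (G.D α b) ^ 2 := Finset.sum_nonneg fun _ _ => sq_nonneg _
  have key : ∀ X x : ℝ, 0 ≤ X → X ≤ x + c * (G.nrm a + G.nrm b) →
      2 * X ^ 2 ≤ 3 * x ^ 2 + 12 * (c ^ 2 * G.nrm a ^ 2 + c ^ 2 * G.nrm b ^ 2) := by
    intro X x h0 h
    have := pow_le_pow_left₀ h0 h 2
    nlinarith [sq_nonneg (x - 2 * c * (G.nrm a + G.nrm b)), sq_nonneg (c * (G.nrm a - G.nrm b))]
  have k1 := key _ x (G.nrm_nonneg _) hx
  have k2 := key _ y (G.nrm_nonneg _) hy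
  have p1 := sq_nonneg (G.nrm a)
  have p2 := sq_nonneg (G.nrm b)
  have q1 := mul_nonneg (sq_nonneg (2 * C1)) p1
  have q2 := mul_nonneg (sq_nonneg (2 * C1)) p2
  have q3 := mul_nonneg (sq_nonneg (C2 + C3)) p1
  have q4 := mul_nonneg (sq_nonneg (C2 + C3)) p2
  have q5 := mul_nonneg (sq_nonneg (C4 + C5)) p1
  have q6 := mul_nonneg (sq_nonneg (C4 + C5)) p2
  generalize ∑ α, G.nrm (G.D α a) ^ 2 = Sa at *
  generalize ∑ α, G.nrm (G.D α b) ^ 2 = Sb at *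
  linarith

theorem dirac_tau_le (α : Fin 4) {s : A} {n : ℝ} (h : G.nrm s ≤ n) :
    G.nrm (G.τ α * s) ≤ ‖B.ev (G.τ α)‖ * n :=
  (G.nrm_mul_le _ _).trans (mul_le_mul_of_nonneg_left h (norm_nonneg _))

/-- Gårding's inequality with an explicit constant. -/
theorem garding (w : Wt) : ∃ C : ℝ, ∀ s : G.Sec (wp w),
    ∑ i, ∑ α, G.nrm (G.D α (s.c i)) ^ 2 ≤ 4 * ‖G.dirac w s‖ ^ 2 + C * ‖s‖ ^ 2 := by
  obtain ⟨C, h⟩ := G.dirac_gar w 1 3 (fun f => by simp [Fin.sum_univ_four, bar]; ring)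
    (‖B.ev (G.τ 0)‖ + ‖B.ev (G.τ 2)‖)
  refine ⟨C, fun s => ?_⟩
  have n0 := G.nrm_nonneg (s.c 0)
  have n1 := G.nrm_nonneg (s.c 1)
  have t0 := G.dirac_tau_le 0 (le_add_of_nonneg_left n0 : G.nrm (s.c 1) ≤ _)
  have t2 := G.dirac_tau_le 2 (le_add_of_nonneg_left n0 : G.nrm (s.c 1) ≤ _)
  have p0 := mul_nonneg (norm_nonneg (B.ev (G.τ 0))) (add_nonneg n0 n1)
  have p2 := mul_nonneg (norm_nonneg (B.ev (G.τ 2))) (add_nonneg n0 n1)
  rw [norm_sq_eq, norm_sq_eq, Fin.sum_univ_two, Fin.sum_univ_two, Fin.sum_univ_two]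
  refine h _ (s.mem 0) _ (dirac_mem (s.mem 1) (by ext <;> simp [wp, wt, sub_eq_add_neg])) _ _ ?_ ?_
  · have := G.nrm_add ((G.dirac w s).c 0) (G.τ 2 * s.c 1)
    rw [show (G.dirac w s).c 0 + G.τ 2 * s.c 1 = G.D 1 (s.c 0) - G.D (bar 3) (s.c 1) by
      rw [dirac_c0, Dt, show bar 3 = 2 from rfl]; ring] at this
    linarith
  · have := G.dirac_nrm_sub ((G.dirac w s).c 1) (G.τ 0 * s.c 1)
    rw [show (G.dirac w s).c 1 - G.τ 0 * s.c 1 = G.D 3 (s.c 0) + G.D (bar 1) (s.c 1) by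
      rw [dirac_c1, Dt, show bar 1 = 0 from rfl]; ring] at this
    linarith

theorem garding' (w : Wt) : ∃ C : ℝ, ∀ s : G.Sec (wm w),
    ∑ i, ∑ α, G.nrm (G.D α (s.c i)) ^ 2 ≤ 4 * ‖G.diracAdj w s‖ ^ 2 + C * ‖s‖ ^ 2 := by
  obtain ⟨C, h⟩ := G.dirac_gar (wm w 0) 3 0 (fun f => by simp [Fin.sum_univ_four, bar]; ring)
    (‖B.ev (G.τ 0)‖ + ‖B.ev (G.τ 2)‖)
  refine ⟨C, fun s => ?_⟩
  have n0 := G.nrm_nonneg (s.c 0)
  have n1 := G.nrm_nonneg (s.c 1)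
  have t0 := G.dirac_tau_le 0 (le_add_of_nonneg_right n1 : G.nrm (s.c 0) ≤ _)
  have t2 := G.dirac_tau_le 2 (le_add_of_nonneg_left n0 : G.nrm (s.c 1) ≤ _)
  have p0 := mul_nonneg (norm_nonneg (B.ev (G.τ 0))) (add_nonneg n0 n1)
  have p2 := mul_nonneg (norm_nonneg (B.ev (G.τ 2))) (add_nonneg n0 n1)
  rw [norm_sq_eq, norm_sq_eq, Fin.sum_univ_two, Fin.sum_univ_two, Fin.sum_univ_two,
    add_comm (G.nrm ((G.diracAdj w s).c 0) ^ 2)]
  refine h _ (s.mem 0) _ (dirac_mem (s.mem 1) (by ext <;> simp [wm, wt, sub_eq_add_neg])) _ _ ?_ ?_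
  · rw [diracAdj_c1, show bar 0 = 1 from rfl]
    linarith
  · have h1 := G.nrm_add ((G.diracAdj w s).c 0 + G.τ 0 * s.c 0) (G.τ 2 * s.c 1)
    have h2 := G.nrm_add ((G.diracAdj w s).c 0) (G.τ 0 * s.c 0)
    rw [show (G.diracAdj w s).c 0 + G.τ 0 * s.c 0 + G.τ 2 * s.c 1 =
        -(G.D 0 (s.c 0) + G.D (bar 3) (s.c 1)) by
      rw [diracAdj_c0, Dt, Dt, show bar 3 = 2 from rfl]; ring, G.nrm_neg] at h1
    linarith

variable {G} in
theorem dirac_gar_of {w w' : Fin 2 → Wt} {L : G.Sec w →ₗ[ℝ] G.Sec w'}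
    (h : ∃ C : ℝ, ∀ s : G.Sec w,
      ∑ i, ∑ α, G.nrm (G.D α (s.c i)) ^ 2 ≤ 4 * ‖L s‖ ^ 2 + C * ‖s‖ ^ 2) :
    ∃ C : ℝ, ∀ s, s.nS 1 ≤ C * (‖L s‖ + ‖s‖) := by
  obtain ⟨C, h⟩ := h
  refine ⟨2 * (1 + 4 * (2 + |C|)), fun s => ?_⟩
  have n1 := norm_nonneg (L s)
  have n2 := norm_nonneg s
  have hD : ∀ i α, G.nrm (G.D α (s.c i)) ≤ (2 + |C|) * (‖L s‖ + ‖s‖) := by
    intro i α
    refine abs_le_of_sq_le_sq' ?_ (by positivity) |>.2
    have h1 : G.nrm (G.D α (s.c i)) ^ 2 ≤ ∑ i, ∑ α, G.nrm (G.D α (s.c i)) ^ 2 :=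
      (Finset.single_le_sum (f := fun α => G.nrm (G.D α (s.c i)) ^ 2) (fun _ _ => sq_nonneg _)
        (Finset.mem_univ α)).trans (Finset.single_le_sum
          (f := fun i => ∑ α, G.nrm (G.D α (s.c i)) ^ 2)
          (fun _ _ => Finset.sum_nonneg fun _ _ => sq_nonneg _) (Finset.mem_univ i))
    refine (h1.trans (h s)).trans ?_
    have a0 := abs_nonneg C
    have a1 := mul_le_mul_of_nonneg_right (le_abs_self C) (sq_nonneg ‖s‖)
    have a2 : ‖L s‖ ^ 2 + ‖s‖ ^ 2 ≤ (‖L s‖ + ‖s‖) ^ 2 := by nlinarith [mul_nonneg n1 n2]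
    have a3 : 4 + |C| ≤ (2 + |C|) ^ 2 := by nlinarith
    rw [mul_pow]
    nlinarith [mul_le_mul a3 a2 (by positivity) (by positivity), mul_nonneg a0 (sq_nonneg ‖L s‖),
      sq_nonneg ‖s‖]
  have hi : ∀ i, G.nn 1 (s.c i) ≤ (1 + 4 * (2 + |C|)) * (‖L s‖ + ‖s‖) := by
    intro i
    change G.nrm (s.c i) + ∑ α, G.nrm (G.D α (s.c i)) ≤ _
    rw [Fin.sum_univ_four]
    linarith [s.nrm_le_norm i, hD i 0, hD i 1, hD i 2, hD i 3]
  rw [Sec.nS, Fin.sum_univ_two]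
  linarith [hi 0, hi 1]

variable {G} in
theorem dirac_isFO {w w' : Fin 2 → Wt} {L : G.Sec w →ₗ[ℝ] G.Sec w'} (b : Fin 4 → Fin 2 → Fin 2 → ℂ)
    (c : Fin 2 → Fin 2 → A) (hb : ∀ α i j, b α i j ≠ 0 → w' i - w j - wt α = 0)
    (hc : ∀ i j, c i j ∈ B.W (w' i - w j))
    (h : ∀ s i, (L s).c i = ∑ j, c i j * s.c j + ∑ j, ∑ α, b α i j • G.D α (s.c j)) :
    IsFO L := by
  refine ⟨fun α i j => algebraMap ℂ A (b α i j), 0, G.mkL (fun s i => ∑ j, c i j * s.c j)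
    (fun s i => Submodule.sum_mem _ fun j _ => B.mul_mem' (hc i j) (s.mem j) (sub_add_cancel _ _))
    (fun s t i => by simp only [Sec.c_add, mul_add, Finset.sum_add_distrib])
    (fun r s i => by simp only [Sec.c_rsmul, mul_smul_comm, Finset.smul_sum]),
    fun α i j => ?_, fun _ _ _ => zero_mem _,
    ⟨c, 0, hc, fun _ _ => zero_mem _, fun s i => ?_⟩, fun s i => ?_⟩
  · by_cases h0 : b α i j = 0
    · simp only [h0, map_zero]; exact zero_mem _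
    · rw [hb α i j h0]; exact B.algebraMap_mem _
  · simp only [Pi.zero_apply, zero_mul, add_zero]; rfl
  · simp only [Pi.zero_apply, zero_mul, add_zero, ← Algebra.smul_def]
    exact h s i

theorem dirac_ell (w : Wt) : Ell (G.dirac w) (G.diracAdj w) where
  fo := by
    refine dirac_isFO ![![0, ![0, 1]], ![![1, 0], 0], ![![0, -1], 0], ![0, ![1, 0]]]
      ![![0, -G.τ 2], ![0, G.τ 0]] ?_ ?_ fun s => ?_
    · intro α i j
      fin_cases α <;> fin_cases i <;> fin_cases j <;> simp [wp, wm, wt]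
    · simp only [Fin.forall_fin_two]
      exact ⟨⟨zero_mem _, neg_mem (dirac_mem (G.τ_spec 2).1 (by ext <;> simp [wp, wm, wt]))⟩,
        zero_mem _, dirac_mem (G.τ_spec 0).1 (by ext <;> simp [wp, wm, wt])⟩
    · rw [Fin.forall_fin_two, dirac_c0, dirac_c1]
      constructor <;> simp [Dt, Fin.sum_univ_four] <;> ring
  fo' := by
    refine dirac_isFO ![![![-1, 0], 0], ![0, ![0, -1]], ![![0, -1], 0], ![0, ![1, 0]]]
      ![![-G.τ 0, -G.τ 2], 0] ?_ ?_ fun s => ?_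
    · intro α i j
      fin_cases α <;> fin_cases i <;> fin_cases j <;> simp [wp, wm, wt]
    · simp only [Fin.forall_fin_two]
      exact ⟨⟨neg_mem (dirac_mem (G.τ_spec 0).1 (by ext <;> simp [wp, wm, wt])),
        neg_mem (dirac_mem (G.τ_spec 2).1 (by ext <;> simp [wp, wm, wt]))⟩,
        zero_mem _, zero_mem _⟩
    · rw [Fin.forall_fin_two, diracAdj_c0, diracAdj_c1]
      constructor <;> simp [Dt, Fin.sum_univ_four] <;> ring
  adj s t := congrArg Complex.re (G.dirac_adj w s t)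
  gar := dirac_gar_of (G.garding w)
  gar' := dirac_gar_of (G.garding' w)

theorem exists_Q_adj : ∃ Q' : G.Sec (wp 0) →ₗ[ℝ] G.Sec (wm 0), Ell G.Q Q' := by
  obtain ⟨Z', -, h⟩ := (G.dirac_ell 0).symm.add_zo G.Zq_zo
  exact ⟨_, h⟩

theorem inner_e1_Q (χ : G.Sec (wm 0)) : inner ℂ G.e1 (G.Q χ) = 0 := by
  have h0 := (G.τ_spec 0).2 _ (dirac_mem (χ.mem 0) (by decide))
  have h2 := (G.τ_spec 2).2 _ (dirac_mem (χ.mem 1) (by decide))
  rw [inner_complex, Fin.sum_univ_two, dirac_e1_c0, dirac_e1_c1, dirac_Q_c0, star_one, one_mul,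
    star_zero, zero_mul, map_zero, Dt, Dt, map_sub, map_neg, map_add, map_add, h0, h2]
  ring

theorem Q_one (χ : G.Sec (wm 0)) : (G.Q χ).c 1 = -G.d1 χ.form 1 3 := by
  rw [dirac_Q_c1, Calc.d1, show χ.form 3 = χ.c 1 from rfl, show χ.form 1 = χ.c 0 from rfl]
  ring

theorem Q_add_star (χ : G.Sec (wm 0)) :
    (G.Q χ).c 0 + star ((G.Q χ).c 0) = -∑ α, G.Dt (bar α) (χ.form α) := by
  rw [dirac_Q_c0, star_sub, star_neg, dirac_star_Dt, dirac_star_Dt, Fin.sum_univ_four]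
  change _ = -(G.Dt (bar 0) (star (χ.c 0)) + G.Dt 0 (χ.c 0) + G.Dt (bar 2) (star (χ.c 1)) +
    G.Dt 2 (χ.c 1))
  ring

theorem AK.dirac_tors {G : Pre B} (h : G.AK) (γ : Fin 4) :
    (![1, -1, 1, -1] γ : ℂ) • (G.T 0 1 γ + G.T 2 3 γ) = G.τ (bar γ) := by
  refine G.τ_unique _ (Submodule.smul_mem _ _ (add_mem
    (dirac_mem (G.T_mem 0 1 γ) (by revert γ; decide))
    (dirac_mem (G.T_mem 2 3 γ) (by revert γ; decide)))) fun s hs => ?_
  have hf : B.Form1 (Pi.single γ s) := fun α => by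
    by_cases e : α = γ
    · rw [e, Pi.single_eq_same]; exact dirac_mem hs (by rw [wt_bar, neg_neg])
    · rw [Pi.single_eq_of_ne e]; exact zero_mem _
  have h1 := h.d1 hf
  simp only [lam, Calc.d1, Pi.single_apply, mul_ite, mul_zero, Finset.sum_ite_eq',
    Finset.mem_univ, if_true] at h1
  rw [smul_mul_assoc, map_smul, add_mul, map_add, smul_eq_mul]
  fin_cases γ <;> simp [bar] at h1 ⊢ <;> first | linear_combination h1 | linear_combination -h1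

theorem AK.Q_zero {G : Pre B} (h : G.AK) (χ : G.Sec (wm 0)) :
    (G.Q χ).c 0 - star ((G.Q χ).c 0) = -lam (G.d1 χ.form) := by
  have h0 := h.dirac_tors 0
  have h1 := h.dirac_tors 1
  have h2 := h.dirac_tors 2
  have h3 := h.dirac_tors 3
  simp only [Matrix.cons_val, one_smul, neg_smul, bar] at h0 h1 h2 h3
  rw [dirac_Q_c0, star_sub, star_neg, dirac_star_Dt, dirac_star_Dt]
  simp only [lam, Calc.d1, Dt, Fin.sum_univ_four, Sec.form, bar, Matrix.cons_val, ← h0, ← h1,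
    ← h2, ← h3]
  ring

end Pre

/-- The kernel of `d⁺ + d*` consists of closed forms. -/
theorem Geo.Q_closed (G : Geo B) (h : G.AK) {χ : G.Sec (wm 0)} (h0 : G.Q χ = 0) :
    ∀ α β, G.d1 χ.form α β = 0 := by
  have ha := χ.form_re
  have hf : B.Form1 χ.form := fun α => (ha α).1
  obtain ⟨hb, hst⟩ := G.d1_re ha
  have e13 : G.d1 χ.form 1 3 = 0 := by
    have := G.Q_one χ
    rw [h0, Pre.Sec.c_zero] at this
    exact neg_eq_zero.1 this.symm
  have elam : G.d1 χ.form 2 3 = -G.d1 χ.form 0 1 := by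
    have := h.Q_zero χ
    rw [h0, Pre.Sec.c_zero, star_zero, sub_zero, lam] at this
    linear_combination this
  have hI := (G.closed_d1 hf).d1 hf
  generalize G.d1 χ.form = b at hb hst e13 elam hI ⊢
  have e02 : b 0 2 = 0 := by
    have := hst 1 3
    rw [e13, star_zero] at this
    exact this.symm
  have s01 : star (b 0 1) = -b 0 1 := (hst 0 1).trans (hb 0 1).2
  have s03 : star (b 0 3) = b 1 2 := hst 0 3
  have e : wg b b = (2 : ℂ) • (star (b 0 1) * b 0 1 + star (b 0 3) * b 0 3) := by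
    rw [wg, e13, e02, elam, s01, s03, two_smul]; ring
  have hre := congrArg Complex.re hI
  rw [e, map_smul, map_add, two_smul] at hre
  simp only [Complex.add_re, ← G.nrm_sq, Complex.zero_re] at hre
  have z01 : b 0 1 = 0 := G.nrm_eq_zero ⟨_, (hb 0 1).1⟩ (by
    nlinarith [sq_nonneg (G.nrm (b 0 1)), sq_nonneg (G.nrm (b 0 3))])
  have z03 : b 0 3 = 0 := G.nrm_eq_zero ⟨_, (hb 0 3).1⟩ (by
    nlinarith [sq_nonneg (G.nrm (b 0 1)), sq_nonneg (G.nrm (b 0 3))])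
  have z12 : b 1 2 = 0 := by rw [← s03, z03, star_zero]
  have z23 : b 2 3 = 0 := by rw [elam, z01, neg_zero]
  have zd : ∀ α, b α α = 0 := fun α => by
    have : (2 : ℂ) • b α α = 0 := by rw [two_smul]; linear_combination (hb α α).2
    exact (smul_eq_zero.1 this).resolve_left two_ne_zero
  have zs : ∀ α β, b α β = 0 → b β α = 0 := fun α β e => by rw [(hb α β).2, e, neg_zero]
  have hz : ∀ α β, b α β = 0 := by
    simp only [Fin.forall_fin_succ, Fin.succ_zero_eq_one, IsEmpty.forall_iff, and_true]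
    exact ⟨⟨zd _, z01, e02, z03⟩, ⟨zs _ _ z01, zd _, z12, e13⟩,
      ⟨zs _ _ e02, zs _ _ z12, zd _, z23⟩, zs _ _ z03, zs _ _ e13, zs _ _ z23, zd _⟩
  exact hz

/-- A coclosed exact form vanishes. -/
theorem Geo.Q_exact (G : Geo B) {χ : G.Sec (wm 0)} (h0 : G.Q χ = 0) {u : A} (hu : u ∈ B.W 0)
    (hDu : ∀ α, G.D α u = χ.form α) : χ = 0 := by
  have ha := χ.form_re
  have hf : B.Form1 χ.form := fun α => (ha α).1
  have hL : G.Lap u = 0 := by
    have := G.Q_add_star χ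
    rw [h0, Pre.Sec.c_zero, star_zero, add_zero] at this
    rw [Pre.Lap, this]
    simp only [hDu, Pre.Dt]
  have h1 := G.I_mul_Lap hu hu
  have h2 : ∑ α, G.nrm (χ.form α) ^ 2 = 0 := by
    have := congrArg Complex.re h1
    rw [hL, mul_zero, map_zero, Complex.zero_re, Complex.re_sum] at this
    rw [this]
    exact Finset.sum_congr rfl fun α _ => by rw [G.nrm_sq, hDu, hDu, (ha α).2]
  have h3 : ∀ α, χ.form α = 0 := fun α => G.nrm_eq_zero ⟨_, hf α⟩ (pow_eq_zero_iff two_ne_zero |>.1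
    ((Finset.sum_eq_zero_iff_of_nonneg fun _ _ => sq_nonneg _).1 h2 α (Finset.mem_univ α)))
  exact Pre.dirac_ext (h3 1) (h3 3)

end SX4
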