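import Pool.Agent.P.MP_0a0487_an.SX.Abs1

/-! The index of an abstract elliptic pair. -/

set_option autoImplicit false

noncomputable section

namespace SX4

open Filter Topology Module

variable {V V' : Type} [NormedAddCommGroup V] [InnerProductSpace ℝ V]
  [NormedAddCommGroup V'] [InnerProductSpace ℝ V'] {L : V →ₗ[ℝ] V'} {L' : V' →ₗ[ℝ] V}

theorem abs2_mem_ker {E : Submodule ℝ V} {p : V →ₗ[ℝ] V} (h : IsOP E p) (t : V) :
    t - p t ∈ LinearMap.ker p := by
  rw [LinearMap.mem_ker, map_sub, h.apply_of_mem (h.1 t), sub_self]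

theorem abs2_orth {E : Submodule ℝ V} {p : V →ₗ[ℝ] V} (h : IsOP E p) {t : V} (ht : p t = 0)
    (u : V) (hu : u ∈ E) : inner ℝ t u = 0 := by
  simpa [ht] using h.2 t u hu

theorem abs2_compl {E : Submodule ℝ V} {p : V →ₗ[ℝ] V} (h : IsOP E p) :
    IsCompl (LinearMap.ker p) E := by
  refine ⟨Submodule.disjoint_def.2 fun t h1 h2 => ?_, codisjoint_iff.2 (eq_top_iff.2 fun t _ => ?_)⟩
  · rw [← h.apply_of_mem h2]
    exact h1
  · exact Submodule.mem_sup.2 ⟨_, abs2_mem_ker h t, _, h.1 t, sub_add_cancel _ _⟩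

/-- The projection onto the orthogonal complement. -/
def abs2Pr {E : Submodule ℝ V} {p : V →ₗ[ℝ] V} (h : IsOP E p) : V →ₗ[ℝ] LinearMap.ker p :=
  (LinearMap.id - p).codRestrict _ (abs2_mem_ker h)

theorem abs2_index {E : Submodule ℝ V} {p : V →ₗ[ℝ] V} (h : IsOP E p) {E' : Submodule ℝ V'}
    {p' : V' →ₗ[ℝ] V'} (h' : IsOP E' p') [FiniteDimensional ℝ E] [FiniteDimensional ℝ E']
    (M : V →ₗ[ℝ] V') [FiniteDimensional ℝ (LinearMap.ker M)]
    [FiniteDimensional ℝ (V' ⧸ LinearMap.range M)] :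
    (abs2Pr h' ∘ₗ M ∘ₗ (LinearMap.ker p).subtype).index =
      finrank ℝ E' + (M.index - finrank ℝ E) := by
  have e := Submodule.quotientEquivOfIsCompl _ _ (abs2_compl h)
  have k1 : LinearMap.ker (abs2Pr h') = E' := by
    ext t
    simp only [abs2Pr, LinearMap.ker_codRestrict, LinearMap.mem_ker, LinearMap.sub_apply,
      LinearMap.id_apply, sub_eq_zero]
    exact ⟨fun k => k ▸ h'.1 t, fun k => (h'.apply_of_mem k).symm⟩
  have k2 : Function.Surjective (abs2Pr h') := fun t =>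
    ⟨t, Subtype.ext (show t.1 - p' t.1 = t.1 by rw [LinearMap.mem_ker.1 t.2, sub_zero])⟩
  have i1 : FiniteDimensional ℝ (LinearMap.ker (LinearMap.ker p).subtype) := by
    rw [Submodule.ker_subtype]
    infer_instance
  have i2 : FiniteDimensional ℝ (V ⧸ LinearMap.range (LinearMap.ker p).subtype) := by
    rw [Submodule.range_subtype]
    exact e.symm.finiteDimensional
  have i3 : FiniteDimensional ℝ (LinearMap.ker (abs2Pr h')) := by
    rw [k1]
    infer_instance
  have i4 : FiniteDimensional ℝ (LinearMap.ker p' ⧸ LinearMap.range (abs2Pr h')) := by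
    rw [LinearMap.range_eq_top.2 k2]
    infer_instance
  have i5 : FiniteDimensional ℝ (LinearMap.ker (M ∘ₗ (LinearMap.ker p).subtype)) := by
    rw [LinearMap.ker_comp]
    infer_instance
  have i6 : FiniteDimensional ℝ (V' ⧸ LinearMap.range (M ∘ₗ (LinearMap.ker p).subtype)) := by
    rw [LinearMap.range_comp]
    infer_instance
  rw [LinearMap.index_comp, LinearMap.index_comp, LinearMap.index_of_surjective k2, k1,
    LinearMap.index_of_injective (Submodule.injective_subtype _), Submodule.range_subtype,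
    e.finrank_eq, sub_eq_add_neg]

namespace Pair

theorem ker_fd (h : Pair L L') : FiniteDimensional ℝ (LinearMap.ker L) :=
  have := h.eig_fd 0
  Submodule.finiteDimensional_of_le (ker_le_eig L L' 0)

theorem abs2_range (h : Pair L L') : IsCompl (LinearMap.range L) (LinearMap.ker L') := by
  have := h.symm.ker_fd
  obtain ⟨p, hp⟩ := exists_isOP (LinearMap.ker L')
  refine ⟨Submodule.disjoint_def.2 ?_, codisjoint_iff.2 (eq_top_iff.2 fun t _ => ?_)⟩
  · rintro _ ⟨s, rfl⟩ h2
    rw [← inner_self_eq_zero (𝕜 := ℝ), h.adj, LinearMap.mem_ker.1 h2, inner_zero_right]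
  · exact Submodule.mem_sup.2 ⟨_, h.solve (hp.2 t), _, hp.1 t, sub_add_cancel _ _⟩

theorem coker_fd (h : Pair L L') : FiniteDimensional ℝ (V' ⧸ LinearMap.range L) :=
  have := h.symm.ker_fd
  (Submodule.quotientEquivOfIsCompl _ _ h.abs2_range).symm.finiteDimensional

theorem index_eq (h : Pair L L') :
    L.index = (finrank ℝ (LinearMap.ker L) : ℤ) - finrank ℝ (LinearMap.ker L') := by
  rw [LinearMap.index_eq_finrank_sub,
    (Submodule.quotientEquivOfIsCompl _ _ h.abs2_range).finrank_eq]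

theorem index_adj (h : Pair L L') : L'.index = -L.index := by
  rw [h.index_eq, h.symm.index_eq, neg_sub]

theorem index_eig (h : Pair L L') (Λ : ℝ) :
    L.index = (finrank ℝ (eig L L' Λ) : ℤ) - finrank ℝ (eig L' L Λ) := by
  have i1 := h.eig_fd Λ
  have i2 := h.symm.eig_fd Λ
  have i3 := h.ker_fd
  have i4 := h.coker_fd
  obtain ⟨p, hp⟩ := exists_isOP (eig L L' Λ)
  obtain ⟨p', hp'⟩ := exists_isOP (eig L' L Λ)
  have k := abs2_index hp hp' L
  have e : ∀ s : LinearMap.ker p,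
      ((abs2Pr hp' ∘ₗ L ∘ₗ (LinearMap.ker p).subtype) s).1 = L s := fun s =>
    show L s - p' (L s) = L s by
      rw [h.op_comm hp hp', LinearMap.mem_ker.1 s.2, map_zero, sub_zero]
  have k1 : Function.Injective (abs2Pr hp' ∘ₗ L ∘ₗ (LinearMap.ker p).subtype) := by
    refine (injective_iff_map_eq_zero _).2 fun s hs => Subtype.ext ?_
    have : L s = 0 := by rw [← e, hs]; rfl
    exact Submodule.disjoint_def.1 (abs2_compl hp).disjoint _ s.2 (ker_le_eig L L' Λ this)
  have k2 : Function.Surjective (abs2Pr hp' ∘ₗ L ∘ₗ (LinearMap.ker p).subtype) := fun g => by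
    obtain ⟨s, hs⟩ := h.solve (g := g.1) fun t ht => abs2_orth hp' g.2 t (ker_le_eig L' L Λ ht)
    refine ⟨⟨_, abs2_mem_ker hp s⟩, Subtype.ext ?_⟩
    rw [e, map_sub, ← h.op_comm hp hp', hs, LinearMap.mem_ker.1 g.2, sub_zero]
  have := LinearMap.index_of_injective k1
  have := LinearMap.index_of_surjective k2
  omega

/-- The index does not increase under relatively small perturbations. -/
theorem pert (h : Pair L L') (M : V →ₗ[ℝ] V') [FiniteDimensional ℝ (V' ⧸ LinearMap.range M)]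
    {ε C : ℝ} (hε : ε < 1) (hM : ∀ s, ‖M s - L s‖ ≤ ε * ‖L s‖ + C * ‖s‖) :
    M.index ≤ L.index := by
  obtain ⟨Λ, hΛ⟩ : ∃ Λ : ℝ, (1 - ε) * Λ = C + 1 :=
    ⟨(C + 1) / (1 - ε), mul_div_cancel₀ _ (sub_pos.2 hε).ne'⟩
  have i1 := h.eig_fd Λ
  have i2 := h.symm.eig_fd Λ
  obtain ⟨p, hp⟩ := exists_isOP (eig L L' Λ)
  obtain ⟨p', hp'⟩ := exists_isOP (eig L' L Λ)
  have key : ∀ s, p s = 0 → M s ∈ eig L' L Λ → s = 0 := fun s hs hm => by
    have a1 := h.gap Λ (abs2_orth hp hs)
    have a2 := abs2_orth hp' (t := L s) (by rw [h.op_comm hp hp', hs, map_zero]) _ hm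
    have a3 : ‖L s‖ ≤ ‖M s - L s‖ := by
      refine le_of_sq_le_sq ?_ (norm_nonneg _)
      rw [norm_sub_sq_real, real_inner_comm, a2]
      nlinarith [sq_nonneg ‖M s‖]
    have a4 := mul_le_mul_of_nonneg_left a1 (sub_pos.2 hε).le
    rw [← mul_assoc, hΛ] at a4
    exact norm_le_zero_iff.1 (by linarith [hM s])
  have i3 : FiniteDimensional ℝ (LinearMap.ker M) := by
    refine FiniteDimensional.of_injective
      ((p ∘ₗ (LinearMap.ker M).subtype).codRestrict (eig L L' Λ) fun s => hp.1 _)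
      ((injective_iff_map_eq_zero _).2 fun s hs => Subtype.ext (key _ (congrArg Subtype.val hs) ?_))
    rw [LinearMap.mem_ker.1 s.2]
    exact zero_mem _
  have k := abs2_index hp hp' M
  have k1 : Function.Injective (abs2Pr hp' ∘ₗ M ∘ₗ (LinearMap.ker p).subtype) := by
    refine (injective_iff_map_eq_zero _).2 fun s hs => Subtype.ext (key _ s.2 ?_)
    have : M s - p' (M s) = 0 := congrArg Subtype.val hs
    rw [sub_eq_zero.1 this]
    exact hp'.1 _
  have := LinearMap.index_of_injective k1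
  have := h.index_eig Λ
  omega

/-- Invariance of the index under bounded perturbations. -/
theorem index_bdd (h : Pair L L') {M : V →ₗ[ℝ] V'} {M' : V' →ₗ[ℝ] V} (h' : Pair M M') {C : ℝ}
    (hM : ∀ s, ‖M s - L s‖ ≤ C * ‖s‖) : M.index = L.index := by
  have i1 := h.coker_fd
  have i2 := h'.coker_fd
  refine le_antisymm (h.pert M (C := C) zero_lt_one fun s => ?_)
    (h'.pert L (C := C) zero_lt_one fun s => ?_)
  · simpa using hM s
  · simpa [norm_sub_rev] using hM s

end Pair

/-- The index of a finite direct sum. -/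
theorem index_pi {ι : Type} [Fintype ι] {U U' : ι → Type} [∀ i, AddCommGroup (U i)]
    [∀ i, Module ℝ (U i)] [∀ i, AddCommGroup (U' i)] [∀ i, Module ℝ (U' i)]
    (T : ∀ i, U i →ₗ[ℝ] U' i) [∀ i, FiniteDimensional ℝ (LinearMap.ker (T i))]
    [∀ i, FiniteDimensional ℝ (U' i ⧸ LinearMap.range (T i))] :
    (LinearMap.pi fun i => T i ∘ₗ LinearMap.proj i : (∀ i, U i) →ₗ[ℝ] ∀ i, U' i).index =
      ∑ i, (T i).index := by
  classical
  have k1 : LinearMap.range
      (LinearMap.pi fun i => T i ∘ₗ LinearMap.proj i : (∀ i, U i) →ₗ[ℝ] ∀ i, U' i) =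
      Submodule.pi Set.univ fun i => LinearMap.range (T i) := by
    ext y
    refine ⟨?_, fun hy => ?_⟩
    · rintro ⟨x, rfl⟩ i _
      exact ⟨x i, rfl⟩
    · choose x hx using fun i => hy i trivial
      exact ⟨x, funext hx⟩
  have e : LinearMap.ker
      (LinearMap.pi fun i => T i ∘ₗ LinearMap.proj i : (∀ i, U i) →ₗ[ℝ] ∀ i, U' i) ≃ₗ[ℝ]
      ∀ i, LinearMap.ker (T i) :=
    { toFun := fun x i => ⟨x.1 i, congrFun x.2 i⟩
      invFun := fun x => ⟨fun i => x i, funext fun i => (x i).2⟩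
      map_add' := fun _ _ => rfl
      map_smul' := fun _ _ => rfl
      left_inv := fun _ => rfl
      right_inv := fun _ => rfl }
  rw [LinearMap.index_eq_finrank_sub, k1, e.finrank_eq, (Submodule.quotientPi _).finrank_eq,
    finrank_pi_fintype, finrank_pi_fintype]
  simp only [LinearMap.index_eq_finrank_sub, Finset.sum_sub_distrib, Nat.cast_sum]

/-- The index is invariant under isomorphisms. -/
theorem index_conj {U U' W W' : Type} [AddCommGroup U] [Module ℝ U] [AddCommGroup U']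
    [Module ℝ U'] [AddCommGroup W] [Module ℝ W] [AddCommGroup W'] [Module ℝ W']
    (T : U →ₗ[ℝ] U') (S : W →ₗ[ℝ] W') (e : U ≃ₗ[ℝ] W) (e' : U' ≃ₗ[ℝ] W')
    (h : ∀ u, S (e u) = e' (T u)) : S.index = T.index := by
  have k1 : (LinearMap.ker T).map e.toLinearMap = LinearMap.ker S := by
    ext w
    obtain ⟨u, rfl⟩ := e.surjective w
    simp [h]
  have k2 : (LinearMap.range T).map e'.toLinearMap = LinearMap.range S := by
    ext w
    refine ⟨?_, ?_⟩
    · rintro ⟨_, ⟨u, rfl⟩, rfl⟩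
      exact ⟨e u, h u⟩
    · rintro ⟨x, rfl⟩
      obtain ⟨u, rfl⟩ := e.surjective x
      exact ⟨_, ⟨u, rfl⟩, (h u).symm⟩
  rw [LinearMap.index_eq_finrank_sub, LinearMap.index_eq_finrank_sub,
    (Submodule.Quotient.equiv _ _ e' k2).finrank_eq, ← k1, e.finrank_map_eq]

end SX4
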