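import Pool.Agent.P.MP_0a0487_an.SX.Reg3
import Pool.Agent.P.MP_0a0487_an.SX.Abs2

/-! Elliptic operators are abstract elliptic pairs. -/

set_option autoImplicit false
set_option linter.unusedSectionVars false

noncomputable section

namespace SX4

open scoped ComplexOrder ContDiff
open Filter Topology

variable {P A : Type} [TopologicalSpace P] [CompactSpace P] [CommRing A] [StarRing A] [Algebra ℂ A]
  [StarModule ℂ A] {B : Base P A}

namespace Pre

variable {G : Pre B} {ι ι' ι'' : Type} [Fintype ι] [Fintype ι'] [Fintype ι'']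
  {w : ι → Wt} {w' : ι' → Wt} {w'' : ι'' → Wt}

variable (G w w') in
/-- The first component of a pair of sections. -/
def specFst : G.Sec (Sum.elim w w') →ₗ[ℝ] G.Sec w where
  toFun z := G.mk' (fun i => z.c (Sum.inl i)) fun i => z.mem (Sum.inl i)
  map_add' _ _ := Sec.ext fun _ => rfl
  map_smul' _ _ := Sec.ext fun _ => rfl

variable (G w w') in
/-- The second component of a pair of sections. -/
def specSnd : G.Sec (Sum.elim w w') →ₗ[ℝ] G.Sec w' where
  toFun z := G.mk' (fun i => z.c (Sum.inr i)) fun i => z.mem (Sum.inr i)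
  map_add' _ _ := Sec.ext fun _ => rfl
  map_smul' _ _ := Sec.ext fun _ => rfl

/-- A pair of sections. -/
def specMk (x : G.Sec w) (y : G.Sec w') : G.Sec (Sum.elim w w') :=
  G.mk' (Sum.elim x.c y.c) (by
    rintro (i | i)
    · exact x.mem i
    · exact y.mem i)

/-- A pair of operators. -/
def specPair {V : Type} [AddCommGroup V] [Module ℝ V] (F : V →ₗ[ℝ] G.Sec w)
    (H : V →ₗ[ℝ] G.Sec w') : V →ₗ[ℝ] G.Sec (Sum.elim w w') where
  toFun v := specMk (F v) (H v)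
  map_add' u v := Sec.ext (by
    rw [map_add, map_add]
    rintro (i | i) <;> rfl)
  map_smul' r v := Sec.ext (by
    rw [map_smul, map_smul]
    rintro (i | i) <;> rfl)

theorem spec_fst_mk (x : G.Sec w) (y : G.Sec w') : specFst G w w' (specMk x y) = x :=
  Sec.ext fun _ => rfl

theorem spec_snd_mk (x : G.Sec w) (y : G.Sec w') : specSnd G w w' (specMk x y) = y :=
  Sec.ext fun _ => rfl

theorem spec_pair_apply {V : Type} [AddCommGroup V] [Module ℝ V] (F : V →ₗ[ℝ] G.Sec w)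
    (H : V →ₗ[ℝ] G.Sec w') (v : V) : specPair F H v = specMk (F v) (H v) := rfl

theorem spec_inner (z z' : G.Sec (Sum.elim w w')) : inner ℝ z z' =
    inner ℝ (specFst G w w' z) (specFst G w w' z') +
      inner ℝ (specSnd G w w' z) (specSnd G w w' z') := by
  rw [inner_real, inner_real, inner_real, Fintype.sum_sum_type]
  rfl

theorem spec_norm_sq (z : G.Sec (Sum.elim w w')) :
    ‖z‖ ^ 2 = ‖specFst G w w' z‖ ^ 2 + ‖specSnd G w w' z‖ ^ 2 := by
  rw [← real_inner_self_eq_norm_sq, ← real_inner_self_eq_norm_sq, ← real_inner_self_eq_norm_sq,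
    spec_inner]

theorem spec_fst_le (z : G.Sec (Sum.elim w w')) : ‖specFst G w w' z‖ ≤ ‖z‖ := by
  refine le_of_sq_le_sq ?_ (norm_nonneg _)
  rw [spec_norm_sq]
  exact le_add_of_nonneg_right (sq_nonneg _)

theorem spec_snd_le (z : G.Sec (Sum.elim w w')) : ‖specSnd G w w' z‖ ≤ ‖z‖ := by
  refine le_of_sq_le_sq ?_ (norm_nonneg _)
  rw [spec_norm_sq]
  exact le_add_of_nonneg_left (sq_nonneg _)

theorem spec_norm_le (z : G.Sec (Sum.elim w w')) :
    ‖z‖ ≤ ‖specFst G w w' z‖ + ‖specSnd G w w' z‖ := by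
  refine le_of_sq_le_sq ?_ (add_nonneg (norm_nonneg _) (norm_nonneg _))
  rw [spec_norm_sq, add_sq]
  have := mul_nonneg (mul_nonneg zero_le_two (norm_nonneg (specFst G w w' z)))
    (norm_nonneg (specSnd G w w' z))
  linarith

theorem spec_nS (z : G.Sec (Sum.elim w w')) (k : ℕ) :
    z.nS k = (specFst G w w' z).nS k + (specSnd G w w' z).nS k := by
  unfold Sec.nS
  rw [Fintype.sum_sum_type]
  rfl

theorem spec_zo_pair {F : G.Sec w'' →ₗ[ℝ] G.Sec w} {H : G.Sec w'' →ₗ[ℝ] G.Sec w'} (hF : IsZO F)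
    (hH : IsZO H) : IsZO (specPair F H) := by
  obtain ⟨b, b', h1, h2, h3⟩ := hF
  obtain ⟨d, d', k1, k2, k3⟩ := hH
  refine ⟨Sum.elim b d, Sum.elim b' d', ?_, ?_, ?_⟩
  · rintro (i | i) j
    · exact h1 i j
    · exact k1 i j
  · rintro (i | i) j
    · exact h2 i j
    · exact k2 i j
  · rintro s (i | i)
    · exact h3 s i
    · exact k3 s i

theorem spec_fo_pair {F : G.Sec w'' →ₗ[ℝ] G.Sec w} {H : G.Sec w'' →ₗ[ℝ] G.Sec w'} (hF : IsFO F)
    (hH : IsFO H) : IsFO (specPair F H) := by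
  obtain ⟨b, b', Z, h1, h2, hZ, h3⟩ := hF
  obtain ⟨d, d', Y, k1, k2, hY, k3⟩ := hH
  refine ⟨fun α => Sum.elim (b α) (d α), fun α => Sum.elim (b' α) (d' α), specPair Z Y, ?_, ?_,
    spec_zo_pair hZ hY, ?_⟩
  · rintro α (i | i) j
    · exact h1 α i j
    · exact k1 α i j
  · rintro α (i | i) j
    · exact h2 α i j
    · exact k2 α i j
  · rintro s (i | i)
    · exact h3 s i
    · exact k3 s i

theorem spec_zo_fst {F : G.Sec w →ₗ[ℝ] G.Sec w''} (hF : IsZO F) :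
    IsZO (F ∘ₗ specFst G w w') := by
  obtain ⟨b, b', h1, h2, h3⟩ := hF
  refine ⟨fun i => Sum.elim (b i) fun _ => 0, fun i => Sum.elim (b' i) fun _ => 0, ?_, ?_, ?_⟩
  · rintro i (j | j)
    · exact h1 i j
    · exact zero_mem _
  · rintro i (j | j)
    · exact h2 i j
    · exact zero_mem _
  · intro s i
    rw [LinearMap.comp_apply, h3, Fintype.sum_sum_type]
    simp only [Sum.elim_inl, Sum.elim_inr, zero_mul, add_zero, Finset.sum_const_zero]
    rfl

theorem spec_zo_snd {F : G.Sec w' →ₗ[ℝ] G.Sec w''} (hF : IsZO F) :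
    IsZO (F ∘ₗ specSnd G w w') := by
  obtain ⟨b, b', h1, h2, h3⟩ := hF
  refine ⟨fun i => Sum.elim (fun _ => 0) (b i), fun i => Sum.elim (fun _ => 0) (b' i), ?_, ?_, ?_⟩
  · rintro i (j | j)
    · exact zero_mem _
    · exact h1 i j
  · rintro i (j | j)
    · exact zero_mem _
    · exact h2 i j
  · intro s i
    rw [LinearMap.comp_apply, h3, Fintype.sum_sum_type]
    simp only [Sum.elim_inl, Sum.elim_inr, zero_mul, add_zero, zero_add, Finset.sum_const_zero]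
    rfl

theorem spec_fo_fst {F : G.Sec w →ₗ[ℝ] G.Sec w''} (hF : IsFO F) :
    IsFO (F ∘ₗ specFst G w w') := by
  obtain ⟨b, b', Z, h1, h2, hZ, h3⟩ := hF
  refine ⟨fun α i => Sum.elim (b α i) fun _ => 0, fun α i => Sum.elim (b' α i) fun _ => 0,
    Z ∘ₗ specFst G w w', ?_, ?_, spec_zo_fst hZ, ?_⟩
  · rintro α i (j | j)
    · exact h1 α i j
    · exact zero_mem _
  · rintro α i (j | j)
    · exact h2 α i j
    · exact zero_mem _
  · intro s i
    rw [LinearMap.comp_apply, h3, Fintype.sum_sum_type]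
    simp only [Sum.elim_inl, Sum.elim_inr, zero_mul, add_zero, Finset.sum_const_zero]
    rfl

theorem spec_fo_snd {F : G.Sec w' →ₗ[ℝ] G.Sec w''} (hF : IsFO F) :
    IsFO (F ∘ₗ specSnd G w w') := by
  obtain ⟨b, b', Z, h1, h2, hZ, h3⟩ := hF
  refine ⟨fun α i => Sum.elim (fun _ => 0) (b α i), fun α i => Sum.elim (fun _ => 0) (b' α i),
    Z ∘ₗ specSnd G w w', ?_, ?_, spec_zo_snd hZ, ?_⟩
  · rintro α i (j | j)
    · exact zero_mem _
    · exact h1 α i j
  · rintro α i (j | j)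
    · exact zero_mem _
    · exact h2 α i j
  · intro s i
    rw [LinearMap.comp_apply, h3, Fintype.sum_sum_type]
    simp only [Sum.elim_inl, Sum.elim_inr, zero_mul, add_zero, zero_add, Finset.sum_const_zero]
    rfl

/-- The symmetric operator attached to an elliptic pair. -/
def specM (L : G.Sec w →ₗ[ℝ] G.Sec w') (L' : G.Sec w' →ₗ[ℝ] G.Sec w) (c c' : ℝ) :
    G.Sec (Sum.elim w w') →ₗ[ℝ] G.Sec (Sum.elim w w') :=
  specPair (L' ∘ₗ specSnd G w w' + ((-c') • LinearMap.id) ∘ₗ specFst G w w')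
    (L ∘ₗ specFst G w w' + ((-c) • LinearMap.id) ∘ₗ specSnd G w w')

theorem spec_M_fst (L : G.Sec w →ₗ[ℝ] G.Sec w') (L' : G.Sec w' →ₗ[ℝ] G.Sec w) (c c' : ℝ)
    (z : G.Sec (Sum.elim w w')) : specFst G w w' (specM L L' c c' z) =
      L' (specSnd G w w' z) - c' • specFst G w w' z := by
  rw [specM, spec_pair_apply, spec_fst_mk, sub_eq_add_neg, ← neg_smul]
  rfl

theorem spec_M_snd (L : G.Sec w →ₗ[ℝ] G.Sec w') (L' : G.Sec w' →ₗ[ℝ] G.Sec w) (c c' : ℝ)
    (z : G.Sec (Sum.elim w w')) : specSnd G w w' (specM L L' c c' z) =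
      L (specFst G w w' z) - c • specSnd G w w' z := by
  rw [specM, spec_pair_apply, spec_snd_mk, sub_eq_add_neg, ← neg_smul]
  rfl

theorem spec_gar_aux {a C n1 n2 c m z : ℝ} (h : a ≤ C * (n1 + n2)) (h0 : 0 ≤ n1) (h0' : 0 ≤ n2)
    (h1 : n1 ≤ m + |c| * z) (h2 : n2 ≤ z) (hm : 0 ≤ m) :
    a ≤ |C| * (|c| + 1) * (m + z) := by
  have e1 : C * (n1 + n2) ≤ |C| * (n1 + n2) :=
    mul_le_mul_of_nonneg_right (le_abs_self C) (add_nonneg h0 h0')
  have e2 : n1 + n2 ≤ (|c| + 1) * (m + z) := by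
    have := mul_nonneg (abs_nonneg c) hm
    linarith
  rw [mul_assoc]
  exact h.trans (e1.trans (mul_le_mul_of_nonneg_left e2 (abs_nonneg C)))

theorem spec_ell {L : G.Sec w →ₗ[ℝ] G.Sec w'} {L' : G.Sec w' →ₗ[ℝ] G.Sec w} (h : Ell L L')
    (c c' : ℝ) : Ell (specM L L' c c') (specM L L' c c') := by
  have fo : IsFO (specM L L' c c') :=
    spec_fo_pair ((spec_fo_snd h.fo').add (spec_zo_fst (IsZO.id.smul (-c'))).isFO)
      ((spec_fo_fst h.fo).add (spec_zo_snd (IsZO.id.smul (-c))).isFO)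
  have gar : ∃ C : ℝ, ∀ s : G.Sec (Sum.elim w w'),
      s.nS 1 ≤ C * (‖specM L L' c c' s‖ + ‖s‖) := by
    obtain ⟨C, hC⟩ := h.gar
    obtain ⟨C', hC'⟩ := h.gar'
    refine ⟨|C| * (|c| + 1) + |C'| * (|c'| + 1), fun s => ?_⟩
    rw [spec_nS, add_mul]
    refine add_le_add
      (spec_gar_aux (hC _) (norm_nonneg _) (norm_nonneg _) ?_ (spec_fst_le s) (norm_nonneg _))
      (spec_gar_aux (hC' _) (norm_nonneg _) (norm_nonneg _) ?_ (spec_snd_le s) (norm_nonneg _))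
    · rw [← sub_add_cancel (L (specFst G w w' s)) (c • specSnd G w w' s), ← spec_M_snd L L' c c']
      refine (norm_add_le _ _).trans (add_le_add (spec_snd_le _) ?_)
      rw [norm_smul, Real.norm_eq_abs]
      exact mul_le_mul_of_nonneg_left (spec_snd_le s) (abs_nonneg c)
    · rw [← sub_add_cancel (L' (specSnd G w w' s)) (c' • specFst G w w' s),
        ← spec_M_fst L L' c c']
      refine (norm_add_le _ _).trans (add_le_add (spec_fst_le _) ?_)
      rw [norm_smul, Real.norm_eq_abs]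
      exact mul_le_mul_of_nonneg_left (spec_fst_le s) (abs_nonneg c')
  refine ⟨fo, fo, fun s t => ?_, gar, gar⟩
  rw [spec_inner, spec_inner, spec_M_fst, spec_M_fst, spec_M_snd, spec_M_snd, inner_sub_left,
    inner_sub_left, inner_sub_right, inner_sub_right, real_inner_smul_left, real_inner_smul_left,
    real_inner_smul_right, real_inner_smul_right, h.adj, h.symm.adj]
  ring

end Pre

namespace Geo

variable (G : Geo B) {ι ι' : Type} [Fintype ι] [Fintype ι'] {w : ι → Wt} {w' : ι' → Wt}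
  {L : G.Sec w →ₗ[ℝ] G.Sec w'} {L' : G.Sec w' →ₗ[ℝ] G.Sec w}

theorem spec_rel (s : ℕ → G.Sec w) (C : ℝ) (hs : ∀ n, (s n).nS 1 ≤ C) :
    ∃ φ : ℕ → ℕ, StrictMono φ ∧ CauchySeq (s ∘ φ) := by
  classical
  have key : ∀ F : Finset ι, ∃ φ : ℕ → ℕ, StrictMono φ ∧ ∀ i ∈ F, ∀ ε > 0, ∃ n₀, ∀ m ≥ n₀,
      ∀ n ≥ n₀, G.nrm ((s (φ m)).c i - (s (φ n)).c i) ≤ ε := by
    intro F
    induction F using Finset.induction_on with
    | empty => exact ⟨id, strictMono_id, fun i hi => absurd hi (Finset.notMem_empty i)⟩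
    | insert i F _ ih =>
      obtain ⟨φ, hφ, h1⟩ := ih
      obtain ⟨ψ, hψ, h2⟩ := G.relW (w i) (fun n => (s (φ n)).c i) (fun n => (s (φ n)).mem i) C
        fun n => ((s (φ n)).nn_le_nS 1 i).trans (hs _)
      refine ⟨φ ∘ ψ, hφ.comp hψ, fun j hj ε hε => ?_⟩
      rcases Finset.mem_insert.1 hj with rfl | hj
      · exact h2 ε hε
      · obtain ⟨n₀, h3⟩ := h1 j hj ε hε
        exact ⟨n₀, fun m hm n hn => h3 _ (hm.trans (hψ.id_le m)) _ (hn.trans (hψ.id_le n))⟩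
  obtain ⟨φ, hφ, h1⟩ := key Finset.univ
  refine ⟨φ, hφ, Metric.cauchySeq_iff.2 fun ε hε => ?_⟩
  have hc : (0 : ℝ) < Fintype.card ι + 1 := by positivity
  choose n₀ h2 using fun i => h1 i (Finset.mem_univ i) (ε / (Fintype.card ι + 1)) (div_pos hε hc)
  refine ⟨Finset.univ.sup n₀, fun m hm n hn => ?_⟩
  rw [dist_eq_norm]
  refine ((Pre.Sec.norm_le_nS _ 0).trans (Finset.sum_le_card_nsmul _ _ _ fun i _ =>
    h2 i m ((Finset.le_sup (Finset.mem_univ i)).trans hm) n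
      ((Finset.le_sup (Finset.mem_univ i)).trans hn))).trans_lt ?_
  rw [Finset.card_univ, nsmul_eq_mul, ← mul_div_assoc, div_lt_iff₀ hc]
  linarith

theorem spec_cpt (h : Pre.Ell L L') (s : ℕ → G.Sec w) (hs : ∀ n, ‖s n‖ + ‖L (s n)‖ ≤ 1) :
    ∃ φ : ℕ → ℕ, StrictMono φ ∧ CauchySeq (s ∘ φ) := by
  obtain ⟨C, hC⟩ := h.gar
  refine G.spec_rel s |C| fun n => (hC _).trans ?_
  refine (mul_le_mul_of_nonneg_right (le_abs_self C)
    (add_nonneg (norm_nonneg _) (norm_nonneg _))).trans ?_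
  exact mul_le_of_le_one_right (abs_nonneg C) (by rw [add_comm]; exact hs n)

theorem pair (h : Pre.Ell L L') : Pair L L' := by
  refine ⟨h.adj, G.spec_cpt h, G.spec_cpt h.symm, fun c c' f g x y hx hy h1 h2 => ?_⟩
  have hz : CauchySeq fun n => Pre.specMk (x n) (y n) := by
    rw [Metric.cauchySeq_iff] at hx hy ⊢
    intro ε hε
    obtain ⟨N, hN⟩ := hx (ε / 2) (half_pos hε)
    obtain ⟨N', hN'⟩ := hy (ε / 2) (half_pos hε)
    refine ⟨max N N', fun m hm n hn => ?_⟩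
    have a1 := hN m ((le_max_left _ _).trans hm) n ((le_max_left _ _).trans hn)
    have a2 := hN' m ((le_max_right _ _).trans hm) n ((le_max_right _ _).trans hn)
    rw [dist_eq_norm] at a1 a2 ⊢
    refine (Pre.spec_norm_le _).trans_lt ?_
    rw [map_sub, map_sub, Pre.spec_fst_mk, Pre.spec_fst_mk, Pre.spec_snd_mk, Pre.spec_snd_mk]
    linarith
  obtain ⟨z, hz₀⟩ := G.reg_symm (Pre.spec_ell h c c') (Pre.specMk f g) _ hz fun s => by
    rw [Pre.spec_inner, Pre.spec_fst_mk, Pre.spec_snd_mk]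
    refine ((h2 (Pre.specFst _ w w' s)).add (h1 (Pre.specSnd _ w w' s))).congr fun n => ?_
    rw [Pre.spec_inner, Pre.spec_fst_mk, Pre.spec_snd_mk, Pre.spec_M_fst, Pre.spec_M_snd,
      inner_sub_right, inner_sub_right, real_inner_smul_right, real_inner_smul_right]
    ring
  rw [tendsto_iff_norm_sub_tendsto_zero] at hz₀
  refine ⟨⟨Pre.specFst _ w w' z, ?_⟩, ⟨Pre.specSnd _ w w' z, ?_⟩⟩
  · rw [tendsto_iff_norm_sub_tendsto_zero]
    refine squeeze_zero (fun n => norm_nonneg _) (fun n => ?_) hz₀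
    have := Pre.spec_fst_le (Pre.specMk (x n) (y n) - z)
    rwa [map_sub, Pre.spec_fst_mk] at this
  · rw [tendsto_iff_norm_sub_tendsto_zero]
    refine squeeze_zero (fun n => norm_nonneg _) (fun n => ?_) hz₀
    have := Pre.spec_snd_le (Pre.specMk (x n) (y n) - z)
    rwa [map_sub, Pre.spec_snd_mk] at this

theorem index_add_zo (h : Pre.Ell L L') {Z : G.Sec w →ₗ[ℝ] G.Sec w'} (hZ : Pre.IsZO Z) :
    (L + Z).index = L.index := by
  obtain ⟨Z', -, h'⟩ := h.add_zo hZ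
  obtain ⟨C, -, hC⟩ := hZ.norm_le
  refine (G.pair h).index_bdd (G.pair h') (C := C) fun s => ?_
  rw [LinearMap.add_apply, add_sub_cancel_left]
  exact hC s

theorem spec_proj_zero {E : Submodule ℝ (G.Sec w)} {p : G.Sec w →ₗ[ℝ] G.Sec w} (hp : IsOP E p)
    (s : G.Sec w) : (p s).nS 0 ≤ Fintype.card ι * s.nS 0 :=
  (p s).nS_zero_le.trans (mul_le_mul_of_nonneg_left ((hp.norm_le s).trans (s.norm_le_nS 0))
    (Nat.cast_nonneg _))

theorem spec_proj_step (h : Pre.Ell L L') (k : ℕ) : ∃ K : ℝ, 0 ≤ K ∧ ∀ (C Λ : ℝ) p p', 0 ≤ C →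
    IsOP (eig L L' Λ) p → IsOP (eig L' L Λ) p' → (∀ s, (p s).nS k ≤ C * s.nS k) →
      (∀ t, (p' t).nS k ≤ C * t.nS k) → ∀ s, (p s).nS (k + 1) ≤ K * C * s.nS (k + 1) := by
  obtain ⟨C₁, h1, k1⟩ := h.fo.est h.gar k
  obtain ⟨C₂, h2, k2⟩ := h.fo.nS_le k
  refine ⟨C₁ * (C₂ + 1), by positivity, fun C Λ p p' hC hp hp' a1 a2 s => (k1 _).trans ?_⟩
  rw [← (G.pair h).op_comm hp hp', mul_assoc, mul_assoc]
  refine mul_le_mul_of_nonneg_left ?_ h1
  have b1 := (a2 (L s)).trans (mul_le_mul_of_nonneg_left (k2 s) hC)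
  have b2 := (a1 s).trans (mul_le_mul_of_nonneg_left (s.nS_mono (Nat.le_succ k)) hC)
  linarith

/-- The spectral projections are uniformly bounded on all Sobolev spaces. -/
theorem proj_nS (h : Pre.Ell L L') (k : ℕ) : ∃ C : ℝ, 0 ≤ C ∧ ∀ (Λ : ℝ) p p',
    IsOP (eig L L' Λ) p → IsOP (eig L' L Λ) p' →
      (∀ s, (p s).nS k ≤ C * s.nS k) ∧ ∀ t, (p' t).nS k ≤ C * t.nS k := by
  induction k with
  | zero =>
    refine ⟨Fintype.card ι + Fintype.card ι', by positivity, fun Λ p p' hp hp' =>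
      ⟨fun s => (G.spec_proj_zero hp s).trans ?_, fun t => (G.spec_proj_zero hp' t).trans ?_⟩⟩
    · exact mul_le_mul_of_nonneg_right (le_add_of_nonneg_right (Nat.cast_nonneg _))
        (s.nS_nonneg 0)
    · exact mul_le_mul_of_nonneg_right (le_add_of_nonneg_left (Nat.cast_nonneg _))
        (t.nS_nonneg 0)
  | succ k ih =>
    obtain ⟨C, hC, ih⟩ := ih
    obtain ⟨K, hK, k1⟩ := G.spec_proj_step h k
    obtain ⟨K', hK', k2⟩ := G.spec_proj_step h.symm k
    refine ⟨K * C + K' * C, by positivity, fun Λ p p' hp hp' => ?_⟩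
    obtain ⟨a1, a2⟩ := ih Λ p p' hp hp'
    refine ⟨fun s => (k1 C Λ p p' hC hp hp' a1 a2 s).trans ?_,
      fun t => (k2 C Λ p' p hC hp' hp a2 a1 t).trans ?_⟩
    · exact mul_le_mul_of_nonneg_right (le_add_of_nonneg_right (mul_nonneg hK' hC))
        (s.nS_nonneg _)
    · exact mul_le_mul_of_nonneg_right (le_add_of_nonneg_left (mul_nonneg hK hC))
        (t.nS_nonneg _)

theorem montelS (v : ℕ → G.Sec w) (hb : ∀ k, ∃ C : ℝ, ∀ n, (v n).nS k ≤ C) :
    ∃ (φ : ℕ → ℕ) (u : G.Sec w), StrictMono φ ∧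
      ∀ k, Tendsto (fun n => (v (φ n) - u).nS k) atTop (𝓝 0) := by
  obtain ⟨φ, u, hφ, hu, h1⟩ := G.montel w (fun n => (v n).c) (fun n i => (v n).mem i) fun k => by
    obtain ⟨C, hC⟩ := hb k
    exact ⟨C, fun n i => ((v n).nn_le_nS k i).trans (hC n)⟩
  refine ⟨φ, G.mk' u hu, hφ, fun k => ?_⟩
  have := tendsto_finsetSum Finset.univ fun i _ => h1 k i
  rw [Finset.sum_const_zero] at this
  exact this

/-- Passage to the limit in a projected equation. -/
theorem proj_lim (h : Pre.Ell L L') {Λ : ℕ → ℝ} (hΛ : Tendsto Λ atTop atTop)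
    {p' : ℕ → G.Sec w' →ₗ[ℝ] G.Sec w'} (hp : ∀ n, IsOP (eig L' L (Λ n)) (p' n))
    {g : ℕ → G.Sec w'} {g₀ : G.Sec w'} (hg : Tendsto g atTop (𝓝 g₀))
    (h0 : ∀ n, p' n (g n) = 0) : g₀ = 0 := by
  rw [tendsto_iff_norm_sub_tendsto_zero] at hg
  have h1 : Tendsto (fun n => ‖g n - g₀‖ + ‖L' g₀‖ / Λ n) atTop (𝓝 0) := by
    have := hg.add (hΛ.const_div_atTop ‖L' g₀‖)
    rwa [add_zero] at this
  refine norm_le_zero_iff.1 (ge_of_tendsto h1 ?_)
  filter_upwards [hΛ.eventually_gt_atTop 0] with n hn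
  have a1 := (G.pair h).symm.tail (hp n) g₀
  have a2 := (hp n).norm_le (g n - g₀)
  rw [map_sub, h0, zero_sub, norm_neg] at a2
  have a3 : ‖g₀ - p' n g₀‖ ≤ ‖L' g₀‖ / Λ n := by
    rw [le_div_iff₀ hn, mul_comm]
    exact a1
  have a4 := norm_add_le (p' n g₀) (g₀ - p' n g₀)
  rw [add_sub_cancel] at a4
  linarith

end Geo

end SX4
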