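import Pool.Agent.P.MP_0a0487_an.SX.ChgDefs
import Pool.Agent.P.MP_0a0487_an.SX.Dirac
import Pool.Agent.P.MP_0a0487_an.SX.Spec

/-! Reversal of the orientation of the second plane. -/

set_option autoImplicit false
set_option linter.unusedSectionVars false

noncomputable section

namespace SX4

open scoped ComplexOrder ContDiff
open Filter Topology

theorem flip_sw_sw (α : Fin 4) : sw (sw α) = α := by fin_cases α <;> rfl

theorem flip_sw_bar (α : Fin 4) : sw (bar α) = bar (sw α) := by fin_cases α <;> rfl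

theorem flip_wt_sw (α : Fin 4) : wt (sw α) = ((wt α).1, -(wt α).2) := by fin_cases α <;> rfl

theorem flip_sw_inj {α β : Fin 4} : sw α = sw β ↔ α = β :=
  ⟨fun h => by rw [← flip_sw_sw α, h, flip_sw_sw], fun h => by rw [h]⟩

theorem flip_sum_sw {M : Type} [AddCommMonoid M] (f : Fin 4 → M) :
    ∑ α, f (sw α) = ∑ α, f α := by
  simp only [Fin.sum_univ_four]
  change f 0 + f 1 + f 3 + f 2 = _
  rw [add_right_comm]

variable {P A : Type} [TopologicalSpace P] [CompactSpace P] [CommRing A] [StarRing A] [Algebra ℂ A]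
  [StarModule ℂ A] {B : Base P A}

theorem flip_mem {w : Wt} {s : A} : s ∈ B.flip.W w ↔ s ∈ B.W (w.1, -w.2) := Iff.rfl

theorem flip_mem_wt {α : Fin 4} {s : A} : s ∈ B.flip.W (wt α) ↔ s ∈ B.W (wt (sw α)) := by
  rw [flip_mem, flip_wt_sw]

theorem flip_mem_neg_wt {α : Fin 4} {s : A} :
    s ∈ B.flip.W (-wt α) ↔ s ∈ B.W (-wt (sw α)) := by
  rw [flip_mem, flip_wt_sw]; rfl

/-- The calculus with the last two frame fields exchanged. -/
def Calc.flipC (G : Calc B) : Calc B.flip where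
  D α := G.D (sw α)
  D_mul α s t := G.D_mul (sw α) s t
  D_star α s := by rw [G.D_star, flip_sw_bar]
  D_mem := fun {w s} α hs => by
    refine flip_mem.2 (G.D_mem' (sw α) (flip_mem.1 hs) ?_)
    rw [flip_wt_sw]
    ext <;> simp [add_comm]
  comm_pt α β p := by
    obtain ⟨t, f, h⟩ := G.comm_pt (sw α) (sw β) p
    refine ⟨fun γ => t (sw γ), ![f 0, -f 1], fun w s hs => ?_⟩
    have h1 := h _ s (flip_mem.1 hs)
    have h2 := flip_sum_sw fun γ => t γ * B.ev (G.D γ s) p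
    change B.ev _ p = ∑ γ, t (sw γ) * B.ev (G.D (sw γ) s) p + _ * B.ev s p
    rw [h1, h2]
    simp
  N := G.N
  e := G.e
  e_re := G.e_re
  θ α := G.θ (sw α)
  θ_mem α k := flip_mem_neg_wt.2 (G.θ_mem (sw α) k)
  θ_star α k := by rw [G.θ_star, flip_sw_bar]
  θ_dual α β := by rw [G.θ_dual]; simp only [flip_sw_inj]
  fc := fun Φ U hU hΦ u hu hr => by
    obtain ⟨v, h1, h2, h3⟩ := G.fc Φ U hU hΦ u hu hr
    exact ⟨v, h1, h2, fun α p => h3 (sw α) p⟩

theorem Calc.flipC_dd (G : Calc B) (p q : A) (α β : Fin 4) :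
    G.flipC.dd p q α β = G.dd p q (sw α) (sw β) := rfl

/-- Integration is unchanged. -/
def Pre.flipP (G : Pre B) : Pre B.flip where
  toCalc := G.toCalc.flipC
  I := G.I
  I_nonneg := G.I_nonneg
  I_def := G.I_def
  stokes p hp q hq r hr s hs := by
    have h := G.stokes p hp q hq r hr s hs
    have e : wg (G.toCalc.flipC.dd p q) (G.toCalc.flipC.dd r s) =
        -wg (G.toCalc.dd p q) (G.toCalc.dd r s) := by
      simp only [wg, Calc.flipC_dd]
      simp only [Calc.dd, w1]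
      have e0 : sw 0 = 0 := rfl
      have e1 : sw 1 = 1 := rfl
      have e2 : sw 2 = 3 := rfl
      have e3 : sw 3 = 2 := rfl
      simp only [e0, e1, e2, e3]
      ring
    rw [e, map_neg, h, neg_zero]

theorem Pre.flipP_nrm (G : Pre B) (s : A) : G.flipP.nrm s = G.nrm s := rfl

theorem Pre.flipP_D (G : Pre B) (α : Fin 4) : G.flipP.D α = G.D (sw α) := rfl

theorem Pre.flipP_nn (G : Pre B) (k : ℕ) (s : A) : G.flipP.nn k s = G.nn k s := by
  induction k generalizing s with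
  | zero => rfl
  | succ k ih =>
    simp only [Pre.nn, ih, Pre.flipP_nrm, Pre.flipP_D]
    rw [flip_sum_sw fun α => G.nn k (G.D α s)]

theorem Pre.flipP_field (G : Pre B) (g : Fin 4 → A) (s : A) :
    ∑ α, g (sw α) * G.D α s = ∑ α, g α * G.flipP.D α s := by
  rw [← flip_sum_sw fun α => g (sw α) * G.D α s]
  simp only [flip_sw_sw, Pre.flipP_D]

theorem flip_field_mem {g : Fin 4 → A} (hg : ∀ α, g α ∈ B.flip.W (-wt α)) (α : Fin 4) :
    g (sw α) ∈ B.W (-wt α) := by
  have := flip_mem_neg_wt.1 (hg (sw α))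
  rwa [flip_sw_sw] at this

/-- The same smoothing operators. -/
def Moll.flipM {G : Pre B} (M : Moll G) : Moll G.flipP where
  Kc := M.Kc
  mem := M.mem
  bdd := M.bdd
  add := M.add
  left := M.left
  right := M.right
  conj := M.conj
  ad K hK g hg := by
    obtain ⟨K', h1, h2⟩ := M.ad K hK (fun α => g (sw α)) (flip_field_mem hg)
    refine ⟨K', h1, fun n s hs => ?_⟩
    rw [h2 n s hs, G.flipP_field, G.flipP_field]
  der K hK g hg := by
    obtain ⟨K', h1, h2⟩ := M.der K hK (fun α => g (sw α)) (flip_field_mem hg)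
    refine ⟨K', h1, fun n s hs => ?_⟩
    rw [h2 n s hs, G.flipP_field]
  J := M.J
  J_mem := M.J_mem
  J_lim := M.J_lim
  J_adj := M.J_adj

/-- The geometry with the second plane reversed. -/
def Geo.flipG (G : Geo B) : Geo B.flip where
  toPre := G.toPre.flipP
  sob := by simp only [Pre.flipP_nn]; exact G.sob
  sup := by simp only [Pre.flipP_nn]; exact G.sup
  rel := by simp only [Pre.flipP_nn]; exact G.rel
  cpl := by simp only [Pre.flipP_nn]; exact G.cpl
  moll := G.moll.elim fun M => ⟨M.flipM⟩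
  const s hs h := G.const s hs fun α => by
    have := h (sw α)
    rwa [Pre.flipP_D, flip_sw_sw] at this
  gen := by
    obtain ⟨s, h1, h2⟩ := G.gen
    refine ⟨fun i => star (s i), fun i => flip_mem.2 (B.star_mem' (h1 i) rfl), fun p => ?_⟩
    obtain ⟨i, hi⟩ := h2 p
    refine ⟨i, ?_⟩
    change B.ev (star (s i)) p ≠ 0
    rw [B.ev_star]
    simpa using hi

theorem Geo.exists_flp (G : Geo B) : ∃ G' : Geo B.flip, Flp G.toPre G'.toPre :=
  ⟨G.flipG, fun _ _ => rfl, fun _ => rfl⟩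

namespace Flp

theorem flip_comm {G : Pre B} {G' : Pre B.flip} (h : Flp G G') {w : Wt} {s : A}
    (hs : s ∈ B.flip.W w) (α β : Fin 4) :
    ∑ γ, G'.T α β (sw γ) * G.D γ s + G'.Fw w α β * s =
      ∑ γ, G.T (sw α) (sw β) γ * G.D γ s + G.Fw (w.1, -w.2) (sw α) (sw β) * s := by
  rw [← G.comm (flip_mem.1 hs), ← flip_sum_sw fun γ => G'.T α β (sw γ) * G.D γ s]
  have := G'.comm hs α β
  simp only [h.D_eq] at this
  simp only [flip_sw_sw]
  exact this.symm

theorem flip_T {G : Pre B} {G' : Pre B.flip} (h : Flp G G') (α β δ : Fin 4) :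
    G'.T α β (sw δ) = G.T (sw α) (sw β) δ := by
  have key : ∀ c : Fin 4 → A, c δ = ∑ k, G.θ δ k * ∑ γ, c γ * G.D γ (G.e k) := by
    intro c
    simp only [Finset.mul_sum]
    rw [Finset.sum_comm]
    have : ∀ γ, ∑ k, G.θ δ k * (c γ * G.D γ (G.e k)) = c γ * if δ = γ then 1 else 0 := by
      intro γ
      rw [← G.θ_dual, Finset.mul_sum]
      exact Finset.sum_congr rfl fun k _ => by ring
    simp [this]
  rw [key fun γ => G'.T α β (sw γ), key fun γ => G.T (sw α) (sw β) γ]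
  refine Finset.sum_congr rfl fun k _ => ?_
  have h1 := h.flip_comm (w := 0) (s := G.e k) (G.e_re k).1 α β
  have h2 : G.Fw ((0 : Wt).1, -(0 : Wt).2) (sw α) (sw β) = 0 := G.Fw_zero _ _
  rw [G'.Fw_zero, h2, zero_mul, add_zero, add_zero] at h1
  rw [h1]

theorem flip_Fw {G : Pre B} {G' : Pre B.flip} (h : Flp G G') (w : Wt) (α β : Fin 4) :
    G'.Fw w α β = G.Fw (w.1, -w.2) (sw α) (sw β) := by
  obtain ⟨n, t, ht, h1⟩ := G'.exists_gens w
  have key : ∀ c : A, c = ∑ i, star (t i) * (c * t i) := by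
    intro c
    conv_lhs => rw [← mul_one c, ← h1, Finset.mul_sum]
    exact Finset.sum_congr rfl fun i _ => by ring
  rw [key (G'.Fw w α β), key (G.Fw _ _ _)]
  refine Finset.sum_congr rfl fun i _ => ?_
  have h2 := h.flip_comm (ht i) α β
  simp only [h.flip_T] at h2
  rw [add_left_cancel h2]

theorem F_zero {G : Pre B} {G' : Pre B.flip} (h : Flp G G') (α β : Fin 4) :
    G'.F 0 α β = G.F 0 (sw α) (sw β) := by
  simpa [Calc.Fw] using h.flip_Fw (1, 0) α β

theorem F_one {G : Pre B} {G' : Pre B.flip} (h : Flp G G') (α β : Fin 4) :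
    G'.F 1 α β = -G.F 1 (sw α) (sw β) := by
  simpa [Calc.Fw] using h.flip_Fw (0, 1) α β

theorem ak {G : Pre B} {G' : Pre B.flip} (h : Flp G G') (hc : G.Closed (om 1 (-1))) : G'.AK := by
  intro p hp q hq
  have h1 := hc p hp q hq
  have e : lam (G'.dd p q) = -wg (om 1 (-1)) (G.dd p q) := by
    simp only [lam, wg, Calc.dd, w1, Calc.d0, h.D_eq]
    simp [om, sw]
  rw [h.I_eq, e, map_neg, h1, neg_zero]

theorem I_lam_F {G : Pre B} {G' : Pre B.flip} (h : Flp G G')
    (hF : ∀ j, G.I (wg (G.F j) (om 1 (-1))) = 0) (j : Fin 2) : G'.I (lam (G'.F j)) = 0 := by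
  have e : ∀ j, G.F j (sw 0) (sw 1) + G.F j (sw 2) (sw 3) = -wg (G.F j) (om 1 (-1)) := by
    intro j
    have := (G.F_form j 2 3).2
    change G.F j 0 1 + G.F j 3 2 = _
    rw [this]
    simp [wg, om]
    ring
  rw [h.I_eq]
  fin_cases j
  · change G.I (lam (G'.F 0)) = 0
    rw [lam, h.F_zero, h.F_zero, e, map_neg, hF, neg_zero]
  · change G.I (lam (G'.F 1)) = 0
    rw [lam, h.F_one, h.F_one, ← neg_add, e, neg_neg, hF]

theorem flip_τ {G : Pre B} {G' : Pre B.flip} (h : Flp G G') (α : Fin 4) :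
    G'.τ α = G.τ (sw α) := by
  refine G.τ_unique (sw α) (flip_mem_wt.1 (G'.τ_spec α).1) fun s hs => ?_
  have := (G'.τ_spec α).2 s (flip_mem_neg_wt.2 hs)
  rwa [h.I_eq, h.I_eq, h.D_eq] at this

/-- Exchange of the two components. -/
def flipE (G : Pre B) (G' : Pre B.flip) {w w' : Fin 2 → Wt}
    (h0 : ((w' 0).1, -(w' 0).2) = w 1) (h1 : ((w' 1).1, -(w' 1).2) = w 0) :
    G'.Sec w' ≃ₗ[ℝ] G.Sec w where
  toFun s := G.mk' ![s.c 1, s.c 0]
    (mem2 (h1 ▸ flip_mem.1 (s.mem 1)) (h0 ▸ flip_mem.1 (s.mem 0)))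
  invFun t := G'.mk' ![t.c 1, t.c 0]
    (mem2 (flip_mem.2 (h0 ▸ t.mem 1)) (flip_mem.2 (h1 ▸ t.mem 0)))
  map_add' s t := Pre.Sec.ext fun i => by fin_cases i <;> rfl
  map_smul' r s := Pre.Sec.ext fun i => by fin_cases i <;> rfl
  left_inv s := Pre.Sec.ext fun i => by fin_cases i <;> rfl
  right_inv s := Pre.Sec.ext fun i => by fin_cases i <;> rfl

/-- The order zero correction. -/
def flipZ (G : Pre B) (w : Wt) : G.Sec (wm w) →ₗ[ℝ] G.Sec (wp w) :=
  G.mkL (fun s => ![G.τ 2 * s.c 1, G.τ 3 * s.c 0])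
    (fun s => mem2
      (B.mul_mem' (G.τ_spec 2).1 (s.mem 1) (by ext <;> simp [wp, wm, wt]))
      (B.mul_mem' (G.τ_spec 3).1 (s.mem 0) (by ext <;> simp [wp, wm, wt] <;> ring)))
    (fun s t i => by fin_cases i <;> simp [mul_add])
    (fun r s i => by fin_cases i <;> simp [-Complex.coe_smul])

theorem flipZ_zo (G : Pre B) (w : Wt) : Pre.IsZO (flipZ G w) := by
  refine ⟨![![0, G.τ 2], ![G.τ 3, 0]], fun _ _ => 0, fun i j => ?_, fun _ _ => zero_mem _,
    fun s i => ?_⟩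
  · fin_cases i <;> fin_cases j
    · exact zero_mem _
    · have e : wp w 0 - wm w 1 = wt 2 := by ext <;> simp [wp, wm, wt]
      change G.τ 2 ∈ B.W (wp w 0 - wm w 1)
      rw [e]; exact (G.τ_spec 2).1
    · have e : wp w 1 - wm w 0 = wt 3 := by ext <;> simp [wp, wm, wt]
      change G.τ 3 ∈ B.W (wp w 1 - wm w 0)
      rw [e]; exact (G.τ_spec 3).1
    · exact zero_mem _
  · fin_cases i
    · change G.τ 2 * s.c 1 = _
      simp [Fin.sum_univ_two]
    · change G.τ 3 * s.c 0 = _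
      simp [Fin.sum_univ_two]

theorem ind_eq {G : Geo B} {G' : Geo B.flip} (h : Flp G.toPre G'.toPre) (a b : ℤ) :
    G'.ind (a, b) = -G.ind (a, 1 - b) := by
  have p0 : ((wp (a, b) 0).1, -(wp (a, b) 0).2) = wm (a, 1 - b) 1 := by
    ext <;> simp [wp, wm]
  have p1 : ((wp (a, b) 1).1, -(wp (a, b) 1).2) = wm (a, 1 - b) 0 := by
    ext <;> simp [wp, wm]
  have m0 : ((wm (a, b) 0).1, -(wm (a, b) 0).2) = wp (a, 1 - b) 1 := by
    ext <;> simp [wp, wm]
  have m1 : ((wm (a, b) 1).1, -(wm (a, b) 1).2) = wp (a, 1 - b) 0 := by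
    ext <;> simp [wp, wm]
  have hE := G.toPre.dirac_ell (a, 1 - b)
  have h1 := index_conj (G'.toPre.dirac (a, b))
    (G.toPre.diracAdj (a, 1 - b) + flipZ G.toPre (a, 1 - b))
    (flipE G.toPre G'.toPre p0 p1) ((flipE G.toPre G'.toPre m0 m1).trans (LinearEquiv.neg ℝ))
    fun u => Pre.Sec.ext fun i => by
      fin_cases i
      · change -G.toPre.Dt 0 (u.c 1) - G.toPre.Dt 2 (u.c 0) + G.toPre.τ 2 * u.c 0 =
          -(G'.toPre.D 3 (u.c 0) + G'.toPre.Dt 0 (u.c 1))
        simp only [Pre.Dt, h.D_eq, h.flip_τ]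
        change _ = -(G.D 2 (u.c 0) + (G.D 0 (u.c 1) + G.toPre.τ 0 * u.c 1))
        ring
      · change G.toPre.D 3 (u.c 1) - G.toPre.D 1 (u.c 0) + G.toPre.τ 3 * u.c 1 =
          -(G'.toPre.D 1 (u.c 0) - G'.toPre.Dt 2 (u.c 1))
        simp only [Pre.Dt, h.D_eq, h.flip_τ]
        change _ = -(G.D 1 (u.c 0) - (G.D 3 (u.c 1) + G.toPre.τ 3 * u.c 1))
        ring
  rw [G.index_add_zo hE.symm (flipZ_zo _ _), (G.pair hE).index_adj] at h1
  exact h1.symm

end Flp

end SX4
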