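import Pool.Agent.P.MP_0a0487_an.SX.Dirac
import Pool.Agent.P.MP_0a0487_an.SX.Prod

/-! Sobolev estimates for the bilinear terms of the monopole equations. -/

set_option autoImplicit false
set_option linter.unusedSectionVars false

noncomputable section

namespace SX4

open scoped ComplexOrder ContDiff
open Filter Topology

variable {P A : Type} [TopologicalSpace P] [CompactSpace P] [CommRing A] [StarRing A] [Algebra ℂ A]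
  [StarModule ℂ A] {B : Base P A}

namespace Geo

variable (G : Geo B)

theorem bil_rho (k : ℕ) (χ : G.Sec (wm 0)) (ψ : G.Sec (wp 0)) {M : ℝ}
    (h : ∀ α i, G.nn k (χ.form α * ψ.c i) ≤ M) : (G.rho 0 χ ψ).nS k ≤ 4 * M := by
  have e : (G.rho 0 χ ψ).nS k =
      G.nn k (Complex.I • (χ.form 1 * ψ.c 0 - χ.form 2 * ψ.c 1)) +
        G.nn k (Complex.I • (χ.form 3 * ψ.c 0 + χ.form 0 * ψ.c 1)) := Fin.sum_univ_two _
  rw [e, G.nn_smul, G.nn_smul, Complex.norm_I, one_mul, one_mul]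
  linarith [G.nn_sub k (χ.form 1 * ψ.c 0) (χ.form 2 * ψ.c 1),
    G.nn_add k (χ.form 3 * ψ.c 0) (χ.form 0 * ψ.c 1), h 1 0, h 2 1, h 3 0, h 0 1]

theorem bil_sig (k : ℕ) (ψ ψ' : G.Sec (wp 0)) {M : ℝ}
    (h : ∀ i j, G.nn k (star (ψ.c i) * ψ'.c j) ≤ M)
    (h' : ∀ i j, G.nn k (star (ψ'.c i) * ψ.c j) ≤ M) : (G.sig ψ ψ').nS k ≤ 2 * M := by
  have e : (G.sig ψ ψ').nS k =
      G.nn k ((Complex.I / 4) • (star (ψ.c 0) * ψ'.c 0 + star (ψ'.c 0) * ψ.c 0 -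
        star (ψ.c 1) * ψ'.c 1 - star (ψ'.c 1) * ψ.c 1)) +
      G.nn k ((Complex.I / 2) • (star (ψ.c 0) * ψ'.c 1 + star (ψ'.c 0) * ψ.c 1)) :=
    Fin.sum_univ_two _
  have n4 : ‖Complex.I / 4‖ = 1 / 4 := by simp
  have n2 : ‖Complex.I / 2‖ = 1 / 2 := by simp
  rw [e, G.nn_smul, G.nn_smul, n4, n2]
  linarith [G.nn_sub k (star (ψ.c 0) * ψ'.c 0 + star (ψ'.c 0) * ψ.c 0 - star (ψ.c 1) * ψ'.c 1)
      (star (ψ'.c 1) * ψ.c 1),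
    G.nn_sub k (star (ψ.c 0) * ψ'.c 0 + star (ψ'.c 0) * ψ.c 0) (star (ψ.c 1) * ψ'.c 1),
    G.nn_add k (star (ψ.c 0) * ψ'.c 0) (star (ψ'.c 0) * ψ.c 0),
    G.nn_add k (star (ψ.c 0) * ψ'.c 1) (star (ψ'.c 0) * ψ.c 1),
    h 0 0, h 0 1, h 1 1, h' 0 0, h' 0 1, h' 1 1]

theorem bil_form (k : ℕ) (χ : G.Sec (wm 0)) (α : Fin 4) : G.nn k (χ.form α) ≤ χ.nS k := by
  fin_cases α
  · exact (G.nn_star k _).trans_le (χ.nn_le_nS k 0)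
  · exact χ.nn_le_nS k 0
  · exact (G.nn_star k _).trans_le (χ.nn_le_nS k 1)
  · exact χ.nn_le_nS k 1

theorem bil_alg {ι ι' : Type} [Fintype ι] [Fintype ι'] (u : ι → Wt) (v : ι' → Wt) {k : ℕ}
    (hk : 4 ≤ k) : ∃ C : ℝ, 0 ≤ C ∧ ∀ i j, ∀ s ∈ B.W (u i), ∀ t ∈ B.W (v j), ∀ a b : ℝ,
      G.nn k s ≤ a → G.nn k t ≤ b → G.nn k (s * t) ≤ C * (a * b) := by
  choose C h0 hC using fun q : ι × ι' => G.prod_alg (u q.1) (v q.2) hk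
  refine ⟨∑ q, C q, Finset.sum_nonneg fun q _ => h0 q, fun i j s hs t ht a b ha hb => ?_⟩
  have h1 := G.nn_nonneg k s
  have h2 := G.nn_nonneg k t
  exact (hC (i, j) s hs t ht).trans (mul_le_mul
    (Finset.single_le_sum (fun q _ => h0 q) (Finset.mem_univ (i, j)))
    (mul_le_mul ha hb h2 (h1.trans ha)) (mul_nonneg h1 h2) (Finset.sum_nonneg fun q _ => h0 q))

theorem rho_alg {k : ℕ} (hk : 4 ≤ k) : ∃ C : ℝ, 0 ≤ C ∧ ∀ χ ψ,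
    (G.rho 0 χ ψ).nS k ≤ C * (χ.nS k * ψ.nS k) := by
  obtain ⟨C, h0, hC⟩ := G.bil_alg wt (wp 0) hk
  refine ⟨4 * C, by positivity, fun χ ψ => ?_⟩
  rw [mul_assoc]
  exact G.bil_rho k χ ψ fun α i => hC α i _ (χ.form_re α).1 _ (ψ.mem i) _ _ (G.bil_form k χ α)
    (ψ.nn_le_nS k i)

theorem sig_alg {k : ℕ} (hk : 4 ≤ k) : ∃ C : ℝ, 0 ≤ C ∧ ∀ ψ ψ',
    (G.sig ψ ψ').nS k ≤ C * (ψ.nS k * ψ'.nS k) := by
  obtain ⟨C, h0, hC⟩ := G.bil_alg (fun i => -wp 0 i) (wp 0) hk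
  refine ⟨2 * C, by positivity, fun ψ ψ' => ?_⟩
  rw [mul_assoc]
  refine G.bil_sig k ψ ψ' (fun i j => hC i j _ (B.star_mem (ψ.mem i)) _ (ψ'.mem j) _ _
    ((G.nn_star k _).trans_le (ψ.nn_le_nS k i)) (ψ'.nn_le_nS k j)) fun i j => ?_
  rw [mul_comm (ψ.nS k)]
  exact hC i j _ (B.star_mem (ψ'.mem i)) _ (ψ.mem j) _ _
    ((G.nn_star k _).trans_le (ψ'.nn_le_nS k i)) (ψ.nn_le_nS k j)

theorem rho_zero_le (χ : G.Sec (wm 0)) (ψ : G.Sec (wp 0)) {m : ℝ} (hm : ∀ i, ‖B.ev (ψ.c i)‖ ≤ m) :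
    (G.rho 0 χ ψ).nS 0 ≤ 4 * m * χ.nS 0 := by
  rw [mul_assoc]
  refine G.bil_rho 0 χ ψ fun α i => ?_
  rw [mul_comm]
  exact (G.nrm_mul_le _ _).trans (mul_le_mul (hm i) (G.bil_form 0 χ α) (G.nrm_nonneg _)
    ((norm_nonneg _).trans (hm i)))

theorem rho_int (k : ℕ) : ∃ C : ℝ, 0 ≤ C ∧ ∀ χ ψ (m : ℝ), (∀ i, ‖B.ev (ψ.c i)‖ ≤ m) →
    (G.rho 0 χ ψ).nS k ≤
      C * (m * χ.nS k + χ.nS k * ψ.nS k + χ.nS 2 * √(ψ.nS k * ψ.nS (k + 1))) := by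
  obtain ⟨C, h0, hC⟩ := G.prod_int k
  refine ⟨4 * C, by positivity, fun χ ψ m hm => ?_⟩
  rw [mul_assoc]
  refine G.bil_rho k χ ψ fun α i => (hC _ _ ⟨_, (χ.form_re α).1⟩ ⟨_, ψ.mem i⟩).trans
    (mul_le_mul_of_nonneg_left (add_le_add (add_le_add ?_ ?_) ?_) h0)
  · exact mul_le_mul (hm i) (G.bil_form k χ α) (G.nn_nonneg _ _) ((norm_nonneg _).trans (hm i))
  · exact mul_le_mul (G.bil_form k χ α) (ψ.nn_le_nS k i) (G.nn_nonneg _ _) (χ.nS_nonneg k)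
  · exact mul_le_mul (G.bil_form 2 χ α) (Real.sqrt_le_sqrt (mul_le_mul (ψ.nn_le_nS k i)
      (ψ.nn_le_nS (k + 1) i) (G.nn_nonneg _ _) (ψ.nS_nonneg k))) (Real.sqrt_nonneg _)
      (χ.nS_nonneg 2)

theorem sig_sup (k : ℕ) : ∃ C : ℝ, 0 ≤ C ∧ ∀ ψ (m : ℝ), (∀ i, ‖B.ev (ψ.c i)‖ ≤ m) →
    (G.sig ψ ψ).nS k ≤ C * (m * ψ.nS k + ψ.nS k * ψ.nS k) := by
  obtain ⟨C, h0, hC⟩ := G.prod_sup k
  refine ⟨2 * (2 * C), by positivity, fun ψ m hm => ?_⟩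
  have key : ∀ i j, G.nn k (star (ψ.c i) * ψ.c j) ≤
      2 * C * (m * ψ.nS k + ψ.nS k * ψ.nS k) := fun i j => by
    have m0 : 0 ≤ m := (norm_nonneg _).trans (hm i)
    have n0 := ψ.nS_nonneg k
    have a0 := hC _ _ (Base.Hom.star ⟨_, ψ.mem i⟩) ⟨_, ψ.mem j⟩
    rw [G.nn_star, map_star, norm_star] at a0
    have a1 := mul_le_mul (hm j) (ψ.nn_le_nS k i) (G.nn_nonneg _ _) m0
    have a2 := mul_le_mul (ψ.nn_le_nS k i) (ψ.nn_le_nS k j) (G.nn_nonneg _ _) n0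
    have a3 := mul_le_mul (hm i) (ψ.nn_le_nS k j) (G.nn_nonneg _ _) m0
    have a4 := mul_nonneg n0 n0
    rw [mul_comm 2 C, mul_assoc]
    exact a0.trans (mul_le_mul_of_nonneg_left (by linarith) h0)
  rw [mul_assoc]
  exact G.bil_sig k ψ ψ key key

end Geo

end SX4
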