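import Pool.Agent.P.MP_0a0487_an.SX.CxDefs
import Pool.Agent.P.MP_0a0487_an.SX.MapB

/-! The truncated de Rham complex of a calculus. -/

set_option autoImplicit false
set_option linter.unusedSectionVars false

noncomputable section

namespace SX4

open scoped ComplexOrder ContDiff
open Filter Topology

variable {P A : Type} [TopologicalSpace P] [CompactSpace P] [CommRing A] [StarRing A] [Algebra ℂ A]
  [StarModule ℂ A] {B : Base P A}

/-- The space of 1-forms. -/
def Base.F1 (B : Base P A) : Submodule ℂ (Fin 4 → A) where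
  carrier := {a | B.Form1 a}
  add_mem' ha hb := fun α => add_mem (ha α) (hb α)
  zero_mem' := fun _ => zero_mem _
  smul_mem' c _ ha := fun α => Submodule.smul_mem _ c (ha α)

/-- The space of 2-forms. -/
def Base.F2 (B : Base P A) : Submodule ℂ (Fin 4 → Fin 4 → A) where
  carrier := {b | B.Form2 b}
  add_mem' ha hb := Base.Form2.add ha hb
  zero_mem' := fun α β => ⟨zero_mem _, by simp⟩
  smul_mem' c _ hb := Base.Form2.smul hb c

theorem coh_wg_add {R : Type} [CommRing R] (a b c : Fin 4 → Fin 4 → R) :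
    wg (a + b) c = wg a c + wg b c := by
  simp only [wg, Pi.add_apply]; ring

theorem coh_wg_smul (z : ℂ) (a c : Fin 4 → Fin 4 → A) : wg (z • a) c = z • wg a c := by
  simp only [wg, Pi.smul_apply, Algebra.smul_def]; ring

theorem Calc.d2_w1 (G : Calc B) {a b : Fin 4 → A} (ha : B.Form1 a) (hb : B.Form1 b)
    (α β γ : Fin 4) :
    G.d2 (w1 a b) α β γ = integTri b (G.d1 a) α β γ - integTri a (G.d1 b) α β γ := by
  simp only [Calc.d2, Calc.d2t, w1, integTri, Calc.d1, map_sub, G.D_mul, mul_sub,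
    Finset.sum_sub_distrib, Finset.mul_sum, Fin.sum_univ_four]
  ring

theorem Pre.closed_w1 (G : Pre B) {θ a a' : Fin 4 → A} (hθ : B.Form1 θ) (ha : B.Form1 a)
    (h1 : G.d1 θ = 0) (h2 : G.d1 a = w1 θ a') : G.Closed (w1 θ a) := by
  refine G.closed_of_d2 (Calc.w1_form hθ ha) fun α β γ => ?_
  rw [G.d2_w1 hθ ha, h1, h2]
  simp only [integTri, w1, Pi.zero_apply]
  ring

/-- The truncated de Rham complex. -/
def Pre.cx (G : Pre B) : Cx (B.W 0) B.F1 B.F2 where
  d0 :=
    { toFun s := ⟨G.d0 s, G.d0_form s.2⟩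
      map_add' s t := Subtype.ext (funext fun α => map_add (G.D α) _ _)
      map_smul' c s := Subtype.ext (funext fun α => map_smul (G.D α) _ _) }
  d1 :=
    { toFun a := ⟨G.d1 a, G.d1_form a.2⟩
      map_add' a b := Subtype.ext (funext fun α => funext fun β => G.d1_add _ _ α β)
      map_smul' c a := Subtype.ext (funext fun α => funext fun β => G.d1_smul _ _ α β) }
  Z2 :=
    { carrier := {b | G.Closed b}
      add_mem' := fun {a b} ha hb p hp q hq => by
        rw [Submodule.coe_add, coh_wg_add, map_add, ha p hp q hq, hb p hp q hq, add_zero]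
      zero_mem' := fun p _ q _ => by simp [wg]
      smul_mem' := fun c b hb p hp q hq => by
        rw [Submodule.coe_smul, coh_wg_smul, map_smul, hb p hp q hq, smul_zero] }
  w := LinearMap.mk₂ ℂ (fun a b => ⟨w1 a.1 b.1, Calc.w1_form a.2 b.2⟩)
    (fun a a' b => Subtype.ext (funext fun α => funext fun β => by
      simp only [w1, Submodule.coe_add, Pi.add_apply]; ring))
    (fun c a b => Subtype.ext (funext fun α => funext fun β => by
      simp only [w1, Submodule.coe_smul, Pi.smul_apply, Algebra.smul_def]; ring))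
    (fun a b b' => Subtype.ext (funext fun α => funext fun β => by
      simp only [w1, Submodule.coe_add, Pi.add_apply]; ring))
    (fun c a b => Subtype.ext (funext fun α => funext fun β => by
      simp only [w1, Submodule.coe_smul, Pi.smul_apply, Algebra.smul_def]; ring))
  M1 s :=
    { toFun a := ⟨fun α => s.1 * a.1 α, fun α => B.mul_mem' s.2 (a.2 α) (zero_add _)⟩
      map_add' a b := Subtype.ext (funext fun α => mul_add _ _ _)
      map_smul' c a := Subtype.ext (funext fun α => mul_smul_comm _ _ _) }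
  M2 s :=
    { toFun b := ⟨fun α β => s.1 * b.1 α β, Base.Form2.mul b.2 s.2⟩
      map_add' a b := Subtype.ext (funext fun α => funext fun β => mul_add _ _ _)
      map_smul' c a := Subtype.ext (funext fun α => funext fun β => mul_smul_comm _ _ _) }
  B := LinearMap.mk₂ ℂ (fun a b => G.I (wg a.1 b.1))
    (fun a a' b => by rw [Submodule.coe_add, coh_wg_add, map_add])
    (fun c a b => by rw [Submodule.coe_smul, coh_wg_smul, map_smul])
    (fun a b b' => by
      rw [Submodule.coe_add, integ_wg_comm, coh_wg_add, map_add, integ_wg_comm b.1,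
        integ_wg_comm b'.1])
    (fun c a b => by rw [Submodule.coe_smul, integ_wg_comm, coh_wg_smul, map_smul, integ_wg_comm])
  d1_d0 s := Subtype.ext (funext fun α => funext fun β => G.d1_d0 s.2 α β)
  d1_mem a := G.closed_d1 a.2
  w_self a := Subtype.ext (funext fun α => funext fun β => by
    change a.1 α * a.1 β - a.1 β * a.1 α = 0
    ring)
  d1_M s a := Subtype.ext (funext fun α => funext fun β => G.d1_mul _ _ α β)
  w_M s a b := Subtype.ext (funext fun α => funext fun β => by
    change a.1 α * (s.1 * b.1 β) - a.1 β * (s.1 * b.1 α) = s.1 * (a.1 α * b.1 β - a.1 β * b.1 α)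
    ring)
  w_mem θ a a' h1 h2 := G.closed_w1 θ.2 a.2 (congrArg Subtype.val h1) (congrArg Subtype.val h2)
  B_symm x y := congrArg G.I (integ_wg_comm _ _)
  B_d x hx a := Pre.Closed.d1 hx a.2
  B_w a b c := by
    change G.I (wg (w1 a.1 b.1) (w1 a.1 c.1)) = 0
    rw [show wg (w1 a.1 b.1) (w1 a.1 c.1) = 0 by simp only [wg, w1]; ring, map_zero]

namespace Map

variable {G : Pre B} (f : Map G)

theorem ev_pull1 {a : Fin 4 → A} (ha : B.Form1 a) (p : P) (v : Fin 4 → ℝ) :
    ∑ α, cx v α * B.ev (f.pull1 a α) p =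
      ∑ α, cx (Matrix.mulVec (f.J p) v) α * B.ev (a α) (f.pt p) := by
  have e1 : ∑ α, cx v α * B.ev (f.pull1 a α) p =
      ∑ k, B.ev (∑ γ, a γ * G.θ γ k) (f.pt p) * G.dv (f.Φ (G.e k)) p v := by
    simp only [pull1, map_sum (B.ev) _ (Finset.univ : Finset (Fin G.N)), map_mul,
      ContinuousMap.sum_apply, ContinuousMap.mul_apply, f.ev_eq _ (G.form1_coef_mem ha _),
      Calc.dv, Finset.mul_sum]
    rw [Finset.sum_comm]
    exact Finset.sum_congr rfl fun _ _ => Finset.sum_congr rfl fun _ _ => by ring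
  have e2 : ∀ u, ∑ α, cx u α * B.ev (a α) (f.pt p) =
      ∑ k, B.ev (∑ γ, a γ * G.θ γ k) (f.pt p) * G.dv (G.e k) (f.pt p) u := fun u => by
    conv_lhs => enter [2, α]; rw [G.form1_eq a α]
    simp only [map_sum (B.ev) _ (Finset.univ : Finset (Fin G.N)), map_mul,
      ContinuousMap.sum_apply, ContinuousMap.mul_apply, Calc.dv, Finset.mul_sum]
    rw [Finset.sum_comm]
    exact Finset.sum_congr rfl fun _ _ => Finset.sum_congr rfl fun _ _ => by ring
  rw [e1, e2]
  exact Finset.sum_congr rfl fun k _ => by rw [f.chain _ (G.e_re k).1]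

theorem pull1_add {a b : Fin 4 → A} (ha : B.Form1 a) (hb : B.Form1 b) :
    f.pull1 (a + b) = f.pull1 a + f.pull1 b := by
  funext α
  simp only [pull1, Pi.add_apply, add_mul, Finset.sum_add_distrib,
    f.Φ_add (G.form1_coef_mem ha _) (G.form1_coef_mem hb _)]

theorem pull1_smul (c : ℂ) {a : Fin 4 → A} (ha : B.Form1 a) : f.pull1 (c • a) = c • f.pull1 a := by
  funext α
  simp only [pull1, Pi.smul_apply, smul_mul_assoc, ← Finset.smul_sum,
    f.Φ_smul c (G.form1_coef_mem ha _)]

theorem pull1_mul {s : A} (hs : s ∈ B.W 0) {a : Fin 4 → A} (ha : B.Form1 a) :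
    f.pull1 (fun α => s * a α) = fun α => f.Φ s * f.pull1 a α := by
  funext α
  simp only [pull1, mul_assoc, ← Finset.mul_sum, f.Φ_mul hs (G.form1_coef_mem ha _)]

theorem pull1_d0 {s : A} (hs : s ∈ B.W 0) : f.pull1 (G.d0 s) = G.d0 (f.Φ s) := by
  funext α
  refine B.ext' fun p => congrFun (Base.mapA_ext (x := fun α => B.ev (f.pull1 (G.d0 s) α) p)
    (y := fun α => B.ev (G.d0 (f.Φ s) α) p) fun v => ?_) α
  rw [f.ev_pull1 (G.d0_form hs)]
  exact (f.chain s hs p v).symm

theorem pull2_w1 {a b : Fin 4 → A} (ha : B.Form1 a) (hb : B.Form1 b) :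
    f.pull2 (w1 a b) = w1 (f.pull1 a) (f.pull1 b) := by
  have key : ∀ (a b : Fin 4 → A) p u v, B.b2 (w1 a b) p u v =
      (∑ α, cx u α * B.ev (a α) p) * (∑ α, cx v α * B.ev (b α) p) -
        (∑ α, cx v α * B.ev (a α) p) * (∑ α, cx u α * B.ev (b α) p) := fun a b p u v => by
    simp only [Base.b2, w1, map_sub, map_mul, ContinuousMap.sub_apply, ContinuousMap.mul_apply,
      Fin.sum_univ_four]
    ring
  refine B.ext_b2 fun p u v => ?_
  rw [f.b2_pull2 (Calc.w1_form ha hb), key, key, f.ev_pull1 ha, f.ev_pull1 ha, f.ev_pull1 hb,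
    f.ev_pull1 hb]

/-- The pull-back of forms. -/
def mor : G.cx.Mor where
  F0 :=
    { toFun s := ⟨f.Φ s, f.mem _ s.2⟩
      map_add' s t := Subtype.ext (f.Φ_add s.2 t.2)
      map_smul' c s := Subtype.ext (f.Φ_smul c s.2) }
  F1 :=
    { toFun a := ⟨f.pull1 a, f.pull1_form a.2⟩
      map_add' a b := Subtype.ext (f.pull1_add a.2 b.2)
      map_smul' c a := Subtype.ext (f.pull1_smul c a.2) }
  F2 :=
    { toFun b := ⟨f.pull2 b, f.pull2_form b.2⟩
      map_add' a b := Subtype.ext (f.pull2_add a.2 b.2)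
      map_smul' c a := Subtype.ext (f.pull2_smul c a.2) }
  F_d0 s := Subtype.ext (f.pull1_d0 s.2)
  F_d1 a := Subtype.ext (f.pull2_d1 a.2)
  F_w a b := Subtype.ext (f.pull2_w1 a.2 b.2)
  F_Z x hx := f.pull2_closed x.2 hx
  F_B x y := f.I_wg_pull x.2 y.2

end Map

/-- The logarithmic derivative of a function of modulus one. -/
def Calc.lg (G : Calc B) (u : A) : Fin 4 → A := fun α => -Complex.I • (star u * G.D α u)

/-- The logarithmic derivatives of the circle valued functions `u i` form a basis of the lattice of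
integral classes in the first real cohomology group. -/
structure Calc.Lat (G : Calc B) {b : ℕ} (u : Fin b → A) : Prop where
  mem : ∀ i, u i ∈ B.W 0
  unit : ∀ i, star (u i) * u i = 1
  span : ∀ a, B.Re1 a → G.d1 a = 0 → ∃ (h : Fin b → ℝ) (s : A), B.Re0 s ∧
    ∀ α, a α = ∑ i, (h i : ℂ) • G.lg (u i) α + G.D α s
  indep : ∀ (h : Fin b → ℝ), ∀ s ∈ B.W 0, (∀ α, ∑ i, (h i : ℂ) • G.lg (u i) α = G.D α s) → h = 0
  int : ∀ v ∈ B.W 0, star v * v = 1 → ∀ (h : Fin b → ℝ), ∀ s ∈ B.W 0,
    (∀ α, G.lg v α = ∑ i, (h i : ℂ) • G.lg (u i) α + G.D α s) → ∀ i, ∃ n : ℤ, h i = n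

end SX4
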