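import Pool.Agent.P.MP_0a0487_an.SX.Gal1
import Pool.Agent.P.MP_0a0487_an.SX.Ends
import Pool.Agent.P.MP_0a0487_an.SX.Dim
import Pool.Agent.P.MP_0a0487_an.SX.Scale
import Pool.Agent.P.MP_0a0487_an.SX.Flip

/-! No pair of symplectic forms of opposite orientations orthogonal to both curvatures. -/

set_option autoImplicit false
set_option linter.unusedSectionVars false

noncomputable section

namespace SX4

open scoped ComplexOrder ContDiff
open Filter Topology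

variable {P A : Type} [TopologicalSpace P] [CompactSpace P] [CommRing A] [StarRing A] [Algebra ℂ A]
  [StarModule ℂ A] {B : Base P A}

theorem Geo.noPair_re (G : Geo B) (s t : G.Sec (wp 0)) : inner ℝ s t = (inner ℂ s t).re := rfl

theorem Geo.noPair_e1 [Nonempty P] (G : Geo B) : inner ℂ G.e1 G.e1 ≠ 0 := by
  have h : inner ℂ G.e1 G.e1 = G.I 1 := by
    rw [Pre.inner_complex, Fin.sum_univ_two]
    simp [Pre.e1]
  rw [h]
  intro h0
  have := G.I_one_pos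
  rw [h0] at this
  exact lt_irrefl _ this

/-- No reducible solution along the path. -/
theorem Geo.noPair_irr [Nonempty P] (G : Geo B) {ζ φ : G.Sec (wp 0)} (h1 : inner ℂ G.e1 ζ = 0)
    (h2 : ∀ χ, inner ℝ (G.Q χ) ζ = 0) (hφ : inner ℂ G.e1 φ = 0) {k : ℂ} (hk : k ≠ 0) {κ : ℝ}
    (hκ : inner ℝ φ ζ / 2 + κ * inner ℝ ζ ζ / 4 ≠ 0) (t : ℝ) (χ : G.Sec (wm 0)) :
    ¬ G.SW ((1 - t) • k • G.e1 + t • (φ - k • G.e1) + (t * (1 - t)) • κ • ζ) 0 χ := by
  rintro ⟨-, h⟩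
  rw [map_zero, add_zero] at h
  have e1 := G.inner_e1_Q χ
  rw [h] at e1
  simp only [← Complex.coe_smul, inner_add_right, inner_smul_right, inner_sub_right, h1, hφ] at e1
  have e2 : ((1 - 2 * t : ℝ) : ℂ) * (k * inner ℂ G.e1 G.e1) = 0 := by
    push_cast at e1 ⊢
    linear_combination e1
  have e3 : t = 1 / 2 := by
    have := Complex.ofReal_eq_zero.1
      ((mul_eq_zero.1 e2).resolve_right (mul_ne_zero hk G.noPair_e1))
    linarith
  have e4 := h2 χ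
  have e5 : G.Q χ = (1 / 2 : ℝ) • φ + (κ / 4) • ζ := by
    rw [h, e3]
    module
  rw [e5, inner_add_left, real_inner_smul_left, real_inner_smul_left] at e4
  exact hκ (by linarith)

theorem arith {q : ℤ → ℤ} (h3 : ∀ b, q b + 3 * q (b + 2) = 3 * q (b + 1) + q (b + 3))
    (h0 : 0 < q 0) (h1 : q 1 < 0) (h : (∀ b, q (-b) = q b) ∨ ∃ K, ∀ b, q b ≤ K)
    (h' : (∀ b, q (1 + b) = q (1 - b)) ∨ ∃ K, ∀ b, -q b ≤ K) : False := by
  obtain ⟨s, hs⟩ : ∃ s, ∀ b, q (b + 2) - 2 * q (b + 1) + q b = s := by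
    refine ⟨q (0 + 2) - 2 * q (0 + 1) + q 0, fun b => ?_⟩
    induction b using Int.induction_on with
    | zero => rfl
    | succ n ih =>
      have := h3 n
      rw [show (n : ℤ) + 1 + 2 = n + 3 by ring, show (n : ℤ) + 1 + 1 = n + 2 by ring]
      linarith
    | pred n ih =>
      have := h3 (-n - 1)
      rw [show -(n : ℤ) - 1 + 3 = -n + 2 by ring] at this
      rw [show -(n : ℤ) - 1 + 2 = -n + 1 by ring, show -(n : ℤ) - 1 + 1 = -n by ring] at this ⊢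
      linarith
  have hd : ∀ b, q (b + 1) - q b = q 1 - q 0 + s * b := fun b => by
    induction b using Int.induction_on with
    | zero => simp
    | succ n ih =>
      have := hs n
      rw [show (n : ℤ) + 1 + 1 = n + 2 by ring]
      linarith
    | pred n ih =>
      have := hs (-n - 1)
      rw [show -(n : ℤ) - 1 + 2 = -n + 1 by ring] at this
      rw [show -(n : ℤ) - 1 + 1 = -n by ring] at this ⊢
      linarith
  have hq : ∀ b, 2 * q b = 2 * q 0 + 2 * (q 1 - q 0) * b + s * (b * (b - 1)) := fun b => by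
    induction b using Int.induction_on with
    | zero => simp
    | succ n ih => linear_combination ih + 2 * hd n
    | pred n ih =>
      have := hd (-n - 1)
      rw [show -(n : ℤ) - 1 + 1 = -n by ring] at this
      linear_combination ih - 2 * this
  have s1 : s < 0 := by
    rcases h with h | ⟨K, h⟩
    · have := hq (-1)
      rw [h 1] at this
      linarith
    · by_contra hs0
      have k0 := h 0
      have k1 := h (-K)
      have k2 := hq (-K)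
      have k3 : 0 ≤ s * (-K * (-K - 1)) := mul_nonneg (not_lt.1 hs0) (by nlinarith)
      nlinarith
  rcases h' with h' | ⟨K, h'⟩
  · have k1 := hq (1 + 1)
    rw [h' 1, sub_self] at k1
    linarith
  · have k0 := h' 1
    have k1 := h' (K + q 0 + 1)
    have k2 := hq (K + q 0 + 1)
    have k3 : s * ((K + q 0 + 1) * (K + q 0 + 1 - 1)) ≤ 0 :=
      mul_nonpos_of_nonpos_of_nonneg s1.le (by nlinarith)
    nlinarith

/-- A pair of almost Kaehler structures of opposite orientations, with canonical classes orthogonal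
to the symplectic forms and with the same index function. -/
def Geo.AKP (G : Geo B) : Prop :=
  ∃ (G₁ G₂ : Geo B) (G₃ : Geo B.flip) (g₁ g₂ : Matrix (Fin 4) (Fin 4) A),
    Chg G.toPre G₁.toPre g₁ ∧ Chg G.toPre G₂.toPre g₂ ∧ Flp G₂.toPre G₃.toPre ∧
    G₁.AK ∧ (∀ j, G₁.I (lam (G₁.F j)) = 0) ∧ G₃.AK ∧ (∀ j, G₃.I (lam (G₃.F j)) = 0) ∧
    ∀ w, G₁.ind w = G₂.ind w

theorem Geo.AKP.of_chg {G G' : Geo B} {g : Matrix (Fin 4) (Fin 4) A}
    (hg : Chg G.toPre G'.toPre g) (h : G'.AKP) : G.AKP := by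
  obtain ⟨G₁, G₂, G₃, g₁, g₂, h1, h2, h3⟩ := h
  exact ⟨G₁, G₂, G₃, _, _, hg.trans h1, hg.trans h2, h3⟩

theorem Geo.noPair [Nonempty P] (G : Geo B) {x₀ x₁ y₀ y₁ : A} (hx₀ : B.Re0 x₀) (hx₁ : B.Re0 x₁)
    (hy₀ : B.Re0 y₀) (hy₁ : B.Re0 y₁)
    (p₀ : ∀ p, 0 < (B.ev y₀ p).re ∧ 9 / 10 * (B.ev y₀ p).re ≤ (B.ev x₀ p).re ∧
      (B.ev x₀ p).re ≤ 11 / 10 * (B.ev y₀ p).re)
    (p₁ : ∀ p, 0 < (B.ev y₁ p).re ∧ 9 / 10 * (B.ev y₁ p).re ≤ (B.ev x₁ p).re ∧
      (B.ev x₁ p).re ≤ 11 / 10 * (B.ev y₁ p).re)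
    (c₁ : G.Closed (om x₀ x₁)) (c₂ : G.Closed (om y₀ (-y₁)))
    (f₁ : ∀ j, G.I (wg (G.F j) (om x₀ x₁)) = 0) (f₂ : ∀ j, G.I (wg (G.F j) (om y₀ (-y₁))) = 0) :
    G.AKP := by
  obtain ⟨G₁, G₂, m₁, m₂, k₁, k₂, a₁, g₁, a₂, g₂, e⟩ :=
    G.exists_normal hx₀ hx₁ hy₀ hy₁ p₀ p₁ c₁ c₂ f₁ f₂
  obtain ⟨G₃, hf⟩ := G₂.exists_flp
  exact ⟨G₁, G₂, G₃, m₁, m₂, k₁, k₂, hf, a₁, g₁, hf.ak a₂, hf.I_lam_F g₂, e⟩

end SX4
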