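import Pool.Agent.P.MP_0a0487_an.SX.AbsDefs

/-! Spectral theory of abstract elliptic pairs. -/

set_option autoImplicit false

noncomputable section

namespace SX4

open Filter Topology Module

variable {V V' : Type} [NormedAddCommGroup V] [InnerProductSpace ℝ V]
  [NormedAddCommGroup V'] [InnerProductSpace ℝ V'] {L : V →ₗ[ℝ] V'} {L' : V' →ₗ[ℝ] V}

theorem exists_isOP (E : Submodule ℝ V) [FiniteDimensional ℝ E] : ∃ p, IsOP E p :=
  ⟨E.starProjection.toLinearMap, fun t => E.starProjection_apply_mem t,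
    fun t u hu => Submodule.inner_left_of_mem_orthogonal hu (E.sub_starProjection_mem_orthogonal t)⟩

theorem abs1_eq_of {E : Submodule ℝ V} {p : V →ₗ[ℝ] V} (h : IsOP E p) {t u : V} (hu : u ∈ E)
    (ho : ∀ v ∈ E, inner ℝ (t - u) v = 0) : p t = u := by
  have h1 : p t - u ∈ E := E.sub_mem (h.1 t) hu
  have h2 : p t - u = (t - u) - (t - p t) := by abel
  rw [← sub_eq_zero, ← inner_self_eq_zero (𝕜 := ℝ)]
  nth_rw 1 [h2]
  rw [inner_sub_left, ho _ h1, h.2 t _ h1, sub_zero]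

theorem IsOP.apply_of_mem {E : Submodule ℝ V} {p : V →ₗ[ℝ] V} (h : IsOP E p) {t : V}
    (ht : t ∈ E) : p t = t := abs1_eq_of h ht fun v _ => by simp

theorem IsOP.eq_of {E : Submodule ℝ V} {p : V →ₗ[ℝ] V} (h : IsOP E p) {t u : V} (hu : u ∈ E)
    (ho : ∀ v ∈ E, inner ℝ (t - u) v = 0) : p t = u := abs1_eq_of h hu ho

theorem IsOP.norm_le {E : Submodule ℝ V} {p : V →ₗ[ℝ] V} (h : IsOP E p) (t : V) :
    ‖p t‖ ≤ ‖t‖ := by
  have h1 := norm_add_sq_real (t - p t) (p t)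
  rw [h.2 t _ (h.1 t), sub_add_cancel] at h1
  exact abs_le_of_sq_le_sq' (by nlinarith [sq_nonneg ‖t - p t‖]) (norm_nonneg _) |>.2

theorem ker_le_eig (L : V →ₗ[ℝ] V') (L' : V' →ₗ[ℝ] V) (Λ : ℝ) :
    LinearMap.ker L ≤ eig L L' Λ := fun s hs =>
  Submodule.subset_span ⟨0, sq_nonneg _, by rw [LinearMap.mem_ker.1 hs, map_zero, zero_smul]⟩

theorem eig_map (Λ : ℝ) {s : V} (hs : s ∈ eig L L' Λ) : L s ∈ eig L' L Λ := by
  refine (Submodule.span_le (p := (eig L' L Λ).comap L)).2 ?_ hs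
  rintro u ⟨μ, h1, h2⟩
  exact Submodule.subset_span ⟨μ, h1, by rw [h2, map_smul]⟩

/-- Symmetries preserve the spectral subspaces. -/
theorem eig_symm (Λ : ℝ) (j : V →ₗ[ℝ] V) (hj : ∀ s, L' (L (j s)) = j (L' (L s))) {s : V}
    (hs : s ∈ eig L L' Λ) : j s ∈ eig L L' Λ := by
  refine (Submodule.span_le (p := (eig L L' Λ).comap j)).2 ?_ hs
  rintro u ⟨μ, h1, h2⟩
  exact Submodule.subset_span ⟨μ, h1, by rw [hj, h2, map_smul]⟩

theorem abs1_cauchy {y : ℕ → V'} {b : ℕ × ℕ → ℝ} (hb : Tendsto b atTop (𝓝 0))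
    (h : ∀ n m, ‖y n - y m‖ ^ 2 ≤ b (n, m)) : CauchySeq y := by
  rw [cauchySeq_iff_tendsto_dist_atTop_0]
  refine squeeze_zero (fun _ => dist_nonneg) (fun q => ?_) (by simpa using hb.sqrt)
  rw [dist_eq_norm]
  exact Real.le_sqrt_of_sq_le (h q.1 q.2)

theorem abs1_fst : Tendsto (Prod.fst : ℕ × ℕ → ℕ) atTop atTop :=
  prod_atTop_atTop_eq (α := ℕ) (β := ℕ) ▸ tendsto_fst

theorem abs1_snd : Tendsto (Prod.snd : ℕ × ℕ → ℕ) atTop atTop :=
  prod_atTop_atTop_eq (α := ℕ) (β := ℕ) ▸ tendsto_snd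

theorem abs1_zero {a ε : ℕ → ℝ} {C : ℝ} (hε : Tendsto ε atTop (𝓝 0))
    (h : ∀ n, a n ^ 2 ≤ C * ε n) : Tendsto a atTop (𝓝 0) := by
  rw [tendsto_zero_iff_abs_tendsto_zero]
  refine squeeze_zero (fun _ => abs_nonneg _) (fun n => Real.abs_le_sqrt (h n)) ?_
  simpa using (hε.const_mul C).sqrt

theorem abs1_disc {a b c : ℝ} (h : ∀ t : ℝ, 0 ≤ a * t ^ 2 + 2 * b * t + c) : b ^ 2 ≤ a * c := by
  have := discrim_le_zero (a := a) (b := 2 * b) (c := c) fun t => by rw [← sq]; exact h t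
  rw [discrim] at this
  linarith

namespace Pair

theorem symm (h : Pair L L') : Pair L' L where
  adj s t := by rw [real_inner_comm, ← h.adj, real_inner_comm]
  cpt := h.cpt'
  cpt' := h.cpt
  reg c c' f g x y hx hy h1 h2 := (h.reg c' c g f y x hy hx h2 h1).symm

theorem abs1_cpt (h : Pair L L') (s : ℕ → V) {C : ℝ} (hC : 0 < C)
    (hs : ∀ n, ‖s n‖ + ‖L (s n)‖ ≤ C) : ∃ φ : ℕ → ℕ, StrictMono φ ∧ CauchySeq (s ∘ φ) := by
  obtain ⟨φ, h1, h2⟩ := h.cpt (fun n => C⁻¹ • s n) fun n => by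
    rw [map_smul, norm_smul, norm_smul, ← mul_add, Real.norm_of_nonneg (inv_pos.2 hC).le]
    exact inv_mul_le_one_of_le₀ (hs n) hC.le
  refine ⟨φ, h1, ?_⟩
  have e : s ∘ φ = fun n => C • ((fun n => C⁻¹ • s n) ∘ φ) n := by
    funext n; simp [smul_smul, hC.ne']
  rw [e]
  exact (uniformContinuous_const_smul C).comp_cauchySeq h2

theorem abs1_le (h : Pair L L') (Λ : ℝ) {s : V} (hs : s ∈ eig L L' Λ) :
    ‖L s‖ ≤ |Λ| * ‖s‖ := by
  obtain ⟨n, c, u, rfl⟩ := Submodule.mem_span_set'.1 hs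
  choose μ h1 h2 using fun i => (u i).2
  have key : ∀ i j, Λ ^ 2 * inner ℝ (u i).1 (u j).1 - inner ℝ (L (u i).1) (L (u j).1)
      = √(Λ ^ 2 - μ i) * (√(Λ ^ 2 - μ j) * inner ℝ (u i).1 (u j).1) := fun i j => by
    have a1 : inner ℝ (L (u i).1) (L (u j).1) = μ j * inner ℝ (u i).1 (u j).1 := by
      rw [h.adj, h2, real_inner_smul_right]
    have a2 : inner ℝ (L (u i).1) (L (u j).1) = μ i * inner ℝ (u i).1 (u j).1 := by
      rw [real_inner_comm, h.adj, h2, real_inner_smul_right, real_inner_comm]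
    by_cases e : μ i = μ j
    · rw [a1, e, ← mul_assoc, Real.mul_self_sqrt (sub_nonneg.2 (h1 j))]; ring
    · have : inner ℝ (u i).1 (u j).1 = 0 :=
        (mul_eq_zero.1 (by linear_combination a1 - a2 : (μ i - μ j) * _ = 0)).resolve_left
          (sub_ne_zero.2 e)
      rw [a1, this]; ring
  have h3 : Λ ^ 2 * ‖∑ i, c i • (u i).1‖ ^ 2 - ‖L (∑ i, c i • (u i).1)‖ ^ 2
      = ‖∑ i, (c i * √(Λ ^ 2 - μ i)) • (u i).1‖ ^ 2 := by
    simp only [← real_inner_self_eq_norm_sq, map_sum, map_smul, sum_inner, inner_sum,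
      real_inner_smul_left, real_inner_smul_right, Finset.mul_sum, ← Finset.sum_sub_distrib]
    refine Finset.sum_congr rfl fun j _ => Finset.sum_congr rfl fun i _ => ?_
    linear_combination (c i * c j) * key i j
  refine abs_le_of_sq_le_sq' ?_ (by positivity) |>.2
  rw [mul_pow, sq_abs]
  linarith [sq_nonneg ‖∑ i, (c i * √(Λ ^ 2 - μ i)) • (u i).1‖]

theorem eig_fd (h : Pair L L') (Λ : ℝ) : FiniteDimensional ℝ (eig L L' Λ) := by
  by_contra hn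
  obtain ⟨R, f, hR, h1, h2⟩ := exists_seq_norm_le_one_le_norm_sub hn
  obtain ⟨φ, h3, h4⟩ := h.abs1_cpt (fun n => (f n).1) (C := R + |Λ| * R) (by positivity) fun n =>
    add_le_add (h1 n) ((h.abs1_le Λ (f n).2).trans (by gcongr; exact h1 n))
  obtain ⟨N, hN⟩ := Metric.cauchySeq_iff'.1 h4 1 one_pos
  have h5 := hN (N + 1) (by omega)
  rw [dist_eq_norm] at h5
  exact absurd (h2 (h3.injective.ne (by omega : N + 1 ≠ N))) (not_le.2 h5)

theorem abs1_min (h : Pair L L') (E : Submodule ℝ V) [FiniteDimensional ℝ E]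
    (hE : ∀ u ∈ E, L' (L u) ∈ E) {s₀ : V} (hs₀ : s₀ ∈ Eᗮ) (h0 : s₀ ≠ 0) :
    ∃ (μ : ℝ) (x₀ : V), x₀ ∈ Eᗮ ∧ x₀ ≠ 0 ∧ L' (L x₀) = μ • x₀ ∧
      ∀ s ∈ Eᗮ, μ * ‖s‖ ^ 2 ≤ ‖L s‖ ^ 2 := by
  let S : Set ℝ := {r | ∃ s ∈ Eᗮ, ‖s‖ = 1 ∧ ‖L s‖ ^ 2 = r}
  have hu : ∀ s ∈ Eᗮ, s ≠ 0 → ‖L s‖ ^ 2 / ‖s‖ ^ 2 ∈ S := fun s hs h0 =>
    ⟨‖s‖⁻¹ • s, Submodule.smul_mem _ _ hs, norm_smul_inv_norm h0, by
      rw [map_smul, norm_smul, norm_inv, norm_norm]; ring⟩
  have hb : BddBelow S := ⟨0, by rintro _ ⟨s, -, -, rfl⟩; positivity⟩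
  obtain ⟨μ, hμ⟩ : ∃ μ, IsGLB S μ := ⟨_, isGLB_csInf ⟨_, hu s₀ hs₀ h0⟩ hb⟩
  have hQ : ∀ s ∈ Eᗮ, μ * ‖s‖ ^ 2 ≤ ‖L s‖ ^ 2 := fun s hs => by
    by_cases h0 : s = 0
    · simp [h0]
    · exact (le_div_iff₀ (by positivity)).1 (hμ.1 (hu s hs h0))
  obtain ⟨r, hr1, hr2, hr3⟩ := hμ.exists_seq_antitone_tendsto ⟨_, hu s₀ hs₀ h0⟩ |>.imp
    fun r hr => (⟨hr.1, hr.2.2.1, hr.2.2.2⟩ : Antitone r ∧ Tendsto r atTop (𝓝 μ) ∧ ∀ n, r n ∈ S)
  choose x' a1 a2 a3 using hr3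
  obtain ⟨φ, hφ, hx⟩ := h.abs1_cpt x' (C := 1 + (1 + |r 0|)) (by positivity) fun n => by
    rw [a2]
    have := hr1 (Nat.zero_le n)
    have := le_abs_self (r 0)
    nlinarith [a3 n, sq_nonneg (‖L (x' n)‖ - 1), abs_nonneg (r 0)]
  obtain ⟨x, hxx⟩ : ∃ x, x = x' ∘ φ := ⟨_, rfl⟩
  rw [← hxx] at hx
  have b1 : ∀ n, x n ∈ Eᗮ := fun n => hxx ▸ a1 _
  have b2 : ∀ n, ‖x n‖ = 1 := fun n => hxx ▸ a2 _
  have b3 : Tendsto (fun n => ‖L (x n)‖ ^ 2 - μ) atTop (𝓝 0) := by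
    have := (hr2.comp hφ.tendsto_atTop).sub_const μ
    rw [sub_self] at this
    exact this.congr fun n => by simp [hxx, a3]
  have EL : ∀ n, ∀ s ∈ Eᗮ, (inner ℝ (L (x n)) (L s) - μ * inner ℝ (x n) s) ^ 2
      ≤ (‖L s‖ ^ 2 - μ * ‖s‖ ^ 2) * (‖L (x n)‖ ^ 2 - μ) := fun n s hs => abs1_disc fun t => by
    have := hQ (x n + t • s) (add_mem (b1 n) (Submodule.smul_mem _ _ hs))
    rw [map_add, map_smul, norm_add_sq_real, norm_add_sq_real, norm_smul, norm_smul,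
      real_inner_smul_right, real_inner_smul_right, b2, mul_pow, mul_pow, Real.norm_eq_abs,
      sq_abs] at this
    linarith
  have hy : CauchySeq fun n => L (x n) := by
    have c1 := cauchySeq_iff_tendsto_dist_atTop_0.1 hx
    refine abs1_cauchy (b := fun q => 2 * (‖L (x q.1)‖ ^ 2 - μ) + 2 * (‖L (x q.2)‖ ^ 2 - μ)
      + μ * dist (x q.1) (x q.2) ^ 2) ?_ fun n m => ?_
    · simpa using (((b3.comp abs1_fst).const_mul 2).add ((b3.comp abs1_snd).const_mul 2)).add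
        ((c1.pow 2).const_mul μ)
    · have d1 := hQ (x n + x m) (add_mem (b1 n) (b1 m))
      rw [map_add, norm_add_sq_real, norm_add_sq_real, b2, b2] at d1
      simp only [dist_eq_norm, norm_sub_sq_real, b2]
      linarith
  obtain ⟨p, hp⟩ := exists_isOP E
  have e2 : ∀ s, Tendsto (fun n => inner ℝ (L (x n)) (L s) - μ * inner ℝ (x n) s) atTop
      (𝓝 (inner ℝ (0 : V) s)) := fun s => by
    rw [inner_zero_left]
    refine (abs1_zero b3 fun n => EL n (s - p s)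
      ((Submodule.mem_orthogonal' _ _).2 (hp.2 s))).congr fun n => ?_
    have f1 := (Submodule.mem_orthogonal' _ _).1 (b1 n)
    rw [map_sub, inner_sub_right, inner_sub_right, h.adj _ (L (p s)), f1 _ (hE _ (hp.1 s)),
      f1 _ (hp.1 s), sub_zero, sub_zero]
  have e1 : ∀ t, (fun n => inner ℝ (x n) (L' t) - 1 * inner ℝ (L (x n)) t)
      = fun _ => inner ℝ (0 : V') t := fun t => funext fun n => by simp [h.adj]
  obtain ⟨⟨x₀, g1⟩, y₀, g2⟩ := h.reg 1 μ 0 0 x (fun n => L (x n)) hx hy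
    (fun t => e1 t ▸ tendsto_const_nhds) e2
  have g3 : L x₀ = y₀ := ext_inner_right ℝ fun t => by
    rw [h.adj]
    refine tendsto_nhds_unique (g1.inner tendsto_const_nhds)
      ((g2.inner tendsto_const_nhds).congr fun n => h.adj _ _)
  refine ⟨μ, x₀, E.isClosed_orthogonal.mem_of_tendsto g1 (.of_forall b1), fun h0 => ?_,
    ext_inner_right ℝ fun s => ?_, hQ⟩
  · have := tendsto_nhds_unique g1.norm (by simpa only [b2] using tendsto_const_nhds)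
    simp [h0] at this
  · have := tendsto_nhds_unique ((g2.inner (𝕜 := ℝ) tendsto_const_nhds).sub
      ((g1.inner (𝕜 := ℝ) tendsto_const_nhds).const_mul μ)) (e2 s)
    rw [inner_zero_left, sub_eq_zero] at this
    rw [h.symm.adj, g3, this, real_inner_smul_left]

theorem gap (h : Pair L L') (Λ : ℝ) {s : V} (hs : ∀ u ∈ eig L L' Λ, inner ℝ s u = 0) :
    Λ * ‖s‖ ≤ ‖L s‖ := by
  by_cases h0 : s = 0
  · simp [h0]
  have := h.eig_fd Λ
  have hs' := (Submodule.mem_orthogonal' _ _).2 hs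
  obtain ⟨μ, x₀, h1, h2, h3, h4⟩ := h.abs1_min (eig L L' Λ) (fun u hu => eig_map Λ (eig_map Λ hu))
    hs' h0
  have h5 : Λ ^ 2 < μ := not_le.1 fun h5 => h2 (inner_self_eq_zero (𝕜 := ℝ).1
    ((Submodule.mem_orthogonal' _ _).1 h1 x₀ (Submodule.subset_span ⟨μ, h5, h3⟩)))
  refine (abs_le_of_sq_le_sq' ?_ (norm_nonneg _)).2
  rw [mul_pow]
  exact (mul_le_mul_of_nonneg_right h5.le (sq_nonneg _)).trans (h4 s hs')

theorem coercive (h : Pair L L') : ∃ δ : ℝ, 0 < δ ∧ ∀ s,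
    (∀ u, L u = 0 → inner ℝ s u = 0) → δ * ‖s‖ ≤ ‖L s‖ := by
  have := h.eig_fd 0
  have : FiniteDimensional ℝ (LinearMap.ker L) :=
    Submodule.finiteDimensional_of_le (ker_le_eig L L' 0)
  by_cases h0 : ∃ s ∈ (LinearMap.ker L)ᗮ, s ≠ 0
  · obtain ⟨s₀, hs₀, h0⟩ := h0
    obtain ⟨μ, x₀, h1, h2, h3, h4⟩ := h.abs1_min (LinearMap.ker L)
      (fun u hu => by rw [LinearMap.mem_ker.1 hu, map_zero]; exact zero_mem _) hs₀ h0
    have h5 : 0 < μ := not_le.1 fun h5 => h2 (inner_self_eq_zero (𝕜 := ℝ).1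
      ((Submodule.mem_orthogonal' _ _).1 h1 x₀ (by
        have h6 := h.adj x₀ (L x₀)
        rw [h3, real_inner_smul_right, real_inner_self_eq_norm_sq, real_inner_self_eq_norm_sq] at h6
        exact norm_eq_zero.1 (by nlinarith [sq_nonneg ‖x₀‖, norm_nonneg (L x₀)]))))
    refine ⟨√μ, Real.sqrt_pos.2 h5, fun s hs => (abs_le_of_sq_le_sq' ?_ (norm_nonneg _)).2⟩
    rw [mul_pow, Real.sq_sqrt h5.le]
    exact h4 s ((Submodule.mem_orthogonal' _ _).2 hs)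
  · push Not at h0
    exact ⟨1, one_pos, fun s hs => by simp [h0 s ((Submodule.mem_orthogonal' _ _).2 hs)]⟩

theorem solve (h : Pair L L') {g : V'} (hg : ∀ t, L' t = 0 → inner ℝ g t = 0) :
    ∃ s, L s = g := by
  have := h.eig_fd 0
  have : FiniteDimensional ℝ (LinearMap.ker L) :=
    Submodule.finiteDimensional_of_le (ker_le_eig L L' 0)
  obtain ⟨p, hp⟩ := exists_isOP (LinearMap.ker L)
  obtain ⟨δ, hδ, hc⟩ := h.coercive
  let S : Set ℝ := Set.range fun s => ‖g - L s‖ ^ 2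
  obtain ⟨d, hd⟩ : ∃ d, IsGLB S d :=
    ⟨_, isGLB_csInf ⟨_, 0, rfl⟩ ⟨0, by rintro _ ⟨s, rfl⟩; positivity⟩⟩
  obtain ⟨r, -, -, hr2, hr3⟩ := hd.exists_seq_antitone_tendsto ⟨_, 0, rfl⟩
  choose x' a1 using hr3
  obtain ⟨x, hx⟩ : ∃ x : ℕ → V, x = fun n => x' n - p (x' n) := ⟨_, rfl⟩
  have b1 : ∀ n u, L u = 0 → inner ℝ (x n) u = 0 := fun n u hu => hx ▸ hp.2 _ u hu
  have b3 : Tendsto (fun n => ‖g - L (x n)‖ ^ 2 - d) atTop (𝓝 0) := by
    have := hr2.sub_const d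
    rw [sub_self] at this
    refine this.congr fun n => ?_
    rw [hx, ← a1 n]
    simp [LinearMap.mem_ker.1 (hp.1 _)]
  have EL : ∀ n s, inner ℝ (g - L (x n)) (L s) ^ 2 ≤ ‖L s‖ ^ 2 * (‖g - L (x n)‖ ^ 2 - d) :=
    fun n s => abs1_disc fun t => by
      have : d ≤ ‖g - L (x n - t • s)‖ ^ 2 := hd.1 ⟨_, rfl⟩
      rw [map_sub, map_smul, ← sub_add, norm_add_sq_real, norm_smul, real_inner_smul_right,
        mul_pow, Real.norm_eq_abs, sq_abs] at this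
      linarith
  have par : ∀ n m, ‖L (x n) - L (x m)‖ ^ 2
      ≤ 2 * (‖g - L (x n)‖ ^ 2 - d) + 2 * (‖g - L (x m)‖ ^ 2 - d) := fun n m => by
    have d1 : d ≤ ‖g - L ((2⁻¹ : ℝ) • (x n + x m))‖ ^ 2 := hd.1 ⟨_, rfl⟩
    have d2 : g - L ((2⁻¹ : ℝ) • (x n + x m)) = (2⁻¹ : ℝ) • ((g - L (x m)) + (g - L (x n))) := by
      rw [map_smul, map_add]; module
    have d3 : L (x n) - L (x m) = (g - L (x m)) - (g - L (x n)) := by abel
    rw [d2, norm_smul, mul_pow, norm_add_sq_real, Real.norm_eq_abs, sq_abs] at d1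
    rw [d3, norm_sub_sq_real]
    linarith
  have c1 : Tendsto (fun q : ℕ × ℕ => 2 * (‖g - L (x q.1)‖ ^ 2 - d) + 2 * (‖g - L (x q.2)‖ ^ 2 - d))
      atTop (𝓝 0) := by
    simpa using ((b3.comp abs1_fst).const_mul 2).add ((b3.comp abs1_snd).const_mul 2)
  have hy : CauchySeq fun n => g - L (x n) := abs1_cauchy c1 fun n m => by
    rw [sub_sub_sub_cancel_left, norm_sub_rev]; exact par n m
  have hx' : CauchySeq x := abs1_cauchy (by simpa using c1.div_const (δ ^ 2)) fun n m => by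
    have d1 := hc (x n - x m) fun u hu => by rw [inner_sub_left, b1 n u hu, b1 m u hu, sub_zero]
    rw [le_div_iff₀ (by positivity), ← mul_pow, mul_comm]
    refine (pow_le_pow_left₀ (by positivity) d1 2).trans ?_
    rw [map_sub]; exact par n m
  have e1 : ∀ t, (fun n => inner ℝ (x n) (L' t) - -1 * inner ℝ (g - L (x n)) t)
      = fun _ => inner ℝ g t := fun t => funext fun n => by simp [h.adj, inner_sub_left]
  have e2 : ∀ s, Tendsto (fun n => inner ℝ (g - L (x n)) (L s)) atTop (𝓝 0) := fun s =>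
    abs1_zero b3 fun n => EL n s
  obtain ⟨⟨x₀, g1⟩, y₀, g2⟩ := h.reg (-1) 0 0 g x (fun n => g - L (x n)) hx' hy
    (fun t => e1 t ▸ tendsto_const_nhds) fun s => by simpa using e2 s
  have g3 : L' y₀ = 0 := ext_inner_right ℝ fun s => by
    rw [h.symm.adj, inner_zero_left]
    exact tendsto_nhds_unique (g2.inner tendsto_const_nhds) (e2 s)
  have g4 : ∀ t, inner ℝ x₀ (L' t) - -1 * inner ℝ y₀ t = inner ℝ g t := fun t =>
    tendsto_nhds_unique ((g1.inner (𝕜 := ℝ) tendsto_const_nhds).sub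
      ((g2.inner (𝕜 := ℝ) tendsto_const_nhds).const_mul (-1))) (e1 t ▸ tendsto_const_nhds)
  have g5 : y₀ = 0 := by simpa [g3, hg y₀ g3] using g4 y₀
  exact ⟨x₀, ext_inner_right ℝ fun t => by simpa [g5, h.adj] using g4 t⟩

theorem op_comm (h : Pair L L') {Λ : ℝ} {p : V →ₗ[ℝ] V} {p' : V' →ₗ[ℝ] V'}
    (hp : IsOP (eig L L' Λ) p) (hp' : IsOP (eig L' L Λ) p') (s : V) : p' (L s) = L (p s) :=
  hp'.eq_of (eig_map Λ (hp.1 s)) fun v hv => by
    rw [← map_sub, h.adj, hp.2 s _ (eig_map Λ hv)]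

theorem tail (h : Pair L L') {Λ : ℝ} {p : V →ₗ[ℝ] V} (hp : IsOP (eig L L' Λ) p) (s : V) :
    Λ * ‖s - p s‖ ≤ ‖L s‖ := by
  refine (h.gap Λ (hp.2 s)).trans (abs_le_of_sq_le_sq' ?_ (norm_nonneg _)).2
  have h1 := norm_add_sq_real (L (s - p s)) (L (p s))
  rw [h.adj, hp.2 s _ (eig_map Λ (eig_map Λ (hp.1 s))), ← map_add, sub_add_cancel] at h1
  nlinarith [sq_nonneg ‖L (p s)‖]

end Pair

end SX4
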