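import Mathlib

/-! Abstract elliptic pairs on real inner product spaces (not assumed complete). -/

set_option autoImplicit false

noncomputable section

namespace SX4

open Filter Topology

variable {V V' : Type} [NormedAddCommGroup V] [InnerProductSpace ℝ V]
  [NormedAddCommGroup V'] [InnerProductSpace ℝ V']

/-- An operator and its formal adjoint, with compactness and regularity of weak solutions. -/
structure Pair (L : V →ₗ[ℝ] V') (L' : V' →ₗ[ℝ] V) : Prop where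
  adj : ∀ s t, inner ℝ (L s) t = inner ℝ s (L' t)
  cpt : ∀ s : ℕ → V, (∀ n, ‖s n‖ + ‖L (s n)‖ ≤ 1) →
    ∃ φ : ℕ → ℕ, StrictMono φ ∧ CauchySeq (s ∘ φ)
  cpt' : ∀ t : ℕ → V', (∀ n, ‖t n‖ + ‖L' (t n)‖ ≤ 1) →
    ∃ φ : ℕ → ℕ, StrictMono φ ∧ CauchySeq (t ∘ φ)
  reg : ∀ (c c' : ℝ) (f : V) (g : V') (x : ℕ → V) (y : ℕ → V'), CauchySeq x → CauchySeq y →
    (∀ t, Tendsto (fun n => inner ℝ (x n) (L' t) - c * inner ℝ (y n) t) atTop (𝓝 (inner ℝ g t))) →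
    (∀ s, Tendsto (fun n => inner ℝ (y n) (L s) - c' * inner ℝ (x n) s) atTop (𝓝 (inner ℝ f s))) →
    (∃ x₀, Tendsto x atTop (𝓝 x₀)) ∧ ∃ y₀, Tendsto y atTop (𝓝 y₀)

/-- The span of the eigenvectors of `L' ∘ L` with eigenvalue at most `Λ ^ 2`. -/
def eig (L : V →ₗ[ℝ] V') (L' : V' →ₗ[ℝ] V) (Λ : ℝ) : Submodule ℝ V :=
  Submodule.span ℝ {s | ∃ μ : ℝ, μ ≤ Λ ^ 2 ∧ L' (L s) = μ • s}

/-- `p` is the orthogonal projection onto `E`. -/
def IsOP (E : Submodule ℝ V) (p : V →ₗ[ℝ] V) : Prop :=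
  (∀ t, p t ∈ E) ∧ ∀ t, ∀ u ∈ E, inner ℝ (t - p t) u = 0

end SX4
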