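import Pool.Agent.P.MP_0a0487_an.SX.AlgRel

/-! The eigenvalues on the second cohomology group. -/

set_option autoImplicit false
set_option linter.unusedSectionVars false

noncomputable section

namespace SX4

open Finset

theorem comb_conv {ι : Type} [DecidableEq ι] (f : ι → ℂ) (s : Finset ι) :
    ∀ R : Multiset (ℂ × ℕ), (∀ r ∈ R, 1 ≤ r.2) → s.val.map f = R.map Prod.fst →
      ∃ k : ι → ℕ, (∀ j, 1 ≤ k j) ∧ R = s.val.map fun j => (f j, k j) := by
  induction s using Finset.induction_on with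
  | empty => exact fun R _ h => ⟨fun _ => 1, fun _ => le_rfl, by simpa using h.symm⟩
  | insert a s ha ih =>
    intro R hR h
    rw [insert_val_of_notMem ha, Multiset.map_cons] at h
    obtain ⟨r, hr, h1⟩ := Multiset.mem_map.1 (h ▸ Multiset.mem_cons_self (f a) _)
    obtain ⟨R', rfl⟩ := Multiset.exists_cons_of_mem hr
    rw [Multiset.map_cons, h1, Multiset.cons_inj_right] at h
    obtain ⟨k, k1, k2⟩ := ih R' (fun r hr => hR r (Multiset.mem_cons_of_mem hr)) h
    refine ⟨Function.update k a r.2, fun j => ?_, ?_⟩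
    · by_cases hj : j = a
      · rw [hj, Function.update_self]
        exact hR r hr
      · rw [Function.update_of_ne hj]
        exact k1 j
    · rw [insert_val_of_notMem ha, Multiset.map_cons, Function.update_self, ← h1, k2]
      congr 1
      exact Multiset.map_congr rfl fun j hj => by
        rw [Function.update_of_ne (ne_of_mem_of_not_mem hj ha)]

open scoped Classical in
theorem comb_tc {ι : Type} (s : Finset ι) (g : ι → ℂ) (q : ι → Prop)
    (h : ∀ j, IsOfFinOrder (g j) ↔ q j) : tc (s.val.map g) = #(s.filter q) := by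
  rw [tc, Multiset.countP_map, ← filter_val, card_val, filter_congr fun j _ => h j]

theorem comb_inv (T : Multiset ℂ) : tc (T + T.map (·⁻¹)) = 2 * tc T := by
  classical
  rw [tc, Multiset.countP_add, Multiset.countP_map, two_mul, tc, Multiset.countP_eq_card_filter]
  congr 2
  refine Multiset.filter_congr fun z _ => ?_
  simp only [isOfFinOrder_iff_pow_eq_one, inv_pow, inv_eq_one]

theorem comb_four : ∀ i p q j : Fin 4, p ≠ i → q ≠ i → p ≠ q →
    ∃ r, i ≠ r ∧ p ≠ r ∧ q ≠ r ∧ (j = i ∨ j = p ∨ j = q ∨ j = r) := by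
  intro i p
  fin_cases i <;> fin_cases p <;> simp only [Fin.forall_fin_succ, Fin.exists_fin_succ] <;> simp

section

variable {E : Type} [NormedAddCommGroup E] [InnerProductSpace ℝ E] {b : ℕ} {μ : Fin b → ℂ}
  {x : Fin b → E}

/-- The vector `v` is the logarithm of `z`. -/
def CLg (μ : Fin b → ℂ) (x : Fin b → E) (z : ℂ) (v : E) : Prop :=
  ∃ n : Fin b → ℤ, z = ∏ i, μ i ^ n i ∧ v = ∑ i, n i • x i

theorem CLg.mul (h0 : ∀ i, μ i ≠ 0) {z z' : ℂ} {v v' : E} (h : CLg μ x z v) (h' : CLg μ x z' v') :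
    CLg μ x (z * z') (v + v') := by
  obtain ⟨n, rfl, rfl⟩ := h
  obtain ⟨n', rfl, rfl⟩ := h'
  exact ⟨n + n', by simp [zpow_add₀ (h0 _), prod_mul_distrib], by simp [add_smul, sum_add_distrib]⟩

theorem CLg.inv {z : ℂ} {v : E} (h : CLg μ x z v) : CLg μ x z⁻¹ (-v) := by
  obtain ⟨n, rfl, rfl⟩ := h
  exact ⟨-n, by simp, by simp⟩

theorem CLg.pw (i : Fin b) (k : ℕ) : CLg μ x (μ i ^ k) ((k : ℤ) • x i) :=
  ⟨Pi.single i k, by simp [Pi.single_apply, pow_ite], by simp [Pi.single_apply]⟩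

theorem CLg.tw (h0 : ∀ i, μ i ≠ 0) (i j : Fin b) (k : ℕ) :
    CLg μ x (μ i ^ k * μ j) ((k : ℤ) • x i + x j) := by
  simpa using (CLg.pw (x := x) i k).mul h0 (CLg.pw j 1)

end

theorem comb {E : Type} [NormedAddCommGroup E] [InnerProductSpace ℝ E] {b : ℕ} (b2 : 2 ≤ b)
    (b4 : b ≤ 4) (μ : Fin b → ℂ) (h1 : ∏ i, μ i = 1) (ht : ∀ i, ¬IsOfFinOrder (μ i))
    (x : Fin b → E) (hx : ∀ n : Fin b → ℤ, ∑ i, n i • x i = 0 ↔ IsOfFinOrder (∏ i, μ i ^ n i))
    {O : Finset (Fin b)} (O1 : O.Nonempty) (O2 : ∑ j ∈ O, x j = 0)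
    (O3 : ∀ i ∈ O, ∀ j ∈ O, ‖x i‖ = ‖x j‖) {S : Multiset ℂ} (hc : 2 * tc (lam2 μ) ≤ tc S)
    (hS : ∀ i, ∃ R : Multiset (ℂ × ℕ), (∀ r ∈ R, 1 ≤ r.2) ∧
      Finset.univ.val.map μ = μ i ::ₘ R.map Prod.fst ∧ S = tw (μ i) R + (tw (μ i) R).map (·⁻¹)) :
    (b = 2 ∧ S = {1, 1}) ∨ (b = 4 ∧ S = lam2 μ) := by
  classical
  have h0 : ∀ i, μ i ≠ 0 := fun i h => zero_ne_one ((prod_eq_zero (mem_univ i) h).symm.trans h1)
  have tor : ∀ {z v}, CLg μ x z v → (IsOfFinOrder z ↔ v = 0) := by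
    rintro _ _ ⟨n, rfl, rfl⟩
    exact (hx n).symm
  have x0 : ∑ i, x i = 0 := by simpa [h1] using hx 1
  have x1 : ∀ i, x i ≠ 0 := fun i h => ht i (by simpa [h] using tor (CLg.pw i 1))
  have x2 : ∀ (a : ℤ) i, a • x i = 0 → a = 0 := fun a i h => by
    rw [← Int.cast_smul_eq_zsmul ℝ, smul_eq_zero] at h
    exact_mod_cast h.resolve_right (x1 i)
  have hk : ∀ i, ∃ k : Fin b → ℕ, (∀ j, 1 ≤ k j) ∧ ∀ T, T = (univ.erase i).val.map
      (fun j => μ i ^ k j * μ j) → S = T + T.map (·⁻¹) := fun i => by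
    obtain ⟨R, r1, r2, r3⟩ := hS i
    rw [← Multiset.cons_erase (mem_univ_val i), Multiset.map_cons, Multiset.cons_inj_right] at r2
    obtain ⟨k, k1, rfl⟩ := comb_conv μ (univ.erase i) R r1 r2
    refine ⟨k, k1, fun T hT => ?_⟩
    rw [r3, hT, tw, Multiset.map_map]
    rfl
  choose k k1 k2 using hk
  have cnt : ∀ i, #((univ.filter fun p : Fin b × Fin b => p.1 < p.2).filter
      fun p => x p.1 + x p.2 = 0) ≤
      #((univ.erase i).filter fun j => (k i j : ℤ) • x i + x j = 0) := fun i => by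
    rw [k2 i _ rfl, comb_inv, lam2, comb_tc _ _ (fun p => x p.1 + x p.2 = 0) fun p => by
      simpa using tor (CLg.tw h0 p.1 p.2 1), comb_tc _ _ _ fun j => tor (CLg.tw h0 i j _)] at hc
    convert Nat.le_of_mul_le_mul_left hc two_pos
  have rel : (∀ i j, i ≠ j → x i + x j ≠ 0) → ∀ i j i', j ≠ i → ∃ l, l ≠ i' ∧ ∃ s : ℤ,
      (s = 1 ∨ s = -1) ∧ ∀ n : Fin b → ℤ, n = Pi.single i (k i j : ℤ) + Pi.single j 1 +
        s • (Pi.single i' (k i' l : ℤ) + Pi.single l 1) → ∀ m m', n m = n m' := by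
    intro hg i j i' hj
    have m1 : μ i ^ k i j * μ j ∈ S := by
      rw [k2 i _ rfl]
      exact Multiset.mem_add.2 (Or.inl (Multiset.mem_map_of_mem _ (mem_erase.2 ⟨hj, mem_univ _⟩)))
    have m2 : μ i ^ k i j * μ j ≠ 0 := mul_ne_zero (pow_ne_zero _ (h0 _)) (h0 _)
    rw [k2 i' _ rfl, Multiset.map_map, Multiset.mem_add, Multiset.mem_map, Multiset.mem_map] at m1
    rcases m1 with ⟨l, hl, h⟩ | ⟨l, hl, h⟩
    · refine ⟨l, (mem_erase.1 (mem_def.2 hl)).1, -1, Or.inr rfl, fun n hn =>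
        rel_const b4 x x0 x1 hg O1 O2 O3 n ?_⟩
      have := (tor ((CLg.tw h0 i j (k i j)).mul h0 (CLg.tw h0 i' l (k i' l)).inv)).1 (by
        rw [h, mul_inv_cancel₀ m2]; exact IsOfFinOrder.one)
      simpa [hn, add_smul, sum_add_distrib, Pi.single_apply, add_comm (-x l)] using this
    · refine ⟨l, (mem_erase.1 (mem_def.2 hl)).1, 1, Or.inl rfl, fun n hn =>
        rel_const b4 x x0 x1 hg O1 O2 O3 n ?_⟩
      have := (tor ((CLg.tw h0 i j (k i j)).mul h0 (CLg.tw h0 i' l (k i' l)))).1 (by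
        rw [← h, Function.comp, inv_mul_cancel₀ (mul_ne_zero (pow_ne_zero _ (h0 _)) (h0 _))]
        exact IsOfFinOrder.one)
      simpa [hn, add_smul, sum_add_distrib, Pi.single_apply] using this
  obtain rfl | rfl | rfl : b = 2 ∨ b = 3 ∨ b = 4 := by omega
  · refine Or.inl ⟨rfl, ?_⟩
    rw [Fin.sum_univ_two] at x0
    rw [Fin.prod_univ_two] at h1
    obtain ⟨j, hj⟩ := card_pos.1 ((card_pos.2 ⟨(0, 1), by simpa using x0⟩).trans_le (cnt 0))
    obtain ⟨j1, j2⟩ := mem_filter.1 hj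
    obtain rfl : j = 1 := (by decide : ∀ j : Fin 2, j ≠ 0 → j = 1) j (ne_of_mem_erase j1)
    have := x2 (k 0 1 - 1) 0 (by
      rw [sub_smul, one_smul, eq_neg_of_add_eq_zero_left j2, sub_eq_zero,
        eq_neg_of_add_eq_zero_left x0])
    rw [k2 0 _ rfl, show (univ.erase (0 : Fin 2)).val = {1} by decide]
    simp [show k 0 1 = 1 by omega, h1]
  · exfalso
    have hg : ∀ i j, i ≠ j → x i + x j ≠ 0 := fun i j hij h => by
      obtain ⟨m, m1, m2, hm⟩ := (by decide : ∀ i j : Fin 3, i ≠ j → ∃ m, i ≠ m ∧ j ≠ m ∧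
        (univ : Finset (Fin 3)) = {i, j, m}) i j hij
      rw [hm, sum_insert (by simp [*]), sum_pair m2, ← add_assoc, h, zero_add] at x0
      exact x1 m x0
    obtain ⟨l, l1, s, hs, r⟩ := rel hg 0 2 2 (by decide)
    obtain ⟨l', l2, s', hs', r'⟩ := rel hg 0 2 1 (by decide)
    have a1 := r _ rfl 0 1
    have a2 := r _ rfl 1 2
    have a3 := r' _ rfl 0 1
    have a4 := r' _ rfl 1 2
    have := k1 0 2
    have := k1 2 l
    have := k1 1 l'
    fin_cases l <;> fin_cases l' <;> rcases hs with rfl | rfl <;> rcases hs' with rfl | rfl <;>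
      simp at l1 l2 a1 a2 a3 a4 <;> omega
  · refine Or.inr ⟨rfl, ?_⟩
    have u4 : ∀ i j m l : Fin 4, i ≠ j → i ≠ m → i ≠ l → j ≠ m → j ≠ l → m ≠ l →
        x i + (x j + (x m + x l)) = 0 := fun i j m l a1 a2 a3 a4 a5 a6 => by
      rwa [(by decide : ∀ i j m l : Fin 4, i ≠ j → i ≠ m → i ≠ l → j ≠ m → j ≠ l → m ≠ l →
        (univ : Finset (Fin 4)) = {i, j, m, l}) i j m l a1 a2 a3 a4 a5 a6,
        sum_insert (by simp [*]), sum_insert (by simp [*]), sum_pair a6] at x0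
    have hg : ∀ i j, i ≠ j → x i + x j ≠ 0 := fun i j hij h => by
      wlog hlt : i < j generalizing i j
      · exact this j i hij.symm (by rw [add_comm, h]) (lt_of_le_of_ne (not_lt.1 hlt) hij.symm)
      obtain ⟨m, l, a1, a2, a3, a4, a5⟩ := (by decide : ∀ i j : Fin 4, ∃ m l : Fin 4,
        m < l ∧ i ≠ m ∧ i ≠ l ∧ j ≠ m ∧ j ≠ l) i j
      have a6 := u4 i j m l hij a2 a3 a4 a5 a1.ne
      rw [← add_assoc, h, zero_add] at a6
      have a7 : ∀ i j, ∃ a : ℤ, x j = a • x i := fun i' j' => by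
        obtain ⟨p, hp, q, hq, hpq⟩ := one_lt_card.1 ((one_lt_card.2 ⟨(i, j), by simp [*], (m, l),
          by simp [*], by simp [*]⟩).trans_le (cnt i'))
        simp only [mem_filter, mem_erase, mem_univ, and_true] at hp hq
        obtain ⟨r, r1, r2, r3, r4⟩ := comb_four i' p q j' hp.1 hq.1 hpq
        have a8 := u4 i' p q r hp.1.symm hq.1.symm r1 hpq r2 r3
        rcases r4 with rfl | rfl | rfl | rfl
        · exact ⟨1, (one_smul _ _).symm⟩
        · exact ⟨-_, by rw [neg_smul, eq_neg_of_add_eq_zero_right hp.2]⟩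
        · exact ⟨-_, by rw [neg_smul, eq_neg_of_add_eq_zero_right hq.2]⟩
        · refine ⟨k i' p + k i' q - 1, ?_⟩
          rw [sub_smul, add_smul, one_smul]
          linear_combination (norm := abel1) a8 - hp.2 - hq.2
      have a8 : ∀ j, ∃ e : Bool, x j = (if e then 1 else -1 : ℤ) • x 0 := fun j => by
        obtain ⟨a, ha⟩ := a7 0 j
        obtain ⟨a', ha'⟩ := a7 j 0
        have := x2 (a * a' - 1) j (by rw [sub_smul, mul_smul, ← ha', ← ha, one_smul, sub_self])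
        rcases Int.eq_one_or_neg_one_of_mul_eq_one (sub_eq_zero.1 this) with rfl | rfl
        exacts [⟨true, ha⟩, ⟨false, ha⟩]
      choose e he using a8
      have a9 := x2 (∑ j, if e j then 1 else -1) 0 (by
        rw [sum_smul, ← x0]; exact sum_congr rfl fun j _ => (he j).symm)
      have b1 := (by decide : ∀ e : Fin 4 → Bool, (∑ j, if e j then 1 else -1 : ℤ) = 0 →
        4 ≤ #((univ.filter fun p : Fin 4 × Fin 4 => p.1 < p.2).filter fun p => e p.1 ≠ e p.2)) e a9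
      have b3 := (b1.trans (card_le_card (monotone_filter_right _ fun p _ hp => ?_))).trans
        ((cnt 0).trans (card_filter_le _ _))
      · simp at b3
      · rw [he p.1, he p.2, ← add_smul]
        revert hp
        cases e p.1 <;> cases e p.2 <;> simp
    have hk : ∀ j, j ≠ 0 → k 0 j = 1 := fun j hj => by
      obtain ⟨l, l1, s, hs, r⟩ := rel hg 0 j j hj
      obtain ⟨m, m1, m2, m3⟩ := (by decide : ∀ j l : Fin 4, ∃ m, m ≠ 0 ∧ m ≠ j ∧ m ≠ l) j l
      have a1 := r _ rfl 0 m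
      have := k1 0 j
      by_cases hl : l = 0 <;> rcases hs with rfl | rfl <;>
        simp [m1, m2, m3, hj.symm, hl, eq_comm (a := (0 : Fin 4))] at a1 <;> omega
    rw [Fin.prod_univ_four] at h1
    rw [k2 0 _ rfl, show (univ.erase (0 : Fin 4)).val = {1, 2, 3} by decide, lam2,
      show (univ.filter fun p : Fin 4 × Fin 4 => p.1 < p.2).val =
        {(0, 1), (0, 2), (0, 3), (2, 3), (1, 3), (1, 2)} by decide]
    have e1 : (μ 0 * μ 1)⁻¹ = μ 2 * μ 3 := inv_eq_of_mul_eq_one_right (by rw [← h1]; ring)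
    have e2 : (μ 0 * μ 2)⁻¹ = μ 1 * μ 3 := inv_eq_of_mul_eq_one_right (by rw [← h1]; ring)
    have e3 : (μ 0 * μ 3)⁻¹ = μ 1 * μ 2 := inv_eq_of_mul_eq_one_right (by rw [← h1]; ring)
    simp only [Multiset.insert_eq_cons, Multiset.map_cons, Multiset.map_singleton, hk 1 (by decide),
      hk 2 (by decide), hk 3 (by decide), pow_one, e1, e2, e3]
    rfl

end SX4
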