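import Pool.Agent.P.MP_0a0487_an.SX.AlgSpB

/-! The cup product. -/

set_option autoImplicit false
set_option linter.unusedSectionVars false

noncomputable section

namespace SX4

open Matrix

variable {V0 V1 V2 : Type} [AddCommGroup V0] [Module ℂ V0] [AddCommGroup V1] [Module ℂ V1]
  [AddCommGroup V2] [Module ℂ V2]

theorem AlgCup_anti (c : Cx V0 V1 V2) (x y : V1) : c.w x y = -c.w y x := by
  have := c.w_self (x + y)
  simp only [map_add, LinearMap.add_apply, c.w_self, zero_add, add_zero] at this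
  exact eq_neg_of_add_eq_zero_right this

theorem AlgCup_swap (c : Cx V0 V1 V2) (x y z t : V1) :
    c.B (c.w x y) (c.w z t) = -c.B (c.w x z) (c.w y t) := by
  have := c.B_w (y + z) x t
  simp only [map_add, LinearMap.add_apply, c.B_w, zero_add, add_zero] at this
  rw [AlgCup_anti c x y, AlgCup_anti c x z]
  simp only [map_neg, LinearMap.neg_apply]
  linear_combination -this

theorem AlgCup_sum {b : ℕ} (a : Fin b → V1) (A B : Matrix (Fin b) (Fin b) ℂ) (i : Fin b) :
    ∑ j, A i j • ∑ l, B j l • a l = ∑ l, (A * B) i l • a l := by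
  simp only [Finset.smul_sum, smul_smul, mul_apply, Finset.sum_smul]
  exact Finset.sum_comm

theorem AlgCup_exact (c : Cx V0 V1 V2) {x y : V1} (hx : c.d1 x = 0) (hy : c.d1 y = 0) (g g' : V0) :
    c.w (x + c.d0 g) (y + c.d0 g') - c.w x y ∈ LinearMap.range c.d1 := by
  refine ⟨c.M1 g (y + c.d0 g') - c.M1 g' x, ?_⟩
  rw [map_sub, c.d1_M, c.d1_M, AlgCup_anti c (c.d0 g') x]
  simp only [map_add, LinearMap.add_apply, hx, hy, c.d1_d0, map_zero]
  abel

/-- The cup product on the level of forms. -/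
def AlgCup_c (c : Cx V0 V1 V2) {b : ℕ} (a : Fin b → c.Z1) : Matrix (Fin b) (Fin b) ℂ →ₗ[ℂ] c.Z2 where
  toFun ν := ⟨∑ i, c.w (a i) (∑ j, ν i j • (a j : V1)), sum_mem fun i _ => c.w_mem _ _ 0 (a i).2
    ((sum_mem fun j _ => c.Z1.smul_mem _ (a j).2 : _ ∈ c.Z1).trans (map_zero _).symm)⟩
  map_add' x y := Subtype.ext (by simp [add_smul, Finset.sum_add_distrib])
  map_smul' r x := Subtype.ext (by simp [Finset.smul_sum, smul_smul])

theorem Cx.quad (c : Cx V0 V1 V2) {b : ℕ} (b4 : b ≤ 4) (a : Fin b → V1) :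
    (∀ i j k l, c.B (c.w (a i) (a j)) (c.w (a k) (a l)) = 0) ∨
      (b = 4 ∧ ∀ ν : Matrix (Fin b) (Fin b) ℂ, νᵀ = -ν →
        (∀ k l, c.B (c.w (a k) (a l)) (∑ i, c.w (a i) (∑ j, ν i j • a j)) = 0) → ν = 0) := by
  obtain ⟨Q, hQ⟩ : ∃ Q : Fin b → Fin b → Fin b → Fin b → ℂ,
      ∀ i j k l, c.B (c.w (a i) (a j)) (c.w (a k) (a l)) = Q i j k l := ⟨_, fun _ _ _ _ => rfl⟩
  have s1 : ∀ i j k l, j < i → Q i j k l = -Q j i k l := fun i j k l _ => by
    rw [← hQ, ← hQ, AlgCup_anti c (a i), map_neg, LinearMap.neg_apply]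
  have s2 : ∀ i j k l, k < j → Q i j k l = -Q i k j l := fun i j k l _ => by
    rw [← hQ, ← hQ, AlgCup_swap]
  have s3 : ∀ i j k l, l < k → Q i j k l = -Q i j l k := fun i j k l _ => by
    rw [← hQ, ← hQ, AlgCup_anti c (a k), map_neg]
  have z1 : ∀ i k l, Q i i k l = 0 := fun i k l => by simp [← hQ, c.w_self]
  have z2 : ∀ i j l, Q i j j l = 0 := fun i j l => by
    rw [← hQ, AlgCup_anti c (a i), map_neg, LinearMap.neg_apply, c.B_w, neg_zero]
  have z3 : ∀ i j k, Q i j k k = 0 := fun i j k => by simp [← hQ, c.w_self]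
  simp only [map_sum, map_smul, hQ, smul_eq_mul]
  by_cases h : ∀ i j k l, i < j → j < k → k < l → Q i j k l = 0
  · left
    have h1 : ∀ i j k l, i ≤ j → j ≤ k → k ≤ l → Q i j k l = 0 := fun i j k l a1 a2 a3 => by
      rcases a1.eq_or_lt with rfl | a1
      · exact z1 _ _ _
      rcases a2.eq_or_lt with rfl | a2
      · exact z2 _ _ _
      rcases a3.eq_or_lt with rfl | a3
      · exact z3 _ _ _
      exact h _ _ _ _ a1 a2 a3
    have h2 : ∀ i j k l, j ≤ k → k ≤ l → Q i j k l = 0 := fun i j k l a2 a3 => by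
      rcases le_or_gt i j with a | a
      · exact h1 _ _ _ _ a a2 a3
      rw [s1 _ _ _ _ a, neg_eq_zero]
      rcases le_or_gt i k with a' | a'
      · exact h1 _ _ _ _ a.le a' a3
      rw [s2 _ _ _ _ a', neg_eq_zero]
      rcases le_or_gt i l with a'' | a''
      · exact h1 _ _ _ _ a2 a'.le a''
      rw [s3 _ _ _ _ a'', h1 _ _ _ _ a2 a3 a''.le, neg_zero]
    have h3 : ∀ i j k l, k ≤ l → Q i j k l = 0 := fun i j k l a3 => by
      rcases le_or_gt j k with a | a
      · exact h2 _ _ _ _ a a3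
      rw [s2 _ _ _ _ a, neg_eq_zero]
      rcases le_or_gt j l with a' | a'
      · exact h2 _ _ _ _ a.le a'
      rw [s3 _ _ _ _ a', h2 _ _ _ _ a3 a'.le, neg_zero]
    intro i j k l
    rcases le_or_gt k l with a | a
    · exact h3 _ _ _ _ a
    rw [s3 _ _ _ _ a, h3 _ _ _ _ a.le, neg_zero]
  right
  push Not at h
  obtain ⟨i, j, k, l, a1, a2, a3, h⟩ := h
  obtain rfl : b = 4 := by omega
  obtain rfl : i = 0 := by omega
  obtain rfl : j = 1 := by omega
  obtain rfl : k = 2 := by omega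
  obtain rfl : l = 3 := by omega
  refine ⟨rfl, fun ν hν H => ?_⟩
  have sk : ∀ i j, ν j i = -ν i j := fun i j => congrFun (congrFun hν i) j
  have key : ∀ i j, i < j → ν i j = 0 := fun i j e => by
    have b1 := H 0 1
    have b2 := H 0 2
    have b3 := H 0 3
    have b4 := H 1 2
    have b5 := H 1 3
    have b6 := H 2 3
    simp +decide only [Fin.sum_univ_four, s1, s2, s3, z1, z2, z3, sk 0 1, sk 0 2, sk 0 3, sk 1 2,
      sk 1 3, sk 2 3] at b1 b2 b3 b4 b5 b6
    refine (mul_eq_zero.1 ?_).resolve_right h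
    fin_cases i <;> fin_cases j <;> simp at e ⊢ <;> grind
  ext i j
  rcases lt_trichotomy i j with e | rfl | e
  · exact key i j e
  · exact self_eq_neg.1 (sk i i)
  · rw [sk, key j i e, neg_zero, Matrix.zero_apply]

theorem Cx.cup_sp (c : Cx V0 V1 V2) (hnd : c.ND) [FiniteDimensional ℂ c.H2] (f : c.Mor) {b : ℕ}
    (b4 : b ≤ 4) (h2 : Module.finrank ℂ c.H2 + 2 = 2 * b) (a : Fin b → c.Z1)
    (M : Matrix (Fin b) (Fin b) ℂ)
    (hF : ∀ i, ∃ g, f.F1 (a i) = ∑ j, M i j • (a j : V1) + c.d0 g) (μ : Fin b → ℂ)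
    (hμ : ∀ n : ℕ, (M ^ n).trace = ∑ i, μ i ^ n)
    (hN : ∀ ν : Matrix (Fin b) (Fin b) ℂ, νᵀ = -ν →
      ∑ i, c.w (a i) (∑ j, ν i j • (a j : V1)) ∈ LinearMap.range c.d1 →
      ∀ n, 1 ≤ n → (M ^ n)ᵀ * ν * M ^ n = ν → ν = 0)
    {S : Multiset ℂ} (hS : Sp f.h2 ⊤ S) :
    2 * tc (lam2 μ) ≤ tc S ∨ (b = 4 ∧ S = lam2 μ) := by
  choose g hg using hF
  let cup := ((LinearMap.range c.d1).submoduleOf c.Z2).mkQ ∘ₗ AlgCup_c c a
  have hz : ∀ ν, cup ν = 0 ↔ ∑ i, c.w (a i) (∑ j, ν i j • (a j : V1)) ∈ LinearMap.range c.d1 :=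
    fun ν => Submodule.Quotient.mk_eq_zero _
  have cl : ∀ v : Fin b → ℂ, c.d1 (∑ j, v j • (a j : V1)) = 0 := fun v =>
    (sum_mem fun j _ => c.Z1.smul_mem _ (a j).2 : _ ∈ c.Z1)
  have eqv : ∀ ν, f.h2 (cup ν) = cup (cj M ν) := fun ν => by
    refine (Submodule.Quotient.eq _).2 ?_
    change f.F2 (∑ i, c.w (a i) (∑ j, ν i j • (a j : V1))) -
      ∑ i, c.w (a i) (∑ j, (Mᵀ * ν * M) i j • (a j : V1)) ∈ LinearMap.range c.d1
    have e : ∑ i, c.w (a i) (∑ j, (Mᵀ * ν * M) i j • (a j : V1)) =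
        ∑ i, c.w (∑ k, M i k • (a k : V1)) (∑ j, (ν * M) i j • (a j : V1)) := by
      have k : ∀ z : Fin b → V1, ∑ i, c.w (a i) (∑ j, Mᵀ i j • z j) =
          ∑ i, c.w (∑ k, M i k • (a k : V1)) (z i) := fun z => by
        simp only [map_sum, map_smul, LinearMap.sum_apply, LinearMap.smul_apply, transpose_apply]
        exact Finset.sum_comm
      simp only [Matrix.mul_assoc, ← k, AlgCup_sum]
    rw [e, map_sum, ← Finset.sum_sub_distrib]
    refine sum_mem fun i _ => ?_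
    have := AlgCup_exact c (cl (M i)) (cl ((ν * M) i)) (g i) (∑ j, ν i j • g j)
    rw [f.F_w, map_sum f.F1]
    simpa only [map_smul, hg, smul_add, Finset.sum_add_distrib, AlgCup_sum, map_sum c.d0] using this
  have sk := Sp.skew M μ hμ
  obtain ⟨N, hZ⟩ := Sp.exi (u := cj M) (W := Sk b ⊓ LinearMap.ker cup) fun ν hν =>
    ⟨sk.1 ν hν.1, (eqv ν).symm.trans (by rw [LinearMap.mem_ker.1 hν.2, map_zero])⟩
  obtain ⟨R, r1, r2⟩ := Sp.subq ((cj M).restrict sk.1) (Sk b).subtype (cup ∘ₗ (Sk b).subtype) 1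
    (fun _ => rfl) (fun t => (eqv t).trans (one_smul _ _).symm)
    (inf_le_left.trans (Submodule.range_subtype _).ge) bot_le
    (fun t => ⟨fun h => h.2, fun h => ⟨t.2, h⟩⟩) hZ (Sp.bot f.h2)
  rw [Submodule.range_subtype] at r1
  simp only [one_mul, Multiset.map_id', zero_add] at r2
  rw [sk.unique r1]
  rcases c.quad b4 (fun i => (a i : V1)) with q | ⟨rfl, q⟩
  · have n0 : tc N = 0 := by
      classical
      unfold tc
      refine Multiset.countP_eq_zero.2 fun z hzN hf => ?_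
      obtain ⟨ν, hν, h0, e⟩ := (hZ.mem_iff z).1 hzN
      obtain ⟨n, hn, h1⟩ := isOfFinOrder_iff_pow_eq_one.1 hf
      have it : ∀ k : ℕ, (M ^ k)ᵀ * ν * M ^ k = z ^ k • ν := fun k => by
        induction k with
        | zero => simp
        | succ k ih =>
          rw [pow_succ z, mul_smul, smul_comm, smul_comm, ← e, ← map_smul, ← ih, pow_succ,
            transpose_mul]
          simp only [cj, LinearMap.coe_mk, AddHom.coe_mk, Matrix.mul_assoc]
      exact h0 (hN ν hν.1 ((hz ν).1 hν.2) n hn (by rw [it, h1, one_smul]))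
    have red : ∀ (x y : c.Z2) ν, cup ν = Submodule.Quotient.mk y →
        c.B x y = c.B x (AlgCup_c c a ν) := fun x y ν e => by
      obtain ⟨s, hs⟩ := (Submodule.Quotient.eq _).1 e
      have := c.B_d x x.2 s
      rw [hs, Submodule.subtype_apply, Submodule.coe_sub, map_sub] at this
      exact (sub_eq_zero.1 this).symm
    have le := c.iso_le hnd f (W := LinearMap.range (cup ∘ₗ (Sk b).subtype))
      (fun x y ⟨ν, hx⟩ ⟨ν', hy⟩ => by
      rw [red x y _ hy, c.B_symm, red _ x _ hx]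
      simp [AlgCup_c, q]) r2 hS
    left
    classical
    unfold tc at n0 ⊢
    have := Multiset.countP_le_of_le IsOfFinOrder le
    rw [Multiset.countP_add, Multiset.countP_map, ← Multiset.countP_eq_card_filter,
      Multiset.countP_congr (p := fun a => IsOfFinOrder a⁻¹) (p' := IsOfFinOrder) rfl fun z _ => by
        simp [isOfFinOrder_iff_pow_eq_one]] at this
    rw [Multiset.countP_add, n0]
    omega
  · obtain rfl : N = 0 := Multiset.eq_zero_of_forall_notMem fun z hzN => by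
      obtain ⟨ν, hν, h0, -⟩ := (hZ.mem_iff z).1 hzN
      obtain ⟨s, hs⟩ := (hz ν).1 hν.2
      refine h0 (q ν hν.1 fun k l => ?_)
      rw [← hs]
      exact c.B_d _ (c.w_mem _ _ 0 (a k).2 ((a l).2.trans (map_zero _).symm)) s
    refine Or.inr ⟨rfl, (Multiset.eq_of_le_of_card_le ((zero_add R).symm ▸ r2.le hS le_top) ?_).symm⟩
    rw [hS.card, finrank_top, ← sk.unique r1, lam2, Multiset.card_map]
    have : (Finset.univ.filter fun p : Fin 4 × Fin 4 => p.1 < p.2).val.card = 6 := by decide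
    omega

end SX4
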