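import Pool.Agent.P.MP_0a0487_an.SX.AlgDefs

/-! Long towers of cocycles start with a multiple of the character. -/

set_option autoImplicit false
set_option linter.unusedSectionVars false

noncomputable section

namespace SX4

variable {Γ : Type} [Group Γ] {b : ℕ} {cc : Γ → Fin b → ℤ}

/-- A character of finite order which takes the value `-1`. -/
theorem AlgLine_eps (hc : HB cc) (h : Hm Γ) {g : Γ} (hg : h (Additive.ofMul g) ≠ 0) :
    ∃ ε : Multiplicative ℂ →* ℂ, ε (Multiplicative.ofAdd (h (Additive.ofMul g))) = -1 ∧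
      ∃ D : ℕ, D ≠ 0 ∧ ∀ γ, ε (Multiplicative.ofAdd (h (Additive.ofMul γ))) ^ D = 1 := by
  obtain ⟨l0, hl0⟩ : ∃ l0 : Module.Dual ℚ ℂ, l0 (h (Additive.ofMul g)) ≠ 0 := by
    by_contra hcon
    push Not at hcon
    exact hg ((Module.forall_dual_apply_eq_zero_iff ℚ _).1 hcon)
  obtain ⟨l, hl⟩ : ∃ l : Module.Dual ℚ ℂ, l (h (Additive.ofMul g)) = 1 / 2 :=
    ⟨((1 / 2) / l0 (h (Additive.ofMul g))) • l0, by
      rw [LinearMap.smul_apply, smul_eq_mul, div_mul_cancel₀ _ hl0]⟩
  obtain ⟨v, hv⟩ := hc.span h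
  refine ⟨{ toFun := fun z => Complex.exp (2 * Real.pi * Complex.I * (l z.toAdd : ℂ))
            map_one' := by simp
            map_mul' := fun x y => by
              rw [toAdd_mul, map_add, Rat.cast_add, mul_add, Complex.exp_add] }, ?_,
    ∏ i, (l (v i)).den, Finset.prod_ne_zero_iff.2 fun i _ => (l (v i)).den_nz, fun γ => ?_⟩
  · simp only [MonoidHom.coe_mk, OneHom.coe_mk, toAdd_ofAdd, hl]
    rw [← Complex.exp_pi_mul_I]
    congr 1
    push_cast
    ring
  · simp only [MonoidHom.coe_mk, OneHom.coe_mk, toAdd_ofAdd]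
    have h1 : ∀ i, ∃ m : ℤ, ((∏ j, (l (v j)).den : ℕ) : ℚ) * l (v i) = m := by
      intro i
      obtain ⟨k, hk⟩ := Finset.dvd_prod_of_mem (fun j => (l (v j)).den) (Finset.mem_univ i)
      refine ⟨k * (l (v i)).num, ?_⟩
      rw [hk]
      push_cast
      rw [← Rat.den_mul_eq_num]
      ring
    choose m hm using h1
    have h2 : ((∏ j, (l (v j)).den : ℕ) : ℚ) * l (h (Additive.ofMul γ)) =
        ((∑ i, m i * cc γ i : ℤ) : ℚ) := by
      rw [hv γ, map_sum, Finset.mul_sum, Int.cast_sum]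
      refine Finset.sum_congr rfl fun i _ => ?_
      rw [mul_comm (v i), ← zsmul_eq_mul, map_zsmul, zsmul_eq_mul, Int.cast_mul, ← hm i]
      ring
    rw [← Complex.exp_nat_mul, ← Complex.exp_int_mul_two_pi_mul_I (∑ i, m i * cc γ i)]
    congr 1
    have h3 := congrArg (fun q : ℚ => (q : ℂ)) h2
    simp only [Rat.cast_mul, Rat.cast_natCast, Rat.cast_intCast] at h3
    rw [← h3]
    ring

theorem line_char (hc : HB cc) (hm : MaxB Γ) (h : Hm Γ) {g : Γ} (hg : h (Additive.ofMul g) ≠ 0) :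
    ∃ ε : Multiplicative ℂ →* ℂ, ∀ u : Γ → ℂ,
      (∀ γ γ', u (γ * γ') = u γ + ε (Multiplicative.ofAdd (h (Additive.ofMul γ))) * u γ') →
      u g = 0 → ∀ γ, u γ = 0 := by
  obtain ⟨ε, hε, D, hD, hp⟩ := AlgLine_eps hc h hg
  refine ⟨ε, fun u hu hg0 => ?_⟩
  let e : Γ →* ℂ :=
    { toFun := fun γ => ε (Multiplicative.ofAdd (h (Additive.ofMul γ)))
      map_one' := by simp
      map_mul' := fun x y => by rw [ofMul_mul, map_add, ofAdd_add, map_mul] }
  have hu' : ∀ γ γ', u (γ * γ') = u γ + e γ * u γ' := hu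
  have he : e g = -1 := hε
  have : NeZero D := ⟨hD⟩
  have hfin : Finite e.toHomUnits.range := by
    refine Finite.of_injective (β := rootsOfUnity D ℂ) (fun x => ⟨x.1, ?_⟩) ?_
    · obtain ⟨γ, hγ⟩ := x.2
      rw [mem_rootsOfUnity', ← hγ]
      exact hp γ
    · intro x y hxy
      exact Subtype.ext (Subtype.mk.inj hxy)
  have hS : ∀ s, s ∈ e.toHomUnits.ker ↔ e s = 1 := by
    intro s
    rw [MonoidHom.mem_ker, ← Units.val_inj]
    rfl
  obtain ⟨h', hh'⟩ := hm e.toHomUnits.ker inferInstance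
    (AddMonoidHom.mk' (fun s => u ((Additive.toMul s : e.toHomUnits.ker) : Γ)) fun s t => by
      rw [toMul_add, Subgroup.coe_mul, hu', (hS _).1 (Additive.toMul s).2, one_mul])
  have hh : ∀ s, e s = 1 → h' (Additive.ofMul s) = u s := fun s hs => hh' ⟨s, (hS s).2 hs⟩
  have h1 : u 1 = 0 := by
    have := hu' 1 1
    rw [one_mul, map_one, one_mul] at this
    simpa using this
  have hgi : u g⁻¹ = 0 := by
    have := hu' g g⁻¹
    rw [mul_inv_cancel, h1, hg0, he] at this
    simpa using this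
  have hinv : ∀ x, e x * e x⁻¹ = 1 := fun x => by rw [← map_mul, mul_inv_cancel, map_one]
  have hz : ∀ s, e s = 1 → u s = 0 := by
    intro s hs
    have h2 : e (g * s * g⁻¹) = 1 := by rw [map_mul, map_mul, hs, mul_one, hinv]
    have h3 := hh _ h2
    rw [ofMul_mul, ofMul_mul, ofMul_inv, map_add, map_add, map_neg, hh s hs, hu', hu', hg0, hgi,
      he] at h3
    linear_combination (1 / 2 : ℂ) * h3
  intro γ
  have h4 : e ((g * γ)⁻¹ * (γ * g)) = 1 := by
    rw [map_mul, map_mul, mul_comm (e γ), ← map_mul, mul_comm, hinv]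
  have h5 := hu' (g * γ) ((g * γ)⁻¹ * (γ * g))
  rw [mul_inv_cancel_left, hz _ h4, hu', hu', hg0, he] at h5
  linear_combination (1 / 2 : ℂ) * h5

theorem line_ann [Group.FG Γ] {R : Type} [CommRing R] [Algebra ℂ R] (χ : Γ →* R) (ε : R →ₐ[ℂ] ℂ)
    (g : Γ) (hu : ∀ u : Γ → ℂ, (∀ γ γ', u (γ * γ') = u γ + ε (χ γ) * u γ') → u g = 0 →
      ∀ γ, u γ = 0) :
    ∃ Δ : R, ε Δ = 1 ∧ ∀ γ, ∃ r : R, ∀ (N : Type) [AddCommGroup N] [Module R N] (a : Γ → N),
      (∀ γ γ', a (γ * γ') = a γ + χ γ • a γ') → Δ • a γ = r • a g := by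
  let W : Submodule R (Γ →₀ R) := Submodule.span R (Set.range fun p : Γ × Γ =>
    Finsupp.single (p.1 * p.2) (1 : R) - (Finsupp.single p.1 1 + χ p.1 • Finsupp.single p.2 1))
  let δ : Γ → (Γ →₀ R) ⧸ W := fun γ => W.mkQ (Finsupp.single γ 1)
  have hδ : ∀ γ γ', δ (γ * γ') = δ γ + χ γ • δ γ' := by
    intro γ γ'
    simp only [δ]
    rw [← map_smul, ← map_add, ← sub_eq_zero, ← map_sub, Submodule.mkQ_apply,
      Submodule.Quotient.mk_eq_zero]
    exact Submodule.subset_span ⟨(γ, γ'), rfl⟩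
  have hgen : ∀ M : Submodule R ((Γ →₀ R) ⧸ W), (∀ γ, δ γ ∈ M) → ∀ x, x ∈ M := by
    intro M hM x
    obtain ⟨y, rfl⟩ := W.mkQ_surjective x
    induction y using Finsupp.induction_linear with
    | zero => simp
    | add f g hf hg => rw [map_add]; exact M.add_mem hf hg
    | single γ r =>
      rw [← mul_one r, ← smul_eq_mul, ← Finsupp.smul_single, map_smul]
      exact M.smul_mem r (hM γ)
  have h1 : δ 1 = 0 := by
    have := hδ 1 1
    rw [one_mul, map_one, one_smul] at this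
    simpa using this
  have hfg : (⊤ : Submodule R ((Γ →₀ R) ⧸ W)).FG := by
    obtain ⟨S, hS, hSf⟩ := Group.fg_iff.1 (inferInstance : Group.FG Γ)
    refine Submodule.fg_def.2 ⟨δ '' S, hSf.image δ, eq_top_iff.2 fun x _ => hgen _ (fun γ => ?_) x⟩
    have hγ : γ ∈ Subgroup.closure S := hS ▸ Subgroup.mem_top γ
    induction hγ using Subgroup.closure_induction with
    | mem x hx => exact Submodule.subset_span ⟨x, hx, rfl⟩
    | one => rw [h1]; exact Submodule.zero_mem _
    | mul x y _ _ hx hy => rw [hδ]; exact Submodule.add_mem _ hx (Submodule.smul_mem _ _ hy)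
    | inv x _ hx =>
      have h2 := hδ x⁻¹ x
      rw [inv_mul_cancel, h1] at h2
      rw [eq_neg_of_add_eq_zero_left h2.symm]
      exact Submodule.neg_mem _ (Submodule.smul_mem _ _ hx)
  have hle : (⊤ : Submodule R ((Γ →₀ R) ⧸ W)) ≤
      Submodule.span R {δ g} ⊔ RingHom.ker ε • (⊤ : Submodule R ((Γ →₀ R) ⧸ W)) := by
    intro x _
    by_contra hx
    obtain ⟨φ, hφx, hφ⟩ := Submodule.exists_le_ker_of_notMem (K := ℂ)
      (p := (Submodule.span R {δ g} ⊔
        RingHom.ker ε • (⊤ : Submodule R ((Γ →₀ R) ⧸ W))).restrictScalars ℂ) (v := x) hx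
    have hφs : ∀ (r : R) y, φ (r • y) = ε r * φ y := by
      intro r y
      have h2 : φ ((r - algebraMap ℂ R (ε r)) • y) = 0 := by
        refine hφ (Submodule.mem_sup_right (Submodule.smul_mem_smul ?_ Submodule.mem_top))
        rw [RingHom.mem_ker, map_sub, AlgHom.commutes]
        simp
      rw [sub_smul, map_sub, algebraMap_smul, φ.map_smul (ε r), smul_eq_mul] at h2
      exact sub_eq_zero.1 h2
    have h3 := hu (fun γ => φ (δ γ)) (fun γ γ' => by rw [hδ, map_add, hφs])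
      (hφ (Submodule.mem_sup_left (Submodule.mem_span_singleton_self _)))
    let M : Submodule R ((Γ →₀ R) ⧸ W) :=
      { carrier := {y | φ y = 0}
        add_mem' := fun {a b} ha hb => by
          simp only [Set.mem_ofPred_eq] at ha hb ⊢
          rw [map_add, ha, hb, add_zero]
        zero_mem' := map_zero φ
        smul_mem' := fun r y hy => by
          simp only [Set.mem_ofPred_eq] at hy ⊢
          rw [hφs, hy, mul_zero] }
    exact hφx (hgen M h3 x)
  obtain ⟨Δ, hΔ, hΔ'⟩ := Submodule.exists_sub_one_mem_and_smul_le_of_fg_of_le_sup hfg le_rfl hle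
  refine ⟨Δ, ?_, fun γ => ?_⟩
  · rw [RingHom.mem_ker, map_sub, map_one] at hΔ
    exact sub_eq_zero.1 hΔ
  · obtain ⟨r, hr⟩ := Submodule.mem_span_singleton.1
      (hΔ' (Submodule.smul_mem_pointwise_smul (δ γ) Δ ⊤ Submodule.mem_top))
    refine ⟨r, fun N _ _ a ha => ?_⟩
    have hW : W ≤ LinearMap.ker (Finsupp.linearCombination R a) := by
      refine Submodule.span_le.2 ?_
      rintro _ ⟨p, rfl⟩
      simp only [SetLike.mem_coe, LinearMap.mem_ker, map_sub, map_add, map_smul,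
        Finsupp.linearCombination_single, one_smul, ha, sub_self]
    have hF : ∀ x, W.liftQ _ hW (δ x) = a x := fun x => by
      simp only [δ, Submodule.mkQ_apply, Submodule.liftQ_apply, Finsupp.linearCombination_single,
        one_smul]
    have h2 := congrArg (W.liftQ _ hW) hr
    rw [map_smul, map_smul, hF, hF] at h2
    exact h2.symm

/-- The exponential series as a character of the additive group. -/
def AlgLine_exp : Multiplicative ℂ →* PowerSeries ℂ where
  toFun z := PowerSeries.rescale z.toAdd (PowerSeries.exp ℂ)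
  map_one' := by simp
  map_mul' x y := by rw [toAdd_mul, PowerSeries.exp_mul_exp_eq_exp_add]

theorem AlgLine_coeff (z : ℂ) (n : ℕ) :
    PowerSeries.coeff n (AlgLine_exp (Multiplicative.ofAdd z)) = z ^ n / (n.factorial : ℂ) := by
  simp only [AlgLine_exp, MonoidHom.coe_mk, OneHom.coe_mk, toAdd_ofAdd, PowerSeries.coeff_rescale,
    PowerSeries.coeff_exp]
  simp [div_eq_mul_inv]

theorem AlgLine_inj (Δ : AddMonoidAlgebra ℂ ℂ)
    (h : AddMonoidAlgebra.lift ℂ (PowerSeries ℂ) ℂ AlgLine_exp Δ = 0) : Δ = 0 := by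
  have hli : LinearIndependent ℂ fun z : ℂ => (powersHom ℂ z : Multiplicative ℕ → ℂ) :=
    (linearIndependent_monoidHom (Multiplicative ℕ) ℂ).comp _ (powersHom ℂ).injective
  have h0 : Δ.coeff = 0 := by
    refine linearIndependent_iff.1 hli _ (funext fun n => ?_)
    have h1 := congrArg (PowerSeries.coeff n.toAdd) h
    rw [AddMonoidAlgebra.lift_apply, Finsupp.sum, map_sum, map_zero] at h1
    simp only [map_smul, AlgLine_coeff, smul_eq_mul, ← mul_div_assoc] at h1
    rw [← Finset.sum_div, div_eq_zero_iff] at h1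
    rw [Finsupp.linearCombination_apply, Finsupp.sum, Finset.sum_apply]
    simpa [Nat.factorial_ne_zero] using h1
  exact AddMonoidAlgebra.ext h0

theorem line [Group.FG Γ] (hc : HB cc) (hm : MaxB Γ) (h : Hm Γ) (h0 : h ≠ 0) :
    ∃ K : ℕ, ∀ a : ℕ → Γ → ℂ, (∀ l ≤ K, ∀ γ γ', a l (γ * γ') = a l γ +
      ∑ i ∈ Finset.range (l + 1), h (Additive.ofMul γ) ^ i / (i.factorial : ℂ) * a (l - i) γ') →
      ∃ r : ℂ, ∀ γ, a 0 γ = r * h (Additive.ofMul γ) := by
  obtain ⟨g, hg⟩ : ∃ g : Γ, h (Additive.ofMul g) ≠ 0 := by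
    by_contra hcon
    push Not at hcon
    exact h0 (AddMonoidHom.ext fun x => hcon (Additive.toMul x))
  obtain ⟨ε, hε⟩ := line_char hc hm h hg
  let c : Γ →* Multiplicative ℂ :=
    { toFun := fun γ => Multiplicative.ofAdd (h (Additive.ofMul γ))
      map_one' := by simp
      map_mul' := fun x y => by rw [ofMul_mul, map_add, ofAdd_add] }
  let χ : Γ →* AddMonoidAlgebra ℂ ℂ := (AddMonoidAlgebra.of ℂ ℂ).comp c
  obtain ⟨Δ, hΔ, hr⟩ := line_ann χ (AddMonoidAlgebra.lift ℂ ℂ ℂ ε) g fun u hu => hε u fun γ γ' => by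
    rw [hu, MonoidHom.comp_apply, AddMonoidAlgebra.lift_of]
    rfl
  let ρ := AddMonoidAlgebra.lift ℂ (PowerSeries ℂ) ℂ AlgLine_exp
  have hρ : ρ Δ ≠ 0 := fun h1 => by
    rw [AlgLine_inj Δ h1, map_zero] at hΔ
    exact zero_ne_one hΔ
  have hχ : ∀ γ n, PowerSeries.coeff n (ρ (χ γ)) =
      h (Additive.ofMul γ) ^ n / (n.factorial : ℂ) := fun γ n => by
    rw [MonoidHom.comp_apply, AddMonoidAlgebra.lift_of]
    exact AlgLine_coeff _ n
  refine ⟨(ρ Δ).order.toNat + 1, fun a ha => ⟨a 0 g / h (Additive.ofMul g), fun γ => ?_⟩⟩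
  obtain ⟨r, hr⟩ := hr γ
  let I : Ideal (PowerSeries ℂ) := Ideal.span {PowerSeries.X ^ ((ρ Δ).order.toNat + 2)}
  let A : Γ → PowerSeries ℂ := fun x => PowerSeries.mk fun l => a l x
  have h1 := hr (AddMonoidAlgebra ℂ ℂ) (fun x => χ x - 1) fun x y => by
    rw [map_mul, smul_eq_mul]
    ring
  have h2 : Ideal.Quotient.mk I (ρ Δ * A γ) = Ideal.Quotient.mk I (ρ r * A g) := by
    let _ : Module (AddMonoidAlgebra ℂ ℂ) (PowerSeries ℂ ⧸ I) :=
      Module.compHom _ ((Ideal.Quotient.mk I).comp ρ.toRingHom)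
    refine hr (PowerSeries ℂ ⧸ I) (fun x => Ideal.Quotient.mk I (A x)) fun x y => ?_
    change _ = Ideal.Quotient.mk I (A x + ρ (χ x) * A y)
    rw [Ideal.Quotient.eq, Ideal.mem_span_singleton, PowerSeries.X_pow_dvd_iff]
    intro m hm
    rw [map_sub, map_add, PowerSeries.coeff_mul,
      Finset.Nat.sum_antidiagonal_eq_sum_range_succ_mk]
    simp only [A, PowerSeries.coeff_mk, hχ]
    rw [ha m (by omega), sub_self]
  rw [Ideal.Quotient.eq, Ideal.mem_span_singleton] at h2
  have h3 := congrArg ρ h1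
  simp only [smul_eq_mul, map_mul, map_sub, map_one] at h3
  have h4 : PowerSeries.X ^ (ρ Δ).order.toNat * PowerSeries.X ^ 2 ∣
      PowerSeries.X ^ (ρ Δ).order.toNat * ((ρ Δ).divXPowOrder *
        (A γ * (ρ (χ g) - 1) - (ρ (χ γ) - 1) * A g)) := by
    rw [← mul_assoc, PowerSeries.X_pow_order_mul_divXPowOrder, ← pow_add]
    convert h2.mul_right (ρ (χ g) - 1) using 1
    linear_combination (-(A g)) * h3
  have h5 : IsUnit (ρ Δ).divXPowOrder := by
    rw [PowerSeries.isUnit_iff_constantCoeff, isUnit_iff_ne_zero]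
    exact PowerSeries.constantCoeff_divXPowOrder_eq_zero_iff.not.2 hρ
  rw [mul_dvd_mul_iff_left (pow_ne_zero _ PowerSeries.X_ne_zero), h5.dvd_mul_left,
    PowerSeries.X_pow_dvd_iff] at h4
  have h6 := h4 1 (by norm_num)
  rw [map_sub, PowerSeries.coeff_one_mul, PowerSeries.coeff_one_mul] at h6
  simp only [← PowerSeries.coeff_zero_eq_constantCoeff_apply, map_sub, hχ, A,
    PowerSeries.coeff_mk, PowerSeries.coeff_one] at h6
  simp at h6
  field_simp
  linear_combination h6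

end SX4
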