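import Pool.Agent.P.MP_0a0487_an.SX.AlgDefs

/-! The logarithmic embedding of the roots of an integral polynomial. -/

set_option autoImplicit false
set_option linter.unusedSectionVars false

noncomputable section

namespace SX4

open Polynomial

theorem AlgLog_root {b : ℕ} {P : ℤ[X]} {μ : Fin b → ℂ}
    (hμ : P.map (Int.castRingHom ℂ) = ∏ i, (X - C (μ i))) (z : ℂ) :
    aeval z P = 0 ↔ ∃ j, z = μ j := by
  rw [aeval_def, ← eval_map, algebraMap_int_eq, hμ, eval_prod, Finset.prod_eq_zero_iff]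
  simp only [Finset.mem_univ, true_and, eval_sub, eval_X, eval_C, sub_eq_zero]

theorem AlgLog_field {b : ℕ} {P : ℤ[X]} (hP : P.Monic) {μ : Fin b → ℂ}
    (hμ : P.map (Int.castRingHom ℂ) = ∏ i, (X - C (μ i))) :
    ∃ (K : Type) (_ : Field K) (_ : NumberField K) (_ : IsGalois ℚ K) (e : K →+* ℂ)
      (m : Fin b → K), (∀ i, e (m i) = μ i) ∧ (∀ i, IsIntegral ℤ (m i)) ∧
        ∀ (φ : K →+* ℂ) (i : Fin b), ∃ j, φ (m i) = μ j := by
  let p : ℚ[X] := P.map (algebraMap ℤ ℚ)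
  let K := IntermediateField.adjoin ℚ (p.rootSet ℂ)
  have h1 : p.IsSplittingField ℚ K :=
    IntermediateField.adjoin_rootSet_isSplittingField (IsAlgClosed.splits _)
  have h2 : FiniteDimensional ℚ K := IsSplittingField.finiteDimensional K p
  have h3 : Normal ℚ K := Normal.of_isSplittingField p
  have h4 : ∀ i, μ i ∈ K := fun i => IntermediateField.subset_adjoin _ _ (by
    rw [mem_rootSet, aeval_map_algebraMap, AlgLog_root hμ]
    exact ⟨(hP.map _).ne_zero, i, rfl⟩)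
  have h5 : ∀ i, aeval (⟨μ i, h4 i⟩ : K) P = 0 := fun i => (algebraMap K ℂ).injective (by
    rw [← aeval_algebraMap_apply, map_zero, AlgLog_root hμ]
    exact ⟨i, rfl⟩)
  refine ⟨K, inferInstance, { }, { }, algebraMap K ℂ, fun i => ⟨μ i, h4 i⟩, fun i => rfl,
    fun i => ⟨P, hP, h5 i⟩, fun φ i => (AlgLog_root hμ _).1 ?_⟩
  have := aeval_algHom_apply φ.toIntAlgHom (⟨μ i, h4 i⟩ : K) P
  rwa [h5, map_zero] at this

theorem AlgLog_rat {K : Type} [Field K] [NumberField K] [IsGalois ℚ K] {β : K} (h0 : β ≠ 0)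
    (h1 : IsIntegral ℤ β) (h2 : IsIntegral ℤ β⁻¹) (h : ∀ σ : K ≃ₐ[ℚ] K, σ β = β) (φ : K →+* ℂ) :
    ‖φ β‖ = 1 := by
  obtain ⟨q, rfl⟩ := (IsGalois.mem_range_algebraMap_iff_fixed β).2 h
  rw [← map_inv₀] at h2
  obtain ⟨a, rfl⟩ := IsIntegrallyClosed.isIntegral_iff.1
    ((isIntegral_algebraMap_iff (algebraMap ℚ K).injective).1 h1)
  obtain ⟨c, hc⟩ := IsIntegrallyClosed.isIntegral_iff.1
    ((isIntegral_algebraMap_iff (algebraMap ℚ K).injective).1 h2)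
  have h3 : a * c = 1 := (algebraMap ℤ ℚ).injective_int (by
    rw [map_mul, hc, mul_inv_cancel₀ fun e => h0 (by rw [e, map_zero]), map_one])
  rcases Int.eq_one_or_neg_one_of_mul_eq_one h3 with rfl | rfl <;> simp

theorem exists_log {b : ℕ} (hb : 0 < b) (P : ℤ[X]) (hP : P.Monic) (μ : Fin b → ℂ)
    (hμ : P.map (Int.castRingHom ℂ) = ∏ i, (X - C (μ i))) (h1 : ∏ i, μ i = 1) :
    ∃ (ι : Type) (_ : Fintype ι) (x : Fin b → EuclideanSpace ℝ ι),
      (∀ n : Fin b → ℤ, ∑ i, n i • x i = 0 ↔ IsOfFinOrder (∏ i, μ i ^ n i)) ∧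
      ∃ O : Finset (Fin b), O.Nonempty ∧ ∑ j ∈ O, x j = 0 ∧ ∀ i ∈ O, ∀ j ∈ O, ‖x i‖ = ‖x j‖ := by
  classical
  obtain ⟨K, _, _, _, e, m, hm, hi, hφ⟩ := AlgLog_field hP hμ
  have h2 : ∏ i, m i = 1 := e.injective (by rw [map_prod, map_one, ← h1]; simp only [hm])
  have h0 : ∀ i, m i ≠ 0 := fun i =>
    Finset.prod_ne_zero_iff.1 (h2 ▸ one_ne_zero) i (Finset.mem_univ i)
  have hi' : ∀ i, IsIntegral ℤ (m i)⁻¹ := fun i => by
    rw [← eq_inv_of_mul_eq_one_right ((Finset.mul_prod_erase _ m (Finset.mem_univ i)).trans h2)]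
    exact IsIntegral.prod _ fun j _ => hi j
  have hn : ∀ (φ : K →+* ℂ) (i : Fin b), ‖φ (m i)‖ ≠ 0 := fun φ i =>
    norm_ne_zero_iff.2 ((map_ne_zero φ).2 (h0 i))
  refine ⟨K →+* ℂ, inferInstance, fun i => WithLp.toLp 2 fun φ => Real.log ‖φ (m i)‖,
    fun n => ?_, ?_⟩
  · have e1 : ∏ i, μ i ^ n i = e.toMonoidHom (∏ i, m i ^ n i) := by
      change _ = e _
      simp only [map_prod, map_zpow₀, hm]
    have e2 : ∀ φ : K →+* ℂ, (∑ i, n i • (WithLp.toLp 2 fun φ : K →+* ℂ => Real.log ‖φ (m i)‖ :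
        EuclideanSpace ℝ (K →+* ℂ))) φ = Real.log ‖φ (∏ i, m i ^ n i)‖ := fun φ => by
      rw [map_prod, norm_prod, Real.log_prod fun i _ => by
        rw [map_zpow₀, norm_zpow]
        exact zpow_ne_zero _ (hn φ i)]
      simp [Real.log_zpow]
    rw [e1, Function.Injective.isOfFinOrder_iff e.injective]
    refine ⟨fun h => ?_, fun h => ?_⟩
    · obtain ⟨k, hk, h3⟩ := NumberField.Embeddings.pow_eq_one_of_norm_eq_one K ℂ
        (x := ∏ i, m i ^ n i) (IsIntegral.prod _ fun i _ => by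
          rcases n i with k | k
          · rw [Int.ofNat_eq_natCast, zpow_natCast]
            exact (hi i).pow k
          · rw [zpow_negSucc, ← inv_pow]
            exact (hi' i).pow _) fun φ => Real.eq_one_of_pos_of_log_eq_zero
          (norm_pos_iff.2 ((map_ne_zero φ).2
            (Finset.prod_ne_zero_iff.2 fun i _ => zpow_ne_zero _ (h0 i)))) (by rw [← e2, h]; rfl)
      exact isOfFinOrder_iff_pow_eq_one.2 ⟨k, hk, h3⟩
    · ext φ
      have h3 : ‖φ (∏ i, m i ^ n i)‖ = 1 := (φ.toMonoidHom.isOfFinOrder h).norm_eq_one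
      rw [e2, h3, Real.log_one]
      rfl
  · have : Nonempty (Fin b) := ⟨⟨0, hb⟩⟩
    let S : Finset K := Finset.univ.image fun σ : K ≃ₐ[ℚ] K => σ (m ⟨0, hb⟩)
    have hS : ∀ β, β ∈ S ↔ ∃ σ : K ≃ₐ[ℚ] K, σ (m ⟨0, hb⟩) = β := fun β => by simp [S]
    have hg : ∀ β ∈ S, m (Function.invFun m β) = β := fun β hβ => by
      obtain ⟨σ, rfl⟩ := (hS β).1 hβ
      obtain ⟨j, hj⟩ := hφ (e.comp σ.toRingEquiv.toRingHom) ⟨0, hb⟩
      exact Function.invFun_eq ⟨j, e.injective ((hm j).trans hj.symm)⟩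
    have key : ∀ i ∈ S.image (Function.invFun m), ∃ σ : K ≃ₐ[ℚ] K, σ (m ⟨0, hb⟩) = m i :=
      fun i hi => by
        obtain ⟨β, hβ, rfl⟩ := Finset.mem_image.1 hi
        rw [hg β hβ]
        exact (hS β).1 hβ
    have hN : ∀ i ∈ S.image (Function.invFun m),
        ‖(WithLp.toLp 2 fun φ : K →+* ℂ => Real.log ‖φ (m i)‖ : EuclideanSpace ℝ (K →+* ℂ))‖ =
        ‖(WithLp.toLp 2 fun φ : K →+* ℂ => Real.log ‖φ (m ⟨0, hb⟩)‖ :
          EuclideanSpace ℝ (K →+* ℂ))‖ := fun i hi => by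
      obtain ⟨σ, hσ⟩ := key i hi
      rw [EuclideanSpace.norm_eq, EuclideanSpace.norm_eq, ← hσ]
      congr 1
      exact Fintype.sum_equiv ⟨fun φ => φ.comp σ.toRingEquiv.toRingHom,
        fun φ => φ.comp σ.symm.toRingEquiv.toRingHom, fun φ => by ext; simp,
        fun φ => by ext; simp⟩ _ _ fun φ => rfl
    refine ⟨S.image (Function.invFun m), Finset.Nonempty.image ⟨_, (hS _).2 ⟨1, rfl⟩⟩ _, ?_,
      fun i hi j hj => (hN i hi).trans (hN j hj).symm⟩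
    have e3 : ∏ j ∈ S.image (Function.invFun m), m j = ∏ β ∈ S, β := by
      rw [Finset.prod_image fun β hβ γ hγ h => by rw [← hg β hβ, h, hg γ hγ]]
      exact Finset.prod_congr rfl hg
    ext φ
    have h3 : ‖φ (∏ j ∈ S.image (Function.invFun m), m j)‖ = 1 := by
      refine AlgLog_rat (Finset.prod_ne_zero_iff.2 fun i _ => h0 i)
        (IsIntegral.prod _ fun j _ => hi j) ?_ (fun τ => ?_) φ
      · rw [← Finset.prod_inv_distrib]
        exact IsIntegral.prod _ fun j _ => hi' j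
      · rw [e3, map_prod]
        refine Finset.prod_equiv τ.toEquiv (fun β => ?_) fun _ _ => rfl
        rw [hS, hS]
        exact ⟨fun ⟨σ, h⟩ => ⟨τ * σ, congrArg τ h⟩,
          fun ⟨σ, h⟩ => ⟨τ⁻¹ * σ, τ.symm_apply_eq.2 h⟩⟩
    have h4 := congrArg Real.log h3
    rw [map_prod, norm_prod, Real.log_prod fun i _ => hn φ i, Real.log_one] at h4
    simpa using h4

theorem kron {b : ℕ} (P : ℤ[X]) (hP : P.Monic) (μ : Fin b → ℂ)
    (hμ : P.map (Int.castRingHom ℂ) = ∏ i, (X - C (μ i))) (h : ∀ i, ‖μ i‖ = 1) (i : Fin b) :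
    IsOfFinOrder (μ i) := by
  obtain ⟨K, _, _, _, e, m, hm, hi, hφ⟩ := AlgLog_field hP hμ
  obtain ⟨k, hk, h3⟩ := NumberField.Embeddings.pow_eq_one_of_norm_eq_one K ℂ (hi i) fun φ => by
    obtain ⟨j, hj⟩ := hφ φ i
    rw [hj, h]
  exact isOfFinOrder_iff_pow_eq_one.2 ⟨k, hk, by rw [← hm, ← map_pow, h3, map_one]⟩

end SX4
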