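import Pool.Agent.P.MP_0a0487_an.SX.AlgSpB

/-! The isotropic subspace attached to an eigenvector. -/

set_option autoImplicit false
set_option linter.unusedSectionVars false

noncomputable section

namespace SX4

variable {V0 V1 V2 : Type} [AddCommGroup V0] [Module ℂ V0] [AddCommGroup V1] [Module ℂ V1]
  [AddCommGroup V2] [Module ℂ V2] (c : Cx V0 V1 V2)

namespace Cx

theorem tw_anti (a b : V1) : c.w a b + c.w b a = 0 := by
  have := c.w_self (a + b)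
  simp only [map_add, LinearMap.add_apply, c.w_self, zero_add, add_zero] at this
  rw [add_comm, this]

/-- Towers of length `k`. -/
def Tw (θ : c.Z1) (k : ℕ) : Submodule ℂ (ℕ → V1) where
  carrier := {η | c.d1 (η 0) = 0 ∧ ∀ l < k, c.d1 (η (l + 1)) + c.w θ (η l) = 0}
  add_mem' := fun {x y} hx hy => ⟨by simp [hx.1, hy.1], fun l hl => by
    rw [Pi.add_apply, Pi.add_apply, map_add, map_add, add_add_add_comm, hx.2 l hl, hy.2 l hl,
      add_zero]⟩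
  zero_mem' := ⟨by simp, fun l _ => by simp⟩
  smul_mem' := fun a x hx => ⟨by simp [hx.1], fun l hl => by
    rw [Pi.smul_apply, Pi.smul_apply, map_smul, map_smul, ← smul_add, hx.2 l hl, smul_zero]⟩

variable {c} {θ : c.Z1} {k : ℕ}

theorem Tw_z2 (η : c.Tw θ k) : c.w θ (η.1 k) ∈ c.Z2 := by
  cases k with
  | zero => exact c.w_mem _ _ 0 θ.2 (by rw [η.2.1, map_zero])
  | succ k =>
    exact c.w_mem _ _ (-η.1 k) θ.2 (by rw [map_neg, eq_neg_iff_add_eq_zero, η.2.2 k k.lt_succ_self])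

theorem Tw_le : c.Tw θ (k + 1) ≤ c.Tw θ k := fun _ h => ⟨h.1, fun l hl => h.2 l (by omega)⟩

variable (θ k)

/-- One term of a tower. -/
def twP (l : ℕ) : c.Tw θ k →ₗ[ℂ] V1 := LinearMap.proj l ∘ₗ (c.Tw θ k).subtype

/-- The class of the first term. -/
def twA : c.Tw θ k →ₗ[ℂ] c.H1 :=
  Submodule.mkQ _ ∘ₗ LinearMap.codRestrict c.Z1 (twP θ k 0) fun η => η.2.1

/-- The obstruction class. -/
def twB : c.Tw θ k →ₗ[ℂ] c.H2 :=
  Submodule.mkQ _ ∘ₗ LinearMap.codRestrict c.Z2 (c.w θ ∘ₗ twP θ k k) Tw_z2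

/-- The obstruction classes of shorter towers. -/
def twL : Submodule ℂ c.H2 := (LinearMap.ker (twP θ k 0)).map (twB θ k)

variable {θ k}

theorem twA_eq {k' : ℕ} {η : c.Tw θ k} {ζ : c.Tw θ k'} :
    twA θ k η = twA θ k' ζ ↔ ∃ s, c.d0 s = η.1 0 - ζ.1 0 := Submodule.Quotient.eq _

theorem twB_eq {k' : ℕ} {η : c.Tw θ k} {ζ : c.Tw θ k'} :
    twB θ k η = twB θ k' ζ ↔ ∃ a, c.d1 a = c.w θ (η.1 k) - c.w θ (ζ.1 k') :=
  Submodule.Quotient.eq _

theorem twL_zero : twL θ 0 = ⊥ := by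
  rw [eq_bot_iff]
  rintro _ ⟨η, h, rfl⟩
  rw [Submodule.mem_bot, ← map_zero (twB θ 0), twB_eq]
  exact ⟨0, by simp [show η.1 0 = 0 from h]⟩

theorem twL_succ : twL θ (k + 1) = LinearMap.range (twB θ k) := by
  refine le_antisymm ?_ ?_
  · rintro _ ⟨η, h, rfl⟩
    refine ⟨⟨fun l => η.1 (l + 1), ?_, fun l hl => η.2.2 (l + 1) (by omega)⟩, rfl⟩
    simpa [show η.1 0 = 0 from h] using η.2.2 0 (by omega)
  · rintro _ ⟨η, rfl⟩
    have h1 : (fun l => l.casesOn 0 η.1 : ℕ → V1) ∈ c.Tw θ (k + 1) := ⟨map_zero _, fun l hl => by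
      cases l with
      | zero => simpa using η.2.1
      | succ l => exact η.2.2 l (by omega)⟩
    exact ⟨⟨_, h1⟩, rfl, rfl⟩

theorem tw_iff (η : c.Tw θ k) :
    twA θ k η ∈ LinearMap.range (twA θ (k + 1)) ↔ twB θ k η ∈ twL θ k := by
  constructor
  · rintro ⟨ζ, h⟩
    obtain ⟨s, hs⟩ := twA_eq.1 h.symm
    have h1 : (fun l => l.casesOn (c.d0 s) fun l => l.casesOn (c.M1 s θ) fun _ => 0 : ℕ → V1) ∈
        c.Tw θ (k + 1) := ⟨c.d1_d0 s, fun l _ => by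
      rcases l with _ | _ | l
      · simp [c.d1_M, show c.d1 θ = 0 from θ.2, c.tw_anti]
      · simp [c.w_M, c.w_self]
      · simp⟩
    obtain ⟨ξ, h2, h3⟩ : ∃ ξ ∈ c.Tw θ (k + 1), ξ 0 = η.1 0 := ⟨_, add_mem ζ.2 h1, by simp [hs]⟩
    refine ⟨η - ⟨ξ, Tw_le h2⟩, sub_eq_zero.2 h3.symm, twB_eq.2 ⟨ξ (k + 1), ?_⟩⟩
    rw [eq_neg_of_add_eq_zero_left (h2.2 k k.lt_succ_self)]
    simp
  · rintro ⟨ζ, h0, h⟩
    obtain ⟨a, ha⟩ := twB_eq.1 h
    refine ⟨⟨Function.update (η - ζ).1 (k + 1) a, ?_, fun l hl => ?_⟩, twA_eq.2 ⟨0, ?_⟩⟩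
    · simpa using (η - ζ).2.1
    · rw [Function.update_of_ne (a := l) (by omega)]
      rcases Nat.lt_succ_iff_lt_or_eq.1 hl with hl | rfl
      · rw [Function.update_of_ne (by omega)]
        exact (η - ζ).2.2 l hl
      · simp [ha]
    · simp [show ζ.1 0 = 0 from h0]

theorem twL_iso : c.Iso (twL θ k) := by
  rintro x y ⟨η, -, hx⟩ ⟨ζ, -, hy⟩
  obtain ⟨a, ha⟩ : ∃ a, c.d1 a = c.w θ (η.1 k) - x := (Submodule.Quotient.eq _).1 hx
  obtain ⟨a', ha'⟩ : ∃ a, c.d1 a = c.w θ (ζ.1 k) - y := (Submodule.Quotient.eq _).1 hy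
  rw [← sub_sub_cancel (c.w θ (ζ.1 k)) y, ← ha', map_sub, c.B_d _ x.2, sub_zero, c.B_symm,
    ← sub_sub_cancel (c.w θ (η.1 k)) x, ← ha, map_sub, c.B_d _ (Tw_z2 ζ), c.B_w, sub_zero]

theorem tw_wpow (g : V0) (u x : V1) (a : ℕ) :
    c.w u ((c.M1 g ^ a) x) = (c.M2 g ^ a) (c.w u x) := by
  induction a with
  | zero => rfl
  | succ a ih => rw [pow_succ', pow_succ', Module.End.mul_apply, c.w_M, ih, Module.End.mul_apply]

theorem tw_dpow (g : V0) (x : V1) (a : ℕ) : c.d1 ((c.M1 g ^ (a + 1)) x) =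
    ((a + 1 : ℕ) : ℂ) • c.w (c.d0 g) ((c.M1 g ^ a) x) + (c.M2 g ^ (a + 1)) (c.d1 x) := by
  induction a with
  | zero => simp [c.d1_M]
  | succ a ih =>
    rw [pow_succ' _ (a + 1), Module.End.mul_apply, c.d1_M, ih, map_add, map_smul, ← c.w_M,
      pow_succ' (c.M2 g) (a + 1), pow_succ' (c.M1 g) a, Nat.cast_succ (a + 1), add_smul, one_smul]
    simp only [Module.End.mul_apply]
    abel

/-- The pull-back followed by a gauge transformation. -/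
def twG (f : c.Mor) (g : V0) (l : ℕ) : (ℕ → V1) →ₗ[ℂ] V1 :=
  ∑ a ∈ Finset.range (l + 1),
    (a.factorial : ℂ)⁻¹ • ((c.M1 g ^ a) ∘ₗ f.F1 ∘ₗ LinearMap.proj (l - a))

theorem twG_d (f : c.Mor) {g : V0} {μ : ℂ} (h : f.F1 θ = μ • (θ : V1) + c.d0 g) (η : ℕ → V1)
    (h0 : c.d1 (η 0) = 0) (l : ℕ) :
    c.d1 (twG f g (l + 1) η) + μ • c.w θ (twG f g l η) = ∑ a ∈ Finset.range (l + 1),
      (a.factorial : ℂ)⁻¹ • (c.M2 g ^ a) (f.F2 (c.d1 (η (l - a + 1)) + c.w θ (η (l - a)))) := by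
  have h1 : ∀ (a : ℕ) (x : V1), (((a + 1).factorial : ℂ))⁻¹ • c.d1 ((c.M1 g ^ (a + 1)) x) =
      (a.factorial : ℂ)⁻¹ • c.w (c.d0 g) ((c.M1 g ^ a) x) +
        (((a + 1).factorial : ℂ))⁻¹ • (c.M2 g ^ (a + 1)) (c.d1 x) := fun a x => by
    rw [tw_dpow, smul_add, smul_smul, Nat.factorial_succ, Nat.cast_mul, mul_inv, mul_right_comm,
      inv_mul_cancel₀ (Nat.cast_ne_zero.2 a.succ_ne_zero), one_mul]
  have h2 : c.d1 (twG f g (l + 1) η) = ∑ a ∈ Finset.range (l + 1),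
      (a.factorial : ℂ)⁻¹ • c.w (c.d0 g) ((c.M1 g ^ a) (f.F1 (η (l - a)))) +
      ∑ a ∈ Finset.range (l + 1 + 1),
        (a.factorial : ℂ)⁻¹ • (c.M2 g ^ a) (c.d1 (f.F1 (η (l + 1 - a)))) := by
    simp only [twG, LinearMap.sum_apply, LinearMap.smul_apply, LinearMap.comp_apply,
      LinearMap.proj_apply, map_sum, map_smul]
    rw [Finset.sum_range_succ', Finset.sum_range_succ' _ (l + 1)]
    simp only [h1, Finset.sum_add_distrib, Nat.add_sub_add_right, add_assoc, pow_zero,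
      Module.End.one_apply]
  rw [h2, Finset.sum_range_succ _ (l + 1), Nat.sub_self, ← f.F_d1, h0, map_zero, map_zero,
    smul_zero, add_zero]
  simp only [twG, LinearMap.sum_apply, LinearMap.smul_apply, LinearMap.comp_apply,
    LinearMap.proj_apply, map_sum, map_smul, Finset.smul_sum, ← Finset.sum_add_distrib]
  refine Finset.sum_congr rfl fun a ha => ?_
  rw [map_add, f.F_d1, f.F_w, map_add, ← tw_wpow g (f.F1 θ), h,
    show l + 1 - a = l - a + 1 by have := Finset.mem_range.1 ha; omega]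
  simp only [map_add, map_smul, LinearMap.add_apply, LinearMap.smul_apply]
  module

theorem exists_tw (f : c.Mor) {μ : ℂ} (hμ : μ ≠ 0)
    (he : f.h1 (Submodule.Quotient.mk θ) = μ • (Submodule.Quotient.mk θ : c.H1)) (k : ℕ) :
    ∃ Φ : c.Tw θ k →ₗ[ℂ] c.Tw θ k, (∀ η, f.h1 (twA θ k η) = twA θ k (Φ η)) ∧
      ∀ η, f.h2 (twB θ k η) = μ ^ (k + 1) • twB θ k (Φ η) := by
  obtain ⟨g, hg⟩ : ∃ g, c.d0 g = f.F1 θ - μ • (θ : V1) :=
    (Submodule.Quotient.eq (x := f.z1 θ) (y := μ • θ) _).1 he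
  have h : f.F1 θ = μ • (θ : V1) + c.d0 g := by rw [hg, add_sub_cancel]
  have h0 : ∀ η, twG f g 0 η = f.F1 (η 0) := fun η => by simp [twG]
  refine ⟨(LinearMap.pi fun l => μ⁻¹ ^ l • twG f g l).restrict fun η hη => ⟨?_, fun l hl => ?_⟩,
    fun η => ?_, fun η => ?_⟩
  · simp [h0, ← f.F_d1, hη.1]
  · have h1 := twG_d f h η hη.1 l
    rw [Finset.sum_eq_zero fun a _ => by rw [hη.2 _ (by omega)]; simp] at h1
    have h2 := congrArg (μ⁻¹ ^ (l + 1) • ·) h1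
    simp only [smul_add, smul_smul, smul_zero] at h2
    rw [pow_succ μ⁻¹ l, mul_assoc, inv_mul_cancel₀ hμ, mul_one, ← pow_succ] at h2
    simpa using h2
  · refine (Submodule.Quotient.eq _).2 ⟨0, ?_⟩
    simp [Mor.z1, twP, h0]
  · have h1 := twG_d f h η η.2.1 k
    rw [Finset.sum_range_succ', Finset.sum_eq_zero fun a ha => by
      rw [η.2.2 _ (by have := Finset.mem_range.1 ha; omega)]; simp] at h1
    rw [← map_smul]
    refine (Submodule.Quotient.eq _).2 ⟨twG f g (k + 1) η - f.F1 (η.1 (k + 1)), ?_⟩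
    have h2 : μ ^ (k + 1) * μ⁻¹ ^ k = μ := by
      rw [pow_succ', mul_assoc, ← mul_pow, mul_inv_cancel₀ hμ, one_pow, mul_one]
    simp [f.F_d1] at h1
    simp [Mor.z2, twP, smul_smul, -inv_pow, h2, eq_sub_of_add_eq h1]
    abel

end Cx

theorem Cx.tower_sp (c : Cx V0 V1 V2) [FiniteDimensional ℂ c.H1] [FiniteDimensional ℂ c.H2]
    (f : c.Mor) (θ : c.Z1) {μ : ℂ} (hμ : μ ≠ 0) (h0 : (Submodule.Quotient.mk θ : c.H1) ≠ 0)
    (he : f.h1 (Submodule.Quotient.mk θ) = μ • (Submodule.Quotient.mk θ : c.H1)) (K : ℕ)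
    (hK : ∀ (η₀ : c.Z1) (η : ℕ → V1), η 0 = η₀ → (∀ l < K, c.d1 (η (l + 1)) + c.w θ (η l) = 0) →
      ∃ r : ℂ, (Submodule.Quotient.mk η₀ : c.H1) = r • (Submodule.Quotient.mk θ : c.H1))
    {S : Multiset ℂ} (hS : Sp f.h1 ⊤ S) :
    ∃ (R : Multiset (ℂ × ℕ)) (W : Submodule ℂ c.H2), (∀ r ∈ R, 1 ≤ r.2) ∧
      S = μ ::ₘ R.map Prod.fst ∧ c.Iso W ∧ Sp f.h2 W (tw μ R) := by
  have key : ∀ k, ∃ (R : Multiset (ℂ × ℕ)) (SZ : Multiset ℂ), (∀ r ∈ R, 1 ≤ r.2) ∧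
      Sp f.h1 (LinearMap.range (Cx.twA θ k)) SZ ∧ S = SZ + R.map Prod.fst ∧
      Sp f.h2 (Cx.twL θ k) (tw μ R) := fun k => by
    induction k with
    | zero =>
      refine ⟨0, S, by simp, ?_, by simp, ?_⟩
      · refine (LinearMap.range_eq_top (f := Cx.twA θ 0)).2 (fun x => ?_) ▸ hS
        obtain ⟨x, rfl⟩ := Submodule.Quotient.mk_surjective _ x
        exact ⟨⟨fun _ => x, x.2, fun _ h => absurd h (Nat.not_lt_zero _)⟩, rfl⟩
      · rw [Cx.twL_zero]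
        exact Sp.bot _
    | succ k ih =>
      obtain ⟨R, SZ, r1, r2, r3, r4⟩ := ih
      obtain ⟨Φ, p1, p2⟩ := Cx.exists_tw f hμ he k
      obtain ⟨Φ', p3, -⟩ := Cx.exists_tw f hμ he (k + 1)
      obtain ⟨SZ', s1⟩ := Sp.exi (u := f.h1) (W := LinearMap.range (Cx.twA θ (k + 1))) (by
        rintro _ ⟨η, rfl⟩
        exact ⟨_, (p3 η).symm⟩)
      obtain ⟨R', q1, q2⟩ := Sp.subq Φ _ _ _ p1 p2 (by
        rintro _ ⟨η, rfl⟩
        exact ⟨⟨η.1, Cx.Tw_le η.2⟩, rfl⟩) LinearMap.map_le_range Cx.tw_iff s1 r4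
      refine ⟨R + R'.map fun z => (z, k + 1), SZ', fun r hr => ?_, s1, ?_, ?_⟩
      · rcases Multiset.mem_add.1 hr with hr | hr
        · exact r1 r hr
        · obtain ⟨z, -, rfl⟩ := Multiset.mem_map.1 hr
          exact k.succ_pos
      · rw [r3, r2.unique q1]
        simp [add_comm, add_assoc]
      · rw [Cx.twL_succ]
        simpa [tw] using q2
  obtain ⟨R, SZ, r1, r2, r3, r4⟩ := key K
  refine ⟨R, _, r1, ?_, Cx.twL_iso, r4⟩
  have h1 : LinearMap.range (Cx.twA θ K) = Submodule.span ℂ {Submodule.Quotient.mk θ} := by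
    refine le_antisymm ?_ ((Submodule.span_singleton_le_iff_mem _ _).2 ?_)
    · rintro _ ⟨η, rfl⟩
      obtain ⟨r, hr⟩ := hK ⟨η.1 0, η.2.1⟩ η rfl η.2.2
      exact Submodule.mem_span_singleton.2 ⟨r, hr.symm⟩
    · have h2 : (fun l => l.casesOn θ fun _ => 0 : ℕ → V1) ∈ c.Tw θ K :=
        ⟨θ.2, fun l _ => by cases l <;> simp [c.w_self]⟩
      exact ⟨⟨_, h2⟩, rfl⟩
  rw [h1] at r2
  rw [r3, r2.unique (Sp.line h0 he), Multiset.singleton_add]

end SX4
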