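import Pool.Agent.P.MP_0a0487_an.SX.AlgFix
import Pool.Agent.P.MP_0a0487_an.SX.AlgLine
import Pool.Agent.P.MP_0a0487_an.SX.AlgTower
import Pool.Agent.P.MP_0a0487_an.SX.AlgCup
import Pool.Agent.P.MP_0a0487_an.SX.AlgLog
import Pool.Agent.P.MP_0a0487_an.SX.AlgComb

/-! The algebraic part: the first Betti number is four and the action on homology is hyperbolic.
BLOCK C. -/

set_option autoImplicit false
set_option linter.unusedSectionVars false

noncomputable section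

namespace SX4

open scoped ComplexOrder ContDiff
open Filter Topology Matrix

section

variable {V0 V1 V2 : Type} [AddCommGroup V0] [Module ℂ V0] [AddCommGroup V1] [Module ℂ V1]
  [AddCommGroup V2] [Module ℂ V2] {c : Cx V0 V1 V2} {Γ : Type} [Group Γ] (p : c.Per Γ)

theorem Cx.Per.mk_eq {x y : c.Z1} :
    (Submodule.Quotient.mk x : c.H1) = Submodule.Quotient.mk y ↔ p.per x = p.per y := by
  rw [Submodule.Quotient.eq, ← sub_eq_zero (a := p.per x), ← map_sub, p.ker]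
  rfl

theorem Cx.Per.exists_basis {b : ℕ} {cc : Γ → Fin b → ℤ} (hc : HB cc) :
    ∃ a : Fin b → c.Z1, (∀ i γ, p.per (a i) (Additive.ofMul γ) = cc γ i) ∧
      ∃ e : (Fin b → ℂ) ≃ₗ[ℂ] c.H1, ∀ v, e v = Submodule.Quotient.mk (∑ i, v i • a i) := by
  choose a ha using fun i => p.surj (AddMonoidHom.mk' (fun γ => (cc γ.toMul i : ℂ)) fun γ γ' => by
    simp [hc.mul])
  have h1 : ∀ i γ, p.per (a i) (Additive.ofMul γ) = cc γ i := fun i γ => by rw [ha]; rfl
  have h2 : ∀ (v : Fin b → ℂ) γ, p.per (∑ i, v i • a i) (Additive.ofMul γ) = ∑ i, v i * cc γ i :=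
    fun v γ => by simp [h1]
  refine ⟨a, h1, LinearEquiv.ofBijective (Submodule.mkQ _ ∘ₗ Fintype.linearCombination ℂ a)
    ⟨(injective_iff_map_eq_zero _).2 fun v hv => funext fun j => ?_, fun x => ?_⟩, fun v => rfl⟩
  · obtain ⟨γ, hγ⟩ := hc.surj (Pi.single j 1)
    have h3 := (p.mk_eq (x := ∑ i, v i • a i) (y := 0)).1 hv
    have h4 := h2 v γ
    rw [h3, hγ] at h4
    simpa [Pi.single_apply] using h4.symm
  · obtain ⟨x, rfl⟩ := Submodule.Quotient.mk_surjective _ x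
    obtain ⟨v, hv⟩ := hc.span (p.per x)
    exact ⟨v, p.mk_eq.2 (AddMonoidHom.ext fun γ => (h2 v γ.toMul).trans (hv γ.toMul).symm)⟩

end

theorem Cx.alg {V0 V1 V2 : Type} [AddCommGroup V0] [Module ℂ V0] [AddCommGroup V1] [Module ℂ V1]
    [AddCommGroup V2] [Module ℂ V2] (c : Cx V0 V1 V2) (hnd : c.ND) [FiniteDimensional ℂ c.H1]
    [FiniteDimensional ℂ c.H2] {Γ : Type} [Group Γ] [Group.FG Γ] (p : c.Per Γ) (f f' : c.Mor)
    (φ : MulAut Γ) (hf : p.Eqv f φ.toMonoidHom) (hf' : p.Eqv f' φ⁻¹.toMonoidHom)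
    {b : ℕ} {cc : Γ → Fin b → ℤ} (hc : HB cc) (b2 : 2 ≤ b) (b4 : b ≤ 4)
    (h2 : Module.finrank ℂ c.H2 + 2 = 2 * b) (hm : MaxB Γ) (A : Matrix (Fin b) (Fin b) ℤ)
    (hA : ∀ γ, cc (φ γ) = A *ᵥ cc γ) (hdet : A.det = 1) (L : ℕ → ℕ) (L0 : ∀ n, 1 ≤ n → 0 < L n)
    (hL : ∀ n, 1 ≤ n → (L n : ℂ) = 2 - LinearMap.trace ℂ _ (f.h1 ^ n) -
      LinearMap.trace ℂ _ (f'.h1 ^ n) + LinearMap.trace ℂ _ (f.h2 ^ n))
    (hd : ∀ n, 1 ≤ n → ∀ T : Subgroup Γ, T.Normal → T.FiniteIndex →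
      (∀ γ ∈ T, (φ ^ n) γ ∈ T) → fixCard ⇑(φ ^ n) T ∣ L n) :
    b = 4 ∧ HypM A ∧ ∀ n, 1 ≤ n → (L n : ℤ) = (1 - A ^ n).det := by
  obtain ⟨a, ha, e, he⟩ := p.exists_basis hc
  set M := A.map (Int.cast : ℤ → ℂ) with hM
  have hpow : ∀ n : ℕ, (A ^ n).map (Int.cast : ℤ → ℂ) = M ^ n := fun n =>
    map_pow (Int.castRingHom ℂ).mapMatrix A n
  have hdt : ∀ n : ℕ, (((1 - A ^ n).det : ℤ) : ℂ) = (1 - M ^ n).det := fun n => by
    rw [← hpow, Int.cast_det]
    congr 1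
    exact map_sub (Int.castRingHom ℂ).mapMatrix 1 (A ^ n) |>.trans (by rw [map_one]; rfl)
  obtain ⟨μ, m1, m2, m3, m4⟩ := exists_mu M
  have m5 : ∏ i, μ i = 1 := by rw [← m2, hM, ← Int.cast_det, hdet, Int.cast_one]
  have m6 : ∀ i, μ i ≠ 0 := fun i h0 =>
    zero_ne_one ((Finset.prod_eq_zero (Finset.mem_univ i) h0).symm.trans m5)
  have m7 : A.charpoly.map (Int.castRingHom ℂ) = ∏ i, (Polynomial.X - Polynomial.C (μ i)) := by
    rw [← m1, ← Matrix.charpoly_map]; rfl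
  have hAn : ∀ (n : ℕ) γ, cc ((φ ^ n) γ) = (A ^ n) *ᵥ cc γ := fun n => by
    induction n with
    | zero => simp
    | succ n ih => intro γ; rw [pow_succ', pow_succ', MulAut.mul_apply, hA, ih, mulVec_mulVec]
  have ht : ∀ i, ¬IsOfFinOrder (μ i) := fun i hi => by
    obtain ⟨n, hn, h1⟩ := isOfFinOrder_iff_pow_eq_one.1 hi
    refine fix_det hc (φ ^ n) (A ^ n) (hAn n) (L0 n hn) (hd n hn) (Int.cast_injective (α := ℂ) ?_)
    rw [hdt, m4, Finset.prod_eq_zero (Finset.mem_univ i) (by rw [h1, sub_self]), Int.cast_zero]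
  have hF : ∀ i, p.per (f.z1 (a i)) = p.per (∑ j, M i j • a j) := fun i =>
    AddMonoidHom.ext fun γ => (hf (a i) γ.toMul).trans <| by
      have h1 : ∀ j, p.per (a j) γ = cc γ.toMul j := fun j => ha j γ.toMul
      rw [ha]
      simp [hA, h1, hM, mulVec, dotProduct]
  have he1 : f.h1 = e.conjAlgEquiv ℂ (Matrix.toLin' Mᵀ) := by
    refine LinearMap.ext fun x => ?_
    obtain ⟨v, rfl⟩ := e.surjective x
    rw [LinearEquiv.conjAlgEquiv_apply, LinearMap.comp_apply, LinearMap.comp_apply,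
      LinearEquiv.coe_coe, LinearEquiv.coe_coe, e.symm_apply_apply, he, he]
    refine (p.mk_eq (x := f.z1 _)).2 ?_
    simp only [map_sum, map_smul, hF, toLin'_apply, mulVec, dotProduct, transpose_apply,
      Finset.sum_smul, Finset.smul_sum, smul_smul]
    rw [Finset.sum_comm]
    simp only [mul_comm]
  have s1 : Sp f.h1 ⊤ (Finset.univ.val.map μ) := Sp.top_iff.2 fun n => by
    rw [he1, ← map_pow, LinearMap.trace_map, ← Matrix.toLin'_pow,
      Matrix.trace_toLin'_eq, ← transpose_pow, trace_transpose, m3, Multiset.map_map]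
    rfl
  have s2 : Sp f'.h1 ⊤ ((Finset.univ.val.map μ).map (·⁻¹)) := s1.inv <| by
    refine LinearMap.ext fun x => ?_
    obtain ⟨x, rfl⟩ := Submodule.Quotient.mk_surjective _ x
    refine (p.mk_eq (x := f.z1 (f'.z1 x))).2 (AddMonoidHom.ext fun γ => ?_)
    refine (hf _ γ.toMul).trans ((hf' _ _).trans ?_)
    simp
  obtain ⟨S, hS⟩ : ∃ S, Sp f.h2 ⊤ S := Sp.exi fun _ _ => trivial
  have hSS : (b = 2 ∧ S = {1, 1}) ∨ (b = 4 ∧ S = lam2 μ) := by
    refine (c.cup_sp hnd f b4 h2 a M (fun i => ?_) μ m3 (fun ν hs hν n hn h => ?_) hS).elim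
      (fun hc2 => ?_) Or.inr
    · obtain ⟨g, hg⟩ := (p.ker (f.z1 (a i) - ∑ j, M i j • a j)).1 (by rw [map_sub, hF, sub_self])
      exact ⟨g, by rw [hg]; simp [Cx.Mor.z1]⟩
    · obtain ⟨z, hz⟩ := p.cup b a (fun i => ∑ j, ν i j • a j) (by simpa using hν)
      refine fix_cup hc (φ ^ n) (A ^ n) (hAn n) (L0 n hn) (hd n hn) ν hs (by rw [hpow, h]) z
        fun γ γ' => ?_
      simp [hz, ha]
    · obtain ⟨ι, _, x, hx, O, O1, O2, O3⟩ := exists_log (by omega) _ A.charpoly_monic μ m7 m5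
      refine comb b2 b4 μ m5 ht x hx O1 O2 O3 hc2 fun i => ?_
      obtain ⟨y, -, y0, hy⟩ := (s1.mem_iff (μ i)).1 (Multiset.mem_map_of_mem _ (Finset.mem_univ i))
      obtain ⟨θ, rfl⟩ := Submodule.Quotient.mk_surjective _ y
      obtain ⟨K, hK⟩ := line hc hm (p.per θ) fun h => y0 (p.mk_eq.2 (h.trans (map_zero _).symm))
      obtain ⟨R, W, r1, r2, r3, r4⟩ := c.tower_sp f θ (m6 i) y0 hy K (fun η₀ η h0 h => by
        obtain ⟨a', a1, a2⟩ := p.tower θ η₀ K η h0 h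
        obtain ⟨r, hr⟩ := hK a' a2
        refine ⟨r, p.mk_eq (y := r • θ).2 (AddMonoidHom.ext fun γ => ?_)⟩
        rw [map_smul]
        exact (a1 γ.toMul).symm.trans (hr γ.toMul)) s1
      refine ⟨R, r1, r2, (Multiset.eq_of_le_of_card_le (c.iso_le hnd f r3 r4 hS) ?_).symm⟩
      have := congrArg Multiset.card r2
      simp only [Multiset.card_map, Finset.card_val, Finset.card_univ, Fintype.card_fin,
        Multiset.card_cons] at this
      rw [hS.card, finrank_top]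
      simp only [tw, Multiset.card_add, Multiset.card_map]
      omega
  obtain ⟨k1, k2, k3⟩ := fin_comb μ m5 ht (kron _ A.charpoly_monic μ m7) A.trace
    (by simpa [hM, Matrix.trace] using (m3 1).symm) (fun i => by
      have h1 : Polynomial.aeval (μ i) A.charpoly = 0 := by
        rw [← Polynomial.eval_map_algebraMap, algebraMap_int_eq, m7, Polynomial.eval_prod]
        exact Finset.prod_eq_zero (Finset.mem_univ i) (by simp)
      have h3 := Polynomial.aeval_algHom_apply (starRingEnd ℂ).toIntAlgHom (μ i) A.charpoly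
      rw [h1, map_zero, ← Polynomial.eval_map_algebraMap, algebraMap_int_eq, m7,
        Polynomial.eval_prod, Finset.prod_eq_zero_iff] at h3
      obtain ⟨j, -, hj⟩ := h3
      exact ⟨j, (sub_eq_zero.1 (by simpa using hj)).symm⟩) hSS L L0 fun n hn => by
      rw [hL n hn, Sp.top_iff.1 s1, Sp.top_iff.1 s2, Sp.top_iff.1 hS, Multiset.map_map,
        Multiset.map_map, Multiset.map_map]
      rfl
  refine ⟨k1, fun z hz => ?_, fun n hn => Int.cast_injective (α := ℂ) ?_⟩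
  · rw [← hM, m1, Polynomial.isRoot_prod] at hz
    obtain ⟨i, -, hi⟩ := hz
    rw [← Polynomial.root_X_sub_C.1 hi]
    exact k2 i
  · rw [hdt, m4, ← k3 n hn, Int.cast_natCast]

end SX4
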