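import Pool.Agent.P.MP_0a0487_an.SX.CxDefs

/-! Multisets of eigenvalues. -/

set_option autoImplicit false

noncomputable section

namespace SX4

open Matrix

/-- `S` is the multiset of eigenvalues of `u` on the invariant subspace `W`. -/
def Sp {V : Type} [AddCommGroup V] [Module ℂ V] (u : V →ₗ[ℂ] V) (W : Submodule ℂ V)
    (S : Multiset ℂ) : Prop :=
  ∃ h : ∀ x ∈ W, u x ∈ W, ∀ n : ℕ, LinearMap.trace ℂ W (u.restrict h ^ n) = (S.map (· ^ n)).sum

/-- The products of two of the numbers `μ i`. -/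
def lam2 {b : ℕ} (μ : Fin b → ℂ) : Multiset ℂ :=
  (Finset.univ.filter fun p : Fin b × Fin b => p.1 < p.2).val.map fun p => μ p.1 * μ p.2

open scoped Classical in
/-- The number of roots of unity in `S`. -/
def tc (S : Multiset ℂ) : ℕ := S.countP IsOfFinOrder

/-- The numbers `m ^ k * z` for the pairs `(z, k)` in `R`. -/
def tw (m : ℂ) (R : Multiset (ℂ × ℕ)) : Multiset ℂ := R.map fun r => m ^ r.2 * r.1

/-- Skew symmetric matrices. -/
def Sk (b : ℕ) : Submodule ℂ (Matrix (Fin b) (Fin b) ℂ) where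
  carrier := {ν | νᵀ = -ν}
  add_mem' := fun {x y} hx hy => by
    simp only [Set.mem_ofPred_eq] at hx hy ⊢
    rw [transpose_add, hx, hy, neg_add]
  zero_mem' := by simp
  smul_mem' := fun a x hx => by
    simp only [Set.mem_ofPred_eq] at hx ⊢
    rw [transpose_smul, hx, smul_neg]

/-- The action of a matrix on bilinear forms. -/
def cj {b : ℕ} (M : Matrix (Fin b) (Fin b) ℂ) :
    Matrix (Fin b) (Fin b) ℂ →ₗ[ℂ] Matrix (Fin b) (Fin b) ℂ where
  toFun ν := Mᵀ * ν * M
  map_add' x y := by rw [Matrix.mul_add, Matrix.add_mul]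
  map_smul' a x := by rw [Matrix.mul_smul, Matrix.smul_mul, RingHom.id_apply]

/-- An isotropic subspace of the second cohomology group. -/
def Cx.Iso {V0 V1 V2 : Type} [AddCommGroup V0] [Module ℂ V0] [AddCommGroup V1] [Module ℂ V1]
    [AddCommGroup V2] [Module ℂ V2] (c : Cx V0 V1 V2) (W : Submodule ℂ c.H2) : Prop :=
  ∀ x y : c.Z2, (Submodule.Quotient.mk x : c.H2) ∈ W → (Submodule.Quotient.mk y : c.H2) ∈ W →
    c.B x y = 0

end SX4
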