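import Pool.Agent.P.MP_0a0487_an.SX.AlgDefs

/-! Fixed cosets: no eigenvalue is a root of unity. -/

set_option autoImplicit false
set_option linter.unusedSectionVars false

noncomputable section

namespace SX4

open Matrix

variable {Γ : Type} [Group Γ] {b : ℕ} {cc : Γ → Fin b → ℤ}

theorem le_fixCard (ψ : Γ → Γ) (T : Subgroup Γ) [T.FiniteIndex] (K : ℕ) (g : ℕ → Γ)
    (h1 : ∀ k, (g k)⁻¹ * ψ (g k) ∈ T) (h2 : ∀ k < K, ∀ l < K, (g k)⁻¹ * g l ∈ T → k = l) :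
    K ≤ fixCard ψ T := by
  have h := Nat.card_le_card_of_injective (fun k : Fin K =>
    (⟨g k, g k, rfl, (QuotientGroup.eq.2 (h1 k)).symm⟩ :
      {z : Γ ⧸ T // ∃ γ : Γ, (γ : Γ ⧸ T) = z ∧ (ψ γ : Γ ⧸ T) = z})) fun k l h =>
    Fin.ext (h2 k k.2 l l.2 (QuotientGroup.eq.1 (congrArg Subtype.val h)))
  rwa [Nat.card_eq_fintype_card, Fintype.card_fin] at h

theorem AlgFix_one (hc : HB cc) : cc 1 = 0 := by
  have h := hc.mul 1 1
  rwa [mul_one, left_eq_add] at h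

theorem AlgFix_inv (hc : HB cc) (γ : Γ) : cc γ⁻¹ = -cc γ := by
  have h := hc.mul γ⁻¹ γ
  rw [inv_mul_cancel, AlgFix_one hc] at h
  exact eq_neg_of_add_eq_zero_left h.symm

theorem AlgFix_main (hc : HB cc) (ψ : MulAut Γ) (M : Matrix (Fin b) (Fin b) ℤ)
    (hM : ∀ γ, cc (ψ γ) = M *ᵥ cc γ) {L : ℕ} (L0 : 0 < L)
    (hd : ∀ T : Subgroup Γ, T.Normal → T.FiniteIndex → (∀ γ ∈ T, ψ γ ∈ T) → fixCard ⇑ψ T ∣ L)
    (B : (Fin b → ℤ) →ₗ[ℤ] (Fin b → ℤ) →ₗ[ℤ] ℤ) (hB : ∀ x y, B x y = -B y x) (Z : Γ → ℤ)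
    (hZ : ∀ γ γ', Z (γ * γ') = Z γ + Z γ' + B (cc γ) (cc γ')) (v : Fin b → ℤ)
    (hv : ∀ γ, Z (ψ γ) = Z γ + ∑ i, v i * cc γ i) :
    (∀ κ, cc (ψ κ) = cc κ → Z (ψ κ) = Z κ → cc κ = 0 ∧ Z κ = 0) ∧ B = 0 := by
  have b0 : ∀ x, B x x = 0 := fun x => by linarith [hB x x]
  have z1 : Z 1 = 0 := by
    have h := hZ 1 1
    rw [mul_one, b0] at h
    linarith
  have zi : ∀ γ, Z γ⁻¹ = -Z γ := fun γ => by
    have h := hZ γ⁻¹ γ
    rw [inv_mul_cancel, z1, AlgFix_inv hc, map_neg, LinearMap.neg_apply, b0] at h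
    linarith
  have zc : ∀ g γ, Z (g * γ * g⁻¹) = Z γ + 2 * B (cc g) (cc γ) := fun g γ => by
    rw [hZ, hZ, zi, AlgFix_inv hc, hc.mul, map_neg, map_add, LinearMap.add_apply, b0,
      hB (cc γ) (cc g)]
    ring
  have cp : ∀ γ (k : ℕ), cc (γ ^ k) = (k : ℤ) • cc γ ∧ Z (γ ^ k) = k * Z γ := fun γ k => by
    induction k with
    | zero => simp [AlgFix_one hc, z1]
    | succ k ih =>
      rw [pow_succ, hc.mul, hZ, ih.1, ih.2, map_smul, LinearMap.smul_apply, b0, Nat.cast_succ,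
        add_smul, one_smul, smul_zero]
      exact ⟨rfl, by ring⟩
  have dv : ∀ (m : ℤ) x y, (∀ j, m ∣ y j) → m ∣ B x y := fun m x y h => by
    choose y' hy using h
    rw [show y = m • y' from funext hy, map_smul]
    exact dvd_mul_right _ _
  have main : ∀ κ, cc (ψ κ) = cc κ → Z (ψ κ) = Z κ → cc κ = 0 ∧ Z κ = 0 := fun κ h1 h2 => by
    have key : ∀ e : ℤ, (∀ m n : ℤ, (∀ j, m ∣ n * cc κ j) → m ∣ n * Z κ → m ∣ n * e) → e = 0 := by
      intro e he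
      by_contra h0
      obtain ⟨m, hm⟩ : ∃ m : ℕ, m = e.natAbs * (L + 1) := ⟨_, rfl⟩
      have : NeZero m := ⟨hm ▸ mul_ne_zero (Int.natAbs_ne_zero.2 h0) L.succ_ne_zero⟩
      let T : Subgroup Γ :=
        { carrier := {γ | (∀ j, (m : ℤ) ∣ cc γ j) ∧ (m : ℤ) ∣ Z γ}
          one_mem' := ⟨fun j => by simp [AlgFix_one hc], by simp [z1]⟩
          mul_mem' := fun {γ γ'} h h' => ⟨fun j => by
            rw [hc.mul]
            exact (h.1 j).add (h'.1 j), by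
            rw [hZ]
            exact (h.2.add h'.2).add (dv _ _ _ h'.1)⟩
          inv_mem' := fun {γ} h => ⟨fun j => by
            rw [AlgFix_inv hc]
            exact (h.1 j).neg_right, by
            rw [zi]
            exact h.2.neg_right⟩ }
      have mT : ∀ γ, γ ∈ T ↔ (∀ j, (m : ℤ) ∣ cc γ j) ∧ (m : ℤ) ∣ Z γ := fun _ => Iff.rfl
      have hN : T.Normal := ⟨fun γ h g => ⟨fun j => by
        rw [hc.mul, hc.mul, AlgFix_inv hc, add_right_comm, add_neg_cancel, zero_add]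
        exact h.1 j, by
        rw [zc]
        exact h.2.add ((dv _ _ _ h.1).mul_left _)⟩⟩
      have hq : Finite (Γ ⧸ T) := by
        refine Finite.of_injective (fun q : Γ ⧸ T =>
          ((fun j => (cc q.out j : ZMod m)), (Z q.out : ZMod m))) fun q q' h => ?_
        have a1 : ∀ j, (m : ℤ) ∣ (cc q'.out - cc q.out) j := fun j =>
          ((ZMod.intCast_eq_intCast_iff_dvd_sub _ _ _).1 (congrFun (congrArg Prod.fst h) j))
        have a2 := (ZMod.intCast_eq_intCast_iff_dvd_sub _ _ _).1 (congrArg Prod.snd h)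
        have a3 := dv m (cc q.out) _ a1
        rw [map_sub, b0, sub_zero] at a3
        rw [← q.out_eq', ← q'.out_eq', QuotientGroup.eq, mT, hc.mul, hZ, zi, AlgFix_inv hc,
          neg_add_eq_sub, neg_add_eq_sub, map_neg, LinearMap.neg_apply]
        exact ⟨a1, a2.add a3.neg_right⟩
      have hF : T.FiniteIndex := Subgroup.finiteIndex_of_finite_quotient
      have h3 := Nat.le_of_dvd L0 (hd T hN hF fun γ h => ⟨fun j => by
        rw [hM, mulVec, dotProduct]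
        exact Finset.dvd_sum fun i _ => (h.1 i).mul_left _, by
        rw [hv]
        exact h.2.add (Finset.dvd_sum fun i _ => (h.1 i).mul_left _)⟩)
      refine (L.lt_succ_self.trans_le ((le_fixCard ψ T (L + 1) (κ ^ ·) (fun k => ?_)
        fun k hk l hl h => ?_).trans h3)).false
      · rw [map_pow, mT, hc.mul, hZ, zi, AlgFix_inv hc, (cp _ k).1, (cp _ k).1, (cp _ k).2,
          (cp _ k).2, h1, h2, map_neg, LinearMap.neg_apply, b0]
        simp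
      · rw [mT, hc.mul, hZ, zi, AlgFix_inv hc, (cp _ k).1, (cp _ l).1, (cp _ k).2, (cp _ l).2,
          map_neg, LinearMap.neg_apply, map_smul, map_smul, LinearMap.smul_apply, b0, smul_zero,
          smul_zero, neg_zero, add_zero, neg_add_eq_sub, neg_add_eq_sub, ← sub_smul, ← sub_mul] at h
        have h4 := Int.natCast_dvd.1 (he m (l - k) h.1 h.2)
        rw [Int.natAbs_mul, hm, mul_comm] at h4
        have h5 := Nat.eq_zero_of_dvd_of_lt
          (Nat.dvd_of_mul_dvd_mul_right (Int.natAbs_pos.2 h0) h4) (by omega)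
        omega
    exact ⟨funext fun j => key _ fun _ _ h _ => h j, key _ fun _ _ _ h => h⟩
  refine ⟨main, LinearMap.ext fun x => LinearMap.ext fun y => ?_⟩
  obtain ⟨g, rfl⟩ := hc.surj x
  obtain ⟨γ, rfl⟩ := hc.surj y
  have h1 : cc (g * γ * g⁻¹ * γ⁻¹) = 0 := by
    rw [hc.mul, hc.mul, hc.mul, AlgFix_inv hc, AlgFix_inv hc]
    abel
  have h2 := (main _ (by rw [hM, h1, mulVec_zero]) (by rw [hv, h1]; simp)).2
  rw [hZ, zc, zi, eq_neg_of_add_eq_zero_left ((hc.mul _ _).symm.trans h1), map_neg,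
    LinearMap.neg_apply, b0] at h2
  change B (cc g) (cc γ) = 0
  linarith

theorem fix_det (hc : HB cc) (ψ : MulAut Γ) (M : Matrix (Fin b) (Fin b) ℤ)
    (hM : ∀ γ, cc (ψ γ) = M *ᵥ cc γ) {L : ℕ} (L0 : 0 < L)
    (hd : ∀ T : Subgroup Γ, T.Normal → T.FiniteIndex → (∀ γ ∈ T, ψ γ ∈ T) → fixCard ⇑ψ T ∣ L) :
    (1 - M).det ≠ 0 := by
  intro h
  obtain ⟨v, h0, hv⟩ := Matrix.exists_mulVec_eq_zero_iff.2 h
  obtain ⟨κ, rfl⟩ := hc.surj v
  rw [sub_mulVec, one_mulVec, sub_eq_zero] at hv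
  exact h0 ((AlgFix_main hc ψ M hM L0 hd 0 (by simp) 0 (by simp) 0 (by simp)).1 κ
    ((hM κ).trans hv.symm) rfl).1

theorem fix_cup [Group.FG Γ] (hc : HB cc) (ψ : MulAut Γ) (M : Matrix (Fin b) (Fin b) ℤ)
    (hM : ∀ γ, cc (ψ γ) = M *ᵥ cc γ) {L : ℕ} (L0 : 0 < L)
    (hd : ∀ T : Subgroup Γ, T.Normal → T.FiniteIndex → (∀ γ ∈ T, ψ γ ∈ T) → fixCard ⇑ψ T ∣ L)
    (ν : Matrix (Fin b) (Fin b) ℂ) (hs : νᵀ = -ν)
    (hν : (M.map (Int.cast : ℤ → ℂ))ᵀ * ν * M.map (Int.cast : ℤ → ℂ) = ν) (z : Γ → ℂ)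
    (hz : ∀ γ γ', z (γ * γ') = z γ + z γ' + ∑ i, (cc γ i : ℂ) * ∑ j, ν i j * cc γ' j) :
    ν = 0 := by
  obtain ⟨N, hN⟩ : ∃ N : (Fin b → ℤ) → (Fin b → ℤ) → ℂ,
      ∀ x y, N x y = (Int.cast ∘ x) ⬝ᵥ ν *ᵥ (Int.cast ∘ y) := ⟨_, fun _ _ => rfl⟩
  replace hz : ∀ γ γ', z (γ * γ') = z γ + z γ' + N (cc γ) (cc γ') := fun γ γ' => by
    rw [hz, hN]
    rfl
  have n1 : ∀ x y, N x y = -N y x := fun x y => by
    rw [hN, hN, dotProduct_mulVec, ← mulVec_transpose, hs, neg_mulVec, neg_dotProduct,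
      dotProduct_comm]
  have n2 : ∀ x y, N (M *ᵥ x) (M *ᵥ y) = N x y := fun x y => by
    have e : ∀ x : Fin b → ℤ, (Int.cast : ℤ → ℂ) ∘ (M *ᵥ x) = M.map Int.cast *ᵥ (Int.cast ∘ x) :=
      fun x => funext fun i => (Int.castRingHom ℂ).map_mulVec M x i
    rw [hN, hN, e, e]
    conv_rhs => rw [← hν, ← mulVec_mulVec, ← mulVec_mulVec, dotProduct_mulVec, vecMul_transpose]
  obtain ⟨v, hv⟩ := hc.span (AddMonoidHom.mk' (fun γ => z (ψ γ.toMul) - z γ.toMul) fun γ γ' => by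
    rw [toMul_add, map_mul, hz, hz, hM, hM, n2]
    ring)
  replace hv : ∀ γ, z (ψ γ) - z γ = ∑ i, v i * cc γ i := hv
  obtain ⟨S, hS, hf⟩ := Group.fg_iff.1 ‹Group.FG Γ›
  have := hf.to_subtype
  ext i j
  refine (Module.forall_dual_apply_eq_zero_iff ℚ _).1 fun l₀ => ?_
  obtain ⟨D, hD⟩ := IsLocalization.exist_integer_multiples_of_finite (nonZeroDivisors ℤ)
    (Sum.elim (fun p : Fin b × Fin b => l₀ (ν p.1 p.2)) fun s : S => l₀ (z s))
  obtain ⟨l, hl⟩ : ∃ l : ℂ →ₗ[ℚ] ℚ, ∀ w, l w = D.1 • l₀ w := ⟨D.1 • l₀, fun _ => rfl⟩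
  have lm : ∀ (n : ℤ) w, l (n * w) = n * l w := fun n w => by
    rw [← zsmul_eq_mul, map_zsmul, zsmul_eq_mul]
  have lm' : ∀ (n : ℤ) w, l (w * n) = l w * n := fun n w => by rw [mul_comm, lm, mul_comm]
  choose β hβ using fun i j => hD (Sum.inl (i, j))
  replace hβ : ∀ i j, (β i j : ℚ) = l (ν i j) := fun i j => (hβ i j).trans (hl _).symm
  obtain ⟨B, hB'⟩ : ∃ B : (Fin b → ℤ) →ₗ[ℤ] (Fin b → ℤ) →ₗ[ℤ] ℤ,
      Matrix.toLinearMap₂' ℤ (Matrix.of β) = B := ⟨_, rfl⟩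
  have hB : ∀ x y, ((B x y : ℤ) : ℚ) = l (N x y) := fun x y => by
    rw [← hB', Matrix.toLinearMap₂'_apply', hN]
    simp only [dotProduct, mulVec, of_apply, Function.comp_apply, map_sum, lm, lm', Int.cast_sum,
      Int.cast_mul, hβ]
  have hZ : ∀ γ, ∃ n : ℤ, (n : ℚ) = l (z γ) := fun γ => by
    have h0 : ∀ x, N x x = 0 := fun x => by linear_combination (1 / 2) * n1 x x
    have h1 : z 1 = 0 := by
      have h := hz 1 1
      rw [mul_one, h0] at h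
      linear_combination -h
    induction (hS.ge (Subgroup.mem_top γ)) using Subgroup.closure_induction with
    | mem s hs => exact (hD (Sum.inr ⟨s, hs⟩)).imp fun n hn => hn.trans (hl _).symm
    | one => exact ⟨0, by simp [h1]⟩
    | mul γ γ' _ _ h h' =>
      obtain ⟨n, hn⟩ := h
      obtain ⟨n', hn'⟩ := h'
      exact ⟨n + n' + B (cc γ) (cc γ'), by
        rw [hz, map_add, map_add, Int.cast_add, Int.cast_add, hn, hn', hB]⟩
    | inv γ _ h =>
      obtain ⟨n, hn⟩ := h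
      have h2 := congrArg l (hz γ⁻¹ γ)
      rw [inv_mul_cancel, h1, map_zero, map_add, map_add, ← hn, ← hB] at h2
      exact ⟨-n - B (cc γ⁻¹) (cc γ), by push_cast; linarith⟩
  choose Z hZ using hZ
  choose g hg using fun i => hc.surj (Pi.single i 1)
  have h1 : ∀ i, l (v i) = (Z (ψ (g i)) - Z (g i) : ℤ) := fun i => by
    rw [Int.cast_sub, hZ, hZ, ← map_sub, hv, hg]
    simp [Pi.single_apply]
  have h2 := (AlgFix_main hc ψ M hM L0 hd B
    (fun x y => Int.cast_injective (α := ℚ) (by rw [Int.cast_neg, hB, hB, n1, map_neg])) Z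
    (fun γ γ' => Int.cast_injective (α := ℚ) (by
      rw [Int.cast_add, Int.cast_add, hZ, hZ, hZ, hB, hz, map_add, map_add]))
    (fun i => Z (ψ (g i)) - Z (g i)) fun γ => Int.cast_injective (α := ℚ) (by
      rw [Int.cast_add, hZ, hZ, ← sub_eq_iff_eq_add', ← map_sub, hv]
      simp only [map_sum, lm', h1, Int.cast_sum, Int.cast_mul])).2
  have h3 := hβ i j
  rw [h2, LinearEquiv.map_eq_zero_iff] at hB'
  rw [show β i j = 0 from congrFun (congrFun hB' i) j, hl, Int.cast_zero] at h3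
  exact (smul_eq_zero.1 h3.symm).resolve_left (nonZeroDivisors.coe_ne_zero D)

end SX4
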