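import Pool.Agent.P.MP_0a0487_an.SX.AlgDefs

/-! Relations between few vectors of equal length; the Lefschetz numbers. -/

set_option autoImplicit false
set_option linter.unusedSectionVars false

noncomputable section

namespace SX4

open scoped RealInnerProductSpace in
theorem AlgRel_three {E : Type} [NormedAddCommGroup E] [InnerProductSpace ℝ E] {u v : E}
    {a b : ℝ} (hu : u ≠ 0) (h1 : ‖v‖ = ‖u‖) (h2 : ‖u + v‖ = ‖u‖) (h : a • u + b • v = 0) :
    a = 0 ∧ b = 0 := by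
  have p : ‖u‖ ^ 2 ≠ 0 := pow_ne_zero 2 (norm_ne_zero_iff.2 hu)
  have e := norm_add_sq_real u v
  rw [h1, h2] at e
  have e1 := congrArg (fun z => ⟪u, z⟫) h
  have e2 := congrArg (fun z => ⟪v, z⟫) h
  simp only [inner_add_right, inner_smul_right, inner_zero_right, real_inner_self_eq_norm_sq,
    real_inner_comm u v, h1] at e1 e2
  have k1 : (2 * a - b) * ‖u‖ ^ 2 = 0 := by linear_combination 2 * e1 + b * e
  have k2 : (2 * b - a) * ‖u‖ ^ 2 = 0 := by linear_combination 2 * e2 + a * e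
  have l1 := (mul_eq_zero.1 k1).resolve_right p
  have l2 := (mul_eq_zero.1 k2).resolve_right p
  constructor <;> linarith

open scoped RealInnerProductSpace in
theorem AlgRel_four {E : Type} [NormedAddCommGroup E] [InnerProductSpace ℝ E] {u v w : E}
    {a b c : ℝ} (huv : u + v ≠ 0) (h1 : ‖v‖ = ‖u‖) (h2 : ‖w‖ = ‖u‖) (h3 : ‖u + v + w‖ = ‖u‖)
    (h : a • u + b • v + c • w = 0) : a + b = c := by
  have p : ‖u + v‖ ^ 2 ≠ 0 := pow_ne_zero 2 (norm_ne_zero_iff.2 huv)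
  have e := norm_add_sq_real u v
  have e' := norm_add_sq_real (u + v) w
  rw [h1] at e
  rw [h2, h3, inner_add_left] at e'
  have e1 := congrArg (fun z => ⟪u, z⟫) h
  have e2 := congrArg (fun z => ⟪v, z⟫) h
  simp only [inner_add_right, inner_smul_right, inner_zero_right, real_inner_self_eq_norm_sq,
    real_inner_comm u v, h1] at e1 e2
  have k : (a + b - c) * ‖u + v‖ ^ 2 = 0 := by
    linear_combination 2 * e1 + 2 * e2 + (a + b) * e + c * e'
  exact sub_eq_zero.1 ((mul_eq_zero.1 k).resolve_right p)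

theorem rel_const {E : Type} [NormedAddCommGroup E] [InnerProductSpace ℝ E] {b : ℕ} (b4 : b ≤ 4)
    (x : Fin b → E) (h0 : ∑ i, x i = 0) (h1 : ∀ i, x i ≠ 0) (h2 : ∀ i j, i ≠ j → x i + x j ≠ 0)
    {O : Finset (Fin b)} (O1 : O.Nonempty) (O2 : ∑ j ∈ O, x j = 0)
    (O3 : ∀ i ∈ O, ∀ j ∈ O, ‖x i‖ = ‖x j‖) (n : Fin b → ℤ) (hn : ∑ i, n i • x i = 0)
    (i j : Fin b) : n i = n j := by
  have small : ∀ P : Finset (Fin b), ∑ j ∈ P, x j = 0 → P.card ≠ 1 ∧ P.card ≠ 2 := fun P hP => by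
    refine ⟨fun h => ?_, fun h => ?_⟩
    · obtain ⟨a, rfl⟩ := Finset.card_eq_one.1 h
      exact h1 a (by simpa using hP)
    · obtain ⟨a, c, hac, rfl⟩ := Finset.card_eq_two.1 h
      exact h2 a c hac (by rwa [Finset.sum_pair hac] at hP)
  have c1 := small O O2
  have c2 := small Oᶜ (by rw [← h0, ← Finset.sum_add_sum_compl O, O2, zero_add])
  have c3 := O1.card_pos
  have c4 : O.card + Oᶜ.card = b := by rw [Finset.card_add_card_compl, Fintype.card_fin]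
  have c5 : O = Finset.univ := (Finset.compl_eq_empty_iff O).1 (Finset.card_eq_zero.1 (by omega))
  have N : ∀ i j, ‖x i‖ = ‖x j‖ := fun i j =>
    O3 i (c5 ▸ Finset.mem_univ i) j (c5 ▸ Finset.mem_univ j)
  have hn' : ∑ i, (n i : ℝ) • x i = 0 := by simpa only [Int.cast_smul_eq_zsmul] using hn
  obtain rfl | rfl : b = 3 ∨ b = 4 := by omega
  · rw [Fin.sum_univ_three] at h0 hn'
    have e : x 0 + x 1 = -x 2 := eq_neg_of_add_eq_zero_left h0
    obtain ⟨k1, k2⟩ := AlgRel_three (a := n 0 - n 2) (b := n 1 - n 2) (h1 0) (N 1 0)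
      (by rw [e, norm_neg, N]) (by linear_combination (norm := module) hn' - (n 2 : ℝ) • h0)
    have l1 : n 0 = n 2 := by exact_mod_cast sub_eq_zero.1 k1
    have l2 : n 1 = n 2 := by exact_mod_cast sub_eq_zero.1 k2
    have l : ∀ i, n i = n 2 := fun i => by fin_cases i <;> simp [l1, l2]
    rw [l i, l j]
  · rw [Fin.sum_univ_four] at h0 hn'
    have e : x 0 + x 1 + x 2 = -x 3 := eq_neg_of_add_eq_zero_left h0
    have r : ((n 0 : ℝ) - n 3) • x 0 + ((n 1 : ℝ) - n 3) • x 1 + ((n 2 : ℝ) - n 3) • x 2 = 0 := by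
      linear_combination (norm := module) hn' - (n 3 : ℝ) • h0
    have k1 := AlgRel_four (h2 0 1 (by decide)) (N _ _) (N 2 _) (by rw [e, norm_neg, N]) r
    have k2 := AlgRel_four (h2 0 2 (by decide)) (N _ _) (N 1 _)
      (by rw [add_right_comm, e, norm_neg, N]) (by rw [add_right_comm]; exact r)
    have k3 := AlgRel_four (h2 1 2 (by decide)) (N _ _) (N 0 _)
      (by rw [add_comm, ← add_assoc, e, norm_neg, N]) (by rw [add_comm, ← add_assoc]; exact r)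
    have l0 : n 0 = n 3 := by exact_mod_cast (by linarith : (n 0 : ℝ) = n 3)
    have l1 : n 1 = n 3 := by exact_mod_cast (by linarith : (n 1 : ℝ) = n 3)
    have l2 : n 2 = n 3 := by exact_mod_cast (by linarith : (n 2 : ℝ) = n 3)
    have l : ∀ i, n i = n 3 := fun i => by fin_cases i <;> simp [l0, l1, l2]
    rw [l i, l j]

theorem AlgRel_uni {u v : ℂ} {s : ℝ} (h1 : u * v = 1) (h2 : u + v = s) (h3 : s ^ 2 < 4) :
    ‖u‖ = 1 ∧ ‖v‖ = 1 := by
  have a1 := congrArg Complex.re h1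
  have a2 := congrArg Complex.im h1
  have a3 := congrArg Complex.re h2
  have a4 := congrArg Complex.im h2
  simp only [Complex.mul_re, Complex.mul_im, Complex.one_re, Complex.one_im, Complex.add_re,
    Complex.add_im, Complex.ofReal_re, Complex.ofReal_im] at a1 a2 a3 a4
  have b1 : u.im * (v.re - u.re) = 0 := by linear_combination a2 - u.re * a4
  have hu : ‖u‖ = 1 := by
    rcases mul_eq_zero.1 b1 with b2 | b2
    · rw [b2, zero_mul, sub_zero] at a1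
      rw [← a3] at h3
      exact absurd h3 (not_lt.2 (by nlinarith [sq_nonneg (u.re - v.re)]))
    · rw [← sq_eq_sq₀ (norm_nonneg _) zero_le_one, Complex.sq_norm, Complex.normSq_apply]
      linear_combination a1 - u.re * b2 + u.im * a4
  refine ⟨hu, ?_⟩
  have := congrArg norm h1
  rwa [norm_mul, hu, one_mul, norm_one] at this

theorem AlgRel_core {a c d : ℂ} (ha : ‖a‖ = 1) (h1 : a * (starRingEnd ℂ) a * c * d = 1) {t : ℤ}
    (h2 : a + (starRingEnd ℂ) a + c + d = t) {L : ℕ} (h3 : 0 < L)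
    (h4 : (L : ℂ) = (1 - a ^ 2) * (1 - (starRingEnd ℂ) a ^ 2) * (1 - c ^ 2) * (1 - d ^ 2)) :
    ‖c‖ = 1 ∧ ‖d‖ = 1 := by
  have e1 : c * d = 1 := by
    rw [Complex.mul_conj', ha] at h1
    simpa using h1
  have e2 : c + d = ((t - 2 * a.re : ℝ) : ℂ) := by
    rw [Complex.add_conj] at h2
    push_cast at h2 ⊢
    linear_combination h2
  refine AlgRel_uni e1 e2 ?_
  have e3 : (1 - a ^ 2) * (1 - (starRingEnd ℂ) a ^ 2) = ((‖1 - a ^ 2‖ ^ 2 : ℝ) : ℂ) := by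
    rw [Complex.ofReal_pow, ← Complex.mul_conj', map_sub, map_one, map_pow]
  have e4 : (L : ℂ) = ((‖1 - a ^ 2‖ ^ 2 * (4 - (t - 2 * a.re) ^ 2) : ℝ) : ℂ) := by
    rw [h4, e3, Complex.ofReal_mul, Complex.ofReal_sub, Complex.ofReal_pow _ 2,
      Complex.ofReal_pow _ 2, ← e2]
    push_cast
    linear_combination (‖1 - a ^ 2‖ : ℂ) ^ 2 * (c * d + 3) * e1
  have e5 : (L : ℝ) = ‖1 - a ^ 2‖ ^ 2 * (4 - (t - 2 * a.re) ^ 2) := by exact_mod_cast e4
  have e6 : (0 : ℝ) < L := by exact_mod_cast h3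
  rw [e5] at e6
  exact sub_pos.1 (pos_of_mul_pos_right e6 (sq_nonneg _))

theorem AlgRel_perm : ∀ i j : Fin 4, i ≠ j → ∃ k l, Function.Bijective ![i, j, k, l] := by
  decide

theorem AlgRel_lam (μ : Fin 4 → ℂ) (n : ℕ) : ((lam2 μ).map (· ^ n)).sum =
    μ 0 ^ n * μ 1 ^ n + μ 0 ^ n * μ 2 ^ n + μ 0 ^ n * μ 3 ^ n + μ 1 ^ n * μ 2 ^ n +
      μ 1 ^ n * μ 3 ^ n + μ 2 ^ n * μ 3 ^ n := by
  have e : (Finset.univ.filter fun p : Fin 4 × Fin 4 => p.1 < p.2).val =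
      {(0, 1), (0, 2), (0, 3), (1, 2), (1, 3), (2, 3)} := by decide
  rw [lam2, e]
  simp [mul_pow, add_assoc]

theorem fin_comb {b : ℕ} (μ : Fin b → ℂ) (h1 : ∏ i, μ i = 1) (ht : ∀ i, ¬IsOfFinOrder (μ i))
    (hk : (∀ i, ‖μ i‖ = 1) → ∀ i, IsOfFinOrder (μ i)) (t : ℤ) (hs : ∑ i, μ i = t)
    (hj : ∀ i, ∃ j, μ j = (starRingEnd ℂ) (μ i)) {S : Multiset ℂ}
    (hS : (b = 2 ∧ S = {1, 1}) ∨ (b = 4 ∧ S = lam2 μ)) (L : ℕ → ℕ) (L0 : ∀ n, 1 ≤ n → 0 < L n)
    (hL : ∀ n, 1 ≤ n → (L n : ℂ) = 2 - ∑ i, μ i ^ n - ∑ i, (μ i)⁻¹ ^ n + (S.map (· ^ n)).sum) :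
    b = 4 ∧ (∀ i, ‖μ i‖ ≠ 1) ∧ ∀ n, 1 ≤ n → (L n : ℂ) = ∏ i, (1 - μ i ^ n) := by
  rcases hS with ⟨rfl, rfl⟩ | ⟨rfl, rfl⟩
  · exfalso
    rw [Fin.prod_univ_two] at h1
    rw [Fin.sum_univ_two] at hs
    have e := hL 2 one_le_two
    rw [Fin.sum_univ_two, Fin.sum_univ_two, inv_eq_of_mul_eq_one_right h1,
      inv_eq_of_mul_eq_one_left h1] at e
    have e1 : (L 2 : ℂ) = 8 - 2 * (t : ℂ) ^ 2 := by
      rw [e, ← hs]
      simp only [Multiset.insert_eq_cons, Multiset.map_cons, Multiset.map_singleton,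
        Multiset.sum_cons, Multiset.sum_singleton]
      linear_combination 4 * h1
    have e2 : (L 2 : ℝ) = 8 - 2 * (t : ℝ) ^ 2 := by exact_mod_cast e1
    have e3 : (0 : ℝ) < L 2 := by exact_mod_cast L0 2 one_le_two
    obtain ⟨u, v⟩ := AlgRel_uni (s := t) h1 (by simpa using hs) (by linarith)
    exact ht 0 (hk (fun i => by fin_cases i <;> assumption) 0)
  have F : ∀ n, 1 ≤ n → (L n : ℂ) = ∏ i, (1 - μ i ^ n) := fun n hn => by
    have y : μ 0 ^ n * μ 1 ^ n * μ 2 ^ n * μ 3 ^ n = 1 := by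
      rw [Fin.prod_univ_four] at h1
      rw [← mul_pow, ← mul_pow, ← mul_pow, h1, one_pow]
    have i0 : (μ 0 ^ n)⁻¹ = μ 1 ^ n * μ 2 ^ n * μ 3 ^ n :=
      inv_eq_of_mul_eq_one_right (by linear_combination y)
    have i1 : (μ 1 ^ n)⁻¹ = μ 0 ^ n * μ 2 ^ n * μ 3 ^ n :=
      inv_eq_of_mul_eq_one_right (by linear_combination y)
    have i2 : (μ 2 ^ n)⁻¹ = μ 0 ^ n * μ 1 ^ n * μ 3 ^ n :=
      inv_eq_of_mul_eq_one_right (by linear_combination y)
    have i3 : (μ 3 ^ n)⁻¹ = μ 0 ^ n * μ 1 ^ n * μ 2 ^ n := inv_eq_of_mul_eq_one_left y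
    rw [hL n hn, AlgRel_lam, Fin.sum_univ_four, Fin.sum_univ_four, Fin.prod_univ_four, inv_pow,
      inv_pow, inv_pow, inv_pow, i0, i1, i2, i3]
    linear_combination -y
  refine ⟨rfl, fun i hi => ?_, F⟩
  obtain ⟨j, e⟩ := hj i
  have hij : i ≠ j := by
    rintro rfl
    refine ht i (isOfFinOrder_iff_pow_eq_one.2 ⟨2, two_pos, ?_⟩)
    have := Complex.mul_conj' (μ i)
    rw [← e, hi] at this
    simpa [sq] using this
  obtain ⟨k, l, hb⟩ := AlgRel_perm i j hij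
  have q1 := (hb.prod_comp μ).trans h1
  have q2 := (hb.sum_comp μ).trans hs
  have q3 := (F 2 one_le_two).trans (hb.prod_comp fun i => 1 - μ i ^ 2).symm
  rw [Fin.prod_univ_four] at q1 q3
  rw [Fin.sum_univ_four] at q2
  change μ i * μ j * μ k * μ l = 1 at q1
  change μ i + μ j + μ k + μ l = t at q2
  change _ = (1 - μ i ^ 2) * (1 - μ j ^ 2) * (1 - μ k ^ 2) * (1 - μ l ^ 2) at q3
  have hj' : ‖μ j‖ = 1 := by rw [e, Complex.norm_conj, hi]
  rw [e] at q1 q2 q3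
  obtain ⟨u, v⟩ := AlgRel_core hi q1 q2 (L0 2 one_le_two) q3
  refine ht i (hk (fun m => ?_) i)
  obtain ⟨m, rfl⟩ := hb.2 m
  fin_cases m <;> assumption

end SX4
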