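import Pool.Agent.P.MP_0a0487_an.SX.AlgDefs

/-! Existence and uniqueness of the multiset of eigenvalues. -/

set_option autoImplicit false
set_option linter.unusedSectionVars false

noncomputable section

namespace SX4

open Matrix Polynomial

variable {V : Type} [AddCommGroup V] [Module ℂ V]

theorem ps_unique {S S' : Multiset ℂ} (h : ∀ n : ℕ, (S.map (· ^ n)).sum = (S'.map (· ^ n)).sum) :
    S = S' := by
  classical
  have h1 : ∀ P : ℂ[X], (S.map P.eval).sum = (S'.map P.eval).sum := by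
    intro P
    induction P using Polynomial.induction_on' with
    | add p q hp hq => simp only [eval_add, Multiset.sum_map_add, hp, hq]
    | monomial n a => simp only [eval_monomial, Multiset.sum_map_mul_left, h n]
  ext z
  let P : ℂ[X] := ∏ w ∈ (S + S').toFinset.erase z, (X - C w)
  have hz : P.eval z ≠ 0 := by
    rw [eval_prod]
    refine Finset.prod_ne_zero_iff.2 fun w hw => ?_
    rw [eval_sub, eval_X, eval_C]
    exact sub_ne_zero.2 (Finset.ne_of_mem_erase hw).symm
  have h2 : ∀ T : Multiset ℂ, T ≤ S + S' → (T.map P.eval).sum = T.count z * P.eval z := by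
    intro T hT
    rw [← nsmul_eq_mul]
    refine Multiset.sum_map_eq_nsmul_single z fun w hw hw' => ?_
    rw [eval_prod]
    exact Finset.prod_eq_zero (i := w)
      (Finset.mem_erase.2 ⟨hw, Multiset.mem_toFinset.2 (Multiset.mem_of_le hT hw')⟩) (by simp)
  have h3 := h1 P
  rw [h2 S (Multiset.le_add_right _ _), h2 S' (Multiset.le_add_left _ _)] at h3
  exact_mod_cast mul_right_cancel₀ hz h3

theorem AlgSpA_nilp [FiniteDimensional ℂ V] {v : V →ₗ[ℂ] V} {z : ℂ}
    (h : IsNilpotent (v - algebraMap ℂ (Module.End ℂ V) z)) (n : ℕ) :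
    LinearMap.trace ℂ V (v ^ n) = z ^ n * Module.finrank ℂ V := by
  induction n with
  | zero => rw [pow_zero, pow_zero, one_mul, LinearMap.trace_one]
  | succ n ih =>
    rw [pow_succ, Module.End.mul_eq_comp, LinearMap.trace_comp_eq_mul_of_commute_of_isNilpotent z
      ((Commute.refl v).pow_left n) h, ih]
    ring

theorem AlgSpA_trace [FiniteDimensional ℂ V] {u v : Module.End ℂ V} (hc : Commute u v) (φ : ℂ → ℂ)
    (hn : ∀ z, u.maxGenEigenspace z ≠ ⊥ → IsNilpotent
      (v.restrict (u.mapsTo_maxGenEigenspace_of_comm hc z) - algebraMap ℂ (Module.End ℂ _) (φ z)))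
    (n : ℕ) : LinearMap.trace ℂ V (v ^ n) = (u.charpoly.roots.map (φ · ^ n)).sum := by
  classical
  have hds := DirectSum.isInternal_submodule_of_iSupIndep_of_iSup_eq_top
    u.independent_maxGenEigenspace u.iSup_maxGenEigenspace_eq_top
  have hfin : {z | u.maxGenEigenspace z ≠ ⊥}.Finite :=
    WellFoundedGT.finite_ne_bot_of_iSupIndep u.independent_maxGenEigenspace
  rw [LinearMap.trace_eq_sum_trace_restrict' hds hfin
    fun z => u.mapsTo_maxGenEigenspace_of_comm (hc.pow_right n) z, Finset.sum_multiset_map_count]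
  refine Finset.sum_congr ?_ fun z hz => ?_
  · ext z
    rw [Set.Finite.mem_toFinset, Multiset.mem_toFinset, ← Multiset.count_ne_zero, count_roots,
      ← LinearMap.finrank_maxGenEigenspace_eq, Set.mem_ofPred_eq, Ne, Ne, Submodule.finrank_eq_zero]
  · rw [Multiset.mem_toFinset, ← Multiset.count_ne_zero, count_roots,
      ← LinearMap.finrank_maxGenEigenspace_eq, Ne, Submodule.finrank_eq_zero] at hz
    rw [count_roots, ← LinearMap.finrank_maxGenEigenspace_eq, nsmul_eq_mul, mul_comm,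
      ← AlgSpA_nilp (hn z hz) n]
    exact congrArg _ (Module.End.pow_restrict n _).symm

theorem trace_pow_roots [FiniteDimensional ℂ V] (u : V →ₗ[ℂ] V) (n : ℕ) :
    LinearMap.trace ℂ V (u ^ n) = (u.charpoly.roots.map (· ^ n)).sum := by
  exact AlgSpA_trace (Commute.refl u) id
    (fun z _ => Module.End.isNilpotent_restrict_maxGenEigenspace_sub_algebraMap u z) n

theorem Sp.exi [FiniteDimensional ℂ V] {u : V →ₗ[ℂ] V} {W : Submodule ℂ V}
    (h : ∀ x ∈ W, u x ∈ W) : ∃ S, Sp u W S := by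
  exact ⟨_, h, trace_pow_roots _⟩

theorem Sp.unique {u : V →ₗ[ℂ] V} {W : Submodule ℂ V} {S S' : Multiset ℂ} (h : Sp u W S)
    (h' : Sp u W S') : S = S' := by
  obtain ⟨_, h⟩ := h
  obtain ⟨_, h'⟩ := h'
  exact ps_unique fun n => (h n).symm.trans (h' n)

theorem Sp.card [FiniteDimensional ℂ V] {u : V →ₗ[ℂ] V} {W : Submodule ℂ V} {S : Multiset ℂ}
    (h : Sp u W S) : S.card = Module.finrank ℂ W := by
  obtain ⟨_, h⟩ := h
  have h0 := h 0
  simp only [pow_zero, LinearMap.trace_one, Multiset.map_const', Multiset.sum_replicate,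
    nsmul_eq_mul, mul_one] at h0
  exact_mod_cast h0.symm

theorem Sp.mem_iff [FiniteDimensional ℂ V] {u : V →ₗ[ℂ] V} {W : Submodule ℂ V} {S : Multiset ℂ}
    (h : Sp u W S) (z : ℂ) : z ∈ S ↔ ∃ x ∈ W, x ≠ 0 ∧ u x = z • x := by
  obtain ⟨hW, h⟩ := h
  rw [ps_unique fun n => (h n).symm.trans (trace_pow_roots _ n),
    mem_roots (LinearMap.charpoly_monic _).ne_zero,
    ← Module.End.hasEigenvalue_iff_isRoot_charpoly]
  constructor
  · intro hz
    obtain ⟨x, hx⟩ := hz.exists_hasEigenvector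
    exact ⟨x.1, x.2, fun e => hx.2 (Subtype.ext e), congrArg Subtype.val hx.apply_eq_smul⟩
  · rintro ⟨x, hx, h0, e⟩
    exact Module.End.hasEigenvalue_of_hasEigenvector (x := ⟨x, hx⟩)
      ⟨Module.End.mem_eigenspace_iff.2 (Subtype.ext e), fun e' => h0 (congrArg Subtype.val e')⟩

theorem Sp.top_iff [FiniteDimensional ℂ V] {u : V →ₗ[ℂ] V} {S : Multiset ℂ} :
    Sp u ⊤ S ↔ ∀ n : ℕ, LinearMap.trace ℂ V (u ^ n) = (S.map (· ^ n)).sum := by
  have key : ∀ (h : ∀ x ∈ (⊤ : Submodule ℂ V), u x ∈ (⊤ : Submodule ℂ V)) (n : ℕ),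
      LinearMap.trace ℂ (⊤ : Submodule ℂ V) (u.restrict h ^ n) = LinearMap.trace ℂ V (u ^ n) := by
    intro h n
    rw [Module.End.pow_restrict]
    exact LinearMap.trace_restrict_eq_of_forall_mem ⊤ _ fun _ => Submodule.mem_top
  exact ⟨fun ⟨h, h'⟩ n => (key h n).symm.trans (h' n),
    fun h' => ⟨fun _ _ => Submodule.mem_top, fun n => (key _ n).trans (h' n)⟩⟩

theorem Sp.bot (u : V →ₗ[ℂ] V) : Sp u ⊥ 0 := by
  refine ⟨fun x hx => ?_, fun n => ?_⟩
  · rw [(Submodule.mem_bot ℂ).1 hx, map_zero]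
    exact Submodule.zero_mem _
  · rw [Subsingleton.elim (_ ^ n) 0, map_zero, Multiset.map_zero, Multiset.sum_zero]

theorem Sp.line {u : V →ₗ[ℂ] V} {x : V} {z : ℂ} (h0 : x ≠ 0) (h : u x = z • x) :
    Sp u (Submodule.span ℂ {x}) {z} := by
  have hW : ∀ y ∈ Submodule.span ℂ {x}, u y = z • y := by
    intro y hy
    obtain ⟨a, rfl⟩ := Submodule.mem_span_singleton.1 hy
    rw [map_smul, h, smul_comm]
  have hW' : ∀ y ∈ Submodule.span ℂ {x}, u y ∈ Submodule.span ℂ {x} := fun y hy => by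
    rw [hW y hy]
    exact Submodule.smul_mem _ _ hy
  refine ⟨hW', fun n => ?_⟩
  have e : u.restrict hW' - algebraMap ℂ (Module.End ℂ (Submodule.span ℂ {x})) z = 0 := by
    rw [sub_eq_zero]
    exact LinearMap.ext fun y => Subtype.ext (hW y.1 y.2)
  rw [AlgSpA_nilp (e ▸ IsNilpotent.zero) n, finrank_span_singleton h0]
  simp

theorem Sp.inv [FiniteDimensional ℂ V] {u v : V →ₗ[ℂ] V} {S : Multiset ℂ} (h : Sp u ⊤ S)
    (huv : u * v = 1) : Sp v ⊤ (S.map (·⁻¹)) := by
  have hvu : v * u = 1 := mul_eq_one_comm.1 huv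
  have hc : Commute u v := huv.trans hvu.symm
  rw [ps_unique fun n => (Sp.top_iff.1 h n).symm.trans (trace_pow_roots u n)]
  refine Sp.top_iff.2 fun n => ?_
  rw [Multiset.map_map]
  refine AlgSpA_trace hc (·⁻¹) (fun z hz => ?_) n
  have h1 : IsNilpotent (u.restrict (Module.End.mapsTo_maxGenEigenspace_of_comm (Commute.refl u) z)
      - algebraMap ℂ (Module.End ℂ _) z) :=
    Module.End.isNilpotent_restrict_maxGenEigenspace_sub_algebraMap u z
  have : Nontrivial (Module.End.maxGenEigenspace u z) := Submodule.nontrivial_iff_ne_bot.2 hz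
  set u' := u.restrict (Module.End.mapsTo_maxGenEigenspace_of_comm (Commute.refl u) z)
  set v' := v.restrict (Module.End.mapsTo_maxGenEigenspace_of_comm hc z)
  have e1 : u' * v' = 1 := LinearMap.ext fun y => Subtype.ext (LinearMap.congr_fun huv y.1)
  have e2 : v' * u' = 1 := LinearMap.ext fun y => Subtype.ext (LinearMap.congr_fun hvu y.1)
  have hz0 : z ≠ 0 := by
    rintro rfl
    rw [map_zero, sub_zero] at h1
    exact h1.not_isUnit ⟨⟨u', v', e1, e2⟩, rfl⟩
  have e3 : v' - algebraMap ℂ (Module.End ℂ _) z⁻¹ =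
      (-z⁻¹) • (v' * (u' - algebraMap ℂ (Module.End ℂ _) z)) := by
    rw [mul_sub, e2, ← Algebra.commutes, ← Algebra.smul_def, smul_sub, smul_smul, neg_mul,
      inv_mul_cancel₀ hz0, Algebra.algebraMap_eq_smul_one]
    simp only [neg_smul, one_smul]
    abel
  rw [e3]
  exact (Commute.isNilpotent_mul_left (Commute.sub_right (e2.trans e1.symm)
    (Algebra.commute_algebraMap_right z v')) h1).smul _

theorem exists_mu {b : ℕ} (M : Matrix (Fin b) (Fin b) ℂ) : ∃ μ : Fin b → ℂ,
    M.charpoly = ∏ i, (X - C (μ i)) ∧ M.det = ∏ i, μ i ∧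
      (∀ n : ℕ, (M ^ n).trace = ∑ i, μ i ^ n) ∧ ∀ n : ℕ, (1 - M ^ n).det = ∏ i, (1 - μ i ^ n) := by
  have hcard : M.charpoly.roots.card = b := by
    rw [← (IsAlgClosed.splits M.charpoly).natDegree_eq_card_roots, charpoly_natDegree_eq_dim,
      Fintype.card_fin]
  obtain ⟨μ, hμ⟩ : ∃ μ : Fin b → ℂ, Finset.univ.val.map μ = M.charpoly.roots := by
    generalize M.charpoly.roots = R at hcard
    induction R using Quotient.inductionOn with
    | h l =>
      obtain rfl : l.length = b := hcard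
      exact ⟨l.get, by rw [Fin.univ_val_map, List.ofFn_get]; rfl⟩
  have ht : ∀ (N : Matrix (Fin b) (Fin b) ℂ) (n : ℕ),
      (N ^ n).trace = (N.charpoly.roots.map (· ^ n)).sum := by
    intro N n
    rw [← Matrix.charpoly_toLin', ← trace_pow_roots, ← Matrix.toLin'_pow, Matrix.trace_toLin'_eq]
  have hp : ∀ N : Matrix (Fin b) (Fin b) ℂ,
      N.charpoly = (N.charpoly.roots.map fun z => X - C z).prod := fun N =>
    (IsAlgClosed.splits N.charpoly).eq_prod_roots_of_monic N.charpoly_monic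
  refine ⟨μ, ?_, ?_, fun n => ?_, fun n => ?_⟩
  · rw [hp, ← hμ, Multiset.map_map]
    rfl
  · rw [Matrix.det_eq_prod_roots_charpoly, ← hμ]
    rfl
  · rw [ht, ← hμ, Multiset.map_map]
    rfl
  · have h1 : (M ^ n).charpoly.roots = M.charpoly.roots.map (· ^ n) := by
      refine ps_unique fun k => ?_
      rw [← ht, ← pow_mul, ht, Multiset.map_map]
      simp only [Function.comp_def, pow_mul]
    have h2 := Matrix.eval_charpoly (M ^ n) 1
    rw [map_one, hp, h1, ← hμ, Multiset.map_map, Multiset.map_map, eval_multiset_prod,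
      Multiset.map_map] at h2
    rw [← h2]
    simp [Finset.prod]

end SX4
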