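import Pool.Agent.P.MP_0a0487_an.SX.AlgSpA

/-! Eigenvalues on subquotients, isotropic subspaces and skew matrices. -/

set_option autoImplicit false
set_option linter.unusedSectionVars false

noncomputable section

namespace SX4

open Matrix

theorem SpB_tr {U V W : Type} [AddCommGroup U] [Module ℂ U] [AddCommGroup V] [Module ℂ V]
    [AddCommGroup W] [Module ℂ W] [FiniteDimensional ℂ V] {i : U →ₗ[ℂ] V} {q : V →ₗ[ℂ] W}
    (hi : Function.Injective i) (hq : Function.Surjective q) (he : ∀ x, q x = 0 ↔ ∃ y, i y = x)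
    {a : U →ₗ[ℂ] U} {u : V →ₗ[ℂ] V} {c : W →ₗ[ℂ] W} (ha : ∀ x, u (i x) = i (a x))
    (hc : ∀ x, q (u x) = c (q x)) (n : ℕ) : LinearMap.trace ℂ V (u ^ n) =
      LinearMap.trace ℂ U (a ^ n) + LinearMap.trace ℂ W (c ^ n) := by
  have := Module.Finite.of_injective i hi
  have := Module.Finite.of_surjective q hq
  have ha' : ∀ x, (u ^ n) (i x) = i ((a ^ n) x) := fun x => by
    simp only [Module.End.pow_apply]
    exact ((Function.Semiconj.iterate_right (f := i) (fun x => (ha x).symm) n) x).symm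
  have hc' : ∀ x, q ((u ^ n) x) = (c ^ n) (q x) := fun x => by
    simp only [Module.End.pow_apply]
    exact (Function.Semiconj.iterate_right (f := q) hc n) x
  obtain ⟨s, hs⟩ := q.exists_rightInverse_of_surjective (LinearMap.range_eq_top.2 hq)
  obtain ⟨l, hl⟩ := i.exists_leftInverse_of_injective (LinearMap.ker_eq_bot.2 hi)
  replace hs : ∀ x, q (s x) = x := LinearMap.congr_fun hs
  replace hl : ∀ x, l (i x) = x := LinearMap.congr_fun hl
  have h1 : u ^ n = ((u ^ n) ∘ₗ i) ∘ₗ (l ∘ₗ (1 - s ∘ₗ q)) + ((u ^ n) ∘ₗ s) ∘ₗ q := by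
    ext x
    obtain ⟨y, hy⟩ := (he (x - s (q x))).1 (by simp [hs])
    simp only [LinearMap.add_apply, LinearMap.comp_apply, LinearMap.sub_apply,
      Module.End.one_apply, ← hy, hl]
    rw [hy, ← map_add, sub_add_cancel]
  rw [h1, map_add, LinearMap.trace_comp_comm', LinearMap.trace_comp_comm' q]
  congr 2
  · ext x
    simp [ha', hl, (he _).2 ⟨_, rfl⟩]
  · ext x
    simp [hc', hs]

theorem SpB_half {T V : Type} [AddCommGroup T] [Module ℂ T] [AddCommGroup V] [Module ℂ V]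
    [FiniteDimensional ℂ V] (Φ : T →ₗ[ℂ] T) (α : T →ₗ[ℂ] V) {u : V →ₗ[ℂ] V}
    (hα : ∀ t, u (α t) = α (Φ t)) {Z : Submodule ℂ V} (hZ : Z ≤ LinearMap.range α)
    {J : Submodule ℂ T} (hJ : ∀ t, t ∈ J ↔ α t ∈ Z) {SZ : Multiset ℂ} (h1 : Sp u Z SZ) :
    FiniteDimensional ℂ (T ⧸ J) ∧ ∀ (c : (T ⧸ J) →ₗ[ℂ] T ⧸ J) (R : Multiset ℂ),
      (∀ t, c (J.mkQ t) = J.mkQ (Φ t)) →
      (∀ n : ℕ, LinearMap.trace ℂ _ (c ^ n) = (R.map (· ^ n)).sum) →
      Sp u (LinearMap.range α) (SZ + R) := by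
  obtain ⟨σ, hσ⟩ := α.rangeRestrict.exists_rightInverse_of_surjective α.range_rangeRestrict
  replace hσ : ∀ x, α (σ x) = x := fun x => congrArg Subtype.val (LinearMap.congr_fun hσ x)
  have h2 : ∀ t, (J.mkQ ∘ₗ σ) (α.rangeRestrict t) = J.mkQ t := fun t =>
    (Submodule.Quotient.eq J).2 ((hJ _).2 (by simp [hσ]))
  have h3 : Function.Surjective (J.mkQ ∘ₗ σ) := fun y => by
    obtain ⟨t, rfl⟩ := J.mkQ_surjective y
    exact ⟨_, h2 t⟩
  refine ⟨Module.Finite.of_surjective _ h3, fun c R hc hR => ?_⟩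
  have h4 : ∀ x ∈ LinearMap.range α, u x ∈ LinearMap.range α := by
    rintro _ ⟨t, rfl⟩
    exact ⟨_, (hα t).symm⟩
  obtain ⟨h5, h6⟩ := h1
  refine ⟨h4, fun n => ?_⟩
  rw [Multiset.map_add, Multiset.sum_add, ← h6, ← hR]
  refine SpB_tr (Submodule.inclusion_injective hZ) h3 (fun x => ?_) (fun x => rfl) (fun x => ?_) n
  · rw [LinearMap.comp_apply, Submodule.mkQ_apply, Submodule.Quotient.mk_eq_zero, hJ, hσ]
    exact ⟨fun h => ⟨⟨x, h⟩, rfl⟩, fun ⟨y, hy⟩ => hy ▸ y.2⟩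
  · obtain ⟨t, rfl⟩ := α.surjective_rangeRestrict x
    rw [h2, hc, ← h2]
    exact congrArg _ (Subtype.ext (hα t))

theorem SpB_trace {b : ℕ}
    (f : Matrix (Fin b) (Fin b) ℂ →ₗ[ℂ] Matrix (Fin b) (Fin b) ℂ) :
    LinearMap.trace ℂ _ f = ∑ i, ∑ j, f (single i j 1) i j := by
  rw [LinearMap.trace_eq_matrix_trace ℂ (stdBasis ℂ (Fin b) (Fin b)), Matrix.trace,
    Fintype.sum_prod_type]
  refine Finset.sum_congr rfl fun i _ => Finset.sum_congr rfl fun j _ => ?_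
  rw [diag_apply, LinearMap.toMatrix_apply, stdBasis_eq_single]
  simp [stdBasis]

theorem SpB_sq {b : ℕ} (x : Fin b → ℂ) :
    (∑ i, x i) * (∑ i, x i) - ∑ i, x i * x i =
      2 * ∑ p ∈ Finset.univ.filter fun p : Fin b × Fin b => p.1 < p.2, x p.1 * x p.2 := by
  have h1 : ∀ i j, x i * x j = (if i = j then x i * x j else 0) +
      ((if i < j then x i * x j else 0) + if j < i then x j * x i else 0) := fun i j => by
    rcases lt_trichotomy i j with h | h | h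
    · simp [h, h.ne, h.not_gt]
    · simp [h]
    · simp [h, h.ne', h.not_gt, mul_comm]
  rw [Finset.sum_mul_sum, Finset.sum_filter, Fintype.sum_prod_type,
    Finset.sum_congr rfl fun i _ => Finset.sum_congr rfl fun j _ => h1 i j]
  simp only [Finset.sum_add_distrib, Finset.sum_ite_eq, Finset.mem_univ, if_true]
  rw [Finset.sum_comm (f := fun i j => if j < i then x j * x i else 0)]
  ring

theorem Sp.subq {T V W : Type} [AddCommGroup T] [Module ℂ T] [AddCommGroup V] [Module ℂ V]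
    [AddCommGroup W] [Module ℂ W] [FiniteDimensional ℂ V] [FiniteDimensional ℂ W]
    (Φ : T →ₗ[ℂ] T) (α : T →ₗ[ℂ] V) (β : T →ₗ[ℂ] W) {u : V →ₗ[ℂ] V} {v : W →ₗ[ℂ] W} (m : ℂ)
    (hα : ∀ t, u (α t) = α (Φ t)) (hβ : ∀ t, v (β t) = m • β (Φ t)) {Z : Submodule ℂ V}
    {B : Submodule ℂ W} (hZ : Z ≤ LinearMap.range α) (hB : B ≤ LinearMap.range β)
    (hc : ∀ t, α t ∈ Z ↔ β t ∈ B) {SZ SB : Multiset ℂ} (h1 : Sp u Z SZ) (h2 : Sp v B SB) :
    ∃ R : Multiset ℂ, Sp u (LinearMap.range α) (SZ + R) ∧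
      Sp v (LinearMap.range β) (SB + R.map (m * ·)) := by
  have hJ : Z.comap α ≤ (Z.comap α).comap Φ := fun t ht => by
    rw [Submodule.mem_comap, Submodule.mem_comap, ← hα]
    exact h1.1 _ ht
  obtain ⟨h3, h4⟩ := SpB_half Φ α hα hZ (J := Z.comap α) (fun _ => Iff.rfl) h1
  obtain ⟨-, h5⟩ := SpB_half (m • Φ) β (fun t => by simp [hβ]) hB (J := Z.comap α) hc h2
  obtain ⟨R, hR⟩ := Sp.exi (u := Submodule.mapQ _ _ Φ hJ) (W := ⊤) fun _ _ => trivial
  rw [Sp.top_iff] at hR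
  refine ⟨R, h4 _ R (fun _ => rfl) hR, h5 (m • Submodule.mapQ _ _ Φ hJ) _ (fun _ => rfl) fun n => ?_⟩
  rw [_root_.smul_pow, map_smul, hR, Multiset.map_map, smul_eq_mul, ← Multiset.sum_map_mul_left]
  simp [mul_pow]

theorem Sp.le {V : Type} [AddCommGroup V] [Module ℂ V] [FiniteDimensional ℂ V] {u : V →ₗ[ℂ] V}
    {W W' : Submodule ℂ V} {S S' : Multiset ℂ} (h : Sp u W S) (h' : Sp u W' S') (hW : W ≤ W') :
    S ≤ S' := by
  obtain ⟨R, hR, -⟩ := Sp.subq (u.restrict h'.1) W'.subtype W'.subtype 1 (fun _ => rfl)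
    (fun _ => (one_smul _ _).symm) (by simpa using hW) (by simpa using hW) (fun _ => Iff.rfl) h h
  rw [Submodule.range_subtype] at hR
  rw [h'.unique hR]
  exact Multiset.le_add_right _ _

theorem Sp.iso {V : Type} [AddCommGroup V] [Module ℂ V] [FiniteDimensional ℂ V]
    (B : V →ₗ[ℂ] V →ₗ[ℂ] ℂ) (hs : ∀ x y, B x y = B y x) (hn : ∀ x, (∀ y, B x y = 0) → x = 0)
    {u : V →ₗ[ℂ] V} (hu : ∀ x y, B (u x) (u y) = B x y) {W : Submodule ℂ V}
    (hW : ∀ x ∈ W, ∀ y ∈ W, B x y = 0) {S S' : Multiset ℂ} (h : Sp u W S) (h' : Sp u ⊤ S') :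
    S + S.map (·⁻¹) ≤ S' := by
  obtain ⟨h1, h2⟩ := h
  have hB : Function.Injective B :=
    (injective_iff_map_eq_zero B).2 fun x hx => hn x fun y => by simp [hx]
  have hB' : Function.Surjective B :=
    (LinearMap.injective_iff_surjective_of_finrank_eq_finrank Subspace.dual_finrank_eq.symm).1 hB
  have ha : Function.Injective (u.restrict h1) := (injective_iff_map_eq_zero _).2 fun x hx =>
    Subtype.ext (hn x fun y => by
      rw [← hu, show u x = 0 from congrArg Subtype.val hx, map_zero, LinearMap.zero_apply])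
  obtain ⟨v, hv⟩ := (u.restrict h1).exists_rightInverse_of_surjective
    (LinearMap.range_eq_top.2 (LinearMap.injective_iff_surjective.1 ha))
  have h3 := Sp.top_iff.1 ((Sp.top_iff.2 h2).inv (v := v) hv)
  have hv' : ∀ y : W, u (v y) = y := fun y => congrArg Subtype.val (LinearMap.congr_fun hv y)
  have h4 : ∀ x, (W.subtype.dualMap ∘ₗ B) (u x) = v.dualMap ((W.subtype.dualMap ∘ₗ B) x) :=
    fun x => LinearMap.ext fun y => by
      change B (u x) y = B x (v y)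
      rw [← hu x, hv']
  have h5 : ∀ x ∈ LinearMap.ker (W.subtype.dualMap ∘ₗ B),
      u x ∈ LinearMap.ker (W.subtype.dualMap ∘ₗ B) := fun x hx => by
    rw [LinearMap.mem_ker] at hx ⊢
    rw [h4, hx, map_zero]
  obtain ⟨S'', h6⟩ := Sp.exi h5
  have h7 : ∀ n : ℕ, (v.dualMap : Module.End ℂ _) ^ n = (v ^ n).dualMap := fun n => by
    induction n with
    | zero => rfl
    | succ n ih => rw [pow_succ, ih, pow_succ']; rfl
  have h8 : S' = S'' + S.map (·⁻¹) := ps_unique fun n => by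
    have h9 : Function.Surjective (W.subtype.dualMap ∘ₗ B) :=
      (LinearMap.dualMap_surjective_of_injective W.injective_subtype).comp hB'
    have h10 := SpB_tr (a := u.restrict h5) (u := u)
      (LinearMap.ker (W.subtype.dualMap ∘ₗ B)).injective_subtype h9
      (fun x => ⟨fun h => ⟨⟨x, h⟩, rfl⟩, fun ⟨y, hy⟩ => hy ▸ y.2⟩) (fun x => rfl) h4 n
    rw [← Sp.top_iff.1 h' n, Multiset.map_add, Multiset.sum_add, ← h6.2 n, ← h3 n,
      ← LinearMap.trace_transpose' (v ^ n), h10, h7]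
    rfl
  rw [h8]
  exact add_le_add_left (Sp.le ⟨h1, h2⟩ h6 fun x hx => LinearMap.ext fun y => hW x hx y y.2) _

theorem Cx.iso_le {V0 V1 V2 : Type} [AddCommGroup V0] [Module ℂ V0] [AddCommGroup V1]
    [Module ℂ V1] [AddCommGroup V2] [Module ℂ V2] (c : Cx V0 V1 V2) (hnd : c.ND)
    [FiniteDimensional ℂ c.H2] (f : c.Mor) {W : Submodule ℂ c.H2} (hW : c.Iso W)
    {S S' : Multiset ℂ} (h : Sp f.h2 W S) (h' : Sp f.h2 ⊤ S') : S + S.map (·⁻¹) ≤ S' := by
  have h1 : (LinearMap.range c.d1).submoduleOf c.Z2 ≤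
      (c.B.domRestrict₁₂ c.Z2 c.Z2).flip.ker := by
    rintro x ⟨a, ha⟩
    refine LinearMap.ext fun y => ?_
    change c.B y x = 0
    rw [← show c.d1 a = x from ha, c.B_d _ y.2]
  have h2 : (LinearMap.range c.d1).submoduleOf c.Z2 ≤ (c.B.domRestrict₁₂ c.Z2 c.Z2).ker :=
    fun x hx => LinearMap.ext fun y => (c.B_symm _ _).trans (LinearMap.congr_fun (h1 hx) y)
  refine Sp.iso ((c.B.domRestrict₁₂ c.Z2 c.Z2).liftQ₂ _ _ h2 h1) ?_ ?_ ?_ ?_ h h'
  · rintro ⟨x⟩ ⟨y⟩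
    exact c.B_symm _ _
  · rintro ⟨x⟩ hx
    exact (Submodule.Quotient.mk_eq_zero _).2
      (hnd x x.2 fun y hy => hx (Submodule.Quotient.mk ⟨y, hy⟩))
  · rintro ⟨x⟩ ⟨y⟩
    exact f.F_B _ _
  · rintro ⟨x⟩ hx ⟨y⟩ hy
    exact hW x y hx hy

theorem Sp.skew {b : ℕ} (M : Matrix (Fin b) (Fin b) ℂ) (μ : Fin b → ℂ)
    (h : ∀ n : ℕ, (M ^ n).trace = ∑ i, μ i ^ n) : Sp (cj M) (Sk b) (lam2 μ) := by
  have h1 : ∀ N : Matrix (Fin b) (Fin b) ℂ, ∀ x ∈ Sk b, cj N x ∈ Sk b := fun N x hx => by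
    change (Nᵀ * x * N)ᵀ = -(Nᵀ * x * N)
    rw [transpose_mul, transpose_mul, transpose_transpose, show xᵀ = -x from hx]
    simp [Matrix.mul_assoc]
  have h2 : ∀ n : ℕ, cj M ^ n = cj (M ^ n) := fun n => by
    induction n with
    | zero => ext1 x; simp [cj]
    | succ n ih => rw [pow_succ', ih]; ext1 x; simp [cj, pow_succ, Matrix.mul_assoc]
  refine ⟨h1 M, fun n => ?_⟩
  set P : Matrix (Fin b) (Fin b) ℂ →ₗ[ℂ] Matrix (Fin b) (Fin b) ℂ :=
    (1 / 2 : ℂ) • (1 - (transposeLinearEquiv (Fin b) (Fin b) ℂ ℂ).toLinearMap) with hP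
  have h3 : ∀ x, P x = (1 / 2 : ℂ) • (x - xᵀ) := fun _ => rfl
  have h4 : ∀ x, (cj (M ^ n) ∘ₗ P) x ∈ Sk b := fun x => h1 (M ^ n) (P x) (by
    change (P x)ᵀ = -P x
    rw [h3, transpose_smul, transpose_sub, transpose_transpose, ← smul_neg, neg_sub])
  have h5 : (cj M).restrict (h1 M) ^ n = (cj (M ^ n) ∘ₗ P).restrict fun x _ => h4 x := by
    rw [Module.End.pow_restrict]
    refine LinearMap.ext fun x => Subtype.ext ?_
    change (cj M ^ n) x = cj (M ^ n) (P x)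
    rw [h2, h3, show (x : Matrix (Fin b) (Fin b) ℂ)ᵀ = -x from x.2]
    congr 1
    module
  have h6 : ∀ i j, (cj (M ^ n) ∘ₗ P) (single i j 1) i j =
      1 / 2 * ((M ^ n) i i * (M ^ n) j j - (M ^ n) j i * (M ^ n) i j) := fun i j => by
    change ((M ^ n)ᵀ * P (single i j 1) * M ^ n) i j = _
    generalize M ^ n = N
    simp [h3, mul_sub, sub_mul, mul_apply, single_apply, ite_and, mul_assoc]
  have h7 := h (n + n)
  rw [h5, LinearMap.trace_restrict_eq_of_forall_mem _ _ h4, SpB_trace, lam2, Multiset.map_map]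
  simp only [h6, ← Finset.mul_sum, Finset.sum_sub_distrib, ← Finset.sum_mul, pow_add] at h7 ⊢
  have h8 := SpB_sq fun i => μ i ^ n
  rw [← h7, ← h n] at h8
  simp only [Matrix.trace, diag_apply, mul_apply] at h8
  rw [Finset.sum_comm] at h8
  rw [h8]
  simp [mul_pow, Finset.sum]

end SX4
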