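import Pool.Agent.P.MP_0a0487_an.SX.Defs

/-! Algebraic consequences of the rules of the calculus. -/

set_option autoImplicit false
set_option linter.unusedSectionVars false

noncomputable section

namespace SX4

open scoped ComplexOrder ContDiff
open Filter Topology

theorem wt_bar (α : Fin 4) : wt (bar α) = -wt α := by
  fin_cases α <;> rfl

theorem bar_bar (α : Fin 4) : bar (bar α) = α := by
  fin_cases α <;> rfl

theorem sum_bar {M : Type} [AddCommMonoid M] (f : Fin 4 → M) : ∑ α, f (bar α) = ∑ α, f α := by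
  simp only [Fin.sum_univ_four]
  change f 1 + f 0 + f 3 + f 2 = _
  rw [add_comm (f 1), add_right_comm]

variable {P A : Type} [TopologicalSpace P] [CommRing A] [StarRing A] [Algebra ℂ A]
  [StarModule ℂ A] {B : Base P A}

theorem Base.ext' (B : Base P A) {s t : A} (h : ∀ p, B.ev s p = B.ev t p) : s = t :=
  B.ev_inj (ContinuousMap.ext h)

theorem Base.ev_star (B : Base P A) (s : A) (p : P) :
    B.ev (star s) p = (starRingEnd ℂ) (B.ev s p) := by
  rw [map_star]; rfl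

theorem Base.algebraMap_mem (B : Base P A) (c : ℂ) : algebraMap ℂ A c ∈ B.W 0 := by
  rw [Algebra.algebraMap_eq_smul_one]
  exact Submodule.smul_mem _ _ B.one_mem

theorem Base.mul_mem' (B : Base P A) {u v w : Wt} {s t : A} (hs : s ∈ B.W u) (ht : t ∈ B.W v)
    (h : u + v = w) : s * t ∈ B.W w := h ▸ B.mul_mem hs ht

theorem Base.star_mem' (B : Base P A) {u w : Wt} {s : A} (hs : s ∈ B.W u) (h : -u = w) :
    star s ∈ B.W w := h ▸ B.star_mem hs

theorem Base.pow_mem (B : Base P A) {s : A} (hs : s ∈ B.W 0) (n : ℕ) : s ^ n ∈ B.W 0 := by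
  induction n with
  | zero => rw [pow_zero]; exact B.one_mem
  | succ n ih => rw [pow_succ]; exact B.mul_mem' ih hs (add_zero _)

theorem Base.re0_iff (B : Base P A) {s : A} :
    B.Re0 s ↔ s ∈ B.W 0 ∧ ∀ p, (B.ev s p).im = 0 := by
  refine and_congr_right fun _ => ⟨fun h p => ?_, fun h => B.ext' fun p => ?_⟩
  · have e := B.ev_star s p
    rw [h] at e
    exact Complex.conj_eq_iff_im.1 e.symm
  · rw [B.ev_star]
    exact Complex.conj_eq_iff_im.2 (h p)

theorem Base.re0_star_mul (B : Base P A) {w : Wt} {s : A} (hs : s ∈ B.W w) :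
    B.Re0 (star s * s) :=
  ⟨B.mul_mem' (B.star_mem hs) hs (neg_add_cancel _), by rw [star_mul, star_star]⟩

theorem Base.Hom.mul {s t : A} (hs : B.Hom s) (ht : B.Hom t) : B.Hom (s * t) := by
  obtain ⟨u, hu⟩ := hs
  obtain ⟨v, hv⟩ := ht
  exact ⟨u + v, B.mul_mem hu hv⟩

theorem Base.Hom.star {s : A} (hs : B.Hom s) : B.Hom (star s) := by
  obtain ⟨u, hu⟩ := hs
  exact ⟨-u, B.star_mem hu⟩

/-- Every function is `a + i b` with real `a`, `b`. -/
theorem Base.exists_re_im (B : Base P A) {s : A} (hs : s ∈ B.W 0) :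
    ∃ a b, B.Re0 a ∧ B.Re0 b ∧ s = a + Complex.I • b := by
  have hs' : star s ∈ B.W 0 := B.star_mem' hs neg_zero
  refine ⟨(1 / 2 : ℂ) • (s + star s), (-Complex.I / 2 : ℂ) • (s - star s),
    ⟨Submodule.smul_mem _ _ (add_mem hs hs'), ?_⟩,
    ⟨Submodule.smul_mem _ _ (sub_mem hs hs'), ?_⟩, ?_⟩
  · rw [star_smul, star_add, star_star, add_comm]
    simp
  · rw [star_smul, star_sub, star_star, ← neg_sub s, smul_neg, ← neg_smul]
    simp [neg_div]
  · rw [smul_smul, show Complex.I * (-Complex.I / 2) = 1 / 2 by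
      linear_combination (-1 / 2 : ℂ) * Complex.I_mul_I]
    module

namespace Calc

variable (G : Calc B)

theorem D_mem' {u w : Wt} {s : A} (α : Fin 4) (hs : s ∈ B.W u) (h : u + wt α = w) :
    G.D α s ∈ B.W w := h ▸ G.D_mem α hs

theorem D_hom {s : A} (α : Fin 4) (hs : B.Hom s) : B.Hom (G.D α s) := by
  obtain ⟨u, hu⟩ := hs
  exact ⟨_, G.D_mem α hu⟩

theorem basic_D_one (α : Fin 4) : G.D α 1 = 0 := by
  have h := G.D_mul α 1 1
  rw [mul_one, mul_one, one_mul] at h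
  exact left_eq_add.1 h

theorem D_algebraMap (α : Fin 4) (c : ℂ) : G.D α (algebraMap ℂ A c) = 0 := by
  rw [Algebra.algebraMap_eq_smul_one, map_smul, G.basic_D_one, smul_zero]

theorem D_one (α : Fin 4) : G.D α 1 = 0 := G.basic_D_one α

theorem D_pow (α : Fin 4) (s : A) (n : ℕ) :
    G.D α (s ^ (n + 1)) = ((n : ℂ) + 1) • (s ^ n * G.D α s) := by
  induction n with
  | zero => simp
  | succ n ih =>
    rw [pow_succ, G.D_mul, ih, Nat.cast_succ, add_smul (_ + 1 : ℂ), one_smul, smul_mul_assoc,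
      mul_right_comm, ← pow_succ]

/-- The frame is pointwise independent. -/
theorem frame_unique (c : Fin 4 → ℂ) (p : P)
    (h : ∀ k, ∑ γ, c γ * B.ev (G.D γ (G.e k)) p = 0) : c = 0 := by
  funext δ
  have e : ∀ γ, ∑ k, B.ev (G.θ δ k) p * B.ev (G.D γ (G.e k)) p = if δ = γ then 1 else 0 := by
    intro γ
    have := congrArg (fun s => B.ev s p) (G.θ_dual δ γ)
    split_ifs at this ⊢ <;> simpa using this
  calc c δ = ∑ γ, c γ * ∑ k, B.ev (G.θ δ k) p * B.ev (G.D γ (G.e k)) p := by simp [e]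
    _ = ∑ k, B.ev (G.θ δ k) p * ∑ γ, c γ * B.ev (G.D γ (G.e k)) p := by
      simp only [Finset.mul_sum]
      rw [Finset.sum_comm]
      exact Finset.sum_congr rfl fun _ _ => Finset.sum_congr rfl fun _ _ => by ring
    _ = 0 := by simp [h]

theorem T_mem (α β γ : Fin 4) : G.T α β γ ∈ B.W (wt α + wt β - wt γ) := by
  refine Submodule.sum_mem _ fun k _ => B.mul_mem' (G.θ_mem γ k) (v := wt α + wt β)
    (sub_mem ?_ ?_) (by abel)
  · exact G.D_mem' α (G.D_mem β (G.e_re k).1) (by abel)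
  · exact G.D_mem' β (G.D_mem α (G.e_re k).1) (by abel)

theorem T_anti (α β γ : Fin 4) : G.T β α γ = -G.T α β γ := by
  simp only [T, ← Finset.sum_neg_distrib]
  exact Finset.sum_congr rfl fun _ _ => by ring

theorem T_star (α β γ : Fin 4) : star (G.T α β γ) = G.T (bar α) (bar β) (bar γ) := by
  simp only [T, star_sum, star_mul', star_sub, G.θ_star, G.D_star, (G.e_re _).2]

theorem basic_R_mem {w : Wt} {s : A} (hs : s ∈ B.W w) (α β : Fin 4) :
    G.R α β s ∈ B.W (w + (wt α + wt β)) :=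
  sub_mem (sub_mem (G.D_mem' α (G.D_mem β hs) (by abel)) (G.D_mem' β (G.D_mem α hs) (by abel)))
    (Submodule.sum_mem _ fun γ _ => B.mul_mem' (G.T_mem α β γ) (G.D_mem γ hs) (by abel))

theorem basic_R_anti (α β : Fin 4) (s : A) : G.R β α s = -G.R α β s := by
  simp only [R, G.T_anti α β, neg_mul, Finset.sum_neg_distrib]
  ring

theorem basic_cancel {x : A} (γ : Fin 4) (h : ∀ k, x * G.D γ (G.e k) = 0) : x = 0 := by
  have e := G.θ_dual γ γ
  rw [if_pos rfl] at e
  rw [← mul_one x, ← e, Finset.mul_sum]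
  exact Finset.sum_eq_zero fun k _ => by rw [mul_left_comm, h, mul_zero]

theorem basic_R_eq {w : Wt} {s : A} (hs : s ∈ B.W w) (α β : Fin 4) :
    G.R α β s = G.Fw w α β * s := by
  refine B.ext' fun p => ?_
  obtain ⟨t, f, h⟩ := G.comm_pt α β p
  have e : ∀ δ γ, ∑ k, B.ev (G.θ δ k) p * B.ev (G.D γ (G.e k)) p = if δ = γ then 1 else 0 := by
    intro δ γ
    have := congrArg (fun s => B.ev s p) (G.θ_dual δ γ)
    split_ifs at this ⊢ <;> simpa using this
  have hT : ∀ γ, B.ev (G.T α β γ) p = t γ := by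
    intro γ
    have h1 : B.ev (G.T α β γ) p = ∑ k, B.ev (G.θ γ k) p *
        B.ev (G.D α (G.D β (G.e k)) - G.D β (G.D α (G.e k))) p := by
      simp only [T, map_sum, map_mul, ContinuousMap.coe_sum, Finset.sum_apply,
        ContinuousMap.mul_apply]
    calc _ = ∑ k, B.ev (G.θ γ k) p * ∑ δ, t δ * B.ev (G.D δ (G.e k)) p := by
          rw [h1]
          refine Finset.sum_congr rfl fun k _ => ?_
          rw [h 0 _ (G.e_re k).1]
          simp
      _ = ∑ δ, t δ * ∑ k, B.ev (G.θ γ k) p * B.ev (G.D δ (G.e k)) p := by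
          simp only [Finset.mul_sum]
          rw [Finset.sum_comm]
          exact Finset.sum_congr rfl fun _ _ => Finset.sum_congr rfl fun _ _ => by ring
      _ = t γ := by simp [e]
  have hR : ∀ w : Wt, ∀ s ∈ B.W w,
      B.ev (G.R α β s) p = ((w.1 : ℂ) * f 0 + (w.2 : ℂ) * f 1) * B.ev s p := by
    intro w s hs
    rw [R, map_sub, ContinuousMap.sub_apply, h w s hs]
    simp [hT]
  have hF : ∀ γ, ∑ k, B.ev (G.θ γ k) p * B.ev (G.R α β (G.D γ (G.e k))) p =
      ((wt γ).1 : ℂ) * f 0 + ((wt γ).2 : ℂ) * f 1 := by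
    intro γ
    have e' := e γ γ
    rw [if_pos rfl] at e'
    rw [← mul_one (_ + _ : ℂ), ← e', Finset.mul_sum]
    refine Finset.sum_congr rfl fun k _ => ?_
    rw [hR (wt γ) _ (G.D_mem' γ (G.e_re k).1 (zero_add _))]
    ring
  have h0 : B.ev (G.F 0 α β) p = f 0 := by simpa [F, wt] using hF 0
  have h1 : B.ev (G.F 1 α β) p = f 1 := by simpa [F, wt] using hF 2
  rw [hR w s hs]
  simp [Fw, h0, h1]

theorem basic_Fw_wt (j : Fin 2) (α β : Fin 4) : G.Fw (wt (![0, 2] j)) α β = G.F j α β := by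
  fin_cases j <;> simp [Fw, wt]

theorem basic_Fw_neg (w : Wt) (α β : Fin 4) : G.Fw (-w) α β = -G.Fw w α β := by
  simp only [Fw, Prod.fst_neg, Prod.snd_neg, Int.cast_neg, neg_smul, neg_add]

theorem basic_R_star (α β : Fin 4) (s : A) :
    star (G.R α β s) = G.R (bar α) (bar β) (star s) := by
  simp only [R, star_sub, star_sum, star_mul', G.T_star, G.D_star]
  rw [sum_bar fun γ => G.T (bar α) (bar β) γ * G.D γ (star s)]

theorem F_form (j : Fin 2) : B.Form2 (G.F j) := by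
  intro α β
  refine ⟨Submodule.sum_mem _ fun k _ => B.mul_mem' (G.θ_mem _ k)
    (G.basic_R_mem (G.D_mem _ (G.e_re k).1) α β) (by abel), ?_⟩
  simp only [F, G.basic_R_anti α β, mul_neg, Finset.sum_neg_distrib]

theorem F_star (j : Fin 2) (α β : Fin 4) : star (G.F j α β) = -G.F j (bar α) (bar β) := by
  refine eq_neg_iff_add_eq_zero.2 (G.basic_cancel (bar (![0, 2] j)) fun k => ?_)
  have hs := G.D_mem' (![0, 2] j) (G.e_re k).1 (zero_add _)
  have h := G.basic_R_star α β (G.D (![0, 2] j) (G.e k))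
  rw [G.basic_R_eq hs, G.basic_R_eq (B.star_mem hs), G.basic_Fw_neg, G.basic_Fw_wt, G.basic_Fw_wt,
    star_mul', G.D_star, (G.e_re k).2] at h
  linear_combination h

theorem Fw_form (w : Wt) : B.Form2 (G.Fw w) := by
  intro α β
  refine ⟨add_mem (Submodule.smul_mem _ _ (G.F_form 0 α β).1)
    (Submodule.smul_mem _ _ (G.F_form 1 α β).1), ?_⟩
  rw [Fw, Fw, (G.F_form 0 α β).2, (G.F_form 1 α β).2, smul_neg, smul_neg, neg_add]

theorem Fw_star (w : Wt) (α β : Fin 4) : star (G.Fw w α β) = -G.Fw w (bar α) (bar β) := by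
  simp only [Fw, star_add, star_smul, G.F_star, smul_neg, neg_add, star_intCast]

theorem Fw_add (u v : Wt) (α β : Fin 4) : G.Fw (u + v) α β = G.Fw u α β + G.Fw v α β := by
  simp only [Fw, Prod.fst_add, Prod.snd_add, Int.cast_add, add_smul]
  abel

theorem Fw_zero (α β : Fin 4) : G.Fw 0 α β = 0 := by
  simp [Fw]

/-- The commutator of two frame fields. -/
theorem comm {w : Wt} {s : A} (hs : s ∈ B.W w) (α β : Fin 4) :
    G.D α (G.D β s) - G.D β (G.D α s) = ∑ γ, G.T α β γ * G.D γ s + G.Fw w α β * s := by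
  rw [← G.basic_R_eq hs, R, add_sub_cancel]

/-- Functional calculus in one variable. -/
theorem fc1 {φ : ℝ → ℝ} {U : Set ℝ} (hU : IsOpen U) (hφ : ContDiffOn ℝ ∞ φ U) {u : A}
    (hu : B.Re0 u) (hr : ∀ p, (B.ev u p).re ∈ U) :
    ∃ v v', B.Re0 v ∧ B.Re0 v' ∧ (∀ p, B.ev v p = (φ (B.ev u p).re : ℝ)) ∧
      (∀ p, B.ev v' p = (deriv φ (B.ev u p).re : ℝ)) ∧ ∀ α, G.D α v = v' * G.D α u := by
  have key : ∀ ψ : ℝ → ℝ, ContDiffOn ℝ ∞ ψ U → ∃ v, B.Re0 v ∧
      (∀ p, B.ev v p = (ψ (B.ev u p).re : ℝ)) ∧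
      ∀ α p, B.ev (G.D α v) p = (deriv ψ (B.ev u p).re : ℝ) * B.ev (G.D α u) p := by
    intro ψ hψ
    obtain ⟨v, h1, h2, h3⟩ := G.fc (ι := Unit) (fun x => ψ (x ())) {x | x () ∈ U}
      (hU.preimage (continuous_apply ())) (hψ.comp (contDiff_apply ℝ ℝ ()).contDiffOn fun _ h => h)
      (fun _ => u) (fun _ => hu) hr
    refine ⟨v, h1, h2, fun α p => ?_⟩
    have hd : HasDerivAt ψ (deriv ψ (B.ev u p).re) (B.ev u p).re :=
      ((hψ.contDiffAt (hU.mem_nhds (hr p))).differentiableAt (by simp)).hasDerivAt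
    have hf := hd.comp_hasFDerivAt (fun _ : Unit => (B.ev u p).re)
      (hasFDerivAt_apply (𝕜 := ℝ) () (fun _ : Unit => (B.ev u p).re))
    have hf' : fderiv ℝ (fun x : Unit → ℝ => ψ (x ())) (fun _ => (B.ev u p).re) = _ := hf.fderiv
    rw [h3, Fintype.sum_unique, hf']
    simp
  obtain ⟨v, h1, h2, h3⟩ := key φ hφ
  obtain ⟨v', h4, h5, -⟩ := key (deriv φ) (hφ.deriv_of_isOpen hU (by simp))
  refine ⟨v, v', h1, h4, h2, h5, fun α => B.ext' fun p => ?_⟩
  rw [h3, map_mul, ContinuousMap.mul_apply, h5]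

include G in
theorem exists_inv {w : Wt} {s : A} (hs : s ∈ B.W w) (h : ∀ p, B.ev s p ≠ 0) :
    ∃ t ∈ B.W (-w), s * t = 1 := by
  have e : ∀ p, B.ev (star s * s) p = (Complex.normSq (B.ev s p) : ℝ) := fun p => by
    rw [map_mul, ContinuousMap.mul_apply, B.ev_star, Complex.normSq_eq_conj_mul_self]
  obtain ⟨v, -, h1, -, h2, -⟩ := G.fc1 (φ := fun x => x⁻¹) (U := {0}ᶜ) isOpen_compl_singleton
    (contDiffOn_inv ℝ) (B.re0_star_mul hs) (fun p => by
      rw [e, Complex.ofReal_re]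
      exact fun h0 => h p (Complex.normSq_eq_zero.1 h0))
  refine ⟨star s * v, B.mul_mem' (B.star_mem hs) h1.1 (add_zero _), B.ext' fun p => ?_⟩
  rw [← mul_assoc, mul_comm s, map_mul, ContinuousMap.mul_apply, h2, e, Complex.ofReal_re,
    ← Complex.ofReal_mul, mul_inv_cancel₀ fun h0 => h p (Complex.normSq_eq_zero.1 h0)]
  simp

include G in
theorem exists_sqrt {u : A} (hu : B.Re0 u) (h : ∀ p, 0 < (B.ev u p).re) :
    ∃ v, B.Re0 v ∧ (∀ p, 0 < (B.ev v p).re) ∧ v * v = u := by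
  obtain ⟨v, -, h1, -, h2, -⟩ := G.fc1 (φ := fun x => √x) (U := Set.Ioi 0) isOpen_Ioi
    (fun x hx => (Real.contDiffAt_sqrt (ne_of_gt hx)).contDiffWithinAt) hu h
  refine ⟨v, h1, fun p => ?_, B.ext' fun p => ?_⟩
  · rw [h2, Complex.ofReal_re]
    exact Real.sqrt_pos.2 (h p)
  · rw [map_mul, ContinuousMap.mul_apply, h2, ← Complex.ofReal_mul, Real.mul_self_sqrt (h p).le]
    exact Complex.ext rfl ((B.re0_iff.1 hu).2 p).symm

include G in
/-- Normalisation of a family without common zero. -/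
theorem exists_normalize {ι : Type} [Fintype ι] {w : Wt} {s : ι → A} (hs : ∀ i, s i ∈ B.W w)
    (h : ∀ p, ∃ i, B.ev (s i) p ≠ 0) :
    ∃ t : ι → A, (∀ i, t i ∈ B.W w) ∧ ∑ i, star (t i) * t i = 1 := by
  have hu : B.Re0 (∑ i, star (s i) * s i) :=
    ⟨Submodule.sum_mem _ fun i _ => (B.re0_star_mul (hs i)).1, by
      rw [star_sum]
      exact Finset.sum_congr rfl fun i _ => (B.re0_star_mul (hs i)).2⟩
  obtain ⟨v, h1, h2, h3⟩ := G.exists_sqrt hu fun p => by
    have e : (B.ev (∑ i, star (s i) * s i) p).re = ∑ i, Complex.normSq (B.ev (s i) p) := by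
      simp only [map_sum, map_mul, ContinuousMap.coe_sum, Finset.sum_apply,
        ContinuousMap.mul_apply, B.ev_star, ← Complex.normSq_eq_conj_mul_self, Complex.re_sum,
        Complex.ofReal_re]
    obtain ⟨i, hi⟩ := h p
    rw [e]
    exact Finset.sum_pos' (fun i _ => Complex.normSq_nonneg _)
      ⟨i, Finset.mem_univ _, Complex.normSq_pos.2 hi⟩
  obtain ⟨r, h4, h5⟩ := G.exists_inv h1.1 fun p h0 => by
    have := h2 p
    rw [h0] at this
    exact lt_irrefl _ this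
  have h6 := congrArg star h5
  rw [star_mul', h1.2, star_one] at h6
  refine ⟨fun i => s i * r, fun i => B.mul_mem' (hs i) h4 (by simp), ?_⟩
  calc ∑ i, star (s i * r) * (s i * r) = (∑ i, star (s i) * s i) * (star r * r) := by
        rw [Finset.sum_mul]
        exact Finset.sum_congr rfl fun i _ => by rw [star_mul']; ring
    _ = (v * star r) * (v * r) := by rw [← h3]; ring
    _ = 1 := by rw [h5, h6, mul_one]

include G in
theorem exists_gens (w : Wt) :
    ∃ (n : ℕ) (t : Fin n → A), (∀ i, t i ∈ B.W w) ∧ ∑ i, star (t i) * t i = 1 := by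
  let S : AddSubgroup Wt :=
    { carrier := {w | ∃ (ι : Type) (_ : Fintype ι) (t : ι → A), (∀ i, t i ∈ B.W w) ∧
        ∑ i, star (t i) * t i = 1}
      add_mem' := by
        rintro u v ⟨ι, _, t, h1, h2⟩ ⟨κ, _, r, h3, h4⟩
        refine ⟨ι × κ, inferInstance, fun x => t x.1 * r x.2, fun x => B.mul_mem (h1 _) (h3 _), ?_⟩
        have e : (∑ i, star (t i) * t i) * ∑ j, star (r j) * r j = 1 := by rw [h2, h4, mul_one]
        rw [Fintype.sum_prod_type, ← e, Finset.sum_mul_sum]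
        exact Finset.sum_congr rfl fun i _ => Finset.sum_congr rfl fun j _ => by
          rw [star_mul']; ring
      zero_mem' := ⟨Unit, inferInstance, fun _ => 1, fun _ => B.one_mem, by simp⟩
      neg_mem' := by
        rintro u ⟨ι, _, t, h1, h2⟩
        refine ⟨ι, inferInstance, fun i => star (t i), fun i => B.star_mem (h1 i), ?_⟩
        rw [← h2]
        exact Finset.sum_congr rfl fun i _ => by rw [star_star, mul_comm] }
  have hb : ∀ α, wt α ∈ S := by
    intro α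
    obtain ⟨t, h1, h2⟩ := G.exists_normalize (s := fun k => G.D α (G.e k))
      (fun k => G.D_mem' α (G.e_re k).1 (zero_add _)) fun p => by
        by_contra hc
        push Not at hc
        have := congrArg (fun s => B.ev s p) (G.θ_dual α α)
        simp [hc] at this
    exact ⟨_, inferInstance, t, h1, h2⟩
  have hw : w ∈ S := by
    have e : w = w.1 • wt 0 + w.2 • wt 2 := by ext <;> simp [wt]
    rw [e]
    exact add_mem (zsmul_mem (hb 0) _) (zsmul_mem (hb 2) _)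
  obtain ⟨ι, _, t, h1, h2⟩ := hw
  refine ⟨Fintype.card ι, fun i => t ((Fintype.equivFin ι).symm i), fun i => h1 _, ?_⟩
  rw [← h2]
  exact Equiv.sum_comp (Fintype.equivFin ι).symm fun i => star (t i) * t i

theorem d0_form {s : A} (hs : s ∈ B.W 0) : B.Form1 (G.d0 s) := fun α =>
  G.D_mem' α hs (zero_add _)

theorem d0_re {s : A} (hs : B.Re0 s) : B.Re1 (G.d0 s) := fun α =>
  ⟨G.d0_form hs.1 α, by rw [d0, d0, G.D_star, hs.2]⟩

theorem w1_form {a b : Fin 4 → A} (ha : B.Form1 a) (hb : B.Form1 b) : B.Form2 (w1 a b) :=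
  fun α β => ⟨sub_mem (B.mul_mem (ha α) (hb β)) (B.mul_mem' (ha β) (hb α) (add_comm _ _)),
    by simp only [w1]; ring⟩

theorem w1_re {a b : Fin 4 → A} (ha : B.Re1 a) (hb : B.Re1 b) : B.Re2 (w1 a b) :=
  ⟨w1_form (fun α => (ha α).1) fun α => (hb α).1, fun α β => by
    simp only [w1, star_sub, star_mul', (ha _).2, (hb _).2]⟩

theorem dd_form {p q : A} (hp : p ∈ B.W 0) (hq : q ∈ B.W 0) : B.Form2 (G.dd p q) :=
  w1_form (G.d0_form hp) (G.d0_form hq)

theorem dd_re {p q : A} (hp : B.Re0 p) (hq : B.Re0 q) : B.Re2 (G.dd p q) :=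
  w1_re (G.d0_re hp) (G.d0_re hq)

/-- Every 1-form is `∑ h k * d (e k)`. -/
theorem form1_eq (a : Fin 4 → A) (α : Fin 4) :
    a α = ∑ k, (∑ γ, a γ * G.θ γ k) * G.D α (G.e k) := by
  calc a α = ∑ γ, a γ * ∑ k, G.θ γ k * G.D α (G.e k) := by simp [G.θ_dual]
    _ = _ := by
      simp only [Finset.mul_sum, Finset.sum_mul]
      rw [Finset.sum_comm]
      exact Finset.sum_congr rfl fun _ _ => Finset.sum_congr rfl fun _ _ => by ring

theorem form1_coef_mem {a : Fin 4 → A} (ha : B.Form1 a) (k : Fin G.N) :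
    ∑ γ, a γ * G.θ γ k ∈ B.W 0 :=
  Submodule.sum_mem _ fun γ _ => B.mul_mem' (ha γ) (G.θ_mem γ k) (add_neg_cancel _)

theorem form1_coef_re {a : Fin 4 → A} (ha : B.Re1 a) (k : Fin G.N) :
    B.Re0 (∑ γ, a γ * G.θ γ k) := by
  refine ⟨G.form1_coef_mem (fun α => (ha α).1) k, ?_⟩
  simp only [star_sum, star_mul', (ha _).2, G.θ_star]
  exact sum_bar fun γ => a γ * G.θ γ k

theorem d1_eq (a : Fin 4 → A) (α β : Fin 4) :
    G.d1 a α β = ∑ k, G.dd (∑ γ, a γ * G.θ γ k) (G.e k) α β := by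
  have e : ∑ γ, G.T α β γ * a γ = ∑ k, (∑ γ, a γ * G.θ γ k) *
      (G.D α (G.D β (G.e k)) - G.D β (G.D α (G.e k))) := by
    simp only [T, Finset.sum_mul]
    rw [Finset.sum_comm]
    exact Finset.sum_congr rfl fun _ _ => Finset.sum_congr rfl fun _ _ => by ring
  rw [d1, e, congrArg (G.D α) (G.form1_eq a β), congrArg (G.D β) (G.form1_eq a α), map_sum, map_sum,
    ← Finset.sum_sub_distrib, ← Finset.sum_sub_distrib]
  refine Finset.sum_congr rfl fun k _ => ?_
  simp only [G.D_mul, dd, w1, d0]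
  ring

theorem d1_mul (s : A) (a : Fin 4 → A) (α β : Fin 4) :
    G.d1 (fun γ => s * a γ) α β = w1 (G.d0 s) a α β + s * G.d1 a α β := by
  simp only [d1, w1, d0, G.D_mul, Fin.sum_univ_four]
  ring

theorem d1_add (a b : Fin 4 → A) (α β : Fin 4) :
    G.d1 (a + b) α β = G.d1 a α β + G.d1 b α β := by
  simp only [d1, Pi.add_apply, map_add, Fin.sum_univ_four]
  ring

theorem d1_smul (c : ℂ) (a : Fin 4 → A) (α β : Fin 4) :
    G.d1 (c • a) α β = c • G.d1 a α β := by
  simp only [d1, Pi.smul_apply, map_smul, mul_smul_comm, smul_sub, Finset.smul_sum]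

theorem d1_d0 {s : A} (hs : s ∈ B.W 0) (α β : Fin 4) : G.d1 (G.d0 s) α β = 0 := by
  simp only [d1, d0]
  rw [G.comm hs, G.Fw_zero, zero_mul, add_zero, sub_self]

theorem d1_mul_d0 (s : A) {t : A} (ht : t ∈ B.W 0) (α β : Fin 4) :
    G.d1 (fun γ => s * G.D γ t) α β = G.dd s t α β := by
  have h := G.d1_mul s (G.d0 t) α β
  rw [G.d1_d0 ht, mul_zero, add_zero] at h
  exact h

theorem d1_form {a : Fin 4 → A} (ha : B.Form1 a) : B.Form2 (G.d1 a) := by
  intro α β
  refine ⟨sub_mem (sub_mem (G.D_mem' α (ha β) (add_comm _ _)) (G.D_mem β (ha α)))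
    (Submodule.sum_mem _ fun γ _ => B.mul_mem' (G.T_mem α β γ) (ha γ) (sub_add_cancel _ _)), ?_⟩
  simp only [d1, G.T_anti α β, neg_mul, Finset.sum_neg_distrib]
  ring

theorem d1_re {a : Fin 4 → A} (ha : B.Re1 a) : B.Re2 (G.d1 a) := by
  refine ⟨G.d1_form fun α => (ha α).1, fun α β => ?_⟩
  simp only [d1, star_sub, star_sum, star_mul', G.T_star, G.D_star, (ha _).2]
  rw [sum_bar fun γ => G.T (bar α) (bar β) γ * a γ]

/-- Every 2-form is `∑ c k l * d (e k) ∧ d (e l)`. -/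
theorem form2_eq {b : Fin 4 → Fin 4 → A} (hb : ∀ α β, b β α = -b α β) (α β : Fin 4) :
    b α β = ∑ k, ∑ l, ((1 / 2 : ℂ) • ∑ γ, ∑ δ, b γ δ * G.θ γ k * G.θ δ l) *
      G.dd (G.e k) (G.e l) α β := by
  have key : ∀ α β, b α β = ∑ k, ∑ l, (∑ γ, ∑ δ, b γ δ * G.θ γ k * G.θ δ l) *
      (G.D α (G.e k) * G.D β (G.e l)) := by
    intro α β
    rw [G.form1_eq (b α) β, Finset.sum_comm]
    refine Finset.sum_congr rfl fun l _ => ?_
    rw [G.form1_eq (fun γ => ∑ δ, b γ δ * G.θ δ l) α, Finset.sum_mul]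
    refine Finset.sum_congr rfl fun k _ => ?_
    rw [mul_assoc]
    refine congrArg (· * _) (Finset.sum_congr rfl fun γ _ => ?_)
    rw [Finset.sum_mul]
    exact Finset.sum_congr rfl fun δ _ => by ring
  simp only [dd, w1, d0, mul_sub, smul_mul_assoc, Finset.sum_sub_distrib, ← Finset.smul_sum]
  rw [← key, ← key, hb α β]
  module

theorem X_mem {a : Fin 4 → A} (ha : B.Form1 a) {w : Wt} {s : A} (hs : s ∈ B.W w) (α : Fin 4) :
    G.X a α s ∈ B.W (w + wt α) :=
  add_mem (G.D_mem α hs) (Submodule.smul_mem _ _ (B.mul_mem' (ha α) hs (add_comm _ _)))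

theorem X_comm (a : Fin 4 → A) {w : Wt} {s : A} (hs : s ∈ B.W w) (α β : Fin 4) :
    G.X a α (G.X a β s) - G.X a β (G.X a α s) =
      ∑ γ, G.T α β γ * G.X a γ s + (G.Fw w α β + Complex.I • G.d1 a α β) * s := by
  have h := G.comm hs α β
  simp only [X, d1, map_add, map_smul, G.D_mul, Fin.sum_univ_four] at h ⊢
  simp only [Algebra.smul_def]
  linear_combination h

theorem X_mul (a : Fin 4 → A) (α : Fin 4) (s t : A) :
    G.X a α (s * t) = G.D α s * t + s * G.X a α t := by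
  simp only [X, G.D_mul, Algebra.smul_def]
  ring

theorem D_star_mul {a : Fin 4 → A} (ha : B.Re1 a) (α : Fin 4) (s t : A) :
    G.D α (star s * t) = star (G.X a (bar α) s) * t + star s * G.X a α t := by
  simp only [X, G.D_mul, star_add, star_smul, star_mul', G.D_star, (ha _).2, bar_bar,
    Complex.star_def, Complex.conj_I, neg_smul]
  simp only [Algebra.smul_def]
  ring

/-- The exterior derivative of `h * dp ∧ dq`. -/
theorem d2_mul_dd (h : A) {p q : A} (hp : p ∈ B.W 0) (hq : q ∈ B.W 0) (α β γ : Fin 4) :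
    G.d2 (fun μ ν => h * G.dd p q μ ν) α β γ =
      G.D α h * G.dd p q β γ + G.D β h * G.dd p q γ α + G.D γ h * G.dd p q α β := by
  have p1 := G.comm hp α β
  have p2 := G.comm hp β γ
  have p3 := G.comm hp γ α
  have q1 := G.comm hq α β
  have q2 := G.comm hq β γ
  have q3 := G.comm hq γ α
  simp only [d2, d2t, dd, w1, d0, map_sub, G.D_mul, G.Fw_zero, Fin.sum_univ_four] at *
  linear_combination (h * G.D γ q) * p1 + (h * G.D α q) * p2 + (h * G.D β q) * p3 -
    (h * G.D γ p) * q1 - (h * G.D α p) * q2 - (h * G.D β p) * q3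

theorem d2_d1 {a : Fin 4 → A} (ha : B.Form1 a) (α β γ : Fin 4) : G.d2 (G.d1 a) α β γ = 0 := by
  have e : G.d1 a = fun μ ν => ∑ k, G.dd (∑ γ, a γ * G.θ γ k) (G.e k) μ ν :=
    funext fun μ => funext fun ν => G.d1_eq a μ ν
  have h : ∀ k, G.d2 (G.dd (∑ γ, a γ * G.θ γ k) (G.e k)) α β γ = 0 := by
    intro k
    have := G.d2_mul_dd 1 (G.form1_coef_mem ha k) (G.e_re k).1 α β γ
    simpa only [one_mul, G.D_one, zero_mul, add_zero] using this
  have t : ∀ α β γ, G.d2t (fun μ ν => ∑ k, G.dd (∑ γ, a γ * G.θ γ k) (G.e k) μ ν) α β γ =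
      ∑ k, G.d2t (G.dd (∑ γ, a γ * G.θ γ k) (G.e k)) α β γ := by
    intro α β γ
    simp only [d2t, map_sum (G.D α), Finset.sum_sub_distrib, Finset.mul_sum]
    rw [Finset.sum_comm]
  rw [e, d2, t, t, t, ← Finset.sum_add_distrib, ← Finset.sum_add_distrib]
  exact Finset.sum_eq_zero fun k _ => h k

/-- The first order part of one term of the Jacobi identity. -/
def basicJ (α β γ : Fin 4) : (Fin 4 → A) →ₗ[A] A :=
  ∑ ε, (G.D α (G.T β γ ε) + ∑ δ, G.T β γ δ * G.T α δ ε) • LinearMap.proj ε -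
    G.Fw (wt α) β γ • LinearMap.proj α

theorem basic_jac1 {w : Wt} {s : A} (hs : s ∈ B.W w) (α β γ : Fin 4) :
    G.D α (G.D β (G.D γ s)) - G.D α (G.D γ (G.D β s)) -
      (G.D β (G.D γ (G.D α s)) - G.D γ (G.D β (G.D α s))) =
    G.basicJ α β γ (G.d0 s) + (G.D α (G.Fw w β γ) - ∑ δ, G.T β γ δ * G.Fw w δ α) * s := by
  have h1 := congrArg (G.D α) (G.comm hs β γ)
  have h2 := G.comm (G.D_mem α hs) β γ
  have h3 := G.comm hs α
  have h4 := fun δ => (G.Fw_form w α δ).2
  rw [G.Fw_add] at h2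
  simp only [basicJ, d0, map_sub, map_add, G.D_mul, Fin.sum_univ_four, LinearMap.sub_apply,
    LinearMap.add_apply, LinearMap.smul_apply, LinearMap.proj_apply, smul_eq_mul] at h1 h2 h3 ⊢
  linear_combination h1 - h2 + G.T β γ 0 * h3 0 + G.T β γ 1 * h3 1 + G.T β γ 2 * h3 2 +
    G.T β γ 3 * h3 3 + (G.T β γ 0 * h4 0 + G.T β γ 1 * h4 1 + G.T β γ 2 * h4 2 +
    G.T β γ 3 * h4 3) * s

theorem basic_jac {w : Wt} {s : A} (hs : s ∈ B.W w) (α β γ : Fin 4) :
    G.basicJ α β γ (G.d0 s) + G.basicJ β γ α (G.d0 s) + G.basicJ γ α β (G.d0 s) +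
      G.d2 (G.Fw w) α β γ * s = 0 := by
  have h1 := G.basic_jac1 hs α β γ
  have h2 := G.basic_jac1 hs β γ α
  have h3 := G.basic_jac1 hs γ α β
  simp only [d2, d2t]
  linear_combination -h1 - h2 - h3

/-- The Bianchi identity. -/
theorem d2_F (j : Fin 2) (α β γ : Fin 4) : G.d2 (G.F j) α β γ = 0 := by
  have h0 : ∀ a, G.basicJ α β γ a + G.basicJ β γ α a + G.basicJ γ α β a = 0 := by
    intro a
    have e : a = ∑ k, (∑ γ, a γ * G.θ γ k) • G.d0 (G.e k) := by
      funext δ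
      rw [Finset.sum_apply]
      exact G.form1_eq a δ
    rw [e]
    simp only [map_sum, map_smul, ← Finset.sum_add_distrib, ← smul_add]
    refine Finset.sum_eq_zero fun k _ => ?_
    have h := G.basic_jac (G.e_re k).1 α β γ
    have z : G.d2 (G.Fw 0) α β γ = 0 := by simp [d2, d2t, G.Fw_zero]
    rw [z, zero_mul, add_zero] at h
    rw [h, smul_zero]
  refine G.basic_cancel (![0, 2] j) fun k => ?_
  have h := G.basic_jac (G.D_mem' (![0, 2] j) (G.e_re k).1 (zero_add _)) α β γ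
  have e : G.Fw (wt (![0, 2] j)) = G.F j := funext fun μ => funext fun ν => G.basic_Fw_wt j μ ν
  rwa [h0, zero_add, e] at h

end Calc

end SX4
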