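import Pool.Agent.P.MP_0a0487_an.SX.CohGeo
import Pool.Agent.P.MP_0a0487_an.SX.NoPair
import Pool.Agent.P.MP_0a0487_an.SX.FrDefs
import Pool.Agent.P.MP_0a0487_an.SX.GrDefs
import Pool.Agent.P.MP_0a0487_an.GZ.Tri
import Pool.Agent.P.MP_0a0487_an.GZ.HgD
import Pool.Agent.P.MP_0a0487_an.GZ.Cyc3C

/-! Hodge theory and the Betti numbers. BLOCK B. -/

set_option autoImplicit false
set_option linter.unusedSectionVars false

noncomputable section

namespace SX4

open scoped ComplexOrder ContDiff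
open Filter Topology Matrix

variable {P A : Type} [TopologicalSpace P] [CompactSpace P] [CommRing A] [StarRing A] [Algebra ℂ A]
  [StarModule ℂ A] {B : Base P A}

/-- B1: finiteness and Poincare duality in the middle degree. -/
theorem Geo.hodge [Nonempty P] (G : Geo B) :
    G.cx.ND ∧ FiniteDimensional ℂ G.cx.H1 ∧ FiniteDimensional ℂ G.cx.H2 := by
  exact ⟨G.hodge_nd, G.hodge_H1, G.hodge_H2.1⟩

/-- B2: the first Betti number is positive. -/
theorem Geo.betti_pos [Nonempty P] (G : Geo B) (hB : B.Gr) (h : G.AKP) {b : ℕ} {u : Fin b → A}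
    (hu : G.Lat u) : 1 ≤ b := by
  obtain ⟨q, h3, q0, q1, -, -, s1, s2, t1, t2⟩ := G.tri_pair hB h hu
  by_contra hb
  exact arith h3 (by omega) (by omega) ((le_or_gt _ _).imp s1 s2) ((le_or_gt _ _).imp t1 t2)

/-- B3: the Betti numbers in the presence of a free symmetry of order divisible by three. -/
theorem Geo.betti [Nonempty P] (G : Geo B) (hB : B.Gr) (h : G.AKP) {b : ℕ} {u : Fin b → A}
    (hu : G.Lat u) (f : Map G.toPre) (hJ : ∀ p, IsRot (f.J p)) {N : ℕ} (hN : 0 < N)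
    (hf : ∀ s ∈ B.W 0, f.Φ^[N] s = s) {v : A} (hv : v ∈ B.W 0) (v1 : star v * v = 1)
    (hfv : f.Φ v = Complex.exp (2 * Real.pi * Complex.I / 3) • v) :
    2 ≤ b ∧ b ≤ 4 ∧ Module.finrank ℂ G.cx.H2 + 2 = 2 * b := by
  obtain ⟨q, h3, q0, q1, p1, m1, s1, s2, t1, t2⟩ := G.tri_pair hB h hu
  have d1 := G.three_dvd f hJ hN hf hv v1 hfv
  obtain ⟨f', e, hJ'⟩ := G.exists_map_flip f hJ
  have d2 := G.flipG.three_dvd f' hJ' hN (e ▸ hf) (v := v) hv v1 (e ▸ hfv)
  obtain ⟨E⟩ := G.flp_flipG.exists_equiv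
  rw [G.ind_zero hu] at d1
  rw [G.flipG.ind_zero (G.flp_flipG.lat hu), ← E.finrank_eq] at d2
  have hpm : Module.finrank ℝ G.ASD = Module.finrank ℝ G.SD := by omega
  rw [G.hodge_H2.2]
  rw [hpm] at q1 t1 t2 ⊢
  have k1 : ¬ 0 < q 0 := fun h0 =>
    arith h3 h0 (by omega) ((le_or_gt _ _).imp s1 s2) ((le_or_gt _ _).imp t1 t2)
  have k2 : ¬ q 0 < 0 := fun h0 =>
    arith (q := fun c => -q c) (fun c => by have := h3 c; omega) (by omega) (by omega)
      ((le_or_gt _ _).imp (fun h c => congrArg _ (s1 h c)) t2)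
      ((le_or_gt _ _).imp (fun h c => congrArg _ (t1 h c)) fun h => (s2 h).imp fun K hK c => by
        rw [neg_neg]; exact hK c)
  omega

end SX4
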