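import Pool.Agent.P.MP_0a0487_an.SX.AtlDefs

/-! Euclidean Sobolev inequalities in dimension four. -/

set_option autoImplicit false
set_option linter.unusedSectionVars false

noncomputable section

namespace SX4

open scoped ComplexOrder ContDiff
open Filter Topology

variable {P A : Type} [TopologicalSpace P] [CompactSpace P] [CommRing A] [StarRing A] [Algebra ℂ A]
  [StarModule ℂ A] {B : Base P A}

open MeasureTheory

theorem e0_nonneg (φ : E4 → ℂ) : 0 ≤ e0 φ := Real.sqrt_nonneg _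

theorem en_nonneg (k : ℕ) (φ : E4 → ℂ) : 0 ≤ en k φ := by
  induction k generalizing φ with
  | zero => exact e0_nonneg φ
  | succ k ih => exact add_nonneg (e0_nonneg φ) (Finset.sum_nonneg fun j _ => ih _)

theorem EuS_ev {K : Set E4} (hK : IsCompact K) {φ : E4 → ℂ} (h : ∀ y, y ∉ K → φ y = 0) {y : E4}
    (hy : y ∉ K) : φ =ᶠ[𝓝 y] fun _ => 0 := by
  filter_upwards [hK.isClosed.isOpen_compl.mem_nhds hy] with z hz
  exact h z hz

theorem EuS_diff {K : Set E4} {φ : E4 → ℂ} (h : Test K φ) : Differentiable ℝ φ :=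
  h.1.differentiable (by simp)

theorem EuS_one {K : Set E4} {φ : E4 → ℂ} (h : Test K φ) : ContDiff ℝ 1 φ :=
  h.1.of_le (by exact_mod_cast le_top)

theorem EuS_cpt {K : Set E4} (hK : IsCompact K) {φ : E4 → ℂ} (h : Test K φ) :
    HasCompactSupport φ := HasCompactSupport.intro hK h.2

theorem EuS_memLp {K : Set E4} (hK : IsCompact K) {φ : E4 → ℂ} (h : Test K φ) (p : ENNReal) :
    MemLp φ p volume := h.1.continuous.memLp_of_hasCompactSupport (EuS_cpt hK h)

theorem EuS_eLp {φ : E4 → ℂ} (h : MemLp φ 2 volume) :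
    eLpNorm φ 2 volume = ENNReal.ofReal (e0 φ) := by
  rw [h.eLpNorm_eq_integral_rpow_norm two_ne_zero ENNReal.ofNat_ne_top, e0, Real.sqrt_eq_rpow]
  simp

theorem EuS_add {K : Set E4} {φ φ' : E4 → ℂ} (h : Test K φ) (h' : Test K φ') :
    Test K (φ + φ') :=
  ⟨h.1.add h'.1, fun y hy => by rw [Pi.add_apply, h.2 y hy, h'.2 y hy, add_zero]⟩

theorem EuS_sub {K : Set E4} {φ φ' : E4 → ℂ} (h : Test K φ) (h' : Test K φ') :
    Test K (φ - φ') :=
  ⟨h.1.sub h'.1, fun y hy => by rw [Pi.sub_apply, h.2 y hy, h'.2 y hy, sub_zero]⟩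

theorem EuS_pd_add {K : Set E4} {φ φ' : E4 → ℂ} (h : Test K φ) (h' : Test K φ') (j : Fin 4) :
    pd j (φ + φ') = pd j φ + pd j φ' := by
  funext y
  simp [pd, fderiv_add (EuS_diff h y) (EuS_diff h' y)]

theorem EuS_pd_sub {K : Set E4} {φ φ' : E4 → ℂ} (h : Test K φ) (h' : Test K φ') (j : Fin 4) :
    pd j (φ - φ') = pd j φ - pd j φ' := by
  funext y
  simp [pd, fderiv_sub (EuS_diff h y) (EuS_diff h' y)]

theorem EuS_norm_le (L : E4 →L[ℝ] ℂ) : ‖L‖ ≤ ∑ j, ‖L (Pi.single j 1)‖ := by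
  refine L.opNorm_le_bound (by positivity) fun v => ?_
  have h : L v = ∑ j, v j • L (Pi.single j 1) := by
    conv_lhs => rw [pi_eq_sum_univ' v]
    rw [map_sum]
    simp only [map_smul]
  rw [h, Finset.sum_mul]
  refine (norm_sum_le _ _).trans (Finset.sum_le_sum fun j _ => ?_)
  rw [norm_smul, mul_comm]
  exact mul_le_mul_of_nonneg_left (norm_le_pi_norm v j) (norm_nonneg _)

theorem Test.pd {K : Set E4} (hK : IsCompact K) {φ : E4 → ℂ} (h : Test K φ) (j : Fin 4) :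
    Test K (pd j φ) := by
  refine ⟨(h.1.fderiv_right (m := ∞) (by simp)).clm_apply contDiff_const, fun y hy => ?_⟩
  rw [SX4.pd, (EuS_ev hK h.2 hy).fderiv_eq]
  simp

theorem EuS_e0_add {K : Set E4} (hK : IsCompact K) {φ φ' : E4 → ℂ} (h : Test K φ)
    (h' : Test K φ') : e0 (φ + φ') ≤ e0 φ + e0 φ' := by
  have h1 := eLpNorm_add_le (EuS_memLp hK h 2).1 (EuS_memLp hK h' 2).1 one_le_two
  rw [EuS_eLp (EuS_memLp hK h 2), EuS_eLp (EuS_memLp hK h' 2),
    EuS_eLp (EuS_memLp hK (EuS_add h h') 2),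
    ← ENNReal.ofReal_add (e0_nonneg _) (e0_nonneg _)] at h1
  exact (ENNReal.ofReal_le_ofReal_iff (add_nonneg (e0_nonneg _) (e0_nonneg _))).1 h1

theorem en_add {K : Set E4} (hK : IsCompact K) (k : ℕ) {φ φ' : E4 → ℂ} (h : Test K φ)
    (h' : Test K φ') : en k (φ + φ') ≤ en k φ + en k φ' := by
  induction k generalizing φ φ' with
  | zero => exact EuS_e0_add hK h h'
  | succ k ih =>
    simp only [en]
    rw [add_add_add_comm, ← Finset.sum_add_distrib]
    refine add_le_add (EuS_e0_add hK h h') (Finset.sum_le_sum fun j _ => ?_)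
    rw [EuS_pd_add h h']
    exact ih (h.pd hK j) (h'.pd hK j)

theorem EuS_le_succ (k : ℕ) (φ : E4 → ℂ) : en k φ ≤ en (k + 1) φ := by
  induction k generalizing φ with
  | zero => exact le_add_of_nonneg_right (Finset.sum_nonneg fun j _ => en_nonneg _ _)
  | succ k ih => exact add_le_add le_rfl (Finset.sum_le_sum fun j _ => ih _)

theorem en_mono {k l : ℕ} (h : k ≤ l) (φ : E4 → ℂ) : en k φ ≤ en l φ :=
  monotone_nat_of_le_succ (f := fun k => en k φ) (fun k => EuS_le_succ k φ) h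

theorem en_pd (k : ℕ) (j : Fin 4) (φ : E4 → ℂ) : en k (pd j φ) ≤ en (k + 1) φ :=
  le_add_of_nonneg_of_le (e0_nonneg φ) (Finset.single_le_sum (f := fun j => en k (pd j φ))
    (fun _ _ => en_nonneg _ _) (Finset.mem_univ j))

theorem EuS_mul {K O : Set E4} (hK : IsCompact K) (hO : IsOpen O) (hs : K ⊆ O) {c : E4 → ℂ}
    (hc : ContDiffOn ℝ ∞ c O) {φ : E4 → ℂ} (h : Test K φ) : Test K fun y => c y * φ y := by
  have h0 : ∀ y, y ∉ K → c y * φ y = 0 := fun y hy => by rw [h.2 y hy, mul_zero]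
  refine ⟨contDiff_iff_contDiffAt.2 fun y => ?_, h0⟩
  by_cases hy : y ∈ K
  · exact (hc.contDiffAt (hO.mem_nhds (hs hy))).mul h.1.contDiffAt
  · exact contDiffAt_const.congr_of_eventuallyEq (EuS_ev hK h0 hy)

theorem EuS_e0_mul {K O : Set E4} (hK : IsCompact K) (hO : IsOpen O) (hs : K ⊆ O) {c : E4 → ℂ}
    (hc : ContDiffOn ℝ ∞ c O) : ∃ C : ℝ, 0 ≤ C ∧ ∀ φ, Test K φ →
      e0 (fun y => c y * φ y) ≤ C * e0 φ := by
  obtain ⟨M, hM⟩ := hK.exists_bound_of_continuousOn (hc.continuousOn.mono hs)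
  refine ⟨max M 0, le_max_right _ _, fun φ h => ?_⟩
  have h1 : eLpNorm (fun y => c y * φ y) 2 volume ≤
      ENNReal.ofReal (max M 0) * eLpNorm φ 2 volume := by
    refine eLpNorm_le_mul_eLpNorm_of_ae_le_mul (Eventually.of_forall fun y => ?_) 2
    by_cases hy : y ∈ K
    · rw [norm_mul]
      exact mul_le_mul_of_nonneg_right ((hM y hy).trans (le_max_left _ _)) (norm_nonneg _)
    · simp [h.2 y hy]
  rw [EuS_eLp (EuS_memLp hK h 2), EuS_eLp (EuS_memLp hK (EuS_mul hK hO hs hc h) 2),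
    ← ENNReal.ofReal_mul (le_max_right _ _)] at h1
  exact (ENNReal.ofReal_le_ofReal_iff (mul_nonneg (le_max_right _ _) (e0_nonneg _))).1 h1

/-- Multiplication by a function which is smooth near `K`. -/
theorem en_mul {K O : Set E4} (hK : IsCompact K) (hO : IsOpen O) (hs : K ⊆ O) {c : E4 → ℂ}
    (hc : ContDiffOn ℝ ∞ c O) (k : ℕ) : ∃ C : ℝ, 0 ≤ C ∧ ∀ φ, Test K φ →
      Test K (fun y => c y * φ y) ∧ en k (fun y => c y * φ y) ≤ C * en k φ := by
  induction k generalizing c with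
  | zero =>
    obtain ⟨C, h0, h⟩ := EuS_e0_mul hK hO hs hc
    exact ⟨C, h0, fun φ hφ => ⟨EuS_mul hK hO hs hc hφ, h φ hφ⟩⟩
  | succ k ih =>
    have hpd : ∀ j, ContDiffOn ℝ ∞ (pd j c) O := fun j =>
      (hc.fderiv_of_isOpen (m := ∞) hO (by simp)).clm_apply contDiffOn_const
    obtain ⟨C₀, h0, H0⟩ := EuS_e0_mul hK hO hs hc
    obtain ⟨C₁, h1, H1⟩ := ih hc
    choose C₂ h2 H2 using fun j => ih (hpd j)
    refine ⟨C₀ + ∑ j, (C₂ j + C₁), add_nonneg h0 (Finset.sum_nonneg fun j _ => add_nonneg (h2 j) h1),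
      fun φ hφ => ⟨EuS_mul hK hO hs hc hφ, ?_⟩⟩
    rw [add_mul, Finset.sum_mul]
    refine add_le_add ((H0 φ hφ).trans (mul_le_mul_of_nonneg_left
      (en_mono (Nat.zero_le (k + 1)) φ) h0)) (Finset.sum_le_sum fun j _ => ?_)
    have e : pd j (fun y => c y * φ y) =
        (fun y => pd j c y * φ y) + fun y => c y * pd j φ y := by
      funext y
      by_cases hy : y ∈ K
      · have hcy : DifferentiableAt ℝ c y :=
          (hc.contDiffAt (hO.mem_nhds (hs hy))).differentiableAt (by simp)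
        simp only [pd, Pi.add_apply]
        rw [fderiv_fun_mul hcy (EuS_diff hφ y)]
        simp
        ring
      · rw [((EuS_mul hK hO hs hc hφ).pd hK j).2 y hy, Pi.add_apply, hφ.2 y hy,
          (hφ.pd hK j).2 y hy, mul_zero, mul_zero, add_zero]
    rw [e, add_mul]
    refine (en_add hK k (H2 j φ hφ).1 (H1 _ (hφ.pd hK j)).1).trans (add_le_add ?_ ?_)
    · exact (H2 j φ hφ).2.trans (mul_le_mul_of_nonneg_left (EuS_le_succ k φ) (h2 j))
    · exact (H1 _ (hφ.pd hK j)).2.trans (mul_le_mul_of_nonneg_left (en_pd k j φ) h1)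

theorem eu_sob : ∃ C : ℝ, 0 ≤ C ∧ ∀ K, IsCompact K → ∀ φ, Test K φ →
    e0 (fun y => φ y * φ y) ≤ C * en 1 φ ^ 2 := by
  let C := SNormLESNormFDerivOfEqConst ℂ (volume : Measure E4) (2 : NNReal)
  refine ⟨(C : ℝ) ^ 2, by positivity, fun K hK φ h => ?_⟩
  have h1 : eLpNorm φ (4 : NNReal) volume ≤ C * eLpNorm (fderiv ℝ φ) (2 : NNReal) volume :=
    eLpNorm_le_eLpNorm_fderiv_of_eq volume (EuS_one h) (EuS_cpt hK h) one_le_two (by simp)
      (by simp; norm_num)
  have h2 : eLpNorm (fderiv ℝ φ) 2 volume ≤ ENNReal.ofReal (en 1 φ) := by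
    refine (eLpNorm_mono_real (g := ∑ j, fun y => ‖pd j φ y‖) fun y => ?_).trans ?_
    · rw [Finset.sum_apply]
      exact EuS_norm_le _
    refine (eLpNorm_sum_le (fun j _ => (EuS_memLp hK (h.pd hK j) 2).1.norm) one_le_two).trans ?_
    simp only [eLpNorm_norm, EuS_eLp (EuS_memLp hK (h.pd hK _) 2)]
    rw [← ENNReal.ofReal_sum_of_nonneg fun j _ => e0_nonneg _]
    exact ENNReal.ofReal_le_ofReal (le_add_of_nonneg_left (e0_nonneg φ))
  have h3 : eLpNorm (fun y => φ y * φ y) 2 volume = eLpNorm φ 4 volume ^ 2 := by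
    have h4 := eLpNorm_norm_rpow (p := 2) (μ := volume) φ (q := 2) two_pos
    rw [ENNReal.ofReal_ofNat, ENNReal.rpow_two, show (2 : ENNReal) * 2 = 4 by norm_num] at h4
    rw [← h4]
    exact eLpNorm_congr_norm_ae (Eventually.of_forall fun y => by simp [sq])
  have h5 : Test K fun y => φ y * φ y :=
    EuS_mul hK isOpen_univ (Set.subset_univ K) h.1.contDiffOn h
  rw [EuS_eLp (EuS_memLp hK h5 2)] at h3
  have h6 : eLpNorm φ 4 volume ≤ ENNReal.ofReal (C * en 1 φ) := by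
    rw [ENNReal.ofReal_mul C.coe_nonneg, ENNReal.ofReal_coe_nnreal]
    exact h1.trans (mul_le_mul_right h2 _)
  have h7 := h3.le.trans (pow_le_pow_left' h6 2)
  rw [← ENNReal.ofReal_pow (mul_nonneg C.coe_nonneg (en_nonneg _ _)), mul_pow] at h7
  exact (ENNReal.ofReal_le_ofReal_iff (by positivity)).1 h7

theorem EuS_step {K : Set E4} (hK : IsCompact K) {φ : E4 → ℂ} (h : Test K φ) {s : Finset (Fin 4)}
    {i : Fin 4} (hi : i ∉ s) :
    lmarginal (fun _ => volume) s (fun y => ‖φ y‖ₑ) ≤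
      lmarginal (fun _ => volume) (insert i s) (fun y => ‖pd i φ y‖ₑ) := by
  rw [lmarginal_insert' _ (h.pd hK i).1.continuous.measurable.enorm hi]
  refine lmarginal_mono fun x => ?_
  have hu : ContDiff ℝ 1 (Function.update x i) := contDiff_update 1 x i
  have h1 := HasCompactSupport.enorm_le_lintegral_Ici_deriv ((EuS_one h).comp hu)
    ((EuS_cpt hK h).comp_isClosedEmbedding (isClosedEmbedding_update x i)) (x i)
  rw [Function.comp_apply, Function.update_eq_self] at h1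
  refine h1.trans ((lintegral_mono' Measure.restrict_le_self le_rfl).trans (le_of_eq ?_))
  refine lintegral_congr fun t => ?_
  rw [((EuS_diff h _).hasFDerivAt.comp_hasDerivAt t (hasDerivAt_update x i t)).deriv]
  rfl

theorem eu_sup {K : Set E4} (hK : IsCompact K) : ∃ C : ℝ, 0 ≤ C ∧ ∀ φ, Test K φ →
    ∀ y, ‖φ y‖ ≤ C * en 4 φ := by
  refine ⟨√(volume.real K), Real.sqrt_nonneg _, fun φ h y => ?_⟩
  have h0 := h.pd hK 0
  have h1 := h0.pd hK 1
  have h2 := h1.pd hK 2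
  have h3 := h2.pd hK 3
  have e := ((EuS_step hK h (s := ∅) (i := 0) (by simp)).trans
    ((EuS_step hK h0 (i := 1) (by simp)).trans ((EuS_step hK h1 (i := 2) (by simp)).trans
      (EuS_step hK h2 (i := 3) (by simp))))) y
  have hu : (insert 3 (insert 2 (insert 1 (insert 0 ∅))) : Finset (Fin 4)) = Finset.univ := by
    decide
  rw [hu, lmarginal_empty, lmarginal_univ, ← volume_pi, ← eLpNorm_one_eq_lintegral_enorm] at e
  have hs : Function.support (pd 3 (pd 2 (pd 1 (pd 0 φ)))) ⊆ K := fun z hz =>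
    by_contra fun hz' => hz (h3.2 z hz')
  have e2 := eLpNorm_le_eLpNorm_mul_rpow_measure_univ (μ := volume.restrict K) one_le_two
    h3.1.continuous.aestronglyMeasurable
  rw [eLpNorm_restrict_eq_of_support_subset hs, eLpNorm_restrict_eq_of_support_subset hs,
    EuS_eLp (EuS_memLp hK h3 2), Measure.restrict_apply_univ,
    ← ENNReal.ofReal_toReal hK.measure_lt_top.ne,
    ENNReal.ofReal_rpow_of_nonneg ENNReal.toReal_nonneg (by norm_num),
    ← ENNReal.ofReal_mul (e0_nonneg _)] at e2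
  have e3 := e.trans e2
  rw [← ofReal_norm, ENNReal.ofReal_le_ofReal_iff
    (mul_nonneg (e0_nonneg _) (by positivity))] at e3
  refine e3.trans ?_
  rw [mul_comm, Real.sqrt_eq_rpow, Measure.real]
  refine mul_le_mul (le_of_eq ?_) ?_ (e0_nonneg _) (by positivity)
  · norm_num
  · exact (en_pd 0 3 _).trans ((en_pd 1 2 _).trans ((en_pd 2 1 _).trans (en_pd 3 0 _)))

/-- Sequences of test functions which are Cauchy for all Sobolev norms. -/
def EuS_Cau (K : Set E4) (φ : ℕ → E4 → ℂ) : Prop :=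
  (∀ n, Test K (φ n)) ∧ ∀ k, ∀ ε > 0, ∃ n₀, ∀ m ≥ n₀, ∀ n ≥ n₀, en k (φ m - φ n) ≤ ε

theorem EuS_Cau.pd {K : Set E4} (hK : IsCompact K) {φ : ℕ → E4 → ℂ} (h : EuS_Cau K φ)
    (j : Fin 4) : EuS_Cau K fun n => pd j (φ n) := by
  refine ⟨fun n => (h.1 n).pd hK j, fun k ε hε => ?_⟩
  obtain ⟨n₀, H⟩ := h.2 (k + 1) ε hε
  refine ⟨n₀, fun m hm n hn => ?_⟩
  rw [← EuS_pd_sub (h.1 m) (h.1 n)]
  exact (en_pd k j _).trans (H m hm n hn)

theorem EuS_Cau.unif {K : Set E4} (hK : IsCompact K) {φ : ℕ → E4 → ℂ} (h : EuS_Cau K φ) :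
    TendstoUniformly φ (fun y => limUnder atTop fun n => φ n y) atTop := by
  obtain ⟨C, hC, H⟩ := eu_sup hK
  have h1 : UniformCauchySeqOn φ atTop Set.univ := by
    rw [Metric.uniformCauchySeqOn_iff]
    intro ε hε
    obtain ⟨n₀, h₀⟩ := h.2 4 (ε / (C + 1)) (by positivity)
    refine ⟨n₀, fun m hm n hn y _ => ?_⟩
    rw [dist_eq_norm]
    refine (H _ (EuS_sub (h.1 m) (h.1 n)) y).trans_lt
      ((mul_le_mul_of_nonneg_left (h₀ m hm n hn) hC).trans_lt ?_)
    rw [mul_div_assoc', div_lt_iff₀ (by positivity)]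
    linarith
  exact tendstoUniformlyOn_univ.1 (h1.tendstoUniformlyOn_of_tendsto fun y hy =>
    (h1.cauchySeq hy).tendsto_limUnder)

theorem EuS_Cau.hasFDerivAt {K : Set E4} (hK : IsCompact K) {φ : ℕ → E4 → ℂ} (h : EuS_Cau K φ)
    (y : E4) : HasFDerivAt (fun y => limUnder atTop fun n => φ n y)
      (∑ j, (ContinuousLinearMap.proj j : E4 →L[ℝ] ℝ).smulRight
        (limUnder atTop fun n => SX4.pd j (φ n) y)) y := by
  refine hasFDerivAt_of_tendstoUniformly (l := atTop) (f := φ) (f' := fun n => fderiv ℝ (φ n))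
    (g' := fun y => ∑ j, (ContinuousLinearMap.proj j : E4 →L[ℝ] ℝ).smulRight
      (limUnder atTop fun n => SX4.pd j (φ n) y)) ?_
    (fun n x => (EuS_diff (h.1 n) x).hasFDerivAt) (h.unif hK).tendsto_at y
  rw [Metric.tendstoUniformly_iff]
  intro ε hε
  have h1 := fun j => Metric.tendstoUniformly_iff.1 ((h.pd hK j).unif hK) (ε / 4) (by positivity)
  filter_upwards [eventually_all.2 h1] with n hn x
  rw [dist_eq_norm]
  refine (EuS_norm_le _).trans_lt ?_
  have h2 : ∀ j, ‖((∑ i, (ContinuousLinearMap.proj i : E4 →L[ℝ] ℝ).smulRight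
      (limUnder atTop fun n => SX4.pd i (φ n) x)) - fderiv ℝ (φ n) x) (Pi.single j 1)‖ < ε / 4 := by
    intro j
    have h3 := hn j x
    rw [dist_eq_norm] at h3
    simpa [Pi.single_apply, SX4.pd] using h3
  refine (Finset.sum_lt_sum_of_nonempty Finset.univ_nonempty fun j _ => h2 j).trans_eq ?_
  simp
  ring

theorem EuS_Cau.contDiff {K : Set E4} (hK : IsCompact K) (m : ℕ) :
    ∀ {φ : ℕ → E4 → ℂ}, EuS_Cau K φ → ContDiff ℝ m fun y => limUnder atTop fun n => φ n y := by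
  induction m with
  | zero =>
    intro φ h
    exact contDiff_zero.2 (continuous_iff_continuousAt.2 fun y => (h.hasFDerivAt hK y).continuousAt)
  | succ m ih =>
    intro φ h
    rw [Nat.cast_succ, contDiff_succ_iff_hasFDerivAt]
    exact ⟨_, ContDiff.sum fun j _ => contDiff_const.smulRight (ih (h.pd hK j)), h.hasFDerivAt hK⟩

theorem eu_cpl {K : Set E4} (hK : IsCompact K) {φ : ℕ → E4 → ℂ} (h : ∀ n, Test K (φ n))
    (hc : ∀ k, ∀ ε > 0, ∃ n₀, ∀ m ≥ n₀, ∀ n ≥ n₀, en k (φ m - φ n) ≤ ε) :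
    ∃ φ₀, Test K φ₀ ∧ Tendsto (fun n => e0 (φ n - φ₀)) atTop (𝓝 0) := by
  have H : EuS_Cau K φ := ⟨h, hc⟩
  have hT : Test K fun y => limUnder atTop fun n => φ n y := by
    refine ⟨contDiff_infty.2 fun m => H.contDiff hK m, fun y hy => ?_⟩
    simp only [fun n => (h n).2 y hy]
    exact tendsto_const_nhds.limUnder_eq
  refine ⟨_, hT, ?_⟩
  rw [Metric.tendsto_nhds]
  intro ε hε
  have hpos : 0 < √(volume.real K) + 1 := by positivity
  filter_upwards [Metric.tendstoUniformly_iff.1 (H.unif hK) (ε / (√(volume.real K) + 1))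
    (by positivity)] with n hn
  rw [dist_zero_right, Real.norm_of_nonneg (e0_nonneg _)]
  set δ := ε / (√(volume.real K) + 1) with hδ
  have hδ0 : 0 < δ := by positivity
  have h1 : ∫ y, ‖(φ n - fun y => limUnder atTop fun n => φ n y) y‖ ^ 2 ≤
      δ ^ 2 * volume.real K := by
    rw [← setIntegral_eq_integral_of_forall_compl_eq_zero (s := K) (fun y hy => by
      rw [(EuS_sub (h n) hT).2 y hy, norm_zero, zero_pow two_ne_zero])]
    refine (le_abs_self _).trans ?_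
    rw [← Real.norm_eq_abs]
    refine norm_setIntegral_le_of_norm_le_const hK.measure_lt_top fun y _ => ?_
    rw [norm_pow, norm_norm]
    refine pow_le_pow_left₀ (norm_nonneg _) ?_ 2
    have h2 := hn y
    rw [dist_comm, dist_eq_norm] at h2
    exact h2.le
  refine (Real.sqrt_le_sqrt h1).trans_lt ?_
  rw [Real.sqrt_mul (sq_nonneg _), Real.sqrt_sq hδ0.le, hδ, div_mul_eq_mul_div,
    div_lt_iff₀ hpos]
  linarith

end SX4
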