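import Pool.Agent.P.MP_0a0487_an.SX.FrB

/-! The orientation cover. -/

set_option autoImplicit false
set_option linter.unusedSectionVars false

noncomputable section

namespace SX4

open scoped ContDiff
open Filter Topology Matrix

/-- The two bivectors spanned by the images of the coordinate planes. -/
def cover1W {N : ℕ} (L : E4 →ₗ[ℝ] Fin N → ℝ) : Fin 2 → Fin N → Fin N → ℝ := fun m k l =>
  L (Pi.single (![0, 2] m) 1) k * L (Pi.single (![1, 3] m) 1) l -
    L (Pi.single (![1, 3] m) 1) k * L (Pi.single (![0, 2] m) 1) l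

theorem cover1W_ne {N : ℕ} {L : E4 →ₗ[ℝ] Fin N → ℝ} (h : ∀ v, L v = 0 → v = 0) (m : Fin 2) :
    cover1W L m ≠ 0 := fun e => by
  have hne : (![0, 2] m : Fin 4) ≠ ![1, 3] m := by fin_cases m <;> decide
  have h1 : L (Pi.single (![0, 2] m) 1) = 0 := funext fun k => by
    have h2 := h (L (Pi.single (![0, 2] m) 1) k • Pi.single (![1, 3] m) 1 -
      L (Pi.single (![1, 3] m) 1) k • Pi.single (![0, 2] m) 1) (funext fun l => by
        rw [map_sub, map_smul, map_smul]
        exact congrFun (congrFun e k) l)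
    have h3 := congrFun h2 (![1, 3] m)
    rwa [Pi.sub_apply, Pi.smul_apply, Pi.smul_apply, Pi.single_eq_same,
      Pi.single_eq_of_ne hne.symm, smul_zero, sub_zero, smul_eq_mul, mul_one] at h3
  have h3 := congrFun (h _ h1) (![0, 2] m)
  rw [Pi.single_eq_same] at h3
  exact one_ne_zero h3

theorem cover1W_ort {N : ℕ} (L : E4 →ₗ[ℝ] Fin N → ℝ) {z : Fin 2 → ℂ} (hz : ∀ m, ‖z m‖ = 1)
    (σ : Fin 2 → ℝ) (m : Fin 2) :
    cover1W (L ∘ₗ (rot z * refl σ).mulVecLin) m = σ m • cover1W L m := by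
  have h0 : (z m).re * (z m).re + (z m).im * (z m).im = 1 := by
    rw [← Complex.normSq_apply, ← Complex.sq_norm, hz, one_pow]
  have h1 : (rot z * refl σ) *ᵥ Pi.single (![0, 2] m) 1 =
      (z m).re • Pi.single (![0, 2] m) 1 + (z m).im • Pi.single (![1, 3] m) 1 := by
    ext i
    rw [mulVec_single_one, col_apply, refl, mul_diagonal]
    fin_cases m <;> fin_cases i <;> simp [rot]
  have h2 : (rot z * refl σ) *ᵥ Pi.single (![1, 3] m) 1 =
      (σ m * (z m).re) • Pi.single (![1, 3] m) 1 - (σ m * (z m).im) • Pi.single (![0, 2] m) 1 := by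
    ext i
    rw [mulVec_single_one, col_apply, refl, mul_diagonal]
    fin_cases m <;> fin_cases i <;> simp [rot, mul_comm]
  funext k l
  simp only [cover1W, LinearMap.comp_apply, mulVecLin_apply, h1, h2, map_add, map_sub, map_smul,
    Pi.add_apply, Pi.sub_apply, Pi.smul_apply, smul_eq_mul]
  linear_combination (σ m * (L (Pi.single (![0, 2] m) 1) k * L (Pi.single (![1, 3] m) 1) l -
    L (Pi.single (![1, 3] m) 1) k * L (Pi.single (![0, 2] m) 1) l)) * h0

theorem cover1_sgn_sq (s : Fin 2 → ℤˣ) (m : Fin 2) : sgn s m * sgn s m = 1 := by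
  rw [sgn, ← Int.cast_mul, ← Units.val_mul, Int.units_mul_self]
  simp

theorem cover1_refl_mul (s t : Fin 2 → ℤˣ) : refl (sgn s) * refl (sgn t) = refl (sgn (s * t)) := by
  rw [refl, refl, refl, diagonal_mul_diagonal]
  refine congrArg _ (funext fun i => ?_)
  fin_cases i <;> simp [sgn]

theorem cover1_refl_sq (s : Fin 2 → ℤˣ) : refl (sgn s) * refl (sgn s) = 1 := by
  rw [refl, diagonal_mul_diagonal, ← diagonal_one]
  refine congrArg _ (funext fun i => ?_)
  fin_cases i <;> simp [cover1_sgn_sq]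

theorem cover1_rot {z : Fin 2 → ℂ} (hz : ∀ m, ‖z m‖ = 1) (s : Fin 2 → ℤˣ) :
    IsRot (refl (sgn s) * rot z * refl (sgn s)) := by
  refine ⟨fun m => ⟨(z m).re, sgn s m * (z m).im⟩, fun m => ?_, ?_⟩
  · rw [← hz m, ← sq_eq_sq₀ (norm_nonneg _) (norm_nonneg _), Complex.sq_norm, Complex.sq_norm,
      Complex.normSq_apply, Complex.normSq_apply]
    linear_combination (z m).im ^ 2 * cover1_sgn_sq s m
  · ext i j
    rw [refl, mul_diagonal, diagonal_mul]
    have h := fun (m : Fin 2) (x : ℝ) => show sgn s m * (x * sgn s m) = x by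
      rw [mul_left_comm, cover1_sgn_sq, mul_one]
    fin_cases i <;> fin_cases j <;> simp [rot, h, mul_comm]

theorem cover1_smul {N : ℕ} (s : Fin 2 → ℤˣ) (o : Fin 2 → Fin N → Fin N → ℝ) (m : Fin 2) :
    (s • o) m = sgn s m • o m := by
  rw [sgn, Int.cast_smul_eq_zsmul]
  rfl

theorem cover1_cont {N : ℕ} (s : Fin 2 → ℤˣ) :
    ContDiff ℝ ∞ fun o : Fin 2 → Fin N → Fin N → ℝ => s • o :=
  contDiff_pi.2 fun m => by
    simp only [cover1_smul]
    exact (contDiff_apply ℝ _ m).const_smul _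

theorem cover1_free {N : ℕ} {o : Fin 2 → Fin N → Fin N → ℝ} (h : ∀ m, o m ≠ 0)
    {s t : Fin 2 → ℤˣ} (e : s • o = t • o) : s = t := funext fun m => by
  have := congrFun e m
  rw [cover1_smul, cover1_smul, ← sub_eq_zero, ← sub_smul, smul_eq_zero, sub_eq_zero] at this
  exact Units.ext (Int.cast_injective (this.resolve_right (h m)))

namespace Fr

variable {M : Type} [TopologicalSpace M] (a : Fr M)

/-- The derivative of `e` in the frame. -/
def cover1L (i : Fin a.n) (w : E4) : E4 →ₗ[ℝ] Fin a.N → ℝ :=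
  (fderiv ℝ (fun y => a.e ((a.φ i).symm y)) w).toLinearMap ∘ₗ (a.V i w).mulVecLin

/-- The orientation bivectors of the chart `i`. -/
def cover1O (i : Fin a.n) (w : E4) : Fin 2 → Fin a.N → Fin a.N → ℝ := cover1W (a.cover1L i w)

theorem cover1L_sm (i : Fin a.n) (v : E4) (k : Fin a.N) :
    ContDiffOn ℝ ∞ (fun w => a.cover1L i w v k) (a.φ i).target := by
  refine contDiffOn_pi.1 (((a.e_sm i).fderiv_of_isOpen (a.φ i).open_target le_rfl).clm_apply
    (g := fun w => a.V i w *ᵥ v) (contDiffOn_pi.2 fun p => ?_)) k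
  simp only [mulVec, dotProduct]
  exact ContDiffOn.sum fun q _ => (a.V_sm i p q).mul contDiffOn_const

theorem cover1O_sm (i : Fin a.n) (s : Fin 2 → ℤˣ) :
    ContDiffOn ℝ ∞ (fun w => s • a.cover1O i w) (a.φ i).target :=
  (cover1_cont s).comp_contDiffOn (contDiffOn_pi.2 fun _ => contDiffOn_pi.2 fun _ =>
    contDiffOn_pi.2 fun _ => ((a.cover1L_sm i _ _).mul (a.cover1L_sm i _ _)).sub
      ((a.cover1L_sm i _ _).mul (a.cover1L_sm i _ _)))

theorem cover1O_free {i : Fin a.n} {x : M} (hx : x ∈ (a.φ i).source) {s t : Fin 2 → ℤˣ}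
    (e : s • a.cover1O i (a.φ i x) = t • a.cover1O i (a.φ i x)) : s = t :=
  cover1_free (cover1W_ne (a.indep i _ ((a.φ i).map_source hx))) e

theorem cover1O_trans (ho : a.Ort) {i j : Fin a.n} {x : M} (hi : x ∈ (a.φ i).source)
    (hj : x ∈ (a.φ j).source) : ∃ (t : Fin 2 → ℤˣ) (z : Fin 2 → ℂ), (∀ m, ‖z m‖ = 1) ∧
      a.Jm id i j x = rot z * refl (sgn t) ∧ a.cover1O i (a.φ i x) = t • a.cover1O j (a.φ j x) := by
  obtain ⟨z, σ, h1, h2, h3⟩ := ho i j x hi hj
  have k : ∀ m, ∃ u : ℤˣ, ((u : ℤ) : ℝ) = σ m := fun m => by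
    rcases h2 m with e | e
    · exact ⟨1, by simp [e]⟩
    · exact ⟨-1, by simp [e]⟩
  choose t ht using k
  obtain rfl : sgn t = σ := funext ht
  refine ⟨t, z, h1, h3, funext fun m => ?_⟩
  rw [cover1_smul, cover1O, cover1O, ← cover1W_ort _ h1, ← h3]
  refine congrFun (congrArg cover1W (LinearMap.ext fun v => ?_)) m
  exact a.fderiv_comp_Jm a.sm_e a.smMap_id hi hj v

/-- The total space of the orientation cover. -/
def cover1S : Set (M × (Fin 2 → Fin a.N → Fin a.N → ℝ)) :=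
  {p | ∃ (i : Fin a.n) (s : Fin 2 → ℤˣ), p.1 ∈ (a.φ i).source ∧ p.2 = s • a.cover1O i (a.φ i p.1)}

theorem cover1_sec (i : Fin a.n) (s : Fin 2 → ℤˣ) :
    ContinuousOn (fun x => s • a.cover1O i (a.φ i x)) (a.φ i).source :=
  (a.cover1O_sm i s).continuousOn.comp (a.φ i).continuousOn (a.φ i).mapsTo

theorem cover1S_cpt [CompactSpace M] [T2Space M] (ho : a.Ort) : IsCompact a.cover1S := by
  obtain ⟨K, k1, k2, k3⟩ := isCompact_univ.finite_compact_cover Finset.univ
    (fun i => (a.φ i).source) (fun i _ => (a.φ i).open_source) fun x _ => by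
      simpa using a.cover x
  have e : a.cover1S = ⋃ (i : Fin a.n) (s : Fin 2 → ℤˣ),
      (fun x => (x, s • a.cover1O i (a.φ i x))) '' K i := by
    ext ⟨x, o⟩
    simp only [Set.mem_iUnion]
    constructor
    · rintro ⟨i, s, h1, h2⟩
      obtain ⟨j, -, hj⟩ := Set.mem_iUnion₂.1 (k3.subset (Set.mem_univ x))
      obtain ⟨t, -, -, -, h3⟩ := a.cover1O_trans ho h1 (k2 j hj)
      exact ⟨j, s * t, x, hj, Prod.ext rfl
        ((mul_smul s t _).trans ((congrArg (s • ·) h3).symm.trans h2.symm))⟩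
    · rintro ⟨i, s, y, h1, h2⟩
      cases h2
      exact ⟨i, s, k2 i h1, rfl⟩
  rw [e]
  exact isCompact_iUnion fun i => isCompact_iUnion fun s => (k1 i).image_of_continuousOn
    (continuousOn_id.prodMk ((a.cover1_sec i s).mono (k2 i)))

/-- The deck transformations. -/
@[reducible] def cover1Act : MulAction (Fin 2 → ℤˣ) a.cover1S where
  smul g y := ⟨(y.1.1, g • y.1.2), by
    obtain ⟨i, s, h1, h2⟩ := y.2
    exact ⟨i, g * s, h1, by rw [mul_smul, ← h2]⟩⟩
  one_smul y := Subtype.ext (Prod.ext rfl (one_smul _ _))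
  mul_smul g h y := Subtype.ext (Prod.ext rfl (mul_smul g h y.1.2))

theorem cover1_ex (ho : a.Ort) {i : Fin a.n} (y : a.cover1S) (hy : y.1.1 ∈ (a.φ i).source) :
    ∃ s : Fin 2 → ℤˣ, y.1.2 = s • a.cover1O i (a.φ i y.1.1) := by
  obtain ⟨j, s, h1, h2⟩ := y.2
  obtain ⟨t, -, -, -, h3⟩ := a.cover1O_trans ho h1 hy
  exact ⟨s * t, by rw [mul_smul, ← h3, h2]⟩

open Classical in
/-- The sheet of a point over the chart `i`. -/
def cover1Sg (i : Fin a.n) (y : a.cover1S) : Fin 2 → ℤˣ :=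
  Classical.epsilon fun s => y.1.2 = s • a.cover1O i (a.φ i y.1.1)

theorem cover1Sg_iff (ho : a.Ort) {i : Fin a.n} {y : a.cover1S} (hy : y.1.1 ∈ (a.φ i).source)
    {s : Fin 2 → ℤˣ} : a.cover1Sg i y = s ↔ y.1.2 = s • a.cover1O i (a.φ i y.1.1) := by
  have h := Classical.epsilon_spec (a.cover1_ex ho y hy)
  exact ⟨fun e => e ▸ h, fun e => a.cover1O_free hy (h.symm.trans e)⟩

open Classical in
/-- The inverse of a chart of the cover. -/
def cover1Inv (y₀ : a.cover1S) (i : Fin a.n) (s : Fin 2 → ℤˣ) (w : E4) : a.cover1S :=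
  if h : w ∈ (a.φ i).target then ⟨((a.φ i).symm w, s • a.cover1O i w), i, s,
    (a.φ i).map_target h, by rw [(a.φ i).right_inv h]⟩ else y₀

theorem cover1Inv_val (y₀ : a.cover1S) {i : Fin a.n} (s : Fin 2 → ℤˣ) {w : E4}
    (h : w ∈ (a.φ i).target) : (a.cover1Inv y₀ i s w).1 = ((a.φ i).symm w, s • a.cover1O i w) := by
  rw [cover1Inv, dif_pos h]

/-- The charts of the cover. -/
def cover1C (ho : a.Ort) (y₀ : a.cover1S) (i : Fin a.n) (s : Fin 2 → ℤˣ) :
    OpenPartialHomeomorph a.cover1S E4 where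
  toFun y := a.φ i y.1.1
  invFun := a.cover1Inv y₀ i s
  source := {y | y.1.1 ∈ (a.φ i).source ∧ y.1.2 = s • a.cover1O i (a.φ i y.1.1)}
  target := (a.φ i).target
  map_source' y hy := (a.φ i).map_source hy.1
  map_target' w hw := by
    rw [Set.mem_ofPred_eq, a.cover1Inv_val y₀ s hw, (a.φ i).right_inv hw]
    exact ⟨(a.φ i).map_target hw, rfl⟩
  left_inv' y hy := Subtype.ext (by
    rw [a.cover1Inv_val y₀ s ((a.φ i).map_source hy.1), (a.φ i).left_inv hy.1, ← hy.2])
  right_inv' w hw := by rw [a.cover1Inv_val y₀ s hw, (a.φ i).right_inv hw]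
  open_source := isOpen_iff_mem_nhds.2 fun y hy => by
    have c1 : Continuous fun y : a.cover1S => y.1.1 := continuous_subtype_val.fst
    have h1 := (a.φ i).open_source.mem_nhds hy.1
    have h2 : ∀ t : Fin 2 → ℤˣ, ∀ᶠ y' : a.cover1S in 𝓝 y, t ≠ s →
        y'.1.2 - t • a.cover1O i (a.φ i y'.1.1) ≠ 0 := fun t => by
      by_cases ht : t = s
      · exact Eventually.of_forall fun _ h => absurd ht h
      refine (ContinuousAt.eventually_ne (continuous_subtype_val.snd.continuousAt.sub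
        (((a.cover1_sec i t).continuousAt h1).comp (f := fun y : a.cover1S => y.1.1)
          c1.continuousAt)) ?_).mono fun _ h _ => h
      exact sub_ne_zero.2 fun e => ht (a.cover1O_free hy.1 (e.symm.trans hy.2))
    filter_upwards [c1.continuousAt.eventually h1, eventually_all.2 h2] with y' b1 b2
    obtain ⟨t, ht⟩ := a.cover1_ex ho y' b1
    have : t = s := by_contra fun h => b2 t h (sub_eq_zero.2 ht)
    exact ⟨b1, this ▸ ht⟩
  open_target := (a.φ i).open_target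
  continuousOn_toFun :=
    (a.φ i).continuousOn.comp continuous_subtype_val.fst.continuousOn fun _ hy => hy.1
  continuousOn_invFun := IsInducing.subtypeVal.continuousOn_iff.2
    (((a.φ i).continuousOn_symm.prodMk (a.cover1O_sm i s).continuousOn).congr
      fun _ hw => a.cover1Inv_val y₀ s hw)

theorem cover1_sm (ho : a.Ort) (y₀ : a.cover1S) (i : Fin a.n) (s : Fin 2 → ℤˣ) :
    ContDiffOn ℝ ∞ (fun w => (a.e ((a.cover1C ho y₀ i s).symm w).1.1,
      ((a.cover1C ho y₀ i s).symm w).1.2)) (a.φ i).target :=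
  ((a.e_sm i).prodMk (a.cover1O_sm i s)).congr fun w hw => by
    rw [show ((a.cover1C ho y₀ i s).symm w).1 = _ from a.cover1Inv_val y₀ s hw]

theorem cover1_ev (ho : a.Ort) (y₀ : a.cover1S) {i : Fin a.n} (s : Fin 2 → ℤˣ) {w : E4}
    (hw : w ∈ (a.φ i).target) {β : Type} (f : M → β) :
    (fun w => f ((a.cover1C ho y₀ i s).symm w).1.1) =ᶠ[𝓝 w] fun w => f ((a.φ i).symm w) := by
  filter_upwards [(a.φ i).open_target.mem_nhds hw] with w' hw'
  rw [show ((a.cover1C ho y₀ i s).symm w').1 = _ from a.cover1Inv_val y₀ s hw']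

/-- The framed atlas of the cover. -/
def cover1B (ho : a.Ort) (y₀ : a.cover1S) {n N : ℕ} (ix : Fin a.n × (Fin 2 → ℤˣ) ≃ Fin n)
    (T : ((Fin a.N → ℝ) × (Fin 2 → Fin a.N → Fin a.N → ℝ)) ≃L[ℝ] Fin N → ℝ) : Fr a.cover1S where
  n := n
  φ k := a.cover1C ho y₀ (ix.symm k).1 (ix.symm k).2
  cover y := by
    obtain ⟨i, s, h⟩ := y.2
    exact ⟨ix (i, s), by rw [ix.symm_apply_apply]; exact h⟩
  convex k := a.convex _
  trans k l := ((a.trans (ix.symm k).1 (ix.symm l).1).mono fun w hw => ⟨hw.1, by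
      have := hw.2.1
      rwa [show ((a.cover1C ho y₀ _ _).symm w).1 = _ from a.cover1Inv_val y₀ _ hw.1] at this⟩).congr
    fun w hw => (a.cover1_ev ho y₀ _ hw.1 (a.φ (ix.symm l).1)).eq_of_nhds
  N := N
  e y := T (a.e y.1.1, y.1.2)
  e_inj y y' h := by
    have := Prod.ext_iff.1 (T.injective h)
    exact Subtype.ext (Prod.ext (a.e_inj this.1) this.2)
  e_sm k := T.contDiff.comp_contDiffOn (a.cover1_sm ho y₀ _ _)
  V k w := a.V (ix.symm k).1 w * refl (sgn (ix.symm k).2)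
  V_sm k p q := by
    simp only [refl, mul_diagonal]
    exact (a.V_sm _ p q).mul contDiffOn_const
  indep k w hw v h := by
    have h1 := ((T.contDiff.comp_contDiffOn (a.cover1_sm ho y₀ _ (ix.symm k).2)).contDiffAt
      ((a.φ _).open_target.mem_nhds hw)).differentiableAt (by simp)
    have h2 := ((ContinuousLinearMap.fst ℝ _ _ ∘L T.symm.toContinuousLinearMap).hasFDerivAt.comp w
      h1.hasFDerivAt).congr_of_eventuallyEq (f₁ := fun w => a.e ((a.φ (ix.symm k).1).symm w))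
        ((a.cover1_ev ho y₀ (ix.symm k).2 hw a.e).symm.mono fun w' e => by simpa using e)
    have h3 := a.indep _ w hw (refl (sgn (ix.symm k).2) *ᵥ v) (by
      rw [h2.fderiv, mulVec_mulVec, ContinuousLinearMap.comp_apply]
      exact (congrArg _ h).trans (map_zero _))
    rw [← one_mulVec v, ← cover1_refl_sq (ix.symm k).2, ← mulVec_mulVec, h3, mulVec_zero]

theorem cover1B_ori (ho : a.Ort) (y₀ : a.cover1S) {n N : ℕ} (ix : Fin a.n × (Fin 2 → ℤˣ) ≃ Fin n)
    (T : ((Fin a.N → ℝ) × (Fin 2 → Fin a.N → Fin a.N → ℝ)) ≃L[ℝ] Fin N → ℝ) :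
    (a.cover1B ho y₀ ix T).Ori := by
  intro k l y hk hl
  obtain ⟨t, z, h1, h2, h3⟩ := a.cover1O_trans ho hk.1 hl.1
  have e1 : (ix.symm k).2 * t = (ix.symm l).2 :=
    a.cover1O_free hl.1 ((mul_smul _ t _).trans
      ((congrArg ((ix.symm k).2 • ·) h3).symm.trans (hk.2.symm.trans hl.2)))
  have e2 : (a.cover1B ho y₀ ix T).Jm id k l y = refl (sgn (ix.symm l).2) *
      a.Jm id (ix.symm k).1 (ix.symm l).1 y.1.1 * refl (sgn (ix.symm k).2) := by
    have := (a.cover1_ev ho y₀ (ix.symm k).2 ((a.φ _).map_source hk.1)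
      (a.φ (ix.symm l).1)).fderiv_eq (𝕜 := ℝ)
    have e3 : (a.cover1B ho y₀ ix T).Jm id k l y =
        (a.V (ix.symm l).1 (a.φ (ix.symm l).1 y.1.1) * refl (sgn (ix.symm l).2))⁻¹ *
          LinearMap.toMatrix' (fderiv ℝ (fun w => a.φ (ix.symm l).1
            ((a.cover1C ho y₀ (ix.symm k).1 (ix.symm k).2).symm w).1.1)
              (a.φ (ix.symm k).1 y.1.1) : E4 →ₗ[ℝ] E4) *
          (a.V (ix.symm k).1 (a.φ (ix.symm k).1 y.1.1) * refl (sgn (ix.symm k).2)) := rfl
    rw [e3, this, Matrix.mul_inv_rev, inv_eq_right_inv (cover1_refl_sq _)]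
    simp only [Jm, id, Matrix.mul_assoc]
  rw [e2, h2, Matrix.mul_assoc, Matrix.mul_assoc, cover1_refl_mul, mul_comm t, e1,
    ← Matrix.mul_assoc]
  exact cover1_rot h1 _

end Fr

theorem Fr.exists_cov {M : Type} [TopologicalSpace M] [CompactSpace M] [T2Space M] [Nonempty M]
    (a : Fr M) (ho : a.Ort) : ∃ (Y : Type) (_ : TopologicalSpace Y) (_ : CompactSpace Y)
      (_ : T2Space Y) (_ : MulAction (Fin 2 → ℤˣ) Y) (b : Fr Y), Nonempty (Cov a b) := by
  obtain ⟨x₀⟩ := ‹Nonempty M›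
  obtain ⟨i₀, h₀⟩ := a.cover x₀
  have y₀ : a.cover1S := ⟨(x₀, a.cover1O i₀ (a.φ i₀ x₀)), i₀, 1, h₀, (one_smul _ _).symm⟩
  have ix := Fintype.equivFin (Fin a.n × (Fin 2 → ℤˣ))
  have T : ((Fin a.N → ℝ) × (Fin 2 → Fin a.N → Fin a.N → ℝ)) ≃L[ℝ]
      Fin (Module.finrank ℝ ((Fin a.N → ℝ) × (Fin 2 → Fin a.N → Fin a.N → ℝ))) → ℝ :=
    ContinuousLinearEquiv.ofFinrankEq (Module.finrank_fin_fun ℝ).symm
  let _ := a.cover1Act
  have e : ∀ i s, (a.cover1B ho y₀ ix T).φ (ix (i, s)) = a.cover1C ho y₀ i s := fun i s =>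
    congrArg (fun p : Fin a.n × (Fin 2 → ℤˣ) => a.cover1C ho y₀ p.1 p.2) (ix.symm_apply_apply _)
  refine ⟨a.cover1S, inferInstance, isCompact_iff_compactSpace.1 (a.cover1S_cpt ho), inferInstance,
    a.cover1Act, a.cover1B ho y₀ ix T, ⟨⟨fun y => y.1.1, continuous_subtype_val.fst, ix, a.cover1Sg,
      fun i s y => ?_, fun i s y _ => ?_, fun i s => ?_, fun i s w => ?_, fun g => ?_,
      fun _ _ => rfl, fun i g y hy => ?_, a.cover1B_ori ho y₀ ix T⟩⟩⟩
  · exact (iff_of_eq (congrArg (fun φ => y ∈ φ.source) (e i s))).trans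
      (and_congr_right fun hy => (a.cover1Sg_iff ho hy).symm)
  · exact congrArg (fun φ : OpenPartialHomeomorph a.cover1S E4 => φ y) (e i s)
  · exact congrArg (fun φ => φ.target) (e i s)
  · exact congrArg (fun p : Fin a.n × (Fin 2 → ℤˣ) => a.V p.1 w * refl (sgn p.2))
      (ix.symm_apply_apply _)
  · exact (continuous_subtype_val.fst.prodMk
      ((cover1_cont g).continuous.comp continuous_subtype_val.snd)).subtype_mk _
  · refine (a.cover1Sg_iff ho (y := g • y) hy).2 ?_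
    rw [mul_smul]
    exact congrArg (g • ·) ((a.cover1Sg_iff ho hy).1 rfl)

end SX4
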