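import Pool.Agent.P.MP_0a0487_an.SX.Lin4

/-! The lift of the dynamics to the orientation cover. -/

set_option autoImplicit false
set_option linter.unusedSectionVars false

noncomputable section

namespace SX4

open scoped ContDiff
open Filter Topology Matrix

theorem cover2_sq (s : Fin 2 → ℤˣ) (m : Fin 2) : sgn s m * sgn s m = 1 := by
  rcases Int.units_eq_one_or (s m) with h | h <;> simp [sgn, h]

theorem cover2_mul (s t : Fin 2 → ℤˣ) (m : Fin 2) : sgn (s * t) m = sgn s m * sgn t m := by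
  simp [sgn]

theorem cover2_abs (s : Fin 2 → ℤˣ) (m : Fin 2) : |sgn s m| = 1 := by
  rcases Int.units_eq_one_or (s m) with h | h <;> simp [sgn, h]

theorem cover2_rr (s : Fin 2 → ℤˣ) : refl (sgn s) * refl (sgn s) = 1 := by
  rw [refl, diagonal_mul_diagonal, ← diagonal_one]
  congr 1
  funext k
  fin_cases k <;> simp [cover2_sq]

theorem cover2_rr' (s : Fin 2 → ℤˣ) (A : M4) : refl (sgn s) * (refl (sgn s) * A) = A := by
  rw [← Matrix.mul_assoc, cover2_rr, Matrix.one_mul]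

theorem cover2_rv (s : Fin 2 → ℤˣ) (v : Fin 4 → ℝ) : refl (sgn s) *ᵥ (refl (sgn s) *ᵥ v) = v := by
  rw [mulVec_mulVec, cover2_rr, one_mulVec]

theorem cover2_inv (s : Fin 2 → ℤˣ) : (refl (sgn s))⁻¹ = refl (sgn s) :=
  Matrix.inv_eq_left_inv (cover2_rr s)

theorem cover2_app (σ : Fin 2 → ℝ) (v : Fin 4 → ℝ) (k : Fin 4) :
    (refl σ *ᵥ v) k = ![1, σ 0, 1, σ 1] k * v k := by
  rw [refl, mulVec_diagonal]

theorem cover2_norm (s : Fin 2 → ℤˣ) (v : Fin 4 → ℝ) : ‖refl (sgn s) *ᵥ v‖ = ‖v‖ := by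
  have h : ∀ v : Fin 4 → ℝ, ‖refl (sgn s) *ᵥ v‖ ≤ ‖v‖ := fun v => by
    refine (pi_norm_le_iff_of_nonneg (norm_nonneg v)).2 fun k => ?_
    refine le_trans (le_of_eq ?_) (norm_le_pi_norm v k)
    rw [cover2_app, norm_mul]
    fin_cases k <;> simp [cover2_abs]
  refine le_antisymm (h v) ?_
  conv_lhs => rw [← cover2_rv s v]
  exact h _

theorem cover2_P0 (s : Fin 2 → ℤˣ) : refl (sgn s) * P0 * refl (sgn s) = P0 := by
  rw [refl, P0, diagonal_mul_diagonal, diagonal_mul_diagonal]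
  congr 1
  funext k
  fin_cases k <;> simp [cover2_sq]

theorem cover2_top (σ : Fin 2 → ℝ) (v v' : Fin 4 → ℝ) :
    top2 (refl σ *ᵥ v) (refl σ *ᵥ v') = σ 0 * top2 v v' := by
  simp only [top2, cover2_app]
  simp
  ring

theorem cover2_bot (σ : Fin 2 → ℝ) (v v' : Fin 4 → ℝ) :
    bot2 (refl σ *ᵥ v) (refl σ *ᵥ v') = σ 1 * bot2 v v' := by
  simp only [bot2, cover2_app]
  simp
  ring

theorem cover2_fix (s : Fin 2 → ℤˣ) (Q : M4) (v : Fin 4 → ℝ) :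
    (refl (sgn s) * Q * refl (sgn s)) *ᵥ v = v ↔
      Q *ᵥ (refl (sgn s) *ᵥ v) = refl (sgn s) *ᵥ v := by
  rw [← mulVec_mulVec, ← mulVec_mulVec]
  constructor
  · intro h
    conv_rhs => rw [← h]
    rw [cover2_rv]
  · intro h
    rw [h, cover2_rv]

theorem cover2_ker (s : Fin 2 → ℤˣ) (Q : M4) (v : Fin 4 → ℝ) :
    (refl (sgn s) * Q * refl (sgn s)) *ᵥ v = 0 ↔ Q *ᵥ (refl (sgn s) *ᵥ v) = 0 := by
  rw [← mulVec_mulVec, ← mulVec_mulVec]
  constructor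
  · intro h
    rw [← cover2_rv s (Q *ᵥ _), h, mulVec_zero]
  · intro h
    rw [h, mulVec_zero]

theorem cover2_orP {Q J : M4} {δ : ℝ} {U V : Fin 2 → Fin 4 → ℝ} (h : GB Q δ U V)
    (s t : Fin 2 → ℤˣ) :
    OrP (refl (sgn s) * Q * refl (sgn s)) (refl (sgn t) * J * refl (sgn s)) ↔
      0 < sgn t 0 * sgn s 0 * top2 (J *ᵥ U 0) (J *ᵥ U 1) ∧
        0 < sgn t 1 * sgn s 1 * bot2 (J *ᵥ V 0) (J *ᵥ V 1) := by
  have e1 : ∀ v v', (refl (sgn s) * Q * refl (sgn s)) *ᵥ v = v →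
      (refl (sgn s) * Q * refl (sgn s)) *ᵥ v' = v' →
      top2 ((refl (sgn t) * J * refl (sgn s)) *ᵥ v) ((refl (sgn t) * J * refl (sgn s)) *ᵥ v') =
        sgn t 0 * sgn s 0 * top2 (J *ᵥ U 0) (J *ᵥ U 1) * top2 v v' := by
    intro v v' hv hv'
    rw [cover2_fix, h.rng] at hv hv'
    rw [← mulVec_mulVec, ← mulVec_mulVec, ← mulVec_mulVec, ← mulVec_mulVec, cover2_top,
      mul_assoc, mul_assoc, mul_left_comm (sgn s 0), ← cover2_top (sgn s) v v']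
    generalize refl (sgn s) *ᵥ v = u at hv ⊢
    generalize refl (sgn s) *ᵥ v' = u' at hv' ⊢
    congr 1
    conv_lhs => rw [hv, hv']
    simp only [mulVec_add, mulVec_smul, top2, Pi.add_apply, Pi.smul_apply, smul_eq_mul]
    ring
  have e2 : ∀ v v', (refl (sgn s) * Q * refl (sgn s)) *ᵥ v = 0 →
      (refl (sgn s) * Q * refl (sgn s)) *ᵥ v' = 0 →
      bot2 ((refl (sgn t) * J * refl (sgn s)) *ᵥ v) ((refl (sgn t) * J * refl (sgn s)) *ᵥ v') =
        sgn t 1 * sgn s 1 * bot2 (J *ᵥ V 0) (J *ᵥ V 1) * bot2 v v' := by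
    intro v v' hv hv'
    rw [cover2_ker, h.ker] at hv hv'
    rw [← mulVec_mulVec, ← mulVec_mulVec, ← mulVec_mulVec, ← mulVec_mulVec, cover2_bot,
      mul_assoc, mul_assoc, mul_left_comm (sgn s 1), ← cover2_bot (sgn s) v v']
    generalize refl (sgn s) *ᵥ v = u at hv ⊢
    generalize refl (sgn s) *ᵥ v' = u' at hv' ⊢
    congr 1
    conv_lhs => rw [hv, hv']
    simp only [mulVec_add, mulVec_smul, bot2, Pi.add_apply, Pi.smul_apply, smul_eq_mul]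
    ring
  obtain ⟨u1, u2, u3, u4⟩ := h.U0
  obtain ⟨v1, v2, v3, v4⟩ := h.V0
  constructor
  · rintro ⟨h1, h2⟩
    have f1 : ∀ (r : ℝ) (m : Fin 2), (refl (sgn s) * Q * refl (sgn s)) *ᵥ
        (refl (sgn s) *ᵥ (r • U m)) = refl (sgn s) *ᵥ (r • U m) := by
      intro r m
      rw [cover2_fix, cover2_rv, h.rng]
      fin_cases m <;> simp [u1, u2, u3, u4]
    have f2 : ∀ (r : ℝ) (m : Fin 2), (refl (sgn s) * Q * refl (sgn s)) *ᵥ
        (refl (sgn s) *ᵥ (r • V m)) = 0 := by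
      intro r m
      rw [cover2_ker, cover2_rv, h.ker]
      fin_cases m <;> simp [v1, v2, v3, v4]
    have g1 : top2 (refl (sgn s) *ᵥ ((1 : ℝ) • U 0)) (refl (sgn s) *ᵥ (sgn s 0 • U 1)) = 1 := by
      rw [cover2_top]
      simp [top2, u1, u2, u3, u4, cover2_sq]
    have g2 : bot2 (refl (sgn s) *ᵥ ((1 : ℝ) • V 0)) (refl (sgn s) *ᵥ (sgn s 1 • V 1)) = 1 := by
      rw [cover2_bot]
      simp [bot2, v1, v2, v3, v4, cover2_sq]
    constructor
    · have := h1 _ _ (f1 1 0) (f1 (sgn s 0) 1) (by rw [g1]; exact one_pos)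
      rwa [e1 _ _ (f1 1 0) (f1 (sgn s 0) 1), g1, mul_one] at this
    · have := h2 _ _ (f2 1 0) (f2 (sgn s 1) 1) (by rw [g2]; exact one_pos)
      rwa [e2 _ _ (f2 1 0) (f2 (sgn s 1) 1), g2, mul_one] at this
  · rintro ⟨h1, h2⟩
    exact ⟨fun v v' hv hv' hp => by rw [e1 v v' hv hv']; exact mul_pos h1 hp,
      fun v v' hv hv' hp => by rw [e2 v v' hv hv']; exact mul_pos h2 hp⟩

theorem cover2_ne {J : M4} (hJ : ∀ v, J *ᵥ v = 0 → v = 0) {U : Fin 2 → Fin 4 → ℝ} {p q : Fin 4}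
    (hU : U 0 p = 1 ∧ U 0 q = 0 ∧ U 1 p = 0 ∧ U 1 q = 1)
    (h : ∀ α β : ℝ, (J *ᵥ (α • U 0 + β • U 1)) p = 0 → (J *ᵥ (α • U 0 + β • U 1)) q = 0 →
      J *ᵥ (α • U 0 + β • U 1) = 0) :
    (J *ᵥ U 0) p * (J *ᵥ U 1) q - (J *ᵥ U 0) q * (J *ᵥ U 1) p ≠ 0 := by
  obtain ⟨u1, u2, u3, u4⟩ := hU
  intro h0
  have key : ∀ α β : ℝ, α * (J *ᵥ U 0) p + β * (J *ᵥ U 1) p = 0 →
      α * (J *ᵥ U 0) q + β * (J *ᵥ U 1) q = 0 → α = 0 ∧ β = 0 := by
    intro α β h1 h2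
    have h3 := hJ _ (h α β (by simpa [mulVec_add, mulVec_smul] using h1)
      (by simpa [mulVec_add, mulVec_smul] using h2))
    have h4 := congrFun h3 p
    have h5 := congrFun h3 q
    simp only [Pi.add_apply, Pi.smul_apply, smul_eq_mul, u1, u2, u3, u4, Pi.zero_apply] at h4 h5
    constructor <;> linarith
  obtain ⟨-, a2⟩ := key ((J *ᵥ U 1) q) (-(J *ᵥ U 0) q) (by linarith) (by ring)
  obtain ⟨-, a4⟩ := key ((J *ᵥ U 1) p) (-(J *ᵥ U 0) p) (by ring) (by linarith)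
  have := (key 1 0 (by linarith) (by linarith)).1
  exact one_ne_zero this

theorem cover2_ne2 {Q Q' J : M4} {δ : ℝ} {U V U' V' : Fin 2 → Fin 4 → ℝ} (h : GB Q δ U V)
    (h' : GB Q' δ U' V') (hJ : ∀ v, J *ᵥ v = 0 → v = 0) (hQ : J * Q = Q' * J) :
    top2 (J *ᵥ U 0) (J *ᵥ U 1) ≠ 0 ∧ bot2 (J *ᵥ V 0) (J *ᵥ V 1) ≠ 0 := by
  obtain ⟨u1, u2, u3, u4⟩ := h.U0
  obtain ⟨v1, v2, v3, v4⟩ := h.V0
  refine ⟨cover2_ne hJ h.U0 fun α β h1 h2 => ?_, cover2_ne hJ h.V0 fun α β h1 h2 => ?_⟩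
  · have h3 : Q *ᵥ (α • U 0 + β • U 1) = α • U 0 + β • U 1 := by
      rw [h.rng]; simp [u1, u2, u3, u4]
    have h4 : Q' *ᵥ (J *ᵥ (α • U 0 + β • U 1)) = J *ᵥ (α • U 0 + β • U 1) := by
      rw [mulVec_mulVec, ← hQ, ← mulVec_mulVec, h3]
    rw [h'.rng, h1, h2, zero_smul, zero_smul, add_zero] at h4
    exact h4
  · have h3 : Q *ᵥ (α • V 0 + β • V 1) = 0 := by
      rw [h.ker]; simp [v1, v2, v3, v4]
    have h4 : Q' *ᵥ (J *ᵥ (α • V 0 + β • V 1)) = 0 := by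
      rw [mulVec_mulVec, ← hQ, ← mulVec_mulVec, h3, mulVec_zero]
    rw [h'.ker, h1, h2, zero_smul, zero_smul, add_zero] at h4
    exact h4

theorem cover2_sign {x y : ℝ} (hx : x ≠ 0) (hy : y ≠ 0) (s : Fin 2 → ℤˣ) :
    ∃ t : Fin 2 → ℤˣ, 0 < sgn t 0 * sgn s 0 * x ∧ 0 < sgn t 1 * sgn s 1 * y := by
  have h : ∀ z : ℝ, z ≠ 0 → ∃ u : ℤˣ, 0 < ((u : ℤ) : ℝ) * z := fun z hz => by
    rcases lt_or_gt_of_ne hz with h | h
    · exact ⟨-1, by simpa using h⟩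
    · exact ⟨1, by simpa using h⟩
  obtain ⟨u, hu⟩ := h x hx
  obtain ⟨v, hv⟩ := h y hy
  refine ⟨![u, v] * s, ?_, ?_⟩
  · rw [cover2_mul, mul_assoc (sgn _ 0), cover2_sq, mul_one]; exact hu
  · rw [cover2_mul, mul_assoc (sgn _ 1), cover2_sq, mul_one]; exact hv

theorem cover2_uniq {t t' : Fin 2 → ℤˣ} {m : Fin 2} {x y : ℝ} (h : 0 < sgn t m * x * y)
    (h' : 0 < sgn t' m * x * y) : t m = t' m := by
  rcases Int.units_eq_one_or (t m) with e | e <;> rcases Int.units_eq_one_or (t' m) with e' | e' <;>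
    simp only [sgn, e, e', Units.val_one, Units.val_neg, Int.cast_one, Int.cast_neg] at h h' ⊢ <;>
    nlinarith

variable {M Y : Type} [TopologicalSpace M] [TopologicalSpace Y] [MulAction (Fin 2 → ℤˣ) Y]
  {a : Fr M} {b : Fr Y}

namespace Cov

variable (c : Cov a b)

theorem cover2_symm (i : Fin a.n) (s : Fin 2 → ℤˣ) {w : E4} (hw : w ∈ (a.φ i).target) :
    c.π ((b.φ (c.ix (i, s))).symm w) = (a.φ i).symm w ∧
      c.sg i ((b.φ (c.ix (i, s))).symm w) = s := by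
  have hw' : w ∈ (b.φ (c.ix (i, s))).target := by rw [c.target]; exact hw
  have h1 := (b.φ (c.ix (i, s))).map_target hw'
  obtain ⟨h2, h3⟩ := (c.mem i s _).1 h1
  refine ⟨?_, h3⟩
  have h4 := c.φ_eq i s _ h1
  rw [(b.φ (c.ix (i, s))).right_inv hw'] at h4
  conv_rhs => rw [h4]
  rw [(a.φ i).left_inv h2]

theorem cover2_pt {i : Fin a.n} {x : M} (hx : x ∈ (a.φ i).source) (s : Fin 2 → ℤˣ) :
    c.π ((b.φ (c.ix (i, s))).symm (a.φ i x)) = x ∧
      c.sg i ((b.φ (c.ix (i, s))).symm (a.φ i x)) = s := by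
  obtain ⟨h1, h2⟩ := c.cover2_symm i s ((a.φ i).map_source hx)
  exact ⟨by rw [h1, (a.φ i).left_inv hx], h2⟩

theorem π_surj : Function.Surjective c.π := fun x => by
  obtain ⟨i, hi⟩ := a.cover x
  exact ⟨_, (c.cover2_pt hi 1).1⟩

theorem exists_pt {i : Fin a.n} {x : M} (hx : x ∈ (a.φ i).source) (s : Fin 2 → ℤˣ) :
    ∃ y, c.π y = x ∧ c.sg i y = s := ⟨_, c.cover2_pt hx s⟩

theorem ext {i : Fin a.n} {y y' : Y} (h : c.π y ∈ (a.φ i).source) (e : c.π y = c.π y')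
    (e' : c.sg i y = c.sg i y') : y = y' := by
  have h1 : y ∈ (b.φ (c.ix (i, c.sg i y))).source := (c.mem i _ y).2 ⟨h, rfl⟩
  have h2 : y' ∈ (b.φ (c.ix (i, c.sg i y))).source := (c.mem i _ y').2 ⟨e ▸ h, e'.symm⟩
  refine (b.φ (c.ix (i, c.sg i y))).injOn h1 h2 ?_
  rw [c.φ_eq i _ y h1, c.φ_eq i _ y' h2, e]

theorem fib {y y' : Y} (e : c.π y = c.π y') : ∃ g : Fin 2 → ℤˣ, y' = g • y := by
  obtain ⟨i, hi⟩ := a.cover (c.π y)
  refine ⟨c.sg i y' * (c.sg i y)⁻¹, c.ext (i := i) (e ▸ hi) (by rw [c.π_act, e]) ?_⟩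
  rw [c.sg_act i _ y hi, inv_mul_cancel_right]

theorem isLocalHomeomorph : IsLocalHomeomorph c.π := by
  refine IsLocalHomeomorph.mk c.π fun y => ?_
  obtain ⟨i, hi⟩ := a.cover (c.π y)
  have h1 : y ∈ (b.φ (c.ix (i, c.sg i y))).source := (c.mem i _ y).2 ⟨hi, rfl⟩
  refine ⟨(b.φ (c.ix (i, c.sg i y))).trans (a.φ i).symm, ⟨h1, ?_⟩, fun z hz => ?_⟩
  · change b.φ (c.ix (i, c.sg i y)) y ∈ (a.φ i).target
    rw [c.φ_eq i _ y h1]
    exact (a.φ i).map_source hi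
  · have h2 : z ∈ (b.φ (c.ix (i, c.sg i y))).source := hz.1
    change c.π z = (a.φ i).symm (b.φ (c.ix (i, c.sg i y)) z)
    rw [c.φ_eq i _ z h2, (a.φ i).left_inv ((c.mem i _ z).1 h2).1]

theorem cover2_loc {G : Y → Y} {g : M → M} (h : ∀ y, c.π (G y) = g (c.π y))
    {i j : Fin a.n} {s t : Fin 2 → ℤˣ} {w : E4} (hw : w ∈ (b.φ (c.ix (i, s))).target)
    (hj : G ((b.φ (c.ix (i, s))).symm w) ∈ (b.φ (c.ix (j, t))).source) :
    w ∈ (a.φ i).target ∧ g ((a.φ i).symm w) ∈ (a.φ j).source ∧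
      b.φ (c.ix (j, t)) (G ((b.φ (c.ix (i, s))).symm w)) = a.φ j (g ((a.φ i).symm w)) := by
  rw [c.target] at hw
  have h1 := ((c.mem j t _).1 hj).1
  have h2 := c.φ_eq j t _ hj
  rw [h, (c.cover2_symm i s hw).1] at h1 h2
  exact ⟨hw, h1, h2⟩

theorem Jm_eq {G : Y → Y} {g : M → M} (hG : Continuous G) (h : ∀ y, c.π (G y) = g (c.π y))
    {i j : Fin a.n} {s t : Fin 2 → ℤˣ} {y : Y} (hi : y ∈ (b.φ (c.ix (i, s))).source)
    (hj : G y ∈ (b.φ (c.ix (j, t))).source) :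
    b.Jm G (c.ix (i, s)) (c.ix (j, t)) y = refl (sgn t) * a.Jm g i j (c.π y) * refl (sgn s) := by
  have hw := (b.φ (c.ix (i, s))).map_source hi
  have e : (fun w => b.φ (c.ix (j, t)) (G ((b.φ (c.ix (i, s))).symm w))) =ᶠ[𝓝 (b.φ (c.ix (i, s)) y)]
      fun w => a.φ j (g ((a.φ i).symm w)) := by
    have h1 : ContinuousAt (fun w => G ((b.φ (c.ix (i, s))).symm w)) (b.φ (c.ix (i, s)) y) :=
      hG.continuousAt.comp ((b.φ (c.ix (i, s))).continuousAt_symm hw)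
    have h2 := h1.eventually ((b.φ (c.ix (j, t))).open_source.mem_nhds (by
      simp only [(b.φ (c.ix (i, s))).left_inv hi]; exact hj))
    filter_upwards [h2, (b.φ (c.ix (i, s))).open_target.mem_nhds hw] with w h3 h4
    exact (c.cover2_loc h h4 h3).2.2
  rw [Fr.Jm, Fr.Jm, e.fderiv_eq, c.V_eq, c.V_eq, c.φ_eq i s y hi, c.φ_eq j t _ hj, h,
    Matrix.mul_inv_rev, cover2_inv]
  simp only [Matrix.mul_assoc]

theorem smMap {G : Y → Y} {g : M → M} (hG : Continuous G) (h : ∀ y, c.π (G y) = g (c.π y))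
    (hg : a.SmMap g) : b.SmMap G := by
  refine ⟨hG, fun I J => ?_⟩
  obtain ⟨⟨i, s⟩, rfl⟩ := c.ix.surjective I
  obtain ⟨⟨j, t⟩, rfl⟩ := c.ix.surjective J
  refine ((hg.2 i j).mono fun w hw => ?_).congr fun w hw => (c.cover2_loc h hw.1 hw.2).2.2
  exact ⟨(c.cover2_loc h hw.1 hw.2).1, (c.cover2_loc h hw.1 hw.2).2.1⟩

variable {k : ℕ} (d : FDyn a k)

/-- The orientation condition in one pair of charts. -/
def cover2_good (i j : Fin a.n) (y y' : Y) : Prop :=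
  OrP (refl (sgn (c.sg i y)) * d.Q i (c.π y) * refl (sgn (c.sg i y)))
    (refl (sgn (c.sg j y')) * a.Jm d.h i j (c.π y) * refl (sgn (c.sg i y)))

/-- The graph of the lift. -/
def cover2_rel (y y' : Y) : Prop := c.π y' = d.h (c.π y) ∧
  ∀ i j, c.π y ∈ (a.φ i).source → d.h (c.π y) ∈ (a.φ j).source → c.cover2_good d i j y y'

theorem cover2_rot {i i' : Fin a.n} {y : Y} (hi : c.π y ∈ (a.φ i).source)
    (hi' : c.π y ∈ (a.φ i').source) :
    IsRot (refl (sgn (c.sg i y)) * a.Jm id i' i (c.π y) * refl (sgn (c.sg i' y))) := by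
  have h1 : y ∈ (b.φ (c.ix (i, c.sg i y))).source := (c.mem i _ y).2 ⟨hi, rfl⟩
  have h2 : y ∈ (b.φ (c.ix (i', c.sg i' y))).source := (c.mem i' _ y).2 ⟨hi', rfl⟩
  rw [← c.Jm_eq (G := id) (g := id) continuous_id (fun _ => rfl) h2 h1]
  exact c.ori _ _ y h2 h1

theorem cover2_of_good {i j : Fin a.n} {y y' : Y} (e : c.π y' = d.h (c.π y))
    (hi : c.π y ∈ (a.φ i).source) (hj : d.h (c.π y) ∈ (a.φ j).source)
    (h : c.cover2_good d i j y y') : c.cover2_rel d y y' := by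
  refine ⟨e, fun i' j' hi' hj' => ?_⟩
  refine OrP.conj h (c.cover2_rot hi hi') (c.cover2_rot (y := y') (e ▸ hj) (e ▸ hj')) ?_ ?_
  · simp only [Matrix.mul_assoc, cover2_rr']
    rw [← Matrix.mul_assoc (a.Jm id i' i _), d.Q_id i' i _ hi' hi, Matrix.mul_assoc]
  · have h1 := a.Jm_comp a.smMap_id d.sm hi' hj' hj
    have h2 := a.Jm_comp d.sm a.smMap_id (x := c.π y) hi' hi hj
    rw [Function.id_comp] at h1
    rw [Function.comp_id, id] at h2
    simp only [Matrix.mul_assoc, cover2_rr']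
    rw [e, ← Matrix.mul_assoc (a.Jm id j' j _), ← h1, h2, Matrix.mul_assoc]

theorem cover2_graph : ∃ gU gV : M4 → Fin 2 → Fin 4 → ℝ,
    (∀ i, ContinuousOn (fun x => gU (d.Q i x)) (a.φ i).source) ∧
    (∀ i, ContinuousOn (fun x => gV (d.Q i x)) (a.φ i).source) ∧
    ∀ i, ∀ x ∈ (a.φ i).source, GB (d.Q i x) (1 / 100) (gU (d.Q i x)) (gV (d.Q i x)) := by
  obtain ⟨gU, gV, h1, h2, h3⟩ := exists_graph
  have hn : ∀ i, ∀ x ∈ (a.φ i).source, ∀ v, ‖(d.Q i x - P0) *ᵥ v‖ ≤ 1 / 100 * ‖v‖ :=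
    fun i x hx v => (d.near i x hx v).trans
      (mul_le_mul_of_nonneg_right (d.δ_le.trans (by norm_num)) (norm_nonneg v))
  refine ⟨gU, gV, fun i => h1.comp (d.Q_cont i) (hn i), fun i => h2.comp (d.Q_cont i) (hn i),
    fun i x hx => ?_⟩
  obtain ⟨e1, e2, e3, e4, e5, e6⟩ := h3 _ _ (d.Q_idem i x hx) le_rfl (hn i x hx)
  exact ⟨e1, e2, e3, e4, e5, e6⟩

theorem cover2_exists (y : Y) : ∃ y', c.cover2_rel d y y' := by
  obtain ⟨gU, gV, -, -, hg⟩ := cover2_graph d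
  obtain ⟨i, hi⟩ := a.cover (c.π y)
  obtain ⟨j, hj⟩ := a.cover (d.h (c.π y))
  obtain ⟨h1, h2⟩ := cover2_ne2 (hg i _ hi) (hg j _ hj) (J := a.Jm d.h i j (c.π y))
    (fun v hv => by
      have := (d.bd i j _ hi hj v).2
      rw [hv, norm_zero, mul_zero] at this
      exact norm_le_zero_iff.1 this) (d.Q_h i j _ hi hj)
  obtain ⟨t, ht⟩ := cover2_sign h1 h2 (c.sg i y)
  obtain ⟨y', e, e'⟩ := c.exists_pt hj t
  refine ⟨y', c.cover2_of_good d e hi hj ?_⟩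
  rw [cover2_good, cover2_orP (hg i _ hi), e']
  exact ht

theorem cover2_unique {y y' y'' : Y} (h : c.cover2_rel d y y') (h' : c.cover2_rel d y y'') :
    y' = y'' := by
  obtain ⟨gU, gV, -, -, hg⟩ := cover2_graph d
  obtain ⟨i, hi⟩ := a.cover (c.π y)
  obtain ⟨j, hj⟩ := a.cover (d.h (c.π y))
  have h1 := h.2 i j hi hj
  have h2 := h'.2 i j hi hj
  rw [cover2_good, cover2_orP (hg i _ hi)] at h1 h2
  refine c.ext (i := j) (h.1 ▸ hj) (h.1.trans h'.1.symm) ?_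
  funext m
  fin_cases m
  · exact cover2_uniq h1.1 h2.1
  · exact cover2_uniq h1.2 h2.2

theorem cover2_act {y y' : Y} (h : c.cover2_rel d y y') (g : Fin 2 → ℤˣ) :
    c.cover2_rel d (g • y) (g • y') := by
  obtain ⟨gU, gV, -, -, hg⟩ := cover2_graph d
  refine ⟨by rw [c.π_act, c.π_act, h.1], fun i j hi hj => ?_⟩
  rw [c.π_act] at hi hj
  have h1 := h.2 i j hi hj
  rw [cover2_good, cover2_orP (hg i _ hi)] at h1
  have e : ∀ m, sgn (g * c.sg j y') m * sgn (g * c.sg i y) m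
      = sgn (c.sg j y') m * sgn (c.sg i y) m := fun m => by
    rw [cover2_mul, cover2_mul]
    linear_combination sgn (c.sg j y') m * sgn (c.sg i y) m * cover2_sq g m
  rw [cover2_good, c.π_act, cover2_orP (hg i _ hi), c.sg_act i g y hi,
    c.sg_act j g y' (h.1 ▸ hj), e, e]
  exact h1

theorem cover2_cont {F : Y → Y} (hF : ∀ y, c.cover2_rel d y (F y)) : Continuous F := by
  obtain ⟨gU, gV, hU, hV, hg⟩ := cover2_graph d
  refine continuous_iff_continuousAt.2 fun y₀ => ?_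
  obtain ⟨i, hi⟩ := a.cover (c.π y₀)
  obtain ⟨j, hj⟩ := a.cover (d.h (c.π y₀))
  have h1 := (hF y₀).2 i j hi hj
  rw [cover2_good, cover2_orP (hg i _ hi)] at h1
  have c0 : ContinuousAt (fun y => d.h (c.π y)) y₀ := (d.h.continuous.comp c.π_cont).continuousAt
  have n1 : (a.φ i).source ∈ 𝓝 (c.π y₀) := (a.φ i).open_source.mem_nhds hi
  have n2 : d.h ⁻¹' (a.φ j).source ∈ 𝓝 (c.π y₀) :=
    ((a.φ j).open_source.preimage d.h.continuous).mem_nhds hj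
  have c1 : ContinuousAt (fun y => a.Jm d.h i j (c.π y)) y₀ :=
    ((a.Jm_cont d.sm i j).continuousAt (inter_mem n1 n2)).comp c.π_cont.continuousAt
  have c2 : ContinuousAt (fun y => gU (d.Q i (c.π y))) y₀ :=
    ((hU i).continuousAt n1).comp c.π_cont.continuousAt
  have c3 : ContinuousAt (fun y => gV (d.Q i (c.π y))) y₀ :=
    ((hV i).continuousAt n1).comp c.π_cont.continuousAt
  have c4 : ∀ {f : Y → Fin 2 → Fin 4 → ℝ}, ContinuousAt f y₀ → ∀ m l,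
      ContinuousAt (fun y => (a.Jm d.h i j (c.π y) *ᵥ f y m) l) y₀ := by
    intro f hf m l
    simp only [mulVec, dotProduct]
    exact tendsto_finsetSum _ fun n _ => ContinuousAt.mul
      (continuousAt_pi.1 (continuousAt_pi.1 c1 l) n) (continuousAt_pi.1 (continuousAt_pi.1 hf m) n)
  have c5 : ContinuousAt (fun y => sgn (c.sg j (F y₀)) 0 * sgn (c.sg i y₀) 0 *
      top2 (a.Jm d.h i j (c.π y) *ᵥ gU (d.Q i (c.π y)) 0)
        (a.Jm d.h i j (c.π y) *ᵥ gU (d.Q i (c.π y)) 1)) y₀ :=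
    continuousAt_const.mul (((c4 c2 0 0).mul (c4 c2 1 1)).sub ((c4 c2 0 1).mul (c4 c2 1 0)))
  have c6 : ContinuousAt (fun y => sgn (c.sg j (F y₀)) 1 * sgn (c.sg i y₀) 1 *
      bot2 (a.Jm d.h i j (c.π y) *ᵥ gV (d.Q i (c.π y)) 0)
        (a.Jm d.h i j (c.π y) *ᵥ gV (d.Q i (c.π y)) 1)) y₀ :=
    continuousAt_const.mul (((c4 c3 0 2).mul (c4 c3 1 3)).sub ((c4 c3 0 3).mul (c4 c3 1 2)))
  have c7 : ContinuousAt
      (fun y => (b.φ (c.ix (j, c.sg j (F y₀)))).symm (a.φ j (d.h (c.π y)))) y₀ := by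
    refine ContinuousAt.comp (f := fun y => a.φ j (d.h (c.π y)))
      ((b.φ (c.ix (j, c.sg j (F y₀)))).continuousAt_symm ?_) ?_
    · rw [c.target]; exact (a.φ j).map_source hj
    · exact ContinuousAt.comp (f := fun y => d.h (c.π y)) ((a.φ j).continuousAt hj) c0
  refine c7.congr ?_
  filter_upwards [(b.φ (c.ix (i, c.sg i y₀))).open_source.mem_nhds ((c.mem i _ y₀).2 ⟨hi, rfl⟩),
    c.π_cont.continuousAt n2, c5.eventually (lt_mem_nhds h1.1), c6.eventually (lt_mem_nhds h1.2)]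
    with y e1 e2 e3 e4
  obtain ⟨e5, e6⟩ := (c.mem i _ y).1 e1
  have e7 : d.h (c.π y) ∈ (a.φ j).source := e2
  obtain ⟨e8, e9⟩ := c.cover2_pt e7 (c.sg j (F y₀))
  refine c.cover2_unique d (c.cover2_of_good d e8 e5 e7 ?_) (hF y)
  rw [cover2_good, cover2_orP (hg i _ e5), e9, e6]
  exact ⟨e3, e4⟩

theorem cover2_homeo [CompactSpace Y] [T2Space Y] :
    ∃ H : Y ≃ₜ Y, ∀ y, c.cover2_rel d y (H y) := by
  choose F hF using c.cover2_exists d
  have he : ∀ (g : Fin 2 → ℤˣ) y, F (g • y) = g • F y := fun g y =>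
    c.cover2_unique d (hF _) (c.cover2_act d (hF y) g)
  have hb : Function.Bijective F := by
    constructor
    · intro y y' e
      have h1 : c.π y = c.π y' := d.h.injective (by rw [← (hF y).1, ← (hF y').1, e])
      obtain ⟨g, rfl⟩ := c.fib h1
      rw [he] at e
      obtain ⟨j, hj⟩ := a.cover (c.π (F y))
      have h2 := c.sg_act j g _ hj
      rw [← e] at h2
      rw [right_eq_mul.1 h2, one_smul]
    · intro y'
      obtain ⟨y, hy⟩ := c.π_surj (d.h.symm (c.π y'))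
      obtain ⟨g, hg⟩ := c.fib (y := F y) (y' := y') (by
        rw [(hF y).1, hy, Homeomorph.apply_symm_apply])
      exact ⟨g • y, by rw [he, hg]⟩
  exact ⟨Continuous.homeoOfEquivCompactToT2 (f := Equiv.ofBijective F hb) (c.cover2_cont d hF), hF⟩

/-- The projections in the frames of the cover. -/
def cover2_Q (I : Fin b.n) (y : Y) : M4 :=
  refl (sgn (c.ix.symm I).2) * d.Q (c.ix.symm I).1 (c.π y) * refl (sgn (c.ix.symm I).2)

theorem cover2_Q_ix (i : Fin a.n) (s : Fin 2 → ℤˣ) (y : Y) :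
    c.cover2_Q d (c.ix (i, s)) y = refl (sgn s) * d.Q i (c.π y) * refl (sgn s) := by
  rw [cover2_Q, Equiv.symm_apply_apply]

theorem cover2_all {G : Y → Y} {g : M → M} (hG : Continuous G) (h : ∀ y, c.π (G y) = g (c.π y))
    {p : Fin b.n → Fin b.n → Y → Prop}
    (hp : ∀ i j s t y, c.π y ∈ (a.φ i).source → g (c.π y) ∈ (a.φ j).source → c.sg i y = s →
      c.sg j (G y) = t → b.Jm G (c.ix (i, s)) (c.ix (j, t)) y
        = refl (sgn t) * a.Jm g i j (c.π y) * refl (sgn s) →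
      p (c.ix (i, s)) (c.ix (j, t)) y) : b.All G p := by
  intro I J y hI hJ
  obtain ⟨⟨i, s⟩, rfl⟩ := c.ix.surjective I
  obtain ⟨⟨j, t⟩, rfl⟩ := c.ix.surjective J
  exact hp i j s t y ((c.mem i s y).1 hI).1 (h y ▸ ((c.mem j t _).1 hJ).1) ((c.mem i s y).1 hI).2
    ((c.mem j t _).1 hJ).2 (c.Jm_eq hG h hI hJ)

theorem cover2_comm {J Q Q' : M4} (h : J * Q = Q' * J) (s t : Fin 2 → ℤˣ) :
    refl (sgn t) * J * refl (sgn s) * (refl (sgn s) * Q * refl (sgn s)) =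
      refl (sgn t) * Q' * refl (sgn t) * (refl (sgn t) * J * refl (sgn s)) := by
  simp only [Matrix.mul_assoc, cover2_rr']
  rw [← Matrix.mul_assoc J, h, Matrix.mul_assoc]

theorem cover2_nrm (J : M4) (s t : Fin 2 → ℤˣ) (v : Fin 4 → ℝ) :
    ‖(refl (sgn t) * J * refl (sgn s)) *ᵥ v‖ = ‖J *ᵥ (refl (sgn s) *ᵥ v)‖ := by
  rw [← mulVec_mulVec, ← mulVec_mulVec, cover2_norm]

omit d in
theorem exists_lift [CompactSpace Y] [T2Space Y] {k : ℕ} (d : FDyn a k) : ∃ D : FDyn b k, D.Or ∧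
    (∀ y, c.π (D.h y) = d.h (c.π y)) ∧ ∀ (g : Fin 2 → ℤˣ) y, D.h (g • y) = g • D.h y := by
  obtain ⟨H, hH⟩ := c.cover2_homeo d
  have hπ : ∀ y, c.π (H y) = d.h (c.π y) := fun y => (hH y).1
  have hπ' : ∀ y, c.π (H.symm y) = d.h.symm (c.π y) := fun y => by
    rw [eq_comm, Homeomorph.symm_apply_eq, ← hπ, Homeomorph.apply_symm_apply]
  refine ⟨{
    h := H
    sm := c.smMap H.continuous hπ d.sm
    sm' := c.smMap H.symm.continuous hπ' d.sm'
    Q := c.cover2_Q d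
    Q_cont := fun I => ?_
    Q_idem := fun I y hy => ?_
    Q_id := c.cover2_all (g := id) continuous_id (fun _ => rfl)
      fun i j s t y hi hj _ _ e => ?_
    Q_h := c.cover2_all H.continuous hπ fun i j s t y hi hj _ _ e => ?_
    δ := d.δ
    L := d.L
    one_le := d.one_le
    small := d.small
    near := fun I y hy v => ?_
    bd := c.cover2_all H.continuous hπ fun i j s t y hi hj _ _ e v => ?_
    ε := d.ε
    lim := d.lim
    hyp := fun m => c.cover2_all (H.continuous.iterate m)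
      (Function.Semiconj.iterate_right (f := c.π) hπ m) fun i j s t y hi hj _ _ e v => ?_ },
    c.cover2_all H.continuous hπ fun i j s t y hi hj hs ht e => ?_, hπ,
    fun g y => c.cover2_unique d (hH _) (c.cover2_act d (hH y) g)⟩
  · obtain ⟨⟨i, s⟩, rfl⟩ := c.ix.surjective I
    rw [funext (c.cover2_Q_ix d i s)]
    exact (continuousOn_const.mul ((d.Q_cont i).comp c.π_cont.continuousOn
      fun y hy => ((c.mem i s y).1 hy).1)).mul continuousOn_const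
  · obtain ⟨⟨i, s⟩, rfl⟩ := c.ix.surjective I
    rw [cover2_Q_ix]
    simp only [Matrix.mul_assoc, cover2_rr']
    rw [← Matrix.mul_assoc (d.Q i _), d.Q_idem i _ ((c.mem i s y).1 hy).1]
  · rw [e, cover2_Q_ix, cover2_Q_ix]
    exact cover2_comm (d.Q_id i j _ hi hj) s t
  · rw [e, cover2_Q_ix, cover2_Q_ix, hπ]
    exact cover2_comm (d.Q_h i j _ hi hj) s t
  · obtain ⟨⟨i, s⟩, rfl⟩ := c.ix.surjective I
    rw [cover2_Q_ix, ← cover2_P0 s, ← Matrix.sub_mul, ← Matrix.mul_sub, cover2_nrm,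
      ← cover2_norm s v]
    exact d.near i _ ((c.mem i s y).1 hy).1 _
  · rw [e, cover2_nrm, ← cover2_norm s v]
    exact d.bd i j _ hi hj _
  · rw [e, cover2_Q_ix, cover2_nrm, cover2_fix, cover2_ker, ← cover2_norm s v]
    exact d.hyp m i j _ hi hj _
  · change OrP (c.cover2_Q d (c.ix (i, s)) y) (b.Jm H (c.ix (i, s)) (c.ix (j, t)) y)
    rw [e, cover2_Q_ix, ← hs, ← ht]
    exact (hH y).2 i j hi hj

end Cov

end SX4
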