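import Pool.Agent.P.MP_0a0487_an.SX.MapB

/-! Existence and basic properties of closed positive currents. -/

set_option autoImplicit false
set_option linter.unusedSectionVars false

noncomputable section

namespace SX4

open scoped ComplexOrder ContDiff
open Filter Topology

variable {P A : Type} [TopologicalSpace P] [CompactSpace P] [CommRing A] [StarRing A] [Algebra ℂ A]
  [StarModule ℂ A] {B : Base P A}

variable {G : Pre B} {U V : P → Fin 2 → Fin 4 → ℝ}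

/-- Evaluation of forms as a linear map. -/
def curEv (B : Base P A) : (Fin 4 → Fin 4 → A) →ₗ[ℂ] (Fin 4 → Fin 4 → C(P, ℂ)) where
  toFun := B.ev2
  map_add' a b := by funext α β; simp [Base.ev2]
  map_smul' c b := by funext α β; simp [Base.ev2]

theorem cur_ev_add (a b : Fin 4 → Fin 4 → A) : B.ev2 (a + b) = B.ev2 a + B.ev2 b :=
  (curEv B).map_add a b

theorem cur_ev_sub (a b : Fin 4 → Fin 4 → A) : B.ev2 (a - b) = B.ev2 a - B.ev2 b :=
  (curEv B).map_sub a b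

theorem cur_ev_smul (c : ℂ) (b : Fin 4 → Fin 4 → A) : B.ev2 (c • b) = c • B.ev2 b :=
  (curEv B).map_smul c b

theorem cur_ev_inj : Function.Injective (curEv B) := fun a b h => by
  funext α β
  exact B.ev_inj (congrFun (congrFun h α) β)

/-- The space of 2-forms. -/
def curForms (B : Base P A) : Submodule ℂ (Fin 4 → Fin 4 → A) where
  carrier := {b | B.Form2 b}
  add_mem' ha hb := Base.Form2.add ha hb
  zero_mem' := fun α β => ⟨zero_mem _, by simp⟩
  smul_mem' c _ hb := Base.Form2.smul hb c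

theorem cur_b2_le (hV : ∀ p i, ‖V p i‖ ≤ 1) (b : Fin 4 → Fin 4 → A) (p : P) :
    |(B.b2 b p (V p 0) (V p 1)).re| ≤ 16 * ‖B.ev2 b‖ := by
  refine (Complex.abs_re_le_norm _).trans ((B.b2_le b p _ _).trans ?_)
  have h0 := hV p 0
  have h1 := hV p 1
  calc 16 * ‖B.ev2 b‖ * ‖V p 0‖ * ‖V p 1‖ ≤ 16 * ‖B.ev2 b‖ * 1 * 1 := by gcongr
    _ = _ := by ring

theorem cur_b2_mul {η : Fin 4 → Fin 4 → A} (hη : B.Re2 η) (s : A) (p : P) (u v : Fin 4 → ℝ) :
    (B.b2 (fun α β => s * η α β) p u v).re = (B.ev s p).re * (B.b2 η p u v).re := by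
  rw [B.b2_mul, Complex.mul_re, hη.b2_im, mul_zero, sub_zero]

theorem cur_re0_add {s t : A} (hs : B.Re0 s) (ht : B.Re0 t) : B.Re0 (s + t) :=
  ⟨add_mem hs.1 ht.1, by rw [star_add, hs.2, ht.2]⟩

theorem cur_re0_smul {s : A} (hs : B.Re0 s) (c : ℝ) : B.Re0 ((c : ℂ) • s) :=
  ⟨Submodule.smul_mem _ _ hs.1, by rw [star_smul, hs.2]; simp⟩

theorem Spl.exists_cur_of_fun (S : Spl G U V) (C : (Fin 4 → Fin 4 → A) → ℂ)
    (add : ∀ a b, B.Form2 a → B.Form2 b → C (a + b) = C a + C b)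
    (smul : ∀ (c : ℂ) b, B.Form2 b → C (c • b) = c * C b)
    (pos : ∀ b, B.Re2 b → (∀ p, 0 ≤ (B.b2 b p (V p 0) (V p 1)).re) → 0 ≤ C b)
    (closed : ∀ p ∈ B.W 0, ∀ q ∈ B.W 0, C (G.dd p q) = 0) :
    ∃ C' : Cur G V, ∀ b, B.Form2 b → C'.l (B.ev2 b) = C b := by
  have hκ := S.κ_pos
  have hη : 0 ≤ C S.ηV := pos _ S.ηV_re fun p => hκ.le.trans (S.ηV_pos p)
  obtain ⟨hη1, hη2⟩ := Complex.nonneg_iff.1 hη
  have hre : ∀ b, B.Re2 b → ‖C b‖ ≤ 16 / S.κ * (C S.ηV).re * ‖B.ev2 b‖ := by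
    intro b hb
    have key : ∀ σ : ℝ, |σ| ≤ 1 →
        0 ≤ ((16 * ‖B.ev2 b‖ / S.κ : ℝ) : ℂ) * C S.ηV + (σ : ℂ) * C b := by
      intro σ hσ
      rw [← smul _ _ S.ηV_re.1, ← smul _ _ hb.1, ← add _ _ (S.ηV_re.1.smul _) (hb.1.smul _)]
      refine pos _ ((S.ηV_re.smul _).add (hb.smul σ)) fun p => ?_
      rw [B.b2_add, B.b2_smul, B.b2_smul, Complex.add_re, Complex.re_ofReal_mul,
        Complex.re_ofReal_mul]
      have h1 := cur_b2_le (B := B) S.bdV b p
      have h2 : 16 * ‖B.ev2 b‖ / S.κ * S.κ ≤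
          16 * ‖B.ev2 b‖ / S.κ * (B.b2 S.ηV p (V p 0) (V p 1)).re :=
        mul_le_mul_of_nonneg_left (S.ηV_pos p) (by positivity)
      rw [div_mul_cancel₀ _ hκ.ne'] at h2
      have h3 : |σ * (B.b2 b p (V p 0) (V p 1)).re| ≤ 1 * (16 * ‖B.ev2 b‖) := by
        rw [abs_mul]; gcongr
      have h4 := neg_abs_le (σ * (B.b2 b p (V p 0) (V p 1)).re)
      linarith
    obtain ⟨a1, a2⟩ := Complex.nonneg_iff.1 (key 1 (by simp))
    obtain ⟨a3, -⟩ := Complex.nonneg_iff.1 (key (-1) (by simp))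
    simp only [Complex.add_re, Complex.add_im, Complex.re_ofReal_mul, Complex.im_ofReal_mul,
      ← hη2, mul_zero, zero_add, one_mul] at a1 a2 a3
    rw [← Complex.abs_re_eq_norm.2 a2.symm, abs_le]
    have e : 16 / S.κ * (C S.ηV).re * ‖B.ev2 b‖ = 16 * ‖B.ev2 b‖ / S.κ * (C S.ηV).re := by ring
    rw [e]
    constructor <;> linarith
  have hbd : ∀ b, B.Form2 b → ‖C b‖ ≤ 2 * (16 / S.κ * (C S.ηV).re) * ‖B.ev2 b‖ := by
    intro b hb
    obtain ⟨b₁, b₂, h₁, h₂, e, n₁, n₂⟩ := hb.exists_re_im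
    have e' : C b = C b₁ + Complex.I * C b₂ := by
      rw [← smul _ _ h₂.1, ← add _ _ h₁.1 (h₂.1.smul _), ← e]
    have hK : 0 ≤ 16 / S.κ * (C S.ηV).re := by positivity
    have m₁ := (hre _ h₁).trans (mul_le_mul_of_nonneg_left n₁ hK)
    have m₂ := (hre _ h₂).trans (mul_le_mul_of_nonneg_left n₂ hK)
    have m₃ := norm_add_le (C b₁) (Complex.I * C b₂)
    rw [norm_mul, Complex.norm_I, one_mul, ← e'] at m₃
    linarith
  let C0 : curForms B →ₗ[ℂ] ℂ :=
    { toFun := fun b => C b.1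
      map_add' := fun a b => add _ _ a.2 b.2
      map_smul' := fun c b => smul c _ b.2 }
  let e := Submodule.equivMapOfInjective (curEv B) cur_ev_inj (curForms B)
  let C1 : (curForms B).map (curEv B) →L[ℂ] ℂ :=
    (C0 ∘ₗ e.symm.toLinearMap).mkContinuous (2 * (16 / S.κ * (C S.ηV).re)) fun x => by
      obtain ⟨y, rfl⟩ := e.surjective x
      simp only [LinearMap.comp_apply, LinearEquiv.coe_coe, LinearEquiv.symm_apply_apply]
      exact hbd _ y.2
  obtain ⟨l, hl, -⟩ := exists_extension_norm_eq _ C1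
  have H : ∀ b, B.Form2 b → l (B.ev2 b) = C b := by
    intro b hb
    have := hl (e ⟨b, hb⟩)
    simp only [C1, LinearMap.mkContinuous_apply, LinearMap.comp_apply, LinearEquiv.coe_coe,
      LinearEquiv.symm_apply_apply] at this
    exact this
  exact ⟨⟨l, fun b hb h => by rw [H b hb.1]; exact pos b hb h,
    fun p hp q hq => by rw [H _ (G.dd_form hp hq)]; exact closed p hp q hq⟩, H⟩

theorem Cur.mono (C : Cur G V) {a b : Fin 4 → Fin 4 → A} (ha : B.Re2 a) (hb : B.Re2 b)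
    (h : ∀ p, (B.b2 a p (V p 0) (V p 1)).re ≤ (B.b2 b p (V p 0) (V p 1)).re) :
    (C.l (B.ev2 a)).re ≤ (C.l (B.ev2 b)).re := by
  have := (Complex.nonneg_iff.1 (C.pos _ (hb.sub ha) fun p => by
    rw [B.b2_sub, Complex.sub_re]; exact sub_nonneg.2 (h p))).1
  rw [cur_ev_sub, map_sub, Complex.sub_re] at this
  linarith

theorem Cur.closed_d1 (C : Cur G V) {a : Fin 4 → A} (ha : B.Form1 a) :
    C.l (B.ev2 (G.d1 a)) = 0 := by
  have e : G.d1 a = ∑ k, G.dd (∑ γ, a γ * G.θ γ k) (G.e k) := by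
    funext α β
    rw [G.d1_eq, Finset.sum_apply, Finset.sum_apply]
  have e' : B.ev2 (G.d1 a) = ∑ k, B.ev2 (G.dd (∑ γ, a γ * G.θ γ k) (G.e k)) := by
    rw [e]; exact map_sum (curEv B) _ _
  rw [e', map_sum]
  exact Finset.sum_eq_zero fun k _ => C.closed _ (G.form1_coef_mem ha k) _ (G.e_re k).1

theorem Cur.supp_closed (C : Cur G V) (η : Fin 4 → Fin 4 → A) : IsClosed (C.supp η) := by
  rw [← isOpen_compl_iff, isOpen_iff_mem_nhds]
  intro x hx
  simp only [Cur.supp, Set.mem_compl_iff, Set.mem_setOf_eq, not_forall] at hx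
  obtain ⟨s, h1, h2, h3, h4⟩ := hx
  have hc : Continuous fun p => (B.ev s p).re := by fun_prop
  filter_upwards [hc.continuousAt.eventually (lt_mem_nhds h3)] with y hy hy'
  exact h4 (hy' s h1 h2 hy)

theorem Spl.supp_sat (S : Spl G U V) (C : Cur G V) {x y : P} (e : G.E y = G.E x)
    (hx : x ∈ C.supp S.ηV) : y ∈ C.supp S.ηV := fun s h1 h2 h3 =>
  hx s h1 h2 (by rwa [S.tay.ev_eq h1.1 e] at h3)

theorem Spl.nonpos_of_supp (S : Spl G U V) (C : Cur G V) {b : Fin 4 → Fin 4 → A} (hb : B.Re2 b)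
    (h : ∀ x ∈ C.supp S.ηV, (B.b2 b x (V x 0) (V x 1)).re ≤ 0) : (C.l (B.ev2 b)).re ≤ 0 := by
  have hκ := S.κ_pos
  have hf : Continuous fun p => (B.b2 b p (V p 0) (V p 1)).re :=
    (S.tay.b2_uc S.bdV S.ucV hb.1).continuous
  have hη : 0 ≤ (C.l (B.ev2 S.ηV)).re :=
    (Complex.nonneg_iff.1 (C.pos _ S.ηV_re fun p => hκ.le.trans (S.ηV_pos p))).1
  have key : ∀ ε : ℝ, 0 < ε → (C.l (B.ev2 b)).re ≤ ε * (C.l (B.ev2 S.ηV)).re := by
    intro ε hε
    have hK : IsCompact {p | ε * S.κ ≤ (B.b2 b p (V p 0) (V p 1)).re} :=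
      (isClosed_le continuous_const hf).isCompact
    obtain ⟨M, hM0, hM⟩ : ∃ M : ℝ, 0 ≤ M ∧ M * S.κ = 16 * ‖B.ev2 b‖ :=
      ⟨16 * ‖B.ev2 b‖ / S.κ, by positivity, div_mul_cancel₀ _ hκ.ne'⟩
    have hs := hK.induction_on (p := fun T => ∃ s, B.Re0 s ∧ (∀ p, 0 ≤ (B.ev s p).re) ∧
        (∀ p ∈ T, M ≤ (B.ev s p).re) ∧ (C.l (B.ev2 fun α β => s * S.ηV α β)).re ≤ 0)
      ⟨0, ⟨zero_mem _, star_zero _⟩, by simp, by simp, by
        have : (B.ev2 fun α β => (0 : A) * S.ηV α β) = 0 := by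
          funext α β; simp [Base.ev2]
        rw [this]; simp⟩
      (fun T T' hT ⟨s, h1, h2, h3, h4⟩ => ⟨s, h1, h2, fun p hp => h3 p (hT hp), h4⟩)
      (fun T T' ⟨s, h1, h2, h3, h4⟩ ⟨t, k1, k2, k3, k4⟩ => by
        refine ⟨s + t, cur_re0_add h1 k1, fun p => ?_, fun p hp => ?_, ?_⟩
        · rw [map_add, ContinuousMap.add_apply, Complex.add_re]
          exact add_nonneg (h2 p) (k2 p)
        · rw [map_add, ContinuousMap.add_apply, Complex.add_re]
          rcases hp with hp | hp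
          · linarith [h3 p hp, k2 p]
          · linarith [k3 p hp, h2 p]
        · have : (fun α β => (s + t) * S.ηV α β) =
              (fun α β => s * S.ηV α β) + fun α β => t * S.ηV α β := by
            funext α β; simp [add_mul]
          rw [this, cur_ev_add, map_add, Complex.add_re]
          linarith)
      (fun x hx => by
        have hx' : x ∉ C.supp S.ηV := fun h' => by
          have := h x h'
          have hx : ε * S.κ ≤ _ := hx
          linarith [mul_pos hε hκ]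
        simp only [Cur.supp, Set.mem_setOf_eq, not_forall, not_lt] at hx'
        obtain ⟨s, h1, h2, h3, h4⟩ := hx'
        obtain ⟨c, hc0, hc⟩ : ∃ c : ℝ, 0 ≤ c ∧ c * (B.ev s x).re = M + 1 :=
          ⟨(M + 1) / (B.ev s x).re, by positivity, div_mul_cancel₀ _ h3.ne'⟩
        have hev : ∀ p, (B.ev ((c : ℂ) • s) p).re = c * (B.ev s p).re := fun p => by
          rw [map_smul, ContinuousMap.smul_apply, smul_eq_mul, Complex.re_ofReal_mul]
        have hcont : Continuous fun p => c * (B.ev s p).re := by fun_prop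
        refine ⟨{p | M < c * (B.ev s p).re}, mem_nhdsWithin_of_mem_nhds
          (hcont.continuousAt.eventually (lt_mem_nhds (by linarith))), (c : ℂ) • s,
          cur_re0_smul h1 c, fun p => ?_, fun p hp => ?_, ?_⟩
        · rw [hev]; exact mul_nonneg hc0 (h2 p)
        · rw [hev]; exact le_of_lt hp
        · have : (fun α β => ((c : ℂ) • s) * S.ηV α β) = (c : ℂ) • fun α β => s * S.ηV α β := by
            funext α β; simp only [Pi.smul_apply, smul_mul_assoc]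
          rw [this, cur_ev_smul, map_smul, smul_eq_mul, Complex.re_ofReal_mul]
          exact mul_nonpos_of_nonneg_of_nonpos hc0 h4)
    obtain ⟨s, h1, h2, h3, h4⟩ := hs
    have := C.mono hb ((S.ηV_re.smul ε).add (S.ηV_re.mul h1)) fun p => by
      rw [B.b2_add, B.b2_smul, Complex.add_re, Complex.re_ofReal_mul, cur_b2_mul S.ηV_re]
      have a1 := S.ηV_pos p
      have a2 : ε * S.κ ≤ ε * (B.b2 S.ηV p (V p 0) (V p 1)).re := by gcongr
      have a3 : (B.ev s p).re * S.κ ≤ (B.ev s p).re * (B.b2 S.ηV p (V p 0) (V p 1)).re :=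
        mul_le_mul_of_nonneg_left a1 (h2 p)
      by_cases hp : ε * S.κ ≤ (B.b2 b p (V p 0) (V p 1)).re
      · have a4 : M * S.κ ≤ (B.ev s p).re * S.κ := mul_le_mul_of_nonneg_right (h3 p hp) hκ.le
        have a5 := le_abs_self (B.b2 b p (V p 0) (V p 1)).re
        linarith [cur_b2_le (B := B) S.bdV b p, mul_pos hε hκ]
      · linarith [mul_nonneg (h2 p) hκ.le]
    rw [cur_ev_add, cur_ev_smul, map_add, map_smul, Complex.add_re, smul_eq_mul,
      Complex.re_ofReal_mul] at this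
    linarith
  refine le_of_forall_pos_le_add fun δ hδ => ?_
  have := key (δ / ((C.l (B.ev2 S.ηV)).re + 1)) (by positivity)
  have h2 : δ / ((C.l (B.ev2 S.ηV)).re + 1) * (C.l (B.ev2 S.ηV)).re ≤ δ := by
    rw [div_mul_eq_mul_div, div_le_iff₀ (by positivity)]
    nlinarith
  linarith

theorem Spl.neg_of_supp (S : Spl G U V) (C : Cur G V) {b : Fin 4 → Fin 4 → A} (hb : B.Re2 b)
    (h : ∀ x ∈ C.supp S.ηV, (B.b2 b x (V x 0) (V x 1)).re ≤ 0) {x₀ : P} (h₀ : x₀ ∈ C.supp S.ηV)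
    (h₁ : (B.b2 b x₀ (V x₀ 0) (V x₀ 1)).re < 0) : (C.l (B.ev2 b)).re < 0 := by
  obtain ⟨c, hc0, hc⟩ : ∃ c : ℝ, 0 < c ∧ (B.b2 b x₀ (V x₀ 0) (V x₀ 1)).re = -(2 * c) :=
    ⟨-(B.b2 b x₀ (V x₀ 0) (V x₀ 1)).re / 2, by linarith, by ring⟩
  obtain ⟨δ, hδ, H⟩ := S.tay.b2_uc S.bdV S.ucV hb.1 c hc0
  obtain ⟨s, h1, h2, h3, h4, h5⟩ := G.exists_bump x₀ hδ
  obtain ⟨t, ht0, ht⟩ : ∃ t : ℝ, 0 < t ∧ t * (16 * ‖B.ev2 S.ηV‖ + 1) = c :=
    ⟨c / (16 * ‖B.ev2 S.ηV‖ + 1), by positivity, div_mul_cancel₀ _ (by positivity)⟩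
  have := S.nonpos_of_supp C (hb.add ((S.ηV_re.mul h1).smul t)) fun x hx => by
    rw [B.b2_add, B.b2_smul, Complex.add_re, Complex.re_ofReal_mul, cur_b2_mul S.ηV_re]
    by_cases hs : B.ev s x = 0
    · simpa [hs] using h x hx
    · have a1 := (abs_le.1 (H x₀ x (h5 x hs))).2
      have a2 := (abs_le.1 (cur_b2_le (B := B) S.bdV S.ηV x)).2
      have a3 : (B.ev s x).re * (B.b2 S.ηV x (V x 0) (V x 1)).re ≤ 1 * (16 * ‖B.ev2 S.ηV‖) :=
        mul_le_mul (h3 x) a2 (S.κ_pos.le.trans (S.ηV_pos x)) zero_le_one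
      have a4 := mul_le_mul_of_nonneg_left a3 ht0.le
      simp only [hc] at a1
      nlinarith
  rw [cur_ev_add, cur_ev_smul, map_add, map_smul, Complex.add_re, smul_eq_mul,
    Complex.re_ofReal_mul] at this
  linarith [mul_pos ht0 (h₀ s h1 h2 h4)]

theorem Spl.supp_nonempty (S : Spl G U V) (C : Cur G V) (h : 0 < (C.l (B.ev2 S.ηV)).re) :
    (C.supp S.ηV).Nonempty := by
  by_contra hn
  exact absurd (S.nonpos_of_supp C S.ηV_re fun x hx => absurd ⟨x, hx⟩ hn) (not_le.2 h)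

end SX4
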