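import Mathlib

/-! Truncated de Rham complexes, their cohomology and their periods. -/

set_option autoImplicit false

noncomputable section

namespace SX4

/-- The complex valued characters of a group. -/
abbrev Hm (Γ : Type) [Group Γ] : Type := Additive Γ →+ ℂ

/-- The part of degree at most two of the de Rham complex of a closed oriented four-manifold.
`w` is the wedge product, `M1 s` and `M2 s` are the multiplications by the function `s`, and `B` is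
the intersection form. -/
structure Cx (V0 V1 V2 : Type) [AddCommGroup V0] [Module ℂ V0] [AddCommGroup V1] [Module ℂ V1]
    [AddCommGroup V2] [Module ℂ V2] where
  d0 : V0 →ₗ[ℂ] V1
  d1 : V1 →ₗ[ℂ] V2
  Z2 : Submodule ℂ V2
  w : V1 →ₗ[ℂ] V1 →ₗ[ℂ] V2
  M1 : V0 → V1 →ₗ[ℂ] V1
  M2 : V0 → V2 →ₗ[ℂ] V2
  B : V2 →ₗ[ℂ] V2 →ₗ[ℂ] ℂ
  d1_d0 : ∀ s, d1 (d0 s) = 0
  d1_mem : ∀ a, d1 a ∈ Z2
  w_self : ∀ a, w a a = 0
  d1_M : ∀ s a, d1 (M1 s a) = w (d0 s) a + M2 s (d1 a)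
  w_M : ∀ s a b, w a (M1 s b) = M2 s (w a b)
  w_mem : ∀ θ a a', d1 θ = 0 → d1 a = w θ a' → w θ a ∈ Z2
  B_symm : ∀ x y, B x y = B y x
  B_d : ∀ x ∈ Z2, ∀ a, B x (d1 a) = 0
  B_w : ∀ a b c, B (w a b) (w a c) = 0

namespace Cx

variable {V0 V1 V2 : Type} [AddCommGroup V0] [Module ℂ V0] [AddCommGroup V1] [Module ℂ V1]
  [AddCommGroup V2] [Module ℂ V2] (c : Cx V0 V1 V2)

/-- Closed 1-forms. -/
abbrev Z1 : Submodule ℂ V1 := LinearMap.ker c.d1

/-- The first cohomology group. -/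
abbrev H1 : Type := c.Z1 ⧸ (LinearMap.range c.d0).submoduleOf c.Z1

/-- The second cohomology group. -/
abbrev H2 : Type := c.Z2 ⧸ (LinearMap.range c.d1).submoduleOf c.Z2

/-- The intersection form is nondegenerate on the second cohomology group. -/
def ND : Prop := ∀ x ∈ c.Z2, (∀ y ∈ c.Z2, c.B x y = 0) → x ∈ LinearMap.range c.d1

/-- The pull-back by an orientation preserving diffeomorphism. -/
structure Mor where
  F0 : V0 →ₗ[ℂ] V0
  F1 : V1 →ₗ[ℂ] V1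
  F2 : V2 →ₗ[ℂ] V2
  F_d0 : ∀ s, F1 (c.d0 s) = c.d0 (F0 s)
  F_d1 : ∀ a, F2 (c.d1 a) = c.d1 (F1 a)
  F_w : ∀ a b, F2 (c.w a b) = c.w (F1 a) (F1 b)
  F_Z : ∀ x ∈ c.Z2, F2 x ∈ c.Z2
  F_B : ∀ x y, c.B (F2 x) (F2 y) = c.B x y

variable {c}

/-- The action on closed 1-forms. -/
def Mor.z1 (f : c.Mor) : c.Z1 →ₗ[ℂ] c.Z1 :=
  f.F1.restrict fun a ha => by
    rw [LinearMap.mem_ker] at ha ⊢
    rw [← f.F_d1, ha, map_zero]

/-- The action on closed 2-forms. -/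
def Mor.z2 (f : c.Mor) : c.Z2 →ₗ[ℂ] c.Z2 := f.F2.restrict f.F_Z

/-- The action on the first cohomology group. -/
def Mor.h1 (f : c.Mor) : c.H1 →ₗ[ℂ] c.H1 :=
  Submodule.mapQ _ _ f.z1 (by
    rintro a ⟨s, hs⟩
    exact ⟨f.F0 s, (f.F_d0 s).symm.trans (congrArg f.F1 hs)⟩)

/-- The action on the second cohomology group. -/
def Mor.h2 (f : c.Mor) : c.H2 →ₗ[ℂ] c.H2 :=
  Submodule.mapQ _ _ f.z2 (by
    rintro a ⟨s, hs⟩
    exact ⟨f.F1 s, (f.F_d1 s).symm.trans (congrArg f.F2 hs)⟩)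

/-- The Lefschetz number of a map `f` with inverse `f'`. -/
def Mor.lef (f f' : c.Mor) : ℂ :=
  2 - LinearMap.trace ℂ _ f.h1 - LinearMap.trace ℂ _ f'.h1 + LinearMap.trace ℂ _ f.h2

variable (c)

/-- The periods of closed 1-forms on the fundamental group `Γ`. -/
structure Per (Γ : Type) [Group Γ] where
  per : c.Z1 →ₗ[ℂ] Hm Γ
  surj : Function.Surjective per
  ker : ∀ a, per a = 0 ↔ (a : V1) ∈ LinearMap.range c.d0
  tower : ∀ (θ η₀ : c.Z1) (k : ℕ) (η : ℕ → V1), η 0 = η₀ →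
    (∀ l < k, c.d1 (η (l + 1)) + c.w θ (η l) = 0) → ∃ a : ℕ → Γ → ℂ,
      (∀ γ, a 0 γ = per η₀ (Additive.ofMul γ)) ∧ ∀ l ≤ k, ∀ γ γ', a l (γ * γ') = a l γ +
        ∑ i ∈ Finset.range (l + 1),
          per θ (Additive.ofMul γ) ^ i / (i.factorial : ℂ) * a (l - i) γ'
  cup : ∀ (n : ℕ) (a b : Fin n → c.Z1), ∑ i, c.w (a i) (b i) ∈ LinearMap.range c.d1 →
    ∃ z : Γ → ℂ, ∀ γ γ', z (γ * γ') = z γ + z γ' +
      ∑ i, per (a i) (Additive.ofMul γ) * per (b i) (Additive.ofMul γ')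

variable {c}

/-- The map `f` induces the endomorphism `φ` of the fundamental group. -/
def Per.Eqv {Γ : Type} [Group Γ] (p : c.Per Γ) (f : c.Mor) (φ : Γ →* Γ) : Prop :=
  ∀ a γ, p.per (f.z1 a) (Additive.ofMul γ) = p.per a (Additive.ofMul (φ γ))

end Cx

/-- `c` identifies the abelianisation of `Γ` modulo torsion with `ℤ ^ b`. -/
structure HB {Γ : Type} [Group Γ] {b : ℕ} (c : Γ → Fin b → ℤ) : Prop where
  mul : ∀ γ γ', c (γ * γ') = c γ + c γ'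
  surj : Function.Surjective c
  span : ∀ h : Hm Γ, ∃ v : Fin b → ℂ, ∀ γ, h (Additive.ofMul γ) = ∑ i, v i * c γ i

/-- Every character of a subgroup of finite index extends to the group. -/
def MaxB (Γ : Type) [Group Γ] : Prop :=
  ∀ S : Subgroup Γ, S.FiniteIndex → ∀ h : Hm S, ∃ h' : Hm Γ,
    ∀ s : S, h' (Additive.ofMul (s : Γ)) = h (Additive.ofMul s)

/-- The number of cosets of `T` which are fixed by `φ`. -/
def fixCard {Γ : Type} [Group Γ] (φ : Γ → Γ) (T : Subgroup Γ) : ℕ :=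
  Nat.card {z : Γ ⧸ T // ∃ γ : Γ, (γ : Γ ⧸ T) = z ∧ (φ γ : Γ ⧸ T) = z}

/-- An integral matrix without complex eigenvalues of modulus one. -/
def HypM {b : ℕ} (A : Matrix (Fin b) (Fin b) ℤ) : Prop :=
  ∀ z : ℂ, (A.map (Int.cast : ℤ → ℂ)).charpoly.IsRoot z → ‖z‖ ≠ 1

end SX4
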