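import Mathlib

/-!
Abstract calculus on the torus bundle of frames of a four-manifold whose tangent bundle splits into
two oriented planes. `A` is an algebra of smooth functions on the frame bundle `P`, graded by the
weights of the torus action; `D 0, D 1` (resp. `D 2, D 3`) are the complex conjugate horizontal
vector fields of the first (resp. second) plane.
-/

set_option autoImplicit false

noncomputable section

namespace SX4

open scoped ComplexOrder ContDiff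
open Filter Topology

/-- Weights of the torus action. -/
abbrev Wt := ℤ × ℤ

/-- The weight of the vector field `D α`. -/
def wt : Fin 4 → Wt := ![(1, 0), (-1, 0), (0, 1), (0, -1)]

/-- Complex conjugation on the indices. -/
def bar : Fin 4 → Fin 4 := ![1, 0, 3, 2]

/-- The wedge product of two 2-forms, evaluated on the frame. -/
def wg {R : Type} [CommRing R] (B B' : Fin 4 → Fin 4 → R) : R :=
  B 0 1 * B' 2 3 - B 0 2 * B' 1 3 + B 0 3 * B' 1 2 + B 1 2 * B' 0 3 - B 1 3 * B' 0 2 +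
    B 2 3 * B' 0 1

/-- The wedge product of two 1-forms. -/
def w1 {R ι : Type} [CommRing R] (a b : ι → R) : ι → ι → R := fun α β => a α * b β - a β * b α

/-- The graded algebra of functions. -/
structure Base (P A : Type) [TopologicalSpace P] [CommRing A] [StarRing A] [Algebra ℂ A] where
  ev : A →⋆ₐ[ℂ] C(P, ℂ)
  ev_inj : Function.Injective ev
  W : Wt → Submodule ℂ A
  one_mem : 1 ∈ W 0
  mul_mem : ∀ {u v : Wt} {s t : A}, s ∈ W u → t ∈ W v → s * t ∈ W (u + v)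
  star_mem : ∀ {u : Wt} {s : A}, s ∈ W u → star s ∈ W (-u)

variable {P A : Type} [TopologicalSpace P] [CommRing A] [StarRing A] [Algebra ℂ A]

/-- A real function on the base manifold. -/
def Base.Re0 (B : Base P A) (s : A) : Prop := s ∈ B.W 0 ∧ star s = s

/-- A homogeneous element. -/
def Base.Hom (B : Base P A) (s : A) : Prop := ∃ w, s ∈ B.W w

/-- A complex 1-form. -/
def Base.Form1 (B : Base P A) (a : Fin 4 → A) : Prop := ∀ α, a α ∈ B.W (wt α)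

/-- A real 1-form. -/
def Base.Re1 (B : Base P A) (a : Fin 4 → A) : Prop :=
  ∀ α, a α ∈ B.W (wt α) ∧ star (a α) = a (bar α)

/-- A complex 2-form. -/
def Base.Form2 (B : Base P A) (b : Fin 4 → Fin 4 → A) : Prop :=
  ∀ α β, b α β ∈ B.W (wt α + wt β) ∧ b β α = -b α β

/-- A real 2-form. -/
def Base.Re2 (B : Base P A) (b : Fin 4 → Fin 4 → A) : Prop :=
  B.Form2 b ∧ ∀ α β, star (b α β) = b (bar α) (bar β)

/-- The frame and the differential calculus. -/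
structure Calc (B : Base P A) where
  D : Fin 4 → A →ₗ[ℂ] A
  D_mul : ∀ α s t, D α (s * t) = D α s * t + s * D α t
  D_star : ∀ α s, star (D α s) = D (bar α) (star s)
  D_mem : ∀ {w : Wt} {s : A} (α : Fin 4), s ∈ B.W w → D α s ∈ B.W (w + wt α)
  comm_pt : ∀ (α β : Fin 4) (p : P), ∃ (t : Fin 4 → ℂ) (f : Fin 2 → ℂ), ∀ (w : Wt), ∀ s ∈ B.W w,
    B.ev (D α (D β s) - D β (D α s)) p =
      ∑ γ, t γ * B.ev (D γ s) p + ((w.1 : ℂ) * f 0 + (w.2 : ℂ) * f 1) * B.ev s p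
  N : ℕ
  e : Fin N → A
  e_re : ∀ k, B.Re0 (e k)
  θ : Fin 4 → Fin N → A
  θ_mem : ∀ α k, θ α k ∈ B.W (-wt α)
  θ_star : ∀ α k, star (θ α k) = θ (bar α) k
  θ_dual : ∀ α β, ∑ k, θ α k * D β (e k) = if α = β then 1 else 0
  fc : ∀ {ι : Type} [Fintype ι] [DecidableEq ι] (Φ : (ι → ℝ) → ℝ) (U : Set (ι → ℝ)), IsOpen U →
    ContDiffOn ℝ ∞ Φ U → ∀ u : ι → A, (∀ i, B.Re0 (u i)) →
    (∀ p, (fun i => (B.ev (u i) p).re) ∈ U) → ∃ v, B.Re0 v ∧
      (∀ p, B.ev v p = (Φ fun i => (B.ev (u i) p).re : ℝ)) ∧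
      ∀ α p, B.ev (D α v) p = ∑ i,
        (fderiv ℝ Φ (fun i => (B.ev (u i) p).re) (Pi.single i 1) : ℝ) * B.ev (D α (u i)) p

variable {B : Base P A}

/-- The differential of a function. -/
def Calc.d0 (G : Calc B) (s : A) : Fin 4 → A := fun α => G.D α s

/-- `dp ∧ dq`. -/
def Calc.dd (G : Calc B) (p q : A) : Fin 4 → Fin 4 → A := w1 (G.d0 p) (G.d0 q)

/-- Structure functions of the frame. -/
def Calc.T (G : Calc B) (α β γ : Fin 4) : A :=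
  ∑ k, G.θ γ k * (G.D α (G.D β (G.e k)) - G.D β (G.D α (G.e k)))

/-- The curvature operator. -/
def Calc.R (G : Calc B) (α β : Fin 4) (s : A) : A :=
  G.D α (G.D β s) - G.D β (G.D α s) - ∑ γ, G.T α β γ * G.D γ s

/-- The curvature forms of the two line bundles. -/
def Calc.F (G : Calc B) (j : Fin 2) (α β : Fin 4) : A :=
  ∑ k, G.θ (![0, 2] j) k * G.R α β (G.D (![0, 2] j) (G.e k))

/-- The curvature form in weight `w`. -/
def Calc.Fw (G : Calc B) (w : Wt) (α β : Fin 4) : A :=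
  (w.1 : ℂ) • G.F 0 α β + (w.2 : ℂ) • G.F 1 α β

/-- The exterior derivative of a 1-form. -/
def Calc.d1 (G : Calc B) (a : Fin 4 → A) (α β : Fin 4) : A :=
  G.D α (a β) - G.D β (a α) - ∑ γ, G.T α β γ * a γ

/-- One of the three terms of the exterior derivative of a 2-form. -/
def Calc.d2t (G : Calc B) (b : Fin 4 → Fin 4 → A) (α β γ : Fin 4) : A :=
  G.D α (b β γ) - ∑ δ, G.T α β δ * b δ γ

/-- The exterior derivative of a 2-form. -/
def Calc.d2 (G : Calc B) (b : Fin 4 → Fin 4 → A) (α β γ : Fin 4) : A :=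
  G.d2t b α β γ + G.d2t b β γ α + G.d2t b γ α β

/-- The covariant derivative with respect to the 1-form `a`. -/
def Calc.X (G : Calc B) (a : Fin 4 → A) (α : Fin 4) (s : A) : A :=
  G.D α s + Complex.I • (a α * s)

/-- Calculus and integration. -/
structure Pre (B : Base P A) extends Calc B where
  I : A →ₗ[ℂ] ℂ
  I_nonneg : ∀ s, (∀ p, 0 ≤ B.ev s p) → 0 ≤ I s
  I_def : ∀ s ∈ B.W 0, (∀ p, 0 ≤ B.ev s p) → I s = 0 → s = 0
  stokes : ∀ p ∈ B.W 0, ∀ q ∈ B.W 0, ∀ r ∈ B.W 0, ∀ s ∈ B.W 0,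
    I (wg (toCalc.dd p q) (toCalc.dd r s)) = 0

/-- The `L²` norm. -/
def Pre.nrm (G : Pre B) (s : A) : ℝ := √(G.I (star s * s)).re

/-- Sobolev norms. -/
def Pre.nn (G : Pre B) : ℕ → A → ℝ
  | 0, s => G.nrm s
  | k + 1, s => G.nrm s + ∑ α, G.nn k (G.D α s)

/-- The divergence of the frame field `D α`. -/
def Pre.τ (G : Pre B) (α : Fin 4) : A :=
  Classical.epsilon fun t => t ∈ B.W (wt α) ∧ ∀ s ∈ B.W (-wt α), G.I (G.D α s) = -G.I (t * s)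

/-- The (nonnegative) Laplacian. -/
def Pre.Lap (G : Pre B) (u : A) : A :=
  -∑ α, (G.D (bar α) (G.D α u) + G.τ (bar α) * G.D α u)

/-- The (nonnegative) covariant Laplacian. -/
def Pre.LapX (G : Pre B) (a : Fin 4 → A) (s : A) : A :=
  -∑ α, (G.X a (bar α) (G.X a α s) + G.τ (bar α) * G.X a α s)

/-- A (weakly) closed 2-form. -/
def Pre.Closed (G : Pre B) (b : Fin 4 → Fin 4 → A) : Prop :=
  ∀ p ∈ B.W 0, ∀ q ∈ B.W 0, G.I (wg b (G.dd p q)) = 0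

/-- The contraction with the fundamental form. -/
def lam {R : Type} [CommRing R] (b : Fin 4 → Fin 4 → R) : R := b 0 1 + b 2 3

/-- The almost Hermitian structure defined by the frame is almost Kaehler. -/
def Pre.AK (G : Pre B) : Prop := ∀ p ∈ B.W 0, ∀ q ∈ B.W 0, G.I (lam (G.dd p q)) = 0

/-- A class of families of smoothing operators on functions. -/
structure Moll (G : Pre B) where
  Kc : (ℕ → A →ₗ[ℂ] A) → Prop
  mem : ∀ K, Kc K → ∀ n, ∀ s ∈ B.W 0, K n s ∈ B.W 0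
  bdd : ∀ K, Kc K → ∃ C : ℝ, ∀ n, ∀ s ∈ B.W 0, G.nrm (K n s) ≤ C * G.nrm s
  add : ∀ K K', Kc K → Kc K' → ∃ K'', Kc K'' ∧ ∀ n, ∀ s ∈ B.W 0, K'' n s = K n s + K' n s
  left : ∀ K, Kc K → ∀ c ∈ B.W 0, ∃ K', Kc K' ∧ ∀ n, ∀ s ∈ B.W 0, K' n s = c * K n s
  right : ∀ K, Kc K → ∀ c ∈ B.W 0, ∃ K', Kc K' ∧ ∀ n, ∀ s ∈ B.W 0, K' n s = K n (c * s)
  conj : ∀ K, Kc K → ∃ K', Kc K' ∧ ∀ n, ∀ s ∈ B.W 0, K' n s = star (K n (star s))
  ad : ∀ K, Kc K → ∀ g : Fin 4 → A, (∀ α, g α ∈ B.W (-wt α)) → ∃ K', Kc K' ∧ ∀ n, ∀ s ∈ B.W 0,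
    K' n s = ∑ α, g α * G.D α (K n s) - K n (∑ α, g α * G.D α s)
  der : ∀ K, Kc K → ∀ g : Fin 4 → A, (∀ α, g α ∈ B.W (-wt α)) → ∃ K', Kc K' ∧ ∀ n : ℕ, ∀ s ∈ B.W 0,
    ((n : ℂ) + 1) • K' n s = ∑ α, g α * G.D α (K n s)
  J : ℕ → A →ₗ[ℂ] A
  J_mem : Kc J
  J_lim : ∀ s ∈ B.W 0, Tendsto (fun n => G.nrm (J n s - s)) atTop (𝓝 0)
  J_adj : ∀ n, ∃ J' : A →ₗ[ℂ] A, (∀ t ∈ B.W 0, J' t ∈ B.W 0) ∧
    ∀ s ∈ B.W 0, ∀ t ∈ B.W 0, G.I (star (J n s) * t) = G.I (star s * J' t)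

/-- The analytic properties of a closed connected four-manifold. -/
structure Geo (B : Base P A) extends Pre B where
  sob : ∃ C : ℝ, ∀ v ∈ B.W 0, toPre.nrm (v * v) ≤ C * toPre.nn 1 v ^ 2
  sup : ∃ C : ℝ, ∀ v ∈ B.W 0, ∀ p, ‖B.ev v p‖ ≤ C * toPre.nn 4 v
  rel : ∀ v : ℕ → A, (∀ n, v n ∈ B.W 0) → (∀ n, toPre.nn 1 (v n) ≤ 1) →
    ∃ φ : ℕ → ℕ, StrictMono φ ∧
      ∀ ε > 0, ∃ n₀, ∀ m ≥ n₀, ∀ n ≥ n₀, toPre.nrm (v (φ m) - v (φ n)) ≤ ε
  cpl : ∀ v : ℕ → A, (∀ n, v n ∈ B.W 0) →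
    (∀ k, ∀ ε > 0, ∃ n₀, ∀ m ≥ n₀, ∀ n ≥ n₀, toPre.nn k (v m - v n) ≤ ε) →
    ∃ u ∈ B.W 0, Tendsto (fun n => toPre.nrm (v n - u)) atTop (𝓝 0)
  moll : Nonempty (Moll toPre)
  const : ∀ s ∈ B.W 0, (∀ α, D α s = 0) → ∃ c : ℂ, s = algebraMap ℂ A c
  gen : ∃ s : Fin 3 → A, (∀ i, s i ∈ B.W (0, 1)) ∧ ∀ p, ∃ i, B.ev (s i) p ≠ 0

end SX4
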