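import Mathlib

/-! Finite dimensional estimates for the test form used in `Spl.loc`. -/

set_option autoImplicit false

noncomputable section

namespace SX4

open scoped ContDiff
open Filter Topology

theorem loc_chi (R M : ℝ) : ∃ χ : ℝ → ℝ, ContDiff ℝ ∞ χ ∧ (∀ r, 0 ≤ χ r) ∧ (∀ r, r < R → 0 < χ r) ∧
    (∀ r, deriv χ r ≤ -M * χ r) ∧ ∀ r, R < r → χ r = 0 ∧ deriv χ r = 0 := by
  have hg : ContDiff ℝ ∞ fun r : ℝ => expNegInvGlue (R - r) :=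
    expNegInvGlue.contDiff.comp (contDiff_const.sub contDiff_id)
  have he : ContDiff ℝ ∞ fun r : ℝ => Real.exp (-M * r) :=
    Real.contDiff_exp.comp (contDiff_const.mul contDiff_id)
  refine ⟨fun r => expNegInvGlue (R - r) * Real.exp (-M * r), hg.mul he,
    fun r => mul_nonneg (expNegInvGlue.nonneg _) (Real.exp_pos _).le,
    fun r hr => mul_pos (expNegInvGlue.pos_of_pos (by linarith)) (Real.exp_pos _), fun r => ?_,
    fun r hr => ⟨by simp only [expNegInvGlue.zero_of_nonpos (show R - r ≤ 0 by linarith),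
      zero_mul], ?_⟩⟩
  · have h1 := (hg.differentiable (by simp) r).hasDerivAt
    have h2 : HasDerivAt (fun r : ℝ => Real.exp (-M * r)) (Real.exp (-M * r) * (-M * 1)) r :=
      ((hasDerivAt_id r).const_mul (-M)).exp
    have h3 := (h1.mul h2).deriv
    have ha : Antitone fun r : ℝ => expNegInvGlue (R - r) :=
      fun x y h => expNegInvGlue.monotone (by linarith)
    have h4 : deriv (fun r : ℝ => expNegInvGlue (R - r)) r ≤ 0 := ha.deriv_nonpos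
    have h5 : deriv (fun r => expNegInvGlue (R - r) * Real.exp (-M * r)) r = _ := h3
    rw [h5]
    have := mul_nonpos_of_nonpos_of_nonneg h4 (Real.exp_pos (-M * r)).le
    nlinarith
  · have : (fun r => expNegInvGlue (R - r) * Real.exp (-M * r)) =ᶠ[𝓝 r] fun _ => 0 := by
      filter_upwards [lt_mem_nhds hr] with s hs
      rw [expNegInvGlue.zero_of_nonpos (by linarith), zero_mul]
    rw [this.deriv_eq, deriv_const]

variable {N : ℕ}

theorem loc_lin (l : (Fin N → ℝ) →L[ℝ] ℝ) (z : Fin N → ℝ) :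
    l z = ∑ k, z k * l (Pi.single k 1) := by
  conv_lhs => rw [← Finset.univ_sum_single z, map_sum]
  refine Finset.sum_congr rfl fun k _ => ?_
  rw [← smul_eq_mul, ← map_smul, ← Pi.single_smul, smul_eq_mul, mul_one]

theorem loc_wedge {a0 a1 b0 b1 : Fin N → ℝ} {ε L M : ℝ}
    (h : ∀ k l, |b0 k * b1 l - b1 k * b0 l - (a0 k * a1 l - a1 k * a0 l)| ≤ ε)
    (l m : (Fin N → ℝ) →L[ℝ] ℝ) (hl : ∀ v, |l v| ≤ L * ‖v‖) (hm : ∀ v, |m v| ≤ M * ‖v‖) :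
    |l b0 * m b1 - l b1 * m b0 - (l a0 * m a1 - l a1 * m a0)| ≤ N ^ 2 * ε * L * M := by
  have e : l b0 * m b1 - l b1 * m b0 - (l a0 * m a1 - l a1 * m a0) =
      ∑ k, ∑ j, (b0 k * b1 j - b1 k * b0 j - (a0 k * a1 j - a1 k * a0 j)) *
        l (Pi.single k 1) * m (Pi.single j 1) := by
    rw [loc_lin l b0, loc_lin l b1, loc_lin l a0, loc_lin l a1, loc_lin m b0, loc_lin m b1,
      loc_lin m a0, loc_lin m a1]
    simp only [Finset.sum_mul_sum, ← Finset.sum_sub_distrib]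
    refine Finset.sum_congr rfl fun k _ => Finset.sum_congr rfl fun j _ => ?_
    ring
  rw [e]
  have h1 : ∀ k : Fin N, |l (Pi.single k 1)| ≤ L := fun k => by
    simpa [Pi.norm_single] using hl (Pi.single k 1)
  have h2 : ∀ k : Fin N, |m (Pi.single k 1)| ≤ M := fun k => by
    simpa [Pi.norm_single] using hm (Pi.single k 1)
  calc _ ≤ ∑ _k : Fin N, ∑ _j : Fin N, ε * L * M := by
        refine (Finset.abs_sum_le_sum_abs _ _).trans (Finset.sum_le_sum fun k _ => ?_)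
        refine (Finset.abs_sum_le_sum_abs _ _).trans (Finset.sum_le_sum fun j _ => ?_)
        rw [abs_mul, abs_mul]
        have h0 : 0 ≤ ε := (abs_nonneg _).trans (h k j)
        have h3 : 0 ≤ L := (abs_nonneg _).trans (h1 k)
        exact mul_le_mul (mul_le_mul (h k j) (h1 k) (abs_nonneg _) h0) (h2 j) (abs_nonneg _)
          (mul_nonneg h0 h3)
    _ = _ := by
        simp only [Finset.sum_const, Finset.card_univ, Fintype.card_fin, nsmul_eq_mul]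
        ring

/-- The quadratic function adapted to the plane spanned by `a0`, `a1`. -/
theorem loc_quad {K : ℝ} (hK : 1 ≤ K) : ∃ L : ℝ, 1 ≤ L ∧ ∀ (a0 a1 : Fin N → ℝ)
    (u0 u1 : (Fin N → ℝ) →L[ℝ] ℝ), ‖a0‖ ≤ K → ‖a1‖ ≤ K → (∀ v, |u0 v| ≤ K * ‖v‖) →
    (∀ v, |u1 v| ≤ K * ‖v‖) → u0 a0 = 1 → u0 a1 = 0 → u1 a0 = 0 → u1 a1 = 1 →
    ∃ (q : (Fin N → ℝ) → ℝ) (q' : (Fin N → ℝ) → (Fin N → ℝ) →L[ℝ] ℝ), ContDiff ℝ ∞ q ∧
      (∀ z, HasFDerivAt q (q' z) z) ∧ (∀ z v, |q' z v| ≤ L * ‖z‖ * ‖v‖) ∧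
      (∀ z, q' z a0 = 2 * u0 z) ∧ (∀ z, q' z a1 = 2 * u1 z) ∧ (∀ z, 2 * q z ≤ L * ‖z‖ ^ 2) ∧
      ∀ z r, 0 ≤ r → q z ≤ r ^ 2 → ‖z‖ ≤ 3 * K * r := by
  have hK0 : 0 < K := by linarith
  refine ⟨1 + 2 * (2 * K ^ 2 + N * (3 * K ^ 2) ^ 2), le_add_of_nonneg_right (by positivity), ?_⟩
  intro a0 a1 u0 u1 ha0 ha1 hu0 hu1 e00 e01 e10 e11
  set w : Fin N → (Fin N → ℝ) →L[ℝ] ℝ := fun k =>
    ContinuousLinearMap.proj k - a0 k • u0 - a1 k • u1 with hw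
  have w_ap : ∀ k z, w k z = z k - a0 k * u0 z - a1 k * u1 z := fun k z => by
    simp [hw]
  have hwb : ∀ k z, |w k z| ≤ 3 * K ^ 2 * ‖z‖ := fun k z => by
    rw [w_ap]
    have h1 : |z k| ≤ ‖z‖ := norm_le_pi_norm z k
    have h2 : |a0 k * u0 z| ≤ K * (K * ‖z‖) := by
      rw [abs_mul]
      exact mul_le_mul ((norm_le_pi_norm a0 k).trans ha0) (hu0 z) (abs_nonneg _) hK0.le
    have h3 : |a1 k * u1 z| ≤ K * (K * ‖z‖) := by
      rw [abs_mul]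
      exact mul_le_mul ((norm_le_pi_norm a1 k).trans ha1) (hu1 z) (abs_nonneg _) hK0.le
    have h4 := abs_sub (z k - a0 k * u0 z) (a1 k * u1 z)
    have h5 := abs_sub (z k) (a0 k * u0 z)
    have h6 : ‖z‖ ≤ K ^ 2 * ‖z‖ := le_mul_of_one_le_left (norm_nonneg _) (one_le_pow₀ hK)
    nlinarith
  set q' : (Fin N → ℝ) → (Fin N → ℝ) →L[ℝ] ℝ := fun z =>
    (2 * u0 z) • u0 + (2 * u1 z) • u1 + ∑ k, (2 * w k z) • w k with hq'
  have q_ap : ∀ z v, q' z v = 2 * u0 z * u0 v + 2 * u1 z * u1 v + ∑ k, 2 * w k z * w k v :=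
    fun z v => by simp [hq']
  have hb : ∀ z v, |q' z v| ≤ (1 + 2 * (2 * K ^ 2 + N * (3 * K ^ 2) ^ 2)) * ‖z‖ * ‖v‖ := by
    intro z v
    have p : ∀ {x y c : ℝ}, |x| ≤ c * ‖z‖ → |y| ≤ c * ‖v‖ → |2 * x * y| ≤ 2 * c ^ 2 * ‖z‖ * ‖v‖ := by
      intro x y c hx hy
      rw [abs_mul, abs_mul, abs_two]
      have := mul_le_mul hx hy (abs_nonneg _) ((abs_nonneg _).trans hx)
      nlinarith
    rw [q_ap]
    have h1 := p (hu0 z) (hu0 v)
    have h2 := p (hu1 z) (hu1 v)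
    have h3 : |∑ k, 2 * w k z * w k v| ≤ N * (2 * (3 * K ^ 2) ^ 2 * ‖z‖ * ‖v‖) := by
      refine (Finset.abs_sum_le_sum_abs _ _).trans ?_
      refine (Finset.sum_le_sum fun k _ => p (hwb k z) (hwb k v)).trans ?_
      simp
    have h4 := abs_add_three (2 * u0 z * u0 v) (2 * u1 z * u1 v) (∑ k, 2 * w k z * w k v)
    have h5 : 0 ≤ ‖z‖ * ‖v‖ := by positivity
    nlinarith
  have sq : ∀ (l : (Fin N → ℝ) →L[ℝ] ℝ) z, HasFDerivAt (fun z => l z ^ 2) ((2 * l z) • l) z := by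
    intro l z
    have := (l.hasFDerivAt (x := z)).pow 2
    simpa using this
  refine ⟨fun z => u0 z ^ 2 + u1 z ^ 2 + ∑ k, w k z ^ 2, q', ?_, fun z => ?_, hb, fun z => ?_,
    fun z => ?_, fun z => ?_, fun z r hr h => ?_⟩
  · exact ((u0.contDiff.pow 2).add (u1.contDiff.pow 2)).add
      (ContDiff.sum fun k _ => (w k).contDiff.pow 2)
  · exact ((sq u0 z).add (sq u1 z)).add (HasFDerivAt.fun_sum fun k _ => sq (w k) z)
  · rw [q_ap]
    simp [w_ap, e00, e10]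
  · rw [q_ap]
    simp [w_ap, e01, e11]
  · have h1 := (le_abs_self _).trans (hb z z)
    rw [q_ap] at h1
    have h2 : ∑ k, 2 * w k z * w k z = 2 * ∑ k, w k z ^ 2 := by
      rw [Finset.mul_sum]
      exact Finset.sum_congr rfl fun k _ => by ring
    rw [h2] at h1
    nlinarith
  · have hs : 0 ≤ ∑ k, w k z ^ 2 := Finset.sum_nonneg fun k _ => sq_nonneg _
    have h0 : |u0 z| ≤ r := abs_le_of_sq_le_sq (by nlinarith [sq_nonneg (u1 z)]) hr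
    have h1 : |u1 z| ≤ r := abs_le_of_sq_le_sq (by nlinarith [sq_nonneg (u0 z)]) hr
    refine (pi_norm_le_iff_of_nonneg (by positivity)).2 fun k => ?_
    have h2 : w k z ^ 2 ≤ ∑ k, w k z ^ 2 :=
      Finset.single_le_sum (f := fun k => w k z ^ 2) (fun k _ => sq_nonneg _) (Finset.mem_univ k)
    have h3 : |w k z| ≤ r :=
      abs_le_of_sq_le_sq (by nlinarith [sq_nonneg (u0 z), sq_nonneg (u1 z)]) hr
    have h4 : |a0 k * u0 z| ≤ K * r := by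
      rw [abs_mul]
      exact mul_le_mul ((norm_le_pi_norm a0 k).trans ha0) h0 (abs_nonneg _) hK0.le
    have h5 : |a1 k * u1 z| ≤ K * r := by
      rw [abs_mul]
      exact mul_le_mul ((norm_le_pi_norm a1 k).trans ha1) h1 (abs_nonneg _) hK0.le
    have h6 : z k = w k z + a0 k * u0 z + a1 k * u1 z := by rw [w_ap]; ring
    have h7 := abs_add_three (w k z) (a0 k * u0 z) (a1 k * u1 z)
    have h8 : r ≤ K * r := le_mul_of_one_le_left hr hK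
    rw [Real.norm_eq_abs, h6]
    linarith

/-- The value of the test form `dF0 ∧ du1 - dF1 ∧ du0` on the pair `b0`, `b1`. -/
def locVal (F0 F1 : (Fin N → ℝ) → ℝ) (u0 u1 : (Fin N → ℝ) →L[ℝ] ℝ) (z b0 b1 : Fin N → ℝ) : ℝ :=
  fderiv ℝ F0 z b0 * u1 b1 - fderiv ℝ F0 z b1 * u1 b0 -
    (fderiv ℝ F1 z b0 * u0 b1 - fderiv ℝ F1 z b1 * u0 b0)

theorem loc_real {K : ℝ} (hK : 1 ≤ K) : ∃ C : ℝ, 1 ≤ C ∧ ∀ η > 0, ∃ ε > 0, ∀ d > 0,
    ∀ (a0 a1 : Fin N → ℝ) (u0 u1 : (Fin N → ℝ) →L[ℝ] ℝ), ‖a0‖ ≤ K → ‖a1‖ ≤ K →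
    (∀ v, |u0 v| ≤ K * ‖v‖) → (∀ v, |u1 v| ≤ K * ‖v‖) → u0 a0 = 1 → u0 a1 = 0 → u1 a0 = 0 →
    u1 a1 = 1 → ∃ F0 F1 : (Fin N → ℝ) → ℝ, ContDiff ℝ ∞ F0 ∧ ContDiff ℝ ∞ F1 ∧
      ∀ z b0 b1 : Fin N → ℝ, (‖z‖ ≤ C * d → η * d < max |u0 z| |u1 z| ∧
        ∀ k l, |b0 k * b1 l - b1 k * b0 l - (a0 k * a1 l - a1 k * a0 l)| ≤ ε) →
        locVal F0 F1 u0 u1 z b0 b1 ≤ 0 ∧ (‖z‖ ≤ d → locVal F0 F1 u0 u1 z b0 b1 < 0) := by
  obtain ⟨L, hL, hq⟩ := loc_quad (N := N) hK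
  have hK0 : 0 < K := by linarith
  have hL0 : 0 < L := by linarith
  refine ⟨3 * K * L, by nlinarith, fun η hη => ?_⟩
  set c1 : ℝ := (N : ℝ) ^ 2 * (L * (3 * K * L)) * (2 * K) with hc1
  set c2 : ℝ := (N : ℝ) ^ 2 * K * K with hc2
  have c1n : 0 ≤ c1 := by positivity
  have c2n : 0 ≤ c2 := by positivity
  refine ⟨min (η / (c1 + 1)) (1 / (c2 + 1)), by positivity, fun d hd => ?_⟩
  set ε := min (η / (c1 + 1)) (1 / (c2 + 1)) with hε
  have ε0 : 0 ≤ ε := by positivity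
  have ε1 : ε * c1 ≤ η := by
    have : ε ≤ η / (c1 + 1) := min_le_left _ _
    rw [le_div_iff₀ (by positivity)] at this
    nlinarith
  have ε2 : ε * c2 ≤ 1 := by
    have : ε ≤ 1 / (c2 + 1) := min_le_right _ _
    rw [le_div_iff₀ (by positivity)] at this
    nlinarith
  intro a0 a1 u0 u1 ha0 ha1 hu0 hu1 e00 e01 e10 e11
  obtain ⟨q, q', qs, qd, qb, q0, q1, qu, ql⟩ := hq a0 a1 u0 u1 ha0 ha1 hu0 hu1 e00 e01 e10 e11
  obtain ⟨χ, χs, χ0, χp, χd, χz⟩ := loc_chi ((L * d) ^ 2) (5 / (η * d) ^ 2)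
  refine ⟨fun z => χ (q z) * u0 z, fun z => χ (q z) * u1 z, (χs.comp qs).mul u0.contDiff,
    (χs.comp qs).mul u1.contDiff, fun z b0 b1 h => ?_⟩
  have hχ : HasFDerivAt (fun z => χ (q z)) (deriv χ (q z) • q' z) z :=
    (χs.differentiable (by simp) (q z)).hasDerivAt.comp_hasFDerivAt z (qd z)
  have hF : ∀ (u : (Fin N → ℝ) →L[ℝ] ℝ) v, fderiv ℝ (fun z => χ (q z) * u z) z v =
      χ (q z) * u v + u z * (deriv χ (q z) * q' z v) := by
    intro u v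
    have h1 := (hχ.mul (u.hasFDerivAt (x := z))).fderiv
    have h2 : fderiv ℝ (fun z => χ (q z) * u z) z = _ := h1
    rw [h2]
    simp
  set μ : (Fin N → ℝ) →L[ℝ] ℝ := u0 z • u1 - u1 z • u0 with hμ
  have μ_ap : ∀ v, μ v = u0 z * u1 v - u1 z * u0 v := fun v => by simp [hμ]
  have hv : locVal (fun z => χ (q z) * u0 z) (fun z => χ (q z) * u1 z) u0 u1 z b0 b1 =
      deriv χ (q z) * (q' z b0 * μ b1 - q' z b1 * μ b0) +
        2 * χ (q z) * (u0 b0 * u1 b1 - u0 b1 * u1 b0) := by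
    simp only [locVal, hF, μ_ap]
    ring
  rw [hv]
  have hLd : 0 < L * d := mul_pos hL0 hd
  have hlt : ‖z‖ ≤ d → q z < (L * d) ^ 2 := fun hz => by
    have h1 := qu z
    have h2 : ‖z‖ ^ 2 ≤ d ^ 2 := pow_le_pow_left₀ (norm_nonneg _) hz 2
    have h3 : L * ‖z‖ ^ 2 ≤ L * d ^ 2 := mul_le_mul_of_nonneg_left h2 hL0.le
    have h4 : L * d ^ 2 ≤ L * (L * d ^ 2) := le_mul_of_one_le_left (by positivity) hL
    have h5 : 0 < L * d ^ 2 := by positivity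
    nlinarith
  rcases lt_or_ge ((L * d) ^ 2) (q z) with hq | hq
  · obtain ⟨z1, z2⟩ := χz _ hq
    rw [z1, z2]
    exact ⟨by simp, fun hz => absurd (hlt hz) hq.not_gt⟩
  have hz : ‖z‖ ≤ 3 * K * L * d := by
    have := ql z _ hLd.le hq
    linarith
  obtain ⟨hm, hb⟩ := h hz
  set m := max |u0 z| |u1 z| with hmd
  have m0 : |u0 z| ≤ m := le_max_left _ _
  have m1 : |u1 z| ≤ m := le_max_right _ _
  have hηd : 0 < η * d := mul_pos hη hd
  have mp : 0 < m := hηd.trans hm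
  have m2 : m ^ 2 ≤ u0 z ^ 2 + u1 z ^ 2 := by
    rcases max_choice |u0 z| |u1 z| with e | e
    · rw [hmd, e, sq_abs]; nlinarith [sq_nonneg (u1 z)]
    · rw [hmd, e, sq_abs]; nlinarith [sq_nonneg (u0 z)]
  have hμb : ∀ v, |μ v| ≤ 2 * K * m * ‖v‖ := fun v => by
    rw [μ_ap]
    have h1 : |u0 z * u1 v| ≤ m * (K * ‖v‖) := by
      rw [abs_mul]; exact mul_le_mul m0 (hu1 v) (abs_nonneg _) mp.le
    have h2 : |u1 z * u0 v| ≤ m * (K * ‖v‖) := by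
      rw [abs_mul]; exact mul_le_mul m1 (hu0 v) (abs_nonneg _) mp.le
    have h3 := abs_sub (u0 z * u1 v) (u1 z * u0 v)
    linarith
  have hqb : ∀ v, |q' z v| ≤ L * (3 * K * L * d) * ‖v‖ := fun v =>
    (qb z v).trans (by gcongr)
  have w1 := (abs_le.1 (loc_wedge hb (q' z) μ hqb hμb)).1
  have w2 := (abs_le.1 (loc_wedge hb u0 u1 hu0 hu1)).2
  rw [q0, q1, μ_ap a0, μ_ap a1, e00, e01, e10, e11] at w1
  rw [e00, e01, e10, e11] at w2
  have w3 : (N : ℝ) ^ 2 * ε * (L * (3 * K * L * d)) * (2 * K * m) = ε * c1 * d * m := by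
    rw [hc1]; ring
  have w4 : (N : ℝ) ^ 2 * ε * K * K = ε * c2 := by rw [hc2]; ring
  rw [w3] at w1
  rw [w4] at w2
  have w5 : ε * c1 * d * m ≤ m * m := by
    refine mul_le_mul_of_nonneg_right ?_ mp.le
    exact (mul_le_mul_of_nonneg_right ε1 hd.le).trans hm.le
  have w6 : (η * d) ^ 2 ≤ q' z b0 * μ b1 - q' z b1 * μ b0 := by
    have h1 : (η * d) ^ 2 ≤ m ^ 2 := pow_le_pow_left₀ hηd.le hm.le 2
    have h2 : 2 * u0 z * (u0 z * 1 - u1 z * 0) - 2 * u1 z * (u0 z * 0 - u1 z * 1) =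
      2 * (u0 z ^ 2 + u1 z ^ 2) := by ring
    have h3 : m * m = m ^ 2 := by ring
    rw [h2] at w1
    linarith only [h1, h3, w1, w5, m2]
  have w7 : u0 b0 * u1 b1 - u0 b1 * u1 b0 ≤ 2 := by linarith only [w2, ε2]
  have d1 := χd (q z)
  have d2 : deriv χ (q z) ≤ 0 :=
    d1.trans (mul_nonpos_of_nonpos_of_nonneg (neg_nonpos.2 (by positivity)) (χ0 _))
  have d3 : deriv χ (q z) * (η * d) ^ 2 ≤ -5 * χ (q z) := by
    have := mul_le_mul_of_nonneg_right d1 (sq_nonneg (η * d))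
    refine this.trans (le_of_eq ?_)
    field_simp
  have d4 := mul_le_mul_of_nonpos_left w6 d2
  have d5 := mul_le_mul_of_nonneg_left w7 (χ0 (q z))
  have fin : deriv χ (q z) * (q' z b0 * μ b1 - q' z b1 * μ b0) +
      2 * χ (q z) * (u0 b0 * u1 b1 - u0 b1 * u1 b0) ≤ -χ (q z) := by linarith only [d3, d4, d5]
  exact ⟨fin.trans (neg_nonpos.2 (χ0 _)), fun hz => fin.trans_lt (neg_lt_zero.2 (χp _ (hlt hz)))⟩

end SX4
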