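import Pool.Agent.P.MP_0a0487_an.SX.Cur
import Pool.Agent.P.MP_0a0487_an.SX.LocAux

/-! The support of a closed positive current is almost saturated by the planes. -/

set_option autoImplicit false
set_option linter.unusedSectionVars false

noncomputable section

namespace SX4

open scoped ComplexOrder ContDiff
open Filter Topology

variable {P A : Type} [TopologicalSpace P] [CompactSpace P] [CommRing A] [StarRing A] [Algebra ℂ A]
  [StarModule ℂ A] {B : Base P A}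

theorem Calc.loc_fc (G : Calc B) {Φ : (Fin G.N → ℝ) → ℝ} (hΦ : ContDiff ℝ ∞ Φ) (c : Fin G.N → ℝ) :
    ∃ s, B.Re0 s ∧ ∀ p v, G.dv s p v = (fderiv ℝ Φ (G.E p - c) (G.dE p v) : ℝ) := by
  have h1 : ContDiff ℝ ∞ fun z => Φ (z - c) := hΦ.comp (contDiff_id.sub contDiff_const)
  obtain ⟨s, s1, -, s3⟩ := G.fc (fun z => Φ (z - c)) Set.univ isOpen_univ h1.contDiffOn G.e G.e_re
    (fun _ => Set.mem_univ _)
  refine ⟨s, s1, fun p v => ?_⟩
  have e : (fun i => (B.ev (G.e i) p).re) = G.E p := rfl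
  rw [loc_lin, Complex.ofReal_sum]
  simp only [Calc.dv, s3, e, fderiv_comp_sub, Finset.mul_sum]
  rw [Finset.sum_comm]
  refine Finset.sum_congr rfl fun k _ => ?_
  rw [Complex.ofReal_mul, ← G.dv_e, Calc.dv, Finset.sum_mul]
  exact Finset.sum_congr rfl fun α _ => by ring

theorem Cur.loc_sub {G : Pre B} {V : P → Fin 2 → Fin 4 → ℝ} (C : Cur G V)
    (a b : Fin 4 → Fin 4 → A) : C.l (B.ev2 (a - b)) = C.l (B.ev2 a) - C.l (B.ev2 b) := by
  rw [← map_sub]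
  congr 1
  funext α β
  exact map_sub B.ev _ _

/-- The left inverse of the derivative as a linear map. -/
def Calc.locCo (G : Calc B) (p : P) : (Fin G.N → ℝ) →ₗ[ℝ] (Fin 4 → ℝ) where
  toFun := G.co p
  map_add' := G.co_add p
  map_smul' := G.co_smul p

theorem Spl.loc {G : Pre B} {U V : P → Fin 2 → Fin 4 → ℝ} (S : Spl G U V) :
    ∃ C₀ : ℝ, 0 < C₀ ∧ ∀ η > 0, ∃ δ > 0, ∀ C : Cur G V, ∀ x ∈ C.supp S.ηV, ∀ y,
      ‖G.E x - G.E y‖ ≤ δ → ∃ x' ∈ C.supp S.ηV, ‖G.E x' - G.E y‖ ≤ C₀ * ‖G.E x - G.E y‖ ∧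
        ∃ t u : Fin 2 → ℝ, G.co y (G.E x' - G.E y) = ∑ i, t i • U y i + ∑ i, u i • V y i ∧
          ‖t‖ ≤ C₀ * ‖G.E x - G.E y‖ ∧ ‖u‖ ≤ η * ‖G.E x - G.E y‖ := by
  obtain ⟨K1, hK1, hdE, hco⟩ := G.exists_bound
  obtain ⟨K2, hK2, hc⟩ := S.exists_coord
  have hK : 1 ≤ K2 * K1 := one_le_mul_of_one_le_of_one_le hK2 hK1
  obtain ⟨C, hC, hr⟩ := loc_real (N := G.N) hK
  refine ⟨K2 * K1 * C, by positivity, fun η hη => ?_⟩
  obtain ⟨ε, hε, hr⟩ := hr η hη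
  have huc : ∃ δ > 0, ∀ k l, ∀ p q, ‖G.E q - G.E p‖ ≤ δ → |G.biv V q k l - G.biv V p k l| ≤ ε := by
    have h1 : ∀ᶠ δ in 𝓝[>] (0 : ℝ), ∀ k l, ∀ p q, ‖G.E q - G.E p‖ ≤ δ →
        |G.biv V q k l - G.biv V p k l| ≤ ε := by
      refine eventually_all.2 fun k => eventually_all.2 fun l => ?_
      obtain ⟨δ, hδ, h⟩ := S.ucV k l ε hε
      filter_upwards [Ioc_mem_nhdsGT hδ] with r hr p q hpq
      exact h p q (hpq.trans hr.2)
    obtain ⟨δ, h2, h3⟩ := (h1.and self_mem_nhdsWithin).exists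
    exact ⟨δ, h3, h2⟩
  obtain ⟨δ, hδ, huc⟩ := huc
  refine ⟨δ / C, by positivity, fun Cu x hx y hxy => ?_⟩
  obtain ⟨t, u, c1, -, -, -, c5, c6, c7⟩ := hc y
  have hb : ∀ (f : (Fin 4 → ℝ) →ₗ[ℝ] (Fin 2 → ℝ)), (∀ v, ‖f v‖ ≤ K2 * ‖v‖) → ∀ z,
      ‖f (G.co y z)‖ ≤ K2 * K1 * ‖z‖ := fun f hf z =>
    (hf _).trans (by rw [mul_assoc]; exact mul_le_mul_of_nonneg_left (hco y z) (by linarith))
  set d := ‖G.E x - G.E y‖ with hd
  have key : ∃ x' ∈ Cu.supp S.ηV, ‖G.E x' - G.E y‖ ≤ C * d ∧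
      ‖u (G.co y (G.E x' - G.E y))‖ ≤ η * d := by
    rcases (norm_nonneg (G.E x - G.E y)).eq_or_lt with h0 | h0
    · refine ⟨x, hx, ?_, (hb u c7 _).trans ?_⟩ <;> rw [hd, ← h0] <;> simp
    by_contra hcon
    push Not at hcon
    let w : Fin 2 → (Fin G.N → ℝ) →L[ℝ] ℝ := fun i =>
      LinearMap.toContinuousLinearMap ((LinearMap.proj i).comp (u.comp (G.locCo y)))
    have w_ap : ∀ i z, w i z = u (G.co y z) i := fun i z => rfl
    have wb : ∀ i z, |w i z| ≤ K2 * K1 * ‖z‖ := fun i z =>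
      (norm_le_pi_norm (u (G.co y z)) i).trans (hb u c7 z)
    have wa : ∀ i j, w i (G.dE y (V y j)) = (Pi.single j 1 : Fin 2 → ℝ) i := fun i j => by
      rw [w_ap, G.co_dE, c5]
    have ab : ∀ j, ‖G.dE y (V y j)‖ ≤ K2 * K1 := fun j => by
      refine (hdE y _).trans ?_
      have h1 := S.bdV y j
      have h2 : K1 * ‖V y j‖ ≤ K1 := mul_le_of_le_one_right (by linarith) h1
      have h3 : K1 ≤ K2 * K1 := le_mul_of_one_le_left (by linarith) hK2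
      linarith
    obtain ⟨F0, F1, s0, s1, hF⟩ := hr d h0 (G.dE y (V y 0)) (G.dE y (V y 1)) (w 0) (w 1) (ab 0)
      (ab 1) (wb 0) (wb 1) (by simp [wa]) (by simp [wa]) (by simp [wa]) (by simp [wa])
    obtain ⟨f0, r0, d0⟩ := G.loc_fc s0 (G.E y)
    obtain ⟨f1, r1, d1⟩ := G.loc_fc s1 (G.E y)
    obtain ⟨g0, r2, d2⟩ := G.loc_fc (w 0).contDiff (G.E y)
    obtain ⟨g1, r3, d3⟩ := G.loc_fc (w 1).contDiff (G.E y)
    have hval : ∀ p, (B.b2 (G.dd f0 g1 - G.dd f1 g0) p (V p 0) (V p 1)).re =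
        locVal F0 F1 (w 0) (w 1) (G.E p - G.E y) (G.dE p (V p 0)) (G.dE p (V p 1)) := by
      intro p
      rw [Base.b2_sub, G.b2_dd, G.b2_dd]
      simp only [d0, d1, d2, d3, ContinuousLinearMap.fderiv, ← Complex.ofReal_mul,
        ← Complex.ofReal_sub, Complex.ofReal_re, locVal]
    have hs : ∀ p ∈ Cu.supp S.ηV,
        locVal F0 F1 (w 0) (w 1) (G.E p - G.E y) (G.dE p (V p 0)) (G.dE p (V p 1)) ≤ 0 ∧
        (‖G.E p - G.E y‖ ≤ d →
          locVal F0 F1 (w 0) (w 1) (G.E p - G.E y) (G.dE p (V p 0)) (G.dE p (V p 1)) < 0) := by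
      intro p hp
      refine hF _ _ _ fun hz => ⟨?_, fun k l => huc k l y p (hz.trans ?_)⟩
      · refine (hcon p hp hz).trans_le ((pi_norm_le_iff_of_nonneg ?_).2 fun i => ?_)
        · exact (abs_nonneg _).trans (le_max_left _ _)
        · fin_cases i
          · exact le_max_left _ _
          · exact le_max_right _ _
      · rwa [le_div_iff₀ (by linarith), mul_comm] at hxy
    have hneg := S.neg_of_supp Cu ((G.dd_re r0 r3).sub (G.dd_re r1 r2))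
      (fun p hp => by rw [hval]; exact (hs p hp).1) hx (by rw [hval]; exact (hs x hx).2 le_rfl)
    rw [Cu.loc_sub, Cu.closed _ r0.1 _ r3.1, Cu.closed _ r1.1 _ r2.1] at hneg
    simp at hneg
  obtain ⟨x', h1, h2, h3⟩ := key
  have h4 : 0 ≤ C * d := (norm_nonneg _).trans h2
  refine ⟨x', h1, ?_, t (G.co y (G.E x' - G.E y)), u (G.co y (G.E x' - G.E y)), c1 _, ?_, h3⟩
  · rw [mul_assoc]
    exact h2.trans (le_mul_of_one_le_left h4 hK)
  · rw [mul_assoc]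
    exact (hb t c6 _).trans (mul_le_mul_of_nonneg_left h2 (by linarith))

end SX4
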