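import Pool.Agent.P.MP_0a0487_an.SX.FrkDefs

/-! The semiconjugacy with a hyperbolic linear map. -/

set_option autoImplicit false
set_option linter.unusedSectionVars false
set_option linter.unusedVariables false

noncomputable section

namespace SX4

open Filter Topology Matrix

section Op

open Polynomial

variable {V : Type} [NormedAddCommGroup V] [NormedSpace ℂ V] [CompleteSpace V]

theorem FrkC_unit (T : (V →L[ℂ] V)ˣ) (h1 : ‖(T : V →L[ℂ] V)‖ ≤ 1)
    (h2 : ‖((T⁻¹ : (V →L[ℂ] V)ˣ) : V →L[ℂ] V)‖ ≤ 1) {p : ℂ[X]} (hp : p.Monic)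
    (hr : ∀ z, p.IsRoot z → ‖z‖ ≠ 1) : IsUnit (aeval (T : V →L[ℂ] V) p) := by
  by_contra hc
  rw [(IsAlgClosed.splits p).eq_prod_roots_of_monic hp] at hc
  obtain ⟨k, hk, hk0⟩ := spectrum.exists_mem_of_not_isUnit_aeval_prod hc
  apply hr k hk0
  have hone : ‖(1 : V →L[ℂ] V)‖ ≤ 1 := ContinuousLinearMap.norm_id_le
  have bd : ∀ (S : V →L[ℂ] V) (z : ℂ), ‖S‖ ≤ 1 → z ∈ spectrum ℂ S → ‖z‖ ≤ 1 := fun S z hS hz =>
    (spectrum.norm_le_norm_mul_of_mem hz).trans (mul_le_one₀ hS (norm_nonneg _) hone)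
  have hk1 : k ≠ 0 := by
    rintro rfl
    exact spectrum.zero_notMem ℂ T.isUnit hk
  have h3 := bd _ _ h1 hk
  have h4 := bd _ _ h2 ((spectrum.inv_mem_iff (r := Units.mk0 k hk1)).1 hk)
  rw [Units.val_inv_eq_inv_val, Units.val_mk0, norm_inv,
    inv_le_one₀ (norm_pos_iff.2 hk1)] at h4
  exact le_antisymm h3 h4

theorem FrkC_char {b : ℕ} (B : Matrix (Fin b) (Fin b) ℂ) (T : V →L[ℂ] V) (u : Fin b → V)
    (i : Fin b) : ∑ j, aeval T (B.charmatrix i j) (u j) = T (u i) - ∑ j, B i j • u j := by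
  have e : ∀ j, aeval T (B.charmatrix i j) (u j) =
      (if i = j then T (u j) else 0) - B i j • u j := fun j => by
    rw [charmatrix_apply, map_sub, aeval_C, _root_.sub_apply, diagonal_apply]
    congr 1
    split_ifs <;> simp
  rw [Finset.sum_congr rfl fun j _ => e j, Finset.sum_sub_distrib, Finset.sum_ite_eq]
  simp

theorem FrkC_mul {b : ℕ} {M N : Matrix (Fin b) (Fin b) ℂ[X]} {p : ℂ[X]} (h : M * N = p • 1)
    (T : V →L[ℂ] V) (u : Fin b → V) (i : Fin b) :
    ∑ j, aeval T (M i j) (∑ k, aeval T (N j k) (u k)) = aeval T p (u i) := by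
  have e : ∀ k, ∑ j, aeval T (M i j) (aeval T (N j k) (u k)) =
      if i = k then aeval T p (u k) else 0 := fun k => by
    have h1 := congrArg (fun q => aeval T q (u k)) (congrFun (congrFun h i) k)
    simp only [mul_apply, map_sum, map_mul, _root_.sum_apply,
      mul_apply_eq_comp, Matrix.smul_apply, one_apply, smul_eq_mul] at h1
    rw [h1]
    split_ifs <;> simp
  simp only [map_sum]
  rw [Finset.sum_comm, Finset.sum_congr rfl fun k _ => e k, Finset.sum_ite_eq]
  simp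

theorem FrkC_solve {b : ℕ} (B : Matrix (Fin b) (Fin b) ℂ) (T : V →L[ℂ] V)
    (h : IsUnit (aeval T B.charpoly)) (g : Fin b → V) :
    ∃ u : Fin b → V, ∀ i, T (u i) - ∑ j, B i j • u j = g i := by
  obtain ⟨S, hS⟩ := h.exists_right_inv
  refine ⟨fun j => ∑ k, aeval T (B.charmatrix.adjugate j k) (S (g k)), fun i => ?_⟩
  refine (FrkC_char B T _ i).symm.trans
    ((FrkC_mul (mul_adjugate B.charmatrix) T (fun k => S (g k)) i).trans ?_)
  exact congrArg (fun Q : V →L[ℂ] V => Q (g i)) hS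

theorem FrkC_uniq {b : ℕ} (B : Matrix (Fin b) (Fin b) ℂ) (T : V →L[ℂ] V)
    (h : IsUnit (aeval T B.charpoly)) (u : Fin b → V) (hu : ∀ i, T (u i) = ∑ j, B i j • u j)
    (i : Fin b) : u i = 0 := by
  obtain ⟨S, hS⟩ := h.exists_left_inv
  have h1 := FrkC_mul (adjugate_mul B.charmatrix) T u i
  simp only [FrkC_char, hu, sub_self, map_zero, Finset.sum_const_zero] at h1
  have h2 : S (aeval T B.charpoly (u i)) = u i := congrArg (fun Q : V →L[ℂ] V => Q (u i)) hS
  rw [← h2]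
  change S (aeval T B.charmatrix.det (u i)) = 0
  rw [← h1, map_zero]

end Op

open BoundedContinuousFunction in
theorem FrkC_comp {b : ℕ} {A : Matrix (Fin b) (Fin b) ℤ} (h : HypM A) {X : Type}
    [TopologicalSpace X] (F : X ≃ₜ X) : ∃ T : (X →ᵇ ℂ) →L[ℂ] (X →ᵇ ℂ), (∀ f x, T f x = f (F x)) ∧
      IsUnit (Polynomial.aeval T (A.map (Int.cast : ℤ → ℂ)).charpoly) := by
  have bd : ∀ g : C(X, X), ‖compContinuousCLM ℂ ℂ g‖ ≤ 1 := fun g =>
    (compContinuousCLM ℂ ℂ g).opNorm_le_bound zero_le_one fun f => by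
      simpa using norm_compContinuous_le f g
  let T : ((X →ᵇ ℂ) →L[ℂ] (X →ᵇ ℂ))ˣ :=
    ⟨compContinuousCLM ℂ ℂ ⟨F, F.continuous⟩, compContinuousCLM ℂ ℂ ⟨F.symm, F.symm.continuous⟩,
      by ext f x; simp, by ext f x; simp⟩
  exact ⟨T, fun f x => rfl, FrkC_unit T (bd _) (bd _) (charpoly_monic _) h⟩

open BoundedContinuousFunction in
theorem HypM.solve {b : ℕ} {A : Matrix (Fin b) (Fin b) ℤ} (h : HypM A) (hd : A.det = 1)
    {X : Type} [TopologicalSpace X] [CompactSpace X] (F : X ≃ₜ X) {g : X → Fin b → ℝ}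
    (hg : Continuous g) : ∃ u : X → Fin b → ℝ, Continuous u ∧
      ∀ x, u (F x) - A.map (Int.cast : ℤ → ℝ) *ᵥ u x = g x := by
  obtain ⟨T, hT, hu⟩ := FrkC_comp h F
  obtain ⟨u, e⟩ := FrkC_solve _ T hu fun i => mkOfCompact ⟨fun x => (g x i : ℂ), by fun_prop⟩
  refine ⟨fun x i => (u i x).re, by fun_prop, fun x => funext fun i => ?_⟩
  have e1 := congrArg (fun f : X →ᵇ ℂ => (f x).re) (e i)
  simpa [hT, mulVec, dotProduct, coe_sum, Finset.sum_apply] using e1

open BoundedContinuousFunction in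
theorem HypM.bdd {b : ℕ} {A : Matrix (Fin b) (Fin b) ℤ} (h : HypM A) (hd : A.det = 1)
    {v : ℤ → Fin b → ℝ} (hv : ∀ n, v (n + 1) = A.map (Int.cast : ℤ → ℝ) *ᵥ v n) {C : ℝ}
    (hC : ∀ n, ‖v n‖ ≤ C) : v 0 = 0 := by
  obtain ⟨T, hT, hu⟩ := FrkC_comp h (Homeomorph.addRight (1 : ℤ))
  let u : Fin b → ℤ →ᵇ ℂ := fun i => ofNormedAddCommGroupDiscrete (fun n => (v n i : ℂ)) C
    fun n => by
      rw [Complex.norm_real]
      exact (norm_le_pi_norm (v n) i).trans (hC n)
  have hu' : ∀ i n, u i n = (v n i : ℂ) := fun _ _ => rfl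
  funext i
  have h1 := FrkC_uniq _ T hu u (fun i => by
    ext n
    simp [hT, hu', hv, mulVec, dotProduct, coe_sum, Finset.sum_apply]) i
  have h2 := congrArg (fun f : ℤ →ᵇ ℂ => f 0) h1
  simpa [hu'] using h2

theorem HypM.pow {b : ℕ} {A : Matrix (Fin b) (Fin b) ℤ} (h : HypM A) {n : ℕ} (hn : 1 ≤ n) :
    HypM (A ^ n) ∧ (1 - A ^ n).det ≠ 0 := by
  have h1 : HypM (A ^ n) := by
    intro z hz hz1
    have e : (A ^ n).map (Int.cast : ℤ → ℂ) = A.map (Int.cast : ℤ → ℂ) ^ n :=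
      map_pow (Int.castRingHom ℂ).mapMatrix A n
    rw [e, ← Matrix.mem_spectrum_iff_isRoot_charpoly, spectrum.map_pow_of_pos _ hn] at hz
    obtain ⟨w, hw, rfl⟩ := hz
    rw [norm_pow, pow_eq_one_iff_of_nonneg (norm_nonneg w) (by omega)] at hz1
    exact h w (Matrix.mem_spectrum_iff_isRoot_charpoly.1 hw) hz1
  refine ⟨h1, fun h0 => h1 1 ?_ norm_one⟩
  rw [Polynomial.IsRoot, Matrix.eval_charpoly, map_one]
  have e := (Int.castRingHom ℂ).map_det (1 - A ^ n)
  rw [h0, map_zero, map_sub, map_one] at e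
  exact e.symm

/-- The number of solutions of `M x = 0` on the torus. -/
theorem card_ker_torus {b : ℕ} {M : Matrix (Fin b) (Fin b) ℤ} (h : M.det ≠ 0) :
    Nat.card {x : Fin b → AddCircle (1 : ℝ) // ∀ i, ∑ j, M i j • x j = 0} = M.det.natAbs := by
  set B : Matrix (Fin b) (Fin b) ℝ := M.map (Int.cast : ℤ → ℝ) with hB
  have hdet : IsUnit B.det := by
    have e := (Int.castRingHom ℝ).map_det M
    change (M.det : ℝ) = B.det at e
    rw [← e]
    exact (Int.cast_ne_zero.2 h).isUnit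
  have cast : ∀ k : Fin b → ℤ, (fun i => ((M *ᵥ k) i : ℝ)) = B *ᵥ fun i => (k i : ℝ) := fun k => by
    funext i
    simp [hB, mulVec, dotProduct]
  have sm : ∀ (y : Fin b → ℝ) (i : Fin b), ∑ j, M i j • ((y j : ℝ) : AddCircle (1 : ℝ)) =
      (((B *ᵥ y) i : ℝ) : AddCircle (1 : ℝ)) := fun y i => by
    rw [mulVec, dotProduct, QuotientAddGroup.mk_sum]
    refine Finset.sum_congr rfl fun j _ => ?_
    rw [← AddCircle.coe_zsmul, zsmul_eq_mul]
    rfl
  have z : ∀ t : ℝ, (t : AddCircle (1 : ℝ)) = 0 ↔ ∃ n : ℤ, (n : ℝ) = t := fun t => by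
    rw [AddCircle.coe_eq_zero_iff]
    simp
  let φ : (Fin b → ℤ) →ₗ[ℤ] (Fin b → AddCircle (1 : ℝ)) := AddMonoidHom.toIntLinearMap
    { toFun := fun k i => (((B⁻¹ *ᵥ fun j => (k j : ℝ)) i : ℝ) : AddCircle (1 : ℝ))
      map_zero' := by
        funext i
        simp [mulVec, dotProduct]
      map_add' := fun k k' => by
        funext i
        rw [Pi.add_apply, ← AddCircle.coe_add]
        congr 1
        simp [mulVec, dotProduct, mul_add, Finset.sum_add_distrib] }
  have hφ : ∀ k i, φ k i = (((B⁻¹ *ᵥ fun j => (k j : ℝ)) i : ℝ) : AddCircle (1 : ℝ)) :=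
    fun _ _ => rfl
  have hr : ∀ x, (∀ i, ∑ j, M i j • x j = 0) ↔ x ∈ LinearMap.range φ := fun x => by
    constructor
    · intro hx
      choose y hy using fun i => QuotientAddGroup.mk_surjective (x i)
      have h1 : ∀ i, ∃ n : ℤ, (n : ℝ) = (B *ᵥ y) i := fun i => by
        rw [← z, ← sm, ← hx i]
        exact Finset.sum_congr rfl fun j _ => by rw [← hy j]
      choose k hk using h1
      refine ⟨k, funext fun i => ?_⟩
      rw [hφ, funext hk, mulVec_mulVec, nonsing_inv_mul _ hdet, one_mulVec, ← hy i]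
    · rintro ⟨k, rfl⟩ i
      simp only [hφ]
      rw [sm, mulVec_mulVec, mul_nonsing_inv _ hdet, one_mulVec, z]
      exact ⟨k i, rfl⟩
  have hk : LinearMap.ker φ = LinearMap.range M.mulVecLin := by
    ext k
    rw [LinearMap.mem_ker, LinearMap.mem_range]
    constructor
    · intro h0
      choose m hm using fun i => (z _).1 ((hφ k i).symm.trans (congrFun h0 i))
      refine ⟨m, funext fun i => Int.cast_injective (α := ℝ) ?_⟩
      have e := congrFun (cast m) i
      rw [funext hm, mulVec_mulVec, mul_nonsing_inv _ hdet, one_mulVec] at e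
      exact e
    · rintro ⟨m, rfl⟩
      funext i
      rw [hφ, mulVecLin_apply, cast, mulVec_mulVec, nonsing_inv_mul _ hdet, one_mulVec,
        Pi.zero_apply, z]
      exact ⟨m i, rfl⟩
  have hinj : Function.Injective M.mulVecLin := fun k k' e =>
    Matrix.mulVec_injective_of_det_ne_zero h e
  rw [Nat.card_congr (Equiv.subtypeEquivRight hr), ← Nat.card_congr φ.quotKerEquivRange.toEquiv, hk,
    ← Submodule.natAbs_det_equiv _ (LinearEquiv.ofInjective _ hinj), ← LinearMap.det_toLin' M]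
  rfl

/-- Periodic points of a toral automorphism are dense. -/
theorem dense_periodic {b : ℕ} {A : Matrix (Fin b) (Fin b) ℤ} (hd : A.det = 1) :
    Dense {x : Fin b → AddCircle (1 : ℝ) | ∃ n, 1 ≤ n ∧ ∀ i, ∑ j, (A ^ n) i j • x j = x i} := by
  let T : Matrix (Fin b) (Fin b) ℤ → (Fin b → AddCircle (1 : ℝ)) → Fin b → AddCircle (1 : ℝ) :=
    fun M x i => ∑ j, M i j • x j
  have T1 : ∀ x, T 1 x = x := fun x => funext fun i => by simp [T, one_apply]
  have Tm : ∀ M N x, T (M * N) x = T M (T N x) := fun M N x => funext fun i => by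
    simp only [T, mul_apply, Finset.sum_smul, Finset.smul_sum, mul_smul]
    exact Finset.sum_comm
  have Tp : ∀ n x, (T A)^[n] x = T (A ^ n) x := fun n => by
    induction n with
    | zero => exact fun x => (T1 x).symm
    | succ n ih => exact fun x => by rw [Function.iterate_succ_apply, ih, pow_succ, Tm]
  have Ti : Function.Injective (T A) := fun x y e => by
    have e1 := congrArg (T A.adjugate) e
    rwa [← Tm, ← Tm, adjugate_mul, hd, one_smul, T1, T1] at e1
  have per : ∀ (m : ℕ) (x : Fin b → AddCircle (1 : ℝ)), 0 < m → (∀ i, m • x i = 0) →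
      ∃ n, 1 ≤ n ∧ ∀ i, ∑ j, (A ^ n) i j • x j = x i := by
    intro m x hm hx
    let W : Set (Fin b → AddCircle (1 : ℝ)) := {y | ∀ i, m • y i = 0}
    have hW : W.Finite := Set.Finite.pi' fun _ => AddCircle.finite_torsion (1 : ℝ) hm
    have hT : Set.MapsTo (T A) W W := fun y hy i => by
      simp only [T, Finset.smul_sum]
      exact Finset.sum_eq_zero fun j _ => by rw [smul_comm, hy j, smul_zero]
    have := hW.to_subtype
    obtain ⟨n, hn, hp⟩ := (hT.restrict_inj.2 Ti.injOn).mem_periodicPts ⟨x, hx⟩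
    refine ⟨n, hn, fun i => ?_⟩
    have e := congrArg Subtype.val hp.eq
    rw [Set.MapsTo.coe_iterate_restrict, Tp] at e
    exact congrFun e i
  have d1 : DenseRange fun r : ℚ => ((r : ℝ) : AddCircle (1 : ℝ)) :=
    (QuotientAddGroup.mk_surjective.denseRange).comp Rat.denseRange_cast
      QuotientAddGroup.continuous_mk
  refine (DenseRange.piMap fun _ : Fin b => d1).mono ?_
  rintro _ ⟨r, rfl⟩
  refine per (∏ i, (r i).den) _ (Finset.prod_pos fun i _ => (r i).den_pos) fun i => ?_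
  obtain ⟨c, hc⟩ := Finset.dvd_prod_of_mem (fun i => (r i).den) (Finset.mem_univ i)
  rw [hc, mul_comm, mul_smul]
  have e : (r i).den • (((r i : ℚ) : ℝ) : AddCircle (1 : ℝ)) = 0 := by
    rw [← AddCircle.coe_nsmul, AddCircle.coe_eq_zero_iff]
    refine ⟨(r i).num, ?_⟩
    rw [zsmul_eq_mul, mul_one, nsmul_eq_mul]
    exact_mod_cast (Rat.den_mul_eq_num (r i)).symm
  change c • (r i).den • (((r i : ℚ) : ℝ) : AddCircle (1 : ℝ)) = 0
  rw [e, smul_zero]

end SX4
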