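import Pool.Agent.P.MP_0a0487_an.SX.FrkB

/-! A semiconjugacy which is injective on periodic points is injective. -/

set_option autoImplicit false
set_option linter.unusedSectionVars false

noncomputable section

namespace SX4

open Filter Topology Matrix

theorem FrkD_seq {α : Type} {r : α → α → Prop} {a b : α} (h : Relation.TransGen r a b) :
    ∃ (k : ℕ) (v : ℕ → α), 1 ≤ k ∧ v 0 = a ∧ v k = b ∧ ∀ i < k, r (v i) (v (i + 1)) := by
  induction h with
  | @single b hab =>
    refine ⟨1, fun i => if i = 0 then a else b, le_rfl, rfl, rfl, fun i hi => ?_⟩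
    obtain rfl : i = 0 := by omega
    exact hab
  | @tail b c _ hbc ih =>
    obtain ⟨k, v, hk, h0, h1, h2⟩ := ih
    refine ⟨k + 1, fun i => if i ≤ k then v i else c, by omega, ?_, ?_, fun i hi => ?_⟩
    · simp only [Nat.zero_le, if_true, h0]
    · simp only [Nat.add_one_le_iff, lt_irrefl, if_false]
    · have hi' : i ≤ k := by omega
      simp only [hi', if_true]
      by_cases h3 : i + 1 ≤ k
      · rw [if_pos h3]
        exact h2 i h3
      · obtain rfl : i = k := by omega
        rw [if_neg h3, h1]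
        exact hbc

/-- A cycle of a relation as a periodic sequence. -/
theorem FrkD_cycle {α : Type} {r : α → α → Prop} {a : α} (h : Relation.TransGen r a a) :
    ∃ (k : ℕ) (u : ℤ → α), 1 ≤ k ∧ u 0 = a ∧ (∀ n, u (n + k) = u n) ∧
      ∀ n, r (u n) (u (n + 1)) := by
  obtain ⟨k, v, hk, h0, h1, h2⟩ := FrkD_seq h
  have hk' : (0 : ℤ) < k := by exact_mod_cast hk
  refine ⟨k, fun n => v (n % k).toNat, hk, by simpa using h0, fun n => ?_, fun n => ?_⟩
  · simp only [Int.add_emod_right]
  · have e1 := Int.emod_nonneg n hk'.ne'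
    have e2 := Int.emod_lt_of_pos n hk'
    have e3 : (n + 1) % k = (n % k + 1) % k := (Int.emod_add_emod n k 1).symm
    have h3 := h2 (n % k).toNat (by omega)
    show r (v (n % k).toNat) (v ((n + 1) % k).toNat)
    by_cases h4 : n % k + 1 < k
    · rw [e3, Int.emod_eq_of_lt (by omega) h4, show (n % k + 1).toNat = (n % k).toNat + 1 by omega]
      exact h3
    · rw [e3, show n % k + 1 = k by omega, Int.emod_self, Int.toNat_zero, h0, ← h1]
      rwa [show (n % k).toNat + 1 = k by omega] at h3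

theorem FrkD_orb {X : Type} [TopologicalSpace X] (F : X ≃ₜ X) (x : X) :
    ∃ a : ℤ → X, Orb F a ∧ a 0 = x :=
  ⟨fun n => (F.toEquiv ^ n : Equiv.Perm X) x, fun n => by
    show _ = (F.toEquiv ^ (n + 1) : Equiv.Perm X) x
    rw [add_comm, _root_.zpow_one_add]
    rfl, by simp⟩

theorem FrkD_iter {X : Type} {f : X → X} {y : ℤ → X} (h : Orb f y) (k : ℕ) :
    f^[k] (y 0) = y k := by
  induction k with
  | zero => rfl
  | succ k ih => rw [Function.iterate_succ_apply', ih, h, Nat.cast_succ]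

theorem FrkD_close {Y : Type} [MetricSpace Y] [CompactSpace Y] (w : ℕ → Y) {η : ℝ}
    (hη : 0 < η) : ∃ i j, i < j ∧ dist (w j) (w i) ≤ η := by
  obtain ⟨a, φ, hφ, ha⟩ := CompactSpace.tendsto_subseq w
  obtain ⟨N, hN⟩ := Metric.cauchySeq_iff'.1 ha.cauchySeq η hη
  exact ⟨φ N, φ (N + 1), hφ N.lt_succ_self, (hN (N + 1) N.le_succ).le⟩

theorem FrkD_run {α : Type} {r : α → α → Prop} {b : ℤ → α} (h : ∀ n, r (b n) (b (n + 1)))
    {n m : ℤ} (hnm : n ≤ m) : Relation.ReflTransGen r (b n) (b m) := by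
  induction m, hnm using Int.leInduction with
  | base => exact .refl
  | succ m _ ih => exact ih.tail (h m)

theorem TA.injective {X T : Type} [MetricSpace X] [CompactSpace X] [MetricSpace T] (F : X ≃ₜ X)
    (h : TA F) (ch : ∀ ε > 0, ∀ x y, Relation.ReflTransGen (fun x y => dist (F x) y ≤ ε) x y)
    {g : T → T} (gi : Function.Injective g) {δ : ℝ} (hδ : 0 < δ)
    (hg : ∀ x y, Orb g x → Orb g y → (∀ n, dist (x n) (y n) ≤ δ) → x = y) {H : X → T}
    (hH : Continuous H) (e : ∀ x, H (F x) = g (H x))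
    (inj : ∀ k, 1 ≤ k → ∀ x y, F^[k] x = x → F^[k] y = y → H x = H y → x = y) :
    Function.Injective H := by
  have key : ∀ ε > 0, ∃ η > 0, ∀ P : X × X, Relation.TransGen (fun P Q : X × X =>
      H P.1 = H P.2 ∧ dist (F P.1) Q.1 ≤ η ∧ dist (F P.2) Q.2 ≤ η) P P → dist P.1 P.2 ≤ ε := by
    intro ε hε
    obtain ⟨θ, hθ, hu⟩ := Metric.uniformContinuous_iff_le.1
      (CompactSpace.uniformContinuous_of_continuous hH) (δ / 2) (by linarith)
    obtain ⟨η, hη, hcl⟩ := h.closing (ε := min θ (ε / 2)) (lt_min hθ (by linarith))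
    refine ⟨η, hη, fun P hP => ?_⟩
    obtain ⟨k, u, hk, h0, hp, hr⟩ := FrkD_cycle hP
    obtain ⟨y, hy, hyp, hyd⟩ := hcl k (fun n => (u n).1) (fun n => by rw [hp]) fun n => (hr n).2.1
    obtain ⟨y', hy', hyp', hyd'⟩ :=
      hcl k (fun n => (u n).2) (fun n => by rw [hp]) fun n => (hr n).2.2
    have e1 := hg (fun n => H (y n)) (fun n => H (y' n)) (fun n => by rw [← e, hy])
      (fun n => by rw [← e, hy']) fun n => by
        have h1 := hu ((hyd n).trans (min_le_left _ _))
        have h2 := hu ((hyd' n).trans (min_le_left _ _))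
        have h3 := dist_triangle_right (H (y n)) (H (y' n)) (H (u n).2)
        rw [(hr n).1] at h1
        linarith
    have e2 : y 0 = y' 0 := inj k hk _ _ (by rw [FrkD_iter hy, ← hyp 0, zero_add])
      (by rw [FrkD_iter hy', ← hyp' 0, zero_add]) (congrFun e1 0)
    have h1 := (hyd 0).trans (min_le_right _ _)
    have h2 := (hyd' 0).trans (min_le_right _ _)
    have h3 := dist_triangle_left (u 0).1 (u 0).2 (y' 0)
    rw [e2] at h1
    rw [← h0]
    linarith
  intro x x' hx
  obtain ⟨a, ha, rfl⟩ := FrkD_orb F x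
  obtain ⟨a', ha', rfl⟩ := FrkD_orb F x'
  have hE : ∀ n, H (a n) = H (a' n) := fun n => by
    induction n using Int.induction_on with
    | zero => exact hx
    | succ n ih => rw [← ha, ← ha', e, e, ih]
    | pred n ih => exact gi (by rw [← e, ← e, ha, ha', sub_add_cancel, ih])
  have run : ∀ η > 0, ∀ n m : ℤ, n ≤ m → Relation.ReflTransGen (fun P Q : X × X =>
      H P.1 = H P.2 ∧ dist (F P.1) Q.1 ≤ η ∧ dist (F P.2) Q.2 ≤ η) (a n, a' n) (a m, a' m) :=
    fun η hη n m hnm => FrkD_run (b := fun n => (a n, a' n)) (fun n => ⟨hE n,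
      by simpa [ha n] using hη.le, by simpa [ha' n] using hη.le⟩) hnm
  have far : ∀ c > 0, ∀ s : ℕ → ℤ, StrictMono s ∨ StrictAnti s →
      ∃ i, dist (a (s i)) (a' (s i)) ≤ c := by
    intro c hc s hs
    obtain ⟨η, hη, hk⟩ := key c hc
    have step : ∀ n m : ℤ, n < m → dist (a m, a' m) (a n, a' n) ≤ η → dist (a n) (a' n) ≤ c := by
      intro n m hnm hd
      rw [Prod.dist_eq, max_le_iff] at hd
      refine hk (a n, a' n) (Relation.TransGen.tail' (run η hη n (m - 1) (by omega))
        ⟨hE _, ?_, ?_⟩)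
      · simpa [ha (m - 1)] using hd.1
      · simpa [ha' (m - 1)] using hd.2
    obtain ⟨i, j, hij, hd⟩ := FrkD_close (fun i => (a (s i), a' (s i))) hη
    rcases hs with hs | hs
    · exact ⟨i, step _ _ (hs hij) hd⟩
    · exact ⟨j, step _ _ (hs hij) (by rwa [dist_comm])⟩
  refine eq_of_forall_dist_le fun ε hε => ?_
  obtain ⟨η, hη, hk⟩ := key ε hε
  obtain ⟨m, hm⟩ := far η hη (fun i => i + 1) (.inl fun i j hij => by
    show (i : ℤ) + 1 < j + 1
    omega)
  obtain ⟨n, hn⟩ := far η hη (fun i => -i) (.inr fun i j hij => by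
    show -(j : ℤ) < -i
    omega)
  have c1 := (ch η hη (a (m + 1)) (a (-n - 1))).lift (fun z => (z, z)) (p := fun P Q : X × X =>
    H P.1 = H P.2 ∧ dist (F P.1) Q.1 ≤ η ∧ dist (F P.2) Q.2 ≤ η) fun z z' hz => ⟨rfl, hz, hz⟩
  refine hk (a 0, a' 0) (((Relation.TransGen.tail' (run η hη 0 m (by omega))
    (c := (a (m + 1), a (m + 1))) ⟨hE _, ?_, ?_⟩).trans_left (c1.tail ⟨rfl, ?_, ?_⟩)).trans_left
      (run η hη (-n) 0 (by omega)))
  · simpa [ha m] using hη.le
  · simpa [ha' m, dist_comm] using hm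
  · simpa [ha (-n - 1)] using hη.le
  · simpa [ha (-n - 1)] using hn

end SX4
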