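import Mathlib

/-! Chain transitivity on finite covers. -/

set_option autoImplicit false
set_option linter.unusedSectionVars false

noncomputable section

namespace SX4

open scoped ComplexOrder ContDiff
open Filter Topology Matrix

theorem SysC_fin {Y' Y : Type} [TopologicalSpace Y'] [CompactSpace Y'] [TopologicalSpace Y]
    [T2Space Y] {π : Y' → Y} (hπ : IsCoveringMap π) (y : Y) : (π ⁻¹' {y}).Finite := by
  have h1 : IsCompact (π ⁻¹' {y}) := (isClosed_singleton.preimage hπ.continuous).isCompact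
  have := isCompact_iff_compactSpace.1 h1
  have := (hπ y).1
  exact Set.finite_coe_iff.1 finite_of_compact_of_discrete

theorem SysC_sec {Y' Y : Type} [TopologicalSpace Y'] [CompactSpace Y'] [TopologicalSpace Y]
    [T2Space Y] {π : Y' → Y} (hπ : IsCoveringMap π) (y0 : Y) :
    ∃ s : π ⁻¹' {y0} → Y → Y', (∀ i, ContinuousAt (s i) y0) ∧ ∃ U ∈ 𝓝 y0, ∀ y ∈ U,
      ∀ A : Set Y', (π ⁻¹' {y} ∩ A).ncard = {i | s i y ∈ A}.ncard := by
  classical
  obtain ⟨-, U, hU0, hU, -, H, hH⟩ := hπ y0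
  refine ⟨fun i y => if h : y ∈ U then (H.symm (⟨y, h⟩, i) : Y') else i, fun i => ?_, U,
    hU.mem_nhds hU0, fun y hy A => ?_⟩
  · refine ContinuousOn.continuousAt ?_ (hU.mem_nhds hU0)
    rw [continuousOn_iff_continuous_domRestrict]
    have e : U.domRestrict (fun y => if h : y ∈ U then (H.symm (⟨y, h⟩, i) : Y') else i) =
        fun y => (H.symm (y, i) : Y') := by
      funext y
      exact dif_pos y.2
    rw [e]
    exact continuous_subtype_val.comp (H.symm.continuous.comp (continuous_id.prodMk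
      continuous_const))
  · have hinj : Function.Injective fun i : π ⁻¹' {y0} => (H.symm (⟨y, hy⟩, i) : Y') := by
      intro i j hij
      exact congrArg Prod.snd (H.symm.injective (Subtype.ext hij))
    simp only [dif_pos hy]
    rw [← Set.ncard_image_of_injective _ hinj]
    congr 1
    ext p
    constructor
    · rintro ⟨h1, h2⟩
      have h3 : π p = y := h1
      have h4 : p ∈ π ⁻¹' U := by rw [Set.mem_preimage, h3]; exact hy
      have h5 : H.symm (⟨y, hy⟩, (H ⟨p, h4⟩).2) = ⟨p, h4⟩ := by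
        rw [Homeomorph.symm_apply_eq]
        exact Prod.ext (Subtype.ext ((hH ⟨p, h4⟩).trans h3).symm) rfl
      exact ⟨(H ⟨p, h4⟩).2, by rw [Set.mem_ofPred_eq, h5]; exact h2, by simp only [h5]⟩
    · rintro ⟨i, h1, rfl⟩
      refine ⟨?_, h1⟩
      have := hH (H.symm (⟨y, hy⟩, i))
      rw [Homeomorph.apply_symm_apply] at this
      exact this.symm

theorem SysC_lsc {Y' Y : Type} [TopologicalSpace Y'] [CompactSpace Y'] [TopologicalSpace Y]
    [T2Space Y] {π : Y' → Y} (hπ : IsCoveringMap π) {A : Set Y'} (hA : IsOpen A) (y0 : Y) :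
    ∀ᶠ y in 𝓝 y0, (π ⁻¹' {y0} ∩ A).ncard ≤ (π ⁻¹' {y} ∩ A).ncard := by
  obtain ⟨s, hs, U, hU, h⟩ := SysC_sec hπ y0
  have := (SysC_fin hπ y0).to_subtype
  have h1 : ∀ᶠ y in 𝓝 y0, ∀ i, s i y0 ∈ A → s i y ∈ A := by
    refine eventually_all.2 fun i => ?_
    by_cases hi : s i y0 ∈ A
    · exact ((hs i).eventually (hA.mem_nhds hi)).mono fun y hy _ => hy
    · exact Eventually.of_forall fun y hy => absurd hy hi
  filter_upwards [h1, hU] with y hy hyU
  rw [h y0 (mem_of_mem_nhds hU), h y hyU]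
  exact Set.ncard_le_ncard (fun i hi => hy i hi) (Set.toFinite _)

theorem SysC_usc {Y' Y : Type} [TopologicalSpace Y'] [CompactSpace Y'] [TopologicalSpace Y]
    [T2Space Y] {π : Y' → Y} (hπ : IsCoveringMap π) {A : Set Y'} (hA : IsClosed A) (y0 : Y) :
    ∀ᶠ y in 𝓝 y0, (π ⁻¹' {y} ∩ A).ncard ≤ (π ⁻¹' {y0} ∩ A).ncard := by
  obtain ⟨s, hs, U, hU, h⟩ := SysC_sec hπ y0
  have := (SysC_fin hπ y0).to_subtype
  have h1 : ∀ᶠ y in 𝓝 y0, ∀ i, s i y ∈ A → s i y0 ∈ A := by
    refine eventually_all.2 fun i => ?_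
    by_cases hi : s i y0 ∈ A
    · exact Eventually.of_forall fun y _ => hi
    · exact ((hs i).eventually (hA.isOpen_compl.mem_nhds hi)).mono fun y hy h' => absurd h' hy
  filter_upwards [h1, hU] with y hy hyU
  rw [h y0 (mem_of_mem_nhds hU), h y hyU]
  exact Set.ncard_le_ncard (fun i hi => hy i hi) (Set.toFinite _)

theorem SysC_times {M : Type} [TopologicalSpace M] (f : M ≃ₜ M)
    (nw : ∀ W : Set M, IsOpen W → W.Nonempty → ∃ m : ℕ, 1 ≤ m ∧ (f^[m] '' W ∩ W).Nonempty)
    {W : Set M} (hW : IsOpen W) (hne : W.Nonempty) (k : ℕ) :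
    ∃ T : Finset ℕ, T.card = k ∧ ∃ w ∈ W, ∀ t ∈ T, f^[t] w ∈ W := by
  induction k with
  | zero =>
    obtain ⟨w, hw⟩ := hne
    exact ⟨∅, rfl, w, hw, by simp⟩
  | succ k ih =>
    obtain ⟨T, hT, w, hw, h⟩ := ih
    have ho : IsOpen (W ∩ ⋂ t ∈ T, f^[t] ⁻¹' W) :=
      hW.inter (isOpen_biInter_finset fun t _ => hW.preimage (f.continuous.iterate t))
    obtain ⟨m, hm, _, ⟨a, ha, rfl⟩, hb⟩ := nw _ ho ⟨w, hw, Set.mem_iInter₂.2 h⟩
    refine ⟨insert 0 (T.image (· + m)), ?_, a, ha.1, fun t ht => ?_⟩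
    · rw [Finset.card_insert_of_notMem, Finset.card_image_of_injective _ (add_left_injective m), hT]
      intro h0
      obtain ⟨t, -, ht⟩ := Finset.mem_image.1 h0
      omega
    · rcases Finset.mem_insert.1 ht with rfl | ht
      · exact ha.1
      · obtain ⟨t, ht', rfl⟩ := Finset.mem_image.1 ht
        rw [Function.iterate_add_apply]
        exact Set.mem_iInter₂.1 hb.2 t ht'

theorem SysC_pow {M : Type} [TopologicalSpace M] (f : M ≃ₜ M)
    (nw : ∀ W : Set M, IsOpen W → W.Nonempty → ∃ m : ℕ, 1 ≤ m ∧ (f^[m] '' W ∩ W).Nonempty)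
    {W : Set M} (hW : IsOpen W) (hne : W.Nonempty) {N : ℕ} (hN : 1 ≤ N) :
    ∃ w ∈ W, ∃ j, (f^[N])^[j + 1] w ∈ W := by
  obtain ⟨T, hT, w, -, h⟩ := SysC_times f nw hW hne (N + 1)
  have key : ∀ a ∈ T, ∀ b ∈ T, a < b → a % N = b % N → ∃ w ∈ W, ∃ j, (f^[N])^[j + 1] w ∈ W := by
    intro a ha b hb hab e
    obtain ⟨c, hc⟩ := (Nat.modEq_iff_dvd' hab.le).1 e
    obtain ⟨j, rfl⟩ : ∃ j, c = j + 1 := by
      cases c with
      | zero => omega
      | succ j => exact ⟨j, rfl⟩
    refine ⟨f^[a] w, h a ha, j, ?_⟩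
    rw [← Function.iterate_mul, ← hc, ← Function.iterate_add_apply, Nat.sub_add_cancel hab.le]
    exact h b hb
  obtain ⟨a, ha, b, hb, hab, e⟩ := Finset.exists_ne_map_eq_of_card_lt_of_maps_to
    (s := T) (t := Finset.range N) (by rw [hT, Finset.card_range]; omega) (f := (· % N))
    (fun a _ => Finset.mem_coe.2 (Finset.mem_range.2 (Nat.mod_lt _ hN)))
  rcases lt_or_gt_of_ne hab with h1 | h1
  · exact key a ha b hb h1 e
  · exact key b hb a ha h1 e.symm

theorem chain_lift {Y' Y Z' Z : Type} [TopologicalSpace Y'] [CompactSpace Y'] [T2Space Y']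
    [ConnectedSpace Y'] [TopologicalSpace Y] [CompactSpace Y] [T2Space Y] [MetricSpace Z']
    [MetricSpace Z] {π : Y' → Y} (hπ : IsCoveringMap π) (F' : Y' ≃ₜ Y') {F : Y → Y}
    (hF : ∀ y, π (F' y) = F (π y)) {e' : Y' → Z'} (he' : Continuous e') {e : Y → Z}
    (he : Continuous e) (hi : Function.Injective e)
    (h : ∀ ε > 0, ∀ x, Relation.TransGen (fun x y => dist (e (F x)) (e y) ≤ ε) x x) :
    ∀ ε > 0, ∀ x y, Relation.ReflTransGen (fun x y => dist (e' (F' x)) (e' y) ≤ ε) x y := by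
  intro ε hε x
  obtain ⟨R, hR⟩ : ∃ R : Y' → Y' → Prop, R = fun x y => dist (e' (F' x)) (e' y) < ε := ⟨_, rfl⟩
  obtain ⟨U, hU⟩ : ∃ U : Set Y', U = {y | Relation.TransGen R x y} := ⟨_, rfl⟩
  have hx : F' x ∈ U := by
    rw [hU, hR]
    exact Relation.TransGen.single (by simpa using hε)
  have ho : IsOpen U := by
    rw [isOpen_iff_mem_nhds]
    intro y hy
    rw [hU] at hy ⊢
    obtain ⟨z, hz, hzy⟩ := Relation.TransGen.tail'_iff.1 hy
    have h1 : IsOpen {y | R z y} := by
      rw [hR]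
      exact isOpen_lt (continuous_const.dist he') continuous_const
    exact mem_of_superset (h1.mem_nhds hzy) fun y hy => Relation.TransGen.tail' hz hy
  have htrap : ∀ z ∈ closure U, F' z ∈ U := by
    intro z hz
    have h1 : IsOpen {w | R w (F' z)} := by
      rw [hR]
      exact isOpen_lt ((he'.comp F'.continuous).dist continuous_const) continuous_const
    obtain ⟨w, hw1, hw2⟩ := mem_closure_iff.1 hz _ h1 (by rw [hR]; simpa using hε)
    rw [hU] at hw2 ⊢
    exact Relation.TransGen.tail hw2 hw1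
  have hstep : ∀ p : Y', (π ⁻¹' {π p} ∩ closure U).ncard ≤ (π ⁻¹' {π (F' p)} ∩ U).ncard := by
    intro p
    refine Set.ncard_le_ncard_of_injOn F' (fun z hz => ⟨?_, htrap z hz.2⟩) F'.injective.injOn
      ((SysC_fin hπ _).inter_of_left _)
    have h1 : π z = π p := hz.1
    show π (F' z) = π (F' p)
    rw [hF, hF, h1]
  obtain ⟨δ, hδ, hd⟩ := (isOpen_interior (s := {q : Y' × Y |
      (π ⁻¹' {π q.1} ∩ closure U).ncard ≤
        (π ⁻¹' {q.2} ∩ U).ncard})).isClosed_compl.isCompact.exists_forall_le'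
    (f := fun q : Y' × Y => dist (e (π (F' q.1))) (e q.2))
    (((he.comp (hπ.continuous.comp (F'.continuous.comp continuous_fst))).dist
      (he.comp continuous_snd)).continuousOn) (a := 0) (by
      rintro ⟨p, y⟩ hq
      refine dist_pos.2 fun h0 => hq ?_
      obtain rfl : π (F' p) = y := hi h0
      rw [mem_interior_iff_mem_nhds]
      have a1 := (hπ.continuous.comp (continuous_fst (Y := Y))).continuousAt (x := (p, π (F' p)))
        |>.eventually (SysC_usc hπ (isClosed_closure (s := U)) (π p))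
      have a2 := (continuous_snd (X := Y')).continuousAt (x := (p, π (F' p)))
        |>.eventually (SysC_lsc hπ ho (π (F' p)))
      filter_upwards [a1, a2] with q h1 h2
      exact h1.trans ((hstep p).trans h2))
  have hjump : ∀ y y' : Y, dist (e (F y)) (e y') ≤ δ / 2 →
      (π ⁻¹' {y} ∩ closure U).ncard ≤ (π ⁻¹' {y'} ∩ U).ncard := by
    intro y y' hy
    rcases Set.eq_empty_or_nonempty (π ⁻¹' {y} ∩ closure U) with h0 | ⟨p, hp, -⟩
    · rw [h0, Set.ncard_empty]
      exact Nat.zero_le _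
    · obtain rfl : π p = y := hp
      by_contra hc
      have := hd (p, y') fun h1 => hc (by have h2 := interior_subset h1; exact h2)
      rw [← hF] at hy
      dsimp only at this
      linarith
  have hsub : ∀ y : Y, π ⁻¹' {y} ∩ U ⊆ π ⁻¹' {y} ∩ closure U := fun y =>
    Set.inter_subset_inter_right _ subset_closure
  have hchain : ∀ y y' : Y, Relation.TransGen (fun x y => dist (e (F x)) (e y) ≤ δ / 2) y y' →
      (π ⁻¹' {y} ∩ closure U).ncard ≤ (π ⁻¹' {y'} ∩ U).ncard := by
    intro y y' hy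
    induction hy with
    | single h1 => exact hjump _ _ h1
    | tail _ h2 ih =>
      exact ih.trans ((Set.ncard_le_ncard (hsub _) ((SysC_fin hπ _).inter_of_left _)).trans
        (hjump _ _ h2))
  have hc : IsClosed U := by
    refine isClosed_of_closure_subset fun z hz => ?_
    have h1 := Set.eq_of_subset_of_ncard_le (hsub (π z)) (hchain _ _ (h _ (half_pos hδ) (π z)))
      ((SysC_fin hπ _).inter_of_left _)
    have h2 : z ∈ π ⁻¹' {π z} ∩ closure U := ⟨rfl, hz⟩
    rw [← h1] at h2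
    exact h2.2
  have hall : U = Set.univ := IsClopen.eq_univ ⟨hc, ho⟩ ⟨_, hx⟩
  intro y
  have hy : y ∈ U := by rw [hall]; trivial
  rw [hU, hR] at hy
  exact (Relation.TransGen.mono (fun a b hab => le_of_lt hab) x y hy).to_reflTransGen

theorem chain_of_nw {M Z : Type} [TopologicalSpace M] [CompactSpace M] [T2Space M]
    [MetricSpace Z] (f : M ≃ₜ M)
    (nw : ∀ W : Set M, IsOpen W → W.Nonempty → ∃ m : ℕ, 1 ≤ m ∧ (f^[m] '' W ∩ W).Nonempty)
    {e : M → Z} (he : Continuous e) {N : ℕ} (hN : 1 ≤ N) :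
    ∀ ε > 0, ∀ x, Relation.TransGen (fun x y => dist (e (f^[N] x)) (e y) ≤ ε) x x := by
  intro ε hε x
  have hg : Continuous (f^[N]) := f.continuous.iterate N
  have ho : IsOpen ({y | dist (e y) (e x) < ε / 2} ∩
      {y | dist (e (f^[N] x)) (e (f^[N] y)) < ε / 2}) :=
    (isOpen_lt (he.dist continuous_const) continuous_const).inter
      (isOpen_lt (continuous_const.dist (he.comp hg)) continuous_const)
  obtain ⟨w, hw, j, hj⟩ := SysC_pow f nw ho ⟨x, by simpa using hε, by simpa using hε⟩ hN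
  generalize f^[N] = g at hw hj ⊢
  have h1 : dist (e (g x)) (e (g w)) < ε / 2 := hw.2
  have h2 : dist (e (g^[j + 1] w)) (e x) < ε / 2 := hj.1
  cases j with
  | zero =>
    refine Relation.TransGen.single ?_
    have := dist_triangle (e (g x)) (e (g w)) (e x)
    rw [zero_add, Function.iterate_one] at h2
    linarith
  | succ j =>
    have h3 : ∀ i, Relation.TransGen (fun x y => dist (e (g x)) (e y) ≤ ε) x (g^[i + 1] w) := by
      intro i
      induction i with
      | zero =>
        refine Relation.TransGen.single ?_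
        rw [zero_add, Function.iterate_one]
        linarith
      | succ i ih =>
        refine ih.tail ?_
        rw [Function.iterate_succ_apply' g (i + 1), dist_self]
        exact hε.le
    refine (h3 j).tail ?_
    rw [Function.iterate_succ_apply' g (j + 1)] at h2
    linarith

end SX4
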