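import Pool.Agent.P.MP_0a0487_an.SX.FrkA
import Pool.Agent.P.MP_0a0487_an.SX.FrkC
import Pool.Agent.P.MP_0a0487_an.SX.FrkD
import Pool.Agent.P.MP_0a0487_an.SX.SysC

/-! The conjugacy with a hyperbolic toral automorphism. -/

set_option autoImplicit false

noncomputable section

open Bundle Matrix
open scoped Manifold ContDiff
open Pool.Agent.P.MP_0a0487_an

namespace SX4

section Torus

open Function Matrix.Module

variable {b : ℕ}

/-- The projection to the torus. -/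
def FranksPj (b : ℕ) : (Fin b → ℝ) →+ (Fin b → AddCircle (1 : ℝ)) :=
  (QuotientAddGroup.mk' (AddSubgroup.zmultiples (1 : ℝ))).compLeft (Fin b)

theorem Franks_apply (v : Fin b → ℝ) (i : Fin b) : FranksPj b v i = (v i : AddCircle (1 : ℝ)) := rfl

theorem Franks_smul (A : Matrix (Fin b) (Fin b) ℤ) (v : Fin b → ℝ) :
    FranksPj b (A • v) = A • FranksPj b v := by
  funext i
  change QuotientAddGroup.mk' (AddSubgroup.zmultiples (1 : ℝ)) (∑ j, A i j • v j) = _
  simp only [map_sum, map_zsmul]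
  rfl

theorem Franks_mulVec (A : Matrix (Fin b) (Fin b) ℤ) (v : Fin b → ℝ) :
    A.map (Int.cast : ℤ → ℝ) *ᵥ v = A • v := by
  funext i
  simp [mulVec, dotProduct]

theorem Franks_ker {v : Fin b → ℝ} :
    FranksPj b v = 0 ↔ ∃ m : Fin b → ℤ, ∀ i, v i = m i := by
  rw [funext_iff]
  simp only [Franks_apply, Pi.zero_apply, AddCircle.coe_eq_zero_iff, zsmul_eq_mul, mul_one]
  exact ⟨fun h => ⟨fun i => (h i).choose, fun i => (h i).choose_spec.symm⟩,
    fun ⟨m, h⟩ i => ⟨m i, (h i).symm⟩⟩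

theorem Franks_small {v : Fin b → ℝ} (h : FranksPj b v = 0) (h1 : ∀ i, |v i| < 1) : v = 0 := by
  obtain ⟨m, hm⟩ := Franks_ker.1 h
  funext i
  have h2 := h1 i
  rw [hm] at h2 ⊢
  exact Int.cast_eq_zero.2 (Int.abs_lt_one_iff.1 (by exact_mod_cast h2))

theorem Franks_oq : IsOpenQuotientMap (FranksPj b) :=
  IsOpenQuotientMap.piMap fun _ => QuotientAddGroup.isOpenQuotientMap_mk

theorem Franks_cov : IsCoveringMap (FranksPj b) := by
  refine (Franks_oq.isQuotientMap.isAddQuotientCoveringMap_of_isDiscrete_ker_addMonoidHom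
    (isDiscrete_iff_forall_mem_exists_isOpen.2 fun x hx => ⟨Metric.ball x 1, Metric.isOpen_ball,
      Set.eq_singleton_iff_unique_mem.2
        ⟨⟨Metric.mem_ball_self one_pos, hx⟩, fun y hy => ?_⟩⟩)).isCoveringMap
  refine sub_eq_zero.1 (Franks_small (sub_mem hy.2 hx) fun i => ?_)
  exact (dist_le_pi_dist y x i).trans_lt hy.1

theorem Franks_lift (z : Fin b → AddCircle (1 : ℝ)) :
    ∃ v, FranksPj b v = z ∧ ∀ i, |v i| ≤ ‖z‖ := by
  obtain ⟨v, rfl⟩ := Franks_oq.surjective z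
  refine ⟨v - fun i => (round (v i) : ℝ), ?_, fun i => ?_⟩
  · rw [map_sub, Franks_ker.2 ⟨_, fun _ => rfl⟩, sub_zero]
  · exact UnitAddCircle.norm_eq.symm.trans_le (norm_le_pi_norm (FranksPj b v) i)

theorem Franks_exp {A : Matrix (Fin b) (Fin b) ℤ} (h : HypM A) (hd : A.det = 1) :
    ∃ δ > 0, ∀ x y : ℤ → Fin b → AddCircle (1 : ℝ), Orb (A • ·) x → Orb (A • ·) y →
      (∀ n, dist (x n) (y n) ≤ δ) → x = y := by
  obtain ⟨C, hC0, hC⟩ : ∃ C : ℝ, 0 ≤ C ∧ ∀ i, ∑ j, |(A i j : ℝ)| ≤ C :=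
    ⟨∑ i, ∑ j, |(A i j : ℝ)|, by positivity, fun i => Finset.single_le_sum
      (f := fun i => ∑ j, |(A i j : ℝ)|) (fun _ _ => by positivity) (Finset.mem_univ i)⟩
  have hδ : 0 < 1 / (C + 2) := by positivity
  have hδ' : (C + 2) * (1 / (C + 2)) = 1 := by field_simp
  generalize 1 / (C + 2) = δ at hδ hδ'
  refine ⟨δ, hδ, fun x y hx hy hxy => ?_⟩
  choose v hv hv' using fun n => Franks_lift (x n - y n)
  replace hv' : ∀ n i, |v n i| ≤ δ := fun n i => (hv' n i).trans (dist_eq_norm (x n) _ ▸ hxy n)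
  have e : ∀ n, v (n + 1) = A.map (Int.cast : ℤ → ℝ) *ᵥ v n := fun n => by
    rw [Franks_mulVec]
    refine sub_eq_zero.1 (Franks_small ?_ fun i => ?_)
    · rw [map_sub, Franks_smul, hv, hv, smul_sub, ← hx n, ← hy n, sub_self]
    · have a1 : |(A • v n) i| ≤ C * δ := by
        refine (Finset.abs_sum_le_sum_abs _ _).trans (le_trans ?_
          (mul_le_mul_of_nonneg_right (hC i) hδ.le))
        rw [Finset.sum_mul]
        refine Finset.sum_le_sum fun j _ => ?_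
        rw [zsmul_eq_mul, abs_mul]
        exact mul_le_mul_of_nonneg_left (hv' n j) (abs_nonneg _)
      have a2 := abs_sub (v (n + 1) i) ((A • v n) i)
      have a3 := hv' (n + 1) i
      rw [Pi.sub_apply]
      linarith
  funext k
  have e0 := h.bdd hd (v := fun n => v (n + k)) (C := δ)
    (fun n => by rw [add_right_comm, e]) fun n => (pi_norm_le_iff_of_nonneg hδ.le).2 (hv' _)
  rw [zero_add] at e0
  rw [← sub_eq_zero, ← hv, e0, map_zero]

theorem Franks_desc {X U Γ Z : Type} [TopologicalSpace X] [TopologicalSpace U] [Group Γ]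
    [MulAction Γ U] [TopologicalSpace Z] {q : U → X} (hq : IsQuotientCoveringMap q Γ) {k : U → Z}
    (hk : Continuous k) (h : ∀ (γ : Γ) x, k (γ • x) = k x) :
    ∃ g : X → Z, Continuous g ∧ ∀ x, g (q x) = k x := by
  have e : ∀ x, k (surjInv hq.surjective (q x)) = k x := fun x => by
    obtain ⟨γ, hγ⟩ := hq.apply_eq_iff_mem_orbit.1 (surjInv_eq hq.surjective (q x))
    rw [← hγ]
    exact h γ x
  exact ⟨fun x => k (surjInv hq.surjective x),
    hq.toIsQuotientMap.continuous_iff.2 (hk.congr fun x => (e x).symm), e⟩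

theorem Franks_semi {X U Γ : Type} [TopologicalSpace X] [CompactSpace X]
    [TopologicalSpace U] [Group Γ] [MulAction Γ U] (F : X ≃ₜ X)
    {q : U → X} (hq : IsQuotientCoveringMap q Γ) {F' : U → U} (hF' : Continuous F')
    (hqF : ∀ x, q (F' x) = F (q x)) {φ : Γ → Γ} (hφ : ∀ γ x, F' (γ • x) = φ γ • F' x)
    {c : Γ → Fin b → ℤ} {A : Matrix (Fin b) (Fin b) ℤ} (hA : ∀ γ, c (φ γ) = A *ᵥ c γ)
    (hdet : A.det = 1) (hyp : HypM A) {y : U → Fin b → ℝ} (hy : Continuous y)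
    (hc : ∀ (γ : Γ) x i, y (γ • x) i = y x i + c γ i)
    (cls : ∀ n, 1 ≤ n → ∀ m : Fin b → ℤ, ∃ (x : U) (γ : Γ), F'^[n] x = γ • x ∧ c γ = m)
    (cnt : ∀ n, 1 ≤ n → (fixedPoints F^[n]).Finite ∧
      (Nat.card (fixedPoints F^[n]) : ℤ) = (1 - A ^ n).det) :
    ∃ h : X → Fin b → AddCircle (1 : ℝ), Continuous h ∧ Surjective h ∧
      Semiconj h F (A • ·) ∧
      ∀ k, 1 ≤ k → ∀ x x', F^[k] x = x → F^[k] x' = x' → h x = h x' → x = x' := by
  obtain ⟨g, hg, eg⟩ := Franks_desc hq (k := fun x => A.map (Int.cast : ℤ → ℝ) *ᵥ y x - y (F' x))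
    ((continuous_const.matrix_mulVec hy).sub (hy.comp hF')) fun γ x => by
      funext i
      simp only [Pi.sub_apply, hφ, hc, hA, mulVec, dotProduct, map_apply, mul_add,
        Finset.sum_add_distrib, Int.cast_sum, Int.cast_mul]
      ring
  obtain ⟨u, hu, eu⟩ := hyp.solve hdet F hg
  obtain ⟨H, eH⟩ : ∃ H : U → Fin b → ℝ, H = fun x => y x + u (q x) := ⟨_, rfl⟩
  have H0 : Continuous H := eH ▸ hy.add (hu.comp hq.continuous)
  have H1 : Semiconj H F' (A • ·) := fun x => by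
    have e := eu (q x)
    rw [eg, Franks_mulVec, Franks_mulVec] at e
    simp only [eH, hqF, smul_add]
    linear_combination e
  have H2 : ∀ (γ : Γ) x, H (γ • x) = H x + fun i => (c γ i : ℝ) := fun γ x => by
    funext i
    simp only [eH, Pi.add_apply, hc, hq.map_smul]
    ring
  obtain ⟨h, hh, eh⟩ := Franks_desc hq (k := fun x => FranksPj b (H x))
    (Franks_oq.continuous.comp H0) fun γ x => by
      rw [H2, map_add, (Franks_ker (v := fun i => (c γ i : ℝ))).2 ⟨_, fun _ => rfl⟩, add_zero]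
  have h1 : Semiconj h F (A • ·) := fun x => by
    obtain ⟨x, rfl⟩ := hq.surjective x
    rw [← hqF, eh, eh, H1, Franks_smul]
  have sj : ∀ n, 1 ≤ n → ∀ t, A ^ n • t = t → ∃ x, F^[n] x = x ∧ h x = t := fun n hn t ht => by
    obtain ⟨v, rfl⟩ := Franks_oq.surjective t
    obtain ⟨m, hm⟩ := Franks_ker.1 (show FranksPj b (A ^ n • v - v) = 0 by
      rw [map_sub, Franks_smul, ht, sub_self])
    obtain ⟨x, γ, e1, rfl⟩ := cls n hn m
    have e2 := H1.iterate_right n x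
    rw [e1, H2, smul_iterate_apply, ← funext hm] at e2
    have e3 := (hyp.pow hn).1.bdd (by rw [det_pow, hdet, one_pow]) (v := fun _ => H x - v)
      (fun _ => by rw [Franks_mulVec, smul_sub, ← e2]; abel) fun _ => le_rfl
    refine ⟨q x, ?_, by rw [eh, sub_eq_zero.1 e3]⟩
    rw [← Semiconj.iterate_right hqF n x, e1, hq.map_smul]
  refine ⟨h, hh, ?_, h1, fun k hk x x' hx hx' e => ?_⟩
  · have d : Dense (Set.range h) := (dense_periodic hdet).mono (by
      rintro t ⟨n, hn, ht⟩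
      exact (sj n hn t (funext ht)).imp fun _ h => h.2)
    rw [← Set.range_eq_univ, ← (isCompact_range hh).isClosed.closure_eq, d.closure_eq]
  · have := (cnt k hk).1.to_subtype
    have e1 : ∀ t : Fin b → AddCircle (1 : ℝ),
        (∀ i, ∑ j, (1 - A ^ k) i j • t j = 0) ↔ A ^ k • t = t := fun t => by
      have e2 : (1 - A ^ k) • t = t - A ^ k • t := by rw [sub_smul, one_smul]
      rw [eq_comm, ← sub_eq_zero, ← e2, funext_iff]
      rfl
    have bij := Surjective.bijective_of_nat_card_le (f := fun x : fixedPoints F^[k] =>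
      (⟨h x, (e1 _).2 (by rw [← smul_iterate_apply, ← h1.iterate_right k, x.2.eq])⟩ :
        {x : Fin b → AddCircle (1 : ℝ) // ∀ i, ∑ j, (1 - A ^ k) i j • x j = 0}))
      (fun t => by
        obtain ⟨x, hx, e⟩ := sj k hk t ((e1 _).1 t.2)
        exact ⟨⟨x, hx⟩, Subtype.ext e⟩)
      (by rw [card_ker_torus (hyp.pow hk).2, ← (cnt k hk).2, Int.natAbs_natCast])
    exact congrArg Subtype.val (bij.1 (a₁ := ⟨x, hx⟩) (a₂ := ⟨x', hx'⟩) (Subtype.ext e))

theorem Franks_inj {M X : Type} [MetricSpace M] [CompactSpace M] (f : M ≃ₜ M) {N₀ : ℕ}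
    (hN₀ : 1 ≤ N₀) (ta : TA f^[N₀])
    (nw : ∀ W : Set M, IsOpen W → W.Nonempty → ∃ m : ℕ, 1 ≤ m ∧ (f^[m] '' W ∩ W).Nonempty)
    [TopologicalSpace X] [T2Space X] [CompactSpace X] [ConnectedSpace X] {pr : X → M}
    (hpr : IsCoveringMap pr) (F : X ≃ₜ X) {N : ℕ} (hN : 1 ≤ N) (hF : ∀ x, pr (F x) = f^[N] (pr x))
    {A : Matrix (Fin b) (Fin b) ℤ} (hdet : A.det = 1) (hyp : HypM A)
    {h : X → Fin b → AddCircle (1 : ℝ)} (hh : Continuous h) (h1 : Semiconj h F (A • ·))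
    (inj : ∀ k, 1 ≤ k → ∀ x x', F^[k] x = x → F^[k] x' = x' → h x = h x' → x = x') :
    Injective h := by
  have := metrizable_of_cover hpr.isLocalHomeomorph
  let _ := TopologicalSpace.metrizableSpaceMetric X
  obtain ⟨G, hG⟩ : ∃ G : X ≃ₜ X, ⇑G = F^[N₀] :=
    ⟨F ^ N₀, hom_coe_pow (fun g : X ≃ₜ X => ⇑g) rfl (fun _ _ => rfl) F _⟩
  have e : ∀ x, pr (G x) = f^[N₀ * N] (pr x) := fun x => by
    rw [hG, mul_comm, iterate_mul]
    exact Semiconj.iterate_right hF N₀ x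
  have t1 : TA f^[N₀ * N] := iterate_mul f N₀ N ▸ ta.pow (f.continuous.iterate _) hN
  obtain ⟨δ, hδ, hg⟩ := Franks_exp (hyp.pow hN₀).1 (by rw [det_pow, hdet, one_pow])
  refine (t1.lift hpr G (f.continuous.iterate _) e).injective G
    (chain_lift hpr G e continuous_id continuous_id injective_id
      (chain_of_nw f nw continuous_id (Nat.mul_pos hN₀ hN))) (fun s t hst => ?_) hδ hg hh
    (fun x => ?_) fun k hk => ?_
  · have e := congrArg ((A ^ N₀)⁻¹ • ·) hst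
    simpa only [smul_smul, nonsing_inv_mul _ (by rw [det_pow, hdet, one_pow]; exact isUnit_one :
      IsUnit (A ^ N₀).det), one_smul] using e
  · rw [hG, h1.iterate_right, smul_iterate]
  · rw [hG, ← iterate_mul]
    exact inj _ (Nat.mul_pos hN₀ hk)

end Torus

variable (M : Type) [TopologicalSpace M] [T2Space M] [CompactSpace M] [ConnectedSpace M]
  [ChartedSpace R4 M] [IsManifold 𝓘(ℝ, R4) ∞ M]
  [RiemannianBundle (fun x : M => TangentSpace 𝓘(ℝ, R4) x)]
  [IsContinuousRiemannianBundle R4 (fun x : M => TangentSpace 𝓘(ℝ, R4) x)]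
  (f : M ≃ₘ^∞⟮𝓘(ℝ, R4), 𝓘(ℝ, R4)⟯ M)

/-- An Anosov diffeomorphism has a periodic point. -/
theorem exists_periodic (hf : IsAnosov f 2) : ∃ (x : M) (k : ℕ), 1 ≤ k ∧ f^[k] x = x := by
  obtain ⟨m, N, hN, hm, t1, t2⟩ := exists_ta M f hf
  let _ := m.replaceTopology hm.symm
  obtain ⟨x, k, hk, h⟩ := TA.exists_periodic (f := f^[N]) ⟨t1, t2⟩
  exact ⟨x, N * k, Nat.mul_pos hN hk, Function.iterate_mul f N k ▸ h⟩

/-- If every Nielsen class of every iterate of a lift to a finite cover contains exactly one point,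
the cover is a torus. -/
theorem franks (hf : IsAnosov f 2)
    (nw : ∀ W : Set M, IsOpen W → W.Nonempty → ∃ m : ℕ, 1 ≤ m ∧ (f^[m] '' W ∩ W).Nonempty)
    {X U Γ : Type} [TopologicalSpace X] [T2Space X] [CompactSpace X] [ConnectedSpace X]
    [TopologicalSpace U] [Group Γ] [MulAction Γ U] {pr : X → M} (hpr : IsCoveringMap pr)
    (F : X ≃ₜ X) {N : ℕ} (hN : 1 ≤ N) (hF : ∀ x, pr (F x) = f^[N] (pr x))
    {q : U → X} (hq : IsQuotientCoveringMap q Γ) {F' : U → U} (hF' : Continuous F')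
    (hqF : ∀ x, q (F' x) = F (q x)) {φ : Γ → Γ} (hφ : ∀ γ x, F' (γ • x) = φ γ • F' x)
    {c : Γ → Fin 4 → ℤ} {A : Matrix (Fin 4) (Fin 4) ℤ} (hA : ∀ γ, c (φ γ) = A *ᵥ c γ)
    (hdet : A.det = 1) (hyp : HypM A) {y : U → Fin 4 → ℝ} (hy : Continuous y)
    (hc : ∀ (γ : Γ) x i, y (γ • x) i = y x i + c γ i)
    (cls : ∀ n, 1 ≤ n → ∀ m : Fin 4 → ℤ, ∃ (x : U) (γ : Γ), F'^[n] x = γ • x ∧ c γ = m)
    (cnt : ∀ n, 1 ≤ n → (Function.fixedPoints F^[n]).Finite ∧
      (Nat.card (Function.fixedPoints F^[n]) : ℤ) = (1 - A ^ n).det) :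
    ∃ p : (Fin 4 → ℝ) → M, IsCoveringMap p ∧ Function.Surjective p ∧
      (∀ (x : Fin 4 → ℝ) (i : Fin 4), p (x + Pi.single i 1) = p x) ∧
      ∀ x, p (A.map (Int.cast : ℤ → ℝ) *ᵥ x) = f^[N] (p x) := by
  obtain ⟨m, N₀, hN₀, hm, t1, t2⟩ := exists_ta M f hf
  let _ := m.replaceTopology hm.symm
  obtain ⟨h, hh, hs, h1, inj⟩ := Franks_semi F hq hF' hqF hφ hA hdet hyp hy hc cls cnt
  have hi := Franks_inj f.toHomeomorph hN₀ ⟨t1, t2⟩ nw hpr F hN hF hdet hyp hh h1 inj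
  let e := (isHomeomorph_iff_continuous_bijective.2 ⟨hh, hi, hs⟩).homeomorph
  refine ⟨pr ∘ e.symm ∘ FranksPj 4, cover_comp (Franks_cov.homeomorph_comp e.symm) hpr,
    Function.Surjective.comp ?_ (e.symm.surjective.comp Franks_oq.surjective),
    fun x i => congrArg (pr ∘ e.symm) ?_, fun x => ?_⟩
  · exact Set.range_eq_univ.1 (IsClopen.eq_univ ⟨(isCompact_range hpr.continuous).isClosed,
      hpr.isOpenMap.isOpen_range⟩ (Set.range_nonempty _))
  · rw [map_add, (Franks_ker (v := Pi.single i 1)).2 ⟨Pi.single i 1, fun j => by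
      by_cases hj : j = i <;> simp [hj]⟩, add_zero]
  · simp only [Function.comp_apply]
    rw [← hF, Franks_mulVec, Franks_smul]
    refine congrArg pr (e.symm_apply_eq.2 ?_)
    conv_lhs => rw [← e.apply_symm_apply (FranksPj 4 x)]
    exact (h1 _).symm

end SX4
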