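import Pool.Agent.P.MP_0a0487_an.SX.CxDefs

/-! Expansive maps with the shadowing property. -/

set_option autoImplicit false
set_option linter.unusedSectionVars false

noncomputable section

namespace SX4

open Filter Topology Matrix

/-- A two-sided orbit. -/
def Orb {M : Type} (f : M → M) (x : ℤ → M) : Prop := ∀ n, f (x n) = x (n + 1)

/-- Expansivity and shadowing. -/
structure TA {M : Type} [MetricSpace M] (f : M → M) : Prop where
  exp : ∃ δ > 0, ∀ x y, Orb f x → Orb f y → (∀ n, dist (x n) (y n) ≤ δ) → x = y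
  shad : ∀ ε > 0, ∃ δ > 0, ∀ x : ℤ → M, (∀ n, dist (f (x n)) (x (n + 1)) ≤ δ) →
    ∃ y, Orb f y ∧ ∀ n, dist (y n) (x n) ≤ ε

end SX4
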