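import Pool.Agent.P.MP_0a0487_an.FDefs
import Pool.Agent.P.MP_0a0487_an.Manifold
import Pool.Agent.P.MP_0a0487_an.SX.FrkDefs

/-! Anosov diffeomorphisms are expansive and have the shadowing property. -/

set_option autoImplicit false

noncomputable section

open Bundle Matrix
open scoped Manifold ContDiff
open Pool.Agent.P.MP_0a0487_an

namespace SX4

open Filter Topology in
theorem FrkA_ta {M : Type} [MetricSpace M] [CompactSpace M] {S U : Type*} [NormedAddCommGroup S]
    [NormedAddCommGroup U] [NormedSpace ℝ S] [NormedSpace ℝ U] [CompleteSpace S] [CompleteSpace U]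
    {G H : M → M} {κ : M → M → S × U} {K ρ0 ρ1 l1 l2 m2 m1 : ℝ}
    (ha : Atlas G H κ K ρ0 ρ1 l1 l2 m2 m1) : TA G := by
  have a1 := ha.l2_lt
  have a2 := ha.m2_gt
  have a3 := min_le_left (1 - l2) (m2 - 1)
  have a4 := min_le_right (1 - l2) (m2 - 1)
  have a5 : 0 < min (1 - l2) (m2 - 1) := lt_min (by linarith) (by linarith)
  obtain ⟨τ, ρ, r, h⟩ := ha.loc (half_pos a5) (by linarith) (by linarith)
  generalize min (1 - l2) (m2 - 1) / 2 = η at h
  have hK := h.one_le
  have hr := h.r_pos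
  have hρ := h.ρ_pos
  refine ⟨⟨ρ, hρ, fun x y hx hy hd => funext fun m => ?_⟩, fun ε hε => ?_⟩
  · have it : ∀ z, Orb G z → ∀ (j : ℤ) (k : ℕ), G^[k] (z j) = z (j + k) := fun z hz j k => by
      induction k with
      | zero => simp
      | succ k ih => rw [Function.iterate_succ_apply', ih, hz, Nat.cast_succ, add_assoc]
    have p : 0 ≤ l2 + η := add_nonneg h.l2_nonneg h.η_nonneg
    have lim : Tendsto (fun n : ℕ => K * (l2 + η) ^ n * (K * ρ)) atTop (𝓝 (K * 0 * (K * ρ))) :=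
      ((tendsto_pow_atTop_nhds_zero_of_lt_one p h.h1).const_mul K).mul_const _
    rw [mul_zero, zero_mul] at lim
    refine dist_le_zero.1 (ge_of_tendsto' lim fun n => ?_)
    have h0 : ds G (x (m - n)) (x (m - n)) ≤ ρ := by simpa using hρ.le
    have h1 : ds G (x (m - n)) (y (m - n)) ≤ ρ := ds_le fun k => by
      rw [it x hx, it y hy]
      exact hd _
    have h2 := (dist_le_ds G _ _).trans (h.o2 h0 h1 n)
    rw [it x hx, it y hy, sub_add_cancel] at h2
    refine h2.trans (mul_le_mul_of_nonneg_left ((h.o4 h0 h1).trans ?_) (by positivity))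
    exact mul_le_mul_of_nonneg_left (hd _) (by positivity)
  · obtain ⟨Q, hQ, hs⟩ := h.shadow'
    obtain ⟨δ, d0, d1, d2, d3⟩ : ∃ δ : ℝ, 0 < δ ∧ δ ≤ ρ ∧ Q * (K * δ) ≤ r ∧
        K * (Q * (K * δ)) ≤ ε := by
      refine ⟨min ρ (min (r / (Q * K)) (ε / (K * Q * K))), by positivity, min_le_left _ _, ?_, ?_⟩
      · rw [← mul_assoc, ← le_div_iff₀' (by positivity)]
        exact (min_le_right _ _).trans (min_le_left _ _)
      · rw [← mul_assoc, ← mul_assoc, ← le_div_iff₀' (by positivity)]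
        exact (min_le_right _ _).trans (min_le_right _ _)
    refine ⟨δ, d0, fun x hx => ?_⟩
    have hx' : ∀ k, dist (G (x k)) (x (k + 1)) ≤ ρ := fun k => (hx k).trans d1
    obtain ⟨v, v1, v2⟩ := hs (fun k v => κ (x (k + 1)) (G (τ (x k) v))) (K * δ)
      (fun k => h.chart (hx' k)) (fun k => by
        have := h.lip (x (k + 1)) (G (x k)) (x (k + 1)) (hx' k) (by simpa using hρ.le)
        rw [h.self, sub_zero] at this
        rw [h.τ0]
        exact this.trans (by gcongr; exact hx k)) d2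
    have v3 : ∀ k, ‖v k‖ ≤ r := fun k => (v1 k).trans d2
    refine ⟨fun k => τ (x k) (v k), fun k => h.next (hx' k) (v3 k) (v3 (k + 1)) (v2 k),
      fun k => (h.τ2 _ _ (v3 k)).trans (le_trans ?_ d3)⟩
    gcongr
    exact v1 k

theorem FrkA_gen {E : Type} [NormedAddCommGroup E] [NormedSpace ℝ E] [FiniteDimensional ℝ E]
    {M : Type} [TopologicalSpace M] [T2Space M] [CompactSpace M]
    [ConnectedSpace M] [ChartedSpace E M] [IsManifold 𝓘(ℝ, E) ∞ M]
    [RiemannianBundle (fun x : M => TangentSpace 𝓘(ℝ, E) x)]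
    [IsContinuousRiemannianBundle E (fun x : M => TangentSpace 𝓘(ℝ, E) x)]
    (f : M ≃ₘ^∞⟮𝓘(ℝ, E), 𝓘(ℝ, E)⟯ M) {j : ℕ} (hf : IsAnosov f j) :
    ∃ (m : MetricSpace M) (N : ℕ), 1 ≤ N ∧
      m.toUniformSpace.toTopologicalSpace = ‹TopologicalSpace M› ∧ @TA M m f^[N] := by
  obtain ⟨Es, Eu, ⟨hc, hcont⟩, hs, hu, -, C, l, hC, l0, l1, cs, cu⟩ := hf
  obtain ⟨k, e, he, hemb, hi⟩ := exists_embedding_euclidean_of_compact (I := 𝓘(ℝ, E)) (M := M)
  letI m : MetricSpace M := hemb.isEmbedding.comapMetricSpace e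
  have hf : ContMDiff 𝓘(ℝ, E) 𝓘(ℝ, E) 1 f := f.contMDiff.of_le (by simp)
  have hf' : ContMDiff 𝓘(ℝ, E) 𝓘(ℝ, E) 1 f.symm := f.symm.contMDiff.of_le (by simp)
  have inv : ∀ A : SubField E M, Invariant f A →
      ∀ (m : ℕ) (x : M), ∀ v ∈ A x, mfderiv 𝓘(ℝ, E) 𝓘(ℝ, E) f^[m] x v ∈ A (f^[m] x) := by
    intro A hA m
    induction m with
    | zero =>
      intro x v hv
      rw [Function.iterate_zero, mfderiv_id]
      exact hv
    | succ m ih =>
      intro x v hv
      have := mfderiv_comp_apply x ((hf.iterate m).mdifferentiableAt one_ne_zero)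
        (hf.mdifferentiableAt one_ne_zero) v
      rw [Function.iterate_succ, this]
      exact ih (f x) _ ((hA x).subset (Set.mem_image_of_mem _ hv))
  obtain ⟨n, hn⟩ := exists_pow_lt_of_lt_one (show 0 < 1 / (2 * C) by positivity) l1
  have n1 : 1 ≤ n + 1 := Nat.le_add_left 1 n
  have n2 : 2 * (C * l ^ (n + 1)) < 1 := by
    rw [lt_div_iff₀ (by positivity)] at hn
    have : l ^ (n + 1) ≤ l ^ n := pow_le_pow_of_le_one l0.le l1.le (Nat.le_succ n)
    nlinarith
  refine ⟨m, n + 1, n1, rfl, ?_⟩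
  generalize n + 1 = N at n1 n2
  have n3 : 0 < C * l ^ N := by positivity
  have fr := fun (g : M → M) (hg : ContMDiff 𝓘(ℝ, E) 𝓘(ℝ, E) 1 g) =>
    frame_of_embedding (he.of_le (by simp)) (fun a b => dist_eq_norm (e a) (e b)) hi
      hg (P := fun x => (Es x).projection (Eu x) (hc x))
      (fun x v => Submodule.projection_apply_of_mem_left _ (Submodule.projection_apply_mem _ v))
      hcont
  have bd : ∀ g : M → M, ContMDiff 𝓘(ℝ, E) 𝓘(ℝ, E) 1 g → ∃ B : ℝ, 0 < B ∧
      ∀ (x : M) (v : TangentSpace 𝓘(ℝ, E) x), len (Df g v) ≤ B * len v := fun g hg => by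
    obtain ⟨Q, K, b⟩ := (fr g hg).bounds
    have hK := b.one_le
    refine ⟨K * K, by positivity, fun x v => (b.b1 _ _).trans ?_⟩
    rw [mul_assoc]
    exact mul_le_mul_of_nonneg_left (b.b4 x v) (by positivity)
  have hI : Inv f^[N] f.symm^[N] := ⟨f.continuous.iterate N, f.symm.continuous.iterate N,
    Function.LeftInverse.iterate f.apply_symm_apply N,
    Function.LeftInverse.iterate f.symm_apply_apply N⟩
  have back : ∀ (x : M) (v : TangentSpace 𝓘(ℝ, E) x),
      len (Df f.symm^[N] (Df f^[N] v)) = len v := fun x v => by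
    have key : ∀ g : M → M, g = id → len (Df (E := E) g v) = len (E := E) v := by
      rintro _ rfl
      have t : Df (E := E) (id : M → M) v = v := by
        rw [Df, mfderiv_id]
        rfl
      exact congrArg (len (E := E)) t
    rw [← key (f.symm^[N] ∘ f^[N]) (funext hI.HG)]
    exact congrArg (len (E := E)) (mfderiv_comp_apply x
      ((hf'.iterate N).mdifferentiableAt one_ne_zero)
      ((hf.iterate N).mdifferentiableAt one_ne_zero) v).symm
  obtain ⟨B, B0, hB⟩ := bd _ (hf.iterate N)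
  obtain ⟨B', B1, hB'⟩ := bd _ (hf'.iterate N)
  obtain ⟨s, u, -, L, hL⟩ := (fr _ (hf.iterate N)).exists_L
  obtain ⟨Q, K, b⟩ := (fr _ (hf.iterate N)).bounds
  obtain ⟨ρ0, ρ1, ha⟩ := (fr _ (hf.iterate N)).atlas hI b hL (l1 := min (C * l ^ N) B'⁻¹)
    (l2 := C * l ^ N) (m2 := (C * l ^ N)⁻¹) (m1 := max (C * l ^ N)⁻¹ B) (by positivity)
    (min_le_left _ _) n2 (by
      rw [lt_div_iff₀ two_pos, lt_inv_comm₀ (by norm_num) n3]
      linarith) (le_max_left _ _) (fun x v hv => by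
      have hv' : v ∈ Es x := hv ▸ Submodule.projection_apply_mem _ v
      have t := hB' _ (Df f^[N] v)
      rw [back, ← inv_mul_le_iff₀ B1] at t
      exact ⟨Submodule.projection_apply_of_mem_left _ (inv Es hs N x v hv'),
        (mul_le_mul_of_nonneg_right (min_le_right _ _) (norm_nonneg v)).trans t,
        cs N n1 x v hv'⟩) (fun x v hv => by
      have hv' : v ∈ Eu x := (Submodule.projection_apply_eq_zero_iff _).1 hv
      have t := cu N n1 _ (Df f^[N] v) (inv Eu hu N x v hv')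
      rw [back, ← inv_mul_le_iff₀ n3] at t
      exact ⟨Submodule.projection_apply_of_mem_right _ (inv Eu hu N x v hv'), t,
        (hB x v).trans (mul_le_mul_of_nonneg_right (le_max_right _ _) (norm_nonneg v))⟩)
  exact FrkA_ta ha

variable (M : Type) [TopologicalSpace M] [T2Space M] [CompactSpace M] [ConnectedSpace M]
  [ChartedSpace R4 M] [IsManifold 𝓘(ℝ, R4) ∞ M]
  [RiemannianBundle (fun x : M => TangentSpace 𝓘(ℝ, R4) x)]
  [IsContinuousRiemannianBundle R4 (fun x : M => TangentSpace 𝓘(ℝ, R4) x)]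
  (f : M ≃ₘ^∞⟮𝓘(ℝ, R4), 𝓘(ℝ, R4)⟯ M)

theorem exists_ta (hf : IsAnosov f 2) : ∃ (m : MetricSpace M) (N : ℕ), 1 ≤ N ∧
    m.toUniformSpace.toTopologicalSpace = ‹TopologicalSpace M› ∧ @TA M m f^[N] :=
  haveI : FiniteDimensional ℝ R4 :=
    inferInstanceAs (FiniteDimensional ℝ (EuclideanSpace ℝ (Fin 4)))
  FrkA_gen f hf

end SX4
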