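import Pool.Agent.P.MP_0a0487_an.SX.FrkDefs

/-! Powers, lifts and periodic points. -/

set_option autoImplicit false
set_option linter.unusedSectionVars false

noncomputable section

namespace SX4

open Filter Topology Matrix

/-- Filling in the intermediate points. -/
def FrkBfill {M : Type} (f : M → M) (N : ℕ) (x : ℤ → M) (n : ℤ) : M :=
  f^[(n % N).toNat] (x (n / N))

theorem FrkB_step {M : Type} (f : M → M) {N : ℕ} (hN : 1 ≤ N) (x : ℤ → M) (n : ℤ) :
    f (FrkBfill f N x n) = FrkBfill f N x (n + 1) ∨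
      ∃ m, f (FrkBfill f N x n) = f^[N] (x m) ∧ FrkBfill f N x (n + 1) = x (m + 1) := by
  have h0 : (0 : ℤ) < N := by exact_mod_cast hN
  obtain ⟨h1, h2, h3⟩ := (Int.ediv_emod_unique (a := n) h0).1 ⟨rfl, rfl⟩
  unfold FrkBfill
  rw [← Function.iterate_succ_apply' f]
  by_cases h : n % N + 1 < N
  · obtain ⟨e1, e2⟩ := (Int.ediv_emod_unique (a := n + 1) (r := n % N + 1) (q := n / N) h0).2
      ⟨by linarith, by omega, h⟩
    left
    rw [e1, e2]
    congr 1
    omega
  · obtain ⟨e1, e2⟩ := (Int.ediv_emod_unique (a := n + 1) (r := 0) (q := n / N + 1) h0).2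
      ⟨by linarith [show n % N + 1 = N by omega], le_rfl, h0⟩
    refine .inr ⟨n / N, ?_, by rw [e1, e2]; rfl⟩
    congr 1
    omega

theorem FrkB_mul {M : Type} (f : M → M) {N : ℕ} (hN : 1 ≤ N) (x : ℤ → M) (n : ℤ) :
    FrkBfill f N x (N * n) = x n := by
  have h0 : (N : ℤ) ≠ 0 := by omega
  simp [FrkBfill, Int.mul_ediv_cancel_left _ h0]

theorem FrkB_iter {M : Type} {f : M → M} {y : ℤ → M} (h : Orb f y) (k : ℕ) (n : ℤ) :
    f^[k] (y n) = y (n + k) := by
  induction k with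
  | zero => simp
  | succ k ih => rw [Function.iterate_succ_apply', ih, h, Nat.cast_succ, add_assoc]

theorem FrkB_unif {X M : Type} [MetricSpace X] [CompactSpace X] [MetricSpace M] {g : X → M}
    (hg : Continuous g) {ε : ℝ} (hε : 0 < ε) :
    ∃ δ > 0, ∀ a b, dist a b ≤ δ → dist (g a) (g b) ≤ ε := by
  obtain ⟨δ, h0, h⟩ := Metric.uniformContinuous_iff_le.1
    (CompactSpace.uniformContinuous_of_continuous hg) ε hε
  exact ⟨δ, h0, fun _ _ e => h e⟩

theorem FrkB_cpt {X : Type} [MetricSpace X] [CompactSpace X] {P : ℝ → X → Prop}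
    (h : ∀ a, ∀ᶠ z : ℝ × X in 𝓝 (0, a), P z.1 z.2) : ∃ δ > 0, ∀ a, P δ a := by
  have h1 := (isCompact_univ.eventually_forall_of_forall_eventually (P := P)
    fun a _ => h a).filter_mono (nhdsWithin_le_nhds (s := Set.Ioi (0 : ℝ)))
  obtain ⟨δ, h2, h3⟩ := (h1.and self_mem_nhdsWithin).exists
  exact ⟨δ, h3, fun a => h2 a trivial⟩

theorem FrkB_near {X M : Type} [MetricSpace X] [MetricSpace M] {g : X → M} (hg : Continuous g)
    (a : X) {r : ℝ} (hr : 0 < r) :
    ∀ᶠ z : ℝ × X in 𝓝 (0, a), dist (g z.2) (g a) + z.1 < r := by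
  have : Continuous fun z : ℝ × X => dist (g z.2) (g a) + z.1 := by fun_prop
  exact this.continuousAt.eventually_lt continuousAt_const (by simpa using hr)

theorem FrkB_inj {X M : Type} [MetricSpace X] [CompactSpace X] [TopologicalSpace M] {pr : X → M}
    (hpr : IsLocalHomeomorph pr) : ∃ η > 0, ∀ a b, dist a b ≤ η → pr a = pr b → a = b := by
  refine FrkB_cpt (P := fun η a => ∀ b, dist a b ≤ η → pr a = pr b → a = b) fun a₀ => ?_
  obtain ⟨φ, hφ, rfl⟩ := hpr a₀
  obtain ⟨r, hr, hs⟩ := Metric.isOpen_iff.1 φ.open_source a₀ hφ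
  filter_upwards [FrkB_near continuous_id a₀ hr] with z hz b hb e
  have h1 := dist_triangle_left b a₀ z.2
  have h2 := dist_nonneg (x := z.2) (y := b)
  simp only [id] at hz
  exact φ.injOn (hs (Metric.mem_ball.2 (by linarith))) (hs (Metric.mem_ball.2 (by linarith))) e

theorem FrkB_open {X M : Type} [MetricSpace X] [CompactSpace X] [MetricSpace M] {pr : X → M}
    (hpr : IsLocalHomeomorph pr) {ε : ℝ} (hε : 0 < ε) :
    ∃ δ > 0, ∀ a m, dist m (pr a) ≤ δ → ∃ b, pr b = m ∧ dist b a ≤ ε := by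
  refine FrkB_cpt (P := fun δ a => ∀ m, dist m (pr a) ≤ δ → ∃ b, pr b = m ∧ dist b a ≤ ε)
    fun a₀ => ?_
  obtain ⟨r, hr, hs⟩ := Metric.isOpen_iff.1 (hpr.isOpenMap _ Metric.isOpen_ball) (pr a₀)
    ⟨a₀, Metric.mem_ball_self (half_pos hε), rfl⟩
  have h0 : ∀ᶠ z : ℝ × X in 𝓝 (0, a₀), dist z.2 a₀ < ε / 2 :=
    (by fun_prop : Continuous fun z : ℝ × X => dist z.2 a₀).continuousAt.eventually_lt
      continuousAt_const (by simpa using hε)
  filter_upwards [FrkB_near hpr.continuous a₀ hr, h0] with z hz hz' m hm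
  have h1 := dist_triangle m (pr z.2) (pr a₀)
  obtain ⟨b, hb, e⟩ := hs (Metric.mem_ball.2 (by linarith : dist m (pr a₀) < r))
  have h2 := dist_triangle_right b z.2 a₀
  exact ⟨b, e, by linarith [Metric.mem_ball.1 hb]⟩

theorem TA.pow {M : Type} [MetricSpace M] [CompactSpace M] {f : M → M} (hf : Continuous f)
    (h : TA f) {N : ℕ} (hN : 1 ≤ N) : TA f^[N] := by
  constructor
  · obtain ⟨δ, h0, hδ⟩ := h.exp
    choose d d0 hd using fun j : Fin N => FrkB_unif (hf.iterate j) h0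
    have : Nonempty (Fin N) := ⟨⟨0, hN⟩⟩
    obtain ⟨j₀, hj⟩ := Finite.exists_min d
    have orb : ∀ x, Orb f^[N] x → Orb f (FrkBfill f N x) := fun x hx n => by
      rcases FrkB_step f hN x n with e | ⟨m, e, e'⟩
      · exact e
      · rw [e, e', hx]
    refine ⟨d j₀, d0 j₀, fun x y hx hy hxy => funext fun n => ?_⟩
    rw [← FrkB_mul f hN x, ← FrkB_mul f hN y, hδ _ _ (orb x hx) (orb y hy) fun m => ?_]
    have h1 : m % N < N := Int.emod_lt_of_pos _ (by omega)
    exact hd ⟨(m % N).toNat, by omega⟩ _ _ ((hxy _).trans (hj _))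
  · intro ε hε
    obtain ⟨δ, h0, hδ⟩ := h.shad ε hε
    refine ⟨δ, h0, fun x hx => ?_⟩
    obtain ⟨Y, hY, hd⟩ := hδ (FrkBfill f N x) fun n => by
      rcases FrkB_step f hN x n with e | ⟨m, e, e'⟩
      · rw [e, dist_self]
        exact h0.le
      · rw [e, e']
        exact hx m
    refine ⟨fun n => Y (N * n), fun n => ?_, fun n => ?_⟩
    · rw [FrkB_iter hY]
      simp only [mul_add, mul_one]
    · rw [← FrkB_mul f hN x]
      exact hd _

theorem TA.lift {X M : Type} [MetricSpace X] [CompactSpace X] [MetricSpace M] [CompactSpace M]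
    {pr : X → M} (hpr : IsCoveringMap pr) (F : X ≃ₜ X) {f : M → M} (hf : Continuous f)
    (e : ∀ x, pr (F x) = f (pr x)) (h : TA f) : TA F := by
  obtain ⟨η, η0, hη⟩ := FrkB_inj hpr.isLocalHomeomorph
  constructor
  · obtain ⟨δ, h0, hδ⟩ := h.exp
    obtain ⟨d, d0, hd⟩ := FrkB_unif hpr.continuous h0
    have orb : ∀ x, Orb F x → Orb f (pr ∘ x) := fun x hx n => by
      rw [Function.comp_apply, ← e, hx]
      rfl
    refine ⟨min d η, lt_min d0 η0, fun x y hx hy hxy => funext fun n => ?_⟩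
    exact hη _ _ ((hxy n).trans (min_le_right _ _)) (congrFun (hδ _ _ (orb x hx) (orb y hy)
      fun m => hd _ _ ((hxy m).trans (min_le_left _ _))) n)
  · intro ε hε
    have η3 : 0 < η / 3 := by positivity
    obtain ⟨c, c0, hc⟩ := FrkB_unif F.continuous η3
    obtain ⟨d₁, p₁, h₁⟩ := FrkB_open hpr.isLocalHomeomorph (lt_min hε (lt_min c0 η3))
    obtain ⟨d₂, p₂, h₂⟩ := h.shad d₁ p₁
    obtain ⟨d₃, p₃, h₃⟩ := FrkB_unif hpr.continuous p₂
    refine ⟨min d₃ (η / 3), lt_min p₃ η3, fun x hx => ?_⟩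
    obtain ⟨z, hz, hd⟩ := h₂ (pr ∘ x) fun n => by
      rw [Function.comp_apply, ← e]
      exact h₃ _ _ ((hx n).trans (min_le_left _ _))
    choose y hy hy' using fun n => h₁ (x n) (z n) (hd n)
    simp only [le_min_iff] at hy' hx
    refine ⟨y, fun n => hη _ _ ?_ (by rw [e, hy, hy, hz]), fun n => (hy' n).1⟩
    have h1 := dist_triangle4 (F (y n)) (F (x n)) (x (n + 1)) (y (n + 1))
    rw [dist_comm (x (n + 1))] at h1
    linarith [hc _ _ (hy' n).2.1, (hx n).2, (hy' (n + 1)).2.2]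

theorem TA.closing {M : Type} [MetricSpace M] {f : M → M} (h : TA f) {ε : ℝ} (hε : 0 < ε) :
    ∃ δ > 0, ∀ (k : ℕ) (x : ℤ → M), (∀ n, x (n + k) = x n) →
      (∀ n, dist (f (x n)) (x (n + 1)) ≤ δ) →
      ∃ y, Orb f y ∧ (∀ n, y (n + k) = y n) ∧ ∀ n, dist (y n) (x n) ≤ ε := by
  obtain ⟨d, d0, hd⟩ := h.exp
  obtain ⟨δ, h0, hδ⟩ := h.shad (min ε (d / 2)) (lt_min hε (half_pos d0))
  refine ⟨δ, h0, fun k x hk hx => ?_⟩
  obtain ⟨y, hy, hs⟩ := hδ x hx
  simp only [le_min_iff] at hs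
  refine ⟨y, hy, congrFun (hd (fun n => y (n + k)) y (fun n => ?_) hy fun n => ?_),
    fun n => (hs n).1⟩
  · rw [hy, add_right_comm]
  · have h1 := dist_triangle_right (y (n + k)) (y n) (x n)
    have h2 := (hs (n + k)).2
    rw [hk] at h2
    linarith [(hs n).2]

theorem TA.exists_periodic {M : Type} [MetricSpace M] [CompactSpace M] [Nonempty M] {f : M → M}
    (h : TA f) : ∃ (x : M) (k : ℕ), 1 ≤ k ∧ f^[k] x = x := by
  obtain ⟨δ, h0, hδ⟩ := h.closing one_pos
  obtain ⟨a, φ, hφ, ht⟩ := CompactSpace.tendsto_subseq fun n => f^[n] (Classical.arbitrary M)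
  obtain ⟨N, hN⟩ := Metric.tendsto_atTop.1 ht (δ / 2) (half_pos h0)
  obtain ⟨k, hk⟩ := Nat.exists_eq_add_of_lt (hφ (Nat.lt_succ_self N))
  have h1 := hN N le_rfl
  have h2 := hN (N + 1) (Nat.le_succ N)
  rw [Function.comp_apply] at h1 h2
  rw [hk, add_assoc, add_comm, Function.iterate_add_apply] at h2
  obtain ⟨y, hy, hp, -⟩ := hδ (k + 1)
    (FrkBfill f (k + 1) fun _ => f^[φ N] (Classical.arbitrary M))
    (fun n => by unfold FrkBfill; rw [Int.add_emod_right]) fun n => by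
      rcases FrkB_step f (Nat.le_add_left 1 k) (fun _ => f^[φ N] (Classical.arbitrary M)) n with
        e | ⟨m, e, e'⟩
      · rw [e, dist_self]
        exact h0.le
      · rw [e, e']
        linarith [dist_triangle_right (f^[k + 1] (f^[φ N] (Classical.arbitrary M)))
          (f^[φ N] (Classical.arbitrary M)) a]
  exact ⟨y 0, k + 1, Nat.le_add_left 1 k, by rw [FrkB_iter hy, hp]⟩

theorem metrizable_of_cover {X M : Type} [TopologicalSpace X] [CompactSpace X] [T2Space X]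
    [MetricSpace M] {pr : X → M} (hpr : IsLocalHomeomorph pr) :
    TopologicalSpace.MetrizableSpace X := by
  have : CompactSpace (Set.range pr) :=
    isCompact_iff_compactSpace.1 (isCompact_range hpr.continuous)
  choose U hU hE using isLocalHomeomorph_iff_isOpenEmbedding_restrict.1 hpr
  have h2 : ∀ x, SecondCountableTopology (U x) := fun x =>
    ((hE x).isEmbedding.codRestrict (Set.range pr) fun a => ⟨a.1, rfl⟩).secondCountableTopology
  obtain ⟨t, ht⟩ := isCompact_univ.elim_finite_subcover (fun x => interior (U x))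
    (fun _ => isOpen_interior) fun x _ => Set.mem_iUnion.2 ⟨x, mem_interior_iff_mem_nhds.2 (hU x)⟩
  have h3 : ∀ x : t, SecondCountableTopology (interior (U x.1) : Set X) := fun x =>
    (IsEmbedding.inclusion interior_subset).secondCountableTopology
  have : SecondCountableTopology X :=
    TopologicalSpace.secondCountableTopology_of_countable_cover
      (U := fun x : t => interior (U x.1)) (fun _ => isOpen_interior)
      (Set.univ_subset_iff.1 (ht.trans (Set.iUnion₂_subset fun i hi =>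
        Set.subset_iUnion (fun x : t => interior (U x.1)) ⟨i, hi⟩)))
  infer_instance

theorem FrkB_sheets {E X ι : Type} [TopologicalSpace E] [TopologicalSpace X] {g : E → X}
    (hg : Continuous g) (ho : IsOpenMap g) {x : X} {V : Set X} (hV : IsOpen V) (hx : x ∈ V)
    (U : ι → Set E) (hU : ∀ i, IsOpen (U i)) (inj : ∀ i, (U i).InjOn g)
    (surj : ∀ i, (U i).SurjOn g V) (dis : Pairwise (Function.onFun Disjoint U))
    (ex : g ⁻¹' V ⊆ ⋃ i, U i) : IsEvenlyCovered g x (g ⁻¹' {x}) := by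
  let _ : TopologicalSpace ι := ⊥
  have : DiscreteTopology ι := ⟨rfl⟩
  refine IsEvenlyCovered.to_isEvenlyCovered_preimage (I := ι) ?_
  cases isEmpty_or_nonempty ι
  · exact .of_preimage_eq_empty _ (hV.mem_nhds hx) (by simpa using ex)
  have : Nonempty E := ⟨(surj (Classical.arbitrary ι) hx).choose⟩
  refine .of_trivialization (t := hV.trivializationDiscrete U V
    (fun i W hW => ⟨fun h => (h.preimage hg).inter (hU i), fun h => ?_⟩) inj surj dis ex) hx
  have e : W = g '' (g ⁻¹' W ∩ U i) := by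
    rw [Set.image_preimage_inter, eq_comm, Set.inter_eq_left]
    exact hW.trans (surj i)
  rw [e]
  exact ho _ h

theorem FrkB_unsheets {E X I : Type} [TopologicalSpace E] [TopologicalSpace X]
    [TopologicalSpace I] {g : E → X} {x : X} (h : IsEvenlyCovered g x I) :
    ∃ (V : Set X) (U : I → Set E), IsOpen V ∧ x ∈ V ∧ (∀ i, IsOpen (U i)) ∧
      (∀ i, (U i).InjOn g) ∧ (∀ i, (U i).SurjOn g V) ∧ Pairwise (Function.onFun Disjoint U) ∧
      g ⁻¹' V ⊆ ⋃ i, U i := by
  obtain ⟨_, V, hx, hV, hgV, H, hH⟩ := h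
  refine ⟨V, fun i => Subtype.val '' {e | (H e).2 = i}, hV, hx, fun i => ?_, fun i => ?_,
    fun i v hv => ?_, fun i j hij => ?_, fun e he => ?_⟩
  · exact hgV.isOpenMap_subtype_val _
      ((isOpen_discrete {i}).preimage (continuous_snd.comp H.continuous))
  · rintro _ ⟨a, ha, rfl⟩ _ ⟨b, hb, rfl⟩ e
    exact congrArg _ (H.injective (Prod.ext (Subtype.ext (by rw [hH, hH, e])) (ha.trans hb.symm)))
  · exact ⟨_, ⟨H.symm (⟨v, hv⟩, i), by simp, rfl⟩, by simp [← hH]⟩
  · refine Set.disjoint_left.2 ?_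
    rintro _ ⟨a, ha, rfl⟩ ⟨b, hb, e⟩
    rw [Subtype.ext e] at hb
    exact hij (ha.symm.trans hb)
  · exact Set.mem_iUnion.2 ⟨(H ⟨e, he⟩).2, ⟨e, he⟩, rfl, rfl⟩

theorem cover_comp {E X M : Type} [TopologicalSpace E] [TopologicalSpace X] [CompactSpace X]
    [T2Space X] [TopologicalSpace M] [T2Space M] {p : E → X} (hp : IsCoveringMap p) {pr : X → M}
    (hpr : IsCoveringMap pr) : IsCoveringMap (pr ∘ p) := by
  intro m
  have fin : (pr ⁻¹' {m}).Finite := (isClosed_singleton.preimage hpr.continuous).isCompact.finite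
    ⟨(hpr m).discreteTopology_fiber⟩
  have : Finite (pr ⁻¹' {m}) := fin
  choose V U hV hx hU inj surj dis ex using fun x => FrkB_unsheets (hp x)
  choose φ hφ hφ' using hpr.isLocalHomeomorph
  obtain ⟨T, hT, hd⟩ := fin.t2_separation
  let A : X → Set X := fun x => T x ∩ V x ∩ (φ x).source
  have hA : ∀ x, IsOpen (A x) := fun x => ((hT x).2.inter (hV x)).inter (φ x).open_source
  have hxA : ∀ x, x ∈ A x := fun x => ⟨⟨(hT x).1, hx x⟩, hφ x⟩
  have h1 : ⋃ x : pr ⁻¹' {m}, A x ∈ nhdsSet (pr ⁻¹' {m}) :=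
    (isOpen_iUnion fun _ => hA _).mem_nhdsSet.2 fun x hx => Set.mem_iUnion.2 ⟨⟨x, hx⟩, hxA x⟩
  obtain ⟨W, hW, hWA⟩ := isClosedMap_iff_comap_nhds_le.1 hpr.continuous.isClosedMap h1
  refine FrkB_sheets (hpr.continuous.comp hp.continuous) (hpr.isOpenMap.comp hp.isOpenMap)
    (V := interior W ∩ ⋂ x : pr ⁻¹' {m}, pr '' A x)
    (isOpen_interior.inter (isOpen_iInter_of_finite fun x => hpr.isOpenMap _ (hA x)))
    ⟨mem_interior_iff_mem_nhds.2 hW, Set.mem_iInter.2 fun x => ⟨x, hxA x, x.2⟩⟩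
    (fun i : Σ x : pr ⁻¹' {m}, p ⁻¹' {x.1} => U i.1 i.2 ∩ p ⁻¹' A i.1)
    (fun i => (hU _ _).inter ((hA _).preimage hp.continuous)) (fun i a ha b hb e => ?_)
    (fun i w hw => ?_) ?_ fun e he => ?_
  · refine inj _ _ ha.1 hb.1 ((φ i.1).injOn ha.2.2 hb.2.2 ?_)
    rw [← hφ']
    exact e
  · obtain ⟨v, hv, rfl⟩ := Set.mem_iInter.1 hw.2 i.1
    obtain ⟨e, he, rfl⟩ := surj i.1 i.2 hv.1.2
    exact ⟨e, ⟨he, hv⟩, rfl⟩
  · rintro ⟨x, i⟩ ⟨x', i'⟩ hne
    by_cases h : x = x'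
    · subst h
      exact (dis x fun e => hne (congrArg (Sigma.mk x) e)).mono Set.inter_subset_left Set.inter_subset_left
    · exact Set.disjoint_left.2 fun e h1 h2 => Set.disjoint_left.1
        (hd x.2 x'.2 fun e => h (Subtype.ext e)) h1.2.1.1 h2.2.1.1
  · obtain ⟨x, hx⟩ := Set.mem_iUnion.1 (hWA (a := p e) (interior_subset (s := W) he.1))
    obtain ⟨i, hi⟩ := Set.mem_iUnion.1 (ex x (a := e) hx.1.2)
    exact Set.mem_iUnion.2 ⟨⟨x, i⟩, hi, hx⟩

end SX4
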