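import Pool.Agent.P.MP_0a0487_an.SX.Bil
import Pool.Agent.P.MP_0a0487_an.SX.Spec

/-! Compactness of solutions of projected equations. -/

set_option autoImplicit false
set_option linter.unusedSectionVars false

noncomputable section

namespace SX4

open scoped ComplexOrder ContDiff
open Filter Topology

variable {P A : Type} [TopologicalSpace P] [CompactSpace P] [CommRing A] [StarRing A] [Algebra ℂ A]
  [StarModule ℂ A] {B : Base P A}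

namespace Geo

variable (G : Geo B)

section aux

variable {G} {ι ι' ι'' : Type} [Fintype ι] [Fintype ι'] [Fintype ι''] {w : ι → Wt} {w' : ι' → Wt}
  {w'' : ι'' → Wt} {L : G.Sec w →ₗ[ℝ] G.Sec w'} {L' : G.Sec w' →ₗ[ℝ] G.Sec w}

theorem gal1_rs (r : ℝ) (s : G.Sec w) : r • s = (r : ℂ) • s := rfl

theorem gal1_ex (h : Pre.Ell L L') (Λ : ℝ) : ∃ p, IsOP (eig L L' Λ) p := by
  have := (G.pair h).eig_fd Λ
  exact exists_isOP _

theorem gal1_tend {v : ℕ → G.Sec w} {u : G.Sec w} {k : ℕ}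
    (h : Tendsto (fun n => (v n - u).nS k) atTop (𝓝 0)) : Tendsto v atTop (𝓝 u) :=
  tendsto_iff_norm_sub_tendsto_zero.2
    (squeeze_zero (fun _ => norm_nonneg _) (fun _ => Pre.Sec.norm_le_nS _ k) h)

theorem gal1_left {v : ℕ → G.Sec w} {v' : ℕ → G.Sec w'} {k : ℕ}
    (h : Tendsto (fun n => (v n).nS k + (v' n).nS k) atTop (𝓝 0)) :
    Tendsto (fun n => (v n).nS k) atTop (𝓝 0) :=
  squeeze_zero (fun _ => Pre.Sec.nS_nonneg _ k)
    (fun _ => le_add_of_nonneg_right (Pre.Sec.nS_nonneg _ k)) h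

theorem gal1_right {v : ℕ → G.Sec w} {v' : ℕ → G.Sec w'} {k : ℕ}
    (h : Tendsto (fun n => (v n).nS k + (v' n).nS k) atTop (𝓝 0)) :
    Tendsto (fun n => (v' n).nS k) atTop (𝓝 0) :=
  squeeze_zero (fun _ => Pre.Sec.nS_nonneg _ k)
    (fun _ => le_add_of_nonneg_left (Pre.Sec.nS_nonneg _ k)) h

theorem gal1_bdd {v : ℕ → G.Sec w} {u : G.Sec w} {k : ℕ}
    (h : Tendsto (fun n => (v n - u).nS k) atTop (𝓝 0)) : ∃ C : ℝ, ∀ n, (v n).nS k ≤ C := by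
  obtain ⟨C, hC⟩ := h.bddAbove_range
  refine ⟨C + u.nS k, fun n => ?_⟩
  have h1 := Pre.Sec.nS_add (v n - u) u k
  rw [sub_add_cancel] at h1
  linarith [hC ⟨n, rfl⟩]

theorem gal1_step (h : Pre.Ell L L') (k : ℕ) : ∃ C : ℝ, 0 ≤ C ∧ ∀ (Λ : ℝ) p',
    IsOP (eig L' L Λ) p' → ∀ s ∈ eig L L' Λ, ∀ g, p' (L s + g) = 0 →
      s.nS (k + 1) ≤ C * (g.nS k + s.nS k) := by
  obtain ⟨C1, h1, h2⟩ := h.fo.est h.gar k
  obtain ⟨C2, h3, h4⟩ := G.proj_nS h k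
  refine ⟨C1 * (C2 + 1), by positivity, fun Λ p' hp' s hs g e => ?_⟩
  obtain ⟨p, hp⟩ := gal1_ex h Λ
  rw [map_add, hp'.apply_of_mem (eig_map Λ hs), add_eq_zero_iff_eq_neg] at e
  have h5 := (h4 Λ p p' hp hp').2 g
  rw [← Pre.Sec.nS_neg, ← e] at h5
  refine (h2 s).trans ?_
  rw [mul_assoc]
  refine mul_le_mul_of_nonneg_left ?_ h1
  nlinarith [g.nS_nonneg k, s.nS_nonneg k]

theorem gal1_lim (h : Pre.Ell L L') {Λ : ℕ → ℝ} (hΛ : Tendsto Λ atTop atTop)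
    {p' : ℕ → G.Sec w' →ₗ[ℝ] G.Sec w'} (hp : ∀ n, IsOP (eig L' L (Λ n)) (p' n))
    {s : ℕ → G.Sec w} {s₀ : G.Sec w} (hs : Tendsto (fun n => (s n - s₀).nS 1) atTop (𝓝 0))
    {g : ℕ → G.Sec w'} {g₀ : G.Sec w'} (hg : Tendsto g atTop (𝓝 g₀))
    (h0 : ∀ n, p' n (L (s n) + g n) = 0) : g₀ = -L s₀ := by
  obtain ⟨C, -, hC⟩ := h.fo.nS_le 0
  have h1 : Tendsto (fun n => L (s n)) atTop (𝓝 (L s₀)) := by
    refine gal1_tend (k := 0) (squeeze_zero (fun _ => Pre.Sec.nS_nonneg _ 0) (fun n => ?_)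
      (by simpa using hs.const_mul C))
    rw [← map_sub]
    exact hC _
  exact eq_neg_of_add_eq_zero_right (G.proj_lim h hΛ hp (h1.add hg) h0)

theorem gal1_montel (v : ℕ → G.Sec w) (v' : ℕ → G.Sec w')
    (hb : ∀ k, ∃ C : ℝ, ∀ n, (v n).nS k + (v' n).nS k ≤ C) :
    ∃ (φ : ℕ → ℕ) (u : G.Sec w) (u' : G.Sec w'), StrictMono φ ∧
      ∀ k, Tendsto (fun n => (v (φ n) - u).nS k + (v' (φ n) - u').nS k) atTop (𝓝 0) := by
  obtain ⟨φ, u, h1, h2⟩ := G.montelS v fun k => (hb k).imp fun C hC n =>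
    (le_add_of_nonneg_right (Pre.Sec.nS_nonneg _ k)).trans (hC n)
  obtain ⟨φ', u', h3, h4⟩ := G.montelS (fun n => v' (φ n)) fun k => (hb k).imp fun C hC n =>
    (le_add_of_nonneg_left (Pre.Sec.nS_nonneg _ k)).trans (hC (φ n))
  refine ⟨fun n => φ (φ' n), u, u', h1.comp h3, fun k => ?_⟩
  simpa using ((h2 k).comp h3.tendsto_atTop).add (h4 k)

theorem gal1_bil {b : G.Sec w → G.Sec w' →ₗ[ℝ] G.Sec w''}
    (ha : ∀ x y s, b (x + y) s = b x s + b y s)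
    (hC : ∃ C : ℝ, 0 ≤ C ∧ ∀ x s, (b x s).nS 4 ≤ C * (x.nS 4 * s.nS 4)) {x : ℕ → G.Sec w}
    {s : ℕ → G.Sec w'} {x₀ : G.Sec w} {s₀ : G.Sec w'}
    (hx : Tendsto (fun n => (x n - x₀).nS 4) atTop (𝓝 0))
    (hs : Tendsto (fun n => (s n - s₀).nS 4) atTop (𝓝 0)) :
    Tendsto (fun n => b (x n) (s n)) atTop (𝓝 (b x₀ s₀)) := by
  obtain ⟨C, -, hC⟩ := hC
  have h1 := (((hx.mul hs).const_mul C).add ((hx.mul_const (s₀.nS 4)).const_mul C)).add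
    ((hs.const_mul (x₀.nS 4)).const_mul C)
  simp only [mul_zero, zero_mul, add_zero] at h1
  refine gal1_tend (k := 4) (squeeze_zero (fun _ => Pre.Sec.nS_nonneg _ 4) (fun n => ?_) h1)
  have h2 : b (x n) (s n) - b x₀ s₀ =
      b (x n - x₀) (s n - s₀) + b (x n - x₀) s₀ + b x₀ (s n - s₀) := by
    have h3 := ha (x n - x₀) x₀ (s n)
    rw [sub_add_cancel] at h3
    rw [h3, map_sub, map_sub]
    abel
  rw [h2]
  exact (Pre.Sec.nS_add _ _ 4).trans (add_le_add ((Pre.Sec.nS_add _ _ 4).trans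
    (add_le_add (hC _ _) (hC _ _))) (hC _ _))

/-- Multiplication by a complex number as a real linear map. -/
def gal1Mul (z : ℂ) : G.Sec w →ₗ[ℝ] G.Sec w where
  toFun s := z • s
  map_add' := smul_add z
  map_smul' r s := smul_comm z (r : ℂ) s

theorem gal1_sig_add (x y s : G.Sec (wp 0)) : G.sig (x + y) s = G.sig x s + G.sig y s := by
  rw [G.sig_comm, map_add, G.sig_comm s, G.sig_comm s]

theorem gal1_sig_smul (r : ℝ) (x s : G.Sec (wp 0)) : G.sig (r • x) s = r • G.sig x s := by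
  rw [G.sig_comm, map_smul, G.sig_comm s]

theorem gal1_e1 [Nonempty P] : ∃ m : ℝ, 0 < m ∧ inner ℂ G.e1 G.e1 = m := by
  refine ⟨‖G.e1‖ ^ 2, pow_pos (norm_pos_iff.2 fun h => ?_) 2, by
    rw [inner_self_eq_norm_sq_to_K]; simp⟩
  have h1 : (1 : A) = 0 := congrArg (fun s : G.Sec (wp 0) => s.c 0) h
  have h2 := G.I_one_pos
  rw [h1, map_zero] at h2
  exact lt_irrefl _ h2

end aux

/-- Bootstrap for the projected bilinear system. The pair `(ψ n, χ n)` solves a linear system whose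
coefficients `a n, b n, c n` are either fixed smooth data or controlled by the pair itself. -/
theorem gal_cpt {Q' : G.Sec (wp 0) →ₗ[ℝ] G.Sec (wm 0)} (hQ : Pre.Ell G.Q Q') {Λ : ℕ → ℝ}
    (hΛ : Tendsto Λ atTop atTop) {p : ℕ → G.Sec (wm 0) →ₗ[ℝ] G.Sec (wm 0)}
    {q : ℕ → G.Sec (wp 0) →ₗ[ℝ] G.Sec (wp 0)}
    (hp : ∀ n, IsOP (eig (G.diracAdj 0) (G.dirac 0) (Λ n)) (p n))
    (hq : ∀ n, IsOP (eig Q' G.Q (Λ n)) (q n))
    (ψ : ℕ → G.Sec (wp 0)) (χ : ℕ → G.Sec (wm 0))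
    (hψ : ∀ n, ψ n ∈ eig (G.dirac 0) (G.diracAdj 0) (Λ n)) (hχ : ∀ n, χ n ∈ eig G.Q Q' (Λ n))
    (g : ℕ → G.Sec (wm 0)) (f : ℕ → G.Sec (wp 0))
    (e₁ : ∀ n, p n (G.dirac 0 (ψ n) + g n) = 0) (e₂ : ∀ n, q n (G.Q (χ n) + f n) = 0)
    (h4 : ∃ C : ℝ, ∀ n, (ψ n).nS 4 + (χ n).nS 4 ≤ C)
    (hb : ∀ k, 4 ≤ k → (∃ C : ℝ, ∀ n, (ψ n).nS k + (χ n).nS k ≤ C) →
      ∃ C : ℝ, ∀ n, (g n).nS k + (f n).nS k ≤ C) :
    ∃ (φ : ℕ → ℕ) (ψ₀ : G.Sec (wp 0)) (χ₀ : G.Sec (wm 0)), StrictMono φ ∧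
      (∀ k, Tendsto (fun n => (ψ (φ n) - ψ₀).nS k + (χ (φ n) - χ₀).nS k) atTop (𝓝 0)) ∧
      Tendsto (fun n => g (φ n)) atTop (𝓝 (-G.dirac 0 ψ₀)) ∧
      Tendsto (fun n => f (φ n)) atTop (𝓝 (-G.Q χ₀)) := by
  have hD := G.dirac_ell 0
  have h5 : ∀ k, 4 ≤ k → ∃ C : ℝ, ∀ n, (ψ n).nS k + (χ n).nS k ≤ C := by
    intro k hk
    induction k, hk using Nat.le_induction with
    | base => exact h4
    | succ k hk ih =>
      obtain ⟨C, hC⟩ := hb k hk ih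
      obtain ⟨C', hC'⟩ := ih
      obtain ⟨C1, h1, h2⟩ := gal1_step hD k
      obtain ⟨C2, h3, h6⟩ := gal1_step hQ k
      refine ⟨C1 * (C + C') + C2 * (C + C'), fun n => add_le_add
        ((h2 _ _ (hp n) _ (hψ n) _ (e₁ n)).trans (mul_le_mul_of_nonneg_left ?_ h1))
        ((h6 _ _ (hq n) _ (hχ n) _ (e₂ n)).trans (mul_le_mul_of_nonneg_left ?_ h3))⟩
      · linarith [hC n, hC' n, (f n).nS_nonneg k, (χ n).nS_nonneg k]
      · linarith [hC n, hC' n, (g n).nS_nonneg k, (ψ n).nS_nonneg k]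
  obtain ⟨φ, ψ₀, χ₀, h1, h2⟩ := gal1_montel ψ χ fun k => (h5 _ (le_max_right k 4)).imp
    fun C hC n => (add_le_add (Pre.Sec.nS_mono _ (le_max_left k 4))
      (Pre.Sec.nS_mono _ (le_max_left k 4))).trans (hC n)
  obtain ⟨φ', g₀, f₀, h3, h6⟩ := gal1_montel (fun n => g (φ n)) (fun n => f (φ n)) fun k =>
    (hb _ (le_max_right k 4) (h5 _ (le_max_right k 4))).imp
      fun C hC n => (add_le_add (Pre.Sec.nS_mono _ (le_max_left k 4))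
        (Pre.Sec.nS_mono _ (le_max_left k 4))).trans (hC (φ n))
  have h7 := fun k => (h2 k).comp h3.tendsto_atTop
  have h8 := hΛ.comp (h1.comp h3).tendsto_atTop
  have h9 := gal1_tend (gal1_left (h6 0))
  have h10 := gal1_tend (gal1_right (h6 0))
  refine ⟨fun n => φ (φ' n), ψ₀, χ₀, h1.comp h3, h7, ?_, ?_⟩
  · rwa [gal1_lim hD h8 (fun n => hp _) (gal1_left (h7 1)) h9 fun n => e₁ _] at h9
  · rwa [gal1_lim hQ h8 (fun n => hq _) (gal1_right (h7 1)) h10 fun n => e₂ _] at h10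

variable {Q' : G.Sec (wp 0) →ₗ[ℝ] G.Sec (wm 0)}

/-- A solution of the monopole equations projected to the spectral subspaces of level `Λ`. -/
structure GalSol (Q' : G.Sec (wp 0) →ₗ[ℝ] G.Sec (wm 0)) (Λ : ℝ) (ξ ψ : G.Sec (wp 0))
    (χ : G.Sec (wm 0)) : Prop where
  mem : ψ ∈ eig (G.dirac 0) (G.diracAdj 0) Λ
  mem' : χ ∈ eig G.Q Q' Λ
  eq : ∀ u ∈ eig (G.diracAdj 0) (G.dirac 0) Λ, inner ℝ (G.dirac 0 ψ + G.rho 0 χ ψ) u = 0
  eq' : ∀ u ∈ eig Q' G.Q Λ, inner ℝ (G.Q χ + G.sig ψ ψ - ξ) u = 0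

/-- Projected solutions converge to solutions. -/
theorem gal_lim (hQ : Pre.Ell G.Q Q') (ξ₀ ξ₁ ζ : G.Sec (wp 0)) {Λ : ℕ → ℝ}
    (hΛ : Tendsto Λ atTop atTop) (t : ℕ → ℝ) (ht : ∀ n, t n ∈ Set.Icc (0 : ℝ) 1)
    (ψ : ℕ → G.Sec (wp 0)) (χ : ℕ → G.Sec (wm 0))
    (hs : ∀ n, G.GalSol Q' (Λ n) ((1 - t n) • ξ₀ + t n • ξ₁ + (t n * (1 - t n)) • ζ) (ψ n) (χ n))
    {R : ℝ} (hR : ∀ n, (ψ n).nS 4 + (χ n).nS 4 ≤ R) :
    ∃ (φ : ℕ → ℕ) (t₀ : ℝ) (ψ₀ : G.Sec (wp 0)) (χ₀ : G.Sec (wm 0)), StrictMono φ ∧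
      Tendsto (fun n => t (φ n)) atTop (𝓝 t₀) ∧
      (∀ k, Tendsto (fun n => (ψ (φ n) - ψ₀).nS k + (χ (φ n) - χ₀).nS k) atTop (𝓝 0)) ∧
      G.SW ((1 - t₀) • ξ₀ + t₀ • ξ₁ + (t₀ * (1 - t₀)) • ζ) ψ₀ χ₀ := by
  obtain ⟨t₀, -, φ, h1, h2⟩ := isCompact_Icc.tendsto_subseq ht
  choose p hp using fun n => gal1_ex (G.dirac_ell 0).symm (Λ (φ n))
  choose q hq using fun n => gal1_ex hQ.symm (Λ (φ n))
  obtain ⟨φ', ψ₀, χ₀, h3, h4, h5, h6⟩ := G.gal_cpt hQ (hΛ.comp h1.tendsto_atTop) hp hq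
    (fun n => ψ (φ n)) (fun n => χ (φ n)) (fun n => (hs _).mem) (fun n => (hs _).mem')
    (fun n => G.rho 0 (χ (φ n)) (ψ (φ n)))
    (fun n => G.sig (ψ (φ n)) (ψ (φ n)) -
      ((1 - t (φ n)) • ξ₀ + t (φ n) • ξ₁ + (t (φ n) * (1 - t (φ n))) • ζ))
    (fun n => (hp n).eq_of (zero_mem _) fun u hu => by rw [sub_zero]; exact (hs _).eq u hu)
    (fun n => (hq n).eq_of (zero_mem _) fun u hu => by
      rw [sub_zero, ← add_sub_assoc]; exact (hs _).eq' u hu)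
    ⟨R, fun n => hR _⟩
    (by
      rintro k hk ⟨C, hC⟩
      obtain ⟨C1, a1, a2⟩ := G.rho_alg hk
      obtain ⟨C2, a3, a4⟩ := G.sig_alg hk
      refine ⟨C1 * (C * C) + (C2 * (C * C) + (ξ₀.nS k + ξ₁.nS k + ζ.nS k)), fun n => ?_⟩
      have b1 := (ψ (φ n)).nS_nonneg k
      have b2 := (χ (φ n)).nS_nonneg k
      have b3 : (ψ (φ n)).nS k ≤ C := by linarith [hC n]
      have b4 : (χ (φ n)).nS k ≤ C := by linarith [hC n]
      obtain ⟨b5, b6⟩ := ht (φ n)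
      have b7 : ∀ {r : ℝ} (s : G.Sec (wp 0)), 0 ≤ r → r ≤ 1 → (r • s).nS k ≤ s.nS k :=
        fun s r0 r1 => by
          rw [Pre.Sec.nS_rsmul, abs_of_nonneg r0]
          exact mul_le_of_le_one_left (s.nS_nonneg k) r1
      refine add_le_add ((a2 _ _).trans (mul_le_mul_of_nonneg_left
        (mul_le_mul b4 b3 b1 (b2.trans b4)) a1)) ((Pre.Sec.nS_sub _ _ k).trans (add_le_add
        ((a4 _ _).trans (mul_le_mul_of_nonneg_left (mul_le_mul b3 b3 b1 (b1.trans b3)) a3)) ?_))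
      exact (Pre.Sec.nS_add _ _ k).trans (add_le_add ((Pre.Sec.nS_add _ _ k).trans
        (add_le_add (b7 _ (by linarith) (by linarith)) (b7 _ b5 b6)))
        (b7 _ (by nlinarith) (by nlinarith))))
  have h7 : Tendsto (fun n => t (φ (φ' n))) atTop (𝓝 t₀) := h2.comp h3.tendsto_atTop
  refine ⟨fun n => φ (φ' n), t₀, ψ₀, χ₀, h1.comp h3, h7, h4, ?_, ?_⟩
  · rw [← tendsto_nhds_unique h5 (gal1_bil (G.rho_add_left 0) (G.rho_alg le_rfl)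
      (gal1_right (h4 4)) (gal1_left (h4 4))), add_neg_cancel]
  · have h8 := tendsto_nhds_unique h6 ((gal1_bil gal1_sig_add (G.sig_alg le_rfl)
      (gal1_left (h4 4)) (gal1_left (h4 4))).sub
      ((((h7.const_sub 1).smul_const ξ₀).add (h7.smul_const ξ₁)).add
        ((h7.mul (h7.const_sub 1)).smul_const ζ)))
    rw [← sub_eq_zero, add_sub_assoc, ← h8, add_neg_cancel]

variable {G} in
theorem GalSol.rot {Λ : ℝ} {ξ ψ : G.Sec (wp 0)} {χ : G.Sec (wm 0)} (h : G.GalSol Q' Λ ξ ψ χ)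
    {z : ℂ} (hz : ‖z‖ = 1) : G.GalSol Q' Λ ξ (z • ψ) χ := by
  refine ⟨eig_symm Λ (gal1Mul z) (fun s => ?_) h.mem, h.mem', fun u hu => ?_, fun u hu => ?_⟩
  · exact (congrArg _ (G.dirac_smul 0 z s)).trans (G.diracAdj_smul 0 z _)
  · have h1 := h.eq _ (eig_symm Λ (gal1Mul (starRingEnd ℂ z)) (fun s =>
      (congrArg _ (G.diracAdj_smul 0 _ s)).trans (G.dirac_smul 0 _ _)) hu)
    rw [G.dirac_smul, G.rho_smul, ← smul_add, ← h1]
    exact congrArg Complex.re ((inner_smul_left _ _ z).trans (inner_smul_right _ _ _).symm)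
  · rw [G.sig_unit z hz]
    exact h.eq' u hu

theorem gal1_core [Nonempty P] (hQ : Pre.Ell G.Q Q') {c : ℝ}
    (h1 : ∀ ψ χ, G.dirac 0 ψ + c • G.rho 0 χ G.e1 = 0 → G.Q χ + (2 * c) • G.sig G.e1 ψ = 0 →
      χ = 0 ∧ ∃ t : ℝ, ψ = ((t : ℂ) * Complex.I) • G.e1) {Λ : ℕ → ℝ}
    (hΛ : Tendsto Λ atTop atTop) (a u v : ℕ → G.Sec (wp 0)) (b : ℕ → G.Sec (wm 0))
    (ha : ∀ n, a n ∈ eig (G.dirac 0) (G.diracAdj 0) (Λ n)) (hb : ∀ n, b n ∈ eig G.Q Q' (Λ n))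
    (hu : ∀ k, Tendsto (fun n => (u n - c • G.e1).nS k) atTop (𝓝 0))
    (hv : ∀ k, Tendsto (fun n => (v n - (2 * c) • G.e1).nS k) atTop (𝓝 0))
    (e₁ : ∀ n, ∀ y ∈ eig (G.diracAdj 0) (G.dirac 0) (Λ n),
      inner ℝ (G.dirac 0 (a n) + G.rho 0 (b n) (u n)) y = 0)
    (e₂ : ∀ n, ∀ y ∈ eig Q' G.Q (Λ n), inner ℝ (G.Q (b n) + G.sig (v n) (a n)) y = 0)
    (hi : ∀ n, (inner ℂ G.e1 (a n)).im = 0) (h0 : ∀ n, ¬ (a n = 0 ∧ b n = 0)) : False := by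
  obtain ⟨N, hN⟩ : ∃ N : ℕ → ℝ, ∀ n, N n = (a n).nS 4 + (b n).nS 4 := ⟨_, fun _ => rfl⟩
  have hN0 : ∀ n, 0 < N n := fun n => by
    by_contra h
    have b1 := (a n).norm_le_nS 4
    have b2 := (b n).norm_le_nS 4
    have b3 := hN n
    refine h0 n ⟨norm_le_zero_iff.1 ?_, norm_le_zero_iff.1 ?_⟩
    · linarith [norm_nonneg (b n)]
    · linarith [norm_nonneg (a n)]
  have hN1 : ∀ n, ((N n)⁻¹ • a n).nS 4 + ((N n)⁻¹ • b n).nS 4 = 1 := fun n => by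
    rw [Pre.Sec.nS_rsmul, Pre.Sec.nS_rsmul, ← mul_add, ← hN, abs_of_pos (inv_pos.2 (hN0 n)),
      inv_mul_cancel₀ (hN0 n).ne']
  choose p hp using fun n => gal1_ex (G.dirac_ell 0).symm (Λ n)
  choose q hq using fun n => gal1_ex hQ.symm (Λ n)
  obtain ⟨φ, a₀, b₀, h3, h4, h5, h6⟩ := G.gal_cpt hQ hΛ hp hq
    (fun n => (N n)⁻¹ • a n) (fun n => (N n)⁻¹ • b n) (fun n => Submodule.smul_mem _ _ (ha n))
    (fun n => Submodule.smul_mem _ _ (hb n)) (fun n => G.rho 0 ((N n)⁻¹ • b n) (u n))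
    (fun n => G.sig (v n) ((N n)⁻¹ • a n))
    (fun n => (hp n).eq_of (zero_mem _) fun y hy => by
      rw [sub_zero, map_smul, G.rho_smul_left, ← smul_add, real_inner_smul_left, e₁ n y hy,
        mul_zero])
    (fun n => (hq n).eq_of (zero_mem _) fun y hy => by
      rw [sub_zero, map_smul, map_smul, ← smul_add, real_inner_smul_left, e₂ n y hy, mul_zero])
    ⟨1, fun n => (hN1 n).le⟩
    (by
      rintro k hk ⟨C, hC⟩
      obtain ⟨C1, a1, a2⟩ := G.rho_alg hk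
      obtain ⟨C2, a3, a4⟩ := G.sig_alg hk
      obtain ⟨C3, a5⟩ := gal1_bdd (hu k)
      obtain ⟨C4, a6⟩ := gal1_bdd (hv k)
      refine ⟨C1 * (C * C3) + C2 * (C4 * C), fun n => ?_⟩
      have b1 := ((N n)⁻¹ • a n).nS_nonneg k
      have b2 := ((N n)⁻¹ • b n).nS_nonneg k
      have b3 : ((N n)⁻¹ • a n).nS k ≤ C := by linarith [hC n]
      have b4 : ((N n)⁻¹ • b n).nS k ≤ C := by linarith [hC n]
      exact add_le_add ((a2 _ _).trans (mul_le_mul_of_nonneg_left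
        (mul_le_mul b4 (a5 n) ((u n).nS_nonneg k) (b2.trans b4)) a1))
        ((a4 _ _).trans (mul_le_mul_of_nonneg_left
          (mul_le_mul (a6 n) b3 b1 (((v n).nS_nonneg k).trans (a6 n))) a3)))
  have h7 := tendsto_nhds_unique h5 (gal1_bil (G.rho_add_left 0) (G.rho_alg le_rfl)
    (gal1_right (h4 4)) ((hu 4).comp h3.tendsto_atTop))
  have h8 := tendsto_nhds_unique h6 (gal1_bil gal1_sig_add (G.sig_alg le_rfl)
    ((hv 4).comp h3.tendsto_atTop) (gal1_left (h4 4)))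
  obtain ⟨rfl, t, rfl⟩ := h1 a₀ b₀ (by rw [← map_smul, ← h7, add_neg_cancel])
    (by rw [← gal1_sig_smul, ← h8, add_neg_cancel])
  obtain ⟨m, hm, hm'⟩ := gal1_e1 (G := G)
  have h9 := (Complex.continuous_im.tendsto _).comp
    ((tendsto_const_nhds (x := G.e1)).inner (𝕜 := ℂ) (gal1_tend (gal1_left (h4 0))))
  have h10 : t = 0 := by
    have h11 := tendsto_nhds_unique h9 (tendsto_const_nhds (x := (0 : ℝ)).congr fun n => by
      simp only [Function.comp]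
      rw [gal1_rs, inner_smul_right, Complex.im_ofReal_mul, hi, mul_zero])
    rw [inner_smul_right, hm'] at h11
    simpa [hm.ne'] using h11
  have h12 := h4 4
  simp only [h10, Complex.ofReal_zero, zero_mul, zero_smul, sub_zero, hN1] at h12
  exact one_ne_zero (tendsto_nhds_unique tendsto_const_nhds h12)

/-- Uniqueness of projected solutions at the first end. -/
theorem gal_uniq [Nonempty P] (hQ : Pre.Ell G.Q Q') {c : ℝ} (hc : 0 < c)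
    (h0 : ∀ ψ χ, G.SW (((c : ℂ) ^ 2 * Complex.I / 2) • G.e1) ψ χ →
      χ = 0 ∧ ∃ z : ℂ, ‖z‖ = 1 ∧ ψ = z • (c : ℂ) • G.e1)
    (h1 : ∀ ψ χ, G.dirac 0 ψ + c • G.rho 0 χ G.e1 = 0 → G.Q χ + (2 * c) • G.sig G.e1 ψ = 0 →
      χ = 0 ∧ ∃ t : ℝ, ψ = ((t : ℂ) * Complex.I) • G.e1) (R : ℝ) :
    ∃ Λ₀ : ℝ, ∀ Λ ≥ Λ₀, ∀ ψ χ, G.GalSol Q' Λ (((c : ℂ) ^ 2 * Complex.I / 2) • G.e1) ψ χ →
      ψ.nS 4 + χ.nS 4 ≤ R → χ = 0 ∧ ∃ z : ℂ, ‖z‖ = 1 ∧ ψ = z • (c : ℂ) • G.e1 := by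
  by_contra hcon
  have h2 : ∀ n : ℕ, ∃ Λ : ℝ, n ≤ Λ ∧ ∃ ψ χ,
      G.GalSol Q' Λ (((c : ℂ) ^ 2 * Complex.I / 2) • G.e1) ψ χ ∧ ψ.nS 4 + χ.nS 4 ≤ R ∧
      (∃ r : ℝ, 0 ≤ r ∧ inner ℂ G.e1 ψ = r) ∧ ¬ (ψ - c • G.e1 = 0 ∧ χ = 0) := by
    intro n
    by_contra h
    refine hcon ⟨n, fun Λ hΛ ψ χ hs hR => ?_⟩
    obtain ⟨z, hz, hz'⟩ := Complex.exists_norm_eq_mul_self (inner ℂ G.e1 ψ)
    by_contra h'
    refine h ⟨Λ, hΛ, z • ψ, χ, hs.rot hz, by rwa [Pre.Sec.nS_smul, hz, one_mul],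
      ⟨_, norm_nonneg _, (inner_smul_right _ _ _).trans hz'.symm⟩, fun e => h' ⟨e.2, z⁻¹, ?_, ?_⟩⟩
    · rw [norm_inv, hz, inv_one]
    · rw [← gal1_rs, ← sub_eq_zero.1 e.1, inv_smul_smul₀ (norm_ne_zero_iff.1 (hz ▸ one_ne_zero))]
  choose Λ hΛ ψ χ hs hR hr hne using h2
  choose r hr using hr
  have hΛ' : Tendsto Λ atTop atTop := tendsto_atTop_mono hΛ tendsto_natCast_atTop_atTop
  obtain ⟨φ, t₀, ψ₀, χ₀, h3, -, h4, h5⟩ := G.gal_lim hQ (((c : ℂ) ^ 2 * Complex.I / 2) • G.e1)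
    (((c : ℂ) ^ 2 * Complex.I / 2) • G.e1) 0 hΛ' (fun _ => 0) (fun _ => ⟨le_rfl, zero_le_one⟩) ψ χ
    (fun n => by simpa only [sub_zero, one_smul, zero_smul, smul_zero, add_zero] using hs n) hR
  rw [smul_zero, add_zero, ← add_smul, sub_add_cancel, one_smul] at h5
  obtain ⟨rfl, z, hz, rfl⟩ := h0 _ _ h5
  obtain ⟨m, hm, hm'⟩ := gal1_e1 (G := G)
  have h6 := (tendsto_const_nhds (x := G.e1)).inner (𝕜 := ℂ) (gal1_tend (gal1_left (h4 0)))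
  rw [inner_smul_right, inner_smul_right, hm'] at h6
  have h7 : z.im = 0 := by
    have h8 := tendsto_nhds_unique ((Complex.continuous_im.tendsto _).comp h6)
      (tendsto_const_nhds (x := (0 : ℝ)).congr fun n => by
        simp only [Function.comp, (hr _).2, Complex.ofReal_im])
    simpa [hm.ne', hc.ne'] using h8
  have h8 : 0 ≤ z.re := by
    have h9 := ge_of_tendsto' ((Complex.continuous_re.tendsto _).comp h6) (b := 0) fun n => by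
      simp only [Function.comp, (hr _).2, Complex.ofReal_re, (hr _).1]
    rw [← Complex.ofReal_mul, Complex.re_mul_ofReal] at h9
    exact nonneg_of_mul_nonneg_left h9 (mul_pos hc hm)
  have h9 : z = 1 := by
    rw [← Complex.abs_re_eq_norm.2 h7, abs_of_nonneg h8] at hz
    exact Complex.ext hz h7
  simp only [h9, one_smul, ← gal1_rs] at h4
  refine G.gal1_core hQ h1 (hΛ'.comp h3.tendsto_atTop) (fun n => ψ (φ n) - c • G.e1)
    (fun n => ψ (φ n)) (fun n => ψ (φ n) + c • G.e1) (fun n => χ (φ n))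
    (fun n => sub_mem (hs _).mem (Submodule.smul_mem _ _ (ker_le_eig _ _ _ G.dirac_e1)))
    (fun n => (hs _).mem') (fun k => gal1_left (h4 k)) (fun k => ?_) (fun n y hy => ?_)
    (fun n y hy => ?_) (fun n => ?_) fun n => hne _
  · refine (gal1_left (h4 k)).congr fun n => ?_
    rw [two_mul, add_smul, add_sub_add_right_eq_sub]
  · rw [map_sub, map_smul, G.dirac_e1, smul_zero, sub_zero]
    exact (hs _).eq y hy
  · rw [← (hs _).eq' y hy, gal1_sig_add, map_sub, map_sub, G.sig_comm (c • G.e1) (ψ (φ n)),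
      sub_add_sub_cancel, gal1_sig_smul, map_smul, G.sig_e1, gal1_rs, gal1_rs, smul_smul, smul_smul,
      add_sub_assoc, show (c : ℂ) * c * (Complex.I / 2) = (c : ℂ) ^ 2 * Complex.I / 2 by ring]
  · rw [inner_sub_right, gal1_rs, inner_smul_right, hm', (hr _).2]
    simp

/-- Nondegeneracy of the canonical solution for the projected equations. -/
theorem gal_nd [Nonempty P] (hQ : Pre.Ell G.Q Q') {c : ℝ}
    (h1 : ∀ ψ χ, G.dirac 0 ψ + c • G.rho 0 χ G.e1 = 0 → G.Q χ + (2 * c) • G.sig G.e1 ψ = 0 →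
      χ = 0 ∧ ∃ t : ℝ, ψ = ((t : ℂ) * Complex.I) • G.e1) :
    ∃ Λ₀ : ℝ, ∀ Λ ≥ Λ₀, ∀ ψ ∈ eig (G.dirac 0) (G.diracAdj 0) Λ, ∀ χ ∈ eig G.Q Q' Λ,
      (∀ u ∈ eig (G.diracAdj 0) (G.dirac 0) Λ,
        inner ℝ (G.dirac 0 ψ + c • G.rho 0 χ G.e1) u = 0) →
      (∀ u ∈ eig Q' G.Q Λ, inner ℝ (G.Q χ + (2 * c) • G.sig G.e1 ψ) u = 0) →
      χ = 0 ∧ ∃ t : ℝ, ψ = ((t : ℂ) * Complex.I) • G.e1 := by
  by_contra hcon
  push Not at hcon
  choose Λ hΛ ψ hψ χ hχ e₁ e₂ hne using fun n : ℕ => hcon n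
  obtain ⟨m, hm, hm'⟩ := gal1_e1 (G := G)
  have h2 : G.sig G.e1 (Complex.I • G.e1) = 0 := by
    have h3 := G.sig_unit Complex.I Complex.norm_I G.e1 (Complex.I • G.e1)
    rw [smul_smul, Complex.I_mul_I, neg_smul, one_smul, map_neg, G.sig_comm] at h3
    have h4 : (2 : ℝ) • G.sig G.e1 (Complex.I • G.e1) = 0 := by
      rw [two_smul]
      exact neg_eq_iff_add_eq_zero.1 h3
    exact (smul_eq_zero.1 h4).resolve_left two_ne_zero
  have h3 : G.dirac 0 (Complex.I • G.e1) = 0 := by rw [G.dirac_smul, G.dirac_e1, smul_zero]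
  have h4 : ∀ (s : G.Sec (wp 0)) k, Tendsto (fun _ : ℕ => (s - s).nS k) atTop (𝓝 0) := by
    intro s k
    rw [sub_self, ← zero_smul ℝ s, Pre.Sec.nS_rsmul, abs_zero, zero_mul]
    exact tendsto_const_nhds
  refine G.gal1_core hQ h1 (tendsto_atTop_mono hΛ tendsto_natCast_atTop_atTop)
    (fun n => ψ n - ((inner ℂ G.e1 (ψ n)).im / m) • Complex.I • G.e1) (fun _ => c • G.e1)
    (fun _ => (2 * c) • G.e1) χ
    (fun n => sub_mem (hψ n) (Submodule.smul_mem _ _ (ker_le_eig _ _ _ h3))) hχ (h4 _) (h4 _)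
    (fun n y hy => ?_) (fun n y hy => ?_) (fun n => ?_)
    fun n e => hne n e.2 ((inner ℂ G.e1 (ψ n)).im / m) ?_
  · rw [map_sub, map_smul, h3, smul_zero, sub_zero, map_smul]
    exact e₁ n y hy
  · rw [gal1_sig_smul, map_sub, map_smul, h2, smul_zero, sub_zero]
    exact e₂ n y hy
  · rw [inner_sub_right, gal1_rs, inner_smul_right, inner_smul_right, hm']
    simp [hm.ne']
  · rw [← smul_smul]
    exact sub_eq_zero.1 e.1

end Geo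

end SX4
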