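import Pool.Agent.P.MP_0a0487_an.SX.CxDefs

/-! First Betti numbers of finitely generated groups. -/

set_option autoImplicit false
set_option linter.unusedSectionVars false

noncomputable section

namespace SX4

open scoped ComplexOrder ContDiff
open Filter Topology Matrix

theorem exists_hb (Γ : Type) [Group Γ] [Group.FG Γ] : ∃ (b : ℕ) (c : Γ → Fin b → ℤ), HB c := by
  have h1 : Function.Surjective (Abelianization.of : Γ →* _) := QuotientGroup.mk_surjective
  have : Group.FG (Abelianization Γ) := Group.fg_of_surjective h1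
  have : Module.Finite ℤ (Additive (Abelianization Γ)) := Module.Finite.iff_addGroup_fg.2 inferInstance
  let N := Submodule.torsion ℤ (Additive (Abelianization Γ))
  let e := Module.finBasis ℤ (Additive (Abelianization Γ) ⧸ N)
  refine ⟨_, fun γ => e.equivFun (N.mkQ (Additive.ofMul (Abelianization.of γ))), fun γ γ' => ?_,
    e.equivFun.surjective.comp (N.mkQ_surjective.comp (Additive.ofMul.surjective.comp h1)),
    fun h => ?_⟩
  · rw [map_mul, ofMul_mul, map_add, map_add]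
  · let k := N.liftQ (MonoidHom.toAdditiveLeft
      (Abelianization.lift (AddMonoidHom.toMultiplicativeRight h))).toIntLinearMap (by
        rintro x ⟨n, hn⟩
        have := congrArg (MonoidHom.toAdditiveLeft
          (Abelianization.lift (AddMonoidHom.toMultiplicativeRight h))) hn
        rw [Submonoid.smul_def, map_zsmul, map_zero, smul_eq_zero] at this
        exact this.resolve_left (nonZeroDivisors.coe_ne_zero n))
    refine ⟨fun i => k (e i), fun γ => ?_⟩
    change k (N.mkQ (Additive.ofMul (Abelianization.of γ))) = _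
    conv_lhs => rw [← e.sum_equivFun (N.mkQ _), map_sum]
    exact Finset.sum_congr rfl fun i _ => by rw [map_zsmul, zsmul_eq_mul, mul_comm]

theorem exists_normal_le {Λ : Type} [Group Λ] {K T : Subgroup Λ} [K.Normal] (hK : K.FG)
    (hT : T.relIndex K ≠ 0) : ∃ S : Subgroup Λ, S.Normal ∧ S ≤ T ∧ S ≤ K ∧ S.relIndex K ≠ 0 := by
  have : (T.subgroupOf K).FiniteIndex := ⟨hT⟩
  obtain ⟨s, hs⟩ := ((Group.fg_iff_subgroup_fg K).2 hK).out
  have : Finite (K →* Equiv.Perm (K ⧸ T.subgroupOf K)) :=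
    Finite.of_injective (fun f (x : s) => f x) fun f g h =>
      MonoidHom.eq_of_eqOn_dense hs fun x hx => congrFun h ⟨x, hx⟩
  let S : Subgroup K := ⨅ f : K →* Equiv.Perm (K ⧸ T.subgroupOf K), f.ker
  have : S.Characteristic := Subgroup.characteristic_iff_le_comap.2 fun φ x hx =>
    Subgroup.mem_iInf.2 fun f => Subgroup.mem_iInf.1 hx (f.comp φ.toMonoidHom)
  refine ⟨S.map K.subtype, inferInstance, Subgroup.map_le_iff_le_comap.2 ((iInf_le _ _).trans
    ((Subgroup.normalCore_eq_ker _).symm.trans_le (T.subgroupOf K).normalCore_le)),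
    Subgroup.map_subtype_le _, ?_⟩
  rw [Subgroup.relIndex, Subgroup.subgroupOf,
    Subgroup.comap_map_eq_self_of_injective K.subtype_injective]
  exact (Subgroup.finiteIndex_iInf fun f => inferInstance).index_ne_zero

theorem GrpA_equiv {Γ : Type} [Group Γ] {b : ℕ} {c : Γ → Fin b → ℤ} (hc : HB c) :
    Nonempty ((Fin b → ℂ) ≃ₗ[ℂ] Hm Γ) := by
  let F : (Fin b → ℂ) →ₗ[ℂ] Hm Γ :=
    { toFun := fun v => AddMonoidHom.mk' (fun γ => ∑ i, v i * c γ.toMul i) fun γ γ' => by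
        simp [hc.mul, mul_add, Finset.sum_add_distrib]
      map_add' := fun v w => AddMonoidHom.ext fun γ => by
        simp [add_mul, Finset.sum_add_distrib]
      map_smul' := fun a v => AddMonoidHom.ext fun γ => by
        simp [mul_assoc, Finset.mul_sum] }
  refine ⟨LinearEquiv.ofBijective F ⟨(injective_iff_map_eq_zero F).2 fun v hv => funext fun j => ?_,
    fun h => ?_⟩⟩
  · obtain ⟨γ, hγ⟩ := hc.surj (Pi.single j 1)
    have : ∑ i, v i * c γ i = 0 := DFunLike.congr_fun hv (Additive.ofMul γ)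
    simpa [hγ, Pi.single_apply] using this
  · obtain ⟨v, hv⟩ := hc.span h
    exact ⟨v, AddMonoidHom.ext fun γ => (hv γ.toMul).symm⟩

theorem GrpA_zero {Γ : Type} [Group Γ] {H : Subgroup Γ} (hH : H.index ≠ 0) {h : Hm Γ}
    (e : ∀ γ ∈ H, h (Additive.ofMul γ) = 0) : h = 0 := AddMonoidHom.ext fun γ => by
  obtain ⟨n, hn, -, h1⟩ := Subgroup.exists_pow_mem_of_index_ne_zero hH γ.toMul
  have := e _ h1
  rw [ofMul_pow, map_nsmul, smul_eq_zero] at this
  exact this.resolve_left hn.ne'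

theorem GrpA_hb {Λ : Type} [Group Λ] {K S : Subgroup Λ} (hK : K.FG) (h : S ≤ K)
    (h' : S.relIndex K ≠ 0) : ∃ (b : ℕ) (c : S → Fin b → ℤ), HB c := by
  have : (S.subgroupOf K).FiniteIndex := ⟨h'⟩
  have := (Group.fg_iff_subgroup_fg K).2 hK
  have : Group.FG S := Group.fg_of_surjective (f := (Subgroup.subgroupOfEquivOfLe h).toMonoidHom)
    (Subgroup.subgroupOfEquivOfLe h).surjective
  exact exists_hb S

theorem exists_maxB {Λ : Type} [Group Λ] {K T : Subgroup Λ} [K.Normal] (hK : K.FG)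
    (hT : T.relIndex K ≠ 0) {n : ℕ}
    (hn : ∀ S : Subgroup Λ, S.Normal → S ≤ T → S ≤ K → S.relIndex K ≠ 0 →
      ∀ (b : ℕ) (c : S → Fin b → ℤ), HB c → b ≤ n) :
    ∃ S : Subgroup Λ, S.Normal ∧ S ≤ T ∧ S ≤ K ∧ S.relIndex K ≠ 0 ∧ MaxB S := by
  let B : Set ℕ := {b | ∃ S : Subgroup Λ, (S.Normal ∧ S ≤ T ∧ S ≤ K ∧ S.relIndex K ≠ 0) ∧
    Module.finrank ℂ (Hm S) = b}
  have hB : BddAbove B := ⟨n, by
    rintro _ ⟨S, ⟨h1, h2, h3, h4⟩, rfl⟩
    obtain ⟨b, c, hc⟩ := GrpA_hb hK h3 h4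
    obtain ⟨e⟩ := GrpA_equiv hc
    rw [← e.finrank_eq, Module.finrank_fin_fun]
    exact hn S h1 h2 h3 h4 b c hc⟩
  obtain ⟨S, ⟨h1, h2, h3, h4⟩, h5⟩ : sSup B ∈ B :=
    Nat.sSup_mem ((exists_normal_le hK hT).elim fun S hS => ⟨_, S, hS, rfl⟩) hB
  refine ⟨S, h1, h2, h3, h4, fun S'' hS'' h => ?_⟩
  have h6 : (S''.map S.subtype).relIndex S ≠ 0 := by
    rw [Subgroup.relIndex, Subgroup.subgroupOf,
      Subgroup.comap_map_eq_self_of_injective S.subtype_injective]
    exact hS''.index_ne_zero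
  obtain ⟨S', k1, k2, k3, k4⟩ := exists_normal_le hK (Subgroup.relIndex_ne_zero_trans h6 h4)
  have k5 : S' ≤ S := k2.trans (Subgroup.map_subtype_le _)
  let r : Hm S →ₗ[ℂ] Hm S' :=
    { toFun := fun h => h.comp (MonoidHom.toAdditive (Subgroup.inclusion k5))
      map_add' := fun _ _ => rfl
      map_smul' := fun _ _ => rfl }
  have r1 : Function.Injective r := (injective_iff_map_eq_zero r).2 fun g hg =>
    GrpA_zero (H := S'.subgroupOf S) (mt (Subgroup.relIndex_eq_zero_of_le_right h3) k4)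
      fun γ hγ => DFunLike.congr_fun hg (Additive.ofMul ⟨γ, hγ⟩)
  obtain ⟨b, c, hc⟩ := GrpA_hb hK h3 h4
  obtain ⟨e⟩ := GrpA_equiv hc
  obtain ⟨b', c', hc'⟩ := GrpA_hb hK k3 k4
  obtain ⟨e'⟩ := GrpA_equiv hc'
  have := e.finiteDimensional
  have := e'.finiteDimensional
  have r2 := (LinearMap.injective_iff_surjective_of_finrank_eq_finrank (le_antisymm
    (LinearMap.finrank_le_finrank_of_injective r1)
    (h5 ▸ le_csSup hB ⟨S', ⟨k1, k5.trans h2, k3, k4⟩, rfl⟩))).1 r1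
  have k6 : ∀ x : S', Subgroup.inclusion k5 x ∈ S'' := fun x => by
    obtain ⟨y, hy, e⟩ := k2 x.2
    exact (Subtype.ext e : y = Subgroup.inclusion k5 x) ▸ hy
  obtain ⟨g, hg⟩ := r2 (h.comp (MonoidHom.toAdditive ((Subgroup.inclusion k5).codRestrict S'' k6)))
  have k7 : (S'.comap (S.subtype.comp S''.subtype)).index ≠ 0 := by
    rw [Subgroup.index_comap]
    refine mt (Subgroup.relIndex_eq_zero_of_le_right ?_) k4
    rintro _ ⟨x, rfl⟩
    exact h3 x.1.2
  have k8 := GrpA_zero k7 (h := g.comp (MonoidHom.toAdditive S''.subtype) - h) fun γ hγ =>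
    sub_eq_zero.2 (DFunLike.congr_fun hg (Additive.ofMul ⟨γ, hγ⟩))
  exact ⟨g, fun s => sub_eq_zero.1 (DFunLike.congr_fun k8 (Additive.ofMul s))⟩

theorem GrpA_mat {Γ : Type} [Group Γ] {b : ℕ} {c : Γ → Fin b → ℤ} (hc : HB c) (φ : MulAut Γ) :
    ∃ A : Matrix (Fin b) (Fin b) ℤ, ∀ γ, c (φ γ) = A *ᵥ c γ := by
  choose g hg using fun j => hc.surj (Pi.single j 1)
  refine ⟨Matrix.of fun i j => c (φ (g j)) i, fun γ => funext fun i => ?_⟩
  obtain ⟨v, hv⟩ := hc.span (AddMonoidHom.mk' (fun γ => (c (φ γ.toMul) i : ℂ)) fun γ γ' => by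
    simp [hc.mul])
  have h1 : ∀ j, (c (φ (g j)) i : ℂ) = v j := fun j => by
    simpa [hg, Pi.single_apply] using hv (g j)
  refine Int.cast_injective (α := ℂ) ((hv γ).trans ?_)
  simp [Matrix.mulVec, dotProduct, h1]

theorem HB.exists_matrix {Γ : Type} [Group Γ] {b : ℕ} {c : Γ → Fin b → ℤ} (hc : HB c)
    (φ : MulAut Γ) : ∃ A : Matrix (Fin b) (Fin b) ℤ, (∀ γ, c (φ γ) = A *ᵥ c γ) ∧ A.det ^ 2 = 1 := by
  obtain ⟨A, hA⟩ := GrpA_mat hc φ
  obtain ⟨A', hA'⟩ := GrpA_mat hc φ⁻¹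
  have h1 : A * A' = 1 := Matrix.ext_of_mulVec_single fun j => by
    obtain ⟨γ, hγ⟩ := hc.surj (Pi.single j 1)
    rw [← hγ, ← mulVec_mulVec, ← hA', ← hA, one_mulVec, MulAut.apply_inv_self]
  exact ⟨A, hA, Int.isUnit_sq (isUnit_det_of_right_inverse h1)⟩


theorem HB.finrank_hm {Γ : Type} [Group Γ] {b : ℕ} {c : Γ → Fin b → ℤ} (hc : HB c) :
    Module.finrank ℂ (Hm Γ) = b := by
  obtain ⟨e⟩ := GrpA_equiv hc
  rw [← e.finrank_eq, Module.finrank_fin_fun]

end SX4
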