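import Pool.Agent.P.MP_0a0487_an.SX.SysDefs
import Pool.Agent.P.MP_0a0487_an.SX.GrpA

/-! Deck transformations act trivially on cohomology. -/

set_option autoImplicit false
set_option linter.unusedSectionVars false

noncomputable section

namespace SX4

open scoped ComplexOrder ContDiff
open Filter Topology Matrix

variable {Y Λ : Type} [TopologicalSpace Y] [Group Λ] {V0 V1 V2 : Type} [AddCommGroup V0]
  [Module ℂ V0] [AddCommGroup V1] [Module ℂ V1] [AddCommGroup V2] [Module ℂ V2]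
  {c : Cx V0 V1 V2} {deg : Λ →* Multiplicative ℤ} {S : Subgroup Λ} [S.Normal]
  {D : Λ →* (Y ≃ₜ Y)} {p : c.Per S} {m : Λ → c.Mor}

/-- The period map on cohomology classes. -/
def GrpB_pH (p : c.Per S) : c.H1 →ₗ[ℂ] Hm S :=
  Submodule.liftQ _ p.per fun a ha => (p.ker a).2 ha

theorem GrpB_inj (p : c.Per S) : Function.Injective (GrpB_pH p) := by
  rw [injective_iff_map_eq_zero]
  intro x hx
  obtain ⟨a, rfl⟩ := Submodule.Quotient.mk_surjective _ x
  exact (Submodule.Quotient.mk_eq_zero _).2 ((p.ker a).1 hx)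

theorem GrpB_surj (p : c.Per S) : Function.Surjective (GrpB_pH p) := by
  intro y
  obtain ⟨a, rfl⟩ := p.surj y
  exact ⟨Submodule.Quotient.mk a, rfl⟩

theorem GrpB_eqv (h : Pk c deg S D p m) (l : Λ) (x : c.H1) (s : S) :
    GrpB_pH p ((m l).h1 x) (Additive.ofMul s) =
      GrpB_pH p x (Additive.ofMul (MulAut.conjNormal l s)) := by
  obtain ⟨a, rfl⟩ := Submodule.Quotient.mk_surjective _ x
  exact h.eqv l a s

theorem GrpB_ext (h : Pk c deg S D p m) {l : Λ} {g : c.H1 →ₗ[ℂ] c.H1}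
    (hg : ∀ x (s : S), GrpB_pH p x (Additive.ofMul (MulAut.conjNormal l s)) =
      GrpB_pH p (g x) (Additive.ofMul s)) : (m l).h1 = g := by
  refine LinearMap.ext fun x => GrpB_inj p (AddMonoidHom.ext fun s => ?_)
  exact (GrpB_eqv h l x s.toMul).trans (hg x s.toMul)

theorem GrpB_mul1 (h : Pk c deg S D p m) (l l' : Λ) :
    (m (l * l')).h1 = (m l').h1 ∘ₗ (m l).h1 := by
  refine GrpB_ext h fun x s => ?_
  rw [LinearMap.comp_apply, GrpB_eqv h, GrpB_eqv h, map_mul, MulAut.mul_apply]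

theorem GrpB_one1 (h : Pk c deg S D p m) {S₀ : Subgroup Λ} (hle : S ≤ S₀)
    (hfin : S.relIndex S₀ ≠ 0) (hm : MaxB S₀) {γ : Λ} (hγ : γ ∈ S₀) :
    (m γ).h1 = LinearMap.id := by
  refine GrpB_ext h fun x s => ?_
  rw [LinearMap.id_apply]
  obtain ⟨h', hh⟩ := hm (S.subgroupOf S₀) ⟨hfin⟩ ((GrpB_pH p x).comp
    (MonoidHom.toAdditive (Subgroup.subgroupOfEquivOfLe hle).toMonoidHom))
  have h1 : ∀ s : S, h' (Additive.ofMul ⟨s.1, hle s.2⟩) = GrpB_pH p x (Additive.ofMul s) :=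
    fun s => hh ⟨⟨s.1, hle s.2⟩, s.2⟩
  rw [← h1, ← h1]
  have e : (⟨(MulAut.conjNormal γ s).1, hle (MulAut.conjNormal γ s).2⟩ : S₀) =
      ⟨γ, hγ⟩ * ⟨s.1, hle s.2⟩ * ⟨γ, hγ⟩⁻¹ := Subtype.ext (by simp)
  rw [e, ofMul_mul, ofMul_mul, ofMul_inv, map_add, map_add, map_neg]
  ring

theorem GrpB_eq_one {W : Type} [AddCommGroup W] [Module ℂ W] [FiniteDimensional ℂ W]
    {T : Module.End ℂ W} {N : ℕ} (hN : 0 < N) (hT : T ^ N = 1)
    (ht : ∀ i, LinearMap.trace ℂ W (T ^ i) = Module.finrank ℂ W) : T = 1 := by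
  have hN' : (N : ℂ) ≠ 0 := by exact_mod_cast hN.ne'
  obtain ⟨Q, hQ⟩ : ∃ Q, Q = ∑ i ∈ Finset.range N, T ^ i := ⟨_, rfl⟩
  have h1 : T * Q = Q := by
    have h2 := mul_geom_sum T N
    rw [hT, sub_self, ← hQ, sub_mul, one_mul, sub_eq_zero] at h2
    exact h2
  have h2 : ∀ i, T ^ i * Q = Q := by
    intro i
    induction i with
    | zero => simp
    | succ i ih => rw [pow_succ, mul_assoc, h1, ih]
  have h3 : Q * Q = (N : ℂ) • Q := by
    nth_rewrite 1 [hQ]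
    rw [Finset.sum_mul]
    simp [h2, Nat.cast_smul_eq_nsmul]
  have h4 : IsIdempotentElem ((N : ℂ)⁻¹ • Q) := by
    unfold IsIdempotentElem
    rw [smul_mul_smul_comm, h3, smul_smul, mul_assoc, inv_mul_cancel₀ hN', mul_one]
  have h5 : LinearMap.trace ℂ W (1 - (N : ℂ)⁻¹ • Q) = 0 := by
    rw [map_sub, map_smul, hQ, map_sum, LinearMap.trace_one]
    simp only [ht, Finset.sum_const, Finset.card_range, nsmul_eq_mul, smul_eq_mul]
    field_simp
    ring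
  have h6 := LinearMap.IsIdempotentElem.eq_zero_of_trace_eq_zero h4.one_sub h5
  rw [sub_eq_zero] at h6
  calc T = T * ((N : ℂ)⁻¹ • Q) := by rw [← h6, mul_one]
    _ = 1 := by rw [mul_smul_comm, h1, ← h6]

theorem Pk.h1_pow (h : Pk c deg S D p m) (l : Λ) (n : ℕ) : (m (l ^ n)).h1 = (m l).h1 ^ n := by
  induction n with
  | zero => rw [pow_zero, pow_zero]; exact GrpB_ext h (fun x s => by simp)
  | succ n ih => rw [pow_succ, GrpB_mul1 h, ih, pow_succ']; rfl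

theorem Pk.h2_pow (h : Pk c deg S D p m) (l : Λ) (n : ℕ) : (m (l ^ n)).h2 = (m l).h2 ^ n := by
  induction n with
  | zero => rw [pow_zero, pow_zero]; exact h.one2 1 S.one_mem
  | succ n ih => rw [pow_succ, h.mul2, ih, pow_succ']; rfl

theorem Pk.card_eq (h : Pk c deg S D p m) {b : ℕ} {cc : S → Fin b → ℤ} (hc : HB cc)
    (h2 : Module.finrank ℂ c.H2 + 2 = 2 * b) {S₀ : Subgroup Λ} [S₀.Normal] (hle : S ≤ S₀)
    (hk : S₀ ≤ deg.ker) (hfin : S.relIndex S₀ ≠ 0) (hm : MaxB S₀)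
    (hfree : ∀ γ ∈ S₀, γ ∉ S → ∀ x, D γ x ≠ x) {γ l : Λ} (hγ : γ ∈ S₀) (hl : 0 < (deg l).toAdd) :
    Nat.card (Function.fixedPoints (D (γ * l))) = Nat.card (Function.fixedPoints (D l)) := by
  have := h.fd1
  have := h.fd2
  have e1 : ∀ δ ∈ S₀, (m δ).h1 = LinearMap.id := fun δ hδ => GrpB_one1 h hle hfin hm hδ
  have hb : Module.finrank ℂ c.H1 = b := by
    rw [← hc.finrank_hm]
    exact (LinearEquiv.ofBijective (GrpB_pH p) ⟨GrpB_inj p, GrpB_surj p⟩).finrank_eq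
  have ht : ∀ δ ∈ S₀, LinearMap.trace ℂ _ (m δ).h2 = Module.finrank ℂ c.H2 := by
    intro δ hδ
    by_cases hS : δ ∈ S
    · rw [h.one2 δ hS, LinearMap.trace_id]
    · have h3 := (h.lef δ (Or.inr ⟨hk hδ, hS⟩)).2
      have h4 : Function.fixedPoints (D δ) = ∅ :=
        Set.eq_empty_of_forall_notMem fun x hx => hfree δ hδ hS x hx
      rw [h4, Cx.Mor.lef, e1 δ hδ, e1 δ⁻¹ (S₀.inv_mem hδ), LinearMap.trace_id, hb] at h3
      have h5 : (Module.finrank ℂ c.H2 : ℂ) + 2 = 2 * b := by exact_mod_cast h2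
      simp only [Nat.card_eq_fintype_card, Fintype.card_eq_zero, Nat.cast_zero] at h3
      linear_combination -h3 - h5
  have e2 : (m γ).h2 = LinearMap.id := by
    obtain ⟨N, hN, -, hγN⟩ := Subgroup.exists_pow_mem_of_relIndex_ne_zero hfin hγ
    refine GrpB_eq_one hN ?_ fun i => ?_
    · rw [← h.h2_pow]
      exact h.one2 _ hγN.1
    · rw [← h.h2_pow]
      exact ht _ (S₀.pow_mem hγ i)
  have hd : 0 < (deg (γ * l)).toAdd := by
    rw [map_mul, MonoidHom.mem_ker.1 (hk hγ), one_mul]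
    exact hl
  have h3 := (h.lef _ (Or.inl hd)).2
  have h4 := (h.lef _ (Or.inl hl)).2
  rw [Cx.Mor.lef, _root_.mul_inv_rev, GrpB_mul1 h, GrpB_mul1 h, h.mul2, e2, e1 γ hγ,
    e1 γ⁻¹ (S₀.inv_mem hγ), LinearMap.comp_id, LinearMap.comp_id, LinearMap.id_comp] at h3
  rw [Cx.Mor.lef, ← h3] at h4
  exact_mod_cast h4.symm

end SX4
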