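import Pool.Agent.P.MP_0a0487_an.SX.CxDefs

/-! Counting fixed points in Nielsen classes. -/

set_option autoImplicit false
set_option linter.unusedSectionVars false

noncomputable section

namespace SX4

open scoped ComplexOrder ContDiff
open Filter Topology Matrix

section

variable {U Λ : Type} [Group Λ] [MulAction Λ U]

theorem GrpC_quot (U : Type) [MulAction Λ U] (T : Subgroup Λ) : ∃ (Y : Type) (q : U → Y),
    ∀ x y, q x = q y ↔ ∃ s ∈ T, x = s • y := by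
  refine ⟨MulAction.orbitRel.Quotient T U, Quotient.mk _, fun x y => ?_⟩
  rw [Quotient.eq, MulAction.orbitRel_apply]
  exact ⟨fun ⟨s, hs⟩ => ⟨s, s.2, hs.symm⟩, fun ⟨s, hs, e⟩ => ⟨⟨s, hs⟩, e.symm⟩⟩

theorem GrpC_free {B : Subgroup Λ} (free : ∀ γ ∈ B, ∀ x : U, γ • x = x → γ = 1) {a b : Λ}
    (ha : a ∈ B) (hb : b ∈ B) {x : U} (h : a • x = b • x) : a = b := by
  have h1 := free (b⁻¹ * a) (B.mul_mem (B.inv_mem hb) ha) x (by rw [mul_smul, h, inv_smul_smul])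
  exact (inv_mul_eq_one.1 h1).symm

theorem GrpC_fib {YA YB Q : Type} {A B : Subgroup Λ} (hAB : A ≤ B)
    (free : ∀ γ ∈ B, ∀ x : U, γ • x = x → γ = 1) {qA : U → YA} {qB : U → YB}
    (eA : ∀ x y, qA x = qA y ↔ ∃ s ∈ A, x = s • y) (eB : ∀ x y, qB x = qB y ↔ ∃ s ∈ B, x = s • y)
    (r : Q → Λ) (r1 : ∀ c, r c ∈ B) (r2 : ∀ b ∈ B, ∃ c, ∃ a ∈ A, b = a * r c)
    (r3 : ∀ c c', ∀ a ∈ A, r c = a * r c' → c = c') {V : Set U}
    (hV : ∀ b ∈ B, ∀ x ∈ V, b • x ∈ V) :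
    Nat.card (qA '' V) = Nat.card Q * Nat.card (qB '' V) := by
  choose sec hs1 hs2 using fun z : qB '' V => z.2
  let f : Q × (qB '' V) → YA := fun z => qA (r z.1 • sec z.2)
  have hf : Function.Injective f := by
    rintro ⟨c, z⟩ ⟨c', z'⟩ h
    obtain ⟨a, ha, h⟩ := (eA _ _).1 h
    have h1 : z = z' := Subtype.ext (by
      rw [← hs2 z, ← hs2 z', eB]
      refine ⟨(r c)⁻¹ * a * r c', B.mul_mem (B.mul_mem (B.inv_mem (r1 c)) (hAB ha)) (r1 c'), ?_⟩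
      rw [mul_smul, mul_smul, ← h, inv_smul_smul])
    subst h1
    rw [← mul_smul] at h
    exact Prod.ext (r3 c c' a ha (GrpC_free free (r1 c) (B.mul_mem (hAB ha) (r1 c')) h)) rfl
  have hr : Set.range f = qA '' V := by
    ext y
    constructor
    · rintro ⟨⟨c, z⟩, rfl⟩
      exact ⟨_, hV _ (r1 c) _ (hs1 z), rfl⟩
    · rintro ⟨v, hv, rfl⟩
      obtain ⟨b, hb, e⟩ := (eB _ _).1 (hs2 ⟨qB v, v, hv, rfl⟩).symm
      obtain ⟨c, a, ha, rfl⟩ := r2 b hb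
      exact ⟨(c, ⟨qB v, v, hv, rfl⟩), ((eA _ _).2 ⟨a, ha, by rw [← mul_smul]; exact e⟩).symm⟩
  rw [← hr, Nat.card_range_of_injective hf, Nat.card_prod]

theorem GrpC_core {Y YT : Type} {S T : Subgroup Λ} [S.Normal] (hle : S ≤ T)
    (hfin : S.relIndex T ≠ 0) (free : ∀ γ ∈ T, ∀ x : U, γ • x = x → γ = 1) {q : U → Y}
    {qT : U → YT} (hq : Function.Surjective q) (e : ∀ x y, q x = q y ↔ ∃ s ∈ S, x = s • y)
    (eT : ∀ x y, qT x = qT y ↔ ∃ s ∈ T, x = s • y) {D : Λ → Y → Y}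
    (hD : ∀ l x, D l (q x) = q (l • x)) (l : Λ) (hl : ∀ γ ∈ T, l * γ * l⁻¹ ∈ T) {n : ℕ}
    (hn : ∀ γ ∈ T, (Function.fixedPoints (D (γ * l))).Finite ∧
      Nat.card (Function.fixedPoints (D (γ * l))) = n) :
    Nat.card (qT '' {x | ∃ t ∈ T, x = t • l • x}) = n := by
  let Q := T ⧸ S.subgroupOf T
  have : Finite Q := Nat.finite_of_card_ne_zero hfin
  have := Fintype.ofFinite Q
  let r : Q → Λ := fun c => (c.out : T)
  have r1 : ∀ c, r c ∈ T := fun c => c.out.2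
  have r2 : ∀ b ∈ T, ∃ c, ∃ a ∈ S, b = a * r c := fun b hb => by
    obtain ⟨s, hs⟩ := QuotientGroup.mk_out_eq_mul (S.subgroupOf T) ⟨b, hb⟩
    refine ⟨QuotientGroup.mk ⟨b, hb⟩, b * ((s : T) : Λ)⁻¹ * b⁻¹,
      Subgroup.Normal.conj_mem inferInstance _ (S.inv_mem s.2) b, ?_⟩
    have h1 : r (QuotientGroup.mk ⟨b, hb⟩) = b * (s : T) := congrArg Subtype.val hs
    rw [h1]
    group
  have r3 : ∀ c c', ∀ a ∈ S, r c = a * r c' → c = c' := fun c c' a ha h => by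
    rw [← QuotientGroup.out_eq' c, ← QuotientGroup.out_eq' c', QuotientGroup.eq,
      Subgroup.mem_subgroupOf]
    change (r c)⁻¹ * r c' ∈ S
    have h1 : (r c)⁻¹ * r c' = (r c')⁻¹ * a⁻¹ * (r c')⁻¹⁻¹ := by
      rw [h]
      group
    rw [h1]
    exact Subgroup.Normal.conj_mem inferInstance _ (S.inv_mem ha) _
  have h1 := GrpC_fib hle free e eT r r1 r2 r3 (V := {x | ∃ t ∈ T, x = t • l • x}) (by
    rintro b hb x ⟨t, ht, hx⟩
    refine ⟨b * t * (l * b⁻¹ * l⁻¹), T.mul_mem (T.mul_mem hb ht) (hl _ (T.inv_mem hb)), ?_⟩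
    simp only [mul_smul, inv_smul_smul]
    rw [← hx])
  let g : (Σ c : Q, Function.fixedPoints (D (r c * l))) → Y := fun z => z.2
  have hg : Function.Injective g := by
    rintro ⟨c, y, hy⟩ ⟨c', y', hy'⟩ (rfl : y = y')
    obtain ⟨x, rfl⟩ := hq y
    have h2 : q ((r c * l) • x) = q ((r c' * l) • x) := by
      rw [← hD, ← hD, hy, hy']
    obtain ⟨a, ha, h3⟩ := (e _ _).1 h2
    rw [mul_smul, mul_smul, ← mul_smul a] at h3
    obtain rfl := r3 c c' a ha (GrpC_free free (r1 c) (T.mul_mem (hle ha) (r1 c')) h3)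
    rfl
  have hr : Set.range g = q '' {x | ∃ t ∈ T, x = t • l • x} := by
    ext y
    constructor
    · rintro ⟨⟨c, y, hy⟩, rfl⟩
      obtain ⟨x, rfl⟩ := hq y
      obtain ⟨a, ha, h3⟩ := (e _ _).1 (hy.eq.symm.trans (hD _ _))
      exact ⟨x, ⟨a * r c, T.mul_mem (hle ha) (r1 c), by simpa only [mul_smul] using h3⟩, rfl⟩
    · rintro ⟨x, ⟨t, ht, hx⟩, rfl⟩
      obtain ⟨c, a, ha, rfl⟩ := r2 t ht
      refine ⟨⟨c, q x, ?_⟩, rfl⟩
      exact (hD _ _).trans ((e _ _).2 ⟨a, ha, by simpa only [mul_smul] using hx⟩).symm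
  have : ∀ c : Q, Finite (Function.fixedPoints (D (r c * l))) := fun c => (hn _ (r1 c)).1
  rw [← hr, Nat.card_range_of_injective hg, Nat.card_sigma,
    Finset.sum_congr rfl fun c _ => (hn _ (r1 c)).2, Finset.sum_const, Finset.card_univ,
    smul_eq_mul, ← Nat.card_eq_fintype_card] at h1
  exact (Nat.eq_of_mul_eq_mul_left (Nat.pos_of_ne_zero hfin) h1).symm

end

theorem nielsen {U Y Y₀ Λ : Type} [Group Λ] [MulAction Λ U] {S S₀ : Subgroup Λ} [S.Normal]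
    [S₀.Normal] (hle : S ≤ S₀) (hfin : S.relIndex S₀ ≠ 0)
    (free : ∀ γ ∈ S₀, ∀ x : U, γ • x = x → γ = 1) {q : U → Y} {q₀ : U → Y₀}
    (hq : Function.Surjective q) (hq₀ : Function.Surjective q₀)
    (e : ∀ x y, q x = q y ↔ ∃ s ∈ S, x = s • y) (e₀ : ∀ x y, q₀ x = q₀ y ↔ ∃ s ∈ S₀, x = s • y)
    {D : Λ → Y → Y} {D₀ : Λ → Y₀ → Y₀} (hD : ∀ l x, D l (q x) = q (l • x))
    (hD₀ : ∀ l x, D₀ l (q₀ x) = q₀ (l • x)) (l : Λ) {n : ℕ}
    (hn : ∀ γ ∈ S₀, (Function.fixedPoints (D (γ * l))).Finite ∧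
      Nat.card (Function.fixedPoints (D (γ * l))) = n) :
    Nat.card (Function.fixedPoints (D₀ l)) = n ∧
    (0 < n → ∀ γ ∈ S₀, ∃ (x : U), ∃ s ∈ S, l • x = (γ * s) • x) ∧
    ∀ T : Subgroup S₀, T.Normal → S.subgroupOf S₀ ≤ T →
      (∀ γ ∈ T, MulAut.conjNormal l γ ∈ T) → fixCard (MulAut.conjNormal l) T ∣ n := by
  refine ⟨?_, fun h0 γ hγ => ?_, fun T hT hST hl => ?_⟩
  · rw [← GrpC_core hle hfin free hq e e₀ hD l
      (fun γ hγ => Subgroup.Normal.conj_mem inferInstance γ hγ l) hn]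
    congr 2
    ext y
    obtain ⟨x, rfl⟩ := hq₀ y
    constructor
    · intro h
      exact ⟨x, (e₀ _ _).1 (h.eq.symm.trans (hD₀ _ _)), rfl⟩
    · rintro ⟨x', hx', h⟩
      rw [← h]
      exact (hD₀ _ _).trans ((e₀ _ _).2 hx').symm
  · rw [← (hn γ⁻¹ (S₀.inv_mem hγ)).2] at h0
    obtain ⟨⟨y, hy⟩, -⟩ := Nat.card_pos_iff.1 h0
    obtain ⟨x, rfl⟩ := hq y
    obtain ⟨s, hs, h⟩ := (e _ _).1 ((hD _ _).symm.trans hy.eq)
    exact ⟨x, s, hs, by rw [mul_smul, ← h, mul_smul, smul_inv_smul]⟩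
  · let φ : S₀ →* S₀ := (MulAut.conjNormal l : MulAut S₀).toMonoidHom
    let H : Subgroup S₀ := MonoidHom.eqLocus ((QuotientGroup.mk' T).comp φ) (QuotientGroup.mk' T)
    have mH : ∀ γ : S₀, γ ∈ H ↔ ((MulAut.conjNormal l γ : S₀) : S₀ ⧸ T) = γ := fun _ => Iff.rfl
    have hTH : T ≤ H := fun γ hγ => by
      rw [mH, (QuotientGroup.eq_one_iff _).2 hγ, (QuotientGroup.eq_one_iff _).2 (hl γ hγ)]
    have hA : ∀ (K : Subgroup S₀), K.map S₀.subtype ≤ S₀ := fun K => Subgroup.map_subtype_le K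
    have hSA : S ≤ T.map S₀.subtype := fun s hs => ⟨⟨s, hle hs⟩, hST hs, rfl⟩
    obtain ⟨YA, qA, eA⟩ := GrpC_quot U (T.map S₀.subtype)
    obtain ⟨YB, qB, eB⟩ := GrpC_quot U (H.map S₀.subtype)
    have h1 := GrpC_core hSA (fun h => hfin (Subgroup.relIndex_eq_zero_of_le_right (hA T) h))
      (fun γ hγ => free γ (hA T hγ)) hq e eA hD l (by
        rintro _ ⟨γ, hγ, rfl⟩
        exact ⟨_, hl γ hγ, rfl⟩) fun γ hγ => hn γ (hA T hγ)
    choose r hr1 hr2 using fun z : {z : S₀ ⧸ T // ∃ γ : S₀, (γ : S₀ ⧸ T) = z ∧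
      ((MulAut.conjNormal l γ : S₀) : S₀ ⧸ T) = z} => z.2
    have h2 := GrpC_fib (Subgroup.map_mono hTH) (fun γ hγ => free γ (hA H hγ)) eA eB
      (fun z => (r z : Λ)) (fun z => ⟨r z, (mH _).2 ((hr2 z).trans (hr1 z).symm), rfl⟩) (by
        rintro _ ⟨b, hb, rfl⟩
        refine ⟨⟨b, b, rfl, hb⟩, _, ⟨b * (r ⟨b, b, rfl, hb⟩)⁻¹, ?_, rfl⟩, by simp⟩
        rw [SetLike.mem_coe, ← QuotientGroup.eq_one_iff, QuotientGroup.mk_mul, QuotientGroup.mk_inv,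
          hr1, mul_inv_cancel]) (by
        rintro c c' _ ⟨a, ha, rfl⟩ h
        have h3 : r c = a * r c' := Subtype.ext h
        apply Subtype.ext
        rw [← hr1 c, ← hr1 c', h3, QuotientGroup.mk_mul, (QuotientGroup.eq_one_iff _).2 ha,
          one_mul]) (V := {x | ∃ t ∈ T.map S₀.subtype, x = t • l • x}) (by
        rintro _ ⟨b, hb, rfl⟩ x ⟨_, ⟨t, ht, rfl⟩, hx⟩
        refine ⟨_, ⟨b * t * (MulAut.conjNormal l b)⁻¹, ?_, rfl⟩, ?_⟩
        · rw [SetLike.mem_coe, ← QuotientGroup.eq_one_iff, QuotientGroup.mk_mul,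
            QuotientGroup.mk_mul, QuotientGroup.mk_inv, (mH b).1 hb,
            (QuotientGroup.eq_one_iff _).2 ht, mul_one, mul_inv_cancel]
        · simp only [Subgroup.coe_subtype, Subgroup.coe_mul, Subgroup.coe_inv,
            MulAut.conjNormal_apply, _root_.mul_inv_rev, inv_inv, mul_smul, inv_smul_smul] at hx ⊢
          rw [← hx])
    rw [h1] at h2
    exact ⟨_, h2⟩

end SX4
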