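import Pool.Agent.P.MP_0a0487_an.SX.Defs

/-! A smooth retraction onto idempotents. -/

set_option autoImplicit false
set_option linter.unusedSectionVars false

noncomputable section

namespace SX4

open scoped ContDiff
open Filter Topology Matrix

theorem idem_sqrt (R : Type) [NormedRing R] [NormedAlgebra ℝ R] [CompleteSpace R] :
    ∃ r : R → R, ContDiffAt ℝ ω r 1 ∧ r 1 = 1 ∧ ∀ᶠ y in 𝓝 (1 : R), r y * r y = y := by
  have hf : ContDiffAt ℝ ω (fun y : R => y * y) 1 := contDiffAt_id.mul contDiffAt_id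
  let e : R ≃L[ℝ] R := ContinuousLinearEquiv.equivOfInverse
    ((2 : ℝ) • ContinuousLinearMap.id ℝ R) ((2 : ℝ)⁻¹ • ContinuousLinearMap.id ℝ R)
    (fun x => by simp [smul_smul]) (fun x => by simp [smul_smul])
  have hd : HasFDerivAt (fun y : R => y * y) (e : R →L[ℝ] R) 1 := by
    refine ((hasFDerivAt_id (1 : R)).mul' (hasFDerivAt_id (1 : R))).congr_fderiv ?_
    ext v
    show (1 : R) * v + v * 1 = (2 : ℝ) • v
    rw [one_mul, mul_one, two_smul]
  have h1 := hf.to_localInverse hd (by simp)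
  have h2 := hf.localInverse_apply_image hd (by simp)
  have h3 := (hf.hasStrictFDerivAt' hd (by simp)).eventually_right_inverse
  simp only [mul_one] at h1 h2 h3
  exact ⟨_, h1, h2, h3⟩

theorem idem_comm {R : Type} [NormedRing R] [NormedAlgebra ℝ R] {s y : R} (hs : ‖s - 1‖ < 1)
    (h : y * (s * s) = s * s * y) : y * s = s * y := by
  have e : (2 : ℝ) • (y * s - s * y) =
      -((s - 1) * (y * s - s * y) + (y * s - s * y) * (s - 1)) := by
    rw [two_smul]
    have : (s - 1) * (y * s - s * y) + (y * s - s * y) * (s - 1) =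
        (y * (s * s) - s * s * y) - ((y * s - s * y) + (y * s - s * y)) := by noncomm_ring
    rw [this, h, sub_self, zero_sub, neg_neg]
  have h1 := congrArg norm e
  rw [norm_smul, norm_neg, Real.norm_ofNat] at h1
  have h2 := norm_add_le ((s - 1) * (y * s - s * y)) ((y * s - s * y) * (s - 1))
  have h3 := norm_mul_le (s - 1) (y * s - s * y)
  have h4 := norm_mul_le (y * s - s * y) (s - 1)
  rw [← sub_eq_zero, ← norm_le_zero_iff]
  nlinarith [norm_nonneg (y * s - s * y)]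

theorem idem_rho (R : Type) [NormedRing R] [NormedAlgebra ℝ R] [CompleteSpace R] :
    ∃ (ρ : R → R) (η C : ℝ), 0 < η ∧ 0 ≤ C ∧ ∀ u : R, ‖u‖ < η → ContDiffAt ℝ ∞ ρ u ∧
      ρ u * ρ u * (1 + (4 : ℝ) • u) = 1 ∧ (1 + (4 : ℝ) • u) * (ρ u * ρ u) = 1 ∧ ‖ρ u - 1‖ < 1 ∧
        ‖ρ u - 1‖ ≤ C * ‖u‖ := by
  obtain ⟨r, h1, h2, h3⟩ := idem_sqrt R
  have a1 : ContDiffAt ℝ ω (fun u : R => 1 + (4 : ℝ) • u) 0 :=
    contDiffAt_const.add (contDiffAt_id.const_smul _)
  have a2 : ContDiffAt ℝ ω (fun u : R => Ring.inverse (1 + (4 : ℝ) • u)) 0 :=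
    ContDiffAt.comp (g := Ring.inverse) 0
      (by simpa using contDiffAt_ringInverse ℝ (n := ω) (1 : Rˣ)) a1
  have a3 : ContDiffAt ℝ ω (fun u : R => r (Ring.inverse (1 + (4 : ℝ) • u))) 0 :=
    ContDiffAt.comp (g := r) 0 (by simpa using h1) a2
  have t1 : Tendsto (fun u : R => 1 + (4 : ℝ) • u) (𝓝 0) (𝓝 1) := by
    simpa using a1.continuousAt.tendsto
  have t2 : Tendsto (fun u : R => Ring.inverse (1 + (4 : ℝ) • u)) (𝓝 0) (𝓝 1) := by
    simpa using a2.continuousAt.tendsto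
  have t3 : Tendsto (fun u : R => r (Ring.inverse (1 + (4 : ℝ) • u))) (𝓝 0) (𝓝 1) := by
    simpa [h2] using a3.continuousAt.tendsto
  obtain ⟨C, hC, b⟩ := (a3.differentiableAt (by simp)).isBigO_sub.exists_nonneg
  have b2 : ∀ᶠ u : R in 𝓝 0, ‖r (Ring.inverse (1 + (4 : ℝ) • u)) - 1‖ ≤ C * ‖u‖ := by
    simpa [h2] using b.bound
  obtain ⟨η, hη, H⟩ := Metric.eventually_nhds_iff.1 ((a3.eventually (by simp)).and
    ((t1.eventually (Units.isOpen.mem_nhds isUnit_one)).and ((t2.eventually h3).and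
    ((t3.eventually (Metric.ball_mem_nhds 1 one_pos)).and b2))))
  refine ⟨fun u => r (Ring.inverse (1 + (4 : ℝ) • u)), η, C, hη, hC, fun u hu => ?_⟩
  obtain ⟨c1, c2, c3, c4, c5⟩ := H (show dist u 0 < η by simpa using hu)
  refine ⟨c1.of_le le_top, ?_, ?_, by simpa [dist_eq_norm] using c4, c5⟩
  · rw [c3]; exact Ring.inverse_mul_cancel _ c2
  · rw [c3]; exact Ring.mul_inverse_cancel _ c2

theorem exists_idem (R : Type) [NormedRing R] [NormedAlgebra ℝ R] [CompleteSpace R] :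
    ∃ (pr : R → R) (η C : ℝ), 0 < η ∧ 0 ≤ C ∧ ∀ x : R, ‖x * x - x‖ < η →
      ContDiffAt ℝ ∞ pr x ∧ pr x * pr x = pr x ∧ (∀ y, y * x = x * y → y * pr x = pr x * y) ∧
        ‖pr x - x‖ ≤ C * (1 + ‖x‖) * ‖x * x - x‖ := by
  obtain ⟨ρ, η, C, hη, hC, H⟩ := idem_rho R
  refine ⟨fun x => (2 : ℝ)⁻¹ • 1 + (x - (2 : ℝ)⁻¹ • 1) * ρ (x * x - x), η, C, hη, hC,
    fun x hx => ?_⟩
  obtain ⟨h1, h2, h3, h4, h5⟩ := H _ hx
  have hc : ∀ y, y * x = x * y → y * ρ (x * x - x) = ρ (x * x - x) * y := by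
    intro y hy
    refine idem_comm h4 ?_
    have e : y * (1 + (4 : ℝ) • (x * x - x)) = (1 + (4 : ℝ) • (x * x - x)) * y := by
      rw [mul_add, add_mul, mul_one, one_mul, mul_smul_comm, smul_mul_assoc, mul_sub, sub_mul,
        ← mul_assoc, hy, mul_assoc, hy, mul_assoc]
    calc y * (ρ (x * x - x) * ρ (x * x - x))
        = ρ (x * x - x) * ρ (x * x - x) * (1 + (4 : ℝ) • (x * x - x)) * y *
          (ρ (x * x - x) * ρ (x * x - x)) := by rw [h2, one_mul]
      _ = ρ (x * x - x) * ρ (x * x - x) * y *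
          ((1 + (4 : ℝ) • (x * x - x)) * (ρ (x * x - x) * ρ (x * x - x))) := by
          rw [mul_assoc _ _ y, ← e]; simp only [mul_assoc]
      _ = _ := by rw [h3, mul_one]
  refine ⟨?_, ?_, fun y hy => ?_, ?_⟩
  · exact contDiffAt_const.add ((contDiffAt_id.sub contDiffAt_const).mul
      (ContDiffAt.comp (g := ρ) x h1 ((contDiffAt_id.mul contDiffAt_id).sub contDiffAt_id)))
  · have hx' := hc x rfl
    simp only []
    generalize ρ (x * x - x) = s at h3 hx'
    have e1 : (x - (2 : ℝ)⁻¹ • 1) * s * ((x - (2 : ℝ)⁻¹ • 1) * s) = (4 : ℝ)⁻¹ • 1 := by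
      have e2 : s * (x - (2 : ℝ)⁻¹ • 1) = (x - (2 : ℝ)⁻¹ • 1) * s := by
        rw [mul_sub, sub_mul, hx', mul_smul_comm, smul_mul_assoc, mul_one, one_mul]
      have e3 : (x - (2 : ℝ)⁻¹ • 1) * (x - (2 : ℝ)⁻¹ • 1) =
          (4 : ℝ)⁻¹ • (1 + (4 : ℝ) • (x * x - x)) := by
        simp only [mul_sub, sub_mul, mul_smul_comm, smul_mul_assoc, mul_one, one_mul]
        module
      rw [mul_assoc, ← mul_assoc s, e2, mul_assoc, ← mul_assoc, e3, smul_mul_assoc, h3]
    rw [add_mul, mul_add, mul_add, e1]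
    simp only [mul_smul_comm, smul_mul_assoc, mul_one, one_mul]
    module
  · simp only []
    rw [mul_add, add_mul, ← mul_assoc, mul_assoc _ _ y, ← hc y hy, ← mul_assoc, mul_sub, sub_mul x,
      hy]
    simp only [mul_smul_comm, smul_mul_assoc, mul_one, one_mul]
  · have e : (2 : ℝ)⁻¹ • 1 + (x - (2 : ℝ)⁻¹ • 1) * ρ (x * x - x) - x =
        x * (ρ (x * x - x) - 1) - (2 : ℝ)⁻¹ • (ρ (x * x - x) - 1) := by
      simp only [mul_sub x (ρ _), sub_mul, smul_mul_assoc, mul_one, one_mul]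
      module
    simp only []
    rw [e]
    refine (norm_sub_le _ _).trans ?_
    have h6 := norm_mul_le x (ρ (x * x - x) - 1)
    rw [norm_smul, norm_inv, Real.norm_ofNat]
    nlinarith [norm_nonneg x, norm_nonneg (ρ (x * x - x) - 1),
      mul_le_mul_of_nonneg_left h5 (norm_nonneg x)]

end SX4
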