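import Pool.Agent.P.MP_0a0487_an.SX.AtlDefs

/-! The integral of a Jacobian determinant of test functions vanishes. -/

set_option autoImplicit false

noncomputable section

namespace SX4

open scoped ContDiff
open Filter Topology MeasureTheory Matrix

theorem int_pd_smooth {φ : E4 → ℂ} (h : ContDiff ℝ ∞ φ) (j : Fin 4) : ContDiff ℝ ∞ (pd j φ) :=
  (h.fderiv_right (m := ∞) (by simp)).clm_apply contDiff_const

theorem int_mul {φ χ : E4 → ℂ} (h : ContDiff ℝ ∞ φ) (h' : ContDiff ℝ ∞ χ) :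
    ContDiff ℝ ∞ (φ * χ) := h.mul h'

theorem int_pd_mul {φ χ : E4 → ℂ} (h : ContDiff ℝ ∞ φ) (h' : ContDiff ℝ ∞ χ) (j : Fin 4) (y : E4) :
    pd j (φ * χ) y = pd j φ y * χ y + φ y * pd j χ y := by
  have d := ((h.differentiable (by simp) y).hasFDerivAt.mul
    (h'.differentiable (by simp) y).hasFDerivAt).fderiv
  rw [pd, d]
  simp only [_root_.add_apply, _root_.smul_apply, smul_eq_mul, pd]
  ring

theorem int_pd_pd {φ : E4 → ℂ} (h : ContDiff ℝ ∞ φ) (i j : Fin 4) (y : E4) :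
    pd i (pd j φ) y = fderiv ℝ (fderiv ℝ φ) y (Pi.single i 1) (Pi.single j 1) := by
  have d : DifferentiableAt ℝ (fderiv ℝ φ) y :=
    (h.fderiv_right (m := ∞) (by simp)).differentiable (by simp) y
  have e := (d.hasFDerivAt.clm_apply (hasFDerivAt_const (Pi.single j 1 : E4) y)).fderiv
  change fderiv ℝ (fun y => fderiv ℝ φ y (Pi.single j 1)) y (Pi.single i 1) = _
  rw [e]
  simp

theorem int_pd_comm {φ : E4 → ℂ} (h : ContDiff ℝ ∞ φ) (i j : Fin 4) (y : E4) :
    pd i (pd j φ) y = pd j (pd i φ) y := by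
  rw [int_pd_pd h, int_pd_pd h]
  refine (h.contDiffAt.isSymmSndFDerivAt ?_).eq _ _
  rw [minSmoothness_of_isRCLikeNormedField]
  exact WithTop.coe_le_coe.2 le_top

theorem int_pd_congr {φ χ : E4 → ℂ} {y : E4} (h : φ =ᶠ[𝓝 y] χ) (j : Fin 4) :
    pd j φ y = pd j χ y := by
  rw [pd, pd, h.fderiv_eq]

theorem int_integral_pd {φ : E4 → ℂ} (h : ContDiff ℝ ∞ φ) (hc : HasCompactSupport φ) (j : Fin 4) :
    Integrable (pd j φ) ∧ ∫ y, pd j φ y = 0 := by
  have h1 : Integrable (pd j φ) :=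
    (int_pd_smooth h j).continuous.integrable_of_hasCompactSupport (hc.fderiv_apply ℝ _)
  refine ⟨h1, ?_⟩
  have := integral_mul_fderiv_eq_neg_fderiv_mul_of_integrable (μ := volume)
    (f := fun _ : E4 => (1 : ℂ)) (g := φ) (v := Pi.single j 1)
    (by simp) (h1.congr (Eventually.of_forall fun x => (one_mul _).symm))
    (by simpa using h.continuous.integrable_of_hasCompactSupport hc)
    (fun _ _ => differentiableAt_const _) (fun x _ => h.differentiable (by simp) x)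
  simpa [pd] using this

theorem int_sum_sign (f : Equiv.Perm (Fin 4) → ℂ) {i j : Fin 4} (hij : i ≠ j)
    (h : ∀ σ, f (σ * Equiv.swap i j) = f σ) :
    ∑ σ : Equiv.Perm (Fin 4), ((Equiv.Perm.sign σ : ℤ) : ℂ) * f σ = 0 := by
  have e := Equiv.sum_comp (Equiv.mulRight (Equiv.swap i j))
    fun σ : Equiv.Perm (Fin 4) => ((Equiv.Perm.sign σ : ℤ) : ℂ) * f σ
  simp only [Equiv.coe_mulRight, h, Equiv.Perm.sign_mul, Equiv.Perm.sign_swap hij, mul_neg, mul_one,
    Units.val_neg, Int.cast_neg, neg_mul, Finset.sum_neg_distrib] at e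
  linear_combination (-1 / 2 : ℂ) * e

theorem int_det_eq {φ : Fin 4 → E4 → ℂ} (h : ∀ m, ContDiff ℝ ∞ (φ m)) (y : E4) :
    (Matrix.of fun m j => pd j (φ m) y).det =
      ∑ σ : Equiv.Perm (Fin 4), ((Equiv.Perm.sign σ : ℤ) : ℂ) *
        pd (σ 0) (φ 0 * (pd (σ 1) (φ 1) * (pd (σ 2) (φ 2) * pd (σ 3) (φ 3)))) y := by
  have s := fun m j => int_pd_smooth (h m) j
  have e1 := int_sum_sign (fun σ => φ 0 y * pd (σ 0) (pd (σ 1) (φ 1)) y * pd (σ 2) (φ 2) y *
    pd (σ 3) (φ 3) y) (i := 0) (j := 1) (by decide) fun σ => by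
      have a2 : Equiv.swap (0 : Fin 4) 1 2 = 2 := by decide
      have a3 : Equiv.swap (0 : Fin 4) 1 3 = 3 := by decide
      simp only [Equiv.Perm.mul_apply, Equiv.swap_apply_left, Equiv.swap_apply_right, a2, a3]
      rw [int_pd_comm (h 1)]
  have e2 := int_sum_sign (fun σ => φ 0 y * pd (σ 1) (φ 1) y * pd (σ 0) (pd (σ 2) (φ 2)) y *
    pd (σ 3) (φ 3) y) (i := 0) (j := 2) (by decide) fun σ => by
      have a2 : Equiv.swap (0 : Fin 4) 2 1 = 1 := by decide
      have a3 : Equiv.swap (0 : Fin 4) 2 3 = 3 := by decide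
      simp only [Equiv.Perm.mul_apply, Equiv.swap_apply_left, Equiv.swap_apply_right, a2, a3]
      rw [int_pd_comm (h 2)]
  have e3 := int_sum_sign (fun σ => φ 0 y * pd (σ 1) (φ 1) y * pd (σ 2) (φ 2) y *
    pd (σ 0) (pd (σ 3) (φ 3)) y) (i := 0) (j := 3) (by decide) fun σ => by
      have a2 : Equiv.swap (0 : Fin 4) 3 1 = 1 := by decide
      have a3 : Equiv.swap (0 : Fin 4) 3 2 = 2 := by decide
      simp only [Equiv.Perm.mul_apply, Equiv.swap_apply_left, Equiv.swap_apply_right, a2, a3]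
      rw [int_pd_comm (h 3)]
  rw [← Matrix.det_transpose, Matrix.det_apply', ← add_zero (∑ _, _), ← e1, ← add_zero (_ + _), ← e2,
    ← add_zero (_ + _ + _), ← e3]
  simp only [← Finset.sum_add_distrib]
  refine Finset.sum_congr rfl fun σ _ => ?_
  rw [int_pd_mul (h 0) (int_mul (s 1 _) (int_mul (s 2 _) (s 3 _))),
    int_pd_mul (s 1 _) (int_mul (s 2 _) (s 3 _)), int_pd_mul (s 2 _) (s 3 _), Fin.prod_univ_four]
  simp only [Matrix.transpose_apply, Matrix.of_apply, Pi.mul_apply]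
  ring

theorem int_det_zero {φ : Fin 4 → E4 → ℂ} (h : ∀ m, ContDiff ℝ ∞ (φ m))
    (hc : HasCompactSupport (φ 0)) : ∫ y, (Matrix.of fun m j => pd j (φ m) y).det = 0 := by
  have s := fun m j => int_pd_smooth (h m) j
  have t := fun σ : Equiv.Perm (Fin 4) => int_integral_pd
    (φ := φ 0 * (pd (σ 1) (φ 1) * (pd (σ 2) (φ 2) * pd (σ 3) (φ 3))))
    ((h 0).mul ((s 1 _).mul ((s 2 _).mul (s 3 _)))) hc.mul_right (σ 0)
  simp only [int_det_eq h]
  rw [integral_finsetSum _ fun σ _ => (t σ).1.const_mul _]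
  refine Finset.sum_eq_zero fun σ _ => ?_
  rw [integral_const_mul, (t σ).2, mul_zero]

end SX4
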