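import Pool.Agent.P.MP_0a0487_an.SX.AtlB

/-! Constants, generic sections, Taylor expansion, exactness of closed forms. -/

set_option autoImplicit false
set_option linter.unusedSectionVars false

noncomputable section

namespace SX4

open scoped ComplexOrder ContDiff
open Filter Topology Asymptotics

variable {P A : Type} [TopologicalSpace P] [CompactSpace P] [CommRing A] [StarRing A] [Algebra ℂ A]
  [StarModule ℂ A] {B : Base P A}

theorem misc_littleo {ι : Type} [Fintype ι] {f : E4 → ℂ} {e H : ι → E4 → ℂ} {y₀ : E4}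
    (hf : ContDiffAt ℝ ∞ f y₀) (he : ∀ k, ContDiffAt ℝ ∞ (e k) y₀)
    (hH : ∀ k, ContinuousAt (H k) y₀)
    (hd : fderiv ℝ f y₀ = ∑ k, H k y₀ • fderiv ℝ (e k) y₀) :
    (fun x : E4 × E4 => f x.1 - f x.2 - ∑ k, H k x.2 * (e k x.1 - e k x.2)) =o[𝓝 (y₀, y₀)]
      fun x => x.1 - x.2 := by
  have h1 := (hf.hasStrictFDerivAt (by simp)).isLittleO
  have c : ∀ k, Tendsto (fun x : E4 × E4 => H k x.2) (𝓝 (y₀, y₀)) (𝓝 (H k y₀)) := fun k =>
    (hH k).tendsto.comp continuousAt_snd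
  have h2 : (fun x : E4 × E4 => ∑ k, H k x.2 *
      (e k x.1 - e k x.2 - fderiv ℝ (e k) y₀ (x.1 - x.2))) =o[𝓝 (y₀, y₀)] fun x => x.1 - x.2 := by
    refine IsLittleO.fun_sum fun k _ => ?_
    have := ((c k).isBigO_one ℝ).mul_isLittleO
      ((he k).hasStrictFDerivAt (by simp)).isLittleO.norm_right
    simpa using this
  have h3 : (fun x : E4 × E4 => ∑ k, (H k x.2 - H k y₀) * fderiv ℝ (e k) y₀ (x.1 - x.2))
      =o[𝓝 (y₀, y₀)] fun x => x.1 - x.2 := by
    refine IsLittleO.fun_sum fun k _ => ?_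
    have := ((isLittleO_one_iff ℝ).2 (tendsto_sub_nhds_zero_iff.2 (c k))).mul_isBigO
      ((fderiv ℝ (e k) y₀).isBigO_comp (fun x : E4 × E4 => x.1 - x.2) _).norm_right
    simpa using this
  refine ((h1.sub h2).sub h3).congr_left fun x => ?_
  simp only [hd, ContinuousLinearMap.sum_apply, ContinuousLinearMap.smul_apply, smul_eq_mul,
    mul_sub, sub_mul, Finset.sum_sub_distrib]
  ring

theorem misc_im {f : E4 → ℂ} (h : ∀ y, (f y).im = 0) {y : E4} (hf : DifferentiableAt ℝ f y)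
    (v : E4) : (fderiv ℝ f y v).im = 0 := by
  have h1 := Complex.imCLM.hasFDerivAt.comp y hf.hasFDerivAt
  have h2 : (Complex.imCLM ∘ f) = fun _ => 0 := funext h
  rw [h2] at h1
  exact congrArg (fun L => L v) (h1.unique (hasFDerivAt_const 0 y))

/-- Generic matrices do not kill a smooth nowhere vanishing vector function. -/
theorem misc_generic {ι : Type} [Fintype ι] {m : ℕ} (O : ι → Set E4) (hO : ∀ i, Convex ℝ (O i))
    (t : ι → Fin (m + 1) → E4 → ℂ) (ht : ∀ i j, ContDiffOn ℝ ∞ (t i j) (O i))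
    (h0 : ∀ i, ∀ y ∈ O i, ∃ j, t i j y ≠ 0) :
    ∃ c : Fin 3 → Fin (m + 1) → ℂ, ∀ i, ∀ y ∈ O i, ∃ r, ∑ j, c r j * t i j y ≠ 0 := by
  let F : ι × Fin (m + 1) → E4 × (Fin 3 → Fin m → ℂ) → Fin 3 → Fin (m + 1) → ℂ :=
    fun ij x r => Fin.insertNth ij.2 (-∑ k, x.2 r k * t ij.1 (ij.2.succAbove k) x.1)
      fun k => x.2 r k * t ij.1 ij.2 x.1
  have hF : ∀ ij, ContDiffOn ℝ 1 (F ij) (O ij.1 ×ˢ Set.univ) := by
    rintro ⟨i, j⟩
    have h1 : ∀ l, ContDiffOn ℝ 1 (fun x : E4 × (Fin 3 → Fin m → ℂ) => t i l x.1)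
        (O i ×ˢ Set.univ) := fun l =>
      ((ht i l).of_le (by simp)).comp contDiff_fst.contDiffOn fun x hx => hx.1
    have h2 : ∀ r k, ContDiffOn ℝ 1 (fun x : E4 × (Fin 3 → Fin m → ℂ) => x.2 r k)
        (O i ×ˢ Set.univ) := fun r k => by fun_prop
    refine contDiffOn_pi.2 fun r => contDiffOn_pi.2 fun l => ?_
    refine Fin.succAboveCases j ?_ (fun k => ?_) l
    · simp only [F, Fin.insertNth_apply_same]
      exact (ContDiffOn.sum fun k _ => (h2 r k).mul (h1 _)).neg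
    · simp only [F, Fin.insertNth_apply_succAbove]
      exact (h2 r k).mul (h1 _)
  have hd : dimH (⋃ ij, F ij '' (O ij.1 ×ˢ Set.univ)) <
      Module.finrank ℝ (Fin 3 → Fin (m + 1) → ℂ) := by
    rw [dimH_iUnion]
    refine lt_of_le_of_lt (b := (Module.finrank ℝ (E4 × (Fin 3 → Fin m → ℂ)) : ENNReal))
      (iSup_le fun ij => ((hF ij).dimH_image_le ((hO _).prod convex_univ) subset_rfl).trans ?_) ?_
    · rw [← Real.dimH_univ_eq_finrank]
      exact dimH_mono (Set.subset_univ _)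
    · simp only [Module.finrank_prod, Module.finrank_pi_fintype, Complex.finrank_real_complex,
        Module.finrank_self, Finset.sum_const, Finset.card_univ, Fintype.card_fin, smul_eq_mul,
        Nat.cast_lt]
      omega
  obtain ⟨c, hc⟩ := (dense_compl_of_dimH_lt_finrank hd).nonempty
  refine ⟨c, fun i y hy => ?_⟩
  by_contra h
  push Not at h
  obtain ⟨j, hj⟩ := h0 i y hy
  refine hc (Set.mem_iUnion.2 ⟨(i, j), (y, fun r k => c r (j.succAbove k) / t i j y),
    ⟨hy, trivial⟩, ?_⟩)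
  funext r l
  refine Fin.succAboveCases j ?_ (fun k => ?_) l
  · simp only [F, Fin.insertNth_apply_same, div_mul_eq_mul_div, ← Finset.sum_div]
    have := h r
    rw [Fin.sum_univ_succAbove _ j] at this
    field_simp
    linear_combination -this
  · simp only [F, Fin.insertNth_apply_succAbove]
    exact div_mul_cancel₀ _ hj

namespace Atl

variable {G : Calc B} (a : Atl G)

/-- The local representative of a function. -/
abbrev miscF (i : Fin a.n) (s : A) : E4 → ℂ := fun y => B.ev s (a.pr i y)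

/-- The value of a covector on the frame. -/
def miscV (i : Fin a.n) (y : E4) (α : Fin 4) : (E4 →L[ℝ] ℂ) →ₗ[ℂ] ℂ where
  toFun L := ∑ j, a.V i y α j * L (Pi.single j 1)
  map_add' L L' := by simp [mul_add, Finset.sum_add_distrib]
  map_smul' c L := by simp [Finset.mul_sum, mul_left_comm]

/-- The local representative of the 1-form `∑ h k * d (e k)`. -/
def miscW (i : Fin a.n) (h : Fin G.N → A) (y : E4) : E4 →L[ℝ] ℂ :=
  ∑ k, a.miscF i (h k) y • fderiv ℝ (a.miscF i (G.e k)) y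

theorem misc_at {i : Fin a.n} {y : E4} (hy : y ∈ a.O i) (s : A) :
    ContDiffAt ℝ ∞ (a.miscF i s) y := (a.sm i s).contDiffAt ((a.O_open i).mem_nhds hy)

theorem misc_der {i : Fin a.n} {y : E4} (hy : y ∈ a.O i) {s : A} (hs : s ∈ B.W 0) (α : Fin 4) :
    B.ev (G.D α s) (a.pr i y) = a.miscV i y α (fderiv ℝ (a.miscF i s) y) := a.der i y hy s hs α

theorem misc_zero {i : Fin a.n} {y : E4} (hy : y ∈ a.O i) {L : E4 →L[ℝ] ℂ}
    (h : ∀ α, a.miscV i y α L = 0) : L = 0 := by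
  have h1 : (fun j => L (Pi.single j 1)) = 0 :=
    Matrix.eq_zero_of_mulVec_eq_zero (a.det_ne i hy) (funext h)
  refine ContinuousLinearMap.coe_injective ((Pi.basisFun ℝ (Fin 4)).ext fun j => ?_)
  simpa using congrFun h1 j

theorem misc_W {i : Fin a.n} {y : E4} (hy : y ∈ a.O i) (h : Fin G.N → A) (α : Fin 4) :
    B.ev (∑ k, h k * G.D α (G.e k)) (a.pr i y) = a.miscV i y α (a.miscW i h y) := by
  simp only [miscW, map_sum, map_mul, map_smul, ContinuousMap.sum_apply, ContinuousMap.mul_apply,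
    a.misc_der hy (G.e_re _).1, smul_eq_mul]

theorem misc_ext {w : Wt} {t : A} (ht : t ∈ B.W w)
    (h : ∀ i, ∀ y ∈ a.O i, B.ev t (a.pr i y) = 0) : t = 0 := by
  refine B.ext' fun p => ?_
  obtain ⟨i, hi⟩ := a.cover p
  obtain ⟨z, -, hz⟩ := a.phase (a.E_pr i hi).symm w
  rw [hz t ht, h i _ (a.ψ_mem i p hi)]
  simp

theorem misc_loc {s : A} (hs : s ∈ B.W 0) {i : Fin a.n} {y₀ : E4} (hy : y₀ ∈ a.O i) :
    (fun x : E4 × E4 => a.miscF i s x.1 - a.miscF i s x.2 -
      ∑ k, a.miscF i (∑ γ, G.D γ s * G.θ γ k) x.2 *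
        (a.miscF i (G.e k) x.1 - a.miscF i (G.e k) x.2)) =o[𝓝 (y₀, y₀)] fun x => x.1 - x.2 := by
  refine misc_littleo (a.misc_at hy s) (fun k => a.misc_at hy _)
    (fun k => (a.misc_at hy _).continuousAt) (sub_eq_zero.1 (a.misc_zero hy fun α => ?_))
  have := a.misc_W hy (fun k => ∑ γ, G.D γ s * G.θ γ k) α
  rw [← G.form1_eq (fun γ => G.D γ s) α, a.misc_der hy hs] at this
  rw [map_sub, this]
  exact sub_self _

theorem misc_big {i : Fin a.n} {y₀ : E4} (hy : y₀ ∈ a.O i) :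
    (fun x : E4 × E4 => x.1 - x.2) =O[𝓝 (y₀, y₀)]
      fun x => G.E (a.pr i x.1) - G.E (a.pr i x.2) := by
  obtain ⟨c, hc, h⟩ := a.exists_coordFun isCompact_singleton (Set.singleton_subset_iff.2 hy)
  rw [nhdsSet_singleton] at h
  have h1 : (fun x : E4 × E4 => x.1 - x.2) =O[𝓝 (y₀, y₀)]
      fun x j => ((x.1 j - x.2 j : ℝ) : ℂ) := by
    refine isBigO_pi.2 fun j => IsBigO.of_bound' (Eventually.of_forall fun x => ?_)
    refine le_trans ?_ (norm_le_pi_norm _ j)
    rw [Complex.norm_real, Pi.sub_apply]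
  have h2 : (fun (x : E4 × E4) j => ((x.1 j - x.2 j : ℝ) : ℂ) -
      ∑ k, a.miscF i (∑ γ, G.D γ (c j) * G.θ γ k) x.2 *
        (a.miscF i (G.e k) x.1 - a.miscF i (G.e k) x.2)) =o[𝓝 (y₀, y₀)]
      fun x j => ((x.1 j - x.2 j : ℝ) : ℂ) := by
    refine (isLittleO_pi.2 fun j => ?_).trans_isBigO h1
    refine (a.misc_loc (hc j).1 hy).congr' ?_ EventuallyEq.rfl
    filter_upwards [(continuousAt_fst (p := (y₀, y₀))).eventually h,
      (continuousAt_snd (p := (y₀, y₀))).eventually h] with x e1 e2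
    simp only [miscF, e1 j, e2 j, Complex.ofReal_sub]
  refine (h1.trans h2.right_isBigO_sub).trans (isBigO_pi.2 fun j => ?_)
  simp only [Pi.sub_apply, sub_sub_cancel]
  refine IsBigO.fun_sum fun k _ => ?_
  have h3 : (fun x : E4 × E4 => a.miscF i (G.e k) x.1 - a.miscF i (G.e k) x.2) =O[𝓝 (y₀, y₀)]
      fun x => ‖G.E (a.pr i x.1) - G.E (a.pr i x.2)‖ := by
    refine IsBigO.of_bound' (Eventually.of_forall fun x => ?_)
    rw [norm_norm]
    refine le_trans ?_ (norm_le_pi_norm _ k)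
    simp only [miscF, G.ev_e, ← Complex.ofReal_sub, Complex.norm_real, Pi.sub_apply, le_refl]
  have := (((a.misc_at hy (∑ γ, G.D γ (c j) * G.θ γ k)).continuousAt.tendsto.comp
    (continuousAt_snd (p := (y₀, y₀)))).isBigO_one ℝ).mul h3
  simpa using this

include a in
theorem misc_tay {s : A} (hs : s ∈ B.W 0) {ε : ℝ} (hε : 0 < ε) (p₀ : P) :
    ∃ δ > 0, ∀ p q, ‖G.E p - G.E p₀‖ ≤ δ → ‖G.E q - G.E p₀‖ ≤ δ →
      ‖B.ev s q - B.ev s p - G.dv s p (G.co p (G.E q - G.E p))‖ ≤ ε * ‖G.E q - G.E p‖ := by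
  obtain ⟨i, hi⟩ := a.cover p₀
  have hy := a.ψ_mem i p₀ hi
  have h := ((a.misc_loc hs hy).trans_isBigO (a.misc_big hy)).def hε
  rw [nhds_prod_eq] at h
  obtain ⟨N, hN, h⟩ := mem_prod_self_iff.1 h
  obtain ⟨N', hN', o, m⟩ := mem_nhds_iff.1 hN
  obtain ⟨δ, hδ, hb⟩ := a.exists_ball (S := a.U i ∩ a.ψ i ⁻¹' N')
    ((a.ψ_cont i).isOpen_inter_preimage (a.U_open i) o)
    (fun p hp q e => ⟨(a.E_inj i p hp.1 q e).1, by
      rw [Set.mem_preimage, (a.E_inj i p hp.1 q e).2]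
      exact hp.2⟩) ⟨hi, m⟩
  refine ⟨δ, hδ, fun p q hp hq => ?_⟩
  obtain ⟨p1, p2⟩ := hb p hp
  obtain ⟨q1, q2⟩ := hb q hq
  have h4 := Set.mem_setOf_eq ▸ h (Set.mk_mem_prod (hN' q2) (hN' p2))
  have m0 : ∀ k, ∑ γ, G.D γ s * G.θ γ k ∈ B.W 0 := G.form1_coef_mem (G.d0_form hs)
  simp only [miscF, a.inv0 i p p1 s hs, a.inv0 i q q1 s hs, a.inv0 i p p1 _ (m0 _), G.ev_e,
    a.E_pr i p1, a.E_pr i q1] at h4
  refine le_trans (le_of_eq ?_) h4
  congr 2
  simp only [Calc.dv, G.cx_co, map_sum, map_mul, ContinuousMap.sum_apply, ContinuousMap.mul_apply,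
    Finset.sum_mul, Pi.sub_apply, Complex.ofReal_sub]
  rw [Finset.sum_comm]
  exact Finset.sum_congr rfl fun _ _ => Finset.sum_congr rfl fun _ _ => by ring

theorem misc_prim {h : Fin G.N → A} (hh : ∀ k, B.Re0 (h k))
    (h0 : ∀ α β, ∑ k, G.dd (h k) (G.e k) α β = 0) (i : Fin a.n) :
    ∃ u : E4 → ℂ, ∀ y ∈ a.O i, HasFDerivAt u (a.miscW i h y) y := by
  have hω : ∀ y ∈ a.O i, HasFDerivAt (a.miscW i h) (∑ k, (a.miscF i (h k) y •
      fderiv ℝ (fderiv ℝ (a.miscF i (G.e k))) y + (fderiv ℝ (a.miscF i (h k)) y).smulRight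
        (fderiv ℝ (a.miscF i (G.e k)) y))) y := fun y hy =>
    HasFDerivAt.fun_sum fun k _ =>
      ((a.misc_at hy (h k)).differentiableAt (by simp)).hasFDerivAt.smul
        (((a.misc_at hy (G.e k)).fderiv_right (m := 1) (by norm_cast)).differentiableAt
          (by simp)).hasFDerivAt
  refine (a.O_convex i).exists_forall_hasFDerivAt_of_fderiv_symmetric (a.O_open i)
    (fun y hy => (hω y hy).differentiableAt.differentiableWithinAt) fun y hy u v => ?_
  have s1 : ∀ β, ∑ k, (B.ev (G.D β (G.e k)) (a.pr i y) • fderiv ℝ (a.miscF i (h k)) y -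
      B.ev (G.D β (h k)) (a.pr i y) • fderiv ℝ (a.miscF i (G.e k)) y) = 0 := fun β => by
    refine a.misc_zero hy fun α => ?_
    have := congrArg (fun s => B.ev s (a.pr i y)) (h0 α β)
    simp only [map_sum, map_sub, map_smul, ← a.misc_der hy (hh _).1, ← a.misc_der hy (G.e_re _).1,
      smul_eq_mul]
    simp only [Calc.dd, w1, Calc.d0, map_sum, map_sub, map_mul, ContinuousMap.sum_apply,
      ContinuousMap.sub_apply, ContinuousMap.mul_apply, map_zero, ContinuousMap.zero_apply] at this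
    rw [← this]
    exact Finset.sum_congr rfl fun _ _ => by ring
  have s2 : ∑ k, (fderiv ℝ (a.miscF i (h k)) y u • fderiv ℝ (a.miscF i (G.e k)) y -
      fderiv ℝ (a.miscF i (G.e k)) y u • fderiv ℝ (a.miscF i (h k)) y) = 0 := by
    refine a.misc_zero hy fun β => ?_
    have := congrArg (fun L => L u) (s1 β)
    simp only [map_sum, map_sub, map_smul, ← a.misc_der hy (hh _).1, ← a.misc_der hy (G.e_re _).1,
      smul_eq_mul]
    simp only [ContinuousLinearMap.sum_apply, ContinuousLinearMap.sub_apply,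
      ContinuousLinearMap.smul_apply, smul_eq_mul, ContinuousLinearMap.zero_apply] at this
    rw [← this]
    exact Finset.sum_congr rfl fun _ _ => by ring
  have s3 := congrArg (fun L => L v) s2
  have s4 : ∀ k, fderiv ℝ (fderiv ℝ (a.miscF i (G.e k))) y u v =
      fderiv ℝ (fderiv ℝ (a.miscF i (G.e k))) y v u := fun k =>
    ((a.misc_at hy (G.e k)).isSymmSndFDerivAt (by simp; norm_cast)).eq u v
  simp only [ContinuousLinearMap.sum_apply, ContinuousLinearMap.sub_apply,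
    ContinuousLinearMap.smul_apply, smul_eq_mul, ContinuousLinearMap.zero_apply,
    Finset.sum_sub_distrib, sub_eq_zero] at s3
  simp only [(hω y hy).fderiv, ContinuousLinearMap.sum_apply, ContinuousLinearMap.add_apply,
    ContinuousLinearMap.smul_apply, ContinuousLinearMap.smulRight_apply, smul_eq_mul, s4,
    Finset.sum_add_distrib, s3, add_right_inj]
  exact Finset.sum_congr rfl fun _ _ => mul_comm _ _

theorem misc_lc {h : Fin G.N → A} (hh : ∀ k, h k ∈ B.W 0) {u : Fin a.n → E4 → ℂ}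
    (hu : ∀ i, ∀ y ∈ a.O i, HasFDerivAt (u i) (a.miscW i h y) y) (i j : Fin a.n) {p : P}
    (hp : p ∈ a.U i ∩ a.U j) : ∀ᶠ q in 𝓝 p,
      u i (a.ψ i q) - u j (a.ψ j q) = u i (a.ψ i p) - u j (a.ψ j p) := by
  have hS : IsOpen (a.O i ∩ a.pr i ⁻¹' a.U j) :=
    (a.pr_cont i).isOpen_inter_preimage (a.O_open i) (a.U_open j)
  have hd : ∀ y ∈ a.O i ∩ a.pr i ⁻¹' a.U j,
      HasFDerivAt (fun y => u i y - u j (a.ψ j (a.pr i y))) (0 : E4 →L[ℝ] ℂ) y := fun y hy => by
    have hτ := (((a.trans i j).contDiffAt (hS.mem_nhds hy)).differentiableAt (by simp)).hasFDerivAt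
    have hy' := a.ψ_mem j _ hy.2
    have e1 : ∀ k, fderiv ℝ (a.miscF i (G.e k)) y =
        (fderiv ℝ (a.miscF j (G.e k)) (a.ψ j (a.pr i y))).comp
          (fderiv ℝ (fun y => a.ψ j (a.pr i y)) y) := fun k => by
      refine HasFDerivAt.fderiv (HasFDerivAt.congr_of_eventuallyEq
        (((a.misc_at hy' (G.e k)).differentiableAt (by simp)).hasFDerivAt.comp y hτ) ?_)
      filter_upwards [hS.mem_nhds hy] with z hz
      exact (a.inv0 j _ hz.2 _ (G.e_re k).1).symm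
    have e2 : a.miscW i h y - (a.miscW j h (a.ψ j (a.pr i y))).comp
        (fderiv ℝ (fun y => a.ψ j (a.pr i y)) y) = 0 := by
      ext v
      simp [miscW, e1, miscF, a.inv0 j _ hy.2 _ (hh _)]
    exact e2 ▸ (hu i y hy.1).sub ((hu j _ hy').comp y hτ)
  have key : ∀ q ∈ a.U i ∩ a.U j, a.ψ i q ∈ a.O i ∩ a.pr i ⁻¹' a.U j ∧
      a.ψ j (a.pr i (a.ψ i q)) = a.ψ j q := fun q hq =>
    ⟨⟨a.ψ_mem i q hq.1, (a.E_inj j q hq.2 _ (a.E_pr i hq.1)).1⟩,
      (a.E_inj j q hq.2 _ (a.E_pr i hq.1)).2⟩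
  have hT := hS.isOpen_inter_preimage_of_fderiv_eq_zero
    (fun y hy => (hd y hy).differentiableAt.differentiableWithinAt) (fun y hy => (hd y hy).fderiv)
    {u i (a.ψ i p) - u j (a.ψ j p)}
  have hc : ContinuousAt (a.ψ i) p := (a.ψ_cont i).continuousAt ((a.U_open i).mem_nhds hp.1)
  filter_upwards [((a.U_open i).inter (a.U_open j)).mem_nhds hp,
    hc.eventually (hT.mem_nhds ⟨(key p hp).1, by simp [(key p hp).2]⟩)] with q hq h1
  simpa [(key q hq).2] using h1.2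

include a

theorem const {s : A} (hs : s ∈ B.W 0) (h : ∀ α, G.D α s = 0) : ∃ c : ℂ, s = algebraMap ℂ A c := by
  have h1 : ∀ p q, B.ev s p = B.ev s q := by
    refine a.conn _ fun i p hp q hq => ?_
    rw [← a.inv0 i p hp s hs, ← a.inv0 i q hq s hs]
    refine (a.O_open i).is_const_of_fderiv_eq_zero (𝕜 := ℝ) (f := a.miscF i s)
      (a.O_convex i).isPreconnected ((a.sm i s).differentiableOn (by simp)) (fun y hy => ?_)
      (a.ψ_mem i p hp) (a.ψ_mem i q hq)
    exact a.misc_zero hy fun α => by simp [← a.misc_der hy hs, h]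
  rcases isEmpty_or_nonempty P with h0 | ⟨⟨p⟩⟩
  · exact ⟨0, B.ext' fun p => h0.elim p⟩
  · exact ⟨B.ev s p, B.ext' fun q => by simp [AlgHomClass.commutes, h1 q p]⟩

theorem gen (w : Wt) : ∃ s : Fin 3 → A, (∀ i, s i ∈ B.W w) ∧ ∀ p, ∃ i, B.ev (s i) p ≠ 0 := by
  obtain ⟨n, t, ht, h1⟩ := G.exists_gens w
  have h2 : ∀ p, ∃ j, B.ev (t j) p ≠ 0 := fun p => by
    by_contra h
    push Not at h
    simpa [h] using congrArg (fun s => B.ev s p) h1
  rcases n with _ | m
  · exact ⟨0, fun _ => zero_mem _, fun p => (h2 p).elim fun j => j.elim0⟩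
  obtain ⟨c, hc⟩ := misc_generic a.O a.O_convex (fun i j => a.miscF i (t j))
    (fun i j => a.sm i _) fun i y _ => h2 _
  have hm : ∀ r, ∑ j, c r j • t j ∈ B.W w := fun r =>
    Submodule.sum_mem _ fun j _ => Submodule.smul_mem _ _ (ht j)
  refine ⟨fun r => ∑ j, c r j • t j, hm, fun p => ?_⟩
  obtain ⟨i, hi⟩ := a.cover p
  obtain ⟨r, hr⟩ := hc i _ (a.ψ_mem i p hi)
  obtain ⟨z, -, hz⟩ := a.phase (a.E_pr i hi) w
  refine ⟨r, fun h0 => hr ?_⟩
  have := hz _ (hm r)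
  rw [h0, mul_zero] at this
  simpa using this

theorem tay : G.Tay := by
  intro s hs ε hε
  choose δ hδ h using a.misc_tay hs hε
  obtain ⟨η, hη, hb⟩ := lebesgue_number_lemma_of_metric (isCompact_range G.continuous_E)
    (c := fun p => Metric.ball (G.E p) (δ p)) (fun _ => Metric.isOpen_ball)
    (by
      rintro _ ⟨p, rfl⟩
      exact Set.mem_iUnion.2 ⟨p, Metric.mem_ball_self (hδ p)⟩)
  refine ⟨η / 2, half_pos hη, fun p q hq => ?_⟩
  obtain ⟨p₀, h0⟩ := hb _ ⟨p, rfl⟩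
  refine h p₀ p q (mem_ball_iff_norm.1 (h0 (Metric.mem_ball_self hη))).le
    (mem_ball_iff_norm.1 (h0 (mem_ball_iff_norm.2 ?_))).le
  linarith

theorem ex (hc : a.Cech) (h : Fin G.N → A) (hh : ∀ k, B.Re0 (h k))
    (h0 : ∀ α β, ∑ k, G.dd (h k) (G.e k) α β = 0) :
    ∃ u, B.Re0 u ∧ ∀ α, G.D α u = ∑ k, h k * G.D α (G.e k) := by
  choose u hu using a.misc_prim hh h0
  obtain ⟨c, hc⟩ := hc (fun i y => (u i y).re) fun i j p hp => by
    filter_upwards [a.misc_lc (fun k => (hh k).1) hu i j hp] with q hq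
    simpa using congrArg Complex.re hq
  choose ι hι using a.cover
  have hf : ∀ i, ∀ p ∈ a.U i, (u (ι p) (a.ψ (ι p) p)).re - c (ι p) = (u i (a.ψ i p)).re - c i :=
    fun i p hp => hc _ _ p ⟨hι p, hp⟩
  have hf' : ∀ i, ∀ y ∈ a.O i, (u (ι (a.pr i y)) (a.ψ (ι (a.pr i y)) (a.pr i y))).re -
      c (ι (a.pr i y)) = (u i y).re - c i := fun i y hy => by
    rw [hf i _ (a.pr_mem i y hy), a.ψ_pr i y hy]
  have hd : ∀ i, ∀ y ∈ a.O i,
      HasFDerivAt (fun y => (((u i y).re - c i : ℝ) : ℂ)) (a.miscW i h y) y := fun i y hy => by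
    have h1 := Complex.ofRealCLM.hasFDerivAt.comp y
      ((Complex.reCLM.hasFDerivAt.comp y (hu i y hy)).sub_const (c i))
    refine h1.congr_fderiv (ContinuousLinearMap.ext fun v => Complex.ext rfl ?_)
    have h2 : ∀ k, (fderiv ℝ (a.miscF i (G.e k)) y v).im = 0 := fun k =>
      misc_im (fun y => (B.re0_iff.1 (G.e_re k)).2 _)
        ((a.misc_at hy _).differentiableAt (by simp)) v
    simp [miscW, h2, (B.re0_iff.1 (hh _)).2]
  obtain ⟨s, hs, es⟩ := a.glue (fun p => (((u (ι p) (a.ψ (ι p) p)).re - c (ι p) : ℝ) : ℂ))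
    (fun i p hp => by rw [hf' i _ (a.ψ_mem i p hp), hf i p hp]) fun i => by
      refine ContDiffOn.congr (f := fun y => (((u i y).re - c i : ℝ) : ℂ)) ?_
        fun y hy => by rw [hf' i y hy]
      refine (contDiffOn_infty_iff_fderiv_of_isOpen (a.O_open i)).2
        ⟨fun y hy => (hd i y hy).differentiableAt.differentiableWithinAt,
          ContDiffOn.congr (f := a.miscW i h) ?_ fun y hy => (hd i y hy).fderiv⟩
      exact ContDiffOn.sum fun k _ => (a.sm i _).smul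
        ((contDiffOn_infty_iff_fderiv_of_isOpen (a.O_open i)).1 (a.sm i _)).2
  refine ⟨s, B.re0_iff.2 ⟨hs, fun p => by simp [es]⟩, fun α => sub_eq_zero.1 ?_⟩
  refine a.misc_ext (w := wt α) (sub_mem (G.D_mem' α hs (zero_add _)) (Submodule.sum_mem _
    fun k _ => B.mul_mem' (hh k).1 (G.D_mem' α (G.e_re k).1 (zero_add _)) (zero_add _)))
    fun i y hy => ?_
  have e1 : fderiv ℝ (a.miscF i s) y = a.miscW i h y := by
    refine ((hd i y hy).congr_of_eventuallyEq ?_).fderiv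
    filter_upwards [(a.O_open i).mem_nhds hy] with z hz
    rw [miscF, es, hf' i z hz]
  rw [map_sub, ContinuousMap.sub_apply, a.misc_W hy, a.misc_der hy hs, e1, sub_self]

end Atl

end SX4
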