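import Pool.Agent.P.MP_0a0487_an.SX.LefDefs
import Pool.Agent.P.MP_0a0487_an.SX.ODyn2
import Pool.Agent.P.MP_0a0487_an.SX.ThomP

/-! Nondegenerate fixed points. -/

set_option autoImplicit false
set_option linter.unusedSectionVars false

noncomputable section

namespace SX4

open scoped ComplexOrder ContDiff
open Filter Topology

variable {P A : Type} [TopologicalSpace P] [CompactSpace P] [CommRing A] [StarRing A] [Algebra ℂ A]
  [StarModule ℂ A] {B : Base P A}

open Matrix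

theorem LefFin_jac (G : Calc B) (u : Fin G.N → A) (p : P) (J : M4)
    (h0 : ∀ k, B.ev (u k) p = B.ev (G.e k) p)
    (h1 : ∀ k v, G.dv (u k) p v = G.dv (G.e k) p (J *ᵥ v)) :
    B.ev (G.jac u) p = ((J - 1).det : ℝ) := by
  let M : Matrix (Fin 4) (Fin 4) ℂ := Matrix.of fun a α => B.ev (G.D α (G.σu u a)) p
  have e1 : B.ev (G.jac u) p = M.det := (B.evAt p).map_det _
  have e2 : ∀ a α, M a α = ∑ k, B.ev (G.θ a k) p *
      (B.ev (G.D α (u k)) p - B.ev (G.D α (G.e k)) p) := fun a α => by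
    simp [M, Calc.σu, G.D_mul, h0]
  have e3 : ∀ v a, ∑ α, cx v α * M a α = cx ((J - 1) *ᵥ v) a := fun v a => by
    have e4 : cx (J *ᵥ v) a = cx ((J - 1) *ᵥ v) a + cx v a := by
      rw [← Pi.add_apply (cx _), ← cx_add, sub_mulVec, one_mulVec, sub_add_cancel]
    rw [eq_sub_of_add_eq e4.symm, ← G.mapA_theta p, ← G.mapA_theta p, ← Finset.sum_sub_distrib]
    simp only [← G.dv_e, ← h1]
    simp only [e2, Finset.mul_sum, Calc.dv, ← Finset.sum_sub_distrib]
    rw [Finset.sum_comm]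
    exact Finset.sum_congr rfl fun _ _ => Finset.sum_congr rfl fun _ _ => by ring
  have e5 : (Matrix.of fun i => cx ((1 : M4) i)) * Mᵀ = Matrix.of fun i => cx ((J - 1)ᵀ i) := by
    ext i a
    rw [Matrix.mul_apply]
    refine (e3 ((1 : M4) i) a).trans ?_
    congr 1
    funext j
    simp [mulVec, dotProduct, Matrix.one_apply]
  have e6 := congrArg Matrix.det e5
  rw [det_mul, det_cx, det_cx, det_transpose, det_transpose, det_one] at e6
  rw [e1]
  push_cast at e6
  linear_combination -4 * e6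

theorem LefFin_iso {X : Type} [TopologicalSpace X] {a : Fr X} {g : X → X} (hg : a.SmMap g)
    {i : Fin a.n} {x : X} (hi : x ∈ (a.φ i).source) (hx : g x = x)
    (hd : (1 - a.Jm g i i x).det ≠ 0) : ∀ᶠ x' in 𝓝[≠] x, g x' ≠ x' := by
  have ht := (a.φ i).map_source hi
  have hD := ((a.FrB_at hg (j := i) ht (by rwa [(a.φ i).left_inv hi, hx])).differentiableAt
    (by simp)).hasFDerivAt
  set D := fderiv ℝ (fun y => a.φ i (g ((a.φ i).symm y))) (a.φ i x) with hDe
  have hV := isUnit_iff_ne_zero.2 (a.V_det_ne i ht)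
  have hk : LinearMap.ker ((D - ContinuousLinearMap.id ℝ E4 : E4 →L[ℝ] E4) : E4 →ₗ[ℝ] E4) = ⊥ := by
    refine LinearMap.ker_eq_bot'.2 fun w hw => ?_
    have h1 : D w = w := sub_eq_zero.1 hw
    have h2 : a.V i (a.φ i x) *ᵥ ((a.V i (a.φ i x))⁻¹ *ᵥ w) = w := by
      rw [mulVec_mulVec, Matrix.mul_nonsing_inv _ hV, one_mulVec]
    have h3 : (1 - a.Jm g i i x) *ᵥ ((a.V i (a.φ i x))⁻¹ *ᵥ w) = 0 := by
      rw [sub_mulVec, one_mulVec, Fr.Jm, hx, ← mulVec_mulVec, ← mulVec_mulVec, h2, ← hDe,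
        LinearMap.toMatrix'_mulVec, ContinuousLinearMap.coe_coe, h1, sub_self]
    rw [← h2, Matrix.eq_zero_of_mulVec_eq_zero hd h3, mulVec_zero]
  obtain ⟨K, -, hK⟩ := LinearMap.exists_antilipschitzWith _ hk
  have h4 := (hD.sub (hasFDerivAt_id _)).eventually_ne (c := 0) ⟨K, hK⟩
  rw [eventually_nhdsWithin_iff] at h4 ⊢
  filter_upwards [((a.φ i).continuousAt hi).eventually h4, (a.φ i).open_source.mem_nhds hi]
    with x' h5 h6 h7 h8
  refine h5 (fun e => h7 ((a.φ i).injOn h6 hi e)) ?_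
  simp [(a.φ i).left_inv h6, h8]

theorem Calc.jac_cst (G : Calc B) (y : P) : B.ev (G.jac (G.cst (G.E y))) y = 1 := by
  rw [LefFin_jac G _ y 0, zero_sub, det_neg, det_one]
  · norm_num
  · intro k
    rw [Calc.cst, AlgHomClass.commutes, G.ev_e]
    rfl
  · intro k v
    have h := G.dv_smul_vec (G.e k) y 0 v
    rw [zero_smul] at h
    rw [zero_mulVec, h]
    simp [Calc.dv, Calc.cst, G.D_algebraMap]

theorem Link.lef_fin {X : Type} [TopologicalSpace X] [CompactSpace X] [T2Space X] {a : Fr X}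
    {G : Pre B} (l : Link a G.toCalc) {g : X → X} (hg : a.SmMap g) (f : Map G)
    (hf : ∀ p, l.π (f.pt p) = g (l.π p))
    (hd : ∀ i, ∀ x ∈ (a.φ i).source, g x = x → 0 < (1 - a.Jm g i i x).det) :
    (Function.fixedPoints g).Finite ∧
      ∀ p, g (l.π p) = l.π p → 0 < B.ev (G.jac fun k => f.Φ (G.e k)) p := by
  constructor
  · refine (isClosed_fixedPoints hg.1).isCompact.finite (isDiscrete_iff_nhdsNE.2 fun x hx => ?_)
    obtain ⟨i, hi⟩ := a.cover x
    exact Filter.inf_principal_eq_bot.2 (LefFin_iso hg hi hx (hd i x hi hx).ne')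
  · intro p hp
    obtain ⟨i, hi⟩ := a.cover (l.π p)
    have hR := (l.R_rot i p hi).isOrt.mul_transpose
    have hj : g (l.π p) ∈ (a.φ i).source := by rwa [hp]
    rw [LefFin_jac G.toCalc _ p ((l.R i p)ᵀ * (a.Jm g i i (l.π p) * l.R i p))]
    · have e : (l.R i p)ᵀ * (a.Jm g i i (l.π p) * l.R i p) - 1 =
          (l.R i p)ᵀ * (-(1 - a.Jm g i i (l.π p)) * l.R i p) := by
        rw [neg_sub, Matrix.sub_mul, Matrix.mul_sub, Matrix.one_mul, hR.2]
      rw [e, det_mul, det_mul, det_transpose, (l.R_rot i p hi).det, det_neg, Complex.zero_lt_real]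
      have := hd i _ hi hp
      norm_num
      exact this
    · intro k
      obtain ⟨h, -, hs⟩ := l.fn _ (G.e_re k).1
      rw [f.ev_eq _ (G.e_re k).1, hs, hs, hf, hp]
    · intro k v
      have s0 := (G.e_re k).1
      obtain ⟨h, hh, hs⟩ := l.fn _ s0
      rw [l.dv_eq i p hi _ (f.mem _ s0) (fun x => h (g x))
        (fun q => by rw [f.ev_eq _ s0, hs, hf]) v, l.dv_eq i p hi _ s0 h hs,
        a.fderiv_comp_Jm hh hg hi hj, hp, mulVec_mulVec v (l.R i p), ← Matrix.mul_assoc (l.R i p),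
        hR.1, Matrix.one_mul, mulVec_mulVec v]

end SX4
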