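import Pool.Agent.P.MP_0a0487_an.SX.LefDefs

/-! Algebra of forms and double forms in dimension four. -/

set_option autoImplicit false
set_option linter.unusedSectionVars false

noncomputable section

namespace SX4

open scoped ComplexOrder ContDiff
open Filter Topology

theorem lefBi_aa : ∀ (α β : Fin 4) (S : FF), α ≠ β → cs α S * cs β (insert α S) +
    cs β S * cs α (insert β S) = 0 ∨ α ∈ S ∨ β ∈ S := by
  decide

theorem lefBi_compl : ∀ S : FF, bs Sᶜ = bs S ∧ (-1 : ℤ) ^ Sᶜ.card = (-1) ^ S.card := by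
  decide

theorem lefBi_inv : ∀ α : Fin 4,
    Function.Involutive fun S : FF => if α ∈ S then S.erase α else insert α S := by
  unfold Function.Involutive
  decide

theorem lefBi_cre : ∀ (α : Fin 4) (S : FF), α ∈ S → α ∈ (S.erase α)ᶜ ∧
    (S.erase α)ᶜ.erase α = Sᶜ ∧ bs S * cs α S = bs (S.erase α) * cs α (S.erase α)ᶜ := by
  decide

section

variable {R V : Type} [CommRing R] [AddCommGroup V] [Module R V]

theorem lefBi_ann (α : Fin 4) (x : FF → V) : ann R V α x ∅ = x {α} := by
  simp [ann_apply, cs]

theorem lefBi_ac (α β : Fin 4) (x : FF → V) :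
    ann R V α (cre R V β x) = (if α = β then x else 0) - cre R V β (ann R V α x) := by
  have h := LinearMap.congr_fun (ann_cre R V α β) x
  rw [eq_sub_iff_add_eq]
  refine h.trans ?_
  split_ifs <;> rfl

theorem lefBi_sum {ι : Type} (s : Finset ι) (f : ι → FF → R) (y : FF → R) :
    bb (∑ i ∈ s, f i) y = ∑ i ∈ s, bb (f i) y := by
  simp only [bb, Finset.sum_apply, Finset.sum_mul, Finset.smul_sum]
  exact Finset.sum_comm

theorem lefBi_half [Algebra ℂ R] (v : V) : algebraMap ℂ R (1 / 2) • (2 : ℕ) • v = v := by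
  rw [two_nsmul, smul_add, ← add_smul, ← map_add, add_halves, map_one, one_smul]

theorem sum_prj (x : FF → V) : ∑ k ∈ Finset.range 5, prj R V k x = x := by
  funext S
  have h : S.card < 5 := Nat.lt_succ_of_le (Finset.card_le_univ S)
  simp only [Finset.sum_apply, prj_apply, Finset.sum_ite_eq, Finset.mem_range, h, if_true]

theorem prj_prj (k l : ℕ) (x : FF → V) :
    prj R V k (prj R V l x) = if k = l then prj R V k x else 0 := by
  funext S
  rcases eq_or_ne k l with rfl | h
  · by_cases h1 : S.card = k <;> simp [prj_apply, h1]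
  · by_cases h1 : S.card = k <;> simp [prj_apply, h1, h]

theorem gam_prj (k : ℕ) (x : FF → V) : gam R V (prj R V k x) = (-1 : ℤ) ^ k • prj R V k x := by
  funext S
  by_cases h1 : S.card = k <;> simp [gam_apply, prj_apply, h1]

theorem gam_gam (x : FF → V) : gam R V (gam R V x) = x := by
  funext S
  rw [gam_apply, gam_apply, smul_smul, ← mul_pow, neg_one_mul, neg_neg, one_pow, one_smul]

theorem gam_cre (α : Fin 4) (x : FF → V) : gam R V (cre R V α x) = -cre R V α (gam R V x) := by
  funext S
  rw [Pi.neg_apply, gam_apply, cre_apply, cre_apply]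
  split_ifs with h
  · rw [gam_apply, smul_smul, smul_smul, ← Finset.card_erase_add_one h, ← neg_smul]
    congr 1
    ring
  · rw [smul_zero, neg_zero]

theorem gam_ann (α : Fin 4) (x : FF → V) : gam R V (ann R V α x) = -ann R V α (gam R V x) := by
  funext S
  rw [Pi.neg_apply, gam_apply, ann_apply, ann_apply]
  split_ifs with h
  · rw [smul_zero, neg_zero]
  · rw [gam_apply, smul_smul, smul_smul, Finset.card_insert_of_notMem h, ← neg_smul]
    congr 1
    ring

theorem prj_cre (k : ℕ) (α : Fin 4) (x : FF → V) :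
    prj R V (k + 1) (cre R V α x) = cre R V α (prj R V k x) ∧ prj R V 0 (cre R V α x) = 0 := by
  refine ⟨funext fun S => ?_, funext fun S => ?_⟩
  · rw [prj_apply, cre_apply, cre_apply, prj_apply]
    by_cases h : α ∈ S
    · rw [← Finset.card_erase_add_one h]
      by_cases h1 : (S.erase α).card = k <;> simp [h, h1, -Finset.card_erase_of_mem]
    · simp [h]
  · rw [prj_apply, cre_apply]
    by_cases h : α ∈ S
    · rw [if_neg (Finset.card_ne_zero_of_mem h), Pi.zero_apply]
    · simp [h]

theorem prj_ann (k : ℕ) (α : Fin 4) (x : FF → V) :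
    prj R V k (ann R V α x) = ann R V α (prj R V (k + 1) x) := by
  funext S
  rw [prj_apply, ann_apply, ann_apply, prj_apply]
  by_cases h : α ∈ S
  · simp [h]
  · rw [Finset.card_insert_of_notMem h]
    by_cases h1 : S.card = k <;> simp [h, h1]

theorem ann_ann (α β : Fin 4) : ann R V α * ann R V β + ann R V β * ann R V α = 0 := by
  refine LinearMap.ext fun x => funext fun S => ?_
  simp only [LinearMap.add_apply, Module.End.mul_apply, Pi.add_apply, ann_apply, Finset.mem_insert,
    LinearMap.zero_apply, Pi.zero_apply]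
  rcases eq_or_ne α β with rfl | h
  · simp
  by_cases h1 : α ∈ S <;> by_cases h2 : β ∈ S <;> simp only [h1, h2, h, h.symm, if_true, if_false,
    smul_zero, add_zero, or_true, or_false]
  rw [smul_smul, smul_smul, Finset.insert_comm, ← add_smul,
    ((lefBi_aa α β S h).resolve_right (by simp [h1, h2])), zero_smul]

/-- The number operator. -/
theorem sum_cre_ann (k : ℕ) (x : FF → V) :
    ∑ α, cre R V α (ann R V α (prj R V k x)) = k • prj R V k x := by
  funext S
  have e : ∀ (y : FF → V) (α : Fin 4),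
      cre R V α (ann R V α y) S = if α ∈ S then y S else 0 := fun y α => by
    rw [cre_apply, ann_apply]
    by_cases h : α ∈ S
    · rw [if_pos h, if_pos h, if_neg (Finset.notMem_erase α S), smul_smul, (cs_sq α S).1,
        Finset.insert_erase h, one_smul]
    · rw [if_neg h, if_neg h]
  simp only [Finset.sum_apply, e, Finset.sum_ite_mem, Finset.univ_inter, Finset.sum_const,
    Pi.smul_apply, prj_apply]
  by_cases h1 : S.card = k <;> simp [h1]

theorem bb_comm (x y : FF → R) : bb x y = bb y x := by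
  refine Fintype.sum_bijective compl compl_bijective _ _ fun S => ?_
  rw [compl_compl, (lefBi_compl S).1, mul_comm]

theorem bb_add (x x' y : FF → R) : bb (x + x') y = bb x y + bb x' y := by
  simp only [bb, Pi.add_apply, add_mul, smul_add, Finset.sum_add_distrib]

theorem bb_smul (r : R) (x y : FF → R) : bb (r • x) y = r * bb x y := by
  simp only [bb, Pi.smul_apply, smul_eq_mul, Finset.mul_sum, mul_assoc, mul_smul_comm]

theorem bb_cre (α : Fin 4) (x y : FF → R) : bb (cre R R α x) y = bb x (cre R R α y) := by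
  refine Fintype.sum_bijective (fun S => if α ∈ S then S.erase α else insert α S)
    (lefBi_inv α).bijective _ _ fun S => ?_
  rw [cre_apply, cre_apply]
  by_cases h : α ∈ S
  · obtain ⟨h1, h2, h3⟩ := lefBi_cre α S h
    simp only [if_pos h]
    rw [if_pos h1, h2, smul_mul_assoc, mul_smul_comm, smul_smul, smul_smul, h3]
  · simp only [if_neg h]
    rw [if_neg (by simp), zero_mul, mul_zero, smul_zero, smul_zero]

theorem bb_e1 (a : Fin 4 → R) (x y : FF → R) : bb (e1 a x) y = bb x (e1 a y) := by
  rw [bb_comm x]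
  simp only [e1, LinearMap.sum_apply, LinearMap.smul_apply, lefBi_sum, bb_smul]
  exact Finset.sum_congr rfl fun α _ => by rw [bb_cre, bb_comm]

theorem bb_gam (x y : FF → R) : bb (gam R R x) y = bb x (gam R R y) := by
  refine Finset.sum_congr rfl fun S _ => ?_
  rw [gam_apply, gam_apply, (lefBi_compl S).2, smul_mul_assoc, mul_smul_comm]

theorem bb_prj {k : ℕ} (hk : k ≤ 4) (x y : FF → R) :
    bb (prj R R k x) y = bb x (prj R R (4 - k) y) := by
  refine Finset.sum_congr rfl fun S _ => ?_
  have h1 : S.card + Sᶜ.card = 4 := Finset.card_add_card_compl S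
  rw [prj_apply, prj_apply]
  by_cases h : S.card = k
  · rw [if_pos h, if_pos (by omega)]
  · rw [if_neg h, if_neg (by omega), zero_mul, mul_zero]

theorem bb_vac (x : FF → R) : bb (vac R) x = x Finset.univ := by
  rw [bb, Finset.sum_eq_single ∅]
  · simp [vac, bs]
  · intro S _ h
    simp [vac, h]
  · simp

theorem bb_map {R' : Type} [CommRing R'] (f : R →+* R') (x y : FF → R) :
    f (bb x y) = bb (fun S => f (x S)) fun S => f (y S) := by
  simp only [bb, map_sum, map_zsmul, map_mul]

theorem strK_map {R' : Type} [CommRing R'] (f : R →+* R') (m : FF → FF → R) :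
    f (strK m) = strK fun S T => f (m S T) := by
  simp only [strK, map_sum, map_zsmul]

theorem gam_e1 (a : Fin 4 → R) (x : FF → R) : gam R R (e1 a x) = -e1 a (gam R R x) := by
  simp only [e1, LinearMap.sum_apply, LinearMap.smul_apply, map_sum, map_smul, gam_cre, smul_neg,
    Finset.sum_neg_distrib]

theorem prj_e1 (k : ℕ) (a : Fin 4 → R) (x : FF → R) :
    prj R R (k + 1) (e1 a x) = e1 a (prj R R k x) ∧ prj R R 0 (e1 a x) = 0 := by
  simp only [e1, LinearMap.sum_apply, LinearMap.smul_apply, map_sum, map_smul,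
    fun α => (prj_cre (R := R) k α x).1, fun α => (prj_cre (R := R) k α x).2, smul_zero,
    Finset.sum_const_zero, and_self]

theorem prj_vac (k : ℕ) : prj R R k (vac R) = if k = 0 then vac R else 0 := by
  funext S
  rcases eq_or_ne S ∅ with rfl | h
  · by_cases h1 : k = 0
    · simp [prj_apply, h1]
    · simp [prj_apply, h1, Ne.symm h1]
  · by_cases h1 : k = 0 <;> simp [prj_apply, vac, h, h1]

theorem ann_vac (α : Fin 4) : ann R R α (vac R) = 0 := by
  funext S
  simp [ann_apply, vac]

theorem prj_zero (x : FF → R) : prj R R 0 x = x ∅ • vac R := by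
  funext S
  rcases eq_or_ne S ∅ with rfl | h
  · simp [prj_apply, vac]
  · simp [prj_apply, vac, h]

theorem e1_vac (a : Fin 4 → R) (α : Fin 4) : e1 a (vac R) {α} = a α := by
  simp only [e1, LinearMap.sum_apply, LinearMap.smul_apply, Finset.sum_apply, Pi.smul_apply,
    cre_apply, Finset.mem_singleton, smul_ite, smul_zero, Finset.sum_ite_eq', Finset.mem_univ,
    if_true]
  simp [vac, cs, Finset.filter_singleton]

theorem prj_one (x : FF → R) : prj R R 1 x = e1 (fun α => x {α}) (vac R) := by
  have h := sum_cre_ann (R := R) 1 x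
  rw [one_smul] at h
  rw [← h]
  simp only [e1, LinearMap.sum_apply, LinearMap.smul_apply]
  exact Finset.sum_congr rfl fun α _ => by rw [← prj_ann, prj_zero, map_smul, lefBi_ann]

variable [Algebra ℂ R]

theorem e2_w1 (a b : Fin 4 → R) : e2 (w1 a b) = e1 a * e1 b := by
  have h1 : e1 a * e1 b = ∑ α, ∑ β, (a α * b β) • (cre R R α * cre R R β) := by
    simp only [e1, Finset.sum_mul, Finset.mul_sum, smul_mul_smul_comm]
    exact Finset.sum_comm
  have h2 : e1 a * e1 b = ∑ α, ∑ β, (-(a β * b α)) • (cre R R α * cre R R β) := by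
    rw [h1, Finset.sum_comm]
    refine Finset.sum_congr rfl fun α _ => Finset.sum_congr rfl fun β _ => ?_
    rw [eq_neg_of_add_eq_zero_left (cre_cre R R β α), smul_neg]
    exact (neg_smul _ _).symm
  rw [← lefBi_half (R := R) (e1 a * e1 b), two_nsmul]
  nth_rw 1 [h1]
  rw [h2]
  simp only [e2, w1, ← Finset.sum_add_distrib, Finset.smul_sum, ← add_smul, smul_smul,
    Algebra.smul_def (1 / 2 : ℂ), sub_eq_add_neg]

theorem bb_e2 (b : Fin 4 → Fin 4 → R) (x y : FF → R) : bb (e2 b x) y = -bb x (e2 b y) := by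
  rw [bb_comm x]
  simp only [e2, LinearMap.sum_apply, LinearMap.smul_apply, lefBi_sum, bb_smul,
    ← Finset.sum_neg_distrib]
  refine Finset.sum_congr rfl fun α _ => Finset.sum_congr rfl fun β _ => ?_
  rw [eq_neg_of_add_eq_zero_left (cre_cre R R α β), LinearMap.neg_apply, ← neg_one_smul R,
    bb_smul, ← eq_neg_of_add_eq_zero_left (cre_cre R R α β), Module.End.mul_apply,
    Module.End.mul_apply, bb_cre, bb_cre, bb_comm]
  ring

theorem prj_e2 (b : Fin 4 → Fin 4 → R) : prj R R 2 (e2 b (vac R)) = e2 b (vac R) := by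
  simp only [e2, LinearMap.sum_apply, LinearMap.smul_apply, map_sum, map_smul,
    Module.End.mul_apply]
  refine Finset.sum_congr rfl fun α _ => Finset.sum_congr rfl fun β _ => ?_
  rw [(prj_cre 1 α _).1, (prj_cre 0 β _).1, prj_vac, if_pos rfl]

theorem e2_vac {b : Fin 4 → Fin 4 → R} (hb : ∀ α β, b β α = -b α β) (α β : Fin 4) :
    ann R R β (ann R R α (e2 b (vac R))) ∅ = b α β := by
  have e : ∀ γ δ, ann R R β (ann R R α (cre R R γ (cre R R δ (vac R)))) ∅ =
      (if α = γ then if β = δ then 1 else 0 else 0) -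
        if β = γ then if α = δ then 1 else 0 else 0 := fun γ δ => by
    have v : vac R ∅ = 1 := Pi.single_eq_same _ _
    simp only [lefBi_ac, ann_vac, map_zero, sub_zero, map_sub, apply_ite (ann R R β),
      apply_ite (cre R R γ), Pi.sub_apply, ite_apply, Pi.zero_apply, v]
    congr 1
    split_ifs <;> rfl
  simp only [e2, LinearMap.sum_apply, LinearMap.smul_apply, map_sum, map_smul,
    Module.End.mul_apply, Finset.sum_apply, Pi.smul_apply, e, smul_eq_mul, mul_sub,
    Finset.sum_sub_distrib, mul_ite, mul_one, mul_zero, Finset.sum_ite_irrel, Finset.sum_ite_eq,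
    Finset.sum_const_zero, Finset.mem_univ, if_true]
  rw [hb α β]
  module

theorem prj_two (x : FF → R) :
    prj R R 2 x = e2 (fun α β => ann R R β (ann R R α x) ∅) (vac R) := by
  rw [← lefBi_half (R := R) (prj R R 2 x), ← sum_cre_ann]
  simp only [e2, LinearMap.sum_apply, LinearMap.smul_apply, Finset.smul_sum,
    Module.End.mul_apply]
  refine Finset.sum_congr rfl fun α _ => ?_
  rw [← prj_ann, prj_one]
  simp only [e1, LinearMap.sum_apply, LinearMap.smul_apply, map_sum, map_smul, Finset.smul_sum,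
    smul_smul, lefBi_ann, Algebra.smul_def (1 / 2 : ℂ)]

theorem e2_top {b b' : Fin 4 → Fin 4 → R} (hb : ∀ α β, b β α = -b α β)
    (hb' : ∀ α β, b' β α = -b' α β) : e2 b (e2 b' (vac R)) Finset.univ = wg b b' := by
  have key : ∀ α β γ δ : Fin 4, β ∈ Finset.univ.erase α ∧ γ ∉ ({δ} : FF) ∧
      (Finset.univ.erase α).erase β = insert γ {δ} ∧
        cs α Finset.univ * cs β (Finset.univ.erase α) = cs γ {δ} →
      cre R R α (cre R R β (e2 b' (vac R))) Finset.univ = b' γ δ := by
    rintro α β γ δ ⟨h1, h2, h3, h4⟩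
    rw [← e2_vac hb' γ δ, lefBi_ann, ann_apply, if_neg h2, cre_apply, if_pos (Finset.mem_univ _),
      cre_apply, if_pos h1, smul_smul, h3, h4]
  have dg : ∀ α, cre R R α (cre R R α (e2 b' (vac R))) Finset.univ = 0 := fun α => by
    rw [cre_apply, if_pos (Finset.mem_univ _), cre_apply, if_neg (Finset.notMem_erase _ _),
      smul_zero]
  have h2 : algebraMap ℂ R (1 / 2) * 2 = 1 := by
    rw [← map_ofNat (algebraMap ℂ R) 2, ← map_mul, one_div_mul_cancel two_ne_zero, map_one]
  generalize e2 b' (vac R) = y at key dg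
  simp only [e2, LinearMap.sum_apply, LinearMap.smul_apply, Module.End.mul_apply,
    Finset.sum_apply, Pi.smul_apply, smul_eq_mul]
  simp only [Fin.sum_univ_four, dg,
    key 0 1 2 3 (by decide), key 0 2 3 1 (by decide), key 0 3 1 2 (by decide),
    key 1 0 3 2 (by decide), key 1 2 0 3 (by decide), key 1 3 2 0 (by decide),
    key 2 0 1 3 (by decide), key 2 1 3 0 (by decide), key 2 3 0 1 (by decide),
    key 3 0 2 1 (by decide), key 3 1 0 2 (by decide), key 3 2 1 0 (by decide),
    Algebra.smul_def (1 / 2 : ℂ)]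
  simp only [hb 0 1, hb 0 2, hb 0 3, hb 1 2, hb 1 3, hb 2 3, hb' 0 1, hb' 0 2, hb' 0 3, hb' 1 2,
    hb' 1 3, hb' 2 3]
  unfold wg
  linear_combination (b 0 1 * b' 2 3 - b 0 2 * b' 1 3 + b 0 3 * b' 1 2 + b 1 2 * b' 0 3 -
    b 1 3 * b' 0 2 + b 2 3 * b' 0 1) * h2

end

end SX4
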