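import Pool.Agent.P.MP_0a0487_an.SX.LefCar
import Pool.Agent.P.MP_0a0487_an.SX.LefBi

/-! The de Rham complex: induction, Stokes formula, adjoints. -/

set_option autoImplicit false
set_option linter.unusedSectionVars false

noncomputable section

namespace SX4

open scoped ComplexOrder ContDiff
open Filter Topology

variable {P A : Type} [TopologicalSpace P] [CompactSpace P] [CommRing A] [StarRing A] [Algebra ℂ A]
  [StarModule ℂ A] {B : Base P A}

theorem LefOm_bs : ∀ S : FF, bs S * bs Sᶜ = 1 ∧ bs S * bs S = 1 ∧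
    (-1 : ℤ) ^ Sᶜ.card = (-1) ^ S.card ∧ Sᶜ.card + S.card = 4 := by
  decide

theorem LefOm_wF : wF ∅ = 0 ∧ wF Finset.univ = 0 := by
  decide

namespace Base

theorem Om.vac : B.Om (vac A) := by
  intro S
  rcases eq_or_ne S ∅ with rfl | h
  · rw [SX4.vac, Pi.single_eq_same]
    exact B.one_mem
  · rw [SX4.vac, Pi.single_eq_of_ne h]
    exact Submodule.zero_mem _

theorem Om.add {x y : FF → A} (hx : B.Om x) (hy : B.Om y) : B.Om (x + y) := by
  exact fun S => add_mem (hx S) (hy S)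

theorem Om.sub {x y : FF → A} (hx : B.Om x) (hy : B.Om y) : B.Om (x - y) := by
  exact fun S => sub_mem (hx S) (hy S)

theorem Om.smul {x : FF → A} (hx : B.Om x) {s : A} (hs : s ∈ B.W 0) : B.Om (s • x) := by
  exact fun S => B.mul_mem' hs (hx S) (zero_add _)

theorem Om.e1 {x : FF → A} (hx : B.Om x) {a : Fin 4 → A} (ha : B.Form1 a) : B.Om (e1 a x) := by
  rw [om_iff] at hx ⊢
  simp only [SX4.e1, LinearMap.sum_apply, LinearMap.smul_apply]
  exact OmW.sum fun α => (hx.cre (w' := -wt α) α (by simp)).smul (ha α) (by simp)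

theorem Om.e2 {x : FF → A} (hx : B.Om x) {b : Fin 4 → Fin 4 → A} (hb : B.Form2 b) :
    B.Om (e2 b x) := by
  rw [om_iff] at hx ⊢
  simp only [SX4.e2, LinearMap.sum_apply, LinearMap.smul_apply, Module.End.mul_apply]
  exact OmW.sum fun α => OmW.sum fun β => ((hx.cre (w' := -wt β) β (by simp)).cre
    (w' := -wt β - wt α) α (by simp)).smul (Submodule.smul_mem _ _ (hb α β).1) (by abel)

theorem Om.bb {x y : FF → A} (hx : B.Om x) (hy : B.Om y) : bb x y ∈ B.W 0 := by
  exact Submodule.sum_mem _ fun S _ => zsmul_mem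
    (B.mul_mem' (hx S) (hy Sᶜ) (by rw [← wF_compl S, neg_add_cancel])) _

theorem Om.zero_mem {x : FF → A} (hx : B.Om x) : x ∅ ∈ B.W 0 ∧ x Finset.univ ∈ B.W 0 := by
  exact ⟨LefOm_wF.1 ▸ hx ∅, LefOm_wF.2 ▸ hx Finset.univ⟩

theorem Om.form1 {x : FF → A} (hx : B.Om x) : B.Form1 fun α => x {α} := by
  intro α
  have := hx {α}
  rwa [wF, Finset.sum_singleton] at this

theorem Om.form2 {x : FF → A} (hx : B.Om x) :
    B.Form2 fun α β => ann A A β (ann A A α x) ∅ := by
  intro α β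
  refine ⟨?_, eq_neg_of_add_eq_zero_left (congrFun (LinearMap.congr_fun (ann_ann α β) x) ∅)⟩
  have := ((om_iff.1 hx).ann α (zero_add _)).ann β rfl ∅
  rwa [LefOm_wF.1, zero_add] at this

end Base

theorem hstar_hstar (x : FF → A) : hstar (hstar x) = x := by
  funext S
  rw [hstar, hstar, star_zsmul, star_star, compl_compl, smul_smul, (LefOm_bs S).1, one_smul]

theorem hstar_gam (x : FF → A) : hstar (gam A A x) = gam A A (hstar x) := by
  funext S
  rw [hstar, gam_apply, gam_apply, hstar, star_zsmul, (LefOm_bs S).2.2.1, smul_comm]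

theorem hstar_prj {k : ℕ} (hk : k ≤ 4) (x : FF → A) :
    hstar (prj A A k x) = prj A A (4 - k) (hstar x) := by
  funext S
  have := (LefOm_bs S).2.2.2
  rw [hstar, prj_apply, prj_apply, hstar]
  by_cases h : Sᶜ.card = k
  · rw [if_pos h, if_pos (by omega)]
  · rw [if_neg h, if_neg (by omega), star_zero, smul_zero]

theorem LefOm_neg (x : FF → A) : hstar (-x) = -hstar x :=
  funext fun S => by simp [hstar]

theorem LefOm_zero : hstar (0 : FF → A) = 0 :=
  funext fun S => by simp [hstar]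

theorem LefOm_sum {ι : Type} {Q : (FF → A) → Prop} (h0 : Q 0)
    (ha : ∀ x y, B.Om x → B.Om y → Q x → Q y → Q (x + y)) (s : Finset ι) {x : ι → FF → A}
    (h : ∀ i, B.Om (x i) ∧ Q (x i)) : Q (∑ i ∈ s, x i) :=
  (Finset.sum_induction x (fun y => B.Om y ∧ Q y)
    (fun _ _ h h' => ⟨h.1.add h'.1, ha _ _ h.1 h'.1 h.2 h'.2⟩) ⟨fun _ => Submodule.zero_mem _, h0⟩
    fun i _ => h i).2

namespace Calc

variable (G : Calc B)

theorem LefOm_cre (α : Fin 4) (x : FF → A) :
    cre A A α x = ∑ k, e1 (G.d0 (G.e k)) (G.θ α k • x) := by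
  simp only [e1, LinearMap.sum_apply, LinearMap.smul_apply, map_smul, Finset.smul_sum, smul_smul]
  rw [Finset.sum_comm]
  simp only [← Finset.sum_smul, Calc.d0, G.θ_dual, ite_smul, one_smul,
    zero_smul, Finset.sum_ite_eq, Finset.mem_univ, if_true]

/-- Forms are generated by functions and the differentials of the coordinates. -/
theorem om_ind {Q : (FF → A) → Prop} (h0 : ∀ s ∈ B.W 0, Q (s • vac A))
    (ha : ∀ x y, B.Om x → B.Om y → Q x → Q y → Q (x + y))
    (he : ∀ k x, B.Om x → Q x → Q (e1 (G.d0 (G.e k)) x)) {x : FF → A} (hx : B.Om x) : Q x := by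
  have Q0 : Q 0 := zero_smul A (vac A) ▸ h0 0 (zero_mem _)
  have key : ∀ (k : ℕ) (x : FF → A), B.Om x → Q (prj A A k x) := fun k => by
    induction k with
    | zero =>
      intro x hx
      rw [prj_zero]
      exact h0 _ hx.zero_mem.1
    | succ k ih =>
      have h1 : ∀ x, B.Om x → Q ((k + 1) • prj A A (k + 1) x) := fun x hx => by
        have h2 : ∀ j, B.Om (∑ α, G.θ α j • ann A A α x) := fun j => Base.om_iff.2
          (Base.OmW.sum fun α => ((Base.om_iff.1 hx).ann α rfl).smul (G.θ_mem α j) (by simp))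
        have h3 : (k + 1) • prj A A (k + 1) x =
            ∑ j, e1 (G.d0 (G.e j)) (prj A A k (∑ α, G.θ α j • ann A A α x)) := by
          rw [← sum_cre_ann]
          simp only [G.LefOm_cre, map_sum, map_smul (prj A A k), prj_ann]
          exact Finset.sum_comm
        rw [h3]
        exact LefOm_sum Q0 ha _ fun j => ⟨((h2 j).prj k).e1 (G.d0_form (G.e_re j).1),
          he j _ ((h2 j).prj k) (ih _ (h2 j))⟩
      intro x hx
      have h4 := h1 _ (hx.smul (B.algebraMap_mem ((k + 1 : ℕ) : ℂ)⁻¹))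
      rwa [map_smul, ← Nat.cast_smul_eq_nsmul A, smul_smul, ← map_natCast (algebraMap ℂ A),
        ← map_mul, mul_inv_cancel₀ (Nat.cast_ne_zero.2 k.succ_ne_zero), map_one, one_smul] at h4
  rw [← sum_prj (R := A) x]
  exact LefOm_sum Q0 ha _ fun k => ⟨hx.prj k, key k x hx⟩

theorem dF_smul (s : A) (x : FF → A) : G.dF (s • x) = e1 (G.d0 s) x + s • G.dF x := by
  exact G.car.d_smul s x

theorem dF_e1 (a : Fin 4 → A) (x : FF → A) :
    G.dF (e1 a x) = e2 (G.d1 a) x - e1 a (G.dF x) := by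
  exact G.car.d_e a x

theorem dF_d0 {s : A} (hs : s ∈ B.W 0) (x : FF → A) :
    G.dF (e1 (G.d0 s) x) = -e1 (G.d0 s) (G.dF x) := by
  have h : G.d1 (G.d0 s) = 0 := funext fun α => funext fun β => G.d1_d0 hs α β
  rw [dF_e1, h]
  simp [e2]

theorem dF_vac : G.dF (vac A) = 0 := by
  refine G.car.d_vac (fun α => funext fun S => ?_) ann_vac
  change G.D α (vac A S) = 0
  rcases eq_or_ne S ∅ with rfl | h
  · rw [vac, Pi.single_eq_same, G.D_one]
  · rw [vac, Pi.single_eq_of_ne h, map_zero]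

theorem LefOm_fn (s : A) : G.dF (s • vac A) = e1 (G.d0 s) (vac A) := by
  rw [dF_smul, dF_vac, smul_zero, add_zero]

theorem dF_dF {x : FF → A} (hx : B.Om x) : G.dF (G.dF x) = 0 := by
  refine G.om_ind (Q := fun x => G.dF (G.dF x) = 0) (fun s hs => ?_) (fun x y _ _ h h' => ?_)
    (fun k x _ h => ?_) hx
  · rw [LefOm_fn, G.dF_d0 hs, dF_vac, map_zero, neg_zero]
  · rw [map_add, map_add, h, h', add_zero]
  · rw [G.dF_d0 (G.e_re k).1, map_neg, G.dF_d0 (G.e_re k).1, h, map_zero, neg_zero, neg_zero]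

theorem dF_gam (x : FF → A) : G.dF (gam A A x) = -gam A A (G.dF x) := by
  have h : ∀ α, (fun S => G.D α (gam A A x S)) = gam A A fun S => G.D α (x S) := fun α =>
    funext fun S => map_zsmul _ _ _
  have h' : ∀ γ, ann A A γ (gam A A x) = -gam A A (ann A A γ x) := fun γ => by
    rw [gam_ann, neg_neg]
  simp only [dF_apply, h, h', map_sub, map_sum, map_smul, gam_cre, map_neg, neg_neg, smul_neg,
    Finset.sum_neg_distrib]
  abel

theorem dF_prj (k : ℕ) (x : FF → A) :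
    G.dF (prj A A k x) = prj A A (k + 1) (G.dF x) ∧ prj A A 0 (G.dF x) = 0 := by
  have h : ∀ α, (fun S => G.D α (prj A A k x S)) = prj A A k fun S => G.D α (x S) := fun α =>
    funext fun S => by
      rw [prj_apply, prj_apply]
      split_ifs
      exacts [rfl, map_zero _]
  have h' : ∀ β γ, prj A A k (cre A A β (ann A A γ x)) = cre A A β (ann A A γ (prj A A k x)) :=
    fun β γ => by
      rcases k with _ | k
      · rw [(prj_cre 0 _ _).2, prj_zero, map_smul, ann_vac, smul_zero, map_zero]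
      · rw [(prj_cre k _ _).1, prj_ann]
  constructor
  · simp only [dF_apply, h, h', map_sub, map_sum, map_smul, (prj_cre k _ _).1]
  · simp only [dF_apply, map_sub, map_sum, map_smul, (prj_cre k _ _).2, smul_zero,
      Finset.sum_const_zero, sub_zero]

theorem LefOm_deg (L : List A) :
    prj A A L.length ((L.map fun s => e1 (G.d0 s)).prod (vac A)) =
      (L.map fun s => e1 (G.d0 s)).prod (vac A) := by
  induction L with
  | nil => exact prj_vac 0
  | cons s L ih =>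
    rw [List.map_cons, List.prod_cons, Module.End.mul_apply, List.length_cons, (prj_e1 _ _ _).1, ih]

end Calc

namespace Pre

variable (G : Pre B)

theorem Bp_comm (x y : FF → A) : G.Bp x y = G.Bp y x := by
  rw [Bp, Bp, bb_comm]

theorem Bp_add (x y y' : FF → A) : G.Bp x (y + y') = G.Bp x y + G.Bp x y' := by
  rw [Bp, Bp, Bp, bb_comm, bb_add, map_add, bb_comm y, bb_comm y']

theorem Bp_sub (x y y' : FF → A) : G.Bp x (y - y') = G.Bp x y - G.Bp x y' := by
  rw [eq_sub_iff_add_eq, ← Bp_add, sub_add_cancel]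

theorem Bp_csmul (c : ℂ) (x y : FF → A) : G.Bp x (c • y) = c * G.Bp x y := by
  rw [Bp, Bp, bb_comm, ← algebraMap_smul A c y, bb_smul, ← Algebra.smul_def, map_smul, bb_comm,
    smul_eq_mul]

theorem Bp_smul (s : A) (x y : FF → A) : G.Bp (s • x) y = G.Bp x (s • y) := by
  rw [Bp, Bp, bb_smul, bb_comm x (s • y), bb_smul, bb_comm x]

theorem LefOm_Bp_neg (x y : FF → A) : G.Bp x (-y) = -G.Bp x y := by
  rw [← neg_one_smul ℂ y, Bp_csmul, neg_one_mul]

theorem LefOm_Bp_zero (x : FF → A) : G.Bp x 0 = 0 := by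
  rw [← zero_smul ℂ (0 : FF → A), Bp_csmul, zero_mul]

theorem LefOm_Bp_e1 (a : Fin 4 → A) (x y : FF → A) : G.Bp (e1 a x) y = G.Bp x (e1 a y) := by
  rw [Bp, Bp, bb_e1]

theorem LefOm_top {L : List A} (hL : ∀ s ∈ L, s ∈ B.W 0) :
    G.I ((L.map fun s => e1 (G.d0 s)).prod (vac A) Finset.univ) = 0 := by
  by_cases h : L.length = 4
  · obtain ⟨a, b, c, d, rfl⟩ := List.length_eq_four.1 h
    have ha := hL a (by simp)
    have hb := hL b (by simp)
    have hc := hL c (by simp)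
    have hd := hL d (by simp)
    rw [← G.stokes a ha b hb c hc d hd, ← e2_top (fun α β => (G.dd_form ha hb α β).2)
      fun α β => (G.dd_form hc hd α β).2, Calc.dd, Calc.dd, e2_w1, e2_w1]
    rfl
  · rw [← G.LefOm_deg, prj_apply, if_neg fun e => h e.symm, map_zero]

theorem LefOm_stokes {w : FF → A} (hw : B.Om w) : G.I (G.dF w Finset.univ) = 0 := by
  have app : ∀ (L : List A) (s : A) (v : FF → A), (∀ t ∈ L, t ∈ B.W 0) → s ∈ B.W 0 →
      (∀ t ∈ L ++ [s], t ∈ B.W 0) ∧ (L.map fun s => e1 (G.d0 s)).prod (e1 (G.d0 s) v) =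
        ((L ++ [s]).map fun s => e1 (G.d0 s)).prod v := fun L s v hL hs =>
    ⟨fun t ht => (List.mem_append.1 ht).elim (hL t) fun h => List.mem_singleton.1 h ▸ hs,
      by simp⟩
  refine G.om_ind (Q := fun w => ∀ L : List A, (∀ s ∈ L, s ∈ B.W 0) →
    G.I ((L.map fun s => e1 (G.d0 s)).prod (G.dF w) Finset.univ) = 0) (fun s hs L hL => ?_)
    (fun x y _ _ h h' L hL => ?_) (fun k x _ h L hL => ?_) hw [] (by simp)
  · rw [G.LefOm_fn, (app L s _ hL hs).2]
    exact G.LefOm_top (app L s 0 hL hs).1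
  · rw [map_add, map_add, Pi.add_apply, map_add, h L hL, h' L hL, add_zero]
  · rw [G.dF_d0 (G.e_re k).1, map_neg, Pi.neg_apply, map_neg, (app L _ _ hL (G.e_re k).1).2,
      h _ (app L _ 0 hL (G.e_re k).1).1, neg_zero]

/-- Stokes formula. -/
theorem Bp_dF {x y : FF → A} (hx : B.Om x) (hy : B.Om y) :
    G.Bp (G.dF x) y = -G.Bp x (G.dF y) := by
  refine G.om_ind (Q := fun x => ∀ y, B.Om y → G.Bp (G.dF x) y = -G.Bp x (G.dF y))
    (fun s hs y hy => ?_) (fun x x' _ _ h h' y hy => ?_) (fun k x _ h y hy => ?_) hx y hy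
  · rw [G.LefOm_fn, LefOm_Bp_e1, Bp_smul, eq_neg_iff_add_eq_zero, ← Bp_add, ← G.dF_smul, Bp, bb_vac]
    exact G.LefOm_stokes (hy.smul hs)
  · rw [map_add, Bp_comm, Bp_add, Bp_comm _ (x + x'), Bp_add, Bp_comm _ y, Bp_comm _ y, h y hy,
      h' y hy, neg_add, Bp_comm _ x, Bp_comm _ x']
  · rw [G.dF_d0 (G.e_re k).1, Bp_comm, LefOm_Bp_neg, Bp_comm, LefOm_Bp_e1,
      h _ (hy.e1 (G.d0_form (G.e_re k).1)), G.dF_d0 (G.e_re k).1, LefOm_Bp_neg, neg_neg,
      LefOm_Bp_e1]

theorem inner_Bp (x y : G.Sec wF) : inner ℂ x y = G.Bp (hstar x.c) y.c := by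
  rw [inner_complex, Bp, bb, map_sum]
  refine (Fintype.sum_equiv (Function.Involutive.toPerm compl compl_compl) _ _ fun S => ?_).symm
  rw [hstar, smul_mul_assoc, smul_smul, (LefOm_bs S).2.1, one_smul]
  rfl

theorem Bp_nd {x : FF → A} (hx : B.Om x) (h : ∀ z, B.Om z → G.Bp z x = 0) : x = 0 := by
  have h1 : (G.mk' x hx : G.Sec wF) = 0 :=
    (inner_self_eq_zero (𝕜 := ℂ)).1 ((G.inner_Bp _ _).trans (h _ hx.hstar))
  exact congrArg Sec.c h1

theorem closed_iff {b : Fin 4 → Fin 4 → A} (hb : B.Form2 b) :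
    G.Closed b ↔ G.dF (e2 b (vac A)) = 0 := by
  have key : ∀ a, B.Form1 a →
      G.I (wg b (G.d1 a)) = G.Bp (e1 a (vac A)) (G.dF (e2 b (vac A))) := fun a ha => by
    rw [Bp_comm, G.Bp_dF (Base.Om.vac.e2 hb) (Base.Om.vac.e1 ha), G.dF_e1, G.dF_vac, map_zero,
      sub_zero, Bp, bb_e2, bb_vac, map_neg, neg_neg,
      e2_top (fun α β => (hb α β).2) fun α β => (G.d1_form ha α β).2]
  refine ⟨fun h => G.Bp_nd (G.dF_om (Base.Om.vac.e2 hb)) fun z hz => ?_, fun h p hp q hq => ?_⟩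
  · have h1 : G.dF (e2 b (vac A)) = prj A A 3 (G.dF (e2 b (vac A))) := by
      rw [← (G.dF_prj 2 _).1, prj_e2]
    rw [h1, Bp, ← bb_prj (k := 1) (by norm_num), prj_one, ← Bp, ← key _ hz.form1]
    exact h.d1 hz.form1
  · have h1 : G.dd p q = G.d1 fun γ => p * G.D γ q :=
      funext fun α => funext fun β => (G.d1_mul_d0 p hq α β).symm
    rw [h1, key (fun γ => p * G.D γ q) fun γ => B.mul_mem' hp (G.d0_form hq γ) (zero_add _), h,
      LefOm_Bp_zero]

theorem dS_adj (x y : G.Sec wF) : inner ℂ (G.dS x) y = inner ℂ x (G.δS y) := by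
  have h : inner ℂ y (G.dS x) = inner ℂ (G.δS y) x := by
    rw [inner_Bp, inner_Bp, δS_c, LefOm_neg, hstar_hstar, Bp_comm _ (-_), LefOm_Bp_neg,
      Bp_comm _ x.c, G.Bp_dF (Base.Om.hstar y.mem) x.mem, neg_neg, dS_c]
  rw [← inner_conj_symm, h, inner_conj_symm]

theorem ΓS_adj (x y : G.Sec wF) : inner ℂ (G.ΓS x) y = inner ℂ x (G.ΓS y) := by
  rw [inner_Bp, inner_Bp, ΓS_c, ΓS_c, hstar_gam, Bp, Bp, bb_gam]

theorem prS_adj (k : ℕ) (x y : G.Sec wF) : inner ℂ (G.prS k x) y = inner ℂ x (G.prS k y) := by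
  rw [inner_complex, inner_complex]
  refine Finset.sum_congr rfl fun S _ => ?_
  rw [prS_c, prS_c, prj_apply, prj_apply]
  split_ifs
  · rfl
  · rw [star_zero, zero_mul, mul_zero]

theorem dS_dS (x : G.Sec wF) : G.dS (G.dS x) = 0 := by
  exact Sec.ext (congrFun (G.dF_dF x.mem))

theorem δS_δS (x : G.Sec wF) : G.δS (G.δS x) = 0 := by
  refine Sec.ext (congrFun ?_)
  rw [δS_c, δS_c, LefOm_neg, hstar_hstar, map_neg, G.dF_dF (Base.Om.hstar x.mem), neg_zero,
    LefOm_zero, neg_zero]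
  rfl

theorem dS_ΓS (x : G.Sec wF) : G.dS (G.ΓS x) = -G.ΓS (G.dS x) := by
  exact Sec.ext (congrFun (G.dF_gam x.c))

theorem δS_ΓS (x : G.Sec wF) : G.δS (G.ΓS x) = -G.ΓS (G.δS x) := by
  refine Sec.ext (congrFun ?_)
  change _ = -(G.ΓS (G.δS x)).c
  rw [δS_c, ΓS_c, ΓS_c, δS_c, hstar_gam, G.dF_gam, LefOm_neg, hstar_gam, map_neg]

theorem LefOm_Hk {k : ℕ} {x : G.Sec wF} : x ∈ G.Hk k ↔
    (G.dF x.c = 0 ∧ G.dF (hstar x.c) = 0) ∧ prj A A k x.c = x.c := by
  refine and_congr (and_congr ⟨congrArg Sec.c, fun h => Sec.ext (congrFun h)⟩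
    ⟨fun h => ?_, fun h => Sec.ext (congrFun ?_)⟩) ⟨congrArg Sec.c, fun h => Sec.ext (congrFun h)⟩
  · have h1 : -hstar (G.dF (hstar x.c)) = 0 := congrArg Sec.c h
    rw [← hstar_hstar (G.dF _), neg_eq_zero.1 h1, LefOm_zero]
  · rw [δS_c, h, LefOm_zero, neg_zero]
    rfl

theorem Hm_pr {x : G.Sec wF} (hx : x ∈ G.Hm) (k : ℕ) : G.prS k x ∈ G.Hk k := by
  have h1 : G.dF x.c = 0 := congrArg Sec.c hx.1
  have h2 : -hstar (G.dF (hstar x.c)) = 0 := congrArg Sec.c hx.2
  have h3 : G.dF (hstar x.c) = 0 := by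
    rw [← hstar_hstar (G.dF _), neg_eq_zero.1 h2, LefOm_zero]
  rw [LefOm_Hk, prS_c, prj_prj, if_pos rfl, (G.dF_prj k _).1, h1, map_zero]
  refine ⟨⟨rfl, ?_⟩, rfl⟩
  rcases le_or_gt k 4 with h | h
  · rw [hstar_prj h, (G.dF_prj _ _).1, h3, map_zero]
  · have h4 : prj A A k x.c = 0 := funext fun S => by
      have := (LefOm_bs S).2.2.2
      rw [prj_apply, if_neg (by omega)]
      rfl
    rw [h4, LefOm_zero, map_zero]

theorem Hk_star {k : ℕ} (hk : k ≤ 4) {x y : G.Sec wF} (hx : x ∈ G.Hk k) (h : y.c = hstar x.c) :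
    y ∈ G.Hk (4 - k) := by
  rw [LefOm_Hk] at hx ⊢
  rw [h, hstar_hstar, ← hstar_prj hk, hx.2]
  exact ⟨hx.1.symm, rfl⟩

end Pre

end SX4
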