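import Pool.Agent.P.MP_0a0487_an.SX.LefBiT
import Pool.Agent.P.MP_0a0487_an.SX.LefOm
import Pool.Agent.P.MP_0a0487_an.SX.ThomP
import Pool.Agent.P.MP_0a0487_an.SX.Misc

/-! Estimates for the Thom form at small scales. -/

set_option autoImplicit false
set_option linter.unusedSectionVars false

noncomputable section

namespace SX4

open scoped ComplexOrder ContDiff
open Filter Topology

variable {P A : Type} [TopologicalSpace P] [CompactSpace P] [CommRing A] [StarRing A] [Algebra ℂ A]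
  [StarModule ℂ A] {B : Base P A}

theorem Calc.Tay.exists_near {G : Calc B} (h : G.Tay) : ∃ b : ℝ, 0 < b ∧ G.Near b := by
  obtain ⟨K, -, hK, -⟩ := G.exists_bound
  obtain ⟨δ, hδ, hn⟩ := h.normal (1 / 2) (by norm_num)
  refine ⟨δ ^ 2 / 2, by positivity, 2 * K, fun p q hpq => ?_⟩
  have h1 := hn p q (thomP_norm_le hδ.le (hpq.trans_eq (by ring)))
  have h2 := hK p (G.co p (G.E q - G.E p))
  have h3 := norm_le_norm_sub_add (G.E q - G.E p) (G.dE p (G.co p (G.E q - G.E p)))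
  linarith

theorem exists_prof {b : ℝ} (hb : 0 < b) : ∃ φ κ, Prof φ κ b := by
  obtain ⟨φ, h1, h2, h3, h4, h5⟩ := thomP_phi one_pos
  obtain ⟨κ, k1, k2, k3, k4, k5⟩ := thomP_kappa hb
  exact ⟨φ, κ, hb, h1, h2, h3, h4, by simpa only [one_pow] using h5, k1, k2, k3, k4, k5⟩

variable {φ κ : ℝ → ℝ} {b : ℝ}

theorem Prof.scl_sm (hp : Prof φ κ b) (a : ℝ) : ContDiff ℝ ∞ (scl φ a) :=
  hp.φ_sm.comp (contDiff_id.div_const a)

theorem Prof.deriv_scl (hp : Prof φ κ b) (a r : ℝ) :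
    deriv (scl φ a) r = deriv φ (r / a) / a := by
  have h := ((hp.φ_sm.differentiable (by simp) (r / a)).hasDerivAt.comp r
    ((hasDerivAt_id r).div_const a)).deriv
  rw [mul_one_div] at h
  exact h

/-- The support of the Thom form shrinks to the diagonal. -/
theorem Calc.Near.supp {G : Calc B} (hn : G.Near b) (hp : Prof φ κ b) {δ : ℝ} (hδ : 0 < δ) :
    ∀ᶠ a in 𝓝[>] (0 : ℝ), ∀ y p, (B.ev (G.r2 (G.E y)) p).re ≤ 2 * b → δ ≤ ‖G.E y - G.E p‖ →
      ∃ j, scl φ a (B.ev (G.ρ (G.E y) j) p).re = 0 ∧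
        deriv (scl φ a) (B.ev (G.ρ (G.E y) j) p).re = 0 := by
  obtain ⟨C, hC⟩ := hn
  refine thomP_small (δ := δ ^ 2 / (8 * C ^ 2 + 1)) (by positivity) fun a ha ha' y p h1 h2 => ?_
  rw [le_div_iff₀ (by positivity)] at ha'
  rw [G.ev_r2, Complex.ofReal_re] at h1
  have h3 : δ ^ 2 ≤ (C * ‖G.co p (G.E y - G.E p)‖) ^ 2 :=
    pow_le_pow_left₀ hδ.le (h2.trans (hC p y h1)) 2
  have h4 := norm_sq_le_cx (G.co p (G.E y - G.E p))
  have e0 := G.thomP_ev_ρ (G.E y) 0 p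
  have e1 := G.thomP_ev_ρ (G.E y) 1 p
  simp only [Matrix.cons_val_zero, Matrix.cons_val_one] at e0 e1
  rw [← e0, ← e1] at h4
  have h5 : ∃ j, a ≤ (B.ev (G.ρ (G.E y) j) p).re := by
    by_contra hc
    push Not at hc
    have h6 := mul_le_mul_of_nonneg_left
      (h4.trans (by linarith [hc 0, hc 1] : _ ≤ 8 * a)) (sq_nonneg C)
    rw [mul_pow] at h3
    linarith
  obtain ⟨j, hj⟩ := h5
  have h6 := hp.φ_supp _ ((one_le_div ha).2 hj)
  exact ⟨j, h6.1, by rw [hp.deriv_scl, h6.2, zero_div]⟩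

theorem Calc.Near.cut {G : Calc B} (hn : G.Near b) (hp : Prof φ κ b) :
    ∀ᶠ a in 𝓝[>] (0 : ℝ), ∀ y, G.CutOK (scl φ a) κ (G.E y) := by
  have hb := hp.pos
  filter_upwards [hn.supp hp (δ := √(b / (G.N + 1))) (by positivity)] with a ha y p h
  obtain ⟨h1, h2⟩ := hp.κ_der _ h
  refine ha y p h2 (Real.sqrt_le_iff.2 ⟨norm_nonneg _, ?_⟩)
  rw [G.ev_r2, Complex.ofReal_re] at h1
  rw [div_le_iff₀' (by positivity)]
  exact h1.trans (thomP_sum_le (G.E y - G.E p))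

theorem LefEst_bd {ι : Type} [Fintype ι] (s : ι → A) :
    ∃ M : ℝ, 0 ≤ M ∧ ∀ i p, ‖B.ev (s i) p‖ ≤ M :=
  ⟨‖fun i => B.ev (s i)‖, norm_nonneg _, fun i p =>
    ((B.ev (s i)).norm_coe_le_norm p).trans (norm_le_pi_norm (fun i => B.ev (s i)) i)⟩

theorem LefEst_bb (x y : FF → A) (p : P) {a c : ℝ} (ha : 0 ≤ a) (hx : ∀ S, ‖B.ev (x S) p‖ ≤ a)
    (hy : ∀ S, ‖B.ev (y S) p‖ ≤ c) : ‖B.ev (bb x y) p‖ ≤ 16 * (a * c) := by
  rw [← B.evAt_apply, bb, map_sum]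
  refine (norm_sum_le_of_le _ (n := fun _ => a * c) fun S _ => ?_).trans_eq ?_
  · rw [map_zsmul, map_mul, zsmul_eq_mul, norm_mul, norm_mul, bs]
    simp only [Int.cast_pow, Int.cast_neg, Int.cast_one, norm_pow, norm_neg, norm_one, one_pow,
      one_mul]
    exact mul_le_mul (hx S) (hy Sᶜ) (norm_nonneg _) ha
  · simp

theorem LefEst_I (G : Pre B) {s t : A} {L : ℝ} (h : ∀ p, ‖B.ev s p‖ ≤ L * (B.ev t p).re) :
    ‖G.I s‖ ≤ L * (G.I t).re := by
  have := G.I_norm_le (s := s) (t := (L : ℂ) • t) fun p => by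
    rw [map_smul, ContinuousMap.smul_apply, smul_eq_mul, Complex.re_ofReal_mul]
    exact h p
  rwa [map_smul, smul_eq_mul, Complex.re_ofReal_mul] at this

theorem LefEst_X (G : Calc B) : ∃ K : ℝ, 0 < K ∧ ∀ (z : Fin G.N → ℝ) (p : P) (a α : Fin 4),
    ‖B.ev (G.D α (G.σ z a)) p + if a = α then 1 else 0‖ ≤ K * ‖z - G.E p‖ := by
  obtain ⟨M, hM, h⟩ := LefEst_bd (B := B) fun i : Fin 4 × Fin 4 × Fin G.N =>
    G.D i.1 (G.θ i.2.1 i.2.2)
  refine ⟨G.N * M + 1, by positivity, fun z p a α => ?_⟩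
  have e : B.ev (G.D α (G.σ z a)) p + (if a = α then 1 else 0) =
      ∑ k, B.ev (G.D α (G.θ a k)) p * ((z - G.E p) k : ℝ) := by
    rw [G.thomA_Dσ, Finset.sum_sub_distrib, G.θ_dual, ← B.evAt_apply, map_sub, apply_ite (B.evAt p),
      map_one, map_zero, sub_add_cancel, map_sum]
    refine Finset.sum_congr rfl fun k _ => ?_
    rw [map_mul, map_sub, AlgHom.commutes, B.evAt_apply, B.evAt_apply, G.ev_e]
    simp
  rw [e]
  refine (norm_sum_le_of_le _ (n := fun _ => M * ‖z - G.E p‖) fun k _ => ?_).trans ?_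
  · rw [norm_mul, Complex.norm_real]
    exact mul_le_mul (h (α, a, k) p) (norm_le_pi_norm (z - G.E p) k) (norm_nonneg _) hM
  · rw [Finset.sum_const, Finset.card_univ, Fintype.card_fin, nsmul_eq_mul, ← mul_assoc]
    exact mul_le_mul_of_nonneg_right (by linarith) (norm_nonneg _)

theorem LefEst_pt {G : Calc B} (hn : G.Near b) (hp : Prof φ κ b) (u : Fin G.N → A) :
    ∃ C : ℝ, 0 ≤ C ∧ ∀ δ > 0, ∀ᶠ a in 𝓝[>] (0 : ℝ), ∀ y y' p, G.Eu u y = G.E y' →
      ∃ μ : ℝ, 0 ≤ μ ∧ (∀ T T', ‖B.ev (G.thomK (scl φ a) κ u y T T') p‖ ≤ C * μ) ∧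
        μ ≤ (B.ev (G.thomD (scl φ a) κ (G.cst (G.E y'))) p).re ∧
        (μ ≠ 0 → ‖G.E y' - G.E p‖ ≤ δ) := by
  obtain ⟨K, hK, hX⟩ := LefEst_X G
  obtain ⟨M1, hM1, h1⟩ := LefEst_bd (B := B) fun i : Fin 2 × Fin 4 × Fin 4 => G.F i.1 i.2.1 i.2.2
  obtain ⟨M2, hM2, h2⟩ := LefEst_bd (B := B) fun i : Fin 4 × Fin G.N => G.D i.1 (u i.2)
  obtain ⟨M3, hM3, h3⟩ := LefEst_bd (B := B) fun i : Fin 4 × Fin G.N => G.θ i.1 i.2
  have hM4 : 0 ≤ G.N * (M2 * M3) := by positivity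
  obtain ⟨C, hC, hb⟩ := biT_bound (2 + M1 + G.N * (M2 * M3))
  obtain ⟨η, hη, ht⟩ := topT_pos M1
  refine ⟨2 * C, by positivity, fun δ hδ => ?_⟩
  have hη' : 0 < min η 1 := lt_min hη one_pos
  filter_upwards [hn.supp hp (δ := min δ (min η 1 / K)) (by positivity), Ioc_mem_nhdsGT hη']
    with a hs ha y y' p e
  have s0 := fun j => (G.app_spec (hp.scl_sm a) (G.ρ_re (G.E y') j)).2.1 p
  have s1 := fun j =>
    (G.app_spec (contDiff_infty_iff_deriv.1 (hp.scl_sm a)).2 (G.ρ_re (G.E y') j)).2.1 p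
  have s2 := (G.app_spec hp.κ_sm (G.r2_re (G.E y'))).2.1 p
  have h4 : ∀ j, ∃ t : ℝ, |t| ≤ a ∧ scl φ a (B.ev (G.ρ (G.E y') j) p).re =
      t * deriv (scl φ a) (B.ev (G.ρ (G.E y') j) p).re := fun j => by
    obtain ⟨t, h5, h6⟩ := hp.φ_div ((B.ev (G.ρ (G.E y') j) p).re / a)
      (div_nonneg (by rw [G.thomP_ev_ρ]; positivity) ha.1.le)
    refine ⟨t * a, ?_, ?_⟩
    · rw [abs_mul, abs_of_pos ha.1]
      exact mul_le_of_le_one_left ha.1.le h5
    · rw [hp.deriv_scl, mul_assoc, mul_div_cancel₀ _ ha.1.ne']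
      exact h6
  choose t ht1 ht2 using h4
  have e1 : (fun j => B.evAt p (B.app (scl φ a) (G.ρ (G.E y') j))) =
      fun j => (t j : ℂ) * B.evAt p (B.app (deriv (scl φ a)) (G.ρ (G.E y') j)) := funext fun j => by
    rw [B.evAt_apply, B.evAt_apply, s0, s1, ht2, Complex.ofReal_mul]
  obtain ⟨μ, hμ⟩ : ∃ μ : ℝ, μ = κ (B.ev (G.r2 (G.E y')) p).re *
    deriv (scl φ a) (B.ev (G.ρ (G.E y') 0) p).re *
      deriv (scl φ a) (B.ev (G.ρ (G.E y') 1) p).re := ⟨_, rfl⟩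
  have e2 : B.evAt p (B.app κ (G.r2 (G.E y'))) *
      B.evAt p (B.app (deriv (scl φ a)) (G.ρ (G.E y') 0)) *
      B.evAt p (B.app (deriv (scl φ a)) (G.ρ (G.E y') 1)) = μ := by
    rw [B.evAt_apply, B.evAt_apply, B.evAt_apply, s1, s1, s2, hμ, Complex.ofReal_mul,
      Complex.ofReal_mul]
  have hd : ∀ r, deriv (scl φ a) r ≤ 0 := fun r => by
    rw [hp.deriv_scl]
    exact div_nonpos_of_nonpos_of_nonneg (hp.φ_le _) ha.1.le
  have hμ0 : 0 ≤ μ := by
    rw [hμ, mul_assoc]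
    exact mul_nonneg (hp.κ_nonneg _) (mul_nonneg_of_nonpos_of_nonpos (hd _) (hd _))
  have eK : ∀ T T', B.ev (G.thomK (scl φ a) κ u y T T') p = μ * biT 1 1 (fun j => (t j : ℂ))
      (fun c α => B.ev (G.D α (G.σ (G.E y') c)) p)
      (fun c β => B.ev (∑ k, B.ev (G.D β (u k)) y • G.θ c k) p)
      (fun j α β => B.ev (G.F j α β) p) T T' := fun T T' => by
    rw [Calc.thomK, e, ← B.evAt_apply, biT_map, e1, biT_hom, e2]
    rfl
  have eD : B.ev (G.thomD (scl φ a) κ (G.cst (G.E y'))) p = μ * topT 1 1 (fun j => (t j : ℂ))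
      (fun c α => B.ev (G.D α (G.σ (G.E y') c)) p) (fun j α β => B.ev (G.F j α β) p) := by
    have e3 := topT_map (B.evAt p) (B.app κ (G.r2 (G.E y')))
      (fun j => B.app (deriv (scl φ a)) (G.ρ (G.E y') j))
      (fun j => B.app (scl φ a) (G.ρ (G.E y') j)) (fun c α => G.D α (G.σ (G.E y') c)) G.F
    rw [e1, topT_hom, e2] at e3
    exact e3
  by_cases h0 : μ = 0
  · refine ⟨0, le_rfl, fun T T' => ?_, ?_, fun h => absurd rfl h⟩
    · simp [eK, h0]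
    · simp [eD, h0]
  have hw : ‖G.E y' - G.E p‖ < min δ (min η 1 / K) := by
    by_contra hc
    rw [hμ] at h0
    obtain ⟨j, -, hj⟩ := hs y' p (hp.κ_supp _ (left_ne_zero_of_mul (left_ne_zero_of_mul h0)))
      (not_lt.1 hc)
    fin_cases j
    · exact right_ne_zero_of_mul (left_ne_zero_of_mul h0) hj
    · exact right_ne_zero_of_mul h0 hj
  have hx : ∀ c α, ‖B.ev (G.D α (G.σ (G.E y') c)) p + if c = α then 1 else 0‖ ≤ min η 1 :=
    fun c α => (hX _ p c α).trans ((le_div_iff₀' hK).1 (hw.le.trans (min_le_right _ _)))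
  have hT : ‖fun j => (t j : ℂ)‖ ≤ min η 1 := (pi_norm_le_iff_of_nonneg hη'.le).2 fun j => by
    rw [Complex.norm_real]
    exact (ht1 j).trans ha.2
  have hF : ‖fun j α β => B.ev (G.F j α β) p‖ ≤ M1 := (pi_norm_le_iff_of_nonneg hM1).2 fun j =>
    (pi_norm_le_iff_of_nonneg hM1).2 fun α => (pi_norm_le_iff_of_nonneg hM1).2 fun β =>
      h1 (j, α, β) p
  have hx' : ‖fun c α => B.ev (G.D α (G.σ (G.E y') c)) p‖ ≤ 2 :=
    (pi_norm_le_iff_of_nonneg two_pos.le).2 fun c =>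
      (pi_norm_le_iff_of_nonneg two_pos.le).2 fun α => by
      have h5 := norm_le_add_norm_add (B.ev (G.D α (G.σ (G.E y') c)) p) (if c = α then 1 else 0)
      have h6 : ‖(if c = α then 1 else 0 : ℂ)‖ ≤ 1 := by split_ifs <;> simp
      linarith [hx c α, min_le_right η 1]
  have hy : ‖fun c β => B.ev (∑ k, B.ev (G.D β (u k)) y • G.θ c k) p‖ ≤ G.N * (M2 * M3) :=
    (pi_norm_le_iff_of_nonneg hM4).2 fun c => (pi_norm_le_iff_of_nonneg hM4).2 fun β => by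
      rw [← B.evAt_apply, map_sum]
      refine (norm_sum_le_of_le _ (n := fun _ => M2 * M3) fun k _ => ?_).trans_eq (by simp)
      rw [map_smul, norm_smul]
      exact mul_le_mul (h2 (β, k) y) (h3 (c, k) p) (norm_nonneg _) hM2
  refine ⟨μ / 2, by positivity, fun T T' => ?_, ?_, fun _ => hw.le.trans (min_le_left _ _)⟩
  · rw [eK, norm_mul, Complex.norm_real, Real.norm_of_nonneg hμ0]
    refine (mul_le_mul_of_nonneg_left (hb _ _ _ _ (by linarith [min_le_right η 1]) (by linarith)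
      (by linarith) (by linarith) T T') hμ0).trans_eq (by ring)
  · rw [eD, Complex.re_ofReal_mul, div_eq_mul_one_div]
    exact mul_le_mul_of_nonneg_left (ht _ _ _ (hT.trans (min_le_left _ _))
      (fun c α => (hx c α).trans (min_le_left _ _)) hF) hμ0

/-- The commutator estimate. -/
theorem Map.lef_comm {G : Pre B} (ht : G.Tay) (hn : G.Near b) (hp : Prof φ κ b) (f : Map G)
    {S : ℝ → G.Sec wF →ₗ[ℂ] G.Sec wF}
    (hS : ∀ᶠ a in 𝓝[>] (0 : ℝ), IsKer G (G.thomK (scl φ a) κ fun k => f.Φ (G.e k)) (S a)) {C : ℝ}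
    (hb : ∀ᶠ a in 𝓝[>] (0 : ℝ), ∀ y, ‖G.I (G.thomD (scl φ a) κ (G.cst (G.E y)))‖ ≤ C) {s : A}
    (hs : s ∈ B.W 0) {x x' : G.Sec wF} (hx : x'.c = s • x.c) {z : FF → A} (hz : B.Om z) :
    Tendsto (fun a => G.Bp z ((S a x').c - f.Φ s • (S a x).c)) (𝓝[>] 0) (𝓝 0) := by
  obtain ⟨C₁, hC₁, hpt⟩ := LefEst_pt hn hp fun k => f.Φ (G.e k)
  obtain ⟨M1, hM1, h1⟩ := LefEst_bd (B := B) x.c
  obtain ⟨M2, hM2, h2⟩ := LefEst_bd (B := B) z
  have key : ∀ ε > 0, ∀ᶠ a in 𝓝[>] (0 : ℝ), ‖G.Bp z ((S a x').c - f.Φ s • (S a x).c)‖ ≤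
      16 * (M2 * (16 * (C₁ * M1) * C)) * (G.I 1).re * ε := fun ε hε => by
    obtain ⟨δ, hδ, hu⟩ := ht.uc hs ε hε
    filter_upwards [hpt δ hδ, hS, hb] with a h3 h4 h5
    have h6 : ∀ T y, ‖B.ev (((S a x').c - f.Φ s • (S a x).c) T) y‖ ≤ 16 * (C₁ * M1) * ε * C := by
      intro T y
      have e : B.ev (((S a x').c - f.Φ s • (S a x).c) T) y =
          G.I ((s - algebraMap ℂ A (B.ev s (f.pt y))) *
            bb (G.thomK (scl φ a) κ (fun k => f.Φ (G.e k)) y T) x.c) := by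
        rw [Pi.sub_apply, Pi.smul_apply, smul_eq_mul, map_sub, map_mul, ContinuousMap.sub_apply,
          ContinuousMap.mul_apply, h4.eq, h4.eq, f.ev_eq s hs, hx, Pre.Bp, Pre.Bp, sub_mul, map_sub,
          ← Algebra.smul_def, map_smul, smul_eq_mul, bb_comm _ (s • x.c), bb_smul, bb_comm x.c]
      rw [e]
      refine (LefEst_I G (t := G.thomD (scl φ a) κ (G.cst (G.E (f.pt y))))
        (L := 16 * (C₁ * M1) * ε) fun p => ?_).trans
        (mul_le_mul_of_nonneg_left ((Complex.re_le_norm _).trans (h5 _)) (by positivity))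
      obtain ⟨μ, hμ, h7, h8, h9⟩ := h3 y (f.pt y) p (funext fun k =>
        congrArg Complex.re (f.ev_eq _ (G.e_re k).1 y))
      have h10 := LefEst_bb _ x.c p (mul_nonneg hC₁ hμ) (h7 T) fun T' => h1 T' p
      refine le_trans ?_ (mul_le_mul_of_nonneg_left h8 (by positivity))
      rw [← B.evAt_apply, map_mul, map_sub, AlgHom.commutes, norm_mul, B.evAt_apply, B.evAt_apply]
      by_cases h0 : μ = 0
      · rw [h0] at h10 ⊢
        rw [norm_le_zero_iff.1 (h10.trans_eq (by ring)), norm_zero, mul_zero, mul_zero]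
      · refine (mul_le_mul ((norm_sub_rev _ _).trans_le (hu p _ (h9 h0))) h10 (norm_nonneg _)
          hε.le).trans_eq (by ring)
    refine (LefEst_I G (t := 1) (L := 16 * (M2 * (16 * (C₁ * M1) * ε * C))) fun p => ?_).trans_eq
      (by ring)
    simpa using LefEst_bb z _ p hM2 (fun T => h2 T p) fun T => h6 T p
  generalize 16 * (M2 * (16 * (C₁ * M1) * C)) * (G.I 1).re = K at key
  refine NormedAddGroup.tendsto_nhds_zero.2 fun ε hε => ?_
  filter_upwards [key (ε / (|K| + 1)) (by positivity)] with a ha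
  refine ha.trans_lt ?_
  rw [← mul_div_assoc, div_lt_iff₀ (by positivity), mul_comm ε]
  exact mul_lt_mul_of_pos_right ((le_abs_self K).trans_lt (lt_add_one _)) hε

end SX4
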