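import Pool.Agent.P.MP_0a0487_an.SX.LefDelta
import Pool.Agent.P.MP_0a0487_an.SX.LefEst
import Pool.Agent.P.MP_0a0487_an.SX.Int

/-! The Thom form localises at the zeros of a section. -/

set_option autoImplicit false
set_option linter.unusedSectionVars false

noncomputable section

namespace SX4

open scoped ComplexOrder ContDiff
open Filter Topology

variable {P A : Type} [TopologicalSpace P] [CompactSpace P] [CommRing A] [StarRing A] [Algebra ℂ A]
  [StarModule ℂ A] {B : Base P A}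

open MeasureTheory

/-- The product of two profiles. -/
def lefLocψ (f g : ℝ → ℝ) (v : E4) : ℝ := f (‖cx v 0‖ ^ 2) * g (‖cx v 2‖ ^ 2)

/-- The complex coordinates as linear maps. -/
def lefLocL (a : Fin 4) : E4 →L[ℝ] ℂ :=
  LinearMap.toContinuousLinearMap
    { toFun := fun v => cx v a
      map_add' := fun v w => congrFun (cx_add v w) a
      map_smul' := fun c v => congrFun (cx_smul c v) a }

theorem lefLocψ_cont {f g : ℝ → ℝ} (hf : Continuous f) (hg : Continuous g) :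
    Continuous (lefLocψ f g) :=
  (hf.comp ((lefLocL 0).continuous.norm.pow 2)).mul (hg.comp ((lefLocL 2).continuous.norm.pow 2))

theorem lefLocψ_supp {f g : ℝ → ℝ} (hf : ∀ r, 1 ≤ r → f r = 0) (hg : ∀ r, 1 ≤ r → g r = 0) :
    HasCompactSupport (lefLocψ f g) := by
  refine HasCompactSupport.intro (isCompact_closedBall 0 3) fun v hv => ?_
  rw [mem_closedBall_zero_iff, not_le] at hv
  have h := norm_sq_le_cx v
  by_cases h0 : 1 ≤ ‖cx v 0‖ ^ 2
  · rw [lefLocψ, hf _ h0, zero_mul]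
  · rw [lefLocψ, hg _ (by nlinarith), mul_zero]

theorem lefLocψ_smul (f g : ℝ → ℝ) {a : ℝ} (ha : 0 < a) (v : E4) :
    lefLocψ f g ((√a)⁻¹ • v) = f (‖cx v 0‖ ^ 2 / a) * g (‖cx v 2‖ ^ 2 / a) := by
  have e : ∀ i, ‖cx ((√a)⁻¹ • v) i‖ ^ 2 = ‖cx v i‖ ^ 2 / a := fun i => by
    rw [cx_smul, Pi.smul_apply, norm_smul, mul_pow, Complex.norm_real, Real.norm_eq_abs, sq_abs,
      inv_pow, Real.sq_sqrt ha.le, div_eq_inv_mul]
  rw [lefLocψ, e, e]

namespace Calc

variable (G : Calc B) {u : Fin G.N → A} (hu : ∀ k, B.Re0 (u k))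

/-- The section in real coordinates. -/
def lefLocw (u : Fin G.N → A) (q : P) : E4 := G.co q (G.Eu u q - G.E q)

/-- The coefficients of the Thom form. -/
def lefLocW (u : Fin G.N → A) : Fin 4 → A :=
  ![G.jac u, -wg (w1 (G.d0 (G.σu u 1)) (G.d0 (G.σu u 0))) (G.F 1),
    -wg (G.F 0) (w1 (G.d0 (G.σu u 3)) (G.d0 (G.σu u 2))), wg (G.F 0) (G.F 1)]

theorem lefLoc_jac (u : Fin G.N → A) : G.jac u =
    wg (w1 (G.d0 (G.σu u 1)) (G.d0 (G.σu u 0))) (w1 (G.d0 (G.σu u 3)) (G.d0 (G.σu u 2))) := by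
  rw [jac, ← topT_det _ G.F]
  simp only [topT, wg, w1, d0, Pi.one_apply, Pi.zero_apply]
  ring

theorem lefLoc_thomD (φ κ : ℝ → ℝ) (u : Fin G.N → A) : G.thomD φ κ u = B.app κ (G.ru u) *
    (B.app (deriv φ) (G.ρu u 0) * B.app (deriv φ) (G.ρu u 1) * G.lefLocW u 0 +
      B.app (deriv φ) (G.ρu u 0) * B.app φ (G.ρu u 1) * G.lefLocW u 1 +
      B.app φ (G.ρu u 0) * B.app (deriv φ) (G.ρu u 1) * G.lefLocW u 2 +
      B.app φ (G.ρu u 0) * B.app φ (G.ρu u 1) * G.lefLocW u 3) := by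
  simp only [thomD, topT, lefLocW, lefLoc_jac, wg, w1, d0, Matrix.cons_val_zero,
    Matrix.cons_val_one, Matrix.cons_val]
  ring

include hu

theorem lefLoc_ev_u (k : Fin G.N) (q : P) : B.ev (u k) q = G.Eu u q k :=
  Complex.ext rfl ((B.re0_iff.1 (hu k)).2 q)

theorem lefLoc_σ_mem (a : Fin 4) : G.σu u a ∈ B.W (-wt a) :=
  Submodule.sum_mem _ fun k _ => B.mul_mem' (G.θ_mem a k)
    (sub_mem (hu k).1 (G.e_re k).1) (add_zero _)

theorem lefLoc_ρ_re (j : Fin 2) : B.Re0 (G.ρu u j) := by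
  have h : ∀ a, star (G.σu u a) = G.σu u (bar a) := fun a => by
    simp only [σu, star_sum, star_mul', star_sub, G.θ_star, (G.e_re _).2, (hu _).2]
  exact ⟨B.mul_mem' (G.lefLoc_σ_mem hu _) (G.lefLoc_σ_mem hu _) (thomA_wt j), by
    rw [ρu, star_mul', h, h, thomA_bar, thomA_bar', mul_comm]⟩

theorem lefLoc_r_re : B.Re0 (G.ru u) :=
  ⟨Submodule.sum_mem _ fun k _ => B.pow_mem (sub_mem (hu k).1 (G.e_re k).1) 2, by
    simp only [ru, star_sum, star_pow, star_sub, (G.e_re _).2, (hu _).2]⟩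

theorem lefLoc_ev_σ (a : Fin 4) (q : P) : B.ev (G.σu u a) q = B.ev (G.σ (G.Eu u q) a) q := by
  simp [σu, σ, G.lefLoc_ev_u hu, AlgHomClass.commutes]

theorem lefLoc_ev_ρ (j : Fin 2) (q : P) : B.ev (G.ρu u j) q = B.ev (G.ρ (G.Eu u q) j) q := by
  simp only [ρu, ρ, map_mul, ContinuousMap.mul_apply, G.lefLoc_ev_σ hu]

theorem lefLoc_ev_r (q : P) : B.ev (G.ru u) q = B.ev (G.r2 (G.Eu u q)) q := by
  simp [ru, r2, G.lefLoc_ev_u hu, AlgHomClass.commutes]

theorem lefLoc_W_mem (n : Fin 4) : G.lefLocW u n ∈ B.W 0 := by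
  have h : ∀ a a', -wt a + -wt a' = 0 → ∀ α β,
      w1 (G.d0 (G.σu u a)) (G.d0 (G.σu u a')) α β ∈ B.W (wt α + wt β) := fun a a' e α β =>
    sub_mem
      (B.mul_mem' (G.D_mem α (G.lefLoc_σ_mem hu a)) (G.D_mem β (G.lefLoc_σ_mem hu a'))
        (by rw [add_add_add_comm, e, zero_add]))
      (B.mul_mem' (G.D_mem β (G.lefLoc_σ_mem hu a)) (G.D_mem α (G.lefLoc_σ_mem hu a'))
        (by rw [add_add_add_comm, e, zero_add, add_comm]))
  have h0 := h 1 0 (thomA_wt 0)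
  have h1 := h 3 2 (thomA_wt 1)
  have hw : ∀ {b c : Fin 4 → Fin 4 → A}, (∀ α β, b α β ∈ B.W (wt α + wt β)) →
      (∀ α β, c α β ∈ B.W (wt α + wt β)) → wg b c ∈ B.W 0 := fun hb hc =>
    integ_wg_mem (fun α β => by rw [zero_add]; exact hb α β) hc
  have hF := fun j α β => (G.F_form j α β).1
  fin_cases n
  · exact (G.lefLoc_jac u ▸ hw h0 h1 : G.jac u ∈ _)
  · exact neg_mem (hw h0 (hF 1))
  · exact neg_mem (hw (hF 0) h1)
  · exact hw (hF 0) (hF 1)

theorem lefLoc_mem {φ κ : ℝ → ℝ} (hφ : ContDiff ℝ ∞ φ) (hκ : ContDiff ℝ ∞ κ) :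
    G.thomD φ κ u ∈ B.W 0 := by
  have hφ' : ContDiff ℝ ∞ (deriv φ) := (contDiff_infty_iff_deriv.1 hφ).2
  have m : ∀ {s t : A}, s ∈ B.W 0 → t ∈ B.W 0 → s * t ∈ B.W 0 := fun hs ht =>
    B.mul_mem' hs ht (add_zero _)
  have h1 := fun j => (G.app_spec hφ (G.lefLoc_ρ_re hu j)).1.1
  have h2 := fun j => (G.app_spec hφ' (G.lefLoc_ρ_re hu j)).1.1
  have h3 := G.lefLoc_W_mem hu
  rw [lefLoc_thomD]
  exact m (G.app_spec hκ (G.lefLoc_r_re hu)).1.1 (add_mem (add_mem (add_mem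
    (m (m (h2 0) (h2 1)) (h3 0)) (m (m (h2 0) (h1 1)) (h3 1))) (m (m (h1 0) (h2 1)) (h3 2)))
    (m (m (h1 0) (h1 1)) (h3 3)))

theorem lefLoc_ev {φ κ : ℝ → ℝ} {b : ℝ} (hp : Prof φ κ b) {a : ℝ} (ha : 0 < a) (q : P) :
    B.ev (G.thomD (scl φ a) κ u) q = ∑ n, (![1, a, a, a ^ 2] n : ℝ) *
      ((((a ^ 2)⁻¹ * lefLocψ (![deriv φ, deriv φ, φ, φ] n) (![deriv φ, φ, deriv φ, φ] n)
        ((√a)⁻¹ • G.lefLocw u q) : ℝ) : ℂ) * B.ev (B.app κ (G.ru u) * G.lefLocW u n) q) := by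
  have hφ := hp.scl_sm a
  have hφ' : ContDiff ℝ ∞ (deriv (scl φ a)) := (contDiff_infty_iff_deriv.1 hφ).2
  have h1 := fun j => (G.app_spec hφ (G.lefLoc_ρ_re hu j)).2.1 q
  have h2 := fun j => (G.app_spec hφ' (G.lefLoc_ρ_re hu j)).2.1 q
  have ha' : (a : ℂ) ≠ 0 := Complex.ofReal_ne_zero.2 ha.ne'
  simp only [G.lefLoc_ev_ρ hu, G.thomP_ev_ρ, hp.deriv_scl] at h1 h2
  simp only [lefLoc_thomD, map_mul, map_add, ContinuousMap.mul_apply, ContinuousMap.add_apply,
    h1, h2, Fin.sum_univ_four, lefLocψ_smul _ _ ha, scl, lefLocw, Matrix.cons_val_zero,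
    Matrix.cons_val_one, Matrix.cons_val]
  push_cast
  field_simp

end Calc

theorem Atl.lefLoc_der {G : Calc B} (t : Atl G) {u : Fin G.N → A} (hu : ∀ k, B.Re0 (u k))
    {j : Fin t.n} {y : E4} (hy : y ∈ t.O j) (h0 : G.Eu u (t.pr j y) = G.E (t.pr j y)) :
    ContinuousOn (fun y => G.lefLocw u (t.pr j y)) (t.O j) ∧ ∃ L : E4 →L[ℝ] E4,
      HasFDerivAt (fun y => G.lefLocw u (t.pr j y)) L y ∧
        B.ev (G.jac u) (t.pr j y) = (t.V j y).det * -((L.det : ℂ) / 4) := by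
  have e : ∀ a q, B.ev (G.σu u a) q = cx (G.lefLocw u q) a := fun a q => by
    rw [G.lefLoc_ev_σ hu, G.thomP_ev_σ, Calc.lefLocw]
  have hs : ContDiffOn ℝ ∞ (fun y => G.lefLocw u (t.pr j y)) (t.O j) := by
    have h1 := fun a => Complex.reCLM.contDiff.comp_contDiffOn (t.sm j (G.σu u a))
    have h2 := fun a => Complex.imCLM.contDiff.comp_contDiffOn (t.sm j (G.σu u a))
    refine contDiffOn_pi.2 fun i => ?_
    fin_cases i
    · exact (contDiffOn_const.mul (h1 0) (f := fun _ => (2 : ℝ))).congr fun y _ => by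
        simp [e, cx]; ring
    · exact (contDiffOn_const.mul (h2 0) (f := fun _ => (2 : ℝ))).congr fun y _ => by
        simp [e, cx]; ring
    · exact (contDiffOn_const.mul (h1 2) (f := fun _ => (2 : ℝ))).congr fun y _ => by
        simp [e, cx]; ring
    · exact (contDiffOn_const.mul (h2 2) (f := fun _ => (2 : ℝ))).congr fun y _ => by
        simp [e, cx]; ring
  have hO := (t.O_open j).mem_nhds hy
  have hd : ∀ s, DifferentiableAt ℝ (fun y => B.ev s (t.pr j y)) y := fun s =>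
    ((t.sm j s).contDiffAt hO).differentiableAt (by decide)
  have hL := ((hs.contDiffAt hO).differentiableAt (by decide)).hasFDerivAt
  refine ⟨hs.continuousOn, _, hL, ?_⟩
  set L := fderiv ℝ (fun y => G.lefLocw u (t.pr j y)) y
  have hz : ∀ k, B.ev (u k - G.e k) (t.pr j y) = 0 := fun k => by
    rw [map_sub, ContinuousMap.sub_apply, G.lefLoc_ev_u hu, G.ev_e, h0, sub_self]
  have h1 : ∀ a l, cx (L (Pi.single l 1)) a =
      ∑ k, B.ev (G.θ a k) (t.pr j y) * pd l (fun y => B.ev (u k - G.e k) (t.pr j y)) y := by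
    intro a l
    have e1 : HasFDerivAt (fun y => cx (G.lefLocw u (t.pr j y)) a) _ y :=
      (lefLocL a).hasFDerivAt.comp y hL
    have e2 := HasFDerivAt.fun_sum (u := Finset.univ) fun k _ =>
      (hd (G.θ a k)).hasFDerivAt.fun_mul (hd (u k - G.e k)).hasFDerivAt
    have e3 := e1.unique (e2.congr_of_eventuallyEq (Eventually.of_forall fun y => by
      simp only [← e, Calc.σu, map_sum, map_mul, ContinuousMap.sum_apply, ContinuousMap.mul_apply]))
    have e4 := congrArg (fun T => T (Pi.single l 1)) e3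
    simp only [hz] at e4
    refine e4.trans ?_
    simp [pd]
  have h2 : (Matrix.of fun a α => B.ev (G.D α (G.σu u a)) (t.pr j y)) =
      (t.V j y * Matrix.of fun l => cx (L (Pi.single l 1))).transpose := by
    ext a α
    simp only [Matrix.of_apply, Matrix.transpose_apply, Matrix.mul_apply, h1, Calc.σu, map_sum,
      G.D_mul, map_add, map_mul, ContinuousMap.sum_apply, ContinuousMap.add_apply,
      ContinuousMap.mul_apply, hz, mul_zero, zero_add,
      fun k => t.der j y hy _ (sub_mem (hu k).1 (G.e_re k).1) α, Finset.mul_sum]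
    rw [Finset.sum_comm]
    exact Finset.sum_congr rfl fun _ _ => Finset.sum_congr rfl fun _ _ => by ring
  have h3 : L.det = (Matrix.of fun l => L (Pi.single l 1)).det := by
    rw [← Matrix.det_transpose, ContinuousLinearMap.det, ← LinearMap.det_toMatrix']
    congr 1
  rw [← B.evAt_apply, Calc.jac, AlgHom.map_det, h3, ← det_cx, ← Matrix.det_mul,
    ← Matrix.det_transpose (_ * _)]
  exact congrArg Matrix.det h2

theorem IsInt.lefLoc_one {G : Pre B} {t : Atl G.toCalc} (hI : IsInt G t) {φ κ : ℝ → ℝ} {b : ℝ}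
    (hp : Prof φ κ b) {u : Fin G.N → A} (hu : ∀ k, B.Re0 (u k)) {p : P} (h0 : G.Eu u p = G.E p)
    (hj : 0 < B.ev (G.jac u) p) {j : Fin t.n} (hpj : p ∈ t.U j) :
    ∃ r > 0, Metric.closedBall (t.ψ j p) r ⊆ t.O j ∧ ∀ K, IsCompact K →
      K ⊆ Metric.ball (t.ψ j p) r → ∀ χ ∈ B.W 0, t.Supp j K χ → B.ev χ p = 1 →
        Tendsto (fun a => G.I (χ * G.thomD (scl φ a) κ u)) (𝓝[>] 0)
          (𝓝 ((κ 0 / 4 * ∫ v, lefLocψ (deriv φ) (deriv φ) v : ℝ) : ℂ)) := by
  have hy := t.ψ_mem j p hpj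
  have h0' : G.Eu u (t.pr j (t.ψ j p)) = G.E (t.pr j (t.ψ j p)) := by
    rw [t.E_pr j hpj, ← h0]
    funext k
    simp only [Calc.Eu, t.inv0 j p hpj _ (hu k).1]
  obtain ⟨hc, L, hL, hjac⟩ := t.lefLoc_der hu hy h0'
  have hjm : G.jac u ∈ B.W 0 := G.lefLoc_W_mem hu 0
  rw [t.inv0 j p hpj _ hjm] at hjac
  have hV := t.det_ne j hy
  have hn : B.ev (G.jac u) p = (‖(t.V j (t.ψ j p)).det‖ * (|L.det| / 4) : ℝ) := by
    rw [← Complex.norm_of_nonneg' hj.le, hjac]
    simp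
  have hdet : L.det ≠ 0 := fun h => by simp [hn, h] at hj
  obtain ⟨r, hr, hrO, hlim⟩ := lef_delta hdet hL
    (by rw [Calc.lefLocw, h0', sub_self, ← zero_smul ℝ (0 : Fin G.N → ℝ), G.co_smul, zero_smul])
    ((t.O_open j).mem_nhds hy) hc
  refine ⟨r, hr, hrO, fun K hK hKr χ hχ hs h1 => ?_⟩
  have hKO : K ⊆ t.O j := hKr.trans (Metric.ball_subset_closedBall.trans hrO)
  have hφ := hp.φ_sm.continuous
  have hφ' := hp.φ_sm.continuous_deriv (by decide)
  have hz : ∀ s y, y ∉ K → t.loc j (χ * s) y * t.dens j y = 0 := fun s y hy => by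
    rw [(t.loc_test hK hKO (int_supp_right hs s)).2 y hy, zero_mul]
  have key := fun n : Fin 4 => hlim
    (lefLocψ (![deriv φ, deriv φ, φ, φ] n) (![deriv φ, φ, deriv φ, φ] n))
    (by fin_cases n <;> exact lefLocψ_cont ‹_› ‹_›)
    (by
      have s1 := fun r hr => (hp.φ_supp r hr).1
      have s2 := fun r hr => (hp.φ_supp r hr).2
      fin_cases n <;> exact lefLocψ_supp ‹_› ‹_›)
    (fun y => t.loc j (χ * (B.app κ (G.ru u) * G.lefLocW u n)) y * t.dens j y)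
    (continuous_of_tsupport fun y hy => (int_contOn hK hKO (int_supp_right hs _)).continuousAt
      ((t.O_open j).mem_nhds (hKO (closure_minimal (fun y (hy : _ ≠ _) =>
        by_contra fun h => hy (hz _ y h)) hK.isClosed hy))))
    fun y hy => hKr (by_contra fun h => hy (hz _ y h))
  have hcn : ∀ n : Fin 4, Tendsto (fun a : ℝ => ((![1, a, a, a ^ 2] n : ℝ) : ℂ)) (𝓝[>] 0)
      (𝓝 (![1, 0, 0, 0] n)) := fun n => by
    refine Tendsto.mono_left (Continuous.tendsto' ?_ _ _ ?_) nhdsWithin_le_nhds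
    · fin_cases n <;> simp <;> fun_prop
    · fin_cases n <;> simp
  have h2 := tendsto_finsetSum Finset.univ fun n _ => (hcn n).mul (key n).2
  convert h2.congr' ?_ using 2
  · have e1 : B.ev (B.app κ (G.ru u)) p = κ 0 := by
      rw [(G.app_spec hp.κ_sm (G.lefLoc_r_re hu)).2.1, G.lefLoc_ev_r hu, G.ev_r2, h0]
      simp
    have e2 : (‖(t.V j (t.ψ j p)).det‖ : ℂ) ≠ 0 := by simpa using hV
    have e3 : ((|L.det| : ℝ) : ℂ) ≠ 0 := by simpa using hdet
    have e4 : G.lefLocW u 0 = G.jac u := rfl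
    simp only [Fin.sum_univ_four, Matrix.cons_val_zero, Matrix.cons_val_one, Matrix.cons_val,
      zero_mul, add_zero, one_mul, ← t.ev_eq_loc (B.mul_mem' hχ (B.mul_mem'
        (G.app_spec hp.κ_sm (G.lefLoc_r_re hu)).1.1 hjm (add_zero _)) (add_zero _)) hpj, e4,
      map_mul, ContinuousMap.mul_apply, h1, e1, hn, Atl.dens]
    push_cast
    field_simp
  · filter_upwards [self_mem_nhdsWithin] with a ha
    rw [hI j K hK hKO _ (B.mul_mem' hχ (G.lefLoc_mem hu (hp.scl_sm a) hp.κ_sm) (add_zero _))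
      (int_supp_right hs _)]
    simp only [← integral_const_mul]
    rw [← integral_finsetSum _ fun n _ => ((key n).1 a).const_mul _]
    refine integral_congr_ae (Eventually.of_forall fun y => ?_)
    by_cases hy : y ∈ t.O j
    · simp only [int_loc_of_mem _ hy, map_mul _ χ, ContinuousMap.mul_apply, G.lefLoc_ev hu hp ha,
        Finset.mul_sum, Finset.sum_mul]
      exact Finset.sum_congr rfl fun _ _ => by ring
    · simp [Atl.loc, hy]

theorem IsInt.lef_loc {G : Pre B} {t : Atl G.toCalc} (hI : IsInt G t) {φ κ : ℝ → ℝ} {b : ℝ}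
    (hn : G.Near b) (hp : Prof φ κ b) : ∃ C : ℝ, 0 < C ∧ ∀ u : Fin G.N → A, (∀ k, B.Re0 (u k)) →
      (∀ p, ∃ q, G.Eu u p = G.E q) → ∀ {ι : Type} [Fintype ι] (p : ι → P),
      (∀ i, G.Eu u (p i) = G.E (p i)) → (∀ i j, G.E (p i) = G.E (p j) → i = j) →
      (∀ q, G.Eu u q = G.E q → ∃ i, G.E q = G.E (p i)) → (∀ i, 0 < B.ev (G.jac u) (p i)) →
      Tendsto (fun a => G.I (G.thomD (scl φ a) κ u)) (𝓝[>] 0)
        (𝓝 ((C : ℂ) * Fintype.card ι)) := by
  classical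
  have hφ' := hp.φ_sm.continuous_deriv (by decide)
  refine ⟨κ 0 / 4 * ∫ v, lefLocψ (deriv φ) (deriv φ) v, mul_pos (div_pos hp.κ_zero four_pos)
    ((lefLocψ_cont hφ' hφ').integral_pos_of_hasCompactSupport_nonneg_nonzero (x := 0)
      (lefLocψ_supp (fun r hr => (hp.φ_supp r hr).2) fun r hr => (hp.φ_supp r hr).2)
      (fun v => mul_nonneg_of_nonpos_of_nonpos (hp.φ_le _) (hp.φ_le _))
      (by simpa [lefLocψ, cx] using hp.φ_zero.ne)),
    fun u hu hy ι _ p h0 hinj hall hj => ?_⟩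
  choose j hpj using fun i => t.cover (p i)
  have loc : ∀ i, ∃ χ ∈ B.W 0, Tendsto (fun a => G.I (χ * G.thomD (scl φ a) κ u)) (𝓝[>] 0)
      (𝓝 ((κ 0 / 4 * ∫ v, lefLocψ (deriv φ) (deriv φ) v : ℝ) : ℂ)) ∧ ∀ i' q, G.E q = G.E (p i') →
        ∀ᶠ q' in 𝓝 q, B.ev χ q' = if i = i' then 1 else 0 := by
    intro i
    obtain ⟨r, hr, hrO, hlim⟩ := hI.lefLoc_one hp hu (h0 i) (hj i) (hpj i)
    have h1 : ∀ᶠ δ in 𝓝[>] (0 : ℝ), ∀ i', i ≠ i' → p i' ∈ t.U (j i) →
        δ < dist (t.ψ (j i) (p i')) (t.ψ (j i) (p i)) := by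
      refine eventually_all.2 fun i' => ?_
      by_cases h : i ≠ i' ∧ p i' ∈ t.U (j i)
      · have : 0 < dist (t.ψ (j i) (p i')) (t.ψ (j i) (p i)) := dist_pos.2 fun e =>
          h.1 (hinj _ _ (by rw [← t.E_pr _ (hpj i), ← e, t.E_pr _ h.2]))
        filter_upwards [nhdsWithin_le_nhds (Iio_mem_nhds this)] with δ hδ _ _ using hδ
      · exact Eventually.of_forall fun δ a b => absurd ⟨a, b⟩ h
    obtain ⟨δ, ⟨h2, h3⟩, h4⟩ := ((h1.and (nhdsWithin_le_nhds (Iio_mem_nhds hr))).and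
      self_mem_nhdsWithin).exists
    let f : ContDiffBump (t.ψ (j i) (p i)) := ⟨δ / 2, δ, half_pos h4, half_lt_self h4⟩
    have hK := isCompact_closedBall (t.ψ (j i) (p i)) δ
    have hKr : Metric.closedBall (t.ψ (j i) (p i)) δ ⊆ _ := Metric.closedBall_subset_ball h3
    have hKO := hKr.trans (Metric.ball_subset_closedBall.trans hrO)
    obtain ⟨χ, hχ, hs, he⟩ := t.glob hK hKO (φ := fun y => (f y : ℂ))
      (Complex.ofRealCLM.contDiff.comp f.contDiff).contDiffOn fun y _ hy => by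
        rw [f.zero_of_le_dist (not_le.1 hy).le, Complex.ofReal_zero]
    have h5 : ∀ q, G.E q = G.E (p i) → ∀ᶠ q' in 𝓝 q, B.ev χ q' = 1 := fun q hq => by
      obtain ⟨a1, a2⟩ := t.E_inj _ _ (hpj i) q hq
      have a3 := (t.U_open _).mem_nhds a1
      have a4 := (t.ψ_cont _).continuousAt a3
      rw [ContinuousAt, a2] at a4
      filter_upwards [a3, a4.eventually f.eventuallyEq_one] with q' b1 b2
      rw [← t.inv0 _ q' b1 χ hχ, he _ (t.ψ_mem _ _ b1), b2]
      rfl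
    refine ⟨χ, hχ, hlim _ hK hKr χ hχ hs (h5 _ rfl).self_of_nhds, fun i' q hq => ?_⟩
    split_ifs with h
    · exact h5 q (h ▸ hq)
    · filter_upwards [(t.closed _ _ hK hKO).isOpen_compl.mem_nhds (x := q) fun hq' => by
        obtain ⟨a1, a2⟩ := t.E_inj _ _ hq'.1 _ hq.symm
        exact (h2 i' h a1).not_ge (a2 ▸ hq'.2)] with q' hq'
      exact by_contra fun h => hq' (hs q' h)
  choose χ hχ hlim hone using loc
  have hcont : Continuous fun q => ‖G.Eu u q - G.E q‖ :=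
    ((continuous_pi fun k => Complex.continuous_re.comp (B.ev (u k)).continuous).sub
      G.continuous_E).norm
  obtain ⟨δ, hδ, hfar⟩ := (isOpen_interior (s := {q | B.ev (1 - ∑ i, χ i) q = 0})).isClosed_compl
    |>.isCompact.exists_forall_le' hcont.continuousOn (a := 0) fun q hq => norm_pos_iff.2 fun e => by
      obtain ⟨i', hi⟩ := hall q (sub_eq_zero.1 e)
      refine hq (mem_interior_iff_mem_nhds.2 ?_)
      filter_upwards [eventually_all.2 fun i => hone i i' q hi] with q' hq'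
      simp [hq']
  have h2 := tendsto_finsetSum Finset.univ fun i _ => hlim i
  rw [Finset.sum_const, nsmul_eq_mul, mul_comm] at h2
  refine h2.congr' ?_
  filter_upwards [hn.supp hp hδ] with a ha
  rw [← map_sum, ← Finset.sum_mul]
  refine congrArg G.I (B.ext' fun q => ?_)
  rw [map_mul, ContinuousMap.mul_apply]
  by_cases hq : q ∈ interior {q | B.ev (1 - ∑ i, χ i) q = 0}
  · have e := interior_subset hq
    rw [Set.mem_ofPred_eq, map_sub, map_one, ContinuousMap.sub_apply, sub_eq_zero] at e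
    rw [← e, ContinuousMap.one_apply, one_mul]
  · suffices B.ev (G.thomD (scl φ a) κ u) q = 0 by rw [this, mul_zero]
    have hφ := hp.scl_sm a
    have e1 := fun j => (G.app_spec hφ (G.lefLoc_ρ_re hu j)).2.1 q
    have e2 := fun j => (G.app_spec (contDiff_infty_iff_deriv.1 hφ).2 (G.lefLoc_ρ_re hu j)).2.1 q
    have e3 := (G.app_spec hp.κ_sm (G.lefLoc_r_re hu)).2.1 q
    have e4 := hfar q hq
    obtain ⟨y, hy⟩ := hy q
    simp only [G.lefLoc_ev_ρ hu, G.lefLoc_ev_r hu, hy] at e1 e2 e3 e4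
    simp only [Calc.lefLoc_thomD, map_mul, map_add, ContinuousMap.mul_apply,
      ContinuousMap.add_apply, e1, e2, e3]
    by_cases hk : κ (B.ev (G.r2 (G.E y)) q).re = 0
    · simp [hk]
    · obtain ⟨m, a1, a2⟩ := ha y q (hp.κ_supp _ hk) e4
      fin_cases m <;> simp only [Fin.zero_eta, Fin.mk_one] at a1 a2 <;> simp [a1, a2]

end SX4
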