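import Mathlib

/-! Smoothness of composition operators on spaces of continuous functions. -/

set_option autoImplicit false

noncomputable section

namespace SX4

open scoped ContDiff
open Filter Topology

variable {P : Type} [TopologicalSpace P] [CompactSpace P]

theorem thomA_hasFDerivAt {φ φ' : ℝ → ℝ} (hφ : ∀ x, HasDerivAt φ (φ' x) x) (hc : Continuous φ)
    (hc' : Continuous φ') (u : C(P, ℝ)) :
    HasFDerivAt (fun v : C(P, ℝ) => (⟨φ, hc⟩ : C(ℝ, ℝ)).comp v)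
      (ContinuousLinearMap.mul ℝ C(P, ℝ) ((⟨φ', hc'⟩ : C(ℝ, ℝ)).comp u)) u := by
  rw [hasFDerivAt_iff_isLittleO_nhds_zero, Asymptotics.isLittleO_iff]
  intro ε hε
  have hK : IsCompact (Metric.closedBall (0 : ℝ) (‖u‖ + 1)) := isCompact_closedBall _ _
  obtain ⟨δ, hδ, hu⟩ := Metric.uniformContinuousOn_iff_le.1
    (hK.uniformContinuousOn_of_continuous hc'.continuousOn) ε hε
  filter_upwards [Metric.closedBall_mem_nhds (0 : C(P, ℝ)) (lt_min hδ one_pos)] with h hh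
  rw [mem_closedBall_zero_iff, le_min_iff] at hh
  refine (ContinuousMap.norm_le _ (by positivity)).2 (fun p => ?_)
  have hx : ‖u p‖ ≤ ‖u‖ := u.norm_coe_le_norm p
  have hy : ‖h p‖ ≤ ‖h‖ := h.norm_coe_le_norm p
  have key := Convex.norm_image_sub_le_of_norm_hasDerivWithin_le
    (f := fun y => φ y - φ' (u p) * y) (f' := fun y => φ' y - φ' (u p)) (C := ε)
    (s := Metric.closedBall (u p) ‖h‖) (x := u p) (y := u p + h p)
    (fun y _ => by
      simpa using ((hφ y).fun_sub ((hasDerivAt_id y).const_mul (φ' (u p)))).hasDerivWithinAt)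
    (fun y hy' => by
      rw [Metric.mem_closedBall] at hy'
      refine hu y ?_ (u p) ?_ (hy'.trans hh.1)
      · rw [mem_closedBall_zero_iff]
        rw [dist_eq_norm] at hy'
        calc ‖y‖ = ‖(y - u p) + u p‖ := by simp
          _ ≤ ‖y - u p‖ + ‖u p‖ := norm_add_le _ _
          _ ≤ ‖u‖ + 1 := by linarith [hh.2]
      · rw [mem_closedBall_zero_iff]; linarith)
    (convex_closedBall _ _) (Metric.mem_closedBall_self (norm_nonneg _)) (by simpa using hy)
  have e : ((⟨φ, hc⟩ : C(ℝ, ℝ)).comp (u + h) - (⟨φ, hc⟩ : C(ℝ, ℝ)).comp u -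
      ContinuousLinearMap.mul ℝ C(P, ℝ) ((⟨φ', hc'⟩ : C(ℝ, ℝ)).comp u) h) p =
      φ (u p + h p) - φ' (u p) * (u p + h p) - (φ (u p) - φ' (u p) * u p) := by
    simp; ring
  rw [e]
  refine key.trans ?_
  rw [add_sub_cancel_left]
  gcongr

theorem thomA_contDiff_nat (n : ℕ) : ∀ {φ : ℝ → ℝ} (hφ : ContDiff ℝ ∞ φ),
    ContDiff ℝ n (fun v : C(P, ℝ) => (⟨φ, hφ.continuous⟩ : C(ℝ, ℝ)).comp v) := by
  induction n with
  | zero =>
    intro φ hφ
    exact contDiff_zero.2 (ContinuousMap.continuous_postcomp _)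
  | succ n ih =>
    intro φ hφ
    obtain ⟨h1, h2⟩ := contDiff_infty_iff_deriv.1 hφ
    refine contDiff_succ_iff_hasFDerivAt.2 ⟨_, ?_, fun u =>
      thomA_hasFDerivAt (fun x => (h1 x).hasDerivAt) hφ.continuous h2.continuous u⟩
    exact (ContinuousLinearMap.contDiff (𝕜 := ℝ) (E := C(P, ℝ)) (F := C(P, ℝ) →L[ℝ] C(P, ℝ))
      (ContinuousLinearMap.mul ℝ C(P, ℝ))).comp (ih h2)

theorem thomA_contDiff {φ : ℝ → ℝ} (hφ : ContDiff ℝ ∞ φ) :
    ContDiff ℝ ∞ (fun v : C(P, ℝ) => (⟨φ, hφ.continuous⟩ : C(ℝ, ℝ)).comp v) :=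
  contDiff_infty.2 fun n => thomA_contDiff_nat n hφ

end SX4
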