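import Pool.Agent.P.MP_0a0487_an.SX.LefDefs
import Pool.Agent.P.MP_0a0487_an.SX.ThomA

/-! A ring of functions of two variables. -/

set_option autoImplicit false
set_option linter.unusedSectionVars false

noncomputable section

namespace SX4

open scoped ComplexOrder ContDiff
open Filter Topology

variable {P A : Type} [TopologicalSpace P] [CompactSpace P] [CommRing A] [StarRing A] [Algebra ℂ A]
  [StarModule ℂ A] {B : Base P A}

/-- Families of functions generated by the coordinates and the functional calculus. -/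
inductive LefKerFam (B : Base P A) {n : ℕ} : ((Fin n → ℝ) → A) → Prop
  | const (c : A) : LefKerFam B fun _ => c
  | coord (k : Fin n) : LefKerFam B fun z => algebraMap ℂ A (z k)
  | add {v w : (Fin n → ℝ) → A} : LefKerFam B v → LefKerFam B w → LefKerFam B fun z => v z + w z
  | mul {v w : (Fin n → ℝ) → A} : LefKerFam B v → LefKerFam B w → LefKerFam B fun z => v z * w z
  | app {φ : ℝ → ℝ} (hφ : ContDiff ℝ ∞ φ) {v : (Fin n → ℝ) → A} :
      LefKerFam B v → (∀ z, B.Re0 (v z)) → LefKerFam B fun z => B.app φ (v z)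

namespace LefKerFam

variable {n : ℕ} {v w : (Fin n → ℝ) → A}

theorem congr (hv : LefKerFam B v) (h : ∀ z, v z = w z) : LefKerFam B w := funext h ▸ hv

theorem sm (G : Calc B) (hv : LefKerFam B v) : B.ThomSm v := by
  induction hv with
  | const c => exact .const c
  | coord k => exact .coord k
  | add _ _ h1 h2 => exact h1.add h2
  | mul _ _ h1 h2 => exact h1.mul h2
  | app hφ _ hr h => exact G.contDiff_app hφ hr h

theorem D (G : Calc B) (α : Fin 4) (hv : LefKerFam B v) :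
    LefKerFam B fun z => G.D α (v z) := by
  induction hv with
  | const c => exact .const _
  | coord k => exact (const 0).congr fun z => (G.D_algebraMap α _).symm
  | add _ _ h1 h2 => exact (h1.add h2).congr fun z => (map_add _ _ _).symm
  | mul hv hw h1 h2 => exact ((h1.mul hw).add (hv.mul h2)).congr fun z => (G.D_mul _ _ _).symm
  | app hφ hv hr h =>
    exact ((app (contDiff_infty_iff_deriv.1 hφ).2 hv hr).mul h).congr fun z =>
      ((G.app_spec hφ (hr z)).2.2 α).symm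

theorem dz (G : Calc B) (k : Fin n) (hv : LefKerFam B v) :
    ∃ v', LefKerFam B v' ∧ ∀ z, B.ThomDz z (Pi.single k 1) v (v' z) := by
  induction hv with
  | const c => exact ⟨_, const 0, fun z => .const c⟩
  | coord m => exact ⟨_, const _, fun z => .coord z k m⟩
  | add _ _ h1 h2 =>
    obtain ⟨a, ha, ha'⟩ := h1
    obtain ⟨b, hb, hb'⟩ := h2
    exact ⟨_, ha.add hb, fun z => (ha' z).add (hb' z)⟩
  | mul hv hw h1 h2 =>
    obtain ⟨a, ha, ha'⟩ := h1
    obtain ⟨b, hb, hb'⟩ := h2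
    exact ⟨_, (ha.mul hw).add (hv.mul hb), fun z => (ha' z).mul (hb' z)⟩
  | app hφ hv hr h =>
    obtain ⟨a, ha, ha'⟩ := h
    exact ⟨_, (app (contDiff_infty_iff_deriv.1 hφ).2 hv hr).mul ha,
      fun z => Base.ThomDz.app G hφ hr (ha' z)⟩

theorem bdd (G : Pre B) {E : P → Fin n → ℝ} (hE : Continuous E) (k : ℕ) (hv : LefKerFam B v) :
    ∃ C : ℝ, ∀ y, G.nn k (v (E y)) ≤ C := by
  have h0 : ∀ {v : (Fin n → ℝ) → A}, LefKerFam B v → ∃ C : ℝ, ∀ y, G.nrm (v (E y)) ≤ C := by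
    intro v hv
    obtain ⟨C, hC⟩ := isCompact_univ.exists_bound_of_continuousOn
      ((hv.sm G.toCalc).continuous.comp hE).continuousOn
    exact ⟨C * G.nrm 1, fun y => (G.nrm_le_sup _).trans
      (mul_le_mul_of_nonneg_right (hC y trivial) (G.nrm_nonneg _))⟩
  induction k generalizing v with
  | zero => exact h0 hv
  | succ k ih =>
    obtain ⟨C, hC⟩ := h0 hv
    choose K hK using fun α => ih (hv.D G.toCalc α)
    exact ⟨C + ∑ α, K α, fun y => add_le_add (hC y) (Finset.sum_le_sum fun α _ => hK α y)⟩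

end LefKerFam

theorem lefKer_unique {Z : Type} [NormedAddCommGroup Z] [NormedSpace ℝ Z] {z w : Z} {v : Z → A}
    {a b : A} (ha : B.ThomDz z w v a) (hb : B.ThomDz z w v b) : a = b :=
  B.ext' fun p => (ha p).unique (hb p)

theorem lefKer_fderiv {Z : Type} [NormedAddCommGroup Z] [NormedSpace ℝ Z] {z w : Z} {v : Z → A}
    {a : A} (hs : B.ThomSm v) (ha : B.ThomDz z w v a) :
    fderiv ℝ (fun y => B.ev (v y)) z w = B.ev a := by
  ext p
  have h1 : HasDerivAt (fun t : ℝ => z + t • w) w 0 := by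
    simpa using ((hasDerivAt_id (0 : ℝ)).smul_const w).const_add z
  have h2 := (ContDiff.differentiable hs (by simp) (z + (0 : ℝ) • w)).hasFDerivAt.comp_hasDerivAt
    0 h1
  have h3 := (ContinuousMap.evalCLM ℝ p).hasFDerivAt.comp_hasDerivAt 0 h2
  rw [zero_smul, add_zero] at h3
  exact h3.unique (ha p)

theorem lefKer_ext (G : Pre B) : ∃ l : C(P, ℂ) →L[ℂ] ℂ, ∀ s, l (B.ev s) = G.I s := by
  let ev : A →ₗ[ℂ] C(P, ℂ) := (B.ev : A →ₐ[ℂ] C(P, ℂ)).toLinearMap
  let e := LinearEquiv.ofInjective ev B.ev_inj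
  have hb : ∀ s, ‖G.I s‖ ≤ (G.I 1).re * ‖B.ev s‖ := fun s => by
    have h := G.I_norm_le (s := s) (t := ((‖B.ev s‖ : ℝ) : ℂ) • (1 : A)) fun p => by
      rw [map_smul, map_one]
      simpa using (B.ev s).norm_coe_le_norm p
    rwa [map_smul, smul_eq_mul, Complex.re_ofReal_mul, mul_comm] at h
  let f : LinearMap.range ev →L[ℂ] ℂ :=
    (G.I ∘ₗ e.symm.toLinearMap).mkContinuous (G.I 1).re fun x => by
      obtain ⟨y, rfl⟩ := e.surjective x
      simp only [LinearMap.comp_apply, LinearEquiv.coe_coe, LinearEquiv.symm_apply_apply]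
      exact hb y
  obtain ⟨l, hl, -⟩ := exists_extension_norm_eq _ f
  refine ⟨l, fun s => ?_⟩
  have := hl (e s)
  simp only [f, LinearMap.mkContinuous_apply, LinearMap.comp_apply, LinearEquiv.coe_coe,
    LinearEquiv.symm_apply_apply] at this
  exact this

theorem lefKer_fc (G : Calc B) {n : ℕ} {Φ : (Fin n → ℝ) → ℂ} (hΦ : ContDiff ℝ ∞ Φ)
    {u : Fin n → A} (hu : ∀ k, B.Re0 (u k)) :
    ∃ a ∈ B.W 0, (∀ p, B.ev a p = Φ fun k => (B.ev (u k) p).re) ∧ ∀ α p, B.ev (G.D α a) p =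
      ∑ k, fderiv ℝ Φ (fun k => (B.ev (u k) p).re) (Pi.single k 1) * B.ev (G.D α (u k)) p := by
  have key : ∀ L : ℂ →L[ℝ] ℝ, ∃ a ∈ B.W 0,
      (∀ p, B.ev a p = (L (Φ fun k => (B.ev (u k) p).re) : ℝ)) ∧ ∀ α p, B.ev (G.D α a) p =
      ∑ k, (L (fderiv ℝ Φ (fun k => (B.ev (u k) p).re) (Pi.single k 1)) : ℝ) *
        B.ev (G.D α (u k)) p := by
    intro L
    obtain ⟨a, h1, h2, h3⟩ := G.fc (fun z => L (Φ z)) Set.univ isOpen_univ
      (L.contDiff.comp hΦ).contDiffOn u hu fun _ => trivial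
    refine ⟨a, h1.1, h2, fun α p => ?_⟩
    have h4 : fderiv ℝ (fun z => L (Φ z)) (fun k => (B.ev (u k) p).re) = _ :=
      (L.hasFDerivAt.comp _ (hΦ.differentiable (by simp) _).hasFDerivAt).fderiv
    rw [h3, h4]
    rfl
  obtain ⟨a, a1, a2, a3⟩ := key Complex.reCLM
  obtain ⟨b, b1, b2, b3⟩ := key Complex.imCLM
  refine ⟨a + Complex.I • b, add_mem a1 (Submodule.smul_mem _ _ b1), fun p => ?_, fun α p => ?_⟩
  · rw [map_add, map_smul, ContinuousMap.add_apply, ContinuousMap.smul_apply, a2, b2, smul_eq_mul,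
      mul_comm]
    exact Complex.re_add_im _
  · rw [map_add, map_smul, map_add, map_smul, ContinuousMap.add_apply, ContinuousMap.smul_apply,
      a3, b3, smul_eq_mul, Finset.mul_sum, ← Finset.sum_add_distrib]
    refine Finset.sum_congr rfl fun k _ => ?_
    rw [← mul_assoc, ← add_mul, mul_comm Complex.I]
    exact congrArg (· * _) (Complex.re_add_im _)

/-- A ring of functions of a point of the manifold and of a point of Euclidean space. -/
structure LefKerData (G : Pre B) (u : Fin G.N → A) (F : Type) [CommRing F] [Algebra ℂ F] where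
  ev : P → F →ₐ[ℂ] A
  c : A →ₐ[ℂ] F
  z : Fin G.N → F
  pρ : (ℝ → ℝ) → Fin 2 → F
  pr : (ℝ → ℝ) → F
  dx : Fin 4 → F →ₗ[ℂ] F
  dz : Fin G.N → F →ₗ[ℂ] F
  iv : F →ₗ[ℂ] A
  ev_c : ∀ y s, ev y (c s) = s
  ev_z : ∀ y k, ev y (z k) = algebraMap ℂ A (G.Eu u y k)
  ev_pρ : ∀ φ, ContDiff ℝ ∞ φ → ∀ y j, ev y (pρ φ j) = B.app φ (G.ρ (G.Eu u y) j)
  ev_pr : ∀ φ, ContDiff ℝ ∞ φ → ∀ y, ev y (pr φ) = B.app φ (G.r2 (G.Eu u y))
  ev_dx : ∀ y α r, ev y (dx α r) = G.D α (ev y r)
  dx_mul : ∀ α r s, dx α (r * s) = dx α r * s + r * dx α s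
  dz_mul : ∀ k r s, dz k (r * s) = dz k r * s + r * dz k s
  dx_c : ∀ α s, dx α (c s) = c (G.D α s)
  dx_z : ∀ α k, dx α (z k) = 0
  dz_c : ∀ k s, dz k (c s) = 0
  dz_z : ∀ k m, dz k (z m) = if m = k then 1 else 0
  dx_pρ : ∀ φ, ContDiff ℝ ∞ φ → ∀ α j, dx α (pρ φ j) =
    pρ (deriv φ) j * dx α (G.σR c z (![1, 3] j) * G.σR c z (![0, 2] j))
  dz_pρ : ∀ φ, ContDiff ℝ ∞ φ → ∀ k j, dz k (pρ φ j) =
    pρ (deriv φ) j * dz k (G.σR c z (![1, 3] j) * G.σR c z (![0, 2] j))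
  dx_pr : ∀ φ, ContDiff ℝ ∞ φ → ∀ α, ∃ r, dx α (pr φ) = pr (deriv φ) * r
  dz_pr : ∀ φ, ContDiff ℝ ∞ φ → ∀ k, ∃ r, dz k (pr φ) = pr (deriv φ) * r
  iv_mem : ∀ r, iv r ∈ B.W 0
  ev_iv : ∀ r y, B.ev (iv r) y = G.I (ev y r)
  D_iv : ∀ α r, G.D α (iv r) = ∑ k, G.D α (u k) * iv (dz k r)
  bdd : ∀ r k, ∃ C : ℝ, ∀ y, G.nn k (ev y r) ≤ C

/-- The algebra of families. -/
def lefKerAlg (B : Base P A) (n : ℕ) : Subalgebra ℂ ((Fin n → ℝ) → A) where
  carrier := {v | LefKerFam B v}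
  mul_mem' hv hw := LefKerFam.mul hv hw
  add_mem' hv hw := LefKerFam.add hv hw
  algebraMap_mem' c := LefKerFam.const (algebraMap ℂ A c)

/-- The derivative in the first variable. -/
def lefKerDx (G : Calc B) (n : ℕ) (α : Fin 4) : lefKerAlg B n →ₗ[ℂ] lefKerAlg B n where
  toFun v := ⟨fun z => G.D α (v.1 z), LefKerFam.D G α v.2⟩
  map_add' v w := Subtype.ext (funext fun z => map_add (G.D α) (v.1 z) (w.1 z))
  map_smul' c v := Subtype.ext (funext fun z => map_smul (G.D α) c (v.1 z))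

theorem lefKer_dz (G : Calc B) {n : ℕ} (k : Fin n) : ∃ d : lefKerAlg B n →ₗ[ℂ] lefKerAlg B n,
    ∀ v z, B.ThomDz z (Pi.single k 1) v.1 ((d v).1 z) := by
  choose d h1 h2 using fun v : lefKerAlg B n => LefKerFam.dz G k v.2
  refine ⟨⟨⟨fun v => ⟨d v, h1 v⟩, fun v w => Subtype.ext (funext fun z =>
    lefKer_unique (h2 (v + w) z) ((h2 v z).add (h2 w z)))⟩, fun c v => Subtype.ext (funext fun z =>
    lefKer_unique (h2 (c • v) z) fun p => ?_)⟩, h2⟩
  have h := (h2 v z p).const_mul c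
  change HasDerivAt (fun t : ℝ => B.ev (c • v.1 _) p) (B.ev (c • d v z) p) 0
  simpa only [map_smul, ContinuousMap.smul_apply, smul_eq_mul] using h

theorem lefKer_iv (G : Pre B) {n : ℕ} {u : Fin n → A} (hu : ∀ k, B.Re0 (u k))
    {d : Fin n → lefKerAlg B n →ₗ[ℂ] lefKerAlg B n}
    (hd : ∀ k v z, B.ThomDz z (Pi.single k 1) v.1 ((d k v).1 z)) :
    ∃ i : lefKerAlg B n →ₗ[ℂ] A, (∀ v, i v ∈ B.W 0) ∧
      (∀ v y, B.ev (i v) y = G.I (v.1 fun k => (B.ev (u k) y).re)) ∧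
      ∀ α v, G.D α (i v) = ∑ k, G.D α (u k) * i (d k v) := by
  obtain ⟨l, hl⟩ := lefKer_ext G
  have hs : ∀ v : lefKerAlg B n, B.ThomSm v.1 := fun v => LefKerFam.sm G.toCalc v.2
  choose i h1 h2 h3 using fun v : lefKerAlg B n =>
    lefKer_fc G.toCalc ((l.restrictScalars ℝ).contDiff.comp (hs v)) hu
  have h4 : ∀ v y, B.ev (i v) y = G.I (v.1 fun k => (B.ev (u k) y).re) := fun v y =>
    (h2 v y).trans (hl _)
  refine ⟨⟨⟨i, fun v w => B.ext' fun p => ?_⟩, fun c v => B.ext' fun p => ?_⟩, h1, h4,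
    fun α v => B.ext' fun p => ?_⟩
  · rw [map_add, ContinuousMap.add_apply, h4, h4, h4, ← map_add]
    rfl
  · rw [RingHom.id_apply, map_smul, ContinuousMap.smul_apply, h4, h4, ← map_smul]
    rfl
  · change B.ev (G.D α (i v)) p = B.ev (∑ k, G.D α (u k) * i (d k v)) p
    rw [h3, map_sum, ContinuousMap.sum_apply]
    refine Finset.sum_congr rfl fun k _ => ?_
    rw [map_mul, ContinuousMap.mul_apply, mul_comm, h4, ← hl, ← lefKer_fderiv (hs v) (hd k v _),
      ((l.restrictScalars ℝ).hasFDerivAt.comp _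
        (ContDiff.differentiable (hs v) (by simp) _).hasFDerivAt).fderiv]
    rfl

theorem lefKer_data (G : Pre B) {u : Fin G.N → A} (hu : ∀ k, B.Re0 (u k)) :
    Nonempty (LefKerData G u (lefKerAlg B G.N)) := by
  classical
  choose d hd using fun k : Fin G.N => lefKer_dz G.toCalc k
  obtain ⟨i, i1, i2, i3⟩ := lefKer_iv G hu hd
  let c : A →ₐ[ℂ] lefKerAlg B G.N :=
    (Pi.constAlgHom ℂ (Fin G.N → ℝ) A).codRestrict _ fun a => LefKerFam.const a
  let z : Fin G.N → lefKerAlg B G.N := fun k => ⟨_, LefKerFam.coord k⟩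
  let ρ : Fin 2 → lefKerAlg B G.N := fun j => G.σR c z (![1, 3] j) * G.σR c z (![0, 2] j)
  let r : lefKerAlg B G.N := ∑ k, (z k - c (G.e k)) ^ 2
  let e : (Fin G.N → ℝ) → lefKerAlg B G.N →ₐ[ℂ] A := fun y =>
    (Pi.evalAlgHom ℂ (fun _ => A) y).comp (lefKerAlg B G.N).val
  have he : ∀ y (v : lefKerAlg B G.N), v.1 y = e y v := fun _ _ => rfl
  have hρ : ∀ j y, (ρ j).1 y = G.ρ y j := fun j y => by
    simp only [he, ρ, Calc.σR, map_mul, map_sum, map_sub]
    rfl
  have hr : ∀ y, r.1 y = G.r2 y := fun y => by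
    simp only [he, r, map_pow, map_sum, map_sub]
    rfl
  let ap : (ℝ → ℝ) → lefKerAlg B G.N → lefKerAlg B G.N := fun φ v =>
    if h : ContDiff ℝ ∞ φ ∧ ∀ y, B.Re0 (v.1 y) then
      ⟨fun y => B.app φ (v.1 y), LefKerFam.app h.1 v.2 h.2⟩ else 0
  have a0 : ∀ φ v, ContDiff ℝ ∞ φ → (∀ y, B.Re0 (v.1 y)) →
      (ap φ v).1 = fun y => B.app φ (v.1 y) := fun φ v h1 h2 => by
    simp only [ap, dif_pos (And.intro h1 h2)]
  have a1 : ∀ φ v, ContDiff ℝ ∞ φ → (∀ y, B.Re0 (v.1 y)) → ∀ α,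
      lefKerDx G.toCalc G.N α (ap φ v) = ap (deriv φ) v * lefKerDx G.toCalc G.N α v :=
    fun φ v h1 h2 α => Subtype.ext (funext fun y => by
      change G.D α ((ap φ v).1 y) = (ap (deriv φ) v).1 y * G.D α (v.1 y)
      rw [a0 _ _ h1 h2, a0 _ _ (contDiff_infty_iff_deriv.1 h1).2 h2]
      exact (G.app_spec h1 (h2 y)).2.2 α)
  have a2 : ∀ φ v, ContDiff ℝ ∞ φ → (∀ y, B.Re0 (v.1 y)) → ∀ k,
      d k (ap φ v) = ap (deriv φ) v * d k v :=
    fun φ v h1 h2 k => Subtype.ext (funext fun y => lefKer_unique (hd k _ y) (by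
      change B.ThomDz y _ (ap φ v).1 ((ap (deriv φ) v).1 y * (d k v).1 y)
      rw [a0 _ _ h1 h2, a0 _ _ (contDiff_infty_iff_deriv.1 h1).2 h2]
      exact Base.ThomDz.app G.toCalc h1 h2 (hd k v y)))
  have rρ : ∀ j y, B.Re0 ((ρ j).1 y) := fun j y => hρ j y ▸ G.ρ_re y j
  have rr : ∀ y, B.Re0 (r.1 y) := fun y => hr y ▸ G.r2_re y
  have hE : Continuous (G.Eu u) :=
    continuous_pi fun k => Complex.continuous_re.comp (B.ev (u k)).continuous
  exact ⟨{
    ev := fun y => e (G.Eu u y)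
    c := c
    z := z
    pρ := fun φ j => ap φ (ρ j)
    pr := fun φ => ap φ r
    dx := lefKerDx G.toCalc G.N
    dz := d
    iv := i
    ev_c := fun _ _ => rfl
    ev_z := fun _ _ => rfl
    ev_pρ := fun φ h y j => by rw [← he, a0 _ _ h (rρ j), ← hρ]
    ev_pr := fun φ h y => by rw [← he, a0 _ _ h rr, ← hr]
    ev_dx := fun _ _ _ => rfl
    dx_mul := fun α v w => Subtype.ext (funext fun y => G.D_mul α (v.1 y) (w.1 y))
    dz_mul := fun k v w => Subtype.ext (funext fun y =>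
      lefKer_unique (hd k (v * w) y) ((hd k v y).mul (hd k w y)))
    dx_c := fun _ _ => rfl
    dx_z := fun α k => Subtype.ext (funext fun y => G.D_algebraMap α _)
    dz_c := fun k s => Subtype.ext (funext fun y => lefKer_unique (hd k (c s) y) (.const s))
    dz_z := fun k m => Subtype.ext (funext fun y =>
      (lefKer_unique (hd k (z m) y) (.coord y k m)).trans (by split_ifs <;> rfl))
    dx_pρ := fun φ h α j => a1 φ _ h (rρ j) α
    dz_pρ := fun φ h k j => a2 φ _ h (rρ j) k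
    dx_pr := fun φ h α => ⟨_, a1 φ _ h rr α⟩
    dz_pr := fun φ h k => ⟨_, a2 φ _ h rr k⟩
    iv_mem := i1
    ev_iv := i2
    D_iv := i3
    bdd := fun v k => LefKerFam.bdd G hE k v.2 }⟩

namespace LefKerData

open TensorProduct

variable {G : Pre B} {u : Fin G.N → A} {F : Type} [CommRing F] [Algebra ℂ F] (L : LefKerData G u F)

/-- The derivative in the second variable. -/
def DY (α : Fin 4) : A ⊗[ℂ] F →ₗ[ℂ] A ⊗[ℂ] F :=
  (G.D α).rTensor F + ∑ k, TensorProduct.map (LinearMap.mulLeft ℂ (G.D α (u k))) (L.dz k)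

theorem DY_tmul (α : Fin 4) (a : A) (f : F) :
    L.DY α (a ⊗ₜ f) = G.D α a ⊗ₜ f + ∑ k, (G.D α (u k) * a) ⊗ₜ L.dz k f := by
  simp only [DY, LinearMap.add_apply, LinearMap.sum_apply, LinearMap.rTensor_tmul, map_tmul,
    LinearMap.mulLeft_apply]

theorem DY_right (α : Fin 4) (f : F) :
    L.DY α ((1 : A) ⊗ₜ f) = ∑ k, G.D α (u k) ⊗ₜ L.dz k f := by
  simp only [DY_tmul, G.D_one, zero_tmul, zero_add, mul_one]

theorem der {D : A ⊗[ℂ] F →ₗ[ℂ] A ⊗[ℂ] F}
    (h : ∀ a b f g, D ((a * b) ⊗ₜ (f * g)) = D (a ⊗ₜ f) * b ⊗ₜ g + a ⊗ₜ f * D (b ⊗ₜ g))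
    (r s : A ⊗[ℂ] F) : D (r * s) = D r * s + r * D s := by
  induction r with
  | zero => simp
  | add x y hx hy => rw [add_mul, map_add, hx, hy, map_add]; ring
  | tmul a f =>
    induction s with
    | zero => simp
    | add x y hx hy => rw [mul_add, map_add, hx, hy, map_add]; ring
    | tmul b g => rw [← h, Algebra.TensorProduct.tmul_mul_tmul]

theorem dx_one (α : Fin 4) : L.dx α 1 = 0 := by
  rw [← map_one L.c, L.dx_c, G.D_one, map_zero]

theorem dz_one (k : Fin G.N) : L.dz k 1 = 0 := by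
  rw [← map_one L.c, L.dz_c]

theorem σR_eq (a : Fin 4) :
    G.σR ((Algebra.TensorProduct.includeRight : F →ₐ[ℂ] A ⊗[ℂ] F).comp L.c)
      (fun k => (1 : A) ⊗ₜ L.z k) a = (1 : A) ⊗ₜ G.σR L.c L.z a := by
  simp only [Calc.σR, AlgHom.comp_apply, ← Algebra.TensorProduct.includeRight_apply, map_sum,
    map_mul, map_sub]

/-- The grading. -/
def W (B : Base P A) (F : Type) [CommRing F] [Algebra ℂ F] (w : Wt) : Submodule ℂ (A ⊗[ℂ] F) :=
  Submodule.span ℂ {x | ∃ b ∈ B.W w, ∃ f : F, x = b ⊗ₜ f}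

theorem tmul_mem {w : Wt} {b : A} (hb : b ∈ B.W w) (f : F) : b ⊗ₜ f ∈ W B F w :=
  Submodule.subset_span ⟨b, hb, f, rfl⟩

/-- The ring of kernels. -/
def ring : KRing G u (A ⊗[ℂ] F) where
  ev y := Algebra.TensorProduct.productMap ((Algebra.ofId ℂ A).comp (B.evAt y)) (L.ev y)
  cx := Algebra.TensorProduct.includeRight.comp L.c
  cy := Algebra.TensorProduct.includeLeft
  z k := 1 ⊗ₜ L.z k
  pρ φ j := 1 ⊗ₜ L.pρ φ j
  pr φ := 1 ⊗ₜ L.pr φ
  DX α := (L.dx α).lTensor A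
  DY := L.DY
  W := W B F
  int := TensorProduct.lift ((LinearMap.mul ℂ A).compl₂ L.iv)
  ev_cx y s := by simp [L.ev_c]
  ev_cy y s := by simp [Base.evAt_apply, Algebra.ofId_apply]
  ev_z y k := by simp [L.ev_z]
  ev_pρ φ h y j := by simp [L.ev_pρ φ h]
  ev_pr φ h y := by simp [L.ev_pr φ h]
  ev_DX y α r := by
    induction r with
    | zero => simp
    | add x y hx hy => simp only [map_add, hx, hy]
    | tmul a f =>
      simp only [LinearMap.lTensor_tmul, Algebra.TensorProduct.productMap_apply_tmul, L.ev_dx,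
        AlgHom.comp_apply, Algebra.ofId_apply, G.D_mul, G.D_algebraMap, zero_mul, zero_add]
  DX_mul α := der fun a b f g => by
    simp only [LinearMap.lTensor_tmul, L.dx_mul, tmul_add, Algebra.TensorProduct.tmul_mul_tmul]
  DY_mul α := der fun a b f g => by
    simp only [DY_tmul, G.D_mul, L.dz_mul, tmul_add, add_tmul, add_mul, mul_add, Finset.sum_mul,
      Finset.mul_sum, Algebra.TensorProduct.tmul_mul_tmul, Finset.sum_add_distrib, mul_assoc,
      mul_left_comm a]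
    abel
  DX_cx α s := by simp [L.dx_c]
  DX_cy α s := by simp [L.dx_one]
  DX_z α k := by simp [L.dx_z]
  DY_cx α s := by simp [DY_right, L.dz_c]
  DY_cy α s := by simp [DY_tmul, L.dz_one]
  DY_z α k := by
    rw [DY_right, Finset.sum_eq_single k (fun m _ h => by rw [L.dz_z, if_neg h.symm, tmul_zero])
      (by simp), L.dz_z, if_pos rfl]
    rfl
  DX_pρ φ h α j := by
    simp only [σR_eq, Algebra.TensorProduct.tmul_mul_tmul, LinearMap.lTensor_tmul, mul_one,
      L.dx_pρ φ h]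
  DY_pρ φ h α j := by
    simp only [σR_eq, Algebra.TensorProduct.tmul_mul_tmul, DY_right, mul_one, L.dz_pρ φ h,
      Finset.mul_sum, one_mul]
  DX_pr φ h α := by
    obtain ⟨r, hr⟩ := L.dx_pr φ h α
    exact ⟨1 ⊗ₜ r, by rw [LinearMap.lTensor_tmul, hr, Algebra.TensorProduct.tmul_mul_tmul, mul_one]⟩
  DY_pr φ h α := by
    choose r hr using L.dz_pr φ h
    exact ⟨∑ k, G.D α (u k) ⊗ₜ r k, by
      simp only [DY_right, hr, Finset.mul_sum, Algebra.TensorProduct.tmul_mul_tmul, one_mul]⟩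
  mul_mem {v w r s} hr hs := by
    refine Submodule.span_induction₂ (p := fun x y _ _ => x * y ∈ W B F (v + w)) ?_ ?_ ?_ ?_ ?_
      ?_ ?_ hr hs
    · rintro _ _ ⟨a, ha, f, rfl⟩ ⟨b, hb, g, rfl⟩
      rw [Algebra.TensorProduct.tmul_mul_tmul]
      exact tmul_mem (B.mul_mem ha hb) (f * g)
    · exact fun y _ => by simp
    · exact fun x _ => by simp
    · exact fun x y z _ _ _ h1 h2 => add_mul x y z ▸ add_mem h1 h2
    · exact fun x y z _ _ _ h1 h2 => mul_add x y z ▸ add_mem h1 h2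
    · exact fun c x y _ _ h => smul_mul_assoc c x y ▸ Submodule.smul_mem _ _ h
    · exact fun c x y _ _ h => mul_smul_comm c x y ▸ Submodule.smul_mem _ _ h
  cx_mem s := tmul_mem B.one_mem _
  cy_mem hs := tmul_mem hs _
  z_mem k := tmul_mem B.one_mem _
  pρ_mem φ j := tmul_mem B.one_mem _
  pr_mem φ := tmul_mem B.one_mem _
  int_mem {w r} hr := by
    refine (Submodule.span_le (p := (B.W w).comap _)).2 ?_ hr
    rintro _ ⟨a, ha, f, rfl⟩
    exact B.mul_mem' ha (L.iv_mem f) (add_zero _)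
  ev_int r y := by
    induction r with
    | zero => simp
    | add x y hx hy => simp only [map_add, ContinuousMap.add_apply, hx, hy]
    | tmul a f =>
      simp only [lift.tmul, LinearMap.compl₂_apply, LinearMap.mul_apply', map_mul,
        ContinuousMap.mul_apply, L.ev_iv, Algebra.TensorProduct.productMap_apply_tmul,
        AlgHom.comp_apply, Algebra.ofId_apply, ← Algebra.smul_def, map_smul, smul_eq_mul,
        Base.evAt_apply]
  D_int α r := by
    induction r with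
    | zero => simp
    | add x y hx hy => simp only [map_add, hx, hy]
    | tmul a f =>
      simp only [DY_tmul, map_add, map_sum, lift.tmul, LinearMap.compl₂_apply,
        LinearMap.mul_apply', G.D_mul, L.D_iv, Finset.mul_sum, mul_assoc, mul_left_comm a]
  bdd r k := by
    induction r with
    | zero => exact ⟨0, fun y => by rw [map_zero, G.nn_zero]⟩
    | add x y hx hy =>
      obtain ⟨C, hC⟩ := hx
      obtain ⟨C', hC'⟩ := hy
      exact ⟨C + C', fun p => by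
        rw [map_add]
        exact (G.nn_add _ _ _).trans (add_le_add (hC p) (hC' p))⟩
    | tmul a f =>
      obtain ⟨C, hC⟩ := L.bdd f k
      refine ⟨‖B.ev a‖ * C, fun p => ?_⟩
      rw [Algebra.TensorProduct.productMap_apply_tmul, AlgHom.comp_apply, Algebra.ofId_apply,
        ← Algebra.smul_def, G.nn_smul]
      exact mul_le_mul ((B.ev a).norm_coe_le_norm p) (hC p) (G.nn_nonneg _ _) (norm_nonneg _)

end LefKerData

theorem Pre.exists_kring (G : Pre B) {u : Fin G.N → A} (hu : ∀ k, B.Re0 (u k)) :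
    ∃ (R : Type) (_ : CommRing R) (_ : Algebra ℂ R), Nonempty (KRing G u R) := by
  obtain ⟨L⟩ := lefKer_data G hu
  exact ⟨_, _, _, ⟨L.ring⟩⟩

end SX4
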