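import Pool.Agent.P.MP_0a0487_an.SX.LefThomA
import Pool.Agent.P.MP_0a0487_an.SX.LefKer
import Pool.Agent.P.MP_0a0487_an.SX.LefOm

/-! The integral operator of the Thom form. -/

set_option autoImplicit false
set_option linter.unusedSectionVars false

noncomputable section

namespace SX4

open scoped ComplexOrder ContDiff
open Filter Topology

variable {P A : Type} [TopologicalSpace P] [CompactSpace P] [CommRing A] [StarRing A] [Algebra ℂ A]
  [StarModule ℂ A] {B : Base P A}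

variable {φ κ : ℝ → ℝ}

section

variable {R R' V V' : Type} [CommRing R] [AddCommGroup V] [Module R V] [CommRing R']
  [AddCommGroup V'] [Module R' V']

theorem LefThomB_cre (L : V →+ V') (α : Fin 4) (m : FF → V) :
    cre R' V' α (fun T => L (m T)) = fun T => L (cre R V α m T) := by
  funext T
  rw [cre_apply, cre_apply]
  split_ifs
  · exact (map_zsmul _ _ _).symm
  · exact (map_zero _).symm

theorem LefThomB_ann (L : V →+ V') (α : Fin 4) (m : FF → V) :
    ann R' V' α (fun T => L (m T)) = fun T => L (ann R V α m T) := by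
  funext T
  rw [ann_apply, ann_apply]
  split_ifs
  · exact (map_zero _).symm
  · exact (map_zsmul _ _ _).symm

end

namespace KRing

variable {G : Pre B} {u : Fin G.N → A} {R : Type} [CommRing R] [Algebra ℂ R] (K : KRing G u R)

/-- Integration against a form. -/
def LefThomB_L (x : FF → A) : (FF → R) →+ A where
  toFun v := K.int (bb v fun S => K.cx (x S))
  map_zero' := by simp [bb]
  map_add' v w := by rw [bb_add, map_add]

theorem LefThomB_L_apply (x : FF → A) (v : FF → R) :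
    K.LefThomB_L x v = K.int (bb v fun S => K.cx (x S)) := rfl

theorem LefThomB_ev (x : FF → A) (v : FF → R) (y : P) :
    B.ev (K.LefThomB_L x v) y = G.Bp (fun S => K.ev y (v S)) x := by
  rw [LefThomB_L_apply, K.ev_int]
  refine congrArg G.I ((bb_map (K.ev y : R →+* A) _ _).trans ?_)
  simp only [RingHom.coe_coe, K.ev_cx]

theorem LefThomB_D (x : FF → A) (α : Fin 4) (v : FF → R) :
    G.D α (K.LefThomB_L x v) = K.LefThomB_L x fun S => K.DY α (v S) := by
  rw [LefThomB_L_apply, LefThomB_L_apply, K.D_int]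
  simp only [bb, map_sum, map_zsmul, K.DY_mul, K.DY_cx, mul_zero, add_zero]

theorem LefThomB_cy (x : FF → A) (s : A) (v : FF → R) :
    K.LefThomB_L x (K.cy s • v) = s * K.LefThomB_L x v := by
  refine B.ext' fun y => ?_
  rw [LefThomB_L_apply, LefThomB_L_apply, bb_smul, K.ev_int, map_mul (K.ev y), map_mul B.ev,
    K.ev_cy, ← Algebra.smul_def, map_smul, ContinuousMap.mul_apply, K.ev_int, smul_eq_mul]

theorem LefThomB_d (x : FF → A) (m : FF → FF → R) :
    G.dF (fun T => K.LefThomB_L x (m T)) = fun T => K.LefThomB_L x (K.carY.d m T) := by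
  have h : K.carY.d m = ∑ α, cre R (FF → R) α (fun S T => K.DY α (m S T)) -
      ∑ α, ∑ β, ∑ γ, ((1 / 2 : ℂ) • K.cy (G.T α β γ)) •
        cre R (FF → R) α (cre R (FF → R) β (ann R (FF → R) γ m)) := by
    simp only [Car.d, LinearMap.sub_apply, LinearMap.sum_apply, LinearMap.restrictScalars_apply,
      LinearMap.smul_apply, Module.End.mul_apply]
    rfl
  funext T
  rw [h, Calc.dF_apply]
  simp only [LefThomB_D, LefThomB_ann (R := R), LefThomB_cre (R := R), Pi.sub_apply,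
    Finset.sum_apply, Pi.smul_apply, map_sub, map_sum, ← map_smul K.cy, LefThomB_cy, smul_eq_mul]

theorem LefThomB_mem (hu : ∀ k, B.Re0 (u k)) (S T : FF) : K.τ φ κ S T ∈ K.W (wF S) := by
  have h := biT_mem K.W (map_one K.cx ▸ K.cx_mem 1) K.mul_mem 0 wt 0 rfl rfl (K.pr_mem κ)
    (K.pρ_mem (deriv φ)) (K.pρ_mem φ) (x := fun a α => K.DX α (G.σR K.cx K.z a))
    (y := fun a β => K.DY β (G.σR K.cx K.z a)) (F := fun j α β => K.cx (G.F j α β))
    (fun a α => ?_) (fun a α => ?_) (fun j α β => K.cx_mem _) S T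
  · simpa [wF, τ] using h
  · simp only [Calc.σR, map_sum, K.DX_mul, map_sub, K.DX_cx, K.DX_z]
    exact Submodule.sum_mem _ fun k _ => add_mem
      (K.mul_mem (K.cx_mem _) (sub_mem (K.z_mem k) (K.cx_mem _)))
      (K.mul_mem (K.cx_mem _) (sub_mem (zero_mem _) (K.cx_mem _)))
  · simp only [Calc.σR, map_sum, K.DY_mul, map_sub, K.DY_cx, K.DY_z, zero_mul, zero_add, sub_zero]
    refine Submodule.sum_mem _ fun k _ => ?_
    have h1 := K.mul_mem (K.cx_mem (G.θ a k)) (K.cy_mem (G.D_mem α (hu k).1))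
    simpa using h1

end KRing

namespace Calc

variable (G : Calc B) {u : Fin G.N → A}

theorem LefThomB_om (hφ : ContDiff ℝ ∞ φ) (hκ : ContDiff ℝ ∞ κ) (u : Fin G.N → A) (y : P)
    (T : FF) : B.Om (G.thomK φ κ u y T) := fun S => by
  have h := biT_mem B.W B.one_mem B.mul_mem wt 0 (fun a => -wt a) (by decide) (by decide)
    (G.app_spec hκ (G.r2_re (G.Eu u y))).1.1
    (fun j => (G.app_spec (contDiff_infty_iff_deriv.1 hφ).2 (G.ρ_re (G.Eu u y) j)).1.1)
    (fun j => (G.app_spec hφ (G.ρ_re (G.Eu u y) j)).1.1)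
    (x := fun a α => G.D α (G.σ (G.Eu u y) a))
    (y := fun a β => ∑ k, B.ev (G.D β (u k)) y • G.θ a k) (F := G.F)
    (fun a α => G.D_mem' α (G.σ_mem _ a) (add_comm _ _))
    (fun a α => Submodule.sum_mem _ fun k _ => Submodule.smul_mem _ _ (by
      simpa using G.θ_mem a k))
    (fun j α β => (G.F_form j α β).1) T S
  simpa [wF, thomK] using h

theorem LefThomB_σu_mem (hu : ∀ k, B.Re0 (u k)) (a : Fin 4) : G.σu u a ∈ B.W (-wt a) :=
  Submodule.sum_mem _ fun k _ => B.mul_mem' (G.θ_mem a k)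
    (sub_mem (hu k).1 (G.e_re k).1) (add_zero _)

theorem LefThomB_σu_star (hu : ∀ k, B.Re0 (u k)) (a : Fin 4) :
    star (G.σu u a) = G.σu u (bar a) := by
  simp only [σu, star_sum, star_mul', star_sub, G.θ_star, (G.e_re _).2, (hu _).2]

theorem LefThomB_ρu (hu : ∀ k, B.Re0 (u k)) (j : Fin 2) : B.Re0 (G.ρu u j) :=
  ⟨B.mul_mem' (G.LefThomB_σu_mem hu _) (G.LefThomB_σu_mem hu _) (thomA_wt j), by
    rw [ρu, star_mul', G.LefThomB_σu_star hu, G.LefThomB_σu_star hu, thomA_bar, thomA_bar',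
      mul_comm]⟩

theorem LefThomB_ru (hu : ∀ k, B.Re0 (u k)) : B.Re0 (G.ru u) := by
  refine ⟨Submodule.sum_mem _ fun k _ => B.pow_mem (sub_mem (hu k).1 (G.e_re k).1) 2, ?_⟩
  simp only [ru, star_sum, star_pow, star_sub, (G.e_re _).2, (hu _).2]

end Calc

theorem Pre.exists_ker (G : Pre B) (hφ : ContDiff ℝ ∞ φ) (hκ : ContDiff ℝ ∞ κ)
    {u : Fin G.N → A} (hu : ∀ k, B.Re0 (u k)) (hc : ∀ y, G.CutOK φ κ (G.Eu u y)) :
    ∃ S, IsKer G (G.thomK φ κ u) S ∧ ∀ x, S (G.dS x) = G.dS (S x) := by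
  obtain ⟨R, _, _, ⟨K⟩⟩ := G.exists_kring hu
  have hm : ∀ (x : FF → A) (T : FF), K.LefThomB_L x (K.τ φ κ T) ∈ B.W (wF T) := fun x T =>
    K.int_mem (Submodule.sum_mem _ fun S _ => zsmul_mem (by
      simpa using K.mul_mem (K.LefThomB_mem hu T S) (K.cx_mem (x Sᶜ))) _)
  have he : ∀ (x : FF → A) (T : FF) (y : P),
      B.ev (K.LefThomB_L x (K.τ φ κ T)) y = G.Bp (G.thomK φ κ u y T) x := fun x T y => by
    simp only [K.LefThomB_ev, K.ev_τ hφ hκ]
  refine ⟨⟨⟨fun x => G.mk' (fun T => K.LefThomB_L x.c (K.τ φ κ T)) (hm x.c), fun x x' =>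
    Pre.Sec.ext fun T => B.ext' fun y => ?_⟩, fun z x => Pre.Sec.ext fun T => B.ext' fun y => ?_⟩,
    ⟨G.LefThomB_om hφ hκ u, fun k => ?_, fun x T y => he x.c T y⟩,
    fun x => Pre.Sec.ext fun T => B.ext' fun y => ?_⟩
  · simp only [Pre.Sec.c_add, Pre.c_mk', map_add, ContinuousMap.add_apply, he]
    exact G.Bp_add _ x.c x'.c
  · simp only [Pre.Sec.c_smul, Pre.c_mk', map_smul, ContinuousMap.smul_apply, he, RingHom.id_apply]
    exact G.Bp_csmul z _ x.c
  · choose C hC using fun w : FF × FF => K.bdd (K.τ φ κ w.1 w.2) k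
    refine ⟨∑ w, |C w|, fun y T T' => ?_⟩
    rw [← K.ev_τ hφ hκ]
    exact ((hC (T, T') y).trans (le_abs_self _)).trans
      (Finset.single_le_sum (f := fun w => |C w|) (fun _ _ => abs_nonneg _) (Finset.mem_univ _))
  · change B.ev (K.LefThomB_L (G.dF x.c) (K.τ φ κ T)) y =
      B.ev (G.dF (fun T => K.LefThomB_L x.c (K.τ φ κ T)) T) y
    rw [he, K.LefThomB_d, K.LefThomB_ev, K.closed hu hφ hκ (hc y), G.Bp_comm (-_),
      ← zero_sub (G.dF _), G.Bp_sub, G.Bp_comm _ (G.dF _),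
      G.Bp_dF x.mem (G.LefThomB_om hφ hκ u y T)]
    simp [Pre.Bp, bb]

theorem Calc.thomK_str (G : Calc B) (hφ : ContDiff ℝ ∞ φ) (hκ : ContDiff ℝ ∞ κ)
    {u : Fin G.N → A} (hu : ∀ k, B.Re0 (u k)) (p : P) :
    B.ev (G.thomD φ κ u) p = B.ev (strK (G.thomK φ κ u p)) p := by
  have hφ' := (contDiff_infty_iff_deriv.1 hφ).2
  have h0 : ∀ k, B.evAt p (u k) = B.evAt p (algebraMap ℂ A (G.Eu u p k)) := fun k => by
    rw [AlgHom.commutes]
    exact Complex.ext rfl ((B.re0_iff.1 (hu k)).2 p)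
  have h1 : ∀ a, B.evAt p (G.σu u a) = B.evAt p (G.σ (G.Eu u p) a) := fun a => by
    simp only [σu, σ, map_sum, map_mul, map_sub, h0]
  have h2 : ∀ j, B.ev (G.ρu u j) p = B.ev (G.ρ (G.Eu u p) j) p := fun j => by
    rw [← B.evAt_apply, ← B.evAt_apply]
    simp only [ρu, ρ, map_mul, h1]
  have h3 : B.ev (G.ru u) p = B.ev (G.r2 (G.Eu u p)) p := by
    rw [← B.evAt_apply, ← B.evAt_apply]
    simp only [ru, r2, map_sum, map_pow, map_sub, h0]
  have h4 := strK_map (B.evAt p : A →+* ℂ) (G.thomK φ κ u p)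
  simp only [RingHom.coe_coe, thomK, biT_map] at h4
  rw [strK_biT (F := fun j α β => B.evAt p (G.F j α β)) _ _ _ _ _ fun j α β => by
    rw [(G.F_form j α β).2, map_neg]] at h4
  rw [← B.evAt_apply, ← B.evAt_apply, thomK, h4, thomD, topT_map]
  congr 1
  · rw [B.evAt_apply, B.evAt_apply, (G.app_spec hκ (G.LefThomB_ru hu)).2.1,
      (G.app_spec hκ (G.r2_re _)).2.1, h3]
  · funext j
    rw [B.evAt_apply, B.evAt_apply, (G.app_spec hφ' (G.LefThomB_ρu hu j)).2.1,
      (G.app_spec hφ' (G.ρ_re _ j)).2.1, h2]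
  · funext j
    rw [B.evAt_apply, B.evAt_apply, (G.app_spec hφ (G.LefThomB_ρu hu j)).2.1,
      (G.app_spec hφ (G.ρ_re _ j)).2.1, h2]
  · funext a α
    simp only [Pi.add_apply, thomA_Dσ, σu, map_sum, G.D_mul, map_add, map_sub, map_mul, map_smul,
      h0, ← Finset.sum_add_distrib, smul_eq_mul, ← B.evAt_apply]
    exact Finset.sum_congr rfl fun k _ => by ring

theorem Calc.thomK_univ (G : Calc B) (u : Fin G.N → A) (y : P) (T : FF) :
    G.thomK φ κ u y T Finset.univ =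
      if T = ∅ then G.thomD φ κ (G.cst (G.Eu u y)) else 0 := by
  exact biT_univ _ _ _ _ _ (fun j α β => (G.F_form j α β).2) T

end SX4
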