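import Mathlib

/-! The Hopf trace formula. -/

set_option autoImplicit false
set_option linter.unusedSectionVars false

noncomputable section

namespace SX4

open scoped ComplexOrder ContDiff
open Filter Topology

theorem LefHopf_q {V : Type} [NormedAddCommGroup V] [InnerProductSpace ℂ V] (K : Submodule ℂ V)
    [FiniteDimensional ℂ K] :
    ∃ q : V →ₗ[ℂ] K, ∀ u ∈ K, ∀ v, inner ℂ u (q v : V) = inner ℂ u v :=
  ⟨K.orthogonalProjectionOnto.toLinearMap, fun u hu v =>
    K.inner_orthogonalProjectionOnto_eq_of_mem_left ⟨u, hu⟩ v⟩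

theorem LefHopf_ext {V : Type} [NormedAddCommGroup V] [InnerProductSpace ℂ V] {K : Submodule ℂ V}
    {x y : K} (h : ∀ u ∈ K, inner ℂ u (x : V) = inner ℂ u (y : V)) : x = y :=
  ext_inner_left ℂ fun u => h u u.2

theorem LefHopf_abs {W : Type} [NormedAddCommGroup W] [InnerProductSpace ℂ W]
    [FiniteDimensional ℂ W] (d δ Γ S P : Module.End ℂ W)
    (adj : ∀ x y, inner ℂ (d x) y = inner ℂ x (δ y)) (dd : d * d = 0) (dΓ : d * Γ = -(Γ * d))
    (Sd : S * d = d * S) (dP : d * P = 0) (Pd : P * d = 0) (Pδ : P * δ = 0) (PP : P * P = P)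
    (hP : ∀ x, d x = 0 → δ x = 0 → P x = x) :
    LinearMap.trace ℂ W (Γ * S) = LinearMap.trace ℂ W (Γ * S * P) := by
  set M := d * δ + δ * d + P with hM
  have PM : P * M = P := by
    rw [hM, mul_add, mul_add, ← mul_assoc, ← mul_assoc, Pd, Pδ, PP, zero_mul, zero_mul, zero_add,
      zero_add]
  have dM : d * M = M * d := by
    rw [hM, mul_add, mul_add, add_mul, add_mul, dP, Pd, ← mul_assoc d d, mul_assoc δ d d, dd,
      zero_mul, mul_zero, zero_add, add_zero, add_zero, add_zero, mul_assoc]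
  have hu : IsUnit M := by
    rw [LinearMap.isUnit_iff_ker_eq_bot, LinearMap.ker_eq_bot']
    intro x hx
    have h1 : P x = 0 := by rw [← PM, Module.End.mul_apply, hx, map_zero]
    have h2 : d (δ x) + δ (d x) = 0 := by
      have : d (δ x) + δ (d x) + P x = 0 := hx
      rwa [h1, add_zero] at this
    have h3 : inner ℂ x (d (δ x) + δ (d x)) = 0 := by rw [h2, inner_zero_right]
    rw [inner_add_right, ← adj, ← inner_conj_symm x, adj, inner_conj_symm] at h3
    have h4 := congrArg (RCLike.re : ℂ → ℝ) h3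
    rw [map_add, inner_self_eq_norm_sq, inner_self_eq_norm_sq, map_zero] at h4
    have h5 : ‖d x‖ ^ 2 = 0 := by nlinarith [sq_nonneg ‖d x‖, sq_nonneg ‖δ x‖]
    have h6 : ‖δ x‖ ^ 2 = 0 := by linarith
    rw [← hP x (by simpa using h5) (by simpa using h6), h1]
  obtain ⟨U, hU⟩ := hu
  have h1 : M * (↑U⁻¹ : Module.End ℂ W) = 1 := by rw [← hU, U.mul_inv]
  have h2 : (↑U⁻¹ : Module.End ℂ W) * M = 1 := by rw [← hU, U.inv_mul]
  set N : Module.End ℂ W := ↑U⁻¹
  have PN : P * N = P := by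
    conv_lhs => rw [← PM]
    rw [mul_assoc, h1, mul_one]
  have dN : d * N = N * d := by
    calc d * N = N * M * d * N := by rw [h2, one_mul]
      _ = N * d * (M * N) := by rw [mul_assoc N M, ← dM]; simp only [mul_assoc]
      _ = N * d := by rw [h1, mul_one]
  have one : (1 : Module.End ℂ W) = d * (δ * N) + δ * N * d + P := by
    rw [← h1, hM, add_mul, add_mul, PN, mul_assoc, mul_assoc, dN, mul_assoc]
  have key : LinearMap.trace ℂ W (Γ * S * (d * (δ * N))) =
      -LinearMap.trace ℂ W (Γ * S * (δ * N * d)) := by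
    have e1 : Γ * S * (d * (δ * N)) = -(d * (Γ * S * (δ * N))) := by
      rw [← mul_assoc d (Γ * S), ← mul_assoc d Γ, dΓ, neg_mul, neg_mul, neg_neg, mul_assoc Γ d,
        ← Sd]
      simp only [mul_assoc]
    rw [e1, map_neg, LinearMap.trace_mul_comm]
    simp only [mul_assoc]
  conv_lhs => rw [← mul_one (Γ * S), one]
  rw [mul_add, mul_add, map_add, map_add, key, neg_add_cancel, zero_add]

theorem lef_hopf {V : Type} [NormedAddCommGroup V] [InnerProductSpace ℂ V]
    (d δ Γ S : V →ₗ[ℂ] V) (E H : Submodule ℂ V) (adj : ∀ x y, inner ℂ (d x) y = inner ℂ x (δ y))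
    (hΓ : ∀ x y, inner ℂ (Γ x) y = inner ℂ x (Γ y)) (dd : ∀ x, d (d x) = 0)
    (dΓ : ∀ x, d (Γ x) = -Γ (d x)) (Sd : ∀ x, S (d x) = d (S x))
    (hE : ∀ x ∈ E, d x ∈ E ∧ δ x ∈ E ∧ Γ x ∈ E) (hH : ∀ x, x ∈ H ↔ d x = 0 ∧ δ x = 0)
    (le : H ≤ E) {ι κ : Type} [Fintype ι] [Fintype κ] (e : OrthonormalBasis ι ℂ E)
    (h : OrthonormalBasis κ ℂ H) :
    ∑ i, inner ℂ (e i : V) (Γ (S (e i))) = ∑ j, inner ℂ (h j : V) (Γ (S (h j))) := by
  have : FiniteDimensional ℂ E := e.toBasis.finiteDimensional_of_finite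
  have : FiniteDimensional ℂ H := h.toBasis.finiteDimensional_of_finite
  obtain ⟨p, hp⟩ := LefHopf_q E
  obtain ⟨q, hq⟩ := LefHopf_q H
  have adj' : ∀ x y, inner ℂ x (d y) = inner ℂ (δ x) y := fun x y => by
    rw [← inner_conj_symm, adj, inner_conj_symm]
  have hΓH : ∀ (x : E) y, inner ℂ (x : V) (Γ (p y)) = inner ℂ (x : V) (Γ y) := fun x y => by
    rw [← hΓ, hp _ (hE _ x.2).2.2, hΓ]
  have q0 : ∀ v, (∀ u ∈ H, inner ℂ u v = 0) → q v = 0 := fun v hv =>
    LefHopf_ext fun u hu => by rw [hq u hu, hv u hu, Submodule.coe_zero, inner_zero_right]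
  have qH : ∀ v (hv : v ∈ H), q v = ⟨v, hv⟩ := fun v hv => LefHopf_ext fun u hu => hq u hu v
  have key := LefHopf_abs (d.restrict fun x hx => (hE x hx).1)
    (δ.restrict fun x hx => (hE x hx).2.1) (Γ.restrict fun x hx => (hE x hx).2.2)
    (p ∘ₗ S ∘ₗ E.subtype) (Submodule.inclusion le ∘ₗ q ∘ₗ E.subtype)
    (fun x y => adj x y) (LinearMap.ext fun x => Subtype.ext (dd x))
    (LinearMap.ext fun x => Subtype.ext (dΓ x))
    (LinearMap.ext fun x => LefHopf_ext fun u hu => by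
      change inner ℂ u (p (S (d x)) : V) = inner ℂ u (d (p (S x)))
      rw [hp u hu, Sd, adj', adj', hp _ (hE u hu).2.1])
    (LinearMap.ext fun x => Subtype.ext ((hH _).1 (q x).2).1)
    (LinearMap.ext fun x => Subtype.ext (by
      change (q (d x) : V) = 0
      rw [q0 _ fun u hu => by rw [adj', ((hH u).1 hu).2, inner_zero_left], Submodule.coe_zero]))
    (LinearMap.ext fun x => Subtype.ext (by
      change (q (δ x) : V) = 0
      rw [q0 _ fun u hu => by rw [← adj, ((hH u).1 hu).1, inner_zero_left], Submodule.coe_zero]))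
    (LinearMap.ext fun x => Subtype.ext (by
      change (q (q x) : V) = q x
      rw [qH _ (q x).2]))
    (fun x h1 h2 => Subtype.ext (by
      change (q x : V) = x
      rw [qH x ((hH x).2 ⟨congrArg Subtype.val h1, congrArg Subtype.val h2⟩)]))
  replace key := key.trans (LinearMap.trace_comp_comm' (q ∘ₗ E.subtype)
    (((Γ.restrict fun x hx => (hE x hx).2.2) ∘ₗ p ∘ₗ S ∘ₗ E.subtype) ∘ₗ Submodule.inclusion le))
  rw [LinearMap.trace_eq_sum_inner _ e, LinearMap.trace_eq_sum_inner _ h] at key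
  refine (Finset.sum_congr rfl fun i _ => ?_).trans (key.trans (Finset.sum_congr rfl fun j _ => ?_))
  · exact (hΓH _ _).symm
  · exact (hq _ (h j).2 _).trans (hΓH ⟨h j, le (h j).2⟩ _)

/-- The trace of a compression. -/
theorem lef_trace_eq {V H : Type} [NormedAddCommGroup V] [InnerProductSpace ℂ V] [AddCommGroup H]
    [Module ℂ H] (K : Submodule ℂ V) {κ : Type} [Fintype κ] (h : OrthonormalBasis κ ℂ K)
    (F : V →ₗ[ℂ] V) (ι : K ≃ₗ[ℂ] H) (T : H →ₗ[ℂ] H)
    (hc : ∀ x y : K, (∀ e ∈ K, inner ℂ e (y : V) = inner ℂ e (F x)) → ι y = T (ι x)) :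
    ∑ j, inner ℂ (h j : V) (F (h j)) = LinearMap.trace ℂ H T := by
  have : FiniteDimensional ℂ K := h.toBasis.finiteDimensional_of_finite
  obtain ⟨q, hq⟩ := LefHopf_q K
  have e : T = ι.conj (q ∘ₗ F ∘ₗ K.subtype) := by
    ext v
    obtain ⟨x, rfl⟩ := ι.surjective v
    rw [LinearEquiv.conj_apply_apply, ι.symm_apply_apply]
    exact (hc x _ fun u hu => hq u hu _).symm
  rw [e, LinearMap.trace_conj', LinearMap.trace_eq_sum_inner _ h]
  exact Finset.sum_congr rfl fun j _ => (hq _ (h j).2 _).symm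

/-- The trace of a compression of `F ∘ p` for an orthogonal projection `p`. -/
theorem lef_trace_sub {V : Type} [NormedAddCommGroup V] [InnerProductSpace ℂ V]
    (K K' : Submodule ℂ V) (le : K' ≤ K) {κ κ' : Type} [Fintype κ] [Fintype κ']
    (h : OrthonormalBasis κ ℂ K) (h' : OrthonormalBasis κ' ℂ K') (F p : V →ₗ[ℂ] V)
    (hp : ∀ x y, inner ℂ (p x) y = inner ℂ x (p y)) (h1 : ∀ x ∈ K, p x ∈ K')
    (h2 : ∀ x ∈ K', p x = x) :
    ∑ j, inner ℂ (h j : V) (p (F (p (h j)))) = ∑ j, inner ℂ (h' j : V) (F (h' j)) := by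
  have : FiniteDimensional ℂ K := h.toBasis.finiteDimensional_of_finite
  have : FiniteDimensional ℂ K' := h'.toBasis.finiteDimensional_of_finite
  obtain ⟨q, hq⟩ := LefHopf_q K
  have key := LinearMap.trace_comp_comm' ((p ∘ₗ K.subtype).codRestrict K' fun x => h1 x x.2)
    (q ∘ₗ p ∘ₗ F ∘ₗ K'.subtype)
  rw [LinearMap.trace_eq_sum_inner _ h, LinearMap.trace_eq_sum_inner _ h'] at key
  refine (Finset.sum_congr rfl fun i _ => ?_).trans (key.trans (Finset.sum_congr rfl fun j _ => ?_))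
  · exact (hq _ (h i).2 _).symm
  · change inner ℂ (h' j : V) (p (q (p (F (h' j))))) = _
    rw [← hp, h2 _ (h' j).2, hq _ (le (h' j).2), ← hp, h2 _ (h' j).2]

end SX4
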