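import Pool.Agent.P.MP_0a0487_an.SX.LefHodge
import Pool.Agent.P.MP_0a0487_an.SX.LefHopf

/-! The trace of an integral operator. -/

set_option autoImplicit false
set_option linter.unusedSectionVars false

noncomputable section

namespace SX4

open scoped ComplexOrder ContDiff
open Filter Topology

variable {P A : Type} [TopologicalSpace P] [CompactSpace P] [CommRing A] [StarRing A] [Algebra ℂ A]
  [StarModule ℂ A] {B : Base P A}

theorem lefTrace_bs : ∀ S : FF, bs Sᶜ = bs S ∧ (bs S = 1 ∨ bs S = -1) := by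
  decide

theorem lefTrace_c_sum {G : Pre B} {ι : Type} (S : Finset ι) (f : ι → G.Sec wF) (T : FF) :
    (∑ i ∈ S, f i).c T = ∑ i ∈ S, (f i).c T := by
  classical
  induction S using Finset.induction_on with
  | empty => rfl
  | insert i S hi ih => rw [Finset.sum_insert hi, Finset.sum_insert hi, Pre.Sec.c_add, ih]

theorem lefTrace_orth {V : Type} [NormedAddCommGroup V] [InnerProductSpace ℂ V]
    {E : Submodule ℂ V} {ι : Type} [Fintype ι] (e : OrthonormalBasis ι ℂ E) (s : V) :
    ∀ x ∈ E, inner ℂ x (s - ∑ i, inner ℂ (e i : V) s • (e i : V)) = 0 := by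
  intro x hx
  have h : ∑ i, inner ℂ (e i : V) x • (e i : V) = x := by
    simpa using congrArg Subtype.val (e.sum_repr' ⟨x, hx⟩)
  rw [inner_sub_right, inner_sum, sub_eq_zero]
  conv_lhs => rw [← h, sum_inner]
  refine Finset.sum_congr rfl fun i _ => ?_
  rw [inner_smul_left, inner_smul_right, inner_conj_symm, mul_comm]

theorem lefTrace_nS (G : Pre B) {x : FF → A} (hx : B.Om x) {C : ℝ} (h : ∀ T, G.nn 5 (x T) ≤ C) :
    (G.mk' (hstar x) hx.hstar).nS 5 ≤ ∑ _T : FF, C := by
  refine Finset.sum_le_sum fun T _ => ?_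
  change G.nn 5 (bs T • star (x Tᶜ)) ≤ C
  rcases (lefTrace_bs T).2 with e | e <;> rw [e]
  · rw [one_smul, G.nn_star]; exact h _
  · rw [neg_smul, one_smul, G.nn_neg, G.nn_star]; exact h _

theorem Geo.lef_trace (G : Geo B) {m : P → FF → FF → A} {S : G.Sec wF →ₗ[ℂ] G.Sec wF}
    (hS : IsKer G.toPre m S) (hd : ∀ x, S (G.dS x) = G.dS (S x)) {Dg : A}
    (hD : ∀ p, B.ev Dg p = B.ev (strK (m p)) p) {κ : Type} [Fintype κ]
    (h : OrthonormalBasis κ ℂ G.Hm) :
    ∑ j, inner ℂ (h j : G.Sec wF) (G.ΓS (S (h j))) = G.I Dg := by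
  choose Cw hw0 hw using fun T : FF => G.supW (wF T)
  obtain ⟨C, hC⟩ := hS.bd 5
  have key : ∀ ε > 0, ‖G.I Dg - ∑ j, inner ℂ (h j : G.Sec wF) (G.ΓS (S (h j)))‖ ≤
      ε * ((∑ T, Cw T * ∑ _T : FF, C) * (G.I 1).re) := by
    intro ε hε
    obtain ⟨E, _, le, hE, hs⟩ := G.exists_spec hε
    let e := stdOrthonormalBasis ℂ E
    rw [← lef_hopf G.dS G.δS G.ΓS S E G.Hm G.dS_adj G.ΓS_adj G.dS_dS G.dS_ΓS hd hE
      (fun _ => G.mem_Hm) le e h]
    have e1 : ∑ i, inner ℂ (e i : G.Sec wF) (G.ΓS (S (e i))) = G.I (∑ i, ∑ T : FF,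
        (-1 : ℤ) ^ T.card • (star ((e i : G.Sec wF).c T) * (S (e i)).c T)) := by
      simp only [Pre.inner_complex, map_sum, Pre.ΓS_c, gam_apply, mul_smul_comm]
    rw [e1, ← map_sub]
    refine (G.I_norm_le (t := ((ε * ∑ T, Cw T * ∑ _T : FF, C : ℝ) : ℂ) • 1) fun y => ?_).trans
      (le_of_eq ?_)
    · let s : FF → G.Sec wF := fun T => G.mk' (hstar (m y T)) (hS.om y T).hstar
      let s' : FF → G.Sec wF := fun T => ∑ i, inner ℂ (e i : G.Sec wF) (s T) • (e i : G.Sec wF)
      have h1 : ∀ x T, B.ev ((S x).c T) y = inner ℂ (s T) x := fun x T => by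
        rw [hS.eq, G.inner_Bp]
        change _ = G.Bp (hstar (hstar (m y T))) x.c
        rw [hstar_hstar]
      have h2 : ∀ T, B.evAt y (star ((s' T).c T)) =
          ∑ i, B.evAt y (star ((e i : G.Sec wF).c T) * (S (e i)).c T) := fun T => by
        simp only [s', lefTrace_c_sum, Pre.Sec.c_smul, star_sum, star_smul, map_sum, map_smul,
          map_mul, smul_eq_mul]
        refine Finset.sum_congr rfl fun i _ => ?_
        rw [B.evAt_apply y ((S _).c T), h1, ← inner_conj_symm (s T), mul_comm]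
        rfl
      have h3 : ∀ T, star ((s T).c T) = bs Tᶜ • m y T Tᶜ := fun T => by
        change star (bs T • star (m y T Tᶜ)) = _
        rw [star_zsmul, star_star, (lefTrace_bs T).1]
      have h4 : B.ev (Dg - ∑ i, ∑ T : FF, (-1 : ℤ) ^ T.card •
          (star ((e i : G.Sec wF).c T) * (S (e i)).c T)) y =
          ∑ T : FF, (-1 : ℤ) ^ T.card • B.evAt y (star ((s T - s' T).c T)) := by
        rw [← B.evAt_apply, map_sub, B.evAt_apply y Dg, hD, ← B.evAt_apply, Finset.sum_comm, strK,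
          map_sum, map_sum, ← Finset.sum_sub_distrib]
        refine Finset.sum_congr rfl fun T _ => ?_
        rw [Pre.Sec.c_sub, star_sub, map_sub, h2, h3, mul_smul, ← Finset.smul_sum, map_zsmul,
          map_zsmul (B.evAt y) _ (∑ i, _), map_sum, smul_sub]
      rw [h4, map_smul, map_one, ContinuousMap.smul_apply, ContinuousMap.one_apply, smul_eq_mul,
        mul_one, Complex.ofReal_re, Finset.mul_sum]
      refine (norm_sum_le _ _).trans (Finset.sum_le_sum fun T _ => ?_)
      have h5 := hs (s T) (s' T) (Submodule.sum_mem _ fun i _ => Submodule.smul_mem _ _ (e i).2)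
        (lefTrace_orth e (s T))
      have h6 := mul_le_mul_of_nonneg_left (lefTrace_nS G.toPre (hS.om y T) (hC y T)) hε.le
      have h7 := mul_le_mul_of_nonneg_left (((s T - s' T).nn_le_nS 4 T).trans (h5.trans h6)) (hw0 T)
      rw [norm_zsmul ℂ, B.evAt_apply, B.ev_star, Complex.norm_conj]
      simp only [Int.cast_pow, Int.cast_neg, Int.cast_one, norm_pow, norm_neg, norm_one, one_pow,
        one_mul]
      exact ((ContinuousMap.norm_coe_le_norm _ y).trans ((hw T _ ((s T - s' T).mem T)).trans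
        h7)).trans_eq (mul_left_comm _ _ _)
    · rw [map_smul, smul_eq_mul, Complex.re_ofReal_mul, mul_assoc]
  have lim : Tendsto (fun ε : ℝ => ε * ((∑ T, Cw T * ∑ _T : FF, C) * (G.I 1).re)) (𝓝[>] 0)
      (𝓝 0) := tendsto_nhdsWithin_of_tendsto_nhds (Continuous.tendsto' (by fun_prop) _ _
        (zero_mul _))
  exact (sub_eq_zero.1 (norm_le_zero_iff.1
    (ge_of_tendsto lim (eventually_nhdsWithin_of_forall key)))).symm

end SX4
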