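import Pool.Agent.P.MP_0a0487_an.SX.LefPull

/-! Weak convergence of chain maps to a multiple of the pull-back. -/

set_option autoImplicit false
set_option linter.unusedSectionVars false

noncomputable section

namespace SX4

open scoped ComplexOrder ContDiff
open Filter Topology

variable {P A : Type} [TopologicalSpace P] [CompactSpace P] [CommRing A] [StarRing A] [Algebra ℂ A]
  [StarModule ℂ A] {B : Base P A}

theorem Map.lef_weak {G : Pre B} (f : Map G) {l : Filter ℝ} (S : ℝ → G.Sec wF →ₗ[ℂ] G.Sec wF)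
    (c : ℝ → ℂ) (C : ℂ) (hd : ∀ᶠ a in l, ∀ x, S a (G.dS x) = G.dS (S a x))
    (hv : ∀ᶠ a in l, ∀ x : G.Sec wF, x.c = vac A → (S a x).c = c a • vac A)
    (hc : Tendsto c l (𝓝 C))
    (hm : ∀ s ∈ B.W 0, ∀ x x' : G.Sec wF, x'.c = s • x.c → ∀ z, B.Om z →
      Tendsto (fun a => G.Bp z ((S a x').c - f.Φ s • (S a x).c)) l (𝓝 0))
    {x : G.Sec wF} {y : FF → A} (h : f.Pull x.c y) {z : FF → A} (hz : B.Om z) :
    Tendsto (fun a => G.Bp z (S a x).c) l (𝓝 (C * G.Bp z y)) := by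
  have he : ∀ a u v, G.Bp (e1 a u) v = G.Bp u (e1 a v) := fun a u v => congrArg G.I (bb_e1 a u v)
  generalize hx : x.c = x₀ at h
  induction h generalizing x z with
  | @fn s hs =>
    have h1 := (hm s hs (G.mk' _ Base.Om.vac) x hx z hz).add
      (hc.mul_const (G.Bp z (f.Φ s • vac A)))
    rw [zero_add] at h1
    refine h1.congr' (hv.mono fun a ha => ?_)
    simp only [ha (G.mk' _ Base.Om.vac) rfl, smul_comm (f.Φ s), G.Bp_sub, G.Bp_csmul]
    ring
  | @add x₁ x₂ y₁ y₂ h₁ h₂ ih₁ ih₂ =>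
    have h1 := (ih₁ (x := G.mk' _ h₁.om.1) hz rfl).add (ih₂ (x := G.mk' _ h₂.om.1) hz rfl)
    rw [← mul_add, ← G.Bp_add] at h1
    refine h1.congr fun a => ?_
    rw [show x = G.mk' _ h₁.om.1 + G.mk' _ h₂.om.1 from Pre.Sec.ext (congrFun hx), map_add]
    exact (G.Bp_add _ _ _).symm
  | @ext s hs x₁ y₁ h₁ ih =>
    have hΦ := f.mem s hs
    have o1 := h₁.om.1
    have o2 := (G.dF_om o1).smul hs
    have h1 := ((ih (x := G.mk' _ o1) (hz.e1 (G.d0_form hΦ)) rfl).sub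
      (hm s hs (G.mk' _ o1) (G.mk' _ (o1.smul hs)) rfl _ (G.dF_om hz))).sub
      (hm s hs (G.dS (G.mk' _ o1)) (G.mk' _ o2) rfl z hz)
    rw [sub_zero, sub_zero, he] at h1
    refine h1.congr' (hd.mono fun a ha => ?_)
    have h2 : x = G.dS (G.mk' _ (o1.smul hs)) - G.mk' _ o2 :=
      Pre.Sec.ext (congrFun (hx.trans (eq_sub_of_add_eq (G.dF_smul s x₁).symm)))
    have h3 : (S a x).c = G.dF (S a (G.mk' _ (o1.smul hs))).c - (S a (G.mk' _ o2)).c := by
      rw [h2, map_sub, ha]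
      rfl
    have h4 := G.Bp_dF hz (Base.Om.smul (S a (G.mk' _ o1)).mem hΦ)
    rw [G.dF_smul, G.Bp_add] at h4
    simp only [h3, ha, G.dS_c, G.Bp_sub, he, h4, G.Bp_dF hz (S a (G.mk' _ (o1.smul hs))).mem]
    ring

end SX4
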