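import Pool.Agent.P.MP_0a0487_an.SX.LefCoh
import Pool.Agent.P.MP_0a0487_an.SX.LefThomB
import Pool.Agent.P.MP_0a0487_an.SX.LefTrace
import Pool.Agent.P.MP_0a0487_an.SX.LefWeak
import Pool.Agent.P.MP_0a0487_an.SX.LefLoc
import Pool.Agent.P.MP_0a0487_an.SX.LefFin
import Pool.Agent.P.MP_0a0487_an.SX.IndConj

/-! The Lefschetz fixed point formula. -/

set_option autoImplicit false
set_option linter.unusedSectionVars false

noncomputable section

namespace SX4

open scoped ComplexOrder ContDiff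
open Filter Topology Matrix

variable {P A : Type} [TopologicalSpace P] [CompactSpace P] [CommRing A] [StarRing A] [Algebra ℂ A]
  [StarModule ℂ A] {B : Base P A}

/-- The Thom operator acts on constants by its fibre integral. -/
theorem IsKer.lef_vac {G : Geo B} {φ κ : ℝ → ℝ} {u : Fin G.N → A}
    {S : G.Sec wF →ₗ[ℂ] G.Sec wF} (hS : IsKer G.toPre (G.thomK φ κ u) S)
    (hd : ∀ x, S (G.dS x) = G.dS (S x)) {x : G.Sec wF} (hx : x.c = vac A) (y : P) :
    (S x).c = G.I (G.thomD φ κ (G.cst (G.Eu u y))) • vac A := by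
  have h1 : ∀ T y, B.ev ((S x).c T) y =
      if T = ∅ then G.I (G.thomD φ κ (G.cst (G.Eu u y))) else 0 := fun T y => by
    rw [hS.eq, hx, Pre.Bp, bb_comm, bb_vac, G.thomK_univ]
    split_ifs
    · rfl
    · exact map_zero _
  have h2 : (S x).c = (S x).c ∅ • vac A := funext fun T => by
    by_cases h : T = ∅
    · simp [h, vac]
    · rw [show (S x).c T = 0 from B.ext' fun y => by rw [h1, if_neg h, map_zero]; rfl]
      simp [h, vac]
  have h3 : G.dF (S x).c = 0 := by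
    rw [← Pre.dS_c, ← hd, show G.dS x = 0 from Pre.Sec.ext fun T => by
      rw [Pre.dS_c, hx, G.dF_vac]; rfl, map_zero]
    rfl
  rw [h2, G.dF_smul, G.dF_vac, smul_zero, add_zero] at h3
  obtain ⟨c, hc⟩ := G.const _ (Base.Om.zero_mem (S x).mem).1 fun α => by
    have := congrFun h3 {α}
    rwa [e1_vac] at this
  have h4 := h1 ∅ y
  rw [if_pos rfl, hc, AlgHomClass.commutes] at h4
  rw [h2, hc, ← h4, algebraMap_smul]
  rfl

theorem Link.lefschetz {X : Type} [TopologicalSpace X] [CompactSpace X] [T2Space X] {a : Fr X}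
    [Nonempty P] (G : Geo B) {t : Atl G.toCalc} (hI : IsInt G.toPre t) (l : Link a G.toCalc)
    {g : X → X} (hg : a.SmMap g) (f f' : Map G.toPre) (hf : ∀ p, l.π (f.pt p) = g (l.π p))
    (hf' : ∀ p, g (l.π (f'.pt p)) = l.π p)
    (hd : ∀ i, ∀ x ∈ (a.φ i).source, g x = x → 0 < (1 - a.Jm g i i x).det) :
    (Function.fixedPoints g).Finite ∧
      (Nat.card (Function.fixedPoints g) : ℂ) = f.mor.lef f'.mor := by
  obtain ⟨hfin, hj⟩ := l.lef_fin hg f hf hd
  refine ⟨hfin, ?_⟩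
  obtain ⟨b, hb, hn⟩ := t.tay.exists_near
  obtain ⟨φ, κ, hp⟩ := exists_prof hb
  obtain ⟨C, hC, hloc⟩ := hI.lef_loc hn hp
  set u : Fin G.N → A := fun k => f.Φ (G.e k) with hu
  have u0 : ∀ k, B.Re0 (u k) := fun k => f.Φ_re (G.e_re k)
  have u1 : ∀ y, G.Eu u y = G.E (f.pt y) := fun y => funext fun k =>
    congrArg Complex.re (f.ev_eq _ (G.e_re k).1 y)
  have u2 : ∀ y, G.E (f.pt (f'.pt y)) = G.E y := fun y => by rw [l.E_eq_iff, hf, hf']
  have u3 : ∀ y, G.Eu u y = G.E y ↔ g (l.π y) = l.π y := fun y => by rw [u1, l.E_eq_iff, hf]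
  have hi : ∀ s ∈ B.W 0, f.Φ (f'.Φ s) = s := fun s hs => by
    obtain ⟨s', hs', rfl⟩ := f.surj s hs
    refine congrArg f.Φ (B.ext' fun p => ?_)
    rw [f'.ev_eq _ hs, f.ev_eq _ hs', t.ev_eq_of_E (u2 p) hs']
  have hS : ∀ᶠ a in 𝓝[>] (0 : ℝ), ∃ S, IsKer G.toPre (G.thomK (scl φ a) κ u) S ∧
      ∀ x, S (G.dS x) = G.dS (S x) := (hn.cut hp).mono fun a h =>
    G.exists_ker (hp.scl_sm a) hp.κ_sm u0 fun y => u1 y ▸ h _
  obtain ⟨S, hS⟩ := hS.choice
  obtain ⟨y₀⟩ := ‹Nonempty P›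
  have c2 : ∀ z k p, B.ev (G.cst z k) p = z k := fun z k p => (B.evAt p).commutes _
  have c0 : ∀ z k, B.Re0 (G.cst z k) := fun z k =>
    B.re0_iff.2 ⟨B.algebraMap_mem _, fun p => by rw [c2, Complex.ofReal_im]⟩
  have c1 : ∀ z p, G.Eu (G.cst z) p = z := fun z p => funext fun k => by
    rw [Calc.Eu, c2, Complex.ofReal_re]
  have hc : Tendsto (fun a => G.I (G.thomD (scl φ a) κ (G.cst (G.Eu u y₀)))) (𝓝[>] 0)
      (𝓝 (C : ℂ)) := by
    have := hloc (G.cst (G.E (f.pt y₀))) (c0 _) (fun p => ⟨_, c1 _ p⟩) (fun _ : Unit => f.pt y₀)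
      (fun _ => c1 _ _) (fun _ _ _ => rfl) (fun q h => ⟨(), h.symm.trans (c1 _ q)⟩)
      fun _ => by rw [G.jac_cst]; exact one_pos
    rwa [Fintype.card_unit, Nat.cast_one, mul_one, ← u1] at this
  have hb : ∀ᶠ a in 𝓝[>] (0 : ℝ), ∀ y,
      ‖G.I (G.thomD (scl φ a) κ (G.cst (G.E y)))‖ ≤ ‖(C : ℂ)‖ + 1 := by
    filter_upwards [hS, hc.norm.eventually (ge_mem_nhds (lt_add_one _))] with a h1 h2 y
    have e := congrFun ((h1.1.lef_vac h1.2 (x := G.mk' (vac A) Base.Om.vac) rfl y₀).symm.trans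
      (h1.1.lef_vac h1.2 (x := G.mk' (vac A) Base.Om.vac) rfl (f'.pt y))) ∅
    have e' := congrArg (fun s => B.ev s y) e
    simp only [vac, Pi.smul_apply, Pi.single_eq_same, map_smul, map_one, ContinuousMap.smul_apply,
      ContinuousMap.one_apply, smul_eq_mul, mul_one, u1 (f'.pt y), u2] at e'
    rwa [← e']
  obtain ⟨F, hF⟩ := f.exists_pullS
  have := G.Hm_fd
  let h := stdOrthonormalBasis ℂ G.Hm
  have := hfin.to_subtype
  have := Fintype.ofFinite (Function.fixedPoints g)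
  choose p hp' using fun x : Function.fixedPoints g => l.π_surj x
  have l1 := hloc u u0 (fun p => ⟨_, u1 p⟩) p (fun i => (u3 _).2 (by rw [hp']; exact i.2))
    (fun i j e => Subtype.ext (by rw [← hp', ← hp', ← l.E_eq_iff, e]))
    (fun q e => ⟨⟨l.π q, (u3 q).1 e⟩, by rw [l.E_eq_iff, hp']⟩)
    fun i => hj _ (by rw [hp']; exact i.2)
  have key : ∀ x y : G.Sec wF, inner ℂ x (G.ΓS y) = G.Bp (hstar (G.ΓS x).c) y.c := fun x y => by
    rw [← G.ΓS_adj, G.inner_Bp]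
  have l2 : Tendsto (fun a => G.I (G.thomD (scl φ a) κ u)) (𝓝[>] 0)
      (𝓝 ((C : ℂ) * f.mor.lef f'.mor)) := by
    rw [← G.lef_coh f f' hi hF h, Finset.mul_sum]
    refine Tendsto.congr' (hS.mono fun a ha => G.lef_trace ha.1 ha.2
      (G.thomK_str (hp.scl_sm a) hp.κ_sm u0) h) (tendsto_finsetSum _ fun j _ => ?_)
    simp only [key]
    exact f.lef_weak S _ C (hS.mono fun a ha => ha.2)
      (hS.mono fun a ha x hx => ha.1.lef_vac ha.2 hx y₀) hc
      (fun s hs x x' hx z hz => f.lef_comm t.tay hn hp (hS.mono fun a ha => ha.1) hb hs hx hz)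
      (hF _) (Base.Om.hstar (G.ΓS _).mem)
  rw [Nat.card_eq_fintype_card]
  exact mul_left_cancel₀ (by exact_mod_cast hC.ne') (tendsto_nhds_unique l1 l2)

end SX4
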