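import Pool.Agent.P.MP_0a0487_an.SX.LefBi

/-! Algebra of the universal Thom form. -/

set_option autoImplicit false
set_option linter.unusedSectionVars false

noncomputable section

namespace SX4

open scoped ComplexOrder ContDiff
open Filter Topology

section

variable {R V : Type} [CommRing R] [AddCommGroup V] [Module R V]

theorem lbt_cg (L : V →ₗ[R] V) (m : FF → V) :
    L.compLeft FF (gam R V m) = gam R V (L.compLeft FF m) := funext fun _ => map_zsmul L _ _

theorem lbt_cc (L : V →ₗ[R] V) (β : Fin 4) (m : FF → V) :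
    L.compLeft FF (cre R V β m) = cre R V β (L.compLeft FF m) := funext fun S => by
  change L (cre R V β m S) = cre R V β (fun S => L (m S)) S
  rw [cre_apply, cre_apply]
  split_ifs
  · exact map_zsmul _ _ _
  · exact map_zero _

theorem lbt_cre (α β : Fin 4) (m : FF → V) :
    cre R V α (cre R V β m) = -cre R V β (cre R V α m) :=
  eq_neg_of_add_eq_zero_left (LinearMap.congr_fun (cre_cre R V α β) m)

theorem lbt_X (α : Fin 4) (m : FF → FF → R) :
    opX α m = gam R _ ((cre R R α).compLeft FF m) := rfl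

theorem lbt_Y (α : Fin 4) (m : FF → FF → R) : opY α m = gam R _ (cre R _ α m) := rfl

theorem lbt_X' (α : Fin 4) (m : FF → FF → R) (S T : FF) : opX α m S T =
    (-1 : ℤ) ^ S.card • if α ∈ T then cs α T • m S (T.erase α) else 0 := rfl

theorem lbt_Y' (α : Fin 4) (m : FF → FF → R) (S T : FF) : opY α m S T =
    (-1 : ℤ) ^ S.card • if α ∈ S then cs α S • m (S.erase α) T else 0 := by
  rw [lbt_Y, gam_apply, cre_apply]
  split_ifs <;> rfl

theorem lbt_XX (α β : Fin 4) (m : FF → FF → R) : opX α (opX β m) = -opX β (opX α m) := by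
  simp only [lbt_X, lbt_cg, gam_gam]
  funext S
  exact lbt_cre (R := R) α β (m S)

theorem lbt_YY (α β : Fin 4) (m : FF → FF → R) : opY α (opY β m) = -opY β (opY α m) := by
  simp only [lbt_Y, gam_cre, map_neg, gam_gam, neg_neg]
  rw [lbt_cre (R := R) α β, neg_neg]

theorem lbt_XY (α β : Fin 4) (m : FF → FF → R) : opX α (opY β m) = -opY β (opX α m) := by
  rw [lbt_X, lbt_Y, lbt_X, lbt_Y, lbt_cg, gam_gam, gam_cre, gam_gam, neg_neg, lbt_cc]

theorem lbt_Z (x y : Fin 4 → R) (m : FF → FF → R) :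
    opZ x y m = ∑ α, x α • opX α m + ∑ α, y α • opY α m := by
  simp only [opZ, LinearMap.add_apply, LinearMap.sum_apply, LinearMap.smul_apply]

theorem lbt_sign : ∀ (α : Fin 4) (S : FF), α ∉ S → (-1) ^ S.card * bs Sᶜ * ((-1) ^ S.card * cs α Sᶜ) =
    (-1) ^ (insert α S).card * bs (insert α S)ᶜ * ((-1) ^ (insert α S).card * cs α (insert α S)) ∧
      Sᶜ.erase α = (insert α S)ᶜ := by
  decide

theorem lbt_flip : ∀ (α : Fin 4), Function.Involutive fun S : FF =>
    if α ∈ S then S.erase α else insert α S := by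
  unfold Function.Involutive
  decide

theorem lbt_str (α : Fin 4) (m : FF → FF → R) : strK (opX α m) = strK (opY α m) := by
  refine Finset.sum_bijective _ (lbt_flip α).bijective (by simp) fun S _ => ?_
  rw [lbt_X', lbt_Y']
  by_cases h : α ∈ S
  · simp [h]
  · simp only [h, if_false, Finset.mem_compl, not_false_eq_true, if_true, Finset.mem_insert_self,
      smul_smul, (lbt_sign α S h).1, (lbt_sign α S h).2, Finset.erase_insert h]

/-- The double forms which vanish on the diagonal. -/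
def lbtJ (R : Type) [CommRing R] : Submodule R (FF → FF → R) :=
  Submodule.span R {u | ∃ α m, u = opY α m - opX α m}

theorem lbt_Jgen (α : Fin 4) (m : FF → FF → R) : opY α m - opX α m ∈ lbtJ R :=
  Submodule.subset_span ⟨α, m, rfl⟩

theorem lbt_Jstr {m m' : FF → FF → R} (h : SModEq (lbtJ R) m m') : strK m = strK m' := by
  let L : (FF → FF → R) →ₗ[R] R :=
    { toFun := strK
      map_add' := fun a b => by simp only [strK, Pi.add_apply, smul_add, Finset.sum_add_distrib]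
      map_smul' := fun r a => by
        simp only [strK, Pi.smul_apply, smul_eq_mul, Finset.mul_sum, mul_smul_comm, RingHom.id_apply] }
  have h1 : lbtJ R ≤ LinearMap.ker L := Submodule.span_le.2 (by
    rintro _ ⟨α, m, rfl⟩
    exact LinearMap.sub_mem_ker_iff.2 (lbt_str α m).symm)
  exact LinearMap.sub_mem_ker_iff.1 (h1 (SModEq.sub_mem.1 h))

theorem lbt_Jop {L : Module.End R (FF → FF → R)} (h1 : ∀ α m, L (opX α m) = -opX α (L m))
    (h2 : ∀ α m, L (opY α m) = -opY α (L m)) {m m' : FF → FF → R} (h : SModEq (lbtJ R) m m') :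
    SModEq (lbtJ R) (L m) (L m') := by
  have h3 : lbtJ R ≤ (lbtJ R).comap L := Submodule.span_le.2 (by
    rintro _ ⟨α, m, rfl⟩
    change L _ ∈ lbtJ R
    rw [map_sub, h1, h2, neg_sub_neg, ← neg_sub]
    exact neg_mem (lbt_Jgen α _))
  rw [SModEq.sub_mem] at h ⊢
  rw [← map_sub]
  exact h3 h

theorem lbt_JX (α : Fin 4) {m m' : FF → FF → R} (h : SModEq (lbtJ R) m m') :
    SModEq (lbtJ R) (opX α m) (opX α m') := lbt_Jop (lbt_XX α) (lbt_XY α) h

theorem lbt_JY (α : Fin 4) {m m' : FF → FF → R} (h : SModEq (lbtJ R) m m') :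
    SModEq (lbtJ R) (opY α m) (opX α m') :=
  (lbt_Jop (fun β m => by rw [lbt_XY, neg_neg]) (lbt_YY α) h).trans
    (SModEq.sub_mem.2 (lbt_Jgen α _))

theorem lbt_JZ (x y : Fin 4 → R) {m m' : FF → FF → R} (h : SModEq (lbtJ R) m m') :
    SModEq (lbtJ R) (opZ x y m) (opZ (x + y) 0 m') := by
  simp only [lbt_Z, Pi.add_apply, Pi.zero_apply, zero_smul, Finset.sum_const_zero, add_zero,
    add_smul, Finset.sum_add_distrib]
  exact (SModEq.sum fun α _ => (lbt_JX α h).smul _).add (SModEq.sum fun α _ => (lbt_JY α h).smul _)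

theorem lbt_Z0 (x y : Fin 4 → R) (m : FF → FF → R) : opZ x y m ∅ = e1 x (m ∅) := by
  have h1 : ∀ α, opX α m ∅ = cre R R α (m ∅) := fun α => one_smul ℤ _
  have h2 : ∀ α, opY α m ∅ = 0 := fun α => smul_zero ((-1 : ℤ) ^ (∅ : FF).card)
  simp only [lbt_Z, e1, Pi.add_apply, Finset.sum_apply, Pi.smul_apply, h1, h2, smul_zero,
    Finset.sum_const_zero, add_zero, LinearMap.sum_apply, LinearMap.smul_apply]

end

variable {R : Type} [CommRing R] [Algebra ℂ R]

theorem lbt_T (p q : R) (x y x' y' : Fin 4 → R) (F : Fin 4 → Fin 4 → R) (m : FF → FF → R) :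
    opT p q x y x' y' F m = (-p) • opZ x y (opZ x' y' m) +
      q • ∑ α, ∑ β, ((1 / 2 : ℂ) • F α β) • opX α (opX β m) := by
  simp only [opT, LinearMap.add_apply, LinearMap.sum_apply, LinearMap.smul_apply,
    Module.End.mul_apply]

theorem lbt_JT (p q : R) (x y x' y' : Fin 4 → R) (F : Fin 4 → Fin 4 → R) {m m' : FF → FF → R}
    (h : SModEq (lbtJ R) m m') :
    SModEq (lbtJ R) (opT p q x y x' y' F m) (opT p q (x + y) 0 (x' + y') 0 F m') := by
  rw [lbt_T, lbt_T]
  exact ((lbt_JZ _ _ (lbt_JZ _ _ h)).smul _).add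
    ((SModEq.sum fun α _ => SModEq.sum fun β _ => (lbt_JX α (lbt_JX β h)).smul _).smul _)

theorem lbt_T0 (p q : R) (x y x' y' : Fin 4 → R) (F : Fin 4 → Fin 4 → R) (m : FF → FF → R) :
    opT p q x y x' y' F m ∅ = e2 (fun α β => -p * w1 x x' α β + q * F α β) (m ∅) := by
  have h1 : ∀ α (m : FF → FF → R), opX α m ∅ = cre R R α (m ∅) := fun α m => one_smul ℤ _
  have h2 : e2 (fun α β => -p * w1 x x' α β + q * F α β) = (-p) • e2 (w1 x x') + q • e2 F := by
    simp only [e2, smul_add, add_smul, Finset.sum_add_distrib, Finset.smul_sum, smul_smul,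
      mul_smul_comm]
  rw [h2, e2_w1, lbt_T]
  simp only [e2, Pi.add_apply, Pi.smul_apply, Finset.sum_apply, h1, lbt_Z0, LinearMap.add_apply,
    LinearMap.sum_apply, LinearMap.smul_apply, Module.End.mul_apply]

theorem lbt_empty (k : R) (p q : Fin 2 → R) (x y : Fin 4 → Fin 4 → R)
    {F : Fin 2 → Fin 4 → Fin 4 → R} (hF : ∀ j α β, F j β α = -F j α β) :
    biT k p q x y F ∅ Finset.univ = topT k p q x F := by
  rw [biT, Pi.smul_apply, Pi.smul_apply, lbt_T0, lbt_T0, Pi.single_eq_same, e2_top, topT,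
    smul_eq_mul]
  · intro α β
    simp only [w1, hF 0 α β]
    ring
  · intro α β
    simp only [w1, hF 1 α β]
    ring

section

variable {R' : Type} [CommRing R'] [Algebra ℂ R'] (f : R →ₐ[ℂ] R')

/-- Change of rings for double forms. -/
def lbtM : (FF → FF → R) →+ (FF → FF → R') where
  toFun m S T := f (m S T)
  map_zero' := funext₂ fun _ _ => map_zero f
  map_add' _ _ := funext₂ fun _ _ => map_add f _ _

theorem lbtM_apply (m : FF → FF → R) (S T : FF) : lbtM f m S T = f (m S T) := rfl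

theorem lbtM_smul (r : R) (m : FF → FF → R) : lbtM f (r • m) = f r • lbtM f m :=
  funext₂ fun _ _ => map_mul f _ _

theorem lbtM_X (α : Fin 4) (m : FF → FF → R) : lbtM f (opX α m) = opX α (lbtM f m) :=
  funext₂ fun S T => by
    simp only [lbtM_apply, lbt_X', map_zsmul, apply_ite f, map_zero]

theorem lbtM_Y (α : Fin 4) (m : FF → FF → R) : lbtM f (opY α m) = opY α (lbtM f m) :=
  funext₂ fun S T => by
    simp only [lbtM_apply, lbt_Y', map_zsmul, apply_ite f, map_zero]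

theorem lbtM_T (p q : R) (x y x' y' : Fin 4 → R) (F : Fin 4 → Fin 4 → R) (m : FF → FF → R) :
    lbtM f (opT p q x y x' y' F m) = opT (f p) (f q) (fun α => f (x α)) (fun α => f (y α))
      (fun α => f (x' α)) (fun α => f (y' α)) (fun α β => f (F α β)) (lbtM f m) := by
  have h : ∀ (x y : Fin 4 → R) m, lbtM f (opZ x y m) =
      opZ (fun α => f (x α)) (fun α => f (y α)) (lbtM f m) := fun x y m => by
    simp only [lbt_Z, map_add, map_sum, lbtM_smul, lbtM_X, lbtM_Y]
  rw [lbt_T, lbt_T, map_add, lbtM_smul, lbtM_smul, h, h, map_neg]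
  simp only [map_sum, lbtM_smul, lbtM_X, map_smul]

end

theorem lbt_mem (W : Wt → Submodule ℂ R) (h1 : (1 : R) ∈ W 0)
    (hm : ∀ {v w : Wt} {r s : R}, r ∈ W v → s ∈ W w → r * s ∈ W (v + w)) (wx wy wa : Fin 4 → Wt)
    (c : Wt) (h01 : wa 1 + wa 0 = c) (h23 : wa 3 + wa 2 = c) {k : R} {p q : Fin 2 → R}
    {x y : Fin 4 → Fin 4 → R} {F : Fin 2 → Fin 4 → Fin 4 → R} (hk : k ∈ W 0)
    (hp : ∀ j, p j ∈ W 0) (hq : ∀ j, q j ∈ W 0) (hx : ∀ a α, x a α ∈ W (wx α + wa a))
    (hy : ∀ a α, y a α ∈ W (wy α + wa a)) (hF : ∀ j α β, F j α β ∈ W (wx α + wx β + c))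
    (S T : FF) : biT k p q x y F S T ∈ W (∑ α ∈ S, wy α + ∑ α ∈ T, wx α + (c + c)) := by
  let Q : Wt → (FF → FF → R) → Prop := fun v m =>
    ∀ S T, m S T ∈ W (∑ α ∈ S, wy α + ∑ α ∈ T, wx α + v)
  have qs : ∀ {u v w : Wt} {r : R} {m}, r ∈ W u → Q v m → u + v = w → Q w (r • m) :=
    fun hr h e S T => by
      have := hm hr (h S T)
      rwa [add_left_comm, e] at this
  have qa : ∀ {v : Wt} {m m'}, Q v m → Q v m' → Q v (m + m') := fun h h' S T =>
    add_mem (h S T) (h' S T)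
  have qt : ∀ {v : Wt} {m : Fin 4 → FF → FF → R}, (∀ α, Q v (m α)) → Q v (∑ α, m α) :=
    fun h S T => by
      rw [Finset.sum_apply, Finset.sum_apply]
      exact sum_mem fun α _ => h α S T
  have qx : ∀ (α) {v : Wt} {m}, Q v m → Q (v - wx α) (opX α m) := fun α v m h S T => by
    rw [lbt_X']
    split_ifs with hα
    · rw [← Finset.sum_erase_add T _ hα, ← add_assoc, add_assoc _ (wx α), add_sub_cancel]
      exact zsmul_mem (zsmul_mem (h _ _) _) _
    · exact zsmul_mem (zero_mem _) _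
  have qy : ∀ (α) {v : Wt} {m}, Q v m → Q (v - wy α) (opY α m) := fun α v m h S T => by
    rw [lbt_Y']
    split_ifs with hα
    · rw [← Finset.sum_erase_add S _ hα, add_right_comm _ (wy α), add_assoc _ (wy α),
        add_sub_cancel]
      exact zsmul_mem (zsmul_mem (h _ _) _) _
    · exact zsmul_mem (zero_mem _) _
  have qz : ∀ (a) {v : Wt} {m}, Q v m → Q (wa a + v) (opZ (x a) (y a) m) := fun a v m h => by
    rw [lbt_Z]
    exact qa (qt fun α => qs (hx a α) (qx α h) (by abel))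
      (qt fun α => qs (hy a α) (qy α h) (by abel))
  have qT : ∀ (j a b) {v : Wt} {m}, wa a + wa b = c → Q v m →
      Q (c + v) (opT (p j) (q j) (x a) (y a) (x b) (y b) (F j) m) := fun j a b v m e h => by
    rw [lbt_T]
    exact qa (qs (neg_mem (hp j)) (qz a (qz b h)) (by rw [← e]; abel))
      (qs (hq j) (qt fun α => qt fun β => qs (Submodule.smul_mem _ _ (hF j α β))
        (qx α (qx β h)) (by abel)) (zero_add _))
  have q0 : Q 0 (Pi.single ∅ (vac R)) := fun S T => by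
    by_cases hS : S = ∅ <;> by_cases hT : T = ∅ <;> simp [vac, hS, hT, h1]
  have h := qs hk (qT 0 1 0 h01 (qT 1 3 2 h23 q0)) (show _ = c + c by abel)
  rw [biT]
  with_reducible exact h S T

/-- The trivial grading. -/
def lbtW (w : Wt) : Submodule ℂ R := if w = 0 then ⊤ else ⊥

theorem lbtW_zero (r : R) : r ∈ lbtW 0 := by simp [lbtW]

theorem lbtW_ne {r : R} {w : Wt} (h : r ∈ lbtW w) (hw : w ≠ 0) : r = 0 := by
  simpa [lbtW, hw] using h

theorem lbtW_mul {v w : Wt} {r s : R} (hr : r ∈ lbtW v) (hs : s ∈ lbtW w) :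
    r * s ∈ lbtW (v + w) := by
  by_cases hv : v = 0
  · by_cases hw : w = 0
    · simp [lbtW, hv, hw]
    · rw [lbtW_ne hs hw, mul_zero]
      exact zero_mem _
  · rw [lbtW_ne hr hv, zero_mul]
    exact zero_mem _

theorem biT_map {R' : Type} [CommRing R'] [Algebra ℂ R'] (f : R →ₐ[ℂ] R') (k : R)
    (p q : Fin 2 → R) (x y : Fin 4 → Fin 4 → R) (F : Fin 2 → Fin 4 → Fin 4 → R) (S T : FF) :
    f (biT k p q x y F S T) = biT (f k) (fun j => f (p j)) (fun j => f (q j))
      (fun a α => f (x a α)) (fun a α => f (y a α)) (fun j α β => f (F j α β)) S T := by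
  have h0 : lbtM f (Pi.single ∅ (vac R)) = Pi.single ∅ (vac R') := by
    funext S T
    simp only [lbtM_apply, vac, Pi.single_apply, ite_apply, Pi.zero_apply, apply_ite f, map_one,
      map_zero]
  rw [← lbtM_apply f, biT, lbtM_smul, lbtM_T, lbtM_T, h0, biT]

theorem topT_map {R' : Type} [CommRing R'] [Algebra ℂ R'] (f : R →ₐ[ℂ] R') (k : R)
    (p q : Fin 2 → R) (x : Fin 4 → Fin 4 → R) (F : Fin 2 → Fin 4 → Fin 4 → R) :
    f (topT k p q x F) = topT (f k) (fun j => f (p j)) (fun j => f (q j))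
      (fun a α => f (x a α)) fun j α β => f (F j α β) := by
  simp only [topT, wg, w1, map_mul, map_add, map_sub, map_neg]

theorem strK_biT (k : R) (p q : Fin 2 → R) (x y : Fin 4 → Fin 4 → R)
    {F : Fin 2 → Fin 4 → Fin 4 → R} (hF : ∀ j α β, F j β α = -F j α β) :
    strK (biT k p q x y F) = topT k p q (x + y) F := by
  have h := (lbt_JT (p 0) (q 0) (x 1) (y 1) (x 0) (y 0) (F 0) (lbt_JT (p 1) (q 1) (x 3) (y 3)
    (x 2) (y 2) (F 1) (SModEq.refl (Pi.single ∅ (vac R))))).smul k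
  have h1 : strK (biT k p q x y F) = strK (biT k p q (x + y) 0 F) := by
    rw [biT, biT]
    simp only [Pi.add_apply, Pi.zero_apply]
    with_reducible exact lbt_Jstr h
  rw [h1, strK, Finset.sum_eq_single ∅ (fun S _ hS => ?_) fun h => absurd (Finset.mem_univ _) h,
    Finset.compl_empty, lbt_empty k p q _ _ hF]
  · rw [show (-1 : ℤ) ^ (∅ : FF).card * bs Finset.univ = 1 by decide, one_smul]
  · have h2 := lbt_mem lbtW (lbtW_zero _) lbtW_mul 0 (fun _ => (1, 0)) 0 0 (by simp) (by simp)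
      (k := k) (p := p) (q := q) (x := x + y) (y := 0) (F := F) (lbtW_zero _) (fun _ => lbtW_zero _)
      (fun _ => lbtW_zero _) (fun _ _ => by simp [lbtW]) (fun _ _ => zero_mem _)
      (fun _ _ _ => by simp [lbtW]) S Sᶜ
    rw [lbtW_ne h2 (by simp [hS]), smul_zero]

theorem biT_univ (k : R) (p q : Fin 2 → R) (x y : Fin 4 → Fin 4 → R)
    {F : Fin 2 → Fin 4 → Fin 4 → R} (hF : ∀ j α β, F j β α = -F j α β) (S : FF) :
    biT k p q x y F S Finset.univ = if S = ∅ then topT k p q x F else 0 := by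
  split_ifs with hS
  · rw [hS, lbt_empty k p q x y hF]
  · have h2 := lbt_mem lbtW (lbtW_zero _) lbtW_mul (fun _ => (1, 0)) (fun _ => (1, 0))
      (fun _ => (-1, 0)) (-2, 0) (by simp) (by simp)
      (k := k) (p := p) (q := q) (x := x) (y := y) (F := F) (lbtW_zero _) (fun _ => lbtW_zero _)
      (fun _ => lbtW_zero _) (fun _ _ => by simp [lbtW]) (fun _ _ => by simp [lbtW])
      (fun _ _ _ => by simp [lbtW]) S Finset.univ
    exact lbtW_ne h2 fun h => hS (by simpa using congrArg Prod.fst h)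

theorem biT_hom (k : R) (p t : Fin 2 → R) (x y : Fin 4 → Fin 4 → R)
    (F : Fin 2 → Fin 4 → Fin 4 → R) :
    biT k p (fun j => t j * p j) x y F = (k * p 0 * p 1) • biT 1 1 t x y F := by
  have h : ∀ (p t : R) (x y x' y' : Fin 4 → R) (F : Fin 4 → Fin 4 → R),
      opT p (t * p) x y x' y' F = p • opT 1 t x y x' y' F := fun p t x y x' y' F => by
    rw [opT, opT, smul_add, smul_smul, smul_smul, mul_neg, mul_one, mul_comm t]
  simp only [biT, h, LinearMap.smul_apply, map_smul, smul_smul, Pi.one_apply, mul_one]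
  rw [mul_comm (p 1), mul_assoc]

theorem topT_hom (k : R) (p t : Fin 2 → R) (x : Fin 4 → Fin 4 → R)
    (F : Fin 2 → Fin 4 → Fin 4 → R) :
    topT k p (fun j => t j * p j) x F = k * p 0 * p 1 * topT 1 1 t x F := by
  simp only [topT, wg, Pi.one_apply]
  ring

theorem topT_det (x : Fin 4 → Fin 4 → R) (F : Fin 2 → Fin 4 → Fin 4 → R) :
    topT 1 1 0 x F = (Matrix.of x).det := by
  rw [Matrix.det_succ_row_zero]
  simp [Fin.sum_univ_four, Matrix.det_fin_three, Fin.succAbove, topT, wg, w1]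
  ring

theorem lbt_cont : Continuous fun z : (Fin 2 → ℂ) × (Fin 4 → Fin 4 → ℂ) × (Fin 4 → Fin 4 → ℂ) ×
    (Fin 2 → Fin 4 → Fin 4 → ℂ) => biT 1 1 z.1 z.2.1 z.2.2.1 z.2.2.2 := by
  refine continuous_pi fun S => continuous_pi fun T => Continuous.congr
    (biT (R := C(_, ℂ)) 1 1 (fun j => ⟨fun z => z.1 j, by fun_prop⟩)
      (fun a α => ⟨fun z => z.2.1 a α, by fun_prop⟩)
      (fun a α => ⟨fun z => z.2.2.1 a α, by fun_prop⟩)
      (fun j α β => ⟨fun z => z.2.2.2 j α β, by fun_prop⟩) S T).continuous fun z => ?_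
  rw [← ContinuousMap.evalAlgHom_apply ℂ ℂ z, biT_map]
  simp only [Pi.one_apply, map_one, ContinuousMap.evalAlgHom_apply, ContinuousMap.coe_mk,
    Pi.one_def]

theorem biT_bound (M : ℝ) : ∃ C : ℝ, 0 ≤ C ∧ ∀ (t : Fin 2 → ℂ) (x y : Fin 4 → Fin 4 → ℂ)
    (F : Fin 2 → Fin 4 → Fin 4 → ℂ), ‖t‖ ≤ M → ‖x‖ ≤ M → ‖y‖ ≤ M → ‖F‖ ≤ M →
      ∀ S T, ‖biT 1 1 t x y F S T‖ ≤ C := by
  obtain ⟨C, hC⟩ := (isCompact_closedBall 0 M).exists_bound_of_continuousOn lbt_cont.continuousOn
  refine ⟨max C 0, le_max_right _ _, fun t x y F ht hx hy hF S T => ?_⟩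
  have h := hC (t, x, y, F) (mem_closedBall_zero_iff.2 (max_le ht (max_le hx (max_le hy hF))))
  exact (((norm_le_pi_norm _ T).trans (norm_le_pi_norm _ S)).trans h).trans (le_max_left _ _)

theorem topT_pos (M : ℝ) : ∃ η : ℝ, 0 < η ∧ ∀ (t : Fin 2 → ℂ) (x : Fin 4 → Fin 4 → ℂ)
    (F : Fin 2 → Fin 4 → Fin 4 → ℂ), ‖t‖ ≤ η → (∀ a α, ‖x a α + if a = α then 1 else 0‖ ≤ η) →
      ‖F‖ ≤ M → 1 / 2 ≤ (topT 1 1 t x F).re := by
  let x₀ : Fin 4 → Fin 4 → ℂ := fun a α => -if a = α then 1 else 0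
  have hc : Continuous fun z : ((Fin 2 → ℂ) × (Fin 4 → Fin 4 → ℂ)) ×
      (Fin 2 → Fin 4 → Fin 4 → ℂ) => (topT 1 1 z.1.1 z.1.2 z.2).re := by
    unfold topT wg w1
    fun_prop
  have h := (isCompact_closedBall (0 : Fin 2 → Fin 4 → Fin 4 → ℂ) M
    ).eventually_forall_of_forall_eventually (x₀ := ((0 : Fin 2 → ℂ), x₀))
    (P := fun z F => 1 / 2 < (topT 1 1 z.1 z.2 F).re) fun F _ => by
      refine (hc.tendsto ((0, x₀), F)).eventually (lt_mem_nhds ?_)
      simp [topT, wg, w1, x₀]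
      norm_num
  obtain ⟨ε, hε, h1⟩ := Metric.eventually_nhds_iff.1 h
  refine ⟨ε / 2, half_pos hε, fun t x F ht hx hF =>
    (h1 (y := (t, x)) (max_lt ?_ ?_) F (mem_closedBall_zero_iff.2 hF)).le⟩
  · rw [dist_zero_right]
    exact ht.trans_lt (half_lt_self hε)
  · refine (dist_pi_lt_iff hε).2 fun a => (dist_pi_lt_iff hε).2 fun α => ?_
    rw [dist_eq_norm, sub_neg_eq_add]
    exact (hx a α).trans_lt (half_lt_self hε)

theorem biT_mem (W : Wt → Submodule ℂ R) (h1 : (1 : R) ∈ W 0)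
    (hm : ∀ {v w : Wt} {r s : R}, r ∈ W v → s ∈ W w → r * s ∈ W (v + w)) (wx wy wa : Fin 4 → Wt)
    (h01 : wa 1 + wa 0 = 0) (h23 : wa 3 + wa 2 = 0) {k : R} {p q : Fin 2 → R}
    {x y : Fin 4 → Fin 4 → R} {F : Fin 2 → Fin 4 → Fin 4 → R} (hk : k ∈ W 0)
    (hp : ∀ j, p j ∈ W 0) (hq : ∀ j, q j ∈ W 0) (hx : ∀ a α, x a α ∈ W (wx α + wa a))
    (hy : ∀ a α, y a α ∈ W (wy α + wa a)) (hF : ∀ j α β, F j α β ∈ W (wx α + wx β)) (S T : FF) :
    biT k p q x y F S T ∈ W (∑ α ∈ S, wy α + ∑ α ∈ T, wx α) := by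
  simpa only [add_zero] using lbt_mem W h1 hm wx wy wa 0 h01 h23 hk hp hq hx hy
    (fun j α β => by rw [add_zero]; exact hF j α β) S T

end SX4
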