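import Pool.Agent.P.MP_0a0487_an.SX.LefDefs

/-! The rules of the exterior derivative in a calculus of forms. -/

set_option autoImplicit false
set_option linter.unusedSectionVars false

noncomputable section

namespace SX4

open scoped ComplexOrder ContDiff
open Filter Topology

namespace Car

variable {ι R V : Type} [Fintype ι] [DecidableEq ι] [CommRing R] [Algebra ℂ R] [AddCommGroup V]
  [Module R V] [Module ℂ V] [IsScalarTower ℂ R V] (C : Car ι R V)

theorem LefCar_cc (i j : ι) : C.c i * C.c j = -(C.c j * C.c i) :=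
  eq_neg_of_add_eq_zero_left (C.cc i j)

theorem LefCar_half (r : R) : (1 / 2 : ℂ) • r + (1 / 2 : ℂ) • r = r := by
  rw [← add_smul]; norm_num

theorem LefCar_alt (m : ι → ι → R) :
    C.e2 (fun i j => m i j - m j i) = ∑ i, ∑ j, m i j • (C.c i * C.c j) := by
  have h : ∑ i, ∑ j, ((1 / 2 : ℂ) • m j i) • (C.c i * C.c j) =
      -∑ i, ∑ j, ((1 / 2 : ℂ) • m i j) • (C.c i * C.c j) := by
    rw [Finset.sum_comm]
    simp only [← Finset.sum_neg_distrib]
    exact Finset.sum_congr rfl fun i _ => Finset.sum_congr rfl fun j _ => by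
      rw [C.LefCar_cc j i, smul_neg]
  simp only [e2, smul_sub, sub_smul, Finset.sum_sub_distrib]
  rw [h, sub_neg_eq_add]
  simp only [← Finset.sum_add_distrib, ← add_smul, add_halves, one_smul]

theorem LefCar_ee (x y : ι → R) :
    C.e x * C.e y = ∑ i, ∑ j, (x i * y j) • (C.c i * C.c j) := by
  simp only [e, Finset.sum_mul_sum, smul_mul_smul_comm]

theorem LefCar_e_add (x y : ι → R) : C.e (fun i => x i + y i) = C.e x + C.e y := by
  simp only [e, add_smul, Finset.sum_add_distrib]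

theorem LefCar_e_mul (r : R) (x : ι → R) : C.e (fun i => r * x i) = r • C.e x := by
  simp only [e, Finset.smul_sum, mul_smul]

theorem LefCar_e2_mul (r : R) (b : ι → ι → R) : C.e2 (fun i j => r * b i j) = r • C.e2 b := by
  simp only [e2, Finset.smul_sum, smul_smul, mul_smul_comm]

theorem LefCar_e2_sub (b b' : ι → ι → R) :
    C.e2 (fun i j => b i j - b' i j) = C.e2 b - C.e2 b' := by
  simp only [e2, smul_sub, sub_smul, Finset.sum_sub_distrib]

theorem LefCar_e2_sum (b : ι → ι → ι → R) :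
    C.e2 (fun i j => ∑ k, b i j k) = ∑ k, C.e2 fun i j => b i j k := by
  simp only [e2, Finset.smul_sum, Finset.sum_smul]
  rw [Finset.sum_congr rfl fun i _ => Finset.sum_comm, Finset.sum_comm]

theorem LefCar_c_e (i : ι) (x : ι → R) : C.c i * C.e x = -(C.e x * C.c i) := by
  simp only [e, Finset.mul_sum, Finset.sum_mul, ← Finset.sum_neg_distrib, mul_smul_comm,
    smul_mul_assoc]
  exact Finset.sum_congr rfl fun j _ => by rw [C.LefCar_cc i j, smul_neg]

theorem LefCar_ccc (i j k : ι) : C.c i * (C.c j * C.c k) = C.c j * C.c k * C.c i := by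
  rw [← mul_assoc, C.LefCar_cc i j, neg_mul, mul_assoc, C.LefCar_cc i k, mul_neg, neg_neg,
    mul_assoc]

theorem LefCar_c_e2 (i : ι) (b : ι → ι → R) : C.c i * C.e2 b = C.e2 b * C.c i := by
  simp only [e2, Finset.mul_sum, Finset.sum_mul, mul_smul_comm, smul_mul_assoc, C.LefCar_ccc i]

theorem LefCar_e2_e2 (b b' : ι → ι → R) : C.e2 b * C.e2 b' = C.e2 b' * C.e2 b := by
  conv_lhs => rw [e2]
  conv_rhs => rw [e2.eq_1 C b]
  simp only [Finset.mul_sum, Finset.sum_mul, mul_smul_comm, smul_mul_assoc]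
  refine Finset.sum_congr rfl fun i _ => Finset.sum_congr rfl fun j _ => ?_
  rw [mul_assoc, LefCar_c_e2, ← mul_assoc, LefCar_c_e2, mul_assoc]

theorem LefCar_a_c (k l : ι) :
    C.a k * C.c l = (if k = l then 1 else 0) - C.c l * C.a k := eq_sub_of_add_eq (C.ac k l)

theorem LefCar_a_e (k : ι) (x : ι → R) : C.a k * C.e x = x k • 1 - C.e x * C.a k := by
  simp only [e, Finset.mul_sum, Finset.sum_mul, mul_smul_comm, smul_mul_assoc, LefCar_a_c,
    smul_sub, Finset.sum_sub_distrib, smul_ite, smul_zero, Finset.sum_ite_eq, Finset.mem_univ,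
    if_true]

theorem LefCar_a_e2 {b : ι → ι → R} (hb : ∀ i j, b j i = -b i j) (k : ι) :
    C.a k * C.e2 b = C.e (b k) + C.e2 b * C.a k := by
  have h : ∀ l m, C.a k * (C.c l * C.c m) = (if k = l then C.c m else 0) -
      (if k = m then C.c l else 0) + C.c l * C.c m * C.a k := fun l m => by
    rw [← mul_assoc, LefCar_a_c, sub_mul, mul_assoc, LefCar_a_c, mul_sub, ite_mul, mul_ite,
      one_mul, zero_mul, mul_one, mul_zero, mul_assoc]
    abel
  have h1 : ∑ l, ∑ m, ((1 / 2 : ℂ) • b l m) • (if k = l then C.c m else 0) =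
      ∑ m, ((1 / 2 : ℂ) • b k m) • C.c m := by
    rw [Finset.sum_comm]
    simp only [smul_ite, smul_zero, Finset.sum_ite_eq, Finset.mem_univ, if_true]
  have h2 : ∑ l, ∑ m, ((1 / 2 : ℂ) • b l m) • (if k = m then C.c l else 0) =
      -∑ m, ((1 / 2 : ℂ) • b k m) • C.c m := by
    simp only [smul_ite, smul_zero, Finset.sum_ite_eq, Finset.mem_univ, if_true, hb k, smul_neg,
      neg_smul, Finset.sum_neg_distrib]
  simp only [e2, Finset.mul_sum, Finset.sum_mul, mul_smul_comm, smul_mul_assoc, h, smul_add,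
    smul_sub, Finset.sum_add_distrib, Finset.sum_sub_distrib]
  rw [h1, h2, sub_neg_eq_add, ← Finset.sum_add_distrib]
  simp only [← add_smul, add_halves, one_smul, e]

theorem LefCar_DV_e (i : ι) (x : ι → R) (v : V) :
    C.DV i (C.e x v) = C.e (fun j => C.D i (x j)) v + C.e x (C.DV i v) := by
  simp only [e, LinearMap.sum_apply, LinearMap.smul_apply, map_sum, C.DV_smul, C.DV_c,
    Finset.sum_add_distrib]

theorem LefCar_DV_e2 (i : ι) (b : ι → ι → R) (v : V) :
    C.DV i (C.e2 b v) = C.e2 (fun j k => C.D i (b j k)) v + C.e2 b (C.DV i v) := by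
  simp only [e2, LinearMap.sum_apply, LinearMap.smul_apply, map_sum, C.DV_smul, C.DV_c,
    Finset.sum_add_distrib, Module.End.mul_apply, map_smul]

theorem LefCar_d (v : V) :
    C.d v = ∑ i, C.c i (C.DV i v) - ∑ k, C.e2 (fun i j => C.T i j k) (C.a k v) := by
  simp only [d, e2, LinearMap.sub_apply, LinearMap.sum_apply, LinearMap.restrictScalars_apply,
    LinearMap.smul_apply, Module.End.mul_apply, LinearMap.comp_apply]
  rw [Finset.sum_congr rfl fun i _ => Finset.sum_comm, Finset.sum_comm]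

theorem LefCar_cyc (m : ι → ι → ι → R) :
    ∑ i, ∑ j, ∑ k, m j k i • (C.c i * (C.c j * C.c k)) =
      ∑ i, ∑ j, ∑ k, m i j k • (C.c i * (C.c j * C.c k)) := by
  rw [Finset.sum_comm, Finset.sum_congr rfl fun j _ => Finset.sum_comm]
  exact Finset.sum_congr rfl fun i _ => Finset.sum_congr rfl fun j _ =>
    Finset.sum_congr rfl fun k _ => by rw [C.LefCar_ccc k i j, mul_assoc]

theorem LefCar_e2_e (b : ι → ι → R) (x : ι → R) : C.e2 b * C.e x =
    ∑ i, ∑ j, ∑ k, ((1 / 2 : ℂ) • (b i j * x k)) • (C.c i * (C.c j * C.c k)) := by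
  rw [e2]
  simp only [Finset.sum_mul]
  simp only [e, Finset.mul_sum, mul_smul_comm, smul_mul_assoc, mul_assoc, smul_smul, mul_comm (x _)]

theorem LefCar_e3 {m : ι → ι → ι → R} (h : ∀ i j k, m i j k + m j k i + m k i j = 0) :
    ∑ i, ∑ j, ∑ k, m i j k • (C.c i * (C.c j * C.c k)) = 0 := by
  set X := ∑ i, ∑ j, ∑ k, m i j k • (C.c i * (C.c j * C.c k)) with hX
  have h1 := C.LefCar_cyc m
  have h2 := C.LefCar_cyc fun i j k => m j k i
  have h3 : X + X + X = 0 := by
    nth_rewrite 3 [hX]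
    nth_rewrite 2 [hX]
    rw [← h1]
    nth_rewrite 2 [← h2]
    simp only [hX, ← Finset.sum_add_distrib, ← add_smul, h, zero_smul, Finset.sum_const_zero]
  have h4 : (1 / 3 : ℂ) • (1 : R) + (1 / 3 : ℂ) • (1 : R) + (1 / 3 : ℂ) • (1 : R) = 1 := by
    rw [← add_smul, ← add_smul]; norm_num
  rw [← one_smul R X, ← h4, add_smul, add_smul, ← smul_add, ← smul_add, h3, smul_zero]

theorem e_anti (x y : ι → R) : C.e x * C.e y + C.e y * C.e x = 0 := by
  rw [e.eq_1 C x, Finset.sum_mul, Finset.mul_sum, ← Finset.sum_add_distrib]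
  exact Finset.sum_eq_zero fun i _ => by
    rw [smul_mul_assoc, mul_smul_comm, LefCar_c_e, smul_neg, neg_add_cancel]

theorem e_self (x : ι → R) : C.e x * C.e x = 0 := by
  have h := C.e_anti x x
  rw [← one_smul R (C.e x * C.e x), ← LefCar_half (1 : R), add_smul, ← smul_add, h, smul_zero]

theorem e2_w1 (x y : ι → R) : C.e2 (w1 x y) = C.e x * C.e y := by
  rw [LefCar_ee]
  exact C.LefCar_alt fun i j => x i * y j

theorem e_e2 (x : ι → R) (b : ι → ι → R) : C.e x * C.e2 b = C.e2 b * C.e x := by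
  rw [e, Finset.sum_mul, Finset.mul_sum]
  exact Finset.sum_congr rfl fun i _ => by rw [smul_mul_assoc, mul_smul_comm, LefCar_c_e2]

theorem d_smul (r : R) (v : V) : C.d (r • v) = C.e (fun i => C.D i r) v + r • C.d v := by
  simp only [LefCar_d, C.DV_smul, map_add, map_smul, Finset.sum_add_distrib, e,
    LinearMap.sum_apply, LinearMap.smul_apply, smul_sub, Finset.smul_sum]
  abel

theorem d_e (x : ι → R) (v : V) : C.d (C.e x v) = C.e2 (C.d1 x) v - C.e x (C.d v) := by
  have h1 : C.e2 (C.d1 x) = ∑ i, C.c i * C.e (fun j => C.D i (x j)) -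
      ∑ k, x k • C.e2 fun i j => C.T i j k := by
    have := C.LefCar_e2_sub (fun i j => C.D i (x j) - C.D j (x i)) fun i j => ∑ k, C.T i j k * x k
    rw [C.LefCar_alt fun i j => C.D i (x j), LefCar_e2_sum] at this
    simp only [← LefCar_e2_mul, mul_comm (x _), e, Finset.mul_sum, mul_smul_comm]
    exact this
  have h2 : ∀ i w, C.c i (C.e x w) = -C.e x (C.c i w) := fun i w =>
    LinearMap.congr_fun (C.LefCar_c_e i x) w
  have h3 : ∀ k, C.a k (C.e x v) = x k • v - C.e x (C.a k v) := fun k =>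
    LinearMap.congr_fun (C.LefCar_a_e k x) v
  have h4 : ∀ b w, C.e2 b (C.e x w) = C.e x (C.e2 b w) := fun b w =>
    (LinearMap.congr_fun (C.e_e2 x b) w).symm
  rw [h1]
  simp only [LefCar_d, LefCar_DV_e, map_add, h2, h3, map_sub, map_smul, h4, map_sum,
    Finset.sum_add_distrib, Finset.sum_sub_distrib, Finset.sum_neg_distrib, LinearMap.sub_apply,
    LinearMap.sum_apply, LinearMap.smul_apply, Module.End.mul_apply]
  abel

theorem d_e2 {b : ι → ι → R} (hb : ∀ i j, b j i = -b i j)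
    (hc : ∀ i j k, C.d2t b i j k + C.d2t b j k i + C.d2t b k i j = 0) (v : V) :
    C.d (C.e2 b v) = C.e2 b (C.d v) := by
  have h1 : ∑ i, C.c i * C.e2 (fun j k => C.D i (b j k)) =
      ∑ l, C.e2 (fun i j => C.T i j l) * C.e (b l) := by
    have h := C.LefCar_e3 (m := fun i j k => (1 / 2 : ℂ) • C.d2t b i j k) fun i j k => by
      rw [← smul_add, ← smul_add, hc, smul_zero]
    simp only [d2t, smul_sub, sub_smul, Finset.sum_sub_distrib, sub_eq_zero] at h
    simp only [LefCar_e2_e]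
    simp only [e2, Finset.mul_sum, mul_smul_comm]
    rw [h]
    symm
    rw [Finset.sum_comm]
    refine Finset.sum_congr rfl fun i _ => ?_
    rw [Finset.sum_comm]
    refine Finset.sum_congr rfl fun j _ => ?_
    rw [Finset.sum_comm]
    refine Finset.sum_congr rfl fun k _ => ?_
    rw [Finset.smul_sum, Finset.sum_smul]
  have h2 : ∀ i w, C.c i (C.e2 b w) = C.e2 b (C.c i w) := fun i w =>
    LinearMap.congr_fun (C.LefCar_c_e2 i b) w
  have h3 : ∀ k, C.a k (C.e2 b v) = C.e (b k) v + C.e2 b (C.a k v) := fun k =>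
    LinearMap.congr_fun (C.LefCar_a_e2 hb k) v
  have h4 : ∀ b' w, C.e2 b' (C.e2 b w) = C.e2 b (C.e2 b' w) := fun b' w =>
    LinearMap.congr_fun (C.LefCar_e2_e2 b' b) w
  have h5 := LinearMap.congr_fun h1 v
  simp only [LinearMap.sum_apply, Module.End.mul_apply] at h5
  simp only [LefCar_d, LefCar_DV_e2, map_add, h2, h3, map_sub, map_sum, Finset.sum_add_distrib, h5]
  simp only [h4]
  abel

theorem d_vac {v : V} (h1 : ∀ i, C.DV i v = 0) (h2 : ∀ i, C.a i v = 0) : C.d v = 0 := by
  simp only [LefCar_d, h1, h2, map_zero, Finset.sum_const_zero, sub_zero]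

/-- The Thom form of a line bundle with section `σ` is closed. -/
theorem d_thom {σ σ' p p' q : R} {F : ι → ι → R} (hF : ∀ i j, F j i = -F i j)
    (hc : ∀ i j k, C.d2t F i j k + C.d2t F j k i + C.d2t F k i j = 0)
    (h1 : ∀ i j, C.d1 (fun k => C.D k σ') i j = F i j * σ')
    (h2 : ∀ i j, C.d1 (fun k => C.D k σ) i j = -(F i j * σ))
    (hq : ∀ i, C.D i q = p * C.D i (σ' * σ)) (hp : ∀ i, C.D i p = p' * C.D i (σ' * σ)) (v : V) :
    C.d (((-p) • (C.e (fun k => C.D k σ') * C.e fun k => C.D k σ) + q • C.e2 F) v) =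
      ((-p) • (C.e (fun k => C.D k σ') * C.e fun k => C.D k σ) + q • C.e2 F) (C.d v) := by
  set x := C.e fun k => C.D k σ with hx
  set y := C.e fun k => C.D k σ' with hy
  have k0 : C.e (fun i => C.D i (σ' * σ)) = σ • y + σ' • x := by
    rw [hx, hy, ← LefCar_e_mul, ← LefCar_e_mul, ← LefCar_e_add]
    congr 1
    funext i
    rw [C.D_mul, mul_comm]
  have k1 : C.e (fun i => C.D i q) = p • (σ • y + σ' • x) := by
    simp only [hq, LefCar_e_mul, k0]
  have k2 : C.e (fun i => C.D i (-p)) = (-p') • (σ • y + σ' • x) := by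
    simp only [map_neg, hp, ← neg_mul, LefCar_e_mul, k0]
  have k3 : C.e2 (C.d1 fun k => C.D k σ') = σ' • C.e2 F := by
    rw [← LefCar_e2_mul]
    congr 1
    funext i j
    rw [h1, mul_comm]
  have k4 : C.e2 (C.d1 fun k => C.D k σ) = (-σ) • C.e2 F := by
    rw [← LefCar_e2_mul]
    congr 1
    funext i j
    rw [h2, neg_mul, mul_comm]
  have e1 : ∀ w, x (x w) = 0 := LinearMap.congr_fun (C.e_self _)
  have e2 : ∀ w, y (y w) = 0 := LinearMap.congr_fun (C.e_self _)
  have e3 : ∀ w, x (y w) = -y (x w) := fun w =>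
    eq_neg_of_add_eq_zero_left (LinearMap.congr_fun (C.e_anti _ _) w)
  have e4 : ∀ w, C.e2 F (x w) = x (C.e2 F w) := fun w =>
    (LinearMap.congr_fun (C.e_e2 _ F) w).symm
  have d1 : ∀ w, C.d (x w) = (-σ) • C.e2 F w - x (C.d w) := fun w => by
    rw [hx, d_e, k4]; rfl
  have d2 : ∀ w, C.d (y w) = σ' • C.e2 F w - y (C.d w) := fun w => by
    rw [hy, d_e, k3]; rfl
  simp only [LinearMap.add_apply, LinearMap.smul_apply, Module.End.mul_apply, map_add, d_smul,
    k1, k2, C.d_e2 hF hc, d1, d2, e2, e3, e1, e4, map_sub, map_smul, map_zero]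
  module

end Car

end SX4
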