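import Pool.Agent.P.MP_0a0487_an.SX.LefOm

/-! Pull-backs of forms of all degrees. -/

set_option autoImplicit false
set_option linter.unusedSectionVars false

noncomputable section

namespace SX4

open scoped ComplexOrder ContDiff
open Filter Topology

variable {P A : Type} [TopologicalSpace P] [CompactSpace P] [CommRing A] [StarRing A] [Algebra ℂ A]
  [StarModule ℂ A] {B : Base P A}

theorem lefPull_e1_sum {R ι : Type} [CommRing R] [Fintype ι] (c : ι → R) (a : ι → Fin 4 → R)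
    (x : FF → R) : e1 (fun α => ∑ k, c k * a k α) x = ∑ k, c k • e1 (a k) x := by
  simp only [e1, LinearMap.sum_apply, LinearMap.smul_apply, Finset.sum_smul, Finset.smul_sum,
    mul_smul]
  exact Finset.sum_comm

theorem lefPull_e2_sum {ι : Type} [Fintype ι] (c : ι → A) (b : ι → Fin 4 → Fin 4 → A)
    (x : FF → A) : e2 (fun α β => ∑ k, c k * b k α β) x = ∑ k, c k • e2 (b k) x := by
  have h : ∀ α β, ((1 / 2 : ℂ) • ∑ k, c k * b k α β) = ∑ k, c k * ((1 / 2 : ℂ) • b k α β) :=
    fun α β => by simp only [Finset.smul_sum, mul_smul_comm]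
  simp only [e2, h, LinearMap.sum_apply, LinearMap.smul_apply]
  simp only [Finset.smul_sum, Finset.sum_smul, mul_smul]
  rw [Finset.sum_comm (s := (Finset.univ : Finset ι))]
  exact Finset.sum_congr rfl fun α _ => Finset.sum_comm

/-- The product of `x` with the differentials of the functions of a list. -/
def Calc.lefPull_ap (G : Calc B) (L : List A) (x : FF → A) : FF → A :=
  L.foldr (fun s x => e1 (G.d0 s) x) x

theorem Calc.lefPull_ap_add (G : Calc B) (L : List A) (x y : FF → A) :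
    G.lefPull_ap L (x + y) = G.lefPull_ap L x + G.lefPull_ap L y := by
  induction L with
  | nil => rfl
  | cons s L ih => exact (congrArg (e1 (G.d0 s)) ih).trans (map_add _ _ _)

theorem Calc.lefPull_ap_smul (G : Calc B) (L : List A) (r : A) (x : FF → A) :
    G.lefPull_ap L (r • x) = r • G.lefPull_ap L x := by
  induction L with
  | nil => rfl
  | cons s L ih => exact (congrArg (e1 (G.d0 s)) ih).trans (map_smul _ _ _)

theorem Calc.lefPull_ap_deg (G : Calc B) (L : List A) :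
    prj A A L.length (G.lefPull_ap L (vac A)) = G.lefPull_ap L (vac A) := by
  induction L with
  | nil => exact (prj_vac 0).trans (if_pos rfl)
  | cons s L ih => exact (prj_e1 _ _ _).1.trans (congrArg (e1 (G.d0 s)) ih)

theorem Calc.lefPull_ap_top (G : Calc B) {L : List A} (h : L.length ≠ 4) :
    G.lefPull_ap L (vac A) Finset.univ = 0 := by
  rw [← G.lefPull_ap_deg L, prj_apply, if_neg]
  simpa using h.symm

theorem Calc.lefPull_ap_four (G : Calc B) (p q r t : A) :
    G.lefPull_ap [p, q, r, t] (vac A) Finset.univ = wg (G.dd p q) (G.dd r t) := by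
  have ha : ∀ (a b : Fin 4 → A) α β, w1 a b β α = -w1 a b α β := fun a b α β => by
    simp only [w1]
    ring
  rw [Calc.dd, Calc.dd, ← e2_top (ha _ _) (ha _ _), e2_w1, e2_w1]
  rfl

namespace Map

variable {G : Pre B} {f : Map G} {x x' y y' : FF → A}

theorem lefPull_zero (f : Map G) : f.Pull 0 0 := by
  have h := Pull.fn (f := f) (zero_mem (B.W 0))
  rwa [zero_smul, ← zero_smul ℂ (0 : A), f.Φ_smul 0 (zero_mem _), zero_smul, zero_smul] at h

theorem lefPull_sum {ι : Type} (S : Finset ι) {x y : ι → FF → A}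
    (h : ∀ i, f.Pull (x i) (y i)) : f.Pull (∑ i ∈ S, x i) (∑ i ∈ S, y i) := by
  classical
  induction S using Finset.induction_on with
  | empty => simpa using f.lefPull_zero
  | insert i S hi ih =>
    rw [Finset.sum_insert hi, Finset.sum_insert hi]
    exact (h i).add ih

theorem Pull.om (h : f.Pull x y) : B.Om x ∧ B.Om y := by
  induction h with
  | fn hs => exact ⟨Base.Om.vac.smul hs, Base.Om.vac.smul (f.mem _ hs)⟩
  | add _ _ ih ih' => exact ⟨ih.1.add ih'.1, ih.2.add ih'.2⟩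
  | ext hs _ ih => exact ⟨ih.1.e1 (G.d0_form hs), ih.2.e1 (G.d0_form (f.mem _ hs))⟩

theorem Pull.smul (h : f.Pull x y) {s : A} (hs : s ∈ B.W 0) : f.Pull (s • x) (f.Φ s • y) := by
  induction h with
  | fn ht =>
    rw [smul_smul, smul_smul, ← f.Φ_mul hs ht]
    exact Pull.fn (B.mul_mem' hs ht (add_zero _))
  | add _ _ ih ih' =>
    rw [smul_add, smul_add]
    exact ih.add ih'
  | ext ht _ ih =>
    rw [← map_smul, ← map_smul]
    exact Pull.ext ht ih

theorem Pull.vac (f : Map G) : f.Pull (vac A) (vac A) := by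
  have h := Pull.fn (f := f) B.one_mem
  rwa [f.Φ_one, one_smul] at h

theorem Pull.e1 (h : f.Pull x y) {a : Fin 4 → A} (ha : B.Form1 a) :
    f.Pull (e1 a x) (e1 (f.pull1 a) y) := by
  have h1 : a = fun α => ∑ k, (∑ γ, a γ * G.θ γ k) * G.d0 (G.e k) α :=
    funext fun α => G.form1_eq a α
  have h2 : f.pull1 a = fun α => ∑ k, f.Φ (∑ γ, a γ * G.θ γ k) * G.d0 (f.Φ (G.e k)) α := rfl
  rw [h2, congrArg (fun a => SX4.e1 a x) h1, lefPull_e1_sum, lefPull_e1_sum]
  exact lefPull_sum _ fun k => (Pull.ext (G.e_re k).1 h).smul (G.form1_coef_mem ha k)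

theorem Pull.e2 (h : f.Pull x y) {b : Fin 4 → Fin 4 → A} (hb : B.Form2 b) :
    f.Pull (e2 b x) (e2 (f.pull2 b) y) := by
  have h1 : b = fun α β => ∑ i : Fin G.N × Fin G.N,
      ((1 / 2 : ℂ) • ∑ γ, ∑ δ, b γ δ * G.θ γ i.1 * G.θ δ i.2) * G.dd (G.e i.1) (G.e i.2) α β := by
    funext α β
    rw [Fintype.sum_prod_type]
    exact G.form2_eq (fun α β => (hb α β).2) α β
  rw [f.mapB_pull2_eq hb, congrArg (fun b => SX4.e2 b x) h1, lefPull_e2_sum, lefPull_e2_sum]
  refine lefPull_sum _ fun i => Pull.smul ?_ (Submodule.smul_mem _ _ (G.mapB_coef_mem hb _ _))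
  simp only [Calc.dd, e2_w1, Module.End.mul_apply]
  exact Pull.ext (G.e_re _).1 (Pull.ext (G.e_re _).1 h)

theorem Pull.prj (h : f.Pull x y) (k : ℕ) : f.Pull (prj A A k x) (prj A A k y) := by
  induction h generalizing k with
  | fn hs =>
    rw [map_smul, map_smul, prj_vac]
    split_ifs
    · exact Pull.fn hs
    · rw [smul_zero, smul_zero]
      exact f.lefPull_zero
  | add _ _ ih ih' =>
    rw [map_add, map_add]
    exact (ih k).add (ih' k)
  | ext hs _ ih =>
    cases k with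
    | zero =>
      rw [(prj_e1 0 _ _).2, (prj_e1 0 _ _).2]
      exact f.lefPull_zero
    | succ k =>
      rw [(prj_e1 k _ _).1, (prj_e1 k _ _).1]
      exact Pull.ext hs (ih k)

theorem lefPull_top (h : f.Pull x y) : ∀ L : List A, (∀ s ∈ L, s ∈ B.W 0) →
    G.I (G.lefPull_ap (L.map f.Φ) y Finset.univ) = G.I (G.lefPull_ap L x Finset.univ) := by
  induction h with
  | @fn s hs =>
    intro L hL
    rw [G.lefPull_ap_smul, G.lefPull_ap_smul, Pi.smul_apply, Pi.smul_apply]
    by_cases h4 : L.length = 4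
    · obtain ⟨p, q, r, t, rfl⟩ := List.length_eq_four.1 h4
      simp only [List.map_cons, List.map_nil, Calc.lefPull_ap_four, smul_eq_mul]
      exact f.cov s hs p (hL p (by simp)) q (hL q (by simp)) r (hL r (by simp)) t (hL t (by simp))
    · rw [G.lefPull_ap_top h4, G.lefPull_ap_top (by rwa [List.length_map]), smul_zero, smul_zero]
  | add _ _ ih ih' =>
    intro L hL
    rw [G.lefPull_ap_add, G.lefPull_ap_add, Pi.add_apply, Pi.add_apply, map_add, map_add, ih L hL,
      ih' L hL]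
  | @ext s hs x y _ ih =>
    intro L hL
    have := ih (L ++ [s]) fun t ht => by
      rcases List.mem_append.1 ht with ht | ht
      · exact hL t ht
      · rwa [List.mem_singleton.1 ht]
    simpa only [Calc.lefPull_ap, List.map_append, List.map_cons, List.map_nil, List.foldr_append,
      List.foldr_cons, List.foldr_nil] using this

theorem Pull.Bp (h : f.Pull x y) (h' : f.Pull x' y') : G.Bp y y' = G.Bp x x' := by
  induction h generalizing x' y' with
  | fn hs =>
    rw [G.Bp_smul, G.Bp_smul, Pre.Bp, Pre.Bp, bb_vac, bb_vac]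
    exact lefPull_top (h'.smul hs) [] (by simp)
  | add _ _ ih ih' =>
    rw [G.Bp_comm, G.Bp_add, G.Bp_comm (_ + _), G.Bp_add, G.Bp_comm y', G.Bp_comm y', G.Bp_comm x',
      G.Bp_comm x', ih h', ih' h']
  | ext hs _ ih =>
    have := ih (Pull.ext hs h')
    rwa [Pre.Bp, Pre.Bp, ← bb_e1, ← bb_e1] at this

theorem Pull.unique (h : f.Pull x y) (h' : f.Pull x y') : y = y' := by
  refine sub_eq_zero.1 (G.Bp_nd (h.om.2.sub h'.om.2) fun z hz => ?_)
  obtain ⟨w, hw⟩ : ∃ w, f.Pull w z := by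
    refine G.om_ind (Q := fun z => ∃ w, f.Pull w z) ?_ ?_ ?_ hz
    · intro s hs
      obtain ⟨t, ht, rfl⟩ := f.surj s hs
      exact ⟨_, Pull.fn ht⟩
    · rintro _ _ - - ⟨w, hw⟩ ⟨w', hw'⟩
      exact ⟨_, hw.add hw'⟩
    · rintro k _ - ⟨w, hw⟩
      obtain ⟨t, ht, e⟩ := f.surj _ (G.e_re k).1
      exact ⟨_, e ▸ Pull.ext ht hw⟩
  rw [G.Bp_sub, hw.Bp h, hw.Bp h', sub_self]

theorem exists_pullS (f : Map G) :
    ∃ F : G.Sec wF →ₗ[ℂ] G.Sec wF, ∀ x, f.Pull x.c (F x).c := by
  have h : ∀ x : G.Sec wF, ∃ y, f.Pull x.c y := fun x =>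
    G.om_ind (Q := fun x => ∃ y, f.Pull x y) (fun s hs => ⟨_, Pull.fn hs⟩)
      (fun _ _ _ _ ⟨_, h⟩ ⟨_, h'⟩ => ⟨_, h.add h'⟩)
      (fun k _ _ ⟨_, h⟩ => ⟨_, Pull.ext (G.e_re k).1 h⟩) x.mem
  choose F hF using h
  refine ⟨⟨⟨fun x => G.mk' (F x) (hF x).om.2, fun x y => Pre.Sec.ext (congrFun ?_)⟩,
    fun c x => Pre.Sec.ext (congrFun ?_)⟩, hF⟩
  · exact (hF (x + y)).unique ((hF x).add (hF y))
  · have h1 := (hF x).smul (B.algebraMap_mem c)
    rw [Algebra.algebraMap_eq_smul_one, f.Φ_smul c B.one_mem, f.Φ_one, smul_assoc, smul_assoc,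
      one_smul, one_smul] at h1
    exact (hF (c • x)).unique h1

theorem pull1_inv {f f' : Map G} (h : ∀ s ∈ B.W 0, f.Φ (f'.Φ s) = s) {a : Fin 4 → A}
    (ha : B.Form1 a) : f.pull1 (f'.pull1 a) = a := by
  have h1 := (Pull.vac f).e1 (f'.pull1_form ha)
  have h2 : f'.pull1 a = fun α => ∑ k, f'.Φ (∑ γ, a γ * G.θ γ k) * G.d0 (f'.Φ (G.e k)) α := rfl
  have h3 : a = fun α => ∑ k, (∑ γ, a γ * G.θ γ k) * G.d0 (G.e k) α :=
    funext fun α => G.form1_eq a α
  have h4 : f.Pull (e1 (f'.pull1 a) (vac A)) (e1 a (vac A)) := by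
    rw [h2, congrArg (fun a => e1 a (vac A)) h3, lefPull_e1_sum, lefPull_e1_sum]
    refine lefPull_sum _ fun k => ?_
    have := (Pull.ext (f'.mem _ (G.e_re k).1) (Pull.vac f)).smul
      (f'.mem _ (G.form1_coef_mem ha k))
    rwa [h _ (G.e_re k).1, h _ (G.form1_coef_mem ha k)] at this
  funext α
  rw [← e1_vac (f.pull1 _) α, h1.unique h4, e1_vac]

end Map

end SX4
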