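import Pool.Agent.P.MP_0a0487_an.SX.LefPD
import Pool.Agent.P.MP_0a0487_an.SX.LefPull
import Pool.Agent.P.MP_0a0487_an.SX.LefHopf

/-! The Lefschetz number as a trace on harmonic forms. -/

set_option autoImplicit false
set_option linter.unusedSectionVars false

noncomputable section

namespace SX4

open scoped ComplexOrder ContDiff
open Filter Topology

variable {P A : Type} [TopologicalSpace P] [CompactSpace P] [CommRing A] [StarRing A] [Algebra ℂ A]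
  [StarModule ℂ A] {B : Base P A}

/-- The star operator on sections. -/
def Pre.LefCoh_st (G : Pre B) : G.Sec wF →ₛₗ[starRingEnd ℂ] G.Sec wF where
  toFun x := G.mk' (hstar x.c) (Base.Om.hstar x.mem)
  map_add' x y := Pre.Sec.ext (congrFun (hstar_add x.c y.c))
  map_smul' z x := Pre.Sec.ext (congrFun (hstar_smul z x.c))

theorem Pre.LefCoh_c (G : Pre B) (x : G.Sec wF) : (G.LefCoh_st x).c = hstar x.c := rfl

theorem Pre.LefCoh_ext {G : Pre B} {x y : G.Sec wF} (h : x.c = y.c) : x = y :=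
  Pre.Sec.ext (congrFun h)

theorem Pre.LefCoh_basis (G : Pre B) {k : ℕ} (hk : k ≤ 4) {κ : Type} [Fintype κ]
    (e : OrthonormalBasis κ ℂ (G.Hk k)) : ∃ e' : OrthonormalBasis κ ℂ (G.Hk (4 - k)),
      ∀ j, (e' j : G.Sec wF) = G.LefCoh_st (e j) := by
  classical
  let v : κ → G.Hk (4 - k) := fun j => ⟨G.LefCoh_st (e j), G.Hk_star hk (e j).2 rfl⟩
  have h1 : Orthonormal ℂ v := by
    rw [orthonormal_iff_ite]
    intro i j
    have := orthonormal_iff_ite.1 e.orthonormal j i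
    rw [Submodule.coe_inner, G.inner_Bp] at this
    rw [Submodule.coe_inner, G.inner_Bp]
    simp only [v, G.LefCoh_c, hstar_hstar]
    rw [G.Bp_comm, this]
    simp only [eq_comm]
  have h2 : ⊤ ≤ Submodule.span ℂ (Set.range v) := by
    intro y _
    have hy : G.LefCoh_st y ∈ G.Hk k := by
      have := G.Hk_star (Nat.sub_le 4 k) (y := G.LefCoh_st y) y.2 rfl
      rwa [Nat.sub_sub_self hk] at this
    have h3 := congrArg (fun z : G.Hk k => G.LefCoh_st z) (e.sum_repr ⟨_, hy⟩)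
    simp only [Submodule.coe_sum, Submodule.coe_smul, map_sum, map_smulₛₗ] at h3
    have h4 : y = ∑ j, (starRingEnd ℂ) (e.repr ⟨_, hy⟩ j) • v j := by
      refine Subtype.ext ?_
      simp only [Submodule.coe_sum, Submodule.coe_smul, v]
      rw [h3]
      exact Pre.LefCoh_ext (hstar_hstar _).symm
    rw [h4]
    exact Submodule.sum_mem _ fun j _ => Submodule.smul_mem _ _ (Submodule.subset_span ⟨j, rfl⟩)
  exact ⟨OrthonormalBasis.mk h1 h2, fun j => by rw [OrthonormalBasis.coe_mk]⟩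

theorem Pre.LefCoh_dual {G : Pre B} {f : Map G} {F : G.Sec wF →ₗ[ℂ] G.Sec wF}
    (hF : ∀ x, f.Pull x.c (F x).c) {g g' : G.Sec wF} (h : F g' = g) :
    inner ℂ (G.LefCoh_st g) (F (G.LefCoh_st g)) = inner ℂ g g' := by
  rw [G.inner_Bp, G.inner_Bp, G.LefCoh_c, hstar_hstar, G.Bp_comm (hstar g.c), ← G.LefCoh_c,
    ← (hF g').Bp (hF (G.LefCoh_st g)), h]

theorem Pre.LefCoh_e1 {G : Pre B} {f : Map G} {F : G.Sec wF →ₗ[ℂ] G.Sec wF}
    (hF : ∀ x, f.Pull x.c (F x).c) {x : G.Sec wF} {a : Fin 4 → A} (ha : B.Form1 a)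
    (h : x.c = SX4.e1 a (vac A)) : (F x).c = SX4.e1 (f.pull1 a) (vac A) :=
  (hF x).unique (h ▸ (Map.Pull.vac f).e1 ha)

theorem Geo.LefCoh_one (G : Geo B) {f : Map G.toPre} {F : G.Sec wF →ₗ[ℂ] G.Sec wF}
    (hF : ∀ x, f.Pull x.c (F x).c) {κ : Type} [Fintype κ] (e : OrthonormalBasis κ ℂ (G.Hk 1)) :
    ∑ j, inner ℂ (e j : G.Sec wF) (F (e j)) = LinearMap.trace ℂ _ f.mor.h1 := by
  obtain ⟨ι, h1, h2⟩ := G.pd_one
  refine lef_trace_eq _ e F ι _ fun x y h => ?_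
  obtain ⟨a, ha⟩ := h1 x x.2
  rw [h2 x a fun z _ => by rw [G.inner_Bp, ha],
    h2 y (f.mor.z1 a) fun z hz => by rw [h z hz, G.inner_Bp, Pre.LefCoh_e1 hF a.1.2 ha]; rfl]
  rfl

theorem Geo.LefCoh_two (G : Geo B) {f : Map G.toPre} {F : G.Sec wF →ₗ[ℂ] G.Sec wF}
    (hF : ∀ x, f.Pull x.c (F x).c) {κ : Type} [Fintype κ] (e : OrthonormalBasis κ ℂ (G.Hk 2)) :
    ∑ j, inner ℂ (e j : G.Sec wF) (F (e j)) = LinearMap.trace ℂ _ f.mor.h2 := by
  obtain ⟨ι, h1, h2⟩ := G.pd_two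
  refine lef_trace_eq _ e F ι _ fun x y h => ?_
  obtain ⟨b, hb⟩ := h1 x x.2
  have h3 : (F x).c = e2 (f.pull2 b.1.1) (vac A) :=
    (hF x).unique (hb ▸ (Map.Pull.vac f).e2 b.1.2)
  rw [h2 x b fun z _ => by rw [G.inner_Bp, hb],
    h2 y (f.mor.z2 b) fun z hz => by rw [h z hz, G.inner_Bp, h3]; rfl]
  rfl

theorem Geo.LefCoh_zero [Nonempty P] (G : Geo B) {κ : Type} [Fintype κ]
    (e : OrthonormalBasis κ ℂ (G.Hk 0)) : ∑ j, inner ℂ (e j : G.Sec wF) (e j) = (1 : ℂ) := by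
  obtain ⟨h1, h2⟩ := G.pd_zero
  have h3 : (⟨_, h1⟩ : G.Hk 0) ≠ 0 := fun h => by
    have h4 : vac A ∅ = 0 := congrArg (fun x : G.Hk 0 => x.1.c ∅) h
    have h5 := congrArg (B.evAt (Classical.arbitrary P)) h4
    simp [vac] at h5
  have h4 : Module.finrank ℂ (G.Hk 0) = 1 :=
    (finrank_eq_one_iff_of_nonzero' _ h3).2 fun w => by
      obtain ⟨c, hc⟩ := h2 w w.2
      exact ⟨c, Subtype.ext (Pre.LefCoh_ext hc.symm)⟩
  rw [Module.finrank_eq_card_basis e.toBasis] at h4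
  simp only [← Submodule.coe_inner, e.inner_eq_one, Finset.sum_const, Finset.card_univ, h4,
    one_smul]

theorem Geo.lef_coh [Nonempty P] (G : Geo B) (f f' : Map G.toPre)
    (hi : ∀ s ∈ B.W 0, f.Φ (f'.Φ s) = s) {F : G.Sec wF →ₗ[ℂ] G.Sec wF}
    (hF : ∀ x, f.Pull x.c (F x).c) {κ : Type} [Fintype κ] (h : OrthonormalBasis κ ℂ G.Hm) :
    ∑ j, inner ℂ (h j : G.Sec wF) (G.ΓS (F (h j))) = f.mor.lef f'.mor := by
  obtain ⟨F', hF'⟩ := f'.exists_pullS
  have hp : ∀ k x, F (G.prS k x) = G.prS k (F x) := fun k x =>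
    Pre.LefCoh_ext ((hF _).unique ((hF x).prj k))
  have hΓ : ∀ x, G.ΓS (F x) = ∑ k ∈ Finset.range 5, (-1 : ℂ) ^ k • G.prS k (F (G.prS k x)) := by
    intro x
    have h1 : ∀ k y, G.ΓS (G.prS k y) = (-1 : ℂ) ^ k • G.prS k (G.prS k y) := fun k y => by
      refine Pre.Sec.ext fun S => ?_
      rw [Pre.Sec.c_smul, G.ΓS_c, G.prS_c, G.prS_c, G.prS_c, gam_prj, prj_prj, if_pos rfl,
        Pi.smul_apply, ← Int.cast_smul_eq_zsmul ℂ]
      push_cast
      rfl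
    have h2 : ∀ y : G.Sec wF, ∑ k ∈ Finset.range 5, G.prS k y = y := fun y => by
      refine Pre.Sec.ext fun S => ?_
      rw [← congrFun (sum_prj (R := A) y.c) S]
      simp only [Finset.sum_range_succ, Finset.range_zero, Finset.sum_empty, Pre.Sec.c_add,
        Pi.add_apply, G.prS_c, Pre.Sec.c_zero, Pi.zero_apply]
    simp only [hp, ← h1]
    rw [← map_sum, h2]
  have ht : ∀ (k : ℕ) {κ' : Type} [Fintype κ'] (e : OrthonormalBasis κ' ℂ (G.Hk k)),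
      ∑ j, inner ℂ (h j : G.Sec wF) (G.prS k (F (G.prS k (h j)))) =
        ∑ j, inner ℂ (e j : G.Sec wF) (F (e j)) := fun k _ _ e =>
    lef_trace_sub _ _ inf_le_left h e F _ (G.prS_adj k) (fun x hx => G.Hm_pr hx k)
      fun x hx => (G.mem_Hk.1 hx).2
  have := G.Hm_fd
  have hfd : ∀ k, FiniteDimensional ℂ (G.Hk k) := fun k =>
    Submodule.finiteDimensional_of_le (S₂ := G.Hm) inf_le_left
  have h0 : ∀ g ∈ G.Hk 0, F g = g := fun g hg => by
    obtain ⟨c, hc⟩ := G.pd_zero.2 g hg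
    have h1 : g = c • G.mk' (vac A) fun S => Base.Om.vac S := Pre.LefCoh_ext hc
    rw [h1, map_smul]
    exact congrArg (c • ·) (Pre.LefCoh_ext ((hF _).unique (Map.Pull.vac f)))
  have h1 : ∀ g ∈ G.Hk 1, F (F' g) = g := fun g hg => by
    obtain ⟨ι, h1, -⟩ := G.pd_one
    obtain ⟨a, ha⟩ := h1 g hg
    refine Pre.LefCoh_ext ?_
    rw [Pre.LefCoh_e1 hF (f'.pull1_form a.1.2) (Pre.LefCoh_e1 hF' a.1.2 ha),
      Map.pull1_inv hi a.1.2, ha]
  let e := fun k => stdOrthonormalBasis ℂ (G.Hk k)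
  obtain ⟨e4, he4⟩ := G.LefCoh_basis (by norm_num) (e 0)
  obtain ⟨e3, he3⟩ := G.LefCoh_basis (by norm_num) (e 1)
  have t0 := ht 0 (e 0)
  have t1 := (ht 1 (e 1)).trans (G.LefCoh_one hF (e 1))
  have t2 := (ht 2 (e 2)).trans (G.LefCoh_two hF (e 2))
  have t3 := ht 3 e3
  have t4 := ht 4 e4
  rw [Finset.sum_congr rfl (f := fun j => inner ℂ (e 0 j : G.Sec wF) (F (e 0 j))) fun j _ => by
    rw [h0 _ (e 0 j).2], G.LefCoh_zero] at t0
  rw [Finset.sum_congr rfl (f := fun j => inner ℂ (e3 j : G.Sec wF) (F (e3 j))) fun j _ => by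
    rw [he3, Pre.LefCoh_dual hF (h1 _ (e 1 j).2)], G.LefCoh_one hF'] at t3
  rw [Finset.sum_congr rfl (f := fun j => inner ℂ (e4 j : G.Sec wF) (F (e4 j))) fun j _ => by
    rw [he4, Pre.LefCoh_dual hF (h0 _ (e 0 j).2)], G.LefCoh_zero] at t4
  simp only [hΓ, inner_sum, inner_smul_right]
  rw [Finset.sum_comm]
  simp only [← Finset.mul_sum, Finset.sum_range_succ, Finset.range_zero, Finset.sum_empty]
  rw [t0, t1, t2, t3, t4, Cx.Mor.lef]
  ring

end SX4
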