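import Pool.Agent.P.MP_0a0487_an.SX.Integ

/-! Spaces of sections, first-order operators, the Dirac operator and the monopole map. -/

set_option autoImplicit false
set_option linter.unusedSectionVars false

noncomputable section

namespace SX4

open scoped ComplexOrder ContDiff
open Filter Topology

variable {P A : Type} [TopologicalSpace P] [CompactSpace P] [CommRing A] [StarRing A] [Algebra ℂ A]
  [StarModule ℂ A] {B : Base P A}

/-- Tuples of elements of prescribed weights. -/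
def Pre.Sec (_G : Pre B) {ι : Type} (w : ι → Wt) : Type :=
  ↥(Submodule.pi Set.univ fun i => B.W (w i))

namespace Pre

variable (G : Pre B) {ι ι' : Type}

instance (w : ι → Wt) : AddCommGroup (G.Sec w) :=
  inferInstanceAs (AddCommGroup ↥(Submodule.pi Set.univ fun i => B.W (w i)))

instance (w : ι → Wt) : Module ℂ (G.Sec w) :=
  inferInstanceAs (Module ℂ ↥(Submodule.pi Set.univ fun i => B.W (w i)))

variable {G}

/-- The components of a section. -/
def Sec.c {w : ι → Wt} (s : G.Sec w) : ι → A := Subtype.val s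

theorem Sec.mem {w : ι → Wt} (s : G.Sec w) (i : ι) : s.c i ∈ B.W (w i) :=
  Subtype.property s i (Set.mem_univ i)

theorem Sec.ext {w : ι → Wt} {s t : G.Sec w} (h : ∀ i, s.c i = t.c i) : s = t :=
  Subtype.ext (funext h)

@[simp] theorem Sec.c_add {w : ι → Wt} (s t : G.Sec w) (i : ι) : (s + t).c i = s.c i + t.c i := rfl

@[simp] theorem Sec.c_sub {w : ι → Wt} (s t : G.Sec w) (i : ι) : (s - t).c i = s.c i - t.c i := rfl

@[simp] theorem Sec.c_neg {w : ι → Wt} (s : G.Sec w) (i : ι) : (-s).c i = -s.c i := rfl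

@[simp] theorem Sec.c_zero {w : ι → Wt} (i : ι) : (0 : G.Sec w).c i = 0 := rfl

@[simp] theorem Sec.c_smul {w : ι → Wt} (z : ℂ) (s : G.Sec w) (i : ι) :
    (z • s).c i = z • s.c i := rfl

variable (G) in
/-- A section from its components. -/
def mk' {w : ι → Wt} (s : ι → A) (hs : ∀ i, s i ∈ B.W (w i)) : G.Sec w :=
  Subtype.mk s fun i _ => hs i

@[simp] theorem c_mk' {w : ι → Wt} (s : ι → A) (hs : ∀ i, s i ∈ B.W (w i)) (i : ι) :
    (G.mk' s hs).c i = s i := rfl

variable (G) [Fintype ι] [Fintype ι']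

/-- The `L²` inner product. -/
@[reducible] def core (w : ι → Wt) : InnerProductSpace.Core ℂ (G.Sec w) where
  inner s t := ∑ i, G.I (star (s.c i) * t.c i)
  conj_inner_symm s t := by
    simp only [map_sum]
    refine Finset.sum_congr rfl fun i _ => ?_
    rw [← G.I_star, star_mul, star_star]
  re_inner_nonneg s := by
    simp only [map_sum]
    refine Finset.sum_nonneg fun i _ => ?_
    have := G.nrm_sq (s.c i)
    rw [RCLike.re_to_complex, ← this]
    positivity
  add_left s t u := by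
    simp only [Sec.c_add, star_add, add_mul, map_add, Finset.sum_add_distrib]
  smul_left s t z := by
    simp only [Sec.c_smul, star_smul, smul_mul_assoc, map_smul, smul_eq_mul, Finset.mul_sum]
    rfl
  definite s h := by
    have h1 : ∑ i, G.nrm (s.c i) ^ 2 = 0 := by
      have := congrArg Complex.re h
      simpa only [Complex.re_sum, ← G.nrm_sq, Complex.zero_re] using this
    refine Sec.ext fun i => G.nrm_eq_zero ⟨_, s.mem i⟩ ?_
    have := (Finset.sum_eq_zero_iff_of_nonneg fun i _ => sq_nonneg _).1 h1 i (Finset.mem_univ i)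
    exact pow_eq_zero_iff two_ne_zero |>.1 this

instance (w : ι → Wt) : NormedAddCommGroup (G.Sec w) :=
  @InnerProductSpace.Core.toNormedAddCommGroup ℂ (G.Sec w) _ _ _ (G.core w)

instance (w : ι → Wt) : InnerProductSpace ℂ (G.Sec w) :=
  @InnerProductSpace.ofCore ℂ (G.Sec w) _ _ _ (G.core w).toCore

instance (w : ι → Wt) : InnerProductSpace ℝ (G.Sec w) := InnerProductSpace.complexToReal

variable {G}

theorem inner_complex {w : ι → Wt} (s t : G.Sec w) :
    inner ℂ s t = ∑ i, G.I (star (s.c i) * t.c i) := rfl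

theorem inner_real {w : ι → Wt} (s t : G.Sec w) :
    inner ℝ s t = ∑ i, (G.I (star (s.c i) * t.c i)).re := by
  rw [← Complex.re_sum]
  rfl

theorem norm_sq_eq {w : ι → Wt} (s : G.Sec w) : ‖s‖ ^ 2 = ∑ i, G.nrm (s.c i) ^ 2 := by
  rw [← real_inner_self_eq_norm_sq, inner_real]
  simp only [G.nrm_sq]


@[simp] theorem Sec.c_rsmul {w : ι → Wt} (r : ℝ) (s : G.Sec w) (i : ι) :
    (r • s).c i = (r : ℂ) • s.c i := rfl

/-- Sobolev norms of sections. -/
def Sec.nS {w : ι → Wt} (s : G.Sec w) (k : ℕ) : ℝ := ∑ i, G.nn k (s.c i)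

/-- A real linear operator of order zero. -/
def IsZO {w : ι → Wt} {w' : ι' → Wt} (L : G.Sec w →ₗ[ℝ] G.Sec w') : Prop :=
  ∃ b b' : ι' → ι → A, (∀ i j, b i j ∈ B.W (w' i - w j)) ∧ (∀ i j, b' i j ∈ B.W (w' i + w j)) ∧
    ∀ s i, (L s).c i = ∑ j, (b i j * s.c j + b' i j * star (s.c j))

/-- A real linear differential operator of order at most one. -/
def IsFO {w : ι → Wt} {w' : ι' → Wt} (L : G.Sec w →ₗ[ℝ] G.Sec w') : Prop :=
  ∃ (b b' : Fin 4 → ι' → ι → A) (Z : G.Sec w →ₗ[ℝ] G.Sec w'),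
    (∀ α i j, b α i j ∈ B.W (w' i - w j - wt α)) ∧
    (∀ α i j, b' α i j ∈ B.W (w' i + w j + wt α)) ∧ IsZO Z ∧
    ∀ s i, (L s).c i = (Z s).c i +
      ∑ j, ∑ α, (b α i j * G.D α (s.c j) + b' α i j * star (G.D α (s.c j)))

/-- An elliptic operator together with its formal adjoint. -/
structure Ell {w : ι → Wt} {w' : ι' → Wt} (L : G.Sec w →ₗ[ℝ] G.Sec w')
    (L' : G.Sec w' →ₗ[ℝ] G.Sec w) : Prop where
  fo : IsFO L
  fo' : IsFO L'
  adj : ∀ s t, inner ℝ (L s) t = inner ℝ s (L' t)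
  gar : ∃ C : ℝ, ∀ s, s.nS 1 ≤ C * (‖L s‖ + ‖s‖)
  gar' : ∃ C : ℝ, ∀ t, t.nS 1 ≤ C * (‖L' t‖ + ‖t‖)

end Pre

end SX4
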