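import Pool.Agent.P.MP_0a0487_an.SX.CohGeo
import Pool.Agent.P.MP_0a0487_an.SX.Sec

/-! The full de Rham complex, written with creation and annihilation operators. -/

set_option autoImplicit false
set_option linter.unusedSectionVars false

noncomputable section

namespace SX4

open scoped ComplexOrder ContDiff
open Filter Topology

/-- Multi-indices of forms. -/
abbrev FF := Finset (Fin 4)

/-- The sign of the insertion of `α` in `S`. -/
def cs (α : Fin 4) (S : FF) : ℤ := (-1) ^ (S.filter (· < α)).card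

/-- The sign in the pairing of complementary multi-indices. -/
def bs (S : FF) : ℤ := (-1) ^ (S ∩ {1, 3}).card

/-- The weight of a multi-index. -/
def wF (S : FF) : Wt := ∑ α ∈ S, wt α

section

variable (R V : Type) [CommRing R] [AddCommGroup V] [Module R V]

/-- Exterior multiplication by a basis element. -/
def cre (α : Fin 4) : Module.End R (FF → V) where
  toFun x S := if α ∈ S then cs α S • x (S.erase α) else 0
  map_add' x y := funext fun S => by by_cases h : α ∈ S <;> simp [h]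
  map_smul' r x := funext fun S => by by_cases h : α ∈ S <;> simp [h, smul_comm r]

/-- Contraction with a basis element. -/
def ann (α : Fin 4) : Module.End R (FF → V) where
  toFun x S := if α ∈ S then 0 else cs α S • x (insert α S)
  map_add' x y := funext fun S => by by_cases h : α ∈ S <;> simp [h]
  map_smul' r x := funext fun S => by by_cases h : α ∈ S <;> simp [h, smul_comm r]

/-- The parity operator. -/
def gam : Module.End R (FF → V) where
  toFun x S := (-1 : ℤ) ^ S.card • x S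
  map_add' x y := funext fun S => by simp
  map_smul' r x := funext fun S => by simp [smul_comm r]

/-- The projection onto the forms of degree `k`. -/
def prj (k : ℕ) : Module.End R (FF → V) where
  toFun x S := if S.card = k then x S else 0
  map_add' x y := funext fun S => by by_cases h : S.card = k <;> simp [h]
  map_smul' r x := funext fun S => by by_cases h : S.card = k <;> simp [h]

/-- The constant form of degree zero. -/
def vac : FF → R := Pi.single ∅ 1

variable {R}

/-- The top component of the product of `x` reversed with `y`. -/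
def bb (x y : FF → R) : R := ∑ S, bs S • (x S * y Sᶜ)

/-- Exterior multiplication by a 1-form. -/
def e1 (a : Fin 4 → R) : Module.End R (FF → R) := ∑ α, a α • cre R R α

/-- Creation operators of the second index of a double form. -/
def opX (α : Fin 4) : Module.End R (FF → FF → R) :=
  gam R (FF → R) * (cre R R α).compLeft FF

/-- Creation operators of the first index of a double form. -/
def opY (α : Fin 4) : Module.End R (FF → FF → R) := gam R (FF → R) * cre R (FF → R) α

/-- Exterior multiplication by a 1-form on the product. -/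
def opZ (x y : Fin 4 → R) : Module.End R (FF → FF → R) :=
  ∑ α, x α • opX α + ∑ α, y α • opY α

/-- The trace of a double form on the diagonal. -/
def strK (m : FF → FF → R) : R := ∑ S, ((-1 : ℤ) ^ S.card * bs Sᶜ) • m S Sᶜ

variable [Algebra ℂ R]

/-- Exterior multiplication by a 2-form. -/
def e2 (b : Fin 4 → Fin 4 → R) : Module.End R (FF → R) :=
  ∑ α, ∑ β, ((1 / 2 : ℂ) • b α β) • (cre R R α * cre R R β)

/-- The Thom form of one plane, as an operator on double forms. -/
def opT (p q : R) (x y x' y' : Fin 4 → R) (F : Fin 4 → Fin 4 → R) : Module.End R (FF → FF → R) :=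
  (-p) • (opZ x y * opZ x' y') + q • ∑ α, ∑ β, ((1 / 2 : ℂ) • F α β) • (opX α * opX β)

/-- The universal Thom form. -/
def biT (k : R) (p q : Fin 2 → R) (x y : Fin 4 → Fin 4 → R) (F : Fin 2 → Fin 4 → Fin 4 → R) :
    FF → FF → R :=
  k • opT (p 0) (q 0) (x 1) (y 1) (x 0) (y 0) (F 0)
    (opT (p 1) (q 1) (x 3) (y 3) (x 2) (y 2) (F 1) (Pi.single ∅ (vac R)))

/-- Its top component on the diagonal. -/
def topT (k : R) (p q : Fin 2 → R) (x : Fin 4 → Fin 4 → R) (F : Fin 2 → Fin 4 → Fin 4 → R) : R :=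
  k * wg (fun α β => -p 0 * w1 (x 1) (x 0) α β + q 0 * F 0 α β)
    (fun α β => -p 1 * w1 (x 3) (x 2) α β + q 1 * F 1 α β)

end

/-- A calculus of forms given by a frame with structure functions `T`. -/
structure Car (ι R V : Type) [DecidableEq ι] [CommRing R] [Algebra ℂ R] [AddCommGroup V]
    [Module R V] [Module ℂ V] where
  c : ι → Module.End R V
  a : ι → Module.End R V
  cc : ∀ i j, c i * c j + c j * c i = 0
  ac : ∀ i j, a i * c j + c j * a i = if i = j then 1 else 0
  D : ι → R →ₗ[ℂ] R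
  DV : ι → V →ₗ[ℂ] V
  D_mul : ∀ i r s, D i (r * s) = D i r * s + r * D i s
  DV_smul : ∀ i r v, DV i (r • v) = D i r • v + r • DV i v
  DV_c : ∀ i j v, DV i (c j v) = c j (DV i v)
  T : ι → ι → ι → R
  T_anti : ∀ i j k, T j i k = -T i j k

namespace Car

variable {ι R V : Type} [Fintype ι] [DecidableEq ι] [CommRing R] [Algebra ℂ R] [AddCommGroup V]
  [Module R V] [Module ℂ V] [IsScalarTower ℂ R V] (C : Car ι R V)

/-- Exterior multiplication by a 1-form. -/
def e (x : ι → R) : Module.End R V := ∑ i, x i • C.c i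

/-- Exterior multiplication by a 2-form. -/
def e2 (b : ι → ι → R) : Module.End R V :=
  ∑ i, ∑ j, ((1 / 2 : ℂ) • b i j) • (C.c i * C.c j)

/-- The exterior derivative. -/
def d : V →ₗ[ℂ] V :=
  ∑ i, (C.c i).restrictScalars ℂ ∘ₗ C.DV i -
    (∑ i, ∑ j, ∑ k, ((1 / 2 : ℂ) • C.T i j k) • (C.c i * C.c j * C.a k)).restrictScalars ℂ

/-- The exterior derivative of a 1-form, in components. -/
def d1 (x : ι → R) (i j : ι) : R := C.D i (x j) - C.D j (x i) - ∑ k, C.T i j k * x k

/-- One term of the exterior derivative of a 2-form. -/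
def d2t (b : ι → ι → R) (i j k : ι) : R := C.D i (b j k) - ∑ l, C.T i j l * b l k

end Car

theorem cs_cc : ∀ (α β : Fin 4) (S : FF), α ≠ β → cs α S * cs β (S.erase α) +
    cs β S * cs α (S.erase β) = 0 ∨ α ∉ S ∨ β ∉ S := by
  decide

theorem cs_ac : ∀ (α β : Fin 4) (S : FF), α ≠ β → cs α S * cs β (insert α S) +
    cs β S * cs α (S.erase β) = 0 ∨ α ∈ S ∨ β ∉ S := by
  decide

theorem cs_sq : ∀ (α : Fin 4) (S : FF), cs α S * cs α (S.erase α) = 1 ∧
    cs α S * cs α (insert α S) = 1 := by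
  decide

section

variable (R V : Type) [CommRing R] [AddCommGroup V] [Module R V]

theorem cre_apply (α : Fin 4) (x : FF → V) (S : FF) :
    cre R V α x S = if α ∈ S then cs α S • x (S.erase α) else 0 := rfl

theorem ann_apply (α : Fin 4) (x : FF → V) (S : FF) :
    ann R V α x S = if α ∈ S then 0 else cs α S • x (insert α S) := rfl

theorem gam_apply (x : FF → V) (S : FF) : gam R V x S = (-1 : ℤ) ^ S.card • x S := rfl

theorem prj_apply (k : ℕ) (x : FF → V) (S : FF) :
    prj R V k x S = if S.card = k then x S else 0 := rfl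

theorem cre_cre (α β : Fin 4) : cre R V α * cre R V β + cre R V β * cre R V α = 0 := by
  refine LinearMap.ext fun x => funext fun S => ?_
  simp only [LinearMap.add_apply, Module.End.mul_apply, Pi.add_apply, cre_apply, Finset.mem_erase,
    LinearMap.zero_apply, Pi.zero_apply]
  rcases eq_or_ne α β with rfl | h
  · simp
  by_cases h1 : α ∈ S <;> by_cases h2 : β ∈ S <;> simp only [h1, h2, h, h.symm, ne_eq,
    not_false_eq_true, and_self, and_false, if_true, if_false, smul_zero, add_zero]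
  rw [smul_smul, smul_smul, Finset.erase_right_comm (a := β), ← add_smul,
    ((cs_cc α β S h).resolve_right (by simp [h1, h2])), zero_smul]

theorem ann_cre (α β : Fin 4) :
    ann R V α * cre R V β + cre R V β * ann R V α = if α = β then 1 else 0 := by
  refine LinearMap.ext fun x => funext fun S => ?_
  simp only [LinearMap.add_apply, Module.End.mul_apply, Pi.add_apply, cre_apply, ann_apply,
    Finset.mem_erase, Finset.mem_insert]
  rcases eq_or_ne α β with rfl | h
  · by_cases h1 : α ∈ S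
    · simp [h1, smul_smul, (cs_sq α S).1]
    · simp [h1, smul_smul, (cs_sq α S).2]
  by_cases h1 : α ∈ S <;> by_cases h2 : β ∈ S <;> simp only [h1, h2, h, h.symm, ne_eq,
    not_false_eq_true, and_self, and_false, if_true, if_false, smul_zero, add_zero, or_true,
    or_false, LinearMap.zero_apply, Pi.zero_apply]
  rw [smul_smul, smul_smul, Finset.erase_insert_of_ne h, ← add_smul,
    ((cs_ac α β S h).resolve_right (by simp [h1, h2])), zero_smul]

end

theorem wF_erase : ∀ (α : Fin 4) (S : FF), α ∈ S → wF S = wF (S.erase α) + wt α := by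
  decide

theorem wF_insert : ∀ (α : Fin 4) (S : FF), α ∉ S → wF (insert α S) = wF S + wt α := by
  decide

theorem wF_compl : ∀ S : FF, -wF Sᶜ = wF S := by
  decide

/-- The calculus of forms with values in `V`. -/
def Car.std {R V : Type} [CommRing R] [Algebra ℂ R] [AddCommGroup V] [Module R V] [Module ℂ V]
    (D : Fin 4 → R →ₗ[ℂ] R) (DV : Fin 4 → V →ₗ[ℂ] V)
    (h1 : ∀ i r s, D i (r * s) = D i r * s + r * D i s)
    (h2 : ∀ i r v, DV i (r • v) = D i r • v + r • DV i v) (T : Fin 4 → Fin 4 → Fin 4 → R)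
    (h3 : ∀ i j k, T j i k = -T i j k) : Car (Fin 4) R (FF → V) where
  c := cre R V
  a := ann R V
  cc := cre_cre R V
  ac := ann_cre R V
  D := D
  DV α := (DV α).compLeft FF
  D_mul := h1
  DV_smul α r v := funext fun S => h2 α r (v S)
  DV_c α β v := funext fun S => by
    change DV α (cre R V β v S) = cre R V β (fun S => DV α (v S)) S
    rw [cre_apply, cre_apply]
    split_ifs
    · exact map_zsmul _ _ _
    · exact map_zero _
  T := T
  T_anti := h3

variable {P A : Type} [TopologicalSpace P] [CompactSpace P] [CommRing A] [StarRing A] [Algebra ℂ A]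
  [StarModule ℂ A] {B : Base P A}

/-- Differential forms, as families of components. -/
def Base.Om (B : Base P A) (x : FF → A) : Prop := ∀ S, x S ∈ B.W (wF S)

/-- Differential forms with values in the line bundle of weight `w`. -/
def Base.OmW (B : Base P A) (w : Wt) (x : FF → A) : Prop := ∀ S, x S ∈ B.W (wF S + w)

/-- Evaluation at a point. -/
def Base.evAt (B : Base P A) (p : P) : A →ₐ[ℂ] ℂ where
  toFun s := B.ev s p
  map_one' := by simp
  map_mul' s t := by simp
  map_zero' := by simp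
  map_add' s t := by simp
  commutes' c := by rw [AlgHomClass.commutes]; rfl

theorem Base.evAt_apply (B : Base P A) (p : P) (s : A) : B.evAt p s = B.ev s p := rfl

/-- The conjugate linear star operator. -/
def hstar (x : FF → A) : FF → A := fun S => bs S • star (x Sᶜ)

theorem hstar_add (x y : FF → A) : hstar (x + y) = hstar x + hstar y :=
  funext fun S => by simp [hstar]

theorem hstar_smul (z : ℂ) (x : FF → A) : hstar (z • x) = star z • hstar x :=
  funext fun S => by simp [hstar, smul_comm (bs S)]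

namespace Base

theorem om_iff {x : FF → A} : B.Om x ↔ B.OmW 0 x := by
  simp only [Om, OmW, add_zero]

theorem OmW.cre {w w' : Wt} {x : FF → A} (hx : B.OmW w x) (α : Fin 4) (h : w = w' + wt α) :
    B.OmW w' (cre A A α x) := fun S => by
  rw [cre_apply]
  split_ifs with h1
  · refine zsmul_mem ?_ _
    have := hx (S.erase α)
    rwa [h, add_comm w', ← add_assoc, ← wF_erase α S h1] at this
  · exact zero_mem _

theorem OmW.ann {w w' : Wt} {x : FF → A} (hx : B.OmW w x) (α : Fin 4) (h : w + wt α = w') :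
    B.OmW w' (ann A A α x) := fun S => by
  rw [ann_apply]
  split_ifs with h1
  · exact zero_mem _
  · refine zsmul_mem ?_ _
    have := hx (insert α S)
    rwa [wF_insert α S h1, add_assoc, add_comm (wt α), h] at this

theorem OmW.smul {w w' v : Wt} {x : FF → A} (hx : B.OmW w x) {s : A} (hs : s ∈ B.W v)
    (h : v + w = w') : B.OmW w' (s • x) := fun S =>
  B.mul_mem' hs (hx S) (by rw [← h]; abel)

theorem OmW.sum {ι : Type} [Fintype ι] {w : Wt} {x : ι → FF → A} (hx : ∀ i, B.OmW w (x i)) :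
    B.OmW w (∑ i, x i) := fun S => by
  rw [Finset.sum_apply]
  exact Submodule.sum_mem _ fun i _ => hx i S

theorem Om.gam {x : FF → A} (hx : B.Om x) : B.Om (gam A A x) := fun S => zsmul_mem (hx S) _

theorem Om.prj {x : FF → A} (hx : B.Om x) (k : ℕ) : B.Om (prj A A k x) := fun S => by
  rw [prj_apply]
  split_ifs
  · exact hx S
  · exact zero_mem _

theorem Om.hstar {x : FF → A} (hx : B.Om x) : B.Om (hstar x) := fun S =>
  zsmul_mem (B.star_mem' (hx Sᶜ) (wF_compl S)) _

end Base

namespace Calc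

variable (G : Calc B)

/-- The calculus of forms of the frame. -/
def car : Car (Fin 4) A (FF → A) := Car.std G.D G.D G.D_mul G.D_mul G.T G.T_anti

/-- The exterior derivative on all forms. -/
def dF : (FF → A) →ₗ[ℂ] (FF → A) := G.car.d

/-- The codifferential. -/
def δF : (FF → A) →ₗ[ℂ] (FF → A) where
  toFun x := -hstar (G.dF (hstar x))
  map_add' x y := by rw [hstar_add, map_add, hstar_add, neg_add]
  map_smul' z x := by rw [hstar_smul, map_smul, hstar_smul, star_star, smul_neg, RingHom.id_apply]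

theorem dF_apply (x : FF → A) : G.dF x = ∑ α, cre A A α (fun S => G.D α (x S)) -
    ∑ α, ∑ β, ∑ γ, ((1 / 2 : ℂ) • G.T α β γ) • cre A A α (cre A A β (ann A A γ x)) := by
  simp only [dF, Car.d, LinearMap.sub_apply, LinearMap.sum_apply, LinearMap.restrictScalars_apply,
    LinearMap.smul_apply, Module.End.mul_apply]
  rfl

theorem dF_om {x : FF → A} (hx : B.Om x) : B.Om (G.dF x) := by
  rw [Base.om_iff] at hx ⊢
  rw [dF_apply]
  refine fun S => sub_mem (Base.OmW.sum (fun α => Base.OmW.cre (w := wt α)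
    (fun S => G.D_mem' α (hx S) (by rw [add_zero])) α (zero_add _).symm) S)
    (Base.OmW.sum (fun α => Base.OmW.sum fun β => Base.OmW.sum fun γ =>
      (((hx.ann γ rfl).cre (w' := wt γ - wt β) β (by abel)).cre (w' := wt γ - wt β - wt α) α
        (by abel)).smul (Submodule.smul_mem _ _ (G.T_mem α β γ)) (by abel)) S)

theorem δF_om {x : FF → A} (hx : B.Om x) : B.Om (G.δF x) := fun S =>
  neg_mem ((G.dF_om hx.hstar).hstar S)

/-- The point of Euclidean space given by the real functions `u`. -/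
def Eu (u : Fin G.N → A) (p : P) : Fin G.N → ℝ := fun k => (B.ev (u k) p).re

/-- The constant functions given by a point of Euclidean space. -/
def cst (z : Fin G.N → ℝ) : Fin G.N → A := fun k => algebraMap ℂ A (z k)

/-- The section `θ (u - E)`. -/
def σu (u : Fin G.N → A) (a : Fin 4) : A := ∑ k, G.θ a k * (u k - G.e k)

/-- The squared norm of its component in the plane `j`. -/
def ρu (u : Fin G.N → A) (j : Fin 2) : A := G.σu u (![1, 3] j) * G.σu u (![0, 2] j)

/-- The squared Euclidean length of `u - E`. -/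
def ru (u : Fin G.N → A) : A := ∑ k, (u k - G.e k) ^ 2

/-- The Jacobian determinant of the section `θ (u - E)`. -/
def jac (u : Fin G.N → A) : A := (Matrix.of fun a α => G.D α (G.σu u a)).det

/-- The pull-back of the Thom form of the diagonal to the graph of `u`. -/
def thomD (φ κ : ℝ → ℝ) (u : Fin G.N → A) : A :=
  topT (B.app κ (G.ru u)) (fun j => B.app (deriv φ) (G.ρu u j)) (fun j => B.app φ (G.ρu u j))
    (fun a α => G.D α (G.σu u a)) G.F

/-- The Thom form of the diagonal, pulled back by `u` in the variable `y`. -/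
def thomK (φ κ : ℝ → ℝ) (u : Fin G.N → A) (y : P) : FF → FF → A :=
  biT (B.app κ (G.r2 (G.Eu u y))) (fun j => B.app (deriv φ) (G.ρ (G.Eu u y) j))
    (fun j => B.app φ (G.ρ (G.Eu u y) j)) (fun a α => G.D α (G.σ (G.Eu u y) a))
    (fun a β => ∑ k, B.ev (G.D β (u k)) y • G.θ a k) G.F

/-- At distance `√(2 b)` the tangential part of a chord controls the chord. -/
def Near (b : ℝ) : Prop := ∃ C : ℝ, ∀ p q, ∑ k, (G.E q k - G.E p k) ^ 2 ≤ 2 * b →
  ‖G.E q - G.E p‖ ≤ C * ‖G.co p (G.E q - G.E p)‖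

/-- The section `θ (z - E)` in a ring of functions of two variables. -/
def σR {R : Type} [CommRing R] [Algebra ℂ R] (c : A →ₐ[ℂ] R) (z : Fin G.N → R) (a : Fin 4) : R :=
  ∑ k, c (G.θ a k) * (z k - c (G.e k))

end Calc

/-- The profile functions of the Thom form. -/
structure Prof (φ κ : ℝ → ℝ) (b : ℝ) : Prop where
  pos : 0 < b
  φ_sm : ContDiff ℝ ∞ φ
  φ_zero : deriv φ 0 < 0
  φ_le : ∀ r, deriv φ r ≤ 0
  φ_supp : ∀ r, 1 ≤ r → φ r = 0 ∧ deriv φ r = 0
  φ_div : ∀ r, 0 ≤ r → ∃ t : ℝ, |t| ≤ 1 ∧ φ r = t * deriv φ r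
  κ_sm : ContDiff ℝ ∞ κ
  κ_zero : 0 < κ 0
  κ_nonneg : ∀ r, 0 ≤ κ r
  κ_supp : ∀ r, κ r ≠ 0 → r ≤ 2 * b
  κ_der : ∀ r, deriv κ r ≠ 0 → b ≤ r ∧ r ≤ 2 * b

/-- Rescaling of the profile. -/
def scl (φ : ℝ → ℝ) (a : ℝ) : ℝ → ℝ := fun r => φ (r / a)

namespace Pre

variable (G : Pre B)

/-- The pairing of forms. -/
def Bp (x y : FF → A) : ℂ := G.I (bb x y)

/-- An operator on forms. -/
def opS (L : (FF → A) →ₗ[ℂ] (FF → A)) (h : ∀ x, B.Om x → B.Om (L x)) :
    G.Sec wF →ₗ[ℂ] G.Sec wF where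
  toFun x := G.mk' (L x.c) (h x.c x.mem)
  map_add' x y := Sec.ext (congrFun (L.map_add x.c y.c))
  map_smul' z x := Sec.ext (congrFun (L.map_smul z x.c))

/-- The exterior derivative. -/
def dS : G.Sec wF →ₗ[ℂ] G.Sec wF := G.opS G.dF fun _ => G.dF_om

/-- The codifferential. -/
def δS : G.Sec wF →ₗ[ℂ] G.Sec wF := G.opS G.δF fun _ => G.δF_om

/-- The parity operator. -/
def ΓS : G.Sec wF →ₗ[ℂ] G.Sec wF := G.opS ((gam A A).restrictScalars ℂ) fun _ => Base.Om.gam

/-- The projection onto the forms of degree `k`. -/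
def prS (k : ℕ) : G.Sec wF →ₗ[ℂ] G.Sec wF :=
  G.opS ((prj A A k).restrictScalars ℂ) fun _ hx => hx.prj k

/-- The operator `d + δ`. -/
def DS : G.Sec wF →ₗ[ℝ] G.Sec wF := (G.dS + G.δS).restrictScalars ℝ

/-- The harmonic forms. -/
def Hm : Submodule ℂ (G.Sec wF) := LinearMap.ker G.dS ⊓ LinearMap.ker G.δS

/-- The harmonic forms of degree `k`. -/
def Hk (k : ℕ) : Submodule ℂ (G.Sec wF) := G.Hm ⊓ LinearMap.eqLocus (G.prS k) LinearMap.id

theorem dS_c (x : G.Sec wF) : (G.dS x).c = G.dF x.c := rfl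

theorem δS_c (x : G.Sec wF) : (G.δS x).c = -hstar (G.dF (hstar x.c)) := rfl

theorem ΓS_c (x : G.Sec wF) : (G.ΓS x).c = gam A A x.c := rfl

theorem prS_c (k : ℕ) (x : G.Sec wF) : (G.prS k x).c = prj A A k x.c := rfl

theorem DS_apply (x : G.Sec wF) : G.DS x = G.dS x + G.δS x := rfl

theorem mem_Hm {x : G.Sec wF} : x ∈ G.Hm ↔ G.dS x = 0 ∧ G.δS x = 0 := Iff.rfl

theorem mem_Hk {k : ℕ} {x : G.Sec wF} : x ∈ G.Hk k ↔ x ∈ G.Hm ∧ G.prS k x = x := Iff.rfl

end Pre

/-- `y` is the pull-back of `x`. -/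
inductive Map.Pull {G : Pre B} (f : Map G) : (FF → A) → (FF → A) → Prop
  | fn {s : A} (hs : s ∈ B.W 0) : f.Pull (s • vac A) (f.Φ s • vac A)
  | add {x x' y y' : FF → A} : f.Pull x y → f.Pull x' y' → f.Pull (x + x') (y + y')
  | ext {s : A} (hs : s ∈ B.W 0) {x y : FF → A} :
      f.Pull x y → f.Pull (e1 (G.d0 s) x) (e1 (G.d0 (f.Φ s)) y)

/-- `S` is the integral operator with kernel `m`. -/
structure IsKer (G : Pre B) (m : P → FF → FF → A) (S : G.Sec wF →ₗ[ℂ] G.Sec wF) : Prop where
  om : ∀ y T, B.Om (m y T)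
  bd : ∀ k, ∃ C : ℝ, ∀ y T T', G.nn k (m y T T') ≤ C
  eq : ∀ x T y, B.ev ((S x).c T) y = G.Bp (m y T) x.c

/-- A ring of functions of two points `x`, `y` of the manifold, containing the coordinates `z` of
the point `u y` of Euclidean space. -/
structure KRing (G : Pre B) (u : Fin G.N → A) (R : Type) [CommRing R] [Algebra ℂ R] where
  ev : P → R →ₐ[ℂ] A
  cx : A →ₐ[ℂ] R
  cy : A →ₐ[ℂ] R
  z : Fin G.N → R
  pρ : (ℝ → ℝ) → Fin 2 → R
  pr : (ℝ → ℝ) → R
  DX : Fin 4 → R →ₗ[ℂ] R
  DY : Fin 4 → R →ₗ[ℂ] R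
  W : Wt → Submodule ℂ R
  int : R →ₗ[ℂ] A
  ev_cx : ∀ y s, ev y (cx s) = s
  ev_cy : ∀ y s, ev y (cy s) = algebraMap ℂ A (B.ev s y)
  ev_z : ∀ y k, ev y (z k) = algebraMap ℂ A (G.Eu u y k)
  ev_pρ : ∀ φ, ContDiff ℝ ∞ φ → ∀ y j, ev y (pρ φ j) = B.app φ (G.ρ (G.Eu u y) j)
  ev_pr : ∀ φ, ContDiff ℝ ∞ φ → ∀ y, ev y (pr φ) = B.app φ (G.r2 (G.Eu u y))
  ev_DX : ∀ y α r, ev y (DX α r) = G.D α (ev y r)
  DX_mul : ∀ α r s, DX α (r * s) = DX α r * s + r * DX α s
  DY_mul : ∀ α r s, DY α (r * s) = DY α r * s + r * DY α s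
  DX_cx : ∀ α s, DX α (cx s) = cx (G.D α s)
  DX_cy : ∀ α s, DX α (cy s) = 0
  DX_z : ∀ α k, DX α (z k) = 0
  DY_cx : ∀ α s, DY α (cx s) = 0
  DY_cy : ∀ α s, DY α (cy s) = cy (G.D α s)
  DY_z : ∀ α k, DY α (z k) = cy (G.D α (u k))
  DX_pρ : ∀ φ, ContDiff ℝ ∞ φ → ∀ α j, DX α (pρ φ j) =
    pρ (deriv φ) j * DX α (G.σR cx z (![1, 3] j) * G.σR cx z (![0, 2] j))
  DY_pρ : ∀ φ, ContDiff ℝ ∞ φ → ∀ α j, DY α (pρ φ j) =
    pρ (deriv φ) j * DY α (G.σR cx z (![1, 3] j) * G.σR cx z (![0, 2] j))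
  DX_pr : ∀ φ, ContDiff ℝ ∞ φ → ∀ α, ∃ r, DX α (pr φ) = pr (deriv φ) * r
  DY_pr : ∀ φ, ContDiff ℝ ∞ φ → ∀ α, ∃ r, DY α (pr φ) = pr (deriv φ) * r
  mul_mem : ∀ {v w : Wt} {r s : R}, r ∈ W v → s ∈ W w → r * s ∈ W (v + w)
  cx_mem : ∀ s, cx s ∈ W 0
  cy_mem : ∀ {w : Wt} {s : A}, s ∈ B.W w → cy s ∈ W w
  z_mem : ∀ k, z k ∈ W 0
  pρ_mem : ∀ φ j, pρ φ j ∈ W 0
  pr_mem : ∀ φ, pr φ ∈ W 0
  int_mem : ∀ {w : Wt} {r : R}, r ∈ W w → int r ∈ B.W w
  ev_int : ∀ r y, B.ev (int r) y = G.I (ev y r)
  D_int : ∀ α r, G.D α (int r) = int (DY α r)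
  bdd : ∀ r k, ∃ C : ℝ, ∀ y, G.nn k (ev y r) ≤ C

namespace KRing

variable {G : Pre B} {u : Fin G.N → A} {R : Type} [CommRing R] [Algebra ℂ R] (K : KRing G u R)

/-- The Thom form as a double form. -/
def τ (φ κ : ℝ → ℝ) : FF → FF → R :=
  biT (K.pr κ) (K.pρ (deriv φ)) (K.pρ φ) (fun a α => K.DX α (G.σR K.cx K.z a))
    (fun a β => K.DY β (G.σR K.cx K.z a)) fun j α β => K.cx (G.F j α β)

/-- The calculus of double forms in the variable `y`. -/
def carY : Car (Fin 4) R (FF → FF → R) :=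
  Car.std K.DY (fun α => (K.DY α).compLeft FF) K.DY_mul
    (fun α r v => funext fun S => K.DY_mul α r (v S)) (fun α β γ => K.cy (G.T α β γ))
    fun α β γ => by rw [G.T_anti, map_neg]

end KRing

end SX4
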