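import Pool.Agent.P.MP_0a0487_an.SX.AtlDefs

/-! Approximate delta functions. -/

set_option autoImplicit false
set_option linter.unusedSectionVars false

noncomputable section

namespace SX4

open scoped ComplexOrder ContDiff
open Filter Topology

open MeasureTheory

theorem lef_delta {σ : E4 → E4} {y₀ : E4} {L : E4 →L[ℝ] E4} (hL : L.det ≠ 0)
    (hσ : HasFDerivAt σ L y₀) (h0 : σ y₀ = 0) {O : Set E4} (hO : O ∈ 𝓝 y₀)
    (hc : ContinuousOn σ O) : ∃ r > 0, Metric.closedBall y₀ r ⊆ O ∧ ∀ ψ : E4 → ℝ, Continuous ψ →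
      HasCompactSupport ψ → ∀ h : E4 → ℂ, Continuous h → (∀ y, h y ≠ 0 → y ∈ Metric.ball y₀ r) →
        (∀ a : ℝ, Integrable fun y => (((a ^ 2)⁻¹ * ψ ((√a)⁻¹ • σ y) : ℝ) : ℂ) * h y) ∧
        Tendsto (fun a : ℝ => ∫ y, (((a ^ 2)⁻¹ * ψ ((√a)⁻¹ • σ y) : ℝ) : ℂ) * h y) (𝓝[>] 0)
          (𝓝 (((|L.det|⁻¹ * ∫ v, ψ v : ℝ) : ℂ) * h y₀)) := by
  obtain ⟨C, hC, hb⟩ := (HasFDerivAt.isTheta_sub hσ
    (L.toContinuousLinearEquivOfDetNeZero hL).toHomeomorph.isInducing).symm.isBigO.exists_nonneg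
  obtain ⟨r, hr, hs⟩ := Metric.nhds_basis_closedBall.mem_iff.1 (inter_mem hO hb.bound)
  refine ⟨r, hr, fun y hy => (hs hy).1, fun ψ hψ hψc h hh hhr => ?_⟩
  have hI : ∀ b : ℝ, Integrable fun y => (ψ (b • σ y) : ℂ) * h y := fun b => by
    refine (integrableOn_iff_integrable_of_support_subset (s := Metric.closedBall y₀ r)
      fun y hy => Metric.ball_subset_closedBall (hhr y (right_ne_zero_of_mul hy))).1 ?_
    exact ((Complex.continuous_ofReal.comp hψ).comp_continuousOn
      ((hc.mono fun y hy => (hs hy).1).const_smul b)).mul hh.continuousOn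
      |>.integrableOn_compact (isCompact_closedBall _ _)
  refine ⟨fun a => by simpa [mul_assoc] using (hI (√a)⁻¹).const_mul ((a : ℂ) ^ 2)⁻¹, ?_⟩
  obtain ⟨M, hM⟩ := hψ.bounded_above_of_compact_support hψc
  obtain ⟨N, hN⟩ := hh.bounded_above_of_compact_support (HasCompactSupport.intro
    (isCompact_closedBall y₀ r) fun y hy => by_contra fun h' =>
      hy (Metric.ball_subset_closedBall (hhr y h')))
  obtain ⟨R, hR⟩ := hψc.isCompact.isBounded.exists_norm_le
  have hsq : Tendsto (fun a : ℝ => √a) (𝓝[>] 0) (𝓝[>] 0) :=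
    tendsto_nhdsWithin_iff.2 ⟨(Real.continuous_sqrt.tendsto' 0 0 Real.sqrt_zero).mono_left
      nhdsWithin_le_nhds, eventually_nhdsWithin_of_forall fun a ha => Real.sqrt_pos.2 ha⟩
  have e : ∫ w, (ψ (L w) : ℂ) * h y₀ = ((|L.det|⁻¹ * ∫ v, ψ v : ℝ) : ℂ) * h y₀ := by
    rw [integral_mul_const, integral_complex_ofReal, ← integral_map L.continuous.aemeasurable
      hψ.aestronglyMeasurable]
    congr 2
    exact (congrArg (fun μ => ∫ v, ψ v ∂μ)
      (Measure.map_linearMap_addHaar_eq_smul_addHaar volume hL)).trans (by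
        rw [integral_smul_measure, ENNReal.toReal_ofReal (abs_nonneg _), abs_inv]; rfl)
  rw [← e]
  refine (tendsto_integral_filter_of_dominated_convergence
    (F := fun a w => (ψ ((√a)⁻¹ • σ (y₀ + √a • w)) : ℂ) * h (y₀ + √a • w))
    ((Metric.closedBall 0 (C * R)).indicator fun _ => M * N) ?_ ?_ ?_ ?_).congr' ?_
  · filter_upwards [self_mem_nhdsWithin] with a ha
    exact (((hI (√a)⁻¹).comp_add_left y₀).comp_smul (Real.sqrt_pos.2 ha).ne').aestronglyMeasurable
  · filter_upwards [self_mem_nhdsWithin] with a ha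
    refine ae_of_all _ fun w => ?_
    have ha' := Real.sqrt_pos.2 ha
    by_cases hw : w ∈ Metric.closedBall 0 (C * R)
    · rw [Set.indicator_of_mem hw, norm_mul, Complex.norm_real]
      exact mul_le_mul (hM _) (hN _) (norm_nonneg _) ((norm_nonneg _).trans (hM 0))
    · rw [Set.indicator_of_notMem hw, norm_le_zero_iff]
      by_contra hne
      have h1 := (hs (Metric.ball_subset_closedBall (hhr _ (right_ne_zero_of_mul hne)))).2
      have h2 := hR _ (subset_tsupport _ (Complex.ofReal_ne_zero.1 (left_ne_zero_of_mul hne)))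
      simp only [Set.mem_ofPred_eq, add_sub_cancel_left, h0, sub_zero, norm_smul, norm_inv,
        Real.norm_of_nonneg ha'.le] at h1 h2
      rw [inv_mul_le_iff₀ ha'] at h2
      refine hw (mem_closedBall_zero_iff.2 (le_of_mul_le_mul_left (h1.trans ?_) ha'))
      calc _ ≤ C * (√a * R) := by gcongr
        _ = _ := by ring
  · exact (continuousOn_const.integrableOn_compact (isCompact_closedBall _ _)).integrable_indicator
      measurableSet_closedBall
  · refine ae_of_all _ fun w => Tendsto.mul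
      (((Complex.continuous_ofReal.comp hψ).tendsto _).comp ?_) ((hh.tendsto _).comp ?_)
    · simpa [h0] using hσ.lim w (c := fun a : ℝ => (√a)⁻¹)
        (tendsto_norm_atTop_atTop.comp (tendsto_inv_nhdsGT_zero.comp hsq))
    · simpa using ((hsq.mono_right nhdsWithin_le_nhds).smul_const w).const_add y₀
  · filter_upwards [self_mem_nhdsWithin] with a ha
    rw [Measure.integral_comp_smul volume
      (fun x => (ψ ((√a)⁻¹ • σ (y₀ + x)) : ℂ) * h (y₀ + x)) √a,
      integral_add_left_eq_self (fun y => (ψ ((√a)⁻¹ • σ y) : ℂ) * h y), ← integral_smul]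
    have : √a ^ Module.finrank ℝ E4 = a ^ 2 := by
      rw [Module.finrank_fin_fun, show 4 = 2 * 2 from rfl, pow_mul, Real.sq_sqrt (le_of_lt ha)]
    simp only [this, abs_of_nonneg (inv_nonneg.2 (sq_nonneg a)), Complex.real_smul,
      Complex.ofReal_mul, mul_assoc]

end SX4
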