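import Pool.Agent.P.MP_0a0487_an.SX.LefOm
import Pool.Agent.P.MP_0a0487_an.SX.Dirac

/-! The operator `d + δ` is elliptic. -/

set_option autoImplicit false
set_option linter.unusedSectionVars false

noncomputable section

namespace SX4

open scoped ComplexOrder ContDiff
open Filter Topology

variable {P A : Type} [TopologicalSpace P] [CompactSpace P] [CommRing A] [StarRing A] [Algebra ℂ A]
  [StarModule ℂ A] {B : Base P A}

namespace LefEll

/-- Clifford multiplication. -/
def cl (α : Fin 4) : Module.End A (FF → A) := cre A A α - ann A A (bar α)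

theorem cl_apply (α : Fin 4) (x : FF → A) : cl α x = cre A A α x - ann A A (bar α) x := rfl

theorem cl_cl (α β : Fin 4) (x : FF → A) :
    cl (bar α) (cl β x) + cl β (cl (bar α) x) = if α = β then -(x + x) else 0 := by
  have e : (cl (bar α) * cl β + cl β * cl (bar α) : Module.End A (FF → A)) =
      (cre A A (bar α) * cre A A β + cre A A β * cre A A (bar α)) -
      (ann A A (bar β) * cre A A (bar α) + cre A A (bar α) * ann A A (bar β)) -
      (ann A A α * cre A A β + cre A A β * ann A A α) +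
      (ann A A α * ann A A (bar β) + ann A A (bar β) * ann A A α) := by
    simp only [cl, bar_bar, sub_mul, mul_sub]
    abel
  rw [cre_cre, ann_cre, ann_cre, ann_ann] at e
  refine (LinearMap.congr_fun e x).trans ?_
  by_cases h : α = β
  · simp [h, sub_eq_add_neg]
  · have h' : bar β ≠ bar α := fun k => h (by rw [← bar_bar α, ← k, bar_bar])
    simp [h, h']

theorem omW_cl {w w' : Wt} {x : FF → A} (hx : B.OmW w x) (α : Fin 4) (h : w = w' + wt α) :
    B.OmW w' (cl α x) := fun S =>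
  sub_mem (hx.cre α h S) (hx.ann (bar α) (by rw [h, wt_bar, add_neg_cancel_right]) S)

theorem sgn : ∀ (α : Fin 4) (S : FF), α ∉ S →
    bs S * cs α Sᶜ * bs (Sᶜ.erase α) = cs α S ∧ (Sᶜ.erase α)ᶜ = insert α S := by
  decide +kernel

theorem bs_sq : ∀ S : FF, bs S * bs S = 1 := by decide +kernel

theorem hstar_cre (α : Fin 4) (y : FF → A) : hstar (cre A A α (hstar y)) = ann A A α y := by
  funext S
  rw [hstar, cre_apply, ann_apply]
  by_cases h : α ∈ S
  · simp [h]
  · rw [if_pos (Finset.mem_compl.2 h), if_neg h, hstar, star_zsmul, star_zsmul, star_star,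
      smul_smul, smul_smul, (sgn α S h).1, (sgn α S h).2]

/-- The pointwise inner product of forms. -/
def hp : (FF → A) →+ (FF → A) →+ A :=
  AddMonoidHom.mk' (fun x => AddMonoidHom.mk' (fun y => ∑ S, star (x S) * y S) fun y y' => by
    simp only [Pi.add_apply, mul_add, Finset.sum_add_distrib]) fun x x' =>
      AddMonoidHom.ext fun y => by
        simp only [AddMonoidHom.mk'_apply, AddMonoidHom.add_apply, Pi.add_apply, star_add, add_mul,
          Finset.sum_add_distrib]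

theorem hp_apply (x y : FF → A) : hp x y = ∑ S, star (x S) * y S := rfl

theorem hp_eq (x y : FF → A) : hp x y = bb (hstar x) y := by
  rw [hp_apply, bb]
  refine (Fintype.sum_bijective _ compl_bijective _ _ fun S => ?_).symm
  rw [hstar, smul_mul_assoc, smul_smul, bs_sq, one_smul]

theorem hp_star (x y : FF → A) : star (hp x y) = hp y x := by
  simp only [hp_apply, star_sum, star_mul, star_star]

theorem hp_cre (α : Fin 4) (x y : FF → A) : hp x (cre A A α y) = hp (ann A A α x) y := by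
  rw [hp_eq, hp_eq, ← bb_cre, ← hstar_cre, hstar_hstar]

theorem hp_ann (α : Fin 4) (x y : FF → A) : hp x (ann A A α y) = hp (cre A A α x) y := by
  rw [← hp_star, ← hp_cre, hp_star]

theorem hp_cl (α : Fin 4) (x y : FF → A) : hp (cl α x) y = -hp x (cl (bar α) y) := by
  rw [cl_apply, cl_apply, bar_bar, map_sub, map_sub, AddMonoidHom.sub_apply, hp_cre, hp_ann, neg_sub]

variable (G : Pre B)

/-- The componentwise derivative. -/
def dv (α : Fin 4) : (FF → A) →ₗ[ℂ] (FF → A) := (G.D α).compLeft FF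

theorem dv_apply (α : Fin 4) (x : FF → A) (S : FF) : dv G α x S = G.D α (x S) := rfl

theorem dv_cl (α β : Fin 4) (x : FF → A) : dv G α (cl β x) = cl β (dv G α x) := by
  funext S
  simp only [cl_apply, dv_apply, Pi.sub_apply, cre_apply, ann_apply, map_sub, apply_ite (G.D α),
    map_zsmul, map_zero]

theorem dv_hstar (α : Fin 4) (x : FF → A) : dv G α (hstar x) = hstar (dv G (bar α) x) := by
  funext S
  simp only [dv_apply, hstar, map_zsmul, G.D_star, bar_bar]

/-- The leading part. -/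
def l0 : (FF → A) →ₗ[ℂ] (FF → A) := ∑ α, (cl α).restrictScalars ℂ ∘ₗ dv G α

theorem l0_apply (x : FF → A) : l0 G x = ∑ α, cl α (dv G α x) := by
  rw [l0, LinearMap.sum_apply]
  rfl

theorem l0_om (x : FF → A) (hx : B.Om x) : B.Om (l0 G x) := by
  rw [Base.om_iff, l0_apply]
  exact Base.OmW.sum fun α => omW_cl (w := wt α) (fun S => G.D_mem α (hx S)) α (zero_add _).symm

/-- The torsion term of `d`. -/
def tm : Module.End A (FF → A) :=
  ∑ α, ∑ β, ∑ γ, ((1 / 2 : ℂ) • G.T α β γ) • (cre A A α * cre A A β * ann A A γ)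

theorem tm_apply (x : FF → A) : tm G x =
    ∑ α, ∑ β, ∑ γ, ((1 / 2 : ℂ) • G.T α β γ) • cre A A α (cre A A β (ann A A γ x)) := by
  simp only [tm, LinearMap.sum_apply, LinearMap.smul_apply, Module.End.mul_apply]

theorem tm_om {w : Wt} {x : FF → A} (hx : B.OmW w x) : B.OmW w (tm G x) := by
  rw [tm_apply]
  exact Base.OmW.sum fun α => Base.OmW.sum fun β => Base.OmW.sum fun γ =>
    (((hx.ann γ rfl).cre (w' := w + wt γ - wt β) β (by abel)).cre (w' := w + wt γ - wt β - wt α) α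
      (by abel)).smul (Submodule.smul_mem _ _ (G.T_mem α β γ)) (by abel)

theorem hstar_smul' (s : A) (x : FF → A) : hstar (s • x) = star s • hstar x :=
  funext fun S => by simp [hstar, mul_left_comm]

theorem omW_hstar {w : Wt} {x : FF → A} (hx : B.OmW w x) : B.OmW (-w) (hstar x) := fun S =>
  zsmul_mem (B.star_mem' (hx Sᶜ) (by rw [neg_add, wF_compl])) _

/-- The part of order zero. -/
def z0 : Module.End A (FF → A) where
  toFun x := hstar (tm G (hstar x)) - tm G x
  map_add' x y := by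
    rw [hstar_add, map_add, hstar_add, map_add]
    abel
  map_smul' s x := by
    rw [hstar_smul', map_smul, hstar_smul', star_star, map_smul, smul_sub, RingHom.id_apply]

theorem z0_om {w : Wt} {x : FF → A} (hx : B.OmW w x) : B.OmW w (z0 G x) := fun S =>
  sub_mem (neg_neg w ▸ omW_hstar (tm_om G (omW_hstar hx)) S) (tm_om G hx S)

theorem dF_eq (x : FF → A) : G.dF x - hstar (G.dF (hstar x)) = l0 G x + z0 G x := by
  have e : ∀ y, G.dF y = ∑ α, cre A A α (dv G α y) - tm G y := fun y => by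
    rw [G.dF_apply, tm_apply]
    rfl
  have h : ∀ y, AddMonoidHom.mk' (hstar (A := A)) hstar_add y = hstar y := fun _ => rfl
  rw [e, e, ← h, map_sub, map_sum, l0_apply]
  simp only [h, dv_hstar, hstar_cre, cl_apply, Finset.sum_sub_distrib]
  rw [← sum_bar fun α => ann A A α (dv G (bar α) x)]
  simp only [bar_bar]
  change _ = _ + (hstar (tm G (hstar x)) - tm G x)
  abel

theorem omW_single (T : FF) : B.OmW (-wF T) fun S => if T = S then (1 : A) else 0 := fun S => by
  beta_reduce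
  split_ifs with h
  · rw [h, add_neg_cancel]
    exact B.one_mem
  · exact zero_mem _

theorem expand (L : Module.End A (FF → A)) (x : FF → A) (S : FF) :
    L x S = ∑ T, L (fun S => if T = S then 1 else 0) S * x T := by
  rw [LinearMap.pi_apply_eq_sum_univ, Finset.sum_apply]
  exact Finset.sum_congr rfl fun T _ => mul_comm _ _

/-- The leading part on sections. -/
def LS : G.Sec wF →ₗ[ℝ] G.Sec wF := (G.opS (l0 G) (l0_om G)).restrictScalars ℝ

/-- The part of order zero on sections. -/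
def ZS : G.Sec wF →ₗ[ℝ] G.Sec wF :=
  (G.opS ((z0 G).restrictScalars ℂ) fun _ hx =>
    Base.om_iff.2 (z0_om G (Base.om_iff.1 hx))).restrictScalars ℝ

theorem DS_eq : G.DS = LS G + ZS G := LinearMap.ext fun x => Pre.Sec.ext fun S =>
  (sub_eq_add_neg (G.dF x.c S) _).symm.trans (congrFun (dF_eq G x.c) S)

theorem ZS_zo : Pre.IsZO (ZS G) :=
  ⟨fun S T => z0 G (fun S => if T = S then 1 else 0) S, 0, fun S T => by
    rw [sub_eq_add_neg]
    exact z0_om G (omW_single T) S, fun _ _ => zero_mem _, fun s S => by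
      simp only [Pi.zero_apply, zero_mul, add_zero]
      exact expand (z0 G) s.c S⟩

theorem LS_fo : Pre.IsFO (LS G) :=
  ⟨fun α S T => cl α (fun S => if T = S then 1 else 0) S, 0, 0, fun α S T => by
    rw [sub_sub, sub_eq_add_neg]
    exact omW_cl (omW_single T) α (by abel) S, fun _ _ _ => zero_mem _, Pre.IsZO.zero, fun s S => by
      simp only [Pi.zero_apply, zero_mul, add_zero, LinearMap.zero_apply, Pre.Sec.c_zero, zero_add]
      rw [Finset.sum_comm]
      refine (congrFun (l0_apply G s.c) S).trans ?_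
      rw [Finset.sum_apply]
      exact Finset.sum_congr rfl fun α _ => expand (cl α) _ S⟩

theorem swap (u : Wt) (α β : Fin 4) : ∃ C : ℝ, 0 ≤ C ∧ ∀ a ∈ B.W u, ∀ b ∈ B.W (u + (wt α - wt β)),
    (G.I (star (G.D (bar β) a) * G.D (bar α) b)).re ≤
      (G.I (star (G.D α a) * G.D β b)).re + C * G.nn 1 a * G.nrm b := by
  obtain ⟨C, hC, h⟩ := G.dirac_comm_le u (bar β) α
  refine ⟨C, hC, fun a ha b hb => ?_⟩
  have h1 := G.dirac_adjDt (bar β) (G.D_mem α ha) hb (by rw [wt_bar]; abel)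
  have h2 := G.dirac_adjDt α (G.D_mem (bar β) ha) hb (by rw [wt_bar]; abel)
  have h3 := G.dirac_re_le (G.Dt (bar β) (G.D α a) - G.Dt α (G.D (bar β) a)) b
  have h4 := mul_le_mul_of_nonneg_right (h a ha) (G.nrm_nonneg b)
  rw [star_sub, sub_mul, map_sub, Complex.sub_re, h1, h2, Complex.neg_re, Complex.neg_re,
    bar_bar] at h3
  linarith

theorem nrm_cl {n : ℝ} {x : FF → A} (h : ∀ S, G.nrm (x S) ≤ n) (α : Fin 4) (S : FF) :
    G.nrm (cl α x S) ≤ 2 * n := by
  have k : ∀ β T, G.nrm (cs β S • x T) ≤ n := fun β T => by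
    rcases neg_one_pow_eq_or ℤ (S.filter (· < β)).card with e | e <;> rw [cs, e]
    · rw [one_smul]
      exact h T
    · rw [neg_smul, one_smul, G.nrm_neg]
      exact h T
  have k0 : G.nrm 0 ≤ n := G.nrm_zero.trans_le ((G.nrm_nonneg _).trans (h ∅))
  rw [two_mul]
  refine (G.dirac_nrm_sub _ _).trans (add_le_add ?_ ?_)
  · rw [cre_apply]
    split_ifs
    exacts [k _ _, k0]
  · rw [ann_apply]
    split_ifs
    exacts [k0, k _ _]

theorem garding : ∃ C : ℝ, ∀ s : G.Sec wF,
    ∑ S, ∑ α, G.nrm (G.D α (s.c S)) ^ 2 ≤ 4 * ‖LS G s‖ ^ 2 + C * ‖s‖ ^ 2 := by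
  choose C hC h using swap G
  refine ⟨1 + 160 * ∑ S, (∑ α, ∑ β, C (wF S) α β) ^ 2, fun s => ?_⟩
  let F : Fin 4 → Fin 4 → (FF → A) →+ ℝ := fun α β =>
    Complex.reAddGroupHom.comp (G.I.toAddMonoidHom.comp
      ((hp (dv G α s.c)).comp (dv G β).toAddMonoidHom))
  have hF : ∀ α β y, F α β y = (G.I (hp (dv G α s.c) (dv G β y))).re := fun _ _ _ => rfl
  have hF' : ∀ α β y, F α β y = ∑ S, (G.I (star (G.D α (s.c S)) * G.D β (y S))).re :=
    fun α β y => by simp only [hF, hp_apply, map_sum, Complex.re_sum, dv_apply]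
  have e1 : ‖LS G s‖ ^ 2 = ∑ α, ∑ β, F α β (-cl (bar α) (cl β s.c)) := by
    have : ‖LS G s‖ ^ 2 = (G.I (hp (l0 G s.c) (l0 G s.c))).re := by
      rw [← real_inner_self_eq_norm_sq, Pre.inner_real, hp_apply, map_sum, Complex.re_sum]
      rfl
    rw [this, l0_apply, map_sum (hp (A := A)), AddMonoidHom.finsetSum_apply]
    simp only [map_sum, Complex.re_sum, hp_cl, hF, map_neg, dv_cl]
  have e2 : ∑ α, ∑ β, F (bar β) (bar α) (-cl (bar α) (cl β s.c)) =
      ∑ α, ∑ β, F α β (-cl β (cl (bar α) s.c)) := by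
    rw [Finset.sum_comm, ← sum_bar]
    refine Finset.sum_congr rfl fun α _ => ?_
    rw [← sum_bar]
    simp only [bar_bar]
  have e3 : ∑ α, ∑ β, F α β (-cl (bar α) (cl β s.c)) + ∑ α, ∑ β, F α β (-cl β (cl (bar α) s.c)) =
      2 * ∑ S, ∑ α, G.nrm (G.D α (s.c S)) ^ 2 := by
    simp only [← Finset.sum_add_distrib, ← map_add, ← neg_add, cl_cl]
    rw [Finset.sum_comm (s := Finset.univ (α := FF)), Finset.mul_sum]
    refine Finset.sum_congr rfl fun α _ => ?_
    rw [Finset.sum_eq_single α (fun β _ k => by rw [if_neg k.symm, neg_zero, map_zero])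
      (fun k => absurd (Finset.mem_univ α) k), if_pos rfl, neg_neg, map_add, hF', two_mul]
    simp only [G.nrm_sq]
  have e4 : ∀ α β, F (bar β) (bar α) (-cl (bar α) (cl β s.c)) ≤ F α β (-cl (bar α) (cl β s.c)) +
      ∑ S, C (wF S) α β * G.nn 1 (s.c S) * (4 * ‖s‖) := fun α β => by
    rw [hF', hF', ← Finset.sum_add_distrib]
    refine Finset.sum_le_sum fun S _ => (h _ α β _ (s.mem S) _ (neg_mem (omW_cl (omW_cl (w' := -wt β)
      (Base.om_iff.1 s.mem) β (by abel)) (bar α) (by rw [wt_bar]; abel) S))).trans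
        (add_le_add_right (mul_le_mul_of_nonneg_left ?_
          (mul_nonneg (hC _ _ _) (G.nn_nonneg _ _))) _)
    rw [G.nrm_neg]
    exact (nrm_cl G (nrm_cl G s.nrm_le_norm β) _ S).trans_eq (by ring)
  have e5 : ∑ α, ∑ β, F (bar β) (bar α) (-cl (bar α) (cl β s.c)) ≤ ‖LS G s‖ ^ 2 +
      ∑ S, (∑ α, ∑ β, C (wF S) α β) * G.nn 1 (s.c S) * (4 * ‖s‖) := by
    refine (Finset.sum_le_sum fun α _ => Finset.sum_le_sum fun β _ => e4 α β).trans_eq ?_
    simp only [Finset.sum_add_distrib, e1, Finset.sum_mul]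
    rw [Finset.sum_comm (s := Finset.univ (α := FF))]
    exact congrArg _ (Finset.sum_congr rfl fun α _ => Finset.sum_comm)
  have e6 := Finset.sum_le_sum fun S (_ : S ∈ Finset.univ) =>
    G.dirac_young (∑ α, ∑ β, C (wF S) α β) (4 * ‖s‖) (s.c S)
  rw [Finset.sum_add_distrib, Finset.sum_add_distrib, ← Finset.sum_div, ← Finset.sum_div,
    ← Pre.norm_sq_eq,
    ← Finset.sum_mul (f := fun S => 10 * (∑ α, ∑ β, C (wF S) α β) ^ 2), ← Finset.mul_sum] at e6
  have p1 : 0 ≤ ∑ S, ∑ α, G.nrm (G.D α (s.c S)) ^ 2 := by positivity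
  rw [← e1, ← e2] at e3
  nlinarith [sq_nonneg ‖s‖, sq_nonneg ‖LS G s‖]

theorem gar : ∃ C : ℝ, ∀ s : G.Sec wF, s.nS 1 ≤ C * (‖LS G s‖ + ‖s‖) := by
  obtain ⟨C, h⟩ := garding G
  refine ⟨Fintype.card FF * (1 + 4 * (2 + |C|)), fun s => ?_⟩
  have n1 := norm_nonneg (LS G s)
  have n2 := norm_nonneg s
  have hD : ∀ i α, G.nrm (G.D α (s.c i)) ≤ (2 + |C|) * (‖LS G s‖ + ‖s‖) := by
    intro i α
    refine abs_le_of_sq_le_sq' ?_ (by positivity) |>.2
    have h1 : G.nrm (G.D α (s.c i)) ^ 2 ≤ ∑ i, ∑ α, G.nrm (G.D α (s.c i)) ^ 2 :=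
      (Finset.single_le_sum (f := fun α => G.nrm (G.D α (s.c i)) ^ 2) (fun _ _ => sq_nonneg _)
        (Finset.mem_univ α)).trans (Finset.single_le_sum
          (f := fun i => ∑ α, G.nrm (G.D α (s.c i)) ^ 2)
          (fun _ _ => Finset.sum_nonneg fun _ _ => sq_nonneg _) (Finset.mem_univ i))
    refine (h1.trans (h s)).trans ?_
    have a0 := abs_nonneg C
    have a1 := mul_le_mul_of_nonneg_right (le_abs_self C) (sq_nonneg ‖s‖)
    have a2 : ‖LS G s‖ ^ 2 + ‖s‖ ^ 2 ≤ (‖LS G s‖ + ‖s‖) ^ 2 := by nlinarith [mul_nonneg n1 n2]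
    have a3 : 4 + |C| ≤ (2 + |C|) ^ 2 := by nlinarith
    rw [mul_pow]
    nlinarith [mul_le_mul a3 a2 (by positivity) (by positivity),
      mul_nonneg a0 (sq_nonneg ‖LS G s‖), sq_nonneg ‖s‖]
  have hi : ∀ i, G.nn 1 (s.c i) ≤ (1 + 4 * (2 + |C|)) * (‖LS G s‖ + ‖s‖) := by
    intro i
    change G.nrm (s.c i) + ∑ α, G.nrm (G.D α (s.c i)) ≤ _
    rw [Fin.sum_univ_four]
    linarith [s.nrm_le_norm i, hD i 0, hD i 1, hD i 2, hD i 3]
  refine (Finset.sum_le_sum fun i _ => hi i).trans_eq ?_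
  rw [Finset.sum_const, Finset.card_univ, nsmul_eq_mul, mul_assoc]

end LefEll

open LefEll in
theorem Pre.DS_ell (G : Pre B) : Pre.Ell G.DS G.DS := by
  have h1 : Pre.IsFO G.DS := DS_eq G ▸ (LS_fo G).add (ZS_zo G).isFO
  have h2 : ∃ C : ℝ, ∀ s, s.nS 1 ≤ C * (‖G.DS s‖ + ‖s‖) := DS_eq G ▸ Pre.fo_gar (ZS_zo G) (gar G)
  refine ⟨h1, h1, fun s t => congrArg Complex.re (?_ : inner ℂ _ _ = inner ℂ _ _), h2, h2⟩
  rw [G.DS_apply, G.DS_apply, inner_add_left, inner_add_right, G.dS_adj, add_comm,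
    ← inner_conj_symm (G.δS s), ← G.dS_adj, inner_conj_symm]

end SX4
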