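import Pool.Agent.P.MP_0a0487_an.SX.LefEll
import Pool.Agent.P.MP_0a0487_an.SX.Spec

/-! Hodge theory and spectral subspaces. -/

set_option autoImplicit false
set_option linter.unusedSectionVars false

noncomputable section

namespace SX4

open scoped ComplexOrder ContDiff
open Filter Topology

variable {P A : Type} [TopologicalSpace P] [CompactSpace P] [CommRing A] [StarRing A] [Algebra ℂ A]
  [StarModule ℂ A] {B : Base P A}

theorem Pre.LefHodge_ker (G : Pre B) {x : G.Sec wF} : G.DS x = 0 ↔ x ∈ G.Hm := by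
  rw [G.mem_Hm, G.DS_apply]
  refine ⟨fun h => ?_, fun h => by rw [h.1, h.2, add_zero]⟩
  have h1 : G.dS x = -G.δS x := eq_neg_of_add_eq_zero_left h
  have h2 : inner ℂ (G.dS x) (G.dS x) = 0 := by
    nth_rewrite 2 [h1]
    rw [inner_neg_right, G.dS_adj, G.δS_δS, inner_zero_right, neg_zero]
  rw [inner_self_eq_zero] at h2
  exact ⟨h2, by rwa [h2, zero_add] at h⟩

theorem Geo.LefHodge_tail (G : Geo B) (k : ℕ) : ∃ C : ℝ, 0 ≤ C ∧ ∀ (Λ : ℝ) p, 0 ≤ Λ →
    IsOP (eig G.DS G.DS Λ) p → ∀ s, Λ * (s - p s).nS k ≤ C * s.nS (k + 1) := by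
  have hP := G.pair G.DS_ell
  induction k with
  | zero =>
    obtain ⟨C, hC, h⟩ := G.DS_ell.fo.nS_le 0
    refine ⟨Fintype.card FF * C, by positivity, fun Λ p hΛ hp s => ?_⟩
    have h1 := mul_le_mul_of_nonneg_left (s - p s).nS_zero_le hΛ
    have h2 := mul_le_mul_of_nonneg_left
      (((hP.tail hp s).trans ((G.DS s).norm_le_nS 0)).trans (h s))
      (Nat.cast_nonneg (Fintype.card FF))
    linarith
  | succ k ih =>
    obtain ⟨C, hC, h⟩ := ih
    obtain ⟨C₁, hC₁, h1⟩ := G.DS_ell.fo.est G.DS_ell.gar k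
    obtain ⟨C₂, hC₂, h2⟩ := G.DS_ell.fo.nS_le (k + 1)
    refine ⟨C₁ * (C * (C₂ + 1)), by positivity, fun Λ p hΛ hp s => ?_⟩
    have a1 := mul_le_mul_of_nonneg_left (h1 (s - p s)) hΛ
    rw [map_sub, ← hP.op_comm hp hp] at a1
    have a2 := (h Λ p hΛ hp (G.DS s)).trans (mul_le_mul_of_nonneg_left (h2 s) hC)
    have a3 := (h Λ p hΛ hp s).trans
      (mul_le_mul_of_nonneg_left (s.nS_mono (Nat.le_succ (k + 1))) hC)
    have a4 := mul_le_mul_of_nonneg_left (add_le_add a2 a3) hC₁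
    linarith

theorem Pre.LefHodge_sq (G : Pre B) (x : G.Sec wF) :
    G.DS (G.DS x) = G.dS (G.δS x) + G.δS (G.dS x) := by
  simp only [G.DS_apply, map_add, G.dS_dS, G.δS_δS, zero_add, add_zero]

theorem Pre.LefHodge_inv (G : Pre B) (Λ : ℝ) (j : G.Sec wF →ₗ[ℂ] G.Sec wF)
    (hj : ∀ s, G.dS (G.δS (j s)) + G.δS (G.dS (j s)) = j (G.dS (G.δS s) + G.δS (G.dS s)))
    {s : G.Sec wF} (hs : s ∈ eig G.DS G.DS Λ) : j s ∈ eig G.DS G.DS Λ :=
  eig_symm Λ (j.restrictScalars ℝ) (fun s => by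
    rw [LinearMap.restrictScalars_apply, LinearMap.restrictScalars_apply, G.LefHodge_sq,
      G.LefHodge_sq, hj]) hs

theorem LefHodge_fd {V : Type} [AddCommGroup V] [Module ℝ V] [Module ℂ V] [IsScalarTower ℝ ℂ V]
    (E : Submodule ℂ V) (E' : Submodule ℝ V) [FiniteDimensional ℝ E'] (h : ∀ s, s ∈ E ↔ s ∈ E') :
    FiniteDimensional ℂ E := by
  have e : E.restrictScalars ℝ = E' := Submodule.ext h
  have : FiniteDimensional ℝ (E.restrictScalars ℝ) := e ▸ inferInstance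
  have : FiniteDimensional ℝ E := this
  exact Module.Finite.of_restrictScalars_finite ℝ ℂ E

theorem Geo.Hm_fd (G : Geo B) : FiniteDimensional ℂ G.Hm := by
  have := (G.pair G.DS_ell).ker_fd
  exact LefHodge_fd _ (LinearMap.ker G.DS) fun _ => G.LefHodge_ker.symm

theorem Geo.hodge_dec (G : Geo B) {x : G.Sec wF} (hx : G.dS x = 0) :
    ∃ h ∈ G.Hm, ∃ y, x = h + G.dS y := by
  have hP := G.pair G.DS_ell
  have := hP.ker_fd
  obtain ⟨p, hp⟩ := exists_isOP (LinearMap.ker G.DS)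
  obtain ⟨s, hs⟩ := hP.solve (g := x - p x) fun t ht => hp.2 x t ht
  have h1 : p x ∈ G.Hm := G.LefHodge_ker.1 (hp.1 x)
  have h2 := congrArg G.dS hs
  rw [G.DS_apply, map_add, map_sub, G.dS_dS, hx, (G.mem_Hm.1 h1).1, zero_add, sub_zero] at h2
  have h3 := G.dS_adj (G.δS s) s
  rw [h2, inner_zero_left, eq_comm, inner_self_eq_zero] at h3
  rw [G.DS_apply, h3, add_zero] at hs
  exact ⟨p x, h1, s, by rw [hs, add_sub_cancel]⟩

theorem Geo.exists_spec (G : Geo B) {ε : ℝ} (hε : 0 < ε) : ∃ E : Submodule ℂ (G.Sec wF),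
    FiniteDimensional ℂ E ∧ G.Hm ≤ E ∧ (∀ x ∈ E, G.dS x ∈ E ∧ G.δS x ∈ E ∧ G.ΓS x ∈ E) ∧
      ∀ s, ∀ s' ∈ E, (∀ e ∈ E, inner ℂ e (s - s') = 0) → (s - s').nS 4 ≤ ε * s.nS 5 := by
  obtain ⟨C, hC, h⟩ := G.LefHodge_tail 4
  have hΛ : 0 < C / ε + 1 := by positivity
  have := (G.pair G.DS_ell).eig_fd (C / ε + 1)
  obtain ⟨p, hp⟩ := exists_isOP (eig G.DS G.DS (C / ε + 1))
  obtain ⟨E, hE⟩ : ∃ E : Submodule ℂ (G.Sec wF), ∀ s, s ∈ E ↔ s ∈ eig G.DS G.DS (C / ε + 1) :=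
    ⟨{ carrier := eig G.DS G.DS (C / ε + 1)
       add_mem' := add_mem
       zero_mem' := zero_mem _
       smul_mem' := fun z _ hs => G.LefHodge_inv _ (z • LinearMap.id)
         (fun s => by simp only [LinearMap.smul_apply, LinearMap.id_apply, map_smul, smul_add]) hs },
      fun _ => Iff.rfl⟩
  refine ⟨E, LefHodge_fd E _ hE, fun x hx => (hE x).2 (ker_le_eig _ _ _ (G.LefHodge_ker.2 hx)),
    fun x hx => ?_, fun s s' hs' ho => ?_⟩
  · rw [hE] at hx
    simp only [hE]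
    refine ⟨G.LefHodge_inv _ _ (fun s => ?_) hx, G.LefHodge_inv _ _ (fun s => ?_) hx,
      G.LefHodge_inv _ _ (fun s => ?_) hx⟩
    · simp only [map_add, G.dS_dS, map_zero, zero_add, add_zero]
    · simp only [map_add, G.δS_δS, map_zero, zero_add, add_zero]
    · simp only [map_add, G.dS_ΓS, G.δS_ΓS, map_neg, neg_neg]
  · have h1 : p s = s' := hp.eq_of ((hE _).1 hs') fun v hv => by
      rw [real_inner_comm]
      exact congrArg Complex.re (ho v ((hE v).2 hv))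
    have h2 := h _ p hΛ.le hp s
    rw [h1] at h2
    refine le_of_mul_le_mul_left (h2.trans ?_) hΛ
    rw [← mul_assoc, add_mul, div_mul_cancel₀ _ hε.ne']
    exact mul_le_mul_of_nonneg_right (by linarith) (s.nS_nonneg _)

end SX4
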