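import Pool.Agent.P.MP_0a0487_an.SX.LefHodge

/-! Harmonic forms represent cohomology. -/

set_option autoImplicit false
set_option linter.unusedSectionVars false

noncomputable section

namespace SX4

open scoped ComplexOrder ContDiff
open Filter Topology

theorem LefPD_abs {V U U' : Type} [NormedAddCommGroup V] [InnerProductSpace ℂ V] [AddCommGroup U]
    [Module ℂ U] [AddCommGroup U'] [Module ℂ U'] (H : Submodule ℂ V) (Z : Submodule ℂ U)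
    (d : U' →ₗ[ℂ] U) (j : U →ₗ[ℂ] V) (hj : Function.Injective j)
    (h1 : ∀ h ∈ H, ∃ a : Z, h = j a) (h2 : ∀ e ∈ H, ∀ u, inner ℂ e (j (d u)) = 0)
    (h3 : ∀ a ∈ Z, ∃ h ∈ H, ∃ u, j a = h + j (d u)) :
    ∃ ι : H ≃ₗ[ℂ] Z ⧸ (LinearMap.range d).submoduleOf Z, ∀ (h : H) (a : Z),
      (∀ e ∈ H, inner ℂ e h.1 = inner ℂ e (j a)) → ι h = Submodule.Quotient.mk a := by
  obtain ⟨r, hr⟩ := j.exists_leftInverse_of_injective (LinearMap.ker_eq_bot.2 hj)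
  have hr' : ∀ u, r (j u) = u := fun u => LinearMap.congr_fun hr u
  let φ : H →ₗ[ℂ] Z := (r ∘ₗ H.subtype).codRestrict Z fun h => by
    obtain ⟨a, ha⟩ := h1 h.1 h.2
    change r h.1 ∈ Z
    rw [ha, hr']
    exact a.2
  have hφ : ∀ h : H, j (φ h) = h.1 := fun h => by
    obtain ⟨a, ha⟩ := h1 h.1 h.2
    change j (r h.1) = h.1
    rw [ha, hr']
  let ψ : H →ₗ[ℂ] Z ⧸ (LinearMap.range d).submoduleOf Z := Submodule.mkQ _ ∘ₗ φ
  have key : ∀ (h : H) (a : Z) u, j a = h + j (d u) → ψ h = Submodule.Quotient.mk a := by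
    intro h a u hu
    have h4 : a - φ h ∈ (LinearMap.range d).submoduleOf Z := ⟨u, hj (by
      change j (d u) = j (a.1 - (φ h).1)
      rw [map_sub, hφ, hu, add_sub_cancel_left])⟩
    exact ((Submodule.Quotient.eq _).2 h4).symm
  have hb : Function.Bijective ψ := by
    refine ⟨(injective_iff_map_eq_zero ψ).2 fun h hh => ?_, fun q => ?_⟩
    · obtain ⟨u, hu⟩ := (Submodule.Quotient.mk_eq_zero _).1 hh
      have h4 := h2 h.1 h.2 u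
      rw [hu] at h4
      exact Subtype.ext (inner_self_eq_zero.1 ((congrArg _ (hφ h).symm).trans h4))
    · obtain ⟨a, rfl⟩ := Submodule.Quotient.mk_surjective _ q
      obtain ⟨h, hh, u, hu⟩ := h3 a.1 a.2
      exact ⟨⟨h, hh⟩, key _ a u hu⟩
  refine ⟨LinearEquiv.ofBijective ψ hb, fun h a ha => ?_⟩
  obtain ⟨h', hh, u, hu⟩ := h3 a.1 a.2
  have h4 := ha _ (sub_mem h.2 hh)
  rw [hu, inner_add_right, h2 _ (sub_mem h.2 hh), add_zero, ← sub_eq_zero, ← inner_sub_right,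
    inner_self_eq_zero, sub_eq_zero] at h4
  exact key h a u (h4 ▸ hu)

variable {P A : Type} [TopologicalSpace P] [CompactSpace P] [CommRing A] [StarRing A] [Algebra ℂ A]
  [StarModule ℂ A] {B : Base P A}

/-- A 1-form as a section. -/
def Pre.LefPDj1 (G : Pre B) : B.F1 →ₗ[ℂ] G.Sec wF where
  toFun a := G.mk' (SX4.e1 a.1 (vac A)) (Base.Om.vac.e1 a.2)
  map_add' a b := Pre.Sec.ext (congrFun (by
    change SX4.e1 (a.1 + b.1) (vac A) = SX4.e1 a.1 (vac A) + SX4.e1 b.1 (vac A)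
    simp only [SX4.e1, Pi.add_apply, add_smul, Finset.sum_add_distrib, LinearMap.add_apply]))
  map_smul' c a := Pre.Sec.ext (congrFun (by
    change SX4.e1 (c • a.1) (vac A) = c • SX4.e1 a.1 (vac A)
    simp only [SX4.e1, Pi.smul_apply, LinearMap.sum_apply, LinearMap.smul_apply, smul_assoc,
      Finset.smul_sum]))

/-- A 2-form as a section. -/
def Pre.LefPDj2 (G : Pre B) : B.F2 →ₗ[ℂ] G.Sec wF where
  toFun b := G.mk' (e2 b.1 (vac A)) (Base.Om.vac.e2 b.2)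
  map_add' a b := Pre.Sec.ext (congrFun (by
    change e2 (a.1 + b.1) (vac A) = e2 a.1 (vac A) + e2 b.1 (vac A)
    simp only [e2, Pi.add_apply, smul_add, add_smul, Finset.sum_add_distrib, LinearMap.add_apply]))
  map_smul' c a := Pre.Sec.ext (congrFun (by
    change e2 (c • a.1) (vac A) = c • e2 a.1 (vac A)
    simp only [e2, Pi.smul_apply, LinearMap.sum_apply, LinearMap.smul_apply, smul_assoc,
      Finset.smul_sum, smul_comm c (1 / 2 : ℂ)]))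

namespace Pre

variable (G : Pre B)

theorem LefPD_c1 (a : B.F1) : (G.LefPDj1 a).c = SX4.e1 a.1 (vac A) := rfl

theorem LefPD_c2 (b : B.F2) : (G.LefPDj2 b).c = e2 b.1 (vac A) := rfl

theorem LefPD_ext {x y : G.Sec wF} (h : x.c = y.c) : x = y := Sec.ext (congrFun h)

theorem LefPD_inj1 : Function.Injective G.LefPDj1 := fun a b h =>
  Subtype.ext (funext fun α => by
    rw [← e1_vac a.1 α, ← e1_vac b.1 α, ← LefPD_c1 G, ← LefPD_c1 G, h])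

theorem LefPD_inj2 : Function.Injective G.LefPDj2 := fun a b h =>
  Subtype.ext (funext fun α => funext fun β => by
    rw [← e2_vac (fun α β => (a.2 α β).2) α β, ← e2_vac (fun α β => (b.2 α β).2) α β,
      ← LefPD_c2 G, ← LefPD_c2 G, h])

theorem LefPD_pr1 (x : G.Sec wF) : ∃ a, G.prS 1 x = G.LefPDj1 a :=
  ⟨⟨_, Base.Om.form1 x.mem⟩, G.LefPD_ext (prj_one x.c)⟩

theorem LefPD_pr2 (x : G.Sec wF) : ∃ b, G.prS 2 x = G.LefPDj2 b :=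
  ⟨⟨_, Base.Om.form2 x.mem⟩, G.LefPD_ext (prj_two x.c)⟩

theorem LefPD_d0 (s : B.W 0) :
    G.LefPDj1 (G.cx.d0 s) = G.dS (G.mk' (s.1 • vac A) (Base.Om.vac.smul s.2)) :=
  G.LefPD_ext (by
    change SX4.e1 (G.d0 s.1) (vac A) = G.dF (s.1 • vac A)
    rw [G.dF_smul, G.dF_vac, smul_zero, add_zero])

theorem LefPD_d1 (a : B.F1) : G.LefPDj2 (G.cx.d1 a) = G.dS (G.LefPDj1 a) :=
  G.LefPD_ext (by
    change e2 (G.d1 a.1) (vac A) = G.dF (SX4.e1 a.1 (vac A))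
    rw [G.dF_e1, G.dF_vac, map_zero, sub_zero])

theorem LefPD_z1 (a : B.F1) : a ∈ G.cx.Z1 ↔ G.dS (G.LefPDj1 a) = 0 := by
  rw [← LefPD_d1, LinearMap.mem_ker, map_eq_zero_iff _ G.LefPD_inj2]

theorem LefPD_z2 (b : B.F2) : b ∈ G.cx.Z2 ↔ G.dS (G.LefPDj2 b) = 0 :=
  (G.closed_iff b.2).trans ⟨fun h => G.LefPD_ext h, fun h => congrArg Sec.c h⟩

theorem LefPD_pr_d (k : ℕ) (y : G.Sec wF) : G.prS (k + 1) (G.dS y) = G.dS (G.prS k y) :=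
  G.LefPD_ext (G.dF_prj k y.c).1.symm

theorem LefPD_orth {k : ℕ} {e : G.Sec wF} (he : e ∈ G.Hk k) (y : G.Sec wF) :
    inner ℂ e (G.dS y) = 0 := by
  rw [← inner_conj_symm, dS_adj, (G.mem_Hm.1 (G.mem_Hk.1 he).1).2, inner_zero_right, map_zero]

theorem LefPD_rep1 : ∀ h ∈ G.Hk 1, ∃ a : G.cx.Z1, h = G.LefPDj1 a := fun h hh => by
  obtain ⟨a, ha⟩ := G.LefPD_pr1 h
  rw [(G.mem_Hk.1 hh).2] at ha
  exact ⟨⟨a, (G.LefPD_z1 a).2 (ha ▸ (G.mem_Hm.1 (G.mem_Hk.1 hh).1).1)⟩, ha⟩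

theorem LefPD_rep2 : ∀ h ∈ G.Hk 2, ∃ b : G.cx.Z2, h = G.LefPDj2 b := fun h hh => by
  obtain ⟨a, ha⟩ := G.LefPD_pr2 h
  rw [(G.mem_Hk.1 hh).2] at ha
  exact ⟨⟨a, (G.LefPD_z2 a).2 (ha ▸ (G.mem_Hm.1 (G.mem_Hk.1 hh).1).1)⟩, ha⟩

end Pre

theorem Geo.LefPD_dec (G : Geo B) (k : ℕ) {x : G.Sec wF} (hx : G.dS x = 0)
    (hk : G.prS (k + 1) x = x) : ∃ h ∈ G.Hk (k + 1), ∃ y, x = h + G.dS (G.prS k y) := by
  obtain ⟨h, hh, y, hy⟩ := G.hodge_dec hx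
  refine ⟨_, G.Hm_pr hh (k + 1), y, ?_⟩
  rw [← G.LefPD_pr_d, ← map_add, ← hy, hk]

theorem Geo.LefPD_dec1 (G : Geo B) : ∀ a ∈ G.cx.Z1, ∃ h ∈ G.Hk 1, ∃ u,
    G.LefPDj1 a = h + G.LefPDj1 (G.cx.d0 u) := fun a ha => by
  obtain ⟨h, hh, y, hy⟩ := G.LefPD_dec 0 ((G.LefPD_z1 a).1 ha) (G.LefPD_ext (by
    change prj A A (0 + 1) (e1 a.1 (vac A)) = e1 a.1 (vac A)
    rw [(prj_e1 0 _ _).1, prj_vac, if_pos rfl]))
  refine ⟨h, hh, ⟨y.c ∅, (Base.Om.zero_mem y.mem).1⟩, ?_⟩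
  rw [G.LefPD_d0, hy]
  exact congrArg (fun z => h + G.dS z) (G.LefPD_ext (prj_zero y.c))

theorem Geo.LefPD_dec2 (G : Geo B) : ∀ b ∈ G.cx.Z2, ∃ h ∈ G.Hk 2, ∃ u,
    G.LefPDj2 b = h + G.LefPDj2 (G.cx.d1 u) := fun b hb => by
  obtain ⟨h, hh, y, hy⟩ := G.LefPD_dec 1 ((G.LefPD_z2 b).1 hb) (G.LefPD_ext (prj_e2 b.1))
  obtain ⟨a, ha⟩ := G.LefPD_pr1 y
  exact ⟨h, hh, a, by rw [G.LefPD_d1, ← ha, ← hy]⟩

theorem Geo.pd_zero (G : Geo B) :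
    G.mk' (vac A) (fun S => Base.Om.vac S) ∈ G.Hk 0 ∧ ∀ h ∈ G.Hk 0, ∃ c : ℂ, h.c = c • vac A := by
  have hv : prj A A 0 (vac A) = vac A := by rw [prj_vac, if_pos rfl]
  refine ⟨G.mem_Hk.2 ⟨G.mem_Hm.2 ⟨G.LefPD_ext G.dF_vac, G.LefPD_ext ?_⟩, G.LefPD_ext hv⟩,
    fun h hh => ?_⟩
  · change -hstar (G.dF (hstar (vac A))) = 0
    have h5 : ∀ S : FF, S.card ≠ 4 - 0 + 1 := by decide
    rw [← hv, hstar_prj (Nat.zero_le 4), (G.dF_prj _ _).1]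
    funext S
    simp only [hstar, Pi.neg_apply, prj_apply, if_neg (h5 _), star_zero, smul_zero, neg_zero,
      Pi.zero_apply]
  · have h1 : h.c = h.c ∅ • vac A := (congrArg Pre.Sec.c (G.mem_Hk.1 hh).2).symm.trans (prj_zero _)
    have h2 : G.dF h.c = 0 := congrArg Pre.Sec.c (G.mem_Hm.1 (G.mem_Hk.1 hh).1).1
    rw [h1, G.dF_smul, G.dF_vac, smul_zero, add_zero] at h2
    obtain ⟨c, hc⟩ := G.const _ (Base.Om.zero_mem h.mem).1 fun α =>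
      (e1_vac (G.d0 (h.c ∅)) α).symm.trans (congrFun h2 _)
    exact ⟨c, by rw [h1, hc, algebraMap_smul]⟩

theorem Geo.pd_one (G : Geo B) : ∃ ι : G.Hk 1 ≃ₗ[ℂ] G.cx.H1,
    (∀ h ∈ G.Hk 1, ∃ a : G.cx.Z1, h.c = e1 a.1.1 (vac A)) ∧ ∀ (h : G.Hk 1) (a : G.cx.Z1),
      (∀ e ∈ G.Hk 1, inner ℂ e h.1 = G.Bp (hstar e.c) (e1 a.1.1 (vac A))) →
        ι h = Submodule.Quotient.mk a := by
  obtain ⟨ι, hι⟩ := LefPD_abs (G.Hk 1) G.cx.Z1 G.cx.d0 G.LefPDj1 G.LefPD_inj1 G.LefPD_rep1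
    (fun e he u => by rw [G.LefPD_d0, G.LefPD_orth he]) G.LefPD_dec1
  exact ⟨ι, fun h hh => (G.LefPD_rep1 h hh).imp fun a ha => congrArg Pre.Sec.c ha,
    fun h a ha => hι h a fun e he => (ha e he).trans (G.inner_Bp e (G.LefPDj1 a)).symm⟩

theorem Geo.pd_two (G : Geo B) : ∃ ι : G.Hk 2 ≃ₗ[ℂ] G.cx.H2,
    (∀ h ∈ G.Hk 2, ∃ b : G.cx.Z2, h.c = e2 b.1.1 (vac A)) ∧ ∀ (h : G.Hk 2) (b : G.cx.Z2),
      (∀ e ∈ G.Hk 2, inner ℂ e h.1 = G.Bp (hstar e.c) (e2 b.1.1 (vac A))) →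
        ι h = Submodule.Quotient.mk b := by
  obtain ⟨ι, hι⟩ := LefPD_abs (G.Hk 2) G.cx.Z2 G.cx.d1 G.LefPDj2 G.LefPD_inj2 G.LefPD_rep2
    (fun e he u => by rw [G.LefPD_d1, G.LefPD_orth he]) G.LefPD_dec2
  exact ⟨ι, fun h hh => (G.LefPD_rep2 h hh).imp fun a ha => congrArg Pre.Sec.c ha,
    fun h a ha => hι h a fun e he => (ha e he).trans (G.inner_Bp e (G.LefPDj2 a)).symm⟩

/-- Finiteness and Poincare duality in the middle degree. -/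
theorem Geo.hodge_lef (G : Geo B) :
    G.cx.ND ∧ FiniteDimensional ℂ G.cx.H1 ∧ FiniteDimensional ℂ G.cx.H2 := by
  have := G.Hm_fd
  have hf : ∀ k, FiniteDimensional ℂ (G.Hk k) := fun k =>
    Submodule.finiteDimensional_of_le (inf_le_left : G.Hk k ≤ G.Hm)
  refine ⟨fun x hx h0 => ?_, ?_, ?_⟩
  · obtain ⟨h, hh, u, hu⟩ := G.LefPD_dec2 x hx
    obtain ⟨y, hy⟩ := G.LefPD_rep2 (G.mk' (hstar h.c) (Base.Om.hstar h.mem))
      (G.Hk_star (by norm_num : 2 ≤ 4) hh rfl)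
    have hy' : hstar h.c = e2 y.1.1 (vac A) := congrArg Pre.Sec.c hy
    have h1 : inner ℂ h (G.LefPDj2 x) = 0 := by
      have h2 : G.I (wg y.1.1 x.1) = 0 := (G.cx.B_symm y.1 x).trans (h0 y.1 y.2)
      rw [G.inner_Bp, hy', G.LefPD_c2, Pre.Bp, bb_e2, bb_vac,
        e2_top (fun α β => (y.1.2 α β).2) fun α β => (x.2 α β).2, map_neg, h2, neg_zero]
    rw [hu, inner_add_right, G.LefPD_d1, G.LefPD_orth hh, add_zero, inner_self_eq_zero] at h1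
    rw [h1, zero_add] at hu
    exact ⟨u, (G.LefPD_inj2 hu).symm⟩
  · obtain ⟨ι, -⟩ := G.pd_one
    have := hf 1
    exact ι.finiteDimensional
  · obtain ⟨ι, -⟩ := G.pd_two
    have := hf 2
    exact ι.finiteDimensional

end SX4
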