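import Pool.Agent.P.MP_0a0487_an.SX.LefCar
import Pool.Agent.P.MP_0a0487_an.SX.LefBiT
import Pool.Agent.P.MP_0a0487_an.SX.ThomA

/-! The Thom form of the diagonal is closed. -/

set_option autoImplicit false
set_option linter.unusedSectionVars false

noncomputable section

namespace SX4

open scoped ComplexOrder ContDiff
open Filter Topology

variable {P A : Type} [TopologicalSpace P] [CompactSpace P] [CommRing A] [StarRing A] [Algebra ℂ A]
  [StarModule ℂ A] {B : Base P A}

section

variable {R V : Type} [CommRing R] [AddCommGroup V] [Module R V] (L : Module.End R V)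
  (α : Fin 4) (m : FF → V)

theorem lefThomA_gam : gam R V (L.compLeft FF m) = L.compLeft FF (gam R V m) :=
  funext fun _ => (map_zsmul L _ _).symm

theorem lefThomA_cre : cre R V α (L.compLeft FF m) = L.compLeft FF (cre R V α m) := funext fun S => by
  change _ = L (cre R V α m S)
  rw [cre_apply, cre_apply]
  split_ifs
  · exact (map_zsmul L _ _).symm
  · exact (map_zero L).symm

theorem lefThomA_ann : ann R V α (L.compLeft FF m) = L.compLeft FF (ann R V α m) := funext fun S => by
  change _ = L (ann R V α m S)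
  rw [ann_apply, ann_apply]
  split_ifs
  · exact (map_zero L).symm
  · exact (map_zsmul L _ _).symm

end

theorem Car.lefThomA_curv {ι R V : Type} [Fintype ι] [DecidableEq ι] [CommRing R] [Algebra ℂ R]
    [AddCommGroup V] [Module R V] [Module ℂ V] (C : Car ι R V) (i j : ι) :
    ∃ ρ : R →ₗ[ℂ] R, (∀ r, C.d1 (fun k => C.D k r) i j = ρ r) ∧
      ∀ r s, ρ (r * s) = ρ r * s + r * ρ s := by
  refine ⟨C.D i ∘ₗ C.D j - C.D j ∘ₗ C.D i - ∑ k, LinearMap.mulLeft ℂ (C.T i j k) ∘ₗ C.D k,
    fun r => by simp [Car.d1], fun r s => ?_⟩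
  simp only [LinearMap.sub_apply, LinearMap.comp_apply, LinearMap.sum_apply,
    LinearMap.mulLeft_apply, C.D_mul, map_add, Finset.sum_add_distrib, sub_mul, mul_sub,
    Finset.sum_mul, Finset.mul_sum, mul_assoc, mul_left_comm r]
  ring

theorem Car.lefThomA_app {ι R V : Type} [Fintype ι] [DecidableEq ι] [CommRing R] [Algebra ℂ R]
    [AddCommGroup V] [Module R V] [Module ℂ V] [IsScalarTower ℂ R V] (C : Car ι R V) (v : V) :
    C.d v = ∑ i, C.c i (C.DV i v) -
      ∑ i, ∑ j, ∑ k, ((1 / 2 : ℂ) • C.T i j k) • C.c i (C.c j (C.a k v)) := by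
  simp only [Car.d, LinearMap.sub_apply, LinearMap.sum_apply, LinearMap.restrictScalars_apply,
    LinearMap.smul_apply, Module.End.mul_apply, LinearMap.comp_apply]

theorem lefThomA_zero {R : Type} [CommRing R] [Algebra ℂ R] {k : R} {p q : Fin 2 → R}
    (h : k = 0 ∨ ∃ j, q j = 0 ∧ p j = 0) (x y : Fin 4 → Fin 4 → R)
    (F : Fin 2 → Fin 4 → Fin 4 → R) : biT k p q x y F = 0 := by
  rcases h with h | ⟨j, h, h'⟩
  · rw [biT, h, zero_smul]
  · fin_cases j
    · simp [biT, opT, show q 0 = 0 from h, show p 0 = 0 from h']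
    · simp [biT, opT, show q 1 = 0 from h, show p 1 = 0 from h']

namespace KRing

variable {G : Pre B} {u : Fin G.N → A} {R : Type} [CommRing R] [Algebra ℂ R] (K : KRing G u R)
  {φ κ : ℝ → ℝ}

theorem ev_τ (hφ : ContDiff ℝ ∞ φ) (hκ : ContDiff ℝ ∞ κ) (y : P) (S T : FF) :
    K.ev y (K.τ φ κ S T) = G.thomK φ κ u y S T := by
  have h1 : ∀ a, K.ev y (G.σR K.cx K.z a) = G.σ (G.Eu u y) a := fun a => by
    simp only [Calc.σR, Calc.σ, map_sum, map_mul, map_sub, K.ev_cx, K.ev_z]
  have h2 : ∀ a β, K.ev y (K.DY β (G.σR K.cx K.z a)) = ∑ k, B.ev (G.D β (u k)) y • G.θ a k :=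
    fun a β => by
      simp only [Calc.σR, map_sum, K.DY_mul, map_sub, K.DY_cx, K.DY_z, zero_mul, zero_add, sub_zero,
        map_mul, K.ev_cx, K.ev_cy, Algebra.smul_def, mul_comm]
  simp only [τ, Calc.thomK, biT_map, K.ev_pr κ hκ, K.ev_pρ φ hφ,
    K.ev_pρ _ (contDiff_infty_iff_deriv.1 hφ).2, K.ev_DX, h1, h2, K.ev_cx]

/-- A two-form of the first factor as a two-form of the product. -/
def lefThomA_two (F : Fin 4 → Fin 4 → A) : Fin 4 ⊕ Fin 4 → Fin 4 ⊕ Fin 4 → R
  | .inl α, .inl β => K.cx (F α β)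
  | _, _ => 0

/-- The structure functions of the product. -/
def lefThomA_T : Fin 4 ⊕ Fin 4 → Fin 4 ⊕ Fin 4 → Fin 4 ⊕ Fin 4 → R
  | .inl α, .inl β, .inl γ => K.cx (G.T α β γ)
  | .inr α, .inr β, .inr γ => K.cy (G.T α β γ)
  | _, _, _ => 0

/-- The calculus of forms on the product. -/
def lefThomA_car : Car (Fin 4 ⊕ Fin 4) R (FF → FF → R) where
  c := Sum.elim opX opY
  a := Sum.elim (fun α => gam R (FF → R) * (ann R R α).compLeft FF)
    fun α => ann R (FF → R) α * gam R (FF → R)
  cc i j := LinearMap.ext fun m => by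
    rcases i with α | α <;> rcases j with β | β <;>
      simp only [Sum.elim_inl, Sum.elim_inr, opX, opY, LinearMap.add_apply, Module.End.mul_apply,
        lefThomA_gam, lefThomA_cre, gam_cre, gam_gam, map_neg, neg_neg, LinearMap.zero_apply,
        add_neg_cancel, neg_add_cancel]
    · exact funext fun S => LinearMap.congr_fun (cre_cre R R α β) (m S)
    · rw [← neg_add, neg_eq_zero]
      exact LinearMap.congr_fun (cre_cre R (FF → R) α β) m
  ac i j := LinearMap.ext fun m => by
    rcases i with α | α <;> rcases j with β | β <;>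
      simp only [Sum.elim_inl, Sum.elim_inr, opX, opY, LinearMap.add_apply, Module.End.mul_apply,
        lefThomA_gam, lefThomA_cre, lefThomA_ann, gam_cre, gam_ann, gam_gam, map_neg, neg_neg,
        add_neg_cancel, Sum.inl.injEq, Sum.inr.injEq, reduceCtorEq, if_false,
        LinearMap.zero_apply]
    · refine funext fun S => (LinearMap.congr_fun (ann_cre R R α β) (m S)).trans ?_
      split_ifs <;> rfl
    · exact LinearMap.congr_fun (ann_cre R (FF → R) α β) m
  D := Sum.elim K.DX K.DY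
  DV i := ((Sum.elim K.DX K.DY i).compLeft FF).compLeft FF
  D_mul i := by
    rcases i with α | α
    exacts [K.DX_mul α, K.DY_mul α]
  DV_smul i r v := funext fun S => funext fun T => by
    rcases i with α | α
    exacts [K.DX_mul α r (v S T), K.DY_mul α r (v S T)]
  DV_c i j v := funext fun S => funext fun T => by
    rcases j with β | β <;>
      simp only [Sum.elim_inl, Sum.elim_inr, opX, opY, Module.End.mul_apply, gam_apply, cre_apply,
        LinearMap.compLeft_apply, Function.comp_apply, Pi.smul_apply, map_zsmul] <;>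
      split_ifs <;>
      simp only [map_zsmul, map_zero, Pi.smul_apply, Pi.zero_apply, LinearMap.compLeft_apply,
        Function.comp_apply]
  T := K.lefThomA_T
  T_anti i j k := by
    rcases i with α | α <;> rcases j with β | β <;> rcases k with γ | γ <;>
      simp only [lefThomA_T, neg_zero] <;> rw [G.T_anti, map_neg]

/-- The calculus of forms in the variable `x`. -/
def lefThomA_carX : Car (Fin 4) R (FF → R) :=
  Car.std K.DX K.DX K.DX_mul K.DX_mul (fun α β γ => K.cx (G.T α β γ))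
    fun α β γ => by rw [G.T_anti, map_neg]

theorem lefThomA_d (m : FF → FF → R) : K.lefThomA_car.d m =
    gam R (FF → R) ((fun S => K.lefThomA_carX.d (m S)) + K.carY.d m) := by
  have hx : (fun S => K.lefThomA_carX.d (m S)) =
      ∑ α, (cre R R α).compLeft FF (K.lefThomA_car.DV (.inl α) m) - ∑ α, ∑ β, ∑ γ,
        ((1 / 2 : ℂ) • K.cx (G.T α β γ)) • (cre R R α).compLeft FF ((cre R R β).compLeft FF
          ((ann R R γ).compLeft FF m)) := funext fun S => by
    simp only [Car.lefThomA_app, Pi.sub_apply, Finset.sum_apply]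
    rfl
  have hy : K.carY.d m = ∑ α, cre R (FF → R) α (K.lefThomA_car.DV (.inr α) m) - ∑ α, ∑ β, ∑ γ,
      ((1 / 2 : ℂ) • K.cy (G.T α β γ)) • cre R _ α (cre R _ β (ann R _ γ m)) :=
    K.carY.lefThomA_app m
  have c1 : ∀ α, K.lefThomA_car.c (.inl α) = gam R (FF → R) * (cre R R α).compLeft FF :=
    fun _ => rfl
  have c2 : ∀ α, K.lefThomA_car.c (.inr α) = gam R (FF → R) * cre R (FF → R) α := fun _ => rfl
  have a1 : ∀ α, K.lefThomA_car.a (.inl α) = gam R (FF → R) * (ann R R α).compLeft FF :=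
    fun _ => rfl
  have a2 : ∀ α, K.lefThomA_car.a (.inr α) = ann R (FF → R) α * gam R (FF → R) := fun _ => rfl
  have t : K.lefThomA_car.T = K.lefThomA_T := rfl
  rw [hx, hy]
  simp only [Car.lefThomA_app, Module.End.mul_apply, Fintype.sum_sum_type, c1, c2,
    a1, a2, t, lefThomA_T, smul_zero, zero_smul, Finset.sum_const_zero, add_zero, zero_add, map_add,
    map_sub, map_sum, map_smul, lefThomA_gam, gam_cre, gam_ann, gam_gam, map_neg, neg_neg]
  abel

theorem lefThomA_ev (y : P) (x : FF → R) :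
    (fun T => K.ev y (K.lefThomA_carX.d x T)) = G.dF fun T => K.ev y (x T) := by
  let f : (FF → R) →ₗ[ℂ] FF → A := (K.ev y).toLinearMap.compLeft FF
  have h1 : ∀ α x, f (cre R R α x) = cre A A α (f x) := fun α x => funext fun S => by
    change K.ev y (cre R R α x S) = _
    rw [cre_apply, cre_apply]
    split_ifs
    exacts [map_zsmul _ _ _, map_zero _]
  have h2 : ∀ α x, f (ann R R α x) = ann A A α (f x) := fun α x => funext fun S => by
    change K.ev y (ann R R α x S) = _
    rw [ann_apply, ann_apply]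
    split_ifs
    exacts [map_zero _, map_zsmul _ _ _]
  have h3 : ∀ (r : R) x, f (r • x) = K.ev y r • f x := fun r x => funext fun S =>
    map_mul (K.ev y) r (x S)
  have h4 : ∀ α, f (fun S => K.DX α (x S)) = fun S => G.D α (f x S) := fun α =>
    funext fun S => K.ev_DX y α _
  have hx : K.lefThomA_carX.d x = ∑ α, cre R R α (fun S => K.DX α (x S)) - ∑ α, ∑ β, ∑ γ,
      ((1 / 2 : ℂ) • K.cx (G.T α β γ)) • cre R R α (cre R R β (ann R R γ x)) :=
    K.lefThomA_carX.lefThomA_app x
  change f (K.lefThomA_carX.d x) = G.dF (f x)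
  simp only [hx, G.dF_apply, map_sub, map_sum, h1, h2, h3, h4, map_smul (K.ev y), K.ev_cx]

theorem lefThomA_σ (hu : ∀ k, B.Re0 (u k)) (a : Fin 4) (i j : Fin 4 ⊕ Fin 4) :
    K.lefThomA_car.d1 (fun k => K.lefThomA_car.D k (G.σR K.cx K.z a)) i j =
      K.lefThomA_two (G.Fw (-wt a)) i j * G.σR K.cx K.z a := by
  obtain ⟨ρ, h, hm⟩ := K.lefThomA_car.lefThomA_curv i j
  have h1 : ∀ w, ∀ s ∈ B.W w, ρ (K.cx s) = K.lefThomA_two (G.Fw w) i j * K.cx s := fun w s hs => by
    rw [← h]
    rcases i with α | α <;> rcases j with β | β <;>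
      simp only [Car.d1, lefThomA_car, lefThomA_T, lefThomA_two, Fintype.sum_sum_type, Sum.elim_inl,
        Sum.elim_inr, K.DX_cx, K.DY_cx, map_zero, zero_mul, mul_zero, Finset.sum_const_zero,
        add_zero, sub_zero]
    simp only [← map_mul, ← map_sum, ← map_sub, G.comm hs, add_sub_cancel_left]
  have h2 : ∀ k, ρ (K.z k) = 0 := fun k => by
    rw [← h]
    rcases i with α | α <;> rcases j with β | β <;>
      simp only [Car.d1, lefThomA_car, lefThomA_T, Fintype.sum_sum_type, Sum.elim_inl,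
        Sum.elim_inr, K.DX_z, K.DY_z, K.DX_cy, K.DY_cy, map_zero, zero_mul, mul_zero,
        Finset.sum_const_zero, add_zero, sub_zero, zero_add]
    simp only [← map_mul, ← map_sum, ← map_sub, G.comm (hu k).1, G.Fw_zero, zero_mul, add_zero,
      sub_self]
  have h3 : K.lefThomA_two (G.Fw 0) i j = 0 := by
    rcases i with α | α <;> rcases j with β | β <;> simp only [lefThomA_two, G.Fw_zero, map_zero]
  rw [h]
  simp only [Calc.σR, map_sum, hm, map_sub, h1 _ _ (G.θ_mem a _), h1 _ _ (G.e_re _).1, h2, h3,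
    zero_mul, sub_zero, mul_zero, add_zero, Finset.mul_sum, mul_assoc]

theorem lefThomA_thom (hu : ∀ k, B.Re0 (u k)) (hφ : ContDiff ℝ ∞ φ) (j : Fin 2) {a b : Fin 4}
    (ha : ![1, 3] j = a) (hb : ![0, 2] j = b) {v : FF → FF → R} (hv : K.lefThomA_car.d v = 0) :
    K.lefThomA_car.d (opT (K.pρ (deriv φ) j) (K.pρ φ j) (fun α => K.DX α (G.σR K.cx K.z a))
      (fun α => K.DY α (G.σR K.cx K.z a)) (fun α => K.DX α (G.σR K.cx K.z b))
      (fun α => K.DY α (G.σR K.cx K.z b)) (fun α β => K.cx (G.F j α β)) v) = 0 := by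
  subst ha hb
  have e1 : ∀ r, K.lefThomA_car.e (fun k => K.lefThomA_car.D k r) =
      opZ (fun α => K.DX α r) fun α => K.DY α r := fun r => Fintype.sum_sum_type _
  have e2 : K.lefThomA_car.e2 (K.lefThomA_two (G.F j)) =
      ∑ α, ∑ β, ((1 / 2 : ℂ) • K.cx (G.F j α β)) • (opX α * opX β) := by
    simp only [Car.e2, Fintype.sum_sum_type, lefThomA_two, smul_zero, zero_smul,
      Finset.sum_const_zero, add_zero]
    rfl
  have h := K.lefThomA_car.d_thom (σ' := G.σR K.cx K.z (![1, 3] j))
    (σ := G.σR K.cx K.z (![0, 2] j)) (p := K.pρ (deriv φ) j) (p' := K.pρ (deriv (deriv φ)) j)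
    (q := K.pρ φ j) (F := K.lefThomA_two (G.F j)) (fun i k => ?_) (fun i k l => ?_)
    (fun i k => ?_) (fun i k => ?_) (fun i => ?_) (fun i => ?_) v
  · rw [opT, ← e1, ← e1, ← e2, h, hv, map_zero]
  · rcases i with α | α <;> rcases k with β | β <;> simp only [lefThomA_two, neg_zero]
    rw [(G.F_form j α β).2, map_neg]
  · rcases i with α | α <;> rcases k with β | β <;> rcases l with γ | γ <;>
      simp only [Car.d2t, lefThomA_car, lefThomA_T, lefThomA_two, Fintype.sum_sum_type,
        Sum.elim_inl, Sum.elim_inr, K.DX_cx, K.DY_cx, map_zero, zero_mul, mul_zero,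
        Finset.sum_const_zero, add_zero, sub_zero]
    simp only [← map_mul, ← map_sum, ← map_sub, ← map_add]
    exact (congrArg K.cx (G.d2_F j α β γ)).trans (map_zero _)
  · rw [K.lefThomA_σ hu, funext fun α => funext fun β => G.thomA_Fw j α β]
  · rw [K.lefThomA_σ hu, ← neg_mul]
    rcases i with α | α <;> rcases k with β | β <;>
      simp only [lefThomA_two, neg_zero, G.thomA_Fw', map_neg]
  · rcases i with α | α
    exacts [K.DX_pρ φ hφ α j, K.DY_pρ φ hφ α j]
  · rcases i with α | α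
    exacts [K.DX_pρ _ (contDiff_infty_iff_deriv.1 hφ).2 α j,
      K.DY_pρ _ (contDiff_infty_iff_deriv.1 hφ).2 α j]

theorem lefThomA_vac : K.lefThomA_car.d (Pi.single ∅ (vac R)) = 0 := by
  refine K.lefThomA_car.d_vac (fun i => funext fun S => funext fun T => ?_) fun i => ?_
  · have h := K.lefThomA_car.D_mul i 1 1
    rw [mul_one, mul_one, one_mul, left_eq_add] at h
    change K.lefThomA_car.D i ((Pi.single ∅ (vac R) : FF → FF → R) S T) = 0
    simp only [vac, Pi.single_apply, ite_apply, Pi.zero_apply]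
    split_ifs
    exacts [h, map_zero _, map_zero _]
  · rcases i with α | α
    · refine (congrArg (gam R (FF → R)) (funext fun S => ?_)).trans (map_zero _)
      change ann R R α ((Pi.single ∅ (vac R) : FF → FF → R) S) = 0
      rw [Pi.single_apply]
      split_ifs
      exacts [ann_vac α, map_zero _]
    · refine funext fun S => ?_
      change ann R _ α (gam R _ _) S = 0
      rw [ann_apply, gam_apply, Pi.single_eq_of_ne (Finset.insert_ne_empty α S), smul_zero,
        smul_zero, ite_self]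

theorem lefThomA_dτ (hu : ∀ k, B.Re0 (u k)) (hφ : ContDiff ℝ ∞ φ) (hκ : ContDiff ℝ ∞ κ) :
    ∃ r : Fin 4 ⊕ Fin 4 → R,
      K.lefThomA_car.d (K.τ φ κ) = ∑ i, r i • K.lefThomA_car.c i (K.τ φ (deriv κ)) := by
  have h : ∀ i, ∃ r, K.lefThomA_car.D i (K.pr κ) = K.pr (deriv κ) * r := fun i => by
    rcases i with α | α
    exacts [K.DX_pr κ hκ α, K.DY_pr κ hκ α]
  choose r hr using h
  refine ⟨r, ?_⟩
  obtain ⟨w, h0, hw⟩ : ∃ w, K.lefThomA_car.d w = 0 ∧ ∀ κ, K.τ φ κ = K.pr κ • w :=
    ⟨_, K.lefThomA_thom hu hφ 0 (a := 1) (b := 0) rfl rfl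
      (K.lefThomA_thom hu hφ 1 (a := 3) (b := 2) rfl rfl K.lefThomA_vac), fun _ => by rw [τ, biT]⟩
  simp only [hw, Car.d_smul, h0, smul_zero, add_zero, Car.e, LinearMap.sum_apply,
    LinearMap.smul_apply, hr, map_smul, smul_smul, mul_comm]

theorem closed (hu : ∀ k, B.Re0 (u k)) (hφ : ContDiff ℝ ∞ φ) (hκ : ContDiff ℝ ∞ κ) {y : P}
    (hc : G.CutOK φ κ (G.Eu u y)) (S : FF) :
    (fun T => K.ev y (K.carY.d (K.τ φ κ) S T)) = -G.dF (G.thomK φ κ u y S) := by
  obtain ⟨r, hr⟩ := K.lefThomA_dτ hu hφ hκ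
  have hκ' := (contDiff_infty_iff_deriv.1 hκ).2
  let I : Submodule R R := RingHom.ker (K.ev y)
  let J : Submodule R (FF → R) := Submodule.pi Set.univ fun _ => I
  let N : Submodule R (FF → FF → R) := Submodule.pi Set.univ fun _ => J
  have n1 : ∀ m ∈ N, gam R _ m ∈ N := fun m hm S _ => zsmul_mem (hm S trivial) _
  have n2 : ∀ i, ∀ m ∈ N, K.lefThomA_car.c i m ∈ N := fun i m hm => by
    rcases i with α | α
    · refine n1 _ fun S _ T _ => ?_
      change cre R R α (m S) T ∈ I
      rw [cre_apply]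
      split_ifs
      exacts [zsmul_mem (hm S trivial _ trivial) _, zero_mem _]
    · refine n1 _ fun S _ => ?_
      rw [cre_apply]
      split_ifs
      exacts [zsmul_mem (hm _ trivial) _, zero_mem _]
  have n3 : K.τ φ (deriv κ) ∈ N := fun S _ T _ => by
    change K.ev y _ = 0
    rw [K.ev_τ hφ hκ']
    refine B.ext' fun p => ?_
    rw [map_zero, ← B.evAt_apply, Calc.thomK, biT_map, lefThomA_zero]
    · rfl
    simp only [B.evAt_apply, (G.app_spec hκ' (G.r2_re _)).2.1, (G.app_spec hφ (G.ρ_re _ _)).2.1,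
      (G.app_spec (contDiff_infty_iff_deriv.1 hφ).2 (G.ρ_re _ _)).2.1, Complex.ofReal_eq_zero]
    exact or_iff_not_imp_left.2 (hc p)
  have h := n1 _ (hr ▸ N.sum_mem fun i _ => N.smul_mem (r i) (n2 i _ n3))
  rw [K.lefThomA_d, gam_gam] at h
  have e : G.thomK φ κ u y S = fun T => K.ev y (K.τ φ κ S T) :=
    funext fun T => (K.ev_τ hφ hκ y S T).symm
  rw [e, ← K.lefThomA_ev]
  exact funext fun T => eq_neg_of_add_eq_zero_right ((map_add _ _ _).symm.trans
    (h S trivial T trivial))

end KRing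

end SX4
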