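import Pool.Agent.P.MP_0a0487_an.SX.SysB
import Pool.Agent.P.MP_0a0487_an.SX.SysC

/-! Finite covers. -/

set_option autoImplicit false
set_option linter.unusedSectionVars false

noncomputable section

namespace SX4

open scoped ComplexOrder ContDiff
open Filter Topology Matrix

variable {Y U Λ : Type} [TopologicalSpace Y] [TopologicalSpace U] [Group Λ] [MulAction Λ U]

theorem SysD_rel (S' : Subgroup Λ) [hn : S'.Normal] (l : Λ) {x y : U}
    (h : (MulAction.orbitRel S' U) x y) : (MulAction.orbitRel S' U) (l • x) (l • y) := by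
  obtain ⟨s, hs⟩ := MulAction.orbitRel_apply.mp h
  refine MulAction.orbitRel_apply.mpr ⟨⟨l * s * l⁻¹, hn.conj_mem _ s.2 l⟩, ?_⟩
  have hs' : (s : Λ) • y = x := hs
  change (l * s * l⁻¹) • l • y = l • x
  rw [← hs', mul_smul, mul_smul, inv_smul_smul]

/-- The map induced on the quotient by an element of the group. -/
def SysDmap (S' : Subgroup Λ) [S'.Normal] (l : Λ) :
    MulAction.orbitRel.Quotient S' U → MulAction.orbitRel.Quotient S' U :=
  Quotient.map (fun x => l • x) fun _ _ h => SysD_rel S' l h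

theorem SysD_map_mul (S' : Subgroup Λ) [S'.Normal] (l l' : Λ)
    (y : MulAction.orbitRel.Quotient S' U) :
    SysDmap S' (l * l') y = SysDmap S' l (SysDmap S' l' y) := by
  induction y using Quotient.inductionOn with
  | h x => exact congrArg (Quotient.mk _) (mul_smul l l' x)

theorem SysD_map_one (S' : Subgroup Λ) [S'.Normal] (y : MulAction.orbitRel.Quotient S' U) :
    SysDmap S' 1 y = y := by
  induction y using Quotient.inductionOn with
  | h x => exact congrArg (Quotient.mk _) (one_smul Λ x)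

theorem SysD_map_cont (S' : Subgroup Λ) [S'.Normal] (hc : ∀ l : Λ, Continuous fun x : U => l • x)
    (l : Λ) : Continuous (SysDmap (U := U) S' l) :=
  Continuous.quotient_lift (continuous_quotient_mk'.comp (hc l)) _

/-- The action on the quotient by homeomorphisms. -/
def SysDhom (S' : Subgroup Λ) [S'.Normal] (hc : ∀ l : Λ, Continuous fun x : U => l • x) :
    Λ →* (MulAction.orbitRel.Quotient S' U ≃ₜ MulAction.orbitRel.Quotient S' U) :=
  MonoidHom.mk' (fun l =>
    { toFun := SysDmap S' l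
      invFun := SysDmap S' l⁻¹
      left_inv := fun y => by rw [← SysD_map_mul, inv_mul_cancel, SysD_map_one]
      right_inv := fun y => by rw [← SysD_map_mul, mul_inv_cancel, SysD_map_one]
      continuous_toFun := SysD_map_cont S' hc l
      continuous_invFun := SysD_map_cont S' hc l⁻¹ })
    fun l l' => Homeomorph.ext fun y => SysD_map_mul S' l l' y

theorem SysD_quot {q : U → Y} {S : Subgroup Λ} (hq : IsQuotientCoveringMap q S)
    (hc : ∀ l : Λ, Continuous fun x : U => l • x) {S' : Subgroup Λ} (hle : S' ≤ S) :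
    IsQuotientCoveringMap
      (Quotient.mk (MulAction.orbitRel S' U) : U → MulAction.orbitRel.Quotient S' U) S' where
  toIsQuotientMap := isQuotientMap_quotient_mk'
  continuous_const_smul g := hc g
  apply_eq_iff_mem_orbit := Quotient.eq''
  disjoint e := by
    obtain ⟨W, hW, h⟩ := hq.disjoint e
    refine ⟨W, hW, fun g hg => Subtype.ext ?_⟩
    have h1 := h ⟨g, hle g.2⟩ hg
    exact congrArg (fun s : S => (s : Λ)) h1

theorem SysD_cover {Y' : Type} [TopologicalSpace Y'] [CompactSpace Y] [T2Space Y] {q : U → Y}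
    {q' : U → Y'} {S S' : Subgroup Λ} (hq : IsQuotientCoveringMap q S)
    (hq' : IsQuotientCoveringMap q' S') (hle : S' ≤ S) (hfin : S'.relIndex S ≠ 0)
    {D' : Λ →* (Y' ≃ₜ Y')} (hD : ∀ l x, D' l (q' x) = q' (l • x)) {π : Y' → Y}
    (hπ : ∀ x, π (q' x) = q x) : IsCoveringMap π ∧ CompactSpace Y' := by
  let : MulAction (Y' ≃ₜ Y') Y' :=
    { smul := fun g y => g y
      one_smul := fun _ => rfl
      mul_smul := fun _ _ _ => rfl }
  have hsm : ∀ (g : Y' ≃ₜ Y') y, g • y = g y := fun _ _ => rfl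
  have hone : ∀ s ∈ S', D' s = 1 := fun s hs => Homeomorph.ext fun y => by
    obtain ⟨x, rfl⟩ := hq'.surjective y
    rw [hD]
    exact hq'.map_smul ⟨s, hs⟩
  have hqm : IsQuotientMap π := by
    refine hq'.toIsQuotientMap.of_comp_iff.mp ?_
    have : π ∘ q' = q := funext hπ
    rw [this]
    exact hq.toIsQuotientMap
  have horb : ∀ {y₁ y₂ : Y'}, π y₁ = π y₂ ↔ y₁ ∈ MulAction.orbit (S.map D') y₂ := by
    intro y₁ y₂
    obtain ⟨x₁, rfl⟩ := hq'.surjective y₁
    obtain ⟨x₂, rfl⟩ := hq'.surjective y₂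
    constructor
    · intro h
      rw [hπ, hπ] at h
      obtain ⟨s, hs⟩ := hq.apply_eq_iff_mem_orbit.mp h
      have hs' : (s : Λ) • x₂ = x₁ := hs
      refine ⟨⟨D' s, s, s.2, rfl⟩, ?_⟩
      change D' s (q' x₂) = q' x₁
      rw [hD, hs']
    · rintro ⟨⟨g, s, hs, rfl⟩, h⟩
      have h' : D' s (q' x₂) = q' x₁ := h
      rw [← h', hD, hπ, hπ]
      exact hq.map_smul ⟨s, hs⟩
  have hcov : IsQuotientCoveringMap π (S.map D') :=
    { toIsQuotientMap := hqm
      continuous_const_smul := fun g => (g : Y' ≃ₜ Y').continuous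
      apply_eq_iff_mem_orbit := horb
      disjoint := fun y => by
        obtain ⟨e, rfl⟩ := hq'.surjective y
        obtain ⟨W, hW, h⟩ := hq.disjoint e
        refine ⟨q' '' W, hq'.isOpenQuotientMap.isOpenMap.image_mem_nhds hW, ?_⟩
        rintro ⟨g, s, hs, rfl⟩ ⟨_, ⟨_, ⟨u, hu, rfl⟩, rfl⟩, v, hv, he⟩
        have he' : q' v = D' s (q' u) := he
        rw [hD] at he'
        obtain ⟨s', hs'⟩ := hq'.apply_eq_iff_mem_orbit.mp he'
        have hs'' : (s' : Λ) • s • u = v := hs'
        have h1 := h ⟨s' * s, S.mul_mem (hle s'.2) hs⟩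
          ⟨v, ⟨u, hu, by rw [← hs'']; exact mul_smul _ _ _⟩, hv⟩
        have h2 : (s' : Λ) * s = 1 := congrArg Subtype.val h1
        have h3 : s = (s' : Λ)⁻¹ := eq_inv_of_mul_eq_one_right h2
        exact Subtype.ext (hone s (h3 ▸ S'.inv_mem s'.2)) }
  refine ⟨hcov.isCoveringMap, ?_⟩
  have hfi : (S'.subgroupOf S).FiniteIndex := ⟨hfin⟩
  have hG : Finite (S.map D') := by
    refine Finite.of_surjective (fun c : S ⧸ S'.subgroupOf S =>
      (⟨D' (c.out : S), (c.out : S), c.out.2, rfl⟩ : S.map D')) ?_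
    rintro ⟨g, s, hs, rfl⟩
    refine ⟨QuotientGroup.mk ⟨s, hs⟩, Subtype.ext ?_⟩
    obtain ⟨r, hr⟩ := QuotientGroup.mk_out_eq_mul (S'.subgroupOf S) ⟨s, hs⟩
    change D' ((QuotientGroup.mk (⟨s, hs⟩ : S) : S ⧸ S'.subgroupOf S).out : S) = D' s
    rw [hr, Subgroup.coe_mul, map_mul, hone _ (Subgroup.mem_subgroupOf.mp r.2), mul_one]
  have hpr : IsProperMap π := by
    refine isProperMap_iff_isClosedMap_and_compact_fibers.mpr ⟨hqm.continuous, ?_, ?_⟩
    · intro C hC
      rw [← hqm.isClosed_preimage]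
      have : π ⁻¹' (π '' C) = ⋃ g : S.map D', (g : Y' ≃ₜ Y') '' C := by
        ext y
        simp only [Set.mem_preimage, Set.mem_image, Set.mem_iUnion]
        constructor
        · rintro ⟨c, hc, he⟩
          obtain ⟨g, hg⟩ := horb.mp he.symm
          exact ⟨g, c, hc, hg⟩
        · rintro ⟨g, c, hc, he⟩
          exact ⟨c, hc, (horb.mpr ⟨g, he⟩).symm⟩
      rw [this]
      exact isClosed_iUnion_of_finite fun g => (g : Y' ≃ₜ Y').isClosedMap C hC
    · intro y
      obtain ⟨y', rfl⟩ := hqm.surjective y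
      refine Set.Finite.isCompact ((Set.finite_range fun g : S.map D' => g • y').subset ?_)
      intro z hz
      exact horb.mp hz
  exact ⟨by simpa using hpr.isCompact_preimage isCompact_univ⟩

theorem SysD_t2 {E X : Type} [TopologicalSpace E] [TopologicalSpace X] [T2Space X]
    {π : E → X} (h : IsCoveringMap π) : T2Space E := by
  refine ⟨fun a b hab => ?_⟩
  by_cases hp : π a = π b
  · exact h.isSeparatedMap a b hp hab
  · obtain ⟨U, V, hU, hV, ha, hb, hd⟩ := t2_separation hp
    exact ⟨π ⁻¹' U, π ⁻¹' V, hU.preimage h.continuous, hV.preimage h.continuous, ha, hb,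
      hd.preimage π⟩

theorem SysD_chain {Y' : Type} [TopologicalSpace Y'] [CompactSpace Y'] [T2Space Y']
    [ConnectedSpace Y'] [CompactSpace Y] [T2Space Y] {a : Fr Y} (a' : Fr Y') {π : Y' → Y}
    (hπ : IsCoveringMap π) (F' : Y' ≃ₜ Y') {F : Y → Y} (hF : ∀ y, π (F' y) = F (π y))
    (h : a.Chain F) : a'.Chain F' := by
  have := chain_lift hπ F' hF a'.sm_e.continuous a.sm_e.continuous a.e_inj (fun ε hε x => by
    refine Relation.TransGen.head' (b := F x) (by simpa using hε.le) ?_
    simpa only [dist_eq_norm] using h ε hε (F x) x)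
  intro ε hε x y
  simpa only [dist_eq_norm] using this ε hε x y

theorem SysD_pow {X : Type} [TopologicalSpace X] (F : X ≃ₜ X) (m : ℕ) : ⇑(F ^ m) = F^[m] := by
  induction m with
  | zero => rfl
  | succ m ih => rw [pow_succ, Function.iterate_succ, ← ih]; rfl

theorem Sys.exists_cover [CompactSpace Y] [T2Space Y] [ConnectedSpace U] {a : Fr Y}
    {d : FDyn a 4} {q : U → Y} {deg : Λ →* Multiplicative ℤ} {S : Subgroup Λ}
    {D : Λ →* (Y ≃ₜ Y)} {t : Λ} (h : Sys a d q deg S D t) (S' : Subgroup Λ) [S'.Normal]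
    (hle : S' ≤ S) (hfin : S'.relIndex S ≠ 0) :
    ∃ (Y' : Type) (_ : TopologicalSpace Y') (_ : CompactSpace Y') (_ : T2Space Y')
      (_ : ConnectedSpace Y') (a' : Fr Y') (d' : FDyn a' 4) (q' : U → Y') (D' : Λ →* (Y' ≃ₜ Y'))
      (π : Y' → Y), Sys a' d' q' deg S' D' t ∧ IsCoveringMap π ∧ ∀ x, π (q' x) = q x := by
  have := h.normal
  let Y' := MulAction.orbitRel.Quotient S' U
  let q' : U → Y' := Quotient.mk _
  have hq' : IsQuotientCoveringMap q' S' := SysD_quot h.cov h.cont hle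
  let D' : Λ →* (Y' ≃ₜ Y') := SysDhom S' h.cont
  have hD : ∀ l x, D' l (q' x) = q' (l • x) := fun _ _ => rfl
  let π : Y' → Y := Quotient.lift q fun x y hxy => by
    obtain ⟨s, hs⟩ := MulAction.orbitRel_apply.mp hxy
    exact h.cov.apply_eq_iff_mem_orbit.mpr ⟨⟨s, hle s.2⟩, hs⟩
  have hπ : ∀ x, π (q' x) = q x := fun _ => rfl
  obtain ⟨hc, hcpt⟩ := SysD_cover h.cov hq' hle hfin hD hπ
  have ht2 : T2Space Y' := SysD_t2 hc
  have hconn : ConnectedSpace Y' := hq'.surjective.connectedSpace hq'.continuous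
  have hsemi : ∀ l y, π (D' l y) = D l (π y) := fun l y => by
    obtain ⟨x, rfl⟩ := hq'.surjective y
    rw [hD, hπ, hπ, h.act]
  obtain ⟨a', ix, hL⟩ := a.exists_pull hc
  have e1 : ∀ y, π (D' t y) = d.h (π y) := fun y => by rw [hsemi, h.h_eq]
  obtain ⟨d', hh, hQ, hO⟩ := hL.exists_fdyn d (D' t) e1
  have e2 : ∀ y, π ((D' t).symm y) = d.h.symm (π y) := fun y => by
    rw [eq_comm, Homeomorph.symm_apply_eq, ← e1, Homeomorph.apply_symm_apply]
  refine ⟨Y', inferInstance, hcpt, ht2, hconn, a', d', q', D', π,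
    { ori := ?_
      or := hO h.or
      ch := ?_
      cont := h.cont
      cov := hq'
      normal := inferInstance
      le := hle.trans h.le
      fin := Subgroup.relIndex_ne_zero_trans hfin h.fin
      fg := h.fg
      free := h.free
      act := hD
      deg_t := h.deg_t
      h_eq := hh.symm
      deck := ?_ }, hc, hπ⟩
  · intro i j x hi hj
    rw [hL.Jm_eq (g := id) continuous_id (fun _ => rfl) hi hj]
    exact h.ori _ _ _ (hL.mem i x hi).1 (hL.mem j x hj).1
  · intro m hm
    rw [hh, ← SysD_pow, ← SysD_pow]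
    refine ⟨SysD_chain a' hc _ (fun y => ?_) (h.ch m hm).1,
      SysD_chain a' hc _ (fun y => ?_) (h.ch m hm).2⟩
    · rw [SysD_pow]
      exact Function.Semiconj.iterate_right (f := π) e1 m y
    · rw [SysD_pow]
      exact Function.Semiconj.iterate_right (f := π) e2 m y
  · intro l hl
    obtain ⟨h1, h2⟩ := h.deck l hl
    refine ⟨hL.smMap (D' l).continuous (hsemi l) h1, fun i j x hi hj => ?_⟩
    beta_reduce
    rw [hL.Jm_eq (D' l).continuous (hsemi l) hi hj, hQ, hQ, hsemi]
    exact h2 _ _ _ (hL.mem i x hi).1 (hsemi l x ▸ (hL.mem j _ hj).1)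

end SX4
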