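import Pool.Agent.P.MP_0a0487_an.SX.PkEx
import Pool.Agent.P.MP_0a0487_an.SX.SysD
import Pool.Agent.P.MP_0a0487_an.SX.GrpB
import Pool.Agent.P.MP_0a0487_an.SX.GrpC
import Pool.Agent.P.MP_0a0487_an.SX.Alg

/-! A finite cover with the homology and the periodic points of a toral automorphism. -/

set_option autoImplicit false
set_option linter.unusedSectionVars false

noncomputable section

namespace SX4

open scoped ComplexOrder ContDiff
open Filter Topology Matrix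

theorem main_rel {Λ : Type} [Group Λ] {S K : Subgroup Λ} (hle : S ≤ K) (h : S.relIndex K ≠ 0)
    (T : Subgroup S) [hT : T.FiniteIndex] : (T.map S.subtype).relIndex K ≠ 0 := by
  rw [← Subgroup.relIndex_mul_relIndex _ S K (Subgroup.map_subtype_le T) hle]
  refine mul_ne_zero ?_ h
  rw [Subgroup.relIndex, Subgroup.subgroupOf,
    Subgroup.comap_map_eq_self_of_injective S.subtype_injective]
  exact hT.index_ne_zero

theorem main_fg {Λ : Type} [Group Λ] {S K : Subgroup Λ} (hK : K.FG) (hle : S ≤ K)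
    (h : S.relIndex K ≠ 0) : Group.FG S := by
  have := (Group.fg_iff_subgroup_fg K).2 hK
  have : (S.subgroupOf K).FiniteIndex := ⟨h⟩
  exact Group.fg_of_surjective (f := (Subgroup.subgroupOfEquivOfLe hle).toMonoidHom)
    (Subgroup.subgroupOfEquivOfLe hle).surjective

/-- The elements whose coordinates are divisible by `n`. -/
theorem main_mod {Γ ι : Type} [Group Γ] [Finite ι] {c : Γ → ι → ℤ}
    (hc : ∀ γ γ', c (γ * γ') = c γ + c γ') {n : ℕ} (hn : n ≠ 0) :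
    ∃ T : Subgroup Γ, T.FiniteIndex ∧ ∀ γ ∈ T, ∀ i, (n : ℤ) ∣ c γ i := by
  have : NeZero n := ⟨hn⟩
  let ψ : Γ →* Multiplicative (ι → ZMod n) := MonoidHom.mk'
    (fun γ => Multiplicative.ofAdd fun i => (c γ i : ZMod n)) fun γ γ' => by
      rw [← ofAdd_add]
      exact congrArg _ (funext fun i => by simp [hc])
  exact ⟨ψ.ker, inferInstance, fun γ hγ i =>
    (ZMod.intCast_zmod_eq_zero_iff_dvd _ _).1 (congrFun (ofAdd_eq_one.1 hγ) i)⟩

variable {Y U Λ : Type} [TopologicalSpace Y] [TopologicalSpace U] [Group Λ] [MulAction Λ U]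
  [CompactSpace Y] [T2Space Y] [ConnectedSpace Y] [SimplyConnectedSpace U]
  [LocallyPathConnectedSpace U] {a : Fr Y} {d : FDyn a 4} {q : U → Y}
  {deg : Λ →* Multiplicative ℤ} {S : Subgroup Λ} {D : Λ →* (Y ≃ₜ Y)} {t : Λ}

/-- Counting in a deeper cover. -/
theorem Sys.count [S.Normal] (h : Sys a d q deg S D t) (hm : MaxB S) {c₀ : deg.ker → ℤ}
    (h1 : ∀ γ γ', c₀ (γ * γ') = c₀ γ + c₀ γ') (h2 : ∀ s : deg.ker, (s : Λ) ∈ S → 3 ∣ c₀ s)
    (h3 : ∃ γ, c₀ γ = 1) (T : Subgroup S) [T.FiniteIndex] {l : Λ} (hl : 0 < (deg l).toAdd) :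
    (0 < Nat.card (Function.fixedPoints (D l)) → ∀ γ : S, ∃ x : U, ∃ s ∈ T,
      l • x = (γ * s) • x) ∧ (T.Normal → (∀ γ ∈ T, MulAut.conjNormal l γ ∈ T) →
        fixCard (MulAut.conjNormal l) T ∣ Nat.card (Function.fixedPoints (D l))) := by
  obtain ⟨S', n1, n2, n3, n4⟩ := exists_normal_le h.fg (main_rel h.le h.fin T)
  have n5 : S' ≤ S := n2.trans (Subgroup.map_subtype_le T)
  have n6 : S'.relIndex S ≠ 0 := fun e => n4 (Subgroup.relIndex_eq_zero_of_le_right h.le e)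
  obtain ⟨Y', _, _, _, _, a', d', q', D', π, h', -, -⟩ := h.exists_cover S' n5 n6
  obtain ⟨V0, V1, V2, _, _, _, _, _, _, c, p, m, pk, hb⟩ := h'.exists_pk
  have := main_fg h.fg n3 n4
  obtain ⟨b, cc, hc⟩ := exists_hb S'
  have e := ((hb b cc hc).2 c₀ h1 (fun s hs => h2 s (n5 hs)) h3).2.2
  obtain ⟨k1, k2, k3⟩ := nielsen n5 n6 (fun γ hγ => h.free γ (h.le hγ)) h'.cov.surjective
    h.cov.surjective h'.eq_iff h.eq_iff (D := fun l => D' l) (D₀ := fun l => D l) h'.act h.act l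
    (n := Nat.card (Function.fixedPoints (D' l))) fun γ hγ =>
      ⟨(pk.lef _ (Or.inl (by rwa [map_mul, MonoidHom.mem_ker.1 (h.le hγ), one_mul]))).1,
        pk.card_eq hc e n5 h.le n6 hm (fun γ hγ hγ' => h'.ne (h.le hγ) hγ') hγ hl⟩
  have k4 : S'.subgroupOf S ≤ T := fun s hs => by
    obtain ⟨s', hs', e⟩ := n2 hs
    rwa [← Subtype.ext e]
  rw [k1]
  refine ⟨fun h0 γ => ?_, fun hT => k3 T hT k4⟩
  obtain ⟨x, s, hs, e⟩ := k2 h0 γ γ.2
  exact ⟨x, ⟨s, n5 hs⟩, k4 hs, e⟩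

theorem Sys.torus (h : Sys a d q deg deg.ker D t) {l₀ : Λ} (hl₀ : 0 < (deg l₀).toAdd) {u : U}
    (hu : l₀ • u = u) :
    ∃ (Y' : Type) (_ : TopologicalSpace Y') (_ : CompactSpace Y') (_ : T2Space Y')
      (_ : ConnectedSpace Y') (a' : Fr Y') (d' : FDyn a' 4) (q' : U → Y') (D' : Λ →* (Y' ≃ₜ Y'))
      (π : Y' → Y) (S : Subgroup Λ) (_ : S.Normal) (l : Λ) (c : S → Fin 4 → ℤ)
      (A : Matrix (Fin 4) (Fin 4) ℤ), Sys a' d' q' deg S D' t ∧ IsCoveringMap π ∧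
      (∀ x, π (q' x) = q x) ∧ 0 < (deg l).toAdd ∧ (∀ γ γ', c (γ * γ') = c γ + c γ') ∧
      (∀ γ, c (MulAut.conjNormal l γ) = A *ᵥ c γ) ∧ A.det = 1 ∧ HypM A ∧
      (∀ n, 1 ≤ n → ∀ m : Fin 4 → ℤ, ∃ (x : U) (γ : S), l ^ n • x = γ • x ∧ c γ = m) ∧
      ∀ n, 1 ≤ n → (Function.fixedPoints (D' (l ^ n))).Finite ∧
        (Nat.card (Function.fixedPoints (D' (l ^ n))) : ℤ) = (1 - A ^ n).det := by
  have := (Group.fg_iff_subgroup_fg _).2 h.fg
  obtain ⟨b₀, c₀, hc₀⟩ := exists_hb deg.ker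
  obtain ⟨_, _, _, _, _, _, _, _, _, _, -, -, -, hb₀⟩ := h.exists_pk
  let i₀ : Fin b₀ := ⟨0, (hb₀ b₀ c₀ hc₀).1⟩
  have h1 : ∀ γ γ', c₀ (γ * γ') i₀ = c₀ γ i₀ + c₀ γ' i₀ := fun γ γ' => congrFun (hc₀.mul γ γ') i₀
  have h3 : ∃ γ, c₀ γ i₀ = 1 := (hc₀.surj 1).imp fun γ e => congrFun e i₀
  obtain ⟨T, _, hT⟩ := main_mod hc₀.mul three_ne_zero
  have h2 : ∀ S ≤ T.map deg.ker.subtype, ∀ s : deg.ker, (s : Λ) ∈ S → 3 ∣ c₀ s i₀ :=
    fun S hS s hs => by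
      obtain ⟨s', hs', e⟩ := hS hs
      exact Subtype.ext e ▸ hT s' hs' i₀
  obtain ⟨S, n1, n2, n3, n4, hm⟩ := exists_maxB h.fg (main_rel le_rfl h.fin T) (n := 4)
    fun S n1 n2 n3 n4 b c hc => by
      obtain ⟨Y', _, _, _, _, a', d', q', D', π, h', -, -⟩ := h.exists_cover S n3 n4
      obtain ⟨_, _, _, _, _, _, _, _, _, _, -, -, -, hb⟩ := h'.exists_pk
      exact ((hb b c hc).2 _ h1 (h2 S n2) h3).2.1
  obtain ⟨Y', _, _, _, _, a', d', q', D', π, h', hπ, hq⟩ := h.exists_cover S n3 n4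
  obtain ⟨V0, V1, V2, _, _, _, _, _, _, c, p, m, pk, hb⟩ := h'.exists_pk
  have := main_fg h.fg n3 n4
  obtain ⟨b, cc, hc⟩ := exists_hb S
  obtain ⟨b2, b4, e⟩ := (hb b cc hc).2 _ h1 (h2 S n2) h3
  obtain ⟨A₀, a1, a2⟩ := hc.exists_matrix (MulAut.conjNormal l₀)
  have hA : ∀ γ, cc (MulAut.conjNormal (l₀ ^ 2) γ) = (A₀ ^ 2) *ᵥ cc γ := fun γ => by
    rw [sq, sq, map_mul, MulAut.mul_apply, a1, a1, mulVec_mulVec]
  have hdet : (A₀ ^ 2).det = 1 := by rw [det_pow, a2]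
  set l := l₀ ^ 2 with hl
  set A := A₀ ^ 2
  have hp : ∀ n, 1 ≤ n → 0 < (deg (l ^ n)).toAdd := fun n hn => by
    rw [hl, ← pow_mul, map_pow, toAdd_pow, nsmul_eq_mul]
    positivity
  have hL : ∀ n, 1 ≤ n → 0 < Nat.card (Function.fixedPoints (D' (l ^ n))) := fun n hn => by
    have := (pk.lef _ (Or.inl (hp n hn))).1.to_subtype
    have : Nonempty (Function.fixedPoints (D' (l ^ n))) := ⟨q' u, by
      rw [Function.mem_fixedPoints_iff, h'.act, hl, ← pow_mul,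
        (MulAction.mem_stabilizer_iff).1 (pow_mem (MulAction.mem_stabilizer_iff.2 hu) _)]⟩
    exact Nat.card_pos
  have := pk.fd1
  have := pk.fd2
  obtain ⟨rfl, hyp, hn⟩ := c.alg pk.nd p (m l) (m l⁻¹) (MulAut.conjNormal l) (pk.eqv l)
    (by rw [← map_inv]; exact pk.eqv l⁻¹) hc b2 b4 e hm A hA hdet
    (fun n => Nat.card (Function.fixedPoints (D' (l ^ n)))) hL (fun n hn => by
      rw [(pk.lef _ (Or.inl (hp n hn))).2, Cx.Mor.lef, ← inv_pow, pk.h1_pow l, pk.h1_pow l⁻¹,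
        pk.h2_pow l])
    fun n hn T t1 t2 t3 => by
      rw [← map_pow] at t3 ⊢
      exact (h'.count hm h1 (h2 S n2) h3 T (hp n hn)).2 t1 t3
  refine ⟨Y', _, ‹_›, ‹_›, ‹_›, a', d', q', D', π, S, n1, l, cc, A, h', hπ, hq, by
    simpa using hp 1 le_rfl, hc.mul, hA, hdet, hyp, fun n h0 v => ?_,
    fun n h0 => ⟨(pk.lef _ (Or.inl (hp n h0))).1, hn n h0⟩⟩
  obtain ⟨T, _, hT⟩ := main_mod hc.mul (hL n h0).ne'
  obtain ⟨γ, rfl⟩ := hc.surj v
  obtain ⟨x, s, hs, e⟩ := (h'.count hm h1 (h2 S n2) h3 T (hp n h0)).1 (hL n h0) γ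
  choose k hk using hT s hs
  obtain ⟨δ, hδ⟩ := hc.surj ((1 - A ^ n).adjugate *ᵥ k)
  have c1 : cc 1 = 0 := by simpa using hc.mul 1 1
  have c2 : cc δ⁻¹ = -cc δ := eq_neg_of_add_eq_zero_left (by rw [← hc.mul, inv_mul_cancel, c1])
  have c3 : ∀ j, cc (MulAut.conjNormal (l ^ j) δ) = A ^ j *ᵥ cc δ := fun j => by
    induction j with
    | zero => simp
    | succ j ih => rw [pow_succ', map_mul, MulAut.mul_apply, hA, ih, mulVec_mulVec, pow_succ']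
  refine ⟨δ • x, MulAut.conjNormal (l ^ n) δ * (γ * s) * δ⁻¹, ?_, ?_⟩
  · rw [mul_smul, inv_smul_smul, mul_smul, ← e]
    change l ^ n • (δ : Λ) • x = (l ^ n * δ * (l ^ n)⁻¹) • l ^ n • x
    simp only [smul_smul, inv_mul_cancel_right]
  · have c4 : (1 - A ^ n) *ᵥ cc δ = cc s := by
      rw [hδ, mulVec_mulVec, mul_adjugate, smul_mulVec, one_mulVec, ← hn n h0]
      exact funext fun i => (hk i).symm
    rw [hc.mul, hc.mul, hc.mul, c2, c3, ← c4, sub_mulVec, one_mulVec]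
    abel

end SX4
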