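import Pool.Agent.P.MP_0a0487_an.SX.NoODyn
import Pool.Agent.P.MP_0a0487_an.SX.Cover1
import Pool.Agent.P.MP_0a0487_an.SX.Cover2
import Pool.Agent.P.MP_0a0487_an.SX.Restr
import Pool.Agent.P.MP_0a0487_an.SX.ChainT

/-! No hyperbolic dynamics without wandering points when the virtual first Betti number vanishes. -/

set_option autoImplicit false
set_option linter.unusedSectionVars false

noncomputable section

namespace SX4

open scoped ContDiff
open Filter Topology Matrix

theorem noUDyn_sq {Y : Type} [TopologicalSpace Y] [MulAction (Fin 2 → ℤˣ) Y]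
    (hc : ∀ g : Fin 2 → ℤˣ, Continuous fun y : Y => g • y) {F : Y → Y} (hF : Continuous F)
    (comm : ∀ (g : Fin 2 → ℤˣ) y, F (g • y) = g • F y) {y₀ : Y}
    (hs : ∀ y, ∃ g : Fin 2 → ℤˣ, ∃ y' ∈ connectedComponent y₀, y = g • y') :
    ∀ y ∈ connectedComponent y₀, F (F y) ∈ connectedComponent y₀ := by
  obtain ⟨g, y₁, h1, h2⟩ := hs (F y₀)
  have hg : g * g = 1 := funext fun m => Int.units_mul_self (g m)
  have key : ∀ y ∈ connectedComponent y₀, g • F y ∈ connectedComponent y₀ := fun y hy => by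
    have h3 := ((hc g).comp hF).image_connectedComponent_subset y₀ ⟨y, hy, rfl⟩
    simp only [Function.comp_apply] at h3
    rwa [h2, smul_smul, hg, one_smul, ← connectedComponent_eq h1] at h3
  intro y hy
  have := key _ (key y hy)
  rwa [comm, smul_smul, hg, one_smul] at this

theorem noUDyn_iter {Y : Type} {S : Set Y} {F : Y → Y} {G : S → S}
    (h : ∀ x, (G x : Y) = F (F x)) (m : ℕ) (x : S) : (G^[m] x : Y) = F^[2 * m] x := by
  induction m generalizing x with
  | zero => rfl
  | succ m ih =>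
    rw [Function.iterate_succ_apply, ih, h, Nat.mul_succ, Function.iterate_add_apply]
    rfl

theorem noUDyn_sub {Y : Type} {S : Set Y} {r : Y → Y → Prop} {r' : S → S → Prop}
    (h : ∀ x y : S, r x y → r' x y) {x y : Y}
    (H : Relation.ReflTransGen (fun x y => x ∈ S ∧ y ∈ S ∧ r x y) x y) (hx : x ∈ S) (hy : y ∈ S) :
    Relation.ReflTransGen r' ⟨x, hx⟩ ⟨y, hy⟩ := by
  induction H with
  | refl => exact .refl
  | tail _ h2 ih => exact (ih h2.1).tail (h ⟨_, h2.1⟩ ⟨_, hy⟩ h2.2.2)

/-- The square of the map lifts to an oriented chain transitive system on a finite cover. -/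
theorem Fr.exists_odyn {M : Type} [TopologicalSpace M] [CompactSpace M] [T2Space M]
    [ConnectedSpace M] (a : Fr M) (ho : a.Ort) (d : FDyn a 8) (hw : NonW d.h) :
    ∃ (X : Type) (_ : TopologicalSpace X) (_ : CompactSpace X) (_ : T2Space X)
      (_ : ConnectedSpace X) (a' : Fr X) (d' : FDyn a' 4) (π : X → M), a'.Ori ∧ d'.Or ∧ d'.Ch ∧
      IsCoveringMap π ∧ ∀ x, π (d'.h x) = d.h (d.h (π x)) := by
  obtain ⟨x₀⟩ : Nonempty M := inferInstance
  obtain ⟨Y, _, _, _, _, b, ⟨c⟩⟩ := a.exists_cov ho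
  obtain ⟨D, hOr, hπ, hcomm⟩ := c.exists_lift d
  obtain ⟨y₀, hy₀⟩ := c.π_surj x₀
  have := b.locallyPathConnectedSpace
  have hS : IsClopen (connectedComponent y₀) := isClopen_connectedComponent
  have hop : IsOpenMap c.π := c.isLocalHomeomorph.isOpenMap
  have hs : ∀ y, ∃ g : Fin 2 → ℤˣ, ∃ y' ∈ connectedComponent y₀, y = g • y' := fun y => by
    have h1 : IsClopen (c.π '' connectedComponent y₀) :=
      ⟨(hS.1.isCompact.image c.π_cont).isClosed, hop _ hS.2⟩
    obtain ⟨y', h2, h3⟩ := (h1.eq_univ ⟨_, y₀, mem_connectedComponent, rfl⟩).ge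
      (Set.mem_univ (c.π y))
    obtain ⟨g, hg⟩ := c.fib h3
    exact ⟨g, y', h2, hg⟩
  have hπ' : ∀ y, c.π (D.h.symm y) = d.h.symm (c.π y) := fun y => by
    rw [Homeomorph.eq_symm_apply, ← hπ, Homeomorph.apply_symm_apply]
  have hcomm' : ∀ (g : Fin 2 → ℤˣ) y, D.h.symm (g • y) = g • D.h.symm y := fun g y => by
    rw [Homeomorph.symm_apply_eq, hcomm, Homeomorph.apply_symm_apply]
  have i1 := noUDyn_sq c.act_cont D.h.continuous hcomm hs
  have i2 := noUDyn_sq c.act_cont D.h.symm.continuous hcomm' hs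
  obtain ⟨D', hOr', hsq⟩ := D.exists_sq c.ori hOr
  have : Nonempty (connectedComponent y₀) := ⟨⟨y₀, mem_connectedComponent⟩⟩
  obtain ⟨a', d', ho', hor', hh, he⟩ := D'.exists_restr c.ori hOr' hS fun x => by
    rw [hsq]
    exact ⟨fun h => by simpa using i2 _ h, i1 x⟩
  have : CompactSpace (connectedComponent y₀) := isCompact_iff_compactSpace.1 hS.1.isCompact
  have : ConnectedSpace (connectedComponent y₀) :=
    Subtype.connectedSpace isConnected_connectedComponent
  have := a'.locallyPathConnectedSpace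
  have : PathConnectedSpace (connectedComponent y₀) :=
    pathConnectedSpace_iff_connectedSpace.2 inferInstance
  have ch : ∀ (f : M → M) (F : Y ≃ₜ Y) (G : connectedComponent y₀ → connectedComponent y₀),
      NonW f → (∀ y, c.π (F y) = f (c.π y)) →
      (∀ (g : Fin 2 → ℤˣ) y, F (g • y) = g • F y) → (∀ x, (G x : Y) = F (F x)) →
      ∀ m, 1 ≤ m → a'.Chain G^[m] := fun f F G h1 h2 h3 h4 m hm ε hε x y =>
    noUDyn_sub (r := fun x y => ‖b.e (F^[2 * m] x) - b.e y‖ ≤ ε)
      (fun x y h => by rwa [he, noUDyn_iter h4])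
      (chain_of_nonW h1 F c.π hop h2 c.act_cont h3 (fun _ _ => c.fib) hS
        isPreconnected_connectedComponent (by omega)
        (fun z hz => noUDyn_iter h4 m ⟨z, hz⟩ ▸ (G^[m] ⟨z, hz⟩).2) b.sm_e.continuous hε x.2 y.2)
      x.2 y.2
  have h5 : ∀ x, (d'.h x : Y) = D.h (D.h x) := fun x => (hh x).trans (hsq x)
  refine ⟨connectedComponent y₀, inferInstance, inferInstance, inferInstance, inferInstance, a', d',
    fun y => c.π y, ho', hor', fun m hm =>
    ⟨ch _ D.h _ hw hπ hcomm h5 m hm, ch _ D.h.symm _ hw.symm hπ' hcomm' (fun x => ?_) m hm⟩,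
    isLocalHomeomorph_iff_isCoveringMap.1
      (c.isLocalHomeomorph.comp hS.2.isOpenEmbedding_subtypeVal.isLocalHomeomorph), fun x => ?_⟩
  · rw [Homeomorph.eq_symm_apply, Homeomorph.eq_symm_apply, ← h5, Homeomorph.apply_symm_apply]
  · change c.π (d'.h x) = d.h (d.h (c.π x))
    rw [h5, hπ, hπ]

end SX4
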