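import Pool.Agent.P.MP_0a0487_an.SX.FrDefs

/-! Local orthonormal frames. -/

set_option autoImplicit false
set_option linter.unusedSectionVars false

noncomputable section

namespace SX4

open scoped ContDiff
open Filter Topology Matrix

section Aux

variable {E F : Type} [NormedAddCommGroup E] [NormedSpace ℝ E] [NormedAddCommGroup F]
  [InnerProductSpace ℝ F] {y₀ : E}

theorem Proj2_unit {a : E → F} (ha : ∀ᶠ y in 𝓝 y₀, ContDiffAt ℝ ∞ a y) (h0 : a y₀ ≠ 0) :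
    ∀ᶠ y in 𝓝 y₀, ‖‖a y‖⁻¹ • a y‖ = 1 ∧ ContDiffAt ℝ ∞ (fun y => ‖a y‖⁻¹ • a y) y := by
  filter_upwards [ha, ha.self_of_nhds.continuousAt.eventually_ne h0] with y h1 h2
  exact ⟨norm_smul_inv_norm (𝕜 := ℝ) h2, ((h1.norm ℝ h2).inv (norm_ne_zero_iff.2 h2)).smul h1⟩

theorem Proj2_gs {a b : E → F} (ha : ∀ᶠ y in 𝓝 y₀, ContDiffAt ℝ ∞ a y)
    (hb : ∀ᶠ y in 𝓝 y₀, ContDiffAt ℝ ∞ b y) (h0 : a y₀ ≠ 0) (h1 : b y₀ ≠ 0)
    (h2 : inner ℝ (a y₀) (b y₀) = 0) :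
    ∃ f : Fin 2 → E → F, ∀ᶠ y in 𝓝 y₀, (∀ l, ContDiffAt ℝ ∞ (f l) y) ∧
      Orthonormal ℝ (fun l => f l y) ∧ ∀ l, ∃ s t : ℝ, f l y = s • a y + t • b y := by
  have A := Proj2_unit ha h0
  set u : E → F := fun y => ‖a y‖⁻¹ • a y with hu
  set v : E → F := fun y => b y - inner ℝ (u y) (b y) • u y with hv
  have hv' : ∀ᶠ y in 𝓝 y₀, ContDiffAt ℝ ∞ v y := by
    filter_upwards [A, hb] with y k1 k2
    exact k2.sub ((k1.2.inner ℝ k2).smul k1.2)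
  have B := Proj2_unit hv' (by simpa [hv, hu, inner_smul_left, h2] using h1)
  refine ⟨![u, fun y => ‖v y‖⁻¹ • v y], ?_⟩
  filter_upwards [A, B] with y k1 k2
  have k3 : inner ℝ (u y) (‖v y‖⁻¹ • v y) = 0 := by
    have : ‖u y‖ = 1 := k1.1
    rw [inner_smul_right, hv]
    simp only [inner_sub_right, inner_smul_right, real_inner_self_eq_norm_sq, this]
    ring
  refine ⟨fun l => ?_, ⟨fun l => ?_, fun l l' h => ?_⟩, fun l => ?_⟩
  · fin_cases l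
    exacts [k1.2, k2.2]
  · fin_cases l
    exacts [k1.1, k2.1]
  · fin_cases l <;> fin_cases l'
    exacts [absurd rfl h, k3, (real_inner_comm _ _).trans k3, absurd rfl h]
  · fin_cases l
    · exact ⟨‖a y‖⁻¹, 0, by simp [hu]⟩
    · refine ⟨-(‖v y‖⁻¹ * inner ℝ (u y) (b y) * ‖a y‖⁻¹), ‖v y‖⁻¹, ?_⟩
      show ‖v y‖⁻¹ • (b y - inner ℝ (u y) (b y) • ‖a y‖⁻¹ • a y) = _
      module

theorem Proj2_inv [FiniteDimensional ℝ E] [FiniteDimensional ℝ F] {D : E → E →L[ℝ] F}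
    (hD : ∀ᶠ y in 𝓝 y₀, ContDiffAt ℝ ∞ D y) (h0 : Function.Injective (D y₀)) :
    ∃ L : E → F →L[ℝ] E, ∀ᶠ y in 𝓝 y₀, ContDiffAt ℝ ∞ L y ∧ ∀ w, L y (D y w) = w := by
  haveI := FiniteDimensional.complete ℝ E
  obtain ⟨L₀, hL⟩ := (D y₀ : E →ₗ[ℝ] F).exists_leftInverse_of_injective
    (LinearMap.ker_eq_bot.2 h0)
  set L₁ := LinearMap.toContinuousLinearMap L₀
  have hA : ∀ᶠ y in 𝓝 y₀, ContDiffAt ℝ ∞ (fun y => L₁.comp (D y)) y :=
    hD.mono fun y h => contDiffAt_const.clm_comp h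
  have h1 : L₁.comp (D y₀) = (1 : (E →L[ℝ] E)ˣ) :=
    ContinuousLinearMap.ext fun w => LinearMap.congr_fun hL w
  have h2 : ∀ᶠ y in 𝓝 y₀, IsUnit (L₁.comp (D y)) :=
    hA.self_of_nhds.continuousAt.eventually (Units.isOpen.mem_nhds ⟨1, h1.symm⟩)
  refine ⟨fun y => (Ring.inverse (L₁.comp (D y))).comp L₁, ?_⟩
  filter_upwards [hA, h2] with y k1 k2
  refine ⟨ContDiffAt.clm_comp ?_ contDiffAt_const, fun w => ?_⟩
  · exact ContDiffAt.comp y (g := Ring.inverse) (contDiffAt_ringInverse ℝ k2.unit) k1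
  · exact congrArg (fun T : E →L[ℝ] E => T w) (Ring.inverse_mul_cancel _ k2)

end Aux

theorem CA.Proj.exists_frame {M : Type} [TopologicalSpace M] {c : CA M} {K δ : ℝ}
    (π : c.Proj K δ) (x : M) : ∃ (i : c.ι) (r : ℝ) (V : E4 → M4), 0 < r ∧ x ∈ (c.φ i).source ∧
      π.IsFrame i (Metric.ball (c.φ i x) r) V := by
  obtain ⟨i, hi⟩ := c.cover x
  have ht : ∀ᶠ y in 𝓝 (c.φ i x), y ∈ (c.φ i).target :=
    (c.φ i).open_target.mem_nhds ((c.φ i).map_source hi)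
  obtain ⟨L, hL⟩ := Proj2_inv (y₀ := c.φ i x) (D := fderiv ℝ fun y => c.e ((c.φ i).symm y))
    (ht.mono fun y hy => ((c.e_sm i).contDiffAt ((c.φ i).open_target.mem_nhds hy)).fderiv_right
      (m := ∞) le_rfl) (c.imm i _ ht.self_of_nhds)
  have key : ∀ m, ∃ f : Fin 2 → E4 → EuclideanSpace ℝ (Fin c.N), ∀ᶠ y in 𝓝 (c.φ i x),
      (∀ l, ContDiffAt ℝ ∞ (f l) y) ∧ Orthonormal ℝ (fun l => f l y) ∧
        ∀ l, ∃ u, f l y = π.p m ((c.φ i).symm y) u := fun m => by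
    let b := (stdOrthonormalBasis ℝ (LinearMap.range (π.p m x).toLinearMap)).reindex
      (finCongr (π.rank m x))
    have hb : ∀ l, π.p m ((c.φ i).symm (c.φ i x)) (b l) = b l := fun l => by
      obtain ⟨u, hu⟩ := (b l).2
      rw [(c.φ i).left_inv hi, ← hu]
      exact π.idem m x u
    have hs : ∀ l, ∀ᶠ y in 𝓝 (c.φ i x),
        ContDiffAt ℝ ∞ (fun y => π.p m ((c.φ i).symm y) (b l)) y := fun l =>
      ht.mono fun y hy => ((π.sm m i).contDiffAt ((c.φ i).open_target.mem_nhds hy)).clm_apply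
        contDiffAt_const
    have hn : ∀ l, π.p m ((c.φ i).symm (c.φ i x)) (b l) ≠ 0 := fun l => by
      rw [hb]
      exact fun h => b.orthonormal.ne_zero l (Subtype.ext h)
    obtain ⟨f, hf⟩ := Proj2_gs (hs 0) (hs 1) (hn 0) (hn 1) (by
      rw [hb, hb]
      exact b.orthonormal.2 zero_ne_one)
    refine ⟨f, hf.mono fun y h => ⟨h.1, h.2.1, fun l => ?_⟩⟩
    obtain ⟨s, t, h⟩ := h.2.2 l
    exact ⟨s • b 0 + t • b 1, by rw [h, map_add, map_smul, map_smul]⟩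
  choose f hf using key
  obtain ⟨r, hr, H⟩ := Metric.eventually_nhds_iff_ball.1 (ht.and (hL.and (eventually_all.2 hf)))
  have col : ∀ y ∈ Metric.ball (c.φ i x) r, ∀ m l : Fin 2, c.De id i ((c.φ i).symm y)
      ((Matrix.of fun a s => L y (![f 0 0, f 0 1, f 1 0, f 1 1] s y) a) *ᵥ
        Pi.single (![![0, 1], ![2, 3]] m l) 1) = f m l y := fun y hy m l => by
    obtain ⟨h1, h2, h3⟩ := H y hy
    obtain ⟨u, hu⟩ := (h3 m).2.2 l
    obtain ⟨w, hw⟩ := π.rng i _ ((c.φ i).map_target h1) m u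
    have e1 : c.De id i ((c.φ i).symm y) = fderiv ℝ (fun y => c.e ((c.φ i).symm y)) y := by
      rw [CA.De, (c.φ i).right_inv h1]
      rfl
    have e2 : (Matrix.of fun a s => L y (![f 0 0, f 0 1, f 1 0, f 1 1] s y) a) *ᵥ
        Pi.single (![![0, 1], ![2, 3]] m l) 1 = L y (f m l y) := by
      rw [mulVec_single_one]
      fin_cases m <;> fin_cases l <;> rfl
    rw [e2, hu, hw, e1, h2.2]
  refine ⟨i, r, fun y => Matrix.of fun a s => L y (![f 0 0, f 0 1, f 1 0, f 1 1] s y) a, hr, hi,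
    fun y hy => (H y hy).1, fun a s y hy => ?_, fun y hy m => ?_, fun y hy m l => ?_⟩
  · obtain ⟨-, h2, h3⟩ := H y hy
    refine ContDiffAt.contDiffWithinAt (contDiffAt_pi.1 (h2.1.clm_apply ?_) a)
    fin_cases s
    exacts [(h3 0).1 0, (h3 0).1 1, (h3 1).1 0, (h3 1).1 1]
  · rw [funext (col y hy m)]
    exact ((H y hy).2.2 m).2.1
  · obtain ⟨u, hu⟩ := ((H y hy).2.2 m).2.2 l
    rw [col y hy, hu, π.idem]

end SX4
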