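import Pool.Agent.P.MP_0a0487_an.SX.Proj1
import Pool.Agent.P.MP_0a0487_an.SX.Proj2
import Pool.Agent.P.MP_0a0487_an.SX.FrB

/-! The framed atlas of an Anosov diffeomorphism. -/

set_option autoImplicit false
set_option linter.unusedSectionVars false

noncomputable section

namespace SX4

open scoped ContDiff
open Filter Topology Matrix

section Lin

variable {E : Type} [NormedAddCommGroup E] [InnerProductSpace ℝ E]

/-- A frame that is orthonormal in each of the two planes. -/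
structure Proj3Good (G : E4 →ₗ[ℝ] E) (p : Fin 2 → E →L[ℝ] E) : Prop where
  h0 : ∀ v, p 0 (G v) = G (P0 *ᵥ v)
  h1 : ∀ v, p 1 (G v) = G (v - P0 *ᵥ v)
  n0 : ∀ v, ‖G (P0 *ᵥ v)‖ ^ 2 = v 0 ^ 2 + v 1 ^ 2
  n1 : ∀ v, ‖G (v - P0 *ᵥ v)‖ ^ 2 = v 2 ^ 2 + v 3 ^ 2

theorem proj3_P0 (v : E4) : P0 *ᵥ v = v 0 • Pi.single 0 1 + v 1 • Pi.single 1 1 := by
  ext a
  fin_cases a <;> simp [P0, Matrix.mulVec_diagonal]

theorem proj3_P1 (v : E4) : v - P0 *ᵥ v = v 2 • Pi.single 2 1 + v 3 • Pi.single 3 1 := by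
  ext a
  fin_cases a <;> simp [P0, Matrix.mulVec_diagonal]

theorem proj3_norm {f : Fin 2 → E} (h : Orthonormal ℝ f) (s t : ℝ) :
    ‖s • f 0 + t • f 1‖ ^ 2 = s ^ 2 + t ^ 2 := by
  rw [norm_add_sq_real, norm_smul, norm_smul, h.1, h.1, inner_smul_left, inner_smul_right,
    h.2 (show (0 : Fin 2) ≠ 1 by decide)]
  simp

theorem proj3_good {G : E4 →ₗ[ℝ] E} {p : Fin 2 → E →L[ℝ] E}
    (ho : ∀ u, p 0 (p 1 u) = 0 ∧ p 1 (p 0 u) = 0)
    (h1 : ∀ m : Fin 2, Orthonormal ℝ fun l : Fin 2 => G (Pi.single (![![0, 1], ![2, 3]] m l) 1))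
    (h2 : ∀ m l : Fin 2, p m (G (Pi.single (![![0, 1], ![2, 3]] m l) 1)) =
      G (Pi.single (![![0, 1], ![2, 3]] m l) 1)) : Proj3Good G p := by
  have a0 : p 0 (G (Pi.single 0 1)) = G (Pi.single 0 1) := h2 0 0
  have a1 : p 0 (G (Pi.single 1 1)) = G (Pi.single 1 1) := h2 0 1
  have a2 : p 1 (G (Pi.single 2 1)) = G (Pi.single 2 1) := h2 1 0
  have a3 : p 1 (G (Pi.single 3 1)) = G (Pi.single 3 1) := h2 1 1
  have b0 : ∀ v, p 0 (G (P0 *ᵥ v)) = G (P0 *ᵥ v) := fun v => by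
    simp only [proj3_P0, map_add, map_smul, a0, a1]
  have b1 : ∀ v, p 1 (G (v - P0 *ᵥ v)) = G (v - P0 *ᵥ v) := fun v => by
    simp only [proj3_P1, map_add, map_smul, a2, a3]
  have e : ∀ v, G v = G (P0 *ᵥ v) + G (v - P0 *ᵥ v) := fun v => by
    rw [← map_add, add_sub_cancel]
  refine ⟨fun v => ?_, fun v => ?_, fun v => ?_, fun v => ?_⟩
  · rw [e v, map_add, b0, ← b1, (ho _).1, add_zero]
  · rw [e v, map_add, b1, ← b0, (ho _).2, zero_add]
  · rw [proj3_P0, map_add, map_smul, map_smul]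
    exact proj3_norm (h1 0) _ _
  · rw [proj3_P1, map_add, map_smul, map_smul]
    exact proj3_norm (h1 1) _ _

variable {G G' : E4 →ₗ[ℝ] E} {p : Fin 2 → E →L[ℝ] E}

theorem Proj3Good.upper (h : Proj3Good G p) (v : E4) : ‖G v‖ ≤ 4 * ‖v‖ := by
  have e : G v = G (P0 *ᵥ v) + G (v - P0 *ᵥ v) := by rw [← map_add, add_sub_cancel]
  have hv : ∀ a, v a ^ 2 ≤ ‖v‖ ^ 2 := fun a => by
    rw [← sq_abs]
    exact pow_le_pow_left₀ (abs_nonneg _) (norm_le_pi_norm v a) 2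
  have h0 : ‖G (P0 *ᵥ v)‖ ≤ 2 * ‖v‖ := by
    refine abs_le_of_sq_le_sq' ?_ (by positivity) |>.2
    rw [h.n0]; nlinarith [hv 0, hv 1, sq_nonneg ‖v‖]
  have h1 : ‖G (v - P0 *ᵥ v)‖ ≤ 2 * ‖v‖ := by
    refine abs_le_of_sq_le_sq' ?_ (by positivity) |>.2
    rw [h.n1]; nlinarith [hv 2, hv 3, sq_nonneg ‖v‖]
  rw [e]
  linarith [norm_add_le (G (P0 *ᵥ v)) (G (v - P0 *ᵥ v))]

theorem Proj3Good.lower (h : Proj3Good G p) {K : ℝ} (hK : ∀ m, ‖p m‖ ≤ K) (v : E4) :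
    ‖v‖ ≤ K * ‖G v‖ := by
  have hp : ∀ m, ‖p m (G v)‖ ≤ K * ‖G v‖ := fun m =>
    ((p m).le_opNorm _).trans (mul_le_mul_of_nonneg_right (hK m) (norm_nonneg _))
  have h0 := hp 0
  have h1 := hp 1
  rw [h.h0] at h0
  rw [h.h1] at h1
  refine (pi_norm_le_iff_of_nonneg ((norm_nonneg _).trans h0)).2 fun a => ?_
  have n0 := h.n0 v
  have n1 := h.n1 v
  have k : ∀ {s t : ℝ}, s ^ 2 ≤ t ^ 2 → 0 ≤ t → ‖s‖ ≤ t := fun h ht => abs_le_of_sq_le_sq h ht
  fin_cases a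
  · exact (k (by rw [n0]; simp only [Fin.zero_eta]; nlinarith [sq_nonneg (v 1)])
      (norm_nonneg _)).trans h0
  · exact (k (by rw [n0]; simp only [Fin.mk_one]; nlinarith [sq_nonneg (v 0)])
      (norm_nonneg _)).trans h0
  · exact (k (by rw [n1]; simp only [Fin.reduceFinMk]; nlinarith [sq_nonneg (v 3)])
      (norm_nonneg _)).trans h1
  · exact (k (by rw [n1]; simp only [Fin.reduceFinMk]; nlinarith [sq_nonneg (v 2)])
      (norm_nonneg _)).trans h1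

theorem proj3_two {a b c d : ℝ} (h : ∀ s t : ℝ, (a * s + b * t) ^ 2 + (c * s + d * t) ^ 2 =
    s ^ 2 + t ^ 2) : a ^ 2 + c ^ 2 = 1 ∧ (a * d - b * c = 1 ∨ a * d - b * c = -1) ∧
      b = -c * (a * d - b * c) ∧ d = a * (a * d - b * c) := by
  have h1 : a ^ 2 + c ^ 2 = 1 := by simpa using h 1 0
  have h2 : b ^ 2 + d ^ 2 = 1 := by simpa using h 0 1
  have h3 : a * b + c * d = 0 := by have := h 1 1; nlinarith
  refine ⟨h1, ?_, ?_, ?_⟩
  · apply mul_self_eq_one_iff.1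
    linear_combination (b ^ 2 + d ^ 2) * h1 + h2 - (a * b + c * d) * h3
  · linear_combination -b * h1 + a * h3
  · linear_combination -d * h1 + c * h3

theorem Proj3Good.isOrt (h : Proj3Good G p) (h' : Proj3Good G' p) {J : M4}
    (hJ : ∀ v, G v = G' (J *ᵥ v)) : IsOrt J := by
  have hi : ∀ v w, G' v = G' w → v = w := fun v w e => by
    have := h'.lower (K := max ‖p 0‖ ‖p 1‖) (fun m => by fin_cases m <;> simp) (v - w)
    rw [map_sub, e, sub_self, norm_zero, mul_zero] at this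
    exact sub_eq_zero.1 (norm_le_zero_iff.1 this)
  have hc : ∀ v, J *ᵥ (P0 *ᵥ v) = P0 *ᵥ (J *ᵥ v) := fun v =>
    hi _ _ (by rw [← hJ, ← h.h0, hJ, h'.h0])
  have z0 : ∀ a b, a = 0 ∨ a = 1 → b = 2 ∨ b = 3 → J a b = 0 ∧ J b a = 0 := by
    intro a b ha hb
    have e1 := congrFun (hc (Pi.single b 1)) a
    have e2 := congrFun (hc (Pi.single a 1)) b
    rw [proj3_P0, proj3_P0] at e1 e2
    rcases ha with rfl | rfl <;> rcases hb with rfl | rfl <;>
      simp at e1 e2 <;> exact ⟨e1.symm, e2⟩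
  obtain ⟨a02, a20⟩ := z0 0 2 (.inl rfl) (.inl rfl)
  obtain ⟨a03, a30⟩ := z0 0 3 (.inl rfl) (.inr rfl)
  obtain ⟨a12, a21⟩ := z0 1 2 (.inr rfl) (.inl rfl)
  obtain ⟨a13, a31⟩ := z0 1 3 (.inr rfl) (.inr rfl)
  have m0 : ∀ s t : ℝ, (J 0 0 * s + J 0 1 * t) ^ 2 + (J 1 0 * s + J 1 1 * t) ^ 2 =
      s ^ 2 + t ^ 2 := fun s t => by
    have e1 := h.n0 ![s, t, 0, 0]
    rw [hJ, hc, h'.n0] at e1
    simpa [Matrix.mulVec, dotProduct, Fin.sum_univ_four] using e1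
  have m1 : ∀ s t : ℝ, (J 2 2 * s + J 2 3 * t) ^ 2 + (J 3 2 * s + J 3 3 * t) ^ 2 =
      s ^ 2 + t ^ 2 := fun s t => by
    have e1 := h.n1 ![0, 0, s, t]
    rw [hJ, Matrix.mulVec_sub, hc, h'.n1] at e1
    simpa [Matrix.mulVec, dotProduct, Fin.sum_univ_four] using e1
  obtain ⟨b1, b2, b3, b4⟩ := proj3_two m0
  obtain ⟨c1, c2, c3, c4⟩ := proj3_two m1
  generalize J 0 0 * J 1 1 - J 0 1 * J 1 0 = σ at *
  generalize J 2 2 * J 3 3 - J 2 3 * J 3 2 = τ at *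
  refine ⟨![⟨J 0 0, J 1 0⟩, ⟨J 2 2, J 3 2⟩], ![σ, τ], fun m => ?_, fun m => ?_, ?_⟩
  · have k : ∀ s t : ℝ, s ^ 2 + t ^ 2 = 1 → ‖(⟨s, t⟩ : ℂ)‖ = 1 := fun s t e => by
      rw [Complex.norm_eq_sqrt_sq_add_sq, e, Real.sqrt_one]
    fin_cases m
    · exact k _ _ b1
    · exact k _ _ c1
  · fin_cases m
    · exact b2
    · exact c2
  · ext a b
    rw [refl, Matrix.mul_diagonal]
    fin_cases a <;> fin_cases b <;> simp [rot, *]

end Lin

variable {M : Type} [TopologicalSpace M]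

/-- A finite family of framed balls. -/
structure Proj3Data {c : CA M} {K δ : ℝ} (π : c.Proj K δ) where
  n : ℕ
  ι : Fin n → c.ι
  S : Fin n → Set E4
  V : Fin n → E4 → M4
  op : ∀ k, IsOpen (S k)
  cvx : ∀ k, Convex ℝ (S k)
  fr : ∀ k, π.IsFrame (ι k) (S k) (V k)
  cover : ∀ x, ∃ k, x ∈ (c.φ (ι k)).source ∧ c.φ (ι k) x ∈ S k

theorem proj3_data [CompactSpace M] {c : CA M} {K δ : ℝ} (π : c.Proj K δ) :
    Nonempty (Proj3Data π) := by
  choose i r V hr hx hF using π.exists_frame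
  obtain ⟨t, ht⟩ := isCompact_univ.elim_finite_subcover
    (fun x => (c.φ (i x)).source ∩ c.φ (i x) ⁻¹' Metric.ball (c.φ (i x) x) (r x))
    (fun x => (c.φ (i x)).isOpen_inter_preimage Metric.isOpen_ball)
    (fun x _ => Set.mem_iUnion.2 ⟨x, hx x, Metric.mem_ball_self (hr x)⟩)
  refine ⟨⟨t.card, fun k => i (t.equivFin.symm k), fun k => Metric.ball _ (r (t.equivFin.symm k)),
    fun k => V (t.equivFin.symm k), fun _ => Metric.isOpen_ball, fun _ => convex_ball _ _,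
    fun k => hF _, fun x => ?_⟩⟩
  obtain ⟨y, hy, h⟩ := Set.mem_iUnion₂.1 (ht (Set.mem_univ x))
  refine ⟨t.equivFin ⟨y, hy⟩, ?_⟩
  simp only [Equiv.symm_apply_apply]
  exact h

namespace Proj3Data

variable {c : CA M} {K δ : ℝ} {π : c.Proj K δ} (D : Proj3Data π)

/-- The frame as a linear map to the ambient space. -/
def G (k : Fin D.n) (x : M) : E4 →ₗ[ℝ] EuclideanSpace ℝ (Fin c.N) :=
  (c.De id (D.ι k) x).toLinearMap ∘ₗ (D.V k (c.φ (D.ι k) x)).mulVecLin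

theorem good {k : Fin D.n} {x : M} (h : x ∈ (c.φ (D.ι k)).source) (h' : c.φ (D.ι k) x ∈ D.S k) :
    Proj3Good (D.G k x) fun m => π.p m x := by
  have h1 := (D.fr k).orth _ h'
  have h2 := (D.fr k).mem _ h'
  rw [(c.φ (D.ι k)).left_inv h] at h1 h2
  exact proj3_good (π.orth x) h1 h2

/-- The framed atlas. -/
def fr' : Fr M where
  n := D.n
  φ k := ((c.φ (D.ι k)).symm.restrOpen (D.S k) (D.op k)).symm
  cover := D.cover
  convex k := by
    show Convex ℝ ((c.φ (D.ι k)).target ∩ D.S k)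
    rw [Set.inter_eq_right.2 (D.fr k).sub]
    exact D.cvx k
  trans i j := (c.sm id (by simp) (D.ι i) (D.ι j)).mono fun y hy => ⟨hy.1.1, hy.2.1⟩
  N := c.N
  e x := (c.e x).ofLp
  e_inj x y h := c.e_inj (WithLp.ofLp_injective 2 h)
  e_sm k := (EuclideanSpace.equiv (Fin c.N) ℝ).contDiff.comp_contDiffOn
    ((c.e_sm (D.ι k)).mono Set.inter_subset_left)
  V := D.V
  V_sm k a b := ((D.fr k).sm a b).mono Set.inter_subset_right
  indep k y hy v h := by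
    have hx := (c.φ (D.ι k)).map_target hy.1
    have e := (c.φ (D.ι k)).right_inv hy.1
    have h1 := (D.good hx (by rw [e]; exact hy.2)).lower (fun m => π.bd m _) v
    have h2 := (EuclideanSpace.equiv (Fin c.N) ℝ).comp_fderiv
      (f := fun y => c.e ((c.φ (D.ι k)).symm y)) (x := y)
    have h3 : D.G k ((c.φ (D.ι k)).symm y) v = 0 := by
      apply (EuclideanSpace.equiv (Fin c.N) ℝ).injective
      rw [map_zero, ← h]
      simp only [G, CA.De, e]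
      exact (DFunLike.congr_fun h2 _).symm
    rw [h3, norm_zero, mul_zero] at h1
    exact norm_le_zero_iff.1 h1

theorem sm {g : M → M} (hg : g ∈ ({id, ⇑c.f, ⇑c.f.symm} : Set (M → M))) (hc : Continuous g) :
    D.fr'.SmMap g :=
  ⟨hc, fun i j => (c.sm g hg (D.ι i) (D.ι j)).mono fun _ hy => ⟨hy.1.1, hy.2.1⟩⟩

theorem De_eq {g : M → M} (hg : D.fr'.SmMap g) {i j : Fin D.n} {x : M}
    (hi : x ∈ (D.fr'.φ i).source) (hj : g x ∈ (D.fr'.φ j).source) (v : E4) :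
    c.De g (D.ι i) x (D.V i (c.φ (D.ι i) x) *ᵥ v) = D.G j (g x) (D.fr'.Jm g i j x *ᵥ v) :=
  D.fr'.fderiv_comp_Jm (f := c.e) (fun k => (c.e_sm (D.ι k)).mono Set.inter_subset_left) hg hi hj v

/-- The projection in the frame. -/
def Q (k : Fin D.n) (x : M) : M4 := (D.V k (c.φ (D.ι k) x))⁻¹ *
  LinearMap.toMatrix' (c.Q (D.ι k) x : E4 →ₗ[ℝ] E4) * D.V k (c.φ (D.ι k) x)

theorem unit {k : Fin D.n} {x : M} (h : x ∈ (D.fr'.φ k).source) :
    IsUnit (D.V k (c.φ (D.ι k) x)).det :=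
  (D.fr'.V_det_ne k ((D.fr'.φ k).map_source h)).isUnit

theorem V_Q {k : Fin D.n} {x : M} (h : x ∈ (D.fr'.φ k).source) (v : E4) :
    D.V k (c.φ (D.ι k) x) *ᵥ (D.Q k x *ᵥ v) = c.Q (D.ι k) x (D.V k (c.φ (D.ι k) x) *ᵥ v) := by
  rw [Matrix.mulVec_mulVec, Q, ← Matrix.mul_assoc, ← Matrix.mul_assoc,
    Matrix.mul_nonsing_inv _ (D.unit h), Matrix.one_mul, ← Matrix.mulVec_mulVec,
    LinearMap.toMatrix'_mulVec]
  rfl

theorem Q_cont (k : Fin D.n) : ContinuousOn (D.Q k) (D.fr'.φ k).source := by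
  have hV : ContinuousOn (fun x => D.V k (c.φ (D.ι k) x)) (D.fr'.φ k).source :=
    continuousOn_pi.2 fun a => continuousOn_pi.2 fun b =>
      (D.fr'.V_sm k a b).continuousOn.comp (D.fr'.φ k).continuousOn (D.fr'.φ k).mapsTo
  have hQ : ContinuousOn (fun x => LinearMap.toMatrix' (c.Q (D.ι k) x : E4 →ₗ[ℝ] E4))
      (D.fr'.φ k).source :=
    continuousOn_pi.2 fun a => continuousOn_pi.2 fun b =>
      (continuous_apply a).comp_continuousOn
        (((c.Q_cont (D.ι k)).mono fun _ h => h.1).clm_apply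
          (continuousOn_const (c := Pi.single b 1)))
  have hI : ContinuousOn (fun x => (D.V k (c.φ (D.ι k) x))⁻¹) (D.fr'.φ k).source := fun x hx => by
    obtain ⟨u, hu⟩ := D.unit hx
    exact ContinuousAt.comp_continuousWithinAt (f := fun x => D.V k (c.φ (D.ι k) x))
      (continuousAt_matrix_inv _ (hu ▸ NormedRing.inverse_continuousAt u)) (hV x hx)
  exact (hI.mul hQ).mul hV

theorem Q_inv {g : M → M} (hg : g ∈ ({id, ⇑c.f} : Set (M → M))) :
    D.fr'.All g fun i j x => D.fr'.Jm g i j x * D.Q i x = D.Q j (g x) * D.fr'.Jm g i j x := by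
  intro i j x hi hj
  have e : ∀ T : E4 →L[ℝ] E4, (∀ w, T (c.Q (D.ι i) x w) = c.Q (D.ι j) (g x) (T w)) →
      (D.V j (c.φ (D.ι j) (g x)))⁻¹ * LinearMap.toMatrix' (T : E4 →ₗ[ℝ] E4) *
        D.V i (c.φ (D.ι i) x) * D.Q i x = D.Q j (g x) * ((D.V j (c.φ (D.ι j) (g x)))⁻¹ *
        LinearMap.toMatrix' (T : E4 →ₗ[ℝ] E4) * D.V i (c.φ (D.ι i) x)) := by
    intro T hT
    have e1 : LinearMap.toMatrix' (T : E4 →ₗ[ℝ] E4) *
        LinearMap.toMatrix' (c.Q (D.ι i) x : E4 →ₗ[ℝ] E4) =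
        LinearMap.toMatrix' (c.Q (D.ι j) (g x) : E4 →ₗ[ℝ] E4) *
        LinearMap.toMatrix' (T : E4 →ₗ[ℝ] E4) := by
      rw [← LinearMap.toMatrix'_comp, ← LinearMap.toMatrix'_comp]
      exact congrArg _ (LinearMap.ext hT)
    simp only [Q, Matrix.mul_assoc, Matrix.mul_nonsing_inv_cancel_left _ _ (D.unit hi),
      Matrix.mul_nonsing_inv_cancel_left _ _ (D.unit hj)]
    rw [← Matrix.mul_assoc (LinearMap.toMatrix' _), e1, Matrix.mul_assoc]
  exact e _ (c.Q_inv g hg _ _ x hi.1 hj.1)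

end Proj3Data

theorem CA.exists_fdyn {M : Type} [TopologicalSpace M] [CompactSpace M] [T2Space M] (c : CA M) :
    ∃ (a : Fr M) (d : FDyn a 8), a.Ort ∧ d.h = c.f := by
  obtain ⟨L, hL1, hL⟩ := c.exists_L
  obtain ⟨K, hK1, hK⟩ := c.exists_proj
  have hK0 : 0 < K := by linarith
  have hL0 : 0 < L := by linarith
  obtain ⟨π⟩ := hK (1 / (10000 * (4 * K) * (4 * K * L) ^ 8)) (by positivity)
  obtain ⟨D⟩ := proj3_data π
  have hf : D.fr'.SmMap c.f := D.sm (by simp) c.f.continuous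
  have up : ∀ {k x}, x ∈ (D.fr'.φ k).source → ∀ v, ‖D.G k x v‖ ≤ 4 * ‖v‖ :=
    fun h => (D.good h.1 h.2).upper
  have lo : ∀ {k x}, x ∈ (D.fr'.φ k).source → ∀ v, ‖v‖ ≤ K * ‖D.G k x v‖ :=
    fun h => (D.good h.1 h.2).lower fun m => π.bd m _
  refine ⟨D.fr',
    { h := c.f, sm := hf, sm' := D.sm (by simp) c.f.symm.continuous, Q := D.Q
      Q_cont := D.Q_cont, Q_idem := fun i x hx => ?_, Q_id := D.Q_inv (by simp)
      Q_h := D.Q_inv (by simp), δ := 4 * K * (1 / (10000 * (4 * K) * (4 * K * L) ^ 8))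
      L := 4 * K * L, one_le := by nlinarith, small := le_of_eq (by field_simp)
      near := fun i x hx v => ?_, bd := fun i j x hi hj v => ?_
      ε := fun m => 4 * K * |c.ε m|, lim := by simpa using c.lim.abs.const_mul (4 * K)
      hyp := fun m i j x hi hj v => ?_ }, fun i j x hi hj => ?_, rfl⟩
  · have e : LinearMap.toMatrix' (c.Q (D.ι i) x : E4 →ₗ[ℝ] E4) *
        LinearMap.toMatrix' (c.Q (D.ι i) x : E4 →ₗ[ℝ] E4) =
        LinearMap.toMatrix' (c.Q (D.ι i) x : E4 →ₗ[ℝ] E4) := by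
      rw [← LinearMap.toMatrix'_comp]
      exact congrArg _ (LinearMap.ext (c.Q_idem _ x hx.1))
    simp only [Proj3Data.Q, Matrix.mul_assoc, Matrix.mul_nonsing_inv_cancel_left _ _ (D.unit hx)]
    rw [← Matrix.mul_assoc (LinearMap.toMatrix' _), e]
  · have h1 := lo hx ((D.Q i x - P0) *ᵥ v)
    have h2 := π.near _ x hx.1 (D.V i (c.φ (D.ι i) x) *ᵥ v)
    have h3 := up hx v
    rw [← D.V_Q hx] at h2
    change ‖D.G i x (D.Q i x *ᵥ v) - π.p 0 x (D.G i x v)‖ ≤ _ * ‖D.G i x v‖ at h2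
    rw [(D.good hx.1 hx.2).h0, ← map_sub, ← Matrix.sub_mulVec] at h2
    calc _ ≤ K * (1 / (10000 * (4 * K) * (4 * K * L) ^ 8) * (4 * ‖v‖)) :=
          h1.trans (mul_le_mul_of_nonneg_left
            (h2.trans (mul_le_mul_of_nonneg_left h3 (by positivity))) hK0.le)
      _ = _ := by ring
  · obtain ⟨h1, h2⟩ := hL _ x hi.1 (D.V i (c.φ (D.ι i) x) *ᵥ v)
    rw [D.De_eq hf hi hj] at h1 h2
    change _ ≤ L * ‖D.G i x v‖ at h1
    change ‖D.G i x v‖ ≤ _ at h2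
    constructor
    · calc _ ≤ K * (L * (4 * ‖v‖)) :=
          (lo hj _).trans (by gcongr; exact h1.trans (by gcongr; exact up hi v))
        _ = _ := by ring
    · calc _ ≤ K * (L * (4 * ‖D.fr'.Jm c.f i j x *ᵥ v‖)) :=
          (lo hi _).trans (by gcongr; exact h2.trans (by gcongr; exact up hj _))
        _ = _ := by ring
  · obtain ⟨h1, h2⟩ := c.hyp m _ x hi.1 (D.V i (c.φ (D.ι i) x) *ᵥ v)
    have e := D.De_eq (hf.iterate m) hi hj v
    rw [← D.V_Q hi] at h1 h2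
    change _ → ‖D.G i x v‖ ≤ _ * ‖c.De c.f^[m] (D.ι i) x _‖ at h1
    change _ → ‖c.De c.f^[m] (D.ι i) x _‖ ≤ _ * ‖D.G i x v‖ at h2
    rw [e] at h1 h2
    refine ⟨fun h => ?_, fun h => ?_⟩
    · calc _ ≤ K * (|c.ε m| * (4 * ‖D.fr'.Jm c.f^[m] i j x *ᵥ v‖)) :=
          (lo hi _).trans (by
            gcongr
            exact (h1 (by rw [h])).trans (mul_le_mul (le_abs_self _) (up hj _) (norm_nonneg _)
              (abs_nonneg _)))
        _ = _ := by ring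
    · calc _ ≤ K * (|c.ε m| * (4 * ‖v‖)) :=
          (lo hj _).trans (by
            gcongr
            exact (h2 (by rw [h, Matrix.mulVec_zero])).trans (mul_le_mul (le_abs_self _) (up hi _)
              (norm_nonneg _) (abs_nonneg _)))
        _ = _ := by ring
  · exact (D.good hi.1 hi.2).isOrt (D.good hj.1 hj.2) (D.De_eq D.fr'.smMap_id hi hj)

end SX4
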