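import Pool.Agent.P.MP_0a0487_an.SX.SysDefs
import Pool.Agent.P.MP_0a0487_an.SX.ODyn2
import Pool.Agent.P.MP_0a0487_an.SX.Restr
import Pool.Agent.Lib.Unif.UC3

/-! The universal cover and the group of lifts of the iterates. -/

set_option autoImplicit false
set_option linter.unusedSectionVars false

noncomputable section

namespace SX4

open scoped ComplexOrder ContDiff
open Filter Topology Matrix

section Aux

variable {Y U : Type} [TopologicalSpace Y] [TopologicalSpace U] {q : U → Y}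

theorem SysA_finite {Γ : Type} [Group Γ] [MulAction Γ U] [T2Space Y]
    (hq : IsQuotientCoveringMap q Γ) {C : Set U} (hC : IsCompact C) :
    {γ : Γ | ∃ z ∈ C ×ˢ C, γ • z.1 = z.2}.Finite := by
  have := hq.toContinuousConstSMul
  refine (hC.prod hC).induction_on (p := fun S => {γ : Γ | ∃ z ∈ S, γ • z.1 = z.2}.Finite)
    (by simp) (fun s t hst ht => ht.subset fun γ ⟨z, hz, e⟩ => ⟨z, hst hz, e⟩)
    (fun s t hs ht => (hs.union ht).subset ?_) ?_
  · rintro γ ⟨z, hz | hz, e⟩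
    exacts [Or.inl ⟨z, hz, e⟩, Or.inr ⟨z, hz, e⟩]
  · rintro ⟨x, x'⟩ -
    by_cases h : q x' = q x
    · obtain ⟨g, rfl⟩ := hq.apply_eq_iff_mem_orbit.1 h
      obtain ⟨N, hN, hN'⟩ := hq.disjoint x
      have h1 : (fun y => g⁻¹ • y) ⁻¹' N ∈ 𝓝 (g • x) :=
        (continuous_const_smul g⁻¹).continuousAt.preimage_mem_nhds (by simpa using hN)
      refine ⟨_, mem_nhdsWithin_of_mem_nhds (prod_mem_nhds hN h1),
        (Set.finite_singleton g).subset ?_⟩
      rintro γ ⟨z, ⟨hz, hz'⟩, e⟩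
      have h2 := hN' (g⁻¹ * γ) ⟨g⁻¹ • z.2, ⟨z.1, hz, by simp only [mul_smul, e]⟩, hz'⟩
      exact (inv_mul_eq_one.1 h2).symm
    · obtain ⟨V', V, hV', hV, h1, h2, hd⟩ := t2_separation h
      refine ⟨_, mem_nhdsWithin_of_mem_nhds (prod_mem_nhds
        ((hV.preimage hq.continuous).mem_nhds h2) ((hV'.preimage hq.continuous).mem_nhds h1)),
        Set.finite_empty.subset ?_⟩
      rintro γ ⟨z, ⟨hz, hz'⟩, e⟩
      rw [← e, Set.mem_preimage, hq.map_smul] at hz'
      exact Set.disjoint_left.1 hd hz' hz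

theorem SysA_fg {Γ : Type} [Group Γ] [MulAction Γ U] [T2Space Y] [CompactSpace Y]
    [ConnectedSpace U] (hq : IsQuotientCoveringMap q Γ) : Group.FG Γ := by
  have := hq.toContinuousConstSMul
  have hlc : LocallyCompactSpace U := by
    choose e he he' using hq.isCoveringMap.isLocalHomeomorph
    let _ : ChartedSpace Y U :=
      { atlas := Set.range e
        chartAt := e
        mem_chart_source := he
        chart_mem_atlas := Set.mem_range_self }
    exact ChartedSpace.locallyCompactSpace Y U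
  choose K hK hK' using fun x : U => exists_compact_mem_nhds x
  obtain ⟨t, ht⟩ := isCompact_univ.elim_finite_subcover (fun x => q '' interior (K x))
    (fun x => hq.isCoveringMap.isOpenMap _ isOpen_interior) fun y _ => by
      obtain ⟨x, rfl⟩ := hq.surjective y
      exact Set.mem_iUnion.2 ⟨x, x, mem_interior_iff_mem_nhds.2 (hK' x), rfl⟩
  have hC : IsCompact (⋃ x ∈ t, K x) := t.isCompact_biUnion fun x _ => hK x
  have hO : IsOpen (⋃ x ∈ t, interior (K x)) := isOpen_biUnion fun x _ => isOpen_interior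
  have hOC : (⋃ x ∈ t, interior (K x)) ⊆ ⋃ x ∈ t, K x :=
    Set.iUnion₂_mono fun x _ => interior_subset
  have hm : ∀ x, ∃ g : Γ, g • x ∈ ⋃ x ∈ t, interior (K x) := fun x => by
    obtain ⟨i, hi, y, hy, e⟩ := Set.mem_iUnion₂.1 (ht (Set.mem_univ (q x)))
    obtain ⟨g, rfl⟩ := hq.apply_eq_iff_mem_orbit.1 e
    exact ⟨g, Set.mem_iUnion₂.2 ⟨i, hi, hy⟩⟩
  generalize (⋃ x ∈ t, interior (K x)) = O at hO hOC hm
  generalize (⋃ x ∈ t, K x) = C at hC hOC
  refine Group.fg_iff.2 ⟨_, ?_, SysA_finite hq hC⟩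
  set H := Subgroup.closure {γ : Γ | ∃ z ∈ C ×ˢ C, γ • z.1 = z.2}
  have ho : ∀ S : Set Γ, IsOpen (⋃ g ∈ S, (fun x : U => g • x) ⁻¹' O) := fun S =>
    isOpen_biUnion fun g _ => hO.preimage (continuous_const_smul g)
  by_contra hne
  obtain ⟨g, hg⟩ : ∃ g, g ∉ H := by
    by_contra h
    exact hne (eq_top_iff.2 fun g _ => not_not.1 fun h' => h ⟨g, h'⟩)
  obtain ⟨x₀⟩ : Nonempty U := inferInstance
  obtain ⟨g₀, hx⟩ := hm x₀
  obtain ⟨y, -, hy, hy'⟩ := isPreconnected_univ _ _ (ho H) (ho (H : Set Γ)ᶜ)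
    (fun x _ => by
      obtain ⟨k, hk⟩ := hm x
      by_cases h : k ∈ H
      exacts [Or.inl (Set.mem_iUnion₂.2 ⟨k, h, hk⟩), Or.inr (Set.mem_iUnion₂.2 ⟨k, h, hk⟩)])
    ⟨g₀ • x₀, trivial, Set.mem_iUnion₂.2 ⟨1, H.one_mem, by simpa using hx⟩⟩
    ⟨g⁻¹ • g₀ • x₀, trivial, Set.mem_iUnion₂.2 ⟨g, hg, by simpa using hx⟩⟩
  obtain ⟨k, hk, h1⟩ := Set.mem_iUnion₂.1 hy
  obtain ⟨k', hk', h2⟩ := Set.mem_iUnion₂.1 hy'
  have h3 : k' * k⁻¹ ∈ H :=
    Subgroup.subset_closure ⟨(k • y, k' • y), ⟨hOC h1, hOC h2⟩, by simp [smul_smul]⟩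
  exact hk' (by simpa using H.mul_mem h3 hk)

theorem SysA_lift [SimplyConnectedSpace U] [LocallyPathConnectedSpace U] (h : IsCoveringMap q)
    (hs : Function.Surjective q) (g : Y ≃ₜ Y) : ∃ G : U ≃ₜ U, ∀ x, q (G x) = g (q x) := by
  obtain ⟨a⟩ : Nonempty U := inferInstance
  obtain ⟨b, hb⟩ := hs (g (q a))
  obtain ⟨F, ⟨hF, hF'⟩, -⟩ := h.existsUnique_continuousMap_lifts
    ⟨g ∘ q, g.continuous.comp h.continuous⟩ a b hb
  obtain ⟨G, ⟨hG, hG'⟩, -⟩ := h.existsUnique_continuousMap_lifts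
    ⟨g.symm ∘ q, g.symm.continuous.comp h.continuous⟩ b a (by simp [hb])
  have h1 : ∀ x, q (F x) = g (q x) := fun x => congrFun hF' x
  have h2 : ∀ x, q (G x) = g.symm (q x) := fun x => congrFun hG' x
  have h3 : G ∘ F = id := h.eq_of_comp_eq (G.continuous.comp F.continuous) continuous_id
    (funext fun x => by simp [h1, h2]) a (by simp [hF, hG])
  have h4 : F ∘ G = id := h.eq_of_comp_eq (F.continuous.comp G.continuous) continuous_id
    (funext fun x => by simp [h1, h2]) b (by simp [hF, hG])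
  exact ⟨⟨⟨F, G, fun x => congrFun h3 x, fun x => congrFun h4 x⟩, F.continuous, G.continuous⟩, h1⟩

/-- The group of the lifts of the iterates of `h`. -/
def SysA_grp (q : U → Y) (h : Y ≃ₜ Y) : Subgroup ((U ≃ₜ U) × Multiplicative ℤ) where
  carrier := {p | ∀ x, q (p.1 x) = (h ^ p.2.toAdd) (q x)}
  one_mem' := fun x => by simp
  mul_mem' := fun {p p'} hp hp' x => by
    have e : (p * p').1 x = p.1 (p'.1 x) := rfl
    rw [e, hp, hp', Prod.snd_mul, toAdd_mul, _root_.zpow_add]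
    rfl
  inv_mem' := fun {p} hp x => by
    have e : q x = (h ^ p.2.toAdd) (q ((p⁻¹).1 x)) := by
      rw [← hp]
      exact congrArg q (p.1.apply_symm_apply x).symm
    rw [e, Prod.snd_inv, toAdd_inv, _root_.zpow_neg]
    exact ((h ^ p.2.toAdd).symm_apply_apply _).symm

instance SysA_act (q : U → Y) (h : Y ≃ₜ Y) : MulAction (SysA_grp q h) U where
  smul l x := l.1.1 x
  one_smul _ := rfl
  mul_smul _ _ _ := rfl

/-- The order of the iterate. -/
def SysA_deg (q : U → Y) (h : Y ≃ₜ Y) : SysA_grp q h →* Multiplicative ℤ :=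
  (MonoidHom.snd _ _).comp (SysA_grp q h).subtype

theorem SysA_ker {h : Y ≃ₜ Y} {l : SysA_grp q h} (hl : l ∈ (SysA_deg q h).ker) (x : U) :
    q (l.1.1 x) = q x := by
  have e : l.1.2 = 1 := hl
  rw [l.2 x, e]
  simp

end Aux

theorem FDyn.exists_sys {Y : Type} [TopologicalSpace Y] [CompactSpace Y] [T2Space Y]
    [ConnectedSpace Y] {a : Fr Y} (d : FDyn a 4) (ho : a.Ori) (h1 : d.Or) (h2 : d.Ch) :
    ∃ (U Λ : Type) (_ : TopologicalSpace U) (_ : SimplyConnectedSpace U)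
      (_ : LocallyPathConnectedSpace U) (_ : Group Λ) (_ : MulAction Λ U) (q : U → Y)
      (deg : Λ →* Multiplicative ℤ) (D : Λ →* (Y ≃ₜ Y)) (t : Λ), Sys a d q deg deg.ker D t := by
  have hl := a.locallyPathConnectedSpace
  obtain ⟨U, tU, q, hc, hs, hsc, -, hg⟩ : ∃ (E : Type) (_ : TopologicalSpace E) (π : E → Y),
      IsCoveringMap π ∧ Function.Surjective π ∧ SimplyConnectedSpace E ∧ T2Space E ∧
        Pool.Agent.Lib.Unif.Galois π := by
    choose c hc using a.cover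
    let _ : ChartedSpace E4 Y :=
      { atlas := Set.range a.φ
        chartAt := fun x => a.φ (c x)
        mem_chart_source := hc
        chart_mem_atlas := fun x => ⟨c x, rfl⟩ }
    exact Pool.Agent.Lib.Unif.exists_cover_charted E4 Y
  have hU : LocallyPathConnectedSpace U :=
    Pool.Agent.Lib.Unif.locPath_of_loc hc.isLocalHomeomorph
  obtain ⟨G, hG⟩ := SysA_lift hc hs d.h
  have free : ∀ l ∈ (SysA_deg q d.h).ker, ∀ x : U, l • x = x → l = 1 := fun l hl x e =>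
    Subtype.ext (Prod.ext (Homeomorph.ext (hg.free l.1.1 (SysA_ker hl) x e)) hl)
  have cov : IsQuotientCoveringMap q (SysA_deg q d.h).ker := by
    refine (isQuotientCoveringMap_iff_isCoveringMap_and ..).2
      ⟨hc, hs, ⟨fun l => l.1.1.1.continuous⟩, ?_, fun {x y} => ⟨fun e => ?_, ?_⟩⟩
    · exact isCancelSMul_iff_eq_one_of_smul_eq.2 fun l x e => Subtype.ext (free l.1 l.2 x e)
    · obtain ⟨τ, hτ, e'⟩ := hg.trans y x e.symm
      exact ⟨⟨⟨(τ, 1), fun z => by simp [hτ]⟩, rfl⟩, e'⟩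
    · rintro ⟨l, rfl⟩
      exact SysA_ker l.2 y
  refine ⟨U, SysA_grp q d.h, tU, hsc, hU, inferInstance, inferInstance, q, SysA_deg q d.h,
    (zpowersHom _ d.h).comp (SysA_deg q d.h),
    ⟨(G, Multiplicative.ofAdd 1), fun x => by simp [hG]⟩,
    ho, h1, h2, fun l => l.1.1.continuous, cov, inferInstance, le_rfl, by simp,
    (Group.fg_iff_subgroup_fg _).1 (SysA_fg cov), free, fun l x => (l.2 x).symm, rfl,
    by simp [SysA_deg], fun l hl => ?_⟩
  have e : (zpowersHom _ d.h).comp (SysA_deg q d.h) l = 1 := by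
    rw [MonoidHom.comp_apply, MonoidHom.mem_ker.1 hl, map_one]
  rw [e]
  exact ⟨⟨continuous_id, a.trans⟩, fun i j x hi hj => ⟨ho i j x hi hj, d.Q_id i j x hi hj⟩⟩

end SX4
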