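import Pool.Agent.P.MP_0a0487_an.SX.MainA
import Pool.Agent.P.MP_0a0487_an.SX.SysA
import Pool.Agent.P.MP_0a0487_an.SX.NoUDyn
import Pool.Agent.P.MP_0a0487_an.SX.AmbM
import Pool.Agent.P.MP_0a0487_an.SX.Proj3
import Pool.Agent.P.MP_0a0487_an.SX.Franks

/-! The covering by Euclidean space. -/

set_option autoImplicit false

noncomputable section

open Bundle Matrix
open scoped Manifold ContDiff
open Pool.Agent.P.MP_0a0487_an

namespace SX4

theorem main_pow {X : Type} [TopologicalSpace X] (F : X ≃ₜ X) (j : ℕ) : ⇑(F ^ j) = F^[j] :=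
  hom_coe_pow _ rfl (fun _ _ => rfl) F j

theorem main_per {X M : Type} [TopologicalSpace X] [CompactSpace X] [Nonempty X]
    [TopologicalSpace M] [T2Space M] [ConnectedSpace M] {pr : X → M} (hp : IsCoveringMap pr)
    (F : X ≃ₜ X) {f : M → M} (e : ∀ x, pr (F x) = f (pr x)) {z : M} {k : ℕ} (hk : 1 ≤ k)
    (hz : f^[k] z = z) : ∃ (x : X) (n : ℕ), 1 ≤ n ∧ F^[n] x = x := by
  have hs : IsClopen (Set.range pr) :=
    ⟨(isCompact_range hp.continuous).isClosed, hp.isOpenMap.isOpen_range⟩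
  obtain ⟨x, rfl⟩ := (hs.eq_univ (Set.range_nonempty pr)).ge (Set.mem_univ z)
  have hfin : (pr ⁻¹' {pr x}).Finite :=
    ((isClosed_singleton.preimage hp.continuous).isCompact).finite ⟨(hp (pr x)).1⟩
  have hm : Set.MapsTo F^[k] (pr ⁻¹' {pr x}) (pr ⁻¹' {pr x}) := fun y hy => by
    rw [Set.mem_preimage, Set.mem_singleton_iff] at hy ⊢
    rw [(Function.Semiconj.iterate_right (f := pr) e k) y, hy, hz]
  have := hfin.to_subtype
  obtain ⟨n, n0, hn⟩ := Function.Injective.mem_periodicPts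
    (Set.MapsTo.restrict_inj hm |>.2 (F.injective.iterate k).injOn) ⟨x, rfl⟩
  refine ⟨x, k * n, Nat.mul_pos hk n0, ?_⟩
  rw [Function.iterate_mul]
  exact (hm.coe_iterate_restrict ⟨x, rfl⟩ n).symm.trans (congrArg Subtype.val hn)

theorem covering (M : Type) [TopologicalSpace M] [T2Space M] [CompactSpace M] [ConnectedSpace M]
    [i1 : ChartedSpace R4 M] [i2 : IsManifold 𝓘(ℝ, R4) ∞ M]
    [i3 : RiemannianBundle (fun x : M => TangentSpace 𝓘(ℝ, R4) x)]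
    [i4 : IsContinuousRiemannianBundle R4 (fun x : M => TangentSpace 𝓘(ℝ, R4) x)]
    (f : M ≃ₘ^∞⟮𝓘(ℝ, R4), 𝓘(ℝ, R4)⟯ M) (hf : IsAnosov f 2)
    (nw : ∀ U : Set M, IsOpen U → U.Nonempty → ∃ m : ℕ, 1 ≤ m ∧ (f^[m] '' U ∩ U).Nonempty) :
    ∃ (p : (Fin 4 → ℝ) → M) (A : Matrix (Fin 4) (Fin 4) ℤ) (N : ℕ),
      IsCoveringMap p ∧ Function.Surjective p ∧
      (∀ (x : Fin 4 → ℝ) (i : Fin 4), p (x + Pi.single i 1) = p x) ∧ A.det = 1 ∧ HypM A ∧ 1 ≤ N ∧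
      ∀ x, p (A.map (Int.cast : ℤ → ℝ) *ᵥ x) = f^[N] (p x) := by
  obtain ⟨z, k, hk, hz⟩ := exists_periodic M f hf
  obtain ⟨Es, Eu, hsplit, hs, hu, dim, C, l, hC, l0, l1, cs, cu⟩ := id hf
  obtain ⟨c, hc⟩ := @exists_CA M _ _ _ i1 i2 i3 i4 f Es Eu hsplit hs hu dim C l hC l0 l1 cs cu
  obtain ⟨a, d, ho, hd⟩ := c.exists_fdyn
  obtain ⟨X, _, _, _, _, a', d', π₀, o1, o2, o3, hπ₀, e₀⟩ := a.exists_odyn ho d (by
    rw [hd, hc]
    exact nw)
  replace e₀ : ∀ x, π₀ (d'.h x) = f^[2] (π₀ x) := fun x => by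
    rw [e₀, hd, hc]
    rfl
  obtain ⟨x₀, n, hn, hx₀⟩ := main_per hπ₀ d'.h e₀ hk (z := z) (by
    rw [← Function.iterate_mul, mul_comm, Function.iterate_mul]
    exact Function.IsFixedPt.iterate hz 2)
  obtain ⟨U, Λ, _, _, _, _, _, q, deg, D, t, h⟩ := d'.exists_sys o1 o2 o3
  have hD : ∀ (j : ℕ) x, D (t ^ j) x = d'.h^[j] x := fun j x => by
    rw [map_pow, h.h_eq, main_pow]
  have hdeg : ∀ j : ℕ, deg (t ^ j) = Multiplicative.ofAdd (j : ℤ) := fun j => by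
    rw [map_pow, h.deg_t, ← ofAdd_nsmul, nsmul_one]
  obtain ⟨u, rfl⟩ := h.cov.surjective x₀
  obtain ⟨s, s1, s2⟩ := (h.eq_iff _ _).1 ((h.act _ _).symm.trans ((hD n _).trans hx₀))
  obtain ⟨Y, _, _, _, _, b, e, q', D', π₁, S, _, g, cc, A, h', hπ, hq, g0, c1, c2, c3, c4, c5, c6⟩ :=
    h.torus (l₀ := s⁻¹ * t ^ n) (u := u) (by
      rw [map_mul, MonoidHom.mem_ker.1 (inv_mem s1), one_mul, hdeg, toAdd_ofAdd]
      exact_mod_cast hn) (by rw [mul_smul, s2, inv_smul_smul])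
  obtain ⟨y, y1, y2⟩ := b.exists_alb h'.cov c1
  obtain ⟨N, hN⟩ := Int.eq_ofNat_of_zero_le g0.le
  have hg : ∀ x, D g x = d'.h^[N] x := fun x => by
    have : g * (t ^ N)⁻¹ ∈ deg.ker := by
      rw [MonoidHom.mem_ker, map_mul, map_inv, hdeg, ← hN, ofAdd_toAdd, mul_inv_cancel]
    rw [← hD, ← h.D_of_mem this (D (t ^ N) x), ← Homeomorph.mul_apply, ← map_mul,
      inv_mul_cancel_right]
  have it : ∀ j : ℕ, (D' g)^[j] = D' (g ^ j) := fun j => by rw [map_pow, main_pow]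
  refine (franks M f hf nw (pr := π₀ ∘ π₁) (isLocalHomeomorph_iff_isCoveringMap.1
    (hπ₀.isLocalHomeomorph.comp hπ.isLocalHomeomorph)) (D' g) (N := 2 * N) (by omega)
    (fun x => ?_) h'.cov (h.cont g) (fun x => (h'.act g x).symm) (φ := MulAut.conjNormal g)
    (fun γ x => ?_) c2 c3 c4 y1 y2 (fun j hj m => ?_) fun j hj => by
      rw [it]; exact c6 j hj).imp fun p hp =>
        ⟨A, 2 * N, hp.1, hp.2.1, hp.2.2.1, c3, c4, by omega, hp.2.2.2⟩
  · obtain ⟨x, rfl⟩ := h'.cov.surjective x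
    rw [h'.act, Function.comp_apply, Function.comp_apply, hq, hq, ← h.act, hg, Function.iterate_mul]
    exact (Function.Semiconj.iterate_right (f := π₀) e₀ N) _
  · change g • (γ : Λ) • x = (g * γ * g⁻¹) • g • x
    simp only [smul_smul, inv_mul_cancel_right]
  · rw [smul_iterate]
    exact c5 j hj m

end SX4
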