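import Pool.Agent.P.MP_0a0487_an.SX.FrB

/-! The bundle of frames and its algebra of functions. -/

set_option autoImplicit false
set_option linter.unusedSectionVars false

noncomputable section

namespace SX4

open scoped ContDiff
open Filter Topology Matrix

theorem model1_zpow_inj {a b : ℤ} (h : ∀ z : Circle, (z : ℂ) ^ a = (z : ℂ) ^ b) : a = b := by
  by_contra hne
  have hn : ((a - b : ℤ) : ℂ) ≠ 0 := Int.cast_ne_zero.2 (sub_ne_zero.2 hne)
  have h1 := h (Circle.exp (Real.pi / (a - b : ℤ)))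
  rw [← div_eq_one_iff_eq (zpow_ne_zero _ (Circle.coe_ne_zero _)),
    ← zpow_sub₀ (Circle.coe_ne_zero _), Circle.coe_exp, ← Complex.exp_int_mul] at h1
  have e : ((a - b : ℤ) : ℂ) * (((Real.pi / (a - b : ℤ) : ℝ) : ℂ) * Complex.I) =
      Real.pi * Complex.I := by
    rw [Complex.ofReal_div, Complex.ofReal_intCast]
    field_simp
  rw [e, Complex.exp_pi_mul_I] at h1
  norm_num at h1

theorem model1_lift {ι M F : Type} [AddCommGroup M] [Module ℂ M] [AddCommGroup F] [Module ℂ F]
    (W : ι → Submodule ℂ M) (hi : ∀ (T : Finset ι) (v : ι → M), (∀ i ∈ T, v i ∈ W i) →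
      ∑ i ∈ T, v i = 0 → ∀ i ∈ T, v i = 0) (hs : iSup W = ⊤) (d : ∀ w, W w →ₗ[ℂ] F) :
    ∃ D : M →ₗ[ℂ] F, ∀ w (s : W w), D s = d w s := by
  classical
  let e := LinearEquiv.ofBijective (DFinsupp.lsum ℕ fun i => (W i).subtype)
    ⟨((iSupIndep_iff_finsetSum_eq_zero_imp_eq_zero W).2 hi).dfinsupp_lsum_injective, by
      rw [← LinearMap.range_eq_top, ← Submodule.iSup_eq_range_dfinsupp_lsum, hs]⟩
  refine ⟨(DFinsupp.lsum ℕ d).comp e.symm.toLinearMap, fun w s => ?_⟩
  have h : e.symm s = DFinsupp.single w s :=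
    e.symm_apply_eq.2 (DFinsupp.lsum_single ℕ (fun i => (W i).subtype) w s).symm
  rw [LinearMap.comp_apply, LinearEquiv.coe_coe, h, DFinsupp.lsum_single]

open scoped ComplexOrder in
theorem model1_ne {N : ℕ} {c : Fin N → ℂ} (hc : c ≠ 0) :
    ∑ k, (starRingEnd ℂ) (c k) * c k ≠ 0 := fun h => hc (dotProduct_star_self_eq_zero.1 h)

theorem model1_phase {N : ℕ} {c v : Fin N → ℂ} {z : ℂ} (hc : c ≠ 0) (h : v = z • c) :
    z = (∑ k, (starRingEnd ℂ) (c k) * v k) * (∑ k, (starRingEnd ℂ) (c k) * c k)⁻¹ := by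
  rw [eq_mul_inv_iff_mul_eq₀ (model1_ne hc), h, Finset.mul_sum]
  exact Finset.sum_congr rfl fun k _ => by rw [Pi.smul_apply, smul_eq_mul, mul_left_comm]

variable {X : Type} [TopologicalSpace X]

namespace Fr

variable (a : Fr X)

/-- The complex frame vectors in the ambient space. -/
def cf (i : Fin a.n) (y : E4) (m : Fin 2) : Fin a.N → ℂ := fun k =>
  (fderiv ℝ (fun y => a.e ((a.φ i).symm y)) y (a.V i y *ᵥ Pi.single (![0, 2] m) 1) k : ℂ) -
    Complex.I *
      (fderiv ℝ (fun y => a.e ((a.φ i).symm y)) y (a.V i y *ᵥ Pi.single (![1, 3] m) 1) k : ℂ)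

/-- The complex frame in coordinates. -/
def cV (i : Fin a.n) (y : E4) : Matrix (Fin 4) (Fin 4) ℂ := Matrix.of
  ![fun j => a.V i y j 0 - Complex.I * a.V i y j 1, fun j => a.V i y j 0 + Complex.I * a.V i y j 1,
    fun j => a.V i y j 2 - Complex.I * a.V i y j 3, fun j => a.V i y j 2 + Complex.I * a.V i y j 3]

/-- The bundle of frames. -/
def P : Type := {q : X × (Fin 2 → Fin a.N → ℂ) // ∃ i, q.1 ∈ (a.φ i).source ∧
  ∃ z : Fin 2 → Circle, ∀ m, q.2 m = (z m : ℂ) • a.cf i (a.φ i q.1) m}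

instance : TopologicalSpace a.P := inferInstanceAs (TopologicalSpace (Subtype _))

/-- The projection to the base. -/
def π (p : a.P) : X := p.1.1

/-- The action of the torus. -/
def act (z : Fin 2 → Circle) (p : a.P) : a.P :=
  ⟨(p.1.1, fun m => (z m : ℂ) • p.1.2 m), by
    obtain ⟨i, hi, z', h⟩ := p.2
    exact ⟨i, hi, z * z', fun m => by simp [h, smul_smul]⟩⟩

/-- The local sections. -/
def pr [Nonempty a.P] (i : Fin a.n) (y : E4) : a.P :=
  open Classical in
  if h : y ∈ (a.φ i).target then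
    ⟨((a.φ i).symm y, a.cf i y), i, (a.φ i).map_target h, 1, fun m => by
      simp [(a.φ i).right_inv h]⟩
  else Classical.arbitrary _

/-- The character of weight `w`. -/
def chi (w : Wt) (z : Fin 2 → Circle) : ℂ := (z 0 : ℂ) ^ w.1 * (z 1 : ℂ) ^ w.2

theorem model1_chi_add (u v : Wt) (z : Fin 2 → Circle) : chi (u + v) z = chi u z * chi v z := by
  simp only [chi, Prod.fst_add, Prod.snd_add, zpow_add₀ (Circle.coe_ne_zero _)]
  ring

theorem model1_chi_star (u : Wt) (z : Fin 2 → Circle) : star (chi u z) = chi (-u) z := by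
  simp only [chi, Prod.fst_neg, Prod.snd_neg, Complex.star_def, map_mul, map_zpow₀,
    ← Circle.coe_inv_eq_conj, Circle.coe_inv, _root_.inv_zpow']

theorem model1_chi_cont (w : Wt) : Continuous (chi w) :=
  ((continuous_subtype_val.comp (continuous_apply 0)).zpow₀ _ fun _ =>
    Or.inl (Circle.coe_ne_zero _)).mul
    ((continuous_subtype_val.comp (continuous_apply 1)).zpow₀ _ fun _ =>
      Or.inl (Circle.coe_ne_zero _))

theorem model1_chi_indep : LinearIndependent ℂ chi := by
  let f : Wt → (Fin 2 → Circle) →* ℂ := fun w =>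
    { toFun := chi w
      map_one' := by simp [chi]
      map_mul' := fun z z' => by
        simp only [chi, Pi.mul_apply, Circle.coe_mul, mul_zpow]
        ring }
  have hf : Function.Injective f := fun u v h => by
    have h' : ∀ z, chi u z = chi v z := fun z => DFunLike.congr_fun h z
    refine Prod.ext (model1_zpow_inj fun z => ?_) (model1_zpow_inj fun z => ?_)
    · simpa [chi] using h' ![z, 1]
    · simpa [chi] using h' ![1, z]
  exact (linearIndependent_monoidHom (Fin 2 → Circle) ℂ).comp f hf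

instance [Nonempty X] : Nonempty a.P := by
  obtain ⟨x⟩ := ‹Nonempty X›
  obtain ⟨i, hi⟩ := a.cover x
  exact ⟨⟨(x, a.cf i (a.φ i x)), i, hi, 1, fun m => by simp⟩⟩

variable [Nonempty X]

/-- Smooth functions of weight `w`. -/
def W (w : Wt) : Submodule ℂ C(a.P, ℂ) where
  carrier := {s | (∀ z p, s (a.act z p) = chi w z * s p) ∧
    ∀ i, ContDiffOn ℝ ∞ (fun y => s (a.pr i y)) (a.φ i).target}
  add_mem' := fun hs ht => ⟨fun z p => by
    rw [ContinuousMap.add_apply, ContinuousMap.add_apply, hs.1, ht.1, mul_add],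
    fun i => (hs.2 i).add (ht.2 i)⟩
  zero_mem' := ⟨fun z p => (mul_zero _).symm, fun i => contDiffOn_const⟩
  smul_mem' := fun c s hs => ⟨fun z p => by
    rw [ContinuousMap.smul_apply, ContinuousMap.smul_apply, hs.1, smul_eq_mul, smul_eq_mul,
      mul_left_comm], fun i => contDiffOn_const.mul (hs.2 i)⟩

theorem W_one : (1 : C(a.P, ℂ)) ∈ a.W 0 :=
  ⟨fun z p => by simp [chi], fun _ => contDiffOn_const⟩

theorem W_mul {u v : Wt} {s t : C(a.P, ℂ)} (hs : s ∈ a.W u) (ht : t ∈ a.W v) :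
    s * t ∈ a.W (u + v) :=
  ⟨fun z p => by
    rw [ContinuousMap.mul_apply, ContinuousMap.mul_apply, hs.1, ht.1, model1_chi_add]
    ring, fun i => (hs.2 i).mul (ht.2 i)⟩

theorem W_star {u : Wt} {s : C(a.P, ℂ)} (hs : s ∈ a.W u) : star s ∈ a.W (-u) :=
  ⟨fun z p => by
    rw [ContinuousMap.star_apply, ContinuousMap.star_apply, hs.1, star_mul', model1_chi_star],
    fun i => Complex.conjCLE.contDiff.comp_contDiffOn (hs.2 i)⟩

/-- The algebra of finite sums of homogeneous smooth functions. -/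
def A : StarSubalgebra ℂ C(a.P, ℂ) where
  carrier := (⨆ w, a.W w : Submodule ℂ C(a.P, ℂ))
  mul_mem' := fun {s t} hs ht => by
    refine Submodule.iSup_induction a.W (motive := fun s => s * t ∈ ⨆ w, a.W w) hs
      (fun u s hs => ?_) (by rw [zero_mul]; exact zero_mem _)
      fun x y hx hy => by rw [add_mul]; exact add_mem hx hy
    exact Submodule.iSup_induction a.W (motive := fun t => s * t ∈ ⨆ w, a.W w) ht
      (fun v t ht => Submodule.mem_iSup_of_mem _ (a.W_mul hs ht))
      (by rw [mul_zero]; exact zero_mem _) fun x y hx hy => by rw [mul_add]; exact add_mem hx hy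
  add_mem' := fun hs ht => Submodule.add_mem _ hs ht
  algebraMap_mem' := fun r => by
    rw [Algebra.algebraMap_eq_smul_one]
    exact Submodule.mem_iSup_of_mem 0 (Submodule.smul_mem _ r a.W_one)
  star_mem' := fun {s} hs =>
    Submodule.iSup_induction a.W (motive := fun s => star s ∈ ⨆ w, a.W w) hs
      (fun u s hs => Submodule.mem_iSup_of_mem _ (a.W_star hs))
      (by rw [star_zero]; exact zero_mem _) fun x y hx hy => by rw [star_add]; exact add_mem hx hy

/-- The graded algebra. -/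
def base : Base a.P a.A where
  ev := a.A.subtype
  ev_inj := Subtype.val_injective
  W w := (a.W w).comap a.A.subtype.toLinearMap
  one_mem := a.W_one
  mul_mem := fun hs ht => a.W_mul hs ht
  star_mem := fun hs => a.W_star hs

theorem mem_A {w : Wt} {s : C(a.P, ℂ)} (hs : s ∈ a.W w) : s ∈ a.A :=
  Submodule.mem_iSup_of_mem w hs

theorem A_ind {p : a.A → Prop} (h : ∀ w, ∀ s ∈ a.base.W w, p s)
    (add : ∀ s t, p s → p t → p (s + t)) (s : a.A) : p s :=
  Submodule.iSup_induction' a.W (motive := fun x hx => p ⟨x, hx⟩) (fun w _ hx => h w _ hx)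
    (h 0 0 (zero_mem _)) (fun _ _ _ _ hx hy => add _ _ hx hy) s.2

/-- A family of linear maps on the homogeneous parts extends to the algebra. -/
theorem exists_lift {F : Type} [AddCommGroup F] [Module ℂ F] (d : ∀ w, a.base.W w →ₗ[ℂ] F) :
    ∃ D : a.A →ₗ[ℂ] F, ∀ w (s : a.base.W w), D s = d w s := by
  refine model1_lift a.base.W (fun T v hv h0 w hw => ?_) (eq_top_iff.2 fun s _ => a.A_ind
    (p := fun s => s ∈ iSup a.base.W) (fun w s hs => Submodule.mem_iSup_of_mem w hs)
    (fun _ _ => add_mem) s) d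
  refine Subtype.ext (ContinuousMap.ext fun p => ?_)
  refine linearIndependent_iff'.1 model1_chi_indep T (fun w => (v w).1 p) (funext fun z => ?_) w hw
  have h1 := congrArg (fun s : a.A => a.base.ev s (a.act z p)) h0
  simp only [map_sum, map_zero, ContinuousMap.coe_sum, Finset.sum_apply,
    ContinuousMap.zero_apply] at h1
  rw [Finset.sum_apply, Pi.zero_apply, ← h1]
  exact Finset.sum_congr rfl fun u hu => (mul_comm _ _).trans ((hv u hu).1 z p).symm

theorem act_mul (z z' : Fin 2 → Circle) (p : a.P) : a.act (z * z') p = a.act z (a.act z' p) :=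
  Subtype.ext (Prod.ext rfl (funext fun m => by simp [act, smul_smul]))

theorem act_one (p : a.P) : a.act 1 p = p :=
  Subtype.ext (Prod.ext rfl (funext fun m => by simp [act]))

theorem π_act (z : Fin 2 → Circle) (p : a.P) : a.π (a.act z p) = a.π p := rfl

theorem model1_pr {i : Fin a.n} {y : E4} (hy : y ∈ (a.φ i).target) :
    (a.pr i y).1 = ((a.φ i).symm y, a.cf i y) := by
  rw [pr, dif_pos hy]

theorem π_pr {i : Fin a.n} {y : E4} (hy : y ∈ (a.φ i).target) :
    a.π (a.pr i y) = (a.φ i).symm y := congrArg Prod.fst (a.model1_pr hy)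

theorem continuous_π : Continuous a.π := continuous_fst.comp continuous_subtype_val

theorem continuous_act : Continuous fun q : (Fin 2 → Circle) × a.P => a.act q.1 q.2 := by
  have h : Continuous fun q : (Fin 2 → Circle) × a.P => q.2.1 :=
    continuous_subtype_val.comp continuous_snd
  exact (h.fst.prodMk (continuous_pi fun m =>
    (continuous_subtype_val.comp ((continuous_apply m).comp continuous_fst)).smul
      ((continuous_apply m).comp h.snd))).subtype_mk _

theorem cf_sm (i : Fin a.n) (m : Fin 2) (k : Fin a.N) :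
    ContDiffOn ℝ ∞ (fun y => a.cf i y m k) (a.φ i).target := by
  have h : ∀ c : Fin 4, ContDiffOn ℝ ∞ (fun y =>
      (fderiv ℝ (fun y => a.e ((a.φ i).symm y)) y (a.V i y *ᵥ Pi.single c 1) k : ℂ))
      (a.φ i).target := fun c =>
    Complex.ofRealCLM.contDiff.comp_contDiffOn (contDiffOn_pi.1
      (((a.e_sm i).fderiv_of_isOpen (a.φ i).open_target (by simp)).clm_apply
        (contDiffOn_pi.2 fun j => by simpa using a.V_sm i j c)) k)
  exact (h _).sub (contDiffOn_const.mul (h _))

theorem cf_ne (i : Fin a.n) {y : E4} (hy : y ∈ (a.φ i).target) (m : Fin 2) : a.cf i y m ≠ 0 := by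
  intro h
  have h1 := a.indep i y hy (Pi.single (![0, 2] m) 1) (funext fun k => by
    simpa [cf, -mulVec_single] using congrArg Complex.re (congrFun h k))
  simpa using congrFun h1 (![0, 2] m)

theorem pr_cont (i : Fin a.n) : ContinuousOn (a.pr i) (a.φ i).target :=
  IsInducing.subtypeVal.continuousOn_iff.2 (((a.φ i).continuousOn_symm.prodMk
    (continuousOn_pi.2 fun m => continuousOn_pi.2 fun k => (a.cf_sm i m k).continuousOn)).congr
      fun _ hy => a.model1_pr hy)

theorem model1_cf (ho : a.Ori) {i j : Fin a.n} {x : X} (hi : x ∈ (a.φ i).source)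
    (hj : x ∈ (a.φ j).source) : ∃ z : Fin 2 → Circle, a.Jm id i j x = rot (fun m => z m) ∧
      ∀ m, a.cf i (a.φ i x) m = (z m : ℂ) • a.cf j (a.φ j x) m := by
  obtain ⟨z, hz, hJ⟩ := ho i j x hi hj
  refine ⟨fun m => ⟨z m, mem_sphere_zero_iff_norm.2 (hz m)⟩, hJ, fun m => funext fun k => ?_⟩
  have h := a.fderiv_comp_Jm a.sm_e a.smMap_id hi hj
  have e0 : rot z *ᵥ Pi.single (![0, 2] m) 1 =
      (z m).re • Pi.single (![0, 2] m) 1 + (z m).im • Pi.single (![1, 3] m) 1 := by
    ext l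
    fin_cases m <;> fin_cases l <;> simp [rot]
  have e1 : rot z *ᵥ Pi.single (![1, 3] m) 1 =
      (-(z m).im) • Pi.single (![0, 2] m) 1 + (z m).re • Pi.single (![1, 3] m) 1 := by
    ext l
    fin_cases m <;> fin_cases l <;> simp [rot]
  simp only [id, hJ] at h
  rw [Pi.smul_apply, cf, cf, h, h, e0, e1]
  simp only [mulVec_add, mulVec_smul, map_add, map_smul, Pi.add_apply, Pi.smul_apply, smul_eq_mul]
  refine Complex.ext ?_ ?_ <;> simp [-mulVec_single]

theorem model1_fib (ho : a.Ori) {i : Fin a.n} {p : a.P} (hp : a.π p ∈ (a.φ i).source) :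
    ∃ z : Fin 2 → Circle, ∀ m, p.1.2 m = (z m : ℂ) • a.cf i (a.φ i (a.π p)) m := by
  obtain ⟨j, hj, z, hz⟩ := p.2
  obtain ⟨z', -, hz'⟩ := a.model1_cf ho hj hp
  exact ⟨z * z', fun m => by rw [hz, hz', smul_smul]; rfl⟩

/-- Local triviality. -/
theorem exists_phase (ho : a.Ori) (i : Fin a.n) : ∃ ζ : a.P → Fin 2 → Circle,
    ContinuousOn ζ (a.π ⁻¹' (a.φ i).source) ∧ ∀ p, a.π p ∈ (a.φ i).source →
      p = a.act (ζ p) (a.pr i (a.φ i (a.π p))) := by
  choose! ζ hζ using fun p : a.P => a.model1_fib ho (i := i) (p := p)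
  have hφ : ContinuousOn (fun p => a.φ i (a.π p)) (a.π ⁻¹' (a.φ i).source) :=
    (a.φ i).continuousOn.comp a.continuous_π.continuousOn fun _ hp => hp
  have hc : ∀ m k, ContinuousOn (fun p => a.cf i (a.φ i (a.π p)) m k) (a.π ⁻¹' (a.φ i).source) :=
    fun m k => (a.cf_sm i m k).continuousOn.comp hφ fun _ hp => (a.φ i).map_source hp
  refine ⟨ζ, continuousOn_pi.2 fun m => IsInducing.subtypeVal.continuousOn_iff.2 ?_,
    fun p hp => Subtype.ext ?_⟩
  · refine ContinuousOn.congr ?_ fun p hp =>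
      model1_phase (a.cf_ne i ((a.φ i).map_source hp) m) (hζ p hp m)
    refine (continuousOn_finsetSum _ fun k _ =>
      (Complex.continuous_conj.comp_continuousOn (hc m k)).mul ?_).mul
      ((continuousOn_finsetSum _ fun k _ =>
        (Complex.continuous_conj.comp_continuousOn (hc m k)).mul (hc m k)).inv₀
        fun p hp => model1_ne (a.cf_ne i ((a.φ i).map_source hp) m))
    exact ((continuous_apply k).comp ((continuous_apply m).comp
      (continuous_snd.comp continuous_subtype_val))).continuousOn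
  · simp only [act, a.model1_pr ((a.φ i).map_source hp), (a.φ i).left_inv hp]
    exact Prod.ext rfl (funext (hζ p hp))

/-- The transition functions are smooth, and they are the rotations between the frames. -/
theorem exists_trans (ho : a.Ori) (i j : Fin a.n) : ∃ z : E4 → Fin 2 → Circle,
    (∀ m, ContDiffOn ℝ ∞ (fun y => (z y m : ℂ))
      ((a.φ i).target ∩ (a.φ i).symm ⁻¹' (a.φ j).source)) ∧
    ∀ y ∈ (a.φ i).target ∩ (a.φ i).symm ⁻¹' (a.φ j).source,
      a.pr i y = a.act (z y) (a.pr j (a.φ j ((a.φ i).symm y))) ∧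
      a.Jm id i j ((a.φ i).symm y) = rot fun m => z y m := by
  choose! z h1 h2 using fun (y : E4) (hy : y ∈ (a.φ i).target ∩ (a.φ i).symm ⁻¹' (a.φ j).source) =>
    a.model1_cf ho ((a.φ i).map_target hy.1) hy.2
  have hc : ∀ m k, ContDiffOn ℝ ∞ (fun y => a.cf j (a.φ j ((a.φ i).symm y)) m k)
      ((a.φ i).target ∩ (a.φ i).symm ⁻¹' (a.φ j).source) := fun m k =>
    (a.cf_sm j m k).comp (a.trans i j) fun _ hy => (a.φ j).map_source hy.2
  have h3 : ∀ y ∈ (a.φ i).target ∩ (a.φ i).symm ⁻¹' (a.φ j).source, ∀ m,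
      a.cf i y m = (z y m : ℂ) • a.cf j (a.φ j ((a.φ i).symm y)) m := fun y hy m => by
    rw [← h2 y hy m, (a.φ i).right_inv hy.1]
  refine ⟨z, fun m => ?_, fun y hy => ⟨Subtype.ext ?_, h1 y hy⟩⟩
  · refine ContDiffOn.congr ?_ fun y hy =>
      model1_phase (a.cf_ne j ((a.φ j).map_source hy.2) m) (h3 y hy m)
    exact (ContDiffOn.sum fun k _ => (Complex.conjCLE.contDiff.comp_contDiffOn (hc m k)).mul
      ((a.cf_sm i m k).mono Set.inter_subset_left)).mul
      ((ContDiffOn.sum fun k _ =>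
        (Complex.conjCLE.contDiff.comp_contDiffOn (hc m k)).mul (hc m k)).inv
        fun y hy => model1_ne (a.cf_ne j ((a.φ j).map_source hy.2) m))
  · simp only [act, a.model1_pr hy.1, a.model1_pr ((a.φ j).map_source hy.2),
      (a.φ j).left_inv hy.2]
    exact Prod.ext rfl (funext (h3 y hy))

theorem compactSpace_P [CompactSpace X] [T2Space X] (ho : a.Ori) : CompactSpace a.P := by
  obtain ⟨K, h1, h2, h3⟩ := (isCompact_univ (X := X)).finite_compact_cover Finset.univ
    (fun i => (a.φ i).source) (fun i _ => (a.φ i).open_source) fun x _ => by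
      simpa using a.cover x
  have h4 : ∀ i, IsCompact ((fun q : (Fin 2 → Circle) × X => a.act q.1 (a.pr i (a.φ i q.2))) ''
      Set.univ ×ˢ K i) := fun i =>
    (isCompact_univ.prod (h1 i)).image_of_continuousOn (a.continuous_act.comp_continuousOn
      (continuousOn_fst.prodMk ((a.pr_cont i).comp
        ((a.φ i).continuousOn.comp continuousOn_snd fun _ hq => h2 i hq.2)
        fun _ hq => (a.φ i).map_source (h2 i hq.2))))
  refine ⟨(Set.eq_univ_of_forall fun p => ?_) ▸ isCompact_iUnion h4⟩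
  obtain ⟨i, -, hi⟩ := Set.mem_iUnion₂.1 (h3 ▸ Set.mem_univ (a.π p))
  obtain ⟨ζ, -, h⟩ := a.exists_phase ho i
  exact Set.mem_iUnion.2 ⟨i, (ζ p, a.π p), ⟨trivial, hi⟩, (h p (h2 i hi)).symm⟩

/-- Homogeneous functions from local data. -/
theorem exists_W (ho : a.Ori) (w : Wt) (f : a.P → ℂ) (h1 : ∀ z p, f (a.act z p) = chi w z * f p)
    (h2 : ∀ i, ContDiffOn ℝ ∞ (fun y => f (a.pr i y)) (a.φ i).target) :
    ∃ s ∈ a.base.W w, ∀ p, a.base.ev s p = f p := by
  have hc : Continuous f := continuous_iff_continuousAt.2 fun p => by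
    obtain ⟨i, hi⟩ := a.cover (a.π p)
    obtain ⟨ζ, hζ, h⟩ := a.exists_phase ho i
    have h3 : ContinuousOn (fun q => chi w (ζ q) * f (a.pr i (a.φ i (a.π q))))
        (a.π ⁻¹' (a.φ i).source) :=
      ((model1_chi_cont w).comp_continuousOn hζ).mul ((h2 i).continuousOn.comp
        ((a.φ i).continuousOn.comp a.continuous_π.continuousOn fun _ hq => hq)
        fun _ hq => (a.φ i).map_source hq)
    exact (h3.congr fun q hq => (congrArg f (h q hq)).trans (h1 _ _)).continuousAt
      (((a.φ i).open_source.preimage a.continuous_π).mem_nhds hi)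
  have hs : (⟨f, hc⟩ : C(a.P, ℂ)) ∈ a.W w := ⟨h1, h2⟩
  exact ⟨⟨_, a.mem_A hs⟩, hs, fun _ => rfl⟩

/-- The calculus `G` is given by the frames. -/
def IsModel (G : Calc a.base) : Prop :=
  (∀ p q, ‖G.E p - G.E q‖ = ‖a.e (a.π p) - a.e (a.π q)‖) ∧
  ∀ i, ∀ y ∈ (a.φ i).target, ∀ s ∈ a.base.W 0, ∀ α,
    a.base.ev (G.D α s) (a.pr i y) =
      ∑ j, a.cV i y α j * pd j (fun y => a.base.ev s (a.pr i y)) y

/-- The horizontal vector fields `D` with local connection forms `Γ`. -/
structure IsConn (D : Fin 4 → a.A →ₗ[ℂ] a.A) (Γ : Fin a.n → Fin 2 → Fin 4 → E4 → ℂ) : Prop where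
  sm : ∀ i m α, ContDiffOn ℝ ∞ (Γ i m α) (a.φ i).target
  conj : ∀ i m α, ∀ y ∈ (a.φ i).target, (starRingEnd ℂ) (Γ i m α y) = -Γ i m (bar α) y
  mem : ∀ w, ∀ s ∈ a.base.W w, ∀ α, D α s ∈ a.base.W (w + wt α)
  eq : ∀ w, ∀ s ∈ a.base.W w, ∀ α i, ∀ y ∈ (a.φ i).target, a.base.ev (D α s) (a.pr i y) =
    ∑ j, a.cV i y α j * pd j (fun y => a.base.ev s (a.pr i y)) y +
      ((w.1 : ℂ) * Γ i 0 α y + (w.2 : ℂ) * Γ i 1 α y) * a.base.ev s (a.pr i y)

end Fr

end SX4
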