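import Pool.Agent.P.MP_0a0487_an.SX.Model1

/-! The connection. -/

set_option autoImplicit false
set_option linter.unusedSectionVars false

noncomputable section

namespace SX4

open scoped ContDiff ComplexConjugate
open Filter Topology Matrix

/-- The derivative along a complex vector. -/
def model2D (c : Fin 4 → ℂ) (f : E4 → ℂ) (y : E4) : ℂ := ∑ j, c j * pd j f y

section

variable {c : Fin 4 → ℂ} {f g : E4 → ℂ} {y : E4}

theorem model2D_of {L : E4 →L[ℝ] ℂ} (h : HasFDerivAt f L y) :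
    model2D c f y = ∑ j, c j * L (Pi.single j 1) := by
  simp only [model2D, pd, h.fderiv]

theorem model2D_congr (h : f =ᶠ[𝓝 y] g) : model2D c f y = model2D c g y := by
  simp only [model2D, pd, h.fderiv_eq]

theorem model2D_mul (hf : DifferentiableAt ℝ f y) (hg : DifferentiableAt ℝ g y) :
    model2D c (fun y => f y * g y) y = model2D c f y * g y + f y * model2D c g y := by
  rw [model2D_of (hf.hasFDerivAt.fun_mul hg.hasFDerivAt)]
  simp only [model2D, pd, Finset.sum_mul, Finset.mul_sum, ← Finset.sum_add_distrib,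
    _root_.add_apply, _root_.smul_apply, smul_eq_mul]
  exact Finset.sum_congr rfl fun j _ => by ring

theorem model2D_add (hf : DifferentiableAt ℝ f y) (hg : DifferentiableAt ℝ g y) :
    model2D c (fun y => f y + g y) y = model2D c f y + model2D c g y := by
  rw [model2D_of (hf.hasFDerivAt.fun_add hg.hasFDerivAt)]
  simp only [model2D, pd, ← Finset.sum_add_distrib, _root_.add_apply, mul_add]

theorem model2D_const (b : ℂ) : model2D c (fun _ => b) y = 0 := by
  rw [model2D_of (hasFDerivAt_const b y)]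
  simp

theorem model2D_zpow (hf : DifferentiableAt ℝ f y) (h0 : f y ≠ 0) (m : ℤ) :
    DifferentiableAt ℝ (fun y => f y ^ m) y ∧
      model2D c (fun y => f y ^ m) y = m * f y ^ m * (f y)⁻¹ * model2D c f y := by
  have h : HasFDerivAt (fun y => f y ^ m) _ y :=
    (hasDerivAt_zpow m (f y) (Or.inl h0)).comp_hasFDerivAt y hf.hasFDerivAt
  refine ⟨h.differentiableAt, ?_⟩
  rw [model2D_of h]
  simp only [model2D, pd, Finset.mul_sum, _root_.smul_apply, smul_eq_mul,
    zpow_sub_one₀ h0]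
  exact Finset.sum_congr rfl fun j _ => by ring

theorem model2_conj_diff (hf : DifferentiableAt ℝ f y) :
    DifferentiableAt ℝ (fun y => conj (f y)) y :=
  Complex.conjCLE.differentiableAt.comp y hf

theorem model2D_conj (hf : DifferentiableAt ℝ f y) :
    conj (model2D c f y) = model2D (fun j => conj (c j)) (fun y => conj (f y)) y := by
  have h : HasFDerivAt (fun y => conj (f y)) _ y :=
    Complex.conjCLE.hasFDerivAt.comp y hf.hasFDerivAt
  rw [model2D_of h]
  simp [model2D, pd]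

theorem model2D_sm {S : Set E4} (hS : IsOpen S) {c : E4 → Fin 4 → ℂ}
    (hc : ∀ j, ContDiffOn ℝ ∞ (fun y => c y j) S) (hf : ContDiffOn ℝ ∞ f S) :
    ContDiffOn ℝ ∞ (fun y => model2D (c y) f y) S :=
  ContDiffOn.sum fun j _ => (hc j).mul
    ((hf.fderiv_of_isOpen hS (m := ∞) le_rfl).clm_apply contDiffOn_const)

end

/-- The complex frame of a real frame. -/
def model2C (M : M4) : Matrix (Fin 4) (Fin 4) ℂ := Matrix.of
  ![fun j => M j 0 - Complex.I * M j 1, fun j => M j 0 + Complex.I * M j 1,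
    fun j => M j 2 - Complex.I * M j 3, fun j => M j 2 + Complex.I * M j 3]

theorem model2C_mul (T M : M4) (α l : Fin 4) :
    model2C (T * M) α l = ∑ j, model2C M α j * T l j := by
  fin_cases α <;> simp [model2C, Matrix.mul_apply, Fin.sum_univ_four] <;> ring

theorem model2C_rot (M : M4) (z : Fin 2 → Circle) (α l : Fin 4) :
    model2C (M * rot fun m => z m) α l = Fr.chi (wt α) z * model2C M α l := by
  fin_cases α <;>
    simp [model2C, Matrix.mul_apply, Fin.sum_univ_four, rot, Fr.chi, wt, ← Circle.coe_inv,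
      Circle.coe_inv_eq_conj, Complex.ext_iff] <;> constructor <;> ring

theorem model2C_conj (M : M4) (α j : Fin 4) : conj (model2C M α j) = model2C M (bar α) j := by
  fin_cases α <;> simp [model2C, bar, sub_eq_add_neg]

theorem model2D_comp {M M' : M4} {z : Fin 2 → Circle} {τ : E4 → E4} {g : E4 → ℂ} {y : E4}
    (hτ : DifferentiableAt ℝ τ y) (hg : DifferentiableAt ℝ g (τ y))
    (h : LinearMap.toMatrix' (fderiv ℝ τ y : E4 →ₗ[ℝ] E4) * M = M' * rot fun m => z m)
    (α : Fin 4) : model2D (model2C M α) (fun y => g (τ y)) y =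
      Fr.chi (wt α) z * model2D (model2C M' α) g (τ y) := by
  have h1 : HasFDerivAt (fun y => g (τ y)) _ y := hg.hasFDerivAt.comp y hτ.hasFDerivAt
  have h2 : ∀ j, fderiv ℝ g (τ y) (fderiv ℝ τ y (Pi.single j 1)) =
      ∑ l, (fderiv ℝ τ y (Pi.single j 1) l : ℂ) * pd l g (τ y) := fun j => by
    conv_lhs => rw [pi_eq_sum_univ' (fderiv ℝ τ y (Pi.single j 1))]
    simp [pd]
  rw [model2D_of h1]
  simp only [ContinuousLinearMap.comp_apply, h2, model2D, Finset.mul_sum, ← mul_assoc,
    ← model2C_rot, ← h, model2C_mul, Finset.sum_mul]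
  rw [Finset.sum_comm]
  simp

theorem model2_chi_mul (w : Wt) (z z' : Fin 2 → Circle) :
    Fr.chi w (z * z') = Fr.chi w z * Fr.chi w z' := by
  simp only [Fr.chi, Pi.mul_apply, Circle.coe_mul, mul_zpow]
  ring

theorem model2_chi_add (u v : Wt) (z : Fin 2 → Circle) :
    Fr.chi (u + v) z = Fr.chi u z * Fr.chi v z := by
  simp only [Fr.chi, Prod.fst_add, Prod.snd_add, zpow_add₀ (Circle.coe_ne_zero _)]
  ring

theorem model2_alg {z z' u u' d d' χ A B : ℂ} (h1 : z * z' = 1) (h2 : 0 = d * z' + z * d') :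
    z * u * (d' * u' + z' * (χ * A)) - z' * u' * (d * u + z * (χ * B)) =
      χ * (u * A - u' * B) - z' * d * (2 * (u * u')) := by
  linear_combination (-(u * u')) * h2 + χ * (u * A - u' * B) * h1

variable {X : Type} [TopologicalSpace X] [Nonempty X]

namespace Fr

variable (a : Fr X)

theorem model2_phase {z z' : Fin 2 → Circle} {p : a.P} (h : a.act z p = a.act z' p) : z = z' := by
  obtain ⟨i, hi, u, hu⟩ := p.2
  funext m
  have h0 : p.1.2 m ≠ 0 := by
    rw [hu]
    exact smul_ne_zero (Circle.coe_ne_zero _) (a.cf_ne i ((a.φ i).map_source hi) m)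
  exact Circle.ext (smul_left_injective ℂ h0 (congrArg (fun q : a.P => q.1.2 m) h))

theorem model2_ext (ho : a.Ori) {w : Wt} {s t : a.A} (hs : s ∈ a.base.W w) (ht : t ∈ a.base.W w)
    (h : ∀ i, ∀ y ∈ (a.φ i).target, a.base.ev s (a.pr i y) = a.base.ev t (a.pr i y)) : s = t := by
  refine a.base.ev_inj (ContinuousMap.ext fun p => ?_)
  obtain ⟨i, hi⟩ := a.cover (a.π p)
  obtain ⟨ζ, -, hζ⟩ := a.exists_phase ho i
  rw [hζ p hi]
  exact (hs.1 _ _).trans
    ((congrArg _ (h i _ ((a.φ i).map_source hi))).trans (ht.1 _ _).symm)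

theorem model2_glue (ho : a.Ori) (w : Wt) (F : Fin a.n → E4 → ℂ)
    (h1 : ∀ i, ContDiffOn ℝ ∞ (F i) (a.φ i).target)
    (h2 : ∀ i j, ∀ y ∈ (a.φ i).target ∩ (a.φ i).symm ⁻¹' (a.φ j).source, ∃ z,
      a.pr i y = a.act z (a.pr j (a.φ j ((a.φ i).symm y))) ∧
        F i y = chi w z * F j (a.φ j ((a.φ i).symm y))) :
    ∃ s ∈ a.base.W w, ∀ i, ∀ y ∈ (a.φ i).target, a.base.ev s (a.pr i y) = F i y := by
  choose c hc using a.cover
  choose ζ _ hζ using a.exists_phase ho
  have key : ∀ i, ∀ y ∈ (a.φ i).target, chi w (ζ (c (a.π (a.pr i y))) (a.pr i y)) *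
      F (c (a.π (a.pr i y))) (a.φ (c (a.π (a.pr i y))) (a.π (a.pr i y))) = F i y := fun i y hy => by
    have h := hζ _ (a.pr i y) (hc _)
    rw [a.π_pr hy] at h ⊢
    obtain ⟨z, hz, hF⟩ := h2 i _ y ⟨hy, hc _⟩
    rw [hF, a.model2_phase (hz.symm.trans h)]
  obtain ⟨s, hs, h⟩ := a.exists_W ho w
    (fun p => chi w (ζ (c (a.π p)) p) * F (c (a.π p)) (a.φ (c (a.π p)) (a.π p))) (fun z p => by
      have h := hζ _ (a.act z p) (hc _)
      rw [a.π_act] at h ⊢
      have h' := congrArg (a.act z) (hζ _ p (hc _))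
      rw [← a.act_mul] at h'
      rw [a.model2_phase (h.symm.trans h'), model2_chi_mul, mul_assoc])
    fun i => (h1 i).congr (key i)
  exact ⟨s, hs, fun i y hy => (h _).trans (key i y hy)⟩

/-- The connection forms. -/
def model2G (i : Fin a.n) (m : Fin 2) (α : Fin 4) (y : E4) : ℂ :=
  (∑ k, (a.cf i y m k * model2D (a.cV i y α) (fun y => conj (a.cf i y m k)) y -
    conj (a.cf i y m k) * model2D (a.cV i y α) (fun y => a.cf i y m k) y)) /
    (2 * ∑ k, a.cf i y m k * conj (a.cf i y m k))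

/-- The local formula for the covariant derivative. -/
def model2L (w : Wt) (α : Fin 4) (s : a.A) (i : Fin a.n) (y : E4) : ℂ :=
  model2D (a.cV i y α) (fun y => a.base.ev s (a.pr i y)) y +
    ((w.1 : ℂ) * a.model2G i 0 α y + (w.2 : ℂ) * a.model2G i 1 α y) * a.base.ev s (a.pr i y)

theorem model2_ne (i : Fin a.n) {y : E4} (hy : y ∈ (a.φ i).target) (m : Fin 2) :
    ∑ k, a.cf i y m k * conj (a.cf i y m k) ≠ 0 := by
  simp only [Complex.mul_conj, ← Complex.ofReal_sum, Complex.ofReal_ne_zero]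
  intro h
  refine a.cf_ne i hy m (funext fun k => Complex.normSq_eq_zero.1 ?_)
  exact (Finset.sum_eq_zero_iff_of_nonneg fun _ _ => Complex.normSq_nonneg _).1 h k
    (Finset.mem_univ k)

theorem model2_cV_sm (i : Fin a.n) (α j : Fin 4) :
    ContDiffOn ℝ ∞ (fun y => a.cV i y α j) (a.φ i).target := by
  have h : ∀ b, ContDiffOn ℝ ∞ (fun y => (a.V i y j b : ℂ)) (a.φ i).target := fun b =>
    Complex.ofRealCLM.contDiff.comp_contDiffOn (a.V_sm i j b)
  fin_cases α
  exacts [(h 0).sub (contDiffOn_const.mul (h 1)), (h 0).add (contDiffOn_const.mul (h 1)),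
    (h 2).sub (contDiffOn_const.mul (h 3)), (h 2).add (contDiffOn_const.mul (h 3))]

theorem model2G_sm (i : Fin a.n) (m : Fin 2) (α : Fin 4) :
    ContDiffOn ℝ ∞ (a.model2G i m α) (a.φ i).target := by
  have h : ∀ k, ContDiffOn ℝ ∞ (fun y => conj (a.cf i y m k)) (a.φ i).target := fun k =>
    Complex.conjCLE.contDiff.comp_contDiffOn (a.cf_sm i m k)
  have ho := (a.φ i).open_target
  have hc := a.model2_cV_sm i α
  exact (ContDiffOn.sum fun k _ => ((a.cf_sm i m k).mul (model2D_sm ho hc (h k))).sub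
    ((h k).mul (model2D_sm ho hc (a.cf_sm i m k)))).mul
    ((contDiffOn_const.mul (ContDiffOn.sum fun k _ => (a.cf_sm i m k).mul (h k))).inv
      fun y hy => mul_ne_zero two_ne_zero (a.model2_ne i hy m))

theorem model2_diff {i : Fin a.n} {f : E4 → ℂ} (h : ContDiffOn ℝ ∞ f (a.φ i).target) {y : E4}
    (hy : y ∈ (a.φ i).target) : DifferentiableAt ℝ f y :=
  (h.contDiffAt ((a.φ i).open_target.mem_nhds hy)).differentiableAt (by simp)

theorem model2G_conj (i : Fin a.n) (m : Fin 2) (α : Fin 4) {y : E4} (hy : y ∈ (a.φ i).target) :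
    conj (a.model2G i m α y) = -a.model2G i m (bar α) y := by
  have h : (fun j => conj (a.cV i y α j)) = a.cV i y (bar α) := funext (model2C_conj _ α)
  have h1 := fun k => a.model2_diff (a.cf_sm i m k) hy
  simp only [model2G, map_div₀, map_mul, map_sum, map_sub, map_ofNat, model2D_conj (h1 _),
    model2D_conj (model2_conj_diff (h1 _)), h, Complex.conj_conj, ← neg_div,
    ← Finset.sum_neg_distrib, neg_sub, mul_comm]

theorem model2L_trans (ho : a.Ori) {w : Wt} {s : a.A} (hs : s ∈ a.base.W w) (α : Fin 4)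
    (i j : Fin a.n) (y : E4) (hy : y ∈ (a.φ i).target ∩ (a.φ i).symm ⁻¹' (a.φ j).source) :
    ∃ z, a.pr i y = a.act z (a.pr j (a.φ j ((a.φ i).symm y))) ∧
      a.model2L w α s i y =
        chi (w + wt α) z * a.model2L w α s j (a.φ j ((a.φ i).symm y)) := by
  obtain ⟨z, hz, h⟩ := a.exists_trans ho i j
  refine ⟨z y, (h y hy).1, ?_⟩
  have hS : (a.φ i).target ∩ (a.φ i).symm ⁻¹' (a.φ j).source ∈ 𝓝 y :=
    ((a.φ i).symm.isOpen_inter_preimage (a.φ j).open_source).mem_nhds hy
  have hτ : DifferentiableAt ℝ (fun y => a.φ j ((a.φ i).symm y)) y :=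
    ((a.trans i j).contDiffAt hS).differentiableAt (by simp)
  have hy' := (a.φ j).map_source hy.2
  have hzd : ∀ m, DifferentiableAt ℝ (fun y => (z y m : ℂ)) y := fun m =>
    ((hz m).contDiffAt hS).differentiableAt (by simp)
  have hJ : LinearMap.toMatrix' (fderiv ℝ (fun y => a.φ j ((a.φ i).symm y)) y : E4 →ₗ[ℝ] E4) *
      a.V i y = a.V j (a.φ j ((a.φ i).symm y)) * rot fun m => z y m := by
    rw [← (h y hy).2, Jm, (a.φ i).right_inv hy.1, ← Matrix.mul_assoc, ← Matrix.mul_assoc, id,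
      Matrix.mul_nonsing_inv _ (a.V_det_ne j hy').isUnit, Matrix.one_mul]
    rfl
  have hD : ∀ (f g u : E4 → ℂ), DifferentiableAt ℝ u y →
      DifferentiableAt ℝ g (a.φ j ((a.φ i).symm y)) →
      (∀ x ∈ (a.φ i).target ∩ (a.φ i).symm ⁻¹' (a.φ j).source,
        f x = u x * g (a.φ j ((a.φ i).symm x))) →
      model2D (a.cV i y α) f y = model2D (a.cV i y α) u y * g (a.φ j ((a.φ i).symm y)) +
        u y * (chi (wt α) (z y) * model2D (a.cV j (a.φ j ((a.φ i).symm y)) α) g
          (a.φ j ((a.φ i).symm y))) := fun f g u hu hg hf => by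
    rw [model2D_congr (eventuallyEq_of_mem hS hf), 
      model2D_mul (g := fun x => g (a.φ j ((a.φ i).symm x))) hu (hg.comp y hτ)]
    exact congrArg (fun t => _ + u y * t) (model2D_comp hτ hg hJ α)
  have hcf : ∀ m k, ∀ x ∈ (a.φ i).target ∩ (a.φ i).symm ⁻¹' (a.φ j).source,
      a.cf i x m k = z x m * a.cf j (a.φ j ((a.φ i).symm x)) m k := fun m k x hx => by
    have h' := congrArg (fun q : a.P => q.1.2 m k) (h x hx).1
    simpa [pr, act, hx.1, (a.φ j).map_source hx.2] using h'
  have hzz : ∀ m x, (z x m : ℂ) * conj (z x m : ℂ) = 1 := fun m x => by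
    rw [Complex.mul_conj, Circle.normSq_coe, Complex.ofReal_one]
  have hG : ∀ m, a.model2G i m α y =
      chi (wt α) (z y) * a.model2G j m α (a.φ j ((a.φ i).symm y)) -
        (z y m : ℂ)⁻¹ * model2D (a.cV i y α) (fun y => (z y m : ℂ)) y := fun m => by
    have h1 := fun k => a.model2_diff (a.cf_sm j m k) hy'
    have h2 := fun k => hD _ _ _ (hzd m) (h1 k) (hcf m k)
    have h3 := fun k => hD (fun y => conj (a.cf i y m k)) _ _ (model2_conj_diff (hzd m))
      (model2_conj_diff (h1 k)) fun x hx => by rw [hcf m k x hx, map_mul]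
    have h4 := model2D_mul (c := a.cV i y α) (hzd m) (model2_conj_diff (hzd m))
    simp only [hzz, model2D_const] at h4
    have h5 : ∀ k, a.cf i y m k * conj (a.cf i y m k) = a.cf j (a.φ j ((a.φ i).symm y)) m k *
        conj (a.cf j (a.φ j ((a.φ i).symm y)) m k) := fun k => by
      rw [hcf m k y hy, map_mul, mul_mul_mul_comm, hzz, one_mul]
    have h6 := mul_ne_zero two_ne_zero (a.model2_ne j hy' m)
    rw [inv_eq_of_mul_eq_one_right (hzz m y)]
    simp only [model2G, h5, h2, h3]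
    rw [div_eq_iff h6, sub_mul, mul_assoc, div_mul_cancel₀ _ h6]
    simp only [Finset.mul_sum, ← Finset.sum_sub_distrib]
    refine Finset.sum_congr rfl fun k _ => ?_
    rw [hcf m k y hy, map_mul]
    exact model2_alg (hzz m y) h4
  have hs1 : ∀ x ∈ (a.φ i).target ∩ (a.φ i).symm ⁻¹' (a.φ j).source, a.base.ev s (a.pr i x) =
      ((z x 0 : ℂ) ^ w.1 * (z x 1 : ℂ) ^ w.2) * a.base.ev s (a.pr j (a.φ j ((a.φ i).symm x))) :=
    fun x hx => by rw [(h x hx).1]; exact hs.1 _ _
  have h0 := model2D_zpow (c := a.cV i y α) (hzd 0) (Circle.coe_ne_zero _) w.1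
  have h1 := model2D_zpow (c := a.cV i y α) (hzd 1) (Circle.coe_ne_zero _) w.2
  have h2 := hD _ (fun y => a.base.ev s (a.pr j y)) _ (h0.1.fun_mul h1.1)
    (a.model2_diff (hs.2 j) hy') hs1
  simp only [model2L, h2, hG, hs1 y hy, model2D_mul h0.1 h1.1, h0.2, h1.2, model2_chi_add]
  rw [show chi w (z y) = (z y 0 : ℂ) ^ w.1 * (z y 1 : ℂ) ^ w.2 from rfl]
  ring

theorem model2L_add {w : Wt} {s t : a.A} (hs : s ∈ a.base.W w) (ht : t ∈ a.base.W w) (α : Fin 4)
    {i : Fin a.n} {y : E4} (hy : y ∈ (a.φ i).target) :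
    a.model2L w α (s + t) i y = a.model2L w α s i y + a.model2L w α t i y := by
  have h := model2D_add (c := a.cV i y α) (f := fun y => a.base.ev s (a.pr i y))
    (g := fun y => a.base.ev t (a.pr i y)) (a.model2_diff (hs.2 i) hy) (a.model2_diff (ht.2 i) hy)
  simp only [model2L, map_add, ContinuousMap.add_apply, h]
  ring

theorem model2L_smul {w : Wt} {s : a.A} (hs : s ∈ a.base.W w) (c : ℂ) (α : Fin 4)
    {i : Fin a.n} {y : E4} (hy : y ∈ (a.φ i).target) :
    a.model2L w α (c • s) i y = c * a.model2L w α s i y := by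
  have h := model2D_mul (c := a.cV i y α) (g := fun y => a.base.ev s (a.pr i y))
    (differentiableAt_const c) (a.model2_diff (hs.2 i) hy)
  simp only [model2L, map_smul, ContinuousMap.smul_apply, smul_eq_mul, h, model2D_const]
  ring

theorem model2_exists (ho : a.Ori) (α : Fin 4) (w : Wt) : ∃ d : a.base.W w →ₗ[ℂ] a.A,
    ∀ s, d s ∈ a.base.W (w + wt α) ∧
      ∀ i, ∀ y ∈ (a.φ i).target, a.base.ev (d s) (a.pr i y) = a.model2L w α s i y := by
  have h : ∀ s : a.base.W w, ∃ t ∈ a.base.W (w + wt α), ∀ i, ∀ y ∈ (a.φ i).target,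
      a.base.ev t (a.pr i y) = a.model2L w α s i y := fun s =>
    a.model2_glue ho _ _ (fun i => (model2D_sm (a.φ i).open_target (a.model2_cV_sm i α)
      (s.2.2 i)).add (((contDiffOn_const.mul (a.model2G_sm i 0 α)).add
        (contDiffOn_const.mul (a.model2G_sm i 1 α))).mul (s.2.2 i))) (a.model2L_trans ho s.2 α)
  choose d hd hd' using h
  refine ⟨⟨⟨d, fun s t => ?_⟩, fun c s => ?_⟩, fun s => ⟨hd s, hd' s⟩⟩
  · refine a.model2_ext ho (hd _) (Submodule.add_mem _ (hd s) (hd t)) fun i y hy => ?_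
    rw [map_add, ContinuousMap.add_apply, hd' _ i y hy, hd' _ i y hy, hd' _ i y hy]
    exact a.model2L_add s.2 t.2 α hy
  · refine a.model2_ext ho (hd _) (Submodule.smul_mem _ c (hd s)) fun i y hy => ?_
    exact (hd' _ i y hy).trans ((a.model2L_smul s.2 c α hy).trans
      (congrArg (c * ·) (hd' s i y hy).symm))

end Fr

theorem Fr.exists_conn (a : Fr X) (ho : a.Ori) : ∃ D Γ, a.IsConn D Γ := by
  choose d hd using a.model2_exists ho
  choose D hD using fun α => a.exists_lift (F := a.A) (d α)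
  refine ⟨D, a.model2G, a.model2G_sm, fun i m α y hy => a.model2G_conj i m α hy,
    fun w s hs α => ?_, fun w s hs α i y hy => ?_⟩
  · rw [hD α w ⟨s, hs⟩]
    exact (hd α w _).1
  · rw [hD α w ⟨s, hs⟩]
    exact (hd α w _).2 i y hy

end SX4
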