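import Pool.Agent.P.MP_0a0487_an.SX.Model1
import Pool.Agent.P.MP_0a0487_an.SX.Basic
import Pool.Agent.P.MP_0a0487_an.SX.Model3Aux

/-! The calculus of a framed manifold. -/

set_option autoImplicit false
set_option linter.unusedSectionVars false

noncomputable section

namespace SX4

open scoped ContDiff
open Filter Topology Matrix

variable {X : Type} [TopologicalSpace X] [Nonempty X]

section

open scoped ComplexOrder

variable {a : Fr X} {D : Fin 4 → a.A →ₗ[ℂ] a.A} {Γ : Fin a.n → Fin 2 → Fin 4 → E4 → ℂ}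

theorem m3_chi_add (u v : Wt) (z : Fin 2 → Circle) :
    Fr.chi (u + v) z = Fr.chi u z * Fr.chi v z := by
  simp only [Fr.chi, Prod.fst_add, Prod.snd_add, zpow_add₀ (Circle.coe_ne_zero _)]
  ring

theorem m3_chi_zero (z : Fin 2 → Circle) : Fr.chi 0 z = 1 := by simp [Fr.chi]

theorem m3_chi_ne (w : Wt) (z : Fin 2 → Circle) : Fr.chi w z ≠ 0 :=
  mul_ne_zero (zpow_ne_zero _ (Circle.coe_ne_zero _)) (zpow_ne_zero _ (Circle.coe_ne_zero _))

theorem m3_act {w : Wt} {s : a.A} (hs : s ∈ a.base.W w) (z : Fin 2 → Circle) (p : a.P) :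
    a.base.ev s (a.act z p) = Fr.chi w z * a.base.ev s p :=
  (show a.A.subtype s ∈ a.W w from hs).1 z p

theorem m3_sm {w : Wt} {s : a.A} (hs : s ∈ a.base.W w) (i : Fin a.n) :
    ContDiffOn ℝ ∞ (fun y => a.base.ev s (a.pr i y)) (a.φ i).target :=
  (show a.A.subtype s ∈ a.W w from hs).2 i

theorem m3_pt (ho : a.Ori) (p : a.P) :
    ∃ i y z, y ∈ (a.φ i).target ∧ p = a.act z (a.pr i y) := by
  obtain ⟨i, hi⟩ := a.cover (a.π p)
  obtain ⟨ζ, -, hζ⟩ := a.exists_phase ho i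
  exact ⟨i, _, ζ p, (a.φ i).map_source hi, hζ p hi⟩

theorem m3_ext (ho : a.Ori) {w : Wt} {s t : a.A} (hs : s ∈ a.base.W w) (ht : t ∈ a.base.W w)
    (h : ∀ i, ∀ y ∈ (a.φ i).target, a.base.ev s (a.pr i y) = a.base.ev t (a.pr i y)) : s = t := by
  refine a.base.ext' fun p => ?_
  obtain ⟨i, y, z, hy, rfl⟩ := m3_pt ho p
  rw [m3_act hs, m3_act ht, h i y hy]

theorem m3_cV_star (i : Fin a.n) (y : E4) (α j : Fin 4) :
    (starRingEnd ℂ) (a.cV i y α j) = a.cV i y (bar α) j := by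
  fin_cases α <;> simp [Fr.cV, bar, sub_eq_add_neg]

theorem m3_cV_sm (i : Fin a.n) (α j : Fin 4) :
    ContDiffOn ℝ ∞ (fun y => a.cV i y α j) (a.φ i).target := by
  have h : ∀ k, ContDiffOn ℝ ∞ (fun y => (a.V i y j k : ℂ)) (a.φ i).target := fun k =>
    Complex.ofRealCLM.contDiff.comp_contDiffOn (a.V_sm i j k)
  fin_cases α
  exacts [(h 0).sub (contDiffOn_const.mul (h 1)), (h 0).add (contDiffOn_const.mul (h 1)),
    (h 2).sub (contDiffOn_const.mul (h 3)), (h 2).add (contDiffOn_const.mul (h 3))]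

theorem m3_cV_det (i : Fin a.n) {y : E4} (hy : y ∈ (a.φ i).target) : (a.cV i y).det ≠ 0 := by
  have e : a.cV i y = !![1, -Complex.I, 0, 0; 1, Complex.I, 0, 0; 0, 0, 1, -Complex.I;
      0, 0, 1, Complex.I] * (Complex.ofRealHom.mapMatrix (a.V i y))ᵀ := by
    ext α j
    fin_cases α <;> simp [Fr.cV, Matrix.mul_apply, Fin.sum_univ_four, sub_eq_add_neg]
  have e2 : (!![1, -Complex.I, 0, 0; 1, Complex.I, 0, 0; 0, 0, 1, -Complex.I;
      0, 0, 1, Complex.I] : Matrix (Fin 4) (Fin 4) ℂ).det = -4 := by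
    simp [Matrix.det_succ_row_zero, Fin.sum_univ_succ, Fin.succAbove]
    linear_combination (4 : ℂ) * Complex.I_sq
  rw [e, det_mul, det_transpose, ← RingHom.map_det, e2]
  exact mul_ne_zero (by norm_num) (Complex.ofReal_ne_zero.2 (a.V_det_ne i hy))

theorem m3_D_mul (ho : a.Ori) (h : a.IsConn D Γ) (α : Fin 4) (s t : a.A) :
    D α (s * t) = D α s * t + s * D α t := by
  induction s using a.A_ind with
  | add s s' h1 h2 => simp only [add_mul, map_add, h1, h2]; ring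
  | h u s hs =>
    induction t using a.A_ind with
    | add t t' h1 h2 => simp only [mul_add, map_add, h1, h2]; ring
    | h v t ht =>
      refine m3_ext ho (h.mem _ _ (a.base.mul_mem hs ht) α)
        (add_mem (a.base.mul_mem' (h.mem _ _ hs α) ht (add_right_comm _ _ _))
          (a.base.mul_mem' hs (h.mem _ _ ht α) (add_assoc _ _ _).symm)) fun i y hy => ?_
      rw [h.eq _ _ (a.base.mul_mem hs ht) α i y hy]
      simp only [map_add, map_mul, ContinuousMap.add_apply, ContinuousMap.mul_apply,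
        h.eq _ _ hs α i y hy, h.eq _ _ ht α i y hy,
        m3_pd_mul (a.φ i).open_target hy (m3_sm hs i) (m3_sm ht i), Fin.sum_univ_four,
        Prod.fst_add, Prod.snd_add, Int.cast_add]
      ring

theorem m3_D_star (ho : a.Ori) (h : a.IsConn D Γ) (α : Fin 4) (s : a.A) :
    star (D α s) = D (bar α) (star s) := by
  induction s using a.A_ind with
  | add s s' h1 h2 => simp only [star_add, map_add, h1, h2]
  | h w s hs =>
    refine m3_ext ho (a.base.star_mem' (h.mem _ _ hs α) (by rw [wt_bar, neg_add]))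
      (h.mem _ _ (a.base.star_mem hs) (bar α)) fun i y hy => ?_
    rw [h.eq _ _ (a.base.star_mem hs) (bar α) i y hy]
    simp only [a.base.ev_star, h.eq _ _ hs α i y hy, m3_pd_star, map_add, map_sum, map_mul,
      m3_cV_star, h.conj i _ α y hy, map_intCast, Prod.fst_neg, Prod.snd_neg, Int.cast_neg]
    ring

theorem m3_comm_loc (h : a.IsConn D Γ) (α β : Fin 4) (i : Fin a.n) {y : E4}
    (hy : y ∈ (a.φ i).target) : ∃ (t : Fin 4 → ℂ) (f : Fin 2 → ℂ), ∀ (w : Wt), ∀ s ∈ a.base.W w,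
      a.base.ev (D α (D β s) - D β (D α s)) (a.pr i y) =
        ∑ γ, t γ * a.base.ev (D γ s) (a.pr i y) +
          ((w.1 : ℂ) * f 0 + (w.2 : ℂ) * f 1) * a.base.ev s (a.pr i y) := by
  have hS := (a.φ i).open_target
  obtain ⟨A, hA⟩ : ∃ A, A = ((wt β).1 : ℂ) * Γ i 0 α y + ((wt β).2 : ℂ) * Γ i 1 α y := ⟨_, rfl⟩
  obtain ⟨B, hB⟩ : ∃ B, B = ((wt α).1 : ℂ) * Γ i 0 β y + ((wt α).2 : ℂ) * Γ i 1 β y := ⟨_, rfl⟩
  obtain ⟨t, ht⟩ : ∃ t : Fin 4 → ℂ, ∀ k, ∑ γ, t γ * a.cV i y γ k =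
      ∑ j, (a.cV i y α j * pd j (fun x => a.cV i x β k) y -
        a.cV i y β j * pd j (fun x => a.cV i x α k) y) + A * a.cV i y β k - B * a.cV i y α k := by
    refine ⟨(fun k => ∑ j, (a.cV i y α j * pd j (fun x => a.cV i x β k) y -
        a.cV i y β j * pd j (fun x => a.cV i x α k) y) + A * a.cV i y β k - B * a.cV i y α k) ᵥ*
        (a.cV i y)⁻¹, fun k => ?_⟩
    change ((_ ᵥ* (a.cV i y)⁻¹) ᵥ* a.cV i y) k = _
    rw [vecMul_vecMul, nonsing_inv_mul _ (m3_cV_det i hy).isUnit, vecMul_one]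
  refine ⟨t, fun m => ∑ j, (a.cV i y α j * pd j (Γ i m β) y - a.cV i y β j * pd j (Γ i m α) y) +
    A * Γ i m β y - B * Γ i m α y - ∑ γ, t γ * Γ i m γ y, fun w s hs => ?_⟩
  have e : ∀ γ j, pd j (fun x => a.base.ev (D γ s) (a.pr i x)) y = _ := fun γ j =>
    (m3_pd_congr hS hy (h.eq w s hs γ i) j).trans
      (m3_pd_op hS hy (m3_sm hs i) (m3_cV_sm i γ) (h.sm i 0 γ) (h.sm i 1 γ) _ _ j)
  have c := m3_pd_comm hS hy (m3_sm hs i)
  have es : ∀ u v : a.A, a.base.ev (u - v) (a.pr i y) =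
      a.base.ev u (a.pr i y) - a.base.ev v (a.pr i y) := fun _ _ => rfl
  rw [es, h.eq _ _ (h.mem w s hs β) α i y hy, h.eq _ _ (h.mem w s hs α) β i y hy]
  simp only [e, h.eq w s hs _ i y hy]
  have t0 := ht 0
  have t1 := ht 1
  have t2 := ht 2
  have t3 := ht 3
  simp only [Fin.sum_univ_four, c 1 0, c 2 0, c 3 0, c 2 1, c 3 1, c 3 2, Prod.fst_add,
    Prod.snd_add, Int.cast_add, hA, hB] at t0 t1 t2 t3 ⊢
  linear_combination (-pd 0 (fun y => a.base.ev s (a.pr i y)) y) * t0 -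
    pd 1 (fun y => a.base.ev s (a.pr i y)) y * t1 - pd 2 (fun y => a.base.ev s (a.pr i y)) y * t2 -
    pd 3 (fun y => a.base.ev s (a.pr i y)) y * t3

theorem m3_comm (ho : a.Ori) (h : a.IsConn D Γ) (α β : Fin 4) (p : a.P) :
    ∃ (t : Fin 4 → ℂ) (f : Fin 2 → ℂ), ∀ (w : Wt), ∀ s ∈ a.base.W w,
      a.base.ev (D α (D β s) - D β (D α s)) p =
        ∑ γ, t γ * a.base.ev (D γ s) p + ((w.1 : ℂ) * f 0 + (w.2 : ℂ) * f 1) * a.base.ev s p := by
  obtain ⟨i, y, z, hy, rfl⟩ := m3_pt ho p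
  obtain ⟨t, f, H⟩ := m3_comm_loc h α β i hy
  refine ⟨fun γ => t γ * (Fr.chi (wt β) z * Fr.chi (wt α) z / Fr.chi (wt γ) z),
    fun m => f m * (Fr.chi (wt β) z * Fr.chi (wt α) z), fun w s hs => ?_⟩
  have m0 : D β (D α s) ∈ a.base.W (w + wt β + wt α) :=
    add_right_comm w (wt α) (wt β) ▸ h.mem _ _ (h.mem w s hs α) β
  have es : ∀ (u v : a.A) (p : a.P), a.base.ev (u - v) p = a.base.ev u p - a.base.ev v p :=
    fun _ _ _ => rfl
  rw [es, m3_act m0, m3_act (h.mem _ _ (h.mem w s hs β) α), ← mul_sub, ← es, m3_act hs, H w s hs,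
    mul_add, Finset.mul_sum]
  congr 1
  · refine Finset.sum_congr rfl fun γ _ => ?_
    have := m3_chi_ne (wt γ) z
    rw [m3_act (h.mem w s hs γ), m3_chi_add, m3_chi_add, m3_chi_add]
    field_simp
  · rw [m3_chi_add, m3_chi_add]
    ring

theorem m3_exists_e (ho : a.Ori) (k : Fin a.N) :
    ∃ s, a.base.Re0 s ∧ ∀ p, a.base.ev s p = (a.e (a.π p) k : ℝ) := by
  obtain ⟨s, hs, e⟩ := a.exists_W ho 0 (fun p => (a.e (a.π p) k : ℝ))
    (fun z p => by rw [a.π_act, m3_chi_zero, one_mul]) fun i =>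
      (Complex.ofRealCLM.contDiff.comp_contDiffOn (contDiffOn_pi.1 (a.e_sm i) k)).congr
        fun y hy => by rw [a.π_pr hy]; rfl
  exact ⟨s, ⟨hs, a.base.ext' fun p => by rw [a.base.ev_star, e, Complex.conj_ofReal]⟩, e⟩

theorem m3_indep (h : a.IsConn D Γ) {e : Fin a.N → a.A} (e0 : ∀ k, e k ∈ a.base.W 0)
    (he : ∀ k p, a.base.ev (e k) p = (a.e (a.π p) k : ℝ)) (i : Fin a.n) {y : E4}
    (hy : y ∈ (a.φ i).target) (v : Fin 4 → ℂ)
    (hv : (Matrix.of fun k β => a.base.ev (D β (e k)) (a.pr i y)) *ᵥ v = 0) : v = 0 := by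
  have hS := (a.φ i).open_target
  obtain ⟨L, hL⟩ : ∃ L, L = fderiv ℝ (fun y => a.e ((a.φ i).symm y)) y := ⟨_, rfl⟩
  have d0 : HasFDerivAt (fun y => a.e ((a.φ i).symm y)) L y :=
    hL ▸ (((a.e_sm i).contDiffAt (hS.mem_nhds hy)).differentiableAt (by simp)).hasFDerivAt
  have e1 : ∀ k j, pd j (fun y => a.base.ev (e k) (a.pr i y)) y = (L (Pi.single j 1) k : ℝ) := by
    intro k j
    have d : HasFDerivAt (fun x => ((a.e ((a.φ i).symm x) k : ℝ) : ℂ)) _ y :=
      Complex.ofRealCLM.hasFDerivAt.comp y (hasFDerivAt_pi'.1 d0 k)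
    rw [m3_pd_congr hS hy (χ := fun x => ((a.e ((a.φ i).symm x) k : ℝ) : ℂ))
      fun x hx => by rw [he, a.π_pr hx], pd, d.fderiv]
    rfl
  have inj : ∀ w, L w = 0 → w = 0 := fun w hw => by
    have hu := (a.V_det_ne i hy).isUnit
    have h1 : a.V i y *ᵥ ((a.V i y)⁻¹ *ᵥ w) = w := by
      rw [mulVec_mulVec, mul_nonsing_inv _ hu, one_mulVec]
    have h2 := a.indep i y hy ((a.V i y)⁻¹ *ᵥ w) (by rw [h1, ← hL, hw])
    rw [← h1, h2, mulVec_zero]
  have e2 : ∀ k, ∑ j, (v ᵥ* a.cV i y) j * (L (Pi.single j 1) k : ℝ) = 0 := fun k => by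
    have := congrFun hv k
    simp only [mulVec, dotProduct, of_apply, h.eq 0 _ (e0 k) _ i y hy, e1, Pi.zero_apply,
      Prod.fst_zero, Prod.snd_zero, Int.cast_zero, Fin.sum_univ_four] at this
    simp only [vecMul, dotProduct, Fin.sum_univ_four]
    linear_combination this
  have e3 : (fun j => ((v ᵥ* a.cV i y) j).re) = 0 := inj _ (funext fun k => by
    have := congrArg Complex.re (e2 k)
    rw [m3_clm]
    simpa [Finset.sum_apply] using this)
  have e4 : (fun j => ((v ᵥ* a.cV i y) j).im) = 0 := inj _ (funext fun k => by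
    have := congrArg Complex.im (e2 k)
    rw [m3_clm]
    simpa [Finset.sum_apply] using this)
  refine eq_zero_of_vecMul_eq_zero (m3_cV_det i hy) (funext fun j => ?_)
  exact Complex.ext (congrFun e3 j) (congrFun e4 j)

theorem m3_exists_theta' (ho : a.Ori) (h : a.IsConn D Γ) {e : Fin a.N → a.A}
    (e0 : ∀ k, e k ∈ a.base.W 0) (he : ∀ k p, a.base.ev (e k) p = (a.e (a.π p) k : ℝ)) :
    ∃ θ : Fin 4 → Fin a.N → a.A, (∀ α k, θ α k ∈ a.base.W (-wt α)) ∧
      ∀ α β, ∑ k, θ α k * D β (e k) = if α = β then 1 else 0 := by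
  obtain ⟨C, hC⟩ : ∃ C : a.P → Matrix (Fin a.N) (Fin 4) ℂ,
      C = fun p => Matrix.of fun k β => a.base.ev (D β (e k)) p := ⟨_, rfl⟩
  have c0 : ∀ β k, D β (e k) ∈ a.base.W (wt β) := fun β k => zero_add (wt β) ▸ h.mem _ _ (e0 k) β
  have h1 : ∀ z p, C (a.act z p) = C p * diagonal fun β => Fr.chi (wt β) z := fun z p => by
    ext k β
    simp only [hC, mul_diagonal, of_apply, m3_act (c0 β k), mul_comm]
  have h2 : ∀ i, ∀ y ∈ (a.φ i).target, ((C (a.pr i y))ᴴ * C (a.pr i y)).det ≠ 0 := by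
    intro i y hy h0
    obtain ⟨v, hv, hv'⟩ := exists_mulVec_eq_zero_iff.2 h0
    rw [conjTranspose_mul_self_mulVec_eq_zero, hC] at hv'
    exact hv (m3_indep h e0 he i hy v hv')
  have h3 : ∀ i k β, ContDiffOn ℝ ∞ (fun y => C (a.pr i y) k β) (a.φ i).target := fun i k β => by
    rw [hC]
    exact m3_sm (c0 β k) i
  have h4 : ∀ i β k, ContDiffOn ℝ ∞ (fun y => (C (a.pr i y))ᴴ β k) (a.φ i).target := fun i β k =>
    Complex.conjCLE.contDiff.comp_contDiffOn (h3 i k β)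
  have h5 : ∀ α k, ∃ s ∈ a.base.W (-wt α), ∀ p,
      a.base.ev s p = (((C p)ᴴ * C p)⁻¹ * (C p)ᴴ) α k := fun α k => by
    refine a.exists_W ho _ _ (fun z p => ?_) fun i => ?_
    · have d1 : (diagonal fun β => Fr.chi (wt β) z)⁻¹ = diagonal fun β => Fr.chi (-wt β) z :=
        inv_eq_left_inv (by
          rw [diagonal_mul_diagonal, ← diagonal_one]
          congr 1
          funext β
          rw [← m3_chi_add, neg_add_cancel, m3_chi_zero])
      have d2 : IsUnit (diagonal fun β => Fr.chi (wt β) z)ᴴ.det := by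
        rw [det_conjTranspose, det_diagonal, isUnit_star]
        exact (Finset.prod_ne_zero_iff.2 fun β _ => m3_chi_ne _ _).isUnit
      rw [h1, conjTranspose_mul, Matrix.mul_assoc _ (C p)ᴴ, ← Matrix.mul_assoc (C p)ᴴ,
        Matrix.mul_inv_rev, Matrix.mul_inv_rev, Matrix.mul_assoc,
        nonsing_inv_mul_cancel_left _ _ d2, d1, Matrix.mul_assoc, diagonal_mul]
    · simp only [Matrix.mul_apply (M := (_ : Matrix (Fin 4) (Fin 4) ℂ)⁻¹)]
      refine ContDiffOn.sum fun γ _ => ContDiffOn.mul (m3_inv_sm (fun β γ => ?_) (h2 i) _ _)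
        (h4 i γ k)
      simp only [Matrix.mul_apply]
      exact ContDiffOn.sum fun l _ => (h4 i β l).mul (h3 i l γ)
  choose θ hθ eθ using h5
  refine ⟨θ, hθ, fun α β => m3_ext ho (w := -wt α + wt β)
    (sum_mem fun k _ => a.base.mul_mem (hθ α k) (c0 β k)) ?_ fun i y hy => ?_⟩
  · split_ifs with hαβ
    · rw [hαβ, neg_add_cancel]
      exact a.base.one_mem
    · exact zero_mem _
  · have := congrFun (congrFun (nonsing_inv_mul _ (h2 i y hy).isUnit) α) β
    rw [← Matrix.mul_assoc, Matrix.mul_apply, Matrix.one_apply] at this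
    simp only [map_sum, map_mul, ContinuousMap.sum_apply, ContinuousMap.mul_apply, eθ]
    refine Eq.trans (Finset.sum_congr rfl fun k _ => by rw [hC]; rfl) (this.trans ?_)
    split_ifs <;> simp

theorem m3_exists_theta (ho : a.Ori) (h : a.IsConn D Γ) {e : Fin a.N → a.A}
    (e0 : ∀ k, a.base.Re0 (e k)) (he : ∀ k p, a.base.ev (e k) p = (a.e (a.π p) k : ℝ)) :
    ∃ θ : Fin 4 → Fin a.N → a.A, (∀ α k, θ α k ∈ a.base.W (-wt α)) ∧
      (∀ α k, star (θ α k) = θ (bar α) k) ∧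
      ∀ α β, ∑ k, θ α k * D β (e k) = if α = β then 1 else 0 := by
  obtain ⟨θ, h1, h2⟩ := m3_exists_theta' ho h (fun k => (e0 k).1) he
  refine ⟨fun α k => (1 / 2 : ℂ) • (θ α k + star (θ (bar α) k)), fun α k => ?_, fun α k => ?_,
    fun α β => ?_⟩
  · exact Submodule.smul_mem _ _ (add_mem (h1 α k)
      (a.base.star_mem' (h1 (bar α) k) (by rw [wt_bar, neg_neg])))
  · simp only [star_smul, star_add, star_star, bar_bar, add_comm]
    simp
  · have h3 := congrArg star (h2 (bar α) (bar β))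
    have h4 : bar α = bar β ↔ α = β :=
      ⟨fun h => by rw [← bar_bar α, h, bar_bar], fun h => h ▸ rfl⟩
    simp only [star_sum, star_mul', m3_D_star ho h, bar_bar, (e0 _).2, h4] at h3
    simp only [smul_mul_assoc, add_mul, ← Finset.smul_sum, Finset.sum_add_distrib, h2, h3]
    split_ifs
    · rw [star_one, ← two_smul ℂ, smul_smul]
      norm_num
    · simp

theorem m3_fc (ho : a.Ori) (h : a.IsConn D Γ) {ι : Type} [Fintype ι] [DecidableEq ι]
    (Φ : (ι → ℝ) → ℝ) (U : Set (ι → ℝ)) (hU : IsOpen U) (hΦ : ContDiffOn ℝ ∞ Φ U) (u : ι → a.A)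
    (hu : ∀ i, a.base.Re0 (u i)) (hm : ∀ p, (fun i => (a.base.ev (u i) p).re) ∈ U) :
    ∃ v, a.base.Re0 v ∧ (∀ p, a.base.ev v p = (Φ fun i => (a.base.ev (u i) p).re : ℝ)) ∧
      ∀ α p, a.base.ev (D α v) p = ∑ i,
        (fderiv ℝ Φ (fun i => (a.base.ev (u i) p).re) (Pi.single i 1) : ℝ) *
          a.base.ev (D α (u i)) p := by
  have h0 : ∀ l z p, a.base.ev (u l) (a.act z p) = a.base.ev (u l) p := fun l z p => by
    rw [m3_act (hu l).1, m3_chi_zero, one_mul]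
  obtain ⟨v, hv, e⟩ := a.exists_W ho 0 (fun p => (Φ fun i => (a.base.ev (u i) p).re : ℝ))
    (fun z p => by simp only [h0, m3_chi_zero, one_mul]) fun i =>
      Complex.ofRealCLM.contDiff.comp_contDiffOn (hΦ.comp (contDiffOn_pi.2 fun l =>
        Complex.reCLM.contDiff.comp_contDiffOn (m3_sm (hu l).1 i)) fun y _ => hm _)
  refine ⟨v, ⟨hv, a.base.ext' fun p => by rw [a.base.ev_star, e, Complex.conj_ofReal]⟩, e,
    fun α p => ?_⟩
  obtain ⟨i, y, z, hy, rfl⟩ := m3_pt ho p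
  have e1 := m3_chain hU hΦ (a.φ i).open_target hy (fun l => m3_sm (hu l).1 i)
    (fun l x => by rw [← a.base.ev_star, (hu l).2]) (hm _)
  simp only [m3_act (h.mem _ _ hv α), fun l => m3_act (h.mem _ _ (hu l).1 α), h0,
    h.eq _ _ hv α i y hy, fun l => h.eq _ _ (hu l).1 α i y hy, e, e1, Prod.fst_zero, Prod.snd_zero,
    Int.cast_zero, zero_mul, add_zero, Finset.mul_sum]
  rw [Finset.sum_comm]
  exact Finset.sum_congr rfl fun l _ => Finset.sum_congr rfl fun j _ => by ring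

end

theorem Fr.IsConn.exists_calc {a : Fr X} (ho : a.Ori) {D : Fin 4 → a.A →ₗ[ℂ] a.A}
    {Γ : Fin a.n → Fin 2 → Fin 4 → E4 → ℂ} (h : a.IsConn D Γ) :
    ∃ G : Calc a.base, a.IsModel G := by
  choose e e0 he using m3_exists_e ho
  obtain ⟨θ, h1, h2, h3⟩ := m3_exists_theta ho h e0 he
  refine ⟨⟨D, m3_D_mul ho h, m3_D_star ho h, fun α hs => h.mem _ _ hs α, m3_comm ho h, a.N, e, e0,
    θ, h1, h2, h3, m3_fc ho h⟩, fun p q => ?_, fun i y hy s hs α => ?_⟩
  · congr 1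
    funext k
    simp only [Calc.E, Pi.sub_apply, he, Complex.ofReal_re]
  · simpa using h.eq 0 s hs α i y hy

end SX4
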