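import Pool.Agent.P.MP_0a0487_an.SX.Model2
import Pool.Agent.P.MP_0a0487_an.SX.Model3
import Pool.Agent.P.MP_0a0487_an.SX.MapA
import Pool.Agent.P.MP_0a0487_an.SX.GrDefs

/-! The atlas of the calculus of a framed manifold. -/

set_option autoImplicit false
set_option linter.unusedSectionVars false

noncomputable section

namespace SX4

open scoped ContDiff
open Filter Topology Matrix

variable {X : Type} [TopologicalSpace X] [Nonempty X]

theorem model4_chi_zero (z : Fin 2 → Circle) : Fr.chi 0 z = 1 := by simp [Fr.chi]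

theorem model4_π_pr (a : Fr X) {i : Fin a.n} {x : X} (hx : x ∈ (a.φ i).source) :
    a.π (a.pr i (a.φ i x)) = x := by
  rw [a.π_pr ((a.φ i).map_source hx), (a.φ i).left_inv hx]

theorem model4_surj (a : Fr X) : Function.Surjective a.π := fun x => by
  obtain ⟨i, hi⟩ := a.cover x
  exact ⟨_, model4_π_pr a hi⟩

theorem model4_act (a : Fr X) {w : Wt} {s : a.A} (hs : s ∈ a.base.W w) (z : Fin 2 → Circle)
    (p : a.P) : a.base.ev s (a.act z p) = Fr.chi w z * a.base.ev s p := hs.1 z p

theorem model4_inv0 {a : Fr X} (ho : a.Ori) {i : Fin a.n} {p : a.P} (hp : a.π p ∈ (a.φ i).source)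
    {s : a.A} (hs : s ∈ a.base.W 0) : a.base.ev s (a.pr i (a.φ i (a.π p))) = a.base.ev s p := by
  obtain ⟨ζ, -, hζ⟩ := a.exists_phase ho i
  conv_rhs => rw [hζ p hp]
  rw [model4_act a hs, model4_chi_zero, one_mul]

theorem model4_fib {a : Fr X} (ho : a.Ori) {p q : a.P} (e : a.π p = a.π q)
    {s : a.A} (hs : s ∈ a.base.W 0) : a.base.ev s p = a.base.ev s q := by
  obtain ⟨i, hi⟩ := a.cover (a.π p)
  rw [← model4_inv0 ho hi hs, e, model4_inv0 ho (e ▸ hi) hs]

theorem model4_sm (a : Fr X) (i : Fin a.n) (s : a.A) :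
    ContDiffOn ℝ ∞ (fun y => a.base.ev s (a.pr i y)) (a.φ i).target := by
  induction s using a.A_ind with
  | h w s hs => exact hs.2 i
  | add s t hs ht =>
    simp only [map_add, ContinuousMap.add_apply]
    exact hs.add ht

theorem model4_cV_sm (a : Fr X) (i : Fin a.n) (α j : Fin 4) :
    ContDiffOn ℝ ∞ (fun y => a.cV i y α j) (a.φ i).target := by
  have h : ∀ k, ContDiffOn ℝ ∞ (fun y => (a.V i y j k : ℂ)) (a.φ i).target := fun k =>
    Complex.ofRealCLM.contDiff.comp_contDiffOn (a.V_sm i j k)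
  fin_cases α
  · exact (h 0).sub (contDiffOn_const.mul (h 1))
  · exact (h 0).add (contDiffOn_const.mul (h 1))
  · exact (h 2).sub (contDiffOn_const.mul (h 3))
  · exact (h 2).add (contDiffOn_const.mul (h 3))

theorem model4_cx_cV (a : Fr X) (i : Fin a.n) (y : E4) (u : Fin 4 → ℝ) (j : Fin 4) :
    ∑ α, cx u α * a.cV i y α j = ((a.V i y *ᵥ u) j : ℝ) := by
  simp only [Fin.sum_univ_four, cx, Fr.cV, Matrix.mulVec, dotProduct, Matrix.of_apply,
    Matrix.cons_val_zero, Matrix.cons_val_one, Matrix.cons_val]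
  push_cast
  linear_combination (-(u 1 : ℂ) * (a.V i y j 1 : ℂ) - (u 3 : ℂ) * (a.V i y j 3 : ℂ)) *
    Complex.I_mul_I

theorem model4_cx_rot (z : Fin 2 → Circle) (v : Fin 4 → ℝ) (α : Fin 4) :
    cx (rot (fun m => z m) *ᵥ v) α = Fr.chi (0 + wt α) z * cx v α := by
  rw [cx_rot]
  fin_cases α <;> simp [Fr.chi, wt, ← Circle.coe_inv_eq_conj]

theorem model4_fderiv (F : E4 → ℂ) (y w : E4) : fderiv ℝ F y w = ∑ j, (w j : ℂ) * pd j F y := by
  conv_lhs => rw [pi_eq_sum_univ' w]
  simp only [map_sum, map_smul, pd, Complex.real_smul]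

theorem Fr.IsModel.exists_atl [CompactSpace X] [T2Space X] [PreconnectedSpace X] {a : Fr X} (ho : a.Ori)
    {G : Calc a.base} (h : a.IsModel G) : ∃ t : Atl G, a.Cech → t.Cech := by
  refine ⟨{
    n := a.n
    O := fun i => (a.φ i).target
    U := fun i => a.π ⁻¹' (a.φ i).source
    ψ := fun i p => a.φ i (a.π p)
    pr := a.pr
    V := a.cV
    O_open := fun i => (a.φ i).open_target
    O_convex := a.convex
    U_open := fun i => (a.φ i).open_source.preimage a.continuous_π
    cover := fun p => a.cover _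
    ψ_mem := fun i p hp => (a.φ i).map_source hp
    ψ_cont := fun i => (a.φ i).continuousOn.comp a.continuous_π.continuousOn fun _ hp => hp
    pr_mem := fun i y hy => by
      rw [Set.mem_preimage, a.π_pr hy]
      exact (a.φ i).map_target hy
    pr_cont := a.pr_cont
    ψ_pr := fun i y hy => by rw [a.π_pr hy, (a.φ i).right_inv hy]
    inv0 := fun i p hp s hs => model4_inv0 ho hp hs
    E_inj := fun i p hp q e => ?_
    closed := fun i K hK hK' => ?_
    trans := fun i j => ?_
    sm := model4_sm a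
    V_sm := model4_cV_sm a
    der := h.2
    glue := fun f h1 h2 => a.exists_W ho 0 f (fun z p => ?_) h2
    conn := fun f hf p q => ?_ }, fun hc u hu => ?_⟩
  · have h1 := h.1 q p
    rw [e, sub_self, norm_zero, eq_comm, norm_eq_zero, sub_eq_zero] at h1
    rw [Set.mem_preimage, a.e_inj h1]
    exact ⟨hp, rfl⟩
  · have e : a.π ⁻¹' (a.φ i).source ∩ (fun p => a.φ i (a.π p)) ⁻¹' K =
        a.π ⁻¹' ((a.φ i).symm '' K) := by
      ext p
      constructor
      · rintro ⟨h1, h2⟩
        exact ⟨_, h2, (a.φ i).left_inv h1⟩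
      · rintro ⟨y, hy, e⟩
        refine ⟨?_, ?_⟩
        · rw [Set.mem_preimage, ← e]
          exact (a.φ i).map_target (hK' hy)
        · rw [Set.mem_preimage, ← e, (a.φ i).right_inv (hK' hy)]
          exact hy
    rw [e]
    exact (hK.image_of_continuousOn ((a.φ i).continuousOn_symm.mono hK')).isClosed.preimage
      a.continuous_π
  · refine ((a.trans i j).mono ?_).congr fun y hy => by rw [a.π_pr hy.1]
    rintro y ⟨h1, h2⟩
    rw [Set.mem_preimage, Set.mem_preimage, a.π_pr h1] at h2
    exact ⟨h1, h2⟩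
  · obtain ⟨i, hi⟩ := a.cover (a.π p)
    rw [model4_chi_zero, one_mul, ← h1 i p hi, ← h1 i (a.act z p) hi, a.π_act]
  · choose σ hσ using model4_surj a
    have h1 : IsLocallyConstant fun x => f (σ x) := by
      refine (IsLocallyConstant.iff_eventually_eq _).2 fun x => ?_
      obtain ⟨i, hi⟩ := a.cover x
      filter_upwards [(a.φ i).open_source.mem_nhds hi] with y hy
      exact hf i _ (by rwa [Set.mem_preimage, hσ]) _ (by rwa [Set.mem_preimage, hσ])
    have h2 : ∀ p, f p = f (σ (a.π p)) := fun p => by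
      obtain ⟨i, hi⟩ := a.cover (a.π p)
      exact hf i _ hi _ (by rwa [Set.mem_preimage, hσ])
    rw [h2 p, h2 q]
    exact h1.apply_eq_of_preconnectedSpace _ _
  · obtain ⟨c, hc⟩ := hc (fun i x => u i (a.φ i x)) fun i j x hx => by
      have h1 := hu i j (a.pr i (a.φ i x))
        ⟨by rw [Set.mem_preimage, model4_π_pr a hx.1]; exact hx.1,
          by rw [Set.mem_preimage, model4_π_pr a hx.1]; exact hx.2⟩
      have h2 : ContinuousAt (fun x => a.pr i (a.φ i x)) x :=
        ((a.pr_cont i).continuousAt ((a.φ i).open_target.mem_nhds ((a.φ i).map_source hx.1))).comp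
          ((a.φ i).continuousAt hx.1)
      filter_upwards [h2.eventually h1, (a.φ i).open_source.mem_nhds hx.1] with y hy hy'
      simpa only [model4_π_pr a hx.1, model4_π_pr a hy'] using hy
    exact ⟨c, fun i j p hp => hc i j _ hp⟩

theorem Fr.IsModel.exists_link [CompactSpace X] [T2Space X] {a : Fr X} (ho : a.Ori)
    {G : Calc a.base} (h : a.IsModel G) :
    Nonempty (Link a G) := by
  choose ζ hζc hζ using a.exists_phase ho
  choose σ hσ using model4_surj a
  refine ⟨{
    π := a.π
    π_cont := a.continuous_π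
    π_surj := model4_surj a
    E_dist := h.1
    fn := fun s hs => ⟨fun x => a.base.ev s (σ x), fun i => (model4_sm a i s).congr fun y hy =>
      model4_fib ho (by rw [hσ, a.π_pr hy]) hs, fun p => model4_fib ho (hσ _).symm hs⟩
    fn' := fun f hf => a.exists_W ho 0 (fun p => f (a.π p))
      (fun z p => by rw [model4_chi_zero, one_mul, a.π_act])
      fun i => (hf i).congr fun y hy => by rw [a.π_pr hy]
    R := fun i p => rot fun m => ζ i p m
    R_rot := fun i p _ => ⟨_, fun m => Circle.norm_coe _, rfl⟩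
    R_cont := fun i => continuous_rot.comp_continuousOn (continuousOn_pi.2 fun m =>
      continuous_subtype_val.comp_continuousOn (continuousOn_pi.1 (hζc i) m))
    dv_eq := fun i p hp s hs f hf v => ?_ }⟩
  have hy := (a.φ i).map_source hp
  have e : (fun y => f ((a.φ i).symm y)) =ᶠ[𝓝 (a.φ i (a.π p))]
      fun y => a.base.ev s (a.pr i y) := by
    filter_upwards [(a.φ i).open_target.mem_nhds hy] with y hy
    rw [hf, a.π_pr hy]
  have h1 : ∀ α, a.base.ev (G.D α s) p = Fr.chi (0 + wt α) (ζ i p) *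
      ∑ j, a.cV i (a.φ i (a.π p)) α j * pd j (fun y => a.base.ev s (a.pr i y)) (a.φ i (a.π p)) :=
    fun α => by
      rw [← h.2 i _ hy s hs, ← model4_act a (G.D_mem α hs), ← hζ i p hp]
  rw [e.fderiv_eq, model4_fderiv, Calc.dv]
  simp only [h1, ← model4_cx_cV, model4_cx_rot, Finset.sum_mul, Finset.mul_sum]
  rw [Finset.sum_comm]
  exact Finset.sum_congr rfl fun j _ => Finset.sum_congr rfl fun α _ => by ring

theorem Fr.exists_model [CompactSpace X] [T2Space X] [PreconnectedSpace X] (a : Fr X)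
    (ho : a.Ori) : ∃ (P A : Type) (_ : TopologicalSpace P) (_ : CompactSpace P) (_ : CommRing A)
      (_ : StarRing A) (_ : Algebra ℂ A) (_ : StarModule ℂ A) (B : Base P A) (G : Calc B)
      (t : Atl G), Nonempty (Link a G) ∧ B.Gr := by
  obtain ⟨D, Γ, hc⟩ := a.exists_conn ho
  obtain ⟨G, hG⟩ := hc.exists_calc ho
  obtain ⟨t, -⟩ := hG.exists_atl ho
  exact ⟨a.P, a.A, inferInstance, a.compactSpace_P ho, inferInstance, inferInstance, inferInstance,
    inferInstance, a.base, G, t, hG.exists_link ho, fun d => a.exists_lift (F := a.A) d,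
    fun _ h add s => a.A_ind h add s⟩

end SX4
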