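import Pool.Agent.P.MP_0a0487_an.SX.ODyn2
import Pool.Agent.P.MP_0a0487_an.SX.Model4
import Pool.Agent.P.MP_0a0487_an.SX.MollM
import Pool.Agent.P.MP_0a0487_an.SX.NoDyn

/-! No oriented hyperbolic dynamics when the first Cech cohomology vanishes. -/

set_option autoImplicit false
set_option linter.unusedSectionVars false

noncomputable section

namespace SX4

open scoped ContDiff
open Filter Topology Matrix

/-- Every oriented framed manifold has a model. -/
theorem Fr.exists_geo {X : Type} [TopologicalSpace X] [CompactSpace X] [T2Space X]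
    [ConnectedSpace X] (a : Fr X) (ho : a.Ori) :
    ∃ (P A : Type) (_ : TopologicalSpace P) (_ : CompactSpace P) (_ : Nonempty P) (_ : CommRing A)
      (_ : StarRing A) (_ : Algebra ℂ A) (_ : StarModule ℂ A) (B : Base P A) (G : Geo B)
      (t : Atl G.toCalc), Nonempty (Link a G.toCalc) ∧ IsInt G.toPre t ∧ B.Gr := by
  obtain ⟨P, A, _, _, _, _, _, _, B, G, t, ⟨l⟩, hB⟩ := a.exists_model ho
  obtain ⟨I, i1, i2, i3, hI⟩ := t.exists_int
  haveI : Nonempty P := by
    obtain ⟨p, -⟩ := l.π_surj (Classical.arbitrary X)
    exact ⟨p⟩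
  exact ⟨P, A, inferInstance, inferInstance, inferInstance, inferInstance, inferInstance,
    inferInstance, inferInstance, B,
    { toPre := ⟨G, I, i1, i2, i3⟩
      sob := hI.sob
      sup := hI.sup
      rel := hI.rel
      cpl := hI.cpl
      moll := hI.moll
      const := fun s hs h => t.const hs h
      gen := t.gen (0, 1) }, t, ⟨l⟩, hI, hB⟩

end SX4
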