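import Pool.Agent.P.MP_0a0487_an.SX.FrB
import Pool.Agent.P.MP_0a0487_an.SX.Int

/-! Smooth maps of a framed manifold act on its calculus. -/

set_option autoImplicit false
set_option linter.unusedSectionVars false

noncomputable section

namespace SX4

open scoped ComplexOrder ContDiff
open Filter Topology

variable {P A : Type} [TopologicalSpace P] [CompactSpace P] [CommRing A] [StarRing A] [Algebra ℂ A]
  [StarModule ℂ A] {B : Base P A}

open Matrix

variable {X : Type} [TopologicalSpace X] {a : Fr X}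

theorem odyn1_inj {j : Fin a.n} {y : E4} (hy : y ∈ (a.φ j).target) {M M' : M4}
    (h : ∀ f : X → ℂ, a.Sm f → ∀ v, fderiv ℝ (fun y => f ((a.φ j).symm y)) y
      (a.V j y *ᵥ (M *ᵥ v)) = fderiv ℝ (fun y => f ((a.φ j).symm y)) y (a.V j y *ᵥ (M' *ᵥ v))) :
    M = M' := by
  have hd : DifferentiableAt ℝ (fun y => a.e ((a.φ j).symm y)) y :=
    ((a.e_sm j).contDiffAt ((a.φ j).open_target.mem_nhds hy)).differentiableAt (by simp)
  have key : ∀ v, M *ᵥ v = M' *ᵥ v := by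
    intro v
    rw [← sub_eq_zero]
    refine a.indep j y hy _ ?_
    rw [mulVec_sub, map_sub, sub_eq_zero]
    funext k
    let L : (Fin a.N → ℝ) →L[ℝ] ℂ := Complex.ofRealCLM.comp (ContinuousLinearMap.proj k)
    have h1 := h (fun x => L (a.e x)) (fun i => L.contDiff.comp_contDiffOn (a.e_sm i)) v
    have h2 : fderiv ℝ (fun y => L (a.e ((a.φ j).symm y))) y =
        L.comp (fderiv ℝ (fun y => a.e ((a.φ j).symm y)) y) :=
      (L.hasFDerivAt.comp y hd.hasFDerivAt).fderiv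
    rw [h2] at h1
    exact Complex.ofReal_injective h1
  ext i k
  have := congrFun (key (Pi.single k 1)) i
  simpa using this

theorem odyn1_R_eq {G : Calc B} (l : Link a G) {i j : Fin a.n} {p : P}
    (hi : l.π p ∈ (a.φ i).source) (hj : l.π p ∈ (a.φ j).source) :
    l.R j p = a.Jm id i j (l.π p) * l.R i p := by
  refine odyn1_inj ((a.φ j).map_source hj) fun f hf v => ?_
  obtain ⟨s, s0, hs⟩ := l.fn' f hf
  rw [← l.dv_eq j p hj s s0 f hs v, l.dv_eq i p hi s s0 f hs v, ← mulVec_mulVec]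
  exact a.fderiv_comp_Jm hf a.smMap_id hi hj _

theorem odyn1_E_eq_iff {G : Calc B} (l : Link a G) (p q : P) :
    G.E p = G.E q ↔ l.π p = l.π q := by
  rw [← sub_eq_zero, ← norm_eq_zero, l.E_dist, norm_eq_zero, sub_eq_zero, a.e_inj.eq_iff]

theorem odyn1_Φ {G : Calc B} (l : Link a G) {g : X → X} (hg : a.SmMap g) {pt : P → P}
    (h : ∀ p, l.π (pt p) = g (l.π p)) : ∃ Φ : A → A, ∀ s ∈ B.W 0, Φ s ∈ B.W 0 ∧
      ∀ p, B.ev (Φ s) p = B.ev s (pt p) := by
  have : ∀ s, ∃ t, s ∈ B.W 0 → t ∈ B.W 0 ∧ ∀ p, B.ev t p = B.ev s (pt p) := by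
    intro s
    by_cases s0 : s ∈ B.W 0
    · obtain ⟨f, hf, hs⟩ := l.fn s s0
      obtain ⟨t, t0, ht⟩ := l.fn' _ (hf.comp hg)
      exact ⟨t, fun _ => ⟨t0, fun p => by rw [ht, hs, h]⟩⟩
    · exact ⟨s, fun h => absurd h s0⟩
  choose Φ hΦ using this
  exact ⟨Φ, hΦ⟩

/-- The map of the calculus defined by a diffeomorphism. -/
theorem Link.exists_map {G : Pre B} {t : Atl G.toCalc} (hI : IsInt G t) (l : Link a G.toCalc)
    {g g' : X → X} (hg : a.SmMap g) (hg' : a.SmMap g') (h1 : Function.LeftInverse g' g)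
    (h2 : Function.RightInverse g' g) (hd : a.All g fun i j x => 0 < (a.Jm g i j x).det) :
    ∃ f : Map G, (∀ p, l.π (f.pt p) = g (l.π p)) ∧
      ∀ i j p, l.π p ∈ (a.φ i).source → g (l.π p) ∈ (a.φ j).source →
        l.R j (f.pt p) * f.J p = a.Jm g i j (l.π p) * l.R i p := by
  choose pt hpt using fun p => l.π_surj (g (l.π p))
  choose pt' hpt' using fun p => l.π_surj (g' (l.π p))
  choose ι hι using fun p => a.cover (l.π p)
  obtain ⟨Φ, hΦ⟩ := odyn1_Φ l hg hpt
  obtain ⟨Φ', hΦ'⟩ := odyn1_Φ l hg' hpt'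
  have hι' : ∀ p, g (l.π p) ∈ (a.φ (ι (pt p))).source := fun p => hpt p ▸ hι (pt p)
  let J : P → M4 := fun p =>
    (l.R (ι (pt p)) (pt p))ᵀ * (a.Jm g (ι p) (ι (pt p)) (l.π p) * l.R (ι p) p)
  have hJ : ∀ p, l.R (ι (pt p)) (pt p) * J p =
      a.Jm g (ι p) (ι (pt p)) (l.π p) * l.R (ι p) p := fun p => by
    rw [← Matrix.mul_assoc, (l.R_rot _ _ (hι _)).isOrt.mul_transpose.1, Matrix.one_mul]
  let f : PMap G.toCalc :=
    { pt := pt, pt' := pt', Φ := Φ, Φ' := Φ', J := J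
      mem := fun s h => (hΦ s h).1
      mem' := fun s h => (hΦ' s h).1
      ev_eq := fun s h => (hΦ s h).2
      ev_eq' := fun s h => (hΦ' s h).2
      inv := fun p => (odyn1_E_eq_iff l _ _).2 (by rw [hpt', hpt, h1])
      inv' := fun p => (odyn1_E_eq_iff l _ _).2 (by rw [hpt, hpt', h2])
      chain := fun s s0 p v => by
        obtain ⟨f, hf, hs⟩ := l.fn s s0
        rw [l.dv_eq (ι p) p (hι p) (Φ s) (hΦ s s0).1 (fun x => f (g x))
          (fun q => by rw [(hΦ s s0).2, hs, hpt]) v, l.dv_eq _ _ (hι (pt p)) s s0 f hs,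
          a.fderiv_comp_Jm hf hg (hι p) (hι' p), mulVec_mulVec v (l.R _ _) (J p), hJ, hpt,
          mulVec_mulVec v]
      det_pos := fun p => by
        simp only [J, Matrix.det_mul, Matrix.det_transpose, (l.R_rot _ _ (hι _)).det, one_mul,
          mul_one]
        exact hd _ _ _ (hι p) (hι' p) }
  obtain ⟨f', e1, -, e3⟩ := hI.exists_map f
  refine ⟨f', fun p => by rw [e1]; exact hpt p, fun i j p hi hj => ?_⟩
  rw [e1, e3]
  show l.R j (pt p) * J p = _
  have c1 := a.Jm_comp a.smMap_id hg (hι p) (hι' p) hj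
  have c2 := a.Jm_comp hg a.smMap_id (hι p) hi hj
  rw [Function.id_comp] at c1
  rw [Function.comp_id, id] at c2
  rw [odyn1_R_eq l (hι (pt p)) (hpt p ▸ hj), Matrix.mul_assoc, hJ, ← Matrix.mul_assoc, hpt, ← c1,
    odyn1_R_eq l (hι p) hi, ← Matrix.mul_assoc, ← c2]

theorem Link.R_eq {G : Calc B} (l : Link a G) {i j : Fin a.n} {p : P}
    (hi : l.π p ∈ (a.φ i).source) (hj : l.π p ∈ (a.φ j).source) :
    l.R j p = a.Jm id i j (l.π p) * l.R i p := odyn1_R_eq l hi hj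

theorem Link.E_eq_iff {G : Calc B} (l : Link a G) (p q : P) : G.E p = G.E q ↔ l.π p = l.π q :=
  odyn1_E_eq_iff l p q

/-- Continuous functions of the base point are uniformly continuous. -/
theorem Calc.uc_of_continuous (G : Calc B) {f : P → ℝ} (hf : Continuous f)
    (h : ∀ p q, G.E p = G.E q → f p = f q) : G.UC f := by
  intro ε hε
  have hE : Continuous G.E :=
    continuous_pi fun k => Complex.continuous_re.comp (B.ev (G.e k)).continuous
  have hK : IsCompact {x : P × P | ε ≤ |f x.2 - f x.1|} :=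
    (isClosed_le continuous_const
      ((hf.comp continuous_snd).sub (hf.comp continuous_fst)).abs).isCompact
  have hc : Continuous fun x : P × P => ‖G.E x.2 - G.E x.1‖ :=
    ((hE.comp continuous_snd).sub (hE.comp continuous_fst)).norm
  obtain ⟨δ, hδ, h1⟩ := hK.exists_forall_le' hc.continuousOn (a := 0) fun x hx => by
    refine norm_pos_iff.2 (sub_ne_zero.2 fun e => ?_)
    have h2 : ε ≤ |f x.2 - f x.1| := hx
    rw [h _ _ e, sub_self, abs_zero] at h2
    exact absurd hε h2.not_gt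
  refine ⟨δ / 2, half_pos hδ, fun p q hpq => ?_⟩
  by_contra h2
  have h3 : δ ≤ ‖G.E q - G.E p‖ := h1 (p, q) (not_le.1 h2).le
  linarith

/-- The splitting in the frames of `P`. -/
theorem Link.exists_Q {G : Calc B} (l : Link a G) {k : ℕ} (d : FDyn a k) : ∃ Q : P → M4,
    Continuous Q ∧ (∀ p, Q p * Q p = Q p) ∧ (∀ p v, ‖(Q p - P0) *ᵥ v‖ ≤ 4 * d.δ * ‖v‖) ∧
    ∀ i p, l.π p ∈ (a.φ i).source → l.R i p * Q p = d.Q i (l.π p) * l.R i p := by
  choose ι hι using fun p => a.cover (l.π p)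
  let Q : P → M4 := fun p => (l.R (ι p) p)ᵀ * (d.Q (ι p) (l.π p) * l.R (ι p) p)
  have h0 : ∀ p, l.R (ι p) p * Q p = d.Q (ι p) (l.π p) * l.R (ι p) p := fun p => by
    rw [← Matrix.mul_assoc, (l.R_rot _ _ (hι _)).isOrt.mul_transpose.1, Matrix.one_mul]
  have h1 : ∀ i p, l.π p ∈ (a.φ i).source → l.R i p * Q p = d.Q i (l.π p) * l.R i p := by
    intro i p hi
    have c : a.Jm id (ι p) i (l.π p) * d.Q (ι p) (l.π p) =
        d.Q i (l.π p) * a.Jm id (ι p) i (l.π p) := d.Q_id _ _ _ (hι p) hi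
    rw [l.R_eq (hι p) hi, Matrix.mul_assoc, h0, ← Matrix.mul_assoc, c, Matrix.mul_assoc]
  have h2 : ∀ i p, l.π p ∈ (a.φ i).source → Q p = (l.R i p)ᵀ * (d.Q i (l.π p) * l.R i p) := by
    intro i p hi
    rw [← h1 i p hi, ← Matrix.mul_assoc, (l.R_rot _ _ hi).isOrt.mul_transpose.2, Matrix.one_mul]
  refine ⟨Q, continuous_iff_continuousAt.2 fun p => ?_, fun p => ?_, fun p v => ?_, h1⟩
  · have hU : l.π ⁻¹' (a.φ (ι p)).source ∈ 𝓝 p :=
      ((a.φ (ι p)).open_source.preimage l.π_cont).mem_nhds (hι p)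
    have c1 : ContinuousAt (l.R (ι p)) p := (l.R_cont _).continuousAt hU
    have c2 : ContinuousAt (fun q => d.Q (ι p) (l.π q)) p :=
      ((d.Q_cont _).continuousAt ((a.φ (ι p)).open_source.mem_nhds (hι p))).comp
        l.π_cont.continuousAt
    have c3 : ContinuousAt (fun q => (l.R (ι p) q)ᵀ) p :=
      (continuous_id.matrix_transpose.continuousAt).comp c1
    refine (c3.mul (c2.mul c1)).congr ?_
    filter_upwards [hU] with q hq
    exact (h2 _ q hq).symm
  · show (l.R (ι p) p)ᵀ * (d.Q (ι p) (l.π p) * l.R (ι p) p) * Q p = _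
    rw [Matrix.mul_assoc, Matrix.mul_assoc, h0, ← Matrix.mul_assoc (d.Q _ _), d.Q_idem _ _ (hι p)]
  · have o := (l.R_rot _ _ (hι p)).isOrt
    have hδ : 0 ≤ d.δ := by
      have := (norm_nonneg _).trans (d.near _ _ (hι p) 1)
      rwa [norm_one, mul_one] at this
    have e : Q p - P0 = (l.R (ι p) p)ᵀ * ((d.Q (ι p) (l.π p) - P0) * l.R (ι p) p) := by
      rw [Matrix.sub_mul, Matrix.mul_sub, ← o.comm_P0, ← Matrix.mul_assoc _ _ P0,
        o.mul_transpose.2, Matrix.one_mul]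
    rw [e, ← mulVec_mulVec, ← mulVec_mulVec]
    have n1 := (o.transpose.norm_le ((d.Q (ι p) (l.π p) - P0) *ᵥ (l.R (ι p) p *ᵥ v))).1
    have n2 := d.near _ _ (hι p) (l.R (ι p) p *ᵥ v)
    have n3 := mul_le_mul_of_nonneg_left (o.norm_le v).1 hδ
    linarith

/-- Points of the same fibre: the ambient vectors differ by a rotation. -/
theorem Link.dE_rot {G : Calc B} (l : Link a G) {i : Fin a.n} {p q : P} (h : l.π p = l.π q)
    (hi : l.π p ∈ (a.φ i).source) (v : Fin 4 → ℝ) :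
    G.dE q (((l.R i q)ᵀ * l.R i p) *ᵥ v) = G.dE p v := by
  funext k
  obtain ⟨f, -, hs⟩ := l.fn _ (G.e_re k).1
  have hq : l.π q ∈ (a.φ i).source := h ▸ hi
  simp only [Calc.dE]
  rw [l.dv_eq i q hq _ (G.e_re k).1 f hs, l.dv_eq i p hi _ (G.e_re k).1 f hs,
    mulVec_mulVec v (l.R i q), ← Matrix.mul_assoc, (l.R_rot _ _ hq).isOrt.mul_transpose.1,
    Matrix.one_mul, h]

end SX4
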