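import Pool.Agent.P.MP_0a0487_an.SX.Sec

/-! The Dirac operator, its adjoint, and the monopole equations. -/

set_option autoImplicit false
set_option linter.unusedSectionVars false

noncomputable section

namespace SX4

open scoped ComplexOrder ContDiff
open Filter Topology

/-- Weights of the positive spinors. -/
def wp (w : Wt) : Fin 2 → Wt := ![w, w - (1, 1)]

/-- Weights of the negative spinors. -/
def wm (w : Wt) : Fin 2 → Wt := ![w - (1, 0), w - (0, 1)]

variable {P A : Type} [TopologicalSpace P] [CompactSpace P] [CommRing A] [StarRing A] [Algebra ℂ A]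
  [StarModule ℂ A] {B : Base P A}

theorem mem2 {w : Fin 2 → Wt} {a b : A} (ha : a ∈ B.W (w 0)) (hb : b ∈ B.W (w 1)) :
    ∀ i, ![a, b] i ∈ B.W (w i) := by
  intro i
  fin_cases i
  · exact ha
  · exact hb

namespace Pre

variable (G : Pre B)

/-- A real linear map between spaces of sections from its components. -/
def mkL {ι ι' : Type} [Fintype ι] [Fintype ι'] {w : ι → Wt} {w' : ι' → Wt}
    (f : G.Sec w → ι' → A) (hm : ∀ s i, f s i ∈ B.W (w' i))
    (ha : ∀ s t i, f (s + t) i = f s i + f t i)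
    (hs : ∀ (r : ℝ) s i, f (r • s) i = (r : ℂ) • f s i) : G.Sec w →ₗ[ℝ] G.Sec w' where
  toFun s := G.mk' (f s) (hm s)
  map_add' s t := Sec.ext fun i => ha s t i
  map_smul' r s := Sec.ext fun i => hs r s i

/-- `D α + τ α`, minus the formal adjoint of `D (bar α)`. -/
def Dt (α : Fin 4) (s : A) : A := G.D α s + G.τ α * s

theorem Dt_mem {u w : Wt} {s : A} (α : Fin 4) (hs : s ∈ B.W u) (h : u + wt α = w) :
    G.Dt α s ∈ B.W w :=
  add_mem (G.D_mem' α hs h) (B.mul_mem' (G.τ_spec α).1 hs (by rw [add_comm, h]))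

theorem Dt_add (α : Fin 4) (s t : A) : G.Dt α (s + t) = G.Dt α s + G.Dt α t := by
  simp only [Dt, map_add]
  ring

theorem Dt_smul (α : Fin 4) (z : ℂ) (s : A) : G.Dt α (z • s) = z • G.Dt α s := by
  simp only [Dt, map_smul, smul_add, mul_smul_comm]

/-- The Dirac operator. -/
def dirac (w : Wt) : G.Sec (wp w) →ₗ[ℝ] G.Sec (wm w) :=
  G.mkL (fun s => ![G.D 1 (s.c 0) - G.Dt 2 (s.c 1), G.D 3 (s.c 0) + G.Dt 0 (s.c 1)])
    (fun s => mem2
      (sub_mem (G.D_mem' 1 (s.mem 0) (by ext <;> simp [wp, wm, wt, sub_eq_add_neg]))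
        (G.Dt_mem 2 (s.mem 1) (by ext <;> simp [wp, wm, wt])))
      (add_mem (G.D_mem' 3 (s.mem 0) (by ext <;> simp [wp, wm, wt, sub_eq_add_neg]))
        (G.Dt_mem 0 (s.mem 1) (by ext <;> simp [wp, wm, wt]))))
    (fun s t i => by fin_cases i <;> simp [Dt_add] <;> ring)
    (fun r s i => by fin_cases i <;> simp [Dt_smul, smul_sub, -Complex.coe_smul])

/-- The formal adjoint of the Dirac operator. -/
def diracAdj (w : Wt) : G.Sec (wm w) →ₗ[ℝ] G.Sec (wp w) :=
  G.mkL (fun s => ![-G.Dt 0 (s.c 0) - G.Dt 2 (s.c 1), G.D 3 (s.c 0) - G.D 1 (s.c 1)])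
    (fun s => mem2
      (sub_mem (neg_mem (G.Dt_mem 0 (s.mem 0) (by ext <;> simp [wp, wm, wt])))
        (G.Dt_mem 2 (s.mem 1) (by ext <;> simp [wp, wm, wt])))
      (sub_mem (G.D_mem' 3 (s.mem 0) (by ext <;> simp [wp, wm, wt, sub_eq_add_neg]))
        (G.D_mem' 1 (s.mem 1) (by ext <;> simp [wp, wm, wt, sub_eq_add_neg]))))
    (fun s t i => by fin_cases i <;> simp [Dt_add] <;> ring)
    (fun r s i => by fin_cases i <;> simp [Dt_smul, smul_sub, -Complex.coe_smul])

/-- The real index of the Dirac operator. -/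
def ind (w : Wt) : ℤ := (G.dirac w).index

variable {G} in
/-- The real 1-form with the given `(0,1)`-part. -/
def Sec.form (χ : G.Sec (wm 0)) : Fin 4 → A := ![star (χ.c 0), χ.c 0, star (χ.c 1), χ.c 1]

variable {G} in
theorem Sec.form_re (χ : G.Sec (wm 0)) : B.Re1 χ.form := by
  intro α
  fin_cases α
  · exact ⟨B.star_mem' (χ.mem 0) (by ext <;> simp [wm, wt]), by simp [Sec.form, bar]⟩
  · exact ⟨by simpa [Sec.form, wm, wt] using χ.mem 0, by simp [Sec.form, bar]⟩
  · exact ⟨B.star_mem' (χ.mem 1) (by ext <;> simp [wm, wt]), by simp [Sec.form, bar]⟩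
  · exact ⟨by simpa [Sec.form, wm, wt] using χ.mem 1, by simp [Sec.form, bar]⟩

/-- Clifford multiplication by a real 1-form, as a function of the spinor. -/
def rho (w : Wt) (χ : G.Sec (wm 0)) : G.Sec (wp w) →ₗ[ℝ] G.Sec (wm w) :=
  G.mkL (fun s => ![Complex.I • (χ.form 1 * s.c 0 - χ.form 2 * s.c 1),
      Complex.I • (χ.form 3 * s.c 0 + χ.form 0 * s.c 1)])
    (fun s => mem2
      (Submodule.smul_mem _ _ (sub_mem
        (B.mul_mem' (χ.form_re 1).1 (s.mem 0) (by ext <;> simp [wp, wm, wt] <;> ring))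
        (B.mul_mem' (χ.form_re 2).1 (s.mem 1) (by ext <;> simp [wp, wm, wt]))))
      (Submodule.smul_mem _ _ (add_mem
        (B.mul_mem' (χ.form_re 3).1 (s.mem 0) (by ext <;> simp [wp, wm, wt] <;> ring))
        (B.mul_mem' (χ.form_re 0).1 (s.mem 1) (by ext <;> simp [wp, wm, wt])))))
    (fun s t i => by fin_cases i <;> simp [Algebra.smul_def] <;> ring)
    (fun r s i => by
      fin_cases i <;> simp [smul_sub, smul_comm Complex.I, -Complex.coe_smul])

/-- The torsion term in `d⁺ + d*`. -/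
def Zq : G.Sec (wm 0) →ₗ[ℝ] G.Sec (wp 0) :=
  G.mkL (fun χ => ![0, ∑ γ, G.T 1 3 γ * χ.form γ])
    (fun χ => mem2 (zero_mem _) (Submodule.sum_mem _ fun γ _ =>
      B.mul_mem' (G.T_mem 1 3 γ) (χ.form_re γ).1 (by ext <;> simp [wp, wt])))
    (fun s t i => by fin_cases i <;> simp [Sec.form, Fin.sum_univ_four] <;> ring)
    (fun r s i => by
      fin_cases i <;> simp [Sec.form, Fin.sum_univ_four, -Complex.coe_smul])

/-- The operator `d⁺ + d*` on real 1-forms. -/
def Q : G.Sec (wm 0) →ₗ[ℝ] G.Sec (wp 0) := G.diracAdj 0 + G.Zq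

/-- The quadratic map, polarised. -/
def sig (ψ : G.Sec (wp 0)) : G.Sec (wp 0) →ₗ[ℝ] G.Sec (wp 0) :=
  G.mkL (fun s => ![(Complex.I / 4) • (star (ψ.c 0) * s.c 0 + star (s.c 0) * ψ.c 0 -
        star (ψ.c 1) * s.c 1 - star (s.c 1) * ψ.c 1),
      (Complex.I / 2) • (star (ψ.c 0) * s.c 1 + star (s.c 0) * ψ.c 1)])
    (fun s => mem2
      (Submodule.smul_mem _ _ (sub_mem (sub_mem (add_mem
        (B.mul_mem' (B.star_mem (ψ.mem 0)) (s.mem 0) (by ext <;> simp [wp]))
        (B.mul_mem' (B.star_mem (s.mem 0)) (ψ.mem 0) (by ext <;> simp [wp])))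
        (B.mul_mem' (B.star_mem (ψ.mem 1)) (s.mem 1) (by ext <;> simp [wp])))
        (B.mul_mem' (B.star_mem (s.mem 1)) (ψ.mem 1) (by ext <;> simp [wp]))))
      (Submodule.smul_mem _ _ (add_mem
        (B.mul_mem' (B.star_mem (ψ.mem 0)) (s.mem 1) (by ext <;> simp [wp]))
        (B.mul_mem' (B.star_mem (s.mem 0)) (ψ.mem 1) (by ext <;> simp [wp])))))
    (fun s t i => by fin_cases i <;> simp [Algebra.smul_def] <;> ring)
    (fun r s i => by
      fin_cases i <;> simp [smul_sub, smul_comm (Complex.I / _), -Complex.coe_smul])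

/-- The constant spinor `(1, 0)`. -/
def e1 : G.Sec (wp 0) := G.mk' ![1, 0] (mem2 B.one_mem (zero_mem _))

/-- The monopole equations with perturbation `ξ`. -/
def SW (ξ ψ : G.Sec (wp 0)) (χ : G.Sec (wm 0)) : Prop :=
  G.dirac 0 ψ + G.rho 0 χ ψ = 0 ∧ G.Q χ + G.sig ψ ψ = ξ

end Pre

end SX4
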