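import Pool.Agent.P.MP_0a0487_an.SX.NoPair
import Pool.Agent.P.MP_0a0487_an.SX.MapA

/-! Two almost decomposable closed forms define a new splitting. -/

set_option autoImplicit false
set_option linter.unusedSectionVars false

noncomputable section

namespace SX4

open scoped ComplexOrder ContDiff
open Filter Topology

variable {P A : Type} [TopologicalSpace P] [CompactSpace P] [CommRing A] [StarRing A] [Algebra ℂ A]
  [StarModule ℂ A] {B : Base P A}

section Alg

variable {R : Type} [CommRing R]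

/-- The Pfaffian adjoint of a 2-form. -/
def pencilHat (b : Fin 4 → Fin 4 → R) : Fin 4 → Fin 4 → R :=
  ![![0, b 2 3, -b 1 3, b 1 2], ![-b 2 3, 0, b 0 3, -b 0 2], ![b 1 3, -b 0 3, 0, b 0 1],
    ![-b 1 2, b 0 2, -b 0 1, 0]]

/-- The projection defined by two decomposable forms. -/
def pencilPr (m : R) (a b : Fin 4 → Fin 4 → R) : Fin 4 → Fin 4 → R :=
  fun α β => m * ∑ γ, a α γ * pencilHat b γ β

/-- The new frame. -/
def pencilG (m : R) (a b : Fin 4 → Fin 4 → R) : Matrix (Fin 4) (Fin 4) R :=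
  Matrix.of ![pencilPr m a b 0, pencilPr m a b 1, pencilPr m b a 2, pencilPr m b a 3]

theorem pencil_sum {a b : Fin 4 → Fin 4 → R} (ha : ∀ α β, a β α = -a α β) (ha0 : ∀ α, a α α = 0)
    (hb : ∀ α β, b β α = -b α β) (hb0 : ∀ α, b α α = 0) {m : R} (hm : m * wg a b = -1)
    (α β : Fin 4) : pencilPr m a b α β + pencilPr m b a α β = if α = β then 1 else 0 := by
  have a1 := ha 0 1
  have a2 := ha 0 2
  have a3 := ha 0 3
  have a4 := ha 1 2
  have a5 := ha 1 3
  have a6 := ha 2 3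
  have b1 := hb 0 1
  have b2 := hb 0 2
  have b3 := hb 0 3
  have b4 := hb 1 2
  have b5 := hb 1 3
  have b6 := hb 2 3
  unfold wg at hm
  fin_cases α <;> fin_cases β <;>
    simp [pencilPr, pencilHat, Fin.sum_univ_four, a1, a2, a3, a4, a5, a6, b1, b2, b3, b4, b5, b6,
      ha0, hb0] <;>
    first
      | ring1
      | linear_combination -hm

theorem pencil_kill {b : Fin 4 → Fin 4 → R} (hb : ∀ α β, b β α = -b α β) (hb0 : ∀ α, b α α = 0)
    (hp : b 0 1 * b 2 3 - b 0 2 * b 1 3 + b 0 3 * b 1 2 = 0) (m : R) (a : Fin 4 → Fin 4 → R)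
    (α δ : Fin 4) : ∑ γ, pencilPr m a b α γ * b γ δ = 0 := by
  have b1 := hb 0 1
  have b2 := hb 0 2
  have b3 := hb 0 3
  have b4 := hb 1 2
  have b5 := hb 1 3
  have b6 := hb 2 3
  have key : ∀ ε, ∑ γ, pencilHat b ε γ * b γ δ = 0 := by
    intro ε
    fin_cases ε <;> fin_cases δ <;>
      simp [pencilHat, Fin.sum_univ_four, b1, b2, b3, b4, b5, b6, hb0] <;>
      first
        | ring1
        | linear_combination -hp
  have e : ∑ γ, pencilPr m a b α γ * b γ δ = m * ∑ ε, a α ε * ∑ γ, pencilHat b ε γ * b γ δ := by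
    simp only [pencilPr, Fin.sum_univ_four]
    ring
  rw [e]
  simp [key]

theorem pencil_fix {a b : Fin 4 → Fin 4 → R} (ha : ∀ α β, a β α = -a α β) (ha0 : ∀ α, a α α = 0)
    (hb : ∀ α β, b β α = -b α β) (hb0 : ∀ α, b α α = 0) {m : R} (hm : m * wg a b = -1)
    (hp : a 0 1 * a 2 3 - a 0 2 * a 1 3 + a 0 3 * a 1 2 = 0) (α δ : Fin 4) :
    ∑ γ, pencilPr m a b α γ * a γ δ = a α δ := by
  have h1 := pencil_kill ha ha0 hp m b α δ
  have h2 : ∑ γ, (pencilPr m a b α γ + pencilPr m b a α γ) * a γ δ = a α δ := by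
    simp only [pencil_sum ha ha0 hb hb0 hm]
    simp
  simp only [add_mul, Finset.sum_add_distrib] at h2
  rw [h1, add_zero] at h2
  exact h2

theorem pencil_tr2 {a : Fin 4 → Fin 4 → R} (ha : ∀ α β, a β α = -a α β)
    (g : Matrix (Fin 4) (Fin 4) R) (χ : Fin 4 → R)
    (h : ∀ α δ, ∑ γ, g α γ * a γ δ = χ α * a α δ) (α β : Fin 4) :
    tr2 g a α β = χ α * χ β * a α β := by
  have e1 : tr2 g a α β = ∑ δ, g β δ * ∑ γ, g α γ * a γ δ := by
    simp only [tr2, Fin.sum_univ_four]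
    ring
  have e2 : ∑ δ, g β δ * (χ α * a α δ) = -χ α * ∑ δ, g β δ * a δ α := by
    simp only [Fin.sum_univ_four, ha α]
    ring
  simp only [h] at e1
  rw [e1, e2, h, ha α β]
  ring

theorem pencil_tr2_left {a b : Fin 4 → Fin 4 → R} (ha : ∀ α β, a β α = -a α β)
    (ha0 : ∀ α, a α α = 0) (hb : ∀ α β, b β α = -b α β) (hb0 : ∀ α, b α α = 0) {m : R}
    (hm : m * wg a b = -1) (hp : a 0 1 * a 2 3 - a 0 2 * a 1 3 + a 0 3 * a 1 2 = 0) :
    tr2 (pencilG m a b) a = om (a 0 1) 0 := by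
  have h := pencil_tr2 ha (pencilG m a b) ![1, 1, 0, 0] fun α δ => by
    fin_cases α
    · simpa [pencilG] using pencil_fix ha ha0 hb hb0 hm hp 0 δ
    · simpa [pencilG] using pencil_fix ha ha0 hb hb0 hm hp 1 δ
    · simpa [pencilG] using pencil_kill ha ha0 hp m b 2 δ
    · simpa [pencilG] using pencil_kill ha ha0 hp m b 3 δ
  funext α β
  rw [h]
  fin_cases α <;> fin_cases β <;> simp [om, ha0, ha 0 1]

theorem pencil_tr2_right {a b : Fin 4 → Fin 4 → R} (ha : ∀ α β, a β α = -a α β)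
    (ha0 : ∀ α, a α α = 0) (hb : ∀ α β, b β α = -b α β) (hb0 : ∀ α, b α α = 0) {m : R}
    (hm : m * wg a b = -1) (hp : b 0 1 * b 2 3 - b 0 2 * b 1 3 + b 0 3 * b 1 2 = 0) :
    tr2 (pencilG m a b) b = om 0 (b 2 3) := by
  have hm' : m * wg b a = -1 := by rw [integ_wg_comm, hm]
  have h := pencil_tr2 hb (pencilG m a b) ![0, 0, 1, 1] fun α δ => by
    fin_cases α
    · simpa [pencilG] using pencil_kill hb hb0 hp m a 0 δ
    · simpa [pencilG] using pencil_kill hb hb0 hp m a 1 δ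
    · simpa [pencilG] using pencil_fix hb hb0 ha ha0 hm' hp 2 δ
    · simpa [pencilG] using pencil_fix hb hb0 ha ha0 hm' hp 3 δ
  funext α β
  rw [h]
  fin_cases α <;> fin_cases β <;> simp [om, hb0, hb 2 3]

theorem pencil_tr2_lin (g : Matrix (Fin 4) (Fin 4) R) (s t : R) (a b : Fin 4 → Fin 4 → R)
    (α β : Fin 4) :
    tr2 g (fun α β => s * a α β + t * b α β) α β = s * tr2 g a α β + t * tr2 g b α β := by
  simp only [tr2, Fin.sum_univ_four]
  ring

theorem pencil_om_lin (s t x y : R) :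
    (fun α β => s * om x 0 α β + t * om 0 y α β) = om (s * x) (t * y) := by
  funext α β
  fin_cases α <;> fin_cases β <;> simp [om]

end Alg

theorem pencil_re_mul {s t : A} (hs : B.Re0 s) (ht : B.Re0 t) : B.Re0 (s * t) :=
  ⟨B.mul_mem' hs.1 ht.1 (add_zero _), by rw [star_mul', hs.2, ht.2]⟩

theorem pencil_re_add {s t : A} (hs : B.Re0 s) (ht : B.Re0 t) : B.Re0 (s + t) :=
  ⟨add_mem hs.1 ht.1, by rw [star_add, hs.2, ht.2]⟩

theorem pencil_re_sub {s t : A} (hs : B.Re0 s) (ht : B.Re0 t) : B.Re0 (s - t) :=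
  ⟨sub_mem hs.1 ht.1, by rw [star_sub, hs.2, ht.2]⟩

theorem pencil_re_neg {s : A} (hs : B.Re0 s) : B.Re0 (-s) :=
  ⟨neg_mem hs.1, by rw [star_neg, hs.2]⟩

theorem pencil_re_one : B.Re0 (1 : A) := ⟨B.one_mem, star_one _⟩

theorem pencil_ev_mul {s : A} (hs : B.Re0 s) (t : A) (p : P) :
    (B.ev (s * t) p).re = (B.ev s p).re * (B.ev t p).re := by
  rw [map_mul, ContinuousMap.mul_apply, Complex.mul_re, (B.re0_iff.1 hs).2 p, zero_mul, sub_zero]

theorem pencil_ev_mul_im {s : A} (hs : B.Re0 s) (t : A) (p : P) :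
    (B.ev (s * t) p).im = (B.ev s p).re * (B.ev t p).im := by
  rw [map_mul, ContinuousMap.mul_apply, Complex.mul_im, (B.re0_iff.1 hs).2 p, zero_mul, add_zero]

theorem pencil_ev_add (s t : A) (p : P) :
    (B.ev (s + t) p).re = (B.ev s p).re + (B.ev t p).re := by
  rw [map_add, ContinuousMap.add_apply, Complex.add_re]

theorem pencil_ev_sub (s t : A) (p : P) :
    (B.ev (s - t) p).re = (B.ev s p).re - (B.ev t p).re := by
  rw [map_sub, ContinuousMap.sub_apply, Complex.sub_re]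

theorem pencil_ev_neg (s : A) (p : P) : (B.ev (-s) p).re = -(B.ev s p).re := by
  rw [map_neg, ContinuousMap.neg_apply, Complex.neg_re]

theorem pencil_ev_one (p : P) : (B.ev (1 : A) p).re = 1 := by
  rw [map_one, ContinuousMap.one_apply, Complex.one_re]

theorem pencil_norm {s : A} (hs : B.Re0 s) (p : P) : ‖B.ev s p‖ = |(B.ev s p).re| := by
  have e : B.ev s p = ((B.ev s p).re : ℂ) := Complex.ext rfl ((B.re0_iff.1 hs).2 p)
  conv_lhs => rw [e]
  rw [Complex.norm_real, Real.norm_eq_abs]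

theorem pencil_inv (G : Calc B) {s : A} (hs : B.Re0 s) (h : ∀ p, (B.ev s p).re ≠ 0) :
    ∃ t, B.Re0 t ∧ s * t = 1 ∧ ∀ p, (B.ev s p).re * (B.ev t p).re = 1 := by
  obtain ⟨t, ht, e⟩ := G.exists_inv hs.1 fun p h0 => h p (by rw [h0, Complex.zero_re])
  refine ⟨t, ⟨by simpa using ht, ?_⟩, e, fun p => ?_⟩
  · have h1 : s * star t = 1 := by
      have := congrArg star e
      rwa [star_mul', hs.2, star_one] at this
    linear_combination t * h1 - star t * e
  · rw [← pencil_ev_mul hs, e, pencil_ev_one]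

theorem pencil_root (G : Calc B) {s t R : A} (hs : B.Re0 s) (ht : B.Re0 t) (hR : B.Re0 R)
    (h0 : ∀ p, 0 < (B.ev R p).re) (h1 : ∀ p, |(B.ev s p).re| ≤ (B.ev R p).re / 100)
    (h2 : ∀ p, |(B.ev t p).re| ≤ (B.ev R p).re / 100) :
    ∃ e, B.Re0 e ∧ s - 2 * e * R + e * e * t = 0 ∧
      ∀ p, |(B.ev e p).re| * (B.ev R p).re ≤ |(B.ev s p).re| := by
  obtain ⟨S, hS, pS, eS⟩ := G.exists_sqrt
    (pencil_re_sub (pencil_re_mul hR hR) (pencil_re_mul hs ht)) fun p => by
      rw [pencil_ev_sub, pencil_ev_mul hR, pencil_ev_mul hs]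
      have a1 := h0 p
      have a2 := abs_le.1 (h1 p)
      have a3 := abs_le.1 (h2 p)
      nlinarith [mul_nonneg (sub_nonneg.2 a2.2) (sub_nonneg.2 a3.1),
        mul_nonneg (sub_nonneg.2 a2.1) (sub_nonneg.2 a3.2), mul_pos a1 a1]
  obtain ⟨u, hu, eu, pu⟩ := pencil_inv G (pencil_re_add hR hS) fun p => by
    rw [pencil_ev_add]
    exact (add_pos (h0 p) (pS p)).ne'
  refine ⟨s * u, pencil_re_mul hs hu, ?_, fun p => ?_⟩
  · linear_combination (s * u * u) * eS - s * (1 + (S - R) * u) * eu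
  · have a1 := h0 p
    have a2 := pS p
    have a3 := pu p
    rw [pencil_ev_add] at a3
    rw [pencil_ev_mul hs, abs_mul, mul_assoc]
    have a4 : 0 < (B.ev u p).re := by
      by_contra hn
      nlinarith [mul_nonneg (add_pos a1 a2).le (neg_nonneg.2 (not_lt.1 hn))]
    rw [abs_of_pos a4]
    refine mul_le_of_le_one_right (abs_nonneg _) ?_
    nlinarith [mul_pos a2 a4]

theorem pencil_hat_mem {b : Fin 4 → Fin 4 → A} (hb : B.Form2 b) (γ β : Fin 4) :
    pencilHat b γ β ∈ B.W (-wt γ - wt β) := by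
  have b1 := (hb 0 1).1
  have b2 := (hb 0 2).1
  have b3 := (hb 0 3).1
  have b4 := (hb 1 2).1
  have b5 := (hb 1 3).1
  have b6 := (hb 2 3).1
  simp only [wt, Matrix.cons_val_zero, Matrix.cons_val_one, Matrix.cons_val, Prod.mk_add_mk]
    at b1 b2 b3 b4 b5 b6
  norm_num at b1 b2 b3 b4 b5 b6
  have b7 : b 0 1 ∈ B.W 0 := b1
  have b8 : b 2 3 ∈ B.W 0 := b6
  fin_cases γ <;> fin_cases β <;> simp [pencilHat, wt, b2, b3, b4, b5, b7, b8]

theorem pencil_hat_star {b : Fin 4 → Fin 4 → A} (hb : B.Re2 b) (γ β : Fin 4) :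
    star (pencilHat b γ β) = pencilHat b (bar γ) (bar β) := by
  have b1 := (hb.1 0 1).2
  have b6 := (hb.1 2 3).2
  fin_cases γ <;> fin_cases β <;> simp [pencilHat, bar, hb.2, b1, b6]

theorem pencil_pr_mem {a b : Fin 4 → Fin 4 → A} (ha : B.Form2 a) (hb : B.Form2 b) {m : A}
    (hm : m ∈ B.W 0) (α β : Fin 4) : pencilPr m a b α β ∈ B.W (wt α - wt β) :=
  B.mul_mem' hm (Submodule.sum_mem _ fun γ _ =>
    B.mul_mem' (ha α γ).1 (pencil_hat_mem hb γ β) (by abel)) (zero_add _)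

theorem pencil_pr_star {a b : Fin 4 → Fin 4 → A} (ha : B.Re2 a) (hb : B.Re2 b) {m : A}
    (hm : B.Re0 m) (α β : Fin 4) :
    star (pencilPr m a b α β) = pencilPr m a b (bar α) (bar β) := by
  simp only [pencilPr, star_mul', star_sum, hm.2, ha.2, pencil_hat_star hb]
  rw [sum_bar fun γ => a (bar α) γ * pencilHat b γ (bar β)]

theorem pencil_pf {a : Fin 4 → Fin 4 → A} (h : wg a a = 0) :
    a 0 1 * a 2 3 - a 0 2 * a 1 3 + a 0 3 * a 1 2 = 0 := by
  have e : algebraMap ℂ A (1 / 2) * 2 = 1 := by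
    rw [← map_ofNat (algebraMap ℂ A) 2, ← map_mul]
    norm_num
  unfold wg at h
  linear_combination algebraMap ℂ A (1 / 2) * h -
    (a 0 1 * a 2 3 - a 0 2 * a 1 3 + a 0 3 * a 1 2) * e

theorem pencil_I_mul : algebraMap ℂ A Complex.I * algebraMap ℂ A Complex.I = -1 := by
  rw [← map_mul, Complex.I_mul_I, map_neg, map_one]

theorem pencil_imag {s : A} (hs : s ∈ B.W 0) (h : star s = -s) :
    B.Re0 (-algebraMap ℂ A Complex.I * s) ∧
      ∀ p, (B.ev (-algebraMap ℂ A Complex.I * s) p).re = (B.ev s p).im := by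
  refine ⟨⟨B.mul_mem' (neg_mem (B.algebraMap_mem _)) hs (add_zero _), ?_⟩, fun p => ?_⟩
  · rw [star_mul', star_neg, h, ← algebraMap_star_comm, Complex.star_def, Complex.conj_I, map_neg]
    ring
  · rw [map_mul, map_neg, AlgHomClass.commutes]
    simp

theorem pencil_frame {a b : Fin 4 → Fin 4 → A} (ha : B.Re2 a) (hb : B.Re2 b) (haa : wg a a = 0)
    (hbb : wg b b = 0) {m x y : A} (hm : B.Re0 m) (hx : B.Re0 x)
    (em : m * wg a b = -1) (exy : a 0 1 * b 2 3 = -(x * y)) (pm : ∀ p, 0 < (B.ev m p).re)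
    (px : ∀ p, 0 < (B.ev x p).re) (py : ∀ p, 0 < (B.ev y p).re) :
    ∃ g, B.Frame g ∧ tr2 g a = om (a 0 1) 0 ∧ tr2 g b = om 0 (b 2 3) := by
  have a1 : ∀ α β, a β α = -a α β := fun α β => (ha.1 α β).2
  have b1 : ∀ α β, b β α = -b α β := fun α β => (hb.1 α β).2
  have t1 := pencil_tr2_left a1 ha.1.diag b1 hb.1.diag em (pencil_pf haa)
  have t2 := pencil_tr2_right a1 ha.1.diag b1 hb.1.diag em (pencil_pf hbb)
  refine ⟨pencilG m a b, ⟨fun α β => ?_, fun α β => ?_, fun p => ?_⟩, t1, t2⟩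
  · fin_cases α
    · exact pencil_pr_mem ha.1 hb.1 hm.1 0 β
    · exact pencil_pr_mem ha.1 hb.1 hm.1 1 β
    · exact pencil_pr_mem hb.1 ha.1 hm.1 2 β
    · exact pencil_pr_mem hb.1 ha.1 hm.1 3 β
  · fin_cases α
    · exact pencil_pr_star ha hb hm 0 β
    · exact pencil_pr_star ha hb hm 1 β
    · exact pencil_pr_star hb ha hm 2 β
    · exact pencil_pr_star hb ha hm 3 β
  · have h := wg_tr2 (pencilG m a b) a1 ha.1.diag b1 hb.1.diag
    rw [t1, t2] at h
    have e : wg (om (a 0 1) 0) (om 0 (b 2 3)) = a 0 1 * b 2 3 := by simp [wg, om]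
    have d : (pencilG m a b).det = m * (x * y) := by
      rw [e, exy] at h
      linear_combination m * h + (pencilG m a b).det * em
    rw [d, pencil_ev_mul hm, pencil_ev_mul hx]
    exact mul_pos (pm p) (mul_pos (px p) (py p))

theorem pencil_comb (G : Pre B) {a b : Fin 4 → Fin 4 → A} (z w : ℂ) {d : Fin 4 → Fin 4 → A}
    (ha : G.I (wg a d) = 0) (hb : G.I (wg b d) = 0) :
    G.I (wg (fun α β => algebraMap ℂ A z * a α β + algebraMap ℂ A w * b α β) d) = 0 := by
  have e : wg (fun α β => algebraMap ℂ A z * a α β + algebraMap ℂ A w * b α β) d =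
      z • wg a d + w • wg b d := by
    simp only [wg, Algebra.smul_def]
    ring
  rw [e, map_add, map_smul, map_smul, ha, hb, smul_zero, smul_zero, add_zero]

theorem pencil_transfer {G G' : Pre B} {g : Matrix (Fin 4) (Fin 4) A} (h : Chg G G' g)
    {a b : Fin 4 → Fin 4 → A} (ha : B.Form2 a) (hb : B.Form2 b) (ca : G.Closed a)
    (cb : G.Closed b) (fa : ∀ j, G.I (wg (G.F j) a) = 0) (fb : ∀ j, G.I (wg (G.F j) b) = 0)
    (z w : ℂ) {c : Fin 4 → Fin 4 → A}
    (e : tr2 g (fun α β => algebraMap ℂ A z * a α β + algebraMap ℂ A w * b α β) = c) :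
    G'.Closed c ∧ ∀ j, G'.I (wg (G'.F j) c) = 0 := by
  have hf : B.Form2 fun α β => algebraMap ℂ A z * a α β + algebraMap ℂ A w * b α β :=
    (ha.mul (B.algebraMap_mem z)).add (hb.mul (B.algebraMap_mem w))
  subst e
  refine ⟨h.closed hf fun p hp q hq => pencil_comb G z w (ca p hp q hq) (cb p hp q hq),
    fun j => ?_⟩
  rw [h.F_eq, h.I_wg (G.F_form j) hf, integ_wg_comm]
  exact pencil_comb G z w (by rw [integ_wg_comm, fa]) (by rw [integ_wg_comm, fb])

theorem pencil_ratio {v e x : ℝ} (hv : 0 < v) (hx : 0 < x) (he : |e| ≤ 1 / 100) :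
    0 < v * (1 + e) * x ∧ 9 / 10 * (v * (1 + e) * x) ≤ v * (1 - e) * x ∧
      v * (1 - e) * x ≤ 11 / 10 * (v * (1 + e) * x) := by
  have h := abs_le.1 he
  have hvx := mul_pos hv hx
  refine ⟨mul_pos (mul_pos hv (by linarith [h.1])) hx, ?_, ?_⟩
  · nlinarith [mul_nonneg hvx.le (sub_nonneg.2 h.2)]
  · nlinarith [mul_nonneg hvx.le (sub_nonneg.2 h.1)]

theorem pencil_pos {r s e x : ℝ} {y : ℂ} (hr : 0 < r) (he : |e| * r ≤ s) (h : s * ‖y‖ < r * x) :
    0 < x + e * y.im := by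
  have h1 : |e * y.im| ≤ |e| * ‖y‖ := by
    rw [abs_mul]
    exact mul_le_mul_of_nonneg_left (Complex.abs_im_le_norm y) (abs_nonneg e)
  have h2 : |e| * r * ‖y‖ ≤ s * ‖y‖ := mul_le_mul_of_nonneg_right he (norm_nonneg y)
  have h3 : r * (|e| * ‖y‖) < r * x := by linarith
  have h4 := lt_of_mul_lt_mul_left h3 hr.le
  linarith [neg_abs_le (e * y.im)]

theorem Geo.pencil [Nonempty P] (G : Geo B) {a b : Fin 4 → Fin 4 → A} (ha : B.Re2 a)
    (hb : B.Re2 b) (ca : G.Closed a) (cb : G.Closed b) (fa : ∀ j, G.I (wg (G.F j) a) = 0)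
    (fb : ∀ j, G.I (wg (G.F j) b) = 0) (r : P → ℝ) (hr : ∀ p, r p = -(B.ev (wg a b) p).re)
    (h0 : ∀ p, 0 < r p) (h1 : ∀ p, ‖B.ev (wg a a) p‖ ≤ r p / 100)
    (h2 : ∀ p, ‖B.ev (wg b b) p‖ ≤ r p / 100)
    (h3 : ∀ p, ‖B.ev (wg a a) p‖ * ‖B.ev (b 0 1) p‖ < r p * (B.ev (a 0 1) p).im)
    (h4 : ∀ p, ‖B.ev (wg b b) p‖ * ‖B.ev (a 2 3) p‖ < r p * (B.ev (b 2 3) p).im) : G.AKP := by
  have raa := ha.wg_re ha
  have rbb := hb.wg_re hb
  have rab := ha.wg_re hb
  have rR := pencil_re_neg rab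
  have eR : ∀ p, (B.ev (-wg a b) p).re = r p := fun p => by rw [pencil_ev_neg, hr]
  simp only [pencil_norm raa] at h1 h3
  simp only [pencil_norm rbb] at h2 h4
  obtain ⟨e, re, ee, pe⟩ := pencil_root G.toCalc raa rbb rR (fun p => by rw [eR]; exact h0 p)
    (fun p => by rw [eR]; exact h1 p) fun p => by rw [eR]; exact h2 p
  obtain ⟨f, rf, ef, pf⟩ := pencil_root G.toCalc rbb raa rR (fun p => by rw [eR]; exact h0 p)
    (fun p => by rw [eR]; exact h2 p) fun p => by rw [eR]; exact h1 p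
  simp only [eR] at pe pf
  have be : ∀ p, |(B.ev e p).re| ≤ 1 / 100 := fun p =>
    le_of_mul_le_mul_right (by linarith [pe p, h1 p]) (h0 p)
  have bf : ∀ p, |(B.ev f p).re| ≤ 1 / 100 := fun p =>
    le_of_mul_le_mul_right (by linarith [pf p, h2 p]) (h0 p)
  have bef : ∀ p, |(B.ev e p).re * (B.ev f p).re| ≤ 1 / 100 := fun p => by
    rw [abs_mul]
    nlinarith [be p, bf p, abs_nonneg (B.ev e p).re, abs_nonneg (B.ev f p).re]
  obtain ⟨a', ea'⟩ : ∃ a' : Fin 4 → Fin 4 → A, a' = a + fun α β => e * b α β := ⟨_, rfl⟩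
  obtain ⟨b', eb'⟩ : ∃ b' : Fin 4 → Fin 4 → A, b' = b + fun α β => f * a α β := ⟨_, rfl⟩
  have ha' : B.Re2 a' := ea' ▸ ha.add (hb.mul re)
  have hb' : B.Re2 b' := eb' ▸ hb.add (ha.mul rf)
  have va : ∀ α β, a' α β = a α β + e * b α β := fun α β => by rw [ea']; rfl
  have vb : ∀ α β, b' α β = b α β + f * a α β := fun α β => by rw [eb']; rfl
  have haa : wg a' a' = 0 := by
    rw [← ee]
    simp only [wg, va]
    ring
  have hbb : wg b' b' = 0 := by
    rw [← ef]
    simp only [wg, vb]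
    ring
  have hab : -wg a' b' = (1 + e * f) * -wg a b - f * wg a a - e * wg b b := by
    simp only [wg, va, vb]
    ring
  have pW : ∀ p, 0 < (B.ev (-wg a' b') p).re := fun p => by
    rw [hab, pencil_ev_sub, pencil_ev_sub,
      pencil_ev_mul (pencil_re_add pencil_re_one (pencil_re_mul re rf)), pencil_ev_mul rf,
      pencil_ev_mul re, pencil_ev_add, pencil_ev_one, pencil_ev_mul re, eR]
    have c1 : (B.ev f p).re * (B.ev (wg a a) p).re ≤ 1 / 100 * (r p / 100) := by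
      refine (le_abs_self _).trans ?_
      rw [abs_mul]
      exact mul_le_mul (bf p) (h1 p) (abs_nonneg _) (by norm_num)
    have c2 : (B.ev e p).re * (B.ev (wg b b) p).re ≤ 1 / 100 * (r p / 100) := by
      refine (le_abs_self _).trans ?_
      rw [abs_mul]
      exact mul_le_mul (be p) (h2 p) (abs_nonneg _) (by norm_num)
    have c3 := mul_nonneg (sub_nonneg.2 (abs_le.1 (bef p)).1) (h0 p).le
    nlinarith [h0 p]
  obtain ⟨m, rm, em, pm⟩ := pencil_inv G.toCalc (pencil_re_neg (ha'.wg_re hb')) fun p => (pW p).ne'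
  obtain ⟨v, rv, ev, pv⟩ := pencil_inv G.toCalc
    (pencil_re_sub pencil_re_one (pencil_re_mul re rf)) fun p => by
      rw [pencil_ev_sub, pencil_ev_one, pencil_ev_mul re]
      linarith [(abs_le.1 (bef p)).2]
  have pm' : ∀ p, 0 < (B.ev m p).re := fun p =>
    pos_of_mul_pos_left (by rw [mul_comm, pm p]; exact one_pos) (pW p).le
  have pv' : ∀ p, 0 < (B.ev v p).re := fun p => by
    refine pos_of_mul_pos_left (b := (B.ev (1 - e * f) p).re)
      (by rw [mul_comm, pv p]; exact one_pos) ?_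
    rw [pencil_ev_sub, pencil_ev_one, pencil_ev_mul re]
    linarith [(abs_le.1 (bef p)).2]
  obtain ⟨rx, ex⟩ := pencil_imag (B := B) (s := a' 0 1) (ha'.1 0 1).1
    ((ha'.2 0 1).trans (ha'.1 0 1).2)
  obtain ⟨ry, ey⟩ := pencil_imag (B := B) (s := b' 2 3) (hb'.1 2 3).1
    ((hb'.2 2 3).trans (hb'.1 2 3).2)
  have px : ∀ p, 0 < (B.ev (-algebraMap ℂ A Complex.I * a' 0 1) p).re := fun p => by
    rw [ex, va, map_add, ContinuousMap.add_apply, Complex.add_im, pencil_ev_mul_im re]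
    exact pencil_pos (h0 p) (pe p) (h3 p)
  have py : ∀ p, 0 < (B.ev (-algebraMap ℂ A Complex.I * b' 2 3) p).re := fun p => by
    rw [ey, vb, map_add, ContinuousMap.add_apply, Complex.add_im, pencil_ev_mul_im rf]
    exact pencil_pos (h0 p) (pf p) (h4 p)
  obtain ⟨g, hg, t1, t2⟩ := pencil_frame ha' hb' haa hbb rm rx (by linear_combination -em)
    (by linear_combination (a' 0 1 * b' 2 3) * pencil_I_mul (A := A)) pm' px py
  obtain ⟨G', hG⟩ := G.exists_chg hg
  have k1 : (fun α β => algebraMap ℂ A (-Complex.I) * a α β + algebraMap ℂ A (-Complex.I) * b α β) =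
      fun α β => (-algebraMap ℂ A Complex.I * (v * (1 - f))) * a' α β +
        (-algebraMap ℂ A Complex.I * (v * (1 - e))) * b' α β := by
    funext α β
    rw [va, vb, map_neg]
    linear_combination (algebraMap ℂ A Complex.I * (a α β + b α β)) * ev
  have k2 : (fun α β => algebraMap ℂ A (-Complex.I) * a α β + algebraMap ℂ A Complex.I * b α β) =
      fun α β => (-algebraMap ℂ A Complex.I * (v * (1 + f))) * a' α β +
        (algebraMap ℂ A Complex.I * (v * (1 + e))) * b' α β := by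
    funext α β
    rw [va, vb, map_neg]
    linear_combination (algebraMap ℂ A Complex.I * (a α β - b α β)) * ev
  obtain ⟨c1, f1⟩ := pencil_transfer hG ha.1 hb.1 ca cb fa fb (-Complex.I) (-Complex.I)
    (c := om (v * (1 - f) * (-algebraMap ℂ A Complex.I * a' 0 1))
      (v * (1 - e) * (-algebraMap ℂ A Complex.I * b' 2 3))) (by
      rw [k1]
      funext α β
      rw [pencil_tr2_lin, t1, t2]
      refine (congrFun (congrFun (pencil_om_lin _ _ _ _) α) β).trans ?_
      congr 1 <;> ring)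
  obtain ⟨c2, f2⟩ := pencil_transfer hG ha.1 hb.1 ca cb fa fb (-Complex.I) Complex.I
    (c := om (v * (1 + f) * (-algebraMap ℂ A Complex.I * a' 0 1))
      (-(v * (1 + e) * (-algebraMap ℂ A Complex.I * b' 2 3)))) (by
      rw [k2]
      funext α β
      rw [pencil_tr2_lin, t1, t2]
      refine (congrFun (congrFun (pencil_om_lin _ _ _ _) α) β).trans ?_
      congr 1 <;> ring)
  have s1 := pencil_re_mul rv (pencil_re_sub pencil_re_one rf)
  have s2 := pencil_re_mul rv (pencil_re_sub pencil_re_one re)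
  have s3 := pencil_re_mul rv (pencil_re_add pencil_re_one rf)
  have s4 := pencil_re_mul rv (pencil_re_add pencil_re_one re)
  refine Geo.AKP.of_chg hG (G'.noPair (pencil_re_mul s1 rx) (pencil_re_mul s2 ry)
    (pencil_re_mul s3 rx) (pencil_re_mul s4 ry) (fun p => ?_) (fun p => ?_) c1 c2 f1 f2)
  · rw [pencil_ev_mul s1, pencil_ev_mul s3, pencil_ev_mul rv, pencil_ev_mul rv, pencil_ev_add,
      pencil_ev_sub, pencil_ev_one]
    exact pencil_ratio (pv' p) (px p) (bf p)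
  · rw [pencil_ev_mul s2, pencil_ev_mul s4, pencil_ev_mul rv, pencil_ev_mul rv, pencil_ev_add,
      pencil_ev_sub, pencil_ev_one]
    exact pencil_ratio (pv' p) (py p) (be p)

end SX4
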