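import Pool.Agent.P.MP_0a0487_an.SX.PerDefs
import Pool.Agent.P.MP_0a0487_an.SX.ODyn2
import Pool.Agent.P.MP_0a0487_an.SX.CechT
import Pool.Agent.P.MP_0a0487_an.SX.Restr

/-! The Poincare lemma on the universal cover. -/

set_option autoImplicit false
set_option linter.unusedSectionVars false

noncomputable section

namespace SX4

open scoped ComplexOrder ContDiff
open Filter Topology Matrix

variable {P A : Type} [TopologicalSpace P] [CompactSpace P] [CommRing A] [StarRing A] [Algebra ℂ A]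
  [StarModule ℂ A] {B : Base P A}

variable {Y U : Type} [TopologicalSpace Y] [TopologicalSpace U] [CompactSpace Y] [T2Space Y]
  {a : Fr Y} {q : U → Y}

/-- The function on the base manifold defined by `s`. -/
def PerAf {G : Calc B} (l : Link a G) (s : A) : Y → ℂ :=
  fun y => B.ev s (Function.surjInv l.π_surj y)

theorem PerA_ev {G : Calc B} (l : Link a G) {s : A} (hs : s ∈ B.W 0) (p : P) :
    B.ev s p = PerAf l s (l.π p) := by
  obtain ⟨f, -, hf⟩ := l.fn s hs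
  rw [PerAf, hf, hf, Function.surjInv_eq l.π_surj]

theorem PerA_sm {G : Calc B} (l : Link a G) {s : A} (hs : s ∈ B.W 0) : a.Sm (PerAf l s) := by
  obtain ⟨f, h1, hf⟩ := l.fn s hs
  have e : PerAf l s = f := funext fun y => by rw [PerAf, hf, Function.surjInv_eq l.π_surj]
  rwa [e]

theorem PerA_at {f : Y → ℂ} (hf : a.Sm f) {i : Fin a.n} {z : E4} (hz : z ∈ (a.φ i).target) :
    ContDiffAt ℝ ∞ (fun y => f ((a.φ i).symm y)) z :=
  (hf i).contDiffAt ((a.φ i).open_target.mem_nhds hz)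

theorem PerA_dv {G : Calc B} (l : Link a G) {i : Fin a.n} {p : P} (hp : l.π p ∈ (a.φ i).source)
    {s : A} (hs : s ∈ B.W 0) (v : Fin 4 → ℝ) :
    G.dv s p v = fderiv ℝ (fun y => PerAf l s ((a.φ i).symm y)) (a.φ i (l.π p))
      (a.V i (a.φ i (l.π p)) *ᵥ (l.R i p *ᵥ v)) :=
  l.dv_eq i p hp s hs _ (PerA_ev l hs) v

theorem PerA_surj {G : Calc B} (l : Link a G) {i : Fin a.n} {p : P} (hp : l.π p ∈ (a.φ i).source)
    (w : E4) : ∃ v, a.V i (a.φ i (l.π p)) *ᵥ (l.R i p *ᵥ v) = w := by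
  have h : IsUnit (a.V i (a.φ i (l.π p)) * l.R i p).det := by
    rw [Matrix.det_mul, (l.R_rot i p hp).det, mul_one]
    exact (a.V_det_ne i ((a.φ i).map_source hp)).isUnit
  refine ⟨(a.V i (a.φ i (l.π p)) * l.R i p)⁻¹ *ᵥ w, ?_⟩
  rw [Matrix.mulVec_mulVec, Matrix.mulVec_mulVec, Matrix.mul_nonsing_inv _ h, Matrix.one_mulVec]

theorem PerA_symm {i : Fin a.n} {y : Y} (hy : y ∈ (a.φ i).source) :
    Tendsto (a.φ i).symm (𝓝 (a.φ i y)) (𝓝 y) :=
  (a.φ i).tendsto_symm hy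

theorem PerA_D_eq {G : Calc B} (l : Link a G) {s t : A} (hs : s ∈ B.W 0) (ht : t ∈ B.W 0) {p : P}
    (h : PerAf l s =ᶠ[𝓝 (l.π p)] PerAf l t) (α : Fin 4) :
    B.ev (G.D α s) p = B.ev (G.D α t) p := by
  obtain ⟨i, hi⟩ := a.cover (l.π p)
  refine G.ext_dv (fun v => ?_) α
  have e : (fun y => PerAf l s ((a.φ i).symm y)) =ᶠ[𝓝 (a.φ i (l.π p))]
      fun y => PerAf l t ((a.φ i).symm y) := (PerA_symm hi).eventually h
  rw [PerA_dv l hi hs, PerA_dv l hi ht, e.fderiv_eq]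

theorem PerA_lc {G : Calc B} (l : Link a G) {s t : A} (hs : s ∈ B.W 0) (ht : t ∈ B.W 0) {y₀ : Y}
    (h : ∀ᶠ y in 𝓝 y₀, ∀ p, l.π p = y → ∀ α, B.ev (G.D α s) p = B.ev (G.D α t) p) :
    ∀ᶠ y in 𝓝 y₀, PerAf l s y - PerAf l t y = PerAf l s y₀ - PerAf l t y₀ := by
  obtain ⟨i, hi⟩ := a.cover y₀
  have h1 := ((PerA_symm hi).eventually h).and
    ((a.φ i).open_target.mem_nhds ((a.φ i).map_source hi))
  obtain ⟨ε, hε, hb⟩ := Metric.eventually_nhds_iff_ball.1 h1
  have hd : ∀ z ∈ Metric.ball (a.φ i y₀) ε, HasFDerivAt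
      (fun y => PerAf l s ((a.φ i).symm y) - PerAf l t ((a.φ i).symm y)) (0 : E4 →L[ℝ] ℂ) z := by
    intro z hz
    obtain ⟨h2, h3⟩ := hb z hz
    obtain ⟨p, hp⟩ := l.π_surj ((a.φ i).symm z)
    have hp' : l.π p ∈ (a.φ i).source := hp ▸ (a.φ i).map_target h3
    have hz' : a.φ i (l.π p) = z := by rw [hp, (a.φ i).right_inv h3]
    have e : fderiv ℝ (fun y => PerAf l s ((a.φ i).symm y)) z -
        fderiv ℝ (fun y => PerAf l t ((a.φ i).symm y)) z = 0 := by
      ext1 w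
      obtain ⟨v, rfl⟩ := PerA_surj l hp' w
      rw [_root_.sub_apply, ← hz', ← PerA_dv l hp' hs, ← PerA_dv l hp' ht]
      simp only [Calc.dv, h2 p hp, sub_self, _root_.zero_apply]
    rw [← e]
    exact ((PerA_at (PerA_sm l hs) h3).differentiableAt (by simp)).hasFDerivAt.sub
      ((PerA_at (PerA_sm l ht) h3).differentiableAt (by simp)).hasFDerivAt
  filter_upwards [(a.φ i).open_source.mem_nhds hi,
    (a.φ i).continuousAt hi (Metric.ball_mem_nhds _ hε)] with y hy hy'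
  have := Metric.isOpen_ball.is_const_of_fderiv_eq_zero (convex_ball _ _).isPreconnected
    (fun z hz => (hd z hz).differentiableAt.differentiableWithinAt) (fun z hz => (hd z hz).fderiv)
    hy' (Metric.mem_ball_self hε)
  simpa only [(a.φ i).left_inv hy, (a.φ i).left_inv hi] using this

theorem PerA_g {G : Calc B} {l : Link a G} {g : U → ℂ} {s : A} {x : U} {r : U → P → Prop}
    (h : ∀ᶠ y in 𝓝 x, ∀ p, l.π p = q y → g y = B.ev s p ∧ r y p) :
    ∀ᶠ y in 𝓝 x, g y = PerAf l s (q y) :=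
  h.mono fun _ hy => (hy _ (Function.surjInv_eq l.π_surj _)).1

theorem PerA_down (hq : IsLocalHomeomorph q) {x : U} {r : Y → Prop}
    (h : ∀ᶠ y in 𝓝 x, r (q y)) : ∀ᶠ y in 𝓝 (q x), r y := by
  rw [← hq.map_nhds_eq x]
  exact h

theorem PerA_cut {i : Fin a.n} {z₀ : E4} (hz₀ : z₀ ∈ (a.φ i).target) {u : E4 → ℂ} {S : Set E4}
    (hS : IsOpen S) (h0 : z₀ ∈ S) (hu : ContDiffOn ℝ ∞ u S) :
    ∃ f : Y → ℂ, a.Sm f ∧ (fun z => f ((a.φ i).symm z)) =ᶠ[𝓝 z₀] u := by
  classical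
  obtain ⟨ε, hε, hb⟩ := Metric.nhds_basis_closedBall.mem_iff.1
    (((a.φ i).open_target.inter hS).mem_nhds ⟨hz₀, h0⟩)
  let b : ContDiffBump z₀ := ⟨ε / 2, ε, half_pos hε, half_lt_self hε⟩
  have hb0 : ∀ z, z ∉ Metric.closedBall z₀ ε → b z = 0 := fun z hz =>
    b.zero_of_le_dist (le_of_lt (not_le.1 hz))
  have hw : ∀ z, ContDiffAt ℝ ∞ (fun z => b z • u z) z := fun z => by
    by_cases hz : z ∈ Metric.closedBall z₀ ε
    · exact b.contDiffAt.smul (hu.contDiffAt (hS.mem_nhds (hb hz).2))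
    · refine (contDiffAt_const (c := (0 : ℂ))).congr_of_eventuallyEq ?_
      filter_upwards [Metric.isClosed_closedBall.isOpen_compl.mem_nhds hz] with w hw
      rw [hb0 w hw, zero_smul]
  let f : Y → ℂ := fun y => if y ∈ (a.φ i).source then b (a.φ i y) • u (a.φ i y) else 0
  have hf : ∀ z ∈ (a.φ i).target, (fun z => f ((a.φ i).symm z)) =ᶠ[𝓝 z] fun z => b z • u z :=
    fun z hz => by
      filter_upwards [(a.φ i).open_target.mem_nhds hz] with w hw
      simp only [f, if_pos ((a.φ i).map_target hw), (a.φ i).right_inv hw]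
  have hK : IsClosed ((a.φ i).symm '' Metric.closedBall z₀ ε) :=
    ((isCompact_closedBall z₀ ε).image_of_continuousOn
      ((a.φ i).continuousOn_symm.mono fun z hz => (hb hz).1)).isClosed
  refine ⟨f, fun j z hz => ContDiffAt.contDiffWithinAt ?_, ?_⟩
  · by_cases hy : (a.φ j).symm z ∈ (a.φ i).source
    · exact a.FrB_comp_at (g := id) a.smMap_id hz hy
        ((hw _).congr_of_eventuallyEq (hf _ ((a.φ i).map_source hy)))
    · have h1 : (a.φ j).symm z ∈ ((a.φ i).symm '' Metric.closedBall z₀ ε)ᶜ := by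
        rintro ⟨w, hw, e⟩
        exact hy (e ▸ (a.φ i).map_target (hb hw).1)
      refine (contDiffAt_const (c := (0 : ℂ))).congr_of_eventuallyEq ?_
      filter_upwards [(a.φ j).continuousAt_symm hz (hK.isOpen_compl.mem_nhds h1)] with w hw
      by_cases h2 : (a.φ j).symm w ∈ (a.φ i).source
      · simp only [f, if_pos h2]
        rw [hb0 _ fun h3 => hw ⟨_, h3, (a.φ i).left_inv h2⟩, zero_smul]
      · simp only [f, if_neg h2]
  · filter_upwards [hf z₀ hz₀, b.eventuallyEq_one] with z h1 h2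
    rw [h1, h2, Pi.one_apply, one_smul]

theorem PerA_prim {G : Calc B} (l : Link a G) {c : Fin 4 → A} (hc : B.Form1 c) {y₀ : Y}
    (h : ∀ᶠ y in 𝓝 y₀, ∀ p, l.π p = y → ∀ β γ, B.ev (G.d1 c β γ) p = 0) :
    ∃ s ∈ B.W 0, ∀ᶠ y in 𝓝 y₀, ∀ p, l.π p = y → ∀ β, B.ev (c β) p = B.ev (G.D β s) p := by
  obtain ⟨i, hi⟩ := a.cover y₀
  have h1 := ((PerA_symm hi).eventually h).and
    ((a.φ i).open_target.mem_nhds ((a.φ i).map_source hi))
  obtain ⟨ε, hε, hb⟩ := Metric.eventually_nhds_iff_ball.1 h1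
  obtain ⟨k, hk⟩ : ∃ k : Fin G.N → A, ∀ m, k m = ∑ γ, c γ * G.θ γ m := ⟨_, fun _ => rfl⟩
  have k0 : ∀ m, k m ∈ B.W 0 := fun m => hk m ▸ G.form1_coef_mem hc m
  have e0 : ∀ m, G.e m ∈ B.W 0 := fun m => (G.e_re m).1
  obtain ⟨H, hH⟩ : ∃ H : A → E4 → ℂ, ∀ s, H s = fun y => PerAf l s ((a.φ i).symm y) :=
    ⟨_, fun _ => rfl⟩
  have Hs : ∀ s ∈ B.W 0, ∀ z ∈ (a.φ i).target, ContDiffAt ℝ ∞ (H s) z := fun s hs z hz =>
    hH s ▸ PerA_at (PerA_sm l hs) hz
  have Hd : ∀ s ∈ B.W 0, ∀ p, l.π p ∈ (a.φ i).source → ∀ v, fderiv ℝ (H s) (a.φ i (l.π p))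
      (a.V i (a.φ i (l.π p)) *ᵥ (l.R i p *ᵥ v)) = G.dv s p v := fun s hs p hp v => by
    rw [hH, PerA_dv l hp hs]
  let Ω : E4 → E4 →L[ℝ] ℂ := fun z => ∑ m, H (k m) z • fderiv ℝ (H (G.e m)) z
  have Ωs : ∀ z ∈ (a.φ i).target, ContDiffAt ℝ ∞ Ω z := fun z hz =>
    ContDiffAt.sum fun m _ => (Hs _ (k0 m) z hz).smul
      ((Hs _ (e0 m) z hz).fderiv_right (m := ∞) (by norm_cast))
  have hΩ : ∀ z ∈ (a.φ i).target, HasFDerivAt Ω (∑ m, (H (k m) z •
      fderiv ℝ (fderiv ℝ (H (G.e m))) z + (fderiv ℝ (H (k m)) z).smulRight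
        (fderiv ℝ (H (G.e m)) z))) z := fun z hz =>
    HasFDerivAt.fun_sum fun m _ =>
      ((Hs _ (k0 m) z hz).differentiableAt (by simp)).hasFDerivAt.smul
        (((Hs _ (e0 m) z hz).fderiv_right (m := 1) (by norm_cast)).differentiableAt
          (by simp)).hasFDerivAt
  obtain ⟨u, hu⟩ : ∃ u : E4 → ℂ, ∀ z ∈ Metric.ball (a.φ i y₀) ε, HasFDerivAt u (Ω z) z := by
    refine (convex_ball _ _).exists_forall_hasFDerivAt_of_fderiv_symmetric Metric.isOpen_ball
      (fun z hz => (hΩ z (hb z hz).2).differentiableAt.differentiableWithinAt) fun z hz v w => ?_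
    obtain ⟨h2, h3⟩ := hb z hz
    obtain ⟨p, hp⟩ := l.π_surj ((a.φ i).symm z)
    have hp' : l.π p ∈ (a.φ i).source := hp ▸ (a.φ i).map_target h3
    have hz' : a.φ i (l.π p) = z := by rw [hp, (a.φ i).right_inv h3]
    have s4 : ∀ m, fderiv ℝ (fderiv ℝ (H (G.e m))) z v w = fderiv ℝ (fderiv ℝ (H (G.e m))) z w v :=
      fun m => ((Hs _ (e0 m) z h3).isSymmSndFDerivAt (by simp; norm_cast)).eq v w
    have s3 : ∑ m, (fderiv ℝ (H (k m)) z v * fderiv ℝ (H (G.e m)) z w -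
        fderiv ℝ (H (k m)) z w * fderiv ℝ (H (G.e m)) z v) = 0 := by
      obtain ⟨v, rfl⟩ := PerA_surj l hp' v
      obtain ⟨w, rfl⟩ := PerA_surj l hp' w
      have e : G.d1 c = fun α β => ∑ m, G.dd (k m) (G.e m) α β := by
        funext α β
        simp only [G.d1_eq, hk]
      have e' : B.b2 (G.d1 c) p v w = 0 := by
        simp only [Base.b2, h2 p hp, mul_zero, Finset.sum_const_zero]
      rw [e, mapB_b2_sum] at e'
      rw [← hz', ← e']
      exact Finset.sum_congr rfl fun m _ => by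
        rw [Hd _ (k0 m) p hp', Hd _ (k0 m) p hp', Hd _ (e0 m) p hp', Hd _ (e0 m) p hp', G.b2_dd]
    rw [Finset.sum_sub_distrib, sub_eq_zero] at s3
    simp only [(hΩ z h3).fderiv, _root_.sum_apply, _root_.add_apply,
      _root_.smul_apply, ContinuousLinearMap.smulRight_apply, smul_eq_mul, s4,
      Finset.sum_add_distrib, s3]
  have us : ContDiffOn ℝ ∞ u (Metric.ball (a.φ i y₀) ε) :=
    (contDiffOn_infty_iff_fderiv_of_isOpen Metric.isOpen_ball).2
      ⟨fun z hz => (hu z hz).differentiableAt.differentiableWithinAt,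
        ContDiffOn.congr (fun z hz => (Ωs z (hb z hz).2).contDiffWithinAt)
          fun z hz => (hu z hz).fderiv⟩
  obtain ⟨f, f1, f2⟩ := PerA_cut ((a.φ i).map_source hi) Metric.isOpen_ball
    (Metric.mem_ball_self hε) us
  obtain ⟨s, hs, f3⟩ := l.fn' f f1
  refine ⟨s, hs, ?_⟩
  filter_upwards [(a.φ i).open_source.mem_nhds hi,
    (a.φ i).continuousAt hi (Metric.ball_mem_nhds _ hε),
    ((a.φ i).continuousAt hi).eventually f2.eventually_nhds] with y hy hy' hy''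
  rintro p rfl β
  refine congrFun (Base.mapA_ext (x := fun β => B.ev (c β) p) (y := fun β => B.ev (G.D β s) p)
    fun v => ?_) β
  have e1 := l.dv_eq i p hy s hs f f3 v
  rw [Filter.EventuallyEq.fderiv_eq hy'', (hu _ hy').fderiv] at e1
  refine Eq.trans ?_ e1.symm
  simp only [Ω, _root_.sum_apply, _root_.smul_apply, smul_eq_mul,
    Hd _ (e0 _) p hy]
  conv_lhs => enter [2, α]; rw [G.form1_eq c α]
  simp only [hH, (a.φ i).left_inv hy, ← PerA_ev l (k0 _), ← hk,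
    map_sum (B.ev) _ (Finset.univ : Finset (Fin G.N)), map_mul,
    ContinuousMap.sum_apply, ContinuousMap.mul_apply, Calc.dv, Finset.mul_sum]
  rw [Finset.sum_comm]
  exact Finset.sum_congr rfl fun _ _ => Finset.sum_congr rfl fun _ _ => by ring

theorem PerA_glue [SimplyConnectedSpace U] [LocallyPathConnectedSpace U] {ι : Type}
    {N : ι → Set U} (hN : ∀ i, IsOpen (N i)) (hc : ∀ x, ∃ i, x ∈ N i) {u : ι → U → ℝ}
    (h : ∀ i j, ∀ x ∈ N i ∩ N j, ∀ᶠ y in 𝓝 x, u i y - u j y = u i x - u j x) :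
    ∃ g : U → ℝ, ∀ i, ∀ x ∈ N i, ∀ᶠ y in 𝓝 x, g y = g x - u i x + u i y := by
  obtain ⟨x₁⟩ : Nonempty U := inferInstance
  have hq := CechT_cover hN hc h
  obtain ⟨F, ⟨-, hF⟩, -⟩ := hq.isCoveringMap.existsUnique_continuousMap_lifts
    (ContinuousMap.id U) x₁ ⟨x₁, 0⟩ rfl
  have hpt : ∀ x, (F x).pt = x := fun x => congrFun hF x
  refine ⟨fun x => (F x).val, fun i x hx => ?_⟩
  have := F.continuous.continuousAt (x := x) ((CechT_open hN h i ((F x).val - u i x)).mem_nhds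
    ⟨by rwa [hpt], by rw [hpt, sub_add_cancel]⟩)
  filter_upwards [this] with y hy
  have h2 : (F y).val = (F x).val - u i x + u i (F y).pt := hy.2
  rwa [hpt] at h2

theorem Link.LC.exists_pr [SimplyConnectedSpace U] [LocallyPathConnectedSpace U] {G : Calc B}
    {l : Link a G} (hq : IsLocalHomeomorph q) {η : U → P → Fin 4 → ℂ} (h : l.LC q η) :
    ∃ g, l.Pr q η g := by
  have key : ∀ x, ∃ s ∈ B.W 0, ∃ N, IsOpen N ∧ x ∈ N ∧ ∀ y ∈ N, ∀ p, l.π p = q y →
      ∀ β, η y p β = B.ev (G.D β s) p := fun x => by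
    obtain ⟨c, hc, h1⟩ := h x
    obtain ⟨s, hs, h2⟩ := PerA_prim l hc (PerA_down hq
      (r := fun y => ∀ p, l.π p = y → ∀ β γ, B.ev (G.d1 c β γ) p = 0)
      (h1.mono fun y hy p hp => (hy p hp).2))
    obtain ⟨N, h3, h4, h5⟩ :=
      eventually_nhds_iff.1 (h1.and (hq.continuous.continuousAt.eventually h2))
    exact ⟨s, hs, N, h4, h5, fun y hy p hp β =>
      (((h3 y hy).1 p hp).1 β).trans ((h3 y hy).2 p hp β)⟩
  choose s hs N hN hx hη using key
  have lc : ∀ i j, ∀ x ∈ N i ∩ N j, ∀ᶠ y in 𝓝 x, PerAf l (s i) (q y) - PerAf l (s j) (q y) =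
      PerAf l (s i) (q x) - PerAf l (s j) (q x) := fun i j x hx' =>
    hq.continuous.continuousAt.eventually (PerA_lc l (hs i) (hs j) (PerA_down hq
      (r := fun y => ∀ p, l.π p = y → ∀ α, B.ev (G.D α (s i)) p = B.ev (G.D α (s j)) p)
      (by
        filter_upwards [((hN i).inter (hN j)).mem_nhds hx'] with y hy p hp α
        rw [← hη i y hy.1 p hp, ← hη j y hy.2 p hp])))
  obtain ⟨g₁, h₁⟩ := PerA_glue hN (fun x => ⟨x, hx x⟩) (u := fun i y => (PerAf l (s i) (q y)).re)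
    fun i j x hx' => (lc i j x hx').mono fun y hy => congrArg Complex.re hy
  obtain ⟨g₂, h₂⟩ := PerA_glue hN (fun x => ⟨x, hx x⟩) (u := fun i y => (PerAf l (s i) (q y)).im)
    fun i j x hx' => (lc i j x hx').mono fun y hy => congrArg Complex.im hy
  refine ⟨fun y => ⟨g₁ y, g₂ y⟩, fun x => ⟨algebraMap ℂ A (⟨g₁ x, g₂ x⟩ - PerAf l (s x) (q x)) + s x,
    add_mem (B.algebraMap_mem _) (hs x), ?_⟩⟩
  filter_upwards [(hN x).mem_nhds (hx x), h₁ x x (hx x), h₂ x x (hx x)] with y hy e₁ e₂ p hp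
  refine ⟨?_, fun β => by rw [map_add, G.D_algebraMap, zero_add, hη x y hy p hp]⟩
  rw [map_add, AlgHomClass.commutes, ContinuousMap.add_apply, PerA_ev l (hs x), hp]
  exact Complex.ext (by simpa using e₁) (by simpa using e₂)

theorem Link.Pr.const [ConnectedSpace U] {G : Calc B} {l : Link a G} (hq : IsLocalHomeomorph q)
    {η : U → P → Fin 4 → ℂ} {g g' : U → ℂ} (h : l.Pr q η g) (h' : l.Pr q η g') :
    ∃ c, ∀ x, g x = g' x + c := by
  have key : IsLocallyConstant fun x => g x - g' x := by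
    refine (IsLocallyConstant.iff_eventually_eq _).2 fun x => ?_
    obtain ⟨s, hs, h1⟩ := h x
    obtain ⟨t, ht, h2⟩ := h' x
    have h3 := hq.continuous.continuousAt.eventually (PerA_lc l hs ht (PerA_down hq
      (r := fun y => ∀ p, l.π p = y → ∀ α, B.ev (G.D α s) p = B.ev (G.D α t) p)
      ((h1.and h2).mono fun y hy p hp α => ((hy.1 p hp).2 α).symm.trans ((hy.2 p hp).2 α))))
    filter_upwards [h3, PerA_g h1, PerA_g h2] with y e1 e2 e3
    rw [e2, e3, e1, (PerA_g h1).self_of_nhds, (PerA_g h2).self_of_nhds]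
  obtain ⟨c, hc⟩ := key.exists_eq_const
  exact ⟨c, fun x => by rw [← show g x - g' x = c from congrFun hc x, add_sub_cancel]⟩

theorem Link.Pr.continuous {G : Calc B} {l : Link a G} (hq : Continuous q)
    {η : U → P → Fin 4 → ℂ} {g : U → ℂ} (h : l.Pr q η g) : Continuous g := by
  refine continuous_iff_continuousAt.2 fun x => ?_
  obtain ⟨s, hs, h1⟩ := h x
  exact ((PerA_sm l hs).continuous.comp hq).continuousAt.congr
    ((PerA_g h1).mono fun y hy => hy.symm)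

theorem Link.Pr.descend {G : Calc B} {l : Link a G} (hq : IsLocalHomeomorph q)
    (hs : Function.Surjective q) {η : U → P → Fin 4 → ℂ} {g : U → ℂ} (h : l.Pr q η g)
    (hg : ∀ x y, q x = q y → g x = g y) : ∃ s ∈ B.W 0, ∀ y p, l.π p = q y →
      g y = B.ev s p ∧ ∀ β, η y p β = B.ev (G.D β s) p := by
  have e : ∀ y, g (Function.surjInv hs (q y)) = g y := fun y => hg _ _ (Function.surjInv_eq hs _)
  have key : ∀ x, ∃ t ∈ B.W 0, (fun y => g (Function.surjInv hs y)) =ᶠ[𝓝 (q x)] PerAf l t ∧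
      ∀ p, l.π p = q x → ∀ β, η x p β = B.ev (G.D β t) p := fun x => by
    obtain ⟨t, ht, h1⟩ := h x
    exact ⟨t, ht, PerA_down hq (r := fun y => g (Function.surjInv hs y) = PerAf l t y)
      ((PerA_g h1).mono fun y hy => (e y).trans hy), fun p hp => (h1.self_of_nhds p hp).2⟩
  obtain ⟨s, s0, h1⟩ := l.fn' (fun y => g (Function.surjInv hs y)) fun i z hz => by
    obtain ⟨x, hx⟩ := hs ((a.φ i).symm z)
    obtain ⟨t, ht, h2, -⟩ := key x
    rw [hx] at h2
    exact ((PerA_at (PerA_sm l ht) hz).congr_of_eventuallyEq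
      (((a.φ i).continuousAt_symm hz).eventually h2)).contDiffWithinAt
  refine ⟨s, s0, fun y p hp => ⟨by rw [h1, hp, e], fun β => ?_⟩⟩
  obtain ⟨t, ht, h2, h3⟩ := key y
  have e2 : PerAf l s = fun y => g (Function.surjInv hs y) := funext fun y => by
    rw [PerAf, h1, Function.surjInv_eq l.π_surj]
  rw [h3 p hp]
  exact (PerA_D_eq l s0 ht (by rw [e2, hp]; exact h2) β).symm

theorem Link.Pr.exp {G : Calc B} {l : Link a G} (hq : IsLocalHomeomorph q)
    {η : U → P → Fin 4 → ℂ} {g : U → ℂ} (h : l.Pr q η g) :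
    l.Pr q (fun y p β => Complex.exp (g y) * η y p β) fun y => Complex.exp (g y) := by
  intro x
  obtain ⟨s, hs, h1⟩ := h x
  obtain ⟨t, ht, h2⟩ := l.fn' (fun y => Complex.exp (PerAf l s y)) fun i => (PerA_sm l hs i).cexp
  refine ⟨t, ht, h1.mono fun y hy p hp => ?_⟩
  obtain ⟨h3, h4⟩ := hy p hp
  refine ⟨by rw [h2, ← PerA_ev l hs, ← h3], fun β => ?_⟩
  obtain ⟨i, hi⟩ := a.cover (l.π p)
  refine congrFun (Base.mapA_ext (x := fun β => Complex.exp (g y) * η y p β)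
    (y := fun β => B.ev (G.D β t) p) fun v => ?_) β
  have e1 := l.dv_eq i p hi t ht (fun y => Complex.exp (PerAf l s y)) h2 v
  rw [((PerA_at (PerA_sm l hs) ((a.φ i).map_source hi)).differentiableAt
    (by simp)).hasFDerivAt.cexp.fderiv, _root_.smul_apply, ← PerA_dv l hi hs,
    (a.φ i).left_inv hi, ← PerA_ev l hs, ← h3] at e1
  refine Eq.trans ?_ e1.symm
  simp only [h4, Calc.dv, smul_eq_mul, Finset.mul_sum]
  exact Finset.sum_congr rfl fun _ _ => by ring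

theorem Link.Pr.comp {G : Pre B} {l : Link a G.toCalc} {c : Fin 4 → A} (hc : B.Form1 c)
    {g : U → ℂ} (h : l.Pr q (B.up U c) g) (f : Map G) {F : U → U} (hF : Continuous F)
    (e : ∀ z x, l.π z = q x → l.π (f.pt z) = q (F x)) (hq : IsLocalHomeomorph q) :
    l.Pr q (B.up U (f.pull1 c)) (g ∘ F) := by
  intro x
  obtain ⟨s, hs, h1⟩ := h (F x)
  refine ⟨f.Φ s, f.mem s hs, (hF.continuousAt.eventually h1).mono fun y hy p hp => ?_⟩
  obtain ⟨h2, h3⟩ := hy (f.pt p) (e p y hp)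
  refine ⟨by rw [f.ev_eq s hs, ← h2]; rfl, fun β => ?_⟩
  refine congrFun (Base.mapA_ext (x := fun β => B.ev (f.pull1 c β) p)
    (y := fun β => B.ev (G.D β (f.Φ s)) p) fun v => ?_) β
  rw [f.ev_pull1 hc]
  refine Eq.trans ?_ (f.chain s hs p v).symm
  exact Finset.sum_congr rfl fun α _ => congrArg _ (h3 α)

end SX4
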