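import Pool.Agent.P.MP_0a0487_an.SX.PerA

/-! Closed forms with prescribed periods. -/

set_option autoImplicit false
set_option linter.unusedSectionVars false

noncomputable section

namespace SX4

open scoped ComplexOrder ContDiff
open Filter Topology Matrix

variable {P A : Type} [TopologicalSpace P] [CompactSpace P] [CommRing A] [StarRing A] [Algebra ℂ A]
  [StarModule ℂ A] {B : Base P A}

variable {Y U : Type} [TopologicalSpace Y] [TopologicalSpace U] [CompactSpace Y] [T2Space Y]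
  {a : Fr Y} {q : U → Y}

theorem PerB_sm_loc (a : Fr Y) {f : Y → ℝ}
    (h : ∀ y, ∃ f' : Y → ℝ, a.Sm f' ∧ ∀ᶠ y' in 𝓝 y, f y' = f' y') : a.Sm f := by
  intro i z hz
  obtain ⟨f', hf', he⟩ := h ((a.φ i).symm z)
  have h1 : ContDiffAt ℝ ∞ (fun y => f' ((a.φ i).symm y)) z :=
    (hf' i).contDiffAt ((a.φ i).open_target.mem_nhds hz)
  exact (h1.congr_of_eventuallyEq (((a.φ i).continuousAt_symm hz).eventually he)).contDiffWithinAt

theorem PerB_pou (a : Fr Y) {ι : Type} [Fintype ι] (V : ι → Set Y) (hV : ∀ i, IsOpen (V i))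
    (hc : ∀ y, ∃ i, y ∈ V i) :
    ∃ τ : ι → Y → ℝ, (∀ i, a.Sm (τ i)) ∧ (∀ y, ∑ i, τ i y ^ 2 = 1) ∧
      ∀ i y, y ∉ V i → ∀ᶠ y' in 𝓝 y, τ i y' = 0 := by
  have he : Continuous a.e := a.sm_e.continuous
  have hemb : IsClosedEmbedding a.e := he.isClosedEmbedding a.e_inj
  choose W hW hWV using fun i => hemb.isInducing.isOpen_iff.1 (hV i)
  obtain ⟨f, hf⟩ := SmoothPartitionOfUnity.exists_isSubordinate
    (modelWithCornersSelf ℝ (Fin a.N → ℝ)) hemb.isClosed_range W hW (by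
      rintro _ ⟨y, rfl⟩
      obtain ⟨i, hi⟩ := hc y
      rw [← hWV] at hi
      exact Set.mem_iUnion.2 ⟨i, hi⟩)
  have hb : ∀ i, a.Sm fun y => f i (a.e y) := fun i m =>
    (f i).contMDiff.contDiff.comp_contDiffOn (a.e_sm m)
  have hpos : ∀ y, 0 < ∑ i, f i (a.e y) ^ 2 := by
    intro y
    obtain ⟨i, hi⟩ := f.exists_pos_of_mem (Set.mem_range_self (f := a.e) y)
    exact Finset.sum_pos' (fun j _ => sq_nonneg _) ⟨i, Finset.mem_univ _, pow_pos hi 2⟩
  refine ⟨fun i y => f i (a.e y) / √(∑ j, f j (a.e y) ^ 2), fun i m => ?_, fun y => ?_,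
    fun i y hy => ?_⟩
  · exact (hb i m).div ((ContDiffOn.sum fun j _ => (hb j m).pow 2).sqrt
      fun z _ => (hpos _).ne') fun z _ => (Real.sqrt_pos.2 (hpos _)).ne'
  · simp only [div_pow, Real.sq_sqrt (hpos y).le]
    rw [← Finset.sum_div, div_self (hpos y).ne']
  · rw [← hWV] at hy
    have h1 : a.e y ∉ tsupport (f i) := fun h => hy (hf i h)
    have h2 := notMem_tsupport_iff_eventuallyEq.1 h1
    refine (he.continuousAt.eventually h2).mono fun y' hy' => ?_
    have h3 : f i (a.e y') = 0 := hy'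
    simp only [h3, zero_div]

theorem PerB_core (a : Fr Y) {Γ : Type} [Group Γ] [MulAction Γ U]
    (hq : IsQuotientCoveringMap q Γ) :
    ∃ (ι : Type) (_ : Fintype ι) (τ : ι → Y → ℝ) (k : ι → U → Γ), (∀ i, a.Sm (τ i)) ∧
      (∀ y, ∑ i, τ i y ^ 2 = 1) ∧
      (∀ i (γ : Γ) x, τ i (q x) = 0 ∨ k i (γ • x) = γ * k i x) ∧
      ∀ i x, ∀ᶠ x' in 𝓝 x, τ i (q x') = 0 ∨ k i x' = k i x := by
  classical
  have hop : IsOpenMap q := hq.isOpenQuotientMap.isOpenMap
  have hcs : ContinuousConstSMul Γ U := hq.toContinuousConstSMul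
  have h0 : ∀ x : U, ∃ O : Set U, IsOpen O ∧ x ∈ O ∧
      ∀ (γ γ' : Γ) z, γ⁻¹ • z ∈ O → γ'⁻¹ • z ∈ O → γ = γ' := by
    intro x
    obtain ⟨O, hO, hd⟩ := hq.disjoint x
    refine ⟨interior O, isOpen_interior, mem_interior_iff_mem_nhds.2 hO, fun γ γ' z h h' => ?_⟩
    have h1 := hd (γ'⁻¹ * γ) ⟨γ'⁻¹ • z, ⟨γ⁻¹ • z, interior_subset h, by
      simp [mul_smul]⟩, interior_subset h'⟩
    exact (inv_mul_eq_one.1 h1).symm
  choose O hO hxO hu using h0
  obtain ⟨t, ht⟩ := isCompact_univ.elim_finite_subcover (fun x : U => q '' O x)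
    (fun x => hop _ (hO x)) (by
      intro y _
      obtain ⟨x, rfl⟩ := hq.surjective y
      exact Set.mem_iUnion.2 ⟨x, x, hxO x, rfl⟩)
  obtain ⟨τ, hτ, h1, h2⟩ := PerB_pou a (fun i : t => q '' O i) (fun i => hop _ (hO i)) (by
    intro y
    obtain ⟨x, hx, hy⟩ := Set.mem_iUnion₂.1 (ht (Set.mem_univ y))
    exact ⟨⟨x, hx⟩, hy⟩)
  let k : t → U → Γ := fun i x => if h : ∃ γ : Γ, γ⁻¹ • x ∈ O i then h.choose else 1
  have hk : ∀ (i : t) (γ : Γ) x, γ⁻¹ • x ∈ O i → k i x = γ := by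
    intro i γ x hx
    have h : ∃ γ : Γ, γ⁻¹ • x ∈ O i := ⟨γ, hx⟩
    simp only [k, dif_pos h]
    exact hu i _ _ x h.choose_spec hx
  have hex : ∀ (i : t) x, q x ∈ q '' O i → ∃ γ : Γ, γ⁻¹ • x ∈ O i := by
    rintro i x ⟨z, hz, hzx⟩
    obtain ⟨γ, hγ⟩ := hq.apply_eq_iff_mem_orbit.1 hzx
    refine ⟨γ⁻¹, ?_⟩
    have hγ' : γ • x = z := hγ
    rwa [inv_inv, hγ']
  refine ⟨t, inferInstance, τ, k, hτ, h1, fun i γ x => ?_, fun i x => ?_⟩
  · by_cases h : q x ∈ q '' O i
    · obtain ⟨δ, hδ⟩ := hex i x h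
      right
      rw [hk i δ x hδ]
      refine hk i _ _ ?_
      rwa [_root_.mul_inv_rev, mul_smul, inv_smul_smul]
    · exact Or.inl (h2 i _ h).self_of_nhds
  · by_cases h : q x ∈ q '' O i
    · obtain ⟨δ, hδ⟩ := hex i x h
      have h3 : ∀ᶠ x' in 𝓝 x, δ⁻¹ • x' ∈ O i :=
        (continuous_const_smul δ⁻¹).continuousAt.eventually ((hO i).mem_nhds hδ)
      refine h3.mono fun x' hx' => Or.inr ?_
      rw [hk i δ x hδ, hk i δ x' hx']
    · exact (hq.continuous.continuousAt.eventually (h2 i _ h)).mono fun x' hx' => Or.inl hx'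

theorem PerB_equiv {Γ : Type} [Group Γ] [MulAction Γ U] (hq : IsQuotientCoveringMap q Γ)
    {ι : Type} [Fintype ι] {τ : ι → Y → ℝ} {k : ι → U → Γ} (h1 : ∀ y, ∑ i, τ i y ^ 2 = 1)
    (h2 : ∀ i (γ : Γ) x, τ i (q x) = 0 ∨ k i (γ • x) = γ * k i x) {c : Γ → ℝ}
    (hc : ∀ γ γ', c (γ * γ') = c γ + c γ') (γ : Γ) (x : U) :
    ∑ i, τ i (q (γ • x)) ^ 2 * c (k i (γ • x)) = ∑ i, τ i (q x) ^ 2 * c (k i x) + c γ := by
  rw [hq.map_smul, ← one_mul (c γ), ← h1 (q x), Finset.sum_mul, ← Finset.sum_add_distrib]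
  refine Finset.sum_congr rfl fun i _ => ?_
  rcases h2 i γ x with h | h
  · simp [h]
  · rw [h, hc]
    ring

theorem PerB_fn {G : Calc B} (l : Link a G) {f : Y → ℝ} (hf : a.Sm f) :
    ∃ s, B.Re0 s ∧ ∀ p, B.ev s p = (f (l.π p) : ℂ) := by
  obtain ⟨s, hs, he⟩ := l.fn' (fun y => (f y : ℂ))
    fun i => Complex.ofRealCLM.contDiff.comp_contDiffOn (hf i)
  exact ⟨s, B.re0_iff.2 ⟨hs, fun p => by rw [he, Complex.ofReal_im]⟩, he⟩

theorem PerB_loc {G : Calc B} (l : Link a G) {u : A} {p : P}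
    (h : ∀ᶠ y in 𝓝 (l.π p), ∀ p', l.π p' = y → B.ev u p' = 0) (α : Fin 4) :
    B.ev (G.D α u) p = 0 := by
  obtain ⟨O, hO, hop, hpO⟩ := eventually_nhds_iff.1 h
  let V : Bool → Set Y := fun b => if b then {y | y ∈ O} else {l.π p}ᶜ
  obtain ⟨τ, hτ, h1, h2⟩ := PerB_pou a V (by
    intro b
    cases b
    · exact isOpen_compl_singleton
    · exact hop) (by
    intro y
    by_cases hy : y = l.π p
    · exact ⟨true, hy ▸ hpO⟩
    · exact ⟨false, hy⟩)
  obtain ⟨s, -, hs⟩ := PerB_fn l (hτ true)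
  have h3 : s * u = 0 := by
    refine B.ext' fun p' => ?_
    rw [map_mul, map_zero, ContinuousMap.mul_apply, ContinuousMap.zero_apply, hs]
    by_cases hy : l.π p' ∈ O
    · rw [hO _ hy p' rfl, mul_zero]
    · rw [(h2 true _ hy).self_of_nhds]
      simp
  have h4 : τ true (l.π p) ≠ 0 := by
    intro h5
    have h6 := h1 (l.π p)
    have h7 : τ false (l.π p) = 0 := (h2 false _ fun h => h rfl).self_of_nhds
    simp [h5, h7] at h6
  have h5 := congrArg (fun v => B.ev (G.D α v) p) h3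
  simp only [G.D_mul, map_add, map_mul, map_zero, ContinuousMap.add_apply, ContinuousMap.mul_apply,
    ContinuousMap.zero_apply, hs, hO _ hpO p rfl, mul_zero, zero_add] at h5
  exact (mul_eq_zero.1 h5).resolve_left (by exact_mod_cast h4)

theorem Link.exists_alb {G : Calc B} (l : Link a G) {Γ : Type} [Group Γ] [MulAction Γ U]
    (hq : IsQuotientCoveringMap q Γ) {c : Γ → ℝ} (hc : ∀ γ γ', c (γ * γ') = c γ + c γ') :
    ∃ (w : Fin 4 → A) (g : U → ℝ), B.Re1 w ∧ G.d1 w = 0 ∧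
      l.Pr q (B.up U w) (fun x => g x) ∧ ∀ (γ : Γ) x, g (γ • x) = g x + c γ := by
  obtain ⟨ι, _, τ, k, hτ, h1, h2, h3⟩ := PerB_core a hq
  have hop : IsOpenMap q := hq.isOpenQuotientMap.isOpenMap
  have hsurj : Function.Surjective q := hq.surjective
  let g : U → ℝ := fun x => ∑ i, τ i (q x) ^ 2 * c (k i x)
  have hg : ∀ (γ : Γ) x, g (γ • x) = g x + c γ := PerB_equiv hq h1 h2 hc
  have hloc : ∀ x, ∀ᶠ x' in 𝓝 x, ∀ i, τ i (q x') * c (k i x') = τ i (q x') * c (k i x) := by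
    intro x
    refine eventually_all.2 fun i => (h3 i x).mono fun x' hx' => ?_
    rcases hx' with h | h <;> simp [h]
  have hgl : ∀ x x', (∀ i, τ i (q x') * c (k i x') = τ i (q x') * c (k i x)) →
      g x' = ∑ i, τ i (q x') ^ 2 * c (k i x) := by
    intro x x' h
    refine Finset.sum_congr rfl fun i _ => ?_
    linear_combination τ i (q x') * h i
  let σ : Y → U := Function.surjInv hsurj
  let F : ι → Y → ℝ := fun i y => 2 * ((c (k i (σ y)) - g (σ y)) * τ i y)
  have hF : ∀ i x, F i (q x) = 2 * ((c (k i x) - g x) * τ i (q x)) := by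
    intro i x
    obtain ⟨γ, hγ⟩ := hq.apply_eq_iff_mem_orbit.1 (Function.surjInv_eq hsurj (q x))
    have hγ' : σ (q x) = γ • x := hγ.symm
    simp only [F, hγ']
    rcases h2 i γ x with h | h
    · simp [h]
    · rw [h, hc, hg]
      ring
  have hFl : ∀ x x', (∀ i, τ i (q x') * c (k i x') = τ i (q x') * c (k i x)) → ∀ i,
      F i (q x') = 2 * ((c (k i x) - ∑ j, τ j (q x') ^ 2 * c (k j x)) * τ i (q x')) := by
    intro x x' h i
    rw [hF, hgl x x' h]
    linear_combination 2 * h i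
  have hFs : ∀ i, a.Sm (F i) := by
    intro i
    refine PerB_sm_loc a fun y => ?_
    obtain ⟨x, rfl⟩ := hsurj y
    refine ⟨fun y => 2 * ((c (k i x) - ∑ j, τ j y ^ 2 * c (k j x)) * τ i y), fun m => ?_, ?_⟩
    · exact contDiffOn_const.mul ((contDiffOn_const.sub (ContDiffOn.sum fun j _ =>
        ((hτ j m).pow 2).mul contDiffOn_const)).mul (hτ i m))
    · refine Eventually.filter_mono (hop.nhds_le x) ?_
      rw [eventually_map]
      exact (hloc x).mono fun x' hx' => hFl x x' hx' i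
  choose T hT hTe using fun i => PerB_fn l (hτ i)
  choose M hM hMe using fun i => PerB_fn l (hFs i)
  have hsum : ∑ i, T i * T i = 1 := by
    refine B.ext' fun p => ?_
    simp only [map_sum, map_mul, map_one, ContinuousMap.sum_apply, ContinuousMap.mul_apply,
      ContinuousMap.one_apply, hTe]
    have := congrArg (fun t : ℝ => (t : ℂ)) (h1 (l.π p))
    simpa [pow_two] using this
  have hD : ∀ β p, ∑ i, (τ i (l.π p) : ℂ) * B.ev (G.D β (T i)) p = 0 := by
    intro β p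
    have h4 := congrArg (fun u => B.ev (G.D β u) p) hsum
    simp only [map_sum, G.D_mul, G.D_one, map_add, map_mul, map_zero, ContinuousMap.sum_apply,
      ContinuousMap.add_apply, ContinuousMap.mul_apply, ContinuousMap.zero_apply, hTe] at h4
    have h5 : 2 * ∑ i, (τ i (l.π p) : ℂ) * B.ev (G.D β (T i)) p = 0 := by
      rw [← h4, Finset.mul_sum]
      exact Finset.sum_congr rfl fun i _ => by ring
    simpa using h5
  let w : Fin 4 → A := fun β => ∑ i, M i * G.D β (T i)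
  let s : U → A := fun x => ∑ i, (c (k i x) : ℂ) • (T i * T i)
  have hs : ∀ x, s x ∈ B.W 0 := fun x =>
    Submodule.sum_mem _ fun i _ => Submodule.smul_mem _ _
      (B.mul_mem' (hT i).1 (hT i).1 (add_zero _))
  have key : ∀ x, ∀ᶠ x' in 𝓝 x, ∀ p, l.π p = q x' →
      (g x' : ℂ) = B.ev (s x) p ∧ ∀ β, B.ev (w β) p = B.ev (G.D β (s x)) p := by
    intro x
    refine (hloc x).mono fun x' hx' p hp => ⟨?_, fun β => ?_⟩
    · rw [hgl x x' hx']
      simp only [s, map_sum, map_smul, map_mul, ContinuousMap.sum_apply, ContinuousMap.smul_apply,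
        ContinuousMap.mul_apply, hTe, hp, smul_eq_mul]
      push_cast
      exact Finset.sum_congr rfl fun i _ => by ring
    · have h6 := hD β p
      simp only [w, s, map_sum, map_smul, G.D_mul, map_add, map_mul, ContinuousMap.sum_apply,
        ContinuousMap.smul_apply, ContinuousMap.add_apply, ContinuousMap.mul_apply, hTe, hMe, hp,
        smul_eq_mul, hFl x x' hx']
      rw [hp] at h6
      generalize ∑ j, τ j (q x') ^ 2 * c (k j x) = S
      push_cast
      rw [← sub_eq_zero, ← Finset.sum_sub_distrib]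
      rw [← mul_zero (-2 * (S : ℂ)), ← h6, Finset.mul_sum]
      exact Finset.sum_congr rfl fun i _ => by ring
  refine ⟨w, g, fun β => ⟨?_, ?_⟩, ?_, fun x => ⟨s x, hs x, key x⟩, hg⟩
  · exact Submodule.sum_mem _ fun i _ =>
      B.mul_mem' (hM i).1 (G.d0_form (hT i).1 β) (zero_add _)
  · simp only [w, star_sum, star_mul', G.D_star, (hM _).2, (hT _).2]
  · funext β γ
    refine B.ext' fun p => ?_
    obtain ⟨x, hx⟩ := hsurj (l.π p)
    have h7 : ∀ β, ∀ᶠ y in 𝓝 (l.π p), ∀ p', l.π p' = y → B.ev ((w - G.d0 (s x)) β) p' = 0 := by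
      intro β
      rw [← hx]
      refine Eventually.filter_mono (hop.nhds_le x) ?_
      rw [eventually_map]
      refine (key x).mono fun x' hx' p' hp' => ?_
      rw [Pi.sub_apply, map_sub, ContinuousMap.sub_apply, (hx' p' hp').2 β]
      exact sub_self _
    have h8 : w = (w - G.d0 (s x)) + G.d0 (s x) := (sub_add_cancel _ _).symm
    rw [h8, G.d1_add, G.d1_d0 (hs x), add_zero]
    simp only [Calc.d1, map_sub, map_sum, map_mul, ContinuousMap.sub_apply,
      ContinuousMap.sum_apply, ContinuousMap.mul_apply, PerB_loc l (h7 _),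
      fun β => (h7 β).self_of_nhds p rfl]
    simp

theorem Fr.exists_alb (a : Fr Y) {Γ : Type} [Group Γ] [MulAction Γ U]
    (hq : IsQuotientCoveringMap q Γ) {b : ℕ} {c : Γ → Fin b → ℤ}
    (hc : ∀ γ γ', c (γ * γ') = c γ + c γ') :
    ∃ y : U → Fin b → ℝ, Continuous y ∧ ∀ (γ : Γ) x i, y (γ • x) i = y x i + c γ i := by
  obtain ⟨ι, _, τ, k, hτ, h1, h2, h3⟩ := PerB_core a hq
  refine ⟨fun x j => ∑ i, τ i (q x) ^ 2 * (c (k i x) j : ℝ), ?_, fun γ x j => ?_⟩
  · refine continuous_pi fun j => continuous_iff_continuousAt.2 fun x => ?_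
    have h4 : Continuous fun x' => ∑ i, τ i (q x') ^ 2 * (c (k i x) j : ℝ) :=
      continuous_finsetSum _ fun i _ =>
        (((hτ i).continuous.comp hq.continuous).pow 2).mul continuous_const
    refine h4.continuousAt.congr ?_
    filter_upwards [eventually_all.2 fun i => h3 i x] with x' hx'
    refine Finset.sum_congr rfl fun i _ => ?_
    rcases hx' i with h | h <;> simp [h]
  · exact PerB_equiv hq h1 h2 (c := fun γ => (c γ j : ℝ))
      (fun γ γ' => by simp [hc]) γ x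

end SX4
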