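import Pool.Agent.P.MP_0a0487_an.SX.PerB

/-! Periods of closed forms. -/

set_option autoImplicit false
set_option linter.unusedSectionVars false

noncomputable section

namespace SX4

open scoped ComplexOrder ContDiff
open Filter Topology Matrix

variable {P A : Type} [TopologicalSpace P] [CompactSpace P] [CommRing A] [StarRing A] [Algebra ℂ A]
  [StarModule ℂ A] {B : Base P A}

variable {Y U : Type} [TopologicalSpace Y] [TopologicalSpace U] [CompactSpace Y] [T2Space Y]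
  {a : Fr Y} {q : U → Y}

/-- The action of a one-parameter unipotent group on sequences. -/
def PerCtw (t : ℂ) (u : ℕ → ℂ) (n : ℕ) : ℂ :=
  ∑ i ∈ Finset.range (n + 1), t ^ i / (i.factorial : ℂ) * u (n - i)

theorem PerCtw_add (t t' : ℂ) (u : ℕ → ℂ) : PerCtw (t + t') u = PerCtw t (PerCtw t' u) := by
  have key : ∀ (t : ℂ) (u : ℕ → ℂ), PowerSeries.mk (PerCtw t u) =
      PowerSeries.rescale t (PowerSeries.exp ℂ) * PowerSeries.mk u := fun t u => by
    ext n
    rw [PowerSeries.coeff_mul, Finset.Nat.sum_antidiagonal_eq_sum_range_succ_mk]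
    simp [PerCtw, div_eq_mul_inv]
  funext n
  have := congrArg (PowerSeries.coeff n) ((key (t + t') u).trans
    (by rw [← PowerSeries.exp_mul_exp_eq_exp_add, mul_assoc, ← key, ← key]))
  simpa using this

section Alg

variable {G : Calc B} {l : Link a G} {η η' : U → P → Fin 4 → ℂ} {g g' : U → ℂ}

theorem Link.Pr.perC_add (h : l.Pr q η g) (h' : l.Pr q η' g') :
    l.Pr q (fun y p β => η y p β + η' y p β) fun y => g y + g' y := fun x => by
  obtain ⟨s, hs, h1⟩ := h x
  obtain ⟨s', hs', h2⟩ := h' x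
  refine ⟨s + s', add_mem hs hs', ?_⟩
  filter_upwards [h1, h2] with y h1 h2 p hp
  simp [h1 p hp, h2 p hp]

theorem Link.Pr.perC_smul (h : l.Pr q η g) (c : ℂ) :
    l.Pr q (fun y p β => c * η y p β) fun y => c * g y := fun x => by
  obtain ⟨s, hs, h1⟩ := h x
  refine ⟨c • s, Submodule.smul_mem _ c hs, ?_⟩
  filter_upwards [h1] with y h1 p hp
  simp [h1 p hp]

theorem Link.Pr.perC_pow (h : l.Pr q η g) (n : ℕ) :
    l.Pr q (fun y p β => n * g y ^ (n - 1) * η y p β) fun y => g y ^ n := fun x => by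
  obtain ⟨s, hs, h1⟩ := h x
  refine ⟨s ^ n, B.pow_mem hs n, ?_⟩
  filter_upwards [h1] with y h1 p hp
  rcases n with _ | n
  · simp [G.D_one]
  · simp [h1 p hp, G.D_pow, mul_assoc]

theorem Link.perC_loc {ι : Type} (S : Finset ι) {η : ι → U → P → Fin 4 → ℂ} {g : ι → U → ℂ}
    (h : ∀ i ∈ S, l.Pr q (η i) (g i)) (x : U) : ∃ s : ι → A, (∀ i, s i ∈ B.W 0) ∧
      ∀ᶠ y in 𝓝 x, ∀ i ∈ S, ∀ p, l.π p = q y →
        g i y = B.ev (s i) p ∧ ∀ β, η i y p β = B.ev (G.D β (s i)) p := by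
  have : ∀ i, ∃ s ∈ B.W 0, i ∈ S → ∀ᶠ y in 𝓝 x, ∀ p, l.π p = q y →
      g i y = B.ev s p ∧ ∀ β, η i y p β = B.ev (G.D β s) p := fun i => by
    by_cases hi : i ∈ S
    · exact (h i hi x).imp fun s hs => ⟨hs.1, fun _ => hs.2⟩
    · exact ⟨0, zero_mem _, fun h => absurd h hi⟩
  choose s hs h1 using this
  exact ⟨s, hs, (eventually_all_finset S).2 h1⟩

theorem Link.perC_sum {ι : Type} (S : Finset ι) {η : ι → U → P → Fin 4 → ℂ} {g : ι → U → ℂ}
    (h : ∀ i ∈ S, l.Pr q (η i) (g i)) (c : ι → ℂ) :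
    l.Pr q (fun y p β => ∑ i ∈ S, c i * η i y p β) fun y => ∑ i ∈ S, c i * g i y := fun x => by
  obtain ⟨s, hs, h1⟩ := l.perC_loc S h x
  refine ⟨∑ i ∈ S, c i • s i, sum_mem fun i _ => Submodule.smul_mem _ _ (hs i), ?_⟩
  filter_upwards [h1] with y h1 p hp
  simp only [map_sum, map_smul, ContinuousMap.sum_apply, ContinuousMap.smul_apply, smul_eq_mul]
  exact ⟨Finset.sum_congr rfl fun i hi => by rw [(h1 i hi p hp).1],
    fun β => Finset.sum_congr rfl fun i hi => by rw [(h1 i hi p hp).2]⟩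

theorem Link.perC_lc {ι : Type} (S : Finset ι) {η : ι → U → P → Fin 4 → ℂ} {g : ι → U → ℂ}
    (h : ∀ i ∈ S, l.Pr q (η i) (g i)) {c : ι → Fin 4 → A} (hc : ∀ i, B.Form1 (c i))
    {c₀ : Fin 4 → A} (h₀ : B.Form1 c₀) (e : ∀ y p β γ, ∑ i ∈ S,
      (η i y p β * B.ev (c i γ) p - η i y p γ * B.ev (c i β) p + g i y * B.ev (G.d1 (c i) β γ) p) +
        B.ev (G.d1 c₀ β γ) p = 0) :
    l.LC q fun y p β => ∑ i ∈ S, g i y * B.ev (c i β) p + B.ev (c₀ β) p := fun x => by
  obtain ⟨s, hs, h1⟩ := l.perC_loc S h x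
  refine ⟨(∑ i ∈ S, fun β => s i * c i β) + c₀, fun β => ?_, ?_⟩
  · rw [Pi.add_apply, Finset.sum_apply]
    exact add_mem (sum_mem fun i _ => B.mul_mem' (hs i) (hc i β) (zero_add _)) (h₀ β)
  filter_upwards [h1] with y h1 p hp
  refine ⟨fun β => ?_, fun β γ => ?_⟩
  · simp only [Pi.add_apply, Finset.sum_apply, map_add, map_sum, map_mul, ContinuousMap.add_apply,
      ContinuousMap.sum_apply, ContinuousMap.mul_apply]
    exact congrArg (· + _) (Finset.sum_congr rfl fun i hi => by rw [(h1 i hi p hp).1])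
  · have e1 := map_sum (AddMonoidHom.mk' (fun c => G.d1 c β γ) fun c c' => G.d1_add c c' β γ)
      (fun i β => s i * c i β) S
    simp only [AddMonoidHom.mk'_apply, G.d1_mul] at e1
    rw [G.d1_add, e1, ← e y p β γ]
    simp only [map_add, map_sum, map_mul, map_sub, w1, Calc.d0, ContinuousMap.add_apply,
      ContinuousMap.sum_apply, ContinuousMap.mul_apply, ContinuousMap.sub_apply]
    exact congrArg (· + _) (Finset.sum_congr rfl fun i hi => by
      rw [(h1 i hi p hp).1, (h1 i hi p hp).2, (h1 i hi p hp).2])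

theorem Link.Pr.perC_shift [ConnectedSpace U] {Γ : Type} [Group Γ] [MulAction Γ U]
    (hq : IsQuotientCoveringMap q Γ) (h : l.Pr q η g) (h' : l.Pr q η' g') (γ : Γ)
    (e : ∀ y p β, η (γ • y) p β = η' y p β) (x₀ x : U) :
    g (γ • x) = g' x + (g (γ • x₀) - g' x₀) := by
  have h1 : l.Pr q η' fun y => g (γ • y) := fun x => by
    obtain ⟨s, hs, h1⟩ := h (γ • x)
    refine ⟨s, hs, ?_⟩
    filter_upwards [(hq.continuous_const_smul γ).continuousAt.eventually h1] with y h1 p hp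
    simpa only [e] using h1 p (hp.trans (hq.map_smul γ).symm)
  obtain ⟨c, hc⟩ := h1.const hq.isCoveringMap.isLocalHomeomorph h'
  rw [hc, hc, add_sub_cancel_left]

end Alg

section Per

variable [SimplyConnectedSpace U] [LocallyPathConnectedSpace U] {G : Pre B}
  (l : Link a G.toCalc) {Γ : Type} [Group Γ] [MulAction Γ U] (hq : IsQuotientCoveringMap q Γ)

include hq

theorem Link.perC_ex (c : G.cx.Z1) : ∃ g, l.Pr q (B.up U c.1.1) g :=
  Link.LC.exists_pr hq.isCoveringMap.isLocalHomeomorph fun _ =>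
    ⟨c.1.1, c.1.2, Eventually.of_forall fun _ p _ => ⟨fun _ => rfl, fun β γ => by
      rw [show G.d1 c.1.1 = 0 from congrArg Subtype.val c.2]
      simp⟩⟩

theorem Link.perC_per : ∃ per : G.cx.Z1 →ₗ[ℂ] Hm Γ, ∀ (c : G.cx.Z1) g, l.Pr q (B.up U c.1.1) g →
    ∀ (γ : Γ) x, g (γ • x) = g x + per c (Additive.ofMul γ) := by
  obtain ⟨x₀⟩ : Nonempty U := inferInstance
  choose g hg using l.perC_ex hq
  have key : ∀ (c : G.cx.Z1) g', l.Pr q (B.up U c.1.1) g' → ∀ (γ : Γ) x,
      g' (γ • x) = g' x + (g c (γ • x₀) - g c x₀) := fun c g' h γ x => by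
    obtain ⟨k, hk⟩ := h.const hq.isCoveringMap.isLocalHomeomorph (hg c)
    rw [hk, hk, (hg c).perC_shift hq (hg c) γ (fun _ _ _ => rfl) x₀ x]
    ring
  refine ⟨⟨⟨fun c => AddMonoidHom.mk' (fun γ => g c (γ.toMul • x₀) - g c x₀) fun γ γ' => ?_,
    fun c c' => ?_⟩, fun z c => ?_⟩, key⟩
  · rw [toMul_add, mul_smul, key c _ (hg c)]
    ring
  · refine AddMonoidHom.ext fun γ => ?_
    have := key (c + c') (fun y => g c y + g c' y) (by
      convert (hg c).perC_add (hg c') using 1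
      funext y p β
      simp [Base.up]) γ.toMul x₀
    simp only [AddMonoidHom.mk'_apply, AddMonoidHom.add_apply]
    linear_combination -this
  · refine AddMonoidHom.ext fun γ => ?_
    have := key (z • c) (fun y => z * g c y) (by
      convert (hg c).perC_smul z using 1
      funext y p β
      simp [Base.up]) γ.toMul x₀
    simp only [AddMonoidHom.mk'_apply, AddMonoidHom.smul_apply, RingHom.id_apply, smul_eq_mul]
    linear_combination -this

variable {per : G.cx.Z1 →ₗ[ℂ] Hm Γ} (hper : ∀ (c : G.cx.Z1) g, l.Pr q (B.up U c.1.1) g →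
    ∀ (γ : Γ) x, g (γ • x) = g x + per c (Additive.ofMul γ))

include hper

theorem Link.perC_surj : Function.Surjective per := fun h => by
  obtain ⟨x₀⟩ : Nonempty U := inferInstance
  obtain ⟨w, g, hw, dw, hg, eg⟩ := l.exists_alb hq (c := fun γ => (h (Additive.ofMul γ)).re)
    fun γ γ' => by simp
  obtain ⟨w', g', hw', dw', hg', eg'⟩ := l.exists_alb hq (c := fun γ => (h (Additive.ofMul γ)).im)
    fun γ γ' => by simp
  let c : G.cx.Z1 := ⟨⟨w, fun α => (hw α).1⟩, Subtype.ext dw⟩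
  let c' : G.cx.Z1 := ⟨⟨w', fun α => (hw' α).1⟩, Subtype.ext dw'⟩
  refine ⟨c + Complex.I • c', AddMonoidHom.ext fun γ => ?_⟩
  have h1 := hper c _ hg γ.toMul x₀
  have h2 := hper c' _ hg' γ.toMul x₀
  simp only [eg, eg', Complex.ofReal_add, add_right_inj, ofMul_toMul] at h1 h2
  rw [map_add, map_smul, AddMonoidHom.add_apply, AddMonoidHom.smul_apply, ← h1, ← h2, smul_eq_mul,
    mul_comm, Complex.re_add_im]

theorem Link.perC_ker (c : G.cx.Z1) : per c = 0 ↔ (c : B.F1) ∈ LinearMap.range G.cx.d0 := by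
  constructor
  · intro h
    obtain ⟨g, hg⟩ := l.perC_ex hq c
    obtain ⟨s, hs, e⟩ := hg.descend hq.isCoveringMap.isLocalHomeomorph hq.surjective
      fun x y hxy => by
        obtain ⟨γ, rfl⟩ := hq.apply_eq_iff_mem_orbit.1 hxy
        simpa [h] using hper c g hg γ y
    refine ⟨⟨s, hs⟩, Subtype.ext (funext fun β => B.ext' fun p => ?_)⟩
    obtain ⟨y, hy⟩ := hq.surjective (l.π p)
    exact ((e y p hy.symm).2 β).symm
  · rintro ⟨s, hs⟩
    obtain ⟨x₀⟩ : Nonempty U := inferInstance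
    obtain ⟨f, -, hf⟩ := l.fn s.1 s.2
    refine AddMonoidHom.ext fun γ => ?_
    have := hper c (fun y => f (q y)) (fun _ => ⟨s.1, s.2, Eventually.of_forall fun y p hp =>
      ⟨by rw [hf, hp], fun β => by rw [← hs]; rfl⟩⟩) γ.toMul x₀
    rw [hq.map_smul] at this
    simpa using this

theorem Link.perC_tower (θ η₀ : G.cx.Z1) (k : ℕ) (η : ℕ → B.F1) (h₀ : η 0 = η₀)
    (hη : ∀ n < k, G.cx.d1 (η (n + 1)) + G.cx.w θ (η n) = 0) : ∃ a : ℕ → Γ → ℂ,
      (∀ γ, a 0 γ = per η₀ (Additive.ofMul γ)) ∧ ∀ n ≤ k, ∀ γ γ', a n (γ * γ') = a n γ +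
        ∑ i ∈ Finset.range (n + 1),
          per θ (Additive.ofMul γ) ^ i / (i.factorial : ℂ) * a (n - i) γ' := by
  obtain ⟨x₀⟩ : Nonempty U := inferInstance
  obtain ⟨Θ, hΘ⟩ := l.perC_ex hq θ
  have ex : ∀ n, ∃ g, n ≤ k →
      l.Pr q (fun y p β => PerCtw (Θ y) (fun j => B.ev ((η j).1 β) p) n) g := fun n => by
    by_cases hn : n ≤ k
    swap
    · exact ⟨0, fun h => absurd h hn⟩
    have := l.perC_lc (Finset.range (n + 1))
      (fun i _ => (hΘ.perC_pow i).perC_smul (i.factorial : ℂ)⁻¹) (fun i => (η (n - i)).2)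
      (c₀ := 0) (fun _ => zero_mem _) fun y p β γ => ?_
    · refine (this.exists_pr hq.isCoveringMap.isLocalHomeomorph).imp fun g hg _ => ?_
      convert hg using 4 with y p β
      simp [PerCtw, div_eq_inv_mul]
    have e0 : ∀ c : Fin 4 → A, G.d1 c = 0 → B.ev (G.d1 c β γ) p = 0 := fun c h => by simp [h]
    rw [e0 0 (congrArg Subtype.val (map_zero G.cx.d1)), add_zero, Finset.sum_add_distrib,
      Finset.sum_range_succ', Finset.sum_range_succ, Nat.sub_self,
      e0 (η 0).1 (h₀ ▸ congrArg Subtype.val η₀.2)]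
    simp only [Nat.cast_zero, zero_mul, mul_zero, sub_zero, add_zero, ← Finset.sum_add_distrib]
    refine Finset.sum_eq_zero fun i hi => ?_
    have hi' := Finset.mem_range.1 hi
    have e1 : B.ev (G.d1 (η (n - (i + 1) + 1)).1 β γ + w1 θ.1.1 (η (n - (i + 1))).1 β γ) p = 0 :=
      (congrArg (fun x : B.F2 => B.ev (x.1 β γ) p) (hη (n - (i + 1)) (by omega))).trans (by simp)
    rw [show n - (i + 1) + 1 = n - i by omega] at e1
    simp only [w1, map_add, map_sub, map_mul, ContinuousMap.add_apply, ContinuousMap.sub_apply,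
      ContinuousMap.mul_apply] at e1
    have e2 : (((i + 1).factorial : ℂ))⁻¹ * ((i + 1 : ℕ) : ℂ) = (i.factorial : ℂ)⁻¹ := by
      rw [Nat.factorial_succ, Nat.cast_mul]
      field_simp
    simp only [Base.up, Nat.add_sub_cancel, ← mul_assoc, e2]
    linear_combination (i.factorial : ℂ)⁻¹ * Θ y ^ i * e1
  choose g hg using ex
  have key : ∀ n ≤ k, ∀ (γ : Γ) x, g n (γ • x) =
      PerCtw (per θ (Additive.ofMul γ)) (fun j => g j x) n +
        (g n (γ • x₀) - PerCtw (per θ (Additive.ofMul γ)) (fun j => g j x₀) n) := fun n hn γ x =>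
    (hg n hn).perC_shift hq (l.perC_sum (Finset.range (n + 1)) (fun i _ => hg (n - i) (by omega))
      fun i => per θ (Additive.ofMul γ) ^ i / (i.factorial : ℂ)) γ (fun y p β => by
        rw [hper θ Θ hΘ, add_comm, PerCtw_add]
        rfl) x₀ x
  refine ⟨fun n γ => g n (γ • x₀) - PerCtw (per θ (Additive.ofMul γ)) (fun j => g j x₀) n,
    fun γ => ?_, fun n hn γ γ' => ?_⟩
  · have := hper η₀ (g 0) (by
      convert hg 0 k.zero_le using 4 with y p β
      simp [PerCtw, Base.up, h₀]) γ x₀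
    simp [PerCtw, this]
  · dsimp only
    rw [mul_smul, key n hn, ofMul_mul, map_add, PerCtw_add]
    simp only [mul_sub, Finset.sum_sub_distrib, PerCtw]
    ring

theorem Link.perC_cup (n : ℕ) (a b : Fin n → G.cx.Z1)
    (h : ∑ i, G.cx.w (a i) (b i) ∈ LinearMap.range G.cx.d1) :
    ∃ z : Γ → ℂ, ∀ γ γ', z (γ * γ') = z γ + z γ' +
      ∑ i, per (a i) (Additive.ofMul γ) * per (b i) (Additive.ofMul γ') := by
  obtain ⟨x₀⟩ : Nonempty U := inferInstance
  obtain ⟨η, hη⟩ := h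
  choose f hf using fun i => l.perC_ex hq (a i)
  choose f' hf' using fun i => l.perC_ex hq (b i)
  obtain ⟨g, hg⟩ := (l.perC_lc Finset.univ (fun i _ => hf i) (fun i => (b i).1.2) (-η).2
    fun y p β γ => by
      have e0 : ∀ i, B.ev (G.d1 (b i).1.1 β γ) p = 0 := fun i => by
        rw [show G.d1 (b i).1.1 = 0 from congrArg Subtype.val (b i).2]
        simp
      have e1 : B.ev (G.d1 (-η).1 β γ) p = _ := congrArg (fun x : B.F2 => B.ev (x.1 β γ) p)
        ((map_neg G.cx.d1 η).trans (congrArg Neg.neg hη))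
      have e2 : ∀ i, (G.cx.w (a i) (b i)).1 = w1 (a i).1.1 (b i).1.1 := fun _ => rfl
      rw [e1]
      simp [e0, e2, w1, Base.up]).exists_pr hq.isCoveringMap.isLocalHomeomorph
  have key : ∀ (γ : Γ) x, g (γ • x) = (g x + ∑ i, per (a i) (Additive.ofMul γ) * f' i x) +
      (g (γ • x₀) - (g x₀ + ∑ i, per (a i) (Additive.ofMul γ) * f' i x₀)) := fun γ x =>
    hg.perC_shift hq (hg.perC_add (l.perC_sum Finset.univ (fun i _ => hf' i)
      fun i => per (a i) (Additive.ofMul γ))) γ (fun y p β => by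
        simp only [hper _ _ (hf _), add_mul, Finset.sum_add_distrib, Base.up]
        ring) x₀ x
  refine ⟨fun γ => g (γ • x₀) - (g x₀ + ∑ i, per (a i) (Additive.ofMul γ) * f' i x₀),
    fun γ γ' => ?_⟩
  dsimp only
  rw [mul_smul, key]
  simp only [hper _ _ (hf' _), ofMul_mul, map_add, add_mul, mul_add, Finset.sum_add_distrib]
  ring

end Per

theorem Link.exists_per [SimplyConnectedSpace U] [LocallyPathConnectedSpace U] {G : Pre B}
    (l : Link a G.toCalc) {Γ : Type} [Group Γ] [MulAction Γ U] (hq : IsQuotientCoveringMap q Γ) :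
    ∃ p : G.cx.Per Γ, ∀ (f : Map G) (g : U → U) (φ : Γ →* Γ), Continuous g →
      (∀ z x, l.π z = q x → l.π (f.pt z) = q (g x)) → (∀ γ x, g (γ • x) = φ γ • g x) →
      p.Eqv f.mor φ := by
  obtain ⟨per, hper⟩ := l.perC_per hq
  refine ⟨⟨per, l.perC_surj hq hper, l.perC_ker hq hper, l.perC_tower hq hper,
    l.perC_cup hq hper⟩, fun f g φ hg e hφ c γ => ?_⟩
  obtain ⟨x₀⟩ : Nonempty U := inferInstance
  obtain ⟨u, hu⟩ := l.perC_ex hq c
  have h1 := hper (f.mor.z1 c) _ (hu.comp c.1.2 f hg e hq.isCoveringMap.isLocalHomeomorph) γ x₀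
  rw [Function.comp_apply, Function.comp_apply, hφ, hper c u hu] at h1
  exact (add_left_cancel h1).symm

end SX4
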