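import Pool.Agent.P.MP_0a0487_an.SX.PerB

/-! Circle valued functions. -/

set_option autoImplicit false
set_option linter.unusedSectionVars false

noncomputable section

namespace SX4

open scoped ComplexOrder ContDiff
open Filter Topology Matrix

variable {P A : Type} [TopologicalSpace P] [CompactSpace P] [CommRing A] [StarRing A] [Algebra ℂ A]
  [StarModule ℂ A] {B : Base P A}

variable {Y U : Type} [TopologicalSpace Y] [TopologicalSpace U] [CompactSpace Y] [T2Space Y]
  {a : Fr Y} {q : U → Y}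

section Aux

variable {G : Calc B} {l : Link a G} {η η' : U → P → Fin 4 → ℂ} {g g' : U → ℂ}

theorem PerD_congr (h : l.Pr q η g) (e : ∀ y p β, l.π p = q y → η' y p β = η y p β) :
    l.Pr q η' g := fun x => by
  obtain ⟨s, hs, h⟩ := h x
  exact ⟨s, hs, h.mono fun y hy p hp => ⟨(hy p hp).1, fun β => (e y p β hp).trans ((hy p hp).2 β)⟩⟩

theorem PerD_add (h : l.Pr q η g) (h' : l.Pr q η' g') :
    l.Pr q (fun y p β => η y p β + η' y p β) fun y => g y + g' y := fun x => by
  obtain ⟨s, hs, h⟩ := h x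
  obtain ⟨t, ht, h'⟩ := h' x
  refine ⟨s + t, add_mem hs ht, (h.and h').mono fun y hy p hp => ⟨?_, fun β => ?_⟩⟩
  · simp only [map_add, ContinuousMap.add_apply, (hy.1 p hp).1, (hy.2 p hp).1]
  · simp only [map_add, ContinuousMap.add_apply, (hy.1 p hp).2, (hy.2 p hp).2]

theorem PerD_smul (c : ℂ) (h : l.Pr q η g) :
    l.Pr q (fun y p β => c * η y p β) fun y => c * g y := fun x => by
  obtain ⟨s, hs, h⟩ := h x
  refine ⟨c • s, Submodule.smul_mem _ c hs, h.mono fun y hy p hp => ⟨?_, fun β => ?_⟩⟩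
  · simp only [map_smul, ContinuousMap.smul_apply, smul_eq_mul, (hy p hp).1]
  · simp only [map_smul, ContinuousMap.smul_apply, smul_eq_mul, (hy p hp).2]

theorem PerD_mul (h : l.Pr q η g) (h' : l.Pr q η' g') :
    l.Pr q (fun y p β => η y p β * g' y + g y * η' y p β) fun y => g y * g' y := fun x => by
  obtain ⟨s, hs, h⟩ := h x
  obtain ⟨t, ht, h'⟩ := h' x
  refine ⟨s * t, B.mul_mem' hs ht (add_zero _), (h.and h').mono fun y hy p hp => ⟨?_, fun β => ?_⟩⟩
  · simp only [map_mul, ContinuousMap.mul_apply, (hy.1 p hp).1, (hy.2 p hp).1]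
  · simp only [G.D_mul, map_add, map_mul, ContinuousMap.add_apply, ContinuousMap.mul_apply,
      (hy.1 p hp).1, (hy.2 p hp).1, (hy.1 p hp).2, (hy.2 p hp).2]

theorem PerD_zero : l.Pr q (fun _ _ _ => 0) fun _ => 0 := fun _ =>
  ⟨0, zero_mem _, Eventually.of_forall fun y p _ => ⟨by simp, fun β => by simp⟩⟩

theorem PerD_sum {ι : Type} (s : Finset ι) {η : ι → U → P → Fin 4 → ℂ} {g : ι → U → ℂ}
    (h : ∀ i, l.Pr q (η i) (g i)) :
    l.Pr q (fun y p β => ∑ i ∈ s, η i y p β) fun y => ∑ i ∈ s, g i y := by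
  classical
  induction s using Finset.induction_on with
  | empty => simpa using PerD_zero
  | insert i s hi ih => simpa only [Finset.sum_insert hi] using PerD_add (h i) ih

theorem PerD_fn (l : Link a G) (q : U → Y) {s : A} (hs : s ∈ B.W 0) : ∃ f : Y → ℂ,
    (∀ p, B.ev s p = f (l.π p)) ∧ l.Pr q (B.up U (G.d0 s)) fun y => f (q y) := by
  obtain ⟨f, -, hf⟩ := l.fn s hs
  exact ⟨f, hf, fun _ => ⟨s, hs, Eventually.of_forall fun y p hp =>
    ⟨by rw [hf, hp], fun β => rfl⟩⟩⟩

theorem PerD_per [ConnectedSpace U] {Γ : Type} [Group Γ] [MulAction Γ U]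
    (hq : IsQuotientCoveringMap q Γ) {c : Fin 4 → A} (h : l.Pr q (B.up U c) g) :
    ∃ per : Hm Γ, ∀ γ x, g (γ • x) = g x + per (Additive.ofMul γ) := by
  have h1 : ∀ γ : Γ, ∃ C, ∀ x, g (γ • x) = g x + C := fun γ => by
    refine Link.Pr.const hq.isCoveringMap.isLocalHomeomorph (g := fun x => g (γ • x))
      (fun x => ?_) h
    obtain ⟨s, hs, h⟩ := h (γ • x)
    refine ⟨s, hs, ((hq.continuous_const_smul γ).continuousAt.eventually h).mono
      fun y hy p hp => hy p ?_⟩
    rw [hp, hq.map_smul]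
  choose per hper using h1
  obtain ⟨x₀⟩ : Nonempty U := inferInstance
  refine ⟨AddMonoidHom.mk' (fun γ => per γ.toMul) fun γ δ => ?_, hper⟩
  have h2 := hper (γ.toMul * δ.toMul) x₀
  rw [mul_smul, hper, hper] at h2
  rw [toMul_add]
  linear_combination -h2

theorem PerD_exp (r : ℝ) : (starRingEnd ℂ) (Complex.exp (2 * Real.pi * Complex.I * r)) *
    Complex.exp (2 * Real.pi * Complex.I * r) = 1 := by
  rw [← Complex.exp_conj, ← Complex.exp_add]
  simp [map_ofNat]

theorem PerD_unit {Γ : Type} [Group Γ] [MulAction Γ U] (hq : IsQuotientCoveringMap q Γ)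
    {w : Fin 4 → A} {g : U → ℝ} {c : Γ → ℤ} (h : l.Pr q (B.up U w) fun x => g x)
    (hg : ∀ (γ : Γ) x, g (γ • x) = g x + c γ) : ∃ u ∈ B.W 0, star u * u = 1 ∧
      ∀ β, G.lg u β = (2 * Real.pi : ℂ) • w β := by
  have hl := hq.isCoveringMap.isLocalHomeomorph
  obtain ⟨u, hu, e⟩ := ((PerD_smul (2 * Real.pi * Complex.I) h).exp hl).descend hl hq.surjective
    fun x y hxy => by
      obtain ⟨γ, rfl⟩ := hq.apply_eq_iff_mem_orbit.1 hxy
      simp only [hg]
      push_cast
      rw [mul_add, Complex.exp_add, mul_comm _ (c γ : ℂ), Complex.exp_int_mul_two_pi_mul_I, mul_one]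
  refine ⟨u, hu, B.ext' fun p => ?_, fun β => B.ext' fun p => ?_⟩
  · obtain ⟨y, hy⟩ := hq.surjective (l.π p)
    rw [map_mul, ContinuousMap.mul_apply, B.ev_star, ← (e y p hy.symm).1, PerD_exp]
    simp
  · obtain ⟨y, hy⟩ := hq.surjective (l.π p)
    have h1 := PerD_exp (g y)
    simp only [Calc.lg, map_smul, map_mul, ContinuousMap.smul_apply, ContinuousMap.mul_apply,
      B.ev_star, ← (e y p hy.symm).1, ← (e y p hy.symm).2, Base.up, smul_eq_mul]
    linear_combination (-Complex.I * (2 * Real.pi * Complex.I * B.ev (w β) p)) * h1 -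
      (2 * Real.pi * B.ev (w β) p) * Complex.I_mul_I

theorem PerD_sm (ho : IsOpenMap q) (hc : Continuous q) (hs : Function.Surjective q) {φ : Y → ℂ}
    (h : ∀ x, ∃ f, a.Sm f ∧ ∀ᶠ y in 𝓝 x, φ (q y) = f (q y)) : a.Sm φ := by
  intro i z hz
  obtain ⟨x, hx⟩ := hs ((a.φ i).symm z)
  obtain ⟨f, hf, e⟩ := h x
  have e1 : ∀ᶠ y in 𝓝 ((a.φ i).symm z), φ y = f y := by
    rw [← hx, ← ho.map_nhds_eq hc.continuousAt]
    exact e
  refine (hf i z hz).congr_of_eventuallyEq_of_mem ?_ hz
  exact (((a.φ i).continuousAt_symm hz).eventually e1).filter_mono nhdsWithin_le_nhds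

end Aux

theorem Link.exists_lat [SimplyConnectedSpace U] [LocallyPathConnectedSpace U] {G : Calc B}
    (l : Link a G) {Γ : Type} [Group Γ] [MulAction Γ U] (hq : IsQuotientCoveringMap q Γ) {b : ℕ}
    {c : Γ → Fin b → ℤ} (hc : HB c) : ∃ u : Fin b → A, G.Lat u := by
  have hl := hq.isCoveringMap.isLocalHomeomorph
  choose w g hw _ hg hγ using fun i => l.exists_alb hq (c := fun γ => (c γ i : ℝ))
    fun γ γ' => by simp [hc.mul]
  choose u hu hu1 hlg using fun i => PerD_unit hq (hg i) (c := fun γ => c γ i) (hγ i)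
  have hπ : (2 * Real.pi : ℂ) ≠ 0 := by simp [Real.pi_ne_zero]
  obtain ⟨x₀⟩ : Nonempty U := inferInstance
  have hsum : ∀ h : Fin b → ℂ, l.Pr q (fun _ p β => ∑ i, h i * B.ev (w i β) p)
      fun y => ∑ i, h i * g i y := fun h => PerD_sum _ fun i => PerD_smul (h i) (hg i)
  have hsumγ : ∀ (h : Fin b → ℂ) (γ : Γ) x,
      ∑ i, h i * g i (γ • x) = ∑ i, h i * g i x + ∑ i, h i * c γ i := fun h γ x => by
    simp only [hγ, ← Finset.sum_add_distrib]
    push_cast
    simp only [mul_add]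
  have hone : ∀ j, ∃ γ : Γ, ∀ h : Fin b → ℂ, ∑ i, h i * c γ i = h j := fun j => by
    obtain ⟨γ, hγ⟩ := hc.surj (Pi.single j 1)
    refine ⟨γ, fun h => ?_⟩
    rw [hγ, Finset.sum_eq_single j (fun i _ hi => by simp [hi]) (by simp)]
    simp
  refine ⟨u, hu, hu1, fun θ hθ hd => ?_, fun h s hs e => ?_, fun v hv hv1 h s hs e j => ?_⟩
  · obtain ⟨k, hk⟩ := Link.LC.exists_pr (l := l) hl (η := B.up U θ) fun x =>
      ⟨θ, fun α => (hθ α).1, Eventually.of_forall fun y p _ =>
        ⟨fun β => rfl, fun β γ => by simp [hd]⟩⟩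
    obtain ⟨per, hper⟩ := PerD_per hq hk
    obtain ⟨v, hv⟩ := hc.span per
    obtain ⟨s, hs, e⟩ := (PerD_add hk (PerD_smul (-1) (hsum v))).descend hl hq.surjective
      fun x y hxy => by
        obtain ⟨γ, rfl⟩ := hq.apply_eq_iff_mem_orbit.1 hxy
        simp only [hper, hsumγ, hv]
        ring
    have e1 : ∀ β, θ β = ∑ i, v i • w i β + G.D β s := fun β => B.ext' fun p => by
      obtain ⟨y, hy⟩ := hq.surjective (l.π p)
      have h1 := (e y p hy.symm).2 β
      simp only [map_add, map_sum, map_smul, ContinuousMap.add_apply, ContinuousMap.sum_apply,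
        ContinuousMap.smul_apply, smul_eq_mul, ← h1, Base.up]
      ring
    have e2 : ∀ β, θ β = ∑ i, star (v i) • w i β + G.D β (star s) := fun β => by
      have h1 := congrArg star (e1 (bar β))
      simpa only [(hθ _).2, star_add, star_sum, star_smul, (hw _ _).2, G.D_star, bar_bar] using h1
    refine ⟨fun i => (v i).re / (2 * Real.pi), (1 / 2 : ℂ) • (s + star s),
      ⟨Submodule.smul_mem _ _ (add_mem hs (B.star_mem' hs neg_zero)), by
        rw [star_smul, star_add, star_star, add_comm]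
        simp⟩, fun α => ?_⟩
    have e3 : ∀ i, (((v i).re / (2 * Real.pi) : ℝ) : ℂ) • G.lg (u i) α =
        (1 / 2 : ℂ) • (v i • w i α + star (v i) • w i α) := fun i => by
      rw [hlg, smul_smul, ← add_smul, smul_smul]
      congr 1
      push_cast
      rw [div_mul_cancel₀ _ hπ, Complex.re_eq_add_conj]
      simp only [RCLike.star_def]
      ring
    simp only [e3, ← Finset.smul_sum, Finset.sum_add_distrib, map_smul, map_add]
    linear_combination (norm := module) (1 / 2 : ℂ) • e1 α + (1 / 2 : ℂ) • e2 α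
  · obtain ⟨f, -, hf⟩ := PerD_fn l q hs
    obtain ⟨C, hC⟩ := (PerD_congr (hsum fun i => h i * (2 * Real.pi)) (η' := B.up U (G.d0 s))
      fun y p β _ => by
        simp only [Base.up, Calc.d0, ← e, hlg, smul_smul, map_sum, map_smul,
          ContinuousMap.sum_apply, ContinuousMap.smul_apply, smul_eq_mul]).const hl hf
    funext j
    obtain ⟨γ, hγ⟩ := hone j
    have h1 := hC (γ • x₀)
    rw [hsumγ, hγ, hC x₀, hq.map_smul] at h1
    have h2 : (h j : ℂ) * (2 * Real.pi) = 0 := by linear_combination h1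
    simpa [Real.pi_ne_zero] using h2
  · obtain ⟨f, -, hf⟩ := PerD_fn l q hs
    obtain ⟨V, hV, hV'⟩ := PerD_fn l q hv
    have hV1 : ∀ p, (starRingEnd ℂ) (B.ev v p) * B.ev v p = 1 := fun p => by
      rw [← B.ev_star, ← ContinuousMap.mul_apply, ← map_mul, hv1]
      simp
    have h1 := PerD_congr (PerD_add (hsum fun i => h i * (2 * Real.pi)) hf)
      (η' := B.up U (G.lg v)) fun y p β _ => by
        simp only [Base.up, Calc.d0, e, hlg, smul_smul, map_sum, map_smul, map_add,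
          ContinuousMap.add_apply, ContinuousMap.sum_apply, ContinuousMap.smul_apply, smul_eq_mul]
    obtain ⟨C, hC⟩ := (PerD_congr (PerD_mul hV' ((PerD_smul (-Complex.I) h1).exp hl))
      (η' := fun _ _ _ => 0) fun y p β hp => by
        have h2 := hV1 p
        simp only [Base.up, Calc.d0, Calc.lg, map_smul, map_mul, ContinuousMap.smul_apply,
          ContinuousMap.mul_apply, B.ev_star, smul_eq_mul, ← hp, ← hV]
        generalize Complex.exp _ = E
        linear_combination (E * B.ev (G.D β v) p) * h2 -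
          (E * B.ev (G.D β v) p * ((starRingEnd ℂ) (B.ev v p) * B.ev v p)) * Complex.I_mul_I).const
      hl PerD_zero
    obtain ⟨γ, hγ⟩ := hone j
    have h2 := hC (γ • x₀)
    rw [← hC x₀, hsumγ, hγ, hq.map_smul] at h2
    obtain ⟨p, hp⟩ := l.π_surj (q x₀)
    have h3 : V (q x₀) ≠ 0 := fun h0 => by
      have := hV1 p
      rw [hV, hp, h0] at this
      simp at this
    obtain ⟨n, hn⟩ := Complex.exp_eq_exp_iff_exists_int.1 (mul_left_cancel₀ h3 h2)
    refine ⟨-n, ?_⟩
    have h4 : ((h j : ℂ) + n) * (2 * Real.pi * Complex.I) = 0 := by linear_combination -hn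
    have h5 : (h j : ℂ) = -n := by
      have := (mul_eq_zero.1 h4).resolve_right (mul_ne_zero hπ Complex.I_ne_zero)
      linear_combination this
    exact_mod_cast h5

theorem Link.exists_unit {G : Pre B} (l : Link a G.toCalc) {Λ : Type} [Group Λ] [MulAction Λ U]
    {S K : Subgroup Λ} [S.Normal] (hle : S ≤ K) (hfin : S.relIndex K ≠ 0)
    (hq : IsQuotientCoveringMap q S) (hK : ∀ γ : Λ, Continuous fun x : U => γ • x)
    (D : Λ → Y → Y) (hD : ∀ γ x, D γ (q x) = q (γ • x)) (hs : ∀ γ, a.SmMap (D γ)) (c : K → ℤ)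
    (hc : ∀ γ γ', c (γ * γ') = c γ + c γ') (h3 : ∀ s : K, (s : Λ) ∈ S → 3 ∣ c s) :
    ∃ u ∈ B.W 0, star u * u = 1 ∧ ∀ (γ : K) (f : Map G), (∀ p, l.π (f.pt p) = D γ (l.π p)) →
      f.Φ u = Complex.exp (2 * Real.pi * Complex.I * c γ / 3) • u := by
  classical
  obtain ⟨w, g₀, -, -, hg₀, hγ₀⟩ := l.exists_alb hq (c := fun s : S => (c ⟨s, hle s.2⟩ : ℝ))
    fun s s' => by
      rw [← Int.cast_add, ← hc]
      rfl
  have : Finite (K ⧸ S.subgroupOf K) := Nat.finite_of_card_ne_zero hfin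
  have := Fintype.ofFinite (K ⧸ S.subgroupOf K)
  let F : K → U → ℝ := fun γ x => g₀ ((γ : Λ) • x) - c γ
  have hF : ∀ γ γ' : K, (γ : K ⧸ S.subgroupOf K) = γ' → ∀ x, F γ x = F γ' x := fun γ γ' e x => by
    have h1 : γ' * γ⁻¹ ∈ S.subgroupOf K :=
      Subgroup.Normal.mem_comm inferInstance (QuotientGroup.eq.1 e)
    have h2 := hγ₀ ⟨(γ' * γ⁻¹ : K), h1⟩ ((γ : Λ) • x)
    have h4 : (c γ' : ℝ) = c (γ' * γ⁻¹) + c γ := by
      rw [← Int.cast_add, ← hc, inv_mul_cancel_right]
    rw [Subgroup.mk_smul, ← mul_smul, ← Subgroup.coe_mul, inv_mul_cancel_right] at h2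
    simp only [F, h2, h4]
    ring
  let n : ℝ := Fintype.card (K ⧸ S.subgroupOf K)
  have hn : n ≠ 0 := Nat.cast_ne_zero.2 Fintype.card_ne_zero
  let g : U → ℝ := fun x => n⁻¹ * ∑ z : K ⧸ S.subgroupOf K, F z.out x
  have hg : ∀ (δ : K) x, g ((δ : Λ) • x) = g x + c δ := fun δ x => by
    have h1 : ∀ z : K ⧸ S.subgroupOf K, F z.out ((δ : Λ) • x) =
        F (Equiv.mulRight (δ : K ⧸ S.subgroupOf K) z).out x + c δ := fun z => by
      rw [hF (Equiv.mulRight (δ : K ⧸ S.subgroupOf K) z).out (z.out * δ) (by simp)]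
      simp only [F, hc, Subgroup.coe_mul, mul_smul]
      push_cast
      ring
    simp only [g, h1, Finset.sum_add_distrib,
      Equiv.sum_comp (Equiv.mulRight (δ : K ⧸ S.subgroupOf K)) fun z => F z.out x,
      Finset.sum_const, Finset.card_univ, nsmul_eq_mul, mul_add]
    rw [← mul_assoc, inv_mul_cancel₀ hn, one_mul]
  have hE : ∀ (δ : K) x, Complex.exp (2 * Real.pi * Complex.I * (g ((δ : Λ) • x) / 3 : ℝ)) =
      Complex.exp (2 * Real.pi * Complex.I * c δ / 3) *
        Complex.exp (2 * Real.pi * Complex.I * (g x / 3 : ℝ)) := fun δ x => by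
    rw [hg, ← Complex.exp_add]
    congr 1
    push_cast
    ring
  let φ : Y → ℂ := fun y =>
    Complex.exp (2 * Real.pi * Complex.I * (g (Function.surjInv hq.surjective y) / 3 : ℝ))
  have hφ : ∀ x, φ (q x) = Complex.exp (2 * Real.pi * Complex.I * (g x / 3 : ℝ)) := fun x => by
    obtain ⟨s, e⟩ := hq.apply_eq_iff_mem_orbit.1 (Function.surjInv_eq hq.surjective (q x))
    obtain ⟨m, hm⟩ := h3 ⟨s, hle s.2⟩ s.2
    have h1 := hE ⟨s, hle s.2⟩ x
    rw [hm, show (2 * Real.pi * Complex.I * ((3 * m : ℤ) : ℂ) / 3 : ℂ) =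
      m * (2 * Real.pi * Complex.I) by push_cast; ring, Complex.exp_int_mul_two_pi_mul_I,
      one_mul] at h1
    simp only [φ, ← e]
    exact h1
  have hsm : a.Sm φ := PerD_sm hq.isOpenQuotientMap.isOpenMap hq.continuous hq.surjective
    fun x => by
      have h1 : ∀ γ : Λ, ∃ f : Y → ℂ, a.Sm f ∧ ∀ᶠ y in 𝓝 x, (g₀ (γ • y) : ℂ) = f (q y) :=
        fun γ => by
          obtain ⟨s, hs0, e⟩ := hg₀ (γ • x)
          obtain ⟨f, hf, e'⟩ := l.fn s hs0
          refine ⟨_, hf.comp (hs γ), ((hK γ).continuousAt.eventually e).mono fun y hy => ?_⟩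
          obtain ⟨p, hp⟩ := l.π_surj (q (γ • y))
          exact (hy p hp).1.trans (by rw [e', hp, hD])
      choose f hf e using h1
      refine ⟨fun y => Complex.exp (2 * Real.pi * Complex.I * ((n : ℂ)⁻¹ *
        (∑ z : K ⧸ S.subgroupOf K, (f (z.out : K) y - c z.out)) / 3)), fun i => ?_, ?_⟩
      · exact (contDiffOn_const.mul ((contDiffOn_const.mul (ContDiffOn.sum fun z _ =>
          (hf _ i).sub contDiffOn_const)).div_const _)).cexp
      · filter_upwards [eventually_all.2 fun z : K ⧸ S.subgroupOf K => e (z.out : K)] with y hy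
        simp only [hφ, g, F, ← hy]
        push_cast
        rfl
  obtain ⟨u, hu, e⟩ := l.fn' φ hsm
  refine ⟨u, hu, B.ext' fun p => ?_, fun γ f hf => B.ext' fun p => ?_⟩
  · rw [map_mul, ContinuousMap.mul_apply, B.ev_star, e, PerD_exp]
    simp
  · obtain ⟨x, hx⟩ := hq.surjective (l.π p)
    rw [f.ev_eq u hu, map_smul, ContinuousMap.smul_apply, e, e, hf, ← hx, hD, hφ, hφ, hE,
      smul_eq_mul]

end SX4
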