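import Pool.Agent.P.MP_0a0487_an.SX.CohGeo
import Pool.Agent.P.MP_0a0487_an.SX.FrDefs

/-! Functions and forms on a covering space. -/

set_option autoImplicit false
set_option linter.unusedSectionVars false

noncomputable section

namespace SX4

open scoped ComplexOrder ContDiff
open Filter Topology Matrix

variable {P A : Type} [TopologicalSpace P] [CompactSpace P] [CommRing A] [StarRing A] [Algebra ℂ A]
  [StarModule ℂ A] {B : Base P A}

variable {Y U : Type} [TopologicalSpace Y] [TopologicalSpace U] {a : Fr Y} {G : Calc B}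

/-- The pull-back of a 1-form to the covering space. -/
def Base.up (B : Base P A) (U : Type) (c : Fin 4 → A) : U → P → Fin 4 → ℂ :=
  fun _ p β => B.ev (c β) p

/-- The function `g` on the covering space is smooth, with differential `η`. -/
def Link.Pr (l : Link a G) (q : U → Y) (η : U → P → Fin 4 → ℂ) (g : U → ℂ) : Prop :=
  ∀ x, ∃ s ∈ B.W 0, ∀ᶠ y in 𝓝 x, ∀ p, l.π p = q y →
    g y = B.ev s p ∧ ∀ β, η y p β = B.ev (G.D β s) p

/-- The form `η` on the covering space is smooth and closed. -/
def Link.LC (l : Link a G) (q : U → Y) (η : U → P → Fin 4 → ℂ) : Prop :=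
  ∀ x, ∃ c, B.Form1 c ∧ ∀ᶠ y in 𝓝 x, ∀ p, l.π p = q y →
    (∀ β, η y p β = B.ev (c β) p) ∧ ∀ β γ, B.ev (G.d1 c β γ) p = 0

end SX4
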