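import Pool.Agent.P.MP_0a0487_an.SX.SysDefs
import Pool.Agent.P.MP_0a0487_an.SX.ODyn2

/-! The elements of the group of lifts. -/

set_option autoImplicit false
set_option linter.unusedSectionVars false

noncomputable section

namespace SX4

open scoped ComplexOrder ContDiff
open Filter Topology Matrix

variable {Y U Λ : Type} [TopologicalSpace Y] [TopologicalSpace U] [Group Λ] [MulAction Λ U]

variable [CompactSpace Y] [T2Space Y] {a : Fr Y} {d : FDyn a 4} {q : U → Y}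
  {deg : Λ →* Multiplicative ℤ} {S : Subgroup Λ} {D : Λ →* (Y ≃ₜ Y)} {t : Λ}

theorem SysE_lin {Q J : M4} {δ : ℝ} {U V : Fin 2 → Fin 4 → ℝ} (h : GB Q δ U V) (hδ : δ ≤ 1 / 10)
    (hQ : Q * Q = Q) (hJ : J * Q = Q * J) (ho : OrP Q J) {m : ℕ}
    (e1 : ∀ v, Q *ᵥ v = v → ‖v‖ ≤ 1 / 2 * ‖(J ^ m) *ᵥ v‖)
    (e2 : ∀ v, Q *ᵥ v = 0 → ‖(J ^ m) *ᵥ v‖ ≤ 1 / 2 * ‖v‖) : 0 < (1 - J).det := by
  let A : ℝ → M4 := fun s => (s • 1 - J) * Q + (1 - s • J) * (1 - Q)
  have hA : ∀ s v, A s *ᵥ v = s • Q *ᵥ v - J *ᵥ (Q *ᵥ v) +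
      (v - Q *ᵥ v - s • J *ᵥ (v - Q *ᵥ v)) := fun s v => by
    simp only [A, add_mulVec, ← mulVec_mulVec, sub_mulVec, smul_mulVec, one_mulVec]
  have hQJ : ∀ v, Q *ᵥ (J *ᵥ v) = J *ᵥ (Q *ᵥ v) := fun v => by
    rw [mulVec_mulVec, mulVec_mulVec, hJ]
  have hQQ : ∀ v, Q *ᵥ (Q *ᵥ v) = Q *ᵥ v := fun v => by rw [mulVec_mulVec, hQ]
  have h0 : 0 < (A 0).det := by
    refine h.det_pos h hδ (Matrix.ext_iff_mulVec.2 fun v => ?_)
      ⟨fun v v' a b c => ?_, fun v v' a b c => ?_⟩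
    · simp only [← mulVec_mulVec, hA, mulVec_add, mulVec_sub, mulVec_smul, hQJ, hQQ]
    · simpa [hA, a, b, top2] using ho.1 v v' a b c
    · simpa [hA, a, b] using c
  have hne : ∀ s ∈ Set.Icc (0 : ℝ) 1, (A s).det ≠ 0 := fun s hs e => by
    obtain ⟨v, hv, e⟩ := Matrix.exists_mulVec_eq_zero_iff.2 e
    rw [hA] at e
    have a1 := hQQ v
    have a2 : Q *ᵥ (v - Q *ᵥ v) = 0 := by rw [mulVec_sub, hQQ, sub_self]
    have a3 : v = Q *ᵥ v + (v - Q *ᵥ v) := by abel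
    generalize v - Q *ᵥ v = w at e a2 a3
    generalize Q *ᵥ v = u at e a1 a3
    have b1 := congrArg (Q *ᵥ ·) e
    simp only [mulVec_add, mulVec_sub, mulVec_smul, hQJ, a1, a2, mulVec_zero, smul_zero, sub_self,
      add_zero] at b1
    rw [b1, zero_add, sub_eq_zero] at e
    rw [sub_eq_zero] at b1
    have c1 : ∀ k : ℕ, (J ^ k) *ᵥ u = s ^ k • u := fun k => by
      induction k with
      | zero => simp
      | succ k ih => rw [pow_succ, ← mulVec_mulVec, ← b1, mulVec_smul, ih, smul_smul, pow_succ']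
    have c2 : ∀ k : ℕ, s ^ k • (J ^ k) *ᵥ w = w := fun k => by
      induction k with
      | zero => simp
      | succ k ih => rw [pow_succ J, ← mulVec_mulVec, pow_succ, mul_smul, ← mulVec_smul, ← e, ih]
    have hs' : ∀ z : Fin 4 → ℝ, ‖s ^ m • z‖ ≤ ‖z‖ := fun z => by
      rw [norm_smul, Real.norm_of_nonneg (pow_nonneg hs.1 m)]
      exact mul_le_of_le_one_left (norm_nonneg _) (pow_le_one₀ hs.1 hs.2)
    have d1 := e1 u a1
    have d2 := e2 w a2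
    have d3 := hs' u
    have d4 := hs' ((J ^ m) *ᵥ w)
    rw [c1] at d1
    rw [c2] at d4
    have f1 : u = 0 := norm_le_zero_iff.1 (by linarith)
    have f2 : w = 0 := norm_le_zero_iff.1 (by linarith)
    exact hv (by rw [a3, f1, f2, add_zero])
  have hc : Continuous fun s => (A s).det := Continuous.matrix_det (by fun_prop)
  have h1 : A 1 = 1 - J := by
    simp only [A, one_smul]
    rw [← mul_add, add_sub_cancel, mul_one]
  by_contra hn
  rw [← h1, not_lt] at hn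
  obtain ⟨s, hs, e⟩ := intermediate_value_Icc' zero_le_one hc.continuousOn ⟨hn, h0.le⟩
  exact hne s hs e

theorem SysE_mul (g g' : Y ≃ₜ Y) : ⇑(g * g') = g ∘ g' := rfl

theorem SysE_pow (g : Y ≃ₜ Y) (n : ℕ) : ⇑(g ^ n) = g^[n] := by
  induction n with
  | zero => rfl
  | succ n ih => rw [pow_succ, Function.iterate_succ, ← ih]; rfl

theorem Sys.SysE_pos (h : Sys a d q deg S D t) {l : Λ} {n : ℕ} (hl : (deg l).toAdd = n) :
    ∃ g, d.Deck g ∧ ⇑(D l) = g ∘ d.h^[n] := by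
  refine ⟨_, h.deck (l * (t ^ n)⁻¹) ?_, ?_⟩
  · rw [MonoidHom.mem_ker, map_mul, map_inv, map_pow, h.deg_t, mul_inv_eq_one]
    exact Multiplicative.toAdd.injective (by simpa using hl)
  · rw [← SysE_pow, ← h.h_eq, ← map_pow, ← SysE_mul, ← map_mul, inv_mul_cancel_right]

theorem Sys.SysE_neg (h : Sys a d q deg S D t) {l : Λ} {n : ℕ} (hl : (deg l).toAdd = -n) :
    ∃ g, d.Deck g ∧ ⇑(D l) = g ∘ d.h.symm^[n] := by
  refine ⟨_, h.deck (l * t ^ n) ?_, ?_⟩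
  · rw [MonoidHom.mem_ker, map_mul, map_pow, h.deg_t]
    exact Multiplicative.toAdd.injective (by simp [hl])
  · rw [← SysE_pow, show d.h.symm = (D t)⁻¹ from h.h_eq ▸ rfl, ← map_inv, ← map_pow,
      ← SysE_mul, ← map_mul, inv_pow, mul_inv_cancel_right]

theorem SysE_comp {g g' : Y → Y} (hg : d.Deck g) (h1 : a.SmMap g')
    (h2 : a.All g' fun i j x => a.Jm g' i j x * d.Q i x = d.Q j (g' x) * a.Jm g' i j x)
    (h3 : a.All g' fun i j x => OrP (d.Q i x) (a.Jm g' i j x)) : a.SmMap (g ∘ g') ∧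
    (a.All (g ∘ g') fun i j x =>
      a.Jm (g ∘ g') i j x * d.Q i x = d.Q j ((g ∘ g') x) * a.Jm (g ∘ g') i j x) ∧
    a.All (g ∘ g') fun i j x => OrP (d.Q i x) (a.Jm (g ∘ g') i j x) := by
  refine ⟨hg.1.comp h1, fun i j x hi hj => ?_, fun i j x hi hj => ?_⟩
  · obtain ⟨k, hk⟩ := a.cover (g' x)
    beta_reduce
    rw [a.Jm_comp hg.1 h1 hi hk hj, mul_assoc, h2 i k x hi hk, ← mul_assoc,
      (hg.2 k j _ hk hj).2, mul_assoc]
    rfl
  · obtain ⟨k, hk⟩ := a.cover (g' x)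
    have hR := (hg.2 k j _ hk hj).1
    beta_reduce
    rw [a.Jm_comp hg.1 h1 hi hk hj]
    refine ⟨fun v v' e e' c => ?_, fun v v' e e' c => ?_⟩
    · rw [← mulVec_mulVec, ← mulVec_mulVec, hR.top2]
      exact (h3 i k x hi hk).1 v v' e e' c
    · rw [← mulVec_mulVec, ← mulVec_mulVec, hR.bot2]
      exact (h3 i k x hi hk).2 v v' e e' c

theorem Sys.SysE_all (h : Sys a d q deg S D t) (l : Λ) : a.SmMap (D l) ∧
    (a.All (D l) fun i j x => a.Jm (D l) i j x * d.Q i x = d.Q j (D l x) * a.Jm (D l) i j x) ∧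
    a.All (D l) fun i j x => OrP (d.Q i x) (a.Jm (D l) i j x) := by
  obtain ⟨n, e | e⟩ := (deg l).toAdd.eq_nat_or_neg
  · obtain ⟨g, hg, e⟩ := h.SysE_pos e
    rw [e]
    exact SysE_comp hg (d.sm.iterate n) (d.Q_iter n) (d.or_iter h.ori h.or n).1
  · obtain ⟨g, hg, e⟩ := h.SysE_neg e
    rw [e]
    exact SysE_comp hg (d.sm'.iterate n) (d.Q_iter_symm n) (d.or_iter h.ori h.or n).2

theorem Sys.smooth (h : Sys a d q deg S D t) (l : Λ) :
    a.SmMap (D l) ∧ a.All (D l) fun i j x => 0 < (a.Jm (D l) i j x).det :=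
  let ⟨h1, h2, h3⟩ := h.SysE_all l
  ⟨h1, odyn2_det d h2 h3⟩

theorem Sys.det_pos (h : Sys a d q deg S D t) {l : Λ} (hl : 0 < (deg l).toAdd) (i : Fin a.n)
    {x : Y} (hx : x ∈ (a.φ i).source) (e : D l x = x) : 0 < (1 - a.Jm (D l) i i x).det := by
  obtain ⟨h1, h2, h3⟩ := h.SysE_all l
  obtain ⟨n, hn⟩ := Int.eq_ofNat_of_zero_le hl.le
  have hx' : D l x ∈ (a.φ i).source := e.symm ▸ hx
  have hp : ∀ m : ℕ, D (l ^ m) x = x ∧ a.Jm (D (l ^ m)) i i x = a.Jm (D l) i i x ^ m := fun m => by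
    induction m with
    | zero => exact ⟨by simp, by rw [pow_zero, pow_zero, map_one]; exact a.Jm_id i hx⟩
    | succ m ih =>
      rw [pow_succ, map_mul, SysE_mul,
        a.Jm_comp (h.smooth _).1 h1 hx hx' (by rwa [e, ih.1]), Function.comp_apply, e, ih.2]
      exact ⟨ih.1, (pow_succ _ _).symm⟩
  obtain ⟨m, hm⟩ := eventually_atTop.1 (d.lim.eventually_le_const (show (0 : ℝ) < 1 / 4 by norm_num))
  obtain ⟨g, hg, eg⟩ := h.SysE_pos (l := l ^ m) (n := m * n) (by simp [hn])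
  have hε := hm (m * n) (Nat.le_mul_of_pos_right m (by omega))
  obtain ⟨j, hj⟩ := a.cover (d.h^[m * n] x)
  obtain ⟨p1, p2⟩ := hp m
  rw [eg] at p1 p2
  have hi : g (d.h^[m * n] x) ∈ (a.φ i).source := (show g _ = x from p1).symm ▸ hx
  rw [a.Jm_comp hg.1 (d.sm.iterate _) hx hj hi] at p2
  have hR := (hg.2 j i _ hj hi).1.isOrt.norm_le
  have hy := d.hyp (m * n) i j x hx hj
  obtain ⟨gU, gV, -, -, hG⟩ := odyn2_graph
  have hδ := d.δ_le
  have h4 := h2 i i x hx hx'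
  simp only [e] at h4
  refine SysE_lin (hG _ d.δ (d.Q_idem i x hx) (by linarith) (d.near i x hx)) (by linarith)
    (d.Q_idem i x hx) h4 (h3 i i x hx hx') (m := m) (fun v hv => ?_) fun v hv => ?_
  · rw [← p2, ← mulVec_mulVec]
    have c1 := ((hy v).1 hv).trans (mul_le_mul_of_nonneg_right hε (norm_nonneg _))
    linarith [(hR (a.Jm d.h^[m * n] i j x *ᵥ v)).2]
  · rw [← p2, ← mulVec_mulVec]
    have c1 := ((hy v).2 hv).trans (mul_le_mul_of_nonneg_right hε (norm_nonneg _))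
    linarith [(hR (a.Jm d.h^[m * n] i j x *ᵥ v)).1]

end SX4
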