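import Pool.Agent.P.MP_0a0487_an.SX.PerC
import Pool.Agent.P.MP_0a0487_an.SX.PerD
import Pool.Agent.P.MP_0a0487_an.SX.SysE
import Pool.Agent.P.MP_0a0487_an.SX.Lef
import Pool.Agent.P.MP_0a0487_an.SX.Betti
import Pool.Agent.P.MP_0a0487_an.SX.NoODyn

/-! The cohomological data of a finite cover. -/

set_option autoImplicit false
set_option linter.unusedSectionVars false

noncomputable section

namespace SX4

open scoped ComplexOrder ContDiff
open Filter Topology Matrix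

section

variable {P A : Type} [TopologicalSpace P] [CompactSpace P] [CommRing A] [StarRing A] [Algebra ℂ A]
  [StarModule ℂ A] {B : Base P A} {G : Pre B}

theorem Map.pull2_comp {f g h : Map G} (e : ∀ s ∈ B.W 0, h.Φ s = f.Φ (g.Φ s))
    {b : Fin 4 → Fin 4 → A} (hb : B.Form2 b) : h.pull2 b = f.pull2 (g.pull2 b) := by
  have k : ∀ i : Fin G.N × Fin G.N,
      (1 / 2 : ℂ) • ∑ γ, ∑ δ, b γ δ * G.θ γ i.1 * G.θ δ i.2 ∈ B.W 0 := fun i =>
    Submodule.smul_mem _ _ (G.mapB_coef_mem hb i.1 i.2)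
  rw [g.mapB_pull2_eq hb, h.mapB_pull2_eq hb, f.mapB_pull2_comb
    (fun i => g.mem _ (k i)) (fun i => g.mem _ (G.e_re _).1) fun i => g.mem _ (G.e_re _).1]
  simp only [e _ (k _), e _ (G.e_re _).1]

theorem Map.pull2_id {h : Map G} (e : ∀ s ∈ B.W 0, h.Φ s = s) {b : Fin 4 → Fin 4 → A}
    (hb : B.Form2 b) : h.pull2 b = b := by
  funext α β
  rw [G.mapB_key b α β]
  simp only [Map.pull2, e _ (G.mapB_coef_mem hb _ _), e _ (G.e_re _).1]

theorem Map.h2_comp {f g h : Map G} (e : ∀ s ∈ B.W 0, h.Φ s = f.Φ (g.Φ s)) :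
    h.mor.h2 = f.mor.h2 ∘ₗ g.mor.h2 := by
  refine Submodule.linearMap_qext _ (LinearMap.ext fun x => ?_)
  exact congrArg (Submodule.Quotient.mk (p := _))
    (Subtype.ext (Subtype.ext (Map.pull2_comp e x.1.2)))

theorem Map.h2_id {h : Map G} (e : ∀ s ∈ B.W 0, h.Φ s = s) : h.mor.h2 = LinearMap.id := by
  refine Submodule.linearMap_qext _ (LinearMap.ext fun x => ?_)
  exact congrArg (Submodule.Quotient.mk (p := _)) (Subtype.ext (Subtype.ext (Map.pull2_id e x.1.2)))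

end

variable {Y U Λ : Type} [TopologicalSpace Y] [TopologicalSpace U] [Group Λ] [MulAction Λ U]
  {a : Fr Y} {d : FDyn a 4} {q : U → Y} {deg : Λ →* Multiplicative ℤ} {S : Subgroup Λ}
  {D : Λ →* (Y ≃ₜ Y)} {t : Λ}

theorem Sys.eq_iff (h : Sys a d q deg S D t) (x y : U) : q x = q y ↔ ∃ s ∈ S, x = s • y := by
  rw [h.cov.apply_eq_iff_mem_orbit]
  exact ⟨fun ⟨s, hs⟩ => ⟨s, s.2, hs.symm⟩, fun ⟨s, hs, e⟩ => ⟨⟨s, hs⟩, e.symm⟩⟩

theorem Sys.D_of_mem (h : Sys a d q deg S D t) {s : Λ} (hs : s ∈ S) (y : Y) : D s y = y := by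
  obtain ⟨x, rfl⟩ := h.cov.surjective y
  rw [h.act, h.eq_iff]
  exact ⟨s, hs, rfl⟩

theorem Sys.ne (h : Sys a d q deg S D t) {l : Λ} (hl : l ∈ deg.ker) (hS : l ∉ S) (y : Y) :
    D l y ≠ y := by
  obtain ⟨x, rfl⟩ := h.cov.surjective y
  rw [h.act, Ne, h.eq_iff]
  rintro ⟨s, hs, e⟩
  have := h.free (s⁻¹ * l) (mul_mem (inv_mem (h.le hs)) hl) x (by rw [mul_smul, e, inv_smul_smul])
  exact hS (by rwa [← inv_mul_eq_one.1 this])

theorem Sys.exists_pk [CompactSpace Y] [T2Space Y] [ConnectedSpace Y] [SimplyConnectedSpace U]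
    [LocallyPathConnectedSpace U] [S.Normal] (h : Sys a d q deg S D t) :
    ∃ (V0 V1 V2 : Type) (_ : AddCommGroup V0) (_ : Module ℂ V0) (_ : AddCommGroup V1)
      (_ : Module ℂ V1) (_ : AddCommGroup V2) (_ : Module ℂ V2) (c : Cx V0 V1 V2) (p : c.Per S)
      (m : Λ → c.Mor), Pk c deg S D p m ∧ ∀ (b : ℕ) (cc : S → Fin b → ℤ), HB cc → 1 ≤ b ∧
        ∀ c₀ : deg.ker → ℤ, (∀ γ γ', c₀ (γ * γ') = c₀ γ + c₀ γ') →
          (∀ s : deg.ker, (s : Λ) ∈ S → 3 ∣ c₀ s) → (∃ γ, c₀ γ = 1) →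
          2 ≤ b ∧ b ≤ 4 ∧ Module.finrank ℂ c.H2 + 2 = 2 * b := by
  obtain ⟨P, A, _, _, _, _, _, _, _, B, G, T, ⟨l⟩, hI, hB⟩ := a.exists_geo h.ori
  have hm : ∀ γ : Λ, ∃ f : Map G.toPre, (∀ p, l.π (f.pt p) = D γ (l.π p)) ∧
      ∀ i j p, l.π p ∈ (a.φ i).source → D γ (l.π p) ∈ (a.φ j).source →
        l.R j (f.pt p) * f.J p = a.Jm (D γ) i j (l.π p) * l.R i p := fun γ =>
    l.exists_map hI (h.smooth γ).1 (h.smooth γ⁻¹).1
      (fun x => by rw [map_inv]; exact (D γ).symm_apply_apply x)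
      (fun x => by rw [map_inv]; exact (D γ).apply_symm_apply x) (h.smooth γ).2
  choose f hf hJ using hm
  have hΦ : ∀ γ γ', ∀ s ∈ B.W 0, (f (γ * γ')).Φ s = (f γ').Φ ((f γ).Φ s) := fun γ γ' s hs => by
    refine B.ext' fun p => ?_
    obtain ⟨u, -, hu⟩ := l.fn s hs
    rw [(f _).ev_eq s hs, (f γ').ev_eq _ ((f γ).mem s hs), (f γ).ev_eq s hs, hu, hu, hf, hf, hf,
      map_mul]
    rfl
  have hΦ1 : ∀ γ ∈ S, ∀ s ∈ B.W 0, (f γ).Φ s = s := fun γ hγ s hs => by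
    refine B.ext' fun p => ?_
    obtain ⟨u, -, hu⟩ := l.fn s hs
    rw [(f _).ev_eq s hs, hu, hu, hf, h.D_of_mem hγ]
  obtain ⟨p, hp⟩ := l.exists_per h.cov
  obtain ⟨k1, k2, k3⟩ := G.hodge
  obtain ⟨dy⟩ := l.exists_dyn hI h.ori d h.or h.ch
  have akp := G.akp_of_dyn dy
  refine ⟨_, _, _, _, _, _, _, _, _, G.cx, p, fun γ => (f γ).mor,
    ⟨k1, k2, k3, fun γ => hp (f γ) (fun x => γ • x) _ (h.cont γ)
      (fun z x e => by rw [hf, e, h.act]) fun s x => ?_, fun γ γ' => Map.h2_comp (hΦ γ γ'),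
      fun γ hγ => Map.h2_id (hΦ1 γ hγ), fun γ hγ => ?_⟩, fun b cc hc => ?_⟩
  · change γ • (s : Λ) • x = (γ * s * γ⁻¹) • γ • x
    simp only [smul_smul, inv_mul_cancel_right]
  · refine l.lefschetz G hI (h.smooth γ).1 (f γ) (f γ⁻¹) (hf γ) (fun p => ?_) fun i x hx e => ?_
    · rw [hf, map_inv]
      exact (D γ).apply_symm_apply _
    · rcases hγ with hγ | hγ
      · exact h.det_pos hγ i hx e
      · exact absurd e (h.ne hγ.1 hγ.2 x)
  · obtain ⟨u, hu⟩ := l.exists_lat h.cov hc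
    refine ⟨G.betti_pos hB akp hu, fun c₀ h1 h2 ⟨γ, h3⟩ => ?_⟩
    obtain ⟨v, v0, v1, v2⟩ := l.exists_unit h.le h.fin h.cov h.cont (fun γ => D γ) h.act
      (fun γ => (h.smooth γ).1) c₀ h1 h2
    obtain ⟨N, N0, -, N1⟩ := Subgroup.exists_pow_mem_of_relIndex_ne_zero h.fin γ.2
    refine G.betti hB akp hu (f γ) (fun p => ?_) N0 (fun s hs => ?_) v0 v1 ?_
    · obtain ⟨i, hi⟩ := a.cover (l.π p)
      obtain ⟨j, hj⟩ := a.cover (D γ (l.π p))
      have r1 := l.R_rot j ((f γ).pt p) (by rwa [hf])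
      have r2 := r1.transpose.mul (((h.deck γ γ.2).2 i j _ hi hj).1.mul (l.R_rot i p hi))
      rwa [← hJ γ i j p hi hj, ← mul_assoc, r1.isOrt.mul_transpose.2, one_mul] at r2
    · have : ∀ n : ℕ, (f γ).Φ^[n] s = (f (γ ^ n)).Φ s := fun n => by
        induction n with
        | zero => rw [pow_zero, hΦ1 1 (one_mem _) s hs]; rfl
        | succ n ih => rw [Function.iterate_succ_apply', ih, pow_succ, hΦ _ _ s hs]
      rw [this, hΦ1 _ N1.1 s hs]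
    · rw [v2 γ (f γ) (hf γ), h3, Int.cast_one, mul_one]

end SX4
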