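import Pool.Agent.P.MP_0a0487_an.SX.Sob
import Pool.Agent.P.MP_0a0487_an.SX.Fo

/-! Consequences of the axioms of mollifiers. -/

set_option autoImplicit false
set_option linter.unusedSectionVars false

noncomputable section

namespace SX4

open scoped ComplexOrder ContDiff
open Filter Topology

variable {P A : Type} [TopologicalSpace P] [CompactSpace P] [CommRing A] [StarRing A] [Algebra ℂ A]
  [StarModule ℂ A] {B : Base P A}

/-- A vector field as a linear map. -/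
def Pre.reg2V (G : Pre B) (g : Fin 4 → A) : A →ₗ[ℂ] A :=
  ∑ α, LinearMap.mulLeft ℂ (g α) ∘ₗ G.D α

theorem Pre.reg2V_eq (G : Pre B) (g : Fin 4 → A) (s : A) :
    ∑ α, g α * G.D α s = G.reg2V g s := by
  simp [Pre.reg2V, LinearMap.sum_apply]

theorem Pre.reg2V_mem (G : Pre B) {g : Fin 4 → A} (hg : ∀ α, g α ∈ B.W (-wt α)) {s : A}
    (hs : s ∈ B.W 0) : G.reg2V g s ∈ B.W 0 := by
  rw [← G.reg2V_eq]
  exact Submodule.sum_mem _ fun α _ => B.mul_mem' (hg α) (G.D_mem α hs) (by simp)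

theorem Pre.reg2V_mul (G : Pre B) (g : Fin 4 → A) (c s : A) :
    G.reg2V g (c * s) = G.reg2V g c * s + c * G.reg2V g s := by
  simp only [← G.reg2V_eq, G.D_mul, Fin.sum_univ_four]
  ring

theorem Pre.reg2V_left (G : Pre B) (g : Fin 4 → A) (c s : A) :
    G.reg2V (fun α => c * g α) s = c * G.reg2V g s := by
  simp only [← G.reg2V_eq, Fin.sum_univ_four]
  ring

theorem Pre.reg2V_nn (G : Pre B) (g : Fin 4 → A) (k : ℕ) :
    ∃ C : ℝ, 0 ≤ C ∧ ∀ s, G.nn k (G.reg2V g s) ≤ C * G.nn (k + 1) s := by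
  choose C hC hC' using fun α => G.nn_mul_le k (g α)
  refine ⟨∑ α, C α, Finset.sum_nonneg fun α _ => hC α, fun s => ?_⟩
  rw [← G.reg2V_eq, Finset.sum_mul]
  exact (G.nn_sum k _ _).trans (Finset.sum_le_sum fun α _ =>
    (hC' α _).trans (mul_le_mul_of_nonneg_left (G.nn_D k α s) (hC α)))

namespace Moll

variable {G : Pre B} (M : Moll G)

theorem reg2_bdd {K : ℕ → A →ₗ[ℂ] A} (hK : M.Kc K) :
    ∃ C : ℝ, 0 ≤ C ∧ ∀ n, ∀ s ∈ B.W 0, G.nrm (K n s) ≤ C * G.nrm s := by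
  obtain ⟨C, hC⟩ := M.bdd K hK
  exact ⟨max C 0, le_max_right _ _, fun n s hs =>
    (hC n s hs).trans (mul_le_mul_of_nonneg_right (le_max_left _ _) (G.nrm_nonneg s))⟩

theorem reg2_comb {K K' : ℕ → A →ₗ[ℂ] A} (hK : M.Kc K) (hK' : M.Kc K') (a b : ℂ) :
    ∃ L, M.Kc L ∧ ∀ n, ∀ s ∈ B.W 0, L n s = a • K n s + b • K' n s := by
  obtain ⟨K1, h1, e1⟩ := M.left K hK _ (B.algebraMap_mem a)
  obtain ⟨K2, h2, e2⟩ := M.left K' hK' _ (B.algebraMap_mem b)
  obtain ⟨L, h3, e3⟩ := M.add _ _ h1 h2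
  exact ⟨L, h3, fun n s hs => by
    rw [e3 n s hs, e1 n s hs, e2 n s hs, Algebra.smul_def, Algebra.smul_def]⟩

theorem reg2_ad {K : ℕ → A →ₗ[ℂ] A} (hK : M.Kc K) {g : Fin 4 → A}
    (hg : ∀ α, g α ∈ B.W (-wt α)) : ∃ K', M.Kc K' ∧ ∀ n, ∀ s ∈ B.W 0,
      K' n s = G.reg2V g (K n s) - K n (G.reg2V g s) := by
  simpa only [G.reg2V_eq] using M.ad K hK g hg

theorem nn_le {K : ℕ → A →ₗ[ℂ] A} (hK : M.Kc K) (k : ℕ) :
    ∃ C : ℝ, 0 ≤ C ∧ ∀ n, ∀ s ∈ B.W 0, G.nn k (K n s) ≤ C * G.nn k s := by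
  induction k generalizing K with
  | zero => exact M.reg2_bdd hK
  | succ k ih =>
    obtain ⟨m, g, C, hg, -, hC, h⟩ := G.nn_succ_le k
    obtain ⟨C0, p0, h0⟩ := M.reg2_bdd hK
    obtain ⟨C1, p1, h1⟩ := ih hK
    choose L hL e using fun i => M.reg2_ad hK (hg i)
    choose C2 p2 h2 using fun i => ih (hL i)
    choose C3 p3 h3 using fun i => G.reg2V_nn (g i) k
    refine ⟨C * (C0 + ∑ i, (C2 i + C1 * C3 i)), mul_nonneg hC (add_nonneg p0
      (Finset.sum_nonneg fun i _ => add_nonneg (p2 i) (mul_nonneg p1 (p3 i)))), fun n s hs => ?_⟩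
    refine (h _).trans ?_
    rw [mul_assoc, add_mul, Finset.sum_mul]
    refine mul_le_mul_of_nonneg_left (add_le_add ((h0 n s hs).trans
      (mul_le_mul_of_nonneg_left (G.nrm_le_nn _ s) p0)) (Finset.sum_le_sum fun i _ => ?_)) hC
    rw [G.reg2V_eq, ← sub_add_cancel (G.reg2V (g i) (K n s)) (K n (G.reg2V (g i) s)), ← e i n s hs,
      add_mul, mul_assoc]
    exact (G.nn_add _ _ _).trans (add_le_add ((h2 i n s hs).trans
      (mul_le_mul_of_nonneg_left (G.nn_mono k.le_succ s) (p2 i)))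
      ((h1 n _ (G.reg2V_mem (hg i) hs)).trans (mul_le_mul_of_nonneg_left (h3 i s) p1)))

theorem smooth_le {K : ℕ → A →ₗ[ℂ] A} (hK : M.Kc K) (k n : ℕ) :
    ∃ C : ℝ, 0 ≤ C ∧ ∀ s ∈ B.W 0, G.nn k (K n s) ≤ C * G.nrm s := by
  induction k generalizing K with
  | zero =>
    obtain ⟨C, p, h⟩ := M.reg2_bdd hK
    exact ⟨C, p, h n⟩
  | succ k ih =>
    obtain ⟨m, g, C, hg, -, hC, h⟩ := G.nn_succ_le k
    obtain ⟨C0, p0, h0⟩ := M.reg2_bdd hK
    choose L hL e using fun i => M.der K hK _ (hg i)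
    choose C2 p2 h2 using fun i => ih (hL i)
    refine ⟨C * (C0 + ∑ i, ‖(n : ℂ) + 1‖ * C2 i), mul_nonneg hC (add_nonneg p0
      (Finset.sum_nonneg fun i _ => mul_nonneg (norm_nonneg _) (p2 i))), fun s hs => ?_⟩
    refine (h _).trans ?_
    rw [mul_assoc, add_mul, Finset.sum_mul]
    refine mul_le_mul_of_nonneg_left (add_le_add (h0 n s hs) (Finset.sum_le_sum fun i _ => ?_)) hC
    rw [← e i n s hs, G.nn_smul, mul_assoc]
    exact mul_le_mul_of_nonneg_left (h2 i s hs) (norm_nonneg _)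

/-- Smoothing of a derivative. -/
theorem smooth_D_le {K : ℕ → A →ₗ[ℂ] A} (hK : M.Kc K) {g : Fin 4 → A}
    (hg : ∀ α, g α ∈ B.W (-wt α)) (k n : ℕ) :
    ∃ C : ℝ, 0 ≤ C ∧ ∀ s ∈ B.W 0, G.nn k (K n (∑ α, g α * G.D α s)) ≤ C * G.nrm s := by
  obtain ⟨L, hL, e⟩ := M.reg2_ad hK hg
  obtain ⟨C1, p1, h1⟩ := M.smooth_le hK (k + 1) n
  obtain ⟨C2, p2, h2⟩ := M.smooth_le hL k n
  obtain ⟨C3, p3, h3⟩ := G.reg2V_nn g k
  refine ⟨C3 * C1 + C2, by positivity, fun s hs => ?_⟩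
  rw [G.reg2V_eq, ← sub_sub_cancel (G.reg2V g (K n s)) (K n (G.reg2V g s)), ← e n s hs, add_mul,
    mul_assoc]
  exact (G.nn_sub _ _ _).trans
    (add_le_add ((h3 _).trans (mul_le_mul_of_nonneg_left (h1 s hs) p3)) (h2 s hs))

theorem J_tendsto {s : A} (hs : s ∈ B.W 0) (k : ℕ) :
    Tendsto (fun n => G.nn k (M.J n s - s)) atTop (𝓝 0) := by
  refine G.tendsto_nn (fun n => sub_mem (M.mem _ M.J_mem n s hs) hs) (fun l => ?_) (M.J_lim s hs) k
  obtain ⟨C, -, h⟩ := M.nn_le M.J_mem l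
  exact ⟨_, fun n => (G.nn_sub _ _ _).trans (add_le_add (h n s hs) le_rfl)⟩

/-- Friedrichs' lemma: the commutators with a vector field are uniformly bounded on `L²` and tend
to zero strongly. -/
theorem friedrichs {g : Fin 4 → A} (hg : ∀ α, g α ∈ B.W (-wt α)) {x : ℕ → A}
    (hx : ∀ m, x m ∈ B.W 0) (hc : ∀ ε > 0, ∃ m₀, ∀ m ≥ m₀, ∀ m' ≥ m₀, G.nrm (x m - x m') ≤ ε) :
    ∀ ε > 0, ∃ n₀, ∀ n ≥ n₀, ∀ m ≥ n₀,
      G.nrm (∑ α, g α * G.D α (M.J n (x m)) - M.J n (∑ α, g α * G.D α (x m))) ≤ ε := by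
  intro ε hε
  obtain ⟨L, hL, e⟩ := M.reg2_ad M.J_mem hg
  obtain ⟨C, p, h⟩ := M.reg2_bdd hL
  obtain ⟨C3, p3, h3⟩ := G.reg2V_nn g 0
  obtain ⟨m₀, hm⟩ := hc (ε / 2 / (C + 1)) (by positivity)
  have t := ((M.J_tendsto (hx m₀) (0 + 1)).const_mul C3).add
    (M.J_lim _ (G.reg2V_mem hg (hx m₀)))
  rw [mul_zero, add_zero] at t
  obtain ⟨n₁, hn⟩ := eventually_atTop.1 (t.eventually (eventually_le_nhds (half_pos hε)))
  refine ⟨max m₀ n₁, fun n h1 m h2 => ?_⟩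
  have a1 : G.nrm (L n (x m₀)) ≤ ε / 2 := by
    refine le_trans ?_ (hn n (le_of_max_le_right h1))
    have : L n (x m₀) = G.reg2V g (M.J n (x m₀) - x m₀) -
        (M.J n (G.reg2V g (x m₀)) - G.reg2V g (x m₀)) := by
      rw [e n _ (hx m₀), map_sub, sub_sub_sub_cancel_right]
    rw [this]
    exact (G.nn_sub 0 _ _).trans (add_le_add (h3 _) le_rfl)
  have a2 : G.nrm (L n (x m - x m₀)) ≤ ε / 2 := by
    refine (h n _ (sub_mem (hx m) (hx m₀))).trans ((mul_le_mul_of_nonneg_left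
      (hm m (le_of_max_le_left h2) m₀ le_rfl) p).trans ?_)
    rw [mul_div_assoc', div_le_iff₀ (by positivity)]
    nlinarith
  rw [G.reg2V_eq, G.reg2V_eq, ← e n _ (hx m), ← sub_add_cancel (x m) (x m₀), map_add]
  linarith [G.nrm_add (L n (x m - x m₀)) (L n (x m₀))]

/-- The commutator with a function gains one derivative. -/
theorem comm_gain {K : ℕ → A →ₗ[ℂ] A} (hK : M.Kc K) {c : A} (hc : c ∈ B.W 0) {g : Fin 4 → A}
    (hg : ∀ α, g α ∈ B.W (-wt α)) : ∃ K', M.Kc K' ∧ ∀ n, ∀ s ∈ B.W 0,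
      K' n s = ∑ α, g α * G.D α (K n (c * s) - c * K n s) := by
  obtain ⟨K1, h1, e1⟩ := M.right K hK c hc
  obtain ⟨K2, h2, e2⟩ := M.reg2_ad h1 hg
  obtain ⟨K3, h3, e3⟩ := M.reg2_ad hK (g := fun α => c * g α)
    fun α => B.mul_mem' hc (hg α) (zero_add _)
  obtain ⟨K4, h4, e4⟩ := M.left K hK _ (G.reg2V_mem hg hc)
  obtain ⟨K5, h5, e5⟩ := M.add _ _ h3 h4
  obtain ⟨K6, h6, e6⟩ := M.reg2_comb h2 h5 1 (-1)
  refine ⟨K6, h6, fun n s hs => ?_⟩
  rw [e6 n s hs, e5 n s hs, e2 n s hs, e3 n s hs, e4 n s hs, e1 n s hs,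
    e1 n _ (G.reg2V_mem hg hs), G.reg2V_eq, map_sub, G.reg2V_mul g c (K n s), G.reg2V_left,
    G.reg2V_left, one_smul, neg_one_smul]
  ring

/-- Decomposition into operators commuting with conjugation. -/
theorem exists_real {K : ℕ → A →ₗ[ℂ] A} (hK : M.Kc K) : ∃ K₁ K₂, M.Kc K₁ ∧ M.Kc K₂ ∧
    ∀ n, ∀ s ∈ B.W 0, K n s = K₁ n s + Complex.I • K₂ n s ∧
      star (K₁ n s) = K₁ n (star s) ∧ star (K₂ n s) = K₂ n (star s) := by
  obtain ⟨K', h, e⟩ := M.conj K hK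
  obtain ⟨K1, h1, e1⟩ := M.reg2_comb hK h (1 / 2) (1 / 2)
  obtain ⟨K2, h2, e2⟩ := M.reg2_comb hK h (-(Complex.I / 2)) (Complex.I / 2)
  refine ⟨K1, K2, h1, h2, fun n s hs => ?_⟩
  have hs' : star s ∈ B.W 0 := B.star_mem' hs neg_zero
  rw [e1 n s hs, e2 n s hs, e1 n _ hs', e2 n _ hs', e n s hs, e n _ hs', star_star]
  refine ⟨?_, ?_, ?_⟩
  · have : Complex.I * (Complex.I / 2) = -(1 / 2) := by
      linear_combination (1 / 2 : ℂ) * Complex.I_mul_I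
    rw [smul_add, smul_smul, smul_smul, mul_neg, this]
    module
  · simp [add_comm]
  · simp [add_comm, neg_div]

end Moll

/-- The approximate identity may be taken to commute with conjugation. -/
theorem Geo.exists_moll (G : Geo B) :
    ∃ M : Moll G.toPre, ∀ n, ∀ s ∈ B.W 0, star (M.J n s) = M.J n (star s) := by
  obtain ⟨M⟩ := G.moll
  obtain ⟨K', h, e⟩ := M.conj _ M.J_mem
  obtain ⟨K, h1, e1⟩ := M.reg2_comb M.J_mem h (1 / 2) (1 / 2)
  have st : ∀ {s}, s ∈ B.W 0 → star s ∈ B.W 0 := fun hs => B.star_mem' hs neg_zero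
  refine ⟨{ M with J := K, J_mem := h1, J_lim := fun s hs => ?_, J_adj := fun n => ?_ },
    fun n s hs => ?_⟩
  · have t := (M.J_lim s hs).add (M.J_lim _ (st hs))
    rw [add_zero] at t
    refine squeeze_zero (fun n => G.nrm_nonneg _) (fun n => ?_) t
    have : K n s - s =
        (1 / 2 : ℂ) • (M.J n s - s) + (1 / 2 : ℂ) • star (M.J n (star s) - star s) := by
      rw [e1 n s hs, e n s hs, star_sub, star_star]
      module
    rw [this]
    refine (G.nrm_add _ _).trans ?_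
    rw [G.nrm_smul, G.nrm_smul, G.nrm_star, show ‖(1 / 2 : ℂ)‖ = 1 / 2 by simp]
    linarith [G.nrm_nonneg (M.J n s - s), G.nrm_nonneg (M.J n (star s) - star s)]
  · obtain ⟨J', m, a⟩ := M.J_adj n
    let J2 : A →ₗ[ℂ] A :=
      { toFun := fun t => star (J' (star t))
        map_add' := fun x y => by simp
        map_smul' := fun c x => by simp }
    refine ⟨(1 / 2 : ℂ) • J' + (1 / 2 : ℂ) • J2, fun t ht => add_mem
      (Submodule.smul_mem _ _ (m t ht)) (Submodule.smul_mem _ _ (st (m _ (st ht)))),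
      fun s hs t ht => ?_⟩
    have b := congrArg (starRingEnd ℂ) (a _ (st hs) _ (st ht))
    rw [← G.I_star, ← G.I_star, star_mul', star_mul', star_star, star_star, star_star] at b
    have c : star (1 / 2 : ℂ) = 1 / 2 := by simp
    change G.I (star (K n s) * t) =
      G.I (star s * ((1 / 2 : ℂ) • J' t + (1 / 2 : ℂ) • star (J' (star t))))
    rw [e1 n s hs, e n s hs, star_add, star_smul, star_smul, star_star, c, add_mul, mul_add,
      smul_mul_assoc, smul_mul_assoc, mul_smul_comm, mul_smul_comm, map_add, map_add, map_smul,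
      map_smul, map_smul, map_smul, a s hs t ht, b]
  · change star (K n s) = K n (star s)
    rw [e1 n s hs, e1 n _ (st hs), e n s hs, e n _ (st hs), star_star]
    simp [add_comm]

end SX4
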