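import Pool.Agent.P.MP_0a0487_an.SX.Reg2

/-! Mollifiers acting on sections; commutators with first-order operators. -/

set_option autoImplicit false
set_option linter.unusedSectionVars false

noncomputable section

namespace SX4

open scoped ComplexOrder ContDiff
open Filter Topology

variable {P A : Type} [TopologicalSpace P] [CompactSpace P] [CommRing A] [StarRing A] [Algebra ℂ A]
  [StarModule ℂ A] {B : Base P A}

/-- Estimates that are uniform in `n` up to a multiple of the error `e`. -/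
def Reg3E {V : Type} (N e : V → ℝ) (φ : ℕ → V → ℝ) : Prop :=
  ∃ C : ℝ, 0 ≤ C ∧ ∀ n, ∃ C' : ℝ, 0 ≤ C' ∧ ∀ y, φ n y ≤ C * N y + C' * e y

namespace Reg3E

variable {V : Type} {N e : V → ℝ} {φ ψ : ℕ → V → ℝ}

theorem mono (h : Reg3E N e ψ) (hle : ∀ n y, φ n y ≤ ψ n y) : Reg3E N e φ := by
  obtain ⟨C, h0, h⟩ := h
  refine ⟨C, h0, fun n => ?_⟩
  obtain ⟨C', h1, h⟩ := h n
  exact ⟨C', h1, fun y => (hle n y).trans (h y)⟩

theorem zero : Reg3E N e fun _ _ => 0 := ⟨0, le_rfl, fun _ => ⟨0, le_rfl, fun _ => by simp⟩⟩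

theorem add (h : Reg3E N e φ) (h' : Reg3E N e ψ) : Reg3E N e fun n y => φ n y + ψ n y := by
  obtain ⟨C, h0, h⟩ := h
  obtain ⟨D, h0', h'⟩ := h'
  refine ⟨C + D, add_nonneg h0 h0', fun n => ?_⟩
  obtain ⟨C', h1, h⟩ := h n
  obtain ⟨D', h1', h'⟩ := h' n
  exact ⟨C' + D', add_nonneg h1 h1', fun y => by linarith [h y, h' y]⟩

theorem cmul (h : Reg3E N e φ) {c : ℝ} (hc : 0 ≤ c) : Reg3E N e fun n y => c * φ n y := by
  obtain ⟨C, h0, h⟩ := h
  refine ⟨c * C, mul_nonneg hc h0, fun n => ?_⟩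
  obtain ⟨C', h1, h⟩ := h n
  exact ⟨c * C', mul_nonneg hc h1, fun y => by
    have := mul_le_mul_of_nonneg_left (h y) hc
    linarith⟩

theorem sum {κ : Type} (S : Finset κ) {φ : κ → ℕ → V → ℝ} (h : ∀ i, Reg3E N e (φ i)) :
    Reg3E N e fun n y => ∑ i ∈ S, φ i n y := by
  classical
  induction S using Finset.induction_on with
  | empty => simpa using zero
  | insert a S ha ih => simpa only [Finset.sum_insert ha] using (h a).add ih

end Reg3E

/-- A generating family of weight `v`. -/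
structure Reg3G (B : Base P A) (v : Wt) where
  n : ℕ
  r : Fin n → A
  mem : ∀ a, r a ∈ B.W v
  sum : ∑ a, star (r a) * r a = 1

namespace Reg3G

variable {v : Wt} (ρ : Reg3G B v)

/-- The conjugate family. -/
def neg : Reg3G B (-v) where
  n := ρ.n
  r a := star (ρ.r a)
  mem a := B.star_mem (ρ.mem a)
  sum := by
    rw [← ρ.sum]
    exact Finset.sum_congr rfl fun a _ => by rw [star_star, mul_comm]

/-- The operator on elements of weight `v` attached to an operator on functions. -/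
def hat (K : A →ₗ[ℂ] A) : A →ₗ[ℂ] A :=
  ∑ a, LinearMap.mulLeft ℂ (ρ.r a) ∘ₗ K ∘ₗ LinearMap.mulLeft ℂ (star (ρ.r a))

theorem hat_apply (K : A →ₗ[ℂ] A) (t : A) :
    ρ.hat K t = ∑ a, ρ.r a * K (star (ρ.r a) * t) := by
  simp only [hat, LinearMap.sum_apply, LinearMap.comp_apply, LinearMap.mulLeft_apply]

theorem mem0 {t : A} (ht : t ∈ B.W v) (a : Fin ρ.n) : star (ρ.r a) * t ∈ B.W 0 :=
  B.mul_mem' (B.star_mem (ρ.mem a)) ht (neg_add_cancel v)

theorem hat_mem {K : A →ₗ[ℂ] A} (hK : ∀ s ∈ B.W 0, K s ∈ B.W 0) {t : A} (ht : t ∈ B.W v) :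
    ρ.hat K t ∈ B.W v := by
  rw [hat_apply]
  exact Submodule.sum_mem _ fun a _ => B.mul_mem' (ρ.mem a) (hK _ (ρ.mem0 ht a)) (add_zero v)

theorem dec (t : A) : ∑ a, ρ.r a * (star (ρ.r a) * t) = t := by
  have : ∑ a, ρ.r a * (star (ρ.r a) * t) = (∑ a, star (ρ.r a) * ρ.r a) * t := by
    rw [Finset.sum_mul]
    exact Finset.sum_congr rfl fun a _ => by ring
  rw [this, ρ.sum, one_mul]

theorem hat_star {K : A →ₗ[ℂ] A} (hK : ∀ s ∈ B.W 0, star (K s) = K (star s)) {t : A}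
    (ht : t ∈ B.W (-v)) : ρ.hat K (star t) = star (ρ.neg.hat K t) := by
  rw [hat_apply, hat_apply, star_sum]
  refine Finset.sum_congr rfl fun a _ => ?_
  rw [star_mul', hK _ (ρ.neg.mem0 ht a)]
  simp only [neg, star_star, star_mul']

end Reg3G

/-- A first-order operator without constant term. -/
def reg3P (G : Pre B) (b : Fin 4 → A) (s : A) : A := ∑ α, b α * G.D α s

theorem reg3P_mul (G : Pre B) (b : Fin 4 → A) (s t : A) :
    reg3P G b (s * t) = reg3P G b s * t + s * reg3P G b t := by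
  simp only [reg3P, G.D_mul, Finset.sum_mul, Finset.mul_sum, ← Finset.sum_add_distrib]
  exact Finset.sum_congr rfl fun α _ => by ring

theorem reg3P_sum (G : Pre B) (b : Fin 4 → A) {κ : Type} (S : Finset κ) (s : κ → A) :
    reg3P G b (∑ i ∈ S, s i) = ∑ i ∈ S, reg3P G b (s i) := by
  simp only [reg3P, map_sum, Finset.mul_sum]
  exact Finset.sum_comm

theorem reg3P_coef (G : Pre B) (b : Fin 4 → A) (c s : A) :
    ∑ α, c * b α * G.D α s = c * reg3P G b s := by
  simp only [reg3P, Finset.mul_sum, mul_assoc]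

theorem reg3P_mem (G : Pre B) {b : Fin 4 → A} {u v : Wt} (hb : ∀ α, b α ∈ B.W (v - u - wt α))
    {s : A} (hs : s ∈ B.W u) : reg3P G b s ∈ B.W v :=
  Submodule.sum_mem _ fun α _ => B.mul_mem' (hb α) (G.D_mem α hs) (by abel)

variable {G : Pre B} {ι : Type} [Fintype ι] {w : ι → Wt}

/-- Closure properties of a class of families of maps from sections to `A`. -/
structure Reg3C (M : Moll G) (w : ι → Wt) (Q : (ℕ → G.Sec w → A) → Prop) : Prop where
  base : ∀ K, M.Kc K → ∀ j, ∀ c ∈ B.W (-w j), Q fun n y => K n (c * y.c j)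
  zero : Q fun _ _ => 0
  star : ∀ {u}, Q u → Q fun n y => star (u n y)
  add : ∀ {u v}, Q u → Q v → Q fun n y => u n y + v n y
  mul : ∀ (q : A) {u}, Q u → Q fun n y => q * u n y

theorem reg3C_of (M : Moll G) (N e : G.Sec w → ℝ) (k : ℕ)
    (h : ∀ K, M.Kc K → ∀ j, ∀ c ∈ B.W (-w j), Reg3E N e fun n y => G.nn k (K n (c * y.c j))) :
    Reg3C M w fun u => Reg3E N e fun n y => G.nn k (u n y) where
  base := h
  zero := by simpa only [G.nn_zero] using Reg3E.zero
  star h := by simpa only [G.nn_star] using h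
  add h h' := (h.add h').mono fun _ _ => G.nn_add _ _ _
  mul q _ h := by
    obtain ⟨C, h0, hC⟩ := G.nn_mul_le k q
    exact (h.cmul h0).mono fun _ _ => hC _

namespace Reg3C

variable {M : Moll G} {Q : (ℕ → G.Sec w → A) → Prop} (h : Reg3C M w Q)

theorem congr {u v : ℕ → G.Sec w → A} (hu : Q u) (e : ∀ n y, v n y = u n y) : Q v := by
  have : v = u := funext fun n => funext fun y => e n y
  rwa [this]

include h

theorem sum {κ : Type} (S : Finset κ) {u : κ → ℕ → G.Sec w → A} (hu : ∀ i, Q (u i)) :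
    Q fun n y => ∑ i ∈ S, u i n y := by
  classical
  induction S using Finset.induction_on with
  | empty => simpa using h.zero
  | insert a S ha ih => simpa only [Finset.sum_insert ha] using h.add (hu a) ih

theorem sub {u v : ℕ → G.Sec w → A} (hu : Q u) (hv : Q v) : Q fun n y => u n y - v n y :=
  congr (h.add hu (h.mul (-1) hv)) fun _ _ => by ring

theorem baseS {K : ℕ → A →ₗ[ℂ] A} (hK : M.Kc K) (j : ι) {c : A} (hc : c ∈ B.W (w j)) :
    Q fun n y => K n (c * Star.star (y.c j)) := by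
  obtain ⟨K', hK', e⟩ := M.conj K hK
  refine congr (h.star (h.base K' hK' j _ (B.star_mem hc))) fun n y => ?_
  rw [e n _ (B.mul_mem' (B.star_mem hc) (y.mem j) (neg_add_cancel _)), star_star, star_mul',
    star_star]

theorem hat {K : ℕ → A →ₗ[ℂ] A} (hK : M.Kc K) {v : Wt} (ρ : Reg3G B v) (j : ι) {c : A}
    (hc : c ∈ B.W (v - w j)) : Q fun n y => ρ.hat (K n) (c * y.c j) := by
  refine congr (h.sum Finset.univ fun a => h.mul (ρ.r a)
    (h.base K hK j _ (B.mul_mem' (B.star_mem (ρ.mem a)) hc (by abel)))) fun n y => ?_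
  simp only [Reg3G.hat_apply, mul_assoc]

theorem hatS {K : ℕ → A →ₗ[ℂ] A} (hK : M.Kc K) {v : Wt} (ρ : Reg3G B v) (j : ι) {c : A}
    (hc : c ∈ B.W (v + w j)) : Q fun n y => ρ.hat (K n) (c * Star.star (y.c j)) := by
  refine congr (h.sum Finset.univ fun a => h.mul (ρ.r a)
    (h.baseS hK j (B.mul_mem' (B.star_mem (ρ.mem a)) hc (by abel)))) fun n y => ?_
  simp only [Reg3G.hat_apply, mul_assoc]

theorem hat1 {K : ℕ → A →ₗ[ℂ] A} (hK : M.Kc K) (j : ι) (ρ : Reg3G B (w j)) :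
    Q fun n y => ρ.hat (K n) (y.c j) :=
  congr (h.hat hK ρ j (c := 1) (by rw [sub_self]; exact B.one_mem)) fun _ _ => by rw [one_mul]

theorem key {K : ℕ → A →ₗ[ℂ] A} (hK : M.Kc K) (j : ι) {v : Wt} (ρ : Reg3G B v)
    (σ : Reg3G B (w j)) {b : Fin 4 → A} (hb : ∀ α, b α ∈ B.W (v - w j - wt α)) :
    Q fun n y => reg3P G b (σ.hat (K n) (y.c j)) - ρ.hat (K n) (reg3P G b (y.c j)) := by
  have hg : ∀ a a' α, Star.star (ρ.r a) * σ.r a' * b α ∈ B.W (-wt α) := fun a a' α =>
    B.mul_mem' (B.mul_mem (B.star_mem (ρ.mem a)) (σ.mem a')) (hb α) (by abel)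
  choose K' hK' e using fun a a' => M.ad K hK _ (hg a a')
  have h1 := h.sum Finset.univ fun a' => h.mul (reg3P G b (σ.r a'))
    (h.base K hK j _ (B.star_mem (σ.mem a')))
  have h2 := h.sum Finset.univ fun a => h.sum Finset.univ fun a' => h.mul (ρ.r a)
    (h.base _ (hK' a a') j _ (B.star_mem (σ.mem a')))
  have h3 := h.sum Finset.univ fun a => h.sum Finset.univ fun a' => h.mul (ρ.r a)
    (h.base K hK j (Star.star (ρ.r a) * reg3P G b (σ.r a') * Star.star (σ.r a'))
      (B.mul_mem' (B.mul_mem (B.star_mem (ρ.mem a)) (reg3P_mem G hb (σ.mem a')))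
        (B.star_mem (σ.mem a')) (by abel)))
  refine congr (h.sub (h.add h1 h2) h3) fun n y => ?_
  have e1 : reg3P G b (σ.hat (K n) (y.c j))
      = ∑ a', reg3P G b (σ.r a') * K n (Star.star (σ.r a') * y.c j)
        + ∑ a, ∑ a', ρ.r a * (Star.star (ρ.r a) * σ.r a' *
          reg3P G b (K n (Star.star (σ.r a') * y.c j))) := by
    rw [Reg3G.hat_apply, reg3P_sum, Finset.sum_comm, ← Finset.sum_add_distrib]
    refine Finset.sum_congr rfl fun a' _ => ?_
    simp only [mul_assoc]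
    rw [reg3P_mul, ρ.dec]
  have e2 : ρ.hat (K n) (reg3P G b (y.c j))
      = ∑ a, ∑ a', ρ.r a * K n (Star.star (ρ.r a) * reg3P G b (σ.r a') * Star.star (σ.r a') * y.c j)
        + ∑ a, ∑ a', ρ.r a * K n (Star.star (ρ.r a) * σ.r a' *
          reg3P G b (Star.star (σ.r a') * y.c j)) := by
    rw [Reg3G.hat_apply, ← Finset.sum_add_distrib]
    refine Finset.sum_congr rfl fun a _ => ?_
    rw [← Finset.mul_sum, ← Finset.mul_sum, ← mul_add, ← map_sum, ← map_sum, ← map_add]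
    refine congrArg _ (congrArg _ ?_)
    conv_lhs => rw [← σ.dec (y.c j), reg3P_sum, Finset.mul_sum]
    rw [← Finset.sum_add_distrib]
    refine Finset.sum_congr rfl fun a' _ => ?_
    rw [reg3P_mul]
    ring
  have e3 : ∑ a, ∑ a', ρ.r a * K' a a' n (Star.star (σ.r a') * y.c j)
      = ∑ a, ∑ a', ρ.r a * (Star.star (ρ.r a) * σ.r a' *
          reg3P G b (K n (Star.star (σ.r a') * y.c j)))
        - ∑ a, ∑ a', ρ.r a * K n (Star.star (ρ.r a) * σ.r a' *
          reg3P G b (Star.star (σ.r a') * y.c j)) := by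
    simp only [← Finset.sum_sub_distrib]
    refine Finset.sum_congr rfl fun a _ => Finset.sum_congr rfl fun a' _ => ?_
    rw [e a a' n _ (σ.mem0 (y.mem j) a'), reg3P_coef, reg3P_coef, mul_sub]
  rw [e1, e2, e3]
  ring

end Reg3C

/-- The operator on sections attached to an operator on functions. -/
def reg3H (γ : ∀ i, Reg3G B (w i)) (K : A →ₗ[ℂ] A) (hK : ∀ s ∈ B.W 0, K s ∈ B.W 0) :
    G.Sec w →+ G.Sec w where
  toFun s := G.mk' (fun i => (γ i).hat K (s.c i)) fun i => (γ i).hat_mem hK (s.mem i)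
  map_zero' := Pre.Sec.ext fun i => by simp
  map_add' s t := Pre.Sec.ext fun i => by simp

theorem reg3H_c (γ : ∀ i, Reg3G B (w i)) (K : A →ₗ[ℂ] A) (hK : ∀ s ∈ B.W 0, K s ∈ B.W 0)
    (s : G.Sec w) (i : ι) : (reg3H γ K hK s).c i = (γ i).hat K (s.c i) := rfl

theorem Reg3C.comm {M : Moll G} {Q : (ℕ → G.Sec w → A) → Prop} (h : Reg3C M w Q)
    {L : G.Sec w →ₗ[ℝ] G.Sec w} (hL : Pre.IsFO L) (γ : ∀ i, Reg3G B (w i))
    {K : ℕ → A →ₗ[ℂ] A} (hK : M.Kc K) (hr : ∀ n, ∀ s ∈ B.W 0, Star.star (K n s) = K n (Star.star s))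
    (i : ι) : Q fun n y => (L (reg3H γ (K n) (M.mem K hK n) y)
      - reg3H γ (K n) (M.mem K hK n) (L y)).c i := by
  obtain ⟨b, b', Z, hb, hb', ⟨β, β', hβ, hβ', hZ⟩, hL⟩ := hL
  have hb2 : ∀ j α, Star.star (b' α i j) ∈ B.W (-w i - w j - wt α) := fun j α =>
    B.star_mem' (hb' α i j) (by abel)
  have hL' : ∀ s : G.Sec w, (L s).c i = ∑ j, (β i j * s.c j + β' i j * Star.star (s.c j)
      + reg3P G (fun α => b α i j) (s.c j)
      + Star.star (reg3P G (fun α => Star.star (b' α i j)) (s.c j))) := by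
    intro s
    rw [hL, hZ, ← Finset.sum_add_distrib]
    refine Finset.sum_congr rfl fun j _ => ?_
    simp only [reg3P, star_sum, star_mul', star_star, Finset.sum_add_distrib, add_assoc]
  refine Reg3C.congr (h.sum Finset.univ fun j => h.add (h.add (h.add
    (h.sub (h.mul (β i j) (h.hat1 hK j (γ j))) (h.hat hK (γ i) j (hβ i j)))
    (h.sub (h.mul (β' i j) (h.star (h.hat1 hK j (γ j)))) (h.hatS hK (γ i) j (hβ' i j))))
    (h.key hK j (γ i) (γ j) fun α => hb α i j))
    (h.star (h.key hK j (γ i).neg (γ j) (hb2 j)))) fun n y => ?_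
  rw [Pre.Sec.c_sub, reg3H_c, hL', hL', map_sum, ← Finset.sum_sub_distrib]
  refine Finset.sum_congr rfl fun j _ => ?_
  rw [map_add, map_add, map_add, (γ i).hat_star (hr n) (reg3P_mem G (hb2 j) (y.mem j)), star_sub]
  simp only [reg3H_c]
  ring

end SX4
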