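import Pool.Agent.P.MP_0a0487_an.SX.Reg2
import Pool.Agent.P.MP_0a0487_an.SX.Reg3Aux

/-! Regularity of weak solutions of symmetric elliptic systems. -/

set_option autoImplicit false
set_option linter.unusedSectionVars false

noncomputable section

namespace SX4

open scoped ComplexOrder ContDiff
open Filter Topology

theorem reg3_null {V : Type} [NormedAddCommGroup V] {T : ℕ → V →+ V} {C : ℝ} (hC : 0 ≤ C)
    (hb : ∀ n a, ‖T n a‖ ≤ C * ‖a‖) (h0 : ∀ s, Tendsto (fun n => T n s) atTop (𝓝 0))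
    {x : ℕ → V} (hx : CauchySeq x) {μ : ℕ → ℕ} (hμ : Tendsto μ atTop atTop) :
    Tendsto (fun n => T n (x (μ n))) atTop (𝓝 0) := by
  rw [NormedAddGroup.tendsto_nhds_zero]
  intro ε hε
  obtain ⟨N, hN⟩ := Metric.cauchySeq_iff'.1 hx (ε / 2 / (C + 1)) (by positivity)
  filter_upwards [NormedAddGroup.tendsto_nhds_zero.1 (h0 (x N)) (ε / 2) (by positivity),
    hμ.eventually_ge_atTop N] with n h1 h2
  have h3 := hN _ h2
  rw [dist_eq_norm, lt_div_iff₀ (by positivity)] at h3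
  have e : T n (x (μ n)) = T n (x (μ n) - x N) + T n (x N) := by rw [map_sub, sub_add_cancel]
  rw [e]
  have h4 := norm_add_le (T n (x (μ n) - x N)) (T n (x N))
  have h5 := hb n (x (μ n) - x N)
  nlinarith [norm_nonneg (x (μ n) - x N)]

theorem reg3_weak {V : Type} [NormedAddCommGroup V] [InnerProductSpace ℝ V] {u : ℕ → V}
    (hu : CauchySeq u) {a : V}
    (h : ∀ s, Tendsto (fun m => inner ℝ (u m) s) atTop (𝓝 (inner ℝ a s))) :
    Tendsto u atTop (𝓝 a) := by
  rw [Metric.tendsto_atTop]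
  intro ε hε
  obtain ⟨N, hN⟩ := Metric.cauchySeq_iff.1 hu (ε / 2) (by positivity)
  refine ⟨N, fun m hm => ?_⟩
  rw [dist_eq_norm]
  have h1 : Tendsto (fun m' => inner ℝ (u m) (u m - a) - inner ℝ (u m') (u m - a)) atTop
      (𝓝 (inner ℝ (u m) (u m - a) - inner ℝ a (u m - a))) := tendsto_const_nhds.sub (h _)
  have h2 : inner ℝ (u m) (u m - a) - inner ℝ a (u m - a) ≤ ε / 2 * ‖u m - a‖ := by
    refine le_of_tendsto h1 ?_
    filter_upwards [eventually_ge_atTop N] with m' hm'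
    rw [← inner_sub_left]
    have h3 := hN m hm m' hm'
    rw [dist_eq_norm] at h3
    exact (real_inner_le_norm _ _).trans (mul_le_mul_of_nonneg_right h3.le (norm_nonneg _))
  rw [← inner_sub_left, real_inner_self_eq_norm_sq] at h2
  by_contra hcon
  push Not at hcon
  nlinarith

variable {P A : Type} [TopologicalSpace P] [CompactSpace P] [CommRing A] [StarRing A] [Algebra ℂ A]
  [StarModule ℂ A] {B : Base P A}

section

variable {G : Pre B} {ι : Type} [Fintype ι] {w : ι → Wt}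

theorem reg3_nrm_mul (c : A) (y : G.Sec w) (j : ι) : G.nrm (c * y.c j) ≤ ‖B.ev c‖ * ‖y‖ :=
  (G.nrm_mul_le _ _).trans (mul_le_mul_of_nonneg_left (y.nrm_le_norm j) (norm_nonneg _))

theorem reg3_mem0 {j : ι} {c : A} (hc : c ∈ B.W (-w j)) (y : G.Sec w) : c * y.c j ∈ B.W 0 :=
  B.mul_mem' hc (y.mem j) (neg_add_cancel _)

theorem reg3_l2 (M : Moll G) (N e : G.Sec w → ℝ) (hN : ∀ y, ‖y‖ ≤ N y) :
    Reg3C M w fun u => Reg3E N e fun n y => G.nn 0 (u n y) := by
  refine reg3C_of M N e 0 fun K hK j c hc => ?_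
  obtain ⟨C, h0, h⟩ := M.nn_le hK 0
  refine ⟨C * ‖B.ev c‖, by positivity, fun n => ⟨0, le_rfl, fun y => ?_⟩⟩
  rw [zero_mul, add_zero, mul_assoc]
  exact (h n _ (reg3_mem0 hc y)).trans (mul_le_mul_of_nonneg_left ((reg3_nrm_mul c y j).trans
    (mul_le_mul_of_nonneg_left (hN y) (norm_nonneg _))) h0)

theorem reg3_sm0 (M : Moll G) (N : G.Sec w → ℝ) (S : G.Sec w → G.Sec w) (k : ℕ)
    {K : ℕ → A →ₗ[ℂ] A} (hK : M.Kc K) (j : ι) {c : A} (hc : c ∈ B.W (-w j)) :
    Reg3E N (fun y => ‖S y‖) fun n y => G.nn k (K n (c * (S y).c j)) := by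
  refine ⟨0, le_rfl, fun n => ?_⟩
  obtain ⟨C, h0, h⟩ := M.smooth_le hK k n
  refine ⟨C * ‖B.ev c‖, by positivity, fun y => ?_⟩
  rw [zero_mul, zero_add, mul_assoc]
  exact (h _ (reg3_mem0 hc _)).trans (mul_le_mul_of_nonneg_left (reg3_nrm_mul c _ j) h0)

theorem reg3_sm (M : Moll G) (k : ℕ) :
    Reg3C M w fun u => Reg3E (fun _ => 0) (fun y => ‖y‖) fun n y => G.nn k (u n y) :=
  reg3C_of M _ _ k fun _ hK j _ hc => reg3_sm0 M _ (fun y => y) k hK j hc

theorem reg3_step (M : Moll G) {L : G.Sec w →ₗ[ℝ] G.Sec w} (hL : Pre.Ell L L) (f : G.Sec w)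
    (k : ℕ) (h : Reg3C M w fun u => Reg3E (fun y => ‖y‖ + 1) (fun y => ‖L y - f‖)
      fun n y => G.nn k (u n y)) :
    Reg3C M w fun u => Reg3E (fun y => ‖y‖ + 1) (fun y => ‖L y - f‖)
      fun n y => G.nn (k + 1) (u n y) := by
  have hγ : ∀ i, Nonempty (Reg3G B (w i)) := fun i => by
    obtain ⟨n, t, h1, h2⟩ := G.toCalc.exists_gens (w i)
    exact ⟨⟨n, t, h1, h2⟩⟩
  have γ : ∀ i, Reg3G B (w i) := fun i => (hγ i).some
  obtain ⟨Ce, hCe, hest⟩ := hL.fo.est hL.gar k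
  obtain ⟨m, g, Cg, hg, -, hCg, hsucc⟩ := G.nn_succ_le k
  have hmul : ∀ (q : A) {u : ℕ → G.Sec w → A},
      (Reg3E (fun y => ‖y‖ + 1) (fun y => ‖L y - f‖) fun n y => G.nn (k + 1) (u n y)) →
      Reg3E (fun y => ‖y‖ + 1) (fun y => ‖L y - f‖) fun n y => G.nn (k + 1) (q * u n y) := by
    intro q u hu
    obtain ⟨C, h0, hC⟩ := G.nn_mul_le (k + 1) q
    exact (hu.cmul h0).mono fun _ _ => hC _
  have hreal : ∀ K, M.Kc K → (∀ n, ∀ s ∈ B.W 0, star (K n s) = K n (star s)) → ∀ j,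
      ∀ c ∈ B.W (-w j), Reg3E (fun y => ‖y‖ + 1) (fun y => ‖L y - f‖)
        fun n y => G.nn (k + 1) (K n (c * y.c j)) := by
    intro K hK hr j c hc
    have a1 : ∀ t ∈ B.W 0, Reg3E (fun y : G.Sec w => ‖y‖ + 1) (fun y => ‖L y - f‖)
        fun n _ => G.nn k (K n t) := by
      intro t ht
      obtain ⟨C, h0, hC⟩ := M.nn_le hK k
      have h1 := mul_nonneg h0 (G.nn_nonneg k t)
      refine ⟨C * G.nn k t, h1, fun n => ⟨0, le_rfl, fun y => ?_⟩⟩
      have h2 := hC n t ht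
      have h3 := mul_nonneg h1 (norm_nonneg y)
      linarith
    have a2 : ∀ i, Reg3E (fun y : G.Sec w => ‖y‖ + 1) (fun y => ‖L y - f‖)
        fun n y => G.nn k ((L (reg3H γ (K n) (M.mem K hK n) y)).c i) := by
      intro i
      refine Reg3C.congr (Q := fun u => Reg3E (fun y : G.Sec w => ‖y‖ + 1) (fun y => ‖L y - f‖)
        fun n y => G.nn k (u n y)) (h.add (h.add (h.comm hL.fo γ hK hr i)
        (h.sum Finset.univ fun a => h.mul ((γ i).r a) (a1 _ ((γ i).mem0 (f.mem i) a))))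
        (h.sum Finset.univ fun a => h.mul ((γ i).r a)
          (reg3_sm0 M _ (fun y => L y - f) k hK i (B.star_mem ((γ i).mem a))))) fun n y => ?_
      rw [← Reg3G.hat_apply, ← Reg3G.hat_apply, Pre.Sec.c_sub, Pre.Sec.c_sub, map_sub, reg3H_c]
      ring
    have a3 : Reg3E (fun y : G.Sec w => ‖y‖ + 1) (fun y => ‖L y - f‖)
        fun n y => G.nn (k + 1) ((γ j).hat (K n) (y.c j)) :=
      (((Reg3E.sum Finset.univ a2).add
        (Reg3E.sum Finset.univ fun i => h.hat1 hK i (γ i))).cmul hCe).mono fun n y =>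
        ((reg3H γ (K n) (M.mem K hK n) y).nn_le_nS (k + 1) j).trans (hest _)
    have a4 : ∀ a, Reg3E (fun y : G.Sec w => ‖y‖ + 1) (fun y => ‖L y - f‖)
        fun n y => G.nn (k + 1) (K n (c * (γ j).r a * (star ((γ j).r a) * y.c j))
          - c * (γ j).r a * K n (star ((γ j).r a) * y.c j)) := by
      intro a
      have hc' : c * (γ j).r a ∈ B.W 0 := B.mul_mem' hc ((γ j).mem a) (neg_add_cancel _)
      choose K' hK' e using fun i => M.comm_gain hK hc' (hg i)
      have b1 := h.sub (h.base K hK j (c * (γ j).r a * star ((γ j).r a))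
        (B.mul_mem' hc' (B.star_mem ((γ j).mem a)) (zero_add _)))
        (h.mul (c * (γ j).r a) (h.base K hK j _ (B.star_mem ((γ j).mem a))))
      have b2 := Reg3E.sum Finset.univ fun i =>
        h.base _ (hK' i) j _ (B.star_mem ((γ j).mem a))
      refine ((b1.add b2).cmul hCg).mono fun n y => (hsucc _).trans
        (mul_le_mul_of_nonneg_left (add_le_add ?_ (le_of_eq ?_)) hCg)
      · beta_reduce
        rw [mul_assoc (c * (γ j).r a)]
        exact G.nrm_le_nn _ _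
      · refine Finset.sum_congr rfl fun i _ => ?_
        beta_reduce
        rw [e i n _ ((γ j).mem0 (y.mem j) a)]
    refine ((hmul c a3).add (Reg3E.sum Finset.univ a4)).mono fun n y => ?_
    have e : K n (c * y.c j) = c * (γ j).hat (K n) (y.c j)
        + ∑ a, (K n (c * (γ j).r a * (star ((γ j).r a) * y.c j))
          - c * (γ j).r a * K n (star ((γ j).r a) * y.c j)) := by
      rw [Finset.sum_sub_distrib, ← map_sum, Reg3G.hat_apply, Finset.mul_sum]
      simp only [mul_assoc]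
      rw [← Finset.mul_sum _ _ c, ← Finset.mul_sum _ _ c, (γ j).dec]
      ring
    rw [e]
    exact (G.nn_add _ _ _).trans (add_le_add le_rfl (G.nn_sum _ _ _))
  refine reg3C_of M _ _ (k + 1) fun K hK j c hc => ?_
  obtain ⟨K₁, K₂, h1, h2, e⟩ := M.exists_real hK
  refine ((hreal K₁ h1 (fun n s hs => (e n s hs).2.1) j c hc).add
    (hreal K₂ h2 (fun n s hs => (e n s hs).2.2) j c hc)).mono fun n y => ?_
  rw [(e n _ (reg3_mem0 hc y)).1]
  refine (G.nn_add _ _ _).trans (le_of_eq ?_)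
  rw [G.nn_smul, Complex.norm_I, one_mul]

theorem reg3_est (M : Moll G) {L : G.Sec w →ₗ[ℝ] G.Sec w} (hL : Pre.Ell L L) (f : G.Sec w)
    (k : ℕ) : Reg3C M w fun u => Reg3E (fun y => ‖y‖ + 1) (fun y => ‖L y - f‖)
      fun n y => G.nn k (u n y) := by
  induction k with
  | zero => exact reg3_l2 M _ _ fun y => by linarith
  | succ k ih => exact reg3_step M hL f k ih

theorem reg3_bdd {T : ℕ → G.Sec w → G.Sec w}
    (h : ∀ i, Reg3E (fun y : G.Sec w => ‖y‖) (fun _ => 0) fun n y => G.nn 0 ((T n y).c i)) :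
    ∃ C : ℝ, 0 ≤ C ∧ ∀ n y, ‖T n y‖ ≤ C * ‖y‖ := by
  obtain ⟨C, h0, hC⟩ := Reg3E.sum Finset.univ h
  refine ⟨C, h0, fun n y => ?_⟩
  obtain ⟨C', -, h1⟩ := hC n
  have h2 := h1 y
  rw [mul_zero, add_zero] at h2
  exact ((T n y).norm_le_nS 0).trans h2

theorem reg3_J_tendsto (M : Moll G) (γ : ∀ i, Reg3G B (w i)) (s : G.Sec w) (k : ℕ) :
    Tendsto (fun n => (reg3H γ (M.J n) (M.mem _ M.J_mem n) s - s).nS k) atTop (𝓝 0) := by
  have h : ∀ i, Tendsto (fun n => G.nn k ((γ i).hat (M.J n) (s.c i) - s.c i)) atTop (𝓝 0) := by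
    intro i
    choose C h0 hC using fun a => G.nn_mul_le k ((γ i).r a)
    have h1 := tendsto_finsetSum Finset.univ fun a _ =>
      (M.J_tendsto ((γ i).mem0 (s.mem i) a) k).const_mul (C a)
    simp only [mul_zero, Finset.sum_const_zero] at h1
    refine squeeze_zero (fun n => G.nn_nonneg _ _) (fun n => ?_) h1
    have e : (γ i).hat (M.J n) (s.c i) - s.c i = ∑ a, (γ i).r a *
        (M.J n (star ((γ i).r a) * s.c i) - star ((γ i).r a) * s.c i) := by
      simp only [mul_sub, Finset.sum_sub_distrib]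
      rw [(γ i).dec, Reg3G.hat_apply]
    rw [e]
    exact (G.nn_sum _ _ _).trans (Finset.sum_le_sum fun a _ => hC a _)
  have h1 := tendsto_finsetSum Finset.univ fun i _ => h i
  simp only [Finset.sum_const_zero] at h1
  exact h1

theorem reg3_adj (M : Moll G) (γ : ∀ i, Reg3G B (w i)) (n : ℕ) (s : G.Sec w) :
    ∃ s' : G.Sec w, ∀ t, inner ℝ (reg3H γ (M.J n) (M.mem _ M.J_mem n) t) s = inner ℝ t s' := by
  obtain ⟨J', h1, h2⟩ := M.J_adj n
  refine ⟨reg3H γ J' h1 s, fun t => ?_⟩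
  rw [Pre.inner_real, Pre.inner_real]
  refine Finset.sum_congr rfl fun i _ => congrArg Complex.re ?_
  rw [reg3H_c, reg3H_c, Reg3G.hat_apply, Reg3G.hat_apply, star_sum, Finset.sum_mul, Finset.mul_sum,
    map_sum, map_sum]
  refine Finset.sum_congr rfl fun a _ => ?_
  have h3 := h2 _ ((γ i).mem0 (t.mem i) a) _ ((γ i).mem0 (s.mem i) a)
  rw [star_mul', star_star] at h3
  rw [star_mul', mul_comm (star ((γ i).r a)) (star _), mul_assoc, h3]
  exact congrArg _ (by ring)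

end

theorem Geo.reg_symm (G : Geo B) {ι : Type} [Fintype ι] {w : ι → Wt}
    {L : G.Sec w →ₗ[ℝ] G.Sec w} (h : Pre.Ell L L) (f : G.Sec w) (x : ℕ → G.Sec w)
    (hx : CauchySeq x)
    (hw : ∀ s, Tendsto (fun m => inner ℝ (x m) (L s)) atTop (𝓝 (inner ℝ f s))) :
    ∃ x₀, Tendsto x atTop (𝓝 x₀) := by
  obtain ⟨M, hr⟩ := G.exists_moll
  have hγ : ∀ i, Nonempty (Reg3G B (w i)) := fun i => by
    obtain ⟨n, t, h1, h2⟩ := G.toCalc.exists_gens (w i)
    exact ⟨⟨n, t, h1, h2⟩⟩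
  have γ : ∀ i, Reg3G B (w i) := fun i => (hγ i).some
  have hl2 := reg3_l2 M (fun y : G.Sec w => ‖y‖) (fun _ => 0) fun _ => le_rfl
  obtain ⟨C1, hC1, b1⟩ := reg3_bdd (T := fun n y => reg3H γ (M.J n) (M.mem _ M.J_mem n) y)
    fun i => hl2.hat1 M.J_mem i (γ i)
  obtain ⟨C2, hC2, b2⟩ := reg3_bdd fun i => hl2.comm h.fo γ M.J_mem hr i
  obtain ⟨C3, -, b3⟩ := Reg3E.sum Finset.univ fun i => (reg3_sm M 1).hat1 M.J_mem i (γ i)
  have hE := fun k => Reg3E.sum Finset.univ fun i => (reg3_est M h f k).hat1 M.J_mem i (γ i)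
  have hJt := reg3_J_tendsto M γ
  have hadj := reg3_adj M γ
  have hnS : ∀ n y k, ∑ i, G.nn k ((γ i).hat (M.J n) (y.c i))
      = (reg3H γ (M.J n) (M.mem _ M.J_mem n) y).nS k := fun _ _ _ => rfl
  simp only [hnS] at b3 hE
  generalize hJ : (fun n => reg3H (G := G.toPre) γ (M.J n) (M.mem _ M.J_mem n)) = J
  have hJ' : ∀ n, reg3H (G := G.toPre) γ (M.J n) (M.mem _ M.J_mem n) = J n := congrFun hJ
  simp only [hJ'] at b1 b2 b3 hE hJt hadj
  obtain ⟨CL, hCL, bL⟩ := h.fo.nS_le 0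
  have t1 : ∀ s, Tendsto (fun n => J n s - s) atTop (𝓝 0) := fun s =>
    squeeze_zero_norm (fun n => Pre.Sec.norm_le_nS _ 0) (hJt s 0)
  have t2 : ∀ s, Tendsto (fun n => L (J n s) - J n (L s)) atTop (𝓝 0) := by
    intro s
    have a1 : Tendsto (fun n => L (J n s - s)) atTop (𝓝 0) := by
      have a2 := (hJt s 1).const_mul CL
      rw [mul_zero] at a2
      exact squeeze_zero_norm (fun n => (Pre.Sec.norm_le_nS _ 0).trans (bL _)) a2
    have a3 := a1.sub (t1 (L s))
    rw [sub_zero] at a3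
    refine a3.congr fun n => ?_
    rw [map_sub]; abel
  have n1 : ∀ z : ℕ → G.Sec w, CauchySeq z → ∀ μ : ℕ → ℕ, Tendsto μ atTop atTop →
      Tendsto (fun n => J n (z (μ n)) - z (μ n)) atTop (𝓝 0) := fun z hz μ hμ =>
    reg3_null (T := fun n => J n - AddMonoidHom.id _) (C := C1 + 1) (by linarith)
      (fun n a => (norm_sub_le _ _).trans (by
        have := b1 n a
        simp only [AddMonoidHom.id_apply]
        linarith)) t1 hz hμ
  have t3 : ∀ n, Tendsto (fun m => J n (L (x m))) atTop (𝓝 (J n f)) := by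
    intro n
    obtain ⟨C', hC', b4⟩ := b3 n
    refine reg3_weak ?_ fun s => ?_
    · have hb : ∀ y, ‖((J n).comp L.toAddMonoidHom) y‖ ≤ (CL * C' + C2) * ‖y‖ := by
        intro y
        have a1 := b2 n y
        have a2 := ((L (J n y)).norm_le_nS 0).trans (bL (J n y))
        have a3 := mul_le_mul_of_nonneg_left (b4 y) hCL
        have a4 := norm_sub_le (L (J n y)) (L (J n y) - J n (L y))
        rw [sub_sub_cancel] at a4
        change ‖J n (L y)‖ ≤ _
        nlinarith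
      exact (AddMonoidHomClass.uniformContinuous_of_bound _ _ hb).comp_cauchySeq hx
    · obtain ⟨s', hs'⟩ := hadj n s
      simp only [hs', h.adj]
      exact hw s'
  have hμ : ∀ n : ℕ, ∃ m, n ≤ m ∧ ‖J n (L (x m)) - J n f‖ ≤ 1 / ((n : ℝ) + 1) := by
    intro n
    obtain ⟨N, hN⟩ := Metric.tendsto_atTop.1 (t3 n) (1 / ((n : ℝ) + 1)) (by positivity)
    refine ⟨max n N, le_max_left _ _, ?_⟩
    rw [← dist_eq_norm]
    exact (hN _ (le_max_right _ _)).le
  choose μ hμ1 hμ2 using hμ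
  have hμt : Tendsto μ atTop atTop := tendsto_atTop_mono hμ1 tendsto_id
  have y1 := n1 x hx μ hμt
  have y2 : Tendsto (fun n => L (J n (x (μ n))) - f) atTop (𝓝 0) := by
    have a1 : Tendsto (fun n => L (J n (x (μ n))) - J n (L (x (μ n)))) atTop (𝓝 0) :=
      reg3_null (T := fun n => L.toAddMonoidHom.comp (J n) - (J n).comp L.toAddMonoidHom) hC2
        b2 t2 hx hμt
    have a2 : Tendsto (fun n => J n (L (x (μ n))) - J n f) atTop (𝓝 0) :=
      squeeze_zero_norm hμ2 tendsto_one_div_add_atTop_nhds_zero_nat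
    have a3 := (a1.add a2).add (t1 f)
    rw [add_zero, add_zero] at a3
    exact a3.congr fun n => by abel
  generalize hy : (fun n => J n (x (μ n))) = y
  have hy' : ∀ n, J n (x (μ n)) = y n := congrFun hy
  simp only [hy'] at y1 y2
  have y3 : CauchySeq y := by
    have a1 := y1.cauchySeq.add (hx.comp_tendsto hμt)
    have e : y = (fun n => y n - x (μ n)) + x ∘ μ := funext fun n => by simp
    rwa [e]
  obtain ⟨R, hR⟩ : ∃ R, ∀ n, ‖y n‖ ≤ R := by
    obtain ⟨R, -, hR⟩ := cauchySeq_bdd y3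
    refine ⟨R + ‖y 0‖, fun n => ?_⟩
    have a1 := hR n 0
    rw [dist_eq_norm] at a1
    have a2 := norm_sub_norm_le (y n) (y 0)
    linarith
  choose C hC0 C' hC0' hE using hE
  have hν : ∀ n : ℕ, ∃ m, n ≤ m ∧ ∀ k ∈ Finset.range (n + 1), C' k n * ‖L (y m) - f‖ ≤ 1 := by
    intro n
    have a1 : ∀ k ∈ Finset.range (n + 1), ∀ᶠ m in atTop, C' k n * ‖L (y m) - f‖ ≤ 1 := by
      intro k _
      have a2 := (tendsto_zero_iff_norm_tendsto_zero.1 y2).const_mul (C' k n)
      rw [mul_zero] at a2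
      exact a2.eventually_le_const one_pos
    exact ((eventually_ge_atTop n).and ((eventually_all_finset _).2 a1)).exists
  choose ν hν1 hν2 using hν
  have hνt : Tendsto ν atTop atTop := tendsto_atTop_mono hν1 tendsto_id
  obtain ⟨φ, u, hφ, hu, hlim⟩ := G.montel w (fun n i => (J n (y (ν n))).c i)
    (fun n i => Pre.Sec.mem _ i) (fun k => by
      refine ⟨C k * (R + 1) + 1 + ∑ n ∈ Finset.range k, (J n (y (ν n))).nS k, fun n i => ?_⟩
      refine (Pre.Sec.nn_le_nS _ k i).trans ?_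
      have a0 : 0 ≤ C k * (R + 1) :=
        mul_nonneg (hC0 k) (by linarith [hR 0, norm_nonneg (y 0)])
      rcases lt_or_ge n k with hn | hn
      · have a1 := Finset.single_le_sum (f := fun n => (J n (y (ν n))).nS k)
          (fun n _ => Pre.Sec.nS_nonneg _ k) (Finset.mem_range.2 hn)
        linarith
      · have a1 := hE k n (y (ν n))
        have a2 := hν2 n k (Finset.mem_range.2 (by omega))
        have a3 := mul_le_mul_of_nonneg_left (add_le_add_left (hR (ν n)) 1) (hC0 k)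
        have a4 : 0 ≤ ∑ n ∈ Finset.range k, (J n (y (ν n))).nS k :=
          Finset.sum_nonneg fun n _ => Pre.Sec.nS_nonneg _ k
        linarith)
  refine ⟨G.mk' u hu, tendsto_nhds_of_cauchySeq_of_subseq hx
    (hμt.comp (hνt.comp hφ.tendsto_atTop)) ?_⟩
  have a1 : Tendsto (fun n => J (φ n) (y (ν (φ n))) - G.mk' u hu) atTop (𝓝 0) := by
    have a2 := tendsto_finsetSum Finset.univ fun i _ => hlim 0 i
    simp only [Finset.sum_const_zero] at a2
    exact squeeze_zero_norm (fun n => Pre.Sec.norm_le_nS _ 0) a2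
  have a2 := (n1 y y3 ν hνt).comp hφ.tendsto_atTop
  have a3 := y1.comp (hνt.comp hφ.tendsto_atTop)
  have a4 := ((a1.sub a2).sub a3).add_const (G.mk' u hu)
  rw [sub_zero, sub_zero, zero_add] at a4
  refine a4.congr fun n => ?_
  simp only [Function.comp_apply]
  abel

end SX4
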