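import Pool.Agent.P.MP_0a0487_an.SX.SysDefs
import Pool.Agent.P.MP_0a0487_an.SX.ODyn2
import Pool.Agent.P.MP_0a0487_an.SX.Restr

/-! Framed atlases on finite covers. -/

set_option autoImplicit false
set_option linter.unusedSectionVars false

noncomputable section

namespace SX4

open scoped ComplexOrder ContDiff
open Filter Topology Matrix

/-- The atlas `a'` is the pull-back of `a` under `π`. -/
structure Fr.Lift {Y' Y : Type} [TopologicalSpace Y'] [TopologicalSpace Y] (a' : Fr Y') (a : Fr Y)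
    (π : Y' → Y) (ix : Fin a'.n → Fin a.n) : Prop where
  cont : Continuous π
  mem : ∀ i, ∀ y ∈ (a'.φ i).source, π y ∈ (a.φ (ix i)).source ∧ a'.φ i y = a.φ (ix i) (π y)
  target : ∀ i, (a'.φ i).target = (a.φ (ix i)).target
  V_eq : ∀ i, a'.V i = a.V (ix i)

theorem SysB_chart {Y' Y : Type} [TopologicalSpace Y'] [TopologicalSpace Y] {π : Y' → Y}
    (hπ : IsCoveringMap π) (φ : OpenPartialHomeomorph Y E4) (hc : Convex ℝ φ.target) {y₀ : Y'}
    (h₀ : π y₀ ∈ φ.source) : ∃ ψ : OpenPartialHomeomorph Y' E4, y₀ ∈ ψ.source ∧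
      ψ.target = φ.target ∧ ∀ y ∈ ψ.source, π y ∈ φ.source ∧ ψ y = φ (π y) := by
  classical
  have : ContractibleSpace φ.target := hc.contractibleSpace ⟨_, φ.map_source h₀⟩
  have : LocallyPathConnectedSpace φ.target := φ.open_target.locallyPathConnectedSpace
  let g : C(φ.target, Y) := ⟨fun w => φ.symm w, φ.symm.isOpenEmbedding_restrict.continuous⟩
  obtain ⟨s, ⟨hs0, hs⟩, -⟩ := hπ.existsUnique_continuousMap_lifts g
    ⟨φ (π y₀), φ.map_source h₀⟩ y₀ (φ.left_inv h₀).symm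
  have hs' : ∀ w, π (s w) = φ.symm w := congrFun hs
  have hemb : IsOpenEmbedding s := hπ.isLocalHomeomorph.isOpenEmbedding_of_comp
    (hs ▸ φ.symm.isOpenEmbedding_restrict) s.continuous
  have hm : ∀ y ∈ Set.range s, π y ∈ φ.source := by
    rintro _ ⟨w, rfl⟩
    rw [hs']
    exact φ.map_target w.2
  refine ⟨{
    toFun := fun y => φ (π y)
    invFun := fun w => if h : w ∈ φ.target then s ⟨w, h⟩ else y₀
    source := Set.range s
    target := φ.target
    map_source' := fun y hy => φ.map_source (hm y hy)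
    map_target' := fun w hw => by rw [dif_pos hw]; exact ⟨_, rfl⟩
    left_inv' := ?_
    right_inv' := fun w hw => by rw [dif_pos hw, hs']; exact φ.right_inv hw
    open_source := hemb.isOpen_range
    open_target := φ.open_target
    continuousOn_toFun := φ.continuousOn.comp hπ.continuous.continuousOn hm
    continuousOn_invFun := ?_ }, ⟨_, hs0⟩, rfl, fun y hy => ⟨hm y hy, rfl⟩⟩
  · rintro _ ⟨w, rfl⟩
    have e : φ (π (s w)) = w := by rw [hs']; exact φ.right_inv w.2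
    rw [e, dif_pos w.2]
  · rw [continuousOn_iff_continuous_domRestrict]
    refine s.continuous.congr fun w => ?_
    simp only [Set.domRestrict_apply, dif_pos w.2]

theorem SysB_bump {Y' : Type} [TopologicalSpace Y'] [T2Space Y'] (ψ : OpenPartialHomeomorph Y' E4)
    {K : Set Y'} (hK : IsCompact K) (hs : K ⊆ ψ.source) : ∃ β : Y' → ℝ, (∀ y ∈ K, β y ≠ 0) ∧
      (∀ y, β y ≠ 0 → y ∈ ψ.source) ∧ ∀ χ : OpenPartialHomeomorph Y' E4,
        ContDiffOn ℝ ∞ (fun w => ψ (χ.symm w)) (χ.target ∩ χ.symm ⁻¹' ψ.source) →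
        ContDiffOn ℝ ∞ (fun w => β (χ.symm w)) χ.target := by
  classical
  obtain ⟨U, hU, hKU, hUT, hc⟩ := exists_open_between_and_isCompact_closure
    (hK.image_of_continuousOn (ψ.continuousOn.mono hs)) ψ.open_target
    (by rintro _ ⟨y, hy, rfl⟩; exact ψ.map_source (hs hy))
  obtain ⟨f, hf, hf', -⟩ := hU.exists_contDiff_support_eq (n := ⊤)
  have hC : IsClosed (ψ.symm '' closure U) :=
    (hc.image_of_continuousOn (ψ.continuousOn_symm.mono hUT)).isClosed
  refine ⟨fun y => if y ∈ ψ.source then f (ψ y) else 0, fun y hy => ?_, fun y hy => ?_,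
    fun χ hχ w hw => ?_⟩
  · beta_reduce
    rw [if_pos (hs hy), ← Function.mem_support, hf]
    exact hKU ⟨y, hy, rfl⟩
  · by_contra h
    exact hy (if_neg h)
  · refine ContDiffAt.contDiffWithinAt ?_
    have hcw := χ.continuousAt_symm hw
    by_cases h : χ.symm w ∈ ψ.source
    · have hn := hcw.eventually (ψ.open_source.mem_nhds h)
      refine (hf'.contDiffAt.comp w (hχ.contDiffAt
        (inter_mem (χ.open_target.mem_nhds hw) hn))).congr_of_eventuallyEq ?_
      filter_upwards [hn] with w' hw'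
      exact if_pos hw'
    · have h1 : χ.symm w ∈ (ψ.symm '' closure U)ᶜ := by
        rintro ⟨z, hz, e⟩
        exact h (e ▸ ψ.map_target (hUT hz))
      refine (contDiffAt_const (c := (0 : ℝ))).congr_of_eventuallyEq ?_
      filter_upwards [hcw.eventually (hC.isOpen_compl.mem_nhds h1)] with w' hw'
      split_ifs with h2
      · by_contra h3
        have h4 : ψ (χ.symm w') ∈ U := hf ▸ Function.mem_support.2 h3
        exact hw' ⟨_, subset_closure h4, ψ.left_inv h2⟩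
      · rfl

theorem SysB_symm {Y' Y : Type} [TopologicalSpace Y'] [TopologicalSpace Y] {π : Y' → Y}
    {ψ : OpenPartialHomeomorph Y' E4} {φ : OpenPartialHomeomorph Y E4}
    (hm : ∀ y ∈ ψ.source, π y ∈ φ.source ∧ ψ y = φ (π y)) {w : E4} (hw : w ∈ ψ.target) :
    π (ψ.symm w) = φ.symm w := by
  obtain ⟨h1, h2⟩ := hm _ (ψ.map_target hw)
  rw [ψ.right_inv hw] at h2
  conv_rhs => rw [h2]
  rw [φ.left_inv h1]

theorem Fr.exists_pull {Y' Y : Type} [TopologicalSpace Y'] [TopologicalSpace Y] [CompactSpace Y']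
    [T2Space Y'] [CompactSpace Y] [T2Space Y] (a : Fr Y) {π : Y' → Y} (hπ : IsCoveringMap π) :
    ∃ (a' : Fr Y') (ix : Fin a'.n → Fin a.n), a'.Lift a π ix := by
  choose i₀ hi₀ using fun y => a.cover (π y)
  choose ψ₀ hψ₀ hψt hψm using fun y => SysB_chart hπ (a.φ (i₀ y)) (a.convex _) (hi₀ y)
  obtain ⟨t, ht⟩ := isCompact_univ.elim_finite_subcover (fun y => (ψ₀ y).source)
    (fun y => (ψ₀ y).open_source) fun y _ => Set.mem_iUnion.2 ⟨y, hψ₀ y⟩
  obtain ⟨n, ψ, ix, hcov, htar, hm⟩ : ∃ (n : ℕ) (ψ : Fin n → OpenPartialHomeomorph Y' E4)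
      (ix : Fin n → Fin a.n), (∀ y, ∃ k, y ∈ (ψ k).source) ∧
      (∀ k, (ψ k).target = (a.φ (ix k)).target) ∧
      ∀ k, ∀ y ∈ (ψ k).source, π y ∈ (a.φ (ix k)).source ∧ ψ k y = a.φ (ix k) (π y) := by
    refine ⟨t.card, fun k => ψ₀ (t.equivFin.symm k), fun k => i₀ (t.equivFin.symm k), fun y => ?_,
      fun k => hψt _, fun k => hψm _⟩
    obtain ⟨z, hz, h⟩ := Set.mem_iUnion₂.1 (ht (Set.mem_univ y))
    exact ⟨t.equivFin ⟨z, hz⟩, by simpa only [Equiv.symm_apply_apply] using h⟩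
  have hsym : ∀ k, ∀ w ∈ (ψ k).target, π ((ψ k).symm w) = (a.φ (ix k)).symm w :=
    fun k w hw => SysB_symm (hm k) hw
  have htr : ∀ k l, ContDiffOn ℝ ∞ (fun w => ψ l ((ψ k).symm w))
      ((ψ k).target ∩ (ψ k).symm ⁻¹' (ψ l).source) := fun k l =>
    ((a.trans (ix k) (ix l)).mono fun w hw => ⟨htar k ▸ hw.1, by
      have := (hm l _ hw.2).1
      rwa [hsym k w hw.1] at this⟩).congr fun w hw => by rw [(hm l _ hw.2).2, hsym k w hw.1]
  obtain ⟨K, k1, k2, k3⟩ := isCompact_univ.finite_compact_cover Finset.univ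
    (fun k => (ψ k).source) (fun k _ => (ψ k).open_source) fun y _ => by
      simpa using hcov y
  choose β b1 b2 b3 using fun k => SysB_bump (ψ k) (k1 k) (k2 k)
  have T : ((Fin a.N → ℝ) × (Fin n → ℝ)) ≃L[ℝ]
      Fin (Module.finrank ℝ ((Fin a.N → ℝ) × (Fin n → ℝ))) → ℝ :=
    ContinuousLinearEquiv.ofFinrankEq (Module.finrank_fin_fun ℝ).symm
  have hsm : ∀ k, ContDiffOn ℝ ∞
      (fun w => T (a.e (π ((ψ k).symm w)), fun l => β l ((ψ k).symm w))) (ψ k).target :=
    fun k => T.contDiff.comp_contDiffOn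
      (((htar k ▸ a.e_sm (ix k) : ContDiffOn ℝ ∞ _ (ψ k).target).congr
        fun w hw => by rw [hsym k w hw]).prodMk (contDiffOn_pi.2 fun l => b3 l _ (htr k l)))
  refine ⟨{
    n := n
    φ := ψ
    cover := hcov
    convex := fun k => htar k ▸ a.convex _
    trans := htr
    N := _
    e := fun y => T (a.e (π y), fun l => β l y)
    e_inj := fun y y' h => ?_
    e_sm := hsm
    V := fun k => a.V (ix k)
    V_sm := fun k p q => htar k ▸ a.V_sm _ p q
    indep := fun k w hw v h => ?_ }, ix, ⟨hπ.continuous, hm, htar, fun _ => rfl⟩⟩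
  · obtain ⟨h1, h2⟩ := Prod.ext_iff.1 (T.injective h)
    obtain ⟨k, -, hk⟩ := Set.mem_iUnion₂.1 (k3.subset (Set.mem_univ y))
    have h3 : β k y = β k y' := congrFun h2 k
    have h4 : y' ∈ (ψ k).source := b2 k y' (h3 ▸ b1 k y hk)
    refine (ψ k).injOn (k2 k hk) h4 ?_
    rw [(hm k _ (k2 k hk)).2, (hm k _ h4).2, a.e_inj h1]
  · have h1 := ((hsm k).contDiffAt ((ψ k).open_target.mem_nhds hw)).differentiableAt (by simp)
    have h2 := ((ContinuousLinearMap.fst ℝ _ _ ∘L T.symm.toContinuousLinearMap).hasFDerivAt.comp w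
      h1.hasFDerivAt).congr_of_eventuallyEq (f₁ := fun w => a.e ((a.φ (ix k)).symm w)) (by
        filter_upwards [(ψ k).open_target.mem_nhds hw] with w' hw'
        simp [hsym k w' hw'])
    refine a.indep _ w (htar k ▸ hw) v ?_
    rw [h2.fderiv, ContinuousLinearMap.comp_apply]
    exact (congrArg _ h).trans (map_zero _)

namespace Fr.Lift

variable {Y' Y : Type} [TopologicalSpace Y'] [TopologicalSpace Y] {a' : Fr Y'} {a : Fr Y}
  {π : Y' → Y} {ix : Fin a'.n → Fin a.n} (h : a'.Lift a π ix)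

include h

theorem SysB_loc {g' : Y' → Y'} {g : Y → Y} (e : ∀ y, π (g' y) = g (π y)) {i j : Fin a'.n}
    {w : E4} (hw : w ∈ (a'.φ i).target) (hj : g' ((a'.φ i).symm w) ∈ (a'.φ j).source) :
    w ∈ (a.φ (ix i)).target ∧ g ((a.φ (ix i)).symm w) ∈ (a.φ (ix j)).source ∧
      a'.φ j (g' ((a'.φ i).symm w)) = a.φ (ix j) (g ((a.φ (ix i)).symm w)) := by
  obtain ⟨h1, h2⟩ := h.mem j _ hj
  rw [e, SysB_symm (h.mem i) hw] at h1 h2
  exact ⟨h.target i ▸ hw, h1, h2⟩

theorem smMap {g' : Y' → Y'} {g : Y → Y} (hc : Continuous g') (e : ∀ y, π (g' y) = g (π y))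
    (hg : a.SmMap g) : a'.SmMap g' := by
  refine ⟨hc, fun i j => ?_⟩
  refine ((hg.2 (ix i) (ix j)).mono fun w hw => ?_).congr
    fun w hw => (h.SysB_loc e hw.1 hw.2).2.2
  exact ⟨(h.SysB_loc e hw.1 hw.2).1, (h.SysB_loc e hw.1 hw.2).2.1⟩

theorem Jm_eq {g' : Y' → Y'} {g : Y → Y} (hc : Continuous g') (e : ∀ y, π (g' y) = g (π y))
    {i j : Fin a'.n} {y : Y'} (hi : y ∈ (a'.φ i).source) (hj : g' y ∈ (a'.φ j).source) :
    a'.Jm g' i j y = a.Jm g (ix i) (ix j) (π y) := by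
  have hw := (a'.φ i).map_source hi
  have e1 : (fun w => a'.φ j (g' ((a'.φ i).symm w))) =ᶠ[𝓝 (a'.φ i y)]
      fun w => a.φ (ix j) (g ((a.φ (ix i)).symm w)) := by
    filter_upwards [(a'.FrB_open hc i j).mem_nhds ⟨hw, by
      simpa only [Set.mem_preimage, (a'.φ i).left_inv hi] using hj⟩] with w h3
    exact (h.SysB_loc e h3.1 h3.2).2.2
  rw [Fr.Jm, Fr.Jm, e1.fderiv_eq, h.V_eq, h.V_eq, (h.mem i y hi).2, (h.mem j _ hj).2, e]

theorem SysB_all {g' : Y' → Y'} {g : Y → Y} (hc : Continuous g') (e : ∀ y, π (g' y) = g (π y))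
    {p : Fin a'.n → Fin a'.n → Y' → Prop}
    (hp : ∀ i j y, π y ∈ (a.φ (ix i)).source → g (π y) ∈ (a.φ (ix j)).source →
      a'.Jm g' i j y = a.Jm g (ix i) (ix j) (π y) → p i j y) : a'.All g' p :=
  fun i j y hi hj => hp i j y (h.mem i y hi).1 (e y ▸ (h.mem j _ hj).1) (h.Jm_eq hc e hi hj)

theorem exists_fdyn {k : ℕ} (d : FDyn a k) (F : Y' ≃ₜ Y') (e : ∀ y, π (F y) = d.h (π y)) :
    ∃ d' : FDyn a' k, d'.h = F ∧ (∀ i y, d'.Q i y = d.Q (ix i) (π y)) ∧ (d.Or → d'.Or) := by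
  have e' : ∀ y, π (F.symm y) = d.h.symm (π y) := fun y => by
    rw [eq_comm, Homeomorph.symm_apply_eq, ← e, Homeomorph.apply_symm_apply]
  refine ⟨{
    h := F
    sm := h.smMap F.continuous e d.sm
    sm' := h.smMap F.symm.continuous e' d.sm'
    Q := fun i y => d.Q (ix i) (π y)
    Q_cont := fun i => (d.Q_cont (ix i)).comp h.cont.continuousOn fun y hy => (h.mem i y hy).1
    Q_idem := fun i y hy => d.Q_idem _ _ (h.mem i y hy).1
    Q_id := h.SysB_all (g := id) continuous_id (fun _ => rfl) fun i j y hi hj e1 => ?_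
    Q_h := h.SysB_all F.continuous e fun i j y hi hj e1 => ?_
    δ := d.δ
    L := d.L
    one_le := d.one_le
    small := d.small
    near := fun i y hy => d.near _ _ (h.mem i y hy).1
    bd := h.SysB_all F.continuous e fun i j y hi hj e1 => ?_
    ε := d.ε
    lim := d.lim
    hyp := fun m => h.SysB_all (F.continuous.iterate m)
      (Function.Semiconj.iterate_right (f := π) e m) fun i j y hi hj e1 => ?_ },
    rfl, fun _ _ => rfl, fun ho => h.SysB_all F.continuous e fun i j y hi hj e1 => ?_⟩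
  · rw [e1]
    exact d.Q_id _ _ _ hi hj
  · rw [e1, e]
    exact d.Q_h _ _ _ hi hj
  · rw [e1]
    exact d.bd _ _ _ hi hj
  · rw [e1]
    exact d.hyp m _ _ _ hi hj
  · change OrP (d.Q (ix i) (π y)) (a'.Jm F i j y)
    rw [e1]
    exact ho _ _ _ hi hj

end Fr.Lift

end SX4
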