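import Pool.Agent.P.MP_0a0487_an.SX.FrDefs
import Pool.Agent.P.MP_0a0487_an.SX.CxDefs

/-! Finite covers with the group of all lifts of the iterates. -/

set_option autoImplicit false
set_option linter.unusedSectionVars false

noncomputable section

namespace SX4

open scoped ComplexOrder ContDiff
open Filter Topology Matrix

variable {Y U Λ : Type} [TopologicalSpace Y] [TopologicalSpace U] [Group Λ] [MulAction Λ U]

/-- A smooth map which preserves the frames up to rotations, and the splitting. -/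
def FDyn.Deck {a : Fr Y} {k : ℕ} (d : FDyn a k) (g : Y → Y) : Prop :=
  a.SmMap g ∧ a.All g fun i j x =>
    IsRot (a.Jm g i j x) ∧ a.Jm g i j x * d.Q i x = d.Q j (g x) * a.Jm g i j x

/-- `U` is the universal cover of `Y` with deck group `S`. The group `Λ` consists of lifts of the
iterates of a map of a finite quotient of `Y`, and `deg` is the order of the iterate. -/
structure Sys (a : Fr Y) (d : FDyn a 4) (q : U → Y) (deg : Λ →* Multiplicative ℤ) (S : Subgroup Λ)
    (D : Λ →* (Y ≃ₜ Y)) (t : Λ) : Prop where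
  ori : a.Ori
  or : d.Or
  ch : d.Ch
  cont : ∀ l : Λ, Continuous fun x : U => l • x
  cov : IsQuotientCoveringMap q S
  normal : S.Normal
  le : S ≤ deg.ker
  fin : S.relIndex deg.ker ≠ 0
  fg : deg.ker.FG
  free : ∀ l ∈ deg.ker, ∀ x : U, l • x = x → l = 1
  act : ∀ l x, D l (q x) = q (l • x)
  deg_t : deg t = Multiplicative.ofAdd 1
  h_eq : D t = d.h
  deck : ∀ l ∈ deg.ker, d.Deck (D l)

/-- The cohomological data of a finite cover. -/
structure Pk {V0 V1 V2 : Type} [AddCommGroup V0] [Module ℂ V0] [AddCommGroup V1] [Module ℂ V1]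
    [AddCommGroup V2] [Module ℂ V2] (c : Cx V0 V1 V2) (deg : Λ →* Multiplicative ℤ)
    (S : Subgroup Λ) [S.Normal] (D : Λ →* (Y ≃ₜ Y)) (p : c.Per S) (m : Λ → c.Mor) : Prop where
  nd : c.ND
  fd1 : FiniteDimensional ℂ c.H1
  fd2 : FiniteDimensional ℂ c.H2
  eqv : ∀ l, p.Eqv (m l) (MulAut.conjNormal l).toMonoidHom
  mul2 : ∀ l l', (m (l * l')).h2 = (m l').h2 ∘ₗ (m l).h2
  one2 : ∀ s ∈ S, (m s).h2 = LinearMap.id
  lef : ∀ l, 0 < (deg l).toAdd ∨ (l ∈ deg.ker ∧ l ∉ S) →
    (Function.fixedPoints (D l)).Finite ∧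
      (Nat.card (Function.fixedPoints (D l)) : ℂ) = (m l).lef (m l⁻¹)

end SX4
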